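import Pool.Agent.SLZ.FAll

/-!
# SLZ: reduction of the frozen statement to one step (architect helper38)
-/

set_option autoImplicit false

noncomputable section

namespace Pool.Agent.SLZ

open Polynomial

/-- the property `GL_n(A)` is of type `FP_k` for `n` large -/
def StabFP (A : Type) [CommRing A] : Prop := ∀ k : ℕ, ∃ N : ℕ, ∀ n ≥ N, FPG k (GL (Fin n) A)

theorem asm_iso {G H : Type} [Group G] [Group H] (k : ℕ) (e : G ≃* H) (h : FPG k G) : FPG k H :=
  all_FSub.1 G H k ⟨e⟩ h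

/-- `GL` of isomorphic rings -/
def asmGL {R S : Type} [CommRing R] [CommRing S] (n : ℕ) (e : R ≃+* S) :
    GL (Fin n) R ≃* GL (Fin n) S :=
  Units.mapEquiv (RingEquiv.mapMatrix (m := Fin n) e).toMulEquiv

theorem asm_ring {R S : Type} [CommRing R] [CommRing S] (e : R ≃+* S) (h : StabFP R) :
    StabFP S := by
  intro k
  obtain ⟨N, hN⟩ := h k
  exact ⟨N, fun n hn => asm_iso k (asmGL n e) (hN n hn)⟩

theorem asm_GLZ (n k : ℕ) : FPG k (GL (Fin n) ℤ) :=
  asm_iso k ((LinearMap.GeneralLinearGroup.generalLinearEquiv ℤ (Fin n → ℤ)).symm.trans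
    (Matrix.GeneralLinearGroup.toLin (n := Fin n) (R := ℤ)).symm) (all_FGL (Fin n → ℤ) k)

theorem asm_Z : StabFP ℤ := fun k => ⟨0, fun n _ => asm_GLZ n k⟩

theorem asm_0 : StabFP (MvPolynomial (Fin 0) ℤ) :=
  asm_ring (MvPolynomial.isEmptyRingEquiv ℤ (Fin 0)).symm asm_Z

/-- the inductive step -/
def StepFP : Prop := ∀ r : ℕ, StabFP (MvPolynomial (Fin r) ℤ) → StabFP (MvPolynomial (Fin r) ℤ)[X]

theorem asm_all (h : StepFP) (r : ℕ) : StabFP (MvPolynomial (Fin r) ℤ) := by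
  induction r with
  | zero => exact asm_0
  | succ r ih =>
    exact asm_ring (MvPolynomial.finSuccEquiv ℤ r).symm.toRingEquiv (h r ih)

/-- `SL_n` has finite index in `GL_n` if the ring has finitely many units -/
theorem asm_SL {R : Type} [CommRing R] [Finite Rˣ] (n k : ℕ) (h : FPG k (GL (Fin n) R)) :
    FPG k (Matrix.SpecialLinearGroup (Fin n) R) := by
  let H : Subgroup (GL (Fin n) R) := (Matrix.GeneralLinearGroup.det (n := Fin n) (R := R)).ker
  have hH : H.FiniteIndex := inferInstance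
  have h1 : FPG k H := all_FSub.2.1 (GL (Fin n) R) H k hH h
  refine asm_iso k ?_ h1
  refine (MulEquiv.ofBijective ((Matrix.SpecialLinearGroup.toGL (n := Fin n) (R := R)).codRestrict
    H fun g => ?_) ⟨?_, ?_⟩).symm
  · rw [MonoidHom.mem_ker]
    ext
    simp
  · intro a b hab
    have h2 : Matrix.SpecialLinearGroup.toGL a = Matrix.SpecialLinearGroup.toGL b :=
      congrArg Subtype.val hab
    exact Matrix.SpecialLinearGroup.toGL_injective h2
  · rintro ⟨g, hg⟩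
    rw [MonoidHom.mem_ker] at hg
    refine ⟨⟨g.1, ?_⟩, ?_⟩
    · have := congrArg Units.val hg
      simpa using this
    · apply Subtype.ext
      ext
      rfl

instance asm_units (r : ℕ) : Finite (MvPolynomial (Fin r) ℤ)ˣ := by
  have h : ∀ u : (MvPolynomial (Fin r) ℤ)ˣ, ∃ c : ℤˣ, (u : MvPolynomial (Fin r) ℤ) =
      MvPolynomial.C (c : ℤ) := by
    intro u
    obtain ⟨c, hc, h1⟩ := MvPolynomial.isUnit_iff_eq_C_of_isReduced.1 u.isUnit
    obtain ⟨c, rfl⟩ := hc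
    exact ⟨c, h1⟩
  choose c hc using h
  refine Finite.of_injective c fun u v huv => Units.ext ?_
  rw [hc u, hc v, huv]

/-- the frozen statement -/
theorem asm_final (h : StepFP) : ∀ m r : ℕ, ∃ N : ℕ, ∀ n : ℕ, N ≤ n →
    FPG m (Matrix.SpecialLinearGroup (Fin n) (MvPolynomial (Fin r) ℤ)) := by
  intro m r
  obtain ⟨N, hN⟩ := asm_all h r m
  exact ⟨N, fun n hn => asm_SL n m (hN n hn)⟩

/-- the frozen statement, in its own format -/
theorem asm_frozen (h : StepFP) : ∀ m r : ℕ, ∃ N : ℕ, ∀ n : ℕ, N ≤ n →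
      ∃ (k : ℕ → ℕ)
        (d : ∀ i : ℕ,
          (Fin (k (i + 1)) → MonoidAlgebra ℤ (Matrix.SpecialLinearGroup (Fin n) (MvPolynomial (Fin r) ℤ))) →ₗ[MonoidAlgebra ℤ (Matrix.SpecialLinearGroup (Fin n) (MvPolynomial (Fin r) ℤ))]
          (Fin (k i) → MonoidAlgebra ℤ (Matrix.SpecialLinearGroup (Fin n) (MvPolynomial (Fin r) ℤ))))
        (ε : (Fin (k 0) → MonoidAlgebra ℤ (Matrix.SpecialLinearGroup (Fin n) (MvPolynomial (Fin r) ℤ))) →+ ℤ),
        (∀ (g : Matrix.SpecialLinearGroup (Fin n) (MvPolynomial (Fin r) ℤ))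
            (v : Fin (k 0) → MonoidAlgebra ℤ (Matrix.SpecialLinearGroup (Fin n) (MvPolynomial (Fin r) ℤ))),
            ε (MonoidAlgebra.of ℤ (Matrix.SpecialLinearGroup (Fin n) (MvPolynomial (Fin r) ℤ)) g • v) = ε v) ∧
        Function.Surjective ε ∧
        (0 < m → ∀ v : Fin (k 0) → MonoidAlgebra ℤ (Matrix.SpecialLinearGroup (Fin n) (MvPolynomial (Fin r) ℤ)),
            ε v = 0 ↔ ∃ w, d 0 w = v) ∧
        (∀ i : ℕ, i + 1 < m →
          ∀ v : Fin (k (i + 1)) → MonoidAlgebra ℤ (Matrix.SpecialLinearGroup (Fin n) (MvPolynomial (Fin r) ℤ)),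
            d i v = 0 ↔ ∃ w, d (i + 1) w = v) := by
  intro m r
  obtain ⟨N, hN⟩ := asm_final h m r
  exact ⟨N, fun n hn => all_FFmt _ m (hN n hn)⟩

/-- the case of one variable -/
theorem asm_one (h : StabFP ℤ[X]) (k : ℕ) : ∃ N : ℕ, ∀ n ≥ N,
    FPG k (Matrix.SpecialLinearGroup (Fin n) ℤ[X]) := by
  obtain ⟨N, hN⟩ := h k
  haveI : Finite ℤ[X]ˣ := by
    have h : ∀ u : ℤ[X]ˣ, ∃ c : ℤˣ, (u : ℤ[X]) = C (c : ℤ) := by
      intro u
      obtain ⟨c, hc, h1⟩ := Polynomial.isUnit_iff.1 u.isUnit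
      obtain ⟨c, rfl⟩ := hc
      exact ⟨c, h1.symm⟩
    choose c hc using h
    refine Finite.of_injective c fun u v huv => Units.ext ?_
    rw [hc u, hc v, huv]
  exact ⟨N, fun n hn => asm_SL n k (hN n hn)⟩

end Pool.Agent.SLZ
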