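import Pool.Agent.SLZ.Defs

/-!
# SLZ, part F: statements on finiteness properties (architect helper38)
-/

set_option autoImplicit false
set_option linter.unusedVariables false

noncomputable section

namespace Pool.Agent.SLZ

/-- **FM1.** Formal properties of `FPm`.

Proof. Everything by induction on `k`, (2) together with (1). (1) Isomorphisms. (2) Extensions: `F_A → A`, `F_C → C` onto,
lift `F_C → B` (`F_C` is free), `F_A ⊕ F_C → B` is onto and its kernel is an extension of the kernel of `F_C → C` by the kernel of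
`F_A → A` (`Fin m → R` times `Fin n → R` is `Fin (m + n) → R`). (3) Quotients: `F → B` onto with kernel `K` in `FP_k`; the kernel
of `F → C` is an extension of `A` by `K`: (2). (4) `id`, kernel `0`, `0` is finite and has the resolution
`n = 0`. (5) `FP_(k+1)` implies `FP_k`. (6) noetherian rings: kernels are finitely generated. -/
def St_FM1 : Prop := ∀ (R : Type) [Ring R],
  (∀ (k : ℕ) (M N : Type) [AddCommGroup M] [Module R M] [AddCommGroup N] [Module R N],
    (M ≃ₗ[R] N) → FPm R k M → FPm R k N) ∧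
  (∀ (k : ℕ) (A B C : Type) [AddCommGroup A] [Module R A] [AddCommGroup B] [Module R B]
    [AddCommGroup C] [Module R C] (f : A →ₗ[R] B) (g : B →ₗ[R] C), Function.Injective f →
    Function.Surjective g → LinearMap.range f = LinearMap.ker g →
    (FPm R k A → FPm R k C → FPm R k B) ∧ (FPm R k A → FPm R (k + 1) B → FPm R (k + 1) C)) ∧
  (∀ k n : ℕ, FPm R k (Fin n → R)) ∧
  (∀ (k : ℕ) (M : Type) [AddCommGroup M] [Module R M], FPm R (k + 1) M → FPm R k M) ∧
  (IsNoetherianRing R → ∀ (k : ℕ) (M : Type) [AddCommGroup M] [Module R M],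
    Module.Finite R M → FPm R k M)

/-- **FM2.** Kernels (Schanuel).

Proof. (1) `f : F → M`, `f' : F' → M` onto, `F`, `F'` free: the pull back `P = {(x, y) | f x = f' y}` is an extension of `F'` by
`ker f` and of `F` by `ker f'`, and both split: `ker f ⊕ F' ≅ ker f' ⊕ F`. So (`St_FM1`) if `ker f'` is `FP_k`, then `ker f ⊕ F'`
is, and `ker f = (ker f ⊕ F') / F'` is: for `k = 0` as a quotient; for `k + 1` by `St_FM1` (2), second part. (2) Let
`F → B` be onto with kernel `K`; the kernel `K'` of `F → C` is `FP_k` by (1) and it is an extension of `A` by `K`;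
if `k = 0`: `A` is a quotient of `K'`; if `k = l + 1`: `K` is `FP_l` (`F → B` can be chosen), `St_FM1`. -/
def St_FM2 : Prop := ∀ (R : Type) [Ring R],
  (∀ (k : ℕ) (M : Type) [AddCommGroup M] [Module R M], FPm R (k + 1) M →
    ∀ (n : ℕ) (f : (Fin n → R) →ₗ[R] M), Function.Surjective f → FPm R k (LinearMap.ker f)) ∧
  (∀ (k : ℕ) (A B C : Type) [AddCommGroup A] [Module R A] [AddCommGroup B] [Module R B]
    [AddCommGroup C] [Module R C] (f : A →ₗ[R] B) (g : B →ₗ[R] C), Function.Injective f →
    Function.Surjective g → LinearMap.range f = LinearMap.ker g →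
    FPm R k B → FPm R (k + 1) C → FPm R k A)

/-- **FBr.** The algebraic part of Brown's criterion.

Proof. Induction on `k`. `k = 0`: `M` is a quotient of `C 0`. `k + 1`: `K = ker ε` with the resolution `C 1, C 2, ..` (`d 0`
restricted to `K`) is `FP_k`; `0 → K → C 0 → M → 0` and `St_FM1` (2), second part. -/
def St_FBr : Prop := ∀ (R : Type) [Ring R] (k : ℕ) (C : ℕ → Type) [∀ i, AddCommGroup (C i)]
  [∀ i, Module R (C i)] (M : Type) [AddCommGroup M] [Module R M]
  (d : ∀ i, C (i + 1) →ₗ[R] C i) (e : C 0 →ₗ[R] M), Function.Surjective e →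
  (0 < k → LinearMap.range (d 0) = LinearMap.ker e) →
  (∀ i, i + 1 < k → LinearMap.range (d (i + 1)) = LinearMap.ker (d i)) →
  (∀ i ≤ k, FPm R (k - i) (C i)) → FPm R k M

/-- **FInd.** Induced modules.

Proof. Let `t : G ⧸ H → G` be a section (`Quotient.out`). For an `H`-module `M` (a module over `MonoidAlgebra ℤ H`) let `Ind M` be
`G ⧸ H →₀ M` with `g · (c, m) = (g c, h m)`, `h = t (g c)⁻¹ g t c ∈ H` (a representation of `G`). `Ind` is a functor (linear maps
coordinatewise), so it preserves injective and surjective maps and kernels (`ker (Ind f) = Ind (ker f)`), it is additive and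
`Ind (MonoidAlgebra ℤ H)` is free of rank one (basis `(t-class of 1, 1)`: `(c, h) ↦ t c h` is a bijection to `G`). So by induction
on `k`: `M` is `FP_k` implies `Ind M` is `FP_k`. `Ind` of the trivial module is the permutation module of `G ⧸ H`. -/
def St_FInd : Prop := ∀ (G : Type) [Group G] (H : Subgroup G) (k : ℕ), FPG k H →
  FPm (MonoidAlgebra ℤ G) k (PermM G (G ⧸ H))

/-- **FPerm.** Permutation modules.

Proof. Induction on the number of orbits: `T` is the disjoint union of an invariant subset with fewer orbits and one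
orbit `G t ≅ G ⧸ stabilizer`; `St_FM1` (2) and (1). -/
def St_FPerm : Prop := ∀ (G T : Type) [Group G] [MulAction G T] (k : ℕ), FinOrb G T →
  (∀ t : T, FPG k (MulAction.stabilizer G t)) → FPm (MonoidAlgebra ℤ G) k (PermM G T)

/-- **FBG.** Brown's criterion for chain complexes of permutation modules.

Proof. `St_FBr` for `C p = PermM G (X p)` and `St_FPerm` (`FinOrb` is only known for `p ≤ k`; `FBr` only needs `i ≤ k`). -/
def St_FBG : Prop := ∀ (G : Type) [Group G] (k : ℕ) (X : ℕ → Type) [∀ p, MulAction G (X p)]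
  (d : ∀ p, (X (p + 1) →₀ ℤ) →+ (X p →₀ ℤ)),
  (∀ p (g : G) c, d p (c.mapDomain (g • ·)) = (d p c).mapDomain (g • ·)) →
  Nonempty (X 0) →
  (∀ c, ((d 0 c).sum fun _ m => m) = 0) → (∀ p c, d p (d (p + 1) c) = 0) →
  (0 < k → ∀ c : X 0 →₀ ℤ, (c.sum fun _ m => m) = 0 → ∃ b, d 0 b = c) →
  (∀ p, p + 1 < k → ∀ c, d p c = 0 → ∃ b, d (p + 1) b = c) →
  (∀ p ≤ k, FinOrb G (X p)) →
  (∀ p ≤ k, ∀ x : X p, FPG (k - p) (MulAction.stabilizer G x)) → FPG k G

/-- **FBL.** Brown's criterion for simplicial complexes (lists of vertices).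

Proof. `St_FBG` for `X p = {l // l ∈ A.s ∧ l.length = p + 1}` with `g • l = l.map (g • ·)`; the stabilizer of a list is the
pointwise stabilizer of its entries. The boundary of a list of length 1 is `[]`, so `Conn A (k + 1)` at the lengths
`0` (`A` is not empty), `1` (sum of the coefficients), `p + 2`. `bd` commutes with `List.map (g • ·)`. -/
def St_FBL : Prop := ∀ (G V : Type) [Group G] [MulAction G V] (A : Cx V) (k : ℕ), [] ∈ A.s →
  (∀ (g : G) l, l ∈ A.s → l.map (g • ·) ∈ A.s) → Conn A (k + 1) →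
  (∀ j ≤ k + 1, ∃ F : Finset (List V), ∀ l ∈ A.s, l.length = j → ∃ g : G, l.map (g • ·) ∈ F) →
  (∀ l ∈ A.s, l ≠ [] → ∀ i, i + l.length ≤ k + 1 →
    FPG i (fixingSubgroup G {x | x ∈ l})) → FPG k G

/-- **FExt.** Extensions.

Proof. `FPG k Q` gives an exact sequence of free `ℤ[Q]`-modules `F_k → .. → F_0 → ℤ → 0` of finite rank (unfold `FPm`). Over
`ℤ[G]` the module `ℤ[Q]` is the permutation module of `Q`, `Q ≅ G ⧸ ker`, of type `FP_k` by `St_FInd`. Claim: if the `Q`-module `M`
is `FP_i`, `i ≤ k`, then `M` is `FP_i` over `ℤ[G]`; induction on `i` with `St_FM1` (2): `0 → K → F → M → 0`, `K` is `FP_(i-1)` and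
`F` is `FP_i` over `ℤ[G]`. (Restriction of modules along `ℤ[G] → ℤ[Q]`: `Module.compHom`.) -/
def St_FExt : Prop := ∀ (G Q : Type) [Group G] [Group Q] (f : G →* Q) (k : ℕ),
  Function.Surjective f → FPG k f.ker → FPG k Q → FPG k G

/-- **FSub.** Isomorphic groups, subgroups of finite index, small groups.

Proof. (1) Transport of modules along `ℤ[G] ≅ ℤ[H]`. (2) restriction: `ℤ[G]` is a free `ℤ[H]`-module of finite rank (cosets),
induction on `k`. (3) `ℤ[G]` is noetherian: for finite `G` it is a finitely generated `ℤ`-module; for `G = ℤ^n`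
it is a commutative ring of finite type (`AddMonoidAlgebra.finiteType_of_fg` or `MonoidAlgebra.finiteType_of_fg`), or use
`St_FExt` and `ℤ`. -/
def St_FSub : Prop :=
  (∀ (G H : Type) [Group G] [Group H] (k : ℕ), Nonempty (G ≃* H) → FPG k G → FPG k H) ∧
  (∀ (G : Type) [Group G] (H : Subgroup G) (k : ℕ), H.FiniteIndex → FPG k G → FPG k H) ∧
  (∀ (G : Type) [Group G] (k : ℕ), Finite G → FPG k G) ∧
  (∀ (A : Type) [AddCommGroup A] (k : ℕ), Module.Finite ℤ A → FPG k (Multiplicative A))

/-- **FGL.** `GL_m(ℤ)` is of type `FP_∞` (Borel, Serre). Here for every free `ℤ`-module `W` of finite rank.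

Proof. Induction on the rank; `W = 0`: trivial group. Complex: lists `l` of nonzero vectors of `W` for which there is a norm
(`NR.Nms`, `NR.Adm`) for which all `v ∈ l` are shortest vectors of `W ∖ 0` (`V = ℚ ⊗ W`, `A = ℤ`). Exact at all lengths: repeat the
proof of `NR.St_CCN` for lists (a cone, or the union of two subcomplexes with exact intersection; a cycle lives on
the convex hull of finitely many norms) or deduce it. Finitely many orbits of lists of length `j` (spanning
a subspace `U`: the lists in `W ∩ U` are finitely many up to `GL(W ∩ U)`: `NR.St_Lam`, `NR.St_Box`; `GL(W)` is transitive on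
the summands of rank `r` and maps onto `GL(W ∩ U)`). The stabilizer of `l ≠ []` (all vectors of `l` are fixed, so all of
`U ∩ W`): `g ↦` the automorphism of `W / (W ∩ U)`, kernel `Hom(W / (W ∩ U), W ∩ U)`, `St_FExt`, `St_FSub`, induction. `St_FBL`. -/
def St_FGL : Prop := ∀ (W : Type) [AddCommGroup W] [Module.Free ℤ W] [Module.Finite ℤ W] (k : ℕ),
  FPG k (W ≃ₗ[ℤ] W)

/-- **FFmt.** The format of the frozen statement.

Proof. Unfold `FPG`: `P_0 → ℤ` onto with kernel `K_1`, `P_1 → K_1` onto, ..; `k i` the ranks, `d i` the compositions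
`P_(i+1) → K_(i+1) → P_i` for `i < m` and `0` (rank `0`) otherwise. -/
def St_FFmt : Prop := ∀ (G : Type) [Group G] (m : ℕ), FPG m G →
  ∃ (k : ℕ → ℕ)
    (d : ∀ i : ℕ, (Fin (k (i + 1)) → MonoidAlgebra ℤ G) →ₗ[MonoidAlgebra ℤ G]
      (Fin (k i) → MonoidAlgebra ℤ G))
    (ε : (Fin (k 0) → MonoidAlgebra ℤ G) →+ ℤ),
    (∀ (g : G) (v : Fin (k 0) → MonoidAlgebra ℤ G), ε (MonoidAlgebra.of ℤ G g • v) = ε v) ∧
    Function.Surjective ε ∧
    (0 < m → ∀ v : Fin (k 0) → MonoidAlgebra ℤ G, ε v = 0 ↔ ∃ w, d 0 w = v) ∧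
    (∀ i : ℕ, i + 1 < m → ∀ v : Fin (k (i + 1)) → MonoidAlgebra ℤ G,
      d i v = 0 ↔ ∃ w, d (i + 1) w = v)

end Pool.Agent.SLZ
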