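import Pool.Agent.SLZ.Defs

/-!
# SLZ, part M: statements of the Morse library (lists of vertices) (architect helper38)
-/

set_option autoImplicit false
set_option linter.unusedVariables false

noncomputable section

namespace Pool.Agent.SLZ

/-- the link of a vertex -/
def lk {V : Type} (A : Cx V) (v : V) : Cx V where
  s := {l | v ∉ l ∧ (v :: l) ∈ A.s}
  mono l l' h hl := ⟨fun h1 => hl.1 (h h1), A.mono _ _ (List.cons_subset_cons v h) hl.2⟩

/-- the complex without a vertex -/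
def del {V : Type} (A : Cx V) (v : V) : Cx V where
  s := {l | v ∉ l ∧ l ∈ A.s}
  mono l l' h hl := ⟨fun h1 => hl.1 (h h1), A.mono _ _ h hl.2⟩

/-- comparability -/
def cmp {P : Type} [LE P] (x y : P) : Prop := x ≤ y ∨ y ≤ x

/-- **MA.** Formal properties of the boundary, pushing a chain off a vertex, cones, unions.

Proof. (1)-(4) induction on lists; `bd (v c) = c - v (bd c)`. (5) `c = c_0 + c_1`, `c_1` the part of `c` on the lists which contain `v`
(so `v :: l ∈ A` for these lists, and for their sublists). `bd c_1 = bd c - bd c_0` lives on lists without `v`, so on the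
link, and `bd (bd c_1) = 0`; so `bd c_1 = bd b` with `b` on the link. `x = c_1 - b` is a cycle and `x = bd (v x)`. So
`c = (c_0 + b) + bd (v x)`. (6) `z = bd (v z)`. (7) Mayer-Vietoris: `z = a + b`, `a` on the lists of `A`, `b` on
lists of `B`; `bd a = - bd b` is a cycle on `A ∩ B`, so `bd a = bd c`, `c` on `A ∩ B`; `a - c` and `b + c` are cycles. -/
def St_MA : Prop := ∀ V : Type,
  (∀ c : List V →₀ ℤ, bd (bd c) = 0) ∧
  (∀ (v : V) (c : List V →₀ ℤ), bd (consC v c) = c - consC v (bd c)) ∧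
  (∀ (A : Cx V) (j : ℕ), (∀ c ∈ Ch A.s 0, bd c = 0) ∧ ∀ c ∈ Ch A.s (j + 1), bd c ∈ Ch A.s j) ∧
  (∀ (W : Type) (f : V → W) (c : List V →₀ ℤ),
    bd (c.mapDomain (List.map f)) = (bd c).mapDomain (List.map f)) ∧
  (∀ (A : Cx V) (v : V) (j : ℕ), Ex (lk A v) j → ∀ c ∈ Ch A.s (j + 1), bd c ∈ Ch (del A v).s j →
    ∃ c' ∈ Ch (del A v).s (j + 1), ∃ e ∈ Ch A.s (j + 2), c = c' + bd e) ∧
  (∀ (A : Cx V) (v : V), (∀ l ∈ A.s, (v :: l) ∈ A.s) → ∀ j, Ex A j) ∧
  (∀ (A B C D : Cx V) (j : ℕ), (∀ l, l ∈ C.s ↔ l ∈ A.s ∨ l ∈ B.s) →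
    (∀ l, l ∈ D.s ↔ l ∈ A.s ∧ l ∈ B.s) → (Ex A 0 → Ex B 0 → Ex C 0) ∧
    (Ex A (j + 1) → Ex B (j + 1) → Ex D j → Ex C (j + 1)))

/-- the descending link of `v` in `S` relative to `S0` -/
def dlk {V Λ : Type} [LT Λ] (r : V → V → Prop) (f : V → Λ) (S0 S : Set V) (v : V) : Set V :=
  {u | u ∈ S ∧ u ≠ v ∧ r v u ∧ (u ∈ S0 ∨ f u < f v)}

/-- **MB.** Morse lemma for flag complexes.

Proof. PUSH: let `c` be a chain of length `j + 1` on `Fl r S` with `bd c` on `Fl r S0`, and all descending links exact at length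
`j`. Then `c = c' + bd e`, `c'` on `Fl r S0`, `e` on `Fl r S`. Well-founded induction on the largest value of `f` on the vertices of
the support of `c` outside of `S0` (if there are none take `c' = c`), and for this value `m` induction on the number of the
vertices `v ∉ S0` of the support with `f v = m`: `S' = S0 ∪ {f < m} ∪ F`, `F` the finite set of these vertices, `v ∈ F`; the link of
`v` in `Fl r S'` is `Fl r (dlk ..)` (adjacent different vertices outside of `S0` have different values): `St_MA` (5). (1) a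
cycle of length `0` is in `S0`; a cycle of length `j + 1 < c` is pushed into `S0`, its boundary is `0`, links exact at
`j < c - 1`. (2) `z` on `S0`, `z = bd c`, `c` on `S`, push `c` (links exact at the length of `z`). -/
def St_MB : Prop := St_MA → ∀ (V Λ : Type) [LinearOrder Λ] [WellFoundedLT Λ] (r : V → V → Prop)
  (f : V → Λ) (S0 S : Set V), (∀ x, r x x) → (∀ x y, r x y → r y x) → S0 ⊆ S →
  (∀ u ∈ S, ∀ v ∈ S, u ∉ S0 → v ∉ S0 → u ≠ v → r u v → f u ≠ f v) → ∀ c : ℕ,
  (Conn (Fl r S0) c → (∀ v ∈ S, v ∉ S0 → Conn (Fl r (dlk r f S0 S v)) (c - 1)) →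
    Conn (Fl r S) c) ∧
  (Conn (Fl r S) c → (∀ v ∈ S, v ∉ S0 → Conn (Fl r (dlk r f S0 S v)) c) → Conn (Fl r S0) c)

/-- **MC.** Stable connectivity: formal properties.

Proof. (1) `W` empty: `Conn (Fl q Z) 0` is trivial; lists in `Sum.inl '' S` are lists in `S`. (2) trivial. (3) `c = 0`: let `Z` be
`(b-2)`-acyclic; CLAIM for finite `F ⊆ V` the join `F * Z` is; induction on the number of elements of `F`, all `F` of smaller size: add
`v` to `F`, the link of `v` in `(F ∪ v) * Z` is `(F ∩ r v) * Z`: `St_MA` (5), as in `St_MB`. For general `S`: a cycle has finite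
support. (4) cones: the join with `Z` is a cone (`St_MA` (6)). (5) joins: `(S ∪ T) * Z` is isomorphic to `S * (T * Z)` via the
evident map `V ⊕ W → V ⊕ (V ⊕ W)` (injective on the vertices, and it respects adjacency both ways). (6) transport. (7) as `St_MB`
for `Sum.inl '' S0 ∪ Sum.inr '' Z ⊆ Sum.inl '' S ∪ Sum.inr '' Z` with the function `f` on the left and anything on the right; the
descending link of `v` is the join of `dlk ..` with `Z`. -/
def St_MC : Prop := St_MA → St_MB → ∀ (V : Type) (r : V → V → Prop), (∀ x, r x x) →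
  (∀ x y, r x y → r y x) → ∀ (S T : Set V) (c : ℕ),
  (SConn r S c → Conn (Fl r S) c) ∧
  (SConn r S c → ∀ c' ≤ c, SConn r S c') ∧
  SConn r S 0 ∧
  ((∃ v ∈ S, ∀ u ∈ S, r v u) → SConn r S c) ∧
  (∀ c', Disjoint S T → (∀ u ∈ S, ∀ v ∈ T, r u v) → SConn r S c → SConn r T c' →
    SConn r (S ∪ T) (c + c')) ∧
  (∀ (W : Type) (q : W → W → Prop) (g : V → W), (∀ x, q x x) → (∀ x y, q x y → q y x) →
    Set.InjOn g S → (∀ x ∈ S, ∀ y ∈ S, r x y ↔ q (g x) (g y)) →
    (SConn r S c ↔ SConn q (g '' S) c)) ∧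
  (∀ (Λ : Type) [LinearOrder Λ] [WellFoundedLT Λ] (f : V → Λ), T ⊆ S →
    (∀ u ∈ S, ∀ v ∈ S, u ∉ T → v ∉ T → u ≠ v → r u v → f u ≠ f v) →
    (SConn r T c → (∀ v ∈ S, v ∉ T → SConn r (dlk r f T S v) (c - 1)) → SConn r S c) ∧
    (SConn r S c → (∀ v ∈ S, v ∉ T → SConn r (dlk r f T S v) c) → SConn r T c))

end Pool.Agent.SLZ
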