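import Pool.Agent.SLZ.DefsP
import Pool.Agent.SLZ.StF
import Pool.Agent.SLZ.StM

/-!
# SLZ, part F5: block groups over a ring `A` whose groups `GL_n(A)` are of type `FP_k` for `n` large (architect helper38)

`G_n(a, b)`: the automorphisms of `A^a × A^n × A^b` which fix the first `a` basis vectors and the last `b` coordinate
functionals. Result: it is `FP_k` for `n ≥ C_k`, with `C_k` independent of `a`, `b`; so all `PS A w` whose blocks have
at least `C_k` elements are `FP_k`.
-/

set_option autoImplicit false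
set_option linter.unusedVariables false

noncomputable section

namespace Pool.Agent.SLZ

/-- the automorphisms which fix the vectors in `S` and the functionals in `T` -/
def FixG {A V : Type} [CommRing A] [AddCommGroup V] [Module A V] (S : Set V)
    (T : Set (V →ₗ[A] A)) : Subgroup (V ≃ₗ[A] V) where
  carrier := {g | (∀ v ∈ S, g v = v) ∧ ∀ l ∈ T, ∀ v, l (g v) = l v}
  one_mem' := ⟨fun _ _ => rfl, fun _ _ _ => rfl⟩
  mul_mem' := by
    rintro g h ⟨h1, h2⟩ ⟨h3, h4⟩
    refine ⟨fun v hv => ?_, fun l hl v => ?_⟩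
    · rw [LinearEquiv.mul_apply, h3 v hv, h1 v hv]
    · rw [LinearEquiv.mul_apply, h2 l hl, h4 l hl]
  inv_mem' := by
    rintro g ⟨h1, h2⟩
    refine ⟨fun v hv => ?_, fun l hl v => ?_⟩
    · have h := congrArg (g⁻¹ : V ≃ₗ[A] V) (h1 v hv)
      rw [← LinearEquiv.mul_apply, inv_mul_cancel] at h
      exact h.symm
    · have h := h2 l hl ((g⁻¹ : V ≃ₗ[A] V) v)
      rw [← LinearEquiv.mul_apply, mul_inv_cancel] at h
      exact h.symm

/-- `S` spans the first `a` vectors of a basis, `T` its last `b` coordinate functionals -/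
def StdF {A V : Type} [CommRing A] [AddCommGroup V] [Module A V] (a n b : ℕ) (S : Set V)
    (T : Set (V →ₗ[A] A)) : Prop :=
  ∃ e : Module.Basis (Fin a ⊕ (Fin n ⊕ Fin b)) A V,
    Submodule.span A S = Submodule.span A (Set.range fun i => e (Sum.inl i)) ∧
    Submodule.span A T = Submodule.span A (Set.range fun i => e.coord (Sum.inr (Sum.inr i)))

/-- all groups `G_n(a, b)` are of type `FP_k` -/
def FPab (A : Type) [CommRing A] (k a n b : ℕ) : Prop :=
  ∀ (V : Type) [AddCommGroup V] [Module A V] (S : Set V) (T : Set (V →ₗ[A] A)),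
    StdF a n b S T → FPG k (FixG S T)

/-- kernels of surjective maps of free modules are free in the range `n ≥ q + s` -/
def KerFree (A : Type) [CommRing A] (s : ℕ) : Prop :=
  ∀ (n q : ℕ) (f : (Fin n → A) →ₗ[A] (Fin q → A)), Function.Surjective f → q + s ≤ n →
    Nonempty (Module.Basis (Fin (n - q)) A (LinearMap.ker f))

/-- vertices with a vector in `A^n`; simplices: the vectors `(1, x u)`, `u` in the list (different vertices), are
unimodular: there are dual functionals `(c, y) ↦ d c + ∑ z_j y_j` -/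
def AffC {A X : Type} [CommRing A] {n : ℕ} (x : X → Fin n → A) : Cx X where
  s := {l | ∀ u ∈ l, ∃ (d : A) (z : Fin n → A), d + ∑ j, z j * x u j = 1 ∧
    ∀ w ∈ l, w ≠ u → d + ∑ j, z j * x w j = 0}
  mono l l' h hl u hu := by
    obtain ⟨d, z, h1, h2⟩ := hl u (h hu)
    exact ⟨d, z, h1, fun w hw => h2 w (h hw)⟩

/-- the affine complexes are highly connected (van der Kallen) -/
def AffConn (A : Type) [CommRing A] (s : ℕ) : Prop :=
  ∀ (n : ℕ) (X : Type) (x : X → Fin n → A), Function.Surjective x → Conn (AffC x) (n - s)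

/-- **BA0** (0.8 h). The groups `G_n(a, b)` up to isomorphism.

Proof. (1) `FixG S T` only depends on the spans of `S` and `T`; conjugate with the isomorphism which maps one basis to the
other. (2) the standard basis of functions. (3) `a = b = 0`: `S ⊆ {0}`, `T ⊆ {0}`, `FixG S T = ⊤`, `GL (Fin n) A ≅ (V ≃ₗ[A] V)`. -/
def St_BA0 : Prop := ∀ (A : Type) [CommRing A] (a n b : ℕ),
  (∀ (V V' : Type) [AddCommGroup V] [Module A V] [AddCommGroup V'] [Module A V'] (S : Set V)
    (T : Set (V →ₗ[A] A)) (S' : Set V') (T' : Set (V' →ₗ[A] A)), StdF a n b S T →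
    StdF a n b S' T' → Nonempty (FixG S T ≃* FixG S' T')) ∧
  (∃ (S : Set ((Fin a ⊕ (Fin n ⊕ Fin b)) → A)) (T : Set (((Fin a ⊕ (Fin n ⊕ Fin b)) → A) →ₗ[A] A)),
    StdF a n b S T) ∧
  (∀ (V : Type) [AddCommGroup V] [Module A V] (S : Set V) (T : Set (V →ₗ[A] A)),
    StdF 0 n 0 S T → Nonempty (FixG S T ≃* GL (Fin n) A))

/-- **BA1** (1 h). Duality.

Proof. `g ↦ (g⁻¹)` transposed, an isomorphism `(V ≃ₗ[A] V) ≃* (V* ≃ₗ[A] V*)` for `V` free of finite rank; `l ∘ g = l` iff the transpose
fixes `l`; `g v = v` iff the evaluation at `v` is fixed. The dual basis, its index type `a + n + b` reordered. -/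
def St_BA1 : Prop := ∀ (A : Type) [CommRing A] (a n b : ℕ) (V : Type) [AddCommGroup V] [Module A V]
  (S : Set V) (T : Set (V →ₗ[A] A)), StdF a n b S T →
  ∃ (S' : Set (V →ₗ[A] A)) (T' : Set ((V →ₗ[A] A) →ₗ[A] A)), StdF b n a S' T' ∧
    Nonempty (FixG S T ≃* FixG S' T')

section

variable {A V : Type} [CommRing A] [AddCommGroup V] [Module A V] {a n b : ℕ}
  (e : Module.Basis (Fin (a + 1) ⊕ (Fin n ⊕ Fin b)) A V)

/-- the functionals with value `1` at the last of the first `a + 1` basis vectors and `0` at the others -/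
def AX : Type := {l : V →ₗ[A] A // l (e (Sum.inl (Fin.last a))) = 1 ∧
  ∀ i : Fin a, l (e (Sum.inl i.castSucc)) = 0}

/-- the middle coordinates -/
def axx (l : AX e) : Fin n → A := fun j => l.1 (e (Sum.inr (Sum.inl j)))

/-- the standard group -/
def AG : Subgroup (V ≃ₗ[A] V) :=
  FixG (Set.range fun i => e (Sum.inl i)) (Set.range fun i => e.coord (Sum.inr (Sum.inr i)))

/-- the action `l ↦ l ∘ g⁻¹` -/
instance : MulAction (AG e) (AX e) where
  smul g l := ⟨l.1 ∘ₗ ((g⁻¹ : AG e) : V ≃ₗ[A] V).toLinearMap, by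
    have h : ∀ i, ((g⁻¹ : AG e) : V ≃ₗ[A] V) (e (Sum.inl i)) = e (Sum.inl i) := fun i =>
      (g⁻¹ : AG e).2.1 _ ⟨i, rfl⟩
    constructor
    · change l.1 (((g⁻¹ : AG e) : V ≃ₗ[A] V) _) = 1
      rw [h]
      exact l.2.1
    · intro i
      change l.1 (((g⁻¹ : AG e) : V ≃ₗ[A] V) _) = 0
      rw [h]
      exact l.2.2 i⟩
  one_smul l := Subtype.ext (by
    apply LinearMap.ext
    intro v
    rfl)
  mul_smul g h l := Subtype.ext (by
    apply LinearMap.ext
    intro v
    change l.1 ((((g * h)⁻¹ : AG e) : V ≃ₗ[A] V) v) = _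
    rw [mul_inv_rev]
    rfl)

end

/-- **BA2** (1.5 h). Stabilizers.

Proof. Let `l_0, .., l_q` be the different elements of `L`, `v = e (inl last)`, `K = ker l_0`, `V = A v ⊕ K`. An element `g` of the
stabilizer fixes `v` and `l_0`, so it is `id ⊕ g|K`; `g|K` fixes the `e_i`, `i < a` (they are in `K`), the restrictions to `K` of the last `b`
coordinates and of `l_j - l_0`, and every such automorphism of `K` extends. `K` has the basis `e_i` (`i < a`), `m_j - l_0(m_j) v` (`m_j`
the middle vectors), `c_j - l_0(c_j) v`. The functionals `l_j - l_0` (`j ≥ 1`) vanish on the `e_i` and, restricted to the middle part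
`A^n` (coordinates `x l_j - x l_0`), they are onto `A^q`: if `(d_i, z_i)` is dual to `l_i` in `AffC`, then `∑ z_i (x l_j - x l_0) = δ_ij`. By
`KerFree` the kernel in the middle part has a basis of `n - q` elements; together with preimages of the unit vectors it is a basis of
the middle part; correct the last `b` basis vectors so that `l_j - l_0` vanishes on them. -/
def St_BA2 : Prop := ∀ (A : Type) [CommRing A] (s : ℕ), KerFree A s →
  ∀ (V : Type) [AddCommGroup V] [Module A V] (a n b : ℕ)
  (e : Module.Basis (Fin (a + 1) ⊕ (Fin n ⊕ Fin b)) A V) (L : List (AX e)) (q : ℕ),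
  L ∈ (AffC (axx e)).s → q + s ≤ n → (∃ F : Finset (AX e), F.card = q + 1 ∧ ∀ l, l ∈ F ↔ l ∈ L) →
  ∃ (V' : Type) (_ : AddCommGroup V') (_ : Module A V') (S' : Set V') (T' : Set (V' →ₗ[A] A)),
    StdF a (n - q) (b + q) S' T' ∧
    Nonempty (fixingSubgroup (AG e) {x : AX e | x ∈ L} ≃* FixG S' T')

/-- **BA3** (1.2 h). Orbits.

Proof. For a list `L` of length `j` the pattern is the set of pairs `(i, i')` with `L_i = L_i'`: finitely many. Two lists `L`, `L'` in the
complex with the same pattern: let `l_0, .., l_q` and `l'_0, .., l'_q` be the corresponding different elements, `q + 1 ≤ j`. As in `St_BA2` there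
are bases `f`, `f'` of `V` with the first vectors `e (inl i)`, with the same last `b` coordinate functionals as `e`, in which `l_0` is
the coordinate of `v` and `l_j - l_0` the `j`-th coordinate of the middle part (the same for `l'`, `f'`). `g : f ↦ f'` is in `AG e` and
`g • l_j = l'_j`. So choose one list for every pattern which occurs. -/
def St_BA3 : Prop := ∀ (A : Type) [CommRing A] (s : ℕ), KerFree A s →
  ∀ (V : Type) [AddCommGroup V] [Module A V] (a n b : ℕ)
  (e : Module.Basis (Fin (a + 1) ⊕ (Fin n ⊕ Fin b)) A V) (j : ℕ), j + s ≤ n + 1 →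
  ∃ F : Finset (List (AX e)), ∀ L ∈ (AffC (axx e)).s, L.length = j →
    ∃ g : AG e, L.map (g • ·) ∈ F

/-- **BA4** (1 h). One step.

Proof. `St_BA0` (1), `St_FSub` (1): it is enough to consider `AG e` for one basis. `St_FBL` for `AX e`, `AffC (axx e)`: connected by
`AffConn` (`axx e` is surjective: the functional with given values on the basis), orbits `St_BA3`, stabilizers `St_BA2` with `q + 1` = the number
of different elements of `L`, `q + 1 ≤ length`, `i ≤ k - q` (`FPG` is monotone: `St_FM1` (4)); the complex is invariant: `g⁻¹` maps `d v + ∑ z_j m_j`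
to a vector of the same form plus a combination of the `e_i`, `i < a`, on which all `l` vanish (`AffC` says: there is a
vector `d v + ∑ z_j m_j` with `u = 1` and `w = 0` for `w ≠ u`; `g` fixes the `e_i` and the last coordinates, so it preserves
the span of the `e_i` and the `m_j`). -/
def St_BA4 : Prop := ∀ (A : Type) [CommRing A] (s : ℕ), KerFree A s → AffConn A s →
  ∀ k a n b : ℕ, k + 1 + s ≤ n → FPab A k a n b →
  (∀ q, 1 ≤ q → q ≤ k → FPab A (k - q) a (n - q) (b + q)) → FPab A k (a + 1) n b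

/-- **BA** (0.7 h). The groups `G_n(a, b)`.

Proof. `C_0 = 0`, `C_k = max(N_k, k + 1 + s, max_(1 ≤ q ≤ k) (q + C_(k-q)))`, induction on `k` (all `a`, `b`, `n ≥ C_k`). First `b = 0`: induction on `a`;
`a = 0`: `St_BA0` (3); `a + 1`: `St_BA4`. Then `a = 0` by `St_BA1`, then all `a` by `St_BA4` for fixed `b`. -/
def St_BA : Prop := ∀ (A : Type) [CommRing A] (s : ℕ), KerFree A s → AffConn A s →
  (∀ k : ℕ, ∃ N : ℕ, ∀ n ≥ N, FPG k (GL (Fin n) A)) →
  ∀ k : ℕ, ∃ C : ℕ, ∀ n ≥ C, ∀ a b : ℕ, FPab A k a n b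

/-- **PSA** (2 h). The first block of a stabilizer, over any ring (compare `St_PSE`).

Proof. `d a b = min_i (w i a - w i b)` (`I` is finite and nonempty), `d a b + d b c ≤ d a c`, `d a a = 0`; `g_ab` has degree
`≤ d a b`. Choose `a₀` such that `d b a₀ ≥ 0` implies `d a₀ b ≥ 0` for all `b` (maximal in a finite preorder), and
`c = {a | d a a₀ ≥ 0, d a₀ a ≥ 0} = {a | w i a = w i a₀ for all i}`. For `a ∈ c`, `b ∉ c`: `d b a < 0`, so `g_ba = 0`; for `a, a' ∈ c`: `d a a' = 0`,
so `g_aa'` is a constant. `g = (g_c, u; 0, g')`, `f g = g'`, onto. The kernel consists of the `(g_c, u; 0, 1)` with `g_c ∈ GL_c(A)` and `u` any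
matrix with rows in `c`, columns outside of `c`, entries `u_ab` of degree `≤ d a b = d a₀ b` (`0` if `d a₀ b < 0`). With
`M = ∑_(b ∉ c) max(d a₀ b + 1, 0)` (coefficients of the columns) this is the group of the automorphisms `(g_c, U; 0, 1)` of `A^c × A^M`. -/
def St_PSA : Prop := ∀ (A ι I : Type) [CommRing A] [Fintype ι] [DecidableEq ι] [Nonempty ι]
  [Finite I] [Nonempty I] (w : I → ι → ℤ), ∃ c : Finset ι, (∃ a₀ ∈ c, ∀ b, b ∈ c ↔ ∀ i, w i b = w i a₀) ∧
  ∃ f : PS A w →* PS A (fun (i : I) (b : {b // b ∉ c}) => w i b.1), Function.Surjective f ∧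
  ∃ (M : ℕ) (V : Type) (_ : AddCommGroup V) (_ : Module A V) (S : Set V) (T : Set (V →ₗ[A] A)),
    StdF 0 c.card M S T ∧ Nonempty (f.ker ≃* FixG S T)

/-- **BC** (0.7 h). Stabilizers with big blocks.

Proof. Induction on the number of elements of `ι`; empty: `GL ι A[X]` is trivial, `St_FSub` (3). `St_PSA`, `St_FExt`; the fibres of
the restriction of `w` to the complement of `c` are fibres of `w`. -/
def St_BC : Prop := ∀ (A : Type) [CommRing A] (k C : ℕ), (∀ n ≥ C, ∀ a b : ℕ, FPab A k a n b) →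
  ∀ (ι I : Type) [Fintype ι] [DecidableEq ι] [Finite I] [Nonempty I] (w : I → ι → ℤ),
  (∀ a : ι, C ≤ {b | ∀ i, w i b = w i a}.ncard) → FPG k (PS A w)

end Pool.Agent.SLZ
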