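import Pool.Agent.SLZ.StV
import Pool.Agent.SLZ.StF5

/-!
# SLZ, part V, second file: kernels, elementary matrices, split frames (V2), degree push (V4) (architect helper97)
-/

set_option autoImplicit false
set_option linter.unusedVariables false

noncomputable section

namespace Pool.Agent.SLZ

/-! ### consequences of the stable range condition -/

/-- **VK.** Kernels of surjective maps.

Proof. `q = 1`: `φ : A^(m+1) → A` onto, `m ≥ s`, `b_i = φ e_i`, `∑ a_i b_i = 1`. `SR` for `(b_i)_(i ≤ m)`, with the last term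
`c = b_(m+1) a_(m+1)`: `b'_i = b_i + c t_i` (`i ≤ m`) is unimodular. So after base changes `φ` has the values `b'_i`, then the last value
`b_(m+1) + (1 - b_(m+1)) ∑ b'_i d_i = 1`, then the other values `0`: there is `g` in `GL_(m+1)(A)` with `φ ∘ g` = the last coordinate. General
`q`: induction; the first `q` coordinates of `f` have a kernel `K'` with a basis of `n - q` elements, the last coordinate is onto on
`K'`, and its kernel in `K'` is `ker f`. -/
def St_VK : Prop := ∀ (A : Type) [CommRing A] (s : ℕ), SR A s → KerFree A s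

/-- **VK2.** Variants.

Proof. (1) `ker` of the map `M → A^p` with the coordinates `f i` (onto because of the `w i`), `KerFree`. (2) the kernel of
`A^n ≅ K × A^p → A^p`. (3) the projection `A^n ≅ K × A^n → A^n` is onto, so injective (`A` is commutative). -/
def St_VK2 : Prop := ∀ (A : Type) [CommRing A] (s : ℕ), KerFree A s →
  (∀ (n p : ℕ) (M : Type) [AddCommGroup M] [Module A M] (f : Fin p → (M →ₗ[A] A)) (w : Fin p → M)
    (K : Submodule A M), Nonempty (M ≃ₗ[A] (Fin n → A)) → p + s ≤ n →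
    (∀ i j, f i (w j) = if i = j then 1 else 0) → (∀ x, x ∈ K ↔ ∀ i, f i x = 0) →
    Nonempty (K ≃ₗ[A] (Fin (n - p) → A))) ∧
  (∀ (n p : ℕ) (K : Type) [AddCommGroup K] [Module A K], p + s ≤ n →
    Nonempty ((K × (Fin p → A)) ≃ₗ[A] (Fin n → A)) → Nonempty (K ≃ₗ[A] (Fin (n - p) → A))) ∧
  (∀ (n : ℕ) (K : Type) [AddCommGroup K] [Module A K],
    Nonempty ((K × (Fin n → A)) ≃ₗ[A] (Fin n → A)) → Subsingleton K)

/-- the elementary subgroup -/
def El (A : Type) [CommRing A] (N : ℕ) : Subgroup (GL (Fin N) A) :=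
  Subgroup.closure {g | ∃ i j, i ≠ j ∧ ∃ a, (g : Matrix (Fin N) (Fin N) A) =
    Matrix.transvection i j a}

/-- **VE.** `GL_N = E_N GL_n` for `N ≥ n ≥ s`.

Proof. Induction on `N`, `N = n` trivial. `g ∈ GL_N`, `N ≥ n + 1`: row operations are multiplications with elements of `E_N` from the left. The
last column `(g_iN)` is unimodular: `∑ h_Ni g_iN = 1`, `h = g⁻¹`. `SR` for `N - 1 ≥ s` with `c = g_NN h_NN`: add `t_i h_NN` times the
last row to row `i < N`: the first `N - 1` entries `a'_i` of the last column are unimodular; then make `g_NN = 1`, then the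
other `g_iN = 0`. `g = (g', 0; r, 1)`, `g'` invertible; multiply with `(1, 0; - r g'⁻¹, 1)`, a product of transvections. By induction
for `g' ∈ GL_(N-1)` (transvections of size `N - 1` extend to size `N`). -/
def St_VE : Prop := ∀ (A : Type) [CommRing A] (s n N : ℕ), SR A s → s ≤ n → n ≤ N →
  ∀ g : GL (Fin N) A, ∃ e ∈ El A N, ∀ i j : Fin N, (n ≤ i.val ∨ n ≤ j.val) →
    ((e * g : GL (Fin N) A) : Matrix (Fin N) (Fin N) A) i j = if i = j then 1 else 0

/-- **VA.** The affine complexes of part F5.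

Proof. `x' u = (x u, 1)` in `M = A^n × A`, `T = Set.univ` is of type `A` for `n` (`C = A`, `e` the identity, `f = 1`); the lists of `AffC x` are
those of `UC A x' [] T` (functionals on `A^n × A` are `(z, d)`; in `UC` use one functional for each vertex). `TA`, `St_VJ` (2),
`n - s ≤ n + 1 - s`. -/
def St_VA : Prop := ∀ (A : Type) [CommRing A] (s : ℕ), 1 ≤ s → (∀ n, TA A s n) → AffConn A s

/-- **VU.** Shortening several unimodular vectors at the same time.

Proof. Induction on `m` (for all `N`, `C`); `m = 0`: `t = 0`. `m + 1`: `v_0 = (a_0, c_0)`, `N ≥ s`. As in `St_VG` (1) there are a functional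
`θ` on `C` and `u ∈ Λ^N` with `a_0 + θ(c_0) u` unimodular: apply the automorphism `(a, c) ↦ (a + θ(c) u, c)` to all vectors, so `a_0`
is unimodular. If `m = 0`: done. Otherwise `N = N' + 1`, `N' ≥ s`; by `St_VG` (2) (with `C = PUnit`) there is an automorphism of `Λ^N` after
which `a_0 = (a', 1)`. `(a, α, c) ↦ (a - α a', c - α c_0)` is the quotient `Λ^N × C → Λ^(N') × C` by `v_0`; the images
`(a_j - α_j a', c_j - α_j c_0)`, `j ≥ 1`, have dual functionals (compare `St_VQ` (2)). Induction: `τ : C → Λ^(N')` such that the vectors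
`a_j - α_j a' + τ (c_j - α_j c_0)` have dual functionals. Take `t c = (τ c, 0)`: the vectors are `(a' + τ c_0, 1)`, `(a_j + τ c_j, α_j)`; modulo
the first (`(a, α) ↦ a - α (a' + τ c_0)`) the others are those of the induction, so they have dual functionals together with the
first. Go back through the two automorphisms. -/
def St_VU : Prop := ∀ (Λ : Type) [Ring Λ] (s : ℕ), SR Λ s → ∀ (m N : ℕ), m + s ≤ N + 1 →
  ∀ (C : Type) [AddCommGroup C] [Module Λ C] (v : Fin m → (Fin N → Λ) × C)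
    (φ : Fin m → (((Fin N → Λ) × C) →ₗ[Λ] Λ)), (∀ i j, φ i (v j) = if i = j then 1 else 0) →
  ∃ (t : C →ₗ[Λ] (Fin N → Λ)) (ψ : Fin m → ((Fin N → Λ) →ₗ[Λ] Λ)),
    ∀ i j, ψ i ((v j).1 + t (v j).2) = if i = j then 1 else 0

/-- **VM.** The endomorphism ring of `A^m` has stable rank `≤ 2` for `m ≥ s - 1`.

Proof. `n ≥ 2`, `∑ a_i b_i + c = 1` in `End (A^m)`. For `k < m` let `v_k ∈ A^(n m) × A^m` have the coordinates
`(a_i e_j)_k` (at `(i, j)`) and `(c e_j)_k`. The functionals `φ_k (y, z) = ∑ y_(i,j) (b_i e_k)_j + z_k` are dual. `St_VU` with `N = n m`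
(`m + s ≤ n m + 1`): `t : A^m → A^(n m)` and `ψ_k`. Put `t_i e_j = ∑_l (t ε_l)_(i,j) e_l`, so that the vector of `a_i + c t_i` is
`v_k.1 + t v_k.2`, and `(b'_i e_k)_j = ψ_k (unit vector (i, j))`: `∑ (a_i + c t_i) b'_i = 1`. -/
def St_VM : Prop := ∀ (A : Type) [CommRing A] (s m : ℕ), SR A s → s ≤ m + 1 →
  SR (Module.End A (Fin m → A)) 2

/-! ### V2: split frames -/

section Frames

variable {Λ : Type} [CommRing Λ] {V M : Type} [AddCommGroup M] [Module Λ M]

/-- adjacency of split frame vectors (`q v`, `l v`) -/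
def sfr (q : V → M) (l : V → (M →ₗ[Λ] Λ)) (v w : V) : Prop :=
  v = w ∨ (l v (q w) = 0 ∧ l w (q v) = 0)

/-- `T` is mapped onto the set of all split pairs (the fibres are arbitrary: labels) -/
def SFT (q : V → M) (l : V → (M →ₗ[Λ] Λ)) (T : Set V) : Prop :=
  (∀ v ∈ T, l v (q v) = 1) ∧ ∀ (a : M) (f : M →ₗ[Λ] Λ), f a = 1 → ∃ v ∈ T, q v = a ∧ l v = f

/-- the mixed complex: split frames and unimodular systems of functionals which vanish on them -/
def KX (q : V → M) (l : V → (M →ₗ[Λ] Λ)) (T : Set V) : Cx (V ⊕ (M →ₗ[Λ] Λ)) where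
  s := {k | (∀ v, Sum.inl v ∈ k → v ∈ T) ∧
    (∀ v w, Sum.inl v ∈ k → Sum.inl w ∈ k → sfr q l v w) ∧
    (∀ v f, Sum.inl v ∈ k → Sum.inr f ∈ k → f (q v) = 0) ∧
    ∃ d : (M →ₗ[Λ] Λ) → M, ∀ f g, Sum.inr f ∈ k → Sum.inr g ∈ k →
      (f = g → f (d g) = 1) ∧ (f ≠ g → f (d g) = 0)}
  mono k k' h hk := by
    obtain ⟨h1, h2, h3, d, h4⟩ := hk
    exact ⟨fun v hv => h1 v (h hv), fun v w hv hw => h2 v w (h hv) (h hw),
      fun v f hv hf => h3 v f (h hv) (h hf), d, fun f g hf hg => h4 f g (h hf) (h hg)⟩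

end Frames

/-- V2 for the connectivity `c`: `n ≥ 2 c + s` suffices -/
def SFP (Λ : Type) [CommRing Λ] (s c : ℕ) : Prop :=
  ∀ (n : ℕ) (V M : Type) [AddCommGroup M] [Module Λ M] (q : V → M) (l : V → (M →ₗ[Λ] Λ))
    (T : Set V), 2 * c + s ≤ n → Nonempty (M ≃ₗ[Λ] (Fin n → Λ)) → SFT q l T →
    Conn (Fl (sfr q l) T) c

/-- **V2a.** Frames in the kernel of a unimodular system of functionals.

Proof. `K = ⋂ ker (f i)`, free of rank `n - p` (`St_VK2` (1)), `π m = m - ∑ f_i(m) w_i`, `π : M → K`, the identity on `K`, `π (w j) = 0`. Let `T'` be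
the given set, `q' v = π (q v)`, `l' v = (l v)|K`. For `v ∈ T'`: `q' v = q v`. On `T'` the relations `sfr q l` and `sfr q' l'` agree. `SFT q' l' T'`: given
`a ∈ K`, `g : K → Λ`, `g a = 1`, choose `v ∈ T` with `q v = a`, `l v = g ∘ π`: `v ∈ T'` since `g (π (w j)) = 0`. So the complex is a
complex `Fl (sfr q' l') T'` for `K`. -/
def St_V2a : Prop := ∀ (Λ : Type) [CommRing Λ] (s c : ℕ), KerFree Λ s → SFP Λ s c →
  ∀ (n p : ℕ) (V M : Type) [AddCommGroup M] [Module Λ M] (q : V → M) (l : V → (M →ₗ[Λ] Λ))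
    (T : Set V) (f : Fin p → (M →ₗ[Λ] Λ)) (w : Fin p → M) (J : Set (Fin p)),
    2 * c + s + p ≤ n → Nonempty (M ≃ₗ[Λ] (Fin n → Λ)) → SFT q l T →
    (∀ i j, f i (w j) = if i = j then 1 else 0) →
    Conn (Fl (sfr q l) {v | v ∈ T ∧ (∀ i, f i (q v) = 0) ∧ ∀ j ∈ J, l v (w j) = 0}) c

/-- **V2b.** The mixed complex is highly connected.

Proof. `St_VP` (2) with `X = Set.range Sum.inr`. Let `σ = σ'.map Sum.inl` be nodup, `m = σ.length`, a list of `KX` (otherwise the link is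
empty), `c ≥ m + 1`, so `m + s ≤ n`. `K = {f | f (q v) = 0 for v ∈ σ'}` in `M* = (M →ₗ Λ) ≅ Λ^n` is free of rank `n - m`: `St_VK2` (1) with
the functionals `f ↦ f (q v)` and the vectors `l v`. `π f = f - ∑_(v ∈ σ') f (q v) • l v`, `π : M* → K`. The lists of `lkX .. X σ` are the
`k.map Sum.inr`, `k` a list of `UC Λ π [] K` (vertices `M*`, module `K`): a functional on `K` gives (with `π`) a functional on
`M*`, that is the evaluation at a vector `d g` of `M`, and conversely. `K` is of type `A` for `n - m` (`C = PUnit`, `f = 0`): `TA`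
gives `SC .. (n - m + 1 - s)`, `St_VJ` (2), (1). -/
def St_V2b : Prop := ∀ (Λ : Type) [CommRing Λ] (s : ℕ), KerFree Λ s → (∀ n, TA Λ s n) →
  ∀ (n c : ℕ) (V M : Type) [AddCommGroup M] [Module Λ M] (q : V → M) (l : V → (M →ₗ[Λ] Λ))
    (T : Set V), Nonempty (M ≃ₗ[Λ] (Fin n → Λ)) → (∀ v ∈ T, l v (q v) = 1) → c + s ≤ n + 1 →
    Conn (KX q l T) c

/-- **V2c.** The cycles of length `c` of the frames in `ker f` are boundaries.

Proof. Let `y ∈ T` with `q y = u`, `l y = f`. `A = Fl (sfr q l) {v ∈ T | f (q v) = 0}`, `X = {v | l v u = 0}`. `St_VP` (1) for `A`, `X`, `j = c`, and the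
cycle `w`: let `σ ≠ []` be nodup, entries `v_1, .., v_m` outside of `X`, a list of `A` (otherwise no lists), `m ≤ c` (otherwise
`c + 1 - m = 0`). The entries are different and adjacent: `l v_i (q v_j) = δ_ij`. `lkX A X σ` is the flag complex of
`{v ∈ T | f (q v) = 0, l v u = 0, l v_i (q v) = 0, l v (q v_i) = 0}` (`v ≠ v_i` as `v ∈ X`), that is `St_V2a` with `p = m + 1`, the functionals
`f, l v_1, .., l v_m`, the vectors `u - ∑ (l v_i u) (q v_i), q v_1, .., q v_m`, `J = Set.univ` and `c + 1 - m` in place of `c`: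
`2 (c + 1 - m) + s + (m + 1) ≤ n` as `m ≥ 1`. So `w = w' + bd e`, `w'` on `X`, `bd w' = 0`, and `w' = bd (y w')`: `y` is adjacent to all `v ∈ X`
with `f (q v) = 0`. `g = y w' + e`. -/
def St_V2c : Prop := ∀ (Λ : Type) [CommRing Λ] (s c : ℕ), KerFree Λ s →
  (∀ c' ≤ c, SFP Λ s c') → ∀ (n : ℕ) (V M : Type) [AddCommGroup M] [Module Λ M] (q : V → M)
    (l : V → (M →ₗ[Λ] Λ)) (T : Set V) (f : M →ₗ[Λ] Λ) (u : M), 2 * c + 2 + s ≤ n →
    Nonempty (M ≃ₗ[Λ] (Fin n → Λ)) → SFT q l T → f u = 1 →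
    ∀ w ∈ Ch (Fl (sfr q l) {v | v ∈ T ∧ f (q v) = 0}).s c, bd w = 0 →
      ∃ g ∈ Ch (Fl (sfr q l) T).s (c + 1), bd g = w

/-- **V2.** Split frames are highly connected.

Proof. Induction on `c` (all `c' ≤ c`): `SFP 0` is trivial. `c + 1`, `n ≥ 2 (c + 1) + s`: the lengths `< c` by `SFP c`. Length `c`: `St_VP` (4) for
`KX q l T`, `X = Set.range Sum.inl`: `Ex (KX ..) c` by `St_V2b` for `c + 1`. Let `σ = σ'.map Sum.inr` be nodup of length `p ≥ 2`, a list of `KX`,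
`p ≤ c + 1`: `lkX .. X σ` is (on `Sum.inl`) the flag complex of `{v ∈ T | f (q v) = 0 for f ∈ σ'}`: `St_V2a` with `J = ∅` and `c + 2 - p ≤ c`:
`2 (c + 2 - p) + s + p ≤ n`. For one functional `f` (`f (d f) = 1`): `St_V2c`. `rs (KX ..) X` is `Fl (sfr q l) T` on `Sum.inl` (`St_VJ` (1) or
directly with `MA_4`). -/
def St_V2 : Prop := ∀ (Λ : Type) [CommRing Λ] (s : ℕ), 1 ≤ s → KerFree Λ s → (∀ n, TA Λ s n) →
  ∀ c, SFP Λ s c

/-! ### V4: degree push -/

section Push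

variable {A W : Type} [CommRing A] [AddCommGroup W] [Module A W]

/-- lists of maps `W → A^m` in `T`; the different ones are jointly onto after composition with `j : P → W` -/
def HC {P : Type} [AddCommGroup P] [Module A P] (m : ℕ) (j : P →ₗ[A] W)
    (T : Set (W →ₗ[A] (Fin m → A))) : Cx (W →ₗ[A] (Fin m → A)) where
  s := {k | (∀ w ∈ k, w ∈ T) ∧ ∃ d : (W →ₗ[A] (Fin m → A)) → ((Fin m → A) →ₗ[A] P),
    ∀ w ∈ k, ∀ w' ∈ k, (w = w' → (w ∘ₗ j) ∘ₗ d w' = LinearMap.id) ∧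
      (w ≠ w' → (w ∘ₗ j) ∘ₗ d w' = 0)}
  mono k k' h hk := by
    obtain ⟨h1, d, h2⟩ := hk
    exact ⟨fun w hw => h1 w (h hw), d, fun w hw w' hw' => h2 w (h hw) w' (h hw')⟩

/-- the submodules `H` with `P + H = W`, `W / H` free of rank `m k`, `P ∩ H` free of rank `m (ρ - k)`, `1 ≤ k ≤ ρ`
(`I = P ∩ H`, and `H` is the graph of `φ : Q → P / I` for `W = P ⊕ Q`) -/
def YS (A : Type) [CommRing A] (W : Type) [AddCommGroup W] [Module A W] (P : Submodule A W)
    (m ρ : ℕ) : Set (Submodule A W) :=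
  {H | P ⊔ H = ⊤ ∧ ∃ k, 1 ≤ k ∧ k ≤ ρ ∧ Nonempty ((W ⧸ H) ≃ₗ[A] (Fin (m * k) → A)) ∧
    Nonempty ((P ⊓ H : Submodule A W) ≃ₗ[A] (Fin (m * (ρ - k)) → A))}

/-- the mixed complex -/
def ZX (P : Submodule A W) (m ρ : ℕ) : Cx ((W →ₗ[A] (Fin m → A)) ⊕ Submodule A W) where
  s := {k | (∃ a ∈ (HC m P.subtype Set.univ).s, ∀ w, Sum.inl w ∈ k → w ∈ a) ∧
    (∀ H, Sum.inr H ∈ k → H ∈ YS A W P m ρ) ∧
    (∀ H H', Sum.inr H ∈ k → Sum.inr H' ∈ k → cmp H H') ∧
    (∀ w H, Sum.inl w ∈ k → Sum.inr H ∈ k → H ≤ LinearMap.ker w)}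
  mono k k' h hk := by
    obtain ⟨⟨a, ha, h1⟩, h2, h3, h4⟩ := hk
    exact ⟨⟨a, ha, fun w hw => h1 w (h hw)⟩, fun H hH => h2 H (h hH),
      fun H H' hH hH' => h3 H H' (h hH) (h hH'), fun w H hw hH => h4 w H (h hw) (h hH)⟩

end Push

/-- **V4a.** Unimodular blocks.

Proof. `N = Fin m → A`, `Λ = Module.End A N`, the `Λ`-module `P →ₗ[A] N` (`g • v = g ∘ v`). `P ≃ (Fin k → N)` with inclusions `ι_i` and
projections `π_i` gives `e : (P →ₗ[A] N) ≃ₗ[Λ] (Fin k → Λ) × PUnit`, `v ↦ (v ∘ ι_i)_i`. Vertices `W →ₗ[A] N`, `x w = w ∘ j`: `T` is of type `A` for `k`. The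
lists of `UC Λ x [] T` are those of `HC m j T`: a functional `φ` is `v ↦ v ∘ (∑ ι_i ∘ φ(π_i))`. `TA Λ 2 k`: `k + 1 - 2`. -/
def St_V4a : Prop := ∀ (A : Type) [CommRing A] (m k : ℕ),
  TA (Module.End A (Fin m → A)) 2 k → ∀ (W P : Type) [AddCommGroup W] [Module A W]
    [AddCommGroup P] [Module A P] (j : P →ₗ[A] W) (T : Set (W →ₗ[A] (Fin m → A))),
    Nonempty (P ≃ₗ[A] (Fin (m * k) → A)) →
    (∀ v : P →ₗ[A] (Fin m → A), ∃ w ∈ T, w ∘ₗ j = v) → SC (HC m j T) (k - 1)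

/-- **V4b.** The submodules `YS`: inside one of them.

Proof. The rank of `A^n` is `n` (`A` nontrivial), `m ≥ 1`. (1) `finrank`. (2) `P → W / H` is onto with kernel `P ∩ H` and splits:
`P = (P ∩ H) ⊕ P2`, `P2 ≅ A^(m k)`, `W = H ⊕ P2`; `W → P → P ∩ H` (projection along the given complement, then along `P2`) restricted
to `H` shows that `P ∩ H` is complemented in `H`. (3) Let `H' ≤ H`. Then `P + H' = W` iff `(P ∩ H) + H' = H` (modular law),
`P ∩ H' = (P ∩ H) ∩ H'`, and `0 → H / H' → W / H' → W / H → 0` splits: if `H / H'` is free of rank `m k'`, `k' ≥ 1`, then `W / H'` is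
free of rank `m (k + k')`, and `H' ≠ H`. Conversely if `W / H'` is free of rank `m k1` then `(H / H') × A^(m k) ≅ A^(m k1)`: `k ≤ k1`; if
`k1 = k` then `H / H' = 0` (`St_VK2` (3)), `H' = H`; if `k1 > k`: `m (k1 - k) ≥ m ≥ s`, `St_VK2` (2). Here `ρ - k - k' = ρ - k1`. -/
def St_V4b : Prop := ∀ (A W : Type) [CommRing A] [Nontrivial A] [AddCommGroup W] [Module A W]
  (P : Submodule A W) (s m ρ : ℕ), KerFree A s → 1 ≤ s → s ≤ m → (∃ Q, IsCompl P Q) →
  ∀ H ∈ YS A W P m ρ, ∃ k, 1 ≤ k ∧ k ≤ ρ ∧ Module.finrank A (W ⧸ H) = m * k ∧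
    (∃ Q : Submodule A H, IsCompl (P.comap H.subtype) Q) ∧
    Nonempty ((P.comap H.subtype) ≃ₗ[A] (Fin (m * (ρ - k)) → A)) ∧
    (∀ H' ≤ H, (H' ∈ YS A W P m ρ ∧ H' ≠ H ↔
      H'.comap H.subtype ∈ YS A H (P.comap H.subtype) m (ρ - k)))

/-- **V4c.** The submodules `YS`: the maps which vanish on one of them.

Proof. `P = (P ∩ H) ⊕ P2`, `W = H ⊕ P2` as in `St_V4b` (2); `j` the inclusion of `P2`, `T = {w | H ≤ ker w}`: a map `P2 → A^m` extends to
`W = H ⊕ P2` by `0` on `H`. If `d w : A^m → P` are dual maps for a list in `T`, compose with the projection `P → P2`, whose kernel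
`P ∩ H` is killed by `w`. Conversely compose with `P2 → P`. `k` is given by `finrank`. -/
def St_V4c : Prop := ∀ (A W : Type) [CommRing A] [Nontrivial A] [AddCommGroup W] [Module A W]
  (P : Submodule A W) (m ρ k : ℕ), 1 ≤ m → ∀ H ∈ YS A W P m ρ,
  Module.finrank A (W ⧸ H) = m * k →
    ∃ (P2 : Type) (_ : AddCommGroup P2) (_ : Module A P2) (j : P2 →ₗ[A] W),
      Nonempty (P2 ≃ₗ[A] (Fin (m * k) → A)) ∧
      (∀ v : P2 →ₗ[A] (Fin m → A), ∃ w : W →ₗ[A] (Fin m → A), H ≤ LinearMap.ker w ∧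
        w ∘ₗ j = v) ∧
      (HC m P.subtype {w | H ≤ LinearMap.ker w}).s = (HC m j {w | H ≤ LinearMap.ker w}).s

/-- **V4d.** The submodules `YS`: ranks and spans.

Proof. (1) `W / H' → W / H` is onto between modules isomorphic to `A^(m k')`, `A^(m k)`: `k ≤ k'`, and if `k = k'` it is injective
(surjective endomorphisms of finitely generated modules are injective), so `H' = H`. (2) `k = σ.length`, `W → (A^m)^k ≅ A^(m k)`
with the coordinates in `σ` is onto, also on `P` (dual maps); `H` its kernel; `P ∩ H` is the kernel of a surjective map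
`A^(m ρ) → A^(m k)`: `k ≤ ρ`, and it is free of rank `m (ρ - k)` by `KerFree` if `k < ρ` (`m (ρ - k) ≥ m ≥ s`), and `0` if `k = ρ`. -/
def St_V4d : Prop := ∀ (A W : Type) [CommRing A] [Nontrivial A] [AddCommGroup W] [Module A W]
  (P : Submodule A W) (s m ρ : ℕ), KerFree A s → 1 ≤ s → s ≤ m →
  (∀ H ∈ YS A W P m ρ, ∀ H' ∈ YS A W P m ρ, H' ≤ H →
    Module.finrank A (W ⧸ H) ≤ Module.finrank A (W ⧸ H') ∧
    (Module.finrank A (W ⧸ H) = Module.finrank A (W ⧸ H') → H' = H)) ∧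
  (Nonempty (P ≃ₗ[A] (Fin (m * ρ) → A)) →
    ∀ σ : List (W →ₗ[A] (Fin m → A)), σ ≠ [] → σ.Nodup → σ ∈ (HC m P.subtype Set.univ).s →
    ∃ H ∈ YS A W P m ρ, ∀ H' : Submodule A W, H' ≤ H ↔ ∀ w ∈ σ, H' ≤ LinearMap.ker w)

/-- **V4.** Degree push.

Proof. Induction on `ρ` (all `W`, `P`); `ρ = 0`: `St_VC` (1). `Z = ZX P m ρ`. STEP 1: `rs Z (Set.range Sum.inl)` is `HC m P.subtype Set.univ` (maps `P → A^m`
extend to `W`): `SC .. (ρ - 1)` by `St_V4a`, `St_VJ` (1). STEP 2: `SC Z (ρ - 1)`: `St_VC` (6) with `X = Set.range Sum.inl`,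
`h (Sum.inr H) = m ρ - finrank (W / H)`: adjacent different `H`, `H'` have different values (`St_V4d` (1)). Let `H ∈ YS` with `k` from `St_V4b` (if
`H ∉ YS` the link is empty). The lists of `lkX Z (X ∪ {h < h H}) [Sum.inr H]` are those of
`joinC (HC m P.subtype {w | H ≤ ker w}) (Fl cmp {H' ∈ YS | H' < H})`: `H'` comparable with `H` has `h H' < h H` iff `H' < H`; if `H ≤ ker w` then
`H' ≤ ker w`. The first factor has `SC .. (k - 1)`: `St_V4c`, `St_V4a`. The second: `H'' ↦ H''.map H.subtype` is an isomorphism from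
`YS A H (P.comap H.subtype) m (ρ - k)` (`St_V4b`): by induction (`ρ - k < ρ`) `SC .. (ρ - k - 1)`. Sum (`St_VJ` (4)):
`≥ ρ - 2` in both cases `k < ρ`, `k = ρ`. STEP 3: `St_VC` (5) with `X = Set.range Sum.inr`: for `σ = σ'.map Sum.inl ≠ []` nodup the link `lkX Z X σ` is
empty or a cone with the apex `Sum.inr H` of `St_V4d` (2): `H` is in `YS` and every `H' ≤ ker w` (all `w ∈ σ'`) is `≤ H`: `St_VC` (4).
`rs Z X` is `Fl cmp (YS ..)`: `St_VJ` (1). -/
def St_V4 : Prop := ∀ (A W : Type) [CommRing A] [Nontrivial A] [AddCommGroup W] [Module A W]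
  (P : Submodule A W) (s m ρ : ℕ), KerFree A s → 1 ≤ s → s ≤ m →
  (∀ k, TA (Module.End A (Fin m → A)) 2 k) → (∃ Q, IsCompl P Q) →
  Nonempty (P ≃ₗ[A] (Fin (m * ρ) → A)) → SC (Fl cmp (YS A W P m ρ)) (ρ - 1)

/-- **VZ.** Summary for the rings of the project: everything that part V delivers.

Proof. `s = r + 2` resp. `r + 3`: `St_VD`, `St_VK`, `St_VT`, `St_VA`, `St_V2`, `St_VM` (`s ≤ m + 1`), `St_V4`, `St_VE`. -/
def St_VZ : Prop := ∀ (A : Type) [CommRing A] [Nontrivial A] (s : ℕ), 1 ≤ s → SR A s →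
  KerFree A s ∧ AffConn A s ∧ (∀ c, SFP A s c) ∧
  (∀ m, s ≤ m → ∀ (W : Type) [AddCommGroup W] [Module A W] (P : Submodule A W) (ρ : ℕ),
    (∃ Q, IsCompl P Q) → Nonempty (P ≃ₗ[A] (Fin (m * ρ) → A)) →
    SC (Fl cmp (YS A W P m ρ)) (ρ - 1) ∧ Conn (Fl cmp (YS A W P m ρ)) (ρ - 1)) ∧
  (∀ n N, s ≤ n → n ≤ N → ∀ g : GL (Fin N) A, ∃ e ∈ El A N, ∀ i j : Fin N,
    (n ≤ i.val ∨ n ≤ j.val) →
    ((e * g : GL (Fin N) A) : Matrix (Fin N) (Fin N) A) i j = if i = j then 1 else 0)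

end Pool.Agent.SLZ
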