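import Pool.Agent.SLZ.DefsT
import Pool.Agent.SLZ.StV2

/-!
# SLZ, part KJ: pushing chains of `T` from the degree `m (J + 1)` to the degree `m J` (captain helper12)
-/

set_option autoImplicit false
set_option linter.unusedVariables false

noncomputable section

namespace Pool.Agent.SLZ

open Polynomial

section

variable {A : Type} [CommRing A] {V : Type} [AddCommGroup V] [Module A V] [Module A[X] V]
  [IsScalarTower A A[X] V]

/-- the degree of a lattice of types `0`, `1` -/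
def dgL (E : Lat A V) : ℕ := Module.finrank A (E (-1))

/-- `W = E_0 / E_(-1)` -/
abbrev WQ (E : Lat A V) : Type := (E 0) ⧸ ((E (-1)).comap (E 0).subtype)

/-- the image of `X E_(-1)` in `W` -/
def PQ (E : Lat A V) : Submodule A (WQ E) :=
  (((E (-1)).map ((LinearMap.lsmul A[X] V X).restrictScalars A)).comap (E 0).subtype).map
    (Submodule.mkQ ((E (-1)).comap (E 0).subtype))

/-- the image of `F_0` in `W` -/
def HQ (E F : Lat A V) : Submodule A (WQ E) :=
  ((F 0).comap (E 0).subtype).map (Submodule.mkQ ((E (-1)).comap (E 0).subtype))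

/-- the lower link of `E` in `T` -/
def LowT (m J : ℕ) (E : Lat A V) : Set (Lat A V) := {F | F ∈ TV A V m J ∧ adjL E F}

end

/-- **KJ1** (1 h). Degrees.

Proof. (1) `E_(-1)` for `E = OL b (i < d)` is the free `A`-module with the basis `b_i`, `i < d` (degree `≤ 0` for `i < d`, degree `≤ -1` for `i ≥ d`). (2) `PDiag`
for the list `[E, E']`: one basis `b` with `E = OL b (i < d)`, `E' = OL b (i < d')`; `d = dgL E`, `d' = dgL E'` by (1). `E ≤ E'` gives `d ≤ d'` (if `d' < d` then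
`b_(d')` is in `E_(-1)` but not in `E'_(-1)`; `A` nontrivial). (3) by (1): the degree of an element of `TV` is `dgL`, a multiple of `m` and `≤ m J`. (4) if `LR E F`
then `dgL E ≤ dgL F ≤ m J < m (J + 1)`. -/
def St_KJ1 : Prop := ∀ (A : Type) [CommRing A] [Nontrivial A] (V : Type) [AddCommGroup V]
  [Module A V] [Module A[X] V] [IsScalarTower A A[X] V] [Module.Free A[X] V]
  [Module.Finite A[X] V] (m : ℕ),
  (∀ (n : ℕ) (b : Module.Basis (Fin n) A[X] V) (d : ℕ), d ≤ n →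
    dgL (OL b fun i => if i.val < d then (1 : ℤ) else 0) = d) ∧
  (PDiag A m → ∀ J, ∀ E ∈ TV A V m J, ∀ E' ∈ TV A V m J, LR E E' →
    dgL E ≤ dgL E' ∧ (dgL E = dgL E' → E = E')) ∧
  (∀ J, ∀ E ∈ TV A V m J, dgL E ≤ m * J) ∧
  (∀ J, ∀ E ∈ TV A V m (J + 1), E ∈ TV A V m J ∨ dgL E = m * (J + 1)) ∧
  (∀ J, TV A V m J ⊆ TV A V m (J + 1)) ∧
  (PDiag A m → 1 ≤ m → ∀ J, ∀ E ∈ TV A V m (J + 1), dgL E = m * (J + 1) → ∀ F ∈ TV A V m J,
    adjL E F → LR F E)

/-- **KJ2** (1.2 h). From the link to `YS`.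

Proof. `PDiag` for `[E, F]`: a basis `b` with `n` elements, `E = OL b (i < D)`, `F = OL b (i < d)`, `D = m (J + 1)`, `d ≤ m J` a multiple of `m` (`St_KJ1`).
`W` has the basis `[X b_i]` (`i < D`), `[b_i]` (`i ≥ D`); `P` is the span of the `[X b_i]`, `i < D`; `HQ E F` is the span of the `[X b_i]`, `i < d`, and the `[b_i]`, `i ≥ D`
(`E_(-1)` is contained in `F_0`). So `P ⊔ H = ⊤`, `W / H ≅ A^(D - d)`, `D - d = m k`, `k ≥ 1`, `P ⊓ H ≅ A^d`. (3), (4): for `F, F'` in the link: `F ≤ F'` iff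
`F 0 ≤ F' 0`: `F k = 0` for `k < -1`, `F (-1) = {v ∈ E (-1) | X v ∈ F 0}`, `F k = ∑_(j ≤ k) X^j F 0` for `k ≥ 0`; and `F 0` is the preimage of `HQ E F`. If `F ≤ F'` then
`LR F F'` because `F' ≤ E ≤ F(1)`. -/
def St_KJ2 : Prop := ∀ (A : Type) [CommRing A] [Nontrivial A] (V : Type) [AddCommGroup V]
  [Module A V] [Module A[X] V] [IsScalarTower A A[X] V] [Module.Free A[X] V]
  [Module.Finite A[X] V] (m J : ℕ), PDiag A m → 1 ≤ m → ∀ E ∈ TV A V m (J + 1),
  dgL E = m * (J + 1) →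
  (∃ Q, IsCompl (PQ E) Q) ∧ Nonempty (PQ E ≃ₗ[A] (Fin (m * (J + 1)) → A)) ∧
  (∀ F ∈ LowT m J E, HQ E F ∈ YS A (WQ E) (PQ E) m (J + 1)) ∧
  (∀ F ∈ LowT m J E, ∀ F' ∈ LowT m J E, (adjL F F' ↔ cmp (HQ E F) (HQ E F')) ∧
    (HQ E F = HQ E F' → F = F'))

/-- **KJ3** (1.5 h). From `YS` to the link.

Proof. `E = OL b (i < D)`, `D = m (J + 1) ≤ n`. `H ∈ YS` with `k`; `d = m (J + 1 - k)`. `P / (P ⊓ H) ≅ W / H` is free of rank `m k`, so `P` has a basis whose first `d`
elements are a basis of `P ⊓ H`; these are `[X e_i]`, `i < D`, for a basis `e_i` of `E_(-1)` (`E_(-1) ≅ P` by multiplication with `X`). `H → W / P` is onto and `W / P` is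
free with the basis `[b_i]`, `i ≥ D`: choose `q_i ∈ E_0`, `i ≥ D`, with `[q_i] ∈ H`, `q_i ≡ b_i` modulo `E_(-1) + X E_(-1)`. Then `b'' = (e_i (i < D), q_i (i ≥ D))` is a basis
of `V` (unitriangular change of `(e, b)`), `E = OL b'' (i < D)`, and `F = OL b'' (i < d)` is in `TV A V m J` (`d ≤ m J`, `m ∣ d`), `LR F E`, and `HQ E F = H` (both contain
`P ⊓ H` and the `[q_i]`, and an element of `H` is a combination of the `[q_i]` plus an element of `P ⊓ H`). -/
def St_KJ3 : Prop := ∀ (A : Type) [CommRing A] [Nontrivial A] (V : Type) [AddCommGroup V]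
  [Module A V] [Module A[X] V] [IsScalarTower A A[X] V] [Module.Free A[X] V]
  [Module.Finite A[X] V] (m J : ℕ), 1 ≤ m → ∀ E ∈ TV A V m (J + 1), dgL E = m * (J + 1) →
  ∀ H ∈ YS A (WQ E) (PQ E) m (J + 1), ∃ F ∈ LowT m J E, HQ E F = H

/-- **KJ** (1 h). The push.

Proof. `V4` for `W = WQ E`, `P = PQ E`, `ρ = J + 1`: `Conn (Fl cmp (YS ..)) J`; transport to `Fl adjL (LowT m J E)` with `F = g H` (`St_KJ3`) and `HQ E` (`St_KJ2`), `St_VJ` (1). Then `St_VP` (1)
for `TT A V m (J + 1)`, `X = TV A V m J`: `rs (TT A V m (J + 1)) X` has the lists of `TT A V m J`; for a nodup `σ ≠ []` outside of `X`: the link is empty if `σ` is not in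
`TT A V m (J + 1)`; otherwise all entries have the degree `m (J + 1)`, so `σ = [E]` (`St_KJ1` (2)), and the link is `Fl adjL (LowT m J E)`. -/
def St_KJ : Prop := ∀ (A : Type) [CommRing A] [Nontrivial A] (m : ℕ), 1 ≤ m →
  (∀ (W : Type) [AddCommGroup W] [Module A W] (P : Submodule A W) (ρ : ℕ), (∃ Q, IsCompl P Q) →
    Nonempty (P ≃ₗ[A] (Fin (m * ρ) → A)) → Conn (Fl cmp (YS A W P m ρ)) (ρ - 1)) →
  PDiag A m → PPush A m

end Pool.Agent.SLZ
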