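import Pool.Agent.SLZ.StKA
import Pool.Agent.SLZ.StKJ
import Pool.Agent.SLZ.Asm

/-!
# SLZ: assembly of the general case (captain helper12)

`StepFP` (and so the frozen statement) from the parts V, R, K and U + S.
-/

set_option autoImplicit false
set_option linter.unusedVariables false

noncomputable section

namespace Pool.Agent.SLZ

open Polynomial

/-- **RZ.** What part R delivers. -/
def St_RZ : Prop := ∀ r : ℕ, ∃ m0 : ℕ, ∀ m ≥ m0,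
  PDiag (MvPolynomial (Fin r) ℤ) m ∧ PInf (MvPolynomial (Fin r) ℤ) m

/-- **SZ.** What the parts U and S deliver. -/
def St_SZ : Prop := ∀ (A : Type) [CommRing A] [Nontrivial A] (s : ℕ), 1 ≤ s →
  KerFree A s → KerFree A[X] s → (∀ c, SFP A s c) → (∀ c, SFP A[X] s c) →
  (∀ n N, s ≤ n → n ≤ N → ∀ g : GL (Fin N) A[X], ∃ e ∈ El A[X] N, ∀ i j : Fin N,
    (n ≤ i.val ∨ n ≤ j.val) →
    ((e * g : GL (Fin N) A[X]) : Matrix (Fin N) (Fin N) A[X]) i j = if i = j then 1 else 0) →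
  ∀ m : ℕ, s ≤ m → PDiag A m → PInf A m → PPush A m →
  ∀ c : ℕ, ∃ J0 : ℕ, ∀ J ≥ J0, ∃ N : ℕ, PConn A m J c N

theorem asm_step (hKA : St_KA) (hKJ : St_KJ) (hVZ : St_VZ)
    (hSR : (∀ r : ℕ, SR (MvPolynomial (Fin r) ℤ) (r + 2)) ∧
      (∀ r : ℕ, SR (Polynomial (MvPolynomial (Fin r) ℤ)) (r + 3)))
    (hR : St_RZ) (hS : St_SZ) : StepFP := by
  intro r hr
  have h1 : SR (MvPolynomial (Fin r) ℤ) (r + 3) := fun n hn => hSR.1 r n (by omega)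
  obtain ⟨a1, a2, a3, a4, -⟩ := hVZ (MvPolynomial (Fin r) ℤ) (r + 3) (by omega) h1
  obtain ⟨b1, b2, b3, -, b5⟩ := hVZ (MvPolynomial (Fin r) ℤ)[X] (r + 3) (by omega) (hSR.2 r)
  obtain ⟨m0, hm0⟩ := hR r
  refine hKA (MvPolynomial (Fin r) ℤ) (r + 3) a1 a2 hr ?_
  intro c
  refine ⟨max m0 (r + 3), fun m hm => ?_⟩
  have hm1 : m0 ≤ m := le_trans (le_max_left _ _) hm
  have hm2 : r + 3 ≤ m := le_trans (le_max_right _ _) hm
  obtain ⟨hd, hi⟩ := hm0 m hm1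
  refine ⟨hd, ?_⟩
  have hp : PPush (MvPolynomial (Fin r) ℤ) m :=
    hKJ (MvPolynomial (Fin r) ℤ) m (by omega) (fun W _ _ P ρ h2 h3 => (a4 m hm2 W P ρ h2 h3).2) hd
  obtain ⟨J0, hJ⟩ := hS (MvPolynomial (Fin r) ℤ) (r + 3) (by omega) a1 b1 a3 b3 b5 m hm2 hd hi hp c
  exact ⟨J0, hJ J0 le_rfl⟩

end Pool.Agent.SLZ
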