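import Pool.Agent.SLZ.StD

/-!
# SLZ: DA, acyclic carriers
-/

set_option autoImplicit false
set_option linter.unusedVariables false

noncomputable section

namespace Pool.Agent.SLZ

namespace DA

open Classical in
/-- a linear map is determined by its values on the support -/
theorem DA_congr {B M : Type} [AddCommGroup M] (f g : (B →₀ ℤ) →ₗ[ℤ] M) (x : B →₀ ℤ)
    (h : ∀ b, x b ≠ 0 → f (Finsupp.single b 1) = g (Finsupp.single b 1)) : f x = g x := by
  have key : ∀ f : (B →₀ ℤ) →ₗ[ℤ] M, f x = x.sum fun b m => m • f (Finsupp.single b 1) := by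
    intro f
    conv_lhs => rw [← Finsupp.sum_single x]
    rw [Finsupp.sum, map_sum, Finsupp.sum]
    refine Finset.sum_congr rfl fun b _ => ?_
    rw [← map_smul, Finsupp.smul_single, smul_eq_mul, mul_one]
  rw [key f, key g, Finsupp.sum, Finsupp.sum]
  refine Finset.sum_congr rfl fun b hb => ?_
  rw [h b (Finsupp.mem_support_iff.1 hb)]

/-- membership from the values on the support -/
theorem DA_mem {B M : Type} [AddCommGroup M] (f : (B →₀ ℤ) →ₗ[ℤ] M) (x : B →₀ ℤ)
    (N : Submodule ℤ M) (h : ∀ b, x b ≠ 0 → f (Finsupp.single b 1) ∈ N) : f x ∈ N := by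
  have key : f x = x.sum fun b m => m • f (Finsupp.single b 1) := by
    conv_lhs => rw [← Finsupp.sum_single x]
    rw [Finsupp.sum, map_sum, Finsupp.sum]
    refine Finset.sum_congr rfl fun b _ => ?_
    rw [← map_smul, Finsupp.smul_single, smul_eq_mul, mul_one]
  rw [key, Finsupp.sum]
  exact N.sum_mem fun b hb => N.smul_mem _ (h b (Finsupp.mem_support_iff.1 hb))

section Rec

variable {B M : Type} [AddCommGroup M] (deg : B → ℕ) (S : Set B)
  (d : (B →₀ ℤ) →ₗ[ℤ] (B →₀ ℤ)) (R : B → M → M → Prop)

open Classical in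
/-- the maps on the first `n` degrees -/
def DA_F : ℕ → ((B →₀ ℤ) →ₗ[ℤ] M)
  | 0 => 0
  | n + 1 => Finsupp.lift M ℤ B fun b =>
      if h : deg b = n ∧ ∃ y, R b (DA_F n (d (Finsupp.single b 1))) y then h.2.choose
      else DA_F n (Finsupp.single b 1)

theorem DA_F_succ_ne (n : ℕ) (b : B) (h : deg b ≠ n) :
    DA_F deg d R (n + 1) (Finsupp.single b 1) = DA_F deg d R n (Finsupp.single b 1) := by
  rw [DA_F, Finsupp.lift_apply, Finsupp.sum_single_index (by rw [zero_smul]), one_smul,
    dif_neg (fun h' => h h'.1)]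

theorem DA_F_succ_eq (n : ℕ) (b : B) (h : deg b = n)
    (h' : ∃ y, R b (DA_F deg d R n (d (Finsupp.single b 1))) y) :
    R b (DA_F deg d R n (d (Finsupp.single b 1))) (DA_F deg d R (n + 1) (Finsupp.single b 1)) := by
  have : DA_F deg d R (n + 1) (Finsupp.single b 1) = h'.choose := by
    conv_lhs => rw [DA_F]
    rw [Finsupp.lift_apply, Finsupp.sum_single_index (by rw [zero_smul]), one_smul,
      dif_pos ⟨h, h'⟩]
  rw [this]
  exact h'.choose_spec

theorem DA_F_stable (b : B) (m : ℕ) (h : deg b + 1 ≤ m) :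
    DA_F deg d R m (Finsupp.single b 1) = DA_F deg d R (deg b + 1) (Finsupp.single b 1) := by
  induction m, h using Nat.le_induction with
  | base => rfl
  | succ m hm ih =>
    rw [DA_F_succ_ne deg d R m b (by omega), ih]

/-- recursive construction of a linear map -/
theorem DA_rec (hd : ∀ b ∈ S, ∀ b', d (Finsupp.single b 1) b' ≠ 0 → b' ∈ S ∧ deg b' < deg b)
    (hstep : ∀ b ∈ S, ∀ f : (B →₀ ℤ) →ₗ[ℤ] M,
      (∀ b' ∈ S, deg b' < deg b → R b' (f (d (Finsupp.single b' 1))) (f (Finsupp.single b' 1))) →
      ∃ y, R b (f (d (Finsupp.single b 1))) y) :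
    ∃ f : (B →₀ ℤ) →ₗ[ℤ] M, ∀ b ∈ S, R b (f (d (Finsupp.single b 1))) (f (Finsupp.single b 1)) := by
  have hc : ∀ n, ∀ b ∈ S, deg b = n →
      R b (DA_F deg d R n (d (Finsupp.single b 1)))
        (DA_F deg d R (n + 1) (Finsupp.single b 1)) := by
    intro n
    induction n using Nat.strong_induction_on with
    | _ n ih =>
      intro b hb hn
      refine DA_F_succ_eq deg d R n b hn (hstep b hb _ fun b' hb' hlt => ?_)
      have h1 := ih (deg b') (by omega) b' hb' rfl
      have h2 : DA_F deg d R n (d (Finsupp.single b' 1)) =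
          DA_F deg d R (deg b') (d (Finsupp.single b' 1)) := by
        refine DA_congr _ _ _ fun b'' hb'' => ?_
        have h3 := (hd b' hb' b'' hb'').2
        rw [DA_F_stable deg d R b'' n (by omega), DA_F_stable deg d R b'' (deg b') (by omega)]
      rw [h2, DA_F_stable deg d R b' n (by omega)]
      exact h1
  refine ⟨Finsupp.lift M ℤ B fun b => DA_F deg d R (deg b + 1) (Finsupp.single b 1),
    fun b hb => ?_⟩
  have h1 := hc (deg b) b hb rfl
  have hv : ∀ b, (Finsupp.lift M ℤ B fun b => DA_F deg d R (deg b + 1) (Finsupp.single b 1))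
      (Finsupp.single b 1) = DA_F deg d R (deg b + 1) (Finsupp.single b 1) := by
    intro b
    rw [Finsupp.lift_apply, Finsupp.sum_single_index (by rw [zero_smul]), one_smul]
  have h2 : (Finsupp.lift M ℤ B fun b => DA_F deg d R (deg b + 1) (Finsupp.single b 1))
      (d (Finsupp.single b 1)) = DA_F deg d R (deg b) (d (Finsupp.single b 1)) := by
    refine DA_congr _ _ _ fun b' hb' => ?_
    have h3 := (hd b hb b' hb').2
    rw [hv, DA_F_stable deg d R b' (deg b) (by omega)]
  rw [h2, hv]
  exact h1

end Rec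

end DA

open DA in
theorem thm_DA : St_DA := by
  intro B V' deg S G d h1 h2 h3 h4
  have hd : ∀ b ∈ S, ∀ b', d (Finsupp.single b 1) b' ≠ 0 → b' ∈ S ∧ deg b' < deg b := by
    intro b hb b' hb'
    obtain ⟨h, h', _⟩ := h1 b hb b' hb'
    exact ⟨h, by omega⟩
  have hCh : ∀ (s s' : Set (List V')) (j : ℕ), s ⊆ s' → Ch s j ≤ Ch s' j := by
    intro s s' j hs
    exact Finsupp.supported_mono fun l hl => ⟨hs hl.1, hl.2⟩
  refine ⟨?_, ?_⟩
  · refine DA_rec deg S d (fun b u y => y ∈ Ch (G b).s (deg b + 1) ∧
      bd y = if deg b = 0 then Finsupp.single [] 1 else u) hd ?_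
    intro b hb f hf
    rcases Nat.eq_zero_or_pos (deg b) with h0 | h0
    · obtain ⟨y, hy, hy'⟩ := (h4 b hb).2 0 (Finsupp.single [] 1)
        (Finsupp.single_mem_supported ℤ 1 ⟨(h4 b hb).1, rfl⟩) (by
          rw [bd, Finsupp.lift_apply, Finsupp.sum_single_index (by rw [zero_smul]), one_smul, bdL])
      refine ⟨y, ?_, ?_⟩
      · rw [h0]; exact hy
      · rw [if_pos h0, hy']
    · have hz : f (d (Finsupp.single b 1)) ∈ Ch (G b).s (deg b) := by
        refine DA_mem f _ _ fun b' hb' => ?_
        obtain ⟨k1, k2, k3⟩ := h1 b hb b' hb'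
        have := (hf b' k1 (by omega)).1
        rw [k2]
        exact hCh _ _ _ k3 this
      have hbz : bd (f (d (Finsupp.single b 1))) = 0 := by
        by_cases h5 : deg b = 1
        · have h6 : (bd ∘ₗ f) (d (Finsupp.single b 1)) =
              (Finsupp.lift (List V' →₀ ℤ) ℤ B fun _ => Finsupp.single [] 1)
                (d (Finsupp.single b 1)) := by
            refine DA_congr _ _ _ fun b' hb' => ?_
            obtain ⟨k1, k2, k3⟩ := h1 b hb b' hb'
            have := (hf b' k1 (by omega)).2
            rw [if_pos (by omega)] at this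
            rw [LinearMap.comp_apply, this, Finsupp.lift_apply,
              Finsupp.sum_single_index (by rw [zero_smul]), one_smul]
          rw [LinearMap.comp_apply] at h6
          rw [h6, Finsupp.lift_apply]
          have h7 := h3 b hb h5
          rw [Finsupp.sum] at h7 ⊢
          rw [← Finset.sum_smul, h7, zero_smul]
        · have h6 : (bd ∘ₗ f) (d (Finsupp.single b 1)) = (f ∘ₗ d) (d (Finsupp.single b 1)) := by
            refine DA_congr _ _ _ fun b' hb' => ?_
            obtain ⟨k1, k2, k3⟩ := h1 b hb b' hb'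
            have := (hf b' k1 (by omega)).2
            rw [if_neg (by omega)] at this
            rw [LinearMap.comp_apply, this, LinearMap.comp_apply]
          rw [LinearMap.comp_apply, LinearMap.comp_apply, h2 b hb, map_zero] at h6
          exact h6
      obtain ⟨y, hy, hy'⟩ := (h4 b hb).2 (deg b) _ hz hbz
      exact ⟨y, hy, by rw [if_neg (by omega), hy']⟩
  · intro f g hf hg
    refine DA_rec deg S d (fun b u y => y ∈ Ch (G b).s (deg b + 2) ∧
      bd y + u = f (Finsupp.single b 1) - g (Finsupp.single b 1)) hd ?_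
    intro b hb H hH
    have hHz : H (d (Finsupp.single b 1)) ∈ Ch (G b).s (deg b + 1) := by
      refine DA_mem H _ _ fun b' hb' => ?_
      obtain ⟨k1, k2, k3⟩ := h1 b hb b' hb'
      have := (hH b' k1 (by omega)).1
      rw [k2]
      exact hCh _ _ _ k3 this
    have hz : f (Finsupp.single b 1) - g (Finsupp.single b 1) - H (d (Finsupp.single b 1)) ∈
        Ch (G b).s (deg b + 1) :=
      Submodule.sub_mem _ (Submodule.sub_mem _ (hf b hb).1 (hg b hb).1) hHz
    have hbz : bd (f (Finsupp.single b 1) - g (Finsupp.single b 1) -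
        H (d (Finsupp.single b 1))) = 0 := by
      rw [map_sub, map_sub, (hf b hb).2, (hg b hb).2]
      by_cases h0 : deg b = 0
      · have h5 : d (Finsupp.single b 1) = 0 := by
          ext b'
          by_contra h6
          obtain ⟨k1, k2, k3⟩ := h1 b hb b' (by simpa using h6)
          omega
        rw [if_pos h0, if_pos h0, h5, map_zero, map_zero, sub_self, sub_zero]
      · rw [if_neg h0, if_neg h0]
        have h6 : (bd ∘ₗ H) (d (Finsupp.single b 1)) =
            (f - g - H ∘ₗ d) (d (Finsupp.single b 1)) := by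
          refine DA_congr _ _ _ fun b' hb' => ?_
          obtain ⟨k1, k2, k3⟩ := h1 b hb b' hb'
          have := (hH b' k1 (by omega)).2
          rw [LinearMap.comp_apply, LinearMap.sub_apply, LinearMap.sub_apply,
            LinearMap.comp_apply, ← this, add_sub_cancel_right]
        rw [LinearMap.comp_apply, LinearMap.sub_apply, LinearMap.sub_apply,
          LinearMap.comp_apply, h2 b hb, map_zero, sub_zero] at h6
        rw [h6, sub_self]
    obtain ⟨y, hy, hy'⟩ := (h4 b hb).2 (deg b + 1) _ hz hbz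
    exact ⟨y, hy, by rw [hy', sub_add_cancel]⟩

end Pool.Agent.SLZ
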