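import Pool.Agent.SLZ.StM

/-!
# SLZ [MA]: formal properties of the boundary, pushing off a vertex, cones, unions (helper25)
-/

set_option autoImplicit false
set_option linter.unusedVariables false

noncomputable section

namespace Pool.Agent.SLZ

open Classical

variable {V : Type}

theorem MA_consC (v : V) (l : List V) (a : ℤ) :
    consC v (Finsupp.single l a) = Finsupp.single (v :: l) a := by
  unfold consC
  rw [Finsupp.lmapDomain_apply, Finsupp.mapDomain_single]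

theorem MA_bd (l : List V) (a : ℤ) : bd (Finsupp.single l a) = a • bdL l := by
  unfold bd
  rw [Finsupp.lift_apply, Finsupp.sum_single_index (by rw [zero_smul])]

theorem MA_bd1 (l : List V) : bd (Finsupp.single l 1) = bdL l := by rw [MA_bd, one_smul]

theorem MA_mem {s : Set (List V)} {j : ℕ} {c : List V →₀ ℤ} :
    c ∈ Ch s j ↔ ∀ l ∈ c.support, l ∈ s ∧ l.length = j := by
  unfold Ch
  rw [Finsupp.mem_supported]
  exact ⟨fun h l hl => h hl, fun h l hl => h l hl⟩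

theorem MA_lin (M : Submodule ℤ (List V →₀ ℤ)) (L : (List V →₀ ℤ) →ₗ[ℤ] (List V →₀ ℤ))
    (c : List V →₀ ℤ) (h : ∀ l ∈ c.support, L (Finsupp.single l 1) ∈ M) : L c ∈ M := by
  have h1 : c = ∑ l ∈ c.support, c l • Finsupp.single l (1 : ℤ) := by
    conv_lhs => rw [← Finsupp.sum_single c]
    unfold Finsupp.sum
    refine Finset.sum_congr rfl fun l _ => ?_
    rw [Finsupp.smul_single, smul_eq_mul, mul_one]
  rw [h1, map_sum]
  refine Submodule.sum_mem _ fun l hl => ?_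
  rw [map_smul]
  exact Submodule.smul_mem _ _ (h l hl)

theorem MA_single {s : Set (List V)} {j : ℕ} {l : List V} (h : l ∈ s) (hj : l.length = j) :
    Finsupp.single l (1 : ℤ) ∈ Ch s j := by
  rw [MA_mem]
  intro l' hl'
  have h1 := Finsupp.support_single_subset hl'
  rw [Finset.mem_singleton] at h1
  rw [h1]
  exact ⟨h, hj⟩

/-- (2) -/
theorem MA_2 (v : V) (c : List V →₀ ℤ) : bd (consC v c) = c - consC v (bd c) := by
  induction c using Finsupp.induction_linear with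
  | zero => simp
  | add x y hx hy =>
    rw [map_add, map_add, map_add, map_add, hx, hy]
    abel
  | single l a =>
    rw [MA_consC, MA_bd, MA_bd]
    show a • (Finsupp.single l 1 - consC v (bdL l)) = _
    rw [smul_sub, Finsupp.smul_single, smul_eq_mul, mul_one, map_smul]

theorem MA_1a (l : List V) : bd (bdL l) = 0 := by
  induction l with
  | nil => exact map_zero _
  | cons v l ih =>
    show bd (Finsupp.single l 1 - consC v (bdL l)) = 0
    rw [map_sub, MA_bd1, MA_2, ih, map_zero, sub_zero, sub_self]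

/-- (1) -/
theorem MA_1 (c : List V →₀ ℤ) : bd (bd c) = 0 := by
  induction c using Finsupp.induction_linear with
  | zero => rw [map_zero, map_zero]
  | add x y hx hy => rw [map_add, map_add, hx, hy, add_zero]
  | single l a => rw [MA_bd, map_smul, MA_1a, smul_zero]

/-- the lists of the boundary -/
theorem MA_sub (l : List V) :
    ∀ l' ∈ (bdL l).support, l' ⊆ l ∧ l'.length + 1 = l.length := by
  induction l with
  | nil =>
    intro l' hl'
    have h1 : (bdL ([] : List V)).support = ∅ := rfl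
    rw [h1] at hl'
    exact absurd hl' (Finset.notMem_empty _)
  | cons v l ih =>
    intro l' hl'
    have h1 := Finsupp.support_sub hl'
    rcases Finset.mem_union.1 h1 with h2 | h2
    · have h3 := Finsupp.support_single_subset h2
      rw [Finset.mem_singleton] at h3
      rw [h3]
      exact ⟨List.subset_cons_self v l, rfl⟩
    · unfold consC at h2
      rw [Finsupp.lmapDomain_apply] at h2
      have h3 := Finsupp.mapDomain_support h2
      obtain ⟨l'', h4, rfl⟩ := Finset.mem_image.1 h3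
      obtain ⟨h5, h6⟩ := ih l'' h4
      refine ⟨List.cons_subset_cons v h5, ?_⟩
      rw [List.length_cons, List.length_cons, h6]

theorem MA_bdCh {s t : Set (List V)} {j : ℕ} {c : List V →₀ ℤ} (hc : c ∈ Ch s (j + 1))
    (h : ∀ l ∈ c.support, ∀ l' : List V, l' ⊆ l → l' ∈ t) : bd c ∈ Ch t j := by
  apply MA_lin
  intro l hl
  rw [MA_bd1, MA_mem]
  intro l' hl'
  obtain ⟨h1, h2⟩ := MA_sub l l' hl'
  refine ⟨h l hl l' h1, ?_⟩
  have h3 := (MA_mem.1 hc l hl).2
  omega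

/-- (3) -/
theorem MA_3a (s : Set (List V)) (c : List V →₀ ℤ) (hc : c ∈ Ch s 0) : bd c = 0 := by
  have h1 : bd c ∈ (⊥ : Submodule ℤ (List V →₀ ℤ)) := by
    apply MA_lin
    intro l hl
    have h2 := (MA_mem.1 hc l hl).2
    rw [List.length_eq_zero_iff] at h2
    rw [h2, MA_bd1]
    exact Submodule.zero_mem _
  exact (Submodule.mem_bot ℤ).1 h1

theorem MA_3b (A : Cx V) (j : ℕ) (c : List V →₀ ℤ) (hc : c ∈ Ch A.s (j + 1)) :
    bd c ∈ Ch A.s j :=
  MA_bdCh hc fun l hl l' hl' => A.mono l l' hl' (MA_mem.1 hc l hl).1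

theorem MA_4a {W : Type} (f : V → W) (l : List V) :
    bdL (List.map f l) = (bdL l).mapDomain (List.map f) := by
  induction l with
  | nil => exact (Finsupp.mapDomain_zero).symm
  | cons v l ih =>
    show Finsupp.single (List.map f l) 1 - consC (f v) (bdL (List.map f l)) =
      (Finsupp.single l (1 : ℤ) - consC v (bdL l)).mapDomain (List.map f)
    have h1 : (Finsupp.single l (1 : ℤ) - consC v (bdL l)).mapDomain (List.map f) =
        (Finsupp.single l (1 : ℤ)).mapDomain (List.map f) -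
          (consC v (bdL l)).mapDomain (List.map f) :=
      map_sub (Finsupp.lmapDomain ℤ ℤ (List.map f)) _ _
    rw [h1, ih, Finsupp.mapDomain_single]
    congr 1
    unfold consC
    rw [Finsupp.lmapDomain_apply, Finsupp.lmapDomain_apply, ← Finsupp.mapDomain_comp,
      ← Finsupp.mapDomain_comp]
    rfl

/-- (4) -/
theorem MA_4 {W : Type} (f : V → W) (c : List V →₀ ℤ) :
    bd (c.mapDomain (List.map f)) = (bd c).mapDomain (List.map f) := by
  induction c using Finsupp.induction_linear with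
  | zero => rw [Finsupp.mapDomain_zero, map_zero, map_zero, Finsupp.mapDomain_zero]
  | add x y hx hy =>
    rw [Finsupp.mapDomain_add, map_add, map_add, Finsupp.mapDomain_add, hx, hy]
  | single l a =>
    rw [Finsupp.mapDomain_single, MA_bd, MA_bd, MA_4a, Finsupp.mapDomain_smul]

theorem MA_consCh {s t : Set (List V)} {j : ℕ} {c : List V →₀ ℤ} (v : V) (hc : c ∈ Ch s j)
    (h : ∀ l ∈ s, (v :: l) ∈ t) : consC v c ∈ Ch t (j + 1) := by
  apply MA_lin
  intro l hl
  rw [MA_consC]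
  obtain ⟨h1, h2⟩ := MA_mem.1 hc l hl
  exact MA_single (h l h1) (by rw [List.length_cons, h2])

theorem MA_filter {s : Set (List V)} (t : Set (List V)) {j : ℕ} {c : List V →₀ ℤ}
    (p : List V → Prop) [DecidablePred p] (hc : c ∈ Ch s j) (h : ∀ l ∈ s, p l → l ∈ t) : c.filter p ∈ Ch t j := by
  rw [MA_mem]
  intro l hl
  rw [Finsupp.support_filter, Finset.mem_filter] at hl
  obtain ⟨h1, h2⟩ := MA_mem.1 hc l hl.1
  exact ⟨h l h1 hl.2, h2⟩

theorem MA_mono {s t : Set (List V)} {j : ℕ} {c : List V →₀ ℤ} (hc : c ∈ Ch s j)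
    (h : ∀ l ∈ s, l ∈ t) : c ∈ Ch t j := by
  rw [MA_mem]
  intro l hl
  obtain ⟨h1, h2⟩ := MA_mem.1 hc l hl
  exact ⟨h l h1, h2⟩

/-- (5) -/
theorem MA_5 (A : Cx V) (v : V) (j : ℕ) (hE : Ex (lk A v) j) (c : List V →₀ ℤ)
    (hc : c ∈ Ch A.s (j + 1)) (hbc : bd c ∈ Ch (del A v).s j) :
    ∃ c' ∈ Ch (del A v).s (j + 1), ∃ e ∈ Ch A.s (j + 2), c = c' + bd e := by
  obtain ⟨c1, hc1⟩ : ∃ c1, c1 = c.filter (fun l => v ∈ l) := ⟨_, rfl⟩
  obtain ⟨c0, hc0⟩ : ∃ c0, c0 = c.filter (fun l => ¬ v ∈ l) := ⟨_, rfl⟩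
  have hcc : c = c1 + c0 := by rw [hc1, hc0, Finsupp.filter_pos_add_filter_neg]
  have m0 : c0 ∈ Ch (del A v).s (j + 1) := by
    rw [hc0]
    exact MA_filter (del A v).s (fun l => ¬ v ∈ l) hc fun l h1 h2 => ⟨h2, h1⟩
  -- the lists of `c1`
  have m1 : c1 ∈ Ch {l | v ∈ l ∧ l ∈ A.s} (j + 1) := by
    rw [hc1]
    exact MA_filter {l | v ∈ l ∧ l ∈ A.s} (fun l => v ∈ l) hc fun l h1 h2 => ⟨h2, h1⟩
  have b1 : bd c1 ∈ Ch (del A v).s j := by
    have h1 : bd c1 = bd c - bd c0 := by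
      rw [hcc, map_add, add_sub_cancel_right]
    rw [h1]
    exact Submodule.sub_mem _ hbc (MA_3b (del A v) j c0 m0)
  have b2 : bd c1 ∈ Ch {l | (v :: l) ∈ A.s} j :=
    MA_bdCh m1 fun l hl l' hl' => by
      obtain ⟨⟨h1, h2⟩, -⟩ := MA_mem.1 m1 l hl
      exact A.mono l (v :: l') (List.cons_subset.2 ⟨h1, hl'⟩) h2
  have b3 : bd c1 ∈ Ch (lk A v).s j := by
    rw [MA_mem]
    intro l hl
    obtain ⟨⟨h1, -⟩, h2⟩ := MA_mem.1 b1 l hl
    exact ⟨⟨h1, (MA_mem.1 b2 l hl).1⟩, h2⟩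
  obtain ⟨b, hb, hbb⟩ := hE _ b3 (MA_1 c1)
  have hx0 : bd (c1 - b) = 0 := by rw [map_sub, hbb, sub_self]
  have hx : bd (consC v (c1 - b)) = c1 - b := by rw [MA_2, hx0, map_zero, sub_zero]
  refine ⟨c0 + b, Submodule.add_mem _ m0 (MA_mono hb fun l hl => ⟨hl.1, ?_⟩),
    consC v (c1 - b), ?_, ?_⟩
  · exact A.mono _ _ (List.subset_cons_self v l) hl.2
  · have h1 : c1 - b ∈ Ch {l | (v :: l) ∈ A.s} (j + 1) := by
      refine Submodule.sub_mem _ (MA_mono m1 fun l hl => ?_) (MA_mono hb fun l hl => hl.2)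
      exact A.mono l (v :: l) (List.cons_subset.2 ⟨hl.1, List.Subset.refl l⟩) hl.2
    exact MA_consCh v h1 fun l hl => hl
  · rw [hx]
    conv_lhs => rw [hcc]
    abel

/-- (6) -/
theorem MA_6 (A : Cx V) (v : V) (h : ∀ l ∈ A.s, (v :: l) ∈ A.s) (j : ℕ) : Ex A j := by
  intro z hz hz0
  exact ⟨consC v z, MA_consCh v hz h, by rw [MA_2, hz0, map_zero, sub_zero]⟩

theorem MA_split (A B C : Cx V) (j : ℕ) (hC : ∀ l, l ∈ C.s ↔ l ∈ A.s ∨ l ∈ B.s)
    (z : List V →₀ ℤ) (hz : z ∈ Ch C.s j) : ∃ a ∈ Ch A.s j, ∃ b ∈ Ch B.s j, z = a + b := by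
  refine ⟨z.filter (fun l => l ∈ A.s), MA_filter A.s (fun l => l ∈ A.s) hz fun l _ h2 => h2,
    z.filter (fun l => ¬ l ∈ A.s), MA_filter B.s (fun l => ¬ l ∈ A.s) hz fun l h1 h2 => ?_, ?_⟩
  · exact ((hC l).1 h1).resolve_left h2
  · rw [Finsupp.filter_pos_add_filter_neg]

/-- [MA] -/
theorem thm_MA : St_MA := by
  intro V
  refine ⟨MA_1, MA_2, fun A j => ⟨MA_3a A.s, MA_3b A j⟩, fun W f c => MA_4 f c, MA_5, MA_6, ?_⟩
  intro A B C D j hC hD
  have hAC : ∀ l ∈ A.s, l ∈ C.s := fun l hl => (hC l).2 (Or.inl hl)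
  have hBC : ∀ l ∈ B.s, l ∈ C.s := fun l hl => (hC l).2 (Or.inr hl)
  have hDA : ∀ l ∈ D.s, l ∈ A.s := fun l hl => ((hD l).1 hl).1
  have hDB : ∀ l ∈ D.s, l ∈ B.s := fun l hl => ((hD l).1 hl).2
  constructor
  · intro eA eB z hz _
    obtain ⟨a, ha, b, hb, rfl⟩ := MA_split A B C 0 hC z hz
    obtain ⟨y1, h1, h2⟩ := eA a ha (MA_3a _ a ha)
    obtain ⟨y2, h3, h4⟩ := eB b hb (MA_3a _ b hb)
    exact ⟨y1 + y2, Submodule.add_mem _ (MA_mono h1 hAC) (MA_mono h3 hBC), by
      rw [map_add, h2, h4]⟩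
  · intro eA eB eD z hz hz0
    obtain ⟨a, ha, b, hb, rfl⟩ := MA_split A B C (j + 1) hC z hz
    have k1 := MA_3b A j a ha
    have k2 := MA_3b B j b hb
    have k3 : bd a = -bd b := by
      rw [map_add] at hz0
      exact eq_neg_of_add_eq_zero_left hz0
    have k4 : bd a ∈ Ch B.s j := by
      rw [k3]
      exact Submodule.neg_mem _ k2
    have k5 : bd a ∈ Ch D.s j := by
      rw [MA_mem]
      intro l hl
      obtain ⟨h1, h2⟩ := MA_mem.1 k1 l hl
      exact ⟨(hD l).2 ⟨h1, (MA_mem.1 k4 l hl).1⟩, h2⟩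
    obtain ⟨c, hc, hcb⟩ := eD _ k5 (MA_1 a)
    obtain ⟨y1, h1, h2⟩ := eA (a - c) (Submodule.sub_mem _ ha (MA_mono hc hDA)) (by
      rw [map_sub, hcb, sub_self])
    obtain ⟨y2, h3, h4⟩ := eB (b + c) (Submodule.add_mem _ hb (MA_mono hc hDB)) (by
      rw [map_add, hcb, k3, add_neg_cancel])
    exact ⟨y1 + y2, Submodule.add_mem _ (MA_mono h1 hAC) (MA_mono h3 hBC), by
      rw [map_add, h2, h4]
      abel⟩

end Pool.Agent.SLZ
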