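import Pool.Agent.SLZ.StD
import Pool.Agent.SLZ.MA

/-!
# SLZ, module DB: unreduced boundary, tensor product, Alexander-Whitney map (helper1 for helper12)
-/

set_option autoImplicit false
set_option linter.unusedVariables false

noncomputable section

namespace Pool.Agent.SLZ

namespace DBx

open Finsupp

/-! ### linear maps on supported chains -/

theorem sup_mem {α β : Type} {s : Set α} (f : (α →₀ ℤ) →ₗ[ℤ] (β →₀ ℤ)) (N : Submodule ℤ (β →₀ ℤ))
    (h : ∀ a ∈ s, f (single a 1) ∈ N) {c : α →₀ ℤ} (hc : c ∈ supported ℤ ℤ s) : f c ∈ N := by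
  rw [supported_eq_span_single] at hc
  have h1 : Submodule.span ℤ ((fun i => (single i 1 : α →₀ ℤ)) '' s) ≤ N.comap f := by
    rw [Submodule.span_le]
    rintro _ ⟨a, ha, rfl⟩
    exact h a ha
  exact h1 hc

theorem sup_eq {α β : Type} {s : Set α} (f g : (α →₀ ℤ) →ₗ[ℤ] (β →₀ ℤ))
    (h : ∀ a ∈ s, f (single a 1) = g (single a 1)) {c : α →₀ ℤ} (hc : c ∈ supported ℤ ℤ s) :
    f c = g c := by
  have h1 := sup_mem (f - g) ⊥ (fun a ha => by
    rw [LinearMap.sub_apply, h a ha, sub_self]
    exact Submodule.zero_mem _) hc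
  rw [Submodule.mem_bot, LinearMap.sub_apply, sub_eq_zero] at h1
  exact h1

theorem all_eq {α β : Type} (f g : (α →₀ ℤ) →ₗ[ℤ] (β →₀ ℤ))
    (h : ∀ a, f (single a 1) = g (single a 1)) (c : α →₀ ℤ) : f c = g c :=
  sup_eq (s := Set.univ) f g (fun a _ => h a) (by rw [supported_univ]; trivial)

variable {V : Type}

theorem bd_single (l : List V) : bd (single l 1) = bdL l := by
  rw [bd, lift_apply, sum_single_index (by rw [zero_smul]), one_smul]

theorem ub_single (l : List V) : ub (single l 1) = ubL l := by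
  rw [ub, lift_apply, sum_single_index (by rw [zero_smul]), one_smul]

theorem tb_single (p : List V × List V) : tb (single p 1) = tbL p := by
  rw [tb, lift_apply, sum_single_index (by rw [zero_smul]), one_smul]

theorem aw_single (l : List V) : aw (single l 1) = awL l := by
  rw [aw, lift_apply, sum_single_index (by rw [zero_smul]), one_smul]

/-- `tz` as a bilinear map -/
def tzB : (List V →₀ ℤ) →ₗ[ℤ] (List V →₀ ℤ) →ₗ[ℤ] (List V × List V →₀ ℤ) :=
  lift _ ℤ _ (fun l => lmapDomain ℤ ℤ (fun l' => (l, l')))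

theorem tz_eq (a b : List V →₀ ℤ) : tz a b = tzB a b := by
  rw [tz, tzB, lift_apply, LinearMap.finsupp_sum_apply]
  refine Finset.sum_congr rfl fun l _ => ?_
  show (b.sum fun l' m' => single (l, l') (a l * m')) =
    (a l • lmapDomain ℤ ℤ fun l' : List V => (l, l')) b
  rw [LinearMap.smul_apply, lmapDomain_apply, mapDomain, smul_sum]
  refine Finset.sum_congr rfl fun l' _ => ?_
  show single (l, l') (a l * b l') = a l • single (l, l') (b l')
  rw [smul_single, smul_eq_mul]

theorem tz_single (l l' : List V) : tz (single l 1) (single l' 1) = single (l, l') 1 := by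
  rw [tz, sum_single_index (by
    rw [sum_single_index (by rw [mul_zero, single_zero]), zero_mul, single_zero]),
    sum_single_index (by rw [mul_zero, single_zero]), one_mul]

theorem tz_zero_left (b : List V →₀ ℤ) : tz 0 b = 0 := by
  rw [tz_eq, map_zero, LinearMap.zero_apply]

theorem tz_zero_right (a : List V →₀ ℤ) : tz a 0 = 0 := by
  rw [tz_eq, map_zero]

/-! ### boundaries -/

theorem ubL_eq (l : List V) (h : 2 ≤ l.length) : ubL l = bdL l := by
  match l, h with
  | v :: w :: l, _ => rfl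

theorem ubL_one (l : List V) (h : l.length = 1) : ubL l = 0 := by
  match l, h with
  | [v], _ => rfl

/-- the full complex -/
def top (V : Type) : Cx V where
  s := Set.univ
  mono _ _ _ _ := trivial

theorem bdL_mem {K : Cx V} {l : List V} (hl : l ∈ K.s) {j : ℕ} (hj : l.length = j + 1) :
    bdL l ∈ Ch K.s j := by
  rw [← bd_single]
  exact ((thm_MA V).2.2.1 K j).2 _ (single_mem_supported ℤ 1 ⟨hl, hj⟩)

theorem ubL_mem {K : Cx V} {l : List V} (hl : l ∈ K.s) {j : ℕ} (hj : l.length = j + 1) :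
    ubL l ∈ Ch K.s j := by
  by_cases h : 2 ≤ l.length
  · rw [ubL_eq l h]
    exact bdL_mem hl hj
  · rw [ubL_one l (by omega)]
    exact Submodule.zero_mem _

theorem ub_eq_bd {K : Cx V} {c : List V →₀ ℤ} {j : ℕ} (hc : c ∈ Ch K.s (j + 2)) : ub c = bd c := by
  refine sup_eq ub bd ?_ hc
  rintro l ⟨-, hl⟩
  rw [ub_single, bd_single, ubL_eq l (by omega)]

theorem ub_ubL (l : List V) : ub (ubL l) = 0 := by
  match l with
  | [] => exact map_zero _
  | [v] => exact map_zero _
  | [v, w] =>
    have h1 : ubL [v, w] = single [w] 1 - single [v] 1 := by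
      show single [w] 1 - consC v (single [] 1 - consC w 0) = _
      rw [map_zero, sub_zero, consC, lmapDomain_apply, mapDomain_single]
    rw [h1, map_sub, ub_single, ub_single]
    show (0 : List V →₀ ℤ) - 0 = 0
    exact sub_zero _
  | u :: v :: w :: l =>
    have h1 : ubL (u :: v :: w :: l) = bdL (u :: v :: w :: l) := rfl
    have h2 : bdL (u :: v :: w :: l) ∈ Ch (top V).s (l.length + 2) :=
      bdL_mem (K := top V) (l := u :: v :: w :: l) trivial (by simp)
    rw [h1, ub_eq_bd h2, ← bd_single, (thm_MA V).1]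

theorem ub_ub (c : List V →₀ ℤ) : ub (ub c) = 0 :=
  all_eq (ub ∘ₗ ub) 0 (fun l => by
    rw [LinearMap.comp_apply, ub_single, ub_ubL]
    rfl) c

/-! ### the tensor product -/

theorem tb_tz_single (l l' : List V) {p : ℕ} (hl : l.length = p + 1) :
    tb (tz (single l 1) (single l' 1)) =
      tz (ubL l) (single l' 1) + (-1 : ℤ) ^ p • tz (single l 1) (ubL l') := by
  rw [tz_single, tb_single, tbL, hl, Nat.add_sub_cancel]

theorem tb_tz {a b : List V →₀ ℤ} {p : ℕ} (ha : a ∈ supported ℤ ℤ {l : List V | l.length = p + 1}) :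
    tb (tz a b) = tz (ub a) b + (-1 : ℤ) ^ p • tz a (ub b) := by
  rw [tz_eq, tz_eq, tz_eq]
  refine sup_eq (tb ∘ₗ tzB.flip b) ((tzB.flip b) ∘ₗ ub + (-1 : ℤ) ^ p • (tzB.flip (ub b)))
    (fun l hl => ?_) ha
  refine all_eq (tb ∘ₗ tzB (single l 1)) (tzB (ub (single l 1)) +
    (-1 : ℤ) ^ p • (tzB (single l 1) ∘ₗ ub)) (fun l' => ?_) b
  have h1 := tb_tz_single l l' hl
  rw [tz_eq, tz_eq, tz_eq] at h1
  rw [LinearMap.comp_apply, LinearMap.add_apply, LinearMap.smul_apply, LinearMap.comp_apply,
    ub_single, ub_single]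
  exact h1

theorem tb_tb {l l' : List V} (hl : l ≠ []) (hl' : l' ≠ []) :
    tb (tb (single (l, l') 1)) = 0 := by
  obtain ⟨p, hp⟩ : ∃ p, l.length = p + 1 := Nat.exists_eq_succ_of_ne_zero (by simpa using hl)
  have h1 : (single l 1 : List V →₀ ℤ) ∈ supported ℤ ℤ {l : List V | l.length = p + 1} :=
    single_mem_supported ℤ 1 hp
  rw [← tz_single, tb_tz h1, map_add, map_smul, ub_single, ub_single, tb_tz h1, ub_ubL,
    tz_zero_right, smul_zero, add_zero, ub_single]
  rcases p with _ | p
  · rw [ubL_one l hp, tz_zero_left, tz_zero_left, map_zero, smul_zero, add_zero]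
  · have h2 : ubL l ∈ supported ℤ ℤ {l : List V | l.length = p + 1} := by
      have h3 := ubL_mem (K := top V) (l := l) trivial hp
      exact supported_mono (fun x hx => hx.2) h3
    rw [tb_tz h2, ub_ubL, tz_zero_left, zero_add, ub_single, ← add_smul, pow_succ, mul_neg,
      mul_one, add_neg_cancel, zero_smul]

/-- the augmentation -/
def eps (α : Type) : (α →₀ ℤ) →ₗ[ℤ] ℤ := lift ℤ ℤ α fun _ => 1

theorem eps_eq {α : Type} (c : α →₀ ℤ) : (c.sum fun _ m => m) = eps α c := by
  rw [eps, lift_apply]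
  refine Finset.sum_congr rfl fun a _ => ?_
  show c a = c a • (1 : ℤ)
  rw [smul_eq_mul, mul_one]

theorem eps_single {α : Type} (a : α) : eps α (single a 1) = 1 := by
  rw [eps, lift_apply, sum_single_index (by rw [zero_smul]), one_smul]

theorem ubL_two (l : List V) (h : l.length = 2) : ∃ v w, ubL l = single [w] 1 - single [v] 1 := by
  match l, h with
  | [v, w], _ =>
    refine ⟨v, w, ?_⟩
    show single [w] 1 - consC v (single [] 1 - consC w 0) = _
    rw [map_zero, sub_zero, consC, lmapDomain_apply, mapDomain_single]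

theorem eps_tb {l l' : List V} (hl : l ≠ []) (hl' : l' ≠ []) (h : l.length + l'.length = 3) :
    eps _ (tb (single (l, l') 1)) = 0 := by
  have h1 : 0 < l.length := List.length_pos_iff.2 hl
  have h2 : 0 < l'.length := List.length_pos_iff.2 hl'
  rw [tb_single, tbL]
  show eps _ (tz (ubL l) (single l' 1) + (-1 : ℤ) ^ (l.length - 1) • tz (single l 1) (ubL l')) = 0
  by_cases h3 : l.length = 1
  · obtain ⟨v, w, hv⟩ := ubL_two l' (by omega)
    rw [ubL_one l h3, tz_zero_left, zero_add, hv, h3, Nat.sub_self, pow_zero, one_smul, tz_eq,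
      map_sub, ← tz_eq, ← tz_eq, tz_single, tz_single, map_sub, eps_single, eps_single, sub_self]
  · obtain ⟨v, w, hv⟩ := ubL_two l (by omega)
    rw [ubL_one l' (by omega), tz_zero_right, smul_zero, add_zero, hv, tz_eq, map_sub,
      LinearMap.sub_apply, ← tz_eq, ← tz_eq, tz_single, tz_single, map_sub, eps_single,
      eps_single, sub_self]

/-! ### the Alexander-Whitney map -/

/-- put a vertex in front of the first list -/
def cx (x : V) : (List V × List V →₀ ℤ) →ₗ[ℤ] (List V × List V →₀ ℤ) :=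
  lmapDomain ℤ ℤ fun p => (x :: p.1, p.2)

theorem cx_single (x : V) (p : List V × List V) : cx x (single p 1) = single (x :: p.1, p.2) 1 := by
  rw [cx, lmapDomain_apply, mapDomain_single]

theorem consC_single (x : V) (l : List V) : consC x (single l 1) = single (x :: l) 1 := by
  rw [consC, lmapDomain_apply, mapDomain_single]

theorem awL_cons (x : V) (l : List V) :
    awL (x :: l) = single ([x], x :: l) 1 + cx x (awL l) := rfl

theorem cx_tz (x : V) (a b : List V →₀ ℤ) : cx x (tz a b) = tz (consC x a) b := by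
  rw [tz_eq, tz_eq]
  refine all_eq (cx x ∘ₗ tzB.flip b) (tzB.flip b ∘ₗ consC x) (fun l => ?_) a
  refine all_eq (cx x ∘ₗ tzB (single l 1)) (tzB (consC x (single l 1))) (fun l' => ?_) b
  rw [LinearMap.comp_apply, ← tz_eq, ← tz_eq, consC_single, tz_single, tz_single, cx_single]

/-- the support of the Alexander-Whitney map -/
theorem awL_mem (l : List V) : awL l ∈ supported ℤ ℤ {p : List V × List V | p.1 ≠ [] ∧ p.2 ≠ [] ∧
    p.1 ⊆ l ∧ p.2 ⊆ l ∧ p.1.length + p.2.length = l.length + 1} := by
  induction l with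
  | nil => exact Submodule.zero_mem _
  | cons x l ih =>
    rw [awL_cons]
    refine Submodule.add_mem _ (single_mem_supported ℤ 1 ?_) (sup_mem (cx x) _ ?_ ih)
    · refine ⟨by simp, by simp, by simp, by simp, ?_⟩
      simp
      omega
    · rintro ⟨a, b⟩ ⟨h1, h2, h3, h4, h5⟩
      rw [cx_single]
      refine single_mem_supported ℤ 1 ⟨by simp, h2, ?_, ?_, ?_⟩
      · exact List.cons_subset_cons x h3
      · exact List.subset_cons_of_subset x h4
      · show (x :: a).length + b.length = (x :: l).length + 1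
        have h6 : a.length + b.length = l.length + 1 := h5
        rw [List.length_cons, List.length_cons]
        omega

/-- the correction term -/
def Dx (x : V) : (List V × List V →₀ ℤ) →ₗ[ℤ] (List V × List V →₀ ℤ) :=
  lift _ ℤ _ fun p => tz (consC x (bdL p.1 - ubL p.1)) (single p.2 1)

theorem Dx_single (x : V) (p : List V × List V) :
    Dx x (single p 1) = tz (consC x (bdL p.1 - ubL p.1)) (single p.2 1) := by
  rw [Dx, lift_apply, sum_single_index (by rw [zero_smul]), one_smul]

theorem ubL_cons (x : V) {a : List V} (ha : a ≠ []) :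
    ubL (x :: a) = single a 1 - consC x (bdL a) := by
  match a, ha with
  | y :: a, _ => rfl

theorem tb_cx (x : V) {w : List V × List V →₀ ℤ}
    (hw : w ∈ supported ℤ ℤ {p : List V × List V | p.1 ≠ []}) :
    tb (cx x w) = w - cx x (tb w) - Dx x w := by
  refine sup_eq (tb ∘ₗ cx x) (LinearMap.id - cx x ∘ₗ tb - Dx x) ?_ hw
  rintro ⟨a, b⟩ ha
  obtain ⟨p, hp⟩ : ∃ p, a.length = p + 1 := Nat.exists_eq_succ_of_ne_zero (by simpa using ha)
  rw [LinearMap.comp_apply, cx_single, LinearMap.sub_apply, LinearMap.sub_apply,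
    LinearMap.comp_apply, LinearMap.id_apply, Dx_single, tb_single, tb_single, tbL, tbL]
  show tz (ubL (x :: a)) (single b 1) + (-1 : ℤ) ^ ((x :: a).length - 1) •
    tz (single (x :: a) 1) (ubL b) = single (a, b) 1 - cx x (tz (ubL a) (single b 1) +
      (-1 : ℤ) ^ (a.length - 1) • tz (single a 1) (ubL b)) -
      tz (consC x (bdL a - ubL a)) (single b 1)
  rw [ubL_cons x ha, List.length_cons, hp, Nat.add_sub_cancel, Nat.add_sub_cancel, map_add,
    map_smul, cx_tz, cx_tz, consC_single, pow_succ, mul_neg, mul_one, neg_smul, ← tz_single, map_sub]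
  simp only [tz_eq, map_sub, LinearMap.sub_apply]
  abel

theorem Dx_awL (x y : V) (l : List V) : Dx x (awL (y :: l)) = single ([x], y :: l) 1 := by
  rw [awL_cons, map_add, Dx_single]
  have h1 : bdL ([y] : List V) - ubL [y] = single [] 1 := by
    show single [] 1 - consC y 0 - 0 = _
    rw [map_zero, sub_zero, sub_zero]
  have h2 : Dx x (cx y (awL l)) = 0 := by
    refine sup_eq (Dx x ∘ₗ cx y) 0 ?_ (awL_mem l)
    rintro ⟨a, b⟩ ⟨ha, -⟩
    have h3 : 0 < a.length := List.length_pos_iff.2 ha
    rw [LinearMap.comp_apply, cx_single, Dx_single, LinearMap.zero_apply]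
    show tz (consC x (bdL (y :: a) - ubL (y :: a))) (single b 1) = 0
    rw [ubL_eq (y :: a) (by rw [List.length_cons]; omega), sub_self, map_zero, tz_zero_left]
  rw [h2, add_zero]
  show tz (consC x (bdL [y] - ubL [y])) (single (y :: l) 1) = _
  rw [h1, consC_single, tz_single]

theorem aw_consC (x : V) (c : List V →₀ ℤ) :
    aw (consC x c) = tz (single [x] 1) (consC x c) + cx x (aw c) := by
  rw [tz_eq]
  refine all_eq (aw ∘ₗ consC x) (tzB (single [x] 1) ∘ₗ consC x + cx x ∘ₗ aw) (fun l => ?_) c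
  rw [LinearMap.comp_apply, LinearMap.add_apply, LinearMap.comp_apply, LinearMap.comp_apply,
    consC_single, aw_single, aw_single, ← tz_eq, tz_single, awL_cons]

theorem aw_bdL (l : List V) : aw (bdL l) = aw (ubL l) := by
  match l with
  | [] => rfl
  | [v] =>
    show aw (single [] 1 - consC v 0) = aw 0
    rw [map_zero, sub_zero, aw_single, map_zero]
    rfl
  | v :: w :: l => rfl

theorem tb_awL (l : List V) (hl : l ≠ []) : tb (awL l) = aw (ubL l) := by
  induction l with
  | nil => exact absurd rfl hl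
  | cons x l ih =>
    match l with
    | [] =>
      have h1 : awL [x] = single ([x], [x]) 1 := by
        rw [awL_cons]
        show _ + cx x 0 = _
        rw [map_zero, add_zero]
      rw [h1, tb_single, tbL]
      show tz 0 _ + (-1 : ℤ) ^ 0 • tz _ 0 = aw 0
      rw [tz_zero_left, tz_zero_right, smul_zero, add_zero, map_zero]
    | y :: l =>
      have h2 : awL (y :: l) ∈ supported ℤ ℤ {p : List V × List V | p.1 ≠ []} :=
        supported_mono (fun p hp => hp.1) (awL_mem (y :: l))
      rw [awL_cons x, map_add, tb_cx x h2, Dx_awL, ih (by simp), tb_single, tbL]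
      show tz 0 _ + (-1 : ℤ) ^ 0 • tz (single [x] 1) (ubL (x :: y :: l)) + _ = _
      have h3 : tz (single [x] 1) (ubL (x :: y :: l)) =
          single ([x], y :: l) 1 - tz (single [x] 1) (consC x (bdL (y :: l))) := by
        rw [ubL_cons x (by simp), tz_eq, map_sub, ← tz_eq, ← tz_eq, tz_single]
      have h4 : aw (ubL (x :: y :: l)) = awL (y :: l) -
          (tz (single [x] 1) (consC x (bdL (y :: l))) + cx x (aw (ubL (y :: l)))) := by
        rw [ubL_cons x (by simp), map_sub, aw_single, aw_consC, aw_bdL]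
      rw [tz_zero_left, zero_add, pow_zero, one_smul, h3, h4]
      abel

/-! ### supports -/

theorem tz_mem {K : Cx V} {p q n : ℕ} {a b : List V →₀ ℤ} (ha : a ∈ Ch K.s (p + 1))
    (hb : b ∈ Ch K.s (q + 1)) (hn : n = p + q) : tz a b ∈ TCh K n := by
  subst hn
  rw [tz_eq]
  refine sup_mem (tzB.flip b) (TCh K (p + q)) ?_ ha
  rintro l ⟨hl, hl'⟩
  refine sup_mem (tzB (single l 1)) (TCh K (p + q)) ?_ hb
  rintro m ⟨hm, hm'⟩
  rw [← tz_eq, tz_single]
  refine single_mem_supported ℤ 1 ⟨hl, hm, ?_, ?_, ?_⟩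
  · rintro rfl
    simp at hl'
  · rintro rfl
    simp at hm'
  · show l.length + m.length = p + q + 2
    omega

theorem tbL_mem {K : Cx V} {n : ℕ} {l l' : List V} (hl : l ∈ K.s) (hl' : l' ∈ K.s) (h : l ≠ [])
    (h' : l' ≠ []) (hn : l.length + l'.length = n + 3) : tb (single (l, l') 1) ∈ TCh K n := by
  obtain ⟨p, hp⟩ : ∃ p, l.length = p + 1 := Nat.exists_eq_succ_of_ne_zero (by simpa using h)
  obtain ⟨q, hq⟩ : ∃ q, l'.length = q + 1 := Nat.exists_eq_succ_of_ne_zero (by simpa using h')
  rw [tb_single, tbL]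
  show tz (ubL l) (single l' 1) + (-1 : ℤ) ^ (l.length - 1) • tz (single l 1) (ubL l') ∈ TCh K n
  refine Submodule.add_mem _ ?_ (Submodule.smul_mem _ _ ?_)
  · rcases p with _ | p
    · rw [ubL_one l hp, tz_zero_left]
      exact Submodule.zero_mem _
    · exact tz_mem (ubL_mem hl hp) (single_mem_supported ℤ 1 ⟨hl', hq⟩) (by omega)
  · rcases q with _ | q
    · rw [ubL_one l' hq, tz_zero_right]
      exact Submodule.zero_mem _
    · exact tz_mem (single_mem_supported ℤ 1 ⟨hl, hp⟩) (ubL_mem hl' hq) (by omega)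

end DBx

open DBx Finsupp in
/-- **DB** -/
theorem thm_DB : St_DB := by
  intro V
  refine ⟨ubL_eq, ub_ub, ?_, ?_, ?_, ?_, tb_awL, ?_, ?_⟩
  · intro a b p ha
    exact tb_tz (fun l hl => ha l hl)
  · rintro ⟨l, l'⟩ h1 h2
    exact tb_tb h1 h2
  · rintro ⟨l, l'⟩ h1 h2 h3
    rw [eps_eq]
    exact eps_tb h1 h2 h3
  · intro l hl
    obtain ⟨v, w, h⟩ := ubL_two l hl
    rw [eps_eq, ub_single, h, map_sub, eps_single, eps_single, sub_self]
  · intro K n
    refine ⟨?_, ?_, ?_, ?_⟩
    · intro l hl hn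
      refine supported_mono ?_ (awL_mem l)
      rintro ⟨a, b⟩ ⟨h1, h2, h3, h4, h5⟩
      refine ⟨K.mono _ _ h3 hl, K.mono _ _ h4 hl, h1, h2, ?_⟩
      rw [h5, hn]
    · intro c hc
      rw [ub_eq_bd hc]
      exact ((thm_MA V).2.2.1 K (n + 1)).2 c hc
    · intro c hc
      refine sup_mem tb (TCh K n) ?_ hc
      rintro ⟨l, l'⟩ ⟨h1, h2, h3, h4, h5⟩
      exact tbL_mem h1 h2 h3 h4 h5
    · intro c hc
      refine sup_eq tb 0 ?_ hc
      rintro ⟨l, l'⟩ ⟨h1, h2, h3, h4, h5⟩
      have h6 : 0 < l.length := List.length_pos_iff.2 h3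
      have h7 : 0 < l'.length := List.length_pos_iff.2 h4
      have h8 : l.length + l'.length = 0 + 2 := h5
      rw [tb_single, tbL]
      show tz (ubL l) (single l' 1) + (-1 : ℤ) ^ (l.length - 1) • tz (single l 1) (ubL l') = 0
      rw [ubL_one l (by omega), ubL_one l' (by omega), tz_zero_left, tz_zero_right, smul_zero,
        add_zero]
  · intro K p q a b ha hb
    exact tz_mem ha hb rfl

end Pool.Agent.SLZ
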