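import Pool.Agent.SLZ.DA
import Pool.Agent.SLZ.MA

/-!
# SLZ: DC, a contraction in the small lengths
-/

set_option autoImplicit false
set_option linter.unusedVariables false

noncomputable section

namespace Pool.Agent.SLZ

namespace DC

open DA

variable {V : Type}

theorem DC_ub1 (l : List V) : ub (Finsupp.single l 1) = ubL l := by
  unfold ub
  rw [Finsupp.lift_apply, Finsupp.sum_single_index (by rw [zero_smul]), one_smul]

theorem DC_ub2 (l : List V) (h : 2 ≤ l.length) : ub (Finsupp.single l 1) = bd (Finsupp.single l 1) := by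
  rw [DC_ub1, MA_bd1]
  match l, h with
  | v :: w :: l, _ => rfl

theorem DC_ub_one (l : List V) (h : l.length = 1) : ub (Finsupp.single l 1) = 0 := by
  rw [DC_ub1]
  match l, h with
  | [v], _ => rfl

/-- the support of the boundary -/
theorem DC_supp (K : Cx V) (hMA : St_MA) (l l' : List V) (hl : l ∈ K.s) (h0 : l ≠ [])
    (h : ub (Finsupp.single l 1) l' ≠ 0) :
    l' ∈ K.s ∧ l' ≠ [] ∧ l.length = l'.length + 1 ∧ 2 ≤ l.length := by
  have h1 : 1 ≤ l.length := by
    rcases l with _ | ⟨a, l⟩
    · exact absurd rfl h0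
    · simp
  have h2 : 2 ≤ l.length := by
    by_contra h3
    rw [DC_ub_one l (by omega)] at h
    exact h rfl
  rw [DC_ub2 l h2] at h
  have h3 := ((hMA V).2.2.1 K (l.length - 1)).2 (Finsupp.single l 1)
    (MA_single hl (by omega))
  rw [MA_mem] at h3
  obtain ⟨h4, h5⟩ := h3 l' (Finsupp.mem_support_iff.2 h)
  refine ⟨h4, ?_, by omega, h2⟩
  rintro rfl
  simp at h5
  omega

end DC

open DA DC in
theorem thm_DC : St_DC := by
  have hMA : St_MA := thm_MA
  intro V K L i hi hL hK
  classical
  obtain ⟨m1, m2, m3, m4, -⟩ := hMA V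
  set S : Set (List V) := {l | l ∈ K.s ∧ l ≠ [] ∧ l.length ≤ i} with hS
  have hd : ∀ b ∈ S, ∀ b', ub (Finsupp.single b 1) b' ≠ 0 → b' ∈ S ∧ b'.length < b.length := by
    intro b hb b' hb'
    obtain ⟨k1, k2, k3, k4⟩ := DC_supp K hMA b b' hb.1 hb.2.1 hb'
    exact ⟨⟨k1, k2, by have := hb.2.2; omega⟩, by omega⟩
  obtain ⟨f, hf⟩ := DA_rec List.length S ub (fun l u y => y ∈ Ch K.s (l.length + 1) ∧
      bd y + u = Finsupp.single l 1 - (if l.length = 1 then Finsupp.single [L] 1 else 0)) hd (by
    intro b hb f hf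
    obtain ⟨hb1, hb2, hb3⟩ := hb
    have hb0 : 1 ≤ b.length := by
      rcases b with _ | ⟨a, l⟩
      · exact absurd rfl hb2
      · simp
    by_cases h1 : b.length = 1
    · have hz : (Finsupp.single b 1 - Finsupp.single [L] 1 : List V →₀ ℤ) ∈ Ch K.s 1 :=
        Submodule.sub_mem _ (MA_single hb1 h1) (MA_single hL rfl)
      have hbz : bd (Finsupp.single b 1 - Finsupp.single [L] 1 : List V →₀ ℤ) = 0 := by
        match b, h1 with
        | [x], _ =>
          rw [map_sub, MA_bd1, MA_bd1]
          simp [bdL]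
      obtain ⟨y, hy, hy'⟩ := hK 1 (by omega) _ hz hbz
      refine ⟨y, by rw [h1]; exact hy, ?_⟩
      rw [DC_ub_one b h1, map_zero, add_zero, if_pos h1, hy']
    · have hmem : f (ub (Finsupp.single b 1)) ∈ Ch K.s b.length := by
        refine DA_mem f _ _ fun b' hb' => ?_
        obtain ⟨k1, k2, k3, k4⟩ := DC_supp K hMA b b' hb1 hb2 hb'
        have := (hf b' ⟨k1, k2, by omega⟩ (by omega)).1
        rw [k3]
        exact this
      have hz : (Finsupp.single b 1 - f (ub (Finsupp.single b 1)) : List V →₀ ℤ) ∈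
          Ch K.s b.length := Submodule.sub_mem _ (MA_single hb1 rfl) hmem
      have hsum : (bd ∘ₗ f) (ub (Finsupp.single b 1)) = ub (Finsupp.single b 1) := by
        by_cases h2 : b.length = 2
        · match b, h2 with
          | [x, y], _ =>
            have e1 : ub (Finsupp.single [x, y] 1) =
                Finsupp.single [y] 1 - Finsupp.single [x] 1 := by
              rw [DC_ub1]
              simp [ubL, bdL, MA_consC]
            have ex : [x] ∈ K.s := K.mono _ _ (by simp) hb1
            have ey : [y] ∈ K.s := K.mono _ _ (by simp) hb1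
            have fx := (hf [x] ⟨ex, by simp, by simpa using hi⟩ (by simp)).2
            have fy := (hf [y] ⟨ey, by simp, by simpa using hi⟩ (by simp)).2
            rw [DC_ub_one [x] rfl, map_zero, add_zero, if_pos (List.length_singleton)] at fx
            rw [DC_ub_one [y] rfl, map_zero, add_zero, if_pos (List.length_singleton)] at fy
            rw [e1, LinearMap.comp_apply, map_sub, map_sub, fx, fy]
            abel
        · have h3 : (bd ∘ₗ f) (ub (Finsupp.single b 1)) =
              ((LinearMap.id : (List V →₀ ℤ) →ₗ[ℤ] (List V →₀ ℤ)) - f ∘ₗ ub) (ub (Finsupp.single b 1)) := by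
            refine DA_congr _ _ _ fun b' hb' => ?_
            obtain ⟨k1, k2, k3, k4⟩ := DC_supp K hMA b b' hb1 hb2 hb'
            have := (hf b' ⟨k1, k2, by omega⟩ (by omega)).2
            rw [if_neg (by omega), sub_zero] at this
            rw [LinearMap.comp_apply, LinearMap.sub_apply, LinearMap.id_apply,
              LinearMap.comp_apply, eq_sub_iff_add_eq]
            exact this
          have h4 : ub (ub (Finsupp.single b 1)) = bd (bd (Finsupp.single b 1)) := by
            rw [← DC_ub2 b (by omega)]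
            refine DA_congr _ _ _ fun b' hb' => ?_
            obtain ⟨k1, k2, k3, k4⟩ := DC_supp K hMA b b' hb1 hb2 hb'
            exact DC_ub2 b' (by omega)
          rw [h3, LinearMap.sub_apply, LinearMap.id_apply, LinearMap.comp_apply, h4, m1, map_zero,
            sub_zero]
      have hbz : bd (Finsupp.single b 1 - f (ub (Finsupp.single b 1)) : List V →₀ ℤ) = 0 := by
        rw [LinearMap.comp_apply] at hsum
        rw [map_sub, hsum, DC_ub2 b (by omega), sub_self]
      obtain ⟨y, hy, hy'⟩ := hK b.length (by omega) _ hz hbz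
      exact ⟨y, hy, by rw [hy', if_neg h1, sub_zero, sub_add_cancel]⟩)
  set h : (List V →₀ ℤ) →ₗ[ℤ] (List V →₀ ℤ) :=
    Finsupp.lift (List V →₀ ℤ) ℤ (List V) fun l => if l ∈ S then f (Finsupp.single l 1) else 0
    with hh
  have hv : ∀ l, h (Finsupp.single l 1) = if l ∈ S then f (Finsupp.single l 1) else 0 := by
    intro l
    rw [hh, Finsupp.lift_apply, Finsupp.sum_single_index (by rw [zero_smul]), one_smul]
  have hne : ∀ (l : List V) (p : ℕ), l.length = p + 1 → l ≠ [] := by
    rintro _ p h1 rfl
    simp at h1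
  refine ⟨h, ?_, ?_, ?_, ?_⟩
  · intro p hp c hc
    rw [MA_mem] at hc
    refine DA_mem h c _ fun l hl => ?_
    obtain ⟨k1, k2⟩ := hc l (Finsupp.mem_support_iff.2 hl)
    have hlS : l ∈ S := ⟨k1, hne l p k2, by omega⟩
    rw [hv, if_pos hlS]
    have := (hf l hlS).1
    rw [k2] at this
    exact this
  · intro c hc
    have : h c = (0 : (List V →₀ ℤ) →ₗ[ℤ] (List V →₀ ℤ)) c := by
      refine DA_congr _ _ _ fun l hl => ?_
      have := hc l (Finsupp.mem_support_iff.2 hl)
      rw [hv, if_neg (fun h' => by have := h'.2.2; omega), LinearMap.zero_apply]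
    rw [this, LinearMap.zero_apply]
  · intro x hx
    have hxS : [x] ∈ S := ⟨hx, by simp, by simpa using hi⟩
    have := (hf [x] hxS).2
    rw [DC_ub_one [x] rfl, map_zero, add_zero, if_pos (List.length_singleton)] at this
    rw [hv, if_pos hxS, this]
  · intro p hp hpi c hc
    rw [MA_mem] at hc
    have h1 : (bd ∘ₗ h + h ∘ₗ ub) c = (LinearMap.id : (List V →₀ ℤ) →ₗ[ℤ] (List V →₀ ℤ)) c := by
      refine DA_congr _ _ _ fun l hl => ?_
      obtain ⟨k1, k2⟩ := hc l (Finsupp.mem_support_iff.2 hl)
      have hlS : l ∈ S := ⟨k1, hne l p k2, by omega⟩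
      have h2 : h (ub (Finsupp.single l 1)) = f (ub (Finsupp.single l 1)) := by
        refine DA_congr _ _ _ fun l' hl' => ?_
        rw [hv, if_pos (hd l hlS l' hl').1]
      have h3 := (hf l hlS).2
      rw [if_neg (by omega), sub_zero] at h3
      rw [LinearMap.add_apply, LinearMap.comp_apply, LinearMap.comp_apply, h2, hv, if_pos hlS, h3,
        LinearMap.id_apply]
    rw [LinearMap.add_apply, LinearMap.comp_apply, LinearMap.comp_apply, LinearMap.id_apply] at h1
    exact h1

end Pool.Agent.SLZ
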