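import Pool.Agent.SLZ.StD

/-!
# SLZ, DD: the diagonal in the tensor product
-/

set_option autoImplicit false
set_option linter.unusedVariables false

noncomputable section

namespace Pool.Agent.SLZ

theorem DD_lin {B N : Type} [AddCommGroup N] (M : Submodule ℤ N) (f : (B →₀ ℤ) →ₗ[ℤ] N)
    (c : B →₀ ℤ) (h : ∀ b ∈ c.support, f (Finsupp.single b 1) ∈ M) : f c ∈ M := by
  have h1 : c = ∑ l ∈ c.support, c l • Finsupp.single l (1 : ℤ) := by
    conv_lhs => rw [← Finsupp.sum_single c]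
    unfold Finsupp.sum
    refine Finset.sum_congr rfl fun l _ => ?_
    rw [Finsupp.smul_single, smul_eq_mul, mul_one]
  rw [h1, map_sum]
  refine Submodule.sum_mem _ fun l hl => ?_
  rw [map_smul]
  exact Submodule.smul_mem _ _ (h l hl)

/-- the product of chains as a bilinear map -/
def DD_T (V : Type) : (List V →₀ ℤ) →ₗ[ℤ] (List V →₀ ℤ) →ₗ[ℤ] (List V × List V →₀ ℤ) :=
  Finsupp.lift ((List V →₀ ℤ) →ₗ[ℤ] (List V × List V →₀ ℤ)) ℤ (List V)
    fun l => Finsupp.lmapDomain ℤ ℤ fun l' => (l, l')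

theorem DD_tz {V : Type} (a b : List V →₀ ℤ) : tz a b = DD_T V a b := by
  unfold tz DD_T
  rw [Finsupp.lift_apply]
  unfold Finsupp.sum
  rw [LinearMap.sum_apply]
  refine Finset.sum_congr rfl fun l _ => ?_
  rw [LinearMap.smul_apply, Finsupp.lmapDomain_apply, Finsupp.mapDomain]
  unfold Finsupp.sum
  rw [Finset.smul_sum]
  refine Finset.sum_congr rfl fun l' _ => ?_
  rw [Finsupp.smul_single, smul_eq_mul]

theorem DD_Tss {V : Type} (l l' : List V) :
    DD_T V (Finsupp.single l 1) (Finsupp.single l' 1) = Finsupp.single (l, l') 1 := by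
  unfold DD_T
  rw [Finsupp.lift_apply, Finsupp.sum_single_index (by rw [zero_smul]), one_smul,
    Finsupp.lmapDomain_apply, Finsupp.mapDomain_single]

theorem DD_ub1 {V : Type} (l : List V) : ub (Finsupp.single l 1) = ubL l := by
  unfold ub
  rw [Finsupp.lift_apply, Finsupp.sum_single_index (by rw [zero_smul]), one_smul]

theorem DD_bd1 {V : Type} (l : List V) : bd (Finsupp.single l 1) = bdL l := by
  unfold bd
  rw [Finsupp.lift_apply, Finsupp.sum_single_index (by rw [zero_smul]), one_smul]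

theorem DD_aw1 {V : Type} (l : List V) : aw (Finsupp.single l 1) = awL l := by
  unfold aw
  rw [Finsupp.lift_apply, Finsupp.sum_single_index (by rw [zero_smul]), one_smul]

theorem DD_mem_Ch {V : Type} {s : Set (List V)} {j : ℕ} {c : List V →₀ ℤ} :
    c ∈ Ch s j ↔ ∀ l ∈ c.support, l ∈ s ∧ l.length = j := by
  rw [Ch, Finsupp.mem_supported]
  exact Iff.rfl

theorem DD_single {V : Type} {s : Set (List V)} {j : ℕ} {l : List V} (h : l ∈ s)
    (hj : l.length = j) : Finsupp.single l (1 : ℤ) ∈ Ch s j := by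
  rw [DD_mem_Ch]
  intro l' hl'
  have h1 := Finsupp.support_single_subset hl'
  rw [Finset.mem_singleton] at h1
  rw [h1]
  exact ⟨h, hj⟩

section

variable {V : Type} (hDB : St_DB)

include hDB in
theorem DD_ubbd {s : Set (List V)} {k : ℕ} {c : List V →₀ ℤ} (hc : c ∈ Ch s (k + 2)) :
    ub c = bd c := by
  have h := DD_lin (⊥ : Submodule ℤ (List V →₀ ℤ)) (ub - bd) c (by
    intro l hl
    rw [Submodule.mem_bot, LinearMap.sub_apply, DD_ub1, DD_bd1, (hDB V).1 l (by
      rw [((DD_mem_Ch.1 hc) l hl).2]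
      omega), sub_self])
  rw [Submodule.mem_bot, LinearMap.sub_apply] at h
  exact sub_eq_zero.1 h

/-- the contraction of the second factor -/
def DD_H (h : (List V →₀ ℤ) →ₗ[ℤ] (List V →₀ ℤ)) :
    (List V × List V →₀ ℤ) →ₗ[ℤ] (List V × List V →₀ ℤ) :=
  Finsupp.lift (List V × List V →₀ ℤ) ℤ (List V × List V) fun p =>
    (-1 : ℤ) ^ (p.1.length - 1) • DD_T V (Finsupp.single p.1 1) (h (Finsupp.single p.2 1))

theorem DD_H1 (h : (List V →₀ ℤ) →ₗ[ℤ] (List V →₀ ℤ)) (a b : List V) :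
    DD_H h (Finsupp.single (a, b) 1) =
      (-1 : ℤ) ^ (a.length - 1) • DD_T V (Finsupp.single a 1) (h (Finsupp.single b 1)) := by
  unfold DD_H
  rw [Finsupp.lift_apply, Finsupp.sum_single_index (by rw [zero_smul]), one_smul]

theorem DD_HT (h : (List V →₀ ℤ) →ₗ[ℤ] (List V →₀ ℤ)) (k : ℕ) (c d : List V →₀ ℤ)
    (hc : ∀ l ∈ c.support, l.length = k + 1) :
    DD_H h (DD_T V c d) = (-1 : ℤ) ^ k • DD_T V c (h d) := by
  have h1 := DD_lin (⊥ : Submodule ℤ (List V × List V →₀ ℤ))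
    (DD_H h ∘ₗ (DD_T V).flip d - (-1 : ℤ) ^ k • (DD_T V).flip (h d)) c (by
      intro l hl
      rw [Submodule.mem_bot, LinearMap.sub_apply, LinearMap.comp_apply, LinearMap.smul_apply,
        LinearMap.flip_apply, LinearMap.flip_apply]
      have h2 := DD_lin (⊥ : Submodule ℤ (List V × List V →₀ ℤ))
        (DD_H h ∘ₗ DD_T V (Finsupp.single l 1) -
          (-1 : ℤ) ^ k • (DD_T V (Finsupp.single l 1) ∘ₗ h)) d (by
          intro l' _
          rw [Submodule.mem_bot, LinearMap.sub_apply, LinearMap.comp_apply, LinearMap.smul_apply,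
            LinearMap.comp_apply, DD_Tss, DD_H1, hc l hl, Nat.add_sub_cancel, sub_self])
      rw [Submodule.mem_bot, LinearMap.sub_apply, LinearMap.comp_apply, LinearMap.smul_apply,
        LinearMap.comp_apply] at h2
      exact h2)
  rw [Submodule.mem_bot, LinearMap.sub_apply, LinearMap.comp_apply, LinearMap.smul_apply,
    LinearMap.flip_apply, LinearMap.flip_apply] at h1
  exact sub_eq_zero.1 h1

theorem DD_sl {a : List V} : ∀ l ∈ (Finsupp.single a (1 : ℤ)).support, l.length = a.length := by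
  intro l hl
  have h1 := Finsupp.support_single_subset hl
  rw [Finset.mem_singleton] at h1
  rw [h1]

include hDB in
theorem DD_TH (h : (List V →₀ ℤ) →ₗ[ℤ] (List V →₀ ℤ)) (a b : List V) (ha : a ≠ []) :
    tb (DD_H h (Finsupp.single (a, b) 1)) + DD_H h (tb (Finsupp.single (a, b) 1)) =
      DD_T V (Finsupp.single a 1) (ub (h (Finsupp.single b 1)) + h (ub (Finsupp.single b 1))) := by
  obtain ⟨p, hp⟩ : ∃ p, a.length = p + 1 := by
    cases a with
    | nil => exact absurd rfl ha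
    | cons x l => exact ⟨l.length, rfl⟩
  have hs : ((-1 : ℤ) ^ p) * ((-1 : ℤ) ^ p) = 1 := by
    rw [← mul_pow]
    norm_num
  have hsl : ∀ l ∈ (Finsupp.single a (1 : ℤ)).support, l.length = p + 1 := by
    intro l hl
    rw [DD_sl l hl, hp]
  have htb : ∀ d : List V →₀ ℤ, tb (DD_T V (Finsupp.single a 1) d) =
      DD_T V (ub (Finsupp.single a 1)) d + (-1 : ℤ) ^ p • DD_T V (Finsupp.single a 1) (ub d) := by
    intro d
    have h1 := (hDB V).2.2.1 (Finsupp.single a 1) d p hsl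
    rwa [DD_tz, DD_tz, DD_tz] at h1
  rw [← DD_Tss a b, DD_HT h p _ _ hsl, map_smul, htb, htb, map_add, map_smul, DD_HT h p _ _ hsl]
  have h3 : (-1 : ℤ) ^ p • DD_T V (ub (Finsupp.single a 1)) (h (Finsupp.single b 1)) +
      DD_H h (DD_T V (ub (Finsupp.single a 1)) (Finsupp.single b 1)) = 0 := by
    rcases p with _ | p
    · obtain ⟨x, rfl⟩ := List.length_eq_one_iff.1 hp
      have h4 : ub (Finsupp.single [x] (1 : ℤ)) = 0 := by
        rw [DD_ub1]
        rfl
      rw [h4]
      simp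
    · have h4 : ∀ l ∈ (ub (Finsupp.single a (1 : ℤ))).support, l.length = p + 1 := by
        have h5 := ((hDB V).2.2.2.2.2.2.2.1 ⟨Set.univ, fun _ _ _ _ => trivial⟩ p).2.1
          (Finsupp.single a 1) (DD_single trivial hp)
        exact fun l hl => ((DD_mem_Ch.1 h5) l hl).2
      rw [DD_HT h p _ _ h4, pow_succ]
      rw [mul_neg, mul_one, neg_smul, neg_add_cancel]
  rw [smul_add, smul_smul, smul_smul, hs, one_smul, one_smul, map_add]
  calc _ = ((-1 : ℤ) ^ p • DD_T V (ub (Finsupp.single a 1)) (h (Finsupp.single b 1)) +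
      DD_H h (DD_T V (ub (Finsupp.single a 1)) (Finsupp.single b 1))) +
      (DD_T V (Finsupp.single a 1) (ub (h (Finsupp.single b 1))) +
        DD_T V (Finsupp.single a 1) (h (ub (Finsupp.single b 1)))) := by abel
    _ = _ := by rw [h3, zero_add]

end


theorem DD_awcons {V : Type} (x : V) (l u : List V) :
    (awL (x :: l)).mapDomain (fun p : List V × List V => (u ++ p.1, p.2)) =
      Finsupp.single (u ++ [x], x :: l) 1 +
        (awL l).mapDomain (fun p : List V × List V => ((u ++ [x]) ++ p.1, p.2)) := by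
  have h1 : awL (x :: l) = Finsupp.single ([x], x :: l) 1 +
      (awL l).mapDomain fun p => (x :: p.1, p.2) := rfl
  rw [h1, Finsupp.mapDomain_add, Finsupp.mapDomain_single, ← Finsupp.mapDomain_comp]
  congr 2
  funext p
  simp

section

variable {V : Type} (hDB : St_DB) (K : Cx V) (L : V) (i : ℕ) (hi : 1 ≤ i)
  (h : (List V →₀ ℤ) →ₗ[ℤ] (List V →₀ ℤ))
  (h1 : ∀ p, p + 1 ≤ i → ∀ c ∈ Ch K.s (p + 1), h c ∈ Ch K.s (p + 2))
  (h2 : ∀ c : List V →₀ ℤ, (∀ l ∈ c.support, i < l.length) → h c = 0)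
  (h3 : ∀ x, [x] ∈ K.s → bd (h (Finsupp.single [x] 1)) =
    Finsupp.single [x] 1 - Finsupp.single [L] 1)
  (h4 : ∀ p, 1 ≤ p → p + 1 ≤ i → ∀ c ∈ Ch K.s (p + 1), bd (h c) + h (ub c) = c)

/-- the defect operator -/
def DD_G (h : (List V →₀ ℤ) →ₗ[ℤ] (List V →₀ ℤ)) :
    (List V × List V →₀ ℤ) →ₗ[ℤ] (List V × List V →₀ ℤ) :=
  tb ∘ₗ DD_H h + DD_H h ∘ₗ tb - LinearMap.id

theorem DD_Gdef (c : List V × List V →₀ ℤ) :
    DD_G h c = tb (DD_H h c) + DD_H h (tb c) - c := rfl

include hDB hi h1 h3 in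
theorem DD_B1 (x : V) (hx : [x] ∈ K.s) :
    ub (h (Finsupp.single [x] 1)) = Finsupp.single [x] 1 - Finsupp.single [L] 1 := by
  rw [DD_ubbd hDB (s := K.s) (k := 0) (h1 0 hi _ (DD_single hx rfl)), h3 x hx]

include hDB hi h1 h3 in
theorem DD_G1 (a : List V) (ha : a ≠ []) (x : V) (hx : [x] ∈ K.s) :
    DD_G h (Finsupp.single (a, [x]) 1) =
      - DD_T V (Finsupp.single a 1) (Finsupp.single [L] 1) := by
  have e : ub (Finsupp.single [x] (1 : ℤ)) = 0 := by
    rw [DD_ub1]
    rfl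
  rw [DD_Gdef, DD_TH hDB h a [x] ha, DD_B1 hDB K L i hi h h1 h3 x hx, e, map_zero, add_zero,
    map_sub, DD_Tss]
  abel

include hDB h1 h4 in
theorem DD_G2 (a : List V) (ha : a ≠ []) (b : List V) (hb : b ∈ K.s) (q : ℕ) (hq : 1 ≤ q)
    (hqi : q + 1 ≤ i) (hbl : b.length = q + 1) :
    DD_G h (Finsupp.single (a, b) 1) = 0 := by
  rw [DD_Gdef, DD_TH hDB h a b ha, DD_ubbd hDB (s := K.s) (k := q)
    (h1 q hqi _ (DD_single hb hbl)), h4 q hq hqi _ (DD_single hb hbl), DD_Tss, sub_self]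

include hDB h2 in
theorem DD_G3 (a : List V) (ha : a ≠ []) (b : List V) (hbl : b.length = i + 1) :
    DD_G h (Finsupp.single (a, b) 1) =
      DD_T V (Finsupp.single a 1) (h (ub (Finsupp.single b 1))) -
        DD_T V (Finsupp.single a 1) (Finsupp.single b 1) := by
  have e : h (Finsupp.single b 1) = 0 := by
    apply h2
    intro l hl
    rw [DD_sl l hl, hbl]
    omega
  rw [DD_Gdef, DD_TH hDB h a b ha, e, map_zero, zero_add, DD_Tss]

include hDB hi h1 h3 h4 in
theorem DD_main1 (l : List V) : ∀ u : List V, l ≠ [] → u ++ l ∈ K.s → l.length ≤ i →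
    DD_G h ((awL l).mapDomain fun p : List V × List V => (u ++ p.1, p.2)) =
      - DD_T V (Finsupp.single (u ++ l) 1) (Finsupp.single [L] 1) := by
  induction l with
  | nil =>
    intro u hl
    exact absurd rfl hl
  | cons x l ih =>
    intro u _ hK hlen
    have hu : u ++ [x] ≠ [] := by simp
    rw [DD_awcons, map_add]
    have hbK : x :: l ∈ K.s := K.mono _ _ (List.subset_append_right u (x :: l)) hK
    cases l with
    | nil =>
      have e0 : awL ([] : List V) = 0 := rfl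
      rw [e0, Finsupp.mapDomain_zero, map_zero, add_zero]
      exact DD_G1 hDB K L i hi h h1 h3 _ hu x hbK
    | cons y l =>
      rw [DD_G2 hDB K i h h1 h4 _ hu (x :: y :: l) hbK (l.length + 1) (by omega)
        (by simpa using hlen) (by simp), zero_add, ih (u ++ [x]) (by simp) (by simpa using hK)
        (by simp at hlen ⊢; omega)]
      congr 3
      simp

include hDB hi h1 h3 h4 in
theorem DD_phi (σ : List V) (hσ : σ ∈ K.s) (hl : σ.length = i + 1) :
    ub (Finsupp.single σ 1 - h (ub (Finsupp.single σ 1))) = 0 := by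
  have hK := (hDB V).2.2.2.2.2.2.2.1 K
  obtain ⟨j, rfl⟩ : ∃ j, i = j + 1 := ⟨i - 1, by omega⟩
  have hc : ub (Finsupp.single σ 1) ∈ Ch K.s (j + 1) := (hK j).2.1 _ (DD_single hσ hl)
  rw [map_sub, sub_eq_zero]
  rcases j with _ | j
  · obtain ⟨x, y, rfl⟩ := List.length_eq_two.1 hl
    have e : ub (Finsupp.single [x, y] (1 : ℤ)) =
        Finsupp.single [y] 1 - Finsupp.single [x] 1 := by
      rw [DD_ub1]
      change Finsupp.single [y] 1 - consC x (Finsupp.single [] 1 - consC y 0) = _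
      rw [map_zero, sub_zero]
      unfold consC
      rw [Finsupp.lmapDomain_apply, Finsupp.mapDomain_single]
    have hx : [x] ∈ K.s := K.mono _ _ (by simp) hσ
    have hy : [y] ∈ K.s := K.mono _ _ (by simp) hσ
    rw [e, map_sub, map_sub, DD_B1 hDB K L _ hi h h1 h3 x hx, DD_B1 hDB K L _ hi h h1 h3 y hy]
    abel
  · have e1 := h4 (j + 1) (by omega) le_rfl _ hc
    rw [(hDB V).2.1, map_zero, add_zero] at e1
    rw [DD_ubbd hDB (s := K.s) (k := j + 1) (h1 (j + 1) le_rfl _ hc), e1]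

include hDB hi h1 h2 h3 h4 in
theorem DD_main2 (σ : List V) (hσ : σ ∈ K.s) (hl : σ.length = i + 1) :
    ∃ w ∈ TCh K (i + 1), tb w = aw (Finsupp.single σ 1) -
      DD_T V (Finsupp.single σ 1) (Finsupp.single [L] 1) -
      DD_T V (Finsupp.single [L] 1) (Finsupp.single σ 1 - h (ub (Finsupp.single σ 1))) -
      DD_H h (aw (ub (Finsupp.single σ 1))) := by
  have hK := (hDB V).2.2.2.2.2.2.2.1 K
  have hT := (hDB V).2.2.2.2.2.2.2.2 K
  cases σ with
  | nil => simp at hl
  | cons x l =>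
  have hl' : l.length = i := by simpa using hl
  have hl0 : l ≠ [] := by
    rintro rfl
    simp at hl'
    omega
  have hx : [x] ∈ K.s := K.mono _ _ (by simp) hσ
  obtain ⟨φ, hφ⟩ : ∃ φ, φ = Finsupp.single (x :: l) 1 - h (ub (Finsupp.single (x :: l) 1)) :=
    ⟨_, rfl⟩
  have hφ0 : ub φ = 0 := by
    rw [hφ]
    exact DD_phi hDB K L i hi h h1 h3 h4 _ hσ hl
  have hφK : φ ∈ Ch K.s (i + 1) := by
    rw [hφ]
    refine Submodule.sub_mem _ (DD_single hσ hl) ?_
    obtain ⟨j, rfl⟩ : ∃ j, i = j + 1 := ⟨i - 1, by omega⟩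
    exact h1 j le_rfl _ ((hK j).2.1 _ (DD_single hσ hl))
  have hhx : h (Finsupp.single [x] 1) ∈ Ch K.s (1 + 1) := h1 0 hi _ (DD_single hx rfl)
  refine ⟨DD_H h (awL (x :: l)) + DD_T V (h (Finsupp.single [x] 1)) φ, ?_, ?_⟩
  · refine Submodule.add_mem _ ?_ ?_
    · refine DD_lin (TCh K (i + 1)) (DD_H h) _ ?_
      rintro ⟨a, b⟩ hab
      have h5 : a ∈ K.s ∧ b ∈ K.s ∧ a ≠ [] ∧ b ≠ [] ∧ a.length + b.length = i + 2 := by
        have h6 := (hK i).1 _ hσ hl
        unfold TCh at h6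
        rw [Finsupp.mem_supported] at h6
        exact h6 hab
      obtain ⟨ha, hb, ha0, hb0, hab⟩ := h5
      have ha1 : 1 ≤ a.length := List.length_pos_iff.2 ha0
      have hb1 : 1 ≤ b.length := List.length_pos_iff.2 hb0
      rw [DD_H1]
      refine Submodule.smul_mem _ _ ?_
      by_cases hbi : b.length ≤ i
      · have h7 := h1 (b.length - 1) (by omega) _ (DD_single hb (by omega))
        have h8 := hT (a.length - 1) (b.length - 1 + 1) _ _ (DD_single ha (by omega)) h7
        rw [DD_tz] at h8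
        have e : a.length - 1 + (b.length - 1 + 1) = i + 1 := by omega
        rwa [e] at h8
      · have e : h (Finsupp.single b 1) = 0 := by
          apply h2
          intro l hl
          rw [DD_sl l hl]
          omega
        rw [e, map_zero]
        exact Submodule.zero_mem _
    · have h8 := hT 1 i _ _ hhx hφK
      rw [DD_tz, add_comm 1 i] at h8
      exact h8
  · have e1 : tb (DD_T V (h (Finsupp.single [x] 1)) φ) =
        DD_T V (Finsupp.single [x] 1) φ - DD_T V (Finsupp.single [L] 1) φ := by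
      have h9 := (hDB V).2.2.1 (h (Finsupp.single [x] 1)) φ 1
        (fun l hl => ((DD_mem_Ch.1 hhx) l hl).2)
      rw [DD_tz, DD_tz, DD_tz, hφ0, map_zero, smul_zero, add_zero,
        DD_B1 hDB K L i hi h h1 h3 x hx, map_sub, LinearMap.sub_apply] at h9
      exact h9
    have e2 : DD_G h (awL (x :: l)) =
        DD_T V (Finsupp.single [x] 1) (h (ub (Finsupp.single (x :: l) 1))) -
        DD_T V (Finsupp.single [x] 1) (Finsupp.single (x :: l) 1) -
        DD_T V (Finsupp.single (x :: l) 1) (Finsupp.single [L] 1) := by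
      have h10 : awL (x :: l) = Finsupp.single ([x], x :: l) 1 +
          (awL l).mapDomain fun p : List V × List V => ([x] ++ p.1, p.2) := rfl
      rw [h10, map_add, DD_G3 hDB i h h2 [x] (by simp) (x :: l) hl,
        DD_main1 hDB K L i hi h h1 h3 h4 l [x] hl0 hσ hl'.le]
      simp only [List.cons_append, List.nil_append]
      abel
    have e3 : tb (awL (x :: l)) = aw (ub (Finsupp.single (x :: l) 1)) := by
      rw [(hDB V).2.2.2.2.2.2.1 _ (by simp), DD_ub1]
    have e4 := DD_Gdef h (awL (x :: l))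
    rw [e3, e2] at e4
    rw [map_add, e1, DD_aw1, ← hφ]
    have e5 : tb (DD_H h (awL (x :: l))) =
        DD_T V (Finsupp.single [x] 1) (h (ub (Finsupp.single (x :: l) 1))) -
        DD_T V (Finsupp.single [x] 1) (Finsupp.single (x :: l) 1) -
        DD_T V (Finsupp.single (x :: l) 1) (Finsupp.single [L] 1) + awL (x :: l) -
        DD_H h (aw (ub (Finsupp.single (x :: l) 1))) := by
      rw [e4]
      abel
    have e6 : DD_T V (Finsupp.single [x] 1) φ =
        DD_T V (Finsupp.single [x] 1) (Finsupp.single (x :: l) 1) -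
        DD_T V (Finsupp.single [x] 1) (h (ub (Finsupp.single (x :: l) 1))) := by
      rw [hφ, map_sub]
    rw [e5, e6]
    abel

end

theorem thm_DD (hDB : St_DB) (hDC : St_DC) : St_DD := by
  intro V K L i hi hL hC z hz hbd
  obtain ⟨h, h1, h2, h3, h4⟩ := hDC V K L i hi hL hC
  have key := DD_lin ((TCh K (i + 1)).map tb)
    (aw - (DD_T V).flip (Finsupp.single [L] 1) -
      DD_T V (Finsupp.single [L] 1) ∘ₗ (LinearMap.id - h ∘ₗ ub) - DD_H h ∘ₗ aw ∘ₗ ub) z (by
    intro σ hσ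
    obtain ⟨h5, h6⟩ := DD_mem_Ch.1 hz σ hσ
    obtain ⟨w, hw, hw2⟩ := DD_main2 hDB K L i hi h h1 h2 h3 h4 σ h5 h6
    exact ⟨w, hw, hw2⟩)
  obtain ⟨w, hw, hw2⟩ := key
  refine ⟨w, hw, ?_⟩
  have hub : ub z = 0 := by
    obtain ⟨j, rfl⟩ : ∃ j, i = j + 1 := ⟨i - 1, by omega⟩
    rw [DD_ubbd hDB hz, hbd]
  rw [hw2, DD_tz, DD_tz]
  simp only [LinearMap.sub_apply, LinearMap.comp_apply, LinearMap.flip_apply,
    LinearMap.id_apply, hub, map_zero, sub_zero]

end Pool.Agent.SLZ
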