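import Pool.Agent.SLZ.StD
import Pool.Agent.SLZ.MA

/-!
# SLZ, DL: the delta lemma
-/

set_option autoImplicit false
set_option linter.unusedVariables false

noncomputable section

namespace Pool.Agent.SLZ

section

variable {V V' : Type}

theorem dl_ext {α M : Type} [AddCommGroup M] (s : Set α) (f g : (α →₀ ℤ) →ₗ[ℤ] M)
    (h : ∀ a ∈ s, f (Finsupp.single a 1) = g (Finsupp.single a 1)) :
    ∀ z ∈ Finsupp.supported ℤ ℤ s, f z = g z := by
  intro z hz
  rw [Finsupp.supported_eq_span_single] at hz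
  refine LinearMap.eqOn_span (s := (fun i => Finsupp.single i (1 : ℤ)) '' s) ?_ hz
  rintro _ ⟨a, ha, rfl⟩
  exact h a ha

theorem dl_mem {α M : Type} [AddCommGroup M] (s : Set α) (f : (α →₀ ℤ) →ₗ[ℤ] M)
    (N : Submodule ℤ M) (h : ∀ a ∈ s, f (Finsupp.single a 1) ∈ N) :
    ∀ z ∈ Finsupp.supported ℤ ℤ s, f z ∈ N := by
  intro z hz
  rw [Finsupp.supported_eq_span_single] at hz
  have h1 : Submodule.span ℤ ((fun i => Finsupp.single i (1 : ℤ)) '' s) ≤ N.comap f := by
    rw [Submodule.span_le]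
    rintro _ ⟨a, ha, rfl⟩
    exact h a ha
  exact h1 hz

theorem dl_bdL_supp : ∀ (l l' : List V), bdL l l' ≠ 0 → l' ⊆ l ∧ l'.length + 1 = l.length
  | [], l', h => absurd rfl h
  | v :: l, l', h => by
    by_cases h1 : l = l'
    · subst h1
      exact ⟨List.subset_cons_self _ _, rfl⟩
    · have h2 : consC v (bdL l) l' ≠ 0 := by
        intro h3
        apply h
        show (Finsupp.single l (1 : ℤ) - consC v (bdL l)) l' = 0
        rw [Finsupp.sub_apply, h3, sub_zero, Finsupp.single_eq_of_ne (Ne.symm h1)]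
      have h4 : l' ∈ (Finsupp.mapDomain (List.cons v) (bdL l)).support :=
        Finsupp.mem_support_iff.2 h2
      classical
      have h5 := Finsupp.mapDomain_support h4
      rw [Finset.mem_image] at h5
      obtain ⟨t, ht, rfl⟩ := h5
      obtain ⟨h6, h7⟩ := dl_bdL_supp l t (Finsupp.mem_support_iff.1 ht)
      refine ⟨List.cons_subset_cons v h6, ?_⟩
      rw [List.length_cons, List.length_cons, h7]

theorem dl_ubL_supp : ∀ (l l' : List V), ubL l l' ≠ 0 →
    l' ≠ [] ∧ l' ⊆ l ∧ l'.length + 1 = l.length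
  | [], l', h => absurd rfl h
  | [v], l', h => absurd rfl h
  | v :: w :: l, l', h => by
    obtain ⟨h1, h2⟩ := dl_bdL_supp (v :: w :: l) l' h
    refine ⟨?_, h1, h2⟩
    rintro rfl
    simp at h2

theorem dl_ub_single (l : List V) : ub (Finsupp.single l 1) = ubL l := by
  unfold ub
  rw [Finsupp.lift_apply, Finsupp.sum_single_index (by rw [zero_smul]), one_smul]

theorem dl_bd_single (l : List V) : bd (Finsupp.single l 1) = bdL l := by
  unfold bd
  rw [Finsupp.lift_apply, Finsupp.sum_single_index (by rw [zero_smul]), one_smul]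

theorem dl_tb_single (p : List V × List V) : tb (Finsupp.single p 1) = tbL p := by
  unfold tb
  rw [Finsupp.lift_apply, Finsupp.sum_single_index (by rw [zero_smul]), one_smul]

theorem dl_aw_single (l : List V) : aw (Finsupp.single l 1) = awL l := by
  unfold aw
  rw [Finsupp.lift_apply, Finsupp.sum_single_index (by rw [zero_smul]), one_smul]

theorem dl_tz_left (a : List V →₀ ℤ) (l' : List V) :
    tz a (Finsupp.single l' 1) = a.mapDomain fun l => (l, l') := by
  unfold tz Finsupp.mapDomain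
  refine Finsupp.sum_congr fun l _ => ?_
  rw [Finsupp.sum_single_index (by rw [mul_zero, Finsupp.single_zero]), mul_one]

theorem dl_tz_right (l : List V) (b : List V →₀ ℤ) :
    tz (Finsupp.single l 1) b = b.mapDomain fun l' => (l, l') := by
  unfold tz Finsupp.mapDomain
  rw [Finsupp.sum_single_index]
  · refine Finsupp.sum_congr fun l' _ => ?_
    rw [one_mul]
  · refine (Finsupp.sum_congr (g2 := fun _ _ => 0) fun l' _ => ?_).trans ?_
    · rw [zero_mul, Finsupp.single_zero]
    · rw [Finsupp.sum_fun_zero]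

/-- the carriers -/
def dl_G (K' : Cx V') (μ : V → V → V') (l l' : List V) : Cx V' where
  s := {t | t ∈ K'.s ∧ ∀ v ∈ t, ∃ x ∈ l, ∃ y ∈ l', v = μ x y}
  mono t t' h ht := ⟨K'.mono _ _ h ht.1, fun v hv => ht.2 v (h hv)⟩

theorem dl_G_mono (K' : Cx V') (μ : V → V → V') {l l' m m' : List V} (h : l ⊆ m) (h' : l' ⊆ m') :
    (dl_G K' μ l l').s ⊆ (dl_G K' μ m m').s := by
  rintro t ⟨h1, h2⟩
  refine ⟨h1, fun v hv => ?_⟩
  obtain ⟨x, hx, y, hy, he⟩ := h2 v hv
  exact ⟨x, h hx, y, h' hy, he⟩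

theorem dl_G_ex (K : Cx V) (K' : Cx V') (μ : V → V → V')
    (hcone : ∀ l ∈ K.s, ∀ l' ∈ K.s, l ≠ [] → l' ≠ [] → ∃ x ∈ l, ∃ y ∈ l', ∀ t ∈ K'.s,
      (∀ v ∈ t, ∃ x' ∈ l, ∃ y' ∈ l', v = μ x' y') → μ x y :: t ∈ K'.s)
    (hnil : [] ∈ K'.s) (l l' : List V) (hl : l ∈ K.s) (hl' : l' ∈ K.s) (h : l ≠ []) (h' : l' ≠ []) :
    [] ∈ (dl_G K' μ l l').s ∧ ∀ j, Ex (dl_G K' μ l l') j := by
  obtain ⟨x, hx, y, hy, hc⟩ := hcone l hl l' hl' h h'
  refine ⟨⟨hnil, fun v hv => absurd hv (List.not_mem_nil)⟩, ?_⟩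
  refine (thm_MA V').2.2.2.2.2.1 (dl_G K' μ l l') (μ x y) ?_
  rintro t ⟨ht1, ht2⟩
  refine ⟨hc t ht1 ht2, ?_⟩
  intro v hv
  rcases List.mem_cons.1 hv with rfl | hv
  · exact ⟨x, hx, y, hy, rfl⟩
  · exact ht2 v hv

/-- the comparison of two chain maps on the unreduced chains of `K` -/
theorem dl_cmp (hDA : St_DA) (hDB : St_DB) (K : Cx V) (K' : Cx V') (G : List V → Cx V')
    (hG : ∀ l l', l ⊆ l' → (G l).s ⊆ (G l').s) (hG' : ∀ l, (G l).s ⊆ K'.s)
    (hex : ∀ l ∈ K.s, l ≠ [] → [] ∈ (G l).s ∧ ∀ j, Ex (G l) j)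
    (φ ψ : (List V →₀ ℤ) →ₗ[ℤ] (List V' →₀ ℤ))
    (hφ : ∀ l ∈ K.s, l ≠ [] → φ (Finsupp.single l 1) ∈ Ch (G l).s l.length ∧
      bd (φ (Finsupp.single l 1)) =
        if l.length = 1 then Finsupp.single [] 1 else φ (ubL l))
    (hψ : ∀ l ∈ K.s, l ≠ [] → ψ (Finsupp.single l 1) ∈ Ch (G l).s l.length ∧
      bd (ψ (Finsupp.single l 1)) =
        if l.length = 1 then Finsupp.single [] 1 else ψ (ubL l))
    (i : ℕ) (hi : 1 ≤ i) (z : List V →₀ ℤ) (hz : z ∈ Ch K.s (i + 1)) (hbz : bd z = 0) :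
    ∃ y ∈ Ch K'.s (i + 2), bd y = φ z - ψ z := by
  obtain ⟨hB1, hB2, -, -, -, hB6, -, -, -⟩ := hDB V
  have hconv : ∀ χ : (List V →₀ ℤ) →ₗ[ℤ] (List V' →₀ ℤ),
      (∀ l ∈ K.s, l ≠ [] → χ (Finsupp.single l 1) ∈ Ch (G l).s l.length ∧
      bd (χ (Finsupp.single l 1)) =
        if l.length = 1 then Finsupp.single [] 1 else χ (ubL l)) →
      ∀ b ∈ {l : List V | l ∈ K.s ∧ l ≠ []},
        χ (Finsupp.single b 1) ∈ Ch (G b).s ((b.length - 1) + 1) ∧
        bd (χ (Finsupp.single b 1)) =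
          if b.length - 1 = 0 then Finsupp.single [] 1 else χ (ub (Finsupp.single b 1)) := by
    rintro χ hχ b ⟨hb1, hb2⟩
    obtain ⟨h1, h2⟩ := hχ b hb1 hb2
    have hlen : 0 < b.length := List.length_pos_iff.2 hb2
    rw [Nat.sub_add_cancel hlen, dl_ub_single, h2]
    refine ⟨h1, ?_⟩
    by_cases h3 : b.length = 1
    · rw [if_pos h3, if_pos (by omega)]
    · rw [if_neg h3, if_neg (by omega)]
  obtain ⟨H, hH⟩ := (hDA (List V) V' (fun l => l.length - 1) {l | l ∈ K.s ∧ l ≠ []} G ub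
    (by
      rintro b ⟨hb1, hb2⟩ b' hb'
      rw [dl_ub_single] at hb'
      obtain ⟨h1, h2, h3⟩ := dl_ubL_supp b b' hb'
      have hlen : 0 < b'.length := List.length_pos_iff.2 h1
      refine ⟨⟨K.mono _ _ h2 hb1, h1⟩, ?_, hG _ _ h2⟩
      show b.length - 1 = b'.length - 1 + 1
      omega)
    (by
      rintro b ⟨hb1, hb2⟩
      exact hB2 _)
    (by
      rintro b ⟨hb1, hb2⟩ hdeg
      have hlen : 0 < b.length := List.length_pos_iff.2 hb2
      have hdeg' : b.length - 1 = 1 := hdeg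
      exact hB6 b (by omega))
    (by
      rintro b ⟨hb1, hb2⟩
      exact hex b hb1 hb2)).2 φ ψ (hconv φ hφ) (hconv ψ hψ)
  refine ⟨H z, ?_, ?_⟩
  · refine dl_mem _ H (Ch K'.s (i + 2)) ?_ z hz
    rintro l ⟨hl1, hl2⟩
    have hne : l ≠ [] := by
      rintro rfl
      simp at hl2
    have h1 := (hH l ⟨hl1, hne⟩).1
    have h2 : (l.length - 1) + 2 = i + 2 := by omega
    have h3 : H (Finsupp.single l 1) ∈ Ch (G l).s ((l.length - 1) + 2) := h1
    rw [h2] at h3
    refine Finsupp.supported_mono ?_ h3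
    rintro t ⟨ht1, ht2⟩
    exact ⟨hG' l ht1, ht2⟩
  · have h1 : (bd ∘ₗ H + H ∘ₗ ub) z = (φ - ψ) z := by
      refine dl_ext _ _ _ ?_ z hz
      rintro l ⟨hl1, hl2⟩
      have hne : l ≠ [] := by
        rintro rfl
        simp at hl2
      exact (hH l ⟨hl1, hne⟩).2
    have h2 : ub z = bd z := by
      refine dl_ext _ ub bd ?_ z hz
      rintro l ⟨hl1, hl2⟩
      rw [dl_ub_single, dl_bd_single]
      exact hB1 l (by omega)
    rw [LinearMap.add_apply, LinearMap.comp_apply, LinearMap.comp_apply, h2, hbz, map_zero,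
      add_zero] at h1
    rw [h1, LinearMap.sub_apply]

/-- the map induced by a map of vertices -/
theorem dl_vert (hDB : St_DB) (K : Cx V) (K' : Cx V') (G : List V → Cx V') (f : V → V')
    (hf : ∀ l ∈ K.s, l.map f ∈ (G l).s) : ∀ l ∈ K.s, l ≠ [] →
      (Finsupp.lmapDomain ℤ ℤ (List.map f)) (Finsupp.single l 1) ∈ Ch (G l).s l.length ∧
      bd ((Finsupp.lmapDomain ℤ ℤ (List.map f)) (Finsupp.single l 1)) =
        if l.length = 1 then Finsupp.single [] 1 else
          (Finsupp.lmapDomain ℤ ℤ (List.map f)) (ubL l) := by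
  obtain ⟨hB1, -⟩ := hDB V
  intro l hl hne
  constructor
  · rw [Finsupp.lmapDomain_apply, Finsupp.mapDomain_single]
    refine Finsupp.single_mem_supported ℤ 1 ?_
    exact ⟨hf l hl, List.length_map f⟩
  · rw [Finsupp.lmapDomain_apply, Finsupp.lmapDomain_apply, (thm_MA V).2.2.2.1 V' f, dl_bd_single]
    by_cases h1 : l.length = 1
    · rw [if_pos h1]
      obtain ⟨x, rfl⟩ := List.length_eq_one_iff.1 h1
      have h2 : bdL [x] = Finsupp.single ([] : List V) (1 : ℤ) := by
        show Finsupp.single ([] : List V) (1 : ℤ) - consC x 0 = _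
        rw [map_zero, sub_zero]
      rw [h2, Finsupp.mapDomain_single]
      rfl
    · rw [if_neg h1]
      have hlen : 0 < l.length := List.length_pos_iff.2 hne
      rw [hB1 l (by omega)]

end

theorem thm_DL (hDA : St_DA) (hDB : St_DB) (hDD : St_DD) : St_DL := by
  intro V V' K K' μ L i hi hL hconn hcone hnil hmaps z hz hbz
  obtain ⟨hB1, hB2, hB3, hB4, hB5, hB6, hB7, hB8, hB9⟩ := hDB V
  have hLne : [L] ≠ [] := List.cons_ne_nil _ _
  -- the product map
  obtain ⟨⟨m, hm⟩, -⟩ := hDA (List V × List V) V' (fun p => p.1.length + p.2.length - 2)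
    {p | p.1 ∈ K.s ∧ p.2 ∈ K.s ∧ p.1 ≠ [] ∧ p.2 ≠ []} (fun p => dl_G K' μ p.1 p.2) tb
    (by
      rintro ⟨l, l'⟩ ⟨h1, h2, h3, h4⟩ ⟨k, k'⟩ hb'
      rw [dl_tb_single] at hb'
      have hor : ((tz (ubL l) (Finsupp.single l' 1)) (k, k') ≠ 0) ∨
          ((tz (Finsupp.single l 1) (ubL l')) (k, k') ≠ 0) := by
        by_contra hcon
        push Not at hcon
        apply hb'
        show (tz (ubL l) (Finsupp.single l' 1) + (-1 : ℤ) ^ (l.length - 1) •
          tz (Finsupp.single l 1) (ubL l')) (k, k') = 0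
        rw [Finsupp.add_apply, Finsupp.smul_apply, hcon.1, hcon.2, smul_zero, add_zero]
      have hl : 0 < l.length := List.length_pos_iff.2 h3
      have hl' : 0 < l'.length := List.length_pos_iff.2 h4
      classical
      rcases hor with h5 | h5
      · rw [dl_tz_left] at h5
        have h6 := Finsupp.mapDomain_support (Finsupp.mem_support_iff.2 h5)
        rw [Finset.mem_image] at h6
        obtain ⟨t, ht, he⟩ := h6
        obtain ⟨rfl, rfl⟩ := Prod.mk.inj he
        obtain ⟨h7, h8, h9⟩ := dl_ubL_supp l t (Finsupp.mem_support_iff.1 ht)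
        have ht' : 0 < t.length := List.length_pos_iff.2 h7
        refine ⟨⟨K.mono _ _ h8 h1, h2, h7, h4⟩, ?_, dl_G_mono K' μ h8 (List.Subset.refl _)⟩
        show l.length + l'.length - 2 = t.length + l'.length - 2 + 1
        omega
      · rw [dl_tz_right] at h5
        have h6 := Finsupp.mapDomain_support (Finsupp.mem_support_iff.2 h5)
        rw [Finset.mem_image] at h6
        obtain ⟨t, ht, he⟩ := h6
        obtain ⟨rfl, rfl⟩ := Prod.mk.inj he
        obtain ⟨h7, h8, h9⟩ := dl_ubL_supp l' t (Finsupp.mem_support_iff.1 ht)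
        have ht' : 0 < t.length := List.length_pos_iff.2 h7
        refine ⟨⟨h1, K.mono _ _ h8 h2, h3, h7⟩, ?_, dl_G_mono K' μ (List.Subset.refl _) h8⟩
        show l.length + l'.length - 2 = l.length + t.length - 2 + 1
        omega)
    (by
      rintro ⟨l, l'⟩ ⟨h1, h2, h3, h4⟩
      exact hB4 (l, l') h3 h4)
    (by
      rintro ⟨l, l'⟩ ⟨h1, h2, h3, h4⟩ hdeg
      have hdeg' : l.length + l'.length - 2 = 1 := hdeg
      have hl : 0 < l.length := List.length_pos_iff.2 h3
      have hl' : 0 < l'.length := List.length_pos_iff.2 h4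
      exact hB5 (l, l') h3 h4 (by show l.length + l'.length = 3; omega))
    (by
      rintro ⟨l, l'⟩ ⟨h1, h2, h3, h4⟩
      exact dl_G_ex K K' μ hcone hnil l l' h1 h2 h3 h4)
  have hm' : ∀ l ∈ K.s, ∀ l' ∈ K.s, l ≠ [] → l' ≠ [] →
      m (Finsupp.single (l, l') 1) ∈ Ch (dl_G K' μ l l').s (l.length + l'.length - 1) ∧
      bd (m (Finsupp.single (l, l') 1)) =
        if l.length + l'.length = 2 then Finsupp.single [] 1 else m (tbL (l, l')) := by
    intro l hl l' hl' h h'
    obtain ⟨h1, h2⟩ := hm (l, l') ⟨hl, hl', h, h'⟩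
    have e1 : 0 < l.length := List.length_pos_iff.2 h
    have e2 : 0 < l'.length := List.length_pos_iff.2 h'
    have e3 : l.length + l'.length - 2 + 1 = l.length + l'.length - 1 := by omega
    have h1' : m (Finsupp.single (l, l') 1) ∈
      Ch (dl_G K' μ l l').s (l.length + l'.length - 2 + 1) := h1
    rw [e3] at h1'
    refine ⟨h1', ?_⟩
    rw [h2, dl_tb_single]
    show (if l.length + l'.length - 2 = 0 then _ else _) = _
    by_cases h3 : l.length + l'.length = 2
    · rw [if_pos h3, if_pos (by omega)]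
    · rw [if_neg h3, if_neg (by omega)]
  have hub1 : ∀ v : V, ubL [v] = 0 := fun v => rfl
  -- the diagonal
  obtain ⟨w, hw, hwtb⟩ := hDD V K L i hi hL hconn z hz hbz
  have hmw : m w ∈ Ch K'.s (i + 2) := by
    refine dl_mem _ m (Ch K'.s (i + 2)) ?_ w hw
    rintro ⟨l, l'⟩ ⟨h1, h2, h3, h4, h5⟩
    have h6 := (hm' l h1 l' h2 h3 h4).1
    have h5' : l.length + l'.length = i + 1 + 2 := h5
    have e : l.length + l'.length - 1 = i + 2 := by omega
    rw [e] at h6
    refine Finsupp.supported_mono ?_ h6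
    rintro t ⟨ht1, ht2⟩
    exact ⟨ht1.1, ht2⟩
  have hbmw : bd (m w) = m (tb w) := by
    refine dl_ext _ (bd ∘ₗ m) (m ∘ₗ tb) ?_ w hw
    rintro ⟨l, l'⟩ ⟨h1, h2, h3, h4, h5⟩
    have h5' : l.length + l'.length = i + 1 + 2 := h5
    show bd (m (Finsupp.single (l, l') 1)) = m (tb (Finsupp.single (l, l') 1))
    rw [(hm' l h1 l' h2 h3 h4).2, if_neg (by omega), dl_tb_single]
  -- first comparison
  obtain ⟨y1, hy1, hby1⟩ := dl_cmp hDA hDB K K' (fun l => dl_G K' μ l l)
    (fun l l' h => dl_G_mono K' μ h h) (fun l t ht => ht.1)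
    (fun l hl h => dl_G_ex K K' μ hcone hnil l l hl hl h h)
    (m ∘ₗ aw) (Finsupp.lmapDomain ℤ ℤ (List.map fun x => μ x x))
    (by
      intro l hl hne
      have hlen : 0 < l.length := List.length_pos_iff.2 hne
      -- the complex of the lists in `l`
      let Kl : Cx V := ⟨{t | t ⊆ l}, fun t t' h ht => List.Subset.trans h ht⟩
      have hawl : awL l ∈ TCh Kl (l.length - 1) :=
        (hB8 Kl (l.length - 1)).1 l (List.Subset.refl l) (by omega)
      have hval : (m ∘ₗ aw) (Finsupp.single l 1) = m (awL l) := by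
        rw [LinearMap.comp_apply, dl_aw_single]
      rw [hval]
      constructor
      · refine dl_mem _ m (Ch (dl_G K' μ l l).s l.length) ?_ _ hawl
        rintro ⟨k, k'⟩ ⟨h1, h2, h3, h4, h5⟩
        have h1' : k ⊆ l := h1
        have h2' : k' ⊆ l := h2
        have h5' : k.length + k'.length = l.length - 1 + 2 := h5
        have h6 := (hm' k (K.mono _ _ h1' hl) k' (K.mono _ _ h2' hl) h3 h4).1
        have e : k.length + k'.length - 1 = l.length := by omega
        rw [e] at h6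
        refine Finsupp.supported_mono ?_ h6
        rintro t ⟨ht1, ht2⟩
        exact ⟨dl_G_mono K' μ h1' h2' ht1, ht2⟩
      · by_cases h1 : l.length = 1
        · rw [if_pos h1]
          obtain ⟨x, rfl⟩ := List.length_eq_one_iff.1 h1
          have h2 : awL [x] = Finsupp.single ([x], [x]) 1 := by
            show Finsupp.single ([x], [x]) (1 : ℤ) +
              (0 : List V × List V →₀ ℤ).mapDomain (fun p => (x :: p.1, p.2)) = _
            rw [Finsupp.mapDomain_zero, add_zero]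
          rw [h2, (hm' [x] hl [x] hl hne hne).2, if_pos (by simp)]
        · rw [if_neg h1, LinearMap.comp_apply, ← hB7 l hne]
          refine dl_ext _ (bd ∘ₗ m) (m ∘ₗ tb) ?_ _ hawl
          rintro ⟨k, k'⟩ ⟨h1', h2', h3, h4, h5⟩
          have h5' : k.length + k'.length = l.length - 1 + 2 := h5
          show bd (m (Finsupp.single (k, k') 1)) = m (tb (Finsupp.single (k, k') 1))
          rw [(hm' k (K.mono _ _ h1' hl) k' (K.mono _ _ h2' hl) h3 h4).2, if_neg (by omega),
            dl_tb_single])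
    (dl_vert hDB K K' (fun l => dl_G K' μ l l) (fun x => μ x x) (by
      intro l hl
      refine ⟨(hmaps l hl).1, ?_⟩
      intro v hv
      obtain ⟨x, hx, rfl⟩ := List.mem_map.1 hv
      exact ⟨x, hx, x, hx, rfl⟩)) i hi z hz hbz
  -- second comparison
  obtain ⟨y2, hy2, hby2⟩ := dl_cmp hDA hDB K K' (fun l => dl_G K' μ l [L])
    (fun l l' h => dl_G_mono K' μ h (List.Subset.refl _)) (fun l t ht => ht.1)
    (fun l hl h => dl_G_ex K K' μ hcone hnil l [L] hl hL h hLne)
    (m ∘ₗ Finsupp.lmapDomain ℤ ℤ (fun l => (l, [L])))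
    (Finsupp.lmapDomain ℤ ℤ (List.map fun x => μ x L))
    (by
      intro l hl hne
      have hlen : 0 < l.length := List.length_pos_iff.2 hne
      have hval : (m ∘ₗ Finsupp.lmapDomain ℤ ℤ (fun l => (l, [L]))) (Finsupp.single l 1) =
          m (Finsupp.single (l, [L]) 1) := by
        rw [LinearMap.comp_apply, Finsupp.lmapDomain_apply, Finsupp.mapDomain_single]
      obtain ⟨h1, h2⟩ := hm' l hl [L] hL hne hLne
      have e : l.length + [L].length - 1 = l.length := by simp
      rw [e] at h1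
      rw [hval]
      refine ⟨h1, ?_⟩
      rw [h2]
      by_cases h3 : l.length = 1
      · rw [if_pos h3, if_pos (by simp [h3])]
      · rw [if_neg h3, if_neg (by rw [List.length_singleton]; omega), LinearMap.comp_apply,
          Finsupp.lmapDomain_apply, ← dl_tz_left]
        congr 1
        show tz (ubL l) (Finsupp.single [L] 1) + (-1 : ℤ) ^ (l.length - 1) •
          tz (Finsupp.single l 1) (ubL [L]) = _
        rw [hub1, dl_tz_right, Finsupp.mapDomain_zero, smul_zero, add_zero])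
    (dl_vert hDB K K' (fun l => dl_G K' μ l [L]) (fun x => μ x L) (by
      intro l hl
      refine ⟨(hmaps l hl).2.1, ?_⟩
      intro v hv
      obtain ⟨x, hx, rfl⟩ := List.mem_map.1 hv
      exact ⟨x, hx, L, List.mem_singleton_self L, rfl⟩)) i hi z hz hbz
  -- third comparison
  obtain ⟨y3, hy3, hby3⟩ := dl_cmp hDA hDB K K' (fun l => dl_G K' μ [L] l)
    (fun l l' h => dl_G_mono K' μ (List.Subset.refl _) h) (fun l t ht => ht.1)
    (fun l hl h => dl_G_ex K K' μ hcone hnil [L] l hL hl hLne h)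
    (m ∘ₗ Finsupp.lmapDomain ℤ ℤ (fun l => ([L], l)))
    (Finsupp.lmapDomain ℤ ℤ (List.map fun x => μ L x))
    (by
      intro l hl hne
      have hlen : 0 < l.length := List.length_pos_iff.2 hne
      have hval : (m ∘ₗ Finsupp.lmapDomain ℤ ℤ (fun l => ([L], l))) (Finsupp.single l 1) =
          m (Finsupp.single ([L], l) 1) := by
        rw [LinearMap.comp_apply, Finsupp.lmapDomain_apply, Finsupp.mapDomain_single]
      obtain ⟨h1, h2⟩ := hm' [L] hL l hl hLne hne
      have e : [L].length + l.length - 1 = l.length := by simp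
      rw [e] at h1
      rw [hval]
      refine ⟨h1, ?_⟩
      rw [h2]
      by_cases h3 : l.length = 1
      · rw [if_pos h3, if_pos (by simp [h3])]
      · rw [if_neg h3, if_neg (by rw [List.length_singleton]; omega), LinearMap.comp_apply,
          Finsupp.lmapDomain_apply, ← dl_tz_right]
        congr 1
        show tz (ubL [L]) (Finsupp.single l 1) + (-1 : ℤ) ^ ([L].length - 1) •
          tz (Finsupp.single [L] 1) (ubL l) = _
        rw [hub1, dl_tz_left, Finsupp.mapDomain_zero, List.length_singleton, Nat.sub_self, pow_zero,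
          one_smul, zero_add])
    (dl_vert hDB K K' (fun l => dl_G K' μ [L] l) (fun x => μ L x) (by
      intro l hl
      refine ⟨(hmaps l hl).2.2, ?_⟩
      intro v hv
      obtain ⟨x, hx, rfl⟩ := List.mem_map.1 hv
      exact ⟨L, List.mem_singleton_self L, x, hx, rfl⟩)) i hi z hz hbz
  refine ⟨m w - y1 + y2 + y3, Submodule.add_mem _ (Submodule.add_mem _
    (Submodule.sub_mem _ hmw hy1) hy2) hy3, ?_⟩
  rw [map_add, map_add, map_sub, hbmw, hwtb, hby1, hby2, hby3]
  simp only [LinearMap.comp_apply, Finsupp.lmapDomain_apply, map_sub, dl_tz_left, dl_tz_right]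
  abel

end Pool.Agent.SLZ
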