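import Pool.Agent.SLZ.StK

/-!
# SLZ: module K0, membership in lattices of coordinates
-/

set_option autoImplicit false

noncomputable section

namespace Pool.Agent.SLZ

open Polynomial Matrix

section

variable {A : Type} [CommRing A]

theorem K0_c {n N a : ℕ} (h : a + n ≤ N) (v : Vn A N) (j : Fin n) :
    (cblk A[X] n N a).mulVec v j = v ⟨a + j.val, by omega⟩ := by
  show ∑ i, cblk A[X] n N a j i * v i = _
  rw [Finset.sum_eq_single (⟨a + j.val, by omega⟩ : Fin N)]
  · simp [cblk]
  · intro i _ hi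
    have : ¬ (i.val = a + j.val) := fun h' => hi (Fin.ext h')
    simp only [cblk, if_neg this, zero_mul]
  · intro h'
    exact absurd (Finset.mem_univ _) h'

theorem K0_sL {n : ℕ} (E : Lat A (Vn A n)) (k : ℤ) (v : Vn A (n + 1)) : v ∈ sL E k ↔
    (cblk A[X] n (n + 1) 0).mulVec v ∈ E k ∧ v (Fin.last n) ∈ degL A k := by
  have h : (cblk A[X] n (n + 1) 0).mulVec v = fun i : Fin n => v i.castSucc := by
    funext j
    rw [K0_c (by omega)]
    congr 1
    apply Fin.ext
    show 0 + j.val = j.val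
    omega
  rw [h]
  rfl

theorem K0_one {n N : ℕ} (h : n ≤ N) (E : Lat A (Vn A n)) (k : ℤ) : ∀ (v : Vn A N), v ∈ sS h E k ↔
    (cblk A[X] n N 0).mulVec v ∈ E k ∧ ∀ i : Fin N, n ≤ i.val → v i ∈ degL A k := by
  induction N, h using Nat.le_induction with
  | base =>
    intro v
    have e1 : sS (le_refl n) E = E :=
      Nat.leRecOn_self (C := fun n => Lat A (Vn A n)) (next := fun {k} => sL) E
    have e2 : (cblk A[X] n n 0).mulVec v = v := by
      funext j
      rw [K0_c (by omega)]
      congr 1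
      apply Fin.ext
      show 0 + j.val = j.val
      omega
    rw [e1, e2]
    refine ⟨fun hv => ⟨hv, fun i hi => ?_⟩, fun hv => hv.1⟩
    have := i.2
    omega
  | succ N h ih =>
    intro v
    have e1 : sS (Nat.le_succ_of_le h) E = sL (sS h E) :=
      Nat.leRecOn_succ (C := fun n => Lat A (Vn A n)) (next := fun {k} => sL) h E
    have e2 : (cblk A[X] n N 0).mulVec ((cblk A[X] N (N + 1) 0).mulVec v) =
        (cblk A[X] n (N + 1) 0).mulVec v := by
      funext j
      rw [K0_c (by omega), K0_c (by omega), K0_c (by omega)]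
      congr 1
      apply Fin.ext
      show 0 + (0 + j.val) = 0 + j.val
      omega
    rw [e1, K0_sL, ih, e2]
    constructor
    · rintro ⟨⟨h1, h2⟩, h3⟩
      refine ⟨h1, fun i hi => ?_⟩
      rcases Nat.lt_or_ge i.val N with h4 | h4
      · have h5 := h2 ⟨i.val, h4⟩ hi
        rw [K0_c (by omega)] at h5
        have : (⟨0 + i.val, by omega⟩ : Fin (N + 1)) = i := Fin.ext (by show 0 + i.val = i.val; omega)
        rw [this] at h5
        exact h5
      · have : i = Fin.last N := Fin.ext (by rw [Fin.val_last]; have := i.2; omega)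
        rw [this]
        exact h3
    · rintro ⟨h1, h2⟩
      refine ⟨⟨h1, fun i hi => ?_⟩, h2 _ (by rw [Fin.val_last]; exact h)⟩
      rw [K0_c (by omega)]
      exact h2 _ (by show n ≤ 0 + i.val; omega)

theorem K0_dS {n k : ℕ} (N : ℕ) (E : Lat A (Vn A n)) (E' : Lat A (Vn A k)) (j : ℤ) (v : Vn A N) :
    v ∈ dS N E E' j ↔ (cblk A[X] n N 0).mulVec v ∈ E j ∧ (cblk A[X] k N n).mulVec v ∈ E' j ∧
      ∀ i : Fin N, n + k ≤ i.val → v i ∈ degL A j := by
  unfold dS
  rw [Submodule.mem_inf, Submodule.mem_inf, Submodule.mem_iInf, and_assoc]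
  constructor
  · rintro ⟨h1, h2, h3⟩
    exact ⟨h1, h2, fun i hi => h3 ⟨i, hi⟩⟩
  · rintro ⟨h1, h2, h3⟩
    exact ⟨h1, h2, fun i => h3 i.1 i.2⟩

theorem K0_gL {n : ℕ} (g : GLn A[X] n) (E : Lat A (Vn A n)) (k : ℤ) (v : Vn A n) :
    v ∈ gL g E k ↔ (g⁻¹).1.mulVec v ∈ E k := by
  constructor
  · rintro ⟨w, hw, rfl⟩
    show (g⁻¹).1.mulVec (g.1.mulVec w) ∈ E k
    rw [Matrix.mulVec_mulVec, Units.inv_mul, Matrix.one_mulVec]
    exact hw
  · intro hv
    refine ⟨(g⁻¹).1.mulVec v, hv, ?_⟩
    show g.1.mulVec ((g⁻¹).1.mulVec v) = v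
    rw [Matrix.mulVec_mulVec, Units.mul_inv, Matrix.one_mulVec]

theorem K0_On (n : ℕ) (k : ℤ) (v : Vn A n) : v ∈ On A n k ↔ ∀ i, v i ∈ degL A k := by
  constructor
  · intro h i m hm
    have := h i m (by rw [add_zero]; exact hm)
    rw [Pi.basisFun_repr] at this
    exact this
  · intro h i m hm
    rw [add_zero] at hm
    rw [Pi.basisFun_repr]
    exact h i m hm

end

theorem thm_K0 : St_K0 := by
  intro A _
  refine ⟨fun n N h E k v => K0_one h E k v, fun n E k v => K0_sL E k v,
    fun n k N E E' j v => K0_dS N E E' j v, fun n g E k v => K0_gL g E k v,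
    fun n k v => K0_On n k v, ?_, ?_, ?_⟩
  · intro n k N h E hnk
    funext j
    ext v
    rw [K0_dS, K0_one, K0_On]
    constructor
    · rintro ⟨h1, h2, h3⟩
      refine ⟨h1, fun i hi => ?_⟩
      rcases Nat.lt_or_ge i.val (n + k) with h4 | h4
      · have h5 := h2 ⟨i.val - n, by omega⟩
        rw [K0_c hnk] at h5
        have : (⟨n + (⟨i.val - n, by omega⟩ : Fin k).val, by
            show n + (i.val - n) < N
            omega⟩ : Fin N) = i := Fin.ext (by show n + (i.val - n) = i.val; omega)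
        rw [this] at h5
        exact h5
      · exact h3 i h4
    · rintro ⟨h1, h2⟩
      refine ⟨h1, fun i => ?_, fun i hi => h2 i (by omega)⟩
      rw [K0_c hnk]
      exact h2 _ (by show n ≤ n + i.val; omega)
  · intro n m N h h' h'' E
    funext k
    ext v
    rw [K0_one, K0_one, K0_one]
    have e2 : (cblk A[X] n m 0).mulVec ((cblk A[X] m N 0).mulVec v) =
        (cblk A[X] n N 0).mulVec v := by
      funext j
      rw [K0_c (by omega), K0_c (by omega), K0_c (by omega)]
      congr 1
      apply Fin.ext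
      show 0 + (0 + j.val) = 0 + j.val
      omega
    rw [e2]
    constructor
    · rintro ⟨⟨h1, h2⟩, h3⟩
      refine ⟨h1, fun i hi => ?_⟩
      rcases Nat.lt_or_ge i.val m with h4 | h4
      · have h5 := h2 ⟨i.val, h4⟩ hi
        rw [K0_c (by omega)] at h5
        have : (⟨0 + (⟨i.val, h4⟩ : Fin m).val, by
            show 0 + i.val < N
            omega⟩ : Fin N) = i := Fin.ext (by show 0 + i.val = i.val; omega)
        rw [this] at h5
        exact h5
      · exact h3 i h4
    · rintro ⟨h1, h2⟩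
      refine ⟨⟨h1, fun i hi => ?_⟩, fun i hi => h2 i (by omega)⟩
      rw [K0_c (by omega)]
      exact h2 _ (by show n ≤ 0 + i.val; omega)
  · intro n g h E
    constructor
    · funext k
      ext v
      rw [K0_gL, K0_gL, K0_gL, Matrix.mulVec_mulVec, _root_.mul_inv_rev]
      rfl
    · funext k
      ext v
      rw [K0_gL, inv_one, Units.val_one, Matrix.one_mulVec]

end Pool.Agent.SLZ
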