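import Pool.Agent.SLZ.StKA

/-!
# SLZ, KA1: images and stabilizers of diagonal lattices, invariance of `TV`, `TT` (helper24)
-/

set_option autoImplicit false
set_option linter.unusedVariables false

noncomputable section

namespace Pool.Agent.SLZ

open Polynomial

section

variable {A : Type} [CommRing A] {V : Type} [AddCommGroup V] [Module A V]
  [Module A[X] V] [IsScalarTower A A[X] V] {V' : Type} [AddCommGroup V'] [Module A V']
  [Module A[X] V'] [IsScalarTower A A[X] V']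

theorem KA1_mem_mapL (g : V ≃ₗ[A[X]] V') (E : Lat A V) (k : ℤ) (v : V') :
    v ∈ mapL g E k ↔ g.symm v ∈ E k := by
  constructor
  · rintro ⟨u, hu, rfl⟩
    change g.symm (g u) ∈ E k
    rw [LinearEquiv.symm_apply_apply]
    exact hu
  · intro h
    refine ⟨g.symm v, h, ?_⟩
    change g (g.symm v) = v
    exact LinearEquiv.apply_symm_apply g v

theorem KA1_map_OL {n : ℕ} (b : Module.Basis (Fin n) A[X] V) (w : Fin n → ℤ)
    (g : V ≃ₗ[A[X]] V') : mapL g (OL b w) = OL (b.map g) w := by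
  funext k
  ext v
  rw [KA1_mem_mapL]
  rfl

theorem KA1_mapL_symm (g : V ≃ₗ[A[X]] V') (E : Lat A V) : mapL g.symm (mapL g E) = E := by
  funext k
  ext v
  rw [KA1_mem_mapL, KA1_mem_mapL]
  simp

theorem KA1_mapL_le (g : V ≃ₗ[A[X]] V') (E E' : Lat A V) :
    mapL g E ≤ mapL g E' ↔ E ≤ E' := by
  constructor
  · intro h k v hv
    have h1 := h k ((KA1_mem_mapL g E k (g v)).2 (by simpa using hv))
    rw [KA1_mem_mapL] at h1
    simpa using h1
  · intro h k v hv
    rw [KA1_mem_mapL] at hv ⊢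
    exact h k hv

theorem KA1_adj (g : V ≃ₗ[A[X]] V') (E E' : Lat A V) :
    adjL (mapL g E) (mapL g E') ↔ adjL E E' := by
  have h : ∀ F F' : Lat A V, LR (mapL g F) (mapL g F') ↔ LR F F' := fun F F' =>
    and_congr (KA1_mapL_le g F F') (KA1_mapL_le g F' (shL F 1))
  exact or_congr (h E E') (h E' E)

theorem KA1_TV1 (g : V ≃ₗ[A[X]] V') (m J : ℕ) (E : Lat A V) (h : E ∈ TV A V m J) :
    mapL g E ∈ TV A V' m J := by
  obtain ⟨n, d, b, h1, h2, h3, rfl⟩ := h
  exact ⟨n, d, b.map g, h1, h2, h3, KA1_map_OL b _ g⟩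

theorem KA1_TV (g : V ≃ₗ[A[X]] V') (m J : ℕ) (E : Lat A V) :
    mapL g E ∈ TV A V' m J ↔ E ∈ TV A V m J := by
  constructor
  · intro h
    have h1 := KA1_TV1 g.symm m J _ h
    rwa [KA1_mapL_symm] at h1
  · exact KA1_TV1 g m J E

theorem KA1_TT (g : V ≃ₗ[A[X]] V') (m J : ℕ) (L : List (Lat A V)) :
    L.map (mapL g) ∈ (TT A V' m J).s ↔ L ∈ (TT A V m J).s := by
  change (∀ x ∈ L.map (mapL g), x ∈ TV A V' m J ∧ ∀ y ∈ L.map (mapL g), adjL x y) ↔
    (∀ x ∈ L, x ∈ TV A V m J ∧ ∀ y ∈ L, adjL x y)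
  constructor
  · intro h x hx
    obtain ⟨h1, h2⟩ := h _ (List.mem_map_of_mem hx)
    exact ⟨(KA1_TV g m J x).1 h1, fun y hy => (KA1_adj g x y).1 (h2 _ (List.mem_map_of_mem hy))⟩
  · intro h x hx
    obtain ⟨x0, hx0, rfl⟩ := List.mem_map.1 hx
    obtain ⟨h1, h2⟩ := h _ hx0
    refine ⟨(KA1_TV g m J x0).2 h1, fun y hy => ?_⟩
    obtain ⟨y0, hy0, rfl⟩ := List.mem_map.1 hy
    exact (KA1_adj g x0 y0).2 (h2 _ hy0)

/-- the matrix criterion -/
theorem KA1_deg {n : ℕ} {I : Type} (b : Module.Basis (Fin n) A[X] V) (w : I → Fin n → ℤ)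
    (g : V ≃ₗ[A[X]] V) :
    degOK A w (LinearMap.toMatrix b b (g : V →ₗ[A[X]] V)) ↔
      ∀ i, mapL g (OL b (w i)) ≤ OL b (w i) := by
  constructor
  · rintro h i k _ ⟨v, hv, rfl⟩ a j hj
    change ((b.repr (g v)) a).coeff j = 0
    have h1 : b.repr (g v) a = ∑ c, LinearMap.toMatrix b b (g : V →ₗ[A[X]] V) a c * b.repr v c := by
      have h2 := LinearMap.toMatrix_mulVec_repr b b (g : V →ₗ[A[X]] V) v
      have h3 := congrFun h2 a
      exact h3.symm
    rw [h1, finsetSum_coeff]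
    refine Finset.sum_eq_zero fun c _ => ?_
    rw [coeff_mul]
    refine Finset.sum_eq_zero fun x hx' => ?_
    have hx : x.1 + x.2 = j := by simpa using hx'
    by_cases h4 : w i a - w i c < x.1
    · rw [h i a c x.1 h4, zero_mul]
    · have h5 : k + w i c < x.2 := by
        have : (x.1 : ℤ) + x.2 = j := by exact_mod_cast hx
        linarith
      rw [hv c x.2 h5, mul_zero]
  · intro h i a c j hj
    have h1 : b c ∈ OL b (w i) (- w i c) := by
      intro a' j' hj'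
      rw [Module.Basis.repr_self, Finsupp.single_apply]
      split_ifs with hac
      · subst hac
        rw [Polynomial.coeff_one, if_neg]
        rintro rfl
        simp at hj'
      · exact coeff_zero j'
    have h2 := h i (- w i c) ⟨b c, h1, rfl⟩ a j (by linarith)
    rw [LinearMap.toMatrix_apply]
    exact h2

theorem KA1_fix {n : ℕ} {I : Type} (b : Module.Basis (Fin n) A[X] V) (w : I → Fin n → ℤ)
    (g : V ≃ₗ[A[X]] V) :
    (∀ i, mapL g (OL b (w i)) = OL b (w i)) ↔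
      degOK A w (LinearMap.toMatrix b b (g : V →ₗ[A[X]] V)) ∧
      degOK A w (LinearMap.toMatrix b b (g.symm : V →ₗ[A[X]] V)) := by
  rw [KA1_deg, KA1_deg]
  constructor
  · intro h
    refine ⟨fun i => (h i).le, fun i => ?_⟩
    have h1 := KA1_mapL_symm g (OL b (w i))
    rw [h i] at h1
    exact h1.le
  · rintro ⟨h1, h2⟩ i
    refine le_antisymm (h1 i) ?_
    have h3 := (KA1_mapL_le g _ _).2 (h2 i)
    have h4 := KA1_mapL_symm g.symm (OL b (w i))
    rw [LinearEquiv.symm_symm] at h4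
    rwa [h4] at h3

/-- automorphisms and matrices -/
def KA1_equiv {n : ℕ} (b : Module.Basis (Fin n) A[X] V) : (V ≃ₗ[A[X]] V) ≃* GL (Fin n) A[X] :=
  (LinearMap.GeneralLinearGroup.generalLinearEquiv A[X] V).symm.trans
    (Units.mapEquiv (LinearMap.toMatrixAlgEquiv b).toMulEquiv)

theorem KA1_equiv_val {n : ℕ} (b : Module.Basis (Fin n) A[X] V) (g : V ≃ₗ[A[X]] V) :
    ((KA1_equiv b g : GL (Fin n) A[X]) : Matrix (Fin n) (Fin n) A[X]) =
      LinearMap.toMatrix b b (g : V →ₗ[A[X]] V) := rfl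

theorem KA1_equiv_inv {n : ℕ} (b : Module.Basis (Fin n) A[X] V) (g : V ≃ₗ[A[X]] V) :
    (((KA1_equiv b g)⁻¹ : GL (Fin n) A[X]) : Matrix (Fin n) (Fin n) A[X]) =
      LinearMap.toMatrix b b (g.symm : V →ₗ[A[X]] V) := by
  rw [← map_inv]
  rfl

theorem KA1_stab {n : ℕ} {I : Type} (b : Module.Basis (Fin n) A[X] V) (w : I → Fin n → ℤ) :
    Nonempty (fixingSubgroup (V ≃ₗ[A[X]] V) {E : Lat A V | ∃ i, E = OL b (w i)} ≃* PS A w) := by
  have h1 : ∀ g : V ≃ₗ[A[X]] V,
      g ∈ fixingSubgroup (V ≃ₗ[A[X]] V) {E : Lat A V | ∃ i, E = OL b (w i)} ↔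
        KA1_equiv b g ∈ PS A w := by
    intro g
    rw [mem_fixingSubgroup_iff]
    change _ ↔ (degOK A w ((KA1_equiv b g : GL (Fin n) A[X]) : Matrix (Fin n) (Fin n) A[X]) ∧
      degOK A w (((KA1_equiv b g)⁻¹ : GL (Fin n) A[X]) : Matrix (Fin n) (Fin n) A[X]))
    rw [KA1_equiv_val, KA1_equiv_inv, ← KA1_fix]
    constructor
    · intro h i
      exact h _ ⟨i, rfl⟩
    · rintro h _ ⟨i, rfl⟩
      exact h i
  have h2 : (fixingSubgroup (V ≃ₗ[A[X]] V) {E : Lat A V | ∃ i, E = OL b (w i)}).map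
      (KA1_equiv b).toMonoidHom = PS A w := by
    ext x
    rw [Subgroup.mem_map_equiv, h1, MulEquiv.apply_symm_apply]
  exact ⟨((KA1_equiv b).subgroupMap _).trans (MulEquiv.subgroupCongr h2)⟩

end

/-- **KA1** -/
theorem thm_KA1 : St_KA1 := by
  intro A _ V _ _ _ _
  refine ⟨?_, ?_, ?_⟩
  · intro n b w V' _ _ _ _ g
    exact KA1_map_OL b w g
  · intro n b I w
    exact KA1_stab b w
  · intro V' _ _ _ _ g
    exact ⟨KA1_adj g, KA1_TV g, KA1_TT g⟩

end Pool.Agent.SLZ
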