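import Pool.Agent.SLZ.UDefs

/-!
# SLZ, part U: uniformity. Statements (architect helper83)

Module `X` proves `theorem thm_X (h.. : St_..) : St_X` in `Pool/Agent/SLZ/X.lean`.

In the proofs: `e = blk R N n 0`, `p = cblk R n N 0`, `e' = blk R N n n`, `p' = cblk R n N n`, `e_a = blk R N n a`,
`p_a = cblk R n N a`; `F u l = S.F h c u l`, `D = F e p - F e (p - p')`. The matrices `u, k, y, x` are `N × n`, the matrices
`l, m, v, q` are `n × N`. Two offsets `a, b` are disjoint if `a + n ≤ b` or `b + n ≤ a`.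
-/

set_option autoImplicit false
set_option linter.unusedVariables false

noncomputable section

namespace Pool.Agent.SLZ

/-- **UA1** (0.4 h). Products of blocks. Proof: entries. -/
def St_UA1 : Prop := ∀ (R : Type) [CommRing R],
  (∀ n N a : ℕ, a + n ≤ N → cblk R n N a * blk R N n a = 1) ∧
  (∀ n m N a b : ℕ, a + n ≤ b ∨ b + m ≤ a → cblk R n N a * blk R N m b = 0) ∧
  (∀ n m N a b : ℕ, b + n ≤ m → blk R N m a * blk R m n b = blk R N n (a + b)) ∧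
  (∀ n m N a b : ℕ, b + n ≤ m → cblk R n m b * cblk R m N a = cblk R n N (a + b)) ∧
  (∀ n : ℕ, blk R n n 0 = 1 ∧ cblk R n n 0 = 1) ∧
  (∀ n m N : ℕ, n ≤ m → m ≤ N → cblk R n N 0 * blk R N m 0 = cblk R n m 0 ∧
    cblk R m N 0 * blk R N n 0 = blk R m n 0)

/-- **UA2** (0.5 h). The matrices `g ⊕ 1`. Proof: `St_UA1`. -/
def St_UA2 : Prop := ∀ (R : Type) [CommRing R] (n N : ℕ), n ≤ N →
  (∀ g h : Matrix (Fin n) (Fin n) R, lmat n N (g * h) = lmat n N g * lmat n N h) ∧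
  lmat n N (1 : Matrix (Fin n) (Fin n) R) = 1 ∧
  (∀ g : GLn R n, ∃ g' : GLn R N, g'.1 = lmat n N g.1 ∧ (g'⁻¹).1 = lmat n N (g⁻¹).1) ∧
  (∀ m : ℕ, N ≤ m → ∀ g : Matrix (Fin n) (Fin n) R, lmat N m (lmat n N g) = lmat n m g) ∧
  (∀ g : Matrix (Fin n) (Fin n) R, lmat n N g * blk R N n 0 = blk R N n 0 * g ∧
    cblk R n N 0 * lmat n N g = g * cblk R n N 0) ∧
  (∀ (g : Matrix (Fin n) (Fin n) R) (q : ℕ) (v : Matrix (Fin N) (Fin q) R),
    cblk R n N 0 * v = 0 → lmat n N g * v = v) ∧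
  (∀ (g : Matrix (Fin n) (Fin n) R) (q : ℕ) (v : Matrix (Fin q) (Fin N) R),
    v * blk R N n 0 = 0 → v * lmat n N g = v)

/-- **UA3** (0.5 h). The iterated stabilization maps. Proof: `Nat.leRecOn_self`, `Nat.leRecOn_succ`, induction on `N` (the last
part with `St_UA2` (3), (4)). -/
def St_UA3 : Prop := ∀ (R : Type) [CommRing R] (S : Sys R),
  (∀ (n : ℕ) (c : S.M n), S.ST (le_refl n) c = c) ∧
  (∀ (n N : ℕ) (h : n ≤ N) (h' : n ≤ N + 1) (c : S.M n), S.ST h' c = S.st N (S.ST h c)) ∧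
  (∀ (n N : ℕ) (h : n + 1 ≤ N) (h' : n ≤ N) (c : S.M n), S.ST h (S.st n c) = S.ST h' c) ∧
  (∀ (n m N : ℕ) (h : n ≤ m) (h' : m ≤ N) (h'' : n ≤ N) (c : S.M n),
    S.ST h' (S.ST h c) = S.ST h'' c) ∧
  (∀ (n N : ℕ) (h : n ≤ N) (c d : S.M n), S.ST h (c + d) = S.ST h c + S.ST h d) ∧
  (∀ (n N : ℕ) (h : n ≤ N) (c : S.M n), S.ST h (-c) = -S.ST h c) ∧
  (∀ (n N : ℕ) (h : n ≤ N), S.ST h 0 = 0) ∧
  (∀ (n N : ℕ) (h : n ≤ N) (g : GLn R n) (g' : GLn R N), g'.1 = lmat n N g.1 →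
    ∀ c : S.M n, S.ST h (g • c) = g' • S.ST h c)

/-- **UB** (0.8 h). The element `F u l` is well defined and natural.

Proof. (1) If `g e = g₀ e`, `p g⁻¹ = p g₀⁻¹`, then `x = g⁻¹ g₀` satisfies `x e = e`, `p x = p`, so `x • ST c = ST c` by `H1`. (2) if
`(u, l) = (x e, p x⁻¹)`: both sides are `(g x) • ST c`; if `(u, l)` is not standard, then `(g u, l g⁻¹)` is not standard, both
sides are `0`. (3) `S.ST` is additive, the same `choose` (`by_cases`, no `H1`). (4) `g' = g ⊕ 1` (`St_UA2`): if `(u, l) = (x e, p x⁻¹)`, then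
`(u g, g⁻¹ l) = (x g' e, p (x g')⁻¹)` and `x • ST (g • c) = (x g') • ST c`; not standard: both sides are `0`. (5) `(u, l) = (x e, p x⁻¹)` with the
blocks of size `n + 1`: both sides are `x • ST c` (`St_UA3` (3), `St_UA1`). -/
def St_UB : Prop := ∀ (R : Type) [CommRing R] (S : Sys R) (k0 : ℕ → ℕ), S.H1 k0 →
  (∀ (n N : ℕ) (h : n ≤ N), k0 n ≤ N → ∀ (g : GLn R N) (c : S.M n),
    S.F h c (g.1 * blk R N n 0) (cblk R n N 0 * (g⁻¹).1) = g • S.ST h c) ∧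
  (∀ (n N : ℕ) (h : n ≤ N), k0 n ≤ N → ∀ (g : GLn R N) (c : S.M n)
    (u : Matrix (Fin N) (Fin n) R) (l : Matrix (Fin n) (Fin N) R),
    g • S.F h c u l = S.F h c (g.1 * u) (l * (g⁻¹).1)) ∧
  (∀ (n N : ℕ) (h : n ≤ N) (c d : S.M n) (u : Matrix (Fin N) (Fin n) R)
    (l : Matrix (Fin n) (Fin N) R), S.F h (c + d) u l = S.F h c u l + S.F h d u l) ∧
  (∀ (n N : ℕ) (h : n ≤ N), k0 n ≤ N → ∀ (g : GLn R n) (c : S.M n)
    (u : Matrix (Fin N) (Fin n) R) (l : Matrix (Fin n) (Fin N) R),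
    S.F h (g • c) u l = S.F h c (u * g.1) ((g⁻¹).1 * l)) ∧
  (∀ (n N : ℕ) (h : n ≤ N) (h' : n + 1 ≤ N), k0 n ≤ N → k0 (n + 1) ≤ N → ∀ (c : S.M n)
    (u : Matrix (Fin N) (Fin (n + 1)) R) (l : Matrix (Fin (n + 1)) (Fin N) R), Sys.Std u l →
    S.F h' (S.st n c) u l = S.F h c (u * blk R (n + 1) n 0) (cblk R n (n + 1) 0 * l))

/-- **UC1** (0.8 h). Transvections and permutation matrices.

Proof. (1) `(1 + k l) (1 - k l) = 1`. (2), (3) extend the injection `i ↦ a + i`, `n + i ↦ b + i` (`i < n`) to a permutation of `Fin N` and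
take its matrix (column `j` is the basis vector `σ j`); the second half of (2) follows from the first one because the inverse of
a permutation matrix is its transposed matrix and `cblk` is the transposed matrix of `blk`. -/
def St_UC1 : Prop := ∀ (R : Type) [CommRing R] (n N : ℕ),
  (∀ (k : Matrix (Fin N) (Fin n) R) (l : Matrix (Fin n) (Fin N) R), l * k = 0 →
    ∃ g : GLn R N, g.1 = 1 + k * l ∧ (g⁻¹).1 = 1 - k * l) ∧
  (∀ a b : ℕ, a + n ≤ N → b + n ≤ N → (a + n ≤ b ∨ b + n ≤ a) → ∃ w : GLn R N,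
    w.1 * blk R N n 0 = blk R N n a ∧ w.1 * blk R N n n = blk R N n b ∧
    cblk R n N 0 * (w⁻¹).1 = cblk R n N a ∧ cblk R n N n * (w⁻¹).1 = cblk R n N b) ∧
  (∀ a : ℕ, a + n ≤ N → ∃ w : GLn R N, w.1 * blk R N n 0 = blk R N n a ∧
    cblk R n N 0 * (w⁻¹).1 = cblk R n N a)

/-- **UC2** (1 h). Criteria for standard pairs and for orthogonal pairs.

Proof. All `g` are products of the transvections of `St_UC1` (1) and the `w` of `St_UC1` (2), (3).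
(1) If `p_a u = 1`: `g₁ = 1 + (u - e_a) p_a`, `g₂⁻¹ = 1 + u (l - p_a)`, `g = g₂ g₁ w`. If `l e_a = 1`: `g₂⁻¹ = 1 + e_a (l - p_a)`,
`g₁ = 1 + (u - e_a) l`, `g = g₁ g₂ w`.
(2) `g₁ = 1 + (k - e_a) p_a` (so `g₁ e_a = k`), `l' = l g₁ = l - (l e_a) p_a`, `l' e_a = 0`, `l' e_b = 1`, `g₂⁻¹ = 1 + e_b (l' - p_b)` (so
`g₂ e_a = e_a`, `p_b g₂⁻¹ = l'`), `g = g₁ g₂ w`: `g₁ g₂ e_a = k`, `p_b g₂⁻¹ g₁⁻¹ = l`.
(3) `g₁ = 1 + (u - e') p'`, `z = l - p + (p u) p'` (so `z e = 0`, `z u = 0`), `g₂ = 1 - e z`, `g = g₂ g₁`: `g e = e`, `g e' = g₂ u = u`,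
`p' g⁻¹ = p'`, `p g⁻¹ = (p - (p u) p') (1 + e z) = l`. -/
def St_UC2 : Prop := ∀ (R : Type) [CommRing R] (n N : ℕ),
  (∀ (a : ℕ) (u : Matrix (Fin N) (Fin n) R) (l : Matrix (Fin n) (Fin N) R), a + n ≤ N →
    l * u = 1 → (cblk R n N a * u = 1 ∨ l * blk R N n a = 1) → Sys.Std u l) ∧
  (∀ (a b : ℕ) (k : Matrix (Fin N) (Fin n) R) (l : Matrix (Fin n) (Fin N) R), a + n ≤ N →
    b + n ≤ N → (a + n ≤ b ∨ b + n ≤ a) → l * k = 0 → cblk R n N a * k = 1 →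
    l * blk R N n b = 1 → Sys.Orth k l) ∧
  (2 * n ≤ N → ∀ (u : Matrix (Fin N) (Fin n) R) (l : Matrix (Fin n) (Fin N) R),
    cblk R n N n * u = 1 → l * blk R N n 0 = 1 → l * u = 0 → ∃ g : GLn R N,
      g.1 * blk R N n 0 = blk R N n 0 ∧ g.1 * blk R N n n = u ∧
      cblk R n N 0 * (g⁻¹).1 = l ∧ cblk R n N n * (g⁻¹).1 = cblk R n N n)

/-- **UD** (1 h). The two first differences at the standard orthogonal pair.

Proof. `H2` with the swap `w` of the blocks `0` and `n` (`St_UC1` (2), `a = n`, `b = 0`) and `t = 1 + e p'`: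
`F(e, p - p') + F(e' + e, p') = F(e, p) + F(e', p')` (`St_UB` (1), (2); `t e = e`, `t e' = e' + e`, `p t⁻¹ = p - p'`, `p' t⁻¹ = p'`). Let
`A(y) = F(y + e, p') - F(y, p')` for `p' y = 1`, `C(m) = F(e, m) - F(e, m - p')` for `m e = 1`; this is `A(e') = C(p) = D`. If moreover
`m y = 0`, then `A(y) = C(m)`: act with the `g` of `St_UC2` (3) on the equation. Let `p' y = 1`, `p_3 = cblk R n N (2 * n)`,
`e_3 = blk R N n (2 * n)`, `x = e' + e_3 (p_3 y + 1)`; then `m = p + α p' + β p_3`, `β = p y`, `α = - (p y) (p_3 y + 1)` satisfies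
`m e = 1`, `m y = 0`, `m x = 0`, and `p' x = 1`, `p x = 0`. So `A(y) = C(m) = A(x) = C(p) = D`. Finally, if `m e = 1`, then `y = e' - e (m e')` satisfies `p' y = 1`, `m y = 0`, so
`C(m) = A(y) = D`. (All pairs are standard, but this is not needed for the equivariance of `F`.) -/
def St_UD : Prop := ∀ (R : Type) [CommRing R] (S : Sys R) (k0 k2 : ℕ → ℕ) (n2 : ℕ), S.H1 k0 →
  S.H2 n2 k2 → ∀ (n N : ℕ) (h : n ≤ N), Sys.Big k0 k2 n2 n N → ∀ c : S.M n,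
  (∀ y : Matrix (Fin N) (Fin n) R, cblk R n N n * y = 1 →
    S.F h c (y + blk R N n 0) (cblk R n N n) - S.F h c y (cblk R n N n) =
      S.F h c (blk R N n 0) (cblk R n N 0) -
        S.F h c (blk R N n 0) (cblk R n N 0 - cblk R n N n)) ∧
  (∀ m : Matrix (Fin n) (Fin N) R, m * blk R N n 0 = 1 →
    S.F h c (blk R N n 0) m - S.F h c (blk R N n 0) (m - cblk R n N n) =
      S.F h c (blk R N n 0) (cblk R n N 0) -
        S.F h c (blk R N n 0) (cblk R n N 0 - cblk R n N n))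

/-- **UE0** (0.4 h). The first differences at an orthogonal pair. Proof: `(k, l) = (g e, p' g⁻¹)`; act with `g` on
`St_UD` for `y = g⁻¹ u`, `m = v g`. -/
def St_UE0 : Prop := ∀ (R : Type) [CommRing R] (S : Sys R) (k0 k2 : ℕ → ℕ) (n2 : ℕ), S.H1 k0 →
  S.H2 n2 k2 → ∀ (n N : ℕ) (h : n ≤ N), Sys.Big k0 k2 n2 n N → ∀ c : S.M n,
  ∀ (k : Matrix (Fin N) (Fin n) R) (l : Matrix (Fin n) (Fin N) R), Sys.Orth k l → ∃ g : GLn R N,
    (∀ u : Matrix (Fin N) (Fin n) R, l * u = 1 → S.F h c (u + k) l - S.F h c u l =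
      g • (S.F h c (blk R N n 0) (cblk R n N 0) -
        S.F h c (blk R N n 0) (cblk R n N 0 - cblk R n N n))) ∧
    (∀ v : Matrix (Fin n) (Fin N) R, v * k = 1 → S.F h c k v - S.F h c k (v - l) =
      g • (S.F h c (blk R N n 0) (cblk R n N 0) -
        S.F h c (blk R N n 0) (cblk R n N 0 - cblk R n N n)))

/-- **UE1** (0.7 h). The first difference in the first variable.

Proof. By `St_UC1` (2) (swap) `l = p' g⁻¹` for some `g`; acting with `g⁻¹` (`St_UB` (2)) we may assume `l = p'`, `p' k = 0`. Let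
`k₁ = e_3 - e (1 - p k)`, `k₂ = k - k₁` (`e_3 = blk R N n (2 * n)`, `p_3 = cblk R n N (2 * n)`): `p_3 k₁ = 1`, `p' k₁ = 0`, `p k₂ = 1`,
`p' k₂ = 0`; so `(k₁, p')` and `(k₂, p')` are orthogonal pairs (`St_UC2` (2) with `(a, b) = (2 n, n)` and `(0, n)`). By `St_UE0`:
`F(u + k, p') - F(u, p') = (F(u + k₁ + k₂, p') - F(u + k₁, p')) + (F(u + k₁, p') - F(u, p')) = g₂ • D + g₁ • D`. -/
def St_UE1 : Prop := ∀ (R : Type) [CommRing R] (S : Sys R) (k0 k2 : ℕ → ℕ) (n2 : ℕ), S.H1 k0 →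
  S.H2 n2 k2 → ∀ (n N : ℕ) (h : n ≤ N), Sys.Big k0 k2 n2 n N → ∀ c : S.M n,
  ∀ (k : Matrix (Fin N) (Fin n) R) (l : Matrix (Fin n) (Fin N) R),
    (∃ g : GLn R N, l = cblk R n N 0 * (g⁻¹).1) → l * k = 0 → ∃ d : S.M N,
    (∀ u : Matrix (Fin N) (Fin n) R, l * u = 1 → S.F h c (u + k) l - S.F h c u l = d) ∧
    (S.F h c (blk R N n 0) (cblk R n N 0) =
      S.F h c (blk R N n 0) (cblk R n N 0 - cblk R n N n) → d = 0)

/-- **UE2** (0.7 h). The first difference in the second variable.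

Proof. We may assume `k = e`, `l e = 0`. Let `l₁ = p_3 - (1 - l e') p'`, `l₂ = l - l₁`: `l₁ e = 0`, `l₁ e_3 = 1`, `l₂ e = 0`, `l₂ e' = 1`;
so `(e, l₁)`, `(e, l₂)` are orthogonal pairs (`(a, b) = (0, 2 n)`, `(0, n)`). By `St_UE0` (second part, for `v + l₁`, `v + l₁ + l₂`):
`F(e, v + l) - F(e, v) = g₂ • D + g₁ • D`. -/
def St_UE2 : Prop := ∀ (R : Type) [CommRing R] (S : Sys R) (k0 k2 : ℕ → ℕ) (n2 : ℕ), S.H1 k0 →
  S.H2 n2 k2 → ∀ (n N : ℕ) (h : n ≤ N), Sys.Big k0 k2 n2 n N → ∀ c : S.M n,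
  ∀ (k : Matrix (Fin N) (Fin n) R) (l : Matrix (Fin n) (Fin N) R),
    (∃ g : GLn R N, k = g.1 * blk R N n 0) → l * k = 0 → ∃ d : S.M N,
    (∀ v : Matrix (Fin n) (Fin N) R, v * k = 1 → S.F h c k (v + l) - S.F h c k v = d) ∧
    (S.F h c (blk R N n 0) (cblk R n N 0) =
      S.F h c (blk R N n 0) (cblk R n N 0 - cblk R n N n) → d = 0)

/-- **UF** (1.2 h). The second difference is natural for `GL_n`.

Proof. Put `k' = k g`, `l' = g⁻¹ l`, `x = blk R N n b`, `q = cblk R n N b` and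
`Δ(u, v) = F(u + k', v + l') - F(u, v + l') - F(u + k', v) + F(u, v)` for `c`. By `St_UB` (4) the left side is `Δ(e g, g⁻¹ p)`, the right side is
`Δ(e, p)`. (a) `Δ(u, v) = Δ(u', v)` if `v u = v u' = 1`, `l' u = l' u' = 0`, `v k' = 0` and `v`, `v + l'` are of the form `p y⁻¹`: `St_UE1` for
`(k', v + l')` and `(k', v)`. (b) `Δ(u, v) = Δ(u, v')` if `v u = v' u = 1`, `v k' = v' k' = 0`, `l' u = 0` and `u`, `u + k'` are of the form `y e`:
`St_UE2` for `(u + k', l')` and `(u, l')`. Path: `(e g, g⁻¹ p)`, (b) `(e g, g⁻¹ p + q)`, (a) `(x, g⁻¹ p + q)`, (b) `(x, q + p)`, (a) `(e, q + p)`,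
(b) `(e, p)`. The forms: `v = g⁻¹ p + q` and `q + p` and their sums with `l'` satisfy `v x = 1`, so `(x, v)` is standard by `St_UC2` (1);
`x`, `x + k'`: `q u = 1`; `e`, `e + k'`: `p u = 1`; `e g = g' e` and `e g + k' = g' (e + k')` with `g' = g ⊕ 1` (`St_UA2`). -/
def St_UF : Prop := ∀ (R : Type) [CommRing R] (S : Sys R) (k0 k2 : ℕ → ℕ) (n2 : ℕ), S.H1 k0 →
  S.H2 n2 k2 → ∀ (n N : ℕ) (h : n ≤ N), Sys.Big k0 k2 n2 n N → ∀ (b : ℕ), n ≤ b → b + n ≤ N →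
  ∀ (c : S.M n) (g : GLn R n) (k : Matrix (Fin N) (Fin n) R) (l : Matrix (Fin n) (Fin N) R),
    cblk R n N 0 * k = 0 → cblk R n N b * k = 0 → l * blk R N n 0 = 0 → l * blk R N n b = 0 →
    l * k = 0 → S.B h (g • c) k l = S.B h c (k * g.1) ((g⁻¹).1 * l)

/-- **UG** (0.8 h). The extension lemma.

Proof. By induction on `j` there are `β : S.M (n1 + j) →+ T.M (n1 + j)`, `β' : S.M (n1 + j + 1) →+ T.M (n1 + j + 1)` such that `β'` is
equivariant, `β' (st c) = st (β c)`, and `β' (ST c) = ST (β1 c)` for `c ∈ M (n1 + 1)`. Step: apply `H3` for `N = n1 + j` to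
`b g c = g • T.st (β' c)`: `b (g h') c = g • h' • st (β' c) = g • st (h • β' c) = b g (h • c)`;
`b (g t) (st d) = g • t • st (st (β d)) = g • st (st (β d)) = b g (st d)` by the hypothesis on `T`. So there is `β''` with
`β'' (g • st c) = g • st (β' c)`; it is equivariant because the `g • st c` generate. Now let `c ∈ M (n1 + 1)`; by `H4` `ST c = 0` in some level
`N ≥ n1 + 1` (stabilize further), so `ST (β1 c) = 0` and `β1 c = 0` because all `T.st` are injective. -/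
def St_UG : Prop := ∀ (R : Type) [CommRing R] (S T : Sys R) (N1 n1 : ℕ), S.H3 N1 → S.H4 →
  N1 ≤ n1 → (∀ (n : ℕ) (f : T.M n), T.st n f = 0 → f = 0) →
  (∀ (n : ℕ) (t : GLn R (n + 2)), t.1 * blk R (n + 2) n 0 = blk R (n + 2) n 0 →
    cblk R n (n + 2) 0 * t.1 = cblk R n (n + 2) 0 → ∀ d : T.M n,
    t • T.st (n + 1) (T.st n d) = T.st (n + 1) (T.st n d)) →
  ∀ (β0 : S.M n1 →+ T.M n1) (β1 : S.M (n1 + 1) →+ T.M (n1 + 1)),
    (∀ (g : GLn R (n1 + 1)) (c : S.M (n1 + 1)), β1 (g • c) = g • β1 c) →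
    (∀ c : S.M n1, β1 (S.st n1 c) = T.st n1 (β0 c)) → ∀ c, β1 c = 0

/-- **UP** (0.6 h). The system of functions of two variables. Proof: `T.M n` is the group of functions of `k` and `l`, action
`(g • f) k l = f (k g) (g⁻¹ l)`, stabilization as given; `st_smul`: `g' e = e g` and `p g'⁻¹ = g⁻¹ p` for `g' = g ⊕ 1` (`St_UA2` (5)). -/
def St_UP : Prop := ∀ (R : Type) [CommRing R] (X : Type) [AddCommGroup X] (a b : ℕ),
  ∃ (T : Sys R) (ev : ∀ n, T.M n ≃+ (Matrix (Fin a) (Fin n) R → Matrix (Fin n) (Fin b) R → X)),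
    (∀ (n : ℕ) (g : GLn R n) (f : T.M n) (k : Matrix (Fin a) (Fin n) R)
      (l : Matrix (Fin n) (Fin b) R), ev n (g • f) k l = ev n f (k * g.1) ((g⁻¹).1 * l)) ∧
    (∀ (n : ℕ) (f : T.M n) (k : Matrix (Fin a) (Fin (n + 1)) R)
      (l : Matrix (Fin (n + 1)) (Fin b) R),
      ev (n + 1) (T.st n f) k l = ev n f (k * blk R (n + 1) n 0) (cblk R n (n + 1) 0 * l))

/-- **UX** (0.6 h). The coinvariants vanish (helper94).

Proof. Let `I n` be this subgroup of `M n`. (a) Let `N1 ≤ N`, `c ∈ M (N + 1)`, `st c ∈ I (N + 2)`; then `c ∈ I (N + 1)`: apply `H3` to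
`X = M (N + 1) ⧸ I (N + 1)`, `b g c = [c]`: there is `β : M (N + 2) →+ X` with `β (g • st c) = [c]`. It vanishes on `I (N + 2)`: the set of the `y`
with `β (g • y) = β y` for all `g` is a subgroup which contains the generators `g • st c`. So `[c] = β (st c) = 0`. (b) Let `c ∈ M n`; by `H4`
`ST c = 0` in some `M N`, use (a) `N - n` times. -/
def St_UX : Prop := ∀ (R : Type) [CommRing R] (S : Sys R) (N1 : ℕ), S.H3 N1 → S.H4 →
  ∀ n : ℕ, N1 + 1 ≤ n →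
    AddSubgroup.closure {x : S.M n | ∃ (g : GLn R n) (c : S.M n), x = g • c - c} = ⊤

/-- **UN** (0.4 h). Generation. Proof: induction on `N` (`H3`, first part; `g • st (g₁ • ST c) = (g g₁') • ST c`, `g₁' = g₁ ⊕ 1`). -/
def St_UN : Prop := ∀ (R : Type) [CommRing R] (S : Sys R) (N1 : ℕ), S.H3 N1 →
  ∀ (n N : ℕ) (h : n ≤ N), N1 + 1 ≤ n →
    AddSubgroup.closure {x : S.M N | ∃ (g : GLn R N) (c : S.M n), x = g • S.ST h c} = ⊤

/-- **UJ** (0.7 h). If the second difference vanishes for one good pair, then `D = 0`.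

Proof. `k = e_a`, `l = p_b`. The pairs `(k, p + l)`, `(k, p)`, `(k, l)` are orthogonal (`St_UC2` (2) with `(a, b)`, `(a, 0)`, `(a, b)`). `St_UE0`
(both parts, one `g` for both): `F(e + k, p + l) - F(e, p + l) = F(k, p_a) - F(k, p_a - p - l)` and
`F(e + k, p) - F(e, p) = F(k, p_a - l) - F(k, p_a - l - p)`, so `B = F(k, p_a) - F(k, p_a - l) = g • D` (`St_UE0` for `(k, l)`). -/
def St_UJ : Prop := ∀ (R : Type) [CommRing R] (S : Sys R) (k0 k2 : ℕ → ℕ) (n2 : ℕ), S.H1 k0 →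
  S.H2 n2 k2 → ∀ (n N : ℕ) (h : n ≤ N), Sys.Big k0 k2 n2 n N → ∀ (a b : ℕ), n ≤ a → n ≤ b →
  a + n ≤ N → b + n ≤ N → (a + n ≤ b ∨ b + n ≤ a) → ∀ c : S.M n,
    S.B h c (blk R N n a) (cblk R n N b) = 0 →
    S.F h c (blk R N n 0) (cblk R n N 0) = S.F h c (blk R N n 0) (cblk R n N 0 - cblk R n N n)

/-- **UH** (0.7 h). If `D = 0`, then `GL_n` acts trivially on `ST c`.

Proof. `g' • ST c = F(e g, g⁻¹ p)` (`St_UB` (1), (2)). `St_UE1`, `St_UE2` with `d = 0` along the path: `F(e g, g⁻¹ p) = F(e g, g⁻¹ p + p')`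
(`k = e g = g' e`, `l = p'`) `= F(e', g⁻¹ p + p')` (`l = g⁻¹ p + p'`, `k = e' - e g`; `l e' = 1`, so `l = p y⁻¹` by `St_UC2` (1))
`= F(e', p' + p) = F(e, p' + p) = F(e, p) = ST c`. -/
def St_UH : Prop := ∀ (R : Type) [CommRing R] (S : Sys R) (k0 k2 : ℕ → ℕ) (n2 : ℕ), S.H1 k0 →
  S.H2 n2 k2 → ∀ (n N : ℕ) (h : n ≤ N), Sys.Big k0 k2 n2 n N → ∀ c : S.M n,
    S.F h c (blk R N n 0) (cblk R n N 0) =
      S.F h c (blk R N n 0) (cblk R n N 0 - cblk R n N n) →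
    ∀ (g : GLn R n) (g' : GLn R N), g'.1 = lmat n N g.1 → g' • S.ST h c = S.ST h c

/-- **U** (1.2 h). Uniformity.

Proof. `n1 = max N1 n2`, `m = n1 + 1`, and `N` is so large that `Big .. n1 N`, `Big .. m N` (so `4 m ≤ N`). `T` = `St_UP` for `X = S.M N`,
`a = b = m`. For `n ∈ {n1, m}` let `β (c) (k, l) = S.B c (blk R N m m * k) (l * cblk R m N (2 * m))`, additive by `St_UB` (3). `β1` is
equivariant: `St_UF` for the offset `b = 3 m`. Linked: `St_UB` (5); the four pairs `(u, v)`, `u ∈ {e, e + k'}`, `v ∈ {p, p + l'}` are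
standard because `p u = 1`, `v u = 1` (`St_UC2` (1), `a = 0`). `T.st` is injective: for given `k, l` take `k * cblk R n (n + 1) 0` and
`blk R (n + 1) n 0 * l`. The hypothesis of `St_UG` on `t`: `k t e e = k e e`, `p p t⁻¹ l = p p l`. So `β1 = 0` (`St_UG`), so
`S.B c (blk R N m m) (cblk R m N (2 * m)) = 0` for all `c ∈ M m` (`k = 1`, `l = 1`), so `D = 0` (`St_UJ`), so `ST (g • c - c) = 0` for
`g ∈ GL_m` (`St_UH`, `St_UA3`), so `ST = 0` on `M m` (`St_UX`), so `M N = 0` (`St_UN`). -/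
def St_U : Prop := ∀ (R : Type) [CommRing R] (S : Sys R) (k0 k2 : ℕ → ℕ) (n2 N1 : ℕ), S.H1 k0 →
  S.H2 n2 k2 → S.H3 N1 → S.H4 → ∃ N2 : ℕ, ∀ N : ℕ, N2 ≤ N → ∀ c : S.M N, c = 0

end Pool.Agent.SLZ
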