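import Pool.Agent.SLZ.StK
import Pool.Agent.SLZ.StU
import Pool.Agent.SLZ.KA1

set_option autoImplicit false
set_option linter.unusedVariables false

/-! # SLZ K1: the action and stabilization -/

noncomputable section

namespace Pool.Agent.SLZ

open Polynomial

theorem K1_gL_eq {A : Type} [CommRing A] {n : ℕ} (g : GLn A[X] n) (E : Lat A (Vn A n)) :
    gL g E = mapL (gE A n g) E := rfl

theorem K1_LR {A : Type} [CommRing A] {n : ℕ} (g : GLn A[X] n) (E F : Lat A (Vn A n)) :
    LR (gL g E) (gL g F) ↔ LR E F :=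
  and_congr (KA1_mapL_le (gE A n g) E F) (KA1_mapL_le (gE A n g) F (shL E 1))

theorem K1_mem_sL {A : Type} [CommRing A] {n : ℕ} (E : Lat A (Vn A n)) (k : ℤ)
    (v : Vn A (n + 1)) :
    v ∈ sL E k ↔ (fun i : Fin n => v i.castSucc) ∈ E k ∧ v (Fin.last n) ∈ degL A k := Iff.rfl

theorem K1_last {R : Type} [CommRing R] (n : ℕ) (g : Matrix (Fin n) (Fin n) R)
    (v : Fin (n + 1) → R) : (lmat n (n + 1) g).mulVec v (Fin.last n) = v (Fin.last n) := by
  have h0 : ∀ (q : ℕ) (M : Matrix (Fin n) (Fin q) R) (j : Fin q),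
      (blk R (n + 1) n 0 * M) (Fin.last n) j = 0 := by
    intro q M j
    rw [Matrix.mul_apply]
    refine Finset.sum_eq_zero fun i _ => ?_
    have : blk R (n + 1) n 0 (Fin.last n) i = 0 := by
      unfold blk
      rw [if_neg]
      simp only [Fin.val_last, zero_add]
      exact i.2.ne'
    rw [this, zero_mul]
  have h1 : ∀ j, lmat n (n + 1) g (Fin.last n) j = (1 : Matrix _ _ R) (Fin.last n) j := by
    intro j
    unfold lmat
    rw [Matrix.add_apply, Matrix.sub_apply, Matrix.mul_assoc, h0, h0, zero_add, sub_zero]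
  have h2 : (lmat n (n + 1) g).mulVec v (Fin.last n) =
      (1 : Matrix (Fin (n + 1)) (Fin (n + 1)) R).mulVec v (Fin.last n) := by
    unfold Matrix.mulVec dotProduct
    refine Finset.sum_congr rfl fun j _ => ?_
    exact congrArg (· * v j) (h1 j)
  rw [h2, Matrix.one_mulVec]

theorem thm_K1 (h0 : St_K0) (h2 : St_UA2) : St_K1 := by
  intro A _ m J
  obtain ⟨k1, k2, k3, k4, k5, k6, k7, k8⟩ := h0 A
  refine ⟨fun n g E F => ⟨K1_LR g E F, KA1_adj (gE A n g) E F⟩,
    fun n g E h => KA1_TV1 (gE A n g) m J E h,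
    fun n g l h => (KA1_TT (gE A n g) m J l).2 h, ?_, ?_⟩
  · intro n E F h
    funext k
    ext v
    have h1 : ∀ G : Lat A (Vn A n), v ∈ G k ↔
        (Fin.snoc v 0 : Fin (n + 1) → A[X]) ∈ sL G k := by
      intro G
      rw [K1_mem_sL]
      have e1 : (fun i : Fin n => (Fin.snoc v 0 : Fin (n + 1) → A[X]) i.castSucc) = v := by
        funext i
        exact Fin.snoc_castSucc (α := fun _ => A[X]) _ _ i
      have e2 : (Fin.snoc v 0 : Fin (n + 1) → A[X]) (Fin.last n) = 0 :=
        Fin.snoc_last (α := fun _ => A[X]) _ _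
      rw [e1, e2]
      exact ⟨fun h => ⟨h, Submodule.zero_mem _⟩, fun h => h.1⟩
    rw [h1 E, h1 F, h]
  · intro n g g' hg x
    obtain ⟨u1, u2, u3, u4, u5, u6, u7⟩ := h2 A[X] n (n + 1) (Nat.le_succ n)
    obtain ⟨g'', hg1, hg2⟩ := u3 g
    have hgg : g'' = g' := Units.ext (hg1.trans hg.symm)
    subst hgg
    funext k
    ext v
    rw [k2, k4, k4, k2, hg2, K1_last, Matrix.mulVec_mulVec, Matrix.mulVec_mulVec,
      (u5 (g⁻¹).1).2]

end Pool.Agent.SLZ
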