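import Pool.Agent.SLZ.StK

/-!
# SLZ, module K2: permutation matrices and lattices
-/

set_option autoImplicit false
set_option linter.unusedVariables false

noncomputable section

namespace Pool.Agent.SLZ

open Polynomial

section

variable {R : Type} [CommRing R]

theorem K2_cblk (n N a : ℕ) (v : Fin N → R) (j : Fin n) (h : a + j.val < N) :
    (cblk R n N a).mulVec v j = v ⟨a + j.val, h⟩ := by
  rw [Matrix.mulVec, dotProduct, Finset.sum_eq_single (⟨a + j.val, h⟩ : Fin N)]
  · show (if a + j.val = a + j.val then (1 : R) else 0) * _ = _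
    rw [if_pos rfl, one_mul]
  · intro i _ hi
    show (if i.val = a + j.val then (1 : R) else 0) * _ = 0
    rw [if_neg, zero_mul]
    intro h'
    exact hi (Fin.ext h')
  · intro h'
    exact absurd (Finset.mem_univ _) h'

theorem K2_perm {N : ℕ} (σ : Equiv.Perm (Fin N)) (M : Matrix (Fin N) (Fin N) R)
    (hM : ∀ i j, M i j = if σ i = j then 1 else 0) (v : Fin N → R) (i : Fin N) :
    M.mulVec v i = v (σ i) := by
  rw [Matrix.mulVec, dotProduct, Finset.sum_eq_single (σ i)]
  · rw [hM, if_pos rfl, one_mul]
  · intro j _ hj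
    rw [hM, if_neg (fun h => hj h.symm), zero_mul]
  · intro h'
    exact absurd (Finset.mem_univ _) h'

/-- the swap of two blocks -/
def K2_f (n : ℕ) (i : ℕ) : ℕ := if i < n then i + n else if i < 2 * n then i - n else i

theorem K2_ff (n i : ℕ) : K2_f n (K2_f n i) = i := by
  unfold K2_f
  split_ifs <;> omega

theorem K2_lt {n N i : ℕ} (h : 2 * n ≤ N) (hi : i < N) : K2_f n i < N := by
  unfold K2_f
  split_ifs <;> omega

/-- the swap of two blocks -/
def K2_s (n N : ℕ) (h : 2 * n ≤ N) : Equiv.Perm (Fin N) where
  toFun i := ⟨K2_f n i.val, K2_lt h i.2⟩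
  invFun i := ⟨K2_f n i.val, K2_lt h i.2⟩
  left_inv i := Fin.ext (K2_ff n i.val)
  right_inv i := Fin.ext (K2_ff n i.val)

theorem K2_ss (n N : ℕ) (h : 2 * n ≤ N) (i : Fin N) : K2_s n N h (K2_s n N h i) = i :=
  Fin.ext (K2_ff n i.val)

variable (R)

/-- the matrix of the swap -/
def K2_M (n N : ℕ) (h : 2 * n ≤ N) : Matrix (Fin N) (Fin N) R := fun i j =>
  if K2_s n N h i = j then 1 else 0

theorem K2_mul (n N : ℕ) (h : 2 * n ≤ N) {m : ℕ} (B : Matrix (Fin N) (Fin m) R) (i : Fin N)
    (j : Fin m) : (K2_M R n N h * B) i j = B (K2_s n N h i) j := by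
  rw [Matrix.mul_apply]
  exact K2_perm (K2_s n N h) (K2_M R n N h) (fun _ _ => rfl) (fun k => B k j) i

theorem K2_MM (n N : ℕ) (h : 2 * n ≤ N) : K2_M R n N h * K2_M R n N h = 1 := by
  ext i j
  rw [K2_mul, Matrix.one_apply]
  show (if K2_s n N h (K2_s n N h i) = j then (1 : R) else 0) = _
  rw [K2_ss]

/-- the swap as an invertible matrix -/
def K2_w (n N : ℕ) (h : 2 * n ≤ N) : GLn R N :=
  ⟨K2_M R n N h, K2_M R n N h, K2_MM R n N h, K2_MM R n N h⟩

end

theorem thm_K2 (h0 : St_K0) : St_K2 := by
  intro A _
  obtain ⟨hsS, -, hdS, hgL, hOn, -⟩ := h0 A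
  refine ⟨?_, ?_⟩
  · intro n N h σ hσ g hg x
    funext k
    ext v
    rw [hgL, hsS, hsS]
    have hu : ∀ i, ((g⁻¹).1.mulVec v) (σ i) = v i := by
      intro i
      rw [← K2_perm σ g.1 hg ((g⁻¹).1.mulVec v) i, Matrix.mulVec_mulVec, ← Units.val_mul, mul_inv_cancel, Units.val_one,
        Matrix.one_mulVec]
    set u := (g⁻¹).1.mulVec v with hudef
    have h1 : (cblk A[X] n N 0).mulVec u = (cblk A[X] n N 0).mulVec v := by
      funext j
      have hj : 0 + j.val < N := by omega
      rw [K2_cblk n N 0 u j hj, K2_cblk n N 0 v j hj, ← hu, hσ]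
      show 0 + j.val < n
      omega
    rw [h1]
    refine and_congr_right fun _ => ⟨?_, ?_⟩
    · intro h2 i hi
      rw [← hu i]
      refine h2 (σ i) ?_
      by_contra hc
      have h3 := hσ (σ i) (not_le.1 hc)
      have h4 := σ.injective h3
      rw [h4] at hc
      exact hc hi
    · intro h2 i hi
      have h3 := hu (σ.symm i)
      rw [Equiv.apply_symm_apply] at h3
      rw [h3]
      refine h2 _ ?_
      by_contra hc
      have h4 := hσ (σ.symm i) (not_le.1 hc)
      rw [Equiv.apply_symm_apply] at h4
      rw [← h4] at hc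
      exact hc hi
  · intro n N h hN
    refine ⟨K2_w A[X] n N hN, ?_, ?_, ?_⟩
    · refine Matrix.ext fun i j => ?_
      rw [show (K2_w A[X] n N hN).1 = K2_M A[X] n N hN from rfl, K2_mul]
      have e : K2_f n i.val = 0 + j.val ↔ i.val = n + j.val := by
        have hj := j.2
        unfold K2_f
        split_ifs <;> omega
      show (if K2_f n i.val = 0 + j.val then (1 : A[X]) else 0) =
        if i.val = n + j.val then (1 : A[X]) else 0
      simp only [e]
    · refine Matrix.ext fun j i => ?_
      rw [Matrix.mul_apply]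
      have hj : 0 + j.val < N := by omega
      rw [show (∑ k, cblk A[X] n N 0 j k * ((K2_w A[X] n N hN)⁻¹).1 k i) =
        (cblk A[X] n N 0).mulVec (fun k => K2_M A[X] n N hN k i) j from rfl, K2_cblk n N 0 _ j hj]
      have e : (K2_s n N hN ⟨0 + j.val, hj⟩ = i) ↔ i.val = n + j.val := by
        rw [Fin.ext_iff]
        show K2_f n (0 + j.val) = i.val ↔ _
        have hj := j.2
        unfold K2_f
        split_ifs <;> omega
      show (if K2_s n N hN ⟨0 + j.val, hj⟩ = i then (1 : A[X]) else 0) =
        if i.val = n + j.val then (1 : A[X]) else 0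
      simp only [e]
    · intro E
      funext k
      ext v
      rw [hgL, hsS, hdS, hOn]
      have hu : ∀ i, ((K2_w A[X] n N hN)⁻¹).1.mulVec v i = v (K2_s n N hN i) := fun i =>
        K2_perm (K2_s n N hN) (K2_M A[X] n N hN) (fun _ _ => rfl) v i
      set u := ((K2_w A[X] n N hN)⁻¹).1.mulVec v with hudef
      have h1 : (cblk A[X] n N 0).mulVec u = (cblk A[X] n N n).mulVec v := by
        funext j
        have hj : 0 + j.val < N := by omega
        have hj' : n + j.val < N := by omega
        rw [K2_cblk n N 0 u j hj, K2_cblk n N n v j hj', hu]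
        congr 1
        rw [Fin.ext_iff]
        show K2_f n (0 + j.val) = n + j.val
        have hj := j.2
        unfold K2_f
        split_ifs <;> omega
      rw [h1]
      constructor
      · rintro ⟨h2, h3⟩
        refine ⟨?_, h2, ?_⟩
        · intro i
          have hi := i.2
          rw [K2_cblk n N 0 v i (by omega)]
          have h4 := h3 ⟨n + i.val, by omega⟩ (by simp)
          rw [hu] at h4
          have e : K2_s n N hN ⟨n + i.val, by omega⟩ = ⟨0 + i.val, by omega⟩ := by
            rw [Fin.ext_iff]
            show K2_f n (n + i.val) = 0 + i.val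
            unfold K2_f
            split_ifs <;> omega
          rw [e] at h4
          exact h4
        · intro i hi
          have h4 := h3 i (by omega)
          rw [hu] at h4
          have e : K2_s n N hN i = i := by
            rw [Fin.ext_iff]
            show K2_f n i.val = i.val
            unfold K2_f
            split_ifs <;> omega
          rw [e] at h4
          exact h4
      · rintro ⟨h2, h3, h4⟩
        refine ⟨h3, ?_⟩
        intro i hi
        rw [hu]
        by_cases hi2 : i.val < 2 * n
        · have h5 := h2 ⟨i.val - n, by omega⟩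
          rw [K2_cblk n N 0 v _ (by show 0 + (i.val - n) < N; omega)] at h5
          have e : K2_s n N hN i = ⟨0 + (i.val - n), by omega⟩ := by
            rw [Fin.ext_iff]
            show K2_f n i.val = 0 + (i.val - n)
            unfold K2_f
            split_ifs <;> omega
          rw [e]
          exact h5
        · have e : K2_s n N hN i = i := by
            rw [Fin.ext_iff]
            show K2_f n i.val = i.val
            unfold K2_f
            split_ifs <;> omega
          rw [e]
          exact h4 i (by omega)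

end Pool.Agent.SLZ
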