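import Pool.Agent.SLZ.StK
import Pool.Agent.SLZ.KA1

set_option autoImplicit false
set_option linter.unusedVariables false

/-! # SLZ K3: direct sums in the complexes T -/

noncomputable section

namespace Pool.Agent.SLZ

open Polynomial

section

variable {A : Type} [CommRing A] {V : Type} [AddCommGroup V] [Module A V] [Module A[X] V]
  [IsScalarTower A A[X] V]

theorem K3_degL_mono {j k : ℤ} (h : j ≤ k) : degL A j ≤ degL A k := by
  intro p hp n hn
  exact hp n (by linarith)

/-- sums of admissible pairs -/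
theorem K3_LR {n k : ℕ} (N : ℕ) (E F : Lat A (Vn A n)) (E' F' : Lat A (Vn A k)) (h : LR E F)
    (h' : LR E' F') : LR (dS N E E') (dS N F F') := by
  constructor
  · intro j
    refine inf_le_inf (inf_le_inf ?_ ?_) le_rfl
    · exact Submodule.comap_mono (h.1 j)
    · exact Submodule.comap_mono (h'.1 j)
  · intro j
    refine inf_le_inf (inf_le_inf ?_ ?_) (iInf_mono fun i => ?_)
    · exact Submodule.comap_mono (h.2 j)
    · exact Submodule.comap_mono (h'.2 j)
    · exact Submodule.comap_mono (K3_degL_mono (by linarith))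

theorem K3_mem_OL {ι : Type} (b : Module.Basis ι A[X] V) (w : ι → ℤ) (k : ℤ) (v : V) :
    v ∈ OL b w k ↔ ∀ i, b.repr v i ∈ degL A (k + w i) := Iff.rfl

theorem K3_OL_reindex {ι κ : Type} (b : Module.Basis ι A[X] V) (e : ι ≃ κ) (w : κ → ℤ) :
    OL (b.reindex e) w = OL b (fun i => w (e i)) := by
  funext k
  ext v
  rw [K3_mem_OL, K3_mem_OL]
  constructor
  · intro h i
    have := h (e i)
    rw [Module.Basis.repr_reindex_apply, Equiv.symm_apply_apply] at this
    exact this
  · intro h i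
    have := h (e.symm i)
    rw [Equiv.apply_symm_apply] at this
    rw [Module.Basis.repr_reindex_apply]
    exact this

/-- a numbering in which the elements with a property come first -/
theorem K3_equiv {ι : Type} [Fintype ι] (P : ι → Prop) [DecidablePred P] (d : ℕ)
    (hd : Fintype.card {i // P i} = d) :
    d ≤ Fintype.card ι ∧ ∃ e : ι ≃ Fin (Fintype.card ι), ∀ i, P i ↔ (e i).val < d := by
  subst hd
  have hc : Fintype.card {i // P i} + Fintype.card {i // ¬ P i} = Fintype.card ι := by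
    rw [← Fintype.card_sum]
    exact Fintype.card_congr (Equiv.sumCompl P)
  refine ⟨Fintype.card_subtype_le _, ?_⟩
  let e1 : {i // P i} ≃ Fin (Fintype.card {i // P i}) := Fintype.equivFin _
  let e2 : {i // ¬ P i} ≃ Fin (Fintype.card {i // ¬ P i}) := Fintype.equivFin _
  refine ⟨((Equiv.sumCompl P).symm.trans ((Equiv.sumCongr e1 e2).trans finSumFinEquiv)).trans
    (finCongr hc), fun i => ?_⟩
  by_cases hi : P i
  · simp [Equiv.sumCompl_symm_apply_of_pos hi, hi]
  · simp [Equiv.sumCompl_symm_apply_of_neg hi, hi]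

/-- the criterion for `TV` with an arbitrary index type -/
theorem K3_TV_of {ι : Type} [Fintype ι] (b : Module.Basis ι A[X] V) (P : ι → Prop)
    [DecidablePred P] (m J d : ℕ) (hd : Fintype.card {i // P i} = d) (hm : m ∣ d)
    (hJ : d ≤ m * J) : OL b (fun i => if P i then 1 else 0) ∈ TV A V m J := by
  obtain ⟨h1, e, he⟩ := K3_equiv P d hd
  refine ⟨Fintype.card ι, d, b.reindex e, h1, hm, hJ, ?_⟩
  rw [K3_OL_reindex]
  congr 1
  funext i
  by_cases hi : P i
  · rw [if_pos hi, if_pos ((he i).1 hi)]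
  · rw [if_neg hi, if_neg (fun h => hi ((he i).2 h))]

theorem K3_card_lt (n d : ℕ) (h : d ≤ n) : Fintype.card {i : Fin n // i.val < d} = d := by
  rw [Fintype.card_subtype, Fin.card_filter_val_lt, min_eq_right h]

theorem K3_sum_lt (n d : ℕ) (h : d ≤ n) : (∑ i : Fin n, if i.val < d then 1 else 0) = d := by
  rw [← Finset.card_filter, Fin.card_filter_val_lt, min_eq_right h]

/-- the property of being one of the first indices in one of the blocks -/
def K3_P (n k r d d' : ℕ) : (Fin n ⊕ Fin k) ⊕ Fin r → Prop :=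
  Sum.elim (Sum.elim (fun i => i.val < d) (fun i => i.val < d')) (fun _ => False)

instance K3_dec (n k r d d' : ℕ) : DecidablePred (K3_P n k r d d') := fun i =>
  match i with
  | Sum.inl (Sum.inl i) => Nat.decLt i.val d
  | Sum.inl (Sum.inr i) => Nat.decLt i.val d'
  | Sum.inr _ => instDecidableFalse

theorem K3_P_card (n k r d d' : ℕ) (h : d ≤ n) (h' : d' ≤ k) :
    Fintype.card {i // K3_P n k r d d' i} = d + d' := by
  rw [Fintype.card_subtype, Finset.card_filter, Fintype.sum_sum_type, Fintype.sum_sum_type]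
  have h1 : (∑ i : Fin n, if K3_P n k r d d' (Sum.inl (Sum.inl i)) then 1 else 0) = d :=
    K3_sum_lt n d h
  have h2 : (∑ i : Fin k, if K3_P n k r d d' (Sum.inl (Sum.inr i)) then 1 else 0) = d' :=
    K3_sum_lt k d' h'
  have h3 : (∑ i : Fin r, if K3_P n k r d d' (Sum.inr i) then 1 else 0) = 0 := by
    refine Finset.sum_eq_zero fun i _ => ?_
    exact if_neg fun h => h
  rw [h1, h2, h3, add_zero]

/-- the numbering of the coordinates of a direct sum -/
def K3_e (n k r : ℕ) : (Fin n ⊕ Fin k) ⊕ Fin r ≃ Fin (n + k + r) :=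
  (Equiv.sumCongr finSumFinEquiv (Equiv.refl _)).trans finSumFinEquiv

theorem K3_e1 (n k r : ℕ) (i : Fin n) : (K3_e n k r (Sum.inl (Sum.inl i))).val = i.val := by
  simp [K3_e]

theorem K3_e2 (n k r : ℕ) (i : Fin k) : (K3_e n k r (Sum.inl (Sum.inr i))).val = n + i.val := by
  simp [K3_e]

theorem K3_e3 (n k r : ℕ) (i : Fin r) : (K3_e n k r (Sum.inr i)).val = n + k + i.val := by
  simp [K3_e]

/-- the decomposition of the coordinates -/
def K3_Phi (R : Type) [CommRing R] (n k r : ℕ) :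
    (Fin (n + k + r) → R) ≃ₗ[R] ((Fin n → R) × (Fin k → R)) × (Fin r → R) :=
  (LinearEquiv.funCongrLeft R R (K3_e n k r)) ≪≫ₗ
    (LinearEquiv.sumArrowLequivProdArrow _ _ R R) ≪≫ₗ
    (LinearEquiv.prodCongr (LinearEquiv.sumArrowLequivProdArrow _ _ R R) (LinearEquiv.refl R _))

theorem K3_Phi1 (R : Type) [CommRing R] (n k r : ℕ) (v : Fin (n + k + r) → R) :
    (K3_Phi R n k r v).1.1 = fun i => v (K3_e n k r (Sum.inl (Sum.inl i))) := rfl

theorem K3_Phi2 (R : Type) [CommRing R] (n k r : ℕ) (v : Fin (n + k + r) → R) :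
    (K3_Phi R n k r v).1.2 = fun i => v (K3_e n k r (Sum.inl (Sum.inr i))) := rfl

theorem K3_Phi3 (R : Type) [CommRing R] (n k r : ℕ) (v : Fin (n + k + r) → R) :
    (K3_Phi R n k r v).2 = fun i => v (K3_e n k r (Sum.inr i)) := rfl

theorem K3_cblk (R : Type) [CommRing R] (n N a : ℕ) (v : Fin N → R) (j : Fin n) (i : Fin N)
    (h : i.val = a + j.val) : (cblk R n N a).mulVec v j = v i := by
  unfold Matrix.mulVec dotProduct
  rw [Finset.sum_eq_single i]
  · have : cblk R n N a j i = 1 := if_pos h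
    change cblk R n N a j i * v i = v i
    rw [this, one_mul]
  · intro i' _ hi'
    have : cblk R n N a j i' = 0 := if_neg fun h' => hi' (Fin.ext (h'.trans h.symm))
    change cblk R n N a j i' * v i' = 0
    rw [this, zero_mul]
  · intro h'
    exact absurd (Finset.mem_univ i) h'

theorem K3_dS_eq (n k r : ℕ) {n₁ k₁ : ℕ} (d d' : ℕ) (b : Module.Basis (Fin n₁) A[X] (Vn A n))
    (b' : Module.Basis (Fin k₁) A[X] (Vn A k)) :
    dS (n + k + r) (OL b fun i => if i.val < d then 1 else 0)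
      (OL b' fun i => if i.val < d' then 1 else 0) =
    OL (((b.prod b').prod (Pi.basisFun A[X] (Fin r))).map (K3_Phi A[X] n k r).symm)
      (fun i => if K3_P n₁ k₁ r d d' i then 1 else 0) := by
  funext j
  ext v
  have e1 : (cblk A[X] n (n + k + r) 0).mulVec v = (K3_Phi A[X] n k r v).1.1 := by
    funext i
    rw [K3_Phi1]
    exact K3_cblk _ _ _ _ _ _ _ (by rw [K3_e1, zero_add])
  have e2 : (cblk A[X] k (n + k + r) n).mulVec v = (K3_Phi A[X] n k r v).1.2 := by
    funext i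
    rw [K3_Phi2]
    exact K3_cblk _ _ _ _ _ _ _ (by rw [K3_e2])
  have hL : v ∈ dS (n + k + r) (OL b fun i => if i.val < d then 1 else 0)
      (OL b' fun i => if i.val < d' then 1 else 0) j ↔
      ((cblk A[X] n (n + k + r) 0).mulVec v ∈ (OL b fun i => if i.val < d then 1 else 0) j ∧
        (cblk A[X] k (n + k + r) n).mulVec v ∈ (OL b' fun i => if i.val < d' then 1 else 0) j) ∧
      ∀ i : {i : Fin (n + k + r) // n + k ≤ i.val}, v i.1 ∈ degL A j := by
    unfold dS
    rw [Submodule.mem_inf, Submodule.mem_inf, Submodule.mem_iInf]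
    rfl
  rw [hL, e1, e2, K3_mem_OL, K3_mem_OL, K3_mem_OL, Sum.forall, Sum.forall]
  refine and_congr (and_congr Iff.rfl Iff.rfl) ?_
  have h3 : ∀ i : Fin r, (((b.prod b').prod (Pi.basisFun A[X] (Fin r))).map
      (K3_Phi A[X] n k r).symm).repr v (Sum.inr i) = v (K3_e n k r (Sum.inr i)) := by
    intro i
    rfl
  constructor
  · intro h i
    rw [h3]
    have h4 : (if K3_P n₁ k₁ r d d' (Sum.inr i) then (1 : ℤ) else 0) = 0 := if_neg fun h => h
    rw [h4, add_zero]
    exact h ⟨_, by rw [K3_e3]; omega⟩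
  · rintro h ⟨i, hi⟩
    have h5 := h ⟨i.val - (n + k), by omega⟩
    rw [h3] at h5
    have h4 : (if K3_P n₁ k₁ r d d' (Sum.inr ⟨i.val - (n + k), by omega⟩) then (1 : ℤ) else 0)
        = 0 := if_neg fun h => h
    rw [h4, add_zero] at h5
    have h6 : K3_e n k r (Sum.inr ⟨i.val - (n + k), by omega⟩) = i := by
      apply Fin.ext
      rw [K3_e3]
      simp only
      omega
    rw [h6] at h5
    exact h5

theorem K3_dS_TV (m n k N J J' : ℕ) (E : Lat A (Vn A n)) (E' : Lat A (Vn A k)) (h : n + k ≤ N)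
    (hE : E ∈ TV A (Vn A n) m J) (hE' : E' ∈ TV A (Vn A k) m J') :
    dS N E E' ∈ TV A (Vn A N) m (J + J') := by
  obtain ⟨r, rfl⟩ := Nat.exists_eq_add_of_le h
  obtain ⟨n₁, d, b, h1, h2, h3, rfl⟩ := hE
  obtain ⟨k₁, d', b', h1', h2', h3', rfl⟩ := hE'
  rw [K3_dS_eq]
  exact K3_TV_of _ _ m (J + J') (d + d') (K3_P_card n₁ k₁ r d d' h1 h1') (dvd_add h2 h2')
    (by rw [mul_add]; omega)

end

theorem K3_bot {A : Type} [CommRing A] {V : Type} [AddCommGroup V] [Module A V]
    [Module A[X] V] [IsScalarTower A A[X] V] (l : List (Lat A V)) (hl : l ≠ [])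
    (h : ∀ x ∈ l, ∀ y ∈ l, adjL x y) : ∃ t ∈ l, ∀ x ∈ l, LR t x := by
  have h1 : ∃ t ∈ l, ∀ x ∈ l, t ≤ x := by
    obtain ⟨a, ha⟩ := List.exists_mem_of_ne_nil l hl
    obtain ⟨t, _, ht⟩ := (List.finite_toSet l).exists_le_minimal (a := a) ha
    refine ⟨t, ht.1, fun x hx => ?_⟩
    rcases h t ht.1 x hx with h3 | h3
    · exact h3.1
    · exact ht.2 hx h3.1
  obtain ⟨t, ht, h2⟩ := h1
  refine ⟨t, ht, fun x hx => ?_⟩
  rcases h t ht x hx with h3 | h3
  · exact h3
  · have h4 : x = t := le_antisymm h3.1 (h2 x hx)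
    subst h4
    exact h3

theorem thm_K3 (h0 : St_K0) : St_K3 := by
  intro A _ m
  obtain ⟨k1, k2, k3, k4, k5, k6, k7, k8⟩ := h0 A
  have hOn : ∀ n J : ℕ, On A n ∈ TV A (Vn A n) m J := by
    intro n J
    refine ⟨n, 0, Pi.basisFun A[X] (Fin n), Nat.zero_le _, dvd_zero _, Nat.zero_le _, ?_⟩
    unfold On
    congr 1
  have hrefl : ∀ n J : ℕ, ∀ E ∈ TV A (Vn A n) m J, LR E E := by
    rintro n J _ ⟨n₁, d, b, h1, h2, h3, rfl⟩
    refine ⟨le_rfl, fun k v hv i j hj => hv i j ?_⟩
    linarith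
  refine ⟨fun n k N E F E' F' h h' => K3_LR N E F E' F' h h',
    fun n k N J J' E E' h hE hE' => K3_dS_TV m n k N J J' E E' h hE hE',
    fun n J => ⟨hOn n J, hrefl n J⟩, ?_, ?_, ?_⟩
  · intro n J l hl hne
    exact K3_bot l hne fun x hx y hy => (hl x hx).2 y hy
  · rintro V _ _ _ _ J J' hJ _ ⟨n₁, d, b, h1, h2, h3, rfl⟩
    exact ⟨n₁, d, b, h1, h2, h3.trans (Nat.mul_le_mul_left m hJ), rfl⟩
  · intro n J l hl
    have hs : ∀ E : Lat A (Vn A n), sL E = dS (n + 1) E (On A 1) := by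
      intro E
      rw [k6 n 1 (n + 1) (Nat.le_succ n) E le_rfl]
      exact (Nat.leRecOn_succ' (C := fun n => Lat A (Vn A n)) E).symm
    intro x hx
    obtain ⟨E, hE, rfl⟩ := List.mem_map.1 hx
    refine ⟨?_, fun y hy => ?_⟩
    · rw [hs]
      exact K3_dS_TV m n 1 (n + 1) J 0 E (On A 1) le_rfl (hl E hE).1 (hOn 1 0)
    · obtain ⟨F, hF, rfl⟩ := List.mem_map.1 hy
      rw [hs, hs]
      have h1 := hrefl 1 0 _ (hOn 1 0)
      exact ((hl E hE).2 F hF).imp (fun h => K3_LR _ _ _ _ _ h h1) (fun h => K3_LR _ _ _ _ _ h h1)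

end Pool.Agent.SLZ
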