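import Pool.Agent.SLZ.StK
import Pool.Agent.SLZ.MA

/-!
# SLZ KB: boundaries in higher degree
-/

set_option autoImplicit false

namespace Pool.Agent.SLZ

open Polynomial

theorem KB_mono {V : Type} {s t : Set (List V)} (h : s ⊆ t) (j : ℕ) : Ch s j ≤ Ch t j :=
  Finsupp.supported_mono fun _ hl => ⟨h hl.1, hl.2⟩

theorem KB_fl {V : Type} (r : V → V → Prop) {S T : Set V} (h : S ⊆ T) : (Fl r S).s ⊆ (Fl r T).s :=
  fun _ hl x hx => ⟨h (hl x hx).1, (hl x hx).2⟩

theorem thm_KB (h3 : St_K3) : St_KB := by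
  intro A _ m hP V _ _ _ _ _ _ J J' j hj hJ z hz
  induction J', hJ using Nat.le_induction with
  | base => exact id
  | succ J' hJJ ih =>
    intro hb
    apply ih
    obtain ⟨c, hc, hcz⟩ := hb
    have hz' : z ∈ Ch (TT A V m J').s j :=
      KB_mono (KB_fl _ ((h3 A m).2.2.2.2.1 V J J' hJJ)) j hz
    have hbc : bd c ∈ Ch (TT A V m J').s j := by
      rw [hcz]
      exact hz'
    obtain ⟨c', hc', e, _, hce⟩ := hP V J' j (lt_of_lt_of_le hj hJJ) c hc hbc
    refine ⟨c', hc', ?_⟩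
    rw [← hcz, hce, map_add, (thm_MA _).1 e, add_zero]

end Pool.Agent.SLZ
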