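import Pool.Agent.SLZ.StK

/-!
# SLZ, module KC1: elementary matrices and stabilizers of the standard vertices (helper64)

`e_ij(c)` is in the stabilizer of `O^N`, `e_ij(c X)` with `i < m ≤ j` in the stabilizer of
`O(1)^m ⊕ O^(N - m)`; the commutator formula gives all elementary matrices.
-/

set_option autoImplicit false
set_option linter.unusedVariables false

noncomputable section

namespace Pool.Agent.SLZ

open Polynomial

section units

variable {R : Type} [CommRing R] {N : ℕ}

/-- the elementary matrix `e_ij(a)` as a unit -/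
def KC1_e (i j : Fin N) (h : i ≠ j) (a : R) : (Matrix (Fin N) (Fin N) R)ˣ where
  val := Matrix.transvection i j a
  inv := Matrix.transvection i j (-a)
  val_inv := by
    rw [Matrix.transvection_mul_transvection_same _ _ h, add_neg_cancel, Matrix.transvection_zero]
  inv_val := by
    rw [Matrix.transvection_mul_transvection_same _ _ h, neg_add_cancel, Matrix.transvection_zero]

theorem KC1_e_inv (i j : Fin N) (h : i ≠ j) (a : R) :
    (KC1_e i j h a)⁻¹ = KC1_e i j h (-a) := by
  apply Units.ext
  rfl

theorem KC1_e_add (i j : Fin N) (h : i ≠ j) (a b : R) :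
    KC1_e i j h (a + b) = KC1_e i j h a * KC1_e i j h b := by
  apply Units.ext
  rw [Units.val_mul]
  exact (Matrix.transvection_mul_transvection_same _ _ h a b).symm

theorem KC1_comm (i k j : Fin N) (hik : i ≠ k) (hkj : k ≠ j) (hij : i ≠ j) (a b : R) :
    KC1_e i k hik a * KC1_e k j hkj b * (KC1_e i k hik a)⁻¹ * (KC1_e k j hkj b)⁻¹ =
      KC1_e i j hij (a * b) := by
  rw [KC1_e_inv, KC1_e_inv]
  apply Units.ext
  rw [Units.val_mul, Units.val_mul, Units.val_mul]
  change Matrix.transvection i k a * Matrix.transvection k j b * Matrix.transvection i k (-a) *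
    Matrix.transvection k j (-b) = Matrix.transvection i j (a * b)
  have hFF : ∀ x y : R, Matrix.single i k x * Matrix.single i k y = 0 := fun x y =>
    Matrix.single_mul_single_of_ne _ _ _ _ hik.symm _
  have hGG : ∀ x y : R, Matrix.single k j x * Matrix.single k j y = 0 := fun x y =>
    Matrix.single_mul_single_of_ne _ _ _ _ hkj.symm _
  have hGF : ∀ x y : R, Matrix.single k j x * Matrix.single i k y = 0 := fun x y =>
    Matrix.single_mul_single_of_ne _ _ _ _ hij.symm _
  have hFG : ∀ x y : R, Matrix.single i k x * Matrix.single k j y = Matrix.single i j (x * y) :=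
    fun x y => Matrix.single_mul_single_same _ _ _ _ _
  have hHF : ∀ x y : R, Matrix.single i j x * Matrix.single i k y = 0 := fun x y =>
    Matrix.single_mul_single_of_ne _ _ _ _ hij.symm _
  have hHG : ∀ x y : R, Matrix.single i j x * Matrix.single k j y = 0 := fun x y =>
    Matrix.single_mul_single_of_ne _ _ _ _ hkj.symm _
  simp only [Matrix.transvection, mul_add, add_mul, one_mul, mul_one, hFF, hGG, hGF, hFG, hHF,
    hHG, add_zero]
  have h1 : Matrix.single i k (-a) = -Matrix.single i k a := by
    rw [← Matrix.single_neg]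
  have h2 : Matrix.single k j (-b) = -Matrix.single k j b := by
    rw [← Matrix.single_neg]
  have h3 : Matrix.single i j (a * -b) = -Matrix.single i j (a * b) := by
    rw [mul_neg, Matrix.single_neg]
  have h4 : Matrix.single i j (-a * -b) = Matrix.single i j (a * b) := by
    rw [neg_mul_neg]
  simp only [h1, h2, h3, h4]
  abel

end units

theorem KC1_mem (A : Type) [CommRing A] (N : ℕ) (w : Fin N → ℤ) (k : ℤ) (v : Vn A N) :
    v ∈ OL (Pi.basisFun A[X] (Fin N)) w k ↔
      ∀ (i : Fin N) (n : ℕ), k + w i < n → (v i).coeff n = 0 := by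
  constructor
  · intro h i n hn
    have := h i n hn
    rwa [Pi.basisFun_repr] at this
  · intro h i n hn
    have := h i n hn
    rwa [Pi.basisFun_repr]

theorem KC1_mulVec {R : Type} [CommRing R] {N : ℕ} (i j : Fin N) (a : R) (v : Fin N → R)
    (l : Fin N) : (Matrix.transvection i j a).mulVec v l = v l + if l = i then a * v j else 0 := by
  rw [Matrix.transvection, Matrix.add_mulVec, Matrix.one_mulVec, Pi.add_apply]
  congr 1
  rw [Matrix.mulVec, dotProduct]
  by_cases h : l = i
  · subst h
    rw [if_pos rfl, Finset.sum_eq_single j]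
    · rw [Matrix.single_apply_same]
    · intro b _ hb
      rw [Matrix.single_apply_of_ne _ _ _ _ _ (fun hh => hb hh.2.symm), zero_mul]
    · intro hj
      exact absurd (Finset.mem_univ j) hj
  · rw [if_neg h]
    apply Finset.sum_eq_zero
    intro b _
    rw [Matrix.single_apply_of_ne _ _ _ _ _ (fun hh => h hh.1.symm), zero_mul]

theorem KC1_pres (A : Type) [CommRing A] (N : ℕ) (w : Fin N → ℤ) (i j : Fin N) (a : A[X])
    (ha : ∀ n : ℕ, w i - w j < n → a.coeff n = 0) (k : ℤ) (v : Vn A N)
    (hv : v ∈ OL (Pi.basisFun A[X] (Fin N)) w k) :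
    (Matrix.transvection i j a).mulVec v ∈ OL (Pi.basisFun A[X] (Fin N)) w k := by
  rw [KC1_mem] at hv ⊢
  intro l n hn
  rw [KC1_mulVec, coeff_add, hv l n hn, zero_add]
  by_cases hl : l = i
  · subst hl
    rw [if_pos rfl, coeff_mul]
    apply Finset.sum_eq_zero
    rintro ⟨p, q⟩ hpq
    have hpq' : p + q = n := Finset.HasAntidiagonal.mem_antidiagonal.1 hpq
    by_cases hp : w l - w j < p
    · change a.coeff p * (v j).coeff q = 0
      rw [ha p hp, zero_mul]
    · change a.coeff p * (v j).coeff q = 0
      rw [hv j q ?_, mul_zero]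
      have : (p : ℤ) + q = n := by exact_mod_cast hpq'
      omega
  · rw [if_neg hl, coeff_zero]

theorem KC1_fix (h0 : St_K0) (A : Type) [CommRing A] (N : ℕ) (w : Fin N → ℤ) (i j : Fin N)
    (h : i ≠ j) (a : A[X]) (ha : ∀ n : ℕ, w i - w j < n → a.coeff n = 0) :
    gL (KC1_e i j h a) (OL (Pi.basisFun A[X] (Fin N)) w) =
      OL (Pi.basisFun A[X] (Fin N)) w := by
  obtain ⟨-, -, -, h4, -⟩ := h0 A
  funext k
  ext v
  rw [h4, KC1_e_inv]
  have hna : ∀ n : ℕ, w i - w j < n → (-a).coeff n = 0 := by
    intro n hn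
    rw [coeff_neg, ha n hn, neg_zero]
  constructor
  · intro hv
    have h1 := KC1_pres A N w i j a ha k _ hv
    have h2 : (Matrix.transvection i j a).mulVec ((KC1_e i j h (-a)).1.mulVec v) = v := by
      rw [Matrix.mulVec_mulVec]
      change (Matrix.transvection i j a * Matrix.transvection i j (-a)).mulVec v = v
      rw [Matrix.transvection_mul_transvection_same _ _ h, add_neg_cancel,
        Matrix.transvection_zero, Matrix.one_mulVec]
    rwa [h2] at h1
  · intro hv
    exact KC1_pres A N w i j (-a) hna k v hv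

theorem KC1_all (A : Type) [CommRing A] (m N : ℕ) (hm : 1 ≤ m) (hN : m + 3 ≤ N)
    (H : Subgroup (GLn A[X] N))
    (hc : ∀ (i j : Fin N) (h : i ≠ j) (c : A), KC1_e i j h (C c) ∈ H)
    (hX : ∀ (i j : Fin N) (h : i ≠ j) (c : A), i.val < m → m ≤ j.val → KC1_e i j h (C c * X) ∈ H)
    (i j : Fin N) (h : i ≠ j) (f : A[X]) : KC1_e i j h f ∈ H := by
  have hcomm : ∀ (i k j : Fin N) (hik : i ≠ k) (hkj : k ≠ j) (hij : i ≠ j) (a b : A[X]),
      KC1_e i k hik a ∈ H → KC1_e k j hkj b ∈ H → KC1_e i j hij (a * b) ∈ H := by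
    intro i k j hik hkj hij a b ha hb
    rw [← KC1_comm i k j hik hkj hij a b]
    exact H.mul_mem (H.mul_mem (H.mul_mem ha hb) (H.inv_mem ha)) (H.inv_mem hb)
  -- the first row index
  have hrow : ∀ (i j : Fin N) (h : i ≠ j) (c : A), m ≤ j.val → KC1_e i j h (C c * X) ∈ H := by
    intro i j h c hj
    by_cases hi : i.val < m
    · exact hX i j h c hi hj
    · have h0N : 0 < N := by omega
      have hi0 : i ≠ ⟨0, h0N⟩ := by
        intro hh
        apply hi
        rw [hh]
        exact hm
      have h0j : (⟨0, h0N⟩ : Fin N) ≠ j := by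
        intro hh
        rw [← hh] at hj
        simp at hj
        omega
      have := hcomm i ⟨0, h0N⟩ j hi0 h0j h (C 1) (C c * X) (hc _ _ _ _)
        (hX _ _ h0j c (show 0 < m by omega) hj)
      rwa [C_1, one_mul] at this
  have hall : ∀ (i j : Fin N) (h : i ≠ j) (c : A), KC1_e i j h (C c * X) ∈ H := by
    intro i j h c
    obtain ⟨l, hl, hli, hlj⟩ : ∃ l : Fin N, m ≤ l.val ∧ i ≠ l ∧ l ≠ j := by
      have h1 : m < N := by omega
      have h2 : m + 1 < N := by omega
      have h3 : m + 2 < N := by omega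
      by_cases e1 : i = ⟨m, h1⟩ ∨ j = ⟨m, h1⟩
      · by_cases e2 : i = ⟨m + 1, h2⟩ ∨ j = ⟨m + 1, h2⟩
        · refine ⟨⟨m + 2, h3⟩, by simp, ?_, ?_⟩
          · intro hh
            rcases e1 with e1 | e1 <;> rcases e2 with e2 | e2 <;>
              simp [Fin.ext_iff] at * <;> omega
          · intro hh
            rcases e1 with e1 | e1 <;> rcases e2 with e2 | e2 <;>
              simp [Fin.ext_iff] at * <;> omega
        · rw [not_or] at e2
          exact ⟨⟨m + 1, h2⟩, by simp, e2.1, fun hh => e2.2 hh.symm⟩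
      · rw [not_or] at e1
        exact ⟨⟨m, h1⟩, by simp, e1.1, fun hh => e1.2 hh.symm⟩
    have := hcomm i l j hli hlj h (C c * X) (C 1) (hrow i l hli c hl) (hc _ _ _ _)
    rwa [C_1, mul_one] at this
  have hthird : ∀ i j : Fin N, ∃ l : Fin N, i ≠ l ∧ l ≠ j := by
    intro i j
    have h1 : 0 < N := by omega
    have h2 : 1 < N := by omega
    have h3 : 2 < N := by omega
    by_cases e1 : i = ⟨0, h1⟩ ∨ j = ⟨0, h1⟩
    · by_cases e2 : i = ⟨1, h2⟩ ∨ j = ⟨1, h2⟩
      · refine ⟨⟨2, h3⟩, ?_, ?_⟩
        · intro hh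
          rcases e1 with e1 | e1 <;> rcases e2 with e2 | e2 <;>
            simp [Fin.ext_iff] at * <;> omega
        · intro hh
          rcases e1 with e1 | e1 <;> rcases e2 with e2 | e2 <;>
            simp [Fin.ext_iff] at * <;> omega
      · rw [not_or] at e2
        exact ⟨⟨1, h2⟩, e2.1, fun hh => e2.2 hh.symm⟩
    · rw [not_or] at e1
      exact ⟨⟨0, h1⟩, e1.1, fun hh => e1.2 hh.symm⟩
  have hpow : ∀ (p : ℕ) (i j : Fin N) (h : i ≠ j) (c : A), KC1_e i j h (C c * X ^ p) ∈ H := by
    intro p
    induction p with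
    | zero =>
      intro i j h c
      rw [pow_zero, mul_one]
      exact hc i j h c
    | succ p ih =>
      intro i j h c
      obtain ⟨l, hl1, hl2⟩ := hthird i j
      have := hcomm i l j hl1 hl2 h (C c * X ^ p) (C 1 * X) (ih i l hl1 c) (hall l j hl2 1)
      rwa [C_1, one_mul, mul_assoc, ← pow_succ] at this
  induction f using Polynomial.induction_on' with
  | add p q hp hq =>
    rw [KC1_e_add]
    exact H.mul_mem hp hq
  | monomial n a =>
    rw [← C_mul_X_pow_eq_monomial]
    exact hpow n i j h a

theorem thm_KC1 (h0 : St_K0) : St_KC1 := by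
  intro A _ m J N hm hJ hN g hg
  set S : Set (GLn A[X] N) := {k : GLn A[X] N | ∃ t : Fin (J + 1),
    gL k (vT A m N t.val) = vT A m N t.val} with hS
  have key : ∀ (i j : Fin N) (h : i ≠ j) (f : A[X]), KC1_e i j h f ∈ Subgroup.closure S := by
    apply KC1_all A m N hm hN
    · intro i j h c
      apply Subgroup.subset_closure
      refine ⟨⟨0, by omega⟩, ?_⟩
      apply KC1_fix h0 A N _ i j h (C c)
      intro n hn
      have hn' : n ≠ 0 := by
        rintro rfl
        simp at hn
      rw [coeff_C, if_neg hn']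
    · intro i j h c hi hj
      apply Subgroup.subset_closure
      refine ⟨⟨1, by omega⟩, ?_⟩
      apply KC1_fix h0 A N _ i j h (C c * X)
      intro n hn
      have hn' : n ≠ 1 := by
        rintro rfl
        simp only [mul_one] at hn
        rw [if_pos hi, if_neg (by omega)] at hn
        simp at hn
      rw [coeff_C_mul, coeff_X, if_neg (fun hh => hn' hh.symm), mul_zero]
  have hle : El A[X] N ≤ Subgroup.closure S := by
    unfold El
    rw [Subgroup.closure_le]
    rintro x ⟨i, j, hij, a, hx⟩
    have : x = KC1_e i j hij a := by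
      apply Units.ext
      exact hx
    rw [this]
    exact key i j hij a
  exact hle hg

end Pool.Agent.SLZ
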