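import Pool.Agent.SLZ.StK

/-!
# SLZ: KC2, commutators are elementary (Whitehead)
-/

set_option autoImplicit false
set_option linter.unusedVariables false

noncomputable section

namespace Pool.Agent.SLZ

namespace KC2

variable {R : Type} [CommRing R] {N : ℕ}

/-- elementary matrices with given matrix -/
def IsEl (M : Matrix (Fin N) (Fin N) R) : Prop := ∃ e ∈ El R N, e.1 = M

theorem isEl_one : IsEl (1 : Matrix (Fin N) (Fin N) R) := ⟨1, Subgroup.one_mem _, rfl⟩

theorem isEl_mul {M M' : Matrix (Fin N) (Fin N) R} (h : IsEl M) (h' : IsEl M') :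
    IsEl (M * M') := by
  obtain ⟨e, he, rfl⟩ := h
  obtain ⟨e', he', rfl⟩ := h'
  exact ⟨e * e', Subgroup.mul_mem _ he he', rfl⟩

theorem isEl_tr (i j : Fin N) (h : i ≠ j) (a : R) : IsEl (1 + Matrix.single i j a) := by
  have h1 : Matrix.transvection i j a * Matrix.transvection i j (-a) = 1 := by
    rw [Matrix.transvection_mul_transvection_same i j h, add_neg_cancel, Matrix.transvection_zero]
  have h2 : Matrix.transvection i j (-a) * Matrix.transvection i j a = 1 := by
    rw [Matrix.transvection_mul_transvection_same i j h, neg_add_cancel, Matrix.transvection_zero]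
  exact ⟨⟨Matrix.transvection i j a, Matrix.transvection i j (-a), h1, h2⟩,
    Subgroup.subset_closure ⟨i, j, h, a, rfl⟩, rfl⟩

/-- block transvections -/
theorem isEl_block (S : Fin N → Prop) (M : Matrix (Fin N) (Fin N) R)
    (hM : ∀ i j, M i j ≠ 0 → S i ∧ ¬ S j) : IsEl (1 + M) := by
  classical
  have key : ∀ T : Finset (Fin N × Fin N), (∀ x ∈ T, S x.1 ∧ ¬ S x.2) →
      IsEl (1 + ∑ x ∈ T, Matrix.single x.1 x.2 (M x.1 x.2)) := by
    intro T
    induction T using Finset.induction_on with
    | empty =>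
      intro _
      rw [Finset.sum_empty, add_zero]
      exact isEl_one
    | insert x T hx ih =>
      intro hT
      have h1 := ih (fun y hy => hT y (Finset.mem_insert_of_mem hy))
      obtain ⟨h2, h3⟩ := hT x (Finset.mem_insert_self _ _)
      have hne : x.1 ≠ x.2 := fun h => h3 (h ▸ h2)
      have h4 := isEl_mul h1 (isEl_tr x.1 x.2 hne (M x.1 x.2))
      have h5 : (∑ y ∈ T, Matrix.single y.1 y.2 (M y.1 y.2)) *
          Matrix.single x.1 x.2 (M x.1 x.2) = 0 := by
        rw [Finset.sum_mul]
        refine Finset.sum_eq_zero fun y hy => ?_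
        have hne2 : y.2 ≠ x.1 := by
          intro h
          exact (hT y (Finset.mem_insert_of_mem hy)).2 (h.symm ▸ h2)
        exact Matrix.single_mul_single_of_ne (M y.1 y.2) y.1 y.2 x.1 hne2 (M x.1 x.2)
      rw [Finset.sum_insert hx]
      rw [mul_add, mul_one, add_mul, one_mul, h5, add_zero] at h4
      rw [add_comm (Matrix.single x.1 x.2 (M x.1 x.2)), ← add_assoc]
      exact h4
  have h1 := key (Finset.univ.filter fun x => M x.1 x.2 ≠ 0) (by
    intro x hx
    exact hM x.1 x.2 (Finset.mem_filter.1 hx).2)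
  have h2 : ∑ x ∈ Finset.univ.filter (fun x : Fin N × Fin N => M x.1 x.2 ≠ 0),
      Matrix.single x.1 x.2 (M x.1 x.2) = M := by
    rw [Finset.sum_filter_of_ne]
    · rw [← Finset.univ_product_univ, Finset.sum_product]
      exact (Matrix.matrix_eq_sum_single M).symm
    · intro x _ hx h
      apply hx
      rw [h, Matrix.single_zero]
  rwa [h2] at h1

/-- transvections with a vanishing coordinate -/
theorem isEl_vec (u v : Fin N → R) (k : Fin N) (hv : v k = 0) (huv : v ⬝ᵥ u = 0) :
    IsEl (1 + Matrix.vecMulVec u v) := by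
  classical
  set e : Fin N → R := Pi.single k 1 with he
  set u' : Fin N → R := fun i => if i = k then 0 else u i with hu'
  have huk : u' k = 0 := by
    rw [hu']
    exact if_pos rfl
  have hsum : u = u' + u k • e := by
    funext i
    rw [Pi.add_apply, Pi.smul_apply, he, hu', Pi.single_apply]
    by_cases h : i = k
    · subst h
      simp
    · simp [h]
  have hvu' : v ⬝ᵥ u' = 0 := by
    have : v ⬝ᵥ u = v ⬝ᵥ u' + u k * v k := by
      conv_lhs => rw [hsum]
      rw [dotProduct_add, dotProduct_smul, he, dotProduct_single_one, smul_eq_mul]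
    rw [huv, hv, mul_zero, add_zero] at this
    exact this.symm
  have ha : ∀ c : R, IsEl (1 + Matrix.vecMulVec (c • u') e) := by
    intro c
    refine isEl_block (fun i => i ≠ k) _ ?_
    intro i j hij
    rw [Matrix.vecMulVec_apply, he, Pi.single_apply] at hij
    refine ⟨?_, ?_⟩
    · rintro rfl
      apply hij
      rw [Pi.smul_apply, huk, smul_zero, zero_mul]
    · intro h
      apply hij
      rw [if_neg h, mul_zero]
  have hb : ∀ c : R, IsEl (1 + Matrix.vecMulVec (c • e) v) := by
    intro c
    refine isEl_block (fun i => i = k) _ ?_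
    intro i j hij
    rw [Matrix.vecMulVec_apply, Pi.smul_apply, he, Pi.single_apply] at hij
    refine ⟨?_, ?_⟩
    · by_contra h
      apply hij
      rw [if_neg h, smul_zero, zero_mul]
    · rintro rfl
      apply hij
      rw [hv, mul_zero]
  have hee : e ⬝ᵥ e = 1 := by
    rw [he, dotProduct_single_one, Pi.single_eq_same]
  have heu : e ⬝ᵥ u' = 0 := by
    rw [he, single_one_dotProduct, huk]
  have hve : v ⬝ᵥ e = 0 := by
    rw [he, dotProduct_single_one, hv]
  have hmul : ∀ a b c d : Fin N → R, Matrix.vecMulVec a b * Matrix.vecMulVec c d =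
      (b ⬝ᵥ c) • Matrix.vecMulVec a d := by
    intro a b c d
    rw [Matrix.vecMulVec_mul_vecMulVec, Matrix.vecMulVec_smul]
  have h1 := isEl_mul (isEl_mul (isEl_mul (isEl_mul (ha 1) (hb 1)) (ha (-1))) (hb (-1))) (hb (u k))
  set a := Matrix.vecMulVec u' e with hadef
  set b := Matrix.vecMulVec e v with hbdef
  have haa : a * a = 0 := by rw [hadef, hmul, heu, zero_smul]
  have hbb : b * b = 0 := by rw [hbdef, hmul, hve, zero_smul]
  have hba : b * a = 0 := by rw [hadef, hbdef, hmul, hvu', zero_smul]
  have hab : a * b = Matrix.vecMulVec u' v := by rw [hadef, hbdef, hmul, hee, one_smul]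
  have e1 : Matrix.vecMulVec ((1 : R) • u') e = a := by rw [one_smul]
  have e2 : Matrix.vecMulVec ((1 : R) • e) v = b := by rw [one_smul]
  have e3 : Matrix.vecMulVec ((-1 : R) • u') e = -a := by
    rw [Matrix.smul_vecMulVec, neg_smul, one_smul]
  have e4 : Matrix.vecMulVec ((-1 : R) • e) v = -b := by
    rw [Matrix.smul_vecMulVec, neg_smul, one_smul]
  have e5 : Matrix.vecMulVec (u k • e) v = u k • b := by
    rw [Matrix.smul_vecMulVec]
  rw [e1, e2, e3, e4, e5] at h1
  have h2 : (1 + a) * (1 + b) * (1 + -a) * (1 + -b) = 1 + a * b := by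
    have h3 : (1 + a) * (1 + b) * (1 + -a) = 1 + b + a * b := by
      have : (1 + a) * (1 + b) * (1 + -a) = 1 + b + a * b - a * a - b * a - a * (b * a) := by
        noncomm_ring
      rw [this, haa, hba]
      simp
    have h4 : (1 + b + a * b) * (1 + -b) = 1 + a * b - b * b - a * (b * b) := by
      noncomm_ring
    rw [h3, h4, hbb]
    simp
  have h5 : (1 + a * b) * (1 + u k • b) = 1 + Matrix.vecMulVec u v := by
    have h6 : (1 + a * b) * (1 + u k • b) = 1 + a * b + u k • b + u k • (a * (b * b)) := by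
      rw [mul_add, mul_one, add_mul, one_mul, mul_smul_comm, mul_assoc]
      abel
    rw [h6, hbb, mul_zero, smul_zero, add_zero, hab, add_assoc]
    congr 1
    conv_rhs => rw [hsum]
    rw [Matrix.add_vecMulVec, Matrix.smul_vecMulVec]
  rw [h2, h5] at h1
  exact h1

/-- the matrices which are the identity outside of the first block -/
def InB (s : ℕ) (M : Matrix (Fin N) (Fin N) R) : Prop :=
  ∀ i j : Fin N, (s ≤ i.val ∨ s ≤ j.val) → M i j = if i = j then 1 else 0

theorem inB_inv (s : ℕ) (g : GL (Fin N) R) (h : InB s g.1) (i j : Fin N) (hj : s ≤ j.val) :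
    (g⁻¹).1 i j = if i = j then 1 else 0 := by
  have h1 : (g⁻¹).1 * g.1 = 1 := by rw [← Units.val_mul, inv_mul_cancel, Units.val_one]
  have h2 := congrFun (congrFun h1 i) j
  rw [Matrix.mul_apply, Matrix.one_apply] at h2
  rw [← h2, Finset.sum_eq_single j]
  · rw [h j j (Or.inl hj), if_pos rfl, mul_one]
  · intro k _ hk
    rw [h k j (Or.inr hj), if_neg hk, mul_zero]
  · intro h3
    exact absurd (Finset.mem_univ _) h3

theorem inB_norm (s : ℕ) (hN : s + 2 ≤ N) (g : GL (Fin N) R) (h : InB s g.1)
    (x : GL (Fin N) R) (hx : x ∈ El R N) : g * x * g⁻¹ ∈ El R N := by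
  have key : ∀ y : GL (Fin N) R, IsEl y.1 → y ∈ El R N := by
    rintro y ⟨e, he, hey⟩
    rwa [← Units.ext hey]
  have hgg : g.1 * (g⁻¹).1 = 1 := by rw [← Units.val_mul, mul_inv_cancel, Units.val_one]
  have hgg' : (g⁻¹).1 * g.1 = 1 := by rw [← Units.val_mul, inv_mul_cancel, Units.val_one]
  induction hx using Subgroup.closure_induction with
  | mem x hx =>
    obtain ⟨i, j, hij, a, hxa⟩ := hx
    apply key
    have hk : ∃ k : Fin N, s ≤ k.val ∧ j ≠ k := by
      by_cases hj : j.val = s
      · refine ⟨⟨s + 1, by omega⟩, by simp, ?_⟩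
        intro h3
        rw [h3] at hj
        simp at hj
      · refine ⟨⟨s, by omega⟩, le_refl s, ?_⟩
        intro h3
        apply hj
        rw [h3]
    obtain ⟨k, hk1, hk2⟩ := hk
    have h1 : (g * x * g⁻¹).1 = 1 + Matrix.vecMulVec (fun r => a * g.1 r i) ((g⁻¹).1 j) := by
      rw [Units.val_mul, Units.val_mul]
      have hxa' : x.1 = 1 + Matrix.single i j a := hxa
      rw [hxa', mul_add, mul_one, add_mul, hgg]
      congr 1
      ext r t
      rw [Matrix.mul_assoc, Matrix.mul_apply, Matrix.vecMulVec_apply, Finset.sum_eq_single i]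
      · rw [Matrix.single_mul_apply_same]
        ring
      · intro b _ hb
        rw [Matrix.single_mul_apply_of_ne _ _ _ _ _ hb, mul_zero]
      · intro h3
        exact absurd (Finset.mem_univ _) h3
    rw [h1]
    refine isEl_vec _ _ k ?_ ?_
    · rw [inB_inv s g h j k hk1, if_neg hk2]
    · have h2 := congrFun (congrFun hgg' j) i
      rw [Matrix.mul_apply, Matrix.one_apply, if_neg hij.symm] at h2
      show ∑ r, (g⁻¹).1 j r * (a * g.1 r i) = 0
      have h3 : ∀ r, (g⁻¹).1 j r * (a * g.1 r i) = a * ((g⁻¹).1 j r * g.1 r i) := fun r => by ring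
      rw [Finset.sum_congr rfl fun r _ => h3 r, ← Finset.mul_sum, h2, mul_zero]
  | one => rw [mul_one, mul_inv_cancel]; exact Subgroup.one_mem _
  | mul x y _ _ hx hy =>
    have : g * (x * y) * g⁻¹ = (g * x * g⁻¹) * (g * y * g⁻¹) := by group
    rw [this]
    exact Subgroup.mul_mem _ hx hy
  | inv x _ hx =>
    have : g * x⁻¹ * g⁻¹ = (g * x * g⁻¹)⁻¹ := by group
    rw [this]
    exact Subgroup.inv_mem _ hx

section Swap

variable (R N) (s : ℕ)

/-- the projection to the first block -/
def pM : Matrix (Fin N) (Fin N) R := Matrix.diagonal fun i => if i.val < s then 1 else 0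

/-- the second block to the first one -/
def eM : Matrix (Fin N) (Fin N) R := fun i j => if i.val < s ∧ j.val = s + i.val then 1 else 0

/-- the first block to the second one -/
def fM : Matrix (Fin N) (Fin N) R := fun i j => if j.val < s ∧ i.val = s + j.val then 1 else 0

theorem ee : eM R N s * eM R N s = 0 := by
  ext i j
  rw [Matrix.mul_apply]
  refine Finset.sum_eq_zero fun k _ => ?_
  unfold eM
  by_cases h : i.val < s ∧ k.val = s + i.val
  · rw [if_neg (show ¬ (k.val < s ∧ j.val = s + k.val) by omega), mul_zero]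
  · rw [if_neg h, zero_mul]

theorem ef (hN : 2 * s ≤ N) : eM R N s * fM R N s = pM R N s := by
  ext i j
  rw [Matrix.mul_apply]
  unfold eM fM pM
  rw [Matrix.diagonal_apply]
  by_cases hi : i.val < s
  · rw [Finset.sum_eq_single (⟨s + i.val, by omega⟩ : Fin N)]
    · rw [if_pos ⟨hi, rfl⟩, one_mul, if_pos hi]
      by_cases hij : i = j
      · subst hij
        rw [if_pos rfl, if_pos ⟨hi, rfl⟩]
      · rw [if_neg hij, if_neg]
        rintro ⟨-, h⟩
        apply hij
        ext
        simp at h
        exact h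
    · intro k _ hk
      rw [if_neg, zero_mul]
      rintro ⟨-, h⟩
      exact hk (Fin.ext h)
    · intro h
      exact absurd (Finset.mem_univ _) h
  · rw [Finset.sum_eq_zero]
    · rw [if_neg hi]
      simp
    · intro k _
      rw [if_neg (fun h => hi h.1), zero_mul]

theorem pe : pM R N s * eM R N s = eM R N s := by
  ext i j
  unfold pM
  rw [Matrix.diagonal_mul]
  show _ * (if i.val < s ∧ j.val = s + i.val then (1:R) else 0) = (if i.val < s ∧ j.val = s + i.val then (1:R) else 0)
  by_cases hi : i.val < s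
  · rw [if_pos hi, one_mul]
  · rw [if_neg hi, zero_mul, if_neg (fun h => hi h.1)]

theorem ep : eM R N s * pM R N s = 0 := by
  ext i j
  unfold pM
  rw [Matrix.mul_diagonal]
  show (if i.val < s ∧ j.val = s + i.val then (1:R) else 0) * _ = 0
  by_cases hj : j.val < s
  · rw [if_neg (show ¬ (i.val < s ∧ j.val = s + i.val) by omega), zero_mul]
  · rw [if_neg hj, mul_zero]

theorem pf : pM R N s * fM R N s = 0 := by
  ext i j
  unfold pM
  rw [Matrix.diagonal_mul]
  show _ * (if j.val < s ∧ i.val = s + j.val then (1:R) else 0) = 0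
  by_cases hi : i.val < s
  · rw [if_neg (show ¬ (j.val < s ∧ i.val = s + j.val) by omega), mul_zero]
  · rw [if_neg hi, zero_mul]

variable {R N s}

theorem px (g : Matrix (Fin N) (Fin N) R) (h : InB s g) :
    pM R N s * (g - 1) = g - 1 ∧ (g - 1) * pM R N s = g - 1 := by
  constructor
  · ext i j
    unfold pM
    rw [Matrix.diagonal_mul]
    by_cases hi : i.val < s
    · rw [if_pos hi, one_mul]
    · rw [if_neg hi, zero_mul, Matrix.sub_apply, h i j (Or.inl (by omega)), Matrix.one_apply,
        sub_self]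
  · ext i j
    unfold pM
    rw [Matrix.mul_diagonal]
    by_cases hj : j.val < s
    · rw [if_pos hj, mul_one]
    · rw [if_neg hj, mul_zero, Matrix.sub_apply, h i j (Or.inr (by omega)), Matrix.one_apply,
        sub_self]

theorem exists_w (hN : 2 * s ≤ N) : ∃ w ∈ El R N, ∀ g h : GL (Fin N) R, InB s g.1 → InB s h.1 →
    g * (w * h * w⁻¹) = (w * h * w⁻¹) * g := by
  have h1 : IsEl (1 + eM R N s) := by
    refine isEl_block (fun i => i.val < s) _ ?_
    intro i j hij
    unfold eM at hij
    split_ifs at hij with h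
    · exact ⟨h.1, by show ¬ (j.val < s); omega⟩
    · exact absurd rfl hij
  have h2 : IsEl (1 + -fM R N s) := by
    refine isEl_block (fun i => s ≤ i.val) _ ?_
    intro i j hij
    rw [Matrix.neg_apply] at hij
    unfold fM at hij
    split_ifs at hij with h
    · exact ⟨by show s ≤ i.val; omega, by show ¬ (s ≤ j.val); omega⟩
    · simp at hij
  obtain ⟨w, hw, hwv⟩ := isEl_mul h1 (isEl_mul h2 h1)
  refine ⟨w, hw, fun g h hg hh => ?_⟩
  set E := eM R N s with hE
  set F := fM R N s with hF
  set p := pM R N s with hp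
  have kee : E * E = 0 := ee R N s
  have kef : E * F = p := ef R N s hN
  have kpe : p * E = E := pe R N s
  have kep : E * p = 0 := ep R N s
  have kpf : p * F = 0 := pf R N s
  obtain ⟨hx1, hx2⟩ := px g.1 hg
  obtain ⟨hy1, hy2⟩ := px h.1 hh
  set x := g.1 - 1 with hx
  set y := h.1 - 1 with hy
  have hgx : g.1 = 1 + x := by rw [hx]; abel
  have hhy : h.1 = 1 + y := by rw [hy]; abel
  have hEy : E * y = 0 := by rw [← hy1, ← mul_assoc, kep, zero_mul]
  have hEx : E * x = 0 := by rw [← hx1, ← mul_assoc, kep, zero_mul]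
  have hxF : x * F = 0 := by rw [← hx2, mul_assoc, kpf, mul_zero]
  have hwy : w.1 * y = -(F * y) := by
    rw [hwv]
    have k1 : (1 + E) * ((1 + -F) * (1 + E)) * y = (1 + E) * ((1 + -F) * (y + E * y)) := by
      noncomm_ring
    have k2 : (1 + E) * ((1 + -F) * y) = y - F * y + E * y - (E * F) * y := by noncomm_ring
    rw [k1, hEy, add_zero, k2, hEy, kef, hy1]
    abel
  have hzw : F * y * E * w.1 = -(F * y) := by
    rw [hwv]
    have k1 : F * y * E * ((1 + E) * ((1 + -F) * (1 + E))) =
        F * y * (E + E * E + E * E - E * F + E * E * E - E * F * E - E * E * F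
          - E * E * F * E) := by
      noncomm_ring
    rw [k1, kee, kef, kpe, zero_mul, zero_mul, zero_mul]
    have k2 : (E + 0 + 0 - p + 0 - E - 0 - 0 : Matrix (Fin N) (Fin N) R) = -p := by abel
    rw [k2, mul_neg, mul_assoc, hy2]
  have hww : w.1 * (w⁻¹).1 = 1 := by rw [← Units.val_mul, mul_inv_cancel, Units.val_one]
  have hconj : (w * h * w⁻¹).1 = 1 + F * y * E := by
    rw [Units.val_mul, Units.val_mul, hhy, mul_add, mul_one, hwy, ← hzw, add_mul, hww,
      mul_assoc (F * y * E), hww, mul_one]
  apply Units.ext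
  show g.1 * (w * h * w⁻¹).1 = (w * h * w⁻¹).1 * g.1
  rw [hconj, hgx]
  have k1 : (1 + x) * (1 + F * y * E) = 1 + x + F * y * E + (x * F) * (y * E) := by noncomm_ring
  have k2 : (1 + F * y * E) * (1 + x) = 1 + x + F * y * E + F * y * (E * x) := by noncomm_ring
  rw [k1, k2, hxF, hEx]
  simp

end Swap

end KC2

open KC2 in
theorem thm_KC2 : St_KC2 := by
  intro R _ s N hN hdec g h
  have hnorm : ∀ g x : GL (Fin N) R, x ∈ El R N → g * x * g⁻¹ ∈ El R N := by
    intro g x hx
    obtain ⟨e, he, hB⟩ := hdec g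
    have h1 := inB_norm s (by omega) (e * g) hB x hx
    have h2 : g * x * g⁻¹ = e⁻¹ * ((e * g) * x * (e * g)⁻¹) * e := by group
    rw [h2]
    exact Subgroup.mul_mem _ (Subgroup.mul_mem _ (Subgroup.inv_mem _ he) h1) he
  obtain ⟨w, hw, hcomm⟩ := exists_w (R := R) (N := N) (s := s) (by omega)
  obtain ⟨e1, he1, hg⟩ := hdec g
  obtain ⟨e2, he2, hh⟩ := hdec h
  have hN' : (El R N).Normal := ⟨fun x hx g => hnorm g x hx⟩
  have hc := hcomm (e1 * g) (e2 * h) hg hh
  have hq : ∀ x ∈ El R N, (QuotientGroup.mk' (El R N)) x = 1 := by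
    intro x hx
    exact (QuotientGroup.eq_one_iff x).2 hx
  have hc2 := congrArg (QuotientGroup.mk' (El R N)) hc
  simp only [map_mul, map_inv, hq e1 he1, hq e2 he2, hq w hw, one_mul, inv_one, mul_one] at hc2
  rw [← QuotientGroup.eq_one_iff]
  show (QuotientGroup.mk' (El R N)) (g * h * g⁻¹ * h⁻¹) = 1
  rw [map_mul, map_mul, map_mul, hc2, map_inv, map_inv]
  group

end Pool.Agent.SLZ
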