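import Pool.Agent.SLZ.StKJ

/-!
# SLZ: module KJ1, degrees of lattices of types `0`, `1`
-/

set_option autoImplicit false

noncomputable section

namespace Pool.Agent.SLZ

open Polynomial

section

variable {A : Type} [CommRing A] {V : Type} [AddCommGroup V] [Module A V] [Module A[X] V]
  [IsScalarTower A A[X] V]

theorem KJ1_mem_OL {n : ℕ} (b : Module.Basis (Fin n) A[X] V) (w : Fin n → ℤ) (k : ℤ) (v : V) :
    v ∈ OL (A := A) b w k ↔ ∀ (i : Fin n) (j : ℕ), k + w i < j → (b.repr v i).coeff j = 0 := Iff.rfl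

theorem KJ1_repr_smul {n : ℕ} (b : Module.Basis (Fin n) A[X] V) (c : A) (v : V) (i : Fin n)
    (j : ℕ) : (b.repr (c • v) i).coeff j = c * (b.repr v i).coeff j := by
  have h1 : c • v = (C c : A[X]) • v := by
    rw [← algebraMap_smul A[X] c v]
    rfl
  rw [h1, map_smul, Finsupp.smul_apply, smul_eq_mul, coeff_C_mul]

/-- the coordinates on `E_(-1)` -/
def KJ1_map {n : ℕ} (b : Module.Basis (Fin n) A[X] V) (d : ℕ) (hd : d ≤ n) :
    (OL (A := A) b fun i => if i.val < d then (1 : ℤ) else 0) (-1) →ₗ[A] (Fin d → A) where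
  toFun v i := (b.repr v.1 (Fin.castLE hd i)).coeff 0
  map_add' v w := by
    funext i
    simp
  map_smul' c v := by
    funext i
    simp only [RingHom.id_apply, Pi.smul_apply, smul_eq_mul]
    exact KJ1_repr_smul b c v.1 _ 0

theorem KJ1_bij {n : ℕ} (b : Module.Basis (Fin n) A[X] V) (d : ℕ) (hd : d ≤ n) :
    Function.Bijective (KJ1_map (A := A) b d hd) := by
  constructor
  · rw [injective_iff_map_eq_zero]
    intro v hv
    apply Subtype.ext
    have hz : b.repr v.1 = 0 := by
      ext i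
      rename_i j
      have hmem := (KJ1_mem_OL b _ (-1) v.1).1 v.2 i j
      by_cases hi : i.val < d
      · rcases Nat.eq_zero_or_pos j with rfl | hj
        · have h1 := congrFun hv ⟨i.val, hi⟩
          exact h1
        · have : (-1 : ℤ) + (if i.val < d then (1 : ℤ) else 0) < j := by
            rw [if_pos hi]; omega
          rw [hmem this]
          rfl
      · have : (-1 : ℤ) + (if i.val < d then (1 : ℤ) else 0) < j := by
          rw [if_neg hi]; omega
        rw [hmem this]
        rfl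
    exact b.repr.map_eq_zero_iff.1 hz
  · intro c
    let f : Fin n →₀ A[X] := Finsupp.equivFunOnFinite.symm
      (fun i : Fin n => if h : i.val < d then C (c ⟨i.val, h⟩) else 0)
    have hf : ∀ i : Fin n, f i = if h : i.val < d then C (c ⟨i.val, h⟩) else 0 := fun i => rfl
    refine ⟨⟨b.repr.symm f, ?_⟩, ?_⟩
    · rw [KJ1_mem_OL]
      intro i j hj
      rw [LinearEquiv.apply_symm_apply, hf]
      by_cases hi : i.val < d
      · rw [if_pos hi] at hj
        rw [dif_pos hi, coeff_C, if_neg]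
        omega
      · rw [dif_neg hi, coeff_zero]
    · funext i
      show (b.repr (b.repr.symm f) (Fin.castLE hd i)).coeff 0 = c i
      rw [LinearEquiv.apply_symm_apply, hf]
      have hi : (Fin.castLE hd i).val < d := i.2
      rw [dif_pos hi, coeff_C_zero]
      rfl

theorem KJ1_dg [Nontrivial A] {n : ℕ} (b : Module.Basis (Fin n) A[X] V) (d : ℕ) (hd : d ≤ n) :
    dgL (OL (A := A) b fun i => if i.val < d then (1 : ℤ) else 0) = d := by
  unfold dgL
  rw [(LinearEquiv.ofBijective _ (KJ1_bij (A := A) b d hd)).finrank_eq]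
  exact Module.finrank_fin_fun A

theorem KJ1_self {n : ℕ} (b : Module.Basis (Fin n) A[X] V) (w : Fin n → ℤ) :
    LR (OL (A := A) b w) (OL (A := A) b w) := by
  refine ⟨le_refl _, ?_⟩
  intro k v hv i j hj
  exact hv i j (by
    have : k + w i < k + 1 + w i := by omega
    exact lt_trans this hj)

theorem KJ1_adj_self {m J : ℕ} {E : Lat A V} (hE : E ∈ TV A V m J) : LR E E := by
  obtain ⟨n, d, b, -, -, -, rfl⟩ := hE
  exact KJ1_self b _

theorem KJ1_two [Module.Free A[X] V] [Module.Finite A[X] V] [Nontrivial A] {m : ℕ}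
    (hP : PDiag A m) (J : ℕ) {E E' : Lat A V} (hE : E ∈ TV A V m J) (hE' : E' ∈ TV A V m J)
    (hLR : LR E E') : dgL E ≤ dgL E' ∧ (dgL E = dgL E' → E = E') := by
  have hL : [E, E'] ∈ (TT A V m J).s := by
    intro x hx
    simp only [List.mem_cons, List.not_mem_nil, or_false] at hx
    rcases hx with rfl | rfl
    · refine ⟨hE, ?_⟩
      intro y hy
      simp only [List.mem_cons, List.not_mem_nil, or_false] at hy
      rcases hy with rfl | rfl
      · exact Or.inl (KJ1_adj_self hE)
      · exact Or.inl hLR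
    · refine ⟨hE', ?_⟩
      intro y hy
      simp only [List.mem_cons, List.not_mem_nil, or_false] at hy
      rcases hy with rfl | rfl
      · exact Or.inr hLR
      · exact Or.inl (KJ1_adj_self hE')
  obtain ⟨n, b, hb⟩ := hP V J [E, E'] hL
  obtain ⟨d, hdn, -, -, hEd⟩ := hb E (by simp)
  obtain ⟨d', hdn', -, -, hEd'⟩ := hb E' (by simp)
  have e1 : dgL E = d := by rw [hEd]; exact KJ1_dg b d hdn
  have e2 : dgL E' = d' := by rw [hEd']; exact KJ1_dg b d' hdn'
  have hle : d ≤ d' := by
    by_contra hlt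
    rw [not_le] at hlt
    let i0 : Fin n := ⟨d', lt_of_lt_of_le hlt hdn⟩
    have hmem : b i0 ∈ E (-1) := by
      rw [hEd, KJ1_mem_OL]
      intro i j hj
      rw [Module.Basis.repr_self, Finsupp.single_apply]
      split_ifs with h
      · subst h
        rw [if_pos hlt] at hj
        rw [coeff_one, if_neg]
        omega
      · exact coeff_zero j
    have hmem' : b i0 ∈ E' (-1) := hLR.1 (-1) hmem
    rw [hEd', KJ1_mem_OL] at hmem'
    have h0 := hmem' i0 0 (by
      show (-1 : ℤ) + (if d' < d' then (1 : ℤ) else 0) < _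
      rw [if_neg (lt_irrefl _)]
      norm_num)
    rw [Module.Basis.repr_self, Finsupp.single_eq_same, coeff_one_zero] at h0
    exact one_ne_zero h0
  refine ⟨by rw [e1, e2]; exact hle, ?_⟩
  intro h
  rw [e1, e2] at h
  rw [hEd, hEd', h]

end

theorem thm_KJ1 : St_KJ1 := by
  intro A _ _ V _ _ _ _ _ _ m
  have h3 : ∀ J, ∀ E ∈ TV A V m J, dgL E ≤ m * J := by
    rintro J E ⟨n, d, b, hdn, -, hdm, rfl⟩
    rw [KJ1_dg b d hdn]
    exact hdm
  have h5 : ∀ J, TV A V m J ⊆ TV A V m (J + 1) := by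
    rintro J E ⟨n, d, b, hdn, hm, hdm, rfl⟩
    exact ⟨n, d, b, hdn, hm, le_trans hdm (Nat.mul_le_mul_left m (Nat.le_succ J)), rfl⟩
  refine ⟨fun n b d hd => KJ1_dg b d hd, fun hP J E hE E' hE' hLR => KJ1_two hP J hE hE' hLR,
    h3, ?_, h5, ?_⟩
  · rintro J E ⟨n, d, b, hdn, ⟨q, rfl⟩, hdm, rfl⟩
    rcases Nat.lt_or_ge J q with hq | hq
    · right
      rw [KJ1_dg b _ hdn]
      exact le_antisymm hdm (Nat.mul_le_mul_left m hq)
    · left
      exact ⟨n, m * q, b, hdn, ⟨q, rfl⟩, Nat.mul_le_mul_left m hq, rfl⟩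
  · intro hP hm J E hE hdE F hF hadj
    rcases hadj with h | h
    · exfalso
      have h6 := (KJ1_two hP (J + 1) hE (h5 J hF) h).1
      have h7 := h3 J F hF
      rw [hdE, Nat.mul_succ] at h6
      omega
    · exact h

end Pool.Agent.SLZ
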