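import Pool.Agent.SLZ.StK
import Pool.Agent.SLZ.KJ1

/-!
# SLZ, module KC3: types of vertices and edges
-/

set_option autoImplicit false
set_option linter.unusedVariables false

noncomputable section

namespace Pool.Agent.SLZ

open Polynomial

section

variable {A : Type} [CommRing A]

theorem KC3_map {V V' : Type} [AddCommGroup V] [Module A V] [Module A[X] V]
    [IsScalarTower A A[X] V] [AddCommGroup V'] [Module A V'] [Module A[X] V']
    [IsScalarTower A A[X] V'] {n : ℕ} (φ : V ≃ₗ[A[X]] V') (b : Module.Basis (Fin n) A[X] V)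
    (w : Fin n → ℤ) : mapL φ (OL b w) = OL (b.map φ) w := by
  funext k
  ext v
  constructor
  · rintro ⟨u, hu, rfl⟩
    intro i j hij
    have h := hu i j hij
    have e : (b.map φ).repr (φ u) = b.repr u := by
      rw [Module.Basis.map_repr, LinearEquiv.trans_apply, LinearEquiv.symm_apply_apply]
    show (((b.map φ).repr (φ u)) i).coeff j = 0
    rw [e]
    exact h
  · intro hv
    refine ⟨φ.symm v, ?_, φ.apply_symm_apply v⟩
    intro i j hij
    have h := hv i j hij
    rw [Module.Basis.map_repr, LinearEquiv.trans_apply] at h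
    exact h

theorem KC3_LR {V : Type} [AddCommGroup V] [Module A V] [Module A[X] V]
    [IsScalarTower A A[X] V] {n : ℕ} (b : Module.Basis (Fin n) A[X] V) (d d' : ℕ) (h : d ≤ d') :
    LR (OL (A := A) b fun i => if i.val < d then (1 : ℤ) else 0)
      (OL (A := A) b fun i => if i.val < d' then (1 : ℤ) else 0) := by
  constructor
  · intro k v hv i j hij
    refine hv i j (lt_of_le_of_lt ?_ hij)
    show k + (if i.val < d then (1 : ℤ) else 0) ≤ k + (if i.val < d' then (1 : ℤ) else 0)
    split_ifs <;> omega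
  · intro k v hv i j hij
    refine hv i j (lt_of_le_of_lt ?_ hij)
    show k + (if i.val < d' then (1 : ℤ) else 0) ≤ k + 1 + (if i.val < d then (1 : ℤ) else 0)
    split_ifs <;> omega

/-- matrices of automorphisms -/
def KC3_g {N : ℕ} (φ : Vn A N ≃ₗ[A[X]] Vn A N) : GLn A[X] N where
  val := LinearMap.toMatrix' (φ : Vn A N →ₗ[A[X]] Vn A N)
  inv := LinearMap.toMatrix' (φ.symm : Vn A N →ₗ[A[X]] Vn A N)
  val_inv := by
    rw [← LinearMap.toMatrix'_comp]
    simp
  inv_val := by
    rw [← LinearMap.toMatrix'_comp]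
    simp

theorem KC3_gE {N : ℕ} (φ : Vn A N ≃ₗ[A[X]] Vn A N) : gE A N (KC3_g φ) = φ := by
  apply LinearEquiv.ext
  intro v
  rw [gE_apply]
  show (LinearMap.toMatrix' (φ : Vn A N →ₗ[A[X]] Vn A N)).mulVec v = φ v
  rw [LinearMap.toMatrix'_mulVec]
  rfl

end

theorem thm_KC3 : St_KC3 := by
  intro A _ _ m J N hm hJ hP
  have hle : ∀ t : Fin (J + 1), m * t.val ≤ m * J := fun t =>
    Nat.mul_le_mul_left m (Nat.lt_succ_iff.1 t.2)
  have hTV : ∀ t : Fin (J + 1), vT A m N t.val ∈ TV A (Vn A N) m J := fun t =>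
    ⟨N, m * t.val, Pi.basisFun A[X] (Fin N), (hle t).trans hJ, Dvd.intro _ rfl, hle t, rfl⟩
  have hLR : ∀ t t' : Fin (J + 1), t.val ≤ t'.val → LR (vT A m N t.val) (vT A m N t'.val) :=
    fun t t' h => KC3_LR _ _ _ (Nat.mul_le_mul_left m h)
  have hadj : ∀ t t' : Fin (J + 1), adjL (vT A m N t.val) (vT A m N t'.val) := fun t t' => by
    rcases le_total t.val t'.val with h | h
    · exact Or.inl (hLR t t' h)
    · exact Or.inr (hLR t' t h)
  refine ⟨?_, ?_, ?_⟩
  · intro t t' x hx
    have hx' : ∃ s : Fin (J + 1), x = vT A m N s.val := by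
      simp only [List.mem_cons, List.not_mem_nil, or_false] at hx
      rcases hx with rfl | rfl
      · exact ⟨t, rfl⟩
      · exact ⟨t', rfl⟩
    obtain ⟨s, rfl⟩ := hx'
    refine ⟨hTV s, ?_⟩
    intro y hy
    simp only [List.mem_cons, List.not_mem_nil, or_false] at hy
    rcases hy with rfl | rfl
    · exact hadj s t
    · exact hadj s t'
  · intro x y hxy
    obtain ⟨n, b, hb⟩ := hP (Vn A N) J [x, y] hxy
    have hn : n = N := by
      have h1 := Module.finrank_eq_card_basis b
      have h2 := Module.finrank_eq_card_basis (Pi.basisFun A[X] (Fin N))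
      rw [h2, Fintype.card_fin, Fintype.card_fin] at h1
      exact h1.symm
    subst hn
    set φ : Vn A n ≃ₗ[A[X]] Vn A n := (Pi.basisFun A[X] (Fin n)).equiv b (Equiv.refl _) with hφ
    have hbφ : (Pi.basisFun A[X] (Fin n)).map φ = b := by
      rw [hφ, Module.Basis.map_equiv]
      simp
    have hkey : ∀ E ∈ [x, y], ∃ t : Fin (J + 1), E = gL (KC3_g φ) (vT A m n t.val) := by
      intro E hE
      obtain ⟨d, hd, ⟨t, ht⟩, hdJ, hEd⟩ := hb E hE
      have ht' : t ≤ J := by
        rw [ht] at hdJ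
        exact Nat.le_of_mul_le_mul_left hdJ (by omega)
      refine ⟨⟨t, Nat.lt_succ_iff.2 ht'⟩, ?_⟩
      rw [hEd, gL, KC3_gE, vT, KC3_map, hbφ, ht]
    obtain ⟨t, ht⟩ := hkey x (by simp)
    obtain ⟨t', ht'⟩ := hkey y (by simp)
    exact ⟨KC3_g φ, t, t', ht, ht'⟩
  · intro g t t' h
    have e1 : dgL (gL g (vT A m N t.val)) = m * t.val := by
      rw [gL, vT, KC3_map]
      exact KJ1_dg _ _ ((hle t).trans hJ)
    have e2 : dgL (vT A m N t'.val) = m * t'.val := by
      rw [vT]
      exact KJ1_dg _ _ ((hle t').trans hJ)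
    rw [h, e2] at e1
    have e3 := Nat.eq_of_mul_eq_mul_left (by omega) e1
    exact Fin.ext e3.symm

end Pool.Agent.SLZ
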