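import Pool.Agent.SLZ.StKF2

/-!
# SLZ, module KF10 (helper38): orthonormal frames in coordinates
-/

set_option autoImplicit false

noncomputable section

namespace Pool.Agent.SLZ

theorem thm_KF10 (h7 : St_KF7) : St_KF10 := by
  intro R _ s hK N p hp f hf
  have hlt : ∀ i : Fin p, N - p + i.val < N := fun i => by
    have := i.2
    omega
  obtain ⟨g, hg⟩ := (h7 R s hK (Fin N → R) N p (Pi.basisFun R (Fin N)) hp
    (fun i => Pi.single ⟨N - p + i.val, hlt i⟩ 1)
    (fun i => LinearMap.proj ⟨N - p + i.val, hlt i⟩) (by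
      intro i j
      rw [LinearMap.proj_apply, Pi.single_apply]
      have : (⟨N - p + i.val, hlt i⟩ : Fin N) = ⟨N - p + j.val, hlt j⟩ ↔ i = j := by
        rw [Fin.mk.injEq, Fin.ext_iff]
        omega
      simp only [this])).1 (fun i => (f i).1)
    (fun i => ∑ k, (f i).2 k • (LinearMap.proj k : (Fin N → R) →ₗ[R] R)) (by
      intro i j
      rw [LinearMap.sum_apply]
      simp only [LinearMap.smul_apply, LinearMap.proj_apply, smul_eq_mul]
      exact hf i j)
  let gg : GLn R N := ⟨LinearMap.toMatrix' (g : (Fin N → R) →ₗ[R] (Fin N → R)),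
    LinearMap.toMatrix' (g.symm : (Fin N → R) →ₗ[R] (Fin N → R)), by
      rw [← LinearMap.toMatrix'_mul]
      have : (g : (Fin N → R) →ₗ[R] (Fin N → R)) * (g.symm : (Fin N → R) →ₗ[R] (Fin N → R)) = 1 := by
        ext v i
        simp
      rw [this, LinearMap.toMatrix'_one], by
      rw [← LinearMap.toMatrix'_mul]
      have : (g.symm : (Fin N → R) →ₗ[R] (Fin N → R)) * (g : (Fin N → R) →ₗ[R] (Fin N → R)) = 1 := by
        ext v i
        simp
      rw [this, LinearMap.toMatrix'_one]⟩
  refine ⟨gg, fun i h => Prod.ext ?_ ?_⟩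
  · change (LinearMap.toMatrix' (g : (Fin N → R) →ₗ[R] (Fin N → R))).mulVec (Pi.single _ 1) = _
    rw [LinearMap.toMatrix'_mulVec]
    exact (hg i).1
  · change Matrix.vecMul (Pi.single (⟨N - p + i.val, h⟩ : Fin N) (1 : R))
      (LinearMap.toMatrix' (g.symm : (Fin N → R) →ₗ[R] (Fin N → R))) = _
    funext k
    rw [Matrix.single_one_vecMul, Matrix.row_apply, LinearMap.toMatrix'_apply]
    have h1 := (hg i).2 (g.symm (Pi.single k 1))
    rw [LinearEquiv.apply_symm_apply, LinearMap.sum_apply] at h1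
    simp only [LinearMap.smul_apply, LinearMap.proj_apply, smul_eq_mul] at h1
    rw [Finset.sum_eq_single k (fun b _ hb => by rw [Pi.single_eq_of_ne hb, mul_zero])
      (fun hk => absurd (Finset.mem_univ k) hk), Pi.single_eq_same, mul_one] at h1
    rw [h1]
    rfl

end Pool.Agent.SLZ
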