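import Pool.Agent.SLZ.StKF

/-!
# SLZ: module KF2, bases of `V` and of `ker l`
-/

set_option autoImplicit false

noncomputable section

namespace Pool.Agent.SLZ

open Polynomial

section

variable {A : Type} [CommRing A] {V : Type} [AddCommGroup V] [Module A V] [Module A[X] V]
  [IsScalarTower A A[X] V] (q : V) (l : V →ₗ[A[X]] A[X]) (h : l q = 1)

theorem KF2_pi_coe (v : V) : ((piK q l h v : LinearMap.ker l) : V) = v - l v • q := by
  simp [piK]

theorem KF2_pi_add (u : LinearMap.ker l) (p : A[X]) : piK q l h ((u : V) + p • q) = u := by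
  apply Subtype.ext
  rw [KF2_pi_coe]
  have hu : l (u : V) = 0 := LinearMap.mem_ker.1 u.2
  rw [map_add, map_smul, hu, h, zero_add, smul_eq_mul, mul_one, add_sub_cancel_right]

include h in
theorem KF2_l_add (u : LinearMap.ker l) (p : A[X]) : l ((u : V) + p • q) = p := by
  have hu : l (u : V) = 0 := LinearMap.mem_ker.1 u.2
  rw [map_add, map_smul, hu, h, zero_add, smul_eq_mul, mul_one]

theorem KF2_dec (v : V) : ((piK q l h v : LinearMap.ker l) : V) + l v • q = v := by
  rw [KF2_pi_coe, sub_add_cancel]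

theorem KF2_OL {n : ℕ} (b' : Module.Basis (Fin n) A[X] (LinearMap.ker l))
    (b : Module.Basis (Fin (n + 1)) A[X] V)
    (h1 : ∀ v i, b.repr v (Fin.castSucc i) = b'.repr (piK q l h v) i)
    (h2 : ∀ v, b.repr v (Fin.last n) = l v) (w : Fin n → ℤ) :
    addL q l (OL (A := A) b' w) = OL (A := A) b (Fin.snoc (α := fun _ => ℤ) w 0) := by
  funext k
  ext v
  constructor
  · rintro ⟨u, hu, p, hp, rfl⟩
    intro i j hj
    revert hj
    refine Fin.lastCases ?_ (fun i' => ?_) i
    · intro hj
      rw [Fin.snoc_last, add_zero] at hj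
      rw [h2, KF2_l_add q l h]
      exact hp j hj
    · intro hj
      rw [Fin.snoc_castSucc] at hj
      rw [h1, KF2_pi_add q l h]
      exact hu i' j hj
  · intro hv
    refine ⟨piK q l h v, ?_, l v, ?_, (KF2_dec q l h v).symm⟩
    · intro i j hj
      rw [← h1]
      apply hv
      rw [Fin.snoc_castSucc]
      exact hj
    · intro j hj
      rw [← h2]
      apply hv
      rw [Fin.snoc_last, add_zero]
      exact hj

/-- the coordinates of `V` -/
def KF2_phi {n : ℕ} (b' : Module.Basis (Fin n) A[X] (LinearMap.ker l)) :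
    V ≃ₗ[A[X]] (Fin (n + 1) → A[X]) where
  toFun v := Fin.snoc (α := fun _ => A[X]) (fun i => b'.repr (piK q l h v) i) (l v)
  map_add' v v' := by
    funext i
    refine Fin.lastCases ?_ (fun i' => ?_) i
    · simp
    · simp
  map_smul' c v := by
    funext i
    refine Fin.lastCases ?_ (fun i' => ?_) i
    · simp
    · simp
  invFun f := ((b'.equivFun.symm (fun i => f i.castSucc) : LinearMap.ker l) : V) +
    f (Fin.last n) • q
  left_inv v := by
    simp only [Fin.snoc_castSucc, Fin.snoc_last]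
    have : (fun i => b'.repr (piK q l h v) i) = b'.equivFun (piK q l h v) := rfl
    rw [this, LinearEquiv.symm_apply_apply]
    exact KF2_dec q l h v
  right_inv f := by
    funext i
    refine Fin.lastCases ?_ (fun i' => ?_) i
    · show (Fin.snoc (α := fun _ => A[X]) _ _ : Fin (n + 1) → A[X]) (Fin.last n) = _
      rw [Fin.snoc_last, KF2_l_add q l h]
    · show (Fin.snoc (α := fun _ => A[X]) (fun i => b'.repr (piK q l h
        (((b'.equivFun.symm (fun i => f i.castSucc) : LinearMap.ker l) : V) +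
          f (Fin.last n) • q)) i) _ : Fin (n + 1) → A[X]) i'.castSucc = _
      rw [Fin.snoc_castSucc, KF2_pi_add q l h]
      exact congrFun (LinearEquiv.apply_symm_apply b'.equivFun (fun i => f i.castSucc)) i'

include h in
theorem KF2_one {n : ℕ} (b' : Module.Basis (Fin n) A[X] (LinearMap.ker l)) :
    ∃ b : Module.Basis (Fin (n + 1)) A[X] V, (∀ i, b (Fin.castSucc i) = (b' i : V)) ∧
      b (Fin.last n) = q ∧ (∀ v, b.repr v (Fin.last n) = l v) ∧
      ∀ w : Fin n → ℤ, addL q l (OL (A := A) b' w) = OL (A := A) b (Fin.snoc (α := fun _ => ℤ) w 0) := by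
  have hr : ∀ v i, (Module.Basis.ofEquivFun (KF2_phi q l h b')).repr v i =
      (Fin.snoc (α := fun _ => A[X]) (fun i => b'.repr (piK q l h v) i) (l v) : Fin (n + 1) → A[X]) i := by
    intro v i
    rw [Module.Basis.ofEquivFun_repr_apply]
    rfl
  have hs : ∀ i, Module.Basis.ofEquivFun (KF2_phi q l h b') i =
      ((b'.equivFun.symm (fun j : Fin n => (Pi.single i (1 : A[X]) : Fin (n + 1) → A[X]) j.castSucc) :
        LinearMap.ker l) : V) + (Pi.single i (1 : A[X]) : Fin (n + 1) → A[X]) (Fin.last n) • q := by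
    intro i
    rw [Module.Basis.coe_ofEquivFun]
    rfl
  refine ⟨Module.Basis.ofEquivFun (KF2_phi q l h b'), ?_, ?_, ?_, ?_⟩
  · intro i
    rw [hs]
    have e1 : (fun j : Fin n => (Pi.single (Fin.castSucc i) (1 : A[X]) : Fin (n + 1) → A[X]) j.castSucc) =
        Pi.single i 1 := by
      funext j
      rw [Pi.single_apply, Pi.single_apply]
      simp only [Fin.castSucc_inj]
    rw [e1, Pi.single_apply, if_neg (Fin.castSucc_lt_last i).ne', zero_smul, add_zero]
    congr 1
    have e2 : (Pi.single i (1 : A[X]) : Fin n → A[X]) = b'.equivFun (b' i) := by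
      funext j
      rw [Module.Basis.equivFun_self, Pi.single_apply]
      simp only [eq_comm]
    rw [e2, LinearEquiv.symm_apply_apply]
  · rw [hs]
    have e1 : (fun j : Fin n => (Pi.single (Fin.last n) (1 : A[X]) : Fin (n + 1) → A[X]) j.castSucc) =
        0 := by
      funext j
      rw [Pi.single_apply, if_neg (Fin.castSucc_lt_last j).ne]
      rfl
    rw [e1, map_zero, Pi.single_eq_same, one_smul]
    simp
  · intro v
    rw [hr, Fin.snoc_last]
  · intro w
    refine KF2_OL q l h b' _ ?_ ?_ w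
    · intro v i
      rw [hr, Fin.snoc_castSucc]
    · intro v
      rw [hr, Fin.snoc_last]

/-- the coordinates of `ker l` -/
def KF2_psi {n : ℕ} (b : Module.Basis (Fin (n + 1)) A[X] V)
    (h2 : ∀ v, b.repr v (Fin.last n) = l v) : LinearMap.ker l ≃ₗ[A[X]] (Fin n → A[X]) where
  toFun u i := b.repr (u : V) i.castSucc
  map_add' u u' := by
    funext i
    simp
  map_smul' c u := by
    funext i
    simp
  invFun f := ⟨b.equivFun.symm (Fin.snoc (α := fun _ => A[X]) f 0), by
    rw [LinearMap.mem_ker, ← h2]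
    have := congrFun (LinearEquiv.apply_symm_apply b.equivFun (Fin.snoc (α := fun _ => A[X]) f 0))
      (Fin.last n)
    rw [Fin.snoc_last] at this
    exact this⟩
  left_inv u := by
    apply Subtype.ext
    show b.equivFun.symm (Fin.snoc (α := fun _ => A[X]) (fun i => b.repr (u : V) i.castSucc) 0) = (u : V)
    have e1 : (Fin.snoc (α := fun _ => A[X]) (fun i => b.repr (u : V) i.castSucc) 0 :
        Fin (n + 1) → A[X]) = b.equivFun (u : V) := by
      funext i
      refine Fin.lastCases ?_ (fun i' => ?_) i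
      · rw [Fin.snoc_last]
        show 0 = b.repr (u : V) (Fin.last n)
        rw [h2]
        exact (LinearMap.mem_ker.1 u.2).symm
      · rw [Fin.snoc_castSucc]
        rfl
    rw [e1, LinearEquiv.symm_apply_apply]
  right_inv f := by
    funext i
    have := congrFun (LinearEquiv.apply_symm_apply b.equivFun (Fin.snoc (α := fun _ => A[X]) f 0))
      i.castSucc
    rw [Fin.snoc_castSucc] at this
    exact this

include h in
theorem KF2_two {n : ℕ} (b : Module.Basis (Fin (n + 1)) A[X] V) (hq : b (Fin.last n) = q)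
    (h2 : ∀ v, b.repr v (Fin.last n) = l v) :
    ∃ b' : Module.Basis (Fin n) A[X] (LinearMap.ker l),
      (∀ i, b (Fin.castSucc i) = (b' i : V)) ∧
      ∀ w : Fin n → ℤ, addL q l (OL (A := A) b' w) = OL (A := A) b (Fin.snoc (α := fun _ => ℤ) w 0) := by
  refine ⟨Module.Basis.ofEquivFun (KF2_psi l b h2), ?_, ?_⟩
  · intro i
    rw [Module.Basis.coe_ofEquivFun]
    show b (Fin.castSucc i) =
      b.equivFun.symm (Fin.snoc (α := fun _ => A[X]) (Pi.single i (1 : A[X])) 0)
    have e1 : (Fin.snoc (α := fun _ => A[X]) (Pi.single i (1 : A[X]) : Fin n → A[X]) 0 :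
        Fin (n + 1) → A[X]) = b.equivFun (b (Fin.castSucc i)) := by
      funext j
      rw [Module.Basis.equivFun_self]
      refine Fin.lastCases ?_ (fun j' => ?_) j
      · rw [Fin.snoc_last, if_neg (Fin.castSucc_lt_last i).ne]
      · rw [Fin.snoc_castSucc, Pi.single_apply]
        simp only [Fin.castSucc_inj, eq_comm]
    rw [e1, LinearEquiv.symm_apply_apply]
  · intro w
    refine KF2_OL q l h _ b ?_ h2 w
    intro v i
    rw [Module.Basis.ofEquivFun_repr_apply]
    show b.repr v i.castSucc = b.repr ((piK q l h v : LinearMap.ker l) : V) i.castSucc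
    rw [KF2_pi_coe, map_sub, map_smul, ← hq, Module.Basis.repr_self, Finsupp.sub_apply,
      Finsupp.smul_apply, Finsupp.single_apply, if_neg (Fin.castSucc_lt_last i).ne', smul_zero,
      sub_zero]

end

theorem thm_KF2 (h1 : St_KF1) : St_KF2 := by
  intro A _ V _ _ _ _ q l h
  have h3 : ∀ (m J : ℕ), ∀ E ∈ TV A (LinearMap.ker l) m J, addL q l E ∈ TV A V m J := by
    rintro m J E ⟨n, d, b', hdn, hmd, hdJ, rfl⟩
    obtain ⟨b, -, -, -, hb⟩ := KF2_one q l h b'
    refine ⟨n + 1, d, b, Nat.le_succ_of_le hdn, hmd, hdJ, ?_⟩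
    rw [hb]
    congr 1
    funext i
    refine Fin.lastCases ?_ (fun i' => ?_) i
    · rw [Fin.snoc_last, Fin.val_last, if_neg (not_lt.2 hdn)]
    · rw [Fin.snoc_castSucc]
      rfl
  refine ⟨fun n b' => KF2_one q l h b', fun n b hq h2 => KF2_two q l h b hq h2, h3, ?_⟩
  intro m J L hL x hx
  obtain ⟨E, hE, rfl⟩ := List.mem_map.1 hx
  refine ⟨h3 m J E (hL E hE).1, ?_⟩
  intro y hy
  obtain ⟨E', hE', rfl⟩ := List.mem_map.1 hy
  exact ((h1 A V q l h).2.1 E E').2 ((hL E hE).2 E' hE')

end Pool.Agent.SLZ
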