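import Pool.Agent.SLZ.StKF

/-!
# SLZ, KF3: the adapted basis (helper59)
-/

set_option autoImplicit false
set_option linter.unusedVariables false

noncomputable section

namespace Pool.Agent.SLZ

open Polynomial

section

variable {A : Type} [CommRing A] {V : Type} [AddCommGroup V] [Module A V]
  [Module A[X] V] [IsScalarTower A A[X] V]

theorem KF3_mul (k l : ℤ) (p q : A[X]) (hp : p ∈ degL A k) (hq : q ∈ degL A l) :
    p * q ∈ degL A (k + l) := by
  intro n hn
  rw [coeff_mul]
  refine Finset.sum_eq_zero fun x hx' => ?_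
  have hx : x.1 + x.2 = n := by simpa using hx'
  by_cases h4 : k < x.1
  · rw [hp x.1 h4, zero_mul]
  · have h5 : l < x.2 := by
      have : (x.1 : ℤ) + x.2 = n := by exact_mod_cast hx
      linarith
    rw [hq x.2 h5, mul_zero]

theorem KF3_C (a : A) (k : ℤ) (hk : 0 ≤ k) : (C a : A[X]) ∈ degL A k := by
  intro n hn
  rw [coeff_C, if_neg]
  rintro rfl
  simp only [Nat.cast_zero] at hn
  linarith

theorem KF3_eqC (p : A[X]) (h : p ∈ degL A 0) : p = C (p.coeff 0) := by
  ext n
  rw [coeff_C]
  split_ifs with hn
  · rw [hn]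
  · exact h n (by exact_mod_cast Nat.pos_of_ne_zero hn)

/-- one inclusion of lattices from the matrix -/
theorem KF3_le {ι : Type} [Fintype ι] [DecidableEq ι] (b b' : Module.Basis ι A[X] V) (w : ι → ℤ)
    (h : ∀ a c, b.repr (b' c) a ∈ degL A (w a - w c)) : OL b' w ≤ OL b w := by
  intro k v hv
  change ∀ i, b.repr v i ∈ degL A (k + w i)
  intro i
  have h1 : b.repr v i = ∑ c, b'.repr v c * b.repr (b' c) i := by
    conv_lhs => rw [← b'.sum_repr v]
    rw [map_sum, Finsupp.finsetSum_apply]
    refine Finset.sum_congr rfl fun c _ => ?_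
    rw [map_smul, Finsupp.smul_apply, smul_eq_mul]
  rw [h1]
  refine Submodule.sum_mem _ fun c _ => ?_
  have h2 : b'.repr v c ∈ degL A (k + w c) := fun n hn => hv c n hn
  have h3 := KF3_mul _ _ _ _ h2 (h i c)
  have h4 : k + w c + (w i - w c) = k + w i := by ring
  rwa [h4] at h3

end

/-- the basis of `A^(r + 1)` adapted to a functional with a value `1` -/
theorem KF3_basis (A : Type) [CommRing A] (s r : ℕ) (hK : KerFree A s) (hs : s ≤ r)
    (a c : Fin (r + 1) → A) (h : ∑ i, a i * c i = 1) :
    ∃ P Q : Matrix (Fin (r + 1)) (Fin (r + 1)) A, P * Q = 1 ∧ Q * P = 1 ∧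
      (∀ i, P i (Fin.last r) = c i) ∧ ∀ i, Q (Fin.last r) i = a i := by
  classical
  let f : (Fin (r + 1) → A) →ₗ[A] A := ∑ i, a i • LinearMap.proj i
  have hf : ∀ v, f v = ∑ i, a i * v i := by
    intro v
    simp [f, LinearMap.sum_apply]
  have hfc : f c = 1 := by rw [hf, h]
  let F : (Fin (r + 1) → A) →ₗ[A] (Fin 1 → A) := LinearMap.pi fun _ => f
  have hF : Function.Surjective F := by
    intro x
    refine ⟨x 0 • c, ?_⟩
    funext i
    change f (x 0 • c) = x i
    rw [map_smul, hfc, smul_eq_mul, mul_one, Subsingleton.elim i 0]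
  obtain ⟨bk⟩ := hK (r + 1) 1 F hF (by omega)
  rw [Nat.add_sub_cancel] at bk
  have hker : ∀ v : LinearMap.ker F, f v = 0 := fun v => congrFun (LinearMap.mem_ker.1 v.2) 0
  let E : (Fin (r + 1) → A) ≃ₗ[A] (LinearMap.ker F × A) :=
    { toFun := fun v => (⟨v - f v • c, by
        rw [LinearMap.mem_ker]
        funext i
        change f (v - f v • c) = 0
        rw [map_sub, map_smul, hfc, smul_eq_mul, mul_one, sub_self]⟩, f v)
      invFun := fun p => (p.1 : Fin (r + 1) → A) + p.2 • c
      map_add' := by
        intro u v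
        apply Prod.ext
        · apply Subtype.ext
          change u + v - f (u + v) • c = (u - f u • c) + (v - f v • c)
          rw [map_add, add_smul]
          abel
        · exact map_add f u v
      map_smul' := by
        intro t v
        apply Prod.ext
        · apply Subtype.ext
          change t • v - f (t • v) • c = t • (v - f v • c)
          rw [map_smul, smul_sub, smul_smul, smul_eq_mul]
        · exact map_smul f t v
      left_inv := by
        intro v
        change v - f v • c + f v • c = v
        abel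
      right_inv := by
        rintro ⟨u, t⟩
        have h1 : f ((u : Fin (r + 1) → A) + t • c) = t := by
          rw [map_add, map_smul, hfc, hker u, smul_eq_mul, mul_one, zero_add]
        apply Prod.ext
        · apply Subtype.ext
          change (u : Fin (r + 1) → A) + t • c - f ((u : Fin (r + 1) → A) + t • c) • c = u
          rw [h1]
          abel
        · exact h1 }
  let e0 : Module.Basis (Fin r ⊕ Fin 1) A (LinearMap.ker F × A) :=
    bk.prod (Module.Basis.singleton (Fin 1) A)
  let e : Module.Basis (Fin (r + 1)) A (Fin (r + 1) → A) :=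
    (e0.map E.symm).reindex finSumFinEquiv
  have hlast : (finSumFinEquiv (Sum.inr (0 : Fin 1)) : Fin (r + 1)) = Fin.last r := by
    rw [finSumFinEquiv_apply_right]
    rfl
  have hlast' : finSumFinEquiv.symm (Fin.last r) = (Sum.inr (0 : Fin 1) : Fin r ⊕ Fin 1) := by
    rw [← hlast, Equiv.symm_apply_apply]
  have he1 : e (Fin.last r) = c := by
    change ((e0.map E.symm).reindex finSumFinEquiv) (Fin.last r) = c
    rw [Module.Basis.reindex_apply, hlast', Module.Basis.map_apply]
    have h2 : e0 (Sum.inr (0 : Fin 1)) = (0, 1) := by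
      apply Prod.ext
      · simp [e0]
      · simp [e0]
    rw [h2]
    change ((0 : LinearMap.ker F) : Fin (r + 1) → A) + (1 : A) • c = c
    rw [Submodule.coe_zero, zero_add, one_smul]
  have he2 : ∀ v, e.repr v (Fin.last r) = f v := by
    intro v
    change ((e0.map E.symm).reindex finSumFinEquiv).repr v (Fin.last r) = f v
    rw [Module.Basis.repr_reindex_apply, hlast']
    change e0.repr (E v) (Sum.inr 0) = f v
    simp [e0, E]
  let P := (Pi.basisFun A (Fin (r + 1))).toMatrix e
  let Q := e.toMatrix (Pi.basisFun A (Fin (r + 1)))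
  refine ⟨P, Q, Module.Basis.toMatrix_mul_toMatrix_flip _ _, Module.Basis.toMatrix_mul_toMatrix_flip _ _,
    fun i => ?_, fun i => ?_⟩
  · change (Pi.basisFun A (Fin (r + 1))).repr (e (Fin.last r)) i = c i
    rw [he1]
    rfl
  · change e.repr ((Pi.basisFun A (Fin (r + 1))) i) (Fin.last r) = a i
    rw [he2, hf]
    simp [Pi.basisFun_apply, Pi.single_apply]

theorem thm_KF3 : St_KF3 := by
  classical
  intro A _ _ s hK V _ _ _ _ n D b q l hlq hDs hl0 hlc hqc
  obtain ⟨r, rfl⟩ : ∃ r, n = D + r := ⟨n - D, by omega⟩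
  have hsr : s ≤ r := by omega
  obtain ⟨σ, hL, hR⟩ : ∃ σ : Fin D ⊕ Fin (r + 1) ≃ Fin (D + r + 1),
      (∀ i, (σ (Sum.inl i)).val = i.val) ∧ ∀ j, (σ (Sum.inr j)).val = D + j.val :=
    ⟨finSumFinEquiv (m := D) (n := r + 1), fun i => by rw [finSumFinEquiv_apply_left]; rfl,
      fun j => by rw [finSumFinEquiv_apply_right]; rfl⟩
  have hRl : σ.symm (Fin.last (D + r)) = Sum.inr (Fin.last r) := by
    rw [Equiv.symm_apply_eq]
    apply Fin.ext
    rw [hR]
    rfl
  let b1 : Module.Basis (Fin D ⊕ Fin (r + 1)) A[X] V := b.reindex σ.symm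
  have hb1 : ∀ x, b1 x = b (σ x) := fun x => by
    change (b.reindex σ.symm) x = _
    rw [Module.Basis.reindex_apply, Equiv.symm_symm]
  have hb1r : ∀ v x, b1.repr v x = b.repr v (σ x) := fun v x => by
    change (b.reindex σ.symm).repr v x = _
    rw [Module.Basis.repr_reindex_apply, Equiv.symm_symm]
  have hl1 : ∀ i : Fin D, l (b1 (Sum.inl i)) = 0 := fun i => by
    rw [hb1]
    exact hl0 _ (by rw [hL]; exact i.isLt)
  let a : Fin (r + 1) → A := fun j => (l (b1 (Sum.inr j))).coeff 0
  have ha : ∀ j, l (b1 (Sum.inr j)) = C (a j) := fun j => by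
    refine KF3_eqC _ ?_
    rw [hb1]
    exact hlc _ (by rw [hR]; omega)
  let c : Fin (r + 1) → A := fun j => (b1.repr q (Sum.inr j)).coeff 0
  have hc : ∀ j, b1.repr q (Sum.inr j) = C (c j) := fun j => by
    refine KF3_eqC _ ?_
    rw [hb1r]
    exact hqc _ (by rw [hR]; omega)
  have hac : ∑ i, a i * c i = 1 := by
    have h1 : l q = ∑ x, b1.repr q x * l (b1 x) := by
      conv_lhs => rw [← b1.sum_repr q]
      rw [map_sum]
      exact Finset.sum_congr rfl fun x _ => by rw [map_smul, smul_eq_mul]
    rw [hlq, Fintype.sum_sum_type] at h1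
    have h2 : ∑ i : Fin D, b1.repr q (Sum.inl i) * l (b1 (Sum.inl i)) = 0 :=
      Finset.sum_eq_zero fun i _ => by rw [hl1, mul_zero]
    rw [h2, zero_add] at h1
    have h3 : (C (∑ i, a i * c i) : A[X]) = C 1 := by
      rw [map_sum, C_1, h1]
      exact Finset.sum_congr rfl fun j _ => by rw [hc, ha, C_mul, mul_comm]
    exact C_injective h3
  obtain ⟨P, Q, hPQ, hQP, hPl, hQl⟩ := KF3_basis A s r hK hsr a c hac
  let P' : Matrix (Fin (r + 1)) (Fin (r + 1)) A[X] := P.map C
  let Q' : Matrix (Fin (r + 1)) (Fin (r + 1)) A[X] := Q.map C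
  have hPQ' : P' * Q' = 1 := by
    change P.map C * Q.map C = 1
    rw [← Matrix.map_mul, hPQ, Matrix.map_one _ C_0 C_1]
  have hQP' : Q' * P' = 1 := by
    change Q.map C * P.map C = 1
    rw [← Matrix.map_mul, hQP, Matrix.map_one _ C_0 C_1]
  let K : Matrix (Fin D) (Fin (r + 1)) A[X] := fun i j =>
    if j = Fin.last r then b1.repr q (Sum.inl i) else 0
  have hKQ : ∀ i j, (K * Q') i j = b1.repr q (Sum.inl i) * C (a j) := by
    intro i j
    rw [Matrix.mul_apply, Finset.sum_eq_single (Fin.last r)]
    · change (if Fin.last r = Fin.last r then b1.repr q (Sum.inl i) else 0) * C (Q (Fin.last r) j) = _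
      rw [if_pos rfl, hQl]
    · intro j' _ hj'
      change (if j' = Fin.last r then b1.repr q (Sum.inl i) else 0) * Q' j' j = 0
      rw [if_neg hj', zero_mul]
    · intro h
      exact absurd (Finset.mem_univ _) h
  let T : Matrix (Fin D ⊕ Fin (r + 1)) (Fin D ⊕ Fin (r + 1)) A[X] := Matrix.fromBlocks 1 K 0 P'
  let S : Matrix (Fin D ⊕ Fin (r + 1)) (Fin D ⊕ Fin (r + 1)) A[X] :=
    Matrix.fromBlocks 1 (-(K * Q')) 0 Q'
  have hTS : T * S = 1 := by
    change Matrix.fromBlocks 1 K 0 P' * Matrix.fromBlocks 1 (-(K * Q')) 0 Q' = 1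
    rw [Matrix.fromBlocks_multiply]
    simp [hPQ']
  have hST : S * T = 1 := by
    change Matrix.fromBlocks 1 (-(K * Q')) 0 Q' * Matrix.fromBlocks 1 K 0 P' = 1
    rw [Matrix.fromBlocks_multiply]
    simp [hQP', Matrix.mul_assoc]
  let g : V ≃ₗ[A[X]] V := Matrix.toLinOfInv b1 b1 hTS hST
  have hg : ∀ v, g v = Matrix.toLin b1 b1 T v := fun v => rfl
  have hgs : ∀ v, g.symm v = Matrix.toLin b1 b1 S v := fun v => rfl
  let b2 : Module.Basis (Fin D ⊕ Fin (r + 1)) A[X] V := b1.map g
  have hb2 : ∀ x, b2 x = ∑ y, T y x • b1 y := fun x => by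
    change g (b1 x) = _
    rw [hg, Matrix.toLin_self]
  have hb12 : ∀ x y, b1.repr (b2 x) y = T y x := fun x y => by
    rw [hb2, map_sum, Finsupp.finsetSum_apply, Finset.sum_eq_single y]
    · rw [map_smul, Finsupp.smul_apply, Module.Basis.repr_self, Finsupp.single_eq_same, smul_eq_mul,
        mul_one]
    · intro z _ hz
      rw [map_smul, Finsupp.smul_apply, Module.Basis.repr_self, Finsupp.single_apply, if_neg hz,
        smul_zero]
    · intro h
      exact absurd (Finset.mem_univ _) h
  have hb21 : ∀ x y, b2.repr (b1 x) y = S y x := fun x y => by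
    change b1.repr (g.symm (b1 x)) y = _
    rw [hgs, Matrix.toLin_self, map_sum, Finsupp.finsetSum_apply, Finset.sum_eq_single y]
    · rw [map_smul, Finsupp.smul_apply, Module.Basis.repr_self, Finsupp.single_eq_same, smul_eq_mul,
        mul_one]
    · intro z _ hz
      rw [map_smul, Finsupp.smul_apply, Module.Basis.repr_self, Finsupp.single_apply, if_neg hz,
        smul_zero]
    · intro h
      exact absurd (Finset.mem_univ _) h
  have hq2 : b2 (Sum.inr (Fin.last r)) = q := by
    conv_rhs => rw [← b1.sum_repr q]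
    rw [hb2]
    refine Finset.sum_congr rfl fun y _ => ?_
    rcases y with i | j
    · change (if Fin.last r = Fin.last r then b1.repr q (Sum.inl i) else 0) • b1 (Sum.inl i) = _
      rw [if_pos rfl]
    · change C (P j (Fin.last r)) • b1 (Sum.inr j) = _
      rw [hPl, hc]
  have hl2 : ∀ v, b2.repr v (Sum.inr (Fin.last r)) = l v := by
    intro v
    have h1 : b2.coord (Sum.inr (Fin.last r)) = l := by
      refine b2.ext fun x => ?_
      rw [Module.Basis.coord_apply, Module.Basis.repr_self, hb2, map_sum, Fintype.sum_sum_type]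
      have h2 : ∑ i : Fin D, l (T (Sum.inl i) x • b1 (Sum.inl i)) = 0 :=
        Finset.sum_eq_zero fun i _ => by rw [map_smul, hl1, smul_zero]
      rw [h2, zero_add]
      rcases x with i | j
      · rw [Finsupp.single_apply, if_neg (by simp)]
        symm
        refine Finset.sum_eq_zero fun j _ => ?_
        change l ((0 : A[X]) • b1 (Sum.inr j)) = 0
        rw [zero_smul, map_zero]
      · have h3 : ∑ i : Fin (r + 1), l (T (Sum.inr i) (Sum.inr j) • b1 (Sum.inr i)) =
            C (∑ i, Q (Fin.last r) i * P i j) := by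
          rw [map_sum]
          refine Finset.sum_congr rfl fun i _ => ?_
          change l (C (P i j) • b1 (Sum.inr i)) = _
          rw [map_smul, ha, hQl, smul_eq_mul, C_mul, mul_comm]
        rw [h3]
        have h4 : ∑ i, Q (Fin.last r) i * P i j = (1 : Matrix (Fin (r + 1)) (Fin (r + 1)) A) (Fin.last r) j := by
          rw [← hQP, Matrix.mul_apply]
        rw [h4, Matrix.one_apply, Finsupp.single_apply]
        by_cases hj : j = Fin.last r
        · subst hj
          simp
        · rw [if_neg (by simpa using hj), if_neg (fun h => hj h.symm), C_0]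
    rw [← h1, Module.Basis.coord_apply]
  refine ⟨b2.reindex σ, ?_, ?_, ?_⟩
  · rw [Module.Basis.reindex_apply, hRl, hq2]
  · intro v
    rw [Module.Basis.repr_reindex_apply, hRl, hl2]
  · intro d hd h1 h2
    let w : Fin D ⊕ Fin (r + 1) → ℤ := fun x => if (σ x).val < d then 1 else 0
    have hwl : ∀ i : Fin D, w (Sum.inl i) = if i.val < d then 1 else 0 := fun i => by
      change (if (σ (Sum.inl i)).val < d then (1 : ℤ) else 0) = _
      rw [hL]
    have hwr : ∀ j : Fin (r + 1), w (Sum.inr j) = 0 := fun j => by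
      change (if (σ (Sum.inr j)).val < d then (1 : ℤ) else 0) = _
      rw [hR, if_neg (by omega)]
    have hq' : ∀ i : Fin D, b1.repr q (Sum.inl i) ∈ degL A (w (Sum.inl i)) := fun i => by
      rw [hb1r, hwl]
      split_ifs with hi
      · exact h1 _ (by rw [hL]; exact hi)
      · exact h2 _ (by rw [hL]; omega)
    have hT : ∀ x y, T x y ∈ degL A (w x - w y) := by
      rintro (i | i) (j | j)
      · change (1 : Matrix (Fin D) (Fin D) A[X]) i j ∈ _
        rw [Matrix.one_apply]
        split_ifs with hij
        · subst hij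
          rw [← C_1]
          exact KF3_C _ _ (by linarith)
        · exact Submodule.zero_mem _
      · change (if j = Fin.last r then b1.repr q (Sum.inl i) else 0) ∈ _
        split_ifs with hj
        · rw [hwr, sub_zero]
          exact hq' i
        · exact Submodule.zero_mem _
      · exact Submodule.zero_mem _
      · rw [hwr, hwr]
        exact KF3_C _ _ (by norm_num)
    have hS : ∀ x y, S x y ∈ degL A (w x - w y) := by
      rintro (i | i) (j | j)
      · change (1 : Matrix (Fin D) (Fin D) A[X]) i j ∈ _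
        rw [Matrix.one_apply]
        split_ifs with hij
        · subst hij
          rw [← C_1]
          exact KF3_C _ _ (by linarith)
        · exact Submodule.zero_mem _
      · change -((K * Q') i j) ∈ _
        rw [hKQ, hwr, sub_zero]
        refine Submodule.neg_mem _ ?_
        have h3 := KF3_mul _ _ _ _ (hq' i) (KF3_C (a j) 0 le_rfl)
        rwa [add_zero] at h3
      · exact Submodule.zero_mem _
      · rw [hwr, hwr]
        exact KF3_C _ _ (by norm_num)
    have hE : OL b2 w = OL b1 w := by
      refine le_antisymm (KF3_le b1 b2 w fun x y => ?_) (KF3_le b2 b1 w fun x y => ?_)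
      · rw [hb12]
        exact hT x y
      · rw [hb21]
        exact hS x y
    have hre : ∀ b' : Module.Basis (Fin D ⊕ Fin (r + 1)) A[X] V,
        OL (b'.reindex σ) (fun i => if i.val < d then 1 else 0) = OL b' w := by
      intro b'
      funext k
      ext v
      constructor
      · intro hv x m hm
        have h3 := hv (σ x) m hm
        rw [Module.Basis.repr_reindex_apply, Equiv.symm_apply_apply] at h3
        exact h3
      · intro hv x m hm
        obtain ⟨y, rfl⟩ := σ.surjective x
        rw [Module.Basis.repr_reindex_apply, Equiv.symm_apply_apply]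
        exact hv y m hm
    have h5 : b1.reindex σ = b := by
      refine Module.Basis.eq_of_apply_eq fun x => ?_
      rw [Module.Basis.reindex_apply, hb1, Equiv.apply_symm_apply]
    have h6 := hre b2
    have h7 := hre b1
    rw [h5] at h7
    exact h6.trans (hE.trans h7.symm)

end Pool.Agent.SLZ
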