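import Pool.Agent.SLZ.StKF

/-!
# SLZ: module KF4, the frame vectors of a diagonal lattice
-/

set_option autoImplicit false

noncomputable section

namespace Pool.Agent.SLZ

open Polynomial

theorem KF4_mul {A : Type} [CommRing A] (k : ℤ) (p c : A[X]) (hp : p ∈ degL A k)
    (hc : c ∈ degL A 0) : p * c ∈ degL A k := by
  intro n hn
  rw [coeff_mul]
  refine Finset.sum_eq_zero fun x hx' => ?_
  have hx : x.1 + x.2 = n := by simpa using hx'
  by_cases h1 : k < x.1
  · rw [hp x.1 h1, zero_mul]
  · have h2 : (0 : ℤ) < x.2 := by omega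
    rw [hc x.2 h2, mul_zero]

theorem thm_KF4 : St_KF4 := by
  intro A _ V _ _ _ _ n d b q l
  have hb : ∀ i, b i ∈ OL (A := A) b (fun i => if i.val < d then (1 : ℤ) else 0)
      (-(if i.val < d then (1 : ℤ) else 0)) := by
    intro i j m hm
    rw [Module.Basis.repr_self, Finsupp.single_apply]
    split_ifs with h
    · subst h
      rw [coeff_one, if_neg]
      rintro rfl
      simp at hm
    · exact coeff_zero m
  constructor
  · rintro ⟨h1, h2, h3⟩
    refine ⟨h1, ?_, ?_, ?_, ?_⟩
    · intro i hi
      have h4 := h3 _ (b i) (hb i)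
      ext m
      rw [coeff_zero]
      apply h4 m
      rw [if_pos hi]
      omega
    · intro i hi
      have h4 := h3 _ (b i) (hb i)
      rw [if_neg (not_lt.2 hi), neg_zero] at h4
      exact h4
    · intro i hi m hm
      apply h2 i m
      show (0 : ℤ) + (if i.val < d then (1 : ℤ) else 0) < m
      rw [if_pos hi]
      omega
    · intro i hi m hm
      apply h2 i m
      show (0 : ℤ) + (if i.val < d then (1 : ℤ) else 0) < m
      rw [if_neg (not_lt.2 hi)]
      omega
  · rintro ⟨h1, h2, h3, h4, h5⟩
    refine ⟨h1, ?_, ?_⟩
    · intro i m hm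
      replace hm : (0 : ℤ) + (if i.val < d then (1 : ℤ) else 0) < m := hm
      by_cases hi : i.val < d
      · rw [if_pos hi] at hm
        exact h4 i hi m (by omega)
      · rw [if_neg hi] at hm
        exact h5 i (not_lt.1 hi) m (by omega)
    · intro k v hv
      show l v ∈ degL A k
      have e1 : l v = ∑ i, b.repr v i * l (b i) := by
        conv_lhs => rw [← b.sum_repr v]
        rw [map_sum]
        refine Finset.sum_congr rfl fun i _ => ?_
        rw [map_smul, smul_eq_mul]
      rw [e1]
      refine Submodule.sum_mem _ fun i _ => ?_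
      by_cases hi : i.val < d
      · rw [h2 i hi, mul_zero]
        exact Submodule.zero_mem _
      · refine KF4_mul k _ _ ?_ (h3 i (not_lt.1 hi))
        intro m hm
        apply hv i m
        show k + (if i.val < d then (1 : ℤ) else 0) < m
        rw [if_neg hi]
        omega

end Pool.Agent.SLZ
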