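import Pool.Agent.SLZ.StKF

/-!
# SLZ, module KF5 (helper17): the simplices of `T` with a common frame vector
-/

set_option autoImplicit false

noncomputable section

namespace Pool.Agent.SLZ

open Polynomial

/-- the weights `(i < d)` on `Fin (k + 1)`, for `d ≤ k`, are the weights `(i < d)` on `Fin k` followed by `0` -/
theorem KF5_snoc (k d : ℕ) (hd : d ≤ k) :
    (Fin.snoc (α := fun _ => ℤ) (fun i : Fin k => if i.val < d then (1 : ℤ) else 0) 0 : Fin (k + 1) → ℤ) =
      fun i => if i.val < d then 1 else 0 := by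
  funext i
  refine Fin.lastCases ?_ (fun j => ?_) i
  · rw [Fin.snoc_last, Fin.val_last, if_neg (by omega)]
  · rw [Fin.snoc_castSucc, Fin.val_castSucc]

theorem thm_KF5 (h1 : St_KF1) (h2 : St_KF2) (h3 : St_KF3) (h4 : St_KF4) : St_KF5 := by
  classical
  intro A _ _ m s hP hK V _ _ _ _ n b0 J hn q l hq L hL hfr
  by_cases hne : L = []
  · subst hne
    refine ⟨[], ?_, rfl⟩
    intro x hx
    simp at hx
  have : Module.Free A[X] V := Module.Free.of_basis b0
  have : Module.Finite A[X] V := Module.Finite.of_basis b0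
  obtain ⟨n', b, hb⟩ := hP V J L hL
  have hnn : n' = n := by
    have e1 := Module.finrank_eq_card_basis b
    have e2 := Module.finrank_eq_card_basis b0
    rw [Fintype.card_fin] at e1 e2
    exact e1.symm.trans e2
  subst hnn
  obtain ⟨k, rfl⟩ : ∃ k, n' = k + 1 := ⟨n' - 1, by omega⟩
  choose! d hd using hb
  obtain ⟨E1, hE1⟩ := List.exists_mem_of_ne_nil L hne
  obtain ⟨E0, hE0, hmax⟩ := Finset.exists_max_image L.toFinset d ⟨E1, List.mem_toFinset.2 hE1⟩
  rw [List.mem_toFinset] at hE0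
  have hle : ∀ E ∈ L, d E ≤ d E0 := fun E hE => hmax E (List.mem_toFinset.2 hE)
  have key : ∀ E ∈ L, l q = 1 ∧ (∀ i, i.val < d E → l (b i) = 0) ∧
      (∀ i, d E ≤ i.val → l (b i) ∈ degL A 0) ∧
      (∀ i, i.val < d E → b.repr q i ∈ degL A 1) ∧ (∀ i, d E ≤ i.val → b.repr q i ∈ degL A 0) := by
    intro E hE
    refine (h4 A V (k + 1) (d E) b q l).1 ?_
    rw [← (hd E hE).2.2.2]
    exact hfr E hE
  obtain ⟨-, k1, k2, k3, k4⟩ := key E0 hE0
  have hDJ : d E0 ≤ m * J := (hd E0 hE0).2.2.1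
  obtain ⟨b'', hb1, hb2, hb3⟩ := h3 A s hK V k (d E0) b q l hq (by omega) k1 k2 k4
  obtain ⟨b', -, hb'⟩ := (h2 A V q l hq).2.1 k b'' hb1 hb2
  have hEeq : ∀ E ∈ L, addL q l (OL b' fun i => if i.val < d E then 1 else 0) = E := by
    intro E hE
    obtain ⟨-, e1, e2, e3, e4⟩ := key E hE
    rw [hb', KF5_snoc k (d E) (by have := hle E hE; omega), hb3 (d E) (hle E hE) e3 e4]
    exact (hd E hE).2.2.2.symm
  have hadj := (h1 A V q l hq).2.1
  refine ⟨L.map fun E => OL b' fun i => if i.val < d E then 1 else 0, ?_, ?_⟩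
  · intro x hx
    rw [List.mem_map] at hx
    obtain ⟨E, hE, rfl⟩ := hx
    refine ⟨⟨k, d E, b', by have := hle E hE; omega, (hd E hE).2.1, (hd E hE).2.2.1, rfl⟩, ?_⟩
    intro y hy
    rw [List.mem_map] at hy
    obtain ⟨E', hE', rfl⟩ := hy
    rw [← hadj, hEeq E hE, hEeq E' hE']
    exact (hL E hE).2 E' hE'
  · rw [List.map_map]
    conv_lhs => rw [← List.map_id L]
    refine List.map_congr_left fun E hE => ?_
    exact (hEeq E hE).symm

end Pool.Agent.SLZ
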