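import Pool.Agent.SLZ.StKF

/-!
# SLZ KF6: the frames of a simplex of the complexes of lattices (MP_24791f_al, helper64)
-/

set_option autoImplicit false
set_option linter.unusedVariables false

noncomputable section

namespace Pool.Agent.SLZ

open Polynomial

theorem KF6_congr {V : Type} {r r' : V → V → Prop} {S : Set V}
    (h : ∀ x ∈ S, ∀ y ∈ S, (r x y ↔ r' x y)) : Fl r S = Fl r' S := by
  have hs : (Fl r S).s = (Fl r' S).s := by
    ext l
    constructor
    · intro hl x hx
      exact ⟨(hl x hx).1, fun y hy => (h x (hl x hx).1 y (hl y hy).1).1 ((hl x hx).2 y hy)⟩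
    · intro hl x hx
      exact ⟨(hl x hx).1, fun y hy => (h x (hl x hx).1 y (hl y hy).1).2 ((hl x hx).2 y hy)⟩
  cases h1 : Fl r S
  cases h2 : Fl r' S
  rw [h1, h2] at hs
  simp only at hs
  subst hs
  rfl

theorem KF6_const {A : Type} [CommRing A] {p : A[X]} (h : p ∈ degL A 0) : p = C (p.coeff 0) := by
  ext k
  rw [coeff_C]
  split_ifs with hk
  · rw [hk]
  · exact h k (by exact_mod_cast Nat.pos_of_ne_zero hk)

theorem KF6_C {A : Type} [CommRing A] (a : A) (k : ℤ) (hk : 0 ≤ k) : C a ∈ degL A k := by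
  intro j hj
  rw [coeff_C, if_neg]
  rintro rfl
  exact absurd hj (not_lt.2 hk)

theorem thm_KF6 (h4 : St_KF4) : St_KF6 := by
  classical
  intro A _ _ s c V _ _ _ _ n b0
  refine ⟨fun m J hD hS hn L hL hne => ?_, fun hS hn => ?_⟩
  · have : Module.Free A[X] V := Module.Free.of_basis b0
    have : Module.Finite A[X] V := Module.Finite.of_basis b0
    obtain ⟨n', b, hb⟩ := hD V J L hL
    have hnn : n' = n := by
      have h1 := Module.finrank_eq_card_basis b
      have h2 := Module.finrank_eq_card_basis b0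
      rw [Fintype.card_fin] at h1 h2
      exact h1.symm.trans h2
    choose! d hd1 hd2 hd3 hd4 using hb
    obtain ⟨E0, hE0, hmax⟩ := L.toFinset.exists_max_image d (by
      obtain ⟨x, hx⟩ := List.exists_mem_of_ne_nil L hne
      exact ⟨x, List.mem_toFinset.2 hx⟩)
    have hE0L := List.mem_toFinset.1 hE0
    have hmax' : ∀ E ∈ L, d E ≤ d E0 := fun E hE => hmax E (List.mem_toFinset.2 hE)
    obtain ⟨N, hN⟩ : ∃ N, n' = d E0 + N := ⟨n' - d E0, by have := hd1 E0 hE0L; omega⟩
    have hNc : 2 * c + s ≤ N := by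
      have := hd3 E0 hE0L
      omega
    generalize hDD : d E0 = D at *
    subst hN
    -- membership in the set of frame vectors
    set T : Set (V × (V →ₗ[A[X]] A[X])) := {p | p.2 p.1 = 1 ∧ ∀ E ∈ L, p ∈ frS E} with hT
    let q' : V × (V →ₗ[A[X]] A[X]) → (Fin N → A) :=
      fun v i => (b.repr v.1 (Fin.natAdd D i)).coeff 0
    let l' : V × (V →ₗ[A[X]] A[X]) → ((Fin N → A) →ₗ[A] A) :=
      fun v => ∑ i, (v.2 (b (Fin.natAdd D i))).coeff 0 • LinearMap.proj i
    have hl' : ∀ v y, l' v y = ∑ i, (v.2 (b (Fin.natAdd D i))).coeff 0 * y i := fun v y => by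
      show (∑ i, (v.2 (b (Fin.natAdd D i))).coeff 0 • (LinearMap.proj i : (Fin N → A) →ₗ[A] A)) y = _
      rw [LinearMap.sum_apply]
      rfl
    have hmem : ∀ p ∈ T, (∀ i : Fin D, p.2 (b (Fin.castAdd N i)) = 0) ∧
        (∀ i : Fin N, p.2 (b (Fin.natAdd D i)) ∈ degL A 0) ∧
        ∀ i : Fin N, b.repr p.1 (Fin.natAdd D i) ∈ degL A 0 := by
      intro p hp
      have h1 := hp.2 E0 hE0L
      rw [hd4 E0 hE0L, hDD] at h1
      obtain ⟨-, h2, h3, -, h5⟩ := (h4 A V _ D b p.1 p.2).1 h1
      exact ⟨fun i => h2 _ i.2, fun i => h3 _ (Nat.le_add_right D i.1),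
        fun i => h5 _ (Nat.le_add_right D i.1)⟩
    have key : ∀ p ∈ T, ∀ p1 ∈ T, p.2 p1.1 = C (l' p (q' p1)) := by
      intro p hp p1 hp1
      obtain ⟨h1, h2, -⟩ := hmem p hp
      obtain ⟨-, -, h3⟩ := hmem p1 hp1
      conv_lhs => rw [← b.sum_repr p1.1]
      rw [map_sum, Fin.sum_univ_add, Finset.sum_eq_zero (fun i _ => by
        rw [map_smul, h1 i, smul_zero]), zero_add, hl', map_sum]
      refine Finset.sum_congr rfl fun i _ => ?_
      rw [map_smul, smul_eq_mul, C_mul, mul_comm, ← KF6_const (h2 i), ← KF6_const (h3 i)]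
    have hSFT : SFT q' l' T := by
      refine ⟨fun v hv => C_injective ?_, fun a f hf => ?_⟩
      · rw [← key v hv v hv, hv.1, C_1]
      · let q : V := b.equivFun.symm (Fin.addCases (fun _ => 0) fun i => C (a i))
        let l : V →ₗ[A[X]] A[X] := b.constr A[X]
          (Fin.addCases (fun _ => 0) fun i => C (f (Pi.single i 1)))
        have hq : ∀ k, b.repr q k = (Fin.addCases (fun _ => 0) (fun i => C (a i)) :
            Fin (D + N) → A[X]) k := fun k => by
          rw [← b.equivFun_apply, LinearEquiv.apply_symm_apply]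
        have hl : ∀ k, l (b k) = (Fin.addCases (fun _ => 0) (fun i => C (f (Pi.single i 1))) :
            Fin (D + N) → A[X]) k := fun k => b.constr_basis _ _ _
        have hq1 : ∀ i, b.repr q (Fin.castAdd N i) = 0 := fun i => by
          exact (hq _).trans (Fin.addCases_left i)
        have hq2 : ∀ i, b.repr q (Fin.natAdd D i) = C (a i) := fun i => by
          exact (hq _).trans (Fin.addCases_right i)
        have hl1 : ∀ i, l (b (Fin.castAdd N i)) = 0 := fun i => by
          exact (hl _).trans (Fin.addCases_left i)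
        have hl2 : ∀ i, l (b (Fin.natAdd D i)) = C (f (Pi.single i 1)) := fun i => by
          exact (hl _).trans (Fin.addCases_right i)
        have hfa : f a = ∑ i, f (Pi.single i 1) * a i := by
          rw [LinearMap.pi_apply_eq_sum_univ f a]
          refine Finset.sum_congr rfl fun i _ => ?_
          rw [smul_eq_mul, mul_comm]
          congr 2
          funext j
          rw [Pi.single_apply]
          simp only [eq_comm]
        have hlq : l q = 1 := by
          conv_lhs => rw [← b.sum_repr q]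
          rw [map_sum, Fin.sum_univ_add, Finset.sum_eq_zero (fun i _ => by
            rw [map_smul, hl1 i, smul_zero]), zero_add, ← C_1, ← hf, hfa, map_sum]
          refine Finset.sum_congr rfl fun i _ => ?_
          rw [map_smul, smul_eq_mul, hq2, hl2, C_mul, mul_comm]
        have hcases : ∀ (P : A[X] → Prop) (g : Fin (D + N) → A[X]), P 0 →
            (∀ i, g (Fin.castAdd N i) = 0) → (∀ i, P (g (Fin.natAdd D i))) → ∀ k, P (g k) := by
          intro P g h0 h1 h2 k
          refine Fin.addCases (fun i => ?_) (fun i => h2 i) k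
          rw [h1 i]
          exact h0
        refine ⟨(q, l), ⟨hlq, fun E hE => ?_⟩, ?_, ?_⟩
        · rw [hd4 E hE]
          have hlt : ∀ k : Fin (D + N), k.val < d E → ∃ i, k = Fin.castAdd N i := fun k hk =>
            ⟨⟨k.val, lt_of_lt_of_le hk (hmax' E hE)⟩, rfl⟩
          refine (h4 A V _ (d E) b q l).2 ⟨hlq, fun k hk => ?_, fun k _ => ?_, fun k hk => ?_,
            fun k _ => ?_⟩
          · obtain ⟨i, rfl⟩ := hlt k hk
            exact hl1 i
          · exact hcases (· ∈ degL A 0) (fun k => l (b k)) (degL A 0).zero_mem hl1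
              (fun i => by rw [hl2]; exact KF6_C _ 0 le_rfl) k
          · obtain ⟨i, rfl⟩ := hlt k hk
            rw [hq1]
            exact (degL A 1).zero_mem
          · exact hcases (· ∈ degL A 0) (fun k => b.repr q k) (degL A 0).zero_mem hq1
              (fun i => by rw [hq2]; exact KF6_C _ 0 le_rfl) k
        · funext i
          show (b.repr q (Fin.natAdd D i)).coeff 0 = a i
          rw [hq2, coeff_C_zero]
        · apply LinearMap.ext
          intro y
          rw [hl', LinearMap.pi_apply_eq_sum_univ f y]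
          refine Finset.sum_congr rfl fun i _ => ?_
          show (l (b (Fin.natAdd D i))).coeff 0 * y i = _
          rw [hl2, coeff_C_zero, smul_eq_mul, mul_comm]
          congr 2
          funext j
          rw [Pi.single_apply]
          simp only [eq_comm]
    have hC := hS N (V × (V →ₗ[A[X]] A[X])) (Fin N → A) q' l' T hNc
      ⟨LinearEquiv.refl A (Fin N → A)⟩ hSFT
    have he : Fl (sfr q' l') T = FrC L := by
      refine KF6_congr fun p hp p1 hp1 => ?_
      unfold sfr frR
      rw [key p hp p1 hp1, key p1 hp1 p hp, C_eq_zero, C_eq_zero]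
    rw [← he]
    exact hC
  · exact hS n (V × (V →ₗ[A[X]] A[X])) V (fun v => v.1) (fun v => v.2)
      {p | p.2 p.1 = 1 ∧ ∀ E ∈ ([] : List (Lat A V)), p ∈ frS E} hn ⟨b0.equivFun⟩
      ⟨fun v hv => hv.1, fun a f hf =>
        ⟨(a, f), ⟨hf, fun E hE => absurd hE List.not_mem_nil⟩, rfl, rfl⟩⟩

end Pool.Agent.SLZ
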