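import Pool.Agent.SLZ.StKF

/-!
# SLZ, module KF7 (helper47): orthonormal frames over a ring with free kernels
-/

set_option autoImplicit false
set_option linter.unusedVariables false

noncomputable section

namespace Pool.Agent.SLZ

section

variable {R V : Type} [CommRing R] [AddCommGroup V] [Module R V] {p : ℕ}

/-- the intersection of the kernels -/
theorem KF7_mem {l : Fin p → (V →ₗ[R] R)} {v : V} :
    v ∈ (⨅ i, LinearMap.ker (l i) : Submodule R V) ↔ ∀ i, l i v = 0 := by
  rw [Submodule.mem_iInf]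
  exact Iff.rfl

theorem KF7_sum {q : Fin p → V} {l : Fin p → (V →ₗ[R] R)}
    (h : ∀ i j, l i (q j) = if i = j then 1 else 0) (x : Fin p → R) (i : Fin p) :
    l i (∑ j, x j • q j) = x i := by
  rw [map_sum, Finset.sum_eq_single i]
  · rw [map_smul, h, if_pos rfl, smul_eq_mul, mul_one]
  · intro j _ hj
    rw [map_smul, h, if_neg (Ne.symm hj), smul_zero]
  · intro hi
    exact absurd (Finset.mem_univ i) hi

/-- the decomposition of `V` -/
theorem KF7_dec {q : Fin p → V} {l : Fin p → (V →ₗ[R] R)}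
    (h : ∀ i j, l i (q j) = if i = j then 1 else 0) :
    ∃ e : ((⨅ i, LinearMap.ker (l i) : Submodule R V) × (Fin p → R)) ≃ₗ[R] V,
      ∀ u x, e (u, x) = (u : V) + ∑ j, x j • q j := by
  let Φ : ((⨅ i, LinearMap.ker (l i) : Submodule R V) × (Fin p → R)) →ₗ[R] V :=
    (⨅ i, LinearMap.ker (l i) : Submodule R V).subtype ∘ₗ LinearMap.fst R _ _ +
      (∑ j, (LinearMap.proj j : (Fin p → R) →ₗ[R] R).smulRight (q j)) ∘ₗ LinearMap.snd R _ _
  have hΦ : ∀ u x, Φ (u, x) = (u : V) + ∑ j, x j • q j := by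
    intro u x
    show (u : V) + (∑ j, (LinearMap.proj j : (Fin p → R) →ₗ[R] R).smulRight (q j)) x = _
    rw [LinearMap.sum_apply]
    rfl
  have hl : ∀ u x i, l i (Φ (u, x)) = x i := by
    intro u x i
    rw [hΦ, map_add, KF7_sum h, KF7_mem.1 u.2 i, zero_add]
  have hb : Function.Bijective Φ := by
    constructor
    · rintro ⟨u, x⟩ ⟨u', x'⟩ he
      have hx : x = x' := by
        funext i
        rw [← hl u x i, he, hl]
      subst hx
      rw [hΦ, hΦ] at he
      have hu : (u : V) = u' := add_right_cancel he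
      rw [Subtype.ext hu]
    · intro v
      refine ⟨(⟨v - ∑ j, l j v • q j, KF7_mem.2 fun i => ?_⟩, fun i => l i v), ?_⟩
      · rw [map_sub, KF7_sum h, sub_self]
      · rw [hΦ]
        exact sub_add_cancel v _
  exact ⟨LinearEquiv.ofBijective Φ hb, fun u x => hΦ u x⟩

/-- a basis of the kernel -/
theorem KF7_ker {s n : ℕ} (hK : KerFree R s) (b0 : Module.Basis (Fin n) R V) (hn : p + s ≤ n)
    {q : Fin p → V} {l : Fin p → (V →ₗ[R] R)} (h : ∀ i j, l i (q j) = if i = j then 1 else 0) :
    Nonempty (Module.Basis (Fin (n - p)) R (⨅ i, LinearMap.ker (l i) : Submodule R V)) := by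
  let f : (Fin n → R) →ₗ[R] (Fin p → R) := LinearMap.pi l ∘ₗ b0.equivFun.symm.toLinearMap
  have hf : Function.Surjective f := by
    intro y
    refine ⟨b0.equivFun (∑ j, y j • q j), ?_⟩
    funext i
    show l i (b0.equivFun.symm (b0.equivFun (∑ j, y j • q j))) = y i
    rw [LinearEquiv.symm_apply_apply, KF7_sum h]
  obtain ⟨b⟩ := hK n p f hf hn
  have h1 : (LinearMap.ker f).map (b0.equivFun.symm : (Fin n → R) →ₗ[R] V) =
      (⨅ i, LinearMap.ker (l i) : Submodule R V) := by
    ext v
    rw [KF7_mem]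
    constructor
    · rintro ⟨x, hx, rfl⟩ i
      exact congrFun (show f x = 0 from hx) i
    · intro hv
      refine ⟨b0.equivFun v, ?_, b0.equivFun.symm_apply_apply v⟩
      show f (b0.equivFun v) = 0
      funext i
      show l i (b0.equivFun.symm (b0.equivFun v)) = 0
      rw [LinearEquiv.symm_apply_apply]
      exact hv i
  exact ⟨(b.map (b0.equivFun.symm.submoduleMap (LinearMap.ker f))).map (LinearEquiv.ofEq _ _ h1)⟩

end

/-- **KF7.** Orthonormal frames. -/
theorem thm_KF7 : St_KF7 := by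
  classical
  intro R _ s hK V _ _ n p b0 hn q l h
  refine ⟨fun q' l' h' => ?_, KF7_ker hK b0 hn h⟩
  obtain ⟨b⟩ := KF7_ker hK b0 hn h
  obtain ⟨b'⟩ := KF7_ker hK b0 hn h'
  obtain ⟨e, he⟩ := KF7_dec h
  obtain ⟨e', he'⟩ := KF7_dec h'
  let κ : (⨅ i, LinearMap.ker (l i) : Submodule R V) ≃ₗ[R]
      (⨅ i, LinearMap.ker (l' i) : Submodule R V) := b.equiv b' (Equiv.refl _)
  refine ⟨e.symm.trans ((LinearEquiv.prodCongr κ (LinearEquiv.refl R (Fin p → R))).trans e'),
    fun i => ⟨?_, fun v => ?_⟩⟩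
  · have h1 : e (0, Pi.single i 1) = q i := by
      rw [he, Submodule.coe_zero, zero_add, Finset.sum_eq_single i]
      · rw [Pi.single_eq_same, one_smul]
      · intro j _ hj
        rw [Pi.single_eq_of_ne hj, zero_smul]
      · intro hi
        exact absurd (Finset.mem_univ i) hi
    have h2 : e' (0, Pi.single i 1) = q' i := by
      rw [he', Submodule.coe_zero, zero_add, Finset.sum_eq_single i]
      · rw [Pi.single_eq_same, one_smul]
      · intro j _ hj
        rw [Pi.single_eq_of_ne hj, zero_smul]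
      · intro hi
        exact absurd (Finset.mem_univ i) hi
    show e' ((LinearEquiv.prodCongr κ (LinearEquiv.refl R (Fin p → R))) (e.symm (q i))) = q' i
    rw [← h1, LinearEquiv.symm_apply_apply, ← h2]
    show e' (κ 0, Pi.single i 1) = e' (0, Pi.single i 1)
    rw [map_zero]
  · obtain ⟨⟨u, x⟩, rfl⟩ := e.surjective v
    show l' i (e' ((LinearEquiv.prodCongr κ (LinearEquiv.refl R (Fin p → R)))
      (e.symm (e (u, x))))) = l i (e (u, x))
    rw [LinearEquiv.symm_apply_apply, he, map_add, KF7_sum h, KF7_mem.1 u.2 i, zero_add]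
    show l' i (e' (κ u, x)) = x i
    rw [he', map_add, KF7_sum h', KF7_mem.1 (κ u).2 i, zero_add]

end Pool.Agent.SLZ
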