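import Pool.Agent.SLZ.StKF

/-!
# SLZ, module KF8 (helper47): the lattices with given frame vectors
-/

set_option autoImplicit false
set_option linter.unusedVariables false

noncomputable section

namespace Pool.Agent.SLZ

open Polynomial

theorem KF8_lift {α β : Type} (f : α → β) (l : List β) (h : ∀ x ∈ l, ∃ y, f y = x) :
    ∃ l' : List α, l'.map f = l := by
  induction l with
  | nil => exact ⟨[], rfl⟩
  | cons x l ih =>
    obtain ⟨l', hl'⟩ := ih fun y hy => h y (List.mem_cons_of_mem _ hy)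
    obtain ⟨y, hy⟩ := h x List.mem_cons_self
    exact ⟨y :: l', by rw [List.map_cons, hl', hy]⟩

/-- **KF8.** The lattices with given frame vectors. -/
theorem thm_KF8 (h1 : St_KF1) (h2 : St_KF2) (h5 : St_KF5) (h7 : St_KF7) (hJ : St_VJ) : St_KF8 := by
  classical
  intro A _ _ m s s' c J N0 hPD hK hK' hPC r
  induction r with
  | zero =>
    intro V _ _ _ _ n b0 hn1 hn2 hn3 F hF hS
    obtain ⟨S, hS0, hSF⟩ := hS
    have hS1 : S = ∅ := Finset.card_eq_zero.1 (Nat.le_zero.1 hS0)
    have hF0 : ∀ v ∈ F, False := fun v hv => by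
      have h3 := hSF v hv
      rw [hS1] at h3
      exact absurd h3 (Finset.notMem_empty v)
    have h4 : {E : Lat A V | E ∈ TV A V m J ∧ ∀ v ∈ F, v ∈ frS E} = TV A V m J := by
      ext E
      exact ⟨fun h => h.1, fun h => ⟨h, fun v hv => (hF0 v hv).elim⟩⟩
    rw [h4]
    exact hPC V n b0 (by omega)
  | succ r ih =>
    intro V _ _ _ _ n b0 hn1 hn2 hn3 F hF hS
    rcases F.eq_nil_or_concat' with hnil | hne
    · have h4 : {E : Lat A V | E ∈ TV A V m J ∧ ∀ v ∈ F, v ∈ frS E} = TV A V m J := by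
        ext E
        refine ⟨fun h => h.1, fun h => ⟨h, fun v hv => ?_⟩⟩
        rw [hnil] at hv
        exact absurd hv List.not_mem_nil
      rw [h4]
      exact hPC V n b0 (by omega)
    have hex : ∃ v, v ∈ F := by
      obtain ⟨L, b, rfl⟩ := hne
      exact ⟨b, List.mem_append_right _ (List.mem_singleton.2 rfl)⟩
    obtain ⟨⟨q, l⟩, hql⟩ := hex
    have h : l q = 1 := (hF _ hql).1.1
    obtain ⟨k1, k2, k3, k4, k5, k6, k7⟩ := h1 A V q l h
    obtain ⟨-, -, -, m4⟩ := h2 A V q l h
    obtain ⟨F', hF'⟩ := KF8_lift (upF q l h) (F.filter fun v => v ≠ (q, l)) fun v hv => by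
      rw [List.mem_filter] at hv
      have hne : v ≠ (q, l) := by simpa using hv.2
      rcases (hF _ hql).2 v hv.1 with h3 | ⟨h3, h4⟩
      · exact absurd h3.symm hne
      · exact k6 v h3 h4
    have hup : ∀ p ∈ F', upF q l h p ∈ F ∧ upF q l h p ≠ (q, l) := by
      intro p hp
      have h3 : upF q l h p ∈ F'.map (upF q l h) := List.mem_map_of_mem hp
      rw [hF', List.mem_filter] at h3
      exact ⟨h3.1, by simpa using h3.2⟩
    have hdn : ∀ v ∈ F, v ≠ (q, l) → ∃ p ∈ F', upF q l h p = v := by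
      intro v hv hne
      have h3 : v ∈ F.filter fun v => v ≠ (q, l) := by
        rw [List.mem_filter]
        exact ⟨hv, by simpa using hne⟩
      rw [← hF'] at h3
      exact List.mem_map.1 h3
    have hFC : F' ∈ (FrC ([] : List (Lat A (LinearMap.ker l)))).s := by
      intro p hp
      refine ⟨⟨?_, fun E hE => absurd hE List.not_mem_nil⟩, fun p' hp' => ?_⟩
      · rw [← (k5 p p).2.1]
        exact (hF _ (hup p hp).1).1.1
      · exact (k5 p p').1.1 ((hF _ (hup p hp).1).2 _ (hup p' hp').1)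
    obtain ⟨S, hSc, hSF⟩ := hS
    have hcard : F'.toFinset.card ≤ r := by
      have h3 : (F'.toFinset.image (upF q l h)) ⊆ S.erase (q, l) := by
        intro v hv
        rw [Finset.mem_image] at hv
        obtain ⟨p, hp, rfl⟩ := hv
        rw [List.mem_toFinset] at hp
        rw [Finset.mem_erase]
        exact ⟨(hup p hp).2, hSF _ (hup p hp).1⟩
      have h4 := Finset.card_le_card h3
      rw [Finset.card_image_of_injective _ k7, Finset.card_erase_of_mem (hSF _ hql)] at h4
      omega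
    -- a basis of the kernel
    obtain ⟨b1⟩ : Nonempty (Module.Basis (Fin (n - 1)) A[X] (LinearMap.ker l)) := by
      obtain ⟨b⟩ := (h7 A[X] s' hK' V n 1 b0 (by omega) (fun _ => q) (fun _ => l) fun i j => by
        rw [Subsingleton.elim i j, if_pos rfl]
        exact h).2
      have h3 : (⨅ i : Fin 1, LinearMap.ker l : Submodule A[X] V) = LinearMap.ker l := iInf_const
      exact ⟨b.map (LinearEquiv.ofEq _ _ h3)⟩
    have hIH := ih (LinearMap.ker l) (n - 1) b1 (by omega) (by omega) (by omega) F' hFC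
      ⟨F'.toFinset, hcard, fun v hv => List.mem_toFinset.2 hv⟩
    -- the decomposition
    have key : ∀ L ∈ (Fl adjL {E | E ∈ TV A V m J ∧ ∀ v ∈ F, v ∈ frS E}).s,
        ∃ L' ∈ (TT A (LinearMap.ker l) m J).s, L = L'.map (addL q l) := by
      intro L hL
      refine h5 A m s hPD hK V n b0 J (by omega) q l h L (fun E hE => ?_) fun E hE => ?_
      · exact ⟨(hL E hE).1.1, (hL E hE).2⟩
      · exact (hL E hE).1.2 _ hql
    refine ((hJ.1 (Lat A (LinearMap.ker l)) (Lat A V)
      (Fl adjL {E | E ∈ TV A (LinearMap.ker l) m J ∧ ∀ v ∈ F', v ∈ frS E})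
      (Fl adjL {E | E ∈ TV A V m J ∧ ∀ v ∈ F, v ∈ frS E}) (addL q l) (cutL l) c ?_ ?_ ?_).1) hIH
    · intro L' hL'
      have h3 : L' ∈ (TT A (LinearMap.ker l) m J).s := fun E hE => ⟨(hL' E hE).1.1, (hL' E hE).2⟩
      have h4 := m4 m J L' h3
      intro E hE
      obtain ⟨h6, h7⟩ := h4 E hE
      refine ⟨⟨h6, fun v hv => ?_⟩, h7⟩
      obtain ⟨E', hE', rfl⟩ := List.mem_map.1 hE
      by_cases hv0 : v = (q, l)
      · rw [hv0]
        exact k3 E'
      · obtain ⟨p, hp, rfl⟩ := hdn v hv hv0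
        exact (k4 p E').2 ((hL' E' hE').1.2 p hp)
    · intro L hL
      obtain ⟨L', hL', rfl⟩ := key L hL
      have h3 : (L'.map (addL q l)).map (cutL l) = L' := by
        rw [List.map_map]
        refine (List.map_congr_left (g := id) fun E _ => ?_).trans (List.map_id L')
        exact k1 E
      rw [h3]
      intro E' hE'
      refine ⟨⟨(hL' E' hE').1, fun p hp => ?_⟩, (hL' E' hE').2⟩
      exact (k4 p E').1 ((hL _ (List.mem_map_of_mem hE')).1.2 _ (hup p hp).1)
    · intro L hL E hE
      obtain ⟨L', hL', rfl⟩ := key L hL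
      obtain ⟨E', hE', rfl⟩ := List.mem_map.1 hE
      rw [k1 E']

end Pool.Agent.SLZ
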