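import Pool.Agent.SLZ.StKF2

/-!
# SLZ, module KF9 (helper38): simplices with a common frame vector, in coordinates
-/

set_option autoImplicit false

noncomputable section

namespace Pool.Agent.SLZ

open Polynomial

section

variable {A : Type} [CommRing A]

theorem kf9_1 {N : ℕ} (j : Fin N) : (frV (stF (R := A[X]) j)).1 = Pi.single j 1 := rfl

theorem kf9_2 {N : ℕ} (j : Fin N) (v : Vn A N) : (frV (stF (R := A[X]) j)).2 v = v j := by
  change (∑ i, (Pi.single j (1 : A[X]) : Fin N → A[X]) i • (LinearMap.proj i :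
    (Fin N → A[X]) →ₗ[A[X]] A[X])) v = v j
  rw [LinearMap.sum_apply, Finset.sum_eq_single j]
  · rw [LinearMap.smul_apply, LinearMap.proj_apply, Pi.single_eq_same, one_smul]
  · intro b _ hb
    rw [LinearMap.smul_apply, Pi.single_eq_of_ne hb, zero_smul]
  · intro h
    exact absurd (Finset.mem_univ j) h

theorem kf9_fr {N : ℕ} (j : Fin N) (E : Lat A (Vn A N)) :
    frV (stF (R := A[X]) j) ∈ frS E ↔ (Pi.single j 1 : Vn A N) ∈ E 0 ∧
      ∀ k : ℤ, ∀ v ∈ E k, v j ∈ degL A k := by
  constructor
  · rintro ⟨-, h2, h3⟩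
    refine ⟨h2, fun k v hv => ?_⟩
    have := h3 k v hv
    rwa [kf9_2] at this
  · rintro ⟨h2, h3⟩
    refine ⟨?_, h2, fun k v hv => ?_⟩
    · rw [kf9_2, kf9_1, Pi.single_eq_same]
    · rw [kf9_2]
      exact h3 k v hv

theorem kf9_sL {N : ℕ} (E : Lat A (Vn A N)) (k : ℤ) (v : Vn A (N + 1)) :
    v ∈ sL E k ↔ (fun i => v (Fin.castSucc i)) ∈ E k ∧ v (Fin.last N) ∈ degL A k := Iff.rfl

theorem kf9_one {k : ℤ} (hk : 0 ≤ k) : (1 : A[X]) ∈ degL A k := by
  intro n hn
  rw [coeff_one, if_neg]
  rintro rfl
  simp at hn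
  omega

end

theorem thm_KF9 (h5 : St_KF5) (hA : St_KA1) : St_KF9 := by
  intro A _
  refine ⟨?_, ?_, ?_⟩
  · intro m s J N _ hD hK hN L hL hfr
    have hq : (frV (stF (R := A[X]) (Fin.last N))).2 (frV (stF (R := A[X]) (Fin.last N))).1 = 1 := by
      rw [kf9_2, kf9_1, Pi.single_eq_same]
    obtain ⟨L2, hL2, hL3⟩ := h5 A m s hD hK (Vn A (N + 1)) (N + 1)
      (Pi.basisFun A[X] (Fin (N + 1))) J (by omega) _ _ hq L hL hfr
    let l := (frV (stF (R := A[X]) (Fin.last N))).2
    have hl : ∀ v : Vn A (N + 1), l v = v (Fin.last N) := kf9_2 (Fin.last N)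
    let e : LinearMap.ker l ≃ₗ[A[X]] Vn A N :=
      { toFun := fun v i => v.1 (Fin.castSucc i)
        map_add' := fun u v => rfl
        map_smul' := fun c v => rfl
        invFun := fun u => ⟨Fin.snoc (α := fun _ => A[X]) u 0, by
          rw [LinearMap.mem_ker, hl, Fin.snoc_last]⟩
        left_inv := by
          intro v
          apply Subtype.ext
          funext i
          refine Fin.lastCases ?_ (fun j => ?_) i
          · have := v.2
            rw [LinearMap.mem_ker, hl] at this
            exact (Fin.snoc_last (α := fun _ => A[X]) 0 fun i => v.1 (Fin.castSucc i)).trans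
              this.symm
          · exact Fin.snoc_castSucc (α := fun _ => A[X]) 0 (fun i => v.1 (Fin.castSucc i)) j
        right_inv := by
          intro u
          funext i
          exact Fin.snoc_castSucc (α := fun _ => A[X]) 0 u i }
    refine ⟨L2.map (mapL e), ((hA A (LinearMap.ker l)).2.2 (Vn A N) e).2.2 m J L2 |>.2 hL2, ?_⟩
    rw [List.map_map]
    refine hL3.trans (List.map_congr_left fun E _ => ?_)
    funext k
    ext v
    rw [Function.comp_apply, kf9_sL]
    constructor
    · rintro ⟨u, hu, p, hp, rfl⟩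
      have hu0 : (u : Vn A (N + 1)) (Fin.last N) = 0 := by
        have := u.2
        rwa [LinearMap.mem_ker, kf9_2] at this
      refine ⟨⟨u, hu, ?_⟩, ?_⟩
      · funext i
        change (u : Vn A (N + 1)) (Fin.castSucc i) = (u : Vn A (N + 1)) (Fin.castSucc i) +
          p * (Pi.single (Fin.last N) (1 : A[X]) : Fin (N + 1) → A[X]) (Fin.castSucc i)
        rw [Pi.single_eq_of_ne (Fin.castSucc_lt_last i).ne, mul_zero, add_zero]
      · change (u : Vn A (N + 1)) (Fin.last N) +
          p * (Pi.single (Fin.last N) (1 : A[X]) : Fin (N + 1) → A[X]) (Fin.last N) ∈ degL A k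
        rw [Pi.single_eq_same, mul_one, hu0, zero_add]
        exact hp
    · rintro ⟨⟨u, hu, hu1⟩, hp⟩
      have hu0 : (u : Vn A (N + 1)) (Fin.last N) = 0 := by
        have := u.2
        rwa [LinearMap.mem_ker, hl] at this
      refine ⟨u, hu, v (Fin.last N), hp, ?_⟩
      funext i
      refine Fin.lastCases ?_ (fun j => ?_) i
      · change v (Fin.last N) = (u : Vn A (N + 1)) (Fin.last N) + v (Fin.last N) *
          (Pi.single (Fin.last N) (1 : A[X]) : Fin (N + 1) → A[X]) (Fin.last N)
        rw [Pi.single_eq_same, mul_one, hu0, zero_add]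
      · change v (Fin.castSucc j) = (u : Vn A (N + 1)) (Fin.castSucc j) + v (Fin.last N) *
          (Pi.single (Fin.last N) (1 : A[X]) : Fin (N + 1) → A[X]) (Fin.castSucc j)
        rw [Pi.single_eq_of_ne (Fin.castSucc_lt_last j).ne, mul_zero, add_zero]
        exact (congrFun hu1 j).symm
  · intro N j E
    rw [kf9_fr, kf9_fr]
    constructor
    · rintro ⟨h1, h2⟩
      refine ⟨?_, fun k v hv => ?_⟩
      · have := ((kf9_sL E 0 _).1 h1).1
        convert this using 1
        funext i
        by_cases hij : i = j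
        · subst hij
          rw [Pi.single_eq_same, Pi.single_eq_same]
        · rw [Pi.single_eq_of_ne hij, Pi.single_eq_of_ne (fun h => hij (Fin.castSucc_injective _ h))]
      · have := h2 k (Fin.snoc (α := fun _ => A[X]) v 0) ((kf9_sL E k _).2 ⟨by
          simp only [Fin.snoc_castSucc]
          exact hv, by
          rw [Fin.snoc_last]
          exact Submodule.zero_mem _⟩)
        rwa [Fin.snoc_castSucc] at this
    · rintro ⟨h1, h2⟩
      refine ⟨(kf9_sL E 0 _).2 ⟨?_, ?_⟩, fun k v hv => h2 k _ ((kf9_sL E k v).1 hv).1⟩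
      · convert h1 using 1
        funext i
        by_cases hij : i = j
        · subst hij
          rw [Pi.single_eq_same, Pi.single_eq_same]
        · rw [Pi.single_eq_of_ne hij, Pi.single_eq_of_ne (fun h => hij (Fin.castSucc_injective _ h))]
      · rw [Pi.single_eq_of_ne (Fin.castSucc_lt_last j).ne']
        exact Submodule.zero_mem _
  · intro N E
    rw [kf9_fr]
    refine ⟨(kf9_sL E 0 _).2 ⟨?_, ?_⟩, fun k v hv => ((kf9_sL E k v).1 hv).2⟩
    · convert Submodule.zero_mem (E 0) using 1
      funext i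
      rw [Pi.single_eq_of_ne (Fin.castSucc_lt_last i).ne]
      rfl
    · rw [Pi.single_eq_same]
      exact kf9_one le_rfl

end Pool.Agent.SLZ
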