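import Pool.Agent.SLZ.StV
import Pool.Agent.SLZ.MA

/-!
# SLZ / VJ: retracts of complexes, joins (module by helper13)
-/

set_option autoImplicit false
set_option linter.unusedVariables false

noncomputable section

namespace Pool.Agent.SLZ

theorem VJ_map {V W : Type} {A : Cx V} {B : Cx W} (f : V → W) (hf : ∀ l ∈ A.s, l.map f ∈ B.s)
    (j : ℕ) (c : List V →₀ ℤ) (hc : c ∈ Ch A.s j) : c.mapDomain (List.map f) ∈ Ch B.s j := by
  classical
  refine (Finsupp.mem_supported ℤ _).2 fun l hl => ?_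
  obtain ⟨l', hl', rfl⟩ := Finset.mem_image.1 (Finsupp.mapDomain_support hl)
  obtain ⟨h1, h2⟩ := (Finsupp.mem_supported ℤ _).1 hc hl'
  exact ⟨hf _ h1, by rw [List.length_map]; exact h2⟩

theorem VJ_conn {V W : Type} {A : Cx V} {B : Cx W} (f : V → W) (g : W → V)
    (hf : ∀ l ∈ A.s, l.map f ∈ B.s) (hg : ∀ l ∈ B.s, l.map g ∈ A.s)
    (hfg : ∀ l ∈ B.s, ∀ w ∈ l, f (g w) = w) {c : ℕ} (hA : Conn A c) : Conn B c := by
  intro j hj z hz hz0
  obtain ⟨-, -, -, hmapW, -⟩ := thm_MA W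
  obtain ⟨-, -, -, hmapV, -⟩ := thm_MA V
  obtain ⟨y, hy, hy'⟩ := hA j hj (z.mapDomain (List.map g)) (VJ_map g hg j z hz) (by
    rw [hmapW, hz0, Finsupp.mapDomain_zero])
  refine ⟨y.mapDomain (List.map f), VJ_map f hf _ y hy, ?_⟩
  rw [hmapV, hy', ← Finsupp.mapDomain_comp]
  have h : z.mapDomain (List.map f ∘ List.map g) = z.mapDomain id := by
    apply Finsupp.mapDomain_congr
    intro l hl
    have hl' := ((Finsupp.mem_supported ℤ _).1 hz hl).1
    change (l.map g).map f = l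
    rw [List.map_map]
    conv_rhs => rw [← List.map_id l]
    exact List.map_congr_left fun w hw => hfg l hl' w hw
  rw [h, Finsupp.mapDomain_id]

theorem VJ_1 {V W : Type} {A : Cx V} {B : Cx W} (f : V → W) (g : W → V)
    (hf : ∀ l ∈ A.s, l.map f ∈ B.s) (hg : ∀ l ∈ B.s, l.map g ∈ A.s)
    (hfg : ∀ l ∈ B.s, ∀ w ∈ l, f (g w) = w) {c : ℕ} (hA : SC A c) : SC B c := by
  intro Z C b hC
  refine VJ_conn (A := joinC A C) (Sum.map f id) (Sum.map g id) ?_ ?_ ?_ (hA Z C b hC)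
  · rintro l ⟨⟨a, ha, h1⟩, d, hd, h2⟩
    refine ⟨⟨a.map f, hf a ha, fun w hw => ?_⟩, d, hd, fun w hw => ?_⟩
    · obtain ⟨x, hx, hxw⟩ := List.mem_map.1 hw
      rcases x with x | x
      · have hxw' : f x = w := Sum.inl.inj hxw
        exact List.mem_map.2 ⟨x, h1 x hx, hxw'⟩
      · cases hxw
    · obtain ⟨x, hx, hxw⟩ := List.mem_map.1 hw
      rcases x with x | x
      · cases hxw
      · have hxw' : x = w := Sum.inr.inj hxw
        rw [← hxw']
        exact h2 x hx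
  · rintro l ⟨⟨a, ha, h1⟩, d, hd, h2⟩
    refine ⟨⟨a.map g, hg a ha, fun w hw => ?_⟩, d, hd, fun w hw => ?_⟩
    · obtain ⟨x, hx, hxw⟩ := List.mem_map.1 hw
      rcases x with x | x
      · have hxw' : g x = w := Sum.inl.inj hxw
        exact List.mem_map.2 ⟨x, h1 x hx, hxw'⟩
      · cases hxw
    · obtain ⟨x, hx, hxw⟩ := List.mem_map.1 hw
      rcases x with x | x
      · cases hxw
      · have hxw' : x = w := Sum.inr.inj hxw
        rw [← hxw']
        exact h2 x hx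
  · rintro l ⟨⟨a, ha, h1⟩, -⟩ w hw
    rcases w with w | w
    · change Sum.inl (f (g w)) = Sum.inl w
      rw [hfg a ha w (h1 w hw)]
    · rfl

theorem VJ_2 {V : Type} {A : Cx V} {c : ℕ} (hA : SC A c) : Conn A c := by
  have h := hA Empty ⟨Set.univ, fun _ _ _ _ => trivial⟩ 0 (fun j hj => absurd hj (Nat.not_lt_zero j))
  refine VJ_conn (A := joinC A ⟨Set.univ, fun _ _ _ _ => trivial⟩)
    (Sum.elim id Empty.elim : V ⊕ Empty → V) Sum.inl ?_ ?_ ?_ h
  · rintro l ⟨⟨a, ha, h1⟩, -⟩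
    refine A.mono a _ (fun w hw => ?_) ha
    obtain ⟨x, hx, hxw⟩ := List.mem_map.1 hw
    rcases x with x | x
    · have hxw' : x = w := hxw
      rw [← hxw']
      exact h1 x hx
    · exact x.elim
  · intro l hl
    refine ⟨⟨l, hl, fun v hv => ?_⟩, [], trivial, fun w => w.elim⟩
    obtain ⟨x, hx, hxv⟩ := List.mem_map.1 hv
    rw [← Sum.inl.inj hxv]
    exact hx
  · intro l hl w hw
    rfl

theorem VJ_4 {V W : Type} {A : Cx V} {B : Cx W} {c d : ℕ} (hA : SC A c) (hB : SC B d) :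
    SC (joinC A B) (c + d) := by
  intro Z C b hC
  have h := hA _ _ _ (hB Z C b hC)
  rw [← add_assoc] at h
  refine VJ_conn (A := joinC A (joinC B C)) (Equiv.sumAssoc V W Z).symm (Equiv.sumAssoc V W Z)
    ?_ ?_ ?_ h
  · rintro l ⟨⟨a, ha, h1⟩, m, ⟨⟨e, he, h2⟩, z, hz, h3⟩, h4⟩
    refine ⟨⟨a.map Sum.inl ++ e.map Sum.inr, ⟨⟨a, ha, fun v hv => ?_⟩, e, he, fun w hw => ?_⟩,
      fun x hx => ?_⟩, z, hz, fun w hw => ?_⟩
    · rcases List.mem_append.1 hv with h5 | h5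
      · obtain ⟨x, hx, hxv⟩ := List.mem_map.1 h5
        rw [← Sum.inl.inj hxv]; exact hx
      · obtain ⟨x, hx, hxv⟩ := List.mem_map.1 h5
        cases hxv
    · rcases List.mem_append.1 hw with h5 | h5
      · obtain ⟨x, hx, hxv⟩ := List.mem_map.1 h5
        cases hxv
      · obtain ⟨x, hx, hxv⟩ := List.mem_map.1 h5
        rw [← Sum.inr.inj hxv]; exact hx
    · obtain ⟨y, hy, hyx⟩ := List.mem_map.1 hx
      have hyx' : y = (Equiv.sumAssoc V W Z) (Sum.inl x) := by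
        rw [← hyx, Equiv.apply_symm_apply]
      rw [hyx'] at hy
      rcases x with x | x
      · exact List.mem_append_left _ (List.mem_map.2 ⟨x, h1 x hy, rfl⟩)
      · exact List.mem_append_right _ (List.mem_map.2 ⟨x, h2 x (h4 _ hy), rfl⟩)
    · obtain ⟨y, hy, hyx⟩ := List.mem_map.1 hw
      have hyx' : y = (Equiv.sumAssoc V W Z) (Sum.inr w) := by
        rw [← hyx, Equiv.apply_symm_apply]
      rw [hyx'] at hy
      exact h3 w (h4 _ hy)
  · rintro l ⟨⟨m, ⟨⟨a, ha, h1⟩, e, he, h2⟩, h4⟩, z, hz, h3⟩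
    refine ⟨⟨a, ha, fun v hv => ?_⟩, e.map Sum.inl ++ z.map Sum.inr,
      ⟨⟨e, he, fun v hv => ?_⟩, z, hz, fun w hw => ?_⟩, fun x hx => ?_⟩
    · obtain ⟨y, hy, hyx⟩ := List.mem_map.1 hv
      have hyx' : y = (Equiv.sumAssoc V W Z).symm (Sum.inl v) := by
        rw [← hyx, Equiv.symm_apply_apply]
      rw [hyx'] at hy
      exact h1 v (h4 _ hy)
    · rcases List.mem_append.1 hv with h5 | h5
      · obtain ⟨x, hx, hxv⟩ := List.mem_map.1 h5
        rw [← Sum.inl.inj hxv]; exact hx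
      · obtain ⟨x, hx, hxv⟩ := List.mem_map.1 h5
        cases hxv
    · rcases List.mem_append.1 hw with h5 | h5
      · obtain ⟨x, hx, hxv⟩ := List.mem_map.1 h5
        cases hxv
      · obtain ⟨x, hx, hxv⟩ := List.mem_map.1 h5
        rw [← Sum.inr.inj hxv]; exact hx
    · obtain ⟨y, hy, hyx⟩ := List.mem_map.1 hx
      have hyx' : y = (Equiv.sumAssoc V W Z).symm (Sum.inr x) := by
        rw [← hyx, Equiv.symm_apply_apply]
      rw [hyx'] at hy
      rcases x with x | x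
      · exact List.mem_append_left _ (List.mem_map.2 ⟨x, h2 x (h4 _ hy), rfl⟩)
      · exact List.mem_append_right _ (List.mem_map.2 ⟨x, h3 x hy, rfl⟩)
  · intro l hl w hw
    exact Equiv.symm_apply_apply _ _

theorem VJ_5 {V : Type} (r : V → V → Prop) (S : Set V) {c : ℕ} (hA : SC (Fl r S) c) :
    SConn r S c := by
  intro W q hq1 hq2 Z b hb
  refine VJ_conn (A := joinC (Fl r S) (Fl q Z)) id id ?_ ?_ (fun _ _ _ _ => rfl) (hA W (Fl q Z) b hb)
  · rintro l ⟨⟨a, ha, h1⟩, e, he, h2⟩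
    rw [List.map_id]
    intro x hx
    rcases x with x | x
    · refine ⟨Or.inl ⟨x, (ha x (h1 x hx)).1, rfl⟩, fun y hy => ?_⟩
      rcases y with y | y
      · exact (ha x (h1 x hx)).2 y (h1 y hy)
      · trivial
    · refine ⟨Or.inr ⟨x, (he x (h2 x hx)).1, rfl⟩, fun y hy => ?_⟩
      rcases y with y | y
      · trivial
      · exact (he x (h2 x hx)).2 y (h2 y hy)
  · intro l hl
    rw [List.map_id]
    refine ⟨⟨l.filterMap Sum.getLeft?, ?_, ?_⟩, l.filterMap Sum.getRight?, ?_, ?_⟩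
    · intro x hx
      obtain ⟨x', hx1, hx2⟩ := List.mem_filterMap.1 hx
      have hx3 : x' = Sum.inl x := Sum.getLeft?_eq_some_iff.1 hx2
      rw [hx3] at hx1
      obtain ⟨h1, h2⟩ := hl _ hx1
      refine ⟨?_, fun y hy => ?_⟩
      · rcases h1 with ⟨x'', hx'', h3⟩ | ⟨x'', -, h3⟩
        · rw [← Sum.inl.inj h3]; exact hx''
        · cases h3
      · obtain ⟨y', hy1, hy2⟩ := List.mem_filterMap.1 hy
        have hy3 : y' = Sum.inl y := Sum.getLeft?_eq_some_iff.1 hy2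
        rw [hy3] at hy1
        exact h2 _ hy1
    · intro v hv
      exact List.mem_filterMap.2 ⟨_, hv, rfl⟩
    · intro x hx
      obtain ⟨x', hx1, hx2⟩ := List.mem_filterMap.1 hx
      have hx3 : x' = Sum.inr x := Sum.getRight?_eq_some_iff.1 hx2
      rw [hx3] at hx1
      obtain ⟨h1, h2⟩ := hl _ hx1
      refine ⟨?_, fun y hy => ?_⟩
      · rcases h1 with ⟨x'', -, h3⟩ | ⟨x'', hx'', h3⟩
        · cases h3
        · rw [← Sum.inr.inj h3]; exact hx''
      · obtain ⟨y', hy1, hy2⟩ := List.mem_filterMap.1 hy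
        have hy3 : y' = Sum.inr y := Sum.getRight?_eq_some_iff.1 hy2
        rw [hy3] at hy1
        exact h2 _ hy1
    · intro v hv
      exact List.mem_filterMap.2 ⟨_, hv, rfl⟩

theorem thm_VJ : St_VJ :=
  ⟨fun V W A B f g c hf hg hfg => ⟨VJ_conn f g hf hg hfg, VJ_1 f g hf hg hfg⟩,
    fun V A c => VJ_2,
    fun V A c c' hc hA W B b hB j hj => hA W B b hB j (lt_of_lt_of_le hj (by omega)),
    fun V W A B c d => VJ_4,
    fun V r S c => VJ_5 r S⟩

end Pool.Agent.SLZ
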