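import Pool.Agent.SLZ.KF1
import Pool.Agent.SLZ.KF2
import Pool.Agent.SLZ.KF3
import Pool.Agent.SLZ.KF4
import Pool.Agent.SLZ.KF5
import Pool.Agent.SLZ.KF6
import Pool.Agent.SLZ.KF7
import Pool.Agent.SLZ.KF8
import Pool.Agent.SLZ.KF9
import Pool.Agent.SLZ.KF10
import Pool.Agent.SLZ.KA1
import Pool.Agent.SLZ.VJ

/-!
# SLZ, part KF without hypotheses (architect helper38)
-/

set_option autoImplicit false

namespace Pool.Agent.SLZ

theorem all_KF1 : St_KF1 := thm_KF1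
theorem all_KF2 : St_KF2 := thm_KF2 all_KF1
theorem all_KF3 : St_KF3 := thm_KF3
theorem all_KF4 : St_KF4 := thm_KF4
theorem all_KF5 : St_KF5 := thm_KF5 all_KF1 all_KF2 all_KF3 all_KF4
theorem all_KF6 : St_KF6 := thm_KF6 all_KF4
theorem all_KF7 : St_KF7 := thm_KF7
theorem all_KF8 : St_KF8 := thm_KF8 all_KF1 all_KF2 all_KF5 all_KF7 thm_VJ
theorem all_KF9 : St_KF9 := thm_KF9 all_KF5 thm_KA1
theorem all_KF10 : St_KF10 := thm_KF10 all_KF7

end Pool.Agent.SLZ
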