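import Pool.Agent.SLZ.StR

set_option autoImplicit false
set_option linter.unusedVariables false

/-! # SLZ RA1: acyclic carriers for lists -/

noncomputable section

namespace Pool.Agent.SLZ

section

variable {V V' : Type}

/-- a linear map that sends the lists of a set into a submodule sends the chains into it -/
theorem ra1_map {M : Type} [AddCommGroup M] (s : Set (List V)) (n : ℕ)
    (T : (List V →₀ ℤ) →ₗ[ℤ] M) (N : Submodule ℤ M)
    (h : ∀ l ∈ s, l.length = n → T (Finsupp.single l 1) ∈ N) : ∀ c ∈ Ch s n, T c ∈ N := by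
  have h1 : Ch s n ≤ N.comap T := by
    unfold Ch
    rw [Finsupp.supported_eq_span_single, Submodule.span_le]
    rintro _ ⟨l, ⟨hl, hn⟩, rfl⟩
    exact h l hl hn
  exact h1

/-- two linear maps that agree on the lists of a set agree on the chains -/
theorem ra1_ext {M : Type} [AddCommGroup M] (s : Set (List V)) (n : ℕ)
    (T T' : (List V →₀ ℤ) →ₗ[ℤ] M)
    (h : ∀ l ∈ s, l.length = n → T (Finsupp.single l 1) = T' (Finsupp.single l 1)) :
    ∀ c ∈ Ch s n, T c = T' c := by
  intro c hc
  have := ra1_map s n (T - T') ⊥ (fun l hl hn => by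
    rw [Submodule.mem_bot, LinearMap.sub_apply, h l hl hn, sub_self]) c hc
  rw [Submodule.mem_bot, LinearMap.sub_apply, sub_eq_zero] at this
  exact this

theorem ra1_Ch_mono {s s' : Set (List V)} (h : s ⊆ s') (n : ℕ) : Ch s n ≤ Ch s' n :=
  Finsupp.supported_mono fun _ hx => ⟨h hx.1, hx.2⟩

theorem ra1_bd_single (l : List V) : bd (Finsupp.single l 1) = bdL l := by
  simp [bd]

/-- the linear extension of a map on lists -/
def ra1_lift (h : List V → (List V' →₀ ℤ)) : (List V →₀ ℤ) →ₗ[ℤ] (List V' →₀ ℤ) :=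
  Finsupp.lift (List V' →₀ ℤ) ℤ (List V) h

theorem ra1_lift_single (h : List V → (List V' →₀ ℤ)) (l : List V) :
    ra1_lift h (Finsupp.single l 1) = h l := by
  simp [ra1_lift]

/-- the map on chains induced by a map of vertices -/
def ra1_fs (f : V → V') : (List V →₀ ℤ) →ₗ[ℤ] (List V' →₀ ℤ) :=
  Finsupp.lmapDomain ℤ ℤ (List.map f)

theorem ra1_fs_apply (f : V → V') (c : List V →₀ ℤ) :
    ra1_fs f c = c.mapDomain (List.map f) := rfl

theorem ra1_fs_single (f : V → V') (l : List V) :
    ra1_fs f (Finsupp.single l 1) = Finsupp.single (l.map f) 1 := by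
  rw [ra1_fs_apply, Finsupp.mapDomain_single]

/-- the lists in the vertices of a list -/
def ra1_sub (l : List V) : Cx V where
  s := {l' | l' ⊆ l}
  mono l₁ l₂ h h1 := fun x hx => h1 (h hx)

theorem ra1_bdL_mem (hMA : St_MA) (l : List V) (n : ℕ) (hl : l.length = n + 1) :
    bdL l ∈ Ch (ra1_sub l).s n := by
  rw [← ra1_bd_single]
  refine ((hMA V).2.2.1 (ra1_sub l) n).2 _ ?_
  exact Finsupp.single_mem_supported ℤ 1 ⟨List.Subset.refl _, hl⟩

theorem ra1_exists (hMA : St_MA) (K : Cx V) (f g : V → V') (Λ : List V → Cx V')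
    (h2 : ∀ l ∈ K.s, ∀ l', l' ⊆ l → (Λ l').s ⊆ (Λ l).s)
    (h3 : ∀ l ∈ K.s, l.map f ∈ (Λ l).s ∧ l.map g ∈ (Λ l).s)
    (h4 : ∀ l ∈ K.s, l ≠ [] → ∀ j, Ex (Λ l) j) (n : ℕ) :
    ∃ h : List V → (List V' →₀ ℤ), ∀ l ∈ K.s, l.length ≤ n →
      h l ∈ Ch (Λ l).s (l.length + 1) ∧
      bd (h l) = ra1_fs f (Finsupp.single l 1) - ra1_fs g (Finsupp.single l 1) -
        ra1_lift h (bdL l) := by
  induction n with
  | zero =>
    refine ⟨fun _ => 0, fun l hl hn => ⟨Submodule.zero_mem _, ?_⟩⟩
    have : l = [] := List.length_eq_zero_iff.1 (Nat.le_zero.1 hn)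
    subst this
    rw [ra1_fs_single, ra1_fs_single]
    simp [bdL]
  | succ n ih =>
    obtain ⟨h, hh⟩ := ih
    -- the new values
    have key : ∀ l : List V, ∃ y : List V' →₀ ℤ, l ∈ K.s → l.length = n + 1 →
        y ∈ Ch (Λ l).s (l.length + 1) ∧
        bd y = ra1_fs f (Finsupp.single l 1) - ra1_fs g (Finsupp.single l 1) -
          ra1_lift h (bdL l) := by
      intro l
      by_cases hl : l ∈ K.s ∧ l.length = n + 1
      · obtain ⟨hl1, hl2⟩ := hl
        have hne : l ≠ [] := by
          rintro rfl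
          simp at hl2
        have hb := ra1_bdL_mem hMA l n hl2
        have hsub : ∀ l' ∈ (ra1_sub l).s, l' ∈ K.s := fun l' hl' => K.mono _ _ hl' hl1
        have hz : ra1_fs f (Finsupp.single l 1) - ra1_fs g (Finsupp.single l 1) -
            ra1_lift h (bdL l) ∈ Ch (Λ l).s (n + 1) := by
          refine Submodule.sub_mem _ (Submodule.sub_mem _ ?_ ?_) ?_
          · rw [ra1_fs_single]
            exact Finsupp.single_mem_supported ℤ 1 ⟨(h3 l hl1).1, by simp [hl2]⟩
          · rw [ra1_fs_single]
            exact Finsupp.single_mem_supported ℤ 1 ⟨(h3 l hl1).2, by simp [hl2]⟩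
          · refine ra1_map (ra1_sub l).s n (ra1_lift h) _ (fun l' hl' hn => ?_) _ hb
            rw [ra1_lift_single]
            have h5 := (hh l' (hsub l' hl') hn.le).1
            rw [hn] at h5
            exact ra1_Ch_mono (h2 l hl1 l' hl') _ h5
        have hz0 : bd (ra1_fs f (Finsupp.single l 1) - ra1_fs g (Finsupp.single l 1) -
            ra1_lift h (bdL l)) = 0 := by
          have h6 := ra1_ext (ra1_sub l).s n (bd ∘ₗ ra1_lift h)
            (ra1_fs f - ra1_fs g - ra1_lift h ∘ₗ bd) (fun l' hl' hn => by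
              have := (hh l' (hsub l' hl') hn.le).2
              simp only [LinearMap.comp_apply, LinearMap.sub_apply, ra1_lift_single,
                ra1_bd_single]
              exact this) _ hb
          simp only [LinearMap.comp_apply, LinearMap.sub_apply] at h6
          have h7 : bd (bdL l) = 0 := by
            rw [← ra1_bd_single]
            exact (hMA V).1 _
          rw [h7, map_zero, sub_zero] at h6
          rw [map_sub, map_sub, h6]
          have h8 : ∀ f : V → V', bd (ra1_fs f (Finsupp.single l 1)) = ra1_fs f (bdL l) := by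
            intro f
            rw [ra1_fs_apply, (hMA V).2.2.2.1, ra1_bd_single]
            rfl
          rw [h8, h8, sub_self]
        obtain ⟨y, hy, hy'⟩ := h4 l hl1 hne (n + 1) _ hz hz0
        exact ⟨y, fun _ _ => ⟨by rw [hl2]; exact hy, hy'⟩⟩
      · exact ⟨0, fun h1 h2 => absurd ⟨h1, h2⟩ hl⟩
    choose y hy using key
    classical
    let h' : List V → (List V' →₀ ℤ) := fun l => if l.length ≤ n then h l else y l
    have hlift : ∀ l : List V, l.length ≤ n + 1 → ra1_lift h' (bdL l) = ra1_lift h (bdL l) := by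
      intro l hl
      rcases Nat.eq_zero_or_pos l.length with h0 | h0
      · have : l = [] := List.length_eq_zero_iff.1 h0
        subst this
        simp [bdL]
      · obtain ⟨m, hm⟩ : ∃ m, l.length = m + 1 := ⟨l.length - 1, by omega⟩
        have hb := ra1_bdL_mem hMA l m hm
        refine ra1_ext (ra1_sub l).s m _ _ (fun l' hl' hn => ?_) _ hb
        rw [ra1_lift_single, ra1_lift_single]
        exact if_pos (by omega)
    refine ⟨h', fun l hl hn => ?_⟩
    rw [hlift l hn]
    rcases Nat.lt_or_ge n l.length with h5 | h5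
    · have h6 : h' l = y l := if_neg (by omega)
      rw [h6]
      exact hy l hl (by omega)
    · have h6 : h' l = h l := if_pos h5
      rw [h6]
      exact hh l hl h5

end

theorem thm_RA1 (hMA : St_MA) : St_RA1 := by
  intro V V' K K' f g Λ h1 h2 h3 h4 j z hz hz0
  obtain ⟨h, hh⟩ := ra1_exists hMA K f g Λ h2 h3 h4 j
  refine ⟨ra1_lift h z, ?_, ?_⟩
  · refine ra1_map K.s j (ra1_lift h) _ (fun l hl hn => ?_) z hz
    rw [ra1_lift_single]
    have h5 := (hh l hl hn.le).1
    rw [hn] at h5
    exact ra1_Ch_mono (h1 l hl) _ h5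
  · have h6 := ra1_ext K.s j (bd ∘ₗ ra1_lift h)
      (ra1_fs f - ra1_fs g - ra1_lift h ∘ₗ bd) (fun l hl hn => by
        have := (hh l hl hn.le).2
        simp only [LinearMap.comp_apply, LinearMap.sub_apply, ra1_lift_single,
          ra1_bd_single]
        exact this) z hz
    simp only [LinearMap.comp_apply, LinearMap.sub_apply] at h6
    rw [h6, hz0, map_zero, sub_zero]
    rfl

end Pool.Agent.SLZ
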