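import Pool.Agent.SLZ.StK
import Pool.Agent.SLZ.MA
import Pool.Agent.SLZ.RA1

/-!
# SLZ, KG: two maps which span cones (helper24)
-/

set_option autoImplicit false
set_option linter.unusedVariables false

noncomputable section

namespace Pool.Agent.SLZ

/-- the simplices with vertices in the union of the two images -/
def KG_car {V V' : Type} (K' : Cx V') (f0 f1 : V → V') (l : List V) : Cx V' where
  s := {t | t ∈ K'.s ∧ ∀ v ∈ t, v ∈ l.map f0 ∨ v ∈ l.map f1}
  mono t t' ht h := ⟨K'.mono t t' ht h.1, fun v hv => h.2 v (ht hv)⟩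

/-- **KG** -/
theorem thm_KG : St_KG := by
  intro V V' K K' f0 f1 hnil hcone hmap j hj z hz
  have hRA : St_RA1 := thm_RA1 thm_MA
  refine hRA V V' K K' f0 f1 (KG_car K' f0 f1) (fun l _ t ht => ht.1) ?_ ?_ ?_ j z hz.1 hz.2
  · intro l _ l' hl' t ht
    refine ⟨ht.1, fun v hv => ?_⟩
    rcases ht.2 v hv with h | h
    · exact Or.inl (List.map_subset f0 hl' h)
    · exact Or.inr (List.map_subset f1 hl' h)
  · intro l hl
    exact ⟨⟨(hmap l hl).1, fun v hv => Or.inl hv⟩, ⟨(hmap l hl).2, fun v hv => Or.inr hv⟩⟩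
  · intro l hl hne i
    obtain ⟨x, hx, hx2⟩ := hcone l hl hne
    refine (thm_MA V').2.2.2.2.2.1 (KG_car K' f0 f1 l) x ?_ i
    intro t ht
    refine ⟨hx2 t ht.1 ht.2, fun v hv => ?_⟩
    rcases List.mem_cons.1 hv with h | h
    · rw [h]
      exact hx
    · exact ht.2 v h

end Pool.Agent.SLZ
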