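import Pool.Agent.SLZ.StS
import Pool.Agent.SLZ.MA

/-!
# SLZ, SU: parts U and S together (helper24)
-/

set_option autoImplicit false
set_option linter.unusedVariables false

noncomputable section

namespace Pool.Agent.SLZ

theorem SU_push_comp {X Y Z : Type} (f : X → Y) (g : Y → Z) (z : List X →₀ ℤ) :
    push g (push f z) = push (fun x => g (f x)) z := by
  change Finsupp.mapDomain (List.map g) (Finsupp.mapDomain (List.map f) z) =
    Finsupp.mapDomain (List.map fun x => g (f x)) z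
  rw [← Finsupp.mapDomain_comp]
  congr 1
  funext l
  simp

theorem SU_push_id {X : Type} (z : List X →₀ ℤ) : push (fun x : X => x) z = z := by
  change Finsupp.mapDomain (List.map fun x : X => x) z = z
  have h : (List.map fun x : X => x) = id := by
    funext l
    simp
  rw [h, Finsupp.mapDomain_id]

theorem SU_push_ch {X Y : Type} (A : Cx X) (B : Cx Y) (f : X → Y)
    (hf : ∀ l ∈ A.s, l.map f ∈ B.s) (j : ℕ) (z : List X →₀ ℤ) (hz : z ∈ Ch A.s j) :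
    push f z ∈ Ch B.s j := by
  classical
  refine (Finsupp.mem_supported ℤ _).2 ?_
  intro l hl
  have h1 := Finsupp.mapDomain_support hl
  obtain ⟨l0, h2, rfl⟩ := Finset.mem_image.1 h1
  have h3 := (Finsupp.mem_supported ℤ z).1 hz h2
  exact ⟨hf _ h3.1, by simpa using h3.2⟩

theorem SU_push_bd {X Y : Type} (f : X → Y) (z : List X →₀ ℤ) : bd (push f z) = push f (bd z) :=
  (thm_MA X).2.2.2.1 Y f z

theorem SU_push_cyc {X Y : Type} (A : Cx X) (B : Cx Y) (f : X → Y)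
    (hf : ∀ l ∈ A.s, l.map f ∈ B.s) (j : ℕ) (z : List X →₀ ℤ) (hz : z ∈ Cyc A j) :
    push f z ∈ Cyc B j := by
  refine ⟨SU_push_ch A B f hf j z hz.1, ?_⟩
  have h : bd z = 0 := hz.2
  change bd (push f z) = 0
  rw [SU_push_bd, h, map_zero]

section

variable {R : Type} [CommRing R] (L : LSys R)

theorem SU_SS_self (n : ℕ) (x : L.V n) : L.SS (le_refl n) x = x :=
  Nat.leRecOn_self (C := L.V) x

theorem SU_SS_succ {n N : ℕ} (h : n ≤ N) (h' : n ≤ N + 1) (x : L.V n) :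
    L.SS h' x = L.s N (L.SS h x) :=
  Nat.leRecOn_succ (C := L.V) h x

theorem SU_ST (hA : St_UA3) {j : ℕ} {S : Sys R} {cl : ∀ n, Cyc (L.K n) j →+ S.M n}
    (hS : L.IsH j S cl) {n N : ℕ} (h : n ≤ N) (z : Cyc (L.K n) j) :
    ∃ z' : Cyc (L.K N) j, z'.1 = push (L.SS h) z.1 ∧ cl N z' = S.ST h (cl n z) := by
  induction N, h using Nat.le_induction with
  | base =>
    refine ⟨z, ?_, ?_⟩
    · have h1 : L.SS (le_refl n) = fun x => x := funext fun x => SU_SS_self L n x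
      rw [h1, SU_push_id]
    · exact ((hA R S).1 n (cl n z)).symm
  | succ N hN ih =>
    obtain ⟨z', h1, h2⟩ := ih
    refine ⟨⟨push (L.s N) z'.1, SU_push_cyc _ _ _ (L.s_K N) j _ z'.2⟩, ?_, ?_⟩
    · change push (L.s N) z'.1 = _
      rw [h1, SU_push_comp]
      congr 1
      congr 1
      funext x
      exact (SU_SS_succ L hN _ x).symm
    · rw [← hS.st N z' _ rfl, h2]
      exact ((hA R S).2.1 n N hN _ (cl n z)).symm

theorem SU_smul {j : ℕ} {S : Sys R} {cl : ∀ n, Cyc (L.K n) j →+ S.M n}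
    (hS : L.IsH j S cl) {n : ℕ} (g : GLn R n) (z : Cyc (L.K n) j) :
    ∃ z' : Cyc (L.K n) j, z'.1 = push (fun x => g • x) z.1 ∧ cl n z' = g • cl n z :=
  ⟨⟨push (fun x => g • x) z.1, SU_push_cyc _ _ _ (L.K_smul n g) j _ z.2⟩, rfl,
    (hS.smul n g z _ rfl).symm⟩

theorem SU_smulST (hA : St_UA3) {j : ℕ} {S : Sys R} {cl : ∀ n, Cyc (L.K n) j →+ S.M n}
    (hS : L.IsH j S cl) {n N : ℕ} (h : n ≤ N) (g : GLn R N) (z : Cyc (L.K n) j) :
    ∃ z' : Cyc (L.K N) j, z'.1 = push (fun x => g • L.SS h x) z.1 ∧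
      cl N z' = g • S.ST h (cl n z) := by
  obtain ⟨z1, h1, h2⟩ := SU_ST L hA hS h z
  obtain ⟨z2, h3, h4⟩ := SU_smul L hS g z1
  exact ⟨z2, by rw [h3, h1, SU_push_comp], by rw [h4, h2]⟩

end

/-- **SU** -/
theorem thm_SU (hM : St_SM) (h3 : St_SH3) (hU : St_U) (hA : St_UA3) : St_SU := by
  intro R _ L j N0 n2 k0 k2 hc hr h4 h1 h2
  obtain ⟨S, cl, hS⟩ := hM R L j
  have H1 : S.H1 k0 := by
    intro n N h hk g hg1 hg2 c
    obtain ⟨z, rfl⟩ := hS.surj n c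
    obtain ⟨z1, a1, a2⟩ := SU_ST L hA hS h z
    obtain ⟨z2, b1, b2⟩ := SU_smulST L hA hS h g z
    have h5 : cl N (z2 - z1) = 0 := by
      rw [hS.ker]
      change z2.1 - z1.1 ∈ _
      rw [a1, b1]
      exact h1 n N h hk g hg1 hg2 z.1 z.2
    rw [map_sub, sub_eq_zero, a2, b2] at h5
    exact h5
  have H2 : S.H2 n2 k2 := by
    intro n N h hn hk hN w t hw1 hw2 ht c
    obtain ⟨z, rfl⟩ := hS.surj n c
    obtain ⟨z1, a1, a2⟩ := SU_ST L hA hS h z
    obtain ⟨z2, b1, b2⟩ := SU_smulST L hA hS h t z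
    obtain ⟨z3, c1, c2⟩ := SU_smulST L hA hS h (t * w) z
    obtain ⟨z4, d1, d2⟩ := SU_smulST L hA hS h w z
    have h5 : cl N (z2 + z3 - z1 - z4) = 0 := by
      rw [hS.ker]
      change z2.1 + z3.1 - z1.1 - z4.1 ∈ _
      rw [a1, b1, c1, d1]
      exact h2 n N h hn hk hN w t hw1 hw2 ht z.1 z.2
    rw [map_sub, map_sub, map_add, a2, b2, c2, d2] at h5
    rw [smul_add, ← mul_smul]
    have h6 := sub_eq_zero.1 h5
    have h7 := sub_eq_iff_eq_add.1 h6
    rw [h7, add_comm]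
  have H4 : S.H4 := by
    intro n c
    obtain ⟨z, rfl⟩ := hS.surj n c
    obtain ⟨N, h, h5⟩ := h4 n z.1 z.2
    refine ⟨N, h, ?_⟩
    obtain ⟨z1, a1, a2⟩ := SU_ST L hA hS h z
    rw [← a2, hS.ker, a1]
    exact h5
  have H3 : S.H3 (N0 + j) := h3 R L j N0 S cl hS hc hr
  obtain ⟨N2, hN2⟩ := hU R S k0 k2 n2 (N0 + j) H1 H2 H3 H4
  refine ⟨N2, fun N hN z hz hbz => ?_⟩
  have h5 := (hS.ker N ⟨z, hz, hbz⟩).1 (hN2 N hN _)
  obtain ⟨y, hy, hy2⟩ := h5
  exact ⟨y, hy, hy2⟩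

end Pool.Agent.SLZ
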