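import Pool.Agent.SLZ.StK
import Pool.Agent.SLZ.SU
import Pool.Agent.SLZ.KA1

/-!
# SLZ, KH4: every class dies (helper24)
-/

set_option autoImplicit false
set_option linter.unusedVariables false

noncomputable section

namespace Pool.Agent.SLZ

open Polynomial

/-- concatenation -/
def KH4_phi (A : Type) [CommRing A] (n M : ℕ) :
    (Vn A n × (Fin M → A[X])) ≃ₗ[A[X]] Vn A (n + M) where
  toFun p := fun i => Fin.addCases (motive := fun _ => A[X]) p.1 p.2 i
  map_add' p q := by
    funext i
    refine Fin.addCases (fun j => ?_) (fun j => ?_) i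
    · simp
    · simp
  map_smul' c p := by
    funext i
    refine Fin.addCases (fun j => ?_) (fun j => ?_) i
    · simp
    · simp
  invFun v := (fun i => v (Fin.castAdd M i), fun i => v (Fin.natAdd n i))
  left_inv p := by
    refine Prod.ext ?_ ?_
    · funext i
      simp
    · funext i
      simp
  right_inv v := by
    funext i
    refine Fin.addCases (fun j => ?_) (fun j => ?_) i
    · simp
    · simp

theorem KH4_cblk (A : Type) [CommRing A] (n M : ℕ) (v : Vn A (n + M)) :
    (cblk A[X] n (n + M) 0).mulVec v = fun i => v (Fin.castAdd M i) := by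
  funext j
  rw [Matrix.mulVec, dotProduct, Finset.sum_eq_single (Fin.castAdd M j)]
  · have h : (Fin.castAdd M j).val = 0 + j.val := by simp
    rw [cblk, if_pos h, one_mul]
  · intro i _ hi
    rw [cblk, if_neg, zero_mul]
    intro h
    exact hi (Fin.ext (by simpa using h))
  · intro h
    exact absurd (Finset.mem_univ _) h

theorem KH4_map (h0 : St_K0) (A : Type) [CommRing A] (n M : ℕ) (h : n ≤ n + M)
    (E : Lat A (Vn A n)) : mapL (KH4_phi A n M) (prodL E (O0 A M)) = sS h E := by
  funext k
  ext v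
  rw [KA1_mem_mapL, (h0 A).1 n (n + M) h E k v, KH4_cblk]
  change ((fun i => v (Fin.castAdd M i)) ∈ E k ∧ (fun i => v (Fin.natAdd n i)) ∈ O0 A M k) ↔ _
  refine and_congr_right fun _ => ?_
  constructor
  · intro h1 i hi c hc
    obtain ⟨i', rfl⟩ : ∃ i' : Fin M, Fin.natAdd n i' = i :=
      ⟨⟨i.val - n, by omega⟩, Fin.ext (by simp; omega)⟩
    have h2 := h1 i' c (by rwa [add_zero])
    simpa using h2
  · intro h1 i c hc
    rw [add_zero] at hc
    have h2 := h1 (Fin.natAdd n i) (by simp) c hc
    simpa using h2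

theorem KH4_sS (h3 : St_K3) (A : Type) [CommRing A] (m J n N : ℕ) (h : n ≤ N)
    (l : List (Lat A (Vn A n))) (hl : l ∈ (Tn A m J n).s) :
    l.map (sS h) ∈ (Tn A m J N).s := by
  induction N, h using Nat.le_induction with
  | base =>
    have h1 : (sS (le_refl n) : Lat A (Vn A n) → Lat A (Vn A n)) = fun x => x :=
      funext fun x => Nat.leRecOn_self (C := fun n => Lat A (Vn A n)) x
    rw [h1]
    simpa using hl
  | succ N hN ih =>
    have h1 : (sS (Nat.le_succ_of_le hN) : Lat A (Vn A n) → Lat A (Vn A (N + 1))) =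
        sL ∘ sS hN :=
      funext fun x => Nat.leRecOn_succ (C := fun n => Lat A (Vn A n)) hN x
    have h2 := (h3 A m).2.2.2.2.2 N J _ ih
    rw [List.map_map, ← h1] at h2
    exact h2

/-- **KH4** -/
theorem thm_KH4 (h0 : St_K0) (h3 : St_K3) (hB : St_KB) : St_KH4 := by
  intro A _ m hInf hPush J j hj n z hz
  obtain ⟨M, J', y, hy, hyz⟩ := hInf (Vn A n) J j z hz.1 hz.2
  refine ⟨n + M, Nat.le_add_right n M, ?_⟩
  have hsz : push (sS (Nat.le_add_right n M)) z =
      push (mapL (KH4_phi A n M)) (z.mapDomain (List.map fun E => prodL E (O0 A M))) := by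
    change _ = push (mapL (KH4_phi A n M)) (push (fun E => prodL E (O0 A M)) z)
    rw [SU_push_comp]
    congr 1
    congr 1
    funext E
    exact (KH4_map h0 A n M _ E).symm
  refine hB A m hPush (Vn A (n + M)) J (max J J') j hj (le_max_left _ _) _ ?_ ?_
  · exact SU_push_ch (Tn A m J n) (Tn A m J (n + M)) _
      (fun l hl => KH4_sS h3 A m J n (n + M) _ l hl) j z hz.1
  · refine ⟨push (mapL (KH4_phi A n M)) y, ?_, ?_⟩
    · refine SU_push_ch (TT A (Vn A n × (Fin M → A[X])) m J') _ _ ?_ (j + 1) y hy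
      intro l hl
      rw [KA1_TT]
      intro x hx
      exact ⟨(h3 A m).2.2.2.2.1 _ J' (max J J') (le_max_right _ _) (hl x hx).1, (hl x hx).2⟩
    · rw [SU_push_bd, hyz, hsz]

end Pool.Agent.SLZ
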