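import Pool.Agent.SLZ.StU

/-!
# SLZ/UA1: products of block matrices (helper42, for helper83)
-/

set_option autoImplicit false
set_option linter.unusedVariables false

noncomputable section

namespace Pool.Agent.SLZ

theorem UA1_left {R : Type} [CommRing R] {m : ℕ} (t : ℕ) (f : Fin m → R) :
    ∑ i : Fin m, (if i.val = t then (1 : R) else 0) * f i = if h : t < m then f ⟨t, h⟩ else 0 := by
  split_ifs with h
  · rw [Finset.sum_eq_single (⟨t, h⟩ : Fin m)]
    · rw [if_pos rfl, one_mul]
    · intro i _ hi
      rw [if_neg (fun h1 => hi (Fin.ext h1)), zero_mul]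
    · intro h1
      exact absurd (Finset.mem_univ _) h1
  · refine Finset.sum_eq_zero fun i _ => ?_
    have hi : i.val ≠ t := fun h1 => h (by rw [← h1]; exact i.2)
    rw [if_neg hi, zero_mul]

theorem UA1_right {R : Type} [CommRing R] {m : ℕ} (t : ℕ) (f : Fin m → R) :
    ∑ i : Fin m, f i * (if i.val = t then (1 : R) else 0) = if h : t < m then f ⟨t, h⟩ else 0 := by
  rw [← UA1_left t f]
  exact Finset.sum_congr rfl fun i _ => mul_comm _ _

theorem thm_UA1 : St_UA1 := by
  intro R _
  refine ⟨?_, ?_, ?_, ?_, ?_, ?_⟩
  · intro n N a h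
    ext j j'
    rw [Matrix.mul_apply]
    unfold cblk blk
    have hj : a + j.val < N := by omega
    rw [UA1_left (a + j.val) (fun i : Fin N => if i.val = a + j'.val then (1 : R) else 0), dif_pos hj, Matrix.one_apply]
    by_cases hjj : j = j'
    · subst hjj
      rw [if_pos rfl, if_pos rfl]
    · rw [if_neg hjj, if_neg]
      intro h1
      exact hjj (Fin.ext (Nat.add_left_cancel h1))
  · intro n m N a b h
    ext j j'
    rw [Matrix.mul_apply, Matrix.zero_apply]
    refine Finset.sum_eq_zero fun i _ => ?_
    unfold cblk blk
    by_cases h1 : i.val = a + j.val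
    · by_cases h2 : i.val = b + j'.val
      · exfalso
        omega
      · rw [if_neg h2, mul_zero]
    · rw [if_neg h1, zero_mul]
  · intro n m N a b h
    ext i j
    rw [Matrix.mul_apply]
    unfold blk
    have hj : b + j.val < m := by omega
    rw [UA1_right (b + j.val) (fun k : Fin m => if i.val = a + k.val then (1 : R) else 0), dif_pos hj]
    simp only [add_assoc]
  · intro n m N a b h
    ext j i
    rw [Matrix.mul_apply]
    unfold cblk
    have hj : b + j.val < m := by omega
    rw [UA1_left (b + j.val) (fun k : Fin m => if i.val = a + k.val then (1 : R) else 0), dif_pos hj]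
    simp only [add_assoc]
  · intro n
    refine ⟨?_, ?_⟩
    · ext i j
      unfold blk
      rw [Matrix.one_apply, zero_add]
      by_cases h : i = j
      · rw [h, if_pos rfl, if_pos rfl]
      · rw [if_neg h, if_neg (fun h1 => h (Fin.ext h1))]
    · ext i j
      unfold cblk
      rw [Matrix.one_apply, zero_add]
      by_cases h : i = j
      · rw [h, if_pos rfl, if_pos rfl]
      · rw [if_neg h, if_neg (fun h1 => h (Fin.ext h1.symm))]
  · intro n m N hn hm
    refine ⟨?_, ?_⟩
    · ext j k
      rw [Matrix.mul_apply]
      unfold cblk blk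
      have hj : 0 + j.val < N := by omega
      rw [UA1_left (0 + j.val) (fun i : Fin N => if i.val = 0 + k.val then (1 : R) else 0), dif_pos hj]
      simp only [zero_add]
      by_cases h : j.val = k.val
      · rw [if_pos h, if_pos h.symm]
      · rw [if_neg h, if_neg (fun h1 => h h1.symm)]
    · ext k j
      rw [Matrix.mul_apply]
      unfold cblk blk
      have hk : 0 + k.val < N := by omega
      rw [UA1_left (0 + k.val) (fun i : Fin N => if i.val = 0 + j.val then (1 : R) else 0), dif_pos hk]
      simp only [zero_add]

end Pool.Agent.SLZ
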