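import Pool.Agent.SLZ.StK
import Pool.Agent.SLZ.SU
import Pool.Agent.SLZ.KH4
import Pool.Agent.SLZ.UA1

/-!
# SLZ, KH1: `1 ⊕ h` acts trivially (helper24)
-/

set_option autoImplicit false
set_option linter.unusedVariables false

noncomputable section

namespace Pool.Agent.SLZ

open Polynomial

theorem KH1_mat {R : Type} [CommRing R] {n N k : ℕ} (e : Matrix (Fin N) (Fin n) R)
    (p : Matrix (Fin n) (Fin N) R) (e' : Matrix (Fin N) (Fin k) R)
    (p' : Matrix (Fin k) (Fin N) R) (h1 : e * p + e' * p' = 1) (h2 : p' * e = 0)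
    (h3 : p' * e' = 1) (G H : Matrix (Fin N) (Fin N) R) (hG : G * e = e) (hGH : G * H = 1) :
    (p' * G * e') * (p' * H * e') = 1 ∧ (p' * G * e') * p' = p' * G := by
  have h4 : (p' * G * e') * p' = p' * G := by
    have h5 : e' * p' = 1 - e * p := by
      rw [← h1]
      abel
    rw [Matrix.mul_assoc (p' * G), h5, Matrix.mul_sub, Matrix.mul_one, ← Matrix.mul_assoc (p' * G),
      Matrix.mul_assoc p', hG, h2, Matrix.zero_mul, sub_zero]
  refine ⟨?_, h4⟩
  rw [Matrix.mul_assoc p' H, ← Matrix.mul_assoc, h4, Matrix.mul_assoc p', ← Matrix.mul_assoc G, hGH,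
    Matrix.one_mul, h3]

theorem KH1_cblk {R : Type} [CommRing R] (n k N : ℕ) (hk : n + k ≤ N) (v : Fin N → R)
    (l : Fin k) : (cblk R k N n).mulVec v l = v ⟨n + l.val, by omega⟩ := by
  rw [Matrix.mulVec, dotProduct, Finset.sum_eq_single (⟨n + l.val, by omega⟩ : Fin N)]
  · rw [cblk, if_pos rfl, one_mul]
  · intro i _ hi
    rw [cblk, if_neg, zero_mul]
    intro h
    exact hi (Fin.ext h)
  · intro h
    exact absurd (Finset.mem_univ _) h

theorem KH1_blk {R : Type} [CommRing R] (n N a : ℕ) (i j : Fin N) :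
    (blk R N n a * cblk R n N a) i j =
      if i = j ∧ a ≤ i.val ∧ i.val < a + n then 1 else 0 := by
  rw [Matrix.mul_apply]
  by_cases h : a ≤ i.val ∧ i.val < a + n
  · rw [Finset.sum_eq_single (⟨i.val - a, by omega⟩ : Fin n)]
    · rw [blk, cblk, if_pos (by simp; omega), one_mul]
      by_cases hij : i = j
      · subst hij
        rw [if_pos (by simp; omega), if_pos ⟨rfl, h⟩]
      · rw [if_neg, if_neg]
        · exact fun h1 => hij h1.1
        · intro h1
          apply hij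
          apply Fin.ext
          simp only at h1
          omega
    · intro l _ hl
      rw [blk, if_neg, zero_mul]
      intro h1
      apply hl
      apply Fin.ext
      simp only
      omega
    · intro h1
      exact absurd (Finset.mem_univ _) h1
  · rw [if_neg (fun h1 => h h1.2)]
    refine Finset.sum_eq_zero fun l _ => ?_
    rw [blk, if_neg, zero_mul]
    intro h1
    exact h ⟨by omega, by omega⟩

theorem KH1_one {R : Type} [CommRing R] (n k N : ℕ) (hk : n + k = N) :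
    blk R N n 0 * cblk R n N 0 + blk R N k n * cblk R k N n = 1 := by
  ext i j
  rw [Matrix.add_apply, KH1_blk, KH1_blk, Matrix.one_apply]
  have hi := i.2
  by_cases hij : i = j
  · by_cases h : i.val < n
    · rw [if_pos ⟨hij, by omega, by omega⟩, if_neg, if_pos hij, add_zero]
      omega
    · rw [if_neg, if_pos ⟨hij, by omega, by omega⟩, if_pos hij, zero_add]
      omega
  · rw [if_neg (fun h => hij h.1), if_neg (fun h => hij h.1), if_neg hij, add_zero]

theorem KH1_main (h0 : St_K0) (A : Type) [CommRing A] (n k N : ℕ) (h : n ≤ N) (hk : n + k = N)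
    (g : GLn A[X] N) (hg1 : g.1 * blk A[X] N n 0 = blk A[X] N n 0)
    (hg2 : cblk A[X] n N 0 * g.1 = cblk A[X] n N 0) :
    ∃ q : GLn A[X] k, ∀ E : Lat A (Vn A n), gL g (sS h E) = dS N E (gL q (On A k)) := by
  have u1 := thm_UA1 A[X]
  have a1 := KH1_one (R := A[X]) n k N hk
  have a2 : cblk A[X] k N n * blk A[X] N n 0 = 0 := u1.2.1 k n N n 0 (Or.inr (by omega))
  have a3 : cblk A[X] k N n * blk A[X] N k n = 1 := u1.1 k N n (by omega)
  have hgi : g.1 * (g⁻¹).1 = 1 := by rw [← Units.val_mul, mul_inv_cancel, Units.val_one]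
  have hig : (g⁻¹).1 * g.1 = 1 := by rw [← Units.val_mul, inv_mul_cancel, Units.val_one]
  have hg1' : (g⁻¹).1 * blk A[X] N n 0 = blk A[X] N n 0 := by
    conv_lhs => rw [← hg1]
    rw [← Matrix.mul_assoc, hig, Matrix.one_mul]
  have hg2' : cblk A[X] n N 0 * (g⁻¹).1 = cblk A[X] n N 0 := by
    conv_lhs => rw [← hg2]
    rw [Matrix.mul_assoc, hgi, Matrix.mul_one]
  obtain ⟨b1, b2⟩ := KH1_mat _ _ _ _ a1 a2 a3 g.1 (g⁻¹).1 hg1 hgi
  obtain ⟨c1, c2⟩ := KH1_mat _ _ _ _ a1 a2 a3 (g⁻¹).1 g.1 hg1' hig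
  refine ⟨⟨_, _, b1, c1⟩, fun E => ?_⟩
  funext j
  ext v
  rw [(h0 A).2.2.2.1 N g _ j v, (h0 A).1 n N h E j, (h0 A).2.2.1 n k N E _ j v,
    (h0 A).2.2.2.1 k _ _ j, (h0 A).2.2.2.2.1 k j, Matrix.mulVec_mulVec, hg2']
  refine and_congr_right fun _ => ?_
  have e1 : ∀ l : Fin k, ((cblk A[X] k N n * (g⁻¹).1 * blk A[X] N k n).mulVec
      ((cblk A[X] k N n).mulVec v)) l = ((g⁻¹).1.mulVec v) ⟨n + l.val, by omega⟩ := by
    intro l
    rw [Matrix.mulVec_mulVec, c2, ← Matrix.mulVec_mulVec, KH1_cblk n k N (by omega)]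
  constructor
  · intro h1
    refine ⟨fun l => ?_, fun i hi => ?_⟩
    · change ((cblk A[X] k N n * (g⁻¹).1 * blk A[X] N k n).mulVec
        ((cblk A[X] k N n).mulVec v)) l ∈ _
      rw [e1]
      exact h1 _ (by simp)
    · exact absurd i.2 (by omega)
  · rintro ⟨h1, _⟩ i hi
    have h2 : i.val - n < k := by
      have := i.2
      omega
    have h3 := h1 ⟨i.val - n, h2⟩
    change ((cblk A[X] k N n * (g⁻¹).1 * blk A[X] N k n).mulVec
      ((cblk A[X] k N n).mulVec v)) ⟨i.val - n, h2⟩ ∈ _ at h3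
    rw [e1] at h3
    have h4 : (⟨n + (i.val - n), by omega⟩ : Fin N) = i := Fin.ext (by simp; omega)
    rwa [h4] at h3

/-- **KH1** -/
theorem thm_KH1 (h0 : St_K0) (h1 : St_K1) (h3 : St_K3) (hX : St_KX) (hB : St_KB) : St_KH1 := by
  intro A _ m J j N' hj1 hjJ hPush hConn n N h hN g hg1 hg2 z hz
  obtain ⟨q, hq⟩ := KH1_main h0 A n (N - n) N h (by omega) g hg1 hg2
  have hOn : On A (N - n) ∈ TV A (Vn A (N - n)) m J := ((h3 A m).2.2.1 (N - n) J).1
  have hL : gL q (On A (N - n)) ∈ TV A (Vn A (N - n)) m J := (h1 A m J).2.1 (N - n) q _ hOn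
  have e1 : (fun E => gL g (sS h E)) = fun E => dS N E (gL q (On A (N - n))) := funext hq
  have e2 : (sS h : Lat A (Vn A n) → Lat A (Vn A N)) = fun E => dS N E (On A (N - n)) :=
    funext fun E => ((h0 A).2.2.2.2.2.1 n (N - n) N h E (by omega)).symm
  have hK := hX A m J j n (N - n) N hj1 (by omega) (hConn _ (by omega)) z hz _ hL _ hOn
  rw [← e1, ← e2] at hK
  refine hB A m hPush (Vn A N) J (2 * J) j hjJ (by omega) _ ?_ hK
  refine Submodule.sub_mem _ ?_ ?_
  · refine SU_push_ch (Tn A m J n) (Tn A m J N) _ (fun l hl => ?_) j z hz.1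
    have h5 := (h1 A m J).2.2.1 N g _ (KH4_sS h3 A m J n N h l hl)
    rwa [List.map_map] at h5
  · exact SU_push_ch (Tn A m J n) (Tn A m J N) _ (fun l hl => KH4_sS h3 A m J n N h l hl) j z hz.1

end Pool.Agent.SLZ
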