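import Pool.Agent.SLZ.StS
import Pool.Agent.SLZ.MA

/-!
# SLZ, module SM: the homology groups of a lattice system form a system (helper45)
-/

set_option autoImplicit false
set_option linter.unusedVariables false

noncomputable section

namespace Pool.Agent.SLZ

section SM

variable {V W X : Type}

theorem SM_push_apply (f : V → W) (z : List V →₀ ℤ) : push f z = z.mapDomain (List.map f) := rfl

theorem SM_push_Ch (A : Cx V) (B : Cx W) (f : V → W) (hf : ∀ l ∈ A.s, l.map f ∈ B.s) (j : ℕ)
    (z : List V →₀ ℤ) (hz : z ∈ Ch A.s j) : push f z ∈ Ch B.s j := by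
  classical
  rw [MA_mem] at hz ⊢
  intro l hl
  have h1 := Finsupp.mapDomain_support hl
  rw [Finset.mem_image] at h1
  obtain ⟨l', hl', rfl⟩ := h1
  exact ⟨hf l' (hz l' hl').1, by rw [List.length_map]; exact (hz l' hl').2⟩

theorem SM_push_Cyc (A : Cx V) (B : Cx W) (f : V → W) (hf : ∀ l ∈ A.s, l.map f ∈ B.s) (j : ℕ)
    (z : List V →₀ ℤ) (hz : z ∈ Cyc A j) : push f z ∈ Cyc B j := by
  refine ⟨SM_push_Ch A B f hf j z hz.1, ?_⟩
  have h1 : bd z = 0 := hz.2
  show bd (push f z) = 0
  rw [SM_push_apply, MA_4, h1, Finsupp.mapDomain_zero]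

theorem SM_push_Bdr (A : Cx V) (B : Cx W) (f : V → W) (hf : ∀ l ∈ A.s, l.map f ∈ B.s) (j : ℕ)
    (z : List V →₀ ℤ) (hz : z ∈ Bdr A j) : push f z ∈ Bdr B j := by
  obtain ⟨y, hy, rfl⟩ := hz
  refine ⟨push f y, SM_push_Ch A B f hf (j + 1) y hy, ?_⟩
  rw [SM_push_apply, SM_push_apply, MA_4]

theorem SM_push_id (z : List V →₀ ℤ) (f : V → V) (hf : ∀ x, f x = x) : push f z = z := by
  have h1 : List.map f = id := by
    funext l
    show List.map f l = l
    conv_rhs => rw [← List.map_id l]
    exact List.map_congr_left fun x _ => hf x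
  rw [SM_push_apply, h1, Finsupp.mapDomain_id]

theorem SM_push_comp (f : V → W) (g : W → X) (h : V → X) (hf : ∀ x, g (f x) = h x)
    (z : List V →₀ ℤ) : push g (push f z) = push h z := by
  rw [SM_push_apply, SM_push_apply, SM_push_apply, ← Finsupp.mapDomain_comp]
  congr 1
  funext l
  show List.map g (List.map f l) = List.map h l
  rw [List.map_map]
  exact List.map_congr_left fun x _ => hf x

/-- homology at the length `j` -/
abbrev SMH (A : Cx V) (j : ℕ) : Type := ↥(Cyc A j) ⧸ (Bdr A j).submoduleOf (Cyc A j)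

/-- the map of cycles -/
def SM_cmap (A : Cx V) (B : Cx W) (f : V → W) (hf : ∀ l ∈ A.s, l.map f ∈ B.s) (j : ℕ) :
    ↥(Cyc A j) →ₗ[ℤ] ↥(Cyc B j) :=
  LinearMap.restrict (push f) (SM_push_Cyc A B f hf j)

/-- the map of homology -/
def SM_hmap (A : Cx V) (B : Cx W) (f : V → W) (hf : ∀ l ∈ A.s, l.map f ∈ B.s) (j : ℕ) :
    SMH A j →ₗ[ℤ] SMH B j :=
  Submodule.mapQ _ _ (SM_cmap A B f hf j) (by
    intro z hz
    exact SM_push_Bdr A B f hf j z.1 hz)

theorem SM_hmap_mk (A : Cx V) (B : Cx W) (f : V → W) (hf : ∀ l ∈ A.s, l.map f ∈ B.s) (j : ℕ)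
    (z : ↥(Cyc A j)) : SM_hmap A B f hf j (Submodule.Quotient.mk z) =
      Submodule.Quotient.mk (SM_cmap A B f hf j z) := rfl

end SM

/-- the system -/
def SM_S {R : Type} [CommRing R] (L : LSys R) (j : ℕ) : Sys R where
  M n := SMH (L.K n) j
  grp n := inferInstance
  act n :=
    { smul := fun g x => SM_hmap (L.K n) (L.K n) (fun y => g • y) (L.K_smul n g) j x
      one_smul := by
        intro x
        obtain ⟨z, rfl⟩ := Submodule.Quotient.mk_surjective _ x
        show (Submodule.Quotient.mk (SM_cmap (L.K n) (L.K n) (fun y => (1 : GLn R n) • y)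
          (L.K_smul n 1) j z) : SMH (L.K n) j) = _
        congr 1
        apply Subtype.ext
        exact SM_push_id z.1 _ fun x => one_smul _ x
      mul_smul := by
        intro g h x
        obtain ⟨z, rfl⟩ := Submodule.Quotient.mk_surjective _ x
        show (Submodule.Quotient.mk (SM_cmap (L.K n) (L.K n) (fun y => (g * h) • y)
          (L.K_smul n (g * h)) j z) : SMH (L.K n) j) =
          Submodule.Quotient.mk (SM_cmap (L.K n) (L.K n) (fun y => g • y) (L.K_smul n g) j
            (SM_cmap (L.K n) (L.K n) (fun y => h • y) (L.K_smul n h) j z))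
        congr 1
        apply Subtype.ext
        exact (SM_push_comp _ _ _ (fun x => (mul_smul g h x).symm) z.1).symm
      smul_zero := fun g => map_zero _
      smul_add := fun g x y => map_add _ x y }
  st n := (SM_hmap (L.K n) (L.K (n + 1)) (L.s n) (L.s_K n) j).toAddMonoidHom
  st_smul := by
    intro n g g' hg' c
    obtain ⟨z, rfl⟩ := Submodule.Quotient.mk_surjective _ c
    show (Submodule.Quotient.mk (SM_cmap (L.K n) (L.K (n + 1)) (L.s n) (L.s_K n) j
        (SM_cmap (L.K n) (L.K n) (fun y => g • y) (L.K_smul n g) j z)) : SMH (L.K (n + 1)) j) =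
      Submodule.Quotient.mk (SM_cmap (L.K (n + 1)) (L.K (n + 1)) (fun y => g' • y)
        (L.K_smul (n + 1) g') j (SM_cmap (L.K n) (L.K (n + 1)) (L.s n) (L.s_K n) j z))
    congr 1
    apply Subtype.ext
    show push (L.s n) (push (fun y => g • y) z.1) = push (fun y => g' • y) (push (L.s n) z.1)
    rw [SM_push_comp _ _ (fun x => L.s n (g • x)) (fun x => rfl),
      SM_push_comp _ _ (fun x => L.s n (g • x)) (fun x => (L.s_smul n g g' hg' x).symm)]

theorem thm_SM : St_SM := by
  intro R _ L j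
  refine ⟨SM_S L j, fun n => (Submodule.mkQ ((Bdr (L.K n) j).submoduleOf
    (Cyc (L.K n) j))).toAddMonoidHom, ?_, ?_, ?_, ?_⟩
  · intro n
    exact Submodule.Quotient.mk_surjective _
  · intro n z
    exact Submodule.Quotient.mk_eq_zero _
  · intro n g z z' h
    show (Submodule.Quotient.mk (SM_cmap (L.K n) (L.K n) (fun y => g • y) (L.K_smul n g) j z) :
      SMH (L.K n) j) = Submodule.Quotient.mk z'
    congr 1
    exact Subtype.ext h.symm
  · intro n z z' h
    show (Submodule.Quotient.mk (SM_cmap (L.K n) (L.K (n + 1)) (L.s n) (L.s_K n) j z) :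
      SMH (L.K (n + 1)) j) = Submodule.Quotient.mk z'
    congr 1
    exact Subtype.ext h.symm

end Pool.Agent.SLZ
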