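import Pool.Agent.SLZ.StK
import Pool.Agent.SLZ.SM
import Pool.Agent.SLZ.UA1

set_option autoImplicit false
set_option linter.unusedVariables false

/-! # SLZ KH2: the diagonal -/

noncomputable section

namespace Pool.Agent.SLZ

open Polynomial

/-- the rows of the first block vanish from `n` on -/
theorem KH2_row {R : Type} [CommRing R] (N n q : ℕ) (M : Matrix (Fin n) (Fin q) R) (i : Fin N)
    (hi : n ≤ i.val) (j : Fin q) : (blk R N n 0 * M) i j = 0 := by
  rw [Matrix.mul_apply]
  refine Finset.sum_eq_zero fun a _ => ?_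
  have : blk R N n 0 i a = 0 := if_neg (by
    have := a.2
    omega)
  rw [this, zero_mul]

/-- the transvection fixes the diagonal -/
theorem KH2_diag {A : Type} [CommRing A] (h0 : St_K0) (n N : ℕ) (h : 2 * n ≤ N) (t : GLn A[X] N)
    (ht : t.1 = 1 + blk A[X] N n 0 * cblk A[X] n N n) (E : Lat A (Vn A n)) :
    gL t (dS N E E) = dS N E E := by
  obtain ⟨k1, k2, k3, k4, k5, k6, k7, k8⟩ := h0 A
  obtain ⟨u1, u2, u3, u4, u5, u6⟩ := thm_UA1 A[X]
  have hpe : cblk A[X] n N n * blk A[X] N n 0 = 0 := u2 n n N n 0 (Or.inr (by omega))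
  have hpe0 : cblk A[X] n N 0 * blk A[X] N n 0 = 1 := u1 n N 0 (by omega)
  have hinv : (t⁻¹).1 = 1 - blk A[X] N n 0 * cblk A[X] n N n := by
    have h1 : (1 - blk A[X] N n 0 * cblk A[X] n N n) * t.1 = 1 := by
      rw [ht]
      have h2 : blk A[X] N n 0 * cblk A[X] n N n * (blk A[X] N n 0 * cblk A[X] n N n) = 0 := by
        rw [Matrix.mul_assoc, ← Matrix.mul_assoc (cblk A[X] n N n), hpe, Matrix.zero_mul,
          Matrix.mul_zero]
      rw [sub_mul, mul_add, mul_add, h2]
      simp
    calc (t⁻¹).1 = 1 * (t⁻¹).1 := (one_mul _).symm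
      _ = (1 - blk A[X] N n 0 * cblk A[X] n N n) * t.1 * (t⁻¹).1 := by rw [h1]
      _ = 1 - blk A[X] N n 0 * cblk A[X] n N n := by
        rw [mul_assoc, ← Units.val_mul, mul_inv_cancel, Units.val_one, mul_one]
  have c1 : cblk A[X] n N 0 * (t⁻¹).1 = cblk A[X] n N 0 - cblk A[X] n N n := by
    rw [hinv, Matrix.mul_sub, Matrix.mul_one, ← Matrix.mul_assoc, hpe0, Matrix.one_mul]
  have c2 : cblk A[X] n N n * (t⁻¹).1 = cblk A[X] n N n := by
    rw [hinv, Matrix.mul_sub, Matrix.mul_one, ← Matrix.mul_assoc, hpe, Matrix.zero_mul, sub_zero]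
  have c3 : ∀ (v : Vn A N) (i : Fin N), n ≤ i.val → (t⁻¹).1.mulVec v i = v i := by
    intro v i hi
    have h3 : ∀ j, (t⁻¹).1 i j = (1 : Matrix (Fin N) (Fin N) A[X]) i j := by
      intro j
      rw [hinv, Matrix.sub_apply, KH2_row N n N _ i hi j, sub_zero]
    have h4 : (t⁻¹).1.mulVec v i = (1 : Matrix (Fin N) (Fin N) A[X]).mulVec v i := by
      unfold Matrix.mulVec dotProduct
      exact Finset.sum_congr rfl fun j _ => congrArg (· * v j) (h3 j)
    rw [h4, Matrix.one_mulVec]
  funext k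
  ext v
  rw [k4, k3, k3, Matrix.mulVec_mulVec, Matrix.mulVec_mulVec, c1, c2, Matrix.sub_mulVec]
  have h5 : (∀ i : Fin N, n + n ≤ i.val → (t⁻¹).1.mulVec v i ∈ degL A k) ↔
      ∀ i : Fin N, n + n ≤ i.val → v i ∈ degL A k := by
    refine forall_congr' fun i => forall_congr' fun hi => ?_
    rw [c3 v i (by omega)]
  rw [h5]
  constructor
  · rintro ⟨a, b, c⟩
    refine ⟨?_, b, c⟩
    have := (E k).add_mem a b
    rwa [sub_add_cancel] at this
  · rintro ⟨a, b, c⟩
    exact ⟨(E k).sub_mem a b, b, c⟩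

theorem thm_KH2 (h0 : St_K0) (h1 : St_K1) (h2 : St_K2) (h3 : St_K3) (hD : St_DL) (hB : St_KB)
    (hH : St_KH1) : St_KH2 := by
  intro A _ m J j n2 N' hj hjJ hP hC2 hCj n N h hn2 hnN' hnN w t hw hw' ht z hz
  obtain ⟨k1, k2, k3, k4, k5, k6, k7, k8⟩ := h0 A
  obtain ⟨a1, a2, a3, a4, a5⟩ := h1 A m J
  obtain ⟨b1, b2, b3, b4, b5, b6⟩ := h3 A m
  obtain ⟨w₀, hw0, hw0', hw0''⟩ := (h2 A).2 n N h hnN
  have hJ2 : 2 * J = J + J := by ring
  -- maps of complexes
  have hsS : ∀ l ∈ (Tn A m J n).s, l.map (sS h) ∈ (Tn A m J N).s := by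
    intro l hl
    clear w t hw hw' ht w₀ hw0 hw0' hw0'' hnN' hnN
    induction N, h using Nat.le_induction with
    | base =>
      have : l.map (sS (le_refl n)) = l := by
        conv_rhs => rw [← List.map_id l]
        refine List.map_congr_left fun x _ => ?_
        exact Nat.leRecOn_self (C := fun n => Lat A (Vn A n)) x
      rw [this]
      exact hl
    | succ N hN ih =>
      have : l.map (sS (hN.trans (Nat.le_succ N))) = (l.map (sS hN)).map sL := by
        rw [List.map_map]
        refine List.map_congr_left fun x _ => ?_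
        exact Nat.leRecOn_succ (C := fun n => Lat A (Vn A n)) hN x
      rw [this]
      exact b6 N J _ ih
  have hg : ∀ (J : ℕ) (g : GLn A[X] N) (l : List (Lat A (Vn A N))), l ∈ (Tn A m J N).s →
      l.map (gL g) ∈ (Tn A m J N).s := fun J g l hl => (h1 A m J).2.2.1 N g l hl
  have hgs : ∀ (g : GLn A[X] N), ∀ l ∈ (Tn A m J n).s,
      l.map (fun E => gL g (sS h E)) ∈ (Tn A m J N).s := by
    intro g l hl
    have := hg J g _ (hsS l hl)
    rw [List.map_map] at this
    exact this
  -- (a)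
  have hrefl : ∀ E ∈ TV A (Vn A n) m J, LR E E := (b3 n J).2
  have hOn : On A n ∈ TV A (Vn A n) m J := (b3 n J).1
  have hdT : ∀ E ∈ TV A (Vn A n) m J, ∀ F ∈ TV A (Vn A n) m J,
      dS N E F ∈ TV A (Vn A N) m (2 * J) := by
    intro E hE F hF
    rw [hJ2]
    exact b2 n n N J J E F (by omega) hE hF
  have hK' : ∀ (f : Lat A (Vn A n) → Lat A (Vn A N)),
      (∀ E ∈ TV A (Vn A n) m J, f E ∈ TV A (Vn A N) m (2 * J)) →
      (∀ E F : Lat A (Vn A n), LR E F → LR (f E) (f F)) →
      ∀ l ∈ (Tn A m J n).s, l.map f ∈ (Tn A m (2 * J) N).s := by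
    intro f hf hf' l hl x hx
    obtain ⟨E, hE, rfl⟩ := List.mem_map.1 hx
    refine ⟨hf E (hl E hE).1, fun y hy => ?_⟩
    obtain ⟨F, hF, rfl⟩ := List.mem_map.1 hy
    exact ((hl E hE).2 F hF).imp (hf' E F) (hf' F E)
  have hOn2 := hrefl _ hOn
  have key : push (fun E => dS N E E) z - push (sS h) z - push (fun E => gL w₀ (sS h E)) z ∈
      Bdr (Tn A m (2 * J) N) j := by
    obtain ⟨i, rfl⟩ : ∃ i, j = i + 1 := ⟨j - 1, by omega⟩
    have hz1 : bd z = 0 := hz.2
    obtain ⟨y, hy, hy'⟩ := hD (Lat A (Vn A n)) (Lat A (Vn A N)) (Tn A m J n) (Tn A m (2 * J) N)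
      (dS N) (On A n) i (by omega)
      (by
        intro x hx
        rw [List.mem_singleton] at hx
        subst hx
        refine ⟨hOn, fun y hy => ?_⟩
        rw [List.mem_singleton] at hy
        subst hy
        exact Or.inl hOn2) (hCj n hn2)
      (by
        intro l hl l' hl' hne hne'
        obtain ⟨E0, hE0, hE0'⟩ := b4 n J l hl hne
        obtain ⟨F0, hF0, hF0'⟩ := b4 n J l' hl' hne'
        refine ⟨E0, hE0, F0, hF0, fun t ht hv => ?_⟩
        have hLR : ∀ v, (∃ x' ∈ l, ∃ y' ∈ l', v = dS N x' y') → LR (dS N E0 F0) v := by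
          rintro v ⟨x', hx', y', hy', rfl⟩
          exact b1 n n N E0 x' F0 y' (hE0' x' hx') (hF0' y' hy')
        have h00 : LR (dS N E0 F0) (dS N E0 F0) := hLR _ ⟨E0, hE0, F0, hF0, rfl⟩
        intro x hx
        rcases List.mem_cons.1 hx with rfl | hx
        · refine ⟨hdT _ (hl _ hE0).1 _ (hl' _ hF0).1, fun y hy => ?_⟩
          rcases List.mem_cons.1 hy with rfl | hy
          · exact Or.inl h00
          · exact Or.inl (hLR y (hv y hy))
        · refine ⟨(ht x hx).1, fun y hy => ?_⟩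
          rcases List.mem_cons.1 hy with rfl | hy
          · exact Or.inr (hLR x (hv x hx))
          · exact (ht x hx).2 y hy)
      (by
        intro x hx
        simp at hx)
      (by
        intro l hl
        refine ⟨hK' (fun x => dS N x x) (fun E hE => hdT E hE E hE)
          (fun E F h => b1 n n N _ _ _ _ h h) l hl,
          hK' (fun x => dS N x (On A n)) (fun E hE => hdT E hE _ hOn)
          (fun E F h => b1 n n N _ _ _ _ h hOn2) l hl,
          hK' (fun x => dS N (On A n) x) (fun E hE => hdT _ hOn E hE)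
          (fun E F h => b1 n n N _ _ _ _ hOn2 h) l hl⟩) z hz.1 hz1
    refine ⟨y, hy, ?_⟩
    have e1 : (fun E : Lat A (Vn A n) => dS N E (On A n)) = sS h := by
      funext E
      exact k6 n n N h E (by omega)
    have e2 : (fun E : Lat A (Vn A n) => dS N (On A n) E) = fun E => gL w₀ (sS h E) := by
      funext E
      exact (hw0'' E).symm
    change bd y = _
    rw [hy', ← e2, ← e1]
    rfl
  -- (b)
  have key2 : push (fun E => dS N E E) z - push (fun E => gL t (sS h E)) z -
      push (fun E => gL (t * w₀) (sS h E)) z ∈ Bdr (Tn A m (2 * J) N) j := by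
    have h5 := SM_push_Bdr (Tn A m (2 * J) N) (Tn A m (2 * J) N) (gL t) (hg (2 * J) t) j _ key
    rw [map_sub, map_sub,
      SM_push_comp (fun E => dS N E E) (gL t) (fun E => dS N E E)
        (fun E => KH2_diag h0 n N hnN t ht E),
      SM_push_comp (sS h) (gL t) (fun E => gL t (sS h E)) (fun E => rfl),
      SM_push_comp (fun E => gL w₀ (sS h E)) (gL t) (fun E => gL (t * w₀) (sS h E))
        (fun E => ((k8 N t w₀ (sS h E)).1).symm)] at h5
    exact h5
  have key3 : push (fun E => gL t (sS h E)) z + push (fun E => gL (t * w₀) (sS h E)) z -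
      push (sS h) z - push (fun E => gL w₀ (sS h E)) z ∈ Bdr (Tn A m (2 * J) N) j := by
    have h6 := Submodule.sub_mem _ key key2
    have h7 : push (fun E => gL t (sS h E)) z + push (fun E => gL (t * w₀) (sS h E)) z -
      push (sS h) z - push (fun E => gL w₀ (sS h E)) z =
      push (fun E => dS N E E) z - push (sS h) z - push (fun E => gL w₀ (sS h E)) z -
      (push (fun E => dS N E E) z - push (fun E => gL t (sS h E)) z -
      push (fun E => gL (t * w₀) (sS h E)) z) := by abel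
    rw [h7]
    exact h6
  have key4 : push (fun E => gL t (sS h E)) z + push (fun E => gL (t * w₀) (sS h E)) z -
      push (sS h) z - push (fun E => gL w₀ (sS h E)) z ∈ Bdr (Tn A m J N) j := by
    refine hB A m hP (Vn A N) J (2 * J) j hjJ (by omega) _ ?_ key3
    refine Submodule.sub_mem _ (Submodule.sub_mem _ (Submodule.add_mem _ ?_ ?_) ?_) ?_
    · exact SM_push_Ch _ _ _ (hgs t) j z hz.1
    · exact SM_push_Ch _ _ _ (hgs (t * w₀)) j z hz.1
    · exact SM_push_Ch _ _ _ hsS j z hz.1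
    · exact SM_push_Ch _ _ _ (hgs w₀) j z hz.1
  -- (c)
  have hx1 : (w₀⁻¹ * w).1 * blk A[X] N n 0 = blk A[X] N n 0 := by
    rw [Units.val_mul, Matrix.mul_assoc, hw, ← hw0, ← Matrix.mul_assoc, ← Units.val_mul,
      inv_mul_cancel, Units.val_one, Matrix.one_mul]
  have hx2 : cblk A[X] n N 0 * (w₀⁻¹ * w).1 = cblk A[X] n N 0 := by
    rw [Units.val_mul, ← Matrix.mul_assoc, hw0', ← hw', Matrix.mul_assoc, ← Units.val_mul,
      inv_mul_cancel, Units.val_one, Matrix.mul_one]
  have key5 := hH A m J j N' (by omega) hjJ hP hC2 n N h hnN' (w₀⁻¹ * w) hx1 hx2 z hz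
  have key6 : ∀ g : GLn A[X] N, push (fun E => gL (g * (w₀⁻¹ * w)) (sS h E)) z -
      push (fun E => gL g (sS h E)) z ∈ Bdr (Tn A m J N) j := by
    intro g
    have h5 := SM_push_Bdr (Tn A m J N) (Tn A m J N) (gL g) (hg J g) j _ key5
    rw [map_sub,
      SM_push_comp (sS h) (gL g) (fun E => gL g (sS h E)) (fun E => rfl),
      SM_push_comp (fun E => gL (w₀⁻¹ * w) (sS h E)) (gL g)
        (fun E => gL (g * (w₀⁻¹ * w)) (sS h E))
        (fun E => ((k8 N g (w₀⁻¹ * w) (sS h E)).1).symm)] at h5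
    exact h5
  have key7 := key6 w₀
  have key8 := key6 (t * w₀)
  rw [mul_inv_cancel_left] at key7
  rw [mul_assoc, mul_inv_cancel_left] at key8
  have h9 := Submodule.sub_mem _ (Submodule.add_mem _ key4 key8) key7
  have h10 : push (fun E => gL t (sS h E)) z + push (fun E => gL (t * w) (sS h E)) z -
      push (sS h) z - push (fun E => gL w (sS h E)) z =
      push (fun E => gL t (sS h E)) z + push (fun E => gL (t * w₀) (sS h E)) z -
      push (sS h) z - push (fun E => gL w₀ (sS h E)) z +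
      (push (fun E => gL (t * w) (sS h E)) z - push (fun E => gL (t * w₀) (sS h E)) z) -
      (push (fun E => gL w (sS h E)) z - push (fun E => gL w₀ (sS h E)) z) := by abel
  rw [h10]
  exact h9

end Pool.Agent.SLZ
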