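import Pool.Agent.SLZ.StK

/-!
# SLZ KLa: the lattice system of the complexes `T`
-/

set_option autoImplicit false

namespace Pool.Agent.SLZ

theorem thm_KLa (h1 : St_K1) (h2 : St_K2) (h3 : St_K3) : St_KLa := by
  intro A _ m J
  exact { K_smul := (h1 A m J).2.2.1
          s_inj := (h1 A m J).2.2.2.1
          s_smul := (h1 A m J).2.2.2.2
          s_K := fun n l hl => (h3 A m).2.2.2.2.2 n J l hl
          s_perm := (h2 A).1 }

end Pool.Agent.SLZ
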