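import Mathlib

/-!
# SLZ, part U: uniformity. Definitions (architect helper83)

`Sys R`: a sequence of abelian groups `M n` with actions of `GL_n(R)` and stabilization maps `M n → M (n + 1)`.
In the application `M n` is the homology of degree `i` of the complex `T_n` of lattices of rank `n`.
-/

set_option autoImplicit false
set_option linter.unusedVariables false

noncomputable section

namespace Pool.Agent.SLZ

section

variable (R : Type) [CommRing R]

/-- the `N × n` matrix with the columns `e_a, .., e_(a+n-1)` -/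
def blk (N n a : ℕ) : Matrix (Fin N) (Fin n) R := fun i j => if i.val = a + j.val then 1 else 0

/-- the `n × N` matrix with the rows `e_a, .., e_(a+n-1)` (the transposed matrix of `blk`) -/
def cblk (n N a : ℕ) : Matrix (Fin n) (Fin N) R := fun j i => if i.val = a + j.val then 1 else 0

/-- the general linear group -/
abbrev GLn (n : ℕ) : Type := (Matrix (Fin n) (Fin n) R)ˣ

variable {R}

/-- the matrix `g ⊕ 1` of size `N`, for `g` of size `n ≤ N` -/
def lmat (n N : ℕ) (g : Matrix (Fin n) (Fin n) R) : Matrix (Fin N) (Fin N) R :=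
  blk R N n 0 * g * cblk R n N 0 + (1 - blk R N n 0 * cblk R n N 0)

end

/-- A sequence of `GL_n(R)`-modules with equivariant stabilization maps. -/
structure Sys (R : Type) [CommRing R] where
  M : ℕ → Type
  grp : ∀ n, AddCommGroup (M n)
  act : ∀ n, DistribMulAction (GLn R n) (M n)
  st : ∀ n, M n →+ M (n + 1)
  st_smul : ∀ (n : ℕ) (g : GLn R n) (g' : GLn R (n + 1)), g'.1 = lmat n (n + 1) g.1 →
    ∀ c : M n, st n (g • c) = g' • st n c

attribute [instance] Sys.grp Sys.act

namespace Sys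

variable {R : Type} [CommRing R] (S : Sys R)

/-- the iterated stabilization map `M n → M N` -/
def ST {n N : ℕ} (h : n ≤ N) (c : S.M n) : S.M N := Nat.leRecOn h (fun {k} => S.st k) c

/-- `1_n ⊕ g` acts trivially on the elements which come from `M n` -/
def H1 (k0 : ℕ → ℕ) : Prop := ∀ (n N : ℕ) (h : n ≤ N), k0 n ≤ N → ∀ g : GLn R N,
  g.1 * blk R N n 0 = blk R N n 0 → cblk R n N 0 * g.1 = cblk R n N 0 →
  ∀ c : S.M n, g • S.ST h c = S.ST h c

/-- the element `c ⊕ 0 + 0 ⊕ c` is invariant under the transvection `t = (1, 1; 0, 1)` of the two blocks of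
size `n`; `w` maps the first block to the second one -/
def H2 (n2 : ℕ) (k2 : ℕ → ℕ) : Prop := ∀ (n N : ℕ) (h : n ≤ N), n2 ≤ n → k2 n ≤ N → 2 * n ≤ N →
  ∀ w t : GLn R N, w.1 * blk R N n 0 = blk R N n n → cblk R n N 0 * (w⁻¹).1 = cblk R n N n →
  t.1 = 1 + blk R N n 0 * cblk R n N n → ∀ c : S.M n,
    t • (S.ST h c + w • S.ST h c) = S.ST h c + w • S.ST h c

/-- central stability from the level `N1` on: `M (N + 2)` is generated by the translates of the image of
`M (N + 1)`, and it has the universal property for maps which are compatible on `M N` -/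
def H3 (N1 : ℕ) : Prop := ∀ N : ℕ, N1 ≤ N →
  AddSubgroup.closure {x : S.M (N + 2) | ∃ (g : GLn R (N + 2)) (c : S.M (N + 1)),
    x = g • S.st (N + 1) c} = ⊤ ∧
  ∀ (X : Type) [AddCommGroup X] (b : GLn R (N + 2) → S.M (N + 1) →+ X),
    (∀ (g : GLn R (N + 2)) (h : GLn R (N + 1)) (h' : GLn R (N + 2)),
      h'.1 = lmat (N + 1) (N + 2) h.1 → ∀ c, b (g * h') c = b g (h • c)) →
    (∀ g t : GLn R (N + 2), t.1 * blk R (N + 2) N 0 = blk R (N + 2) N 0 →
      cblk R N (N + 2) 0 * t.1 = cblk R N (N + 2) 0 →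
      ∀ d : S.M N, b (g * t) (S.st N d) = b g (S.st N d)) →
    ∃ β : S.M (N + 2) →+ X, ∀ g c, β (g • S.st (N + 1) c) = b g c

/-- every element dies after stabilization -/
def H4 : Prop := ∀ (n : ℕ) (c : S.M n), ∃ (N : ℕ) (h : n ≤ N), S.ST h c = 0

/-- the pair `(u, l)` is a translate of the standard pair: `u = g e`, `l = e* g⁻¹` -/
def Std {N n : ℕ} (u : Matrix (Fin N) (Fin n) R) (l : Matrix (Fin n) (Fin N) R) : Prop :=
  ∃ g : GLn R N, u = g.1 * blk R N n 0 ∧ l = cblk R n N 0 * (g⁻¹).1

/-- the pair `(k, l)` is a translate of the standard orthogonal pair: `k = g e`, `l = e'* g⁻¹` -/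
def Orth {N n : ℕ} (k : Matrix (Fin N) (Fin n) R) (l : Matrix (Fin n) (Fin N) R) : Prop :=
  ∃ g : GLn R N, k = g.1 * blk R N n 0 ∧ l = cblk R n N n * (g⁻¹).1

open Classical in
/-- The image of `c` under the split injection `(u, l)`. -/
def F {n N : ℕ} (h : n ≤ N) (c : S.M n) (u : Matrix (Fin N) (Fin n) R)
    (l : Matrix (Fin n) (Fin N) R) : S.M N :=
  if hs : Std u l then hs.choose • S.ST h c else 0

/-- The mixed second difference of `F` at the standard pair. -/
def B {n N : ℕ} (h : n ≤ N) (c : S.M n) (k : Matrix (Fin N) (Fin n) R)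
    (l : Matrix (Fin n) (Fin N) R) : S.M N :=
  S.F h c (blk R N n 0 + k) (cblk R n N 0 + l) - S.F h c (blk R N n 0) (cblk R n N 0 + l) -
    S.F h c (blk R N n 0 + k) (cblk R n N 0) + S.F h c (blk R N n 0) (cblk R n N 0)

/-- the level `N` is large enough for the rank `n` -/
structure Big (k0 k2 : ℕ → ℕ) (n2 n N : ℕ) : Prop where
  le : n ≤ N
  n2 : n2 ≤ n
  k0 : k0 n ≤ N
  k2 : k2 n ≤ N
  four : 4 * n ≤ N

end Sys

end Pool.Agent.SLZ
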