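import Pool.Agent.SLZ.Defs
import Pool.Agent.SLZ.UDefs

/-!
# SLZ, part S: central stability. Definitions (architect helper83)

`LSys R`: sets of lattices `V n` with `GL_n(R)`-action, complexes `K n` and the maps `s : V n → V (n + 1)` (`E ↦ E ⊕ O`).
`Bi N`: pairs (simplex, list of split vectors) which are adapted to each other.
-/

set_option autoImplicit false
set_option linter.unusedVariables false

noncomputable section

namespace Pool.Agent.SLZ

section Homology

variable {V W : Type}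

/-- cycles of length `j` -/
def Cyc (K : Cx V) (j : ℕ) : Submodule ℤ (List V →₀ ℤ) := Ch K.s j ⊓ LinearMap.ker bd

/-- boundaries of length `j` -/
def Bdr (K : Cx V) (j : ℕ) : Submodule ℤ (List V →₀ ℤ) := (Ch K.s (j + 1)).map bd

/-- the map of chains of a map of vertices -/
def push (f : V → W) : (List V →₀ ℤ) →ₗ[ℤ] (List W →₀ ℤ) := Finsupp.lmapDomain ℤ ℤ (List.map f)

/-- the boundary in the first variable -/
def bd1 : (List V × List W →₀ ℤ) →ₗ[ℤ] (List V × List W →₀ ℤ) :=
  Finsupp.lift (List V × List W →₀ ℤ) ℤ (List V × List W)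
    fun x => Finsupp.mapDomain (fun l => (l, x.2)) (bdL x.1)

/-- the boundary in the second variable -/
def bd2 : (List V × List W →₀ ℤ) →ₗ[ℤ] (List V × List W →₀ ℤ) :=
  Finsupp.lift (List V × List W →₀ ℤ) ℤ (List V × List W)
    fun x => Finsupp.mapDomain (fun l => (x.1, l)) (bdL x.2)

/-- chains of bidegree `(a, b)` of a set of pairs of lists -/
def DD (B : Set (List V × List W)) (a b : ℕ) : Submodule ℤ (List V × List W →₀ ℤ) :=
  Finsupp.supported ℤ ℤ {x | x ∈ B ∧ x.1.length = a ∧ x.2.length = b}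

/-- a bisimplicial complex: a set of pairs of lists, closed under sublists in both variables -/
structure Bx (V W : Type) where
  s : Set (List V × List W)
  mono1 : ∀ (l l' : List V) (m : List W), l' ⊆ l → (l, m) ∈ s → (l', m) ∈ s
  mono2 : ∀ (l : List V) (m m' : List W), m' ⊆ m → (l, m) ∈ s → (l, m') ∈ s

/-- the row of a simplex -/
def Bx.row (B : Bx V W) (l : List V) : Cx W where
  s := {m | (l, m) ∈ B.s}
  mono m m' h hm := B.mono2 l m m' h hm

/-- the column of a simplex -/
def Bx.col (B : Bx V W) (m : List W) : Cx V where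
  s := {l | (l, m) ∈ B.s}
  mono l l' h hl := B.mono1 l l' m h hl

end Homology

/-- A system of complexes of lattices. -/
structure LSys (R : Type) [CommRing R] where
  V : ℕ → Type
  act : ∀ n, MulAction (GLn R n) (V n)
  K : ∀ n, Cx (V n)
  K_smul : ∀ (n : ℕ) (g : GLn R n) (l : List (V n)), l ∈ (K n).s →
    l.map (fun x => g • x) ∈ (K n).s
  s : ∀ n, V n → V (n + 1)
  s_inj : ∀ n, Function.Injective (s n)
  s_smul : ∀ (n : ℕ) (g : GLn R n) (g' : GLn R (n + 1)), g'.1 = lmat n (n + 1) g.1 →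
    ∀ x : V n, s n (g • x) = g' • s n x
  s_K : ∀ (n : ℕ) (l : List (V n)), l ∈ (K n).s → l.map (s n) ∈ (K (n + 1)).s
  s_perm : ∀ (n N : ℕ) (h : n ≤ N) (σ : Equiv.Perm (Fin N)), (∀ i : Fin N, i.val < n → σ i = i) →
    ∀ g : GLn R N, (∀ i j : Fin N, g.1 i j = if σ i = j then 1 else 0) → ∀ x : V n,
      g • (Nat.leRecOn (C := V) h (fun {k} => s k) x) = Nat.leRecOn (C := V) h (fun {k} => s k) x

attribute [instance] LSys.act

/-- pairs (vector, linear form) -/
abbrev Fr (R : Type) (N : ℕ) : Type := (Fin N → R) × (Fin N → R)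

/-- the action on the pairs: `(q, l) ↦ (g q, l g⁻¹)` -/
def frA {R : Type} [CommRing R] {N : ℕ} (g : GLn R N) (f : Fr R N) : Fr R N :=
  (g.1.mulVec f.1, Matrix.vecMul f.2 (g⁻¹).1)

/-- the standard pairs -/
def stF {R : Type} [CommRing R] {N : ℕ} (j : Fin N) : Fr R N := (Pi.single j 1, Pi.single j 1)

namespace LSys

variable {R : Type} [CommRing R] (L : LSys R)

/-- the iterated map `V n → V N` -/
def SS {n N : ℕ} (h : n ≤ N) (x : L.V n) : L.V N :=
  Nat.leRecOn (C := L.V) h (fun {k} => L.s k) x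

/-- adapted pairs: translates of pairs (simplex of `K n`, list of standard pairs with indices `≥ n`) -/
def Bi (N : ℕ) : Set (List (L.V N) × List (Fr R N)) :=
  {x | ∃ (n : ℕ) (h : n ≤ N) (g : GLn R N) (l : List (L.V n)), l ∈ (L.K n).s ∧
    x.1 = l.map (fun y => g • L.SS h y) ∧ ∀ f ∈ x.2, ∃ j : Fin N, n ≤ j.val ∧ f = frA g (stF j)}

/-- the bisimplicial complex of the adapted pairs -/
def BX (N : ℕ) : Bx (L.V N) (Fr R N) where
  s := L.Bi N
  mono1 := by
    rintro l l' m hl ⟨n, h, g, l0, h0, h1, h2⟩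
    classical
    have hex : ∀ x ∈ l', ∃ y ∈ l0, g • L.SS h y = x := by
      intro x hx
      have := hl hx
      rw [show l = l0.map (fun y => g • L.SS h y) from h1] at this
      exact List.mem_map.1 this
    have hF : ∃ F : {x // x ∈ l'} → L.V n, ∀ x, F x ∈ l0 ∧ g • L.SS h (F x) = x.1 :=
      ⟨fun x => (hex x.1 x.2).choose, fun x => (hex x.1 x.2).choose_spec⟩
    obtain ⟨F, hF⟩ := hF
    refine ⟨n, h, g, l'.attach.map F, ?_, ?_, h2⟩
    · refine (L.K n).mono l0 _ ?_ h0
      intro y hy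
      obtain ⟨x, _, rfl⟩ := List.mem_map.1 hy
      exact (hF x).1
    · show l' = _
      rw [List.map_map]
      conv_lhs => rw [← List.attach_map_subtype_val l']
      exact List.map_congr_left fun x _ => ((hF x).2).symm
  mono2 := by
    rintro l m m' hm ⟨n, h, g, l0, h0, h1, h2⟩
    exact ⟨n, h, g, l0, h0, h1, fun f hf => h2 f (hm hf)⟩

/-- `S` is the homology of the complexes `K n` at the length `j` (dimension `j - 1`), `cl` = class of a cycle -/
structure IsH (j : ℕ) (S : Sys R) (cl : ∀ n, Cyc (L.K n) j →+ S.M n) : Prop where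
  surj : ∀ n, Function.Surjective (cl n)
  ker : ∀ (n : ℕ) (z : Cyc (L.K n) j), cl n z = 0 ↔ z.1 ∈ Bdr (L.K n) j
  smul : ∀ (n : ℕ) (g : GLn R n) (z z' : Cyc (L.K n) j), z'.1 = push (fun x => g • x) z.1 →
    g • cl n z = cl n z'
  st : ∀ (n : ℕ) (z : Cyc (L.K n) j) (z' : Cyc (L.K (n + 1)) j), z'.1 = push (L.s n) z.1 →
    S.st n (cl n z) = cl (n + 1) z'

end LSys

end Pool.Agent.SLZ
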