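import Pool.Agent.SLZ.DefsT
import Pool.Agent.SLZ.SDefs

/-!
# SLZ: the lattice systems of the complexes `T` (architect helper83)

`sL E = E ⊕ O` on `Fin (n + 1) → A[X]`, the action of `GL_n(A[X])`, direct sums, frames as pairs of vectors.
-/

set_option autoImplicit false
set_option linter.unusedVariables false

noncomputable section

namespace Pool.Agent.SLZ

open Polynomial

/-- the standard module `A[X]^n` -/
abbrev Vn (A : Type) [CommRing A] (n : ℕ) : Type := Fin n → A[X]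

/-- matrices as linear automorphisms -/
def gE (A : Type) [CommRing A] (n : ℕ) : GLn A[X] n →* (Vn A n ≃ₗ[A[X]] Vn A n) where
  toFun g := LinearEquiv.ofLinear (Matrix.toLin' g.1) (Matrix.toLin' (g⁻¹).1)
    (by rw [← Matrix.toLin'_mul, ← Units.val_mul, mul_inv_cancel, Units.val_one, Matrix.toLin'_one])
    (by rw [← Matrix.toLin'_mul, ← Units.val_mul, inv_mul_cancel, Units.val_one, Matrix.toLin'_one])
  map_one' := by
    ext v i
    simp
  map_mul' g h := by
    ext v i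
    simp [Matrix.toLin'_mul]

theorem gE_apply {A : Type} [CommRing A] {n : ℕ} (g : GLn A[X] n) (v : Vn A n) :
    gE A n g v = g.1.mulVec v := rfl

theorem gE_symm_apply {A : Type} [CommRing A] {n : ℕ} (g : GLn A[X] n) (v : Vn A n) :
    (gE A n g).symm v = (g⁻¹).1.mulVec v := rfl

/-- the action of `GL_n(A[X])` on the lattices -/
abbrev gA (A : Type) [CommRing A] (n : ℕ) : MulAction (GLn A[X] n) (Lat A (Vn A n)) :=
  MulAction.compHom (Lat A (Vn A n)) (gE A n)

/-- the lattice `g E` -/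
def gL {A : Type} [CommRing A] {n : ℕ} (g : GLn A[X] n) (E : Lat A (Vn A n)) : Lat A (Vn A n) :=
  mapL (gE A n g) E

/-- the lattice `E ⊕ O` -/
def sL {A : Type} [CommRing A] {n : ℕ} (E : Lat A (Vn A n)) : Lat A (Vn A (n + 1)) := fun k =>
  (E k).comap (LinearMap.funLeft A A[X] (Fin.castSucc : Fin n → Fin (n + 1))) ⊓
    (degL A k).comap (LinearMap.proj (Fin.last n) : (Vn A (n + 1)) →ₗ[A] A[X])

/-- the lattice `E ⊕ O^(N - n)` -/
def sS {A : Type} [CommRing A] {n N : ℕ} (h : n ≤ N) (E : Lat A (Vn A n)) : Lat A (Vn A N) :=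
  Nat.leRecOn (C := fun n => Lat A (Vn A n)) h (fun {k} => sL) E

/-- the lattice `E ⊕ E' ⊕ O^(N - n - k)` -/
def dS {A : Type} [CommRing A] {n k : ℕ} (N : ℕ) (E : Lat A (Vn A n)) (E' : Lat A (Vn A k)) :
    Lat A (Vn A N) := fun j =>
  ((E j).comap ((Matrix.toLin' (cblk A[X] n N 0)).restrictScalars A) ⊓
    (E' j).comap ((Matrix.toLin' (cblk A[X] k N n)).restrictScalars A)) ⊓
    ⨅ i : {i : Fin N // n + k ≤ i.val}, (degL A j).comap (LinearMap.proj i.1)

/-- the complex `T` for `V = A[X]^n` -/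
abbrev Tn (A : Type) [CommRing A] (m J n : ℕ) : Cx (Lat A (Vn A n)) := TT A (Vn A n) m J

/-- the standard lattice `O^n` -/
def On (A : Type) [CommRing A] (n : ℕ) : Lat A (Vn A n) :=
  OL (Pi.basisFun A[X] (Fin n)) fun _ => 0

/-- what is needed for a lattice system -/
structure KLP (A : Type) [CommRing A] (m J : ℕ) : Prop where
  K_smul : ∀ (n : ℕ) (g : GLn A[X] n) (l : List (Lat A (Vn A n))), l ∈ (Tn A m J n).s →
    l.map (gL g) ∈ (Tn A m J n).s
  s_inj : ∀ n : ℕ, Function.Injective (sL : Lat A (Vn A n) → Lat A (Vn A (n + 1)))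
  s_smul : ∀ (n : ℕ) (g : GLn A[X] n) (g' : GLn A[X] (n + 1)), g'.1 = lmat n (n + 1) g.1 →
    ∀ x : Lat A (Vn A n), sL (gL g x) = gL g' (sL x)
  s_K : ∀ (n : ℕ) (l : List (Lat A (Vn A n))), l ∈ (Tn A m J n).s →
    l.map sL ∈ (Tn A m J (n + 1)).s
  s_perm : ∀ (n N : ℕ) (h : n ≤ N) (σ : Equiv.Perm (Fin N)), (∀ i : Fin N, i.val < n → σ i = i) →
    ∀ g : GLn A[X] N, (∀ i j : Fin N, g.1 i j = if σ i = j then 1 else 0) →
      ∀ x : Lat A (Vn A n), gL g (sS h x) = sS h x

/-- the lattice system of the complexes `T` -/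
def latS (A : Type) [CommRing A] (m J : ℕ) (h : KLP A m J) : LSys A[X] where
  V n := Lat A (Vn A n)
  act n := gA A n
  K n := Tn A m J n
  K_smul := h.K_smul
  s n := sL
  s_inj := h.s_inj
  s_smul := h.s_smul
  s_K := h.s_K
  s_perm := h.s_perm

/-- the pair (vector, linear form) of a pair of vectors -/
def frV {A : Type} [CommRing A] {N : ℕ} (f : Fr A[X] N) : Vn A N × (Vn A N →ₗ[A[X]] A[X]) :=
  (f.1, ∑ i, f.2 i • LinearMap.proj i)

end Pool.Agent.SLZ
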