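import Pool.Agent.SLZ.StKF
import Pool.Agent.SLZ.KDefs

/-!
# SLZ, part KF in coordinates (architect helper38, for helper83's lattice systems)
-/

set_option autoImplicit false
set_option linter.unusedVariables false

noncomputable section

namespace Pool.Agent.SLZ

open Polynomial

/-- **KF9** (1 h). `St_KF5` in coordinates.

Proof. (1) `St_KF5` for `V = Vn A (N + 1)`, `b0 = Pi.basisFun`, `(q, l) = frV (stF last)` (`l v = v last`, `l q = 1`): `L = L''.map (addL q l)`,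
`L'' ∈ (TT A (ker l) m J).s`. Let `e : Vn A N ≃ₗ[A[X]] ker l`, `u ↦ Fin.snoc u 0`. Then `sL (mapL e.symm E) = addL q l E` for all `E`: both are the `v` with
`(v ∘ castSucc, 0) ∈ E k` and `v last` of degree `≤ k`. `L' = L''.map (mapL e.symm)`, `St_KA1` (3). (2) the functional is the coordinate `j`. `e_j ∈ sL E 0` iff
`e_j ∈ E 0` (its last coordinate is `0`); `v_j ∈ degL A k` for all `v ∈ sL E k` iff for all `v ∈ E k` (extend by `0`). (3) clear. -/
def St_KF9 : Prop := ∀ (A : Type) [CommRing A],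
  (∀ (m s J N : ℕ), Nontrivial A → PDiag A m → KerFree A s → m * J + s ≤ N →
    ∀ L ∈ (Tn A m J (N + 1)).s, (∀ E ∈ L, frV (stF (R := A[X]) (Fin.last N)) ∈ frS E) →
    ∃ L' ∈ (Tn A m J N).s, L = L'.map sL) ∧
  (∀ (N : ℕ) (j : Fin N) (E : Lat A (Vn A N)),
    frV (stF (R := A[X]) (Fin.castSucc j)) ∈ frS (sL E) ↔ frV (stF (R := A[X]) j) ∈ frS E) ∧
  (∀ (N : ℕ) (E : Lat A (Vn A N)), frV (stF (R := A[X]) (Fin.last N)) ∈ frS (sL E))

/-- **KF10** (0.7 h). `St_KF7` in coordinates.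

Proof. `St_KF7` (1) for `V = Fin N → R`, `b0 = Pi.basisFun`, `q_i = e_(N - p + i)`, `l_i` the coordinates, `q'_i = (f i).1`, `l'_i v = ∑_k (f i).2 k * v k`: an automorphism;
`g` its matrix (`LinearMap.toMatrix'`, inverse: the matrix of the inverse), `g.1.mulVec v` is the automorphism. `l'_i (g v) = l_i v` for all `v` is
`Matrix.vecMul (f i).2 g.1 = Pi.single _ 1`, so `Matrix.vecMul (Pi.single _ 1) (g⁻¹).1 = (f i).2`. -/
def St_KF10 : Prop := ∀ (R : Type) [CommRing R] (s : ℕ), KerFree R s → ∀ (N p : ℕ), p + s ≤ N →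
  ∀ f : Fin p → Fr R N, (∀ i j, ∑ k, (f i).2 k * (f j).1 k = if i = j then 1 else 0) →
  ∃ g : GLn R N, ∀ (i : Fin p) (h : N - p + i.val < N), frA g (stF ⟨N - p + i.val, h⟩) = f i

end Pool.Agent.SLZ
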