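import Pool.Agent.SLZ.StK
import Pool.Agent.SLZ.StKF2

/-!
# SLZ: module KR1, adapted lists of split vectors
-/

set_option autoImplicit false

noncomputable section

namespace Pool.Agent.SLZ

open Polynomial Matrix

section

variable {A : Type} [CommRing A]

theorem KR1_dot {N : ℕ} (f : Fr A[X] N) (v : Vn A N) : (frV f).2 v = f.2 ⬝ᵥ v := by
  show (∑ i, f.2 i • (LinearMap.proj i : (Fin N → A[X]) →ₗ[A[X]] A[X])) v = _
  rw [LinearMap.sum_apply]
  rfl

theorem KR1_frV_inj {N : ℕ} : Function.Injective (frV : Fr A[X] N → _) := by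
  intro f f' h
  have h1 : f.1 = f'.1 := (Prod.mk.inj h).1
  have h2 : (frV f).2 = (frV f').2 := (Prod.mk.inj h).2
  refine Prod.ext h1 ?_
  funext i
  have h3 := LinearMap.congr_fun h2 (Pi.single i 1)
  rw [KR1_dot, KR1_dot, dotProduct_single_one, dotProduct_single_one] at h3
  exact h3

theorem KR1_dot_frA {N : ℕ} (g : GLn A[X] N) (f : Fr A[X] N) (v : Vn A N) :
    (frV (frA g f)).2 (g.1.mulVec v) = (frV f).2 v := by
  rw [KR1_dot, KR1_dot]
  show Matrix.vecMul f.2 (g⁻¹).1 ⬝ᵥ g.1.mulVec v = f.2 ⬝ᵥ v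
  rw [← Matrix.dotProduct_mulVec, Matrix.mulVec_mulVec, Units.inv_mul, Matrix.one_mulVec]

theorem KR1_dot_frA' {N : ℕ} (g : GLn A[X] N) (f : Fr A[X] N) (v : Vn A N) :
    (frV (frA g f)).2 v = (frV f).2 ((g⁻¹).1.mulVec v) := by
  have h := KR1_dot_frA g f ((g⁻¹).1.mulVec v)
  rw [Matrix.mulVec_mulVec, Units.mul_inv, Matrix.one_mulVec] at h
  exact h

/-- equivariance -/
theorem KR1_eq (h0 : St_K0) {N : ℕ} (g : GLn A[X] N) (f : Fr A[X] N) (E : Lat A (Vn A N)) :
    frV (frA g f) ∈ frS E ↔ frV f ∈ frS (gL g⁻¹ E) := by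
  have h4 := (h0 A).2.2.2.1
  constructor
  · rintro ⟨h1, h2, h3⟩
    refine ⟨?_, ?_, ?_⟩
    · rw [← KR1_dot_frA g f]
      exact h1
    · rw [h4, inv_inv]
      exact h2
    · intro k v hv
      rw [h4, inv_inv] at hv
      rw [← KR1_dot_frA g f]
      exact h3 k _ hv
  · rintro ⟨h1, h2, h3⟩
    refine ⟨?_, ?_, ?_⟩
    · show (frV (frA g f)).2 (g.1.mulVec f.1) = 1
      rw [KR1_dot_frA g f]
      exact h1
    · rw [h4, inv_inv] at h2
      exact h2
    · intro k v hv
      rw [KR1_dot_frA' g f]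
      apply h3 k
      rw [h4, inv_inv, Matrix.mulVec_mulVec, Units.mul_inv, Matrix.one_mulVec]
      exact hv

theorem KR1_sS_self {n : ℕ} (h : n ≤ n) (E : Lat A (Vn A n)) : sS h E = E :=
  Nat.leRecOn_self (C := fun n => Lat A (Vn A n)) (next := fun {k} => sL) E

theorem KR1_sS_succ {n N : ℕ} (h : n ≤ N) (h' : n ≤ N + 1) (E : Lat A (Vn A n)) :
    sS h' E = sL (sS h E) :=
  Nat.leRecOn_succ (C := fun n => Lat A (Vn A n)) (next := fun {k} => sL) h E

theorem KR1_sS_mem {m J : ℕ} (hP : KLP A m J) (n : ℕ) (l : List (Lat A (Vn A n)))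
    (hl : l ∈ (Tn A m J n).s) : ∀ (N : ℕ) (h : n ≤ N), l.map (sS h) ∈ (Tn A m J N).s := by
  intro N h
  induction N, h using Nat.le_induction with
  | base =>
    have : l.map (sS (le_refl n)) = l := by
      conv_rhs => rw [← List.map_id l]
      exact List.map_congr_left fun E _ => KR1_sS_self _ E
    rw [this]
    exact hl
  | succ N h ih =>
    have h1 := hP.s_K N _ ih
    rw [List.map_map] at h1
    have : l.map (sS (Nat.le_succ_of_le h)) = l.map (sL ∘ sS h) :=
      List.map_congr_left fun E _ => KR1_sS_succ h _ E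
    rw [this]
    exact h1

/-- the standard frame vectors of `E ⊕ O^(N - n)` -/
theorem KR1_std (h0 : St_K0) {n N : ℕ} (h : n ≤ N) (E : Lat A (Vn A n)) (j : Fin N)
    (hj : n ≤ j.val) : frV (stF (R := A[X]) j) ∈ frS (sS h E) := by
  have h1 := (h0 A).1 n N h E
  have hone : (stF (R := A[X]) j).2 ⬝ᵥ (stF (R := A[X]) j).1 = 1 := by
    show (Pi.single j 1 : Fin N → A[X]) ⬝ᵥ (Pi.single j 1 : Fin N → A[X]) = 1
    rw [dotProduct_single_one, Pi.single_eq_same]
  refine ⟨?_, ?_, ?_⟩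
  · rw [KR1_dot]
    exact hone
  · rw [h1]
    refine ⟨?_, ?_⟩
    · have : (cblk A[X] n N 0).mulVec (frV (stF (R := A[X]) j)).1 = 0 := by
        show (cblk A[X] n N 0).mulVec (Pi.single j 1) = 0
        rw [Matrix.mulVec_single_one]
        funext i
        rw [Matrix.col_apply]
        show (if j.val = 0 + i.val then (1 : A[X]) else 0) = 0
        rw [if_neg]
        have := i.2
        omega
      rw [this]
      exact Submodule.zero_mem _
    · intro i _ m hm
      show ((Pi.single j 1 : Fin N → A[X]) i).coeff m = 0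
      rw [Pi.single_apply]
      split_ifs
      · rw [coeff_one, if_neg]
        omega
      · exact coeff_zero m
  · intro k v hv
    rw [KR1_dot]
    rw [h1] at hv
    show (Pi.single j 1 : Fin N → A[X]) ⬝ᵥ v ∈ degL A k
    rw [single_one_dotProduct]
    exact hv.2 j hj

theorem KR1_down (h9 : St_KF9) [Nontrivial A] (s m J : ℕ) (hP : PDiag A m) (hK : KerFree A s) :
    ∀ (p n : ℕ), m * J + s ≤ n → ∀ L ∈ (Tn A m J (n + p)).s,
      (∀ j : Fin (n + p), n ≤ j.val → ∀ E ∈ L, frV (stF (R := A[X]) j) ∈ frS E) →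
      ∃ L0 ∈ (Tn A m J n).s, L = L0.map (sS (Nat.le_add_right n p)) := by
  intro p
  induction p with
  | zero =>
    intro n _ L hL _
    refine ⟨L, hL, ?_⟩
    conv_lhs => rw [← List.map_id L]
    exact (List.map_congr_left fun E _ => KR1_sS_self _ E).symm
  | succ p ih =>
    intro n hn L hL hfr
    have hlast : ∀ E ∈ L, frV (stF (R := A[X]) (Fin.last (n + p))) ∈ frS E := by
      intro E hE
      exact hfr (Fin.last (n + p)) (by rw [Fin.val_last]; omega) E hE
    obtain ⟨L', hL', hLL'⟩ := (h9 A).1 m s J (n + p) inferInstance hP hK (by omega) L hL hlast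
    obtain ⟨L0, hL0, hL0'⟩ := ih n hn L' hL' (by
      intro j hj E hE
      rw [← (h9 A).2.1]
      apply hfr (Fin.castSucc j) hj
      rw [hLL']
      exact List.mem_map_of_mem hE)
    refine ⟨L0, hL0, ?_⟩
    rw [hLL', hL0', List.map_map]
    exact (List.map_congr_left fun E _ => KR1_sS_succ _ _ E).symm

theorem KR1_back (h0 : St_K0) (h9 : St_KF9) (h10 : St_KF10) [Nontrivial A] (s m J : ℕ)
    (hK : KerFree A s) (hKX : KerFree A[X] s) (hP : PDiag A m) (h : KLP A m J) (n p : ℕ)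
    (hn : m * J + s ≤ n) (L : List (Lat A (Vn A (n + p)))) (φ : List (Fr A[X] (n + p)))
    (hL : L ∈ (Tn A m J (n + p)).s) (hφ : φ.map frV ∈ (FrC L).s)
    (f : Fin p → Fr A[X] (n + p))
    (hf : ∀ i j, ∑ k, (f i).2 k * (f j).1 k = if i = j then 1 else 0)
    (hfφ : ∀ i, f i ∈ φ) (hφf : ∀ x ∈ φ, ∃ i, x = f i) : (L, φ) ∈ (latS A m J h).Bi (n + p) := by
  obtain ⟨g, hg⟩ := h10 A[X] s hKX (n + p) p (by omega) f hf
  have h8 := (h0 A).2.2.2.2.2.2.2
  have hL1 : L.map (gL g⁻¹) ∈ (Tn A m J (n + p)).s := h.K_smul (n + p) g⁻¹ L hL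
  have hfr : ∀ j : Fin (n + p), n ≤ j.val → ∀ E ∈ L.map (gL g⁻¹),
      frV (stF (R := A[X]) j) ∈ frS E := by
    intro j hj E hE
    obtain ⟨E', hE', rfl⟩ := List.mem_map.1 hE
    rw [← KR1_eq h0]
    have hj2 := j.2
    have hlt : n + p - p + (j.val - n) < n + p := by omega
    have hj3 : j = ⟨n + p - p + (⟨j.val - n, by omega⟩ : Fin p).val, hlt⟩ := by
      apply Fin.ext
      show j.val = n + p - p + (j.val - n)
      omega
    rw [hj3, hg]
    exact (hφ _ (List.mem_map_of_mem (hfφ _))).1.2 E' hE'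
  obtain ⟨L0, hL0, hL0'⟩ := KR1_down h9 s m J hP hK p n hn _ hL1 hfr
  refine ⟨n, Nat.le_add_right n p, g, L0, hL0, ?_, ?_⟩
  · show L = L0.map (fun y => gL g (sS (Nat.le_add_right n p) y))
    have h11 : (L.map (gL g⁻¹)).map (gL g) = L := by
      rw [List.map_map]
      conv_rhs => rw [← List.map_id L]
      refine List.map_congr_left fun E _ => ?_
      show gL g (gL g⁻¹ E) = E
      rw [← (h8 (n + p) g g⁻¹ E).1, mul_inv_cancel]
      exact (h8 (n + p) 1 1 E).2
    rw [← h11, hL0', List.map_map]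
    rfl
  · intro x hx
    obtain ⟨i, rfl⟩ := hφf x hx
    have hi := i.2
    have hlt : n + p - p + i.val < n + p := by omega
    refine ⟨⟨n + p - p + i.val, hlt⟩, ?_, (hg i hlt).symm⟩
    show n ≤ n + p - p + i.val
    omega

end

theorem thm_KR1 (h0 : St_K0) (h9 : St_KF9) (h10 : St_KF10) : St_KR1 := by
  classical
  intro A _ _ s m J hs hsm hK hKX hP h N L φ hN
  constructor
  · rintro ⟨n, hn, g, l0, hl0, hL, hφ⟩
    have hL' : L = (l0.map (sS hn)).map (gL g) := by
      rw [List.map_map]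
      exact hL
    refine ⟨?_, ?_⟩
    · rw [hL']
      exact h.K_smul N g _ (KR1_sS_mem h n l0 hl0 N hn)
    · intro x hx
      obtain ⟨f, hf, rfl⟩ := List.mem_map.1 hx
      obtain ⟨j, hj, rfl⟩ := hφ f hf
      refine ⟨⟨?_, ?_⟩, ?_⟩
      · show (frV (frA g (stF j))).2 (g.1.mulVec (stF (R := A[X]) j).1) = 1
        rw [KR1_dot_frA, KR1_dot]
        show (Pi.single j 1 : Fin N → A[X]) ⬝ᵥ (Pi.single j 1 : Fin N → A[X]) = 1
        rw [dotProduct_single_one, Pi.single_eq_same]
      · intro E hE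
        rw [hL'] at hE
        obtain ⟨E1, hE1, rfl⟩ := List.mem_map.1 hE
        obtain ⟨E0, hE0, rfl⟩ := List.mem_map.1 hE1
        have h12 := (h0 A).2.2.2.2.2.2.2 N g⁻¹ g (sS hn E0)
        rw [KR1_eq h0, ← h12.1, inv_mul_cancel, h12.2]
        exact KR1_std h0 hn E0 j hj
      · intro y hy
        obtain ⟨f', hf', rfl⟩ := List.mem_map.1 hy
        obtain ⟨j', hj', rfl⟩ := hφ f' hf'
        by_cases hjj : j = j'
        · subst hjj
          exact Or.inl rfl
        · right
          constructor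
          · show (frV (frA g (stF j))).2 (g.1.mulVec (stF (R := A[X]) j').1) = 0
            rw [KR1_dot_frA, KR1_dot]
            show (Pi.single j 1 : Fin N → A[X]) ⬝ᵥ (Pi.single j' 1 : Fin N → A[X]) = 0
            rw [dotProduct_single_one, Pi.single_eq_of_ne (Ne.symm hjj)]
          · show (frV (frA g (stF j'))).2 (g.1.mulVec (stF (R := A[X]) j).1) = 0
            rw [KR1_dot_frA, KR1_dot]
            show (Pi.single j' 1 : Fin N → A[X]) ⬝ᵥ (Pi.single j 1 : Fin N → A[X]) = 0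
            rw [dotProduct_single_one, Pi.single_eq_of_ne hjj]
  · rintro ⟨hL, hφ⟩
    obtain ⟨p, hp, f, hf, hfφ, hφf⟩ : ∃ p ≤ φ.length, ∃ f : Fin p → Fr A[X] N,
        (∀ i j, ∑ k, (f i).2 k * (f j).1 k = if i = j then 1 else 0) ∧
        (∀ i, f i ∈ φ) ∧ (∀ x ∈ φ, ∃ i, x = f i) := by
      refine ⟨φ.dedup.length, (List.dedup_sublist φ).length_le, φ.dedup.get, ?_, ?_, ?_⟩
      · intro i j
        have hi : φ.dedup.get i ∈ φ := List.mem_dedup.1 (List.get_mem _ _)
        have hj : φ.dedup.get j ∈ φ := List.mem_dedup.1 (List.get_mem _ _)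
        have h13 := hφ _ (List.mem_map_of_mem hi)
        have h14 : ∑ k, (φ.dedup.get i).2 k * (φ.dedup.get j).1 k =
            (frV (φ.dedup.get i)).2 (frV (φ.dedup.get j)).1 := by
          rw [KR1_dot]
          rfl
        rw [h14]
        by_cases hij : i = j
        · subst hij
          rw [if_pos rfl]
          exact h13.1.1
        · rw [if_neg hij]
          rcases h13.2 _ (List.mem_map_of_mem hj) with h15 | h15
          · exfalso
            apply hij
            exact (List.nodup_iff_injective_get.1 (List.nodup_dedup φ)) (KR1_frV_inj h15)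
          · exact h15.1
      · intro i
        exact List.mem_dedup.1 (List.get_mem _ _)
      · intro x hx
        obtain ⟨i, hi⟩ := List.get_of_mem (List.mem_dedup.2 hx)
        exact ⟨i, hi.symm⟩
    obtain ⟨n, rfl⟩ : ∃ n, N = n + p := ⟨N - p, by omega⟩
    exact KR1_back h0 h9 h10 s m J hK hKX hP h n p (by omega) L φ hL hφ f hf hfφ hφf

end Pool.Agent.SLZ
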