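import Pool.Agent.SLZ.StK

/-! # SLZ, module KS: connectivity of the complexes `T` -/

set_option autoImplicit false

namespace Pool.Agent.SLZ

open Polynomial

/-- a complex with a vertex is exact at the length 0 -/
theorem ks_ex0 {V : Type} (K : Cx V) (v : V) (hv : [v] ∈ K.s) : Ex K 0 := by
  intro z hz _
  refine ⟨Finsupp.single [v] (z []), ?_, ?_⟩
  · exact Finsupp.single_mem_supported ℤ _ ⟨hv, rfl⟩
  · have h1 : z = Finsupp.single [] (z []) := by
      ext l
      by_cases hl : l = []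
      · subst hl
        simp
      · rw [Finsupp.single_apply, if_neg (Ne.symm hl)]
        by_contra h
        exact hl (List.eq_nil_of_length_eq_zero
          ((Finsupp.mem_supported ℤ z).mp hz (Finsupp.mem_support_iff.mpr h)).2)
    conv_rhs => rw [h1]
    unfold bd
    rw [Finsupp.lift_apply, Finsupp.sum_single_index (by simp)]
    simp [bdL, Finsupp.smul_single]

theorem thm_KS (hKLa : St_KLa) (hS0 : St_S0) (hKR2 : St_KR2) (hKH4 : St_KH4) (hKC1 : St_KC1)
    (hKC2 : St_KC2) (hKC3 : St_KC3) (hK3 : St_K3) : St_KS := by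
  intro A _ _ s hs hk1 hk2 hf1 hf2 hstab m hm hD hI hP J hJ
  have h := hKLa A m J
  have hm1 : 1 ≤ m := hs.trans hm
  have hE0 : ∀ n, Ex (Tn A m J n) 0 := by
    intro n
    obtain ⟨_, _, k3, _⟩ := hK3 A m
    obtain ⟨a1, a2⟩ := k3 n J
    refine ks_ex0 _ (On A n) ?_
    intro x hx
    rw [List.mem_singleton] at hx
    subst hx
    refine ⟨a1, fun y hy => ?_⟩
    rw [List.mem_singleton] at hy
    subst hy
    exact Or.inl (a2 _ a1)
  obtain ⟨N1, hN1⟩ := hKR2 A s m hs hm hk1 hk2 hf1 hf2 hD J 1 h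
  obtain ⟨N2, hN2⟩ := hS0 A[X] (latS A m J h) (max N1 (max (m * J) (max (m + 3) (2 * s + 2))))
    (Fin (J + 1)) (fun N t => vT A m N t.val)
    (fun N _ j hj => by
      have hj0 : j = 0 := by omega
      subst hj0
      exact hE0 N)
    (fun N hN l hl => hN1 N (by omega) l hl)
    (fun n z hz => hKH4 A m hI hP J 1 (by omega) n z hz)
    (fun N hN => by
      obtain ⟨c1, c2, c3⟩ := hKC3 A m J N hm1 (by omega) hD
      refine ⟨c1, c2, c3, fun g k => ?_⟩
      exact hKC1 A m J N hm1 (by omega) (by omega) _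
        (hKC2 A[X] s N (by omega) (hstab s N le_rfl (by omega)) g k))
  refine ⟨N2, fun n hn j hj => ?_⟩
  interval_cases j
  · exact hE0 n
  · exact hN2 n hn

end Pool.Agent.SLZ
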