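import Pool.Agent.SLZ.StK

/-!
# SLZ, module KT (helper36): transport to coordinates
-/

set_option autoImplicit false
set_option linter.unusedVariables false

noncomputable section

namespace Pool.Agent.SLZ

open Polynomial

section push

variable {V W : Type} (f : V → W)

private theorem KT_single (l : List V) :
    push f (Finsupp.single l 1) = Finsupp.single (l.map f) 1 := by
  unfold push
  rw [Finsupp.lmapDomain_apply, Finsupp.mapDomain_single]

private theorem KT_bds {V : Type} (l : List V) :
    bd (Finsupp.single l 1 : List V →₀ ℤ) = bdL l := by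
  unfold bd
  rw [Finsupp.lift_apply, Finsupp.sum_single_index]
  · exact one_smul ℤ _
  · exact zero_smul ℤ _

private theorem KT_cons (v : V) (x : List V →₀ ℤ) :
    push f (consC v x) = consC (f v) (push f x) := by
  unfold push consC
  rw [Finsupp.lmapDomain_apply, Finsupp.lmapDomain_apply, Finsupp.lmapDomain_apply,
    Finsupp.lmapDomain_apply, ← Finsupp.mapDomain_comp, ← Finsupp.mapDomain_comp]
  rfl

private theorem KT_bdL (l : List V) : push f (bdL l) = bdL (l.map f) := by
  induction l with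
  | nil => exact map_zero _
  | cons v l ih =>
    rw [List.map_cons, bdL, bdL, map_sub, KT_single, KT_cons, ih]

private theorem KT_bd (z : List V →₀ ℤ) : bd (push f z) = push f (bd z) := by
  have h : bd ∘ₗ push f = push f ∘ₗ bd := by
    apply Finsupp.lhom_ext'
    intro l
    apply LinearMap.ext_ring
    show bd (push f (Finsupp.single l 1)) = push f (bd (Finsupp.single l 1))
    rw [KT_single, KT_bds, KT_bds, KT_bdL]
  exact LinearMap.congr_fun h z

private theorem KT_mem {s : Set (List V)} {s' : Set (List W)} (h : ∀ l ∈ s, l.map f ∈ s')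
    {j : ℕ} {z : List V →₀ ℤ} (hz : z ∈ Ch s j) : push f z ∈ Ch s' j := by
  have h1 : Ch s j ≤ (Ch s' j).comap (push f) := by
    have h0 : Ch s j = Submodule.span ℤ
        ((fun i => Finsupp.single i (1 : ℤ)) '' {l : List V | l ∈ s ∧ l.length = j}) :=
      Finsupp.supported_eq_span_single ℤ _
    rw [h0, Submodule.span_le]
    rintro _ ⟨l, ⟨hl, hl2⟩, rfl⟩
    show push f (Finsupp.single l 1) ∈ Ch s' j
    rw [KT_single]
    exact Finsupp.single_mem_supported ℤ 1 ⟨h l hl, by rw [List.length_map, hl2]⟩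
  exact h1 hz

private theorem KT_inv {f' : W → V} (h : ∀ v, f' (f v) = v) (z : List V →₀ ℤ) :
    push f' (push f z) = z := by
  unfold push
  rw [Finsupp.lmapDomain_apply, Finsupp.lmapDomain_apply, ← Finsupp.mapDomain_comp]
  have h1 : List.map f' ∘ List.map f = id := by
    funext l
    show (l.map f).map f' = l
    rw [List.map_map]
    conv_rhs => rw [← List.map_id l]
    exact List.map_congr_left fun v _ => h v
  rw [h1, Finsupp.mapDomain_id]

/-- transport of exactness -/
private theorem KT_conn {K : Cx V} {K' : Cx W} {f' : W → V} (h : ∀ v, f' (f v) = v)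
    (hf : ∀ l ∈ K.s, l.map f ∈ K'.s) (hf' : ∀ l ∈ K'.s, l.map f' ∈ K.s) {c : ℕ}
    (hK : Conn K' c) : Conn K c := by
  intro j hj z hz hbz
  obtain ⟨y, hy, hyb⟩ := hK j hj (push f z) (KT_mem f hf hz) (by rw [KT_bd, hbz, map_zero])
  refine ⟨push f' y, KT_mem f' hf' hy, ?_⟩
  rw [KT_bd, hyb, KT_inv f h]

end push

section lat

variable {A : Type} [CommRing A] {V V' : Type} [AddCommGroup V] [Module A V] [Module A[X] V]
  [IsScalarTower A A[X] V] [AddCommGroup V'] [Module A V'] [Module A[X] V']
  [IsScalarTower A A[X] V']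

private theorem KT_OL {ι : Type} (g : V ≃ₗ[A[X]] V') (b : Module.Basis ι A[X] V) (w : ι → ℤ) :
    mapL g (OL b w) = OL (b.map g) w := by
  funext k
  ext v
  constructor
  · rintro ⟨u, hu, rfl⟩ i n h
    show ((b.map g).repr (g u) i).coeff n = 0
    rw [Module.Basis.map_repr, LinearEquiv.trans_apply, g.symm_apply_apply]
    exact hu i n h
  · intro hv
    refine ⟨g.symm v, ?_, g.apply_symm_apply v⟩
    intro i n h
    have h1 := hv i n h
    rw [Module.Basis.map_repr, LinearEquiv.trans_apply] at h1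
    exact h1

private theorem KT_LR (g : V ≃ₗ[A[X]] V') {E F : Lat A V} (h : LR E F) :
    LR (mapL g E) (mapL g F) :=
  ⟨fun k => Submodule.map_mono (h.1 k), fun k => Submodule.map_mono (h.2 k)⟩

private theorem KT_s (g : V ≃ₗ[A[X]] V') (m J : ℕ) (l : List (Lat A V))
    (hl : l ∈ (TT A V m J).s) : l.map (mapL g) ∈ (TT A V' m J).s := by
  intro x hx
  obtain ⟨E, hE, rfl⟩ := List.mem_map.1 hx
  refine ⟨?_, ?_⟩
  · obtain ⟨n, d, b, h1, h2, h3, h4⟩ := (hl E hE).1
    exact ⟨n, d, b.map g, h1, h2, h3, by rw [h4, KT_OL]⟩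
  · intro y hy
    obtain ⟨F, hF, rfl⟩ := List.mem_map.1 hy
    rcases (hl E hE).2 F hF with h | h
    · exact Or.inl (KT_LR g h)
    · exact Or.inr (KT_LR g h)

private theorem KT_symm (g : V ≃ₗ[A[X]] V') (E : Lat A V) : mapL g.symm (mapL g E) = E := by
  funext k
  ext v
  constructor
  · rintro ⟨_, ⟨u, hu, rfl⟩, rfl⟩
    show g.symm (g u) ∈ E k
    rw [g.symm_apply_apply]
    exact hu
  · intro hv
    exact ⟨g v, ⟨v, hv, rfl⟩, g.symm_apply_apply v⟩

end lat

/-- **KT.** -/
theorem thm_KT : St_KT := by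
  intro A _ m J c N
  constructor
  · intro h n hn
    exact h (Vn A n) n (Pi.basisFun A[X] (Fin n)) hn
  · intro h V _ _ _ _ n b hn
    have g : V ≃ₗ[A[X]] Vn A n := b.equivFun
    exact KT_conn (mapL g) (f' := mapL g.symm) (KT_symm g) (KT_s g m J) (KT_s g.symm m J)
      (h n hn)

end Pool.Agent.SLZ
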