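import Pool.Agent.SLZ.StK

/-!
# SLZ, module KX (helper36): the class of `E ↦ E ⊕ L` does not depend on `L`
-/

set_option autoImplicit false
set_option linter.unusedVariables false

noncomputable section

namespace Pool.Agent.SLZ

open Polynomial

private theorem KX_bd1 {V : Type} (v : V) :
    (bdL [v] : List V →₀ ℤ) = Finsupp.single [] 1 := by
  rw [bdL, bdL, map_zero, sub_zero]

private theorem KX_bd2 {V : Type} (v w : V) :
    (bdL [v, w] : List V →₀ ℤ) = Finsupp.single [w] 1 - Finsupp.single [v] 1 := by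
  rw [bdL, KX_bd1]
  congr 1
  exact Finsupp.mapDomain_single

private theorem KX_bds {V : Type} (l : List V) :
    bd (Finsupp.single l 1 : List V →₀ ℤ) = bdL l := by
  unfold bd
  rw [Finsupp.lift_apply, Finsupp.sum_single_index]
  · exact one_smul ℤ _
  · exact zero_smul ℤ _

/-- the additive map `[L] ↦ f L` -/
private def KXphi {V W : Type} (f : V → (List W →₀ ℤ)) :
    (List V →₀ ℤ) →ₗ[ℤ] (List W →₀ ℤ) :=
  Finsupp.lift (List W →₀ ℤ) ℤ (List V) fun l => match l with
    | [v] => f v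
    | _ => 0

private theorem KXphi_single {V W : Type} (f : V → (List W →₀ ℤ)) (v : V) :
    KXphi f (Finsupp.single [v] 1) = f v := by
  unfold KXphi
  rw [Finsupp.lift_apply, Finsupp.sum_single_index]
  · exact one_smul ℤ _
  · exact zero_smul ℤ _

private theorem KX_conn {V W : Type} (K : Cx V)
    (hK : Conn K 2) (B : Submodule ℤ (List W →₀ ℤ)) (f : V → (List W →₀ ℤ))
    (hf : ∀ v w : V, [v, w] ∈ K.s → f w - f v ∈ B) (v w : V) (hv : [v] ∈ K.s)
    (hw : [w] ∈ K.s) : f v - f w ∈ B := by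
  have h1 : (Finsupp.single [v] 1 - Finsupp.single [w] 1 : List V →₀ ℤ) ∈ Ch K.s 1 :=
    sub_mem (Finsupp.single_mem_supported ℤ 1 ⟨hv, rfl⟩)
      (Finsupp.single_mem_supported ℤ 1 ⟨hw, rfl⟩)
  have h2 : bd (Finsupp.single [v] 1 - Finsupp.single [w] 1 : List V →₀ ℤ) = 0 := by
    rw [map_sub, KX_bds, KX_bds, KX_bd1, KX_bd1, sub_self]
  obtain ⟨y, hy, hyb⟩ := hK 1 (by omega) _ h1 h2
  have h3 : Ch K.s 2 ≤ B.comap (KXphi f ∘ₗ bd) := by
    unfold Ch
    rw [Finsupp.supported_eq_span_single, Submodule.span_le]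
    rintro _ ⟨l, ⟨hl, hl2⟩, rfl⟩
    obtain ⟨a, b, rfl⟩ := List.length_eq_two.1 hl2
    show KXphi f (bd (Finsupp.single [a, b] 1)) ∈ B
    rw [KX_bds, KX_bd2, map_sub, KXphi_single, KXphi_single]
    exact hf a b hl
  have h4 : KXphi f (bd y) ∈ B := h3 hy
  rw [hyb, map_sub, KXphi_single, KXphi_single] at h4
  exact h4

/-- **KX.** -/
theorem thm_KX (h3 : St_K3) (hG : St_KG) : St_KX := by
  intro A _ m J j n k N hj hN hC z hz L hL L' hL'
  obtain ⟨k1, k2, k3, k4, k5, k6⟩ := h3 A m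
  have hTV : ∀ E ∈ TV A (Vn A n) m J, ∀ F ∈ TV A (Vn A k) m J,
      dS N E F ∈ TV A (Vn A N) m (2 * J) := by
    intro E hE F hF
    rw [two_mul]
    exact k2 n k N J J E F hN hE hF
  -- (a)
  have hab : ∀ F ∈ TV A (Vn A k) m J, ∀ F' ∈ TV A (Vn A k) m J, LR F F' →
      push (fun E => dS N E F) z - push (fun E => dS N E F') z ∈ Bdr (Tn A m (2 * J) N) j := by
    intro F hF F' hF' hFF
    have hmap : ∀ G ∈ TV A (Vn A k) m J, ∀ l ∈ (Tn A m J n).s,
        l.map (fun E => dS N E G) ∈ (Tn A m (2 * J) N).s := by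
      intro G hG' l hl x hx
      obtain ⟨E, hE, rfl⟩ := List.mem_map.1 hx
      refine ⟨hTV E (hl E hE).1 G hG', ?_⟩
      intro y hy
      obtain ⟨E', hE', rfl⟩ := List.mem_map.1 hy
      rcases (hl E hE).2 E' hE' with h | h
      · exact Or.inl (k1 n k N E E' G G h ((k3 k J).2 G hG'))
      · exact Or.inr (k1 n k N E' E G G h ((k3 k J).2 G hG'))
    refine hG (Lat A (Vn A n)) (Lat A (Vn A N)) (Tn A m J n) (Tn A m (2 * J) N)
      (fun E => dS N E F) (fun E => dS N E F') ?_ ?_ ?_ j hj z hz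
    · intro x hx
      exact absurd hx List.not_mem_nil
    · intro l hl hne
      obtain ⟨E0, hE0, hmin⟩ := k4 n J l hl hne
      refine ⟨dS N E0 F, Or.inl (List.mem_map_of_mem hE0), ?_⟩
      intro t ht hsub
      have hx : ∀ v ∈ t, LR (dS N E0 F) v := by
        intro v hv
        rcases hsub v hv with h | h
        · obtain ⟨E, hE, rfl⟩ := List.mem_map.1 h
          exact k1 n k N E0 E F F (hmin E hE) ((k3 k J).2 F hF)
        · obtain ⟨E, hE, rfl⟩ := List.mem_map.1 h
          exact k1 n k N E0 E F F' (hmin E hE) hFF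
      have hx0 : dS N E0 F ∈ TV A (Vn A N) m (2 * J) := hTV E0 (hl E0 hE0).1 F hF
      have hxx : LR (dS N E0 F) (dS N E0 F) :=
        k1 n k N E0 E0 F F (hmin E0 hE0) ((k3 k J).2 F hF)
      intro v hv
      rcases List.mem_cons.1 hv with rfl | hv
      · refine ⟨hx0, fun w hw => ?_⟩
        rcases List.mem_cons.1 hw with rfl | hw
        · exact Or.inl hxx
        · exact Or.inl (hx w hw)
      · refine ⟨(ht v hv).1, fun w hw => ?_⟩
        rcases List.mem_cons.1 hw with rfl | hw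
        · exact Or.inr (hx v hv)
        · exact (ht v hv).2 w hw
    · intro l hl
      exact ⟨hmap F hF l hl, hmap F' hF' l hl⟩
  -- (c)
  refine KX_conn (Tn A m J k) hC (Bdr (Tn A m (2 * J) N) j)
    (fun F => push (fun E => dS N E F) z) ?_ L L' ?_ ?_
  · intro F F' hFF
    have hF := hFF F (by simp)
    have hF' := hFF F' (by simp)
    rcases hF.2 F' (by simp) with h | h
    · have h5 := neg_mem (hab F hF.1 F' hF'.1 h)
      rw [neg_sub] at h5
      exact h5
    · exact hab F' hF'.1 F hF.1 h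
  · intro x hx
    have hx' : x = L := List.mem_singleton.1 hx
    subst hx'
    refine ⟨hL, fun y hy => ?_⟩
    have hy' : y = x := List.mem_singleton.1 hy
    subst hy'
    exact Or.inl ((k3 k J).2 y hL)
  · intro x hx
    have hx' : x = L' := List.mem_singleton.1 hx
    subst hx'
    refine ⟨hL', fun y hy => ?_⟩
    have hy' : y = x := List.mem_singleton.1 hy
    subst hy'
    exact Or.inl ((k3 k J).2 y hL')

end Pool.Agent.SLZ
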