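import Pool.Agent.SLZ.StK

/-!
# SLZ, module KZ (helper36): the final induction
-/

set_option autoImplicit false
set_option linter.unusedVariables false

noncomputable section

namespace Pool.Agent.SLZ

open Polynomial

private theorem KZ_mono {V : Type} {K : Cx V} {c c' : ℕ} (h : c' ≤ c) (hK : Conn K c) :
    Conn K c' := fun j hj => hK j (by omega)

/-- **KZ.** -/
theorem thm_KZ (hLa : St_KLa) (hSU : St_SU) (hR2 : St_KR2) (hH4 : St_KH4) (hH1 : St_KH1)
    (hH2 : St_KH2) (hT : St_KT) (hS : St_KS) : St_KZ := by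
  intro A _ _ s hs hk1 hk2 hf1 hf2 hE m hm hD hI hP
  have base : ∀ c ≤ 2, ∃ J0 : ℕ, ∀ J ≥ J0, ∃ N : ℕ, PConn A m J c N := by
    intro c hc
    refine ⟨2, fun J hJ => ?_⟩
    obtain ⟨N, hN⟩ := hS A s hs hk1 hk2 hf1 hf2 hE m hm hD hI hP J hJ
    exact ⟨N, (hT A m J c N).2 fun n hn => KZ_mono hc (hN n hn)⟩
  intro c
  induction c with
  | zero => exact base 0 (by omega)
  | succ c ih =>
    by_cases hc : c + 1 ≤ 2
    · exact base (c + 1) hc
    · have hc2 : 2 ≤ c := by omega
      obtain ⟨J0, hJ0⟩ := ih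
      refine ⟨max J0 (c + 1), fun J hJ => ?_⟩
      have hJ1 : J0 ≤ J := le_trans (le_max_left _ _) hJ
      have hJ2 : c < J := lt_of_lt_of_le (Nat.lt_succ_self c) (le_trans (le_max_right _ _) hJ)
      obtain ⟨N, hN⟩ := hJ0 J hJ1
      have hN' := (hT A m J c N).1 hN
      have h := hLa A m J
      obtain ⟨M0, hM0⟩ := hR2 A s m hs hm hk1 hk2 hf1 hf2 hD J c h
      obtain ⟨N2, hN2⟩ := hSU A[X] (latS A m J h) c (max N M0) N (fun n => n + N)
        (fun n => n + N) (fun M hM => hN' M (le_trans (le_max_left _ _) hM))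
        (fun M hM => hM0 M (le_trans (le_max_right _ _) hM))
        (fun n z hz => hH4 A m hI hP J c hJ2 n z hz)
        (fun n M hnM hk g hg1 hg2 z hz => hH1 A m J c N (by omega) hJ2 hP
          (fun k hk => KZ_mono hc2 (hN' k hk)) n M hnM hk g hg1 hg2 z hz)
        (fun n M hnM hn2 hk h2 w t hw1 hw2 ht z hz => hH2 A m J c N N hc2 hJ2 hP
          (fun k hk => KZ_mono hc2 (hN' k hk)) hN' n M hnM hn2 hk h2 w t hw1 hw2 ht z hz)
      refine ⟨max N N2, (hT A m J (c + 1) _).2 fun n hn => ?_⟩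
      intro j hj
      rcases Nat.lt_or_ge j c with h1 | h1
      · exact hN' n (le_trans (le_max_left _ _) hn) j h1
      · have h2 : j = c := by omega
        subst h2
        exact hN2 n (le_trans (le_max_right _ _) hn)

end Pool.Agent.SLZ
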