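import Pool.Agent.SLZ.SUAll
import Pool.Agent.SLZ.KFAll
import Pool.Agent.SLZ.AsmG
import Pool.Agent.SLZ.K0
import Pool.Agent.SLZ.K1
import Pool.Agent.SLZ.K2
import Pool.Agent.SLZ.K3
import Pool.Agent.SLZ.KLa
import Pool.Agent.SLZ.KG
import Pool.Agent.SLZ.KB
import Pool.Agent.SLZ.KT
import Pool.Agent.SLZ.KH4
import Pool.Agent.SLZ.KX
import Pool.Agent.SLZ.KH1
import Pool.Agent.SLZ.KH2
import Pool.Agent.SLZ.KR1
import Pool.Agent.SLZ.KR2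
import Pool.Agent.SLZ.KC1
import Pool.Agent.SLZ.KC2
import Pool.Agent.SLZ.KC3
import Pool.Agent.SLZ.KS
import Pool.Agent.SLZ.KZ
import Pool.Agent.SLZ.DA
import Pool.Agent.SLZ.DB
import Pool.Agent.SLZ.DC
import Pool.Agent.SLZ.DD
import Pool.Agent.SLZ.DL

/-!
# SLZ: the parts U, S, K' without hypotheses: `St_SZ` (helper83)
-/

set_option autoImplicit false

namespace Pool.Agent.SLZ

theorem ka_DL : St_DL := thm_DL thm_DA thm_DB (thm_DD thm_DB thm_DC)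
theorem ka_K1 : St_K1 := thm_K1 thm_K0 all_UA2
theorem ka_K2 : St_K2 := thm_K2 thm_K0
theorem ka_K3 : St_K3 := thm_K3 thm_K0
theorem ka_KLa : St_KLa := thm_KLa ka_K1 ka_K2 ka_K3
theorem ka_KB : St_KB := thm_KB ka_K3
theorem ka_KH4 : St_KH4 := thm_KH4 thm_K0 ka_K3 ka_KB
theorem ka_KX : St_KX := thm_KX ka_K3 thm_KG
theorem ka_KH1 : St_KH1 := thm_KH1 thm_K0 ka_K1 ka_K3 ka_KX ka_KB
theorem ka_KH2 : St_KH2 := thm_KH2 thm_K0 ka_K1 ka_K2 ka_K3 ka_DL ka_KB ka_KH1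
theorem ka_KR1 : St_KR1 := thm_KR1 thm_K0 all_KF9 all_KF10
theorem ka_KR2 : St_KR2 := thm_KR2 ka_KR1 all_KF6
theorem ka_KC1 : St_KC1 := thm_KC1 thm_K0
theorem ka_KS : St_KS :=
  thm_KS ka_KLa all_S0 ka_KR2 ka_KH4 ka_KC1 thm_KC2 thm_KC3 ka_K3
theorem ka_KZ : St_KZ := thm_KZ ka_KLa all_SU ka_KR2 ka_KH4 ka_KH1 ka_KH2 thm_KT ka_KS
theorem all_SZ : St_SZ := ka_KZ

end Pool.Agent.SLZ
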