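import Pool.Agent.SLZ.StF

/-!
# SLZ FM1: formal properties of modules of type `FP_k` (helper56)
-/

set_option autoImplicit false
set_option linter.unusedVariables false

noncomputable section

namespace Pool.Agent.SLZ

theorem fm1_iso (R : Type) [Ring R] : ∀ (k : ℕ) (M N : Type) [AddCommGroup M] [Module R M]
    [AddCommGroup N] [Module R N], (M ≃ₗ[R] N) → FPm R k M → FPm R k N
  | 0, M, N, _, _, _, _, e, h => by
    have h1 : Module.Finite R M := h
    exact Module.Finite.equiv e
  | k + 1, M, N, _, _, _, _, e, h => by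
    obtain ⟨n, f, hf, hk⟩ := h
    refine ⟨n, (e : M →ₗ[R] N) ∘ₗ f, e.surjective.comp hf, ?_⟩
    rw [LinearEquiv.ker_comp]
    exact hk

theorem fm1_mk (R : Type) [Ring R] (k n : ℕ) (P M : Type) [AddCommGroup P] [Module R P]
    [AddCommGroup M] [Module R M] (e : (Fin n → R) ≃ₗ[R] P) (f : P →ₗ[R] M)
    (hf : Function.Surjective f) (h : FPm R k (LinearMap.ker f)) : FPm R (k + 1) M := by
  refine ⟨n, f ∘ₗ (e : (Fin n → R) →ₗ[R] P), hf.comp e.surjective, ?_⟩
  rw [LinearMap.ker_comp]
  exact fm1_iso R k _ _ (e.ofSubmodule' (LinearMap.ker f)).symm h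

theorem fm1_app (R : Type) [Ring R] (m n : ℕ) :
    Nonempty ((Fin (m + n) → R) ≃ₗ[R] (Fin m → R) × (Fin n → R)) :=
  ⟨(LinearEquiv.funCongrLeft R R finSumFinEquiv).trans (LinearEquiv.sumArrowLequivProdArrow _ _ R R)⟩

theorem fm1_sub (R : Type) [Ring R] : ∀ (k : ℕ) (M : Type) [AddCommGroup M] [Module R M],
    Subsingleton M → FPm R k M
  | 0, M, _, _, h => by
    have : Module.Finite R M := inferInstance
    exact this
  | k + 1, M, _, _, h => ⟨0, 0, fun x => ⟨0, Subsingleton.elim _ _⟩,
      fm1_sub R k _ inferInstance⟩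

theorem fm1_free (R : Type) [Ring R] (k n : ℕ) : FPm R k (Fin n → R) := by
  cases k with
  | zero =>
    have : Module.Finite R (Fin n → R) := inferInstance
    exact this
  | succ k =>
    refine ⟨n, LinearMap.id, Function.surjective_id, ?_⟩
    rw [LinearMap.ker_id]
    exact fm1_sub R k _ inferInstance

theorem fm1_down (R : Type) [Ring R] : ∀ (k : ℕ) (M : Type) [AddCommGroup M] [Module R M],
    FPm R (k + 1) M → FPm R k M
  | 0, M, _, _, ⟨n, f, hf, _⟩ => by
    have : Module.Finite R M := Module.Finite.of_surjective f hf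
    exact this
  | k + 1, M, _, _, ⟨n, f, hf, h⟩ => ⟨n, f, hf, fm1_down R k _ h⟩

theorem fm1_noe (R : Type) [Ring R] [IsNoetherianRing R] : ∀ (k : ℕ) (M : Type)
    [AddCommGroup M] [Module R M], Module.Finite R M → FPm R k M
  | 0, M, _, _, h => h
  | k + 1, M, _, _, h => by
    obtain ⟨n, f, hf⟩ := Module.Finite.exists_fin' R M
    exact ⟨n, f, hf, fm1_noe R k _ (Module.Finite.iff_fg.mpr (IsNoetherian.noetherian _))⟩

/-- the subquotient form of extensions -/
theorem fm1_ext (R : Type) [Ring R] : ∀ (k : ℕ) (A B C : Type) [AddCommGroup A] [Module R A]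
    [AddCommGroup B] [Module R B] [AddCommGroup C] [Module R C] (f : A →ₗ[R] B) (g : B →ₗ[R] C),
    Function.Injective f → Function.Surjective g → LinearMap.range f = LinearMap.ker g →
    FPm R k A → FPm R k C → FPm R k B
  | 0, A, B, C, _, _, _, _, _, _, f, g, hf, hg, hfg, hA, hC => by
    have h1 : Module.Finite R A := hA
    have h2 : Module.Finite R C := hC
    have e1 : A ≃ₗ[R] LinearMap.ker g :=
      (LinearEquiv.ofInjective f hf).trans (LinearEquiv.ofEq _ _ hfg)
    have h3 : Module.Finite R (LinearMap.ker g) := Module.Finite.equiv e1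
    have h4 : Module.Finite R (B ⧸ LinearMap.ker g) :=
      Module.Finite.equiv (g.quotKerEquivOfSurjective hg).symm
    exact Module.Finite.of_submodule_quotient (LinearMap.ker g)
  | k + 1, A, B, C, _, _, _, _, _, _, f, g, hf, hg, hfg, hA, hC => by
    obtain ⟨m, a, ha, hka⟩ := hA
    obtain ⟨n, c, hc, hkc⟩ := hC
    obtain ⟨h, hh⟩ := Module.projective_lifting_property g c hg
    obtain ⟨e⟩ := fm1_app R m n
    have hgf : ∀ x, g (f x) = 0 := fun x => by
      have h1 : f x ∈ LinearMap.ker g := hfg ▸ ⟨x, rfl⟩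
      exact h1
    have hgh : ∀ y, g (h y) = c y := fun y => by rw [← hh]; rfl
    have hlift : ∀ b, g b = 0 → ∃ x, f (a x) = b := by
      intro b hb
      have h1 : b ∈ LinearMap.range f := by
        rw [hfg]
        exact hb
      obtain ⟨y, hy⟩ := h1
      obtain ⟨x, hx⟩ := ha y
      exact ⟨x, by rw [hx, hy]⟩
    have hF : ∀ p : (Fin m → R) × (Fin n → R), ((f ∘ₗ a).coprod h) p = f (a p.1) + h p.2 :=
      fun p => by rw [LinearMap.coprod_apply]; rfl
    refine fm1_mk R k (m + n) _ B e ((f ∘ₗ a).coprod h) ?_ ?_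
    · intro b
      obtain ⟨y, hy⟩ := hc (g b)
      obtain ⟨x, hx⟩ := hlift (b - h y) (by rw [map_sub, hgh, hy, sub_self])
      refine ⟨(x, y), ?_⟩
      rw [hF]
      change f (a x) + h y = b
      rw [hx, sub_add_cancel]
    · have hk2 : ∀ p : LinearMap.ker ((f ∘ₗ a).coprod h), p.1.2 ∈ LinearMap.ker c := by
        intro p
        have h1 : f (a p.1.1) + h p.1.2 = 0 := by
          rw [← hF]
          exact p.2
        have h2 := congrArg g h1
        rw [map_add, hgf, zero_add, hgh, map_zero] at h2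
        exact h2
      have hk1 : ∀ x : LinearMap.ker a,
          ((x : Fin m → R), (0 : Fin n → R)) ∈ LinearMap.ker ((f ∘ₗ a).coprod h) := by
        intro x
        rw [LinearMap.mem_ker, hF]
        have h1 : a x = 0 := x.2
        change f (a x) + h 0 = 0
        rw [h1, map_zero, map_zero, add_zero]
      refine fm1_ext R k (LinearMap.ker a) (LinearMap.ker ((f ∘ₗ a).coprod h)) (LinearMap.ker c)
        (LinearMap.codRestrict _ ((LinearMap.inl R (Fin m → R) (Fin n → R)) ∘ₗ
          (LinearMap.ker a).subtype) hk1)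
        (LinearMap.codRestrict _ ((LinearMap.snd R (Fin m → R) (Fin n → R)) ∘ₗ
          (LinearMap.ker ((f ∘ₗ a).coprod h)).subtype) hk2) ?_ ?_ ?_ hka hkc
      · intro x y hxy
        have h1 := congrArg (fun p => (p : LinearMap.ker ((f ∘ₗ a).coprod h)).1.1) hxy
        exact Subtype.ext h1
      · intro y
        obtain ⟨x, hx⟩ := hlift (-h y) (by rw [map_neg, hgh, y.2, neg_zero])
        refine ⟨⟨(x, y), ?_⟩, rfl⟩
        rw [LinearMap.mem_ker, hF]
        change f (a x) + h y = 0
        rw [hx, neg_add_cancel]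
      · ext p
        constructor
        · rintro ⟨x, rfl⟩
          rfl
        · intro hp
          have h1 : p.1.2 = 0 := congrArg Subtype.val (LinearMap.mem_ker.mp hp)
          have h2 : f (a p.1.1) + h p.1.2 = 0 := by
            rw [← hF]
            exact p.2
          rw [h1, map_zero, add_zero] at h2
          have h3 : a p.1.1 = 0 := hf (by rw [h2, map_zero])
          refine ⟨⟨p.1.1, h3⟩, ?_⟩
          refine Subtype.ext (Prod.ext rfl ?_)
          exact h1.symm

theorem fm1_quo (R : Type) [Ring R] (k : ℕ) (A B C : Type) [AddCommGroup A] [Module R A]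
    [AddCommGroup B] [Module R B] [AddCommGroup C] [Module R C] (f : A →ₗ[R] B) (g : B →ₗ[R] C)
    (hf : Function.Injective f) (hg : Function.Surjective g)
    (hfg : LinearMap.range f = LinearMap.ker g) (hA : FPm R k A) (hB : FPm R (k + 1) B) :
    FPm R (k + 1) C := by
  obtain ⟨n, p, hp, hk⟩ := hB
  refine ⟨n, g ∘ₗ p, hg.comp hp, ?_⟩
  have hA' : FPm R k (LinearMap.ker g) :=
    fm1_iso R k _ _ ((LinearEquiv.ofInjective f hf).trans (LinearEquiv.ofEq _ _ hfg)) hA
  have hk1 : ∀ x : LinearMap.ker p, (x : Fin n → R) ∈ LinearMap.ker (g ∘ₗ p) := by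
    intro x
    have h1 : p x = 0 := x.2
    rw [LinearMap.mem_ker, LinearMap.comp_apply, h1, map_zero]
  have hk2 : ∀ x : LinearMap.ker (g ∘ₗ p), p x ∈ LinearMap.ker g := fun x => x.2
  refine fm1_ext R k (LinearMap.ker p) (LinearMap.ker (g ∘ₗ p)) (LinearMap.ker g)
    (LinearMap.codRestrict _ (LinearMap.ker p).subtype hk1)
    (LinearMap.codRestrict _ (p ∘ₗ (LinearMap.ker (g ∘ₗ p)).subtype) hk2) ?_ ?_ ?_ hk hA'
  · intro x y hxy
    have h1 := congrArg (fun q => (q : LinearMap.ker (g ∘ₗ p)).1) hxy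
    exact Subtype.ext h1
  · intro y
    obtain ⟨x, hx⟩ := hp y
    refine ⟨⟨x, ?_⟩, Subtype.ext hx⟩
    rw [LinearMap.mem_ker, LinearMap.comp_apply, hx]
    exact y.2
  · ext q
    constructor
    · rintro ⟨x, rfl⟩
      exact Subtype.ext x.2
    · intro hq
      have h1 : p q.1 = 0 := congrArg Subtype.val (LinearMap.mem_ker.mp hq)
      exact ⟨⟨q.1, h1⟩, Subtype.ext rfl⟩

/-- **FM1.** Formal properties of `FPm`. -/
theorem thm_FM1 : St_FM1 := by
  intro R _
  refine ⟨fm1_iso R, ?_, fm1_free R, fm1_down R, ?_⟩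
  · intro k A B C _ _ _ _ _ _ f g hf hg hfg
    exact ⟨fm1_ext R k A B C f g hf hg hfg, fm1_quo R k A B C f g hf hg hfg⟩
  · intro hR k M _ _ hM
    exact fm1_noe R k M hM

end Pool.Agent.SLZ
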