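import Pool.Agent.SLZ.StF

/-!
# SLZ/FM2 (helper55): Schanuel, kernels, the algebraic part of the criterion of Brown
-/

set_option autoImplicit false

noncomputable section

namespace Pool.Agent.SLZ

theorem fm2_schanuel {R : Type} [Ring R] {F F' M : Type} [AddCommGroup F] [Module R F] [AddCommGroup F']
    [Module R F'] [AddCommGroup M] [Module R M] (f : F →ₗ[R] M) (f' : F' →ₗ[R] M) (s : F' →ₗ[R] F)
    (s' : F →ₗ[R] F') (hs : f ∘ₗ s = f') (hs' : f' ∘ₗ s' = f) :
    Nonempty ((LinearMap.ker f' × F) ≃ₗ[R] (LinearMap.ker f × F')) := by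
  have h1 : ∀ y, f (s y) = f' y := fun y => LinearMap.congr_fun hs y
  have h2 : ∀ x, f' (s' x) = f x := fun x => LinearMap.congr_fun hs' x
  refine ⟨{ toFun := fun q => (⟨q.2 - s ((q.1 : F') + s' q.2), ?_⟩, (q.1 : F') + s' q.2)
            map_add' := ?_
            map_smul' := ?_
            invFun := fun q => (⟨q.2 - s' ((q.1 : F) + s q.2), ?_⟩, (q.1 : F) + s q.2)
            left_inv := ?_
            right_inv := ?_ }⟩
  · rw [LinearMap.mem_ker, map_sub, h1, map_add, h2, LinearMap.mem_ker.1 q.1.2]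
    abel
  · intro p q
    refine Prod.ext (Subtype.ext ?_) ?_
    · change p.2 + q.2 - s (((p.1 : F') + q.1) + s' (p.2 + q.2)) =
        p.2 - s ((p.1 : F') + s' p.2) + (q.2 - s ((q.1 : F') + s' q.2))
      simp only [map_add]
      abel
    · change ((p.1 : F') + q.1) + s' (p.2 + q.2) = ((p.1 : F') + s' p.2) + ((q.1 : F') + s' q.2)
      rw [map_add]
      abel
  · intro r p
    refine Prod.ext (Subtype.ext ?_) ?_
    · change r • p.2 - s (r • (p.1 : F') + s' (r • p.2)) = r • (p.2 - s ((p.1 : F') + s' p.2))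
      rw [map_smul, ← smul_add, map_smul, ← smul_sub]
    · change r • (p.1 : F') + s' (r • p.2) = r • ((p.1 : F') + s' p.2)
      rw [map_smul, ← smul_add]
  · rw [LinearMap.mem_ker, map_sub, h2, map_add, h1, LinearMap.mem_ker.1 q.1.2]
    abel
  · intro q
    refine Prod.ext (Subtype.ext ?_) ?_
    · change ((q.1 : F') + s' q.2) - s' ((q.2 - s ((q.1 : F') + s' q.2)) + s ((q.1 : F') + s' q.2)) = (q.1 : F')
      rw [sub_add_cancel, add_sub_cancel_right]
    · change (q.2 - s ((q.1 : F') + s' q.2)) + s ((q.1 : F') + s' q.2) = q.2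
      rw [sub_add_cancel]
  · intro q
    refine Prod.ext (Subtype.ext ?_) ?_
    · change ((q.1 : F) + s q.2) - s ((q.2 - s' ((q.1 : F) + s q.2)) + s' ((q.1 : F) + s q.2)) = (q.1 : F)
      rw [sub_add_cancel, add_sub_cancel_right]
    · change (q.2 - s' ((q.1 : F) + s q.2)) + s' ((q.1 : F) + s q.2) = q.2
      rw [sub_add_cancel]

theorem fm2_one (h : St_FM1) {R : Type} [Ring R] (k : ℕ) (M : Type) [AddCommGroup M] [Module R M]
    (hM : FPm R (k + 1) M) (n : ℕ) (f : (Fin n → R) →ₗ[R] M) (hf : Function.Surjective f) :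
    FPm R k (LinearMap.ker f) := by
  obtain ⟨m1, m2, m3, -, -⟩ := h R
  obtain ⟨n', f', hf', hK⟩ := hM
  obtain ⟨s, hs⟩ := Module.projective_lifting_property f f' hf
  obtain ⟨s', hs'⟩ := Module.projective_lifting_property f' f hf'
  obtain ⟨e⟩ := fm2_schanuel f f' s s' hs hs'
  have h1 : FPm R k (LinearMap.ker f' × (Fin n → R)) :=
    (m2 k (LinearMap.ker f') (LinearMap.ker f' × (Fin n → R)) (Fin n → R)
      (LinearMap.inl R _ _) (LinearMap.snd R _ _) LinearMap.inl_injective LinearMap.snd_surjective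
      (LinearMap.range_inl R _ _)).1 hK (m3 k n)
  have h2 : FPm R k (LinearMap.ker f × (Fin n' → R)) := m1 k _ _ e h1
  cases k with
  | zero =>
    have h3 : Module.Finite R (LinearMap.ker f × (Fin n' → R)) := h2
    exact Module.Finite.of_surjective (LinearMap.fst R (LinearMap.ker f) (Fin n' → R))
      LinearMap.fst_surjective
  | succ l =>
    exact (m2 l (Fin n' → R) (LinearMap.ker f × (Fin n' → R)) (LinearMap.ker f)
      (LinearMap.inr R _ _) (LinearMap.fst R _ _) LinearMap.inr_injective LinearMap.fst_surjective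
      (LinearMap.range_inr R _ _)).2 (m3 l n') h2

/-- the restriction of `p` to the kernel of `g ∘ p`, onto the kernel of `g` -/
def fm2_map {R : Type} [Ring R] {F B C : Type} [AddCommGroup F] [Module R F] [AddCommGroup B]
    [Module R B] [AddCommGroup C] [Module R C] (p : F →ₗ[R] B) (g : B →ₗ[R] C) :
    LinearMap.ker (g ∘ₗ p) →ₗ[R] LinearMap.ker g :=
  (p.domRestrict (LinearMap.ker (g ∘ₗ p))).codRestrict (LinearMap.ker g) fun x => x.2

theorem fm2_map_surj {R : Type} [Ring R] {F B C : Type} [AddCommGroup F] [Module R F] [AddCommGroup B]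
    [Module R B] [AddCommGroup C] [Module R C] (p : F →ₗ[R] B) (g : B →ₗ[R] C)
    (hp : Function.Surjective p) : Function.Surjective (fm2_map p g) := by
  intro y
  obtain ⟨x, hx⟩ := hp (y : B)
  have hx' : x ∈ LinearMap.ker (g ∘ₗ p) := by
    rw [LinearMap.mem_ker, LinearMap.comp_apply, hx]
    exact y.2
  exact ⟨⟨x, hx'⟩, Subtype.ext hx⟩

theorem fm2_two (h : St_FM1) {R : Type} [Ring R] (k : ℕ) (A B C : Type) [AddCommGroup A] [Module R A]
    [AddCommGroup B] [Module R B] [AddCommGroup C] [Module R C] (f : A →ₗ[R] B) (g : B →ₗ[R] C)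
    (hf : Function.Injective f) (hg : Function.Surjective g) (hfg : LinearMap.range f = LinearMap.ker g)
    (hB : FPm R k B) (hC : FPm R (k + 1) C) : FPm R k A := by
  obtain ⟨m1, m2, m3, -, -⟩ := h R
  have e : LinearMap.ker g ≃ₗ[R] A := ((LinearEquiv.ofInjective f hf).trans (LinearEquiv.ofEq _ _ hfg)).symm
  refine m1 k _ _ e ?_
  cases k with
  | zero =>
    have hB' : Module.Finite R B := hB
    obtain ⟨n, p, hp⟩ := Module.Finite.exists_fin' R B
    have h1 := fm2_one h 0 C hC n (g ∘ₗ p) (hg.comp hp)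
    have h2 : Module.Finite R (LinearMap.ker (g ∘ₗ p)) := h1
    exact Module.Finite.of_surjective (fm2_map p g) (fm2_map_surj p g hp)
  | succ l =>
    obtain ⟨n, p, hp, hK⟩ := hB
    have h1 := fm2_one h (l + 1) C hC n (g ∘ₗ p) (hg.comp hp)
    have hle : LinearMap.ker p ≤ LinearMap.ker (g ∘ₗ p) := LinearMap.ker_le_ker_comp p g
    refine (m2 l (LinearMap.ker p) (LinearMap.ker (g ∘ₗ p)) (LinearMap.ker g)
      (Submodule.inclusion hle) (fm2_map p g) (Submodule.inclusion_injective hle)
      (fm2_map_surj p g hp) ?_).2 hK h1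
    ext x
    constructor
    · rintro ⟨y, rfl⟩
      rw [LinearMap.mem_ker]
      exact Subtype.ext y.2
    · intro hx
      have hx' : p (x : Fin n → R) = 0 := congrArg Subtype.val (LinearMap.mem_ker.1 hx)
      exact ⟨⟨x, hx'⟩, rfl⟩

/-- `St_FM2`. -/
theorem thm_FM2 (h : St_FM1) : St_FM2 := fun _ _ =>
  ⟨fun k M _ _ hM n f hf => fm2_one h k M hM n f hf,
    fun k A B C _ _ _ _ _ _ f g hf hg hfg hB hC => fm2_two h k A B C f g hf hg hfg hB hC⟩

/-- `St_FBr`. -/
theorem thm_FBr (h : St_FM1) : St_FBr := by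
  intro R _ k
  induction k with
  | zero =>
    intro C _ _ M _ _ d e he _ _ hC
    have h0 : Module.Finite R (C 0) := hC 0 le_rfl
    exact Module.Finite.of_surjective e he
  | succ k ih =>
    intro C _ _ M _ _ d e he h0 hd hC
    obtain ⟨m1, m2, m3, -, -⟩ := h R
    have hr := h0 (Nat.succ_pos k)
    set e' : C 1 →ₗ[R] LinearMap.ker e := (d 0).codRestrict (LinearMap.ker e) (fun x => by
      rw [← hr]
      exact LinearMap.mem_range_self (d 0) x) with he'
    have hker : LinearMap.ker e' = LinearMap.ker (d 0) := LinearMap.ker_codRestrict _ _ _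
    have hK : FPm R k (LinearMap.ker e) := by
      refine ih (fun i => C (i + 1)) (LinearMap.ker e) (fun i => d (i + 1)) e' ?_ ?_ ?_ ?_
      · intro y
        have hy : (y : C 0) ∈ LinearMap.range (d 0) := by
          rw [hr]
          exact y.2
        obtain ⟨x, hx⟩ := hy
        exact ⟨x, Subtype.ext hx⟩
      · intro hk
        rw [hker]
        exact hd 0 (by omega)
      · intro i hi
        exact hd (i + 1) (by omega)
      · intro i hi
        have h1 := hC (i + 1) (by omega)
        rwa [Nat.add_sub_add_right] at h1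
    have hC0 : FPm R (k + 1) (C 0) := hC 0 (Nat.zero_le _)
    exact (m2 k (LinearMap.ker e) (C 0) M (LinearMap.ker e).subtype e
      (Submodule.subtype_injective _) he (Submodule.range_subtype _)).2 hK hC0

end Pool.Agent.SLZ
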