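import Pool.Agent.SLZ.StFF
import Pool.Agent.SLZ.FM1
import Pool.Agent.SLZ.FM2

/-!
# SLZ FFP: formal properties of finite free resolutions (helper96)
-/

set_option autoImplicit false
set_option linter.unusedVariables false

noncomputable section

namespace Pool.Agent.SLZ

open Function

private theorem ffp_sf_iso {R : Type} [CommRing R] {M N : Type} [AddCommGroup M] [Module R M]
    [AddCommGroup N] [Module R N] (e : M ≃ₗ[R] N) (h : SF R M) : SF R N := by
  obtain ⟨m, n, ⟨e1⟩⟩ := h
  exact ⟨m, n, ⟨(LinearEquiv.prodCongr e.symm (LinearEquiv.refl R _)).trans e1⟩⟩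

private theorem ffp_iso (R : Type) [CommRing R] : ∀ (d : ℕ) (M N : Type) [AddCommGroup M]
    [Module R M] [AddCommGroup N] [Module R N], (M ≃ₗ[R] N) → FF R d M → FF R d N
  | 0, M, N, _, _, _, _, e, h => ffp_sf_iso e h
  | k + 1, M, N, _, _, _, _, e, h => by
    obtain ⟨n, f, hf, hk⟩ := h
    refine ⟨n, (e : M →ₗ[R] N) ∘ₗ f, e.surjective.comp hf, ?_⟩
    rw [LinearEquiv.ker_comp]
    exact hk

private theorem ffp_mk (R : Type) [CommRing R] (k n : ℕ) (P M : Type) [AddCommGroup P]
    [Module R P] [AddCommGroup M] [Module R M] (e : (Fin n → R) ≃ₗ[R] P) (f : P →ₗ[R] M)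
    (hf : Function.Surjective f) (h : FF R k (LinearMap.ker f)) : FF R (k + 1) M := by
  refine ⟨n, f ∘ₗ (e : (Fin n → R) →ₗ[R] P), hf.comp e.surjective, ?_⟩
  rw [LinearMap.ker_comp]
  exact ffp_iso R k _ _ (e.ofSubmodule' (LinearMap.ker f)).symm h

private theorem ffp_sf_free (R : Type) [CommRing R] (n : ℕ) : SF R (Fin n → R) :=
  ⟨0, n, ⟨LinearEquiv.prodUnique⟩⟩

private theorem ffp_up (R : Type) [CommRing R] : ∀ (d : ℕ) (M : Type) [AddCommGroup M]
    [Module R M], FF R d M → FF R (d + 1) M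
  | 0, M, _, _, ⟨m, n, ⟨e⟩⟩ => by
    refine ffp_mk R 0 n (M × (Fin m → R)) M e.symm (LinearMap.fst R M (Fin m → R))
      LinearMap.fst_surjective ?_
    rw [LinearMap.ker_fst]
    exact ffp_sf_iso (LinearEquiv.ofInjective (LinearMap.inr R M (Fin m → R))
      LinearMap.inr_injective) (ffp_sf_free R m)
  | k + 1, M, _, _, ⟨n, f, hf, h⟩ => ⟨n, f, hf, ffp_up R k _ h⟩

private theorem ffp_free (R : Type) [CommRing R] (n : ℕ) : ∀ d : ℕ, FF R d (Fin n → R)
  | 0 => ffp_sf_free R n
  | d + 1 => ffp_up R d _ (ffp_free R n d)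

private theorem ffp_proj (R : Type) [CommRing R] (M : Type) [AddCommGroup M] [Module R M]
    (h : SF R M) : Module.Projective R M ∧ Module.Finite R M := by
  obtain ⟨m, n, ⟨e⟩⟩ := h
  constructor
  · refine Module.Projective.of_split
      ((e : (M × (Fin m → R)) →ₗ[R] (Fin n → R)) ∘ₗ LinearMap.inl R M (Fin m → R))
      (LinearMap.fst R M (Fin m → R) ∘ₗ (e.symm : (Fin n → R) →ₗ[R] M × (Fin m → R))) ?_
    ext x
    change (e.symm (e (x, 0))).1 = x
    rw [e.symm_apply_apply]
  · exact Module.Finite.of_surjective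
      (LinearMap.fst R M (Fin m → R) ∘ₗ (e.symm : (Fin n → R) →ₗ[R] M × (Fin m → R)))
      ((LinearMap.fst_surjective (R := R) (M := M) (M₂ := Fin m → R)).comp e.symm.surjective)

private theorem ffp_sf_ext (R : Type) [CommRing R] (A B C : Type) [AddCommGroup A] [Module R A]
    [AddCommGroup B] [Module R B] [AddCommGroup C] [Module R C] (f : A →ₗ[R] B) (g : B →ₗ[R] C)
    (hf : Function.Injective f) (hg : Function.Surjective g)
    (hfg : LinearMap.range f = LinearMap.ker g) (hA : SF R A) (hC : SF R C) : SF R B := by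
  have hP : Module.Projective R C := (ffp_proj R C hC).1
  obtain ⟨s, hs⟩ := Module.projective_lifting_property g LinearMap.id hg
  have hs' : ∀ c, g (s c) = c := fun c => LinearMap.congr_fun hs c
  have hgf : ∀ x, g (f x) = 0 := fun x => by
    have h1 : f x ∈ LinearMap.ker g := hfg ▸ ⟨x, rfl⟩
    exact h1
  have hb : Function.Bijective (f.coprod s) := by
    constructor
    · rw [injective_iff_map_eq_zero]
      rintro ⟨a, c⟩ h
      rw [LinearMap.coprod_apply] at h
      have h1 := congrArg g h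
      rw [map_add, hgf, hs', zero_add, map_zero] at h1
      change c = 0 at h1
      subst h1
      change f a + s 0 = 0 at h
      rw [map_zero, add_zero] at h
      have h2 : a = 0 := hf (by rw [h, map_zero])
      rw [h2]
      rfl
    · intro b
      have h1 : b - s (g b) ∈ LinearMap.range f := by
        rw [hfg, LinearMap.mem_ker, map_sub, hs', sub_self]
      obtain ⟨a, ha⟩ := h1
      refine ⟨(a, g b), ?_⟩
      rw [LinearMap.coprod_apply]
      change f a + s (g b) = b
      rw [ha, sub_add_cancel]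
  obtain ⟨m, n, ⟨e1⟩⟩ := hA
  obtain ⟨m', n', ⟨e2⟩⟩ := hC
  obtain ⟨e3⟩ := fm1_app R m m'
  obtain ⟨e4⟩ := fm1_app R n n'
  refine ⟨m + m', n + n', ⟨?_⟩⟩
  exact (LinearEquiv.prodCongr (LinearEquiv.ofBijective _ hb).symm e3).trans
    ((LinearEquiv.prodProdProdComm R A C (Fin m → R) (Fin m' → R)).trans
      ((LinearEquiv.prodCongr e1 e2).trans e4.symm))

private theorem ffp_ext (R : Type) [CommRing R] : ∀ (k : ℕ) (A B C : Type) [AddCommGroup A]
    [Module R A] [AddCommGroup B] [Module R B] [AddCommGroup C] [Module R C] (f : A →ₗ[R] B)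
    (g : B →ₗ[R] C), Function.Injective f → Function.Surjective g →
    LinearMap.range f = LinearMap.ker g → FF R k A → FF R k C → FF R k B
  | 0, A, B, C, _, _, _, _, _, _, f, g, hf, hg, hfg, hA, hC =>
    ffp_sf_ext R A B C f g hf hg hfg hA hC
  | k + 1, A, B, C, _, _, _, _, _, _, f, g, hf, hg, hfg, hA, hC => by
    obtain ⟨m, a, ha, hka⟩ := hA
    obtain ⟨n, c, hc, hkc⟩ := hC
    obtain ⟨h, hh⟩ := Module.projective_lifting_property g c hg
    obtain ⟨e⟩ := fm1_app R m n
    have hgf : ∀ x, g (f x) = 0 := fun x => by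
      have h1 : f x ∈ LinearMap.ker g := hfg ▸ ⟨x, rfl⟩
      exact h1
    have hgh : ∀ y, g (h y) = c y := fun y => by rw [← hh]; rfl
    have hlift : ∀ b, g b = 0 → ∃ x, f (a x) = b := by
      intro b hb
      have h1 : b ∈ LinearMap.range f := by
        rw [hfg]
        exact hb
      obtain ⟨y, hy⟩ := h1
      obtain ⟨x, hx⟩ := ha y
      exact ⟨x, by rw [hx, hy]⟩
    have hF : ∀ p : (Fin m → R) × (Fin n → R), ((f ∘ₗ a).coprod h) p = f (a p.1) + h p.2 :=
      fun p => by rw [LinearMap.coprod_apply]; rfl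
    refine ffp_mk R k (m + n) _ B e ((f ∘ₗ a).coprod h) ?_ ?_
    · intro b
      obtain ⟨y, hy⟩ := hc (g b)
      obtain ⟨x, hx⟩ := hlift (b - h y) (by rw [map_sub, hgh, hy, sub_self])
      refine ⟨(x, y), ?_⟩
      rw [hF]
      change f (a x) + h y = b
      rw [hx, sub_add_cancel]
    · have hk2 : ∀ p : LinearMap.ker ((f ∘ₗ a).coprod h), p.1.2 ∈ LinearMap.ker c := by
        intro p
        have h1 : f (a p.1.1) + h p.1.2 = 0 := by
          rw [← hF]
          exact p.2
        have h2 := congrArg g h1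
        rw [map_add, hgf, zero_add, hgh, map_zero] at h2
        exact h2
      have hk1 : ∀ x : LinearMap.ker a,
          ((x : Fin m → R), (0 : Fin n → R)) ∈ LinearMap.ker ((f ∘ₗ a).coprod h) := by
        intro x
        rw [LinearMap.mem_ker, hF]
        have h1 : a x = 0 := x.2
        change f (a x) + h 0 = 0
        rw [h1, map_zero, map_zero, add_zero]
      refine ffp_ext R k (LinearMap.ker a) (LinearMap.ker ((f ∘ₗ a).coprod h)) (LinearMap.ker c)
        (LinearMap.codRestrict _ ((LinearMap.inl R (Fin m → R) (Fin n → R)) ∘ₗ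
          (LinearMap.ker a).subtype) hk1)
        (LinearMap.codRestrict _ ((LinearMap.snd R (Fin m → R) (Fin n → R)) ∘ₗ
          (LinearMap.ker ((f ∘ₗ a).coprod h)).subtype) hk2) ?_ ?_ ?_ hka hkc
      · intro x y hxy
        have h1 := congrArg (fun p => (p : LinearMap.ker ((f ∘ₗ a).coprod h)).1.1) hxy
        exact Subtype.ext h1
      · intro y
        obtain ⟨x, hx⟩ := hlift (-h y) (by rw [map_neg, hgh, y.2, neg_zero])
        refine ⟨⟨(x, y), ?_⟩, rfl⟩
        rw [LinearMap.mem_ker, hF]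
        change f (a x) + h y = 0
        rw [hx, neg_add_cancel]
      · ext p
        constructor
        · rintro ⟨x, rfl⟩
          rfl
        · intro hp
          have h1 : p.1.2 = 0 := congrArg Subtype.val (LinearMap.mem_ker.mp hp)
          have h2 : f (a p.1.1) + h p.1.2 = 0 := by
            rw [← hF]
            exact p.2
          rw [h1, map_zero, add_zero] at h2
          have h3 : a p.1.1 = 0 := hf (by rw [h2, map_zero])
          refine ⟨⟨p.1.1, h3⟩, ?_⟩
          refine Subtype.ext (Prod.ext rfl ?_)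
          exact h1.symm

/-- the kernel of a composition is an extension of kernels -/
private theorem ffp_comp_exact (R : Type) [CommRing R] {F B C : Type} [AddCommGroup F]
    [Module R F] [AddCommGroup B] [Module R B] [AddCommGroup C] [Module R C] (p : F →ₗ[R] B)
    (g : B →ₗ[R] C) (hle : LinearMap.ker p ≤ LinearMap.ker (g ∘ₗ p)) :
    LinearMap.range (Submodule.inclusion hle) = LinearMap.ker (fm2_map p g) := by
  ext x
  constructor
  · rintro ⟨y, rfl⟩
    rw [LinearMap.mem_ker]
    exact Subtype.ext y.2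
  · intro hx
    have hx' : p (x : F) = 0 := congrArg Subtype.val (LinearMap.mem_ker.1 hx)
    exact ⟨⟨x, hx'⟩, rfl⟩

/-- the kernel of a composition -/
private theorem ffp_comp_ker (R : Type) [CommRing R] (k : ℕ) {F B C : Type} [AddCommGroup F]
    [Module R F] [AddCommGroup B] [Module R B] [AddCommGroup C] [Module R C] (p : F →ₗ[R] B)
    (g : B →ₗ[R] C) (hp : Function.Surjective p) (h1 : FF R k (LinearMap.ker p))
    (h2 : FF R k (LinearMap.ker g)) : FF R k (LinearMap.ker (g ∘ₗ p)) := by
  have hle : LinearMap.ker p ≤ LinearMap.ker (g ∘ₗ p) := LinearMap.ker_le_ker_comp p g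
  exact ffp_ext R k (LinearMap.ker p) (LinearMap.ker (g ∘ₗ p)) (LinearMap.ker g)
    (Submodule.inclusion hle) (fm2_map p g) (Submodule.inclusion_injective hle)
    (fm2_map_surj p g hp) (ffp_comp_exact R p g hle) h1 h2

private theorem ffp_quo (R : Type) [CommRing R] (k : ℕ) (A B C : Type) [AddCommGroup A]
    [Module R A] [AddCommGroup B] [Module R B] [AddCommGroup C] [Module R C] (f : A →ₗ[R] B)
    (g : B →ₗ[R] C) (hf : Function.Injective f) (hg : Function.Surjective g)
    (hfg : LinearMap.range f = LinearMap.ker g) (hA : FF R k A) (hB : FF R (k + 1) B) :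
    FF R (k + 1) C := by
  obtain ⟨n, p, hp, hk⟩ := hB
  refine ⟨n, g ∘ₗ p, hg.comp hp, ?_⟩
  have hA' : FF R k (LinearMap.ker g) :=
    ffp_iso R k _ _ ((LinearEquiv.ofInjective f hf).trans (LinearEquiv.ofEq _ _ hfg)) hA
  exact ffp_comp_ker R k p g hp hk hA'

private theorem ffp_ker_fst (R : Type) [CommRing R] (k n : ℕ) (M : Type) [AddCommGroup M]
    [Module R M] : FF R k (LinearMap.ker (LinearMap.fst R M (Fin n → R))) := by
  rw [LinearMap.ker_fst]
  exact ffp_iso R k _ _ (LinearEquiv.ofInjective (LinearMap.inr R M (Fin n → R))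
      LinearMap.inr_injective) (ffp_free R n k)

private theorem ffp_cancel (R : Type) [CommRing R] : ∀ (d n : ℕ) (M : Type) [AddCommGroup M]
    [Module R M], FF R d (M × (Fin n → R)) → FF R d M
  | 0, n, M, _, _, ⟨m, p, ⟨e⟩⟩ => by
    obtain ⟨e1⟩ := fm1_app R n m
    exact ⟨n + m, p, ⟨(LinearEquiv.prodCongr (LinearEquiv.refl R M) e1).trans
      ((LinearEquiv.prodAssoc R M (Fin n → R) (Fin m → R)).symm.trans e)⟩⟩
  | d + 1, n, M, _, _, ⟨p, g, hg, hk⟩ => by
    refine ⟨p, LinearMap.fst R M (Fin n → R) ∘ₗ g, ?_, ?_⟩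
    · exact (LinearMap.fst_surjective (R := R) (M := M) (M₂ := Fin n → R)).comp hg
    · exact ffp_comp_ker R d g (LinearMap.fst R M (Fin n → R)) hg hk (ffp_ker_fst R d n M)

private theorem ffp_schanuel (R : Type) [CommRing R] (d n : ℕ) (M : Type) [AddCommGroup M]
    [Module R M] (f : (Fin n → R) →ₗ[R] M) (hM : FF R (d + 1) M) (hf : Function.Surjective f) :
    FF R d (LinearMap.ker f) := by
  obtain ⟨n', f', hf', hK⟩ := hM
  obtain ⟨s, hs⟩ := Module.projective_lifting_property f f' hf
  obtain ⟨s', hs'⟩ := Module.projective_lifting_property f' f hf'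
  obtain ⟨e⟩ := fm2_schanuel f f' s s' hs hs'
  have h1 : FF R d (LinearMap.ker f' × (Fin n → R)) :=
    ffp_ext R d (LinearMap.ker f') (LinearMap.ker f' × (Fin n → R)) (Fin n → R)
      (LinearMap.inl R _ _) (LinearMap.snd R _ _) LinearMap.inl_injective LinearMap.snd_surjective
      (LinearMap.range_inl R _ _) hK (ffp_free R n d)
  exact ffp_cancel R d n' _ (ffp_iso R d _ _ e h1)

private theorem ffp_three (R : Type) [CommRing R] (d : ℕ) (A B C : Type) [AddCommGroup A]
    [Module R A] [AddCommGroup B] [Module R B] [AddCommGroup C] [Module R C] (f : A →ₗ[R] B)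
    (g : B →ₗ[R] C) (hf : Function.Injective f) (hg : Function.Surjective g)
    (hfg : LinearMap.range f = LinearMap.ker g) (hB : FF R d B) (hC : FF R (d + 1) C) :
    FF R d A := by
  have e : LinearMap.ker g ≃ₗ[R] A :=
    ((LinearEquiv.ofInjective f hf).trans (LinearEquiv.ofEq _ _ hfg)).symm
  refine ffp_iso R d _ _ e ?_
  cases d with
  | zero =>
    obtain ⟨m, n, ⟨e1⟩⟩ := hB
    obtain ⟨q, hq⟩ : ∃ q : B × (Fin m → R) →ₗ[R] C, q = g ∘ₗ LinearMap.fst R B (Fin m → R) :=
      ⟨_, rfl⟩
    have hqs : Function.Surjective q := by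
      rw [hq]
      exact hg.comp LinearMap.fst_surjective
    have h1 : FF R 0 (LinearMap.ker (q ∘ₗ (e1.symm : (Fin n → R) →ₗ[R] B × (Fin m → R)))) :=
      ffp_schanuel R 0 n C _ hC (hqs.comp e1.symm.surjective)
    rw [LinearMap.ker_comp] at h1
    have h2 : FF R 0 (LinearMap.ker q) :=
      ffp_iso R 0 _ _ (e1.symm.ofSubmodule' (LinearMap.ker q)) h1
    have hq' : ∀ y, q y = g y.1 := fun y => by rw [hq]; rfl
    have hk : ∀ x : LinearMap.ker q, x.1.1 ∈ LinearMap.ker g := by
      intro x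
      rw [LinearMap.mem_ker, ← hq']
      exact x.2
    have e2 : LinearMap.ker q ≃ₗ[R] (LinearMap.ker g × (Fin m → R)) :=
      { toFun := fun x => (⟨x.1.1, hk x⟩, x.1.2)
        map_add' := fun x y => rfl
        map_smul' := fun r x => rfl
        invFun := fun y => ⟨(y.1.1, y.2), by
          rw [LinearMap.mem_ker, hq']
          exact y.1.2⟩
        left_inv := fun x => rfl
        right_inv := fun y => rfl }
    exact ffp_cancel R 0 m _ (ffp_iso R 0 _ _ e2 h2)
  | succ l =>
    obtain ⟨n, p, hp, hK⟩ := hB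
    have h1 := ffp_schanuel R (l + 1) n C (g ∘ₗ p) hC (hg.comp hp)
    have hle : LinearMap.ker p ≤ LinearMap.ker (g ∘ₗ p) := LinearMap.ker_le_ker_comp p g
    exact ffp_quo R l (LinearMap.ker p) (LinearMap.ker (g ∘ₗ p)) (LinearMap.ker g)
      (Submodule.inclusion hle) (fm2_map p g) (Submodule.inclusion_injective hle)
      (fm2_map_surj p g hp) (ffp_comp_exact R p g hle) hK h1

/-- **FFP.** Formal properties of `FF`. -/
theorem thm_FFP : St_FFP := by
  intro R _
  refine ⟨ffp_iso R, ffp_up R, ?_, ffp_cancel R, ?_, ffp_proj R⟩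
  · intro d A B C _ _ _ _ _ _ f g hf hg hfg
    exact ⟨ffp_ext R d A B C f g hf hg hfg, ffp_quo R d A B C f g hf hg hfg,
      ffp_three R d A B C f g hf hg hfg⟩
  · intro d n M _ _ f hM hf
    exact ffp_schanuel R d n M f hM hf

end Pool.Agent.SLZ
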