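import Pool.Agent.SLZ.StR

set_option autoImplicit false
set_option linter.unusedVariables false

/-! # SLZ RA2: prisms -/

noncomputable section

namespace Pool.Agent.SLZ

open Polynomial

theorem ra2_adj_symm {A : Type} [CommRing A] {V : Type} [AddCommGroup V] [Module A V]
    [Module A[X] V] [IsScalarTower A A[X] V] {E F : Lat A V} (h : adjL E F) : adjL F E :=
  Or.symm h

/-- the largest vertex of a simplex -/
theorem ra2_top {A : Type} [CommRing A] {V : Type} [AddCommGroup V] [Module A V]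
    [Module A[X] V] [IsScalarTower A A[X] V] (l : List (Lat A V)) (hl : l ≠ [])
    (h : ∀ x ∈ l, ∀ y ∈ l, adjL x y) : ∃ t ∈ l, ∀ x ∈ l, LR x t := by
  have h1 : ∃ t ∈ l, ∀ x ∈ l, x ≤ t := by
    obtain ⟨a, ha⟩ := List.exists_mem_of_ne_nil l hl
    obtain ⟨t, _, ht⟩ := (List.finite_toSet l).exists_le_maximal (a := a) ha
    refine ⟨t, ht.1, fun x hx => ?_⟩
    rcases h x hx t ht.1 with h3 | h3
    · exact h3.1
    · exact ht.2 hx h3.1
  obtain ⟨t, ht, h2⟩ := h1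
  refine ⟨t, ht, fun x hx => ?_⟩
  rcases h x hx t ht with h3 | h3
  · exact h3
  · have h4 : x = t := le_antisymm (h2 x hx) h3.1
    subst h4
    exact h3

theorem thm_RA2 (hMA : St_MA) (hRA1 : St_RA1) : St_RA2 := by
  intro A _ V₀ _ _ _ _ V _ _ _ _ Y S f g hS hLR
  let Λ : List (Lat A V₀) → Cx (Lat A V) := fun l => Fl adjL {E | ∃ y ∈ l, E = f y ∨ E = g y}
  have hY : ∀ l ∈ (Fl adjL Y).s, ∀ x ∈ l, x ∈ Y := fun l hl x hx => (hl x hx).1
  have hadj : ∀ x ∈ Y, ∀ y ∈ Y, adjL x y → adjL (f x) (f y) ∧ adjL (g x) (g y) := by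
    intro x hx y hy h
    rcases h with h | h
    · obtain ⟨h1, h2, h3⟩ := hLR x hx y hy h
      exact ⟨Or.inl h1, Or.inl h2⟩
    · obtain ⟨h1, h2, h3⟩ := hLR y hy x hx h
      exact ⟨Or.inr h1, Or.inr h2⟩
  refine hRA1 (Lat A V₀) (Lat A V) (Fl adjL Y) (Fl adjL S) f g Λ ?_ ?_ ?_ ?_
  · intro l hl l' hl' x hx
    refine ⟨?_, (hl' x hx).2⟩
    obtain ⟨y, hy, rfl | rfl⟩ := (hl' x hx).1
    · exact (hS y (hY l hl y hy)).1
    · exact (hS y (hY l hl y hy)).2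
  · intro l hl l' hll l'' h x hx
    refine ⟨?_, (h x hx).2⟩
    obtain ⟨y, hy, h1⟩ := (h x hx).1
    exact ⟨y, hll hy, h1⟩
  · intro l hl
    constructor
    · intro x hx
      obtain ⟨y, hy, rfl⟩ := List.mem_map.1 hx
      refine ⟨⟨y, hy, Or.inl rfl⟩, fun x' hx' => ?_⟩
      obtain ⟨y', hy', rfl⟩ := List.mem_map.1 hx'
      exact (hadj y (hY l hl y hy) y' (hY l hl y' hy') ((hl y hy).2 y' hy')).1
    · intro x hx
      obtain ⟨y, hy, rfl⟩ := List.mem_map.1 hx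
      refine ⟨⟨y, hy, Or.inr rfl⟩, fun x' hx' => ?_⟩
      obtain ⟨y', hy', rfl⟩ := List.mem_map.1 hx'
      exact (hadj y (hY l hl y hy) y' (hY l hl y' hy') ((hl y hy).2 y' hy')).2
  · intro l hl hne
    obtain ⟨t, ht, h1⟩ := ra2_top l hne (fun x hx y hy => (hl x hx).2 y hy)
    have h2 : ∀ E, (∃ y ∈ l, E = f y ∨ E = g y) → LR E (g t) := by
      rintro E ⟨y, hy, rfl | rfl⟩
      · exact (hLR y (hY l hl y hy) t (hY l hl t ht) (h1 y hy)).2.2
      · exact (hLR y (hY l hl y hy) t (hY l hl t ht) (h1 y hy)).2.1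
    refine (hMA (Lat A V)).2.2.2.2.2.1 (Λ l) (g t) ?_
    intro l' hl' x hx
    have hgt : ∃ y ∈ l, g t = f y ∨ g t = g y := ⟨t, ht, Or.inr rfl⟩
    rcases List.mem_cons.1 hx with rfl | hx
    · refine ⟨hgt, fun y hy => ?_⟩
      rcases List.mem_cons.1 hy with rfl | hy
      · exact Or.inl (h2 _ hgt)
      · exact Or.inr (h2 _ (hl' y hy).1)
    · refine ⟨(hl' x hx).1, fun y hy => ?_⟩
      rcases List.mem_cons.1 hy with rfl | hy
      · exact Or.inl (h2 _ (hl' x hx).1)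
      · exact (hl' x hx).2 y hy

end Pool.Agent.SLZ
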