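import Pool.Agent.SLZ.StR

/-!
# SLZ, RA3: contraction of complexes of lattices (helper59)
-/

set_option autoImplicit false
set_option linter.unusedVariables false

noncomputable section

namespace Pool.Agent.SLZ

open Polynomial Function

theorem ra3_mem_Ch {V : Type} {s : Set (List V)} {j : ℕ} {z : List V →₀ ℤ} :
    z ∈ Ch s j ↔ ∀ l ∈ z.support, l ∈ s ∧ l.length = j := by
  unfold Ch
  rw [Finsupp.mem_supported]
  constructor
  · intro h l hl
    exact h (Finset.mem_coe.2 hl)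
  · intro h l hl
    exact h l (Finset.mem_coe.1 hl)

theorem thm_RA3 (hMA : St_MA) (hA2 : St_RA2) (hB1 : St_RB1) (hB2 : St_RB2) : St_RA3 := by
  classical
  intro A _ V _ _ _ _ Γ hne hlat hcl j z hz hbz
  obtain ⟨m1, m2, m3, m4, -, -, -⟩ := hMA (Lat A V)
  obtain ⟨-, -, -, b4, -, -, b7⟩ := hB1 A V V
  obtain ⟨-, -, c3, -, -⟩ := hB2 A V V
  have hz' := ra3_mem_Ch.1 hz
  -- the vertices of `z`
  let F : Set (Lat A V) := {G | ∃ l ∈ z.support, G ∈ l}
  have hFfin : F.Finite := by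
    have h1 : F = ⋃ l ∈ z.support, {G | G ∈ l} := by
      ext G
      simp [F]
    rw [h1]
    refine Set.Finite.biUnion z.support.finite_toSet fun l _ => ?_
    exact List.finite_toSet l
  have hFΓ : ∀ G ∈ F, G ∈ Γ := by
    rintro G ⟨l, hl, hG⟩
    exact ((hz' l hl).1 G hG).1
  obtain ⟨H, hH⟩ := hne
  -- a bound
  have hbd : ∀ S : Set (Lat A V), S.Finite → (∀ G ∈ S, G ∈ Γ) →
      ∃ e : ℕ, ∀ G ∈ S, G ≤ shL H e := by
    intro S hS
    refine Set.Finite.induction_on (motive := fun S _ => (∀ G ∈ S, G ∈ Γ) →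
      ∃ e : ℕ, ∀ G ∈ S, G ≤ shL H e) S hS ?_ ?_
    · intro _
      exact ⟨0, fun G hG => absurd hG (Set.notMem_empty G)⟩
    · intro G S _ _ ih hΓ
      obtain ⟨e, he⟩ := ih fun G' hG' => hΓ G' (Set.mem_insert_of_mem _ hG')
      obtain ⟨e', he'0, he'⟩ := b4 G H (hlat G (hΓ G (Set.mem_insert _ _))) (hlat H hH)
      refine ⟨max e e'.toNat, fun G' hG' => ?_⟩
      rcases Set.mem_insert_iff.1 hG' with rfl | hG'
      · refine he'.trans ((b7 H (hlat H hH)).2.2.1 _ _ ?_)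
        have : e' = (e'.toNat : ℤ) := (Int.toNat_of_nonneg he'0).symm
        push_cast
        exact le_max_of_le_right this.le
      · refine (he G' hG').trans ((b7 H (hlat H hH)).2.2.1 _ _ ?_)
        push_cast
        exact le_max_left _ _
  obtain ⟨e, he⟩ := hbd F hFfin hFΓ
  let Ω : Lat A V := shL H e
  have hΩ : Ω ∈ Γ := (hcl H hH H hH e (by positivity)).1
  have hΩl : IsLat Ω := hlat Ω hΩ
  have hΩm : ∀ a b : ℤ, a ≤ b → shL Ω a ≤ shL Ω b := (b7 Ω hΩl).2.2.1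
  -- all lattices contain a shift of Ω
  have hbd2 : ∀ S : Set (Lat A V), S.Finite → (∀ G ∈ S, G ∈ Γ) →
      ∃ e : ℕ, ∀ G ∈ S, shL Ω (-(e : ℤ)) ≤ G := by
    intro S hS
    refine Set.Finite.induction_on (motive := fun S _ => (∀ G ∈ S, G ∈ Γ) →
      ∃ e : ℕ, ∀ G ∈ S, shL Ω (-(e : ℤ)) ≤ G) S hS ?_ ?_
    · intro _
      exact ⟨0, fun G hG => absurd hG (Set.notMem_empty G)⟩
    · intro G S _ _ ih hΓ
      obtain ⟨e, he⟩ := ih fun G' hG' => hΓ G' (Set.mem_insert_of_mem _ hG')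
      have hG := hlat G (hΓ G (Set.mem_insert _ _))
      obtain ⟨e', he'0, he'⟩ := b4 Ω G hΩl hG
      refine ⟨max e e'.toNat, fun G' hG' => ?_⟩
      rcases Set.mem_insert_iff.1 hG' with rfl | hG'
      · have h1 := (c3 Ω (shL G' e') (-((max e e'.toNat : ℕ) : ℤ)) 0).2.2.2 he'
        refine h1.trans ?_
        rw [(c3 G' G' e' (-((max e e'.toNat : ℕ) : ℤ))).2.1]
        have h2 := (b7 G' hG).2.2.1 (e' + -((max e e'.toNat : ℕ) : ℤ)) 0 (by
          have : e' = (e'.toNat : ℤ) := (Int.toNat_of_nonneg he'0).symm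
          push_cast
          have h3 := le_max_right (e : ℤ) (e'.toNat : ℤ)
          linarith)
        rwa [(c3 G' G' 0 0).2.2.1] at h2
      · refine (hΩm _ _ ?_).trans (he G' hG')
        push_cast
        have h3 := le_max_left (e : ℤ) (e'.toNat : ℤ)
        linarith
  obtain ⟨N, hN⟩ := hbd2 F hFfin hFΓ
  let f : ℤ → Lat A V → Lat A V := fun i G => G ⊔ shL Ω (-i)
  have hf0 : ∀ G ∈ F, f 0 G = Ω := by
    intro G hG
    change G ⊔ shL Ω (-0) = Ω
    rw [neg_zero, (c3 Ω Ω 0 0).2.2.1]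
    exact sup_eq_right.2 (he G hG)
  have hfN : ∀ G ∈ F, f N G = G := by
    intro G hG
    exact sup_eq_left.2 (hN G hG)
  have hLR : ∀ x y : Lat A V, LR x y → ∀ a b : ℤ, b ≤ a → a ≤ b + 1 → LR (f a x) (f b y) := by
    intro x y hxy a b h1 h2
    refine ⟨sup_le_sup hxy.1 (hΩm _ _ (by linarith)), ?_⟩
    change y ⊔ shL Ω (-b) ≤ shL (x ⊔ shL Ω (-a)) 1
    rw [(c3 x (shL Ω (-a)) 1 0).1, (c3 Ω Ω (-a) 1).2.1]
    exact sup_le_sup hxy.2 (hΩm _ _ (by linarith))
  have hzF : z ∈ Ch (Fl adjL F).s j := by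
    rw [ra3_mem_Ch]
    intro l hl
    refine ⟨fun x hx => ⟨⟨l, hl, hx⟩, ((hz' l hl).1 x hx).2⟩, (hz' l hl).2⟩
  have hstep : ∀ n : ℕ, ∃ y ∈ Ch (Fl adjL Γ).s (j + 1),
      bd y = z.mapDomain (List.map (f n)) - z.mapDomain (List.map (f 0)) := by
    intro n
    induction n with
    | zero => exact ⟨0, Submodule.zero_mem _, by rw [map_zero, Nat.cast_zero, sub_self]⟩
    | succ n ih =>
      obtain ⟨y, hy, hby⟩ := ih
      obtain ⟨y', hy', hby'⟩ := hA2 A V V F Γ (f ((n + 1 : ℕ) : ℤ)) (f n)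
        (fun G hG => ⟨(hcl G (hFΓ G hG) Ω hΩ ((n + 1 : ℕ) : ℤ) (by positivity)).2,
          (hcl G (hFΓ G hG) Ω hΩ (n : ℤ) (by positivity)).2⟩)
        (fun x _ y _ hxy => ⟨hLR x y hxy _ _ le_rfl (by linarith), hLR x y hxy _ _ le_rfl (by linarith),
          hLR x y hxy _ _ (by push_cast; linarith) (by push_cast; linarith)⟩) j z hzF hbz
      refine ⟨y' + y, Submodule.add_mem _ hy' hy, ?_⟩
      rw [map_add, hby, hby']
      abel
  obtain ⟨y, hy, hby⟩ := hstep N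
  have hzN : z.mapDomain (List.map (f N)) = z := by
    have h1 : z.mapDomain (List.map (f N)) = z.mapDomain id := by
      refine Finsupp.mapDomain_congr fun l hl => ?_
      refine (List.map_congr_left fun G hG => hfN G ⟨l, hl, hG⟩).trans ?_
      exact List.map_id l
    rw [h1, Finsupp.mapDomain_id]
  let z0 : List (Lat A V) →₀ ℤ := z.mapDomain (List.map (f 0))
  have hz0b : bd z0 = 0 := by
    change bd (z.mapDomain (List.map (f 0))) = 0
    rw [m4, hbz, Finsupp.mapDomain_zero]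
  have hz0 : ∀ l ∈ z0.support, (∀ x ∈ l, x = Ω) ∧ l.length = j := by
    intro l hl
    have h1 := Finsupp.mapDomain_support hl
    rw [Finset.mem_image] at h1
    obtain ⟨l', hl', rfl⟩ := h1
    refine ⟨fun x hx => ?_, by rw [List.length_map]; exact (hz' l' hl').2⟩
    obtain ⟨G, hG, rfl⟩ := List.mem_map.1 hx
    exact hf0 G ⟨l', hl', hG⟩
  refine ⟨y + consC Ω z0, Submodule.add_mem _ hy ?_, ?_⟩
  · rw [ra3_mem_Ch]
    intro l hl
    have h1 : consC Ω z0 = z0.mapDomain (List.cons Ω) := rfl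
    rw [h1] at hl
    have h2 := Finsupp.mapDomain_support hl
    rw [Finset.mem_image] at h2
    obtain ⟨l', hl', rfl⟩ := h2
    obtain ⟨h3, h4⟩ := hz0 l' hl'
    have h5 : ∀ x ∈ Ω :: l', x = Ω := by
      intro x hx
      rcases List.mem_cons.1 hx with rfl | hx
      · rfl
      · exact h3 x hx
    refine ⟨fun x hx => ?_, by rw [List.length_cons, h4]⟩
    rw [h5 x hx]
    refine ⟨hΩ, fun y hy => ?_⟩
    rw [h5 y hy]
    exact Or.inl (b7 Ω hΩl).1
  · rw [map_add, hby, hzN, m2, hz0b, map_zero, sub_zero]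
    change z - z0 + z0 = z
    abel

end Pool.Agent.SLZ
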