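import Pool.Agent.SLZ.StR

/-!
# SLZ RA4: formal properties of homotopies of families (MP_24791f_al, helper64)
-/

set_option autoImplicit false
set_option linter.unusedVariables false

noncomputable section

namespace Pool.Agent.SLZ

open Polynomial Function

theorem ra4_sub {α β : Type} (f : α → β) (a b : α →₀ ℤ) :
    (a - b).mapDomain f = a.mapDomain f - b.mapDomain f :=
  (Finsupp.lmapDomain ℤ ℤ f).map_sub a b

theorem ra4_comp {α β γ : Type} (f : α → β) (g : β → γ) (z : List α →₀ ℤ) :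
    (z.mapDomain (List.map f)).mapDomain (List.map g) = z.mapDomain (List.map fun x => g (f x)) := by
  rw [← Finsupp.mapDomain_comp]
  congr 1
  funext l
  simp

theorem ra4_congr {α β : Type} {f g : α → β} {K : Cx α} {j : ℕ} {z : List α →₀ ℤ}
    (hz : z ∈ Ch K.s j) (h : ∀ l ∈ K.s, ∀ x ∈ l, f x = g x) :
    z.mapDomain (List.map f) = z.mapDomain (List.map g) := by
  refine Finsupp.mapDomain_congr fun l hl => List.map_congr_left fun x hx => ?_
  exact h l ((Finsupp.mem_supported ℤ z).1 hz hl).1 x hx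

section

variable {A : Type} [CommRing A] {V : Type} [AddCommGroup V] [Module A V]
  [Module A[X] V] [IsScalarTower A A[X] V] {V' : Type} [AddCommGroup V'] [Module A V']
  [Module A[X] V'] [IsScalarTower A A[X] V']

theorem ra4_iso [IsNoetherianRing A] (hRB2 : St_RB2) (hRB3 : St_RB3) (φ : V ≃ₗ[A[X]] V') (j : ℕ)
    (y : List (Lat A V) →₀ ℤ) (hy : y ∈ Ch (Fl adjL {E : Lat A V | FL 0 E}).s j) :
    y.mapDomain (List.map (mapL φ)) ∈ Ch (Fl adjL {E : Lat A V' | FL 0 E}).s j := by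
  classical
  refine (Finsupp.mem_supported ℤ _).2 fun l hl => ?_
  obtain ⟨l', hl', rfl⟩ := Finset.mem_image.1 (Finsupp.mapDomain_support hl)
  obtain ⟨h1, h2⟩ := (Finsupp.mem_supported ℤ y).1 hy hl'
  refine ⟨fun E hE => ?_, by rw [List.length_map, h2]⟩
  obtain ⟨E', hE', rfl⟩ := List.mem_map.1 hE
  refine ⟨(hRB3 A V V').1 0 E' φ (h1 E' hE').1, fun F hF => ?_⟩
  obtain ⟨F', hF', rfl⟩ := List.mem_map.1 hF
  exact ((hRB2 A V V').1 E' F' φ 0).2.1.2 ((h1 E' hE').2 F' hF')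

theorem ra4_mem (φ : V ≃ₗ[A[X]] V') (E : Lat A V) (k : ℤ) (v : V') :
    v ∈ mapL φ E k ↔ φ.symm v ∈ E k := by
  constructor
  · rintro ⟨w, hw, rfl⟩
    show φ.symm (φ w) ∈ E k
    rw [φ.symm_apply_apply]
    exact hw
  · intro h
    exact ⟨φ.symm v, h, φ.apply_symm_apply v⟩

end

theorem thm_RA4 (hMA : St_MA) (hRB2 : St_RB2) (hRB3 : St_RB3) : St_RA4 := by
  classical
  intro A _ _ V₀ _ _ _ _ V _ _ _ _ V' _ _ _ _ Y
  have prodAdm : ∀ (W W' : Type) [AddCommGroup W] [Module A W] [Module A[X] W]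
      [IsScalarTower A A[X] W] [AddCommGroup W'] [Module A W'] [Module A[X] W']
      [IsScalarTower A A[X] W'] (f : Lat A V₀ → Lat A W) (k : Lat A V₀ → Lat A W'), Adm Y f →
      Adm Y k → Adm Y fun y => prodL (f y) (k y) := by
    intro W W' _ _ _ _ _ _ _ _ f k hf hk
    refine ⟨fun y hy => (hRB3 A W W').2.1 0 _ _ (hf.1 y hy) (hk.1 y hy), fun x hx y hy h => ?_⟩
    exact ((hRB2 A W W').2.1 (f x) (f y) (k x) (k y) 0).1.2 ⟨hf.2 x hx y hy h, hk.2 x hx y hy h⟩
  -- transport of a homotopy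
  have trans : ∀ (W W' : Type) [AddCommGroup W] [Module A W] [Module A[X] W]
      [IsScalarTower A A[X] W] [AddCommGroup W'] [Module A W'] [Module A[X] W']
      [IsScalarTower A A[X] W'] (φ : W ≃ₗ[A[X]] W') (F G : Lat A V₀ → Lat A W)
      (F' G' : Lat A V₀ → Lat A W'), (∀ y, mapL φ (F y) = F' y) → (∀ y, mapL φ (G y) = G' y) →
      ∀ (j : ℕ) (z : List (Lat A V₀) →₀ ℤ),
      (∃ y ∈ Ch (Fl adjL {E : Lat A W | FL 0 E}).s (j + 1),
        bd y = z.mapDomain (List.map F) - z.mapDomain (List.map G)) →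
      ∃ y ∈ Ch (Fl adjL {E : Lat A W' | FL 0 E}).s (j + 1),
        bd y = z.mapDomain (List.map F') - z.mapDomain (List.map G') := by
    rintro W W' _ _ _ _ _ _ _ _ φ F G F' G' hF hG j z ⟨y, hy, hb⟩
    refine ⟨y.mapDomain (List.map (mapL φ)), ra4_iso hRB2 hRB3 φ _ y hy, ?_⟩
    rw [(hMA (Lat A W)).2.2.2.1 (Lat A W') (mapL φ) y, hb, ra4_sub, ra4_comp, ra4_comp]
    simp only [hF, hG]
  refine ⟨fun f W _ _ _ _ h hh j z hz hb => ⟨0, Submodule.zero_mem _, by rw [map_zero, sub_self]⟩,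
    fun f g H W _ _ _ _ h hh j z hz hb => ?_, fun f g k H H' W _ _ _ _ h hh j z hz hb => ?_,
    fun f g k hk H W _ _ _ _ h hh j z hz hb => ?_, fun f g φ H W _ _ _ _ h hh j z hz hb => ?_,
    fun f g f' g' hf hg H W _ _ _ _ h hh j z hz hb => ?_, fun f k => prodAdm V V' f k,
    fun f φ hf => ⟨fun y hy => (hRB3 A V V').1 0 _ φ (hf.1 y hy), fun x hx y hy h =>
      ((hRB2 A V V').1 (f x) (f y) φ 0).1.2 (hf.2 x hx y hy h)⟩,
    fun Λ hΛ => ⟨fun y hy => hΛ, fun x hx y hy h => ⟨le_rfl, fun k => hΛ.1.mono k⟩⟩⟩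
  · obtain ⟨y, hy, hyb⟩ := H W h hh j z hz hb
    exact ⟨-y, Submodule.neg_mem _ hy, by rw [map_neg, hyb, neg_sub]⟩
  · obtain ⟨y, hy, hyb⟩ := H W h hh j z hz hb
    obtain ⟨y', hy', hyb'⟩ := H' W h hh j z hz hb
    exact ⟨y + y', Submodule.add_mem _ hy hy', by rw [map_add, hyb, hyb', sub_add_sub_cancel]⟩
  · refine trans (V × (V' × W)) ((V × V') × W) (LinearEquiv.prodAssoc A[X] V V' W).symm
      (fun y => prodL (f y) (prodL (k y) (h y))) (fun y => prodL (g y) (prodL (k y) (h y))) _ _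
      (fun y => ?_) (fun y => ?_) j z
      (H (V' × W) (fun y => prodL (k y) (h y)) (prodAdm V' W k h hk hh) j z hz hb)
    all_goals
      funext i
      ext v
      rw [ra4_mem]
      constructor
      · rintro ⟨h1, h2, h3⟩
        exact ⟨⟨h1, h2⟩, h3⟩
      · rintro ⟨⟨h1, h2⟩, h3⟩
        exact ⟨h1, h2, h3⟩
  · refine trans (V × W) (V' × W) (φ.prodCongr (LinearEquiv.refl A[X] W))
      (fun y => prodL (f y) (h y)) (fun y => prodL (g y) (h y)) _ _
      (fun y => ?_) (fun y => ?_) j z (H W h hh j z hz hb)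
    all_goals
      funext i
      ext v
      rw [ra4_mem]
      constructor
      · rintro ⟨h1, h2⟩
        exact ⟨(ra4_mem φ _ i v.1).2 h1, h2⟩
      · rintro ⟨h1, h2⟩
        exact ⟨(ra4_mem φ _ i v.1).1 h1, h2⟩
  · obtain ⟨y, hy, hyb⟩ := H W h hh j z hz hb
    refine ⟨y, hy, ?_⟩
    rw [hyb]
    congr 1
    · exact ra4_congr hz fun l hl x hx => by rw [hf x (hl x hx).1]
    · exact ra4_congr hz fun l hl x hx => by rw [hg x (hl x hx).1]

end Pool.Agent.SLZ
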