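import Pool.Agent.SLZ.StR

/-!
# SLZ: RA5, homotopies from carriers and from prisms
-/

set_option autoImplicit false
set_option linter.unusedVariables false

noncomputable section

namespace Pool.Agent.SLZ

open Polynomial Function

theorem ra5_two (h2 : St_RA2) (hB2 : St_RB2) (hB3 : St_RB3)
    (A : Type) [CommRing A] [IsNoetherianRing A] (V₀ : Type) [AddCommGroup V₀]
    [Module A V₀] [Module A[X] V₀] [IsScalarTower A A[X] V₀] (V : Type) [AddCommGroup V]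
    [Module A V] [Module A[X] V] [IsScalarTower A A[X] V] (Y : Set (Lat A V₀))
    (f g : Lat A V₀ → Lat A V) (hf : Adm Y f) (hg : Adm Y g)
    (hfg : ∀ x ∈ Y, ∀ y ∈ Y, LR x y → LR (f x) (g y)) : Hty Y f g := by
  intro W _ _ _ _ h hh j z hz hbz
  have hLR : ∀ (E F : Lat A V) (E' F' : Lat A W), LR E F → LR E' F' →
      LR (prodL E E') (prodL F F') := fun E F E' F' k1 k2 =>
    (((hB2 A V W).2.1 E F E' F' 0).1).2 ⟨k1, k2⟩
  refine h2 A V₀ (V × W) Y {E : Lat A (V × W) | FL 0 E} (fun E => prodL (f E) (h E))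
    (fun E => prodL (g E) (h E)) ?_ ?_ j z hz hbz
  · intro y hy
    exact ⟨(hB3 A V W).2.1 0 _ _ (hf.1 y hy) (hh.1 y hy),
      (hB3 A V W).2.1 0 _ _ (hg.1 y hy) (hh.1 y hy)⟩
  · intro x hx y hy hxy
    exact ⟨hLR _ _ _ _ (hf.2 x hx y hy hxy) (hh.2 x hx y hy hxy),
      hLR _ _ _ _ (hg.2 x hx y hy hxy) (hh.2 x hx y hy hxy),
      hLR _ _ _ _ (hfg x hx y hy hxy) (hh.2 x hx y hy hxy)⟩

theorem ra5_one (h1 : St_RA1) (h3 : St_RA3) (hB1 : St_RB1) (hB2 : St_RB2) (hB3 : St_RB3)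
    (A : Type) [CommRing A] [IsNoetherianRing A] (V₀ : Type) [AddCommGroup V₀]
    [Module A V₀] [Module A[X] V₀] [IsScalarTower A A[X] V₀] (V : Type) [AddCommGroup V]
    [Module A V] [Module A[X] V] [IsScalarTower A A[X] V] (Y : Set (Lat A V₀))
    (f g : Lat A V₀ → Lat A V) (hf : Adm Y f) (hg : Adm Y g)
    (Γ : List (Lat A V₀) → Set (Lat A V))
    (g1 : ∀ l ∈ (Fl adjL Y).s, ∀ G ∈ Γ l, FL 0 G)
    (g2 : ∀ l ∈ (Fl adjL Y).s, ∀ l', l' ⊆ l → Γ l' ⊆ Γ l)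
    (g3 : ∀ l ∈ (Fl adjL Y).s, ∀ y ∈ l, f y ∈ Γ l ∧ g y ∈ Γ l)
    (g4 : ∀ l ∈ (Fl adjL Y).s, ∀ G ∈ Γ l, ∀ H ∈ Γ l, ∀ k : ℤ, 0 ≤ k →
      shL H k ∈ Γ l ∧ G ⊔ shL H (-k) ∈ Γ l) : Hty Y f g := by
  intro W _ _ _ _ h hh j z hz hbz
  have hLR : ∀ (E F : Lat A V) (E' F' : Lat A W), LR E F → LR E' F' →
      LR (prodL E E') (prodL F F') := fun E F E' F' k1 k2 =>
    (((hB2 A V W).2.1 E F E' F' 0).1).2 ⟨k1, k2⟩
  have hadj : ∀ (φ : Lat A V₀ → Lat A V), Adm Y φ → ∀ x ∈ Y, ∀ y ∈ Y, adjL x y →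
      adjL (prodL (φ x) (h x)) (prodL (φ y) (h y)) := by
    intro φ hφ x hx y hy hxy
    rcases hxy with hxy | hxy
    · exact Or.inl (hLR _ _ _ _ (hφ.2 x hx y hy hxy) (hh.2 x hx y hy hxy))
    · exact Or.inr (hLR _ _ _ _ (hφ.2 y hy x hx hxy) (hh.2 y hy x hx hxy))
  have hadjh : ∀ x ∈ Y, ∀ y ∈ Y, adjL x y → adjL (h x) (h y) := by
    intro x hx y hy hxy
    rcases hxy with hxy | hxy
    · exact Or.inl (hh.2 x hx y hy hxy)
    · exact Or.inr (hh.2 y hy x hx hxy)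
  have hsh0 : ∀ E : Lat A W, shL E 0 = E := by
    intro E
    funext k
    show E (k + 0) = E k
    rw [add_zero]
  set Γ' : List (Lat A V₀) → Set (Lat A (V × W)) := fun l =>
    {E | ∃ G ∈ Γ l, ∃ y ∈ l, ∃ b : ℤ, E = prodL G (shL (h y) b)} with hΓ'
  have hFL : ∀ l ∈ (Fl adjL Y).s, ∀ E ∈ Γ' l, FL 0 E := by
    rintro l hl E ⟨G, hG, y, hy, b, rfl⟩
    exact (hB3 A V W).2.1 0 _ _ (g1 l hl G hG)
      (((hB1 A W W).1 (h y) b).2.2 0 (hh.1 y (hl y hy).1))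
  have hmap : ∀ (φ : Lat A V₀ → Lat A V), Adm Y φ →
      (∀ l ∈ (Fl adjL Y).s, ∀ y ∈ l, φ y ∈ Γ l) → ∀ l ∈ (Fl adjL Y).s,
      l.map (fun E => prodL (φ E) (h E)) ∈ (Fl adjL (Γ' l)).s := by
    intro φ hφ hφΓ l hl x hx
    obtain ⟨y, hy, rfl⟩ := List.mem_map.1 hx
    refine ⟨⟨φ y, hφΓ l hl y hy, y, hy, 0, by rw [hsh0]⟩, ?_⟩
    intro x' hx'
    obtain ⟨y', hy', rfl⟩ := List.mem_map.1 hx'
    exact hadj φ hφ y (hl y hy).1 y' (hl y' hy').1 ((hl y hy).2 y' hy')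
  refine h1 (Lat A V₀) (Lat A (V × W)) (Fl adjL Y) (Fl adjL {E : Lat A (V × W) | FL 0 E})
    (fun E => prodL (f E) (h E)) (fun E => prodL (g E) (h E)) (fun l => Fl adjL (Γ' l))
    ?_ ?_ ?_ ?_ j z hz hbz
  · intro l hl m hm x hx
    exact ⟨hFL l hl x (hm x hx).1, (hm x hx).2⟩
  · intro l hl l' hl' m hm x hx
    refine ⟨?_, (hm x hx).2⟩
    obtain ⟨G, hG, y, hy, b, rfl⟩ := (hm x hx).1
    exact ⟨G, g2 l hl l' hl' hG, y, hl' hy, b, rfl⟩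
  · intro l hl
    exact ⟨hmap f hf (fun l hl y hy => (g3 l hl y hy).1) l hl,
      hmap g hg (fun l hl y hy => (g3 l hl y hy).2) l hl⟩
  · intro l hl hne
    refine h3 A (V × W) (Γ' l) ?_ (fun G hG => (hFL l hl G hG).1) ?_
    · obtain ⟨y, hy⟩ := List.exists_mem_of_ne_nil l hne
      exact ⟨_, f y, (g3 l hl y hy).1, y, hy, 0, rfl⟩
    · rintro _ ⟨G, hG, y, hy, b, rfl⟩ _ ⟨H, hH, y', hy', b', rfl⟩ k hk
      obtain ⟨k1, k2⟩ := g4 l hl G hG H hH k hk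
      refine ⟨⟨shL H k, k1, y', hy', b' + k, ?_⟩, ?_⟩
      · rw [← ((hB2 A V W).2.1 H H (shL (h y') b') (shL (h y') b') k).2.1,
          ((hB2 A W W).2.2.1 (h y') (h y') b' k).2.1]
      · have e1 : prodL G (shL (h y) b) ⊔ shL (prodL H (shL (h y') b')) (-k) =
            prodL (G ⊔ shL H (-k)) (shL (h y) b ⊔ shL (h y') (b' + -k)) := by
          rw [← ((hB2 A V W).2.1 H H (shL (h y') b') (shL (h y') b') (-k)).2.1,
            ((hB2 A W W).2.2.1 (h y') (h y') b' (-k)).2.1]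
          exact (((hB2 A V W).2.1 G (shL H (-k)) (shL (h y) b) (shL (h y') (b' + -k)) 0).2.2).symm
        rw [e1]
        have hY := (hl y hy).1
        have hY' := (hl y' hy').1
        rcases ((hB2 A W W).2.2.2.2 (h y) (h y') b (b' + -k) (hh.1 y hY).1 (hh.1 y' hY').1
          (hadjh y hY y' hY' ((hl y hy).2 y' hy'))).2 with h4 | h4
        · exact ⟨_, k2, y', hy', b' + -k, by rw [sup_eq_right.2 h4]⟩
        · exact ⟨_, k2, y, hy, b, by rw [sup_eq_left.2 h4]⟩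

theorem thm_RA5 (hMA : St_MA) (h1 : St_RA1) (h2 : St_RA2) (h3 : St_RA3) (hB1 : St_RB1)
    (hB2 : St_RB2) (hB3 : St_RB3) : St_RA5 := by
  intro A _ _ V₀ _ _ _ _ V _ _ _ _ Y f g hf hg
  exact ⟨fun Γ g1 g2 g3 g4 => ra5_one h1 h3 hB1 hB2 hB3 A V₀ V Y f g hf hg Γ g1 g2 g3 g4,
    fun hfg => ra5_two h2 hB2 hB3 A V₀ V Y f g hf hg hfg⟩

end Pool.Agent.SLZ
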