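import Pool.Agent.SLZ.StR

/-!
# SLZ, RB1: lattices of finite type, closure properties, comparison (helper24)
-/

set_option autoImplicit false
set_option linter.unusedVariables false

noncomputable section

namespace Pool.Agent.SLZ

open Polynomial Function

section

variable {A : Type} [CommRing A] {V : Type} [AddCommGroup V] [Module A V]
  [Module A[X] V] [IsScalarTower A A[X] V] {V' : Type} [AddCommGroup V'] [Module A V']
  [Module A[X] V'] [IsScalarTower A A[X] V']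

theorem rb1_mono {E : Lat A V} (h : IsLat E) {j k : ℤ} (hjk : j ≤ k) : E j ≤ E k :=
  monotone_int_of_le_succ h.mono hjk

theorem rb1_cast {E : Lat A V} {j k : ℤ} (h : j = k) {v : V} (hv : v ∈ E j) : v ∈ E k := h ▸ hv

theorem rb1_sh_lat {E : Lat A V} (j : ℤ) (h : IsLat E) : IsLat (shL E j) where
  mono k := rb1_mono h (by linarith)
  mulX k v hv := rb1_cast (E := E) (j := k + j + 1) (k := k + 1 + j) (by ring) (h.mulX _ v hv)
  bot := by
    obtain ⟨k₀, hk⟩ := h.bot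
    exact ⟨k₀ - j, fun k hkk => hk _ (by linarith)⟩
  fg k := h.fg _
  gen := by
    obtain ⟨k₀, hk⟩ := h.gen
    refine ⟨k₀ - j, fun k hkk v hv => ?_⟩
    exact hk (k + j) (by linarith) v (rb1_cast (by ring) hv)
  top v := by
    obtain ⟨k, hk⟩ := h.top v
    exact ⟨k - j, rb1_cast (E := E) (j := k) (k := k - j + j) (by ring) hk⟩

theorem rb1_sh_sat {E : Lat A V} (j : ℤ) (h : Sat E) : Sat (shL E j) := by
  intro k v hv hX
  exact rb1_cast (E := E) (j := k + j - 1) (k := k - 1 + j) (by ring) (h (k + j) v hv hX)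

theorem rb1_sh_FL {E : Lat A V} (j : ℤ) (d : ℕ) (h : FL d E) : FL d (shL E j) := by
  refine ⟨rb1_sh_lat j h.1, rb1_sh_sat j h.2.1, fun k => ?_⟩
  have h1 : jL (shL E j) k = jL E (k + j) := by
    change E (k - 1 + j) ⊔ (E (k - 1 + j)).map (xm A V) =
      E (k + j - 1) ⊔ (E (k + j - 1)).map (xm A V)
    rw [show k - 1 + j = k + j - 1 by ring]
  have h2 : ∀ N : Submodule A V, N = jL E (k + j) →
      FF A d ((E (k + j)) ⧸ N.submoduleOf (E (k + j))) := by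
    rintro _ rfl
    exact h.2.2 (k + j)
  exact h2 _ h1

theorem rb1_mem_map (g : V ≃ₗ[A[X]] V') (E : Lat A V) (k : ℤ) (v : V') :
    v ∈ mapL g E k ↔ g.symm v ∈ E k := by
  constructor
  · rintro ⟨u, hu, rfl⟩
    change g.symm (g u) ∈ E k
    rw [LinearEquiv.symm_apply_apply]
    exact hu
  · intro h
    refine ⟨g.symm v, h, ?_⟩
    change g (g.symm v) = v
    exact LinearEquiv.apply_symm_apply g v

theorem rb1_map_lat {E : Lat A V} (g : V ≃ₗ[A[X]] V') (h : IsLat E) : IsLat (mapL g E) where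
  mono k v hv := by
    rw [rb1_mem_map] at hv ⊢
    exact h.mono k hv
  mulX k v hv := by
    rw [rb1_mem_map] at hv ⊢
    rw [map_smul]
    exact h.mulX k _ hv
  bot := by
    obtain ⟨k₀, hk⟩ := h.bot
    refine ⟨k₀, fun k hkk => ?_⟩
    change (E k).map _ = ⊥
    rw [hk k hkk, Submodule.map_bot]
  fg k := (h.fg k).map _
  gen := by
    obtain ⟨k₀, hk⟩ := h.gen
    refine ⟨k₀, fun k hkk v hv => ?_⟩
    rw [rb1_mem_map] at hv
    obtain ⟨a, ha, b, hb, hab⟩ := hk k hkk _ hv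
    refine ⟨g a, ⟨a, ha, rfl⟩, g b, ⟨b, hb, rfl⟩, ?_⟩
    rw [← map_smul, ← map_add, ← hab, LinearEquiv.apply_symm_apply]
  top v := by
    obtain ⟨k, hk⟩ := h.top (g.symm v)
    exact ⟨k, (rb1_mem_map g E k v).2 hk⟩

theorem rb1_map_sat {E : Lat A V} (g : V ≃ₗ[A[X]] V') (h : Sat E) : Sat (mapL g E) := by
  intro k v hv hX
  rw [rb1_mem_map] at hv hX ⊢
  rw [map_smul] at hX
  exact h k _ hv hX

theorem rb1_map_GE {E : Lat A V} (g : V ≃ₗ[A[X]] V') (h : GE E) : GE (mapL g E) := by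
  intro k hk v hv
  rw [rb1_mem_map] at hv
  obtain ⟨a, ha, b, hb, hab⟩ := h k hk _ hv
  refine ⟨g a, ⟨a, ha, rfl⟩, g b, ⟨b, hb, rfl⟩, ?_⟩
  rw [← map_smul, ← map_add, ← hab, LinearEquiv.apply_symm_apply]

theorem rb1_map_LE1 {E : Lat A V} (g : V ≃ₗ[A[X]] V') (D : ℕ) (h : LE1 D E) :
    LE1 D (mapL g E) := by
  change (E (-(D : ℤ) - 1)).map _ = ⊥
  rw [show E (-(D : ℤ) - 1) = ⊥ from h, Submodule.map_bot]

theorem rb1_sup {E E' : Lat A V} (h : IsLat E) (h' : IsLat E') : IsLat (E ⊔ E') where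
  mono k := sup_le_sup (h.mono k) (h'.mono k)
  mulX k v hv := by
    rw [Pi.sup_apply] at hv ⊢
    obtain ⟨a, ha, b, hb, rfl⟩ := Submodule.mem_sup.1 hv
    rw [smul_add]
    exact Submodule.add_mem _ (Submodule.mem_sup_left (h.mulX k a ha))
      (Submodule.mem_sup_right (h'.mulX k b hb))
  bot := by
    obtain ⟨k₀, hk⟩ := h.bot
    obtain ⟨k₀', hk'⟩ := h'.bot
    refine ⟨min k₀ k₀', fun k hkk => ?_⟩
    rw [Pi.sup_apply, hk k (hkk.trans (min_le_left _ _)), hk' k (hkk.trans (min_le_right _ _)),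
      sup_idem]
  fg k := (h.fg k).sup (h'.fg k)
  gen := by
    obtain ⟨k₀, hk⟩ := h.gen
    obtain ⟨k₀', hk'⟩ := h'.gen
    refine ⟨max k₀ k₀', fun k hkk v hv => ?_⟩
    rw [Pi.sup_apply] at hv
    obtain ⟨u, hu, u', hu', rfl⟩ := Submodule.mem_sup.1 hv
    obtain ⟨a, ha, b, hb, rfl⟩ := hk k ((le_max_left _ _).trans hkk) u hu
    obtain ⟨a', ha', b', hb', rfl⟩ := hk' k ((le_max_right _ _).trans hkk) u' hu'
    refine ⟨a + a', ?_, b + b', ?_, ?_⟩
    · exact Submodule.add_mem _ (Submodule.mem_sup_left ha) (Submodule.mem_sup_right ha')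
    · exact Submodule.add_mem _ (Submodule.mem_sup_left hb) (Submodule.mem_sup_right hb')
    · rw [smul_add]
      abel
  top v := by
    obtain ⟨k, hk⟩ := h.top v
    exact ⟨k, Submodule.mem_sup_left hk⟩

theorem rb1_fg_le {E : Lat A V} (h : IsLat E) (N : Submodule A V) (hN : N.FG) :
    ∃ k, N ≤ E k := by
  refine Submodule.fg_induction (motive := fun N _ => ∃ k, N ≤ E k) ?_ ?_ N hN
  · intro x
    obtain ⟨k, hk⟩ := h.top x
    exact ⟨k, by rwa [Submodule.span_singleton_le_iff_mem]⟩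
  · rintro N1 N2 _ _ ⟨k1, h1⟩ ⟨k2, h2⟩
    exact ⟨max k1 k2, sup_le (h1.trans (rb1_mono h (le_max_left _ _)))
      (h2.trans (rb1_mono h (le_max_right _ _)))⟩

theorem rb1_compare {E E' : Lat A V} (h : IsLat E) (h' : IsLat E') :
    ∃ e : ℤ, 0 ≤ e ∧ E ≤ shL E' e := by
  obtain ⟨k₀, hk₀⟩ := h.bot
  obtain ⟨k₁, hk₁⟩ := h.gen
  obtain ⟨m, hm⟩ := rb1_fg_le h' (E k₁) (h.fg k₁)
  have he0 : (0 : ℤ) ≤ max 0 (m - k₀) := le_max_left _ _
  have he1 : m - k₀ ≤ max 0 (m - k₀) := le_max_right _ _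
  generalize max 0 (m - k₀) = e at he0 he1
  refine ⟨e, he0, ?_⟩
  have hlow : ∀ k, k ≤ k₁ → E k ≤ E' (k + e) := by
    intro k hk
    rcases le_or_gt k k₀ with h1 | h1
    · rw [hk₀ k h1]
      exact bot_le
    · exact (rb1_mono h hk).trans (hm.trans (rb1_mono h' (by linarith)))
  intro k
  rcases le_total k k₁ with h1 | h1
  · exact hlow k h1
  · induction k, h1 using Int.leInduction with
    | base => exact hlow k₁ le_rfl
    | succ k hk ih =>
      intro v hv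
      obtain ⟨a, ha, b, hb, rfl⟩ := hk₁ k hk v hv
      refine Submodule.add_mem _ ?_ ?_
      · exact rb1_mono h' (by linarith) (ih ha)
      · exact rb1_cast (E := E') (j := k + e + 1) (k := k + 1 + e) (by ring)
          (h'.mulX _ _ (ih hb))

theorem rb1_prod {E : Lat A V} {E' : Lat A V'} (h : IsLat E) (h' : IsLat E') :
    IsLat (prodL E E') where
  mono k v hv := ⟨h.mono k hv.1, h'.mono k hv.2⟩
  mulX k v hv := ⟨h.mulX k _ hv.1, h'.mulX k _ hv.2⟩
  bot := by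
    obtain ⟨k₀, hk⟩ := h.bot
    obtain ⟨k₀', hk'⟩ := h'.bot
    refine ⟨min k₀ k₀', fun k hkk => ?_⟩
    change (E k).prod (E' k) = ⊥
    rw [hk k (hkk.trans (min_le_left _ _)), hk' k (hkk.trans (min_le_right _ _)),
      Submodule.prod_bot]
  fg k := (h.fg k).prod (h'.fg k)
  gen := by
    obtain ⟨k₀, hk⟩ := h.gen
    obtain ⟨k₀', hk'⟩ := h'.gen
    refine ⟨max k₀ k₀', fun k hkk v hv => ?_⟩
    obtain ⟨a, ha, b, hb, h1⟩ := hk k ((le_max_left _ _).trans hkk) v.1 hv.1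
    obtain ⟨a', ha', b', hb', h2⟩ := hk' k ((le_max_right _ _).trans hkk) v.2 hv.2
    exact ⟨(a, a'), ⟨ha, ha'⟩, (b, b'), ⟨hb, hb'⟩, Prod.ext h1 h2⟩
  top v := by
    obtain ⟨k, hk⟩ := h.top v.1
    obtain ⟨k', hk'⟩ := h'.top v.2
    exact ⟨max k k', rb1_mono h (le_max_left _ _) hk, rb1_mono h' (le_max_right _ _) hk'⟩

theorem rb1_prod_GE {E : Lat A V} {E' : Lat A V'} (h : GE E) (h' : GE E') :
    GE (prodL E E') := by
  intro k hk v hv
  obtain ⟨a, ha, b, hb, h1⟩ := h k hk v.1 hv.1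
  obtain ⟨a', ha', b', hb', h2⟩ := h' k hk v.2 hv.2
  exact ⟨(a, a'), ⟨ha, ha'⟩, (b, b'), ⟨hb, hb'⟩, Prod.ext h1 h2⟩

end

/-- **RB1** -/
theorem thm_RB1 : St_RB1 := by
  intro A _ V _ _ _ _ V' _ _ _ _
  refine ⟨?_, ?_, ?_, ?_, ?_, ?_, ?_⟩
  · exact fun E j => ⟨rb1_sh_lat j, rb1_sh_sat j, fun d => rb1_sh_FL j d⟩
  · exact fun E g => ⟨rb1_map_lat g, rb1_map_sat g, rb1_map_GE g, fun D => rb1_map_LE1 g D⟩
  · exact fun E E' => rb1_sup
  · exact fun E E' => rb1_compare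
  · refine fun E E' => ⟨rb1_prod, ?_, rb1_prod_GE, ?_⟩
    · intro h h' k v hv hX
      exact ⟨h k _ hv.1 hX.1, h' k _ hv.2 hX.2⟩
    · intro D h h'
      change (E (-(D : ℤ) - 1)).prod (E' (-(D : ℤ) - 1)) = ⊥
      rw [show E (-(D : ℤ) - 1) = ⊥ from h, show E' (-(D : ℤ) - 1) = ⊥ from h',
        Submodule.prod_bot]
  · refine fun E => ⟨?_, ?_⟩
    · intro k hk h j hj v hv
      exact h (j + k) (by linarith) v (rb1_cast (by ring) hv)
    · intro D k h
      change E (-((D + k : ℕ) : ℤ) - 1 + k) = ⊥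
      rw [show -((D + k : ℕ) : ℤ) - 1 + k = -(D : ℤ) - 1 by push_cast; ring]
      exact h
  · refine fun E h => ⟨⟨le_rfl, fun k => h.mono k⟩, fun j k => rb1_mono h, fun j k hjk i =>
      rb1_mono h (by linarith), ?_⟩
    intro D D' hD hE
    have h1 : E (-(D' : ℤ) - 1) ≤ E (-(D : ℤ) - 1) := by
      refine rb1_mono h ?_
      have : (D : ℤ) ≤ D' := by exact_mod_cast hD
      linarith
    rw [show E (-(D : ℤ) - 1) = ⊥ from hE] at h1
    exact le_bot_iff.1 h1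

end Pool.Agent.SLZ
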