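import Pool.Agent.SLZ.StR

set_option autoImplicit false
set_option linter.unusedVariables false
set_option linter.unusedSectionVars false

/-! # SLZ RB2: adjacency and isomorphisms, direct sums, shifts -/

noncomputable section

namespace Pool.Agent.SLZ

open Polynomial

section

variable {A : Type} [CommRing A] {V : Type} [AddCommGroup V] [Module A V] [Module A[X] V]
  [IsScalarTower A A[X] V] {V' : Type} [AddCommGroup V'] [Module A V'] [Module A[X] V']
  [IsScalarTower A A[X] V']

theorem rb2_map_le (g : V ≃ₗ[A[X]] V') (E F : Lat A V) : mapL g E ≤ mapL g F ↔ E ≤ F := by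
  constructor
  · intro h k
    have h1 := h k
    exact (Submodule.map_le_map_iff_of_injective
      (f := (g : V →ₗ[A[X]] V').restrictScalars A) g.injective _ _).1 h1
  · intro h k
    exact Submodule.map_mono (h k)

theorem rb2_map_sh (g : V ≃ₗ[A[X]] V') (E : Lat A V) (j : ℤ) :
    mapL g (shL E j) = shL (mapL g E) j := rfl

theorem rb2_map_LR (g : V ≃ₗ[A[X]] V') (E F : Lat A V) : LR (mapL g E) (mapL g F) ↔ LR E F := by
  unfold LR
  rw [← rb2_map_sh, rb2_map_le, rb2_map_le]

theorem rb2_sh_sh (E : Lat A V) (j k : ℤ) : shL (shL E j) k = shL E (j + k) := by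
  funext i
  simp only [shL]
  congr 1
  ring

theorem rb2_sh_mono (E F : Lat A V) (j : ℤ) (h : E ≤ F) : shL E j ≤ shL F j := fun k => h (k + j)

theorem rb2_sh_LR (E F : Lat A V) (j : ℤ) (h : LR E F) : LR (shL E j) (shL F j) := by
  refine ⟨rb2_sh_mono _ _ _ h.1, ?_⟩
  rw [rb2_sh_sh, add_comm, ← rb2_sh_sh]
  exact rb2_sh_mono _ _ _ h.2

theorem rb2_prod_le (E F : Lat A V) (E' F' : Lat A V') :
    prodL E E' ≤ prodL F F' ↔ E ≤ F ∧ E' ≤ F' := by
  constructor
  · intro h
    constructor
    · intro k v hv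
      have : (v, (0 : V')) ∈ prodL E E' k := ⟨hv, (E' k).zero_mem⟩
      exact (h k this).1
    · intro k v hv
      have : ((0 : V), v) ∈ prodL E E' k := ⟨(E k).zero_mem, hv⟩
      exact (h k this).2
  · rintro ⟨h, h'⟩ k v hv
    exact ⟨h k hv.1, h' k hv.2⟩

theorem rb2_prod_sh (E : Lat A V) (E' : Lat A V') (j : ℤ) :
    prodL (shL E j) (shL E' j) = shL (prodL E E') j := rfl

theorem rb2_prod_LR (E F : Lat A V) (E' F' : Lat A V') :
    LR (prodL E E') (prodL F F') ↔ LR E F ∧ LR E' F' := by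
  unfold LR
  rw [← rb2_prod_sh, rb2_prod_le, rb2_prod_le]
  tauto

theorem rb2_mono_of_lat (E : Lat A V) (hE : IsLat E) (j k : ℤ) (h : j ≤ k) : E j ≤ E k :=
  monotone_int_of_le_succ hE.mono h

theorem rb2_lt (E F : Lat A V) (b c : ℤ) (hF : IsLat F) (h : adjL E F) (hbc : b < c) :
    shL E b ≤ shL F c := by
  intro k
  change E (k + b) ≤ F (k + c)
  rcases h with h | h
  · exact (h.1 (k + b)).trans (rb2_mono_of_lat F hF _ _ (by linarith))
  · exact (h.2 (k + b)).trans (rb2_mono_of_lat F hF _ _ (by linarith))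

end

theorem thm_RB2 : St_RB2 := by
  intro A _ V _ _ _ _ V' _ _ _ _
  refine ⟨?_, ?_, ?_, ?_, ?_⟩
  · intro E F g j
    refine ⟨rb2_map_LR g E F, ?_, rb2_sh_LR E F j, ?_, rfl, ?_⟩
    · unfold adjL
      rw [rb2_map_LR, rb2_map_LR]
    · funext k
      ext v
      constructor
      · rintro ⟨_, ⟨w, hw, rfl⟩, rfl⟩
        have : g.symm (g w) = w := g.symm_apply_apply w
        change g.symm (g w) ∈ E k
        rw [this]
        exact hw
      · intro hv
        exact ⟨g v, ⟨v, hv, rfl⟩, g.symm_apply_apply v⟩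
    · funext k
      exact Submodule.map_sup _ _ _
  · intro E F E' F' j
    refine ⟨rb2_prod_LR E F E' F', rfl, ?_⟩
    funext k
    exact (Submodule.prod_sup_prod _ _ _ _).symm
  · intro E F j k
    refine ⟨rfl, rb2_sh_sh E j k, ?_, rb2_sh_mono E F j⟩
    funext i
    simp [shL]
  · intro E F h h'
    exact le_antisymm h.1 h'.1
  · intro E F b c hE hF h
    refine ⟨rb2_lt E F b c hF h, ?_⟩
    rcases lt_trichotomy b c with h1 | h1 | h1
    · exact Or.inl (rb2_lt E F b c hF h h1)
    · subst h1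
      rcases h with h | h
      · exact Or.inl (rb2_sh_mono _ _ _ h.1)
      · exact Or.inr (rb2_sh_mono _ _ _ h.1)
    · exact Or.inr (rb2_lt F E c b hE (Or.symm h) h1)

end Pool.Agent.SLZ
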