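import Pool.Agent.SLZ.StR

/-!
# SLZ, part R: RB3
-/

set_option autoImplicit false

noncomputable section

namespace Pool.Agent.SLZ

open Polynomial Function

section

variable {A : Type} [CommRing A] {V : Type} [AddCommGroup V] [Module A V] [Module A[X] V]
  [IsScalarTower A A[X] V]

private theorem rb3_smul (c : A) (v : V) : c • v = (C c : A[X]) • v := by
  rw [← algebraMap_smul A[X] c v]
  rfl

private theorem rb3_mem {ι : Type} {b : Module.Basis ι A[X] V} {w : ι → ℤ} {k : ℤ} {v : V} :
    v ∈ OL b w k ↔ ∀ (i : ι) (n : ℕ), k + w i < n → (b.repr v i).coeff n = 0 := Iff.rfl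

omit [Module A V] [IsScalarTower A A[X] V] in
private theorem rb3_mulX {ι : Type} {b : Module.Basis ι A[X] V} (v : V) (i : ι) :
    b.repr ((X : A[X]) • v) i = X * b.repr v i := by
  rw [map_smul, Finsupp.smul_apply, smul_eq_mul]

/-- the decomposition of a vector -/
private theorem rb3_dec {ι : Type} (b : Module.Basis ι A[X] V) (w : ι → ℤ) (k : ℤ) (v : V)
    (hv : v ∈ OL b w k) (h0 : ∀ i, k + w i = 0 → (b.repr v i).coeff 0 = 0) :
    ∃ a ∈ OL b w (k - 1), ∃ c ∈ OL b w (k - 1), v = a + (X : A[X]) • c := by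
  refine ⟨b.repr.symm (Finsupp.mapRange (fun p => C (p.coeff 0)) (by simp) (b.repr v)), ?_,
    b.repr.symm (Finsupp.mapRange (fun p => p.divX) (by simp) (b.repr v)), ?_, ?_⟩
  · intro i n hn
    rw [LinearEquiv.apply_symm_apply, Finsupp.mapRange_apply, coeff_C]
    split_ifs with h
    · subst h
      by_cases h1 : k + w i = 0
      · exact h0 i h1
      · exact hv i 0 (by push_cast at hn ⊢; omega)
    · rfl
  · intro i n hn
    rw [LinearEquiv.apply_symm_apply, Finsupp.mapRange_apply, coeff_divX]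
    exact hv i (n + 1) (by push_cast; omega)
  · apply b.repr.injective
    rw [map_add, map_smul, LinearEquiv.apply_symm_apply, LinearEquiv.apply_symm_apply]
    refine Finsupp.ext fun i => ?_
    rw [Finsupp.add_apply, Finsupp.smul_apply, Finsupp.mapRange_apply, Finsupp.mapRange_apply,
      smul_eq_mul, mul_comm, add_comm]
    exact (divX_mul_X_add _).symm

private theorem rb3_bot {ι : Type} (b : Module.Basis ι A[X] V) (w : ι → ℤ) (k : ℤ)
    (hk : ∀ i, k + w i < 0) : OL b w k = ⊥ := by
  rw [eq_bot_iff]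
  intro v hv
  rw [Submodule.mem_bot]
  apply b.repr.injective
  rw [map_zero]
  refine Finsupp.ext fun i => ?_
  refine Polynomial.ext fun n => ?_
  rw [hv i n (lt_of_lt_of_le (hk i) (by positivity))]
  simp

private theorem rb3_mono {ι : Type} (b : Module.Basis ι A[X] V) (w w' : ι → ℤ) (k k' : ℤ)
    (h : ∀ i, k + w i ≤ k' + w' i) : OL b w k ≤ OL b w' k' :=
  fun v hv i n hn => hv i n (lt_of_le_of_lt (h i) hn)

private theorem rb3_lat [IsNoetherianRing A] {ι : Type} [Finite ι] (b : Module.Basis ι A[X] V)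
    (w : ι → ℤ) : IsLat (OL b w) := by
  obtain ⟨M, hM⟩ : ∃ M : ℤ, ∀ i, w i ≤ M := by
    obtain ⟨M, hM⟩ := (Set.finite_range w).bddAbove
    exact ⟨M, fun i => hM ⟨i, rfl⟩⟩
  obtain ⟨m, hm⟩ : ∃ m : ℤ, ∀ i, m ≤ w i := by
    obtain ⟨m, hm⟩ := (Set.finite_range w).bddBelow
    exact ⟨m, fun i => hm ⟨i, rfl⟩⟩
  refine ⟨?_, ?_, ?_, ?_, ?_, ?_⟩
  · exact fun k => rb3_mono b w w k (k + 1) fun i => by omega
  · intro k v hv i n hn
    rw [rb3_mulX]
    rcases n with _ | n
    · rw [coeff_X_mul_zero]
    · rw [coeff_X_mul]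
      exact hv i n (by push_cast at hn; omega)
  · exact ⟨-M - 1, fun k hk => rb3_bot b w k fun i => by have := hM i; omega⟩
  · intro k
    obtain ⟨N, hN⟩ : ∃ N : ℕ, k + M < N := ⟨(k + M + 1).toNat, by omega⟩
    let f : OL b w k →ₗ[A] (ι → Fin N → A) :=
      { toFun := fun v i n => (b.repr (v : V) i).coeff n
        map_add' := by
          intro u v
          funext i n
          simp only [Submodule.coe_add, map_add, Finsupp.add_apply, coeff_add, Pi.add_apply]
        map_smul' := by
          intro c v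
          funext i n
          simp only [Submodule.coe_smul, RingHom.id_apply, Pi.smul_apply]
          rw [rb3_smul, map_smul, Finsupp.smul_apply, smul_eq_mul, coeff_C_mul, smul_eq_mul] }
    have hf : Injective f := by
      rw [← LinearMap.ker_eq_bot, LinearMap.ker_eq_bot']
      intro v hv
      apply Subtype.ext
      apply b.repr.injective
      rw [ZeroMemClass.coe_zero, map_zero]
      refine Finsupp.ext fun i => ?_
      refine Polynomial.ext fun n => ?_
      rw [Finsupp.zero_apply, coeff_zero]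
      by_cases hn : n < N
      · have := congrFun (congrFun hv i) ⟨n, hn⟩
        exact this
      · have h1 := hM i
        push Not at hn
        exact v.2 i n (by omega)
    have hnoeth : IsNoetherian A (OL b w k) := isNoetherian_of_injective f hf
    rw [← Module.Finite.iff_fg]
    infer_instance
  · refine ⟨-m, fun k hk v hv => ?_⟩
    have h := rb3_dec b w (k + 1) v hv (fun i hi => by have := hm i; omega)
    rw [add_sub_cancel_right] at h
    exact h
  · intro v
    obtain ⟨K, hK⟩ := (Set.finite_range fun i => ((b.repr v i).natDegree : ℤ) - w i).bddAbove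
    refine ⟨K, fun i n hn => ?_⟩
    apply coeff_eq_zero_of_natDegree_lt
    have : ((b.repr v i).natDegree : ℤ) - w i ≤ K := hK ⟨i, rfl⟩
    omega

private theorem rb3_sat {ι : Type} (b : Module.Basis ι A[X] V) (w : ι → ℤ) : Sat (OL b w) := by
  intro k v _ hX i n hn
  have := hX i (n + 1) (by push_cast; omega)
  rw [rb3_mulX, coeff_X_mul] at this
  exact this

/-- the constant coefficients of the components of type `- k` -/
private def rb3_c0 {ι : Type} (b : Module.Basis ι A[X] V) (w : ι → ℤ) (k : ℤ) :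
    OL b w k →ₗ[A] ({i : ι // k + w i = 0} → A) where
  toFun := fun v i => (b.repr (v : V) i.1).coeff 0
  map_add' := by
    intro u v
    funext i
    simp only [Submodule.coe_add, map_add, Finsupp.add_apply, coeff_add, Pi.add_apply]
  map_smul' := by
    intro c v
    funext i
    simp only [Submodule.coe_smul, RingHom.id_apply, Pi.smul_apply]
    rw [rb3_smul, map_smul, Finsupp.smul_apply, smul_eq_mul, coeff_C_mul, smul_eq_mul]

private theorem rb3_c0_surj {ι : Type} [Finite ι] (b : Module.Basis ι A[X] V) (w : ι → ℤ) (k : ℤ) :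
    Surjective (rb3_c0 b w k) := by
  classical
  intro f
  have hfin := Fintype.ofFinite ι
  refine ⟨⟨b.equivFun.symm (fun i => if h : k + w i = 0 then C (f ⟨i, h⟩) else 0), ?_⟩, ?_⟩
  · intro i n hn
    rw [← b.equivFun_apply, LinearEquiv.apply_symm_apply]
    by_cases h : k + w i = 0
    · rw [dif_pos h, coeff_C, if_neg (by omega)]
    · rw [dif_neg h, coeff_zero]
  · funext i
    change (b.repr (b.equivFun.symm (fun i => if h : k + w i = 0 then C (f ⟨i, h⟩) else 0)) i.1).coeff 0 = _
    rw [← b.equivFun_apply, LinearEquiv.apply_symm_apply, dif_pos i.2, coeff_C_zero]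

private theorem rb3_c0_ker {ι : Type} (b : Module.Basis ι A[X] V) (w : ι → ℤ) (k : ℤ) :
    (jL (OL b w) k).submoduleOf (OL b w k) = LinearMap.ker (rb3_c0 b w k) := by
  ext v
  rw [LinearMap.mem_ker]
  change (v : V) ∈ jL (OL b w) k ↔ _
  constructor
  · intro h
    unfold jL at h
    obtain ⟨a, ha, c', ⟨c, hc, rfl⟩, hsum⟩ := Submodule.mem_sup.mp h
    funext i
    change (b.repr (v : V) i.1).coeff 0 = 0
    rw [← hsum, map_add, Finsupp.add_apply, coeff_add]
    have h1 := ha i.1 0 (by have := i.2; push_cast; omega)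
    have h2 : (b.repr ((xm A V) c) i.1).coeff 0 = 0 := by
      change (b.repr ((X : A[X]) • c) i.1).coeff 0 = 0
      rw [rb3_mulX, coeff_X_mul_zero]
    rw [h1, h2, add_zero]
  · intro h
    have h0 : ∀ i, k + w i = 0 → (b.repr (v : V) i).coeff 0 = 0 := fun i hi =>
      congrFun h ⟨i, hi⟩
    obtain ⟨a, ha, c, hc, hs⟩ := rb3_dec b w k v v.2 h0
    rw [hs]
    exact Submodule.mem_sup.mpr ⟨a, ha, (X : A[X]) • c, ⟨c, hc, rfl⟩, rfl⟩

private theorem rb3_FF {ι : Type} [Finite ι] (b : Module.Basis ι A[X] V) (w : ι → ℤ) (k : ℤ) :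
    FF A 0 (H0 (OL b w) k) := by
  change SF A (H0 (OL b w) k)
  obtain ⟨n, ⟨e⟩⟩ := Finite.exists_equiv_fin {i : ι // k + w i = 0}
  refine ⟨0, n, ⟨?_⟩⟩
  have e1 : H0 (OL b w) k ≃ₗ[A] ({i : ι // k + w i = 0} → A) :=
    (Submodule.quotEquivOfEq _ _ (rb3_c0_ker b w k)).trans
      ((rb3_c0 b w k).quotKerEquivOfSurjective (rb3_c0_surj b w k))
  have e2 : (H0 (OL b w) k × (Fin 0 → A)) ≃ₗ[A] H0 (OL b w) k := LinearEquiv.prodUnique
  exact (e2.trans e1).trans (LinearEquiv.funCongrLeft A A e.symm)

private theorem rb3_sup {ι : Type} (b : Module.Basis ι A[X] V) (w w' : ι → ℤ) :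
    OL b w ⊔ OL b w' = OL b (fun i => max (w i) (w' i)) := by
  classical
  refine le_antisymm (sup_le ?_ ?_) ?_
  · exact fun k => rb3_mono b _ _ k k fun i => by have := le_max_left (w i) (w' i); omega
  · exact fun k => rb3_mono b _ _ k k fun i => by have := le_max_right (w i) (w' i); omega
  · intro k v hv
    rw [Pi.sup_apply]
    refine Submodule.mem_sup.mpr ⟨b.repr.symm ((b.repr v).filter fun i => w' i ≤ w i), ?_,
      b.repr.symm ((b.repr v).filter fun i => ¬ w' i ≤ w i), ?_, ?_⟩
    · intro i n hn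
      rw [LinearEquiv.apply_symm_apply, Finsupp.filter_apply]
      split_ifs with h
      · exact hv i n (by beta_reduce; rw [max_eq_left h]; exact hn)
      · rw [coeff_zero]
    · intro i n hn
      rw [LinearEquiv.apply_symm_apply, Finsupp.filter_apply]
      split_ifs with h
      · rw [coeff_zero]
      · exact hv i n (by beta_reduce; rw [max_eq_right (not_le.mp h).le]; exact hn)
    · rw [← map_add, Finsupp.filter_add_filter_not, LinearEquiv.symm_apply_apply]

private theorem rb3_sh {ι : Type} (b : Module.Basis ι A[X] V) (w : ι → ℤ) (j : ℤ) :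
    shL (OL b w) j = OL b fun i => w i + j := by
  funext k
  exact le_antisymm (rb3_mono b _ _ _ _ fun i => by omega) (rb3_mono b _ _ _ _ fun i => by omega)

end

theorem thm_RB3 (hRX : St_RX) (hRB1 : St_RB1) (hFFP : St_FFP) : St_RB3 := by
  intro A _ _ V _ _ _ _ V' _ _ _ _
  refine ⟨?_, ?_, ?_⟩
  · intro d E g hE
    obtain ⟨h1, h2, -, -⟩ := (hRB1 A V V').2.1 E g
    refine ⟨h1 hE.1, h2 hE.2.1, fun k => ?_⟩
    have hinj : Injective ((g : V →ₗ[A[X]] V').restrictScalars A) := g.injective
    let e : E k ≃ₗ[A] (mapL g E) k :=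
      Submodule.equivMapOfInjective ((g : V →ₗ[A[X]] V').restrictScalars A) hinj (E k)
    have he : ∀ u : E k, ((e u : (mapL g E) k) : V') = g u := fun u => rfl
    refine (hFFP A).1 d _ _ (Submodule.Quotient.equiv _ _ e ?_) (hE.2.2 k)
    ext u
    rw [Submodule.mem_map_equiv]
    change ((e.symm u : E k) : V) ∈ jL E k ↔ (u : V') ∈ jL (mapL g E) k
    have hu : (u : V') = g ((e.symm u : E k) : V) := by
      rw [← he, LinearEquiv.apply_symm_apply]
    rw [hu]
    unfold jL
    constructor
    · intro h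
      obtain ⟨a, ha, c', ⟨c, hc, rfl⟩, hsum⟩ := Submodule.mem_sup.mp h
      refine Submodule.mem_sup.mpr ⟨g a, ⟨a, ha, rfl⟩, (X : A[X]) • g c, ⟨g c, ⟨c, hc, rfl⟩, rfl⟩, ?_⟩
      rw [← hsum, map_add, ← map_smul]
      rfl
    · intro h
      obtain ⟨a', ⟨a, ha, rfl⟩, c', ⟨c'', ⟨c, hc, rfl⟩, rfl⟩, hsum⟩ := Submodule.mem_sup.mp h
      refine Submodule.mem_sup.mpr ⟨a, ha, (X : A[X]) • c, ⟨c, hc, rfl⟩, ?_⟩
      apply g.injective
      rw [← hsum, map_add, map_smul]
      rfl
  · intro d E E' hE hE'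
    have hlat := ((hRB1 A V V').2.2.2.2.1 E E').1 hE.1 hE'.1
    have hses : SES (LinearMap.inl A[X] V V') (LinearMap.snd A[X] V V') E (prodL E E') E' := by
      refine ⟨LinearMap.inl_injective, LinearMap.snd_surjective, ?_, ?_, ?_⟩
      · exact LinearMap.range_inl A[X] V V'
      · intro k u
        constructor
        · intro hu
          exact ⟨hu, (E' k).zero_mem⟩
        · intro hu
          exact hu.1
      · intro k v
        constructor
        · intro hv
          exact ⟨(0, v), ⟨(E k).zero_mem, hv⟩, rfl⟩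
        · rintro ⟨x, hx, rfl⟩
          exact hx.2
    exact (hRX A V (V × V') V' _ _ E (prodL E E') E' hses).2.2.2.2.2.1 d hE hE' hlat.mono hlat.mulX
  · intro ι _ b w w'
    refine ⟨⟨rb3_lat b w, rb3_sat b w, fun k => rb3_FF b w k⟩, ?_, ?_, ?_, rb3_sup b w w',
      fun j => rb3_sh b w j⟩
    · intro hw k hk v hv
      have h := rb3_dec b w (k + 1) v hv (fun i hi => by have := hw i; omega)
      rw [add_sub_cancel_right] at h
      exact h
    · intro D hw
      exact rb3_bot b w _ fun i => by have := hw i; omega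
    · exact fun hw k => rb3_mono b w w' k k fun i => by have := hw i; omega

end Pool.Agent.SLZ
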