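import Pool.Agent.SLZ.StR

/-!
# SLZ: module RC, the criterion for sums of `O(w)`
-/

set_option autoImplicit false

noncomputable section

namespace Pool.Agent.SLZ

open Polynomial Function

section

variable {A : Type} [CommRing A] {V : Type} [AddCommGroup V] [Module A V] [Module A[X] V]
  [IsScalarTower A A[X] V] {ι : Type} [Fintype ι]

theorem rc_C (c : A) (v : V) : (C c : A[X]) • v = c • v := by
  rw [← algebraMap_smul A[X] c v]
  rfl

theorem rc_mono {E : Lat A V} (hE : IsLat E) {j k : ℤ} (h : j ≤ k) : E j ≤ E k := by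
  obtain ⟨n, rfl⟩ := Int.le.dest h
  clear h
  induction n with
  | zero => simp
  | succ n ih =>
    refine le_trans ih ?_
    have := hE.mono (j + n)
    rw [show j + ((n + 1 : ℕ) : ℤ) = j + n + 1 by push_cast; ring]
    exact this

theorem rc_pow {E : Lat A V} (hE : IsLat E) (n : ℕ) : ∀ (k : ℤ) (v : V), v ∈ E k →
    ((X : A[X]) ^ n) • v ∈ E (k + n) := by
  induction n with
  | zero => intro k v hv; simpa using hv
  | succ n ih =>
    intro k v hv
    have h1 := hE.mulX (k + n) _ (ih k v hv)
    rw [show k + ((n + 1 : ℕ) : ℤ) = k + n + 1 by push_cast; ring, pow_succ', mul_smul]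
    exact h1

/-- degrees at most `k - κ i` -/
def rc_D (κ : ι → ℤ) (k : ℤ) (p : ι → A[X]) : Prop :=
  ∀ (i : ι) (n : ℕ), k - κ i < n → (p i).coeff n = 0

theorem rc_up {E : Lat A V} (hE : IsLat E) (v : ι → V) (κ : ι → ℤ) (hv : ∀ i, v i ∈ E (κ i))
    (k : ℤ) (p : ι → A[X]) (hp : rc_D κ k p) : ∑ i, p i • v i ∈ E k := by
  refine Submodule.sum_mem _ fun i _ => ?_
  have h1 : p i • v i = ∑ n ∈ (p i).support, (p i).coeff n • ((X : A[X]) ^ n • v i) := by
    conv_lhs => rw [(p i).as_sum_support_C_mul_X_pow]
    rw [Finset.sum_smul]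
    refine Finset.sum_congr rfl fun n _ => ?_
    rw [mul_smul, rc_C]
  rw [h1]
  refine Submodule.sum_mem _ fun n hn => Submodule.smul_mem _ _ ?_
  have h2 : ¬ (k - κ i < n) := fun h => (mem_support_iff.1 hn) (hp i n h)
  exact rc_mono hE (by omega) (rc_pow hE n _ _ (hv i))

theorem rc_jL {E : Lat A V} {k : ℤ} {u : V} (hu : u ∈ jL E k) :
    ∃ a ∈ E (k - 1), ∃ b ∈ E (k - 1), u = a + (X : A[X]) • b := by
  obtain ⟨a, ha, _, ⟨b, hb, rfl⟩, rfl⟩ := Submodule.mem_sup.1 hu
  exact ⟨a, ha, b, hb, rfl⟩

theorem rc_mem_jL {E : Lat A V} {k : ℤ} {a b : V} (ha : a ∈ E (k - 1)) (hb : b ∈ E (k - 1)) :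
    a + (X : A[X]) • b ∈ jL E k :=
  Submodule.add_mem_sup ha (Submodule.mem_map_of_mem (f := xm A V) hb)

theorem rc_down {E : Lat A V} (hE : IsLat E) (v : ι → V) (κ : ι → ℤ)
    (hgen : ∀ (k : ℤ), ∀ u ∈ E k, ∃ c : ι → A, (∀ i, κ i ≠ k → c i = 0) ∧
      u - ∑ i, c i • v i ∈ jL E k) :
    ∀ (k : ℤ), ∀ u ∈ E k, ∃ p : ι → A[X], rc_D κ k p ∧ u = ∑ i, p i • v i := by
  obtain ⟨k₀, hk₀⟩ := hE.bot
  have key : ∀ (n : ℕ), ∀ u ∈ E (k₀ + n), ∃ p : ι → A[X], rc_D κ (k₀ + n) p ∧
      u = ∑ i, p i • v i := by
    intro n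
    induction n with
    | zero =>
      intro u hu
      rw [hk₀ _ (by simp)] at hu
      refine ⟨fun _ => 0, fun i m _ => coeff_zero m, ?_⟩
      rw [(Submodule.mem_bot A).1 hu]
      simp
    | succ n ih =>
      intro u hu
      obtain ⟨c, hc, hcu⟩ := hgen _ u hu
      obtain ⟨a, ha, b, hb, hab⟩ := rc_jL hcu
      have e : k₀ + ((n + 1 : ℕ) : ℤ) - 1 = k₀ + n := by push_cast; ring
      rw [e] at ha hb
      obtain ⟨p, hp, rfl⟩ := ih a ha
      obtain ⟨q, hq, rfl⟩ := ih b hb
      refine ⟨fun i => C (c i) + p i + X * q i, ?_, ?_⟩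
      · intro i m hm
        rw [coeff_add, coeff_add]
        have h1 : (C (c i)).coeff m = 0 := by
          rw [coeff_C]
          split_ifs with hm0
          · subst hm0
            apply hc
            intro hκ
            rw [hκ] at hm
            simp at hm
          · rfl
        have h2 : (p i).coeff m = 0 := hp i m (by push_cast at hm; omega)
        have h3 : (X * q i).coeff m = 0 := by
          cases m with
          | zero => exact coeff_X_mul_zero _
          | succ m =>
            rw [coeff_X_mul]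
            exact hq i m (by push_cast at hm; omega)
        rw [h1, h2, h3, add_zero, add_zero]
      · have h4 : u = ∑ i, c i • v i + (∑ i, p i • v i + (X : A[X]) • ∑ i, q i • v i) := by
          rw [← hab]; abel
        rw [h4, Finset.smul_sum, ← Finset.sum_add_distrib, ← Finset.sum_add_distrib]
        refine Finset.sum_congr rfl fun i _ => ?_
        rw [add_smul, add_smul, rc_C, mul_smul, add_assoc]
  intro k u hu
  rcases le_total k k₀ with h | h
  · rw [hk₀ k h] at hu
    refine ⟨fun _ => 0, fun i m _ => coeff_zero m, ?_⟩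
    rw [(Submodule.mem_bot A).1 hu]
    simp
  · obtain ⟨n, rfl⟩ := Int.le.dest h
    exact key n u hu

theorem rc_b {E : Lat A V} (hE : IsLat E) (hS : Sat E) (v : ι → V) (κ : ι → ℤ)
    (hv : ∀ i, v i ∈ E (κ i))
    (hind : ∀ (k : ℤ) (c : ι → A), (∀ i, κ i ≠ k → c i = 0) → ∑ i, c i • v i ∈ jL E k →
      ∀ i, c i = 0) :
    ∀ (k : ℤ) (p : ι → A[X]), rc_D κ k p → ∑ i, p i • v i ∈ E (k - 1) → rc_D κ (k - 1) p := by
  classical
  obtain ⟨k₁, hk₁⟩ : ∃ k₁ : ℤ, ∀ i, k₁ < κ i := by
    obtain ⟨m, hm⟩ := (Set.finite_range κ).bddBelow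
    exact ⟨m - 1, fun i => by have := hm (Set.mem_range_self i); omega⟩
  have key : ∀ (n : ℕ) (p : ι → A[X]), rc_D κ (k₁ + n) p → ∑ i, p i • v i ∈ E (k₁ + n - 1) →
      rc_D κ (k₁ + n - 1) p := by
    intro n
    induction n with
    | zero =>
      intro p hp _ i m _
      apply hp i m
      have := hk₁ i
      push_cast
      omega
    | succ n ih =>
      intro p hp hpE
      set k : ℤ := k₁ + ((n + 1 : ℕ) : ℤ) with hk
      have ek : k - 1 = k₁ + n := by rw [hk]; push_cast; ring
      let q : ι → A[X] := fun i => divX (p i)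
      have hpq : ∀ i, p i = X * q i + C ((p i).coeff 0) := by
        intro i
        conv_lhs => rw [← divX_mul_X_add (p i)]
        rw [mul_comm]
      have hq : rc_D κ (k - 1) q := by
        intro i m hm
        show (divX (p i)).coeff m = 0
        rw [coeff_divX]
        exact hp i (m + 1) (by push_cast; omega)
      have hu : ∑ i, q i • v i ∈ E (k - 1) := rc_up hE v κ hv (k - 1) q hq
      have hsum : ∑ i, p i • v i = (X : A[X]) • (∑ i, q i • v i) + ∑ i, (p i).coeff 0 • v i := by
        rw [Finset.smul_sum, ← Finset.sum_add_distrib]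
        refine Finset.sum_congr rfl fun i _ => ?_
        conv_lhs => rw [hpq i]
        rw [add_smul, mul_smul, rc_C]
      let c : ι → A := fun i => if κ i = k then (p i).coeff 0 else 0
      let c' : ι → A := fun i => if κ i = k then 0 else (p i).coeff 0
      have hcc : ∑ i, (p i).coeff 0 • v i = ∑ i, c i • v i + ∑ i, c' i • v i := by
        rw [← Finset.sum_add_distrib]
        refine Finset.sum_congr rfl fun i _ => ?_
        show _ = (if κ i = k then (p i).coeff 0 else 0) • v i +
          (if κ i = k then 0 else (p i).coeff 0) • v i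
        by_cases h : κ i = k
        · rw [if_pos h, if_pos h, zero_smul, add_zero]
        · rw [if_neg h, if_neg h, zero_smul, zero_add]
      have hc' : ∑ i, c' i • v i ∈ E (k - 1) := by
        refine Submodule.sum_mem _ fun i _ => ?_
        show (if κ i = k then 0 else (p i).coeff 0) • v i ∈ E (k - 1)
        by_cases h : κ i = k
        · rw [if_pos h, zero_smul]
          exact Submodule.zero_mem _
        · rw [if_neg h]
          rcases lt_or_gt_of_ne h with h' | h'
          · exact Submodule.smul_mem _ _ (rc_mono hE (by omega) (hv i))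
          · rw [hp i 0 (by push_cast; omega), zero_smul]
            exact Submodule.zero_mem _
      have hc0 : ∀ i, c i = 0 := by
        apply hind k c
        · intro i hi
          exact if_neg hi
        · have h5 : ∑ i, c i • v i =
              (∑ i, p i • v i - ∑ i, c' i • v i) + (X : A[X]) • (-(∑ i, q i • v i)) := by
            rw [hsum, hcc, smul_neg]
            abel
          rw [h5]
          exact rc_mem_jL (Submodule.sub_mem _ hpE hc') (Submodule.neg_mem _ hu)
      have hXu : (X : A[X]) • (∑ i, q i • v i) ∈ E (k - 1) := by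
        have h6 : (X : A[X]) • (∑ i, q i • v i) = ∑ i, p i • v i - ∑ i, c' i • v i := by
          rw [hsum, hcc]
          simp only [hc0, zero_smul, Finset.sum_const_zero, zero_add]
          abel
        rw [h6]
        exact Submodule.sub_mem _ hpE hc'
      have hu2 := hS (k - 1) _ hu hXu
      rw [ek] at hq hu2
      have hq2 := ih q hq hu2
      intro i m hm
      cases m with
      | zero =>
        have h7 : k - 1 - κ i < 0 := by exact_mod_cast hm
        rcases eq_or_lt_of_le (show k ≤ κ i by omega) with h8 | h8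
        · have h9 := hc0 i
          rw [show c i = (p i).coeff 0 from if_pos h8.symm] at h9
          exact h9
        · exact hp i 0 (by push_cast; omega)
      | succ m =>
        have h9 : (q i).coeff m = 0 := hq2 i m (by push_cast at hm; omega)
        rw [show (q i).coeff m = (p i).coeff (m + 1) from coeff_divX] at h9
        exact h9
  intro k p hp hpE
  rcases le_total k k₁ with h | h
  · intro i m _
    apply hp i m
    have := hk₁ i
    omega
  · obtain ⟨n, rfl⟩ := Int.le.dest h
    exact key n p hp hpE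

theorem rc_c {E : Lat A V} (hE : IsLat E) (hS : Sat E) (v : ι → V) (κ : ι → ℤ)
    (hv : ∀ i, v i ∈ E (κ i))
    (hind : ∀ (k : ℤ) (c : ι → A), (∀ i, κ i ≠ k → c i = 0) → ∑ i, c i • v i ∈ jL E k →
      ∀ i, c i = 0) (p : ι → A[X]) (hp : ∑ i, p i • v i = 0) : ∀ i, p i = 0 := by
  obtain ⟨K, hK⟩ : ∃ K : ℤ, ∀ i, κ i + (p i).natDegree ≤ K := by
    obtain ⟨m, hm⟩ := (Set.finite_range fun i => κ i + ((p i).natDegree : ℤ)).bddAbove
    exact ⟨m, fun i => hm (Set.mem_range_self i)⟩
  have h0 : rc_D κ K p := by
    intro i n hn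
    apply coeff_eq_zero_of_natDegree_lt
    have := hK i
    omega
  have h1 : ∀ n : ℕ, rc_D κ (K - n) p := by
    intro n
    induction n with
    | zero => simpa using h0
    | succ n ih =>
      have := rc_b hE hS v κ hv hind (K - n) p ih (by rw [hp]; exact Submodule.zero_mem _)
      rw [show K - ((n + 1 : ℕ) : ℤ) = K - n - 1 by push_cast; ring]
      exact this
  intro i
  ext m
  rw [coeff_zero]
  apply h1 (K - κ i + 1).toNat i m
  have h3 := Int.self_le_toNat (K - κ i + 1)
  omega

end

theorem thm_RC : St_RC := by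
  intro A _ V _ _ _ _ E ι _ v κ hE hS hv hind hgen
  have hdown := rc_down hE v κ hgen
  have hli : LinearIndependent A[X] v := by
    rw [Fintype.linearIndependent_iff]
    exact rc_c hE hS v κ hv hind
  have hsp : ⊤ ≤ Submodule.span A[X] (Set.range v) := by
    intro x _
    obtain ⟨k, hk⟩ := hE.top x
    obtain ⟨p, -, rfl⟩ := hdown k x hk
    exact Submodule.sum_mem _ fun i _ =>
      Submodule.smul_mem _ _ (Submodule.subset_span (Set.mem_range_self i))
  refine ⟨Module.Basis.mk hli hsp, fun i => Module.Basis.mk_apply hli hsp i, ?_⟩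
  set b := Module.Basis.mk hli hsp with hb
  have hbv : ∀ i, b i = v i := fun i => Module.Basis.mk_apply hli hsp i
  funext k
  ext x
  constructor
  · intro hx
    obtain ⟨p, hp, hpx⟩ := hdown k x hx
    intro i n hn
    have h1 : b.repr x i = p i := by
      have h2 : x = ∑ i, p i • b i := by
        rw [hpx]
        exact Finset.sum_congr rfl fun i _ => by rw [hbv]
      rw [h2, Module.Basis.repr_sum_self]
    rw [h1]
    apply hp i n
    replace hn : k + - κ i < n := hn
    omega
  · intro hx
    have h1 : x = ∑ i, b.repr x i • v i := by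
      conv_lhs => rw [← b.sum_repr x]
      exact Finset.sum_congr rfl fun i _ => by rw [hbv]
    rw [h1]
    apply rc_up hE v κ hv k
    intro i n hn
    apply hx i n
    show k + - κ i < n
    omega

end Pool.Agent.SLZ
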