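import Pool.Agent.SLZ.StR

/-!
# SLZ, module RD (helper47): bundles are stably sums of `O(w)`
-/

set_option autoImplicit false
set_option linter.unusedVariables false

noncomputable section

namespace Pool.Agent.SLZ

open Polynomial Function

section

variable {A : Type} [CommRing A] {V : Type} [AddCommGroup V] [Module A V] [Module A[X] V]
  [IsScalarTower A A[X] V]

theorem rd_jL {E : Lat A V} {k : ℤ} {v : V} :
    v ∈ jL E k ↔ ∃ a ∈ E (k - 1), ∃ b ∈ E (k - 1), v = a + (X : A[X]) • b := by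
  unfold jL
  rw [Submodule.mem_sup]
  constructor
  · rintro ⟨a, ha, z, ⟨b, hb, rfl⟩, rfl⟩
    exact ⟨a, ha, b, hb, rfl⟩
  · rintro ⟨a, ha, b, hb, rfl⟩
    exact ⟨a, ha, _, ⟨b, hb, rfl⟩, rfl⟩

theorem rd_jLp {W : Type} [AddCommGroup W] [Module A W] [Module A[X] W] [IsScalarTower A A[X] W]
    {E : Lat A V} {G : Lat A W} {k : ℤ} {v : V} {w : W} :
    (v, w) ∈ jL (prodL E G) k ↔ v ∈ jL E k ∧ w ∈ jL G k := by
  rw [rd_jL, rd_jL, rd_jL]
  constructor
  · rintro ⟨a, ha, b, hb, h⟩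
    exact ⟨⟨a.1, ha.1, b.1, hb.1, congrArg Prod.fst h⟩, ⟨a.2, ha.2, b.2, hb.2, congrArg Prod.snd h⟩⟩
  · rintro ⟨⟨a, ha, b, hb, h⟩, ⟨a', ha', b', hb', h'⟩⟩
    exact ⟨(a, a'), ⟨ha, ha'⟩, (b, b'), ⟨hb, hb'⟩, Prod.ext h h'⟩

theorem rd_OW {M : ℕ} (u : Fin M → ℤ) (k : ℤ) (g : Fin M → A[X]) :
    g ∈ OW A u k ↔ ∀ (i : Fin M) (n : ℕ), k + u i < n → (g i).coeff n = 0 := by
  constructor
  · intro h i n hn
    have h1 := h i n hn
    rw [Pi.basisFun_repr] at h1
    exact h1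
  · intro h i n hn
    rw [Pi.basisFun_repr]
    exact h i n hn

theorem rd_jOW {M : ℕ} (u : Fin M → ℤ) (k : ℤ) (g : Fin M → A[X]) (hg : g ∈ OW A u k) :
    g ∈ jL (OW A u) k ↔ ∀ i, u i = -k → g i = 0 := by
  rw [rd_OW] at hg
  rw [rd_jL]
  constructor
  · rintro ⟨a, ha, b, hb, rfl⟩ i hi
    rw [rd_OW] at ha hb
    have h1 : ∀ c : Fin M → A[X], (∀ (i : Fin M) (n : ℕ), k - 1 + u i < n → (c i).coeff n = 0) →
        c i = 0 := by
      intro c hc
      ext n
      rw [coeff_zero]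
      exact hc i n (by omega)
    show a i + (X : A[X]) • b i = 0
    rw [h1 a ha, h1 b hb, smul_zero, add_zero]
  · intro h
    have h0 : ∀ i, k + u i ≤ 0 → g i = 0 := by
      intro i hi
      rcases Int.lt_or_eq_of_le hi with h1 | h1
      · ext n
        rw [coeff_zero]
        exact hg i n (by omega)
      · exact h i (by omega)
    refine ⟨fun i => C ((g i).coeff 0), ?_, fun i => (g i).divX, ?_, ?_⟩
    · rw [rd_OW]
      intro i n hn
      by_cases h1 : k + u i ≤ 0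
      · rw [h0 i h1, coeff_zero, C_0, coeff_zero]
      · rw [coeff_C, if_neg]
        rintro rfl
        push_cast at hn
        omega
    · rw [rd_OW]
      intro i n hn
      rw [coeff_divX]
      exact hg i (n + 1) (by push_cast; omega)
    · funext i
      show g i = C ((g i).coeff 0) + X * (g i).divX
      conv_lhs => rw [← divX_mul_X_add (g i)]
      rw [mul_comm, add_comm]

theorem rd_reindex {ι κ : Type} (b : Module.Basis ι A[X] V) (e : ι ≃ κ) (w : ι → ℤ) :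
    OL b w = OL (b.reindex e) (fun i => w (e.symm i)) := by
  funext k
  ext v
  constructor
  · intro h i n hn
    rw [Module.Basis.repr_reindex_apply]
    exact h (e.symm i) n hn
  · intro h i n hn
    have h1 := h (e i) n (by
      show k + w (e.symm (e i)) < n
      rw [e.symm_apply_apply]
      exact hn)
    rw [Module.Basis.repr_reindex_apply, e.symm_apply_apply] at h1
    exact h1

end

/-- **RD.** Bundles are stably sums of `O(w)`. -/
theorem thm_RD (h1 : St_RB1) (h3 : St_RB3) (hC : St_RC) : St_RD := by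
  classical
  intro A _ _ V _ _ _ _ E hE
  obtain ⟨hL, hS, hF⟩ := hE
  have hF' : ∀ k, ∃ m n : ℕ, Nonempty ((H0 E k × (Fin m → A)) ≃ₗ[A] (Fin n → A)) := hF
  choose m n hmn using hF'
  have e : ∀ k, (H0 E k × (Fin (m k) → A)) ≃ₗ[A] (Fin (n k) → A) := fun k => (hmn k).some
  obtain ⟨k₀, hk₀⟩ := hL.bot
  obtain ⟨k₁, hk₁⟩ := hL.gen
  let S : Finset ℤ := Finset.Icc (k₀ + 1) k₁
  have hout : ∀ k, k ∉ S → ∀ a ∈ E k, a ∈ jL E k := by
    intro k hk a ha
    rw [Finset.mem_Icc] at hk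
    rcases le_or_gt k k₀ with h | h
    · rw [hk₀ k h, Submodule.mem_bot] at ha
      rw [ha]
      exact Submodule.zero_mem _
    · have h4 : k₁ ≤ k - 1 := by omega
      rw [rd_jL]
      obtain ⟨x, hx, y, hy, h5⟩ := hk₁ (k - 1) h4 a (by rw [sub_add_cancel]; exact ha)
      exact ⟨x, hx, y, hy, h5⟩
  -- the bundle `G`
  let ιG : Type := Σ k : S, Fin (m k)
  obtain ⟨M, ⟨σ'⟩⟩ := Finite.exists_equiv_fin ιG
  let σ : Fin M ≃ ιG := σ'.symm
  let u : Fin M → ℤ := fun i => -((σ i).1 : ℤ)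
  -- constant vectors
  let γ : ∀ k : S, (Fin (m k) → A) →ₗ[A] (Fin M → A[X]) := fun k =>
    LinearMap.pi fun i0 => ∑ i, if σ i0 = ⟨k, i⟩ then
      (Algebra.linearMap A A[X]) ∘ₗ (LinearMap.proj i : (Fin (m k) → A) →ₗ[A] A) else 0
  have hγ : ∀ (k : S) (y : Fin (m k) → A) (i0 : Fin M),
      γ k y i0 = ∑ i, if σ i0 = ⟨k, i⟩ then C (y i) else 0 := by
    intro k y i0
    show (∑ i, if σ i0 = ⟨k, i⟩ then
      (Algebra.linearMap A A[X]) ∘ₗ (LinearMap.proj i : (Fin (m k) → A) →ₗ[A] A) else 0) y = _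
    rw [LinearMap.sum_apply]
    refine Finset.sum_congr rfl fun i _ => ?_
    split_ifs
    · rfl
    · rfl
  have hγ1 : ∀ (k : S) (y : Fin (m k) → A) (i : Fin (m k)), γ k y (σ.symm ⟨k, i⟩) = C (y i) := by
    intro k y i
    rw [hγ, Finset.sum_eq_single i]
    · rw [if_pos (σ.apply_symm_apply _)]
    · intro j _ hj
      rw [if_neg]
      rw [σ.apply_symm_apply]
      intro h
      exact hj (eq_of_heq (Sigma.mk.inj_iff.1 h).2).symm
    · intro hi
      exact absurd (Finset.mem_univ i) hi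
  have hγ2 : ∀ (k : S) (y : Fin (m k) → A) (i0 : Fin M), (σ i0).1 ≠ k → γ k y i0 = 0 := by
    intro k y i0 hi0
    rw [hγ]
    refine Finset.sum_eq_zero fun i _ => ?_
    rw [if_neg]
    intro h
    exact hi0 (congrArg Sigma.fst h)
  have hγG : ∀ (k : S) (y : Fin (m k) → A), γ k y ∈ OW A u (k : ℤ) := by
    intro k y
    rw [rd_OW]
    intro i0 N hN
    by_cases h : (σ i0).1 = k
    · have h4 : k + u i0 = 0 := by
        show (k : ℤ) + -((σ i0).1 : ℤ) = 0
        rw [h]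
        omega
      rw [h4] at hN
      rw [hγ, finsetSum_coeff]
      refine Finset.sum_eq_zero fun i _ => ?_
      split_ifs
      · rw [coeff_C, if_neg]
        rintro rfl
        exact absurd hN (lt_irrefl _)
      · exact coeff_zero _
    · rw [hγ2 k y i0 h, coeff_zero]
  -- lifts
  have hr : ∀ k (x : H0 E k), ∃ a : E k, (Submodule.mkQ ((jL E k).submoduleOf (E k))) a = x :=
    fun k x => Submodule.mkQ_surjective _ x
  choose r hr using hr
  have hq : ∀ k (a : E k), (Submodule.mkQ ((jL E k).submoduleOf (E k))) a = 0 ↔ (a : V) ∈ jL E k := by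
    intro k a
    rw [Submodule.mkQ_apply, Submodule.Quotient.mk_eq_zero]
    exact Iff.rfl
  let ι : Type := Σ k : S, Fin (n k)
  let κ : ι → ℤ := fun i => (i.1 : ℤ)
  let v : ι → V × (Fin M → A[X]) := fun i =>
    ((r i.1 ((e i.1).symm (Pi.single i.2 1)).1 : V), γ i.1 ((e i.1).symm (Pi.single i.2 1)).2)
  -- combinations
  have hcomb : ∀ (k : S) (c : Fin (n k) → A), ∃ a : E k,
      (Submodule.mkQ ((jL E k).submoduleOf (E k))) a = ((e k).symm c).1 ∧
      ∑ j, c j • v ⟨k, j⟩ = ((a : V), γ k ((e k).symm c).2) := by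
    intro k c
    have h4 : (e k).symm c = ∑ j, c j • (e k).symm (Pi.single j 1) := by
      have h5 : c = ∑ j, c j • (Pi.single j 1 : Fin (n k) → A) := by
        funext i
        rw [Finset.sum_apply, Finset.sum_eq_single i]
        · rw [Pi.smul_apply, Pi.single_eq_same, smul_eq_mul, mul_one]
        · intro j _ hj
          rw [Pi.smul_apply, Pi.single_eq_of_ne (Ne.symm hj), smul_zero]
        · intro hi
          exact absurd (Finset.mem_univ i) hi
      conv_lhs => rw [h5]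
      rw [map_sum]
      exact Finset.sum_congr rfl fun j _ => by rw [map_smul]
    refine ⟨∑ j, c j • r k ((e k).symm (Pi.single j 1)).1, ?_, ?_⟩
    · rw [map_sum, h4, Prod.fst_sum]
      refine Finset.sum_congr rfl fun j _ => ?_
      rw [map_smul, hr, Prod.smul_fst]
    · refine Prod.ext ?_ ?_
      · rw [Prod.fst_sum, AddSubmonoidClass.coe_finsetSum]
        exact Finset.sum_congr rfl fun j _ => rfl
      · rw [Prod.snd_sum, h4, Prod.snd_sum, map_sum]
        refine Finset.sum_congr rfl fun j _ => ?_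
        rw [Prod.smul_snd, Prod.smul_snd, map_smul]
  have hsum : ∀ (k : S) (c : ι → A), (∀ i, κ i ≠ (k : ℤ) → c i = 0) →
      ∑ i, c i • v i = ∑ j, c ⟨k, j⟩ • v ⟨k, j⟩ := by
    intro k c hc
    have h4 : ∑ i : ι, c i • v i = ∑ k' : S, ∑ j, c ⟨k', j⟩ • v ⟨k', j⟩ :=
      Fintype.sum_sigma (fun i : ι => c i • v i)
    rw [h4, Finset.sum_eq_single k]
    · intro k' _ hk'
      refine Finset.sum_eq_zero fun j _ => ?_
      rw [hc ⟨k', j⟩ fun h => hk' (Subtype.ext h), zero_smul]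
    · intro hk
      exact absurd (Finset.mem_univ k) hk
  have hsum0 : ∀ (k : ℤ) (c : ι → A), k ∉ S → (∀ i, κ i ≠ k → c i = 0) → ∀ i, c i = 0 := by
    intro k c hk hc i
    refine hc i fun h => hk ?_
    rw [← h]
    exact i.1.2
  have hG := ((h3 A (Fin M → A[X]) (Fin M → A[X])).2.2 (Fin M) (Pi.basisFun A[X] (Fin M)) u u).1
  have hPL : IsLat (prodL E (OW A u)) := ((h1 A V (Fin M → A[X])).2.2.2.2.1 E (OW A u)).1 hL hG.1
  have hPS : Sat (prodL E (OW A u)) :=
    ((h1 A V (Fin M → A[X])).2.2.2.2.1 E (OW A u)).2.1 hS hG.2.1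
  have hinj : ∀ (k : ℤ) (c : ι → A), (∀ i, κ i ≠ k → c i = 0) →
      ∑ i, c i • v i ∈ jL (prodL E (OW A u)) k → ∀ i, c i = 0 := by
    intro k c hc hj
    by_cases hk : k ∈ S
    · obtain ⟨a, ha, h4⟩ := hcomb ⟨k, hk⟩ (fun j => c ⟨⟨k, hk⟩, j⟩)
      rw [hsum ⟨k, hk⟩ c hc, h4, rd_jLp] at hj
      obtain ⟨h5, h6⟩ := hj
      have h7 : ((e k).symm (fun j => c ⟨⟨k, hk⟩, j⟩)).1 = 0 := by
        rw [← ha]
        exact (hq k a).2 h5
      have h8 : ((e k).symm (fun j => c ⟨⟨k, hk⟩, j⟩)).2 = 0 := by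
        funext i
        have h9 := (rd_jOW u k _ (hγG ⟨k, hk⟩ _)).1 h6 (σ.symm ⟨⟨k, hk⟩, i⟩) (by
          show -(((σ (σ.symm ⟨⟨k, hk⟩, i⟩)).1 : S) : ℤ) = -k
          rw [σ.apply_symm_apply])
        rw [hγ1] at h9
        exact C_eq_zero.1 h9
      have h9 : (e k).symm (fun j => c ⟨⟨k, hk⟩, j⟩) = 0 := Prod.ext h7 h8
      have h10 : (fun j => c ⟨⟨k, hk⟩, j⟩) = (0 : Fin (n k) → A) := by
        rw [← (e k).apply_symm_apply (fun j => c ⟨⟨k, hk⟩, j⟩), h9, map_zero]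
      intro i
      by_cases hi : κ i = k
      · obtain ⟨⟨k', hk'⟩, j⟩ := i
        have h11 : k' = k := hi
        subst h11
        exact congrFun h10 j
      · exact hc i hi
    · exact hsum0 k c hk hc
  have hspn : ∀ (k : ℤ), ∀ w ∈ prodL E (OW A u) k, ∃ c : ι → A, (∀ i, κ i ≠ k → c i = 0) ∧
      w - ∑ i, c i • v i ∈ jL (prodL E (OW A u)) k := by
    rintro k ⟨a, g⟩ ⟨ha, hg⟩
    by_cases hk : k ∈ S
    · let x : H0 E k := (Submodule.mkQ ((jL E k).submoduleOf (E k))) ⟨a, ha⟩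
      let y : Fin (m k) → A := fun i => (g (σ.symm ⟨⟨k, hk⟩, i⟩)).coeff 0
      let c0 : Fin (n k) → A := e k (x, y)
      let c : ι → A := fun i => if h : i.1 = ⟨k, hk⟩ then c0 (Fin.cast (by rw [h]) i.2) else 0
      have hc : ∀ i, κ i ≠ k → c i = 0 := by
        intro i hi
        show (if h : i.1 = ⟨k, hk⟩ then c0 (Fin.cast (by rw [h]) i.2) else 0) = 0
        rw [dif_neg]
        intro h
        exact hi (congrArg Subtype.val h)
      have hc0 : (fun j => c ⟨⟨k, hk⟩, j⟩) = c0 := by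
        funext j
        show (if h : (⟨k, hk⟩ : S) = ⟨k, hk⟩ then c0 (Fin.cast (by rw [h]) j) else 0) = c0 j
        rw [dif_pos rfl]
        rfl
      refine ⟨c, hc, ?_⟩
      obtain ⟨a', ha', h4⟩ := hcomb ⟨k, hk⟩ (fun j => c ⟨⟨k, hk⟩, j⟩)
      rw [hsum ⟨k, hk⟩ c hc, h4]
      have h5 : (e k).symm (fun j => c ⟨⟨k, hk⟩, j⟩) = (x, y) := by
        rw [hc0]
        exact (e k).symm_apply_apply (x, y)
      have h6 : (Submodule.mkQ ((jL E k).submoduleOf (E k))) a' = x := by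
        rw [ha']
        exact congrArg Prod.fst h5
      have h7 : γ ⟨k, hk⟩ ((e k).symm (fun j => c ⟨⟨k, hk⟩, j⟩)).2 = γ ⟨k, hk⟩ y := by
        rw [h5]
      show (a - (a' : V), g - γ ⟨k, hk⟩ ((e k).symm (fun j => c ⟨⟨k, hk⟩, j⟩)).2) ∈ _
      rw [h7, rd_jLp]
      constructor
      · have h8 : (Submodule.mkQ ((jL E k).submoduleOf (E k))) (⟨a, ha⟩ - a') = 0 := by
          rw [map_sub, h6]
          exact sub_self x
        exact (hq k _).1 h8
      · rw [rd_jOW u k _ (Submodule.sub_mem _ hg (hγG ⟨k, hk⟩ y))]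
        intro i0 hi0
        have h8 : (σ i0).1 = ⟨k, hk⟩ := by
          apply Subtype.ext
          have h9 : -((σ i0).1 : ℤ) = -k := hi0
          show ((σ i0).1 : ℤ) = k
          omega
        obtain ⟨i, hi⟩ : ∃ i : Fin (m k), σ i0 = ⟨⟨k, hk⟩, i⟩ := by
          rcases hs : σ i0 with ⟨k', i⟩
          rw [hs] at h8
          have h9 : k' = ⟨k, hk⟩ := h8
          subst h9
          exact ⟨i, rfl⟩
        have h9 : i0 = σ.symm ⟨⟨k, hk⟩, i⟩ := by rw [← hi, σ.symm_apply_apply]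
        show g i0 - γ ⟨k, hk⟩ y i0 = 0
        rw [h9, hγ1, sub_eq_zero]
        have h10 := (rd_OW u k g).1 hg (σ.symm ⟨⟨k, hk⟩, i⟩)
        have h11 : k + u (σ.symm ⟨⟨k, hk⟩, i⟩) = 0 := by
          rw [← h9]
          have h12 : u i0 = -k := hi0
          omega
        rw [h11] at h10
        ext N
        rw [coeff_C]
        split_ifs with hN
        · rw [hN]
        · exact h10 N (by omega)
    · refine ⟨0, fun i _ => rfl, ?_⟩
      have h4 : ∑ i, (0 : ι → A) i • v i = 0 := Finset.sum_eq_zero fun i _ => zero_smul _ _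
      rw [h4, sub_zero, rd_jLp]
      refine ⟨hout k hk a ha, ?_⟩
      rw [rd_jOW u k g hg]
      intro i0 hi0
      refine absurd ?_ hk
      have h9 : -((σ i0).1 : ℤ) = -k := hi0
      have h10 : k = ((σ i0).1 : ℤ) := by omega
      rw [h10]
      exact (σ i0).1.2
  obtain ⟨b, -, hb⟩ := hC A (V × (Fin M → A[X])) (prodL E (OW A u)) ι v κ hPL hPS
    (fun i => ⟨(r i.1 ((e i.1).symm (Pi.single i.2 1)).1).2, hγG i.1 _⟩) hinj hspn
  obtain ⟨N, ⟨τ⟩⟩ := Finite.exists_equiv_fin ι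
  exact ⟨M, N, u, b.reindex τ, _, hb.trans (rd_reindex b τ _)⟩

end Pool.Agent.SLZ
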