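import Pool.Agent.SLZ.StR

/-!
# SLZ, module RE: resolutions of a finite set of lattices
-/

set_option autoImplicit false
set_option linter.unusedVariables false

noncomputable section

namespace Pool.Agent.SLZ

open Polynomial Function

section

variable {A : Type} [CommRing A] {V : Type} [AddCommGroup V] [Module A V] [Module A[X] V]
  [IsScalarTower A A[X] V]

theorem re_mono {E : Lat A V} (hE : IsLat E) : Monotone E := monotone_int_of_le_succ hE.mono

theorem re_ord {E : Lat A V} (hE : IsLat E) {x : V} (hx : x ≠ 0) :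
    ∃ r : ℤ, ∀ k, x ∈ E k ↔ r ≤ k := by
  obtain ⟨k₀, hk₀⟩ := hE.bot
  obtain ⟨k₁, hk₁⟩ := hE.top x
  have hb : ∃ b : ℤ, ∀ z : ℤ, x ∈ E z → b ≤ z := by
    refine ⟨k₀, fun z hz => ?_⟩
    by_contra hc
    have h1 := hk₀ z (by omega)
    rw [h1] at hz
    exact hx ((Submodule.mem_bot A).1 hz)
  obtain ⟨r, hr, hr'⟩ := Int.exists_least_of_bdd hb ⟨k₁, hk₁⟩
  exact ⟨r, fun k => ⟨fun h => hr' k h, fun h => re_mono hE h hr⟩⟩

theorem re_C (c : A) (v : V) : (C c : A[X]) • v = c • v := by
  rw [← algebraMap_smul A[X] c v]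
  rfl

theorem re_pow {E : Lat A V} (hE : IsLat E) {x : V} {j : ℤ} (hx : x ∈ E j) (n : ℕ) :
    (X ^ n : A[X]) • x ∈ E (j + n) := by
  induction n with
  | zero => simpa using hx
  | succ n ih =>
    rw [pow_succ', mul_smul]
    have h := hE.mulX _ _ ih
    have e : j + ((n + 1 : ℕ) : ℤ) = j + n + 1 := by push_cast; ring
    rw [e]
    exact h

theorem re_poly {E : Lat A V} (hE : IsLat E) {x : V} {j k : ℤ} (hx : x ∈ E j) (p : A[X])
    (hp : ∀ n : ℕ, k < j + n → p.coeff n = 0) : p • x ∈ E k := by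
  rw [p.as_sum_support_C_mul_X_pow, Finset.sum_smul]
  refine Submodule.sum_mem _ fun n hn => ?_
  rw [mul_smul, re_C]
  refine Submodule.smul_mem _ _ ?_
  have h1 : j + (n : ℤ) ≤ k := by
    by_contra hc
    exact (mem_support_iff.1 hn) (hp n (by omega))
  exact re_mono hE h1 (re_pow hE hx n)

theorem re_gens {E : Lat A V} (hE : IsLat E) :
    ∃ (S : Set V) (k₁ : ℤ), S.Finite ∧ (∀ x ∈ S, x ≠ 0) ∧
      (∀ k ≤ k₁, E k ≤ Submodule.span A (S ∩ (E k : Set V))) ∧
      (∀ k ≥ k₁, ∀ v ∈ E (k + 1), ∃ a ∈ E k, ∃ b ∈ E k, v = a + (X : A[X]) • b) := by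
  obtain ⟨k₀, hk₀⟩ := hE.bot
  obtain ⟨k₁, hk₁⟩ := hE.gen
  have h : ∀ k, ∃ s : Finset V, Submodule.span A (s : Set V) = E k := fun k => hE.fg k
  choose g hg using h
  refine ⟨(⋃ k ∈ Set.Icc k₀ k₁, (g k : Set V)) \ {0}, k₁, ?_, ?_, ?_, hk₁⟩
  · exact ((Set.finite_Icc k₀ k₁).biUnion fun k _ => (g k).finite_toSet).subset Set.sdiff_subset
  · intro x hx h0
    exact hx.2 h0
  · intro k hk
    by_cases h0 : k ≤ k₀
    · rw [hk₀ k h0]
      exact bot_le
    · rw [← hg k]
      refine Submodule.span_le.2 fun x hx => ?_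
      by_cases hx0 : x = 0
      · rw [hx0]
        exact Submodule.zero_mem _
      · refine Submodule.subset_span ⟨⟨?_, hx0⟩, ?_⟩
        · refine Set.mem_biUnion (x := k) ⟨by omega, hk⟩ hx
        · exact Submodule.subset_span hx

theorem re_OW {M : ℕ} (w : Fin M → ℤ) (k : ℤ) (u : Fin M → A[X]) :
    u ∈ OW A w k ↔ ∀ (i : Fin M) (n : ℕ), k + w i < n → (u i).coeff n = 0 := by
  have h : u ∈ OW A w k ↔ ∀ (i : Fin M) (n : ℕ), k + w i < n →
    (((Pi.basisFun A[X] (Fin M)).repr u) i).coeff n = 0 := Iff.rfl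
  rw [h]
  simp only [Pi.basisFun_repr]

end

theorem thm_RE : St_RE := by
  intro A _ V _ _ _ _ _ 𝓑 hfin hlat
  have h1 : ∀ (B : Lat A V) (x : V), ∃ r : ℤ, IsLat B → x ≠ 0 → ∀ k, x ∈ B k ↔ r ≤ k := by
    intro B x
    by_cases h : IsLat B ∧ x ≠ 0
    · obtain ⟨r, hr⟩ := re_ord h.1 h.2
      exact ⟨r, fun _ _ => hr⟩
    · exact ⟨0, fun a b => absurd ⟨a, b⟩ h⟩
  choose ord hord using h1
  have h2 : ∀ B : Lat A V, ∃ (S : Set V) (k₁ : ℤ), IsLat B → S.Finite ∧ (∀ x ∈ S, x ≠ 0) ∧
      (∀ k ≤ k₁, B k ≤ Submodule.span A (S ∩ (B k : Set V))) ∧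
      (∀ k ≥ k₁, ∀ v ∈ B (k + 1), ∃ a ∈ B k, ∃ b ∈ B k, v = a + (X : A[X]) • b) := by
    intro B
    by_cases h : IsLat B
    · obtain ⟨S, k₁, hS⟩ := re_gens h
      exact ⟨S, k₁, fun _ => hS⟩
    · exact ⟨∅, 0, fun a => absurd a h⟩
  choose S₁ k₁ hS₁ using h2
  obtain ⟨T, hT⟩ : (⊤ : Submodule A[X] V).FG := Module.Finite.fg_top
  set S : Set V := ((T : Set V) \ {0}) ∪ ⋃ B ∈ 𝓑, S₁ B with hSdef
  have hSfin : S.Finite := by
    refine Set.Finite.union ((T.finite_toSet).subset Set.sdiff_subset) ?_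
    exact hfin.biUnion fun B hB => (hS₁ B (hlat B hB)).1
  have hS0 : ∀ x ∈ S, x ≠ 0 := by
    rintro x (hx | hx)
    · exact hx.2
    · obtain ⟨B, hB, hx⟩ := Set.mem_iUnion₂.1 hx
      exact (hS₁ B (hlat B hB)).2.1 x hx
  have hSspan : Submodule.span A[X] S = ⊤ := by
    rw [← top_le_iff, ← hT]
    refine Submodule.span_le.2 fun x hx => ?_
    by_cases hx0 : x = 0
    · rw [hx0]
      exact Submodule.zero_mem _
    · exact Submodule.subset_span (Or.inl ⟨hx, hx0⟩)
  have := hSfin.to_subtype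
  obtain ⟨N, ⟨e⟩⟩ := Finite.exists_equiv_fin S
  set v : Fin N → V := fun i => (e.symm i : V) with hv
  have hv0 : ∀ i, v i ≠ 0 := fun i => hS0 _ (e.symm i).2
  have hvr : Set.range v = S := by
    ext x
    constructor
    · rintro ⟨i, rfl⟩
      exact (e.symm i).2
    · intro hx
      exact ⟨e ⟨x, hx⟩, by simp [hv]⟩
  have hsingle : ∀ (B : Lat A V), IsLat B → ∀ k i, v i ∈ B k →
      (Pi.single i 1 : Fin N → A[X]) ∈ OW A (fun i => - ord B (v i)) k := by
    intro B hB k i hi
    rw [re_OW]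
    intro j n hn
    by_cases hij : j = i
    · subst hij
      rw [Pi.single_eq_same]
      have h3 := (hord B (v j) hB (hv0 j) k).1 hi
      rw [coeff_one, if_neg]
      rintro rfl
      simp only [Nat.cast_zero] at hn
      omega
    · rw [Pi.single_eq_of_ne hij]
      simp
  have hp : ∀ u : Fin N → A[X], Fintype.linearCombination A[X] v u = ∑ i, u i • v i := fun u =>
    Fintype.linearCombination_apply A[X] v u
  refine ⟨N, Fintype.linearCombination A[X] v, fun B i => - ord B (v i), ?_, ?_, ?_⟩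
  · rw [← LinearMap.range_eq_top, Fintype.range_linearCombination, hvr, hSspan]
  · intro B hB
    have hL := hlat B hB
    have hdir : ∀ k, ∀ u ∈ OW A (fun i => - ord B (v i)) k,
        Fintype.linearCombination A[X] v u ∈ B k := by
      intro k u hu
      rw [re_OW] at hu
      rw [hp]
      refine Submodule.sum_mem _ fun i _ => ?_
      refine re_poly hL ((hord B (v i) hL (hv0 i) (ord B (v i))).2 le_rfl) _ fun n hn => ?_
      exact hu i n (by omega)
    have hgen := (hS₁ B hL).2.2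
    have hlow : ∀ k ≤ k₁ B, ∀ x ∈ B k, ∃ u ∈ OW A (fun i => - ord B (v i)) k,
        Fintype.linearCombination A[X] v u = x := by
      intro k hk x hx
      have h3 := hgen.1 k hk hx
      have h4 : Submodule.span A (S₁ B ∩ (B k : Set V)) ≤
          (OW A (fun i => - ord B (v i)) k).map
            ((Fintype.linearCombination A[X] v).restrictScalars A) := by
        refine Submodule.span_le.2 ?_
        rintro y ⟨hy, hy'⟩
        have hyS : y ∈ Set.range v := by
          rw [hvr]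
          exact Or.inr (Set.mem_biUnion hB hy)
        obtain ⟨i, rfl⟩ := hyS
        refine ⟨Pi.single i 1, hsingle B hL k i hy', ?_⟩
        show Fintype.linearCombination A[X] v (Pi.single i 1) = v i
        rw [hp, Finset.sum_eq_single i]
        · simp
        · intro j _ hj
          rw [Pi.single_eq_of_ne hj, zero_smul]
        · intro h
          exact absurd (Finset.mem_univ i) h
      obtain ⟨u, hu, hux⟩ := h4 h3
      exact ⟨u, hu, hux⟩
    have hhigh : ∀ n : ℕ, ∀ x ∈ B (k₁ B + n), ∃ u ∈ OW A (fun i => - ord B (v i)) (k₁ B + n),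
        Fintype.linearCombination A[X] v u = x := by
      intro n
      induction n with
      | zero =>
        intro x hx
        exact hlow _ (by simp) x hx
      | succ n ih =>
        intro x hx
        have e1 : k₁ B + ((n + 1 : ℕ) : ℤ) = k₁ B + n + 1 := by push_cast; ring
        rw [e1] at hx ⊢
        obtain ⟨a, ha, b, hb, rfl⟩ := hgen.2 (k₁ B + n) (by omega) x hx
        obtain ⟨u, hu, rfl⟩ := ih a ha
        obtain ⟨w, hw, rfl⟩ := ih b hb
        refine ⟨u + (X : A[X]) • w, ?_, ?_⟩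
        · rw [re_OW] at hu hw ⊢
          intro i m hm
          rw [Pi.add_apply, Pi.smul_apply, coeff_add, smul_eq_mul, hu i m (by omega), zero_add]
          cases m with
          | zero => simp
          | succ m =>
            rw [coeff_X_mul]
            exact hw i m (by push_cast at hm; omega)
        · rw [map_add, map_smul]
    intro k x
    constructor
    · intro hx
      rcases le_total k (k₁ B) with h | h
      · exact hlow k h x hx
      · obtain ⟨n, hn⟩ := Int.eq_ofNat_of_zero_le (sub_nonneg.2 h)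
        have e1 : k = k₁ B + n := by omega
        rw [e1] at hx ⊢
        exact hhigh n x hx
    · rintro ⟨u, hu, rfl⟩
      exact hdir k u hu
  · intro B hB B' hB' hLR i
    have hL := hlat B hB
    have hL' := hlat B' hB'
    have h3 : v i ∈ B (ord B (v i)) := (hord B (v i) hL (hv0 i) _).2 le_rfl
    have h4 : v i ∈ B' (ord B' (v i)) := (hord B' (v i) hL' (hv0 i) _).2 le_rfl
    have h5 := (hord B' (v i) hL' (hv0 i) _).1 (hLR.1 _ h3)
    have h6 := (hord B (v i) hL (hv0 i) _).1 (hLR.2 _ h4)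
    exact ⟨by simp only; omega, by simp only; omega⟩

end Pool.Agent.SLZ
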