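import Pool.Agent.SLZ.StR2

/-!
# SLZ, RG: additivity for families of bundles (helper59)
-/

set_option autoImplicit false
set_option linter.unusedVariables false
set_option linter.unusedSectionVars false

noncomputable section

namespace Pool.Agent.SLZ

open Polynomial Function

section

variable {A : Type} [CommRing A] {V₀ : Type} [AddCommGroup V₀] [Module A V₀] [Module A[X] V₀]
  [IsScalarTower A A[X] V₀] {W : Type} [AddCommGroup W] [Module A W] [Module A[X] W]
  [IsScalarTower A A[X] W] {V : Type} [AddCommGroup V] [Module A V] [Module A[X] V]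
  [IsScalarTower A A[X] V]

/-- the part of a lattice in the kernel -/
def rg_kw (p : W →ₗ[A[X]] V) (E : Lat A W) : Lat A W := fun k =>
  E k ⊓ LinearMap.ker (p.restrictScalars A)

theorem rg_mem_kw (p : W →ₗ[A[X]] V) (E : Lat A W) (k : ℤ) (w : W) :
    w ∈ rg_kw p E k ↔ w ∈ E k ∧ p w = 0 := Iff.rfl

/-- the preorder of labels -/
def rg_le (y : Lat A V₀) (b : ℤ) (y' : Lat A V₀) (a : ℤ) : Prop := b < a ∨ (b = a ∧ y ≤ y')

theorem rg_le_trans {y₁ y₂ y₃ : Lat A V₀} {b₁ b₂ b₃ : ℤ} (h1 : rg_le y₁ b₁ y₂ b₂)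
    (h2 : rg_le y₂ b₂ y₃ b₃) : rg_le y₁ b₁ y₃ b₃ := by
  rcases h1 with h1 | ⟨h1, h1'⟩
  · rcases h2 with h2 | ⟨h2, h2'⟩
    · exact Or.inl (h1.trans h2)
    · exact Or.inl (h2 ▸ h1)
  · rcases h2 with h2 | ⟨h2, h2'⟩
    · exact Or.inl (h1 ▸ h2)
    · exact Or.inr ⟨h1.trans h2, h1'.trans h2'⟩

theorem rg_le_total {y₁ y₂ : Lat A V₀} (h : adjL y₁ y₂) (b₁ b₂ : ℤ) :
    rg_le y₁ b₁ y₂ b₂ ∨ rg_le y₂ b₂ y₁ b₁ := by
  rcases lt_trichotomy b₁ b₂ with h1 | h1 | h1
  · exact Or.inl (Or.inl h1)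
  · rcases h with h | h
    · exact Or.inl (Or.inr ⟨h1, h.1⟩)
    · exact Or.inr (Or.inr ⟨h1.symm, h.1⟩)
  · exact Or.inr (Or.inl h1)

theorem rg_le_shift {y₁ y₂ : Lat A V₀} {b₁ b₂ : ℤ} (h : rg_le y₁ b₁ y₂ b₂) (k : ℤ) :
    rg_le y₁ (b₁ + k) y₂ (b₂ + k) := by
  rcases h with h | ⟨h, h'⟩
  · exact Or.inl (by linarith)
  · exact Or.inr ⟨by rw [h], h'⟩

theorem rg_mono (hB2 : St_RB2) {Y : Set (Lat A V₀)} {f : Lat A V₀ → Lat A V} (hf : Adm Y f)
    {y y' : Lat A V₀} (hy : y ∈ Y) (hy' : y' ∈ Y) (hadj : adjL y y') {b a : ℤ}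
    (h : rg_le y b y' a) : shL (f y) b ≤ shL (f y') a := by
  obtain ⟨-, -, c3, c4, c5⟩ := hB2 A V V
  have hF := hf.1 y hy
  have hF' := hf.1 y' hy'
  have hadj' : adjL (f y) (f y') := by
    rcases hadj with h1 | h1
    · exact Or.inl (hf.2 y hy y' hy' h1)
    · exact Or.inr (hf.2 y' hy' y hy h1)
  rcases h with h | ⟨rfl, h⟩
  · exact (c5 (f y) (f y') b a hF.1 hF'.1 hadj').1 h
  · have h2 : f y ≤ f y' := by
      rcases hadj with h1 | h1
      · exact (hf.2 y hy y' hy' h1).1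
      · have h3 : y = y' := le_antisymm h h1.1
        rw [h3]
    exact (c3 (f y) (f y') b 0).2.2.2 h2

end

theorem thm_RG (hB1 : St_RB1) (hB2 : St_RB2) (hX : St_RX) (hB3 : St_RB3) (hA4 : St_RA4)
    (hA5 : St_RA5) (hG0 : St_RG0) : St_RG := by
  classical
  intro A _ _ V₀ _ _ _ _ W _ _ _ _ V _ _ _ _ Y hY p s hs P B hP hB hPB
  have hsurj : Function.Surjective p := fun v => ⟨s v, hs v⟩
  -- the exact sequences
  have hSES : ∀ y ∈ Y, SES (LinearMap.ker p).subtype p (kerL p (P y)) (P y) (B y) := fun y hy =>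
    { inj := Subtype.coe_injective
      surj := hsurj
      ex := Submodule.range_subtype _
      ker := fun k u => Iff.rfl
      im := hPB y hy }
  have hK0 : ∀ y ∈ Y, FL 0 (kerL p (P y)) := fun y hy =>
    (hX A (LinearMap.ker p) W V _ _ _ _ _ (hSES y hy)).2.2.2.2.2.2.2 (hP.1 y hy) (hB.1 y hy)
  have hK : Adm Y (fun y => kerL p (P y)) := by
    refine ⟨hK0, fun x hx y hy hxy => ?_⟩
    have h1 := hP.2 x hx y hy hxy
    exact ⟨fun k u hu => h1.1 k hu, fun k u hu => h1.2 k hu⟩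
  refine ⟨hK, ?_⟩
  obtain ⟨-, bW2, -, bW4, -, -, bW7⟩ := hB1 A W W
  obtain ⟨-, bU2, -, -, -, -, -⟩ := hB1 A (LinearMap.ker p × V) W
  obtain ⟨-, -, -, -, bP5, -, -⟩ := hB1 A (LinearMap.ker p) V
  obtain ⟨bK1, -, -, -, -, -, -⟩ := hB1 A (LinearMap.ker p) V
  obtain ⟨bV1, -, -, -, -, -, -⟩ := hB1 A V V
  obtain ⟨-, -, cW3, -, -⟩ := hB2 A W W
  let φ := secE p s hs
  have hφ : ∀ q, φ q = (q.1 : W) + s q.2 := fun q => rfl
  have hPlat : ∀ y ∈ Y, IsLat (P y) := fun y hy => (hP.1 y hy).1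
  -- the number e
  have hbd : ∀ S : Set (Lat A V₀), S.Finite → S ⊆ Y →
      ∃ e : ℕ, ∀ y ∈ S, mapL φ (prodL (kerL p (P y)) (B y)) ≤ shL (P y) e := by
    intro S hS
    refine Set.Finite.induction_on (motive := fun S _ => S ⊆ Y →
      ∃ e : ℕ, ∀ y ∈ S, mapL φ (prodL (kerL p (P y)) (B y)) ≤ shL (P y) e) S hS ?_ ?_
    · intro _
      exact ⟨0, fun G hG => absurd hG (Set.notMem_empty G)⟩
    · intro y S _ _ ih hSY
      obtain ⟨e, he⟩ := ih fun G' hG' => hSY (Set.mem_insert_of_mem _ hG')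
      have hy := hSY (Set.mem_insert y S)
      have hS1 : IsLat (mapL φ (prodL (kerL p (P y)) (B y))) :=
        (bU2 _ φ).1 ((bP5 _ _).1 (hK0 y hy).1 (hB.1 y hy).1)
      obtain ⟨e', he'0, he'⟩ := bW4 _ (P y) hS1 (hPlat y hy)
      refine ⟨max e e'.toNat, fun G' hG' => ?_⟩
      rcases Set.mem_insert_iff.1 hG' with rfl | hG'
      · refine he'.trans ((bW7 _ (hPlat _ hy)).2.2.1 _ _ ?_)
        have : e' = (e'.toNat : ℤ) := (Int.toNat_of_nonneg he'0).symm
        push_cast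
        exact le_max_of_le_right this.le
      · refine (he G' hG').trans ((bW7 _ (hPlat _ (hSY (Set.mem_insert_of_mem _ hG')))).2.2.1 _ _ ?_)
        push_cast
        exact le_max_left _ _
  obtain ⟨e, he⟩ := hbd Y hY subset_rfl
  -- sections
  have hsec : ∀ y ∈ Y, ∀ k, ∀ b ∈ B y k, s b ∈ P y (k + e) := by
    intro y hy k b hb
    have h1 := he y hy k
    have h2 : s b ∈ mapL φ (prodL (kerL p (P y)) (B y)) k := by
      refine ⟨(0, b), ⟨Submodule.zero_mem _, hb⟩, ?_⟩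
      change ((0 : LinearMap.ker p) : W) + s b = s b
      rw [Submodule.coe_zero, zero_add]
    exact h1 h2
  have hmono : ∀ y ∈ Y, ∀ j k : ℤ, j ≤ k → P y j ≤ P y k := fun y hy =>
    (bW7 _ (hPlat y hy)).2.1
  let Q : Lat A V₀ → Lat A W := fun y => P y ⊔ shL (rg_kw p (P y)) e
  have hQ : ∀ y ∈ Y, Q y = mapL φ (prodL (shL (kerL p (P y)) e) (B y)) := by
    intro y hy
    apply le_antisymm
    · refine sup_le (fun k w hw => ?_) (fun k w hw => ?_)
      · have hpw : p w ∈ B y k := (hPB y hy k _).2 ⟨w, hw, rfl⟩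
        have h1 : p (w - s (p w)) = 0 := by rw [map_sub, hs, sub_self]
        refine ⟨(⟨w - s (p w), h1⟩, p w), ⟨?_, hpw⟩, ?_⟩
        · change w - s (p w) ∈ P y (k + e)
          refine Submodule.sub_mem _ (hmono y hy k (k + e) (by linarith [Int.natCast_nonneg e]) hw) (hsec y hy k _ hpw)
        · change w - s (p w) + s (p w) = w
          abel
      · have h1 := (rg_mem_kw p (P y) (k + e) w).1 hw
        refine ⟨(⟨w, h1.2⟩, 0), ⟨h1.1, Submodule.zero_mem _⟩, ?_⟩
        change w + s 0 = w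
        rw [map_zero, add_zero]
    · rintro k _ ⟨⟨u, b⟩, ⟨hu, hb⟩, rfl⟩
      change (u : W) + s b ∈ P y k ⊔ rg_kw p (P y) (k + e)
      obtain ⟨w, hw, hwb⟩ := (hPB y hy k b).1 hb
      have h1 : (u : W) + (s b - w) ∈ rg_kw p (P y) (k + e) := by
        rw [rg_mem_kw]
        refine ⟨Submodule.add_mem _ hu (Submodule.sub_mem _ (hsec y hy k b hb)
          (hmono y hy k (k + e) (by linarith [Int.natCast_nonneg e]) hw)), ?_⟩
        have h2 : p (u : W) = 0 := u.2
        rw [map_add, map_sub, hs, h2, hwb, sub_self, add_zero]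
      have h3 : (u : W) + s b = w + ((u : W) + (s b - w)) := by abel
      rw [h3]
      exact Submodule.add_mem_sup hw h1
  -- Q is admissible
  have hKe : Adm Y (fun y => shL (kerL p (P y)) e) ∧
      Hty Y (fun y => kerL p (P y)) fun y => shL (kerL p (P y)) e :=
    (hG0 A V₀ (LinearMap.ker p) Y).1 _ e hK
  have hQ' : Adm Y (fun y => mapL φ (prodL (shL (kerL p (P y)) e) (B y))) :=
    (hA4 A V₀ (LinearMap.ker p × V) W Y).2.2.2.2.2.2.2.1 _ φ
      ((hA4 A V₀ (LinearMap.ker p) V Y).2.2.2.2.2.2.1 _ _ hKe.1 hB)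
  have hQadm : Adm Y Q := by
    refine ⟨fun y hy => ?_, fun x hx y hy hxy => ?_⟩
    · rw [hQ y hy]
      exact hQ'.1 y hy
    · rw [hQ x hx, hQ y hy]
      exact hQ'.2 x hx y hy hxy
  -- monotonicity of the parts in the kernel
  have hkw : ∀ y ∈ Y, ∀ y' ∈ Y, adjL y y' → ∀ b a : ℤ, rg_le y b y' a →
      shL (rg_kw p (P y)) b ≤ shL (rg_kw p (P y')) a := by
    intro y hy y' hy' hadj b a h k w hw
    have h1 := rg_mono hB2 hK hy hy' hadj h
    obtain ⟨h2, h3⟩ := (rg_mem_kw p (P y) (k + b) w).1 hw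
    have h4 : (⟨w, h3⟩ : LinearMap.ker p) ∈ shL (kerL p (P y)) b k := h2
    exact (rg_mem_kw p (P y') (k + a) w).2 ⟨h1 k h4, h3⟩
  -- step b
  have hstepb : Hty Y P Q := by
    refine (hA5 A V₀ W Y P Q hP hQadm).1 (fun l => {G | ∃ y ∈ l, ∃ y' ∈ l, ∃ b a : ℤ,
      rg_le y b y' a ∧ G = shL (P y) b ⊔ shL (rg_kw p (P y')) a}) ?_ ?_ ?_ ?_
    · rintro l hl G ⟨y, hyl, y', hyl', b, a, hle, rfl⟩
      have hy := (hl y hyl).1
      have hy' := (hl y' hyl').1
      have hadj := (hl y hyl).2 y' hyl'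
      have hS : SES (LinearMap.ker p).subtype p (shL (kerL p (P y')) a)
          (shL (P y) b ⊔ shL (rg_kw p (P y')) a) (shL (B y) b) :=
        { inj := Subtype.coe_injective
          surj := hsurj
          ex := Submodule.range_subtype _
          ker := fun k u => by
            constructor
            · intro hu
              have h1 : (u : W) ∈ rg_kw p (P y') (k + a) := (rg_mem_kw p (P y') (k + a) _).2 ⟨hu, u.2⟩
              exact Submodule.mem_sup_right h1
            · intro hu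
              obtain ⟨w, hw, v, hv, hwv⟩ := Submodule.mem_sup.1 hu
              have h1 := (rg_mem_kw p (P y') (k + a) v).1 hv
              have h2 : p w = 0 := by
                have h3 : p (u : W) = 0 := u.2
                have h4 : p w + p v = p (u : W) := by rw [← map_add, hwv]; rfl
                rw [h3, h1.2, add_zero] at h4
                exact h4
              have h5 : w ∈ shL (rg_kw p (P y)) b k := (rg_mem_kw p (P y) (k + b) w).2 ⟨hw, h2⟩
              have h6 := hkw y hy y' hy' hadj b a hle k h5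
              have h7 := (rg_mem_kw p (P y') (k + a) w).1 h6
              have h8 : w + v ∈ P y' (k + a) := Submodule.add_mem _ h7.1 h1.1
              rw [hwv] at h8
              exact h8
          im := fun k v => by
            constructor
            · intro hv
              obtain ⟨w, hw, hwv⟩ := (hPB y hy (k + b) v).1 hv
              exact ⟨w, Submodule.mem_sup_left hw, hwv⟩
            · rintro ⟨w', hw', rfl⟩
              obtain ⟨w, hw, v, hv, rfl⟩ := Submodule.mem_sup.1 hw'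
              have h1 := (rg_mem_kw p (P y') (k + a) v).1 hv
              rw [map_add, h1.2, add_zero]
              exact (hPB y hy (k + b) _).2 ⟨w, hw, rfl⟩ }
      refine (hX A (LinearMap.ker p) W V _ _ _ _ _ hS).2.2.2.2.2.1 0
        ((bK1 _ a).2.2 0 (hK0 y' hy')) ((bV1 _ b).2.2 0 (hB.1 y hy)) ?_ ?_
      · intro k
        refine sup_le_sup ?_ ?_
        · exact hmono y hy _ _ (by linarith)
        · intro w hw
          have h1 := (rg_mem_kw p (P y') (k + a) w).1 hw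
          exact (rg_mem_kw p (P y') (k + 1 + a) w).2 ⟨hmono y' hy' _ _ (by linarith) h1.1, h1.2⟩
      · intro k v hv
        obtain ⟨w, hw, u, hu, rfl⟩ := Submodule.mem_sup.1 hv
        rw [smul_add]
        refine Submodule.add_mem_sup ?_ ?_
        · have h1 := (hPlat y hy).mulX (k + b) w hw
          have h2 : k + b + 1 = k + 1 + b := by ring
          rw [h2] at h1
          exact h1
        · have h3 := (rg_mem_kw p (P y') (k + a) u).1 hu
          have h1 := (hPlat y' hy').mulX (k + a) u h3.1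
          have h2 : k + a + 1 = k + 1 + a := by ring
          rw [h2] at h1
          exact (rg_mem_kw p (P y') (k + 1 + a) _).2 ⟨h1, by rw [map_smul, h3.2, smul_zero]⟩
    · rintro l hl l' hl' G ⟨y, hyl, y', hyl', b, a, hle, rfl⟩
      exact ⟨y, hl' hyl, y', hl' hyl', b, a, hle, rfl⟩
    · intro l hl y hyl
      constructor
      · refine ⟨y, hyl, y, hyl, 0, 0, Or.inr ⟨rfl, le_rfl⟩, ?_⟩
        rw [(cW3 (P y) (P y) 0 0).2.2.1, (cW3 (rg_kw p (P y)) (P y) 0 0).2.2.1]
        exact (sup_eq_left.2 fun k w hw => ((rg_mem_kw p (P y) k w).1 hw).1).symm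
      · refine ⟨y, hyl, y, hyl, 0, e, ?_, ?_⟩
        · rcases Nat.eq_zero_or_pos e with h | h
          · exact Or.inr ⟨by rw [h]; rfl, le_rfl⟩
          · exact Or.inl (by exact_mod_cast h)
        · rw [(cW3 (P y) (P y) 0 0).2.2.1]
    · rintro l hl G ⟨y, hyl, y', hyl', b, a, hle, rfl⟩ H ⟨x, hxl, x', hxl', d, c, hle', rfl⟩ k hk
      have hshift : ∀ k : ℤ, shL (shL (P x) d ⊔ shL (rg_kw p (P x')) c) k =
          shL (P x) (d + k) ⊔ shL (rg_kw p (P x')) (c + k) := by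
        intro k
        rw [(cW3 (shL (P x) d) (shL (rg_kw p (P x')) c) k 0).1, (cW3 (P x) (P x) d k).2.1,
          (cW3 (rg_kw p (P x')) (P x) c k).2.1]
      refine ⟨⟨x, hxl, x', hxl', d + k, c + k, rg_le_shift hle' k, hshift k⟩, ?_⟩
      rw [hshift (-k)]
      have hle2 := rg_le_shift hle' (-k)
      generalize d + -k = d' at hle2 ⊢
      generalize c + -k = c' at hle2 ⊢
      -- larger of the P parts
      have h1 : ∃ z ∈ l, ∃ t : ℤ, shL (P y) b ⊔ shL (P x) d' = shL (P z) t ∧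
          ∀ (z' : Lat A V₀) (t' : ℤ), (rg_le y b z' t' → rg_le x d' z' t' → rg_le z t z' t') := by
        rcases rg_le_total ((hl y hyl).2 x hxl) b d' with h | h
        · exact ⟨x, hxl, d', sup_eq_right.2 (rg_mono hB2 hP (hl y hyl).1 (hl x hxl).1
            ((hl y hyl).2 x hxl) h), fun _ _ _ h => h⟩
        · exact ⟨y, hyl, b, sup_eq_left.2 (rg_mono hB2 hP (hl x hxl).1 (hl y hyl).1
            ((hl x hxl).2 y hyl) h), fun _ _ h _ => h⟩
      have h2 : ∃ z ∈ l, ∃ t : ℤ, shL (rg_kw p (P y')) a ⊔ shL (rg_kw p (P x')) c' =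
          shL (rg_kw p (P z)) t ∧ rg_le y' a z t ∧ rg_le x' c' z t := by
        rcases rg_le_total ((hl y' hyl').2 x' hxl') a c' with h | h
        · exact ⟨x', hxl', c', sup_eq_right.2 (hkw _ (hl y' hyl').1 _ (hl x' hxl').1
            ((hl y' hyl').2 x' hxl') _ _ h), h, Or.inr ⟨rfl, le_rfl⟩⟩
        · exact ⟨y', hyl', a, sup_eq_left.2 (hkw _ (hl x' hxl').1 _ (hl y' hyl').1
            ((hl x' hxl').2 y' hyl') _ _ h), Or.inr ⟨rfl, le_rfl⟩, h⟩
      obtain ⟨z, hzl, t, hz1, hz2⟩ := h1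
      obtain ⟨z', hzl', t', hz1', hz2', hz3'⟩ := h2
      refine ⟨z, hzl, z', hzl', t, t', hz2 z' t' (rg_le_trans hle hz2') (rg_le_trans hle2 hz3'), ?_⟩
      rw [← hz1, ← hz1', sup_sup_sup_comm]
  -- step c
  have hstepc : Hty Y Q fun y => mapL φ (prodL (kerL p (P y)) (B y)) := by
    have h1 := (hA4 A V₀ (LinearMap.ker p) V Y).2.1 _ _ hKe.2
    have h2 := (hA4 A V₀ (LinearMap.ker p) V Y).2.2.2.1 _ _ B hB h1
    have h3 := (hA4 A V₀ (LinearMap.ker p × V) W Y).2.2.2.2.1 _ _ φ h2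
    exact (hA4 A V₀ W W Y).2.2.2.2.2.1 _ _ _ _ (fun y hy => (hQ y hy).symm) (fun y hy => rfl) h3
  exact (hA4 A V₀ W W Y).2.2.1 _ _ _ hstepb hstepc

end Pool.Agent.SLZ
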