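import Pool.Agent.SLZ.StR2

/-!
# SLZ, RG0: homotopies, shifts and families of sums of `O(w)` (helper59)
-/

set_option autoImplicit false
set_option linter.unusedVariables false

noncomputable section

namespace Pool.Agent.SLZ

open Polynomial Function

theorem thm_RG0 (hA5 : St_RA5) (hB1 : St_RB1) (hB2 : St_RB2) (hB3 : St_RB3) : St_RG0 := by
  classical
  intro A _ _ V₀ _ _ _ _ V _ _ _ _ Y
  constructor
  · intro f e hf
    obtain ⟨b1, -, -, -, -, -, -⟩ := hB1 A V V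
    obtain ⟨c1, -, c3, -, c5⟩ := hB2 A V V
    have hfe : Adm Y (fun y => shL (f y) e) :=
      ⟨fun y hy => (b1 (f y) e).2.2 0 (hf.1 y hy), fun x hx y hy hxy =>
        (c1 (f x) (f y) (LinearEquiv.refl _ _) e).2.2.1 (hf.2 x hx y hy hxy)⟩
    refine ⟨hfe, (hA5 A V₀ V Y f _ hf hfe).1 (fun l => {G | ∃ y ∈ l, ∃ a : ℤ, G = shL (f y) a})
      ?_ ?_ ?_ ?_⟩
    · rintro l hl G ⟨y, hy, a, rfl⟩
      exact (b1 (f y) a).2.2 0 (hf.1 y (hl y hy).1)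
    · rintro l hl l' hl' G ⟨y, hy, a, rfl⟩
      exact ⟨y, hl' hy, a, rfl⟩
    · intro l hl y hy
      exact ⟨⟨y, hy, 0, (c3 (f y) (f y) 0 0).2.2.1.symm⟩, ⟨y, hy, e, rfl⟩⟩
    · rintro l hl G ⟨y, hy, a, rfl⟩ H ⟨x, hx, b, rfl⟩ k hk
      refine ⟨⟨x, hx, b + k, (c3 (f x) (f x) b k).2.1⟩, ?_⟩
      rw [(c3 (f x) (f x) b (-k)).2.1]
      have hadj : adjL (f y) (f x) := by
        rcases (hl y hy).2 x hx with h | h
        · exact Or.inl (hf.2 y (hl y hy).1 x (hl x hx).1 h)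
        · exact Or.inr (hf.2 x (hl x hx).1 y (hl y hy).1 h)
      rcases (c5 (f y) (f x) a (b + -k) (hf.1 y (hl y hy).1).1 (hf.1 x (hl x hx).1).1 hadj).2 with h | h
      · exact ⟨x, hx, b + -k, sup_eq_right.2 h⟩
      · exact ⟨y, hy, a, sup_eq_left.2 h⟩
  · intro N o o' ho ho'
    have hb := (hB3 A (Fin N → A[X]) V).2.2 (Fin N) (Pi.basisFun A[X] (Fin N))
    refine (hA5 A V₀ (Fin N → A[X]) Y _ _ ho ho').1 (fun l => {G | ∃ w : Fin N → ℤ, G = OW A w})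
      ?_ ?_ ?_ ?_
    · rintro l hl G ⟨w, rfl⟩
      exact (hb w w).1
    · rintro l hl l' hl' G ⟨w, rfl⟩
      exact ⟨w, rfl⟩
    · intro l hl y hy
      exact ⟨⟨_, rfl⟩, ⟨_, rfl⟩⟩
    · rintro l hl G ⟨w, rfl⟩ H ⟨w', rfl⟩ k hk
      refine ⟨⟨fun i => w' i + k, (hb w' w').2.2.2.2.2 k⟩,
        ⟨fun i => max (w i) (w' i + -k), ?_⟩⟩
      have h1 : shL (OW A w') (-k) = OW A fun i => w' i + -k := (hb w' w').2.2.2.2.2 (-k)
      rw [h1]
      exact (hb w _).2.2.2.2.1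

end Pool.Agent.SLZ
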