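import Pool.Agent.SLZ.StR2

/-!
# SLZ, RH: families of lattices of finite type (helper59)
-/

set_option autoImplicit false
set_option linter.unusedVariables false

noncomputable section

namespace Pool.Agent.SLZ

open Polynomial Function

theorem rh_mono (A : Type) [CommRing A] (P Q : ∀ (V : Type) [AddCommGroup V] [Module A V]
    [Module A[X] V] [IsScalarTower A A[X] V], Lat A V → Prop)
    (h : ∀ (V : Type) [AddCommGroup V] [Module A V] [Module A[X] V] [IsScalarTower A A[X] V]
      (E : Lat A V), Q V E → P V E) (hP : StH A P) : StH A Q := by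
  intro V₀ _ _ _ _ V _ _ _ _ _ _ Y hY M f hf h0 hM hLR hLR'
  exact hP V₀ V Y hY M f (fun l hl y hy => h V (f l y) (hf l hl y hy)) h0 hM hLR hLR'

theorem rh_ses {A : Type} [CommRing A] {W : Type} [AddCommGroup W] [Module A W] [Module A[X] W]
    [IsScalarTower A A[X] W] {V : Type} [AddCommGroup V] [Module A V] [Module A[X] V]
    [IsScalarTower A A[X] V] (p : W →ₗ[A[X]] V) (hp : Surjective p) (P : Lat A W) (B : Lat A V)
    (h : ∀ k v, v ∈ B k ↔ ∃ w ∈ P k, p w = v) :
    SES (LinearMap.ker p).subtype p (kerL p P) P B :=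
  { inj := Subtype.coe_injective
    surj := hp
    ex := Submodule.range_subtype _
    ker := fun k u => Iff.rfl
    im := h }

theorem thm_RH (hX : St_RX) (hB3 : St_RB3) (hH0 : St_RH0) (hH1 : St_RH1) : St_RH := by
  classical
  intro A _ _ D hD
  have h1 : ∀ d : ℕ, StH A fun V _ _ _ _ E => FL d E := by
    intro d
    induction d with
    | zero => exact hH0 A
    | succ d ih =>
      refine rh_mono A _ _ ?_ (hH1 A d ih)
      intro V _ _ _ _ E hE
      refine ⟨hE.1, fun N p w hp hpw => ?_⟩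
      exact (hX A (LinearMap.ker p) (Fin N → A[X]) V _ _ _ _ _ (rh_ses p hp _ _ hpw)).2.2.2.2.2.2.1 d
        (((hB3 A (Fin N → A[X]) V).2.2 (Fin N) (Pi.basisFun A[X] (Fin N)) w w).1) hE
  refine rh_mono A _ _ ?_ (hH1 A D (h1 D))
  intro V _ _ _ _ E hE
  refine ⟨hE, fun N p w hp hpw => ?_⟩
  have hW : FL 0 (OW A w) := ((hB3 A (Fin N → A[X]) V).2.2 (Fin N) (Pi.basisFun A[X] (Fin N)) w w).1
  have h2 := hX A (LinearMap.ker p) (Fin N → A[X]) V _ _ _ _ _ (rh_ses p hp _ _ hpw)
  have h3 : IsLat (kerL p (OW A w)) := (h2.1 hW.1).1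
  refine ⟨h3, h2.2.2.1 hW.2.1, fun k => ?_⟩
  have h4 : Module.Finite A (kerL p (OW A w) k) := Module.Finite.iff_fg.2 (h3.fg k)
  exact hD _ inferInstance

end Pool.Agent.SLZ
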