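import Pool.Agent.SLZ.StR2

/-!
# SLZ, module RH1: the induction step over the length of resolutions (helper45)
-/

set_option autoImplicit false
set_option linter.unusedVariables false

noncomputable section

namespace Pool.Agent.SLZ

open Polynomial Function

section RH1

variable {A : Type} [CommRing A]
  {U : Type} [AddCommGroup U] [Module A U] [Module A[X] U] [IsScalarTower A A[X] U]
  {V : Type} [AddCommGroup V] [Module A V] [Module A[X] V] [IsScalarTower A A[X] V]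
  {W : Type} [AddCommGroup W] [Module A W] [Module A[X] W] [IsScalarTower A A[X] W]

/-- permutation of summands -/
def rh1_p1 : ((U × V) × W) ≃ₗ[A[X]] ((U × W) × V) where
  toFun x := ((x.1.1, x.2), x.1.2)
  map_add' x y := rfl
  map_smul' c x := rfl
  invFun x := ((x.1.1, x.2), x.1.2)
  left_inv x := rfl
  right_inv x := rfl

/-- permutation of summands -/
def rh1_p2 : (((U × W) × V) × V) ≃ₗ[A[X]] (((U × V) × W) × V) where
  toFun x := (((x.1.1.1, x.2), x.1.1.2), x.1.2)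
  map_add' x y := rfl
  map_smul' c x := rfl
  invFun x := (((x.1.1.1, x.1.2), x.2), x.1.1.2)
  left_inv x := rfl
  right_inv x := rfl

/-- permutation of summands -/
def rh1_p3 : (U × V) ≃ₗ[A[X]] (V × U) where
  toFun x := (x.2, x.1)
  map_add' x y := rfl
  map_smul' c x := rfl
  invFun x := (x.2, x.1)
  left_inv x := rfl
  right_inv x := rfl

theorem rh1_p1_map (a : Lat A U) (b : Lat A V) (c : Lat A W) :
    mapL rh1_p1 (prodL (prodL a b) c) = prodL (prodL a c) b := by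
  funext k
  ext x
  constructor
  · rintro ⟨⟨⟨u, v⟩, w⟩, ⟨⟨h1, h2⟩, h3⟩, rfl⟩
    exact ⟨⟨h1, h3⟩, h2⟩
  · rintro ⟨⟨h1, h3⟩, h2⟩
    exact ⟨((x.1.1, x.2), x.1.2), ⟨⟨h1, h2⟩, h3⟩, rfl⟩

theorem rh1_p2_map (a : Lat A U) (b : Lat A W) (c d : Lat A V) :
    mapL rh1_p2 (prodL (prodL (prodL a b) c) d) = prodL (prodL (prodL a d) b) c := by
  funext k
  ext x
  constructor
  · rintro ⟨⟨⟨⟨u, w⟩, v⟩, v'⟩, ⟨⟨⟨h1, h2⟩, h3⟩, h4⟩, rfl⟩
    exact ⟨⟨⟨h1, h4⟩, h2⟩, h3⟩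
  · rintro ⟨⟨⟨h1, h4⟩, h2⟩, h3⟩
    exact ⟨(((x.1.1.1, x.1.2), x.2), x.1.1.2), ⟨⟨⟨h1, h2⟩, h3⟩, h4⟩, rfl⟩

theorem rh1_p3_map (a : Lat A U) (b : Lat A V) :
    mapL rh1_p3 (prodL a b) = prodL b a := by
  funext k
  ext x
  constructor
  · rintro ⟨⟨u, v⟩, ⟨h1, h2⟩, rfl⟩
    exact ⟨h2, h1⟩
  · rintro ⟨h1, h2⟩
    exact ⟨(x.2, x.1), ⟨h2, h1⟩, rfl⟩

theorem rh1_kerL_LR (p : W →ₗ[A[X]] V) (E F : Lat A W) (h : LR E F) :
    LR (kerL p E) (kerL p F) := by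
  refine ⟨fun k u hu => h.1 k hu, fun k u hu => h.2 k hu⟩

end RH1

theorem thm_RH1 (hRB1 : St_RB1) (hRB2 : St_RB2) (hRB3 : St_RB3) (hRX : St_RX) (hRA4 : St_RA4)
    (hRE : St_RE) (hRG0 : St_RG0) (hRG : St_RG) : St_RH1 := by
  classical
  intro A _ _ d hStH V₀ _ _ _ _ V _ _ _ _ _ _ Y hY M f hf hA0 hAM hLR1 hLR2
  -- the finite set
  obtain ⟨𝓑, h𝓑⟩ : ∃ 𝓑 : Set (Lat A V), 𝓑 = {E | ∃ l ≤ M, ∃ y ∈ Y, E = f l y} := ⟨_, rfl⟩
  have h𝓑f : 𝓑.Finite := by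
    have h1 : 𝓑 ⊆ ⋃ l ∈ Set.Iic M, (f l) '' Y := by
      rw [h𝓑]
      rintro E ⟨l, hl, y, hy, rfl⟩
      exact Set.mem_biUnion (Set.mem_Iic.2 hl) ⟨y, hy, rfl⟩
    exact Set.Finite.subset (Set.Finite.biUnion (Set.finite_Iic M) fun l _ => hY.image _) h1
  have hmem : ∀ l ≤ M, ∀ y ∈ Y, f l y ∈ 𝓑 := by
    intro l hl y hy
    rw [h𝓑]
    exact ⟨l, hl, y, hy, rfl⟩
  obtain ⟨N, p, o, hp, ho1, ho2⟩ := hRE A V 𝓑 h𝓑f (by
    rw [h𝓑]
    rintro E ⟨l, hl, y, hy, rfl⟩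
    exact (hf l hl y hy).1)
  -- section
  obtain ⟨s, hs'⟩ := Module.projective_lifting_property p (LinearMap.id : V →ₗ[A[X]] V) hp
  have hs : ∀ v, p (s v) = v := fun v => by
    have h1 := LinearMap.congr_fun hs' v
    exact h1
  have hfinK : Module.Finite A[X] (LinearMap.ker p) := inferInstance
  have hprojK : Module.Projective A[X] (LinearMap.ker p) := by
    refine Module.Projective.of_split (LinearMap.ker p).subtype
      ((LinearMap.fst A[X] (LinearMap.ker p) V) ∘ₗ (secE p s hs).symm.toLinearMap) ?_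
    refine LinearMap.ext fun u => ?_
    show ((secE p s hs).symm (u : Fin N → A[X])).1 = u
    apply Subtype.ext
    show (u : Fin N → A[X]) - s (p u) = u
    have h1 : p (u : Fin N → A[X]) = 0 := u.2
    rw [h1, map_zero, sub_zero]
  obtain ⟨φ, hφ⟩ : ∃ φ, φ = secE p s hs := ⟨_, rfl⟩
  -- families
  obtain ⟨P, hP⟩ : ∃ P : ℕ → Lat A V₀ → Lat A (Fin N → A[X]), ∀ l y, P l y = OW A (o (f l y)) :=
    ⟨fun l y => OW A (o (f l y)), fun _ _ => rfl⟩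
  obtain ⟨K, hK⟩ : ∃ K : ℕ → Lat A V₀ → Lat A (LinearMap.ker p), ∀ l y, K l y = kerL p (P l y) :=
    ⟨fun l y => kerL p (P l y), fun _ _ => rfl⟩
  have hOWFL : ∀ w : Fin N → ℤ, FL 0 (OW A w) := fun w =>
    ((hRB3 A (Fin N → A[X]) (Fin N → A[X])).2.2 (Fin N) (Pi.basisFun A[X] (Fin N)) w w).1
  have hOWle : ∀ w w' : Fin N → ℤ, (∀ i, w i ≤ w' i) → OW A w ≤ OW A w' := fun w w' =>
    ((hRB3 A (Fin N → A[X]) (Fin N → A[X])).2.2 (Fin N) (Pi.basisFun A[X] (Fin N)) w w').2.2.2.1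
  have hOWsh : ∀ (w : Fin N → ℤ) (j : ℤ), shL (OW A w) j = OW A fun i => w i + j := fun w =>
    ((hRB3 A (Fin N → A[X]) (Fin N → A[X])).2.2 (Fin N) (Pi.basisFun A[X] (Fin N)) w w).2.2.2.2.2
  have hPLR : ∀ l ≤ M, ∀ l' ≤ M, ∀ x ∈ Y, ∀ y ∈ Y, LR (f l x) (f l' y) → LR (P l x) (P l' y) := by
    intro l hl l' hl' x hx y hy h
    have h1 := ho2 _ (hmem l hl x hx) _ (hmem l' hl' y hy) h
    rw [hP, hP]
    refine ⟨hOWle _ _ fun i => (h1 i).1, ?_⟩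
    rw [hOWsh]
    exact hOWle _ _ fun i => (h1 i).2
  have hKLR : ∀ l ≤ M, ∀ l' ≤ M, ∀ x ∈ Y, ∀ y ∈ Y, LR (f l x) (f l' y) → LR (K l x) (K l' y) := by
    intro l hl l' hl' x hx y hy h
    rw [hK, hK]
    exact rh1_kerL_LR p _ _ (hPLR l hl l' hl' x hx y hy h)
  have hKFL : ∀ l ≤ M, ∀ y ∈ Y, FL d (K l y) := by
    intro l hl y hy
    rw [hK, hP]
    exact (hf l hl y hy).2 N p (o (f l y)) hp (ho1 _ (hmem l hl y hy))
  have hPA : ∀ l ≤ M, Adm Y (P l) := by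
    intro l hl
    refine ⟨fun y hy => by rw [hP]; exact hOWFL _, ?_⟩
    intro x hx y hy hxy
    exact hPLR l hl l hl x hx y hy (hLR1 l hl x hx y hy hxy)
  have hex : ∀ l ≤ M, ∀ y ∈ Y, ∀ k v, v ∈ f l y k ↔ ∃ w ∈ P l y k, p w = v := by
    intro l hl y hy
    rw [hP]
    exact ho1 _ (hmem l hl y hy)
  have hM0 : 0 ≤ M := Nat.zero_le M
  obtain ⟨hKA0', hR0⟩ := hRG A V₀ (Fin N → A[X]) V Y hY p s hs (P 0) (f 0) (hPA 0 hM0) hA0
    (hex 0 hM0)
  obtain ⟨hKAM', hRM⟩ := hRG A V₀ (Fin N → A[X]) V Y hY p s hs (P M) (f M) (hPA M le_rfl) hAM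
    (hex M le_rfl)
  have hKfun : ∀ l, (fun y => kerL p (P l y)) = K l := fun l => funext fun y => (hK l y).symm
  have hKA0 : Adm Y (K 0) := by rw [← hKfun]; exact hKA0'
  have hKAM : Adm Y (K M) := by rw [← hKfun]; exact hKAM'
  -- the hypothesis for K
  obtain ⟨W, iW1, iW2, iW3, iW4, Λ, hΛ, hHK⟩ := hStH V₀ (LinearMap.ker p) Y hY M K hKFL hKA0 hKAM
    (fun l hl x hx y hy hxy => hKLR l hl l hl x hx y hy (hLR1 l hl x hx y hy hxy))
    (fun l hl x hx y hy hxy => hKLR l hl.le (l + 1) hl x hx y hy (hLR2 l hl x hx y hy hxy))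
  -- the constant family
  obtain ⟨C', hC'⟩ : ∃ C' : Lat A (LinearMap.ker p × V),
      C' = mapL φ.symm (OW A fun _ : Fin N => (0 : ℤ)) := ⟨_, rfl⟩
  have hC'FL : FL 0 C' := by
    rw [hC']
    exact (hRB3 A (Fin N → A[X]) (LinearMap.ker p × V)).1 0 _ φ.symm (hOWFL _)
  -- P_0 ~ P_M and P_0 ~ C
  have hPP : Hty Y (P 0) (P M) := by
    have h1 := (hRG0 A V₀ V₀ Y).2 N (fun y => o (f 0 y)) (fun y => o (f M y))
      (by have h2 := hPA 0 hM0
          have h3 : P 0 = fun y => OW A (o (f 0 y)) := funext fun y => hP 0 y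
          rw [h3] at h2
          exact h2)
      (by have h2 := hPA M le_rfl
          have h3 : P M = fun y => OW A (o (f M y)) := funext fun y => hP M y
          rw [h3] at h2
          exact h2)
    have h3 : P 0 = fun y => OW A (o (f 0 y)) := funext fun y => hP 0 y
    have h4 : P M = fun y => OW A (o (f M y)) := funext fun y => hP M y
    rw [h3, h4]
    exact h1
  have hconst : Adm Y (fun _ : Lat A V₀ => OW A fun _ : Fin N => (0 : ℤ)) :=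
    (hRA4 A V₀ (Fin N → A[X]) (Fin N → A[X]) Y).2.2.2.2.2.2.2.2 _ (hOWFL _)
  have hPC : Hty Y (P 0) (fun _ => OW A fun _ : Fin N => (0 : ℤ)) := by
    have h1 := (hRG0 A V₀ V₀ Y).2 N (fun y => o (f 0 y)) (fun _ _ => 0)
      (by have h2 := hPA 0 hM0
          have h3 : P 0 = fun y => OW A (o (f 0 y)) := funext fun y => hP 0 y
          rw [h3] at h2
          exact h2) hconst
    have h3 : P 0 = fun y => OW A (o (f 0 y)) := funext fun y => hP 0 y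
    rw [h3]
    exact h1
  -- transport with φ
  have hback : ∀ l, (fun y => mapL φ.symm (mapL (secE p s hs) (prodL (kerL p (P l y)) (f l y)))) =
      fun y => prodL (K l y) (f l y) := by
    intro l
    funext y
    rw [← hφ, hK]
    exact ((hRB2 A (LinearMap.ker p × V) (Fin N → A[X])).1 (prodL (kerL p (P l y)) (f l y))
      (prodL (kerL p (P l y)) (f l y)) φ 0).2.2.2.1
  have q0 : Hty Y (fun y => mapL φ.symm (P 0 y)) (fun y => prodL (K 0 y) (f 0 y)) := by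
    have h1 := (hRA4 A V₀ (Fin N → A[X]) (LinearMap.ker p × V) Y).2.2.2.2.1 _ _ φ.symm hR0
    rw [hback 0] at h1
    exact h1
  have qM : Hty Y (fun y => mapL φ.symm (P M y)) (fun y => prodL (K M y) (f M y)) := by
    have h1 := (hRA4 A V₀ (Fin N → A[X]) (LinearMap.ker p × V) Y).2.2.2.2.1 _ _ φ.symm hRM
    rw [hback M] at h1
    exact h1
  have qPP : Hty Y (fun y => mapL φ.symm (P 0 y)) (fun y => mapL φ.symm (P M y)) :=
    (hRA4 A V₀ (Fin N → A[X]) (LinearMap.ker p × V) Y).2.2.2.2.1 _ _ φ.symm hPP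
  have qPC : Hty Y (fun y => mapL φ.symm (P 0 y)) (fun _ => C') := by
    rw [hC']
    exact (hRA4 A V₀ (Fin N → A[X]) (LinearMap.ker p × V) Y).2.2.2.2.1 _ _ φ.symm hPC
  obtain ⟨t1, t2, t3, -⟩ := hRA4 A V₀ (LinearMap.ker p × V) V Y
  -- H1, H2
  have H1 : Hty Y (fun y => prodL (K 0 y) (f 0 y)) (fun y => prodL (K M y) (f M y)) :=
    t3 _ _ _ (t2 _ _ q0) (t3 _ _ _ qPP qM)
  have H2 : Hty Y (fun y => prodL (K 0 y) (f 0 y)) (fun _ => C') :=
    t3 _ _ _ (t2 _ _ q0) qPC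
  have hΛA : Adm Y (fun _ : Lat A V₀ => Λ) :=
    (hRA4 A V₀ W W Y).2.2.2.2.2.2.2.2 _ hΛ
  -- E1
  have E1a : Hty Y (fun y => prodL (prodL (K 0 y) Λ) (f 0 y))
      (fun y => prodL (prodL (K M y) Λ) (f M y)) := by
    have h1 := (hRA4 A V₀ (LinearMap.ker p × V) W Y).2.2.2.1 _ _ (fun _ => Λ) hΛA H1
    have h2 := (hRA4 A V₀ ((LinearMap.ker p × V) × W) ((LinearMap.ker p × W) × V) Y).2.2.2.2.1
      _ _ rh1_p1 h1
    simp only [rh1_p1_map] at h2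
    exact h2
  have E1b : Hty Y (fun y => prodL (prodL (K 0 y) Λ) (f M y))
      (fun y => prodL (prodL (K M y) Λ) (f M y)) :=
    (hRA4 A V₀ (LinearMap.ker p × W) V Y).2.2.2.1 _ _ (f M) hAM hHK
  have E1 : Hty Y (fun y => prodL (prodL (K 0 y) Λ) (f 0 y))
      (fun y => prodL (prodL (K 0 y) Λ) (f M y)) := by
    obtain ⟨-, u2, u3, -⟩ := hRA4 A V₀ ((LinearMap.ker p × W) × V) V Y
    exact u3 _ _ _ E1a (u2 _ _ E1b)
  -- G2 ~ G3
  have G23 : Hty Y (fun y => prodL (prodL (prodL (K 0 y) (f 0 y)) Λ) (f 0 y))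
      (fun y => prodL (prodL (prodL (K 0 y) (f 0 y)) Λ) (f M y)) := by
    have h1 := (hRA4 A V₀ ((LinearMap.ker p × W) × V) V Y).2.2.2.1 _ _ (f 0) hA0 E1
    have h2 := (hRA4 A V₀ (((LinearMap.ker p × W) × V) × V)
      (((LinearMap.ker p × V) × W) × V) Y).2.2.2.2.1 _ _ rh1_p2 h1
    simp only [rh1_p2_map] at h2
    exact h2
  -- G1 ~ G2 and G3 ~ G4
  have H2' : Hty Y (fun y => prodL (prodL (K 0 y) (f 0 y)) Λ) (fun _ => prodL C' Λ) :=
    (hRA4 A V₀ (LinearMap.ker p × V) W Y).2.2.2.1 _ _ (fun _ => Λ) hΛA H2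
  have G12 : ∀ g : Lat A V₀ → Lat A V, Adm Y g →
      Hty Y (fun y => prodL (prodL (prodL (K 0 y) (f 0 y)) Λ) (g y))
        (fun y => prodL (prodL C' Λ) (g y)) := by
    intro g hg
    exact (hRA4 A V₀ ((LinearMap.ker p × V) × W) V Y).2.2.2.1 _ _ g hg H2'
  obtain ⟨-, u2, u3, -, u5, -⟩ := hRA4 A V₀ (((LinearMap.ker p × V) × W) × V)
    (V × ((LinearMap.ker p × V) × W)) Y
  have G14 : Hty Y (fun y => prodL (prodL C' Λ) (f 0 y)) (fun y => prodL (prodL C' Λ) (f M y)) :=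
    u3 _ _ _ (u2 _ _ (G12 (f 0) hA0)) (u3 _ _ _ G23 (G12 (f M) hAM))
  have hfinal := u5 _ _ rh1_p3 G14
  simp only [rh1_p3_map] at hfinal
  exact ⟨(LinearMap.ker p × V) × W, inferInstance, inferInstance, inferInstance, inferInstance,
    prodL C' Λ, (hRB3 A (LinearMap.ker p × V) W).2.1 0 _ _ hC'FL hΛ, hfinal⟩

end Pool.Agent.SLZ
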