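import Pool.Agent.SLZ.StR2
import Pool.Agent.SLZ.MA

/-!
# SLZ, module RI: cycles of bundles bound stably (helper45)
-/

set_option autoImplicit false
set_option linter.unusedVariables false

noncomputable section

namespace Pool.Agent.SLZ

open Polynomial Function

theorem ri_push_Ch {V W : Type} (A : Cx V) (B : Cx W) (f : V → W)
    (hf : ∀ l ∈ A.s, l.map f ∈ B.s) (j : ℕ) (z : List V →₀ ℤ) (hz : z ∈ Ch A.s j) :
    z.mapDomain (List.map f) ∈ Ch B.s j := by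
  classical
  rw [MA_mem] at hz ⊢
  intro l hl
  have h1 := Finsupp.mapDomain_support hl
  rw [Finset.mem_image] at h1
  obtain ⟨l', hl', rfl⟩ := h1
  exact ⟨hf l' (hz l' hl').1, by rw [List.length_map]; exact (hz l' hl').2⟩

theorem ri_push_congr {V W : Type} (f g : V → W) (Y : Set V) (z : List V →₀ ℤ)
    (hz : ∀ l ∈ z.support, ∀ v ∈ l, v ∈ Y) (h : ∀ v ∈ Y, f v = g v) :
    z.mapDomain (List.map f) = z.mapDomain (List.map g) := by
  apply Finsupp.mapDomain_congr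
  intro l hl
  exact List.map_congr_left fun v hv => h v (hz l hl v hv)

theorem ri_push_comp {V W X : Type} (f : V → W) (g : W → X) (z : List V →₀ ℤ) :
    (z.mapDomain (List.map f)).mapDomain (List.map g) = z.mapDomain (List.map fun x => g (f x)) := by
  rw [← Finsupp.mapDomain_comp]
  congr 1
  funext l
  show List.map g (List.map f l) = List.map (fun x => g (f x)) l
  rw [List.map_map]
  rfl

theorem ri_max {V : Type} (Y : Set V) (hY : Y.Finite) (P : V → ℤ → Prop)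
    (hP : ∀ y ∈ Y, ∃ e, P y e) (hm : ∀ y ∈ Y, ∀ e e', e ≤ e' → P y e → P y e') :
    ∃ e : ℕ, ∀ y ∈ Y, P y e := by
  induction Y, hY using Set.Finite.induction_on with
  | empty => exact ⟨0, fun y hy => absurd hy (Set.notMem_empty y)⟩
  | @insert a S ha hS ih =>
    obtain ⟨e, he⟩ := ih (fun y hy => hP y (Set.mem_insert_of_mem _ hy))
      (fun y hy => hm y (Set.mem_insert_of_mem _ hy))
    obtain ⟨e', he'⟩ := hP a (Set.mem_insert _ _)
    refine ⟨max e e'.toNat, ?_⟩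
    intro y hy
    rcases Set.mem_insert_iff.1 hy with h | h
    · subst h
      refine hm y hy e' _ ?_ he'
      have h1 := Int.self_le_toNat e'
      have h2 : (e'.toNat : ℤ) ≤ ((max e e'.toNat : ℕ) : ℤ) := by exact_mod_cast le_max_right _ _
      exact le_trans h1 h2
    · refine hm y hy e _ ?_ (he y h)
      exact_mod_cast le_max_left _ _

section RI

variable {A : Type} [CommRing A] {V : Type} [AddCommGroup V] [Module A V] [Module A[X] V]
  [IsScalarTower A A[X] V]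

theorem ri_OL_mem {ι : Type} (b : Module.Basis ι A[X] V) (w : ι → ℤ) (k : ℤ) (v : V) :
    v ∈ OL b w k ↔ ∀ (i : ι) (n : ℕ), k + w i < n → (b.repr v i).coeff n = 0 := Iff.rfl

theorem ri_OL_map {n : ℕ} (b : Module.Basis (Fin n) A[X] V) (w : Fin n → ℤ) :
    mapL b.equivFun (OL b w) = OW A w := by
  funext k
  ext x
  constructor
  · rintro ⟨v, hv, rfl⟩
    intro i m him
    have h1 := hv i m him
    rw [Pi.basisFun_repr]
    exact h1
  · intro hx
    refine ⟨b.equivFun.symm x, ?_, ?_⟩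
    · intro i m him
      have h1 := hx i m him
      rw [Pi.basisFun_repr] at h1
      have h2 : b.repr (b.equivFun.symm x) i = x i := by
        rw [← Module.Basis.equivFun_apply, LinearEquiv.apply_symm_apply]
      rw [h2]
      exact h1
    · exact b.equivFun.apply_symm_apply x

/-- the isomorphism -/
def ri_iso {W : Type} [AddCommGroup W] [Module A W] [Module A[X] W] [IsScalarTower A A[X] W]
    {M n : ℕ} (b : Module.Basis (Fin n) A[X] (W × (Fin M → A[X]))) :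
    ((V × W) × (Fin M → A[X])) ≃ₗ[A[X]] (V × (Fin n → A[X])) :=
  (LinearEquiv.prodAssoc A[X] V W (Fin M → A[X])).trans
    (LinearEquiv.prodCongr (LinearEquiv.refl A[X] V) b.equivFun)

theorem ri_iso_map {W : Type} [AddCommGroup W] [Module A W] [Module A[X] W] [IsScalarTower A A[X] W]
    {M n : ℕ} (b : Module.Basis (Fin n) A[X] (W × (Fin M → A[X]))) (E : Lat A V) (Λ : Lat A W)
    (u : Fin M → ℤ) (w : Fin n → ℤ) (h : prodL Λ (OW A u) = OL b w) :
    mapL (ri_iso b) (prodL (prodL E Λ) (OW A u)) = prodL E (OW A w) := by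
  rw [← ri_OL_map b w, ← h]
  funext k
  ext x
  constructor
  · rintro ⟨⟨⟨v, a⟩, c⟩, ⟨⟨h1, h2⟩, h3⟩, rfl⟩
    exact ⟨h1, ⟨(a, c), ⟨h2, h3⟩, rfl⟩⟩
  · rintro ⟨h1, ⟨⟨a, c⟩, ⟨h2, h3⟩, h4⟩⟩
    refine ⟨((x.1, a), c), ⟨⟨h1, h2⟩, h3⟩, ?_⟩
    refine Prod.ext rfl ?_
    exact h4

end RI

theorem thm_RI (hMA : St_MA) (hRB1 : St_RB1) (hRB2 : St_RB2) (hRB3 : St_RB3) (hRA4 : St_RA4)
    (hRD : St_RD) (hRH : St_RH) : St_RI := by
  classical
  intro A _ _ D hFF V _ _ _ _ _ _ j hj z hz hbz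
  by_cases hz0 : z = 0
  · refine ⟨0, Fin.elim0, 0, Submodule.zero_mem _, ?_⟩
    rw [hz0, map_zero, Finsupp.mapDomain_zero]
  obtain ⟨Y, hYdef⟩ : ∃ Y : Set (Lat A V), Y = {E | ∃ l ∈ z.support, E ∈ l} := ⟨_, rfl⟩
  have hYfin : Y.Finite := by
    have h1 : Y = ⋃ l ∈ z.support, {E | E ∈ l} := by
      rw [hYdef]
      ext E
      simp
    rw [h1]
    exact Set.Finite.biUnion (Finset.finite_toSet _) fun l _ => List.finite_toSet l
  have hzY : ∀ l ∈ z.support, ∀ v ∈ l, v ∈ Y := by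
    intro l hl v hv
    rw [hYdef]
    exact ⟨l, hl, hv⟩
  have hYFL : ∀ y ∈ Y, FL 0 y := by
    intro y hy
    rw [hYdef] at hy
    obtain ⟨l, hl, hyl⟩ := hy
    exact ((MA_mem.1 hz l hl).1 y hyl).1
  have hzCh : z ∈ Ch (Fl adjL Y).s j := by
    rw [MA_mem]
    intro l hl
    obtain ⟨h1, h2⟩ := MA_mem.1 hz l hl
    exact ⟨fun x hx => ⟨hzY l hl x hx, (h1 x hx).2⟩, h2⟩
  have hYne : ∃ G, G ∈ Y := by
    have h1 : z.support.Nonempty := Finsupp.support_nonempty_iff.2 hz0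
    obtain ⟨l, hl⟩ := h1
    have h2 := (MA_mem.1 hz l hl).2
    cases l with
    | nil =>
      rw [List.length_nil] at h2
      omega
    | cons a l => exact ⟨a, hzY _ hl a (by simp)⟩
  obtain ⟨G, hG⟩ := hYne
  obtain ⟨b1, b2, b3, b4, -, -, b7⟩ := hRB1 A V V
  obtain ⟨c1, -, c3, -, -⟩ := hRB2 A V V
  have hmono : ∀ E F : Lat A V, ∀ j, E ≤ F → shL E j ≤ shL F j := fun E F j h => (c3 E F j 0).2.2.2 h
  have hshsh : ∀ (E : Lat A V) (j k : ℤ), shL (shL E j) k = shL E (j + k) :=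
    fun E j k => (c3 E E j k).2.1
  have hsh0 : ∀ (E : Lat A V), shL E 0 = E := fun E => (c3 E E 0 0).2.2.1
  -- Ω
  obtain ⟨e, he⟩ := ri_max Y hYfin (fun y e => y ≤ shL G e) (fun y hy => by
      obtain ⟨e, -, he⟩ := b4 y G (hYFL y hy).1 (hYFL G hG).1
      exact ⟨e, he⟩) (fun y hy e e' hee h => le_trans h ((b7 G (hYFL G hG).1).2.2.1 e e' hee))
  obtain ⟨Ω, hΩ⟩ : ∃ Ω : Lat A V, Ω = shL G e := ⟨_, rfl⟩
  have hΩFL : FL 0 Ω := by rw [hΩ]; exact (b1 G e).2.2 0 (hYFL G hG)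
  have heΩ : ∀ y ∈ Y, y ≤ Ω := by rw [hΩ]; exact he
  obtain ⟨M, hM⟩ := ri_max Y hYfin (fun y e => shL Ω (-e) ≤ y) (fun y hy => by
      obtain ⟨e, -, he⟩ := b4 Ω y hΩFL.1 (hYFL y hy).1
      refine ⟨e, ?_⟩
      have h1 := hmono _ _ (-e) he
      rw [hshsh, add_neg_cancel, hsh0] at h1
      exact h1) (fun y hy e e' hee h => le_trans ((b7 Ω hΩFL.1).2.2.1 (-e') (-e) (by linarith)) h)
  obtain ⟨f, hf⟩ : ∃ f : ℕ → Lat A V → Lat A V, ∀ l y, f l y = y ⊔ shL Ω ((l : ℤ) - M) :=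
    ⟨fun l y => y ⊔ shL Ω ((l : ℤ) - M), fun l y => rfl⟩
  have hf0 : ∀ y ∈ Y, f 0 y = y := by
    intro y hy
    rw [hf]
    have h1 : (((0 : ℕ) : ℤ) - M) = - (M : ℤ) := by push_cast; ring
    rw [h1]
    exact sup_eq_left.2 (hM y hy)
  have hfM : ∀ y ∈ Y, f M y = Ω := by
    intro y hy
    rw [hf, sub_self, hsh0]
    exact sup_eq_right.2 (heΩ y hy)
  have hΩl : ∀ i : ℤ, IsLat (shL Ω i) := fun i => (b1 Ω i).1 hΩFL.1
  have hsup : ∀ (E F : Lat A V), shL (E ⊔ F) 1 = shL E 1 ⊔ shL F 1 := fun E F => (c3 E F 1 0).1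
  have hStH := hRH A D hFF V V Y hYfin M f (by
      intro l hl y hy
      rw [hf]
      exact b3 _ _ (hYFL y hy).1 (hΩl _)) (by
      refine ⟨fun y hy => by rw [hf0 y hy]; exact hYFL y hy, ?_⟩
      intro x hx y hy hxy
      rw [hf0 x hx, hf0 y hy]
      exact hxy) (by
      refine ⟨fun y hy => by rw [hfM y hy]; exact hΩFL, ?_⟩
      intro x hx y hy hxy
      rw [hfM x hx, hfM y hy]
      exact (b7 Ω hΩFL.1).1) (by
      intro l hl x hx y hy hxy
      rw [hf, hf]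
      refine ⟨sup_le_sup hxy.1 le_rfl, ?_⟩
      rw [hsup]
      exact sup_le_sup hxy.2 ((b7 _ (hΩl _)).1).2) (by
      intro l hl x hx y hy hxy
      rw [hf, hf]
      have h1 : (((l + 1 : ℕ) : ℤ) - M) = ((l : ℤ) - M) + 1 := by push_cast; ring
      refine ⟨sup_le_sup hxy.1 ?_, ?_⟩
      · exact (b7 Ω hΩFL.1).2.2.1 _ _ (by rw [h1]; linarith)
      · rw [hsup, hshsh, h1]
        exact sup_le_sup hxy.2 le_rfl)
  obtain ⟨W, iW1, iW2, iW3, iW4, Λ, hΛ, hH⟩ := hStH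
  obtain ⟨M', n, u, b, w, hb⟩ := hRD A W Λ hΛ
  have hOu : FL 0 (OW A u) := ((hRB3 A (Fin M' → A[X]) (Fin M' → A[X])).2.2 (Fin M')
    (Pi.basisFun A[X] (Fin M')) u u).1
  have hconst : Adm Y (fun _ : Lat A V => OW A u) :=
    (hRA4 A V (Fin M' → A[X]) (Fin M' → A[X]) Y).2.2.2.2.2.2.2.2 (OW A u) hOu
  obtain ⟨y₁, hy₁, hby₁⟩ := hH (Fin M' → A[X]) (fun _ => OW A u) hconst j z hzCh hbz
  obtain ⟨c, hc⟩ : ∃ c : Lat A ((V × W) × (Fin M' → A[X])), c = prodL (prodL Ω Λ) (OW A u) := ⟨_, rfl⟩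
  have hprod : ∀ E : Lat A V, FL 0 E → FL 0 (prodL (prodL E Λ) (OW A u)) := by
    intro E hE
    exact (hRB3 A (V × W) (Fin M' → A[X])).2.1 0 _ _ ((hRB3 A V W).2.1 0 _ _ hE hΛ) hOu
  have hcFL : FL 0 c := by rw [hc]; exact hprod Ω hΩFL
  have hcc : adjL c c := Or.inl (((hRB1 A ((V × W) × (Fin M' → A[X])) V).2.2.2.2.2.2 c hcFL.1).1)
  have e1 : z.mapDomain (List.map fun E => prodL (prodL (f 0 E) Λ) (OW A u)) =
      z.mapDomain (List.map fun E => prodL (prodL E Λ) (OW A u)) :=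
    ri_push_congr _ _ Y z hzY fun v hv => by rw [hf0 v hv]
  have e2 : z.mapDomain (List.map fun E => prodL (prodL (f M E) Λ) (OW A u)) =
      z.mapDomain (List.map fun _ => c) :=
    ri_push_congr _ _ Y z hzY fun v hv => by rw [hfM v hv, hc]
  obtain ⟨z', hz'⟩ : ∃ z', z' = z.mapDomain (List.map fun _ : Lat A V => c) := ⟨_, rfl⟩
  have hz'b : bd z' = 0 := by
    rw [hz', MA_4, hbz, Finsupp.mapDomain_zero]
  have hz'Ch : z' ∈ Ch (Fl adjL {E : Lat A ((V × W) × (Fin M' → A[X])) | E = c}).s j := by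
    rw [hz']
    refine ri_push_Ch (Fl adjL Y) _ _ ?_ j z hzCh
    intro l _ x hx
    obtain ⟨v, _, hv⟩ := List.mem_map.1 hx
    refine ⟨hv.symm, ?_⟩
    intro y hy
    obtain ⟨v', _, hv'⟩ := List.mem_map.1 hy
    rw [← hv, ← hv']
    exact hcc
  have hy₂ : y₁ + consC c z' ∈ Ch (Fl adjL {E : Lat A ((V × W) × (Fin M' → A[X])) | FL 0 E}).s (j + 1) := by
    refine Submodule.add_mem _ hy₁ (MA_consCh c hz'Ch ?_)
    intro l hl x hx
    have hx' : ∀ x ∈ c :: l, x = c := by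
      intro x hx
      rcases List.mem_cons.1 hx with h | h
      · exact h
      · exact (hl x h).1
    refine ⟨by rw [hx' x hx]; exact hcFL, ?_⟩
    intro y hy
    rw [hx' x hx, hx' y hy]
    exact hcc
  refine ⟨n, w, (y₁ + consC c z').mapDomain (List.map (mapL (ri_iso b))), ?_, ?_⟩
  · refine ri_push_Ch (Fl adjL {E : Lat A ((V × W) × (Fin M' → A[X])) | FL 0 E}) _ _ ?_ (j + 1) _ hy₂
    intro l hl x hx
    obtain ⟨v, hv, rfl⟩ := List.mem_map.1 hx
    refine ⟨(hRB3 A ((V × W) × (Fin M' → A[X])) (V × (Fin n → A[X]))).1 0 v (ri_iso b) (hl v hv).1, ?_⟩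
    intro y hy
    obtain ⟨v', hv', rfl⟩ := List.mem_map.1 hy
    exact (((hRB2 A ((V × W) × (Fin M' → A[X])) (V × (Fin n → A[X]))).1 v v' (ri_iso b) 0).2.1).2
      ((hl v hv).2 v' hv')
  · rw [MA_4, map_add, MA_2, hz'b, map_zero, sub_zero, hby₁, e1, e2, ← hz', sub_add_cancel,
      ri_push_comp]
    exact ri_push_congr _ _ Y z hzY fun v hv => ri_iso_map b v Λ u w hb

end Pool.Agent.SLZ
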