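import Pool.Agent.SLZ.StR3
import Pool.Agent.SLZ.RB1

/-!
# SLZ, RK: bundles of types `≥ 0` (helper24)
-/

set_option autoImplicit false
set_option linter.unusedVariables false

noncomputable section

namespace Pool.Agent.SLZ

open Polynomial Function

theorem rk_push {X Y : Type} (K : Cx X) (K' : Cx Y) (f : X → Y)
    (hf : ∀ l ∈ K.s, l.map f ∈ K'.s) (j : ℕ) (z : List X →₀ ℤ) (hz : z ∈ Ch K.s j) :
    z.mapDomain (List.map f) ∈ Ch K'.s j := by
  classical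
  refine (Finsupp.mem_supported ℤ _).2 ?_
  intro l hl
  have h1 := Finsupp.mapDomain_support hl
  obtain ⟨l0, h2, rfl⟩ := Finset.mem_image.1 h1
  have h3 := (Finsupp.mem_supported ℤ z).1 hz h2
  exact ⟨hf _ h3.1, by simpa using h3.2⟩

section

variable {A : Type} [CommRing A] {V : Type} [AddCommGroup V] [Module A V]
  [Module A[X] V] [IsScalarTower A A[X] V]

/-- a shift by `T` large has only types `≥ 0` -/
theorem rk_GE {E : Lat A V} (h : IsLat E) : ∃ T₀ : ℤ, ∀ T, T₀ ≤ T → GE (shL E T) := by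
  obtain ⟨k₀, hk⟩ := h.gen
  refine ⟨k₀, fun T hT k hk0 v hv => ?_⟩
  exact hk (k + T) (by linarith) v (rb1_cast (E := E) (j := k + 1 + T) (k := k + T + 1)
    (by ring) hv)

theorem rk_bound {X : Type} (S : Set X) (hS : S.Finite) (P : X → ℤ → Prop)
    (h : ∀ x ∈ S, ∃ T₀ : ℤ, ∀ T, T₀ ≤ T → P x T) : ∃ T₀ : ℤ, ∀ T, T₀ ≤ T → ∀ x ∈ S, P x T := by
  refine Set.Finite.induction_on_subset (motive := fun S' _ => ∃ T₀ : ℤ, ∀ T, T₀ ≤ T →
    ∀ x ∈ S', P x T) S hS ⟨0, fun T _ x hx => absurd hx (Set.notMem_empty x)⟩ ?_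
  rintro a S' ha _ _ ⟨T₀, h₀⟩
  obtain ⟨T₁, h₁⟩ := h a ha
  refine ⟨max T₀ T₁, fun T hT x hx => ?_⟩
  rcases hx with rfl | hx
  · exact h₁ T ((le_max_right _ _).trans hT)
  · exact h₀ T ((le_max_left _ _).trans hT) x hx

/-- the family of carriers -/
def rk_car (N : ℕ) (l : List (Lat A V)) : Set (Lat A (V × (Fin N → A[X]))) :=
  {G | ∃ E ∈ l, ∃ a : ℤ, 0 ≤ a ∧ ∃ u : Fin N → ℤ, (∀ i, 0 ≤ u i) ∧
    G = prodL (shL E a) (OW A u)}

end

/-- **RK** -/
theorem thm_RK (hMA : St_MA) (hRA1 : St_RA1) (hRA3 : St_RA3) (hRB1 : St_RB1) (hRB2 : St_RB2)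
    (hRB3 : St_RB3) (hRI : St_RI) : St_RK := by
  classical
  intro A _ _ D hD V _ _ _ _ _ _ j hj z hz hbz
  -- the bound from RI
  have hsub : z ∈ Ch (Fl adjL {E : Lat A V | FL 0 E}).s j := by
    refine (Finsupp.mem_supported ℤ z).2 fun l hl => ?_
    have h1 := (Finsupp.mem_supported ℤ z).1 hz hl
    exact ⟨fun x hx => ⟨(h1.1 x hx).1.1, (h1.1 x hx).2⟩, h1.2⟩
  obtain ⟨N, w, y, hy, hby⟩ := hRI A D hD V j hj z hsub hbz
  -- abbreviations
  obtain ⟨p1, p2, p3, p4, p5, p6, p7⟩ := hRB1 A V (Fin N → A[X])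
  obtain ⟨r1, r2, r3, r4, r5⟩ := hRB2 A V (Fin N → A[X])
  obtain ⟨s1, s2, s3⟩ := hRB3 A V (Fin N → A[X])
  obtain ⟨_, _, t3⟩ := hRB3 A (Fin N → A[X]) (Fin N → A[X])
  obtain ⟨q1, _, _, _, _, _, q7⟩ := hRB1 A (V × (Fin N → A[X])) V
  obtain ⟨a1, _, _, _, _, a6, a7⟩ := hRB1 A (Fin N → A[X]) V
  obtain ⟨b1, _⟩ := hRB2 A (V × (Fin N → A[X])) (V × (Fin N → A[X]))
  obtain ⟨_, _, c3, _⟩ := hRB2 A (Fin N → A[X]) V
  have OWfl : ∀ u : Fin N → ℤ, FL 0 (OW A u) := fun u =>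
    (t3 (Fin N) (Pi.basisFun A[X] (Fin N)) u u).1
  have OWge : ∀ u : Fin N → ℤ, (∀ i, 0 ≤ u i) → GE (OW A u) := fun u hu =>
    (t3 (Fin N) (Pi.basisFun A[X] (Fin N)) u u).2.1 hu
  have OWsup : ∀ u u' : Fin N → ℤ, OW A u ⊔ OW A u' = OW A fun i => max (u i) (u' i) :=
    fun u u' => (t3 (Fin N) (Pi.basisFun A[X] (Fin N)) u u').2.2.2.2.1
  have OWsh : ∀ (u : Fin N → ℤ) (k : ℤ), shL (OW A u) k = OW A fun i => u i + k :=
    fun u k => (t3 (Fin N) (Pi.basisFun A[X] (Fin N)) u u).2.2.2.2.2 k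
  -- shift of a product
  have hsh : ∀ (E : Lat A V) (u : Fin N → ℤ) (k : ℤ),
      shL (prodL E (OW A u)) k = prodL (shL E k) (OW A fun i => u i + k) := by
    intro E u k
    rw [← (r2 E E (OW A u) (OW A u) k).2.1, OWsh]
  -- the vertices of y
  let Y : Set (Lat A (V × (Fin N → A[X]))) := {x | ∃ l ∈ y.support, x ∈ l}
  have hYfin : Y.Finite := by
    refine Set.Finite.subset (y.support.biUnion fun l => l.toFinset).finite_toSet ?_
    rintro x ⟨l, hl, hx⟩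
    simp only [Finset.coe_biUnion, Set.mem_iUnion]
    exact ⟨l, hl, by simpa using hx⟩
  have hYFL : ∀ x ∈ Y, FL 0 x := by
    rintro x ⟨l, hl, hx⟩
    exact (((Finsupp.mem_supported ℤ y).1 hy hl).1 x hx).1
  have hyY : y ∈ Ch (Fl adjL Y).s (j + 1) := by
    refine (Finsupp.mem_supported ℤ y).2 fun l hl => ?_
    have h1 := (Finsupp.mem_supported ℤ y).1 hy hl
    exact ⟨fun x hx => ⟨⟨l, hl, hx⟩, (h1.1 x hx).2⟩, h1.2⟩
  obtain ⟨T₀, hT₀⟩ := rk_bound Y hYfin (fun x T => GE (shL x T))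
    (fun x hx => rk_GE (hYFL x hx).1)
  obtain ⟨T₁, hT₁⟩ := rk_bound (Set.univ : Set (Fin N)) Set.finite_univ
    (fun i T => 0 ≤ w i + T) (fun i _ => ⟨- w i, fun T hT => by linarith⟩)
  obtain ⟨T, hTa, hTb, hTc⟩ : ∃ T : ℤ, T₀ ≤ T ∧ T₁ ≤ T ∧ 0 ≤ T :=
    ⟨max T₀ (max T₁ 0), le_max_left _ _, (le_max_left _ _).trans (le_max_right _ _),
      (le_max_right _ _).trans (le_max_right _ _)⟩
  -- the shifted chain
  have hy1 : y.mapDomain (List.map fun E => shL E T) ∈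
      Ch (Fl adjL {E : Lat A (V × (Fin N → A[X])) | FL 0 E ∧ GE E}).s (j + 1) := by
    refine rk_push (Fl adjL Y) _ _ ?_ (j + 1) y hyY
    intro l hl x hx
    obtain ⟨E, hE, rfl⟩ := List.mem_map.1 hx
    refine ⟨⟨(q1 E T).2.2 0 (hYFL E (hl E hE).1), hT₀ T hTa E (hl E hE).1⟩, fun x' hx' => ?_⟩
    obtain ⟨E', hE', rfl⟩ := List.mem_map.1 hx'
    have h3 := (hl E hE).2 E' hE'
    have id1 : (V × (Fin N → A[X])) ≃ₗ[A[X]] (V × (Fin N → A[X])) := LinearEquiv.refl _ _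
    rcases h3 with h3 | h3
    · exact Or.inl ((b1 E E' id1 T).2.2.1 h3)
    · exact Or.inr ((b1 E' E id1 T).2.2.1 h3)
  have hby1 : bd (y.mapDomain (List.map fun E => shL E T)) =
      z.mapDomain (List.map fun E => shL (prodL E (OW A w)) T) := by
    rw [(hMA _).2.2.2.1, hby, ← Finsupp.mapDomain_comp]
    congr 1
    funext l
    simp
  -- the homotopy
  have hGam : ∀ l ∈ (Fl adjL {E : Lat A V | FL 0 E ∧ GE E}).s, ∀ G ∈ rk_car N l,
      FL 0 G ∧ GE G := by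
    rintro l hl G ⟨E, hE, a, ha, u, hu, rfl⟩
    have h1 := (hl E hE).1
    exact ⟨s2 0 _ _ ((p1 E a).2.2 0 h1.1) (OWfl u),
      (p5 _ _).2.2.1 ((p6 E).1 a ha h1.2) (OWge u hu)⟩
  have hO0 : O0 A N = OW A fun _ => 0 := rfl
  obtain ⟨y2, hy2, hby2⟩ : ∃ y2 ∈ Ch (Fl adjL {E : Lat A (V × (Fin N → A[X])) |
      FL 0 E ∧ GE E}).s (j + 1), bd y2 = z.mapDomain (List.map fun E => prodL E (O0 A N)) -
        z.mapDomain (List.map fun E => shL (prodL E (OW A w)) T) := by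
    refine hRA1 (Lat A V) (Lat A (V × (Fin N → A[X]))) (Fl adjL {E : Lat A V | FL 0 E ∧ GE E})
      (Fl adjL {E : Lat A (V × (Fin N → A[X])) | FL 0 E ∧ GE E}) (fun E => prodL E (O0 A N))
      (fun E => shL (prodL E (OW A w)) T) (fun l => Fl adjL (rk_car N l)) ?_ ?_ ?_ ?_ j z hz hbz
    · intro l hl t ht x hx
      exact ⟨hGam l hl x (ht x hx).1, (ht x hx).2⟩
    · intro l _ l' hl' t ht x hx
      obtain ⟨E, hE, hrest⟩ := (ht x hx).1
      exact ⟨⟨E, hl' hE, hrest⟩, (ht x hx).2⟩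
    · intro l hl
      have hLRO : ∀ u : Fin N → ℤ, LR (OW A u) (OW A u) := fun u => (a7 _ (OWfl u).1).1
      have hadj : ∀ (u : Fin N → ℤ), ∀ E ∈ l, ∀ E' ∈ l,
          adjL (prodL E (OW A u)) (prodL E' (OW A u)) := by
        intro u E hE E' hE'
        rcases (hl E hE).2 E' hE' with h3 | h3
        · exact Or.inl ((r2 E E' _ _ 0).1.2 ⟨h3, hLRO u⟩)
        · exact Or.inr ((r2 E' E _ _ 0).1.2 ⟨h3, hLRO u⟩)
      constructor
      · intro x hx
        obtain ⟨E, hE, rfl⟩ := List.mem_map.1 hx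
        refine ⟨⟨E, hE, 0, le_rfl, fun _ => 0, fun _ => le_rfl, ?_⟩, fun x' hx' => ?_⟩
        · rw [(r3 E E 0 0).2.2.1]
          rfl
        · obtain ⟨E', hE', rfl⟩ := List.mem_map.1 hx'
          exact hadj _ E hE E' hE'
      · intro x hx
        obtain ⟨E, hE, rfl⟩ := List.mem_map.1 hx
        refine ⟨⟨E, hE, T, hTc, fun i => w i + T, fun i => hT₁ T hTb i (Set.mem_univ i), ?_⟩,
          fun x' hx' => ?_⟩
        · exact hsh E w T
        · obtain ⟨E', hE', rfl⟩ := List.mem_map.1 hx'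
          have id1 : (V × (Fin N → A[X])) ≃ₗ[A[X]] (V × (Fin N → A[X])) :=
            LinearEquiv.refl _ _
          rcases hadj w E hE E' hE' with h3 | h3
          · exact Or.inl ((b1 _ _ id1 T).2.2.1 h3)
          · exact Or.inr ((b1 _ _ id1 T).2.2.1 h3)
    · intro l hl hne i
      refine hRA3 A (V × (Fin N → A[X])) (rk_car N l) ?_ (fun G hG => (hGam l hl G hG).1.1) ?_ i
      · obtain ⟨E, hE⟩ := List.exists_mem_of_ne_nil l hne
        exact ⟨_, E, hE, 0, le_rfl, fun _ => 0, fun _ => le_rfl, rfl⟩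
      · rintro G ⟨E, hE, a, ha, u, hu, rfl⟩ H ⟨E', hE', a', ha', u', hu', rfl⟩ k hk
        have shsh : ∀ (F : Lat A V) (b c : ℤ), shL (shL F b) c = shL F (b + c) :=
          fun F b c => (r3 F F b c).2.1
        constructor
        · refine ⟨E', hE', a' + k, by linarith, fun i => u' i + k,
            fun i => by linarith [hu' i], ?_⟩
          rw [hsh, shsh]
        · have hL : IsLat E := (hl E hE).1.1.1
          have hL' : IsLat E' := (hl E' hE').1.1.1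
          have hadj := (hl E hE).2 E' hE'
          have hadj' := (hl E' hE').2 E hE
          have hmax : ∀ i, 0 ≤ max (u i) (u' i + -k) := fun i =>
            (hu i).trans (le_max_left _ _)
          rw [hsh, shsh, ← (r2 (shL E a) (shL E' (a' + -k)) (OW A u)
            (OW A fun i => u' i + -k) 0).2.2, OWsup]
          rcases lt_or_ge (a' + -k) a with h3 | h3
          · have h4 := (r5 E' E (a' + -k) a hL' hL hadj').1 h3
            rw [sup_eq_left.2 h4]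
            exact ⟨E, hE, a, ha, _, hmax, rfl⟩
          · rcases (r5 E E' a (a' + -k) hL hL' hadj).2 with h4 | h4
            · rw [sup_eq_right.2 h4]
              exact ⟨E', hE', a' + -k, ha.trans h3, _, hmax, rfl⟩
            · rw [sup_eq_left.2 h4]
              exact ⟨E, hE, a, ha, _, hmax, rfl⟩
  refine ⟨N, y2 + y.mapDomain (List.map fun E => shL E T), Submodule.add_mem _ hy2 hy1, ?_⟩
  rw [map_add, hby1, hby2, sub_add_cancel]

end Pool.Agent.SLZ
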