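import Pool.Agent.SLZ.StR3

/-!
# SLZ, part R: RL1
-/

set_option autoImplicit false

noncomputable section

namespace Pool.Agent.SLZ

open Polynomial Function

section

variable {A : Type} [CommRing A] {V : Type} [AddCommGroup V] [Module A V]

/-- short exact sequences of subquotients -/
private theorem rl1_ses (F : V →ₗ[A] V) {P₁ Q₁ P₂ Q₂ P₃ Q₃ : Submodule A V}
    (h1 : ∀ x ∈ P₁, F x ∈ P₂) (h2 : ∀ y ∈ P₂, y ∈ P₃)
    (q1 : ∀ x ∈ P₁, x ∈ Q₁ → F x ∈ Q₂) (q2 : ∀ y ∈ P₂, y ∈ Q₂ → y ∈ Q₃)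
    (inj : ∀ x ∈ P₁, F x ∈ Q₂ → x ∈ Q₁) (surj : ∀ z ∈ P₃, ∃ y ∈ P₂, y - z ∈ Q₃)
    (ex1 : ∀ x ∈ P₁, F x ∈ Q₃) (ex2 : ∀ y ∈ P₂, y ∈ Q₃ → ∃ x ∈ P₁, F x - y ∈ Q₂) :
    ∃ (f : (P₁ ⧸ Q₁.submoduleOf P₁) →ₗ[A] (P₂ ⧸ Q₂.submoduleOf P₂))
      (g : (P₂ ⧸ Q₂.submoduleOf P₂) →ₗ[A] (P₃ ⧸ Q₃.submoduleOf P₃)),
      Injective f ∧ Surjective g ∧ LinearMap.range f = LinearMap.ker g := by
  let f0 : P₁ →ₗ[A] P₂ := F.restrict h1
  let g0 : P₂ →ₗ[A] P₃ := (LinearMap.id : V →ₗ[A] V).restrict h2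
  have hf0 : ∀ x : P₁, ((f0 x : P₂) : V) = F x := fun x => rfl
  have hg0 : ∀ x : P₂, ((g0 x : P₃) : V) = x := fun x => rfl
  let f := Submodule.mapQ (Q₁.submoduleOf P₁) (Q₂.submoduleOf P₂) f0
    (fun x hx => q1 x x.2 hx)
  let g := Submodule.mapQ (Q₂.submoduleOf P₂) (Q₃.submoduleOf P₃) g0
    (fun x hx => q2 x x.2 hx)
  refine ⟨f, g, ?_, ?_, ?_⟩
  · rw [← LinearMap.ker_eq_bot, LinearMap.ker_eq_bot']
    intro x hx
    obtain ⟨x, rfl⟩ := Submodule.Quotient.mk_surjective _ x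
    rw [Submodule.mapQ_apply, Submodule.Quotient.mk_eq_zero] at hx
    rw [Submodule.Quotient.mk_eq_zero]
    exact inj x x.2 hx
  · intro z
    obtain ⟨z, rfl⟩ := Submodule.Quotient.mk_surjective _ z
    obtain ⟨y, hy, hyz⟩ := surj z z.2
    refine ⟨Submodule.Quotient.mk ⟨y, hy⟩, ?_⟩
    rw [Submodule.mapQ_apply, Submodule.Quotient.eq]
    exact hyz
  · ext y
    obtain ⟨y, rfl⟩ := Submodule.Quotient.mk_surjective _ y
    rw [LinearMap.mem_range, LinearMap.mem_ker, Submodule.mapQ_apply,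
      Submodule.Quotient.mk_eq_zero]
    constructor
    · rintro ⟨x, hx⟩
      obtain ⟨x, rfl⟩ := Submodule.Quotient.mk_surjective _ x
      rw [Submodule.mapQ_apply, Submodule.Quotient.eq] at hx
      have hx' : F x - y ∈ Q₂ := hx
      change (y : V) ∈ Q₃
      have h3 : (y : V) = F x - (F x - y) := by abel
      rw [h3]
      exact Q₃.sub_mem (ex1 x x.2) (q2 _ (P₂.sub_mem (h1 x x.2) y.2) hx')
    · intro hy
      obtain ⟨x, hx, hxy⟩ := ex2 y y.2 hy
      refine ⟨Submodule.Quotient.mk ⟨x, hx⟩, ?_⟩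
      rw [Submodule.mapQ_apply, Submodule.Quotient.eq]
      exact hxy

private theorem rl1_zero {M : Type} [AddCommGroup M] [Module A M] (h : Subsingleton M) :
    FF A 0 M := by
  change SF A M
  refine ⟨0, 0, ⟨?_⟩⟩
  exact LinearEquiv.ofLinearMap (0 : (M × (Fin 0 → A)) →ₗ[A] (Fin 0 → A)) 0
    (LinearMap.ext fun x => Subsingleton.elim _ _) (LinearMap.ext fun x => Subsingleton.elim _ _)

private theorem rl1_sub {P Q : Submodule A V} (h : ∀ x ∈ P, x ∈ Q) :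
    Subsingleton (P ⧸ Q.submoduleOf P) := by
  have h1 : Q.submoduleOf P = ⊤ := eq_top_iff.mpr fun x _ => h x x.2
  exact Submodule.Quotient.subsingleton_iff.mpr h1

end

theorem thm_RL1 (hFFP : St_FFP) : St_RL1 := by
  intro A _ _ V _ _ _ _ G H hG hH hGH
  obtain ⟨hGl, hGs, hGf⟩ := hG
  obtain ⟨hHl, hHs, hHf⟩ := hH
  have hGH1 : ∀ k, ∀ v ∈ G k, v ∈ H k := fun k v hv => hGH.1 k hv
  have hGH2 : ∀ k, ∀ v ∈ H (k - 1), v ∈ G k := by
    intro k v hv
    have h1 := hGH.2 (k - 1) hv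
    have h2 : shL G 1 (k - 1) = G k := by
      change G (k - 1 + 1) = G k
      rw [sub_add_cancel]
    rw [h2] at h1
    exact h1
  have hGm : ∀ k, ∀ v ∈ G (k - 1), v ∈ G k := by
    intro k v hv
    have h1 := hGl.mono (k - 1) hv
    rw [sub_add_cancel] at h1
    exact h1
  have hHm : ∀ k, ∀ v ∈ H (k - 1), v ∈ H k := fun k v hv => hGH1 k v (hGH2 k v hv)
  have hGX : ∀ k, ∀ v ∈ G (k - 1), (X : A[X]) • v ∈ G k := by
    intro k v hv
    have h1 := hGl.mulX (k - 1) v hv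
    rw [sub_add_cancel] at h1
    exact h1
  have hHX : ∀ k, ∀ v ∈ H (k - 1), (X : A[X]) • v ∈ H k := by
    intro k v hv
    have h1 := hHl.mulX (k - 1) v hv
    rw [sub_add_cancel] at h1
    exact h1
  have hP := hFFP A
  let S : ℤ → Submodule A V := fun k => G k ⊔ (H (k - 1)).map (xm A V)
  have hS : ∀ k v, v ∈ S k ↔ ∃ a ∈ G k, ∃ b ∈ H (k - 1), a + (X : A[X]) • b = v := by
    intro k v
    change v ∈ G k ⊔ (H (k - 1)).map (xm A V) ↔ _
    rw [Submodule.mem_sup]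
    constructor
    · rintro ⟨a, ha, _, ⟨b, hb, rfl⟩, h⟩
      exact ⟨a, ha, b, hb, h⟩
    · rintro ⟨a, ha, b, hb, h⟩
      exact ⟨a, ha, _, ⟨b, hb, rfl⟩, h⟩
  have hJ : ∀ (E : Lat A V) (k : ℤ) (v : V), v ∈ jL E k ↔ ∃ a ∈ E (k - 1), ∃ b ∈ E (k - 1),
      a + (X : A[X]) • b = v := by
    intro E k v
    unfold jL
    rw [Submodule.mem_sup]
    constructor
    · rintro ⟨a, ha, _, ⟨b, hb, rfl⟩, h⟩
      exact ⟨a, ha, b, hb, h⟩
    · rintro ⟨a, ha, b, hb, h⟩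
      exact ⟨a, ha, _, ⟨b, hb, rfl⟩, h⟩
  have hSH : ∀ k, ∀ v ∈ S k, v ∈ H k := by
    intro k v hv
    rw [hS] at hv
    obtain ⟨a, ha, b, hb, rfl⟩ := hv
    exact (H k).add_mem (hGH1 k a ha) (hHX k b hb)
  -- the first claim, for large degrees
  have base : ∃ k₁ : ℤ, ∀ k ≥ k₁, FF A 0 ((H k) ⧸ (S k).submoduleOf (H k)) := by
    obtain ⟨k₀, hk₀⟩ := hHl.gen
    refine ⟨k₀ + 1, fun k hk => rl1_zero (rl1_sub ?_)⟩
    intro v hv
    have h1 := hk₀ (k - 1) (by linarith) v (by rw [sub_add_cancel]; exact hv)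
    obtain ⟨a, ha, b, hb, h⟩ := h1
    rw [hS]
    exact ⟨a, hGH2 k a ha, b, hb, h.symm⟩
  have step : ∀ k, FF A 0 ((H k) ⧸ (S k).submoduleOf (H k)) →
      FF A 0 ((H (k - 1)) ⧸ (S (k - 1)).submoduleOf (H (k - 1))) := by
    intro k hk
    -- `0 → S/jL H → H/jL H → H/S → 0`
    obtain ⟨f, g, hf, hg, hfg⟩ := rl1_ses (A := A) (V := V) LinearMap.id (P₁ := S k)
      (Q₁ := jL H k) (P₂ := H k) (Q₂ := jL H k) (P₃ := H k) (Q₃ := S k)
      (hSH k) (fun y hy => hy) (fun x _ hx => hx) (by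
        intro y _ hy
        rw [hJ] at hy
        obtain ⟨a, ha, b, hb, rfl⟩ := hy
        rw [hS]
        exact ⟨a, hGH2 k a ha, b, hb, rfl⟩) (fun x _ hx => hx)
      (fun z hz => ⟨z, hz, by rw [sub_self]; exact (S k).zero_mem⟩) (fun x hx => hx)
      (fun y _ hy => ⟨y, hy, by
        rw [LinearMap.id_apply, sub_self]
        exact (jL H k).zero_mem⟩)
    have hZ : FF A 0 ((S k) ⧸ (jL H k).submoduleOf (S k)) :=
      ((hP.2.2.1 0 _ _ _ f g hf hg hfg).2.2) (hHf k) (hP.2.1 0 _ hk)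
    -- `0 → Q (k - 1) → G/jL G → S/jL H → 0`
    obtain ⟨f', g', hf', hg', hfg'⟩ := rl1_ses (A := A) (V := V) LinearMap.id (P₁ := H (k - 1))
      (Q₁ := S (k - 1)) (P₂ := G k) (Q₂ := jL G k) (P₃ := S k) (Q₃ := jL H k)
      (hGH2 k) (by
        intro y hy
        rw [hS]
        exact ⟨y, hy, 0, (H (k - 1)).zero_mem, by rw [smul_zero, add_zero]⟩)
      (by
        intro x _ hx
        rw [hS] at hx
        obtain ⟨a, ha, b, hb, rfl⟩ := hx
        rw [LinearMap.id_apply, hJ]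
        exact ⟨a, ha, b, hGH2 (k - 1) b hb, rfl⟩)
      (by
        intro y _ hy
        rw [hJ] at hy
        obtain ⟨a, ha, b, hb, rfl⟩ := hy
        rw [hJ]
        exact ⟨a, hGH1 _ a ha, b, hGH1 _ b hb, rfl⟩)
      (by
        intro x hx hx'
        rw [LinearMap.id_apply, hJ] at hx'
        obtain ⟨a, ha, b, hb, rfl⟩ := hx'
        rw [hS]
        refine ⟨a, ha, b, hHs (k - 1) b (hGH1 _ b hb) ?_, rfl⟩
        have h3 : (X : A[X]) • b = a + (X : A[X]) • b - a := by abel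
        rw [h3]
        exact (H (k - 1)).sub_mem hx (hGH1 _ a ha))
      (by
        intro z hz
        rw [hS] at hz
        obtain ⟨a, ha, b, hb, rfl⟩ := hz
        refine ⟨a, ha, ?_⟩
        rw [hJ]
        exact ⟨0, (H (k - 1)).zero_mem, -b, (H (k - 1)).neg_mem hb, by rw [smul_neg]; abel⟩)
      (by
        intro x hx
        rw [LinearMap.id_apply, hJ]
        exact ⟨x, hx, 0, (H (k - 1)).zero_mem, by rw [smul_zero, add_zero]⟩)
      (by
        intro y hy hy'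
        rw [hJ] at hy'
        obtain ⟨a, ha, b, hb, rfl⟩ := hy'
        refine ⟨a, ha, ?_⟩
        rw [LinearMap.id_apply, hJ]
        have h3 : (X : A[X]) • b ∈ G k := by
          have h4 : (X : A[X]) • b = a + (X : A[X]) • b - a := by abel
          rw [h4]
          exact (G k).sub_mem hy (hGH2 k a ha)
        exact ⟨0, (G (k - 1)).zero_mem, -b, (G (k - 1)).neg_mem (hGs k b (hGH2 k b hb) h3), by
          rw [smul_neg]; abel⟩)
    exact ((hP.2.2.1 0 _ _ _ f' g' hf' hg' hfg').2.2) (hGf k) (hP.2.1 0 _ hZ)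
  have first : ∀ k, FF A 0 ((H k) ⧸ (S k).submoduleOf (H k)) := by
    obtain ⟨k₁, hk₁⟩ := base
    have h1 : ∀ n : ℕ, FF A 0 ((H (k₁ - n)) ⧸ (S (k₁ - n)).submoduleOf (H (k₁ - n))) := by
      intro n
      induction n with
      | zero =>
        rw [Nat.cast_zero, sub_zero]
        exact hk₁ k₁ le_rfl
      | succ n ih =>
        have h2 := step _ ih
        have h3 : k₁ - (n : ℤ) - 1 = k₁ - ((n + 1 : ℕ) : ℤ) := by push_cast; ring
        rw [h3] at h2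
        exact h2
    intro k
    by_cases hk : k₁ ≤ k
    · exact hk₁ k hk
    · have h2 := h1 (k₁ - k).toNat
      have h3 : k₁ - ((k₁ - k).toNat : ℤ) = k := by omega
      rw [h3] at h2
      exact h2
  -- the second claim
  have base2 : ∃ k₀ : ℤ, ∀ k ≤ k₀, FF A 0 ((H k) ⧸ (G k).submoduleOf (H k)) := by
    obtain ⟨k₀, hk₀⟩ := hHl.bot
    refine ⟨k₀, fun k hk => rl1_zero (rl1_sub ?_)⟩
    intro v hv
    rw [hk₀ k hk, Submodule.mem_bot] at hv
    rw [hv]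
    exact (G k).zero_mem
  have step2 : ∀ k, FF A 0 ((H (k - 1)) ⧸ (G (k - 1)).submoduleOf (H (k - 1))) →
      FF A 0 ((H k) ⧸ (G k).submoduleOf (H k)) := by
    intro k hk
    obtain ⟨f, g, hf, hg, hfg⟩ := rl1_ses (A := A) (V := V) (xm A V) (P₁ := H (k - 1))
      (Q₁ := G (k - 1)) (P₂ := H k) (Q₂ := G k) (P₃ := H k) (Q₃ := S k)
      (hHX k) (fun y hy => hy) (fun x _ hx => hGX k x hx) (by
        intro y _ hy
        rw [hS]
        exact ⟨y, hy, 0, (H (k - 1)).zero_mem, by rw [smul_zero, add_zero]⟩)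
      (fun x hx hx' => hGs k x (hGH2 k x hx) hx')
      (fun z hz => ⟨z, hz, by rw [sub_self]; exact (S k).zero_mem⟩)
      (by
        intro x hx
        rw [hS]
        exact ⟨0, (G k).zero_mem, x, hx, by rw [zero_add]; rfl⟩)
      (by
        intro y _ hy
        rw [hS] at hy
        obtain ⟨a, ha, b, hb, rfl⟩ := hy
        refine ⟨b, hb, ?_⟩
        have h3 : (xm A V) b - (a + (X : A[X]) • b) = -a := by
          change (X : A[X]) • b - (a + (X : A[X]) • b) = -a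
          abel
        rw [h3]
        exact (G k).neg_mem ha)
    exact ((hP.2.2.1 0 _ _ _ f g hf hg hfg).1) hk (first k)
  have second : ∀ k, FF A 0 ((H k) ⧸ (G k).submoduleOf (H k)) := by
    obtain ⟨k₁, hk₁⟩ := base2
    have h1 : ∀ n : ℕ, FF A 0 ((H (k₁ + n)) ⧸ (G (k₁ + n)).submoduleOf (H (k₁ + n))) := by
      intro n
      induction n with
      | zero =>
        rw [Nat.cast_zero, add_zero]
        exact hk₁ k₁ le_rfl
      | succ n ih =>
        apply step2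
        have h3 : k₁ + ((n + 1 : ℕ) : ℤ) - 1 = k₁ + (n : ℤ) := by push_cast; ring
        rw [h3]
        exact ih
    intro k
    by_cases hk : k ≤ k₁
    · exact hk₁ k hk
    · have h2 := h1 (k - k₁).toNat
      have h3 : k₁ + ((k - k₁).toNat : ℤ) = k := by omega
      rw [h3] at h2
      exact h2
  exact fun k => ⟨first k, second k⟩

end Pool.Agent.SLZ
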