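import Pool.Agent.SLZ.StR3

/-!
# SLZ, module RL2: the fibre at infinity (helper64)

`φ k v` is the image of the unique class of `E 0 / E (-1)` of a vector `u` with
`X^(-k) v ≡ X^k u` (one of the exponents replaced by `0`).
-/

set_option autoImplicit false
set_option linter.unusedVariables false
set_option linter.unusedSectionVars false

noncomputable section

namespace Pool.Agent.SLZ

open Polynomial Function

section

variable {A : Type} [CommRing A] {V : Type} [AddCommGroup V] [Module A V] [Module A[X] V]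
  [IsScalarTower A A[X] V]

theorem rl2_pow (E : Lat A V) (hE : IsLat E) (n : ℕ) (k : ℤ) (v : V) (hv : v ∈ E k) :
    ((X : A[X]) ^ n) • v ∈ E (k + n) := by
  induction n with
  | zero => simpa using hv
  | succ n ih =>
    rw [pow_succ', mul_smul]
    have := hE.mulX _ _ ih
    rwa [show k + (n : ℤ) + 1 = k + ((n + 1 : ℕ) : ℤ) by push_cast; ring] at this

theorem rl2_sat (E : Lat A V) (hE : IsLat E) (hS : Sat E) (n : ℕ) (k : ℤ) (v : V) (hv : v ∈ E k)
    (h : ((X : A[X]) ^ n) • v ∈ E (k + n - 1)) : v ∈ E (k - 1) := by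
  induction n with
  | zero => simpa using h
  | succ n ih =>
    apply ih
    apply hS
    · exact rl2_pow E hE n k v hv
    · rw [pow_succ', mul_smul] at h
      rwa [show k + ((n + 1 : ℕ) : ℤ) - 1 = k + n by push_cast; ring] at h

theorem rl2_ex (E : Lat A V) (hE : IsLat E) (hG : GE E) (m : ℕ) (v : V) (hv : v ∈ E m) :
    ∃ u ∈ E 0, v - ((X : A[X]) ^ m) • u ∈ E (m - 1) := by
  induction m generalizing v with
  | zero =>
    refine ⟨v, by simpa using hv, ?_⟩
    rw [pow_zero, one_smul, sub_self]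
    exact Submodule.zero_mem _
  | succ m ih =>
    obtain ⟨a, ha, b, hb, hab⟩ := hG m (by omega) v (by
      rwa [show ((m + 1 : ℕ) : ℤ) = (m : ℤ) + 1 by push_cast; ring] at hv)
    obtain ⟨u, hu, hu'⟩ := ih b hb
    refine ⟨u, hu, ?_⟩
    have h1 : v - ((X : A[X]) ^ (m + 1)) • u = a + (X : A[X]) • (b - ((X : A[X]) ^ m) • u) := by
      rw [hab, smul_sub, ← mul_smul, ← pow_succ']
      abel
    rw [h1, show ((m + 1 : ℕ) : ℤ) - 1 = (m : ℤ) by push_cast; ring]
    refine (E m).add_mem ha ?_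
    have := hE.mulX _ _ hu'
    rwa [show (m : ℤ) - 1 + 1 = m by ring] at this

/-- the relation between `v` in degree `k` and `u` in degree `0` -/
def rl2_R (E : Lat A V) (k : ℤ) (v u : V) : Prop :=
  ((X : A[X]) ^ (-k).toNat) • v - ((X : A[X]) ^ k.toNat) • u ∈ E ((k.toNat : ℤ) - 1)

theorem rl2_R_ex (E : Lat A V) (hE : IsLat E) (hG : GE E) (k : ℤ) (v : E k) :
    ∃ u : E 0, rl2_R E k v u := by
  have h1 : ((X : A[X]) ^ (-k).toNat) • (v : V) ∈ E (k.toNat : ℤ) := by
    have := rl2_pow E hE (-k).toNat k v v.2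
    rwa [show k + ((-k).toNat : ℤ) = (k.toNat : ℤ) by omega] at this
  obtain ⟨u, hu, h⟩ := rl2_ex E hE hG k.toNat _ h1
  exact ⟨⟨u, hu⟩, h⟩

theorem rl2_R_add (E : Lat A V) (k : ℤ) (v u v' u' : V) (h : rl2_R E k v u)
    (h' : rl2_R E k v' u') : rl2_R E k (v + v') (u + u') := by
  unfold rl2_R at *
  rw [smul_add, smul_add, add_sub_add_comm]
  exact Submodule.add_mem _ h h'

theorem rl2_smul_comm (c : A) (p : A[X]) (v : V) : p • c • v = c • p • v := by
  have h : ∀ u : V, c • u = (C c : A[X]) • u := fun u => by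
    rw [← algebraMap_smul A[X] c u]
    rfl
  rw [h, h, ← mul_smul, ← mul_smul, mul_comm]

theorem rl2_R_smul (E : Lat A V) (k : ℤ) (c : A) (v u : V) (h : rl2_R E k v u) :
    rl2_R E k (c • v) (c • u) := by
  unfold rl2_R at *
  rw [rl2_smul_comm, rl2_smul_comm, ← smul_sub]
  exact Submodule.smul_mem _ _ h

theorem rl2_R_zero (E : Lat A V) (hE : IsLat E) (hS : Sat E) (k : ℤ) (v u : V) (hu : u ∈ E 0)
    (hv : v ∈ E (k - 1)) (h : rl2_R E k v u) : u ∈ E (-1) := by
  unfold rl2_R at h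
  have h1 : ((X : A[X]) ^ (-k).toNat) • v ∈ E ((k.toNat : ℤ) - 1) := by
    have := rl2_pow E hE (-k).toNat (k - 1) v hv
    rwa [show k - 1 + ((-k).toNat : ℤ) = (k.toNat : ℤ) - 1 by omega] at this
  have h2 : ((X : A[X]) ^ k.toNat) • u ∈ E ((k.toNat : ℤ) - 1) := by
    have := Submodule.sub_mem _ h1 h
    rwa [sub_sub_cancel] at this
  have h3 := rl2_sat E hE hS k.toNat 0 u hu (by rwa [zero_add])
  simpa using h3

theorem rl2_R_ker (E : Lat A V) (hE : IsLat E) (hS : Sat E) (k : ℤ) (v u : V) (hv : v ∈ E k)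
    (hu : u ∈ E (-1)) (h : rl2_R E k v u) : v ∈ E (k - 1) := by
  unfold rl2_R at h
  have h1 : ((X : A[X]) ^ k.toNat) • u ∈ E ((k.toNat : ℤ) - 1) := by
    have := rl2_pow E hE k.toNat (-1) u hu
    rwa [show -1 + (k.toNat : ℤ) = (k.toNat : ℤ) - 1 by omega] at this
  have h2 : ((X : A[X]) ^ (-k).toNat) • v ∈ E ((k.toNat : ℤ) - 1) := by
    have := Submodule.add_mem _ h h1
    rwa [sub_add_cancel] at this
  apply rl2_sat E hE hS (-k).toNat k v hv
  rwa [show k + ((-k).toNat : ℤ) - 1 = (k.toNat : ℤ) - 1 by omega]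

theorem rl2_R_X (E : Lat A V) (hE : IsLat E) (k : ℤ) (v u : V) (h : rl2_R E k v u) :
    rl2_R E (k + 1) ((X : A[X]) • v) u := by
  unfold rl2_R at *
  by_cases hk : 0 ≤ k
  · have e1 : (-k).toNat = 0 := by omega
    have e2 : (-(k + 1)).toNat = 0 := by omega
    have e3 : (k + 1).toNat = k.toNat + 1 := by omega
    rw [e1, pow_zero, one_smul] at h
    rw [e2, e3, pow_zero, one_smul, pow_succ', mul_smul, ← smul_sub]
    have := hE.mulX _ _ h
    rwa [show (k.toNat : ℤ) - 1 + 1 = ((k.toNat + 1 : ℕ) : ℤ) - 1 by push_cast; ring] at this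
  · have e1 : (-k).toNat = (-(k + 1)).toNat + 1 := by omega
    have e2 : k.toNat = 0 := by omega
    have e3 : (k + 1).toNat = 0 := by omega
    rw [e1, e2, pow_succ, mul_smul] at h
    rw [e3]
    exact h

/-- the quotient `E 0 / E (-1)` -/
abbrev rl2_Q (E : Lat A V) : Type := (E 0) ⧸ (shL E (-1) 0).submoduleOf (E 0)

theorem rl2_mem (E : Lat A V) (u : E 0) :
    u ∈ (shL E (-1) 0).submoduleOf (E 0) ↔ (u : V) ∈ E (-1) := by
  rw [Submodule.submoduleOf, Submodule.mem_comap]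
  rfl

theorem rl2_uniq (E : Lat A V) (hE : IsLat E) (hS : Sat E) (k : ℤ) (v : V) (u u' : E 0)
    (h : rl2_R E k v u) (h' : rl2_R E k v u') :
    (Submodule.Quotient.mk u : rl2_Q E) = Submodule.Quotient.mk u' := by
  rw [Submodule.Quotient.eq, rl2_mem]
  have h1 : rl2_R E k 0 ((u - u' : E 0) : V) := by
    have := rl2_R_add E k _ _ _ _ h (rl2_R_smul E k (-1) _ _ h')
    rw [neg_one_smul, add_neg_cancel, neg_one_smul, ← sub_eq_add_neg] at this
    exact this
  exact rl2_R_zero E hE hS k 0 _ (u - u').2 (Submodule.zero_mem _) h1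

/-- the map `E k → E 0 / E (-1)` -/
def rl2_chi (E : Lat A V) (hE : IsLat E) (hS : Sat E) (hG : GE E) (k : ℤ) :
    E k →ₗ[A] rl2_Q E where
  toFun v := Submodule.Quotient.mk (rl2_R_ex E hE hG k v).choose
  map_add' v w := by
    rw [← Submodule.Quotient.mk_add]
    apply rl2_uniq E hE hS k ((v + w : E k) : V)
    · exact (rl2_R_ex E hE hG k (v + w)).choose_spec
    · exact rl2_R_add E k _ _ _ _ (rl2_R_ex E hE hG k v).choose_spec
        (rl2_R_ex E hE hG k w).choose_spec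
  map_smul' c v := by
    rw [RingHom.id_apply, ← Submodule.Quotient.mk_smul]
    apply rl2_uniq E hE hS k ((c • v : E k) : V)
    · exact (rl2_R_ex E hE hG k (c • v)).choose_spec
    · exact rl2_R_smul E k c _ _ (rl2_R_ex E hE hG k v).choose_spec

theorem rl2_chi_eq (E : Lat A V) (hE : IsLat E) (hS : Sat E) (hG : GE E) (k : ℤ) (v : E k)
    (u : E 0) (h : rl2_R E k v u) : rl2_chi E hE hS hG k v = Submodule.Quotient.mk u :=
  rl2_uniq E hE hS k v _ _ (rl2_R_ex E hE hG k v).choose_spec h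

theorem rl2_chi_zero (E : Lat A V) (hE : IsLat E) (hS : Sat E) (hG : GE E) (k : ℤ) (v : E k) :
    rl2_chi E hE hS hG k v = 0 ↔ (v : V) ∈ E (k - 1) := by
  obtain ⟨u, hu⟩ := rl2_R_ex E hE hG k v
  rw [rl2_chi_eq E hE hS hG k v u hu, Submodule.Quotient.mk_eq_zero, rl2_mem]
  constructor
  · intro h
    exact rl2_R_ker E hE hS k v u v.2 h hu
  · intro h
    exact rl2_R_zero E hE hS k v u u.2 h hu

theorem rl2_chi_X (E : Lat A V) (hE : IsLat E) (hS : Sat E) (hG : GE E) (k : ℤ) (v : E k)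
    (w : E (k + 1)) (h : (w : V) = (X : A[X]) • (v : V)) :
    rl2_chi E hE hS hG (k + 1) w = rl2_chi E hE hS hG k v := by
  obtain ⟨u, hu⟩ := rl2_R_ex E hE hG k v
  rw [rl2_chi_eq E hE hS hG k v u hu]
  apply rl2_chi_eq
  rw [h]
  exact rl2_R_X E hE k _ _ hu

theorem rl2_chi_surj (E : Lat A V) (hE : IsLat E) (hS : Sat E) (hG : GE E) (k : ℤ)
    (hk : 0 ≤ k) : Surjective (rl2_chi E hE hS hG k) := by
  intro q
  obtain ⟨u, rfl⟩ := Submodule.Quotient.mk_surjective _ q
  have h1 : ((X : A[X]) ^ k.toNat) • (u : V) ∈ E k := by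
    have := rl2_pow E hE k.toNat 0 u u.2
    rwa [show 0 + (k.toNat : ℤ) = k by omega] at this
  refine ⟨⟨_, h1⟩, ?_⟩
  apply rl2_chi_eq
  unfold rl2_R
  have e1 : (-k).toNat = 0 := by omega
  rw [e1, pow_zero, one_smul]
  change ((X : A[X]) ^ k.toNat) • (u : V) - ((X : A[X]) ^ k.toNat) • (u : V) ∈ _
  rw [sub_self]
  exact Submodule.zero_mem _

end

theorem thm_RL2 (hP : St_FFP) (hB : St_RB1) (hL : St_RL1) : St_RL2 := by
  intro A _ _ V _ _ _ _ E hE hG
  obtain ⟨hlat, hsat, hff⟩ := hE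
  have hQ : FF A 0 (rl2_Q E) := by
    have h1 : FL 0 (shL E (-1)) := ((hB A V V).1 E (-1)).2.2 0 ⟨hlat, hsat, hff⟩
    refine (hL A V (shL E (-1)) E h1 ⟨hlat, hsat, hff⟩ ?_ 0).2
    constructor
    · intro k
      have := hlat.mono (k - 1)
      rw [show k - 1 + 1 = k by ring] at this
      exact this
    · intro k
      change E k ≤ E (k + 1 + -1)
      rw [show k + 1 + -1 = k by ring]
  obtain ⟨m, L, ⟨e⟩⟩ := (hQ : SF A (rl2_Q E))
  let ψ : rl2_Q E →ₗ[A] (Fin L → A) := e.toLinearMap ∘ₗ LinearMap.inl A (rl2_Q E) (Fin m → A)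
  have hψ : Injective ψ := by
    intro a b hab
    have h1 : e (a, 0) = e (b, 0) := hab
    have h2 := e.injective h1
    exact congrArg Prod.fst h2
  let p : (Fin L → A) →ₗ[A] (Fin m → A) :=
    LinearMap.snd A (rl2_Q E) (Fin m → A) ∘ₗ e.symm.toLinearMap
  have hp : Surjective p := by
    intro b
    refine ⟨e (0, b), ?_⟩
    change (e.symm (e (0, b))).2 = b
    rw [e.symm_apply_apply]
  have hker : LinearMap.ker p = LinearMap.range ψ := by
    ext x
    rw [LinearMap.mem_ker, LinearMap.mem_range]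
    constructor
    · intro hx
      have hx' : (e.symm x).2 = 0 := hx
      refine ⟨(e.symm x).1, ?_⟩
      change e ((e.symm x).1, 0) = x
      rw [← hx', Prod.mk.eta, e.apply_symm_apply]
    · rintro ⟨q, rfl⟩
      change (e.symm (e (q, 0))).2 = 0
      rw [e.symm_apply_apply]
  have hrange : ∀ k : ℤ, 0 ≤ k →
      LinearMap.range (ψ ∘ₗ rl2_chi E hlat hsat hG k) = LinearMap.range ψ := by
    intro k hk
    rw [LinearMap.range_comp, LinearMap.range_eq_top.2 (rl2_chi_surj E hlat hsat hG k hk),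
      Submodule.map_top]
  refine ⟨L, fun k => ψ ∘ₗ rl2_chi E hlat hsat hG k, ?_, ?_, ?_, ?_⟩
  · intro k v
    change ψ (rl2_chi E hlat hsat hG k v) = 0 ↔ _
    rw [← rl2_chi_zero E hlat hsat hG k v]
    constructor
    · intro h
      apply hψ
      rw [h, map_zero]
    · intro h
      rw [h, map_zero]
  · intro k v w h
    change ψ (rl2_chi E hlat hsat hG (k + 1) w) = ψ (rl2_chi E hlat hsat hG k v)
    rw [rl2_chi_X E hlat hsat hG k v w h]
  · intro k hk
    change LinearMap.range (ψ ∘ₗ rl2_chi E hlat hsat hG k) =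
      LinearMap.range (ψ ∘ₗ rl2_chi E hlat hsat hG 0)
    rw [hrange k hk, hrange 0 le_rfl]
  · change FF A 0 ((Fin L → A) ⧸ LinearMap.range (ψ ∘ₗ rl2_chi E hlat hsat hG 0))
    rw [hrange 0 le_rfl, ← hker]
    refine (hP A).1 0 (Fin m → A) _ (p.quotKerEquivOfSurjective hp).symm ?_
    refine ⟨0, m, ⟨?_⟩⟩
    exact LinearEquiv.prodUnique

end Pool.Agent.SLZ
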