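import Pool.Agent.SLZ.StR3

/-!
# SLZ, RL3: the graph lattice (helper59)
-/

set_option autoImplicit false
set_option linter.unusedVariables false
set_option linter.unusedSectionVars false

noncomputable section

namespace Pool.Agent.SLZ

open Polynomial Function

section

variable {A V : Type} [CommRing A] [AddCommGroup V] [Module A V] [Module A[X] V]
  [IsScalarTower A A[X] V]

theorem rl3_mem {E : Lat A V} {L : ℕ} (φ : ∀ k : ℤ, E k →ₗ[A] (Fin L → A)) (F : Lat A V) (k : ℤ)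
    (q : V × (Fin L → A[X])) : q ∈ grL φ F k ↔ ∃ h : q.1 ∈ E k, q.1 ∈ F k ∧
      (∀ (i : Fin L) (n : ℕ), k + 1 < n → (q.2 i).coeff n = 0) ∧
      (∀ (i : Fin L) (n : ℕ), (n : ℤ) = k + 1 → (q.2 i).coeff n = φ k ⟨q.1, h⟩ i) ∧
      (k + 1 < 0 → φ k ⟨q.1, h⟩ = 0) := Iff.rfl

theorem rl3_memO (L : ℕ) (k : ℤ) (q : Fin L → A[X]) :
    q ∈ O1 A L k ↔ ∀ (i : Fin L) (n : ℕ), k + 1 < n → (q i).coeff n = 0 := Iff.rfl

theorem rl3_X (E : Lat A V) (L : ℕ) (φ : ∀ k : ℤ, E k →ₗ[A] (Fin L → A))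
    (h2 : ∀ k (v : E k) (w : E (k + 1)), (w : V) = (X : A[X]) • (v : V) → φ (k + 1) w = φ k v)
    (k k' : ℤ) (hk : k' = k + 1) (v : V) (hv : v ∈ E k) (hw : (X : A[X]) • v ∈ E k') :
    φ k' ⟨(X : A[X]) • v, hw⟩ = φ k ⟨v, hv⟩ := by
  subst hk
  exact h2 k ⟨v, hv⟩ ⟨_, hw⟩ rfl

end

theorem thm_RL3 (hB1 : St_RB1) (hB3 : St_RB3) : St_RL3 := by
  classical
  intro A _ _ V _ _ _ _ D hD E hE L φ h1 h2 F hF hFE
  obtain ⟨⟨hEl, hEs, -⟩, hEg, hEd⟩ := hE
  obtain ⟨⟨hFl, hFs, -⟩, hFg, hFd⟩ := hF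
  have hz : ∀ k (v : V) (hv : v ∈ E k), v ∈ E (k - 1) → φ k ⟨v, hv⟩ = 0 := fun k v hv hv' =>
    (h1 k ⟨v, hv⟩).2 hv'
  -- (6)
  have g6 : shL (prodL E (O1 A L)) (-1) ≤ grL φ F := by
    intro k q hq
    obtain ⟨hq1, hq2⟩ : q.1 ∈ E (k + -1) ∧ q.2 ∈ O1 A L (k + -1) := hq
    have hk : k + -1 = k - 1 := by ring
    rw [hk] at hq1
    have hqE : q.1 ∈ E k := by
      have := hEl.mono (k - 1) hq1
      rwa [sub_add_cancel] at this
    have hqF : q.1 ∈ F k := by
      have := hFE.2 (k - 1) hq1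
      change q.1 ∈ F (k - 1 + 1) at this
      rwa [sub_add_cancel] at this
    have hφ := hz k q.1 hqE hq1
    have hc : ∀ (i : Fin L) (n : ℕ), k < n → (q.2 i).coeff n = 0 := fun i n hn =>
      (rl3_memO L _ q.2).1 hq2 i n (by linarith)
    refine ⟨hqE, hqF, fun i n hn => hc i n (by linarith), fun i n hn => ?_, fun _ => hφ⟩
    rw [hφ, hc i n (by linarith)]
    rfl
  -- (7)
  have g7 : ∀ k : ℤ, k ≤ -2 → ∀ q, q ∈ grL φ F k ↔ q.1 ∈ E (k - 1) ∧ q.2 = 0 := by
    intro k hk q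
    constructor
    · rintro ⟨h, hF1, hc, -, h0⟩
      refine ⟨(h1 k ⟨q.1, h⟩).1 (h0 (by linarith)), ?_⟩
      funext i
      ext n
      rw [hc i n (by have := Int.natCast_nonneg n; linarith)]
      simp
    · rintro ⟨hq1, hq2⟩
      refine g6 k ?_
      have hk : k + -1 = k - 1 := by ring
      change q.1 ∈ E (k + -1) ∧ q.2 ∈ O1 A L (k + -1)
      rw [hk, hq2]
      exact ⟨hq1, Submodule.zero_mem _⟩
  -- (5)
  have g5 : grL φ F ≤ prodL F (O1 A L) := by
    rintro k q ⟨h, hF1, hc, -, h0⟩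
    exact ⟨hF1, fun i n hn => hc i n hn⟩
  have hmonoE : ∀ k, E k ≤ E (k + 1) := hEl.mono
  have hmono : ∀ k, grL φ F k ≤ grL φ F (k + 1) := by
    rintro k q ⟨h, hF1, hc, -, h0⟩
    have hφ : φ (k + 1) ⟨q.1, hmonoE k h⟩ = 0 := hz _ _ _ (by rwa [add_sub_cancel_right])
    refine ⟨hmonoE k h, hFl.mono k hF1, fun i n hn => hc i n (by linarith), fun i n hn => ?_,
      fun _ => hφ⟩
    rw [hφ, hc i n (by linarith)]
    rfl
  have hmulX : ∀ k, ∀ q ∈ grL φ F k, (X : A[X]) • q ∈ grL φ F (k + 1) := by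
    rintro k q ⟨h, hF1, hc, hc', h0⟩
    have hXE : (X : A[X]) • q.1 ∈ E (k + 1) := hEl.mulX k _ h
    have hφ : φ (k + 1) ⟨(X : A[X]) • q.1, hXE⟩ = φ k ⟨q.1, h⟩ := rl3_X E L φ h2 k _ rfl _ h hXE
    refine ⟨hXE, hFl.mulX k _ hF1, fun i n hn => ?_, fun i n hn => ?_, fun hk => ?_⟩
    · change ((X : A[X]) * q.2 i).coeff n = 0
      rcases n with - | n
      · exact coeff_X_mul_zero _
      · rw [coeff_X_mul]
        exact hc i n (by push_cast at hn; linarith)
    · change ((X : A[X]) * q.2 i).coeff n = φ (k + 1) ⟨(X : A[X]) • q.1, hXE⟩ i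
      rw [hφ]
      rcases n with - | n
      · rw [coeff_X_mul_zero, h0 (by push_cast at hn; linarith)]
        rfl
      · rw [coeff_X_mul]
        exact hc' i n (by push_cast at hn; linarith)
    · change φ (k + 1) ⟨(X : A[X]) • q.1, hXE⟩ = 0
      rw [hφ]
      exact h0 (by linarith)
  -- GE
  have hGE : GE (grL φ F) := by
    rintro k hk q ⟨h, hF1, hc, hc', -⟩
    obtain ⟨κ, rfl⟩ := Int.eq_ofNat_of_zero_le hk
    obtain ⟨a, ha, b, hb, hab⟩ := hFg κ hk q.1 hF1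
    have haE : a ∈ E κ := hFE.1 _ ha
    have hbE : b ∈ E κ := hFE.1 _ hb
    have haE' : a ∈ E ((κ : ℤ) + 1) := hmonoE _ haE
    have hbE' : (X : A[X]) • b ∈ E ((κ : ℤ) + 1) := hEl.mulX _ _ hbE
    have hφ : φ ((κ : ℤ) + 1) ⟨q.1, h⟩ = φ κ ⟨b, hbE⟩ := by
      have e1 : (⟨q.1, h⟩ : E ((κ : ℤ) + 1)) = ⟨a, haE'⟩ + ⟨(X : A[X]) • b, hbE'⟩ :=
        Subtype.ext hab
      rw [e1, map_add, rl3_X E L φ h2 κ _ rfl b hbE hbE', hz _ a haE' (by rwa [add_sub_cancel_right]),
        zero_add]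
    -- the lifts
    have hlift : ∀ (c : V) (hcE : c ∈ E κ), c ∈ F κ →
        ((c, fun i => monomial (κ + 1) (φ κ ⟨c, hcE⟩ i)) : V × (Fin L → A[X])) ∈ grL φ F κ := by
      intro c hcE hcF
      refine ⟨hcE, hcF, fun i n hn => ?_, fun i n hn => ?_, fun hk => ?_⟩
      · change (monomial (κ + 1) (φ κ ⟨c, hcE⟩ i)).coeff n = 0
        rw [coeff_monomial, if_neg]
        rintro rfl
        push_cast at hn
        linarith
      · change (monomial (κ + 1) (φ κ ⟨c, hcE⟩ i)).coeff n = _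
        have : n = κ + 1 := by exact_mod_cast hn
        rw [this, coeff_monomial, if_pos rfl]
      · exfalso
        have := Int.natCast_nonneg κ
        linarith
    have hlift0 : ∀ p : Fin L → A[X], (∀ (i : Fin L) (n : ℕ), κ < n → (p i).coeff n = 0) →
        ((0, p) : V × (Fin L → A[X])) ∈ grL φ F κ := by
      intro p hp
      have e0 : (⟨(0 : V), (E κ).zero_mem⟩ : E (κ : ℤ)) = 0 := rfl
      refine ⟨(E κ).zero_mem, (F κ).zero_mem, fun i n hn => hp i n (by
        have : (κ : ℤ) < n := by linarith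
        exact_mod_cast this), fun i n hn => ?_, fun hk => ?_⟩
      · change (p i).coeff n = φ κ ⟨(0 : V), (E κ).zero_mem⟩ i
        rw [e0, map_zero, hp i n (by
          have : (κ : ℤ) < n := by linarith
          exact_mod_cast this)]
        rfl
      · change φ κ ⟨(0 : V), (E κ).zero_mem⟩ = 0
        rw [e0, map_zero]
    let p' : Fin L → A[X] := fun i => q.2 i - monomial (κ + 1) (φ κ ⟨a, haE⟩ i) -
      X * monomial (κ + 1) (φ κ ⟨b, hbE⟩ i)
    have hp' : ∀ (i : Fin L) (n : ℕ), κ + 1 < n → (p' i).coeff n = 0 := by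
      intro i n hn
      rcases n with - | n
      · omega
      · change (q.2 i - monomial (κ + 1) (φ κ ⟨a, haE⟩ i) -
          X * monomial (κ + 1) (φ κ ⟨b, hbE⟩ i)).coeff (n + 1) = 0
        rw [coeff_sub, coeff_sub, coeff_X_mul, coeff_monomial, coeff_monomial, if_neg (by omega)]
        by_cases hn' : κ + 1 = n
        · rw [if_pos hn', hc' i (n + 1) (by push_cast; rw [← hn']; push_cast; ring), hφ]
          ring
        · rw [if_neg hn', hc i (n + 1) (by
            have : κ + 1 + 1 < n + 1 := by omega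
            exact_mod_cast this)]
          ring
    refine ⟨(a, fun i => monomial (κ + 1) (φ κ ⟨a, haE⟩ i)) + (0, fun i => C ((p' i).coeff 0)),
      Submodule.add_mem _ (hlift a haE ha) (hlift0 _ fun i n hn => ?_),
      (b, fun i => monomial (κ + 1) (φ κ ⟨b, hbE⟩ i)) + (0, fun i => (p' i).divX),
      Submodule.add_mem _ (hlift b hbE hb) (hlift0 _ fun i n hn => ?_), ?_⟩
    · rw [coeff_C, if_neg (by omega)]
    · rw [coeff_divX]
      exact hp' i (n + 1) (by omega)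
    · apply Prod.ext
      · change q.1 = (a + 0) + (X : A[X]) • (b + 0)
        rw [add_zero, add_zero]
        exact hab
      · funext i
        change q.2 i = (monomial (κ + 1) (φ κ ⟨a, haE⟩ i) + C ((p' i).coeff 0)) +
          X * (monomial (κ + 1) (φ κ ⟨b, hbE⟩ i) + (p' i).divX)
        have e1 : X * (p' i).divX + C ((p' i).coeff 0) = p' i := X_mul_divX_add (p' i)
        have e2 : q.2 i = monomial (κ + 1) (φ κ ⟨a, haE⟩ i) +
          X * monomial (κ + 1) (φ κ ⟨b, hbE⟩ i) + p' i := by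
          change q.2 i = _ + _ + (q.2 i - _ - _)
          ring
        have e3 : (monomial (κ + 1) (φ κ ⟨a, haE⟩ i) + C ((p' i).coeff 0)) +
            X * (monomial (κ + 1) (φ κ ⟨b, hbE⟩ i) + (p' i).divX) =
            monomial (κ + 1) (φ κ ⟨a, haE⟩ i) + X * monomial (κ + 1) (φ κ ⟨b, hbE⟩ i) +
            (X * (p' i).divX + C ((p' i).coeff 0)) := by ring
        rw [e3, e1]
        exact e2
  -- the product
  have hO := (hB3 A (Fin L → A[X]) V).2.2 (Fin L) (Pi.basisFun A[X] (Fin L)) (fun _ => 1) (fun _ => 1)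
  have hO1 : IsLat (O1 A L) := hO.1.1
  have hprod : IsLat (prodL E (O1 A L)) := ((hB1 A V (Fin L → A[X])).2.2.2.2.1 E _).1 hEl hO1
  have hlat : IsLat (grL φ F) := by
    refine ⟨hmono, hmulX, ?_, ?_, ⟨0, fun k hk => hGE k hk⟩, ?_⟩
    · obtain ⟨k₀, hk₀⟩ := hEl.bot
      refine ⟨min k₀ (-2), fun k hk => ?_⟩
      rw [eq_bot_iff]
      intro q hq
      obtain ⟨hq1, hq2⟩ := (g7 k (hk.trans (min_le_right _ _)) q).1 hq
      rw [hk₀ (k - 1) (by have := hk.trans (min_le_left _ _); linarith)] at hq1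
      rw [Submodule.mem_bot] at hq1 ⊢
      exact Prod.ext hq1 hq2
    · intro k
      have hfg : ((prodL E (O1 A L)) k).FG := hprod.fg k
      have := isNoetherian_of_fg_of_noetherian _ hfg
      have hle : grL φ F k ≤ (prodL E (O1 A L)) k := by
        intro q hq
        have := g5 k hq
        exact ⟨hFE.1 k this.1, this.2⟩
      have := isNoetherian_of_le hle
      exact Module.Finite.iff_fg.1 inferInstance
    · intro q
      obtain ⟨k, hk⟩ := hprod.top q
      refine ⟨k + 1, g6 (k + 1) ?_⟩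
      change q ∈ prodL E (O1 A L) (k + 1 + -1)
      have : k + 1 + -1 = k := by ring
      rwa [this]
  -- Sat
  have hSat : Sat (grL φ F) := by
    intro k q hq hXq
    obtain ⟨h, hF1, hc, hc', h0⟩ := hq
    obtain ⟨hX, hXF, hXc, hXc', hX0⟩ := hXq
    have hd : ∀ (i : Fin L) (n : ℕ), k < n → (q.2 i).coeff n = 0 := by
      intro i n hn
      have h3 := hXc i (n + 1) (by push_cast; linarith)
      change ((X : A[X]) * q.2 i).coeff (n + 1) = 0 at h3
      rwa [coeff_X_mul] at h3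
    have hφ : φ k ⟨q.1, h⟩ = 0 := by
      by_cases hk : k + 1 < 0
      · exact h0 hk
      · funext i
        have h3 := hc' i (k + 1).toNat (Int.toNat_of_nonneg (by linarith))
        rw [← h3, hd i (k + 1).toNat (by rw [Int.toNat_of_nonneg (by linarith)]; linarith)]
        rfl
    have hqE : q.1 ∈ E (k - 1) := (h1 k ⟨q.1, h⟩).1 hφ
    have hqF : q.1 ∈ F (k - 1) := hFs k q.1 hF1 hXF
    have hφ' : φ k ⟨(X : A[X]) • q.1, hX⟩ = φ (k - 1) ⟨q.1, hqE⟩ :=
      rl3_X E L φ h2 (k - 1) k (by ring) q.1 hqE hX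
    refine ⟨hqE, hqF, fun i n hn => hd i n (by linarith), fun i n hn => ?_, fun hk => ?_⟩
    · have h3 := hXc' i (n + 1) (by push_cast; linarith)
      change ((X : A[X]) * q.2 i).coeff (n + 1) = φ k ⟨(X : A[X]) • q.1, hX⟩ i at h3
      rw [coeff_X_mul, hφ'] at h3
      exact h3
    · rw [← hφ']
      by_cases hk' : k + 1 < 0
      · exact hX0 hk'
      · funext i
        have hk2 : k + 1 = 0 := by omega
        have h3 := hXc' i 0 (by push_cast; linarith)
        change ((X : A[X]) * q.2 i).coeff 0 = φ k ⟨(X : A[X]) • q.1, hX⟩ i at h3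
        rw [coeff_X_mul_zero] at h3
        rw [← h3]
        rfl
  refine ⟨hlat, hSat, hGE, ?_, g5, g6, g7, ?_⟩
  · change grL φ F (-((D - 1 : ℕ) : ℤ) - 1) = ⊥
    have hk : -((D - 1 : ℕ) : ℤ) - 1 = -(D : ℤ) := by
      rw [Nat.cast_sub (by omega)]
      push_cast
      ring
    rw [hk, eq_bot_iff]
    intro q hq
    obtain ⟨hq1, hq2⟩ := (g7 (-(D : ℤ)) (by
      have : (2 : ℤ) ≤ D := by exact_mod_cast hD
      linarith) q).1 hq
    have h3 : E (-(D : ℤ) - 1) = ⊥ := hEd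
    rw [h3] at hq1
    rw [Submodule.mem_bot] at hq1 ⊢
    exact Prod.ext hq1 hq2
  · rintro F' hF' hF'E hFF' k q ⟨h, hF1, hc, hc', h0⟩
    exact ⟨h, hFF' k hF1, hc, hc', h0⟩

end Pool.Agent.SLZ
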