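import Pool.Agent.SLZ.StR3

/-!
# SLZ, part R: the generator modules of the graph lattice are stably free (helper47)
-/

set_option autoImplicit false
set_option linter.unusedVariables false

noncomputable section

namespace Pool.Agent.SLZ

open Polynomial Function

section

variable {A : Type} [CommRing A]

private theorem rl4_iso (hP : St_FFP) {M P : Type} [AddCommGroup M] [Module A M] [AddCommGroup P]
    [Module A P] (g : M →ₗ[A] P) (K : Submodule A M) (hs : Surjective g)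
    (hK : ∀ v, v ∈ K ↔ g v = 0) (h : FF A 0 P) : FF A 0 (M ⧸ K) := by
  have e : K = LinearMap.ker g := by
    ext v
    rw [hK, LinearMap.mem_ker]
  subst e
  exact (hP A).1 0 P (M ⧸ LinearMap.ker g) (g.quotKerEquivOfSurjective hs).symm h

private theorem rl4_ext (hP : St_FFP) {M W : Type} [AddCommGroup M] [Module A M] [AddCommGroup W]
    [Module A W] (ψ : M →ₗ[A] W) (S R : Submodule A W) (K : Submodule A M)
    (hK : ∀ v, v ∈ K ↔ ψ v ∈ S) (hR : ∀ w, w ∈ R ↔ ∃ v, w - ψ v ∈ S)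
    (h1 : FF A 0 (M ⧸ K)) (h2 : FF A 0 (W ⧸ R)) : FF A 0 (W ⧸ S) := by
  have hSR : S ≤ R := fun w hw => (hR w).2 ⟨0, by rwa [map_zero, sub_zero]⟩
  have hKS : K ≤ S.comap ψ := fun v hv => (hK v).1 hv
  refine ((hP A).2.2.1 0 (M ⧸ K) (W ⧸ S) (W ⧸ R) (K.mapQ S ψ hKS)
    (S.mapQ R LinearMap.id hSR) ?_ ?_ ?_).1 h1 h2
  · rw [injective_iff_map_eq_zero]
    intro x hx
    obtain ⟨v, rfl⟩ := K.mkQ_surjective x
    rw [Submodule.mkQ_apply, Submodule.mapQ_apply, Submodule.Quotient.mk_eq_zero] at hx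
    rw [Submodule.mkQ_apply, Submodule.Quotient.mk_eq_zero]
    exact (hK v).2 hx
  · intro x
    obtain ⟨w, rfl⟩ := R.mkQ_surjective x
    exact ⟨S.mkQ w, rfl⟩
  · ext x
    obtain ⟨w, rfl⟩ := S.mkQ_surjective x
    rw [LinearMap.mem_ker, LinearMap.mem_range, Submodule.mkQ_apply, Submodule.mapQ_apply,
      Submodule.Quotient.mk_eq_zero, LinearMap.id_apply, hR w]
    constructor
    · rintro ⟨y, hy⟩
      obtain ⟨v, rfl⟩ := K.mkQ_surjective y
      rw [Submodule.mkQ_apply, Submodule.mapQ_apply, Submodule.Quotient.eq] at hy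
      refine ⟨v, ?_⟩
      have := S.neg_mem hy
      rwa [neg_sub] at this
    · rintro ⟨v, hv⟩
      refine ⟨K.mkQ v, ?_⟩
      rw [Submodule.mkQ_apply, Submodule.mapQ_apply, Submodule.Quotient.eq]
      have := S.neg_mem hv
      rwa [neg_sub] at this

private theorem rl4_sub {M : Type} [AddCommGroup M] [Module A M] (h : Subsingleton M) :
    FF A 0 M := by
  refine ⟨0, 0, ⟨⟨⟨⟨fun _ => 0, fun _ _ => (add_zero 0).symm⟩, fun _ _ => (smul_zero _).symm⟩, fun _ => 0,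
    fun _ => Subsingleton.elim _ _, fun _ => Subsingleton.elim _ _⟩⟩⟩

private theorem rl4_memJ {V : Type} [AddCommGroup V] [Module A V] [Module A[X] V]
    [IsScalarTower A A[X] V] (G : Lat A V) (k : ℤ) (v : V) :
    v ∈ jL G k ↔ ∃ a ∈ G (k - 1), ∃ b ∈ G (k - 1), v = a + (X : A[X]) • b := by
  unfold jL
  rw [Submodule.mem_sup]
  constructor
  · rintro ⟨a, ha, y, hy, rfl⟩
    obtain ⟨b, hb, rfl⟩ := Submodule.mem_map.1 hy
    exact ⟨a, ha, b, hb, rfl⟩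
  · rintro ⟨a, ha, b, hb, rfl⟩
    exact ⟨a, ha, _, Submodule.mem_map.2 ⟨b, hb, rfl⟩, rfl⟩

end

section

variable {A : Type} [CommRing A] [IsNoetherianRing A] {V : Type} [AddCommGroup V] [Module A V]
  [Module A[X] V] [IsScalarTower A A[X] V] {E F : Lat A V} {L : ℕ}
  {φ : ∀ k : ℤ, E k →ₗ[A] (Fin L → A)}

/-- the images of `F k` -/
private def rl4_S (φ : ∀ k : ℤ, E k →ₗ[A] (Fin L → A)) (F : Lat A V) (k : ℤ) :
    Submodule A (Fin L → A) := ((F k).submoduleOf (E k)).map (φ k)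

private theorem rl4_memS (hFE : F ≤ E) (k : ℤ) (c : Fin L → A) :
    c ∈ rl4_S φ F k ↔ ∃ (v : V) (h : v ∈ F k), φ k ⟨v, hFE k h⟩ = c := by
  unfold rl4_S
  rw [Submodule.mem_map]
  constructor
  · rintro ⟨v, hv, rfl⟩
    exact ⟨v.1, hv, rfl⟩
  · rintro ⟨v, hv, rfl⟩
    exact ⟨⟨v, hFE k hv⟩, hv, rfl⟩

/-- one step of the filtration of `A^L` -/
private theorem rl4_step (hP : St_FFP) (hB : St_RB1) (hRL1 : St_RL1) (hE : FL 0 E) (hF : FL 0 F)
    (hFE : LR F E)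
    (h1 : ∀ k (v : E k), φ k v = 0 ↔ (v : V) ∈ E (k - 1))
    (h2 : ∀ k (v : E k) (w : E (k + 1)), (w : V) = (X : A[X]) • (v : V) → φ (k + 1) w = φ k v)
    (k k' : ℤ) (hk : k' = k + 1) (h : FF A 0 ((Fin L → A) ⧸ rl4_S φ F k')) :
    FF A 0 ((Fin L → A) ⧸ rl4_S φ F k) := by
  subst hk
  have hsh : FL 0 (shL E (-1)) := ((hB A V V).1 E (-1)).2.2 0 hE
  have hlr : LR (shL E (-1)) F := by
    refine ⟨fun j => ?_, fun j => ?_⟩
    · have := hFE.2 (j + -1)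
      change E (j + -1) ≤ F j
      change E (j + -1) ≤ F (j + -1 + 1) at this
      rwa [show j + -1 + 1 = j by ring] at this
    · have := hFE.1 j
      change F j ≤ E (j + 1 + -1)
      rwa [show j + 1 + -1 = j by ring]
  have hq := (hRL1 A V (shL E (-1)) F hsh hF hlr (k + 1)).1
  have hle : F ≤ E := hFE.1
  have hψ : ∀ v : F (k + 1), (φ (k + 1) ∘ₗ Submodule.inclusion (hle (k + 1))) v =
    φ (k + 1) ⟨v.1, hle _ v.2⟩ := fun _ => rfl
  refine rl4_ext hP ((φ (k + 1)) ∘ₗ Submodule.inclusion (hle (k + 1))) (rl4_S φ F k)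
    (rl4_S φ F (k + 1)) _ ?_ ?_ hq h
  · intro v
    rw [hψ, rl4_memS hle]
    change (v : V) ∈ shL E (-1) (k + 1) ⊔ (F (k + 1 - 1)).map (xm A V) ↔ _
    rw [Submodule.mem_sup]
    constructor
    · rintro ⟨a, ha, y, hy, he⟩
      obtain ⟨w, hw, rfl⟩ := Submodule.mem_map.1 hy
      rw [add_sub_cancel_right] at hw
      refine ⟨w, hw, ?_⟩
      have hXw : (X : A[X]) • w ∈ F (k + 1) := hF.1.mulX k w hw
      rw [← h2 k ⟨w, hle k hw⟩ ⟨(X : A[X]) • w, hle _ hXw⟩ rfl, ← sub_eq_zero, ← map_sub]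
      refine (h1 _ _).2 ?_
      change (X : A[X]) • w - (v : V) ∈ _
      rw [← he]
      change (X : A[X]) • w - (a + (X : A[X]) • w) ∈ _
      rw [sub_add_cancel_right]
      exact (E _).neg_mem ha
    · rintro ⟨w, hw, he⟩
      have hXw : (X : A[X]) • w ∈ F (k + 1) := hF.1.mulX k w hw
      rw [← h2 k ⟨w, hle k hw⟩ ⟨(X : A[X]) • w, hle _ hXw⟩ rfl, ← sub_eq_zero, ← map_sub] at he
      have h3 := (h1 _ _).1 he
      refine ⟨(v : V) - (X : A[X]) • w, ?_, (X : A[X]) • w, ?_, by rw [sub_add_cancel]⟩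
      · have := (E _).neg_mem h3
        change -((X : A[X]) • w - (v : V)) ∈ _ at this
        rw [neg_sub] at this
        exact this
      · exact Submodule.mem_map.2 ⟨w, by rwa [add_sub_cancel_right], rfl⟩
  · intro w
    rw [rl4_memS hle]
    constructor
    · rintro ⟨v, hv, rfl⟩
      refine ⟨⟨v, hv⟩, ?_⟩
      rw [hψ, sub_self]
      exact Submodule.zero_mem _
    · rintro ⟨v, hv⟩
      rw [hψ, rl4_memS hle] at hv
      obtain ⟨u, hu, he⟩ := hv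
      have hXu : (X : A[X]) • u ∈ F (k + 1) := hF.1.mulX k u hu
      rw [← h2 k ⟨u, hle k hu⟩ ⟨(X : A[X]) • u, hle _ hXu⟩ rfl] at he
      refine ⟨(X : A[X]) • u + v.1, (F _).add_mem hXu v.2, ?_⟩
      have e : (⟨(X : A[X]) • u + v.1, hle _ ((F _).add_mem hXu v.2)⟩ : E (k + 1)) =
        ⟨(X : A[X]) • u, hle _ hXu⟩ + ⟨v.1, hle _ v.2⟩ := rfl
      rw [e, map_add, he]
      exact sub_add_cancel _ _

private theorem rl4_quo (hP : St_FFP) (hB : St_RB1) (hRL1 : St_RL1) (hE : FL 0 E) (hF : FL 0 F)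
    (hFE : LR F E)
    (h1 : ∀ k (v : E k), φ k v = 0 ↔ (v : V) ∈ E (k - 1))
    (h2 : ∀ k (v : E k) (w : E (k + 1)), (w : V) = (X : A[X]) • (v : V) → φ (k + 1) w = φ k v)
    (h3 : FF A 0 ((Fin L → A) ⧸ LinearMap.range (φ 0))) :
    FF A 0 ((Fin L → A) ⧸ rl4_S φ F (-2)) := by
  have hle : F ≤ E := hFE.1
  have h4 : FF A 0 ((Fin L → A) ⧸ rl4_S φ F 0) := by
    have hq := (hRL1 A V F E hF hE hFE 0).2
    refine rl4_ext hP (φ 0) (rl4_S φ F 0) (LinearMap.range (φ 0)) _ ?_ ?_ hq h3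
    · intro v
      rw [rl4_memS hle]
      change (v : V) ∈ F 0 ↔ _
      constructor
      · intro hv
        exact ⟨v.1, hv, rfl⟩
      · rintro ⟨w, hw, he⟩
        rw [← sub_eq_zero, ← map_sub] at he
        have h5 := (h1 _ _).1 he
        change w - v.1 ∈ E (0 - 1) at h5
        have h6 : w - v.1 ∈ F 0 := by
          have h7 := hFE.2 (0 - 1) h5
          change w - v.1 ∈ F (0 - 1 + 1) at h7
          rwa [sub_add_cancel] at h7
        have h8 := (F 0).sub_mem hw h6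
        rwa [sub_sub_cancel] at h8
    · intro w
      rw [LinearMap.mem_range]
      constructor
      · rintro ⟨v, rfl⟩
        refine ⟨v, ?_⟩
        rw [sub_self]
        exact Submodule.zero_mem _
      · rintro ⟨v, hv⟩
        rw [rl4_memS hle] at hv
        obtain ⟨u, hu, he⟩ := hv
        exact ⟨⟨u, hle _ hu⟩ + v, by rw [map_add, he, sub_add_cancel]⟩
  have h5 := rl4_step hP hB hRL1 hE hF hFE h1 h2 (-1) 0 (by norm_num) h4
  exact rl4_step hP hB hRL1 hE hF hFE h1 h2 (-2) (-1) (by norm_num) h5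

private theorem rl4_m1 (hFE : F ≤ E) (q : V × (Fin L → A[X])) :
    q ∈ grL φ F (-1) ↔ ∃ h : q.1 ∈ F (-1), q.2 = fun i => C (φ (-1) ⟨q.1, hFE _ h⟩ i) := by
  constructor
  · rintro ⟨h, hF, h1, h2, h3⟩
    refine ⟨hF, ?_⟩
    funext i
    ext n
    rw [coeff_C]
    split_ifs with hn
    · exact h2 i n (by rw [hn]; rfl)
    · exact h1 i n (by omega)
  · rintro ⟨h, h1⟩
    refine ⟨hFE _ h, h, fun i n hn => ?_, fun i n hn => ?_, fun hk => by omega⟩
    · rw [h1, coeff_C, if_neg (by omega)]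
    · rw [h1, coeff_C, if_pos (by omega)]

private theorem rl4_0 (hFE : F ≤ E) (q : V × (Fin L → A[X])) :
    q ∈ grL φ F 0 ↔ ∃ (h : q.1 ∈ F 0) (c : Fin L → A),
      q.2 = fun i => C (c i) + X * C (φ 0 ⟨q.1, hFE _ h⟩ i) := by
  constructor
  · rintro ⟨h, hF, h1, h2, h3⟩
    refine ⟨hF, fun i => (q.2 i).coeff 0, ?_⟩
    funext i
    ext n
    rw [coeff_add, coeff_C]
    rcases n with _ | _ | n
    · simp
    · rw [coeff_X_mul, coeff_C, if_pos rfl]
      have := h2 i 1 (by norm_num)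
      simp only [zero_add, one_ne_zero, if_false]
      exact this
    · rw [coeff_X_mul, coeff_C, if_neg (by omega), if_neg (by omega), add_zero]
      exact h1 i _ (by push_cast; omega)
  · rintro ⟨h, c, h1⟩
    refine ⟨hFE _ h, h, fun i n hn => ?_, fun i n hn => ?_, fun hk => by omega⟩
    · rw [h1]
      change (C (c i) + X * C (φ 0 ⟨q.1, _⟩ i)).coeff n = 0
      rcases n with _ | _ | n
      · norm_num at hn
      · norm_num at hn
      · rw [coeff_add, coeff_C, coeff_X_mul, coeff_C, if_neg (by omega), if_neg (by omega),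
          add_zero]
    · have hn' : n = 1 := by omega
      subst hn'
      rw [h1]
      change (C (c i) + X * C (φ 0 ⟨q.1, _⟩ i)).coeff 1 = _
      rw [coeff_add, coeff_C, coeff_X_mul, coeff_C, if_neg (by omega), if_pos rfl, zero_add]

/-- the first coordinate -/
private def rl4_fst (hle : F ≤ E) (k : ℤ) : grL φ F k →ₗ[A] F k where
  toFun q := ⟨q.1.1, by obtain ⟨h, h', _⟩ := q.2; exact h'⟩
  map_add' _ _ := rfl
  map_smul' _ _ := rfl

private theorem rl4_case_neg (hP : St_FFP) (hE : FL 0 E)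
    (hlow : ∀ k : ℤ, k ≤ -2 → ∀ q, q ∈ grL φ F k ↔ q.1 ∈ E (k - 1) ∧ q.2 = 0)
    (k : ℤ) (hk : k ≤ -2) : FF A 0 (H0 (grL φ F) k) := by
  let g0 : grL φ F k →ₗ[A] E (k - 1) :=
    { toFun := fun q => ⟨q.1.1, ((hlow k hk q.1).1 q.2).1⟩
      map_add' := fun _ _ => rfl
      map_smul' := fun _ _ => rfl }
  refine rl4_iso hP (((jL E (k - 1)).submoduleOf (E (k - 1))).mkQ ∘ₗ g0) _ ?_ ?_
    (hE.2.2 (k - 1))
  · refine (Submodule.mkQ_surjective _).comp ?_
    rintro ⟨v, hv⟩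
    exact ⟨⟨(v, 0), (hlow k hk _).2 ⟨hv, rfl⟩⟩, rfl⟩
  · intro q
    rw [LinearMap.comp_apply, Submodule.mkQ_apply, Submodule.Quotient.mk_eq_zero]
    change (q : V × (Fin L → A[X])) ∈ jL (grL φ F) k ↔ (q : V × (Fin L → A[X])).1 ∈ jL E (k - 1)
    rw [rl4_memJ, rl4_memJ]
    constructor
    · rintro ⟨a, ha, b, hb, he⟩
      rw [hlow (k - 1) (by omega)] at ha hb
      exact ⟨a.1, ha.1, b.1, hb.1, by rw [he]; rfl⟩
    · rintro ⟨a, ha, b, hb, he⟩
      refine ⟨(a, 0), (hlow (k - 1) (by omega) _).2 ⟨ha, rfl⟩, (b, 0),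
        (hlow (k - 1) (by omega) _).2 ⟨hb, rfl⟩, Prod.ext he ?_⟩
      rw [((hlow k hk _).1 q.2).2]
      change (0 : Fin L → A[X]) = 0 + (X : A[X]) • 0
      rw [smul_zero, add_zero]

private theorem rl4_case_m1 (hP : St_FFP) (hB : St_RB1) (hRL1 : St_RL1) (hE : FL 0 E) (hF : FL 0 F)
    (hFE : LR F E)
    (h1 : ∀ k (v : E k), φ k v = 0 ↔ (v : V) ∈ E (k - 1))
    (hlow : ∀ k : ℤ, k ≤ -2 → ∀ q, q ∈ grL φ F k ↔ q.1 ∈ E (k - 1) ∧ q.2 = 0) :
    FF A 0 (H0 (grL φ F) (-1)) := by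
  have hle : F ≤ E := hFE.1
  have hsh : FL 0 (shL E (-1)) := ((hB A V V).1 E (-1)).2.2 0 hE
  have hlr : LR (shL E (-1)) F := by
    refine ⟨fun j => ?_, fun j => ?_⟩
    · have := hFE.2 (j + -1)
      change E (j + -1) ≤ F j
      change E (j + -1) ≤ F (j + -1 + 1) at this
      rwa [show j + -1 + 1 = j by ring] at this
    · have := hFE.1 j
      change F j ≤ E (j + 1 + -1)
      rwa [show j + 1 + -1 = j by ring]
  have hq : FF A 0 ((F (-1)) ⧸ (E (-2)).submoduleOf (F (-1))) :=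
    (hRL1 A V (shL E (-1)) F hsh hF hlr (-1)).2
  have hEF : E (-2) ≤ F (-1) := hFE.2 (-2)
  have hJ : ∀ q : V × (Fin L → A[X]), q ∈ grL φ F (-1) →
      (q ∈ jL (grL φ F) (-1) ↔ q.1 ∈ jL E (-2)) := by
    intro q hq
    rw [rl4_memJ, rl4_memJ]
    constructor
    · rintro ⟨a, ha, b, hb, he⟩
      rw [hlow (-1 - 1) (by omega)] at ha hb
      exact ⟨a.1, ha.1, b.1, hb.1, by rw [he]; rfl⟩
    · rintro ⟨a, ha, b, hb, he⟩
      refine ⟨(a, 0), (hlow (-1 - 1) (by omega) _).2 ⟨ha, rfl⟩, (b, 0),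
        (hlow (-1 - 1) (by omega) _).2 ⟨hb, rfl⟩, Prod.ext he ?_⟩
      obtain ⟨hq1, hq2⟩ := (rl4_m1 hle q).1 hq
      have h3 : φ (-1) ⟨q.1, hle _ hq1⟩ = 0 := by
        refine (h1 _ _).2 ?_
        change q.1 ∈ E (-2)
        rw [he]
        exact (E _).add_mem (hE.1.mono _ ha) (hE.1.mulX _ _ hb)
      rw [hq2, h3]
      change _ = (0 : Fin L → A[X]) + (X : A[X]) • 0
      rw [smul_zero, add_zero]
      funext i
      exact C_0
  -- the quotient by the elements with first coordinate in `E (-2)`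
  have hR : FF A 0 ((grL φ F (-1)) ⧸ ((E (-2)).submoduleOf (F (-1))).comap (rl4_fst hle (-1))) := by
    refine rl4_iso hP (((E (-2)).submoduleOf (F (-1))).mkQ ∘ₗ rl4_fst hle (-1)) _ ?_ ?_ hq
    · refine (Submodule.mkQ_surjective _).comp ?_
      rintro ⟨v, hv⟩
      exact ⟨⟨(v, fun i => C (φ (-1) ⟨v, hle _ hv⟩ i)), (rl4_m1 hle _).2 ⟨hv, rfl⟩⟩, rfl⟩
    · intro q
      rw [LinearMap.comp_apply, Submodule.mkQ_apply, Submodule.Quotient.mk_eq_zero,
        Submodule.mem_comap]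
  have hmem : ∀ v ∈ E (-2), ((v, 0) : V × (Fin L → A[X])) ∈ grL φ F (-1) := by
    intro v hv
    refine (rl4_m1 hle _).2 ⟨hEF hv, ?_⟩
    have h3 : φ (-1) ⟨v, hle _ (hEF hv)⟩ = 0 := (h1 _ _).2 hv
    change (0 : Fin L → A[X]) = fun i => C (φ (-1) ⟨v, hle _ (hEF hv)⟩ i)
    rw [h3]
    funext i
    exact C_0.symm
  let ψ : E (-2) →ₗ[A] grL φ F (-1) :=
    { toFun := fun v => ⟨(v.1, 0), hmem v.1 v.2⟩
      map_add' := fun u v => Subtype.ext (Prod.ext rfl (add_zero (0 : Fin L → A[X])).symm)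
      map_smul' := fun c u => Subtype.ext (Prod.ext rfl (smul_zero (A := Fin L → A[X]) c).symm) }
  refine rl4_ext hP ψ _ _ ((jL E (-2)).submoduleOf (E (-2))) ?_ ?_ (hE.2.2 (-2)) hR
  · intro v
    exact (hJ _ (hmem v.1 v.2)).symm
  · intro q
    rw [Submodule.mem_comap]
    change q.1.1 ∈ E (-2) ↔ ∃ v, ((q - ψ v : grL φ F (-1)) : V × (Fin L → A[X])) ∈ jL (grL φ F) (-1)
    constructor
    · intro hq
      refine ⟨⟨q.1.1, hq⟩, ?_⟩
      rw [hJ _ (q - ψ ⟨q.1.1, hq⟩).2]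
      change q.1.1 - q.1.1 ∈ _
      rw [sub_self]
      exact Submodule.zero_mem _
    · rintro ⟨v, hv⟩
      rw [hJ _ (q - ψ v).2, rl4_memJ] at hv
      obtain ⟨a, ha, b, hb, he⟩ := hv
      change q.1.1 - v.1 = _ at he
      have h4 : a + (X : A[X]) • b ∈ E (-2) := (E _).add_mem (hE.1.mono (-3) ha) (hE.1.mulX (-3) _ hb)
      rw [← he] at h4
      have := (E _).add_mem h4 v.2
      rwa [sub_add_cancel] at this

private theorem rl4_case_0 (hP : St_FFP) (hB : St_RB1) (hRL1 : St_RL1) (hE : FL 0 E) (hF : FL 0 F)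
    (hFE : LR F E)
    (h1 : ∀ k (v : E k), φ k v = 0 ↔ (v : V) ∈ E (k - 1))
    (h2 : ∀ k (v : E k) (w : E (k + 1)), (w : V) = (X : A[X]) • (v : V) → φ (k + 1) w = φ k v)
    (h3 : FF A 0 ((Fin L → A) ⧸ LinearMap.range (φ 0))) :
    FF A 0 (H0 (grL φ F) 0) := by
  have hle : F ≤ E := hFE.1
  have hR : FF A 0 ((grL φ F 0) ⧸ ((jL F 0).submoduleOf (F 0)).comap (rl4_fst hle 0)) := by
    refine rl4_iso hP (((jL F 0).submoduleOf (F 0)).mkQ ∘ₗ rl4_fst hle 0) _ ?_ ?_ (hF.2.2 0)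
    · refine (Submodule.mkQ_surjective _).comp ?_
      rintro ⟨v, hv⟩
      exact ⟨⟨(v, fun i => C (0 : A) + X * C (φ 0 ⟨v, hle _ hv⟩ i)),
        (rl4_0 hle _).2 ⟨hv, 0, rfl⟩⟩, rfl⟩
    · intro q
      rw [LinearMap.comp_apply, Submodule.mkQ_apply, Submodule.Quotient.mk_eq_zero,
        Submodule.mem_comap]
  have hmem : ∀ c : Fin L → A, ((0, fun i => C (c i)) : V × (Fin L → A[X])) ∈ grL φ F 0 := by
    intro c
    refine (rl4_0 hle _).2 ⟨(F 0).zero_mem, c, ?_⟩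
    have h4 : φ 0 ⟨0, hle _ (F 0).zero_mem⟩ = 0 := (h1 _ _).2 (Submodule.zero_mem _)
    change (fun i => C (c i)) = fun i => C (c i) + X * C (φ 0 ⟨0, hle _ (F 0).zero_mem⟩ i)
    rw [h4]
    funext i
    change C (c i) = C (c i) + X * C 0
    rw [C_0, mul_zero, add_zero]
  let ψ : (Fin L → A) →ₗ[A] grL φ F 0 :=
    { toFun := fun c => ⟨(0, fun i => C (c i)), hmem c⟩
      map_add' := fun c d => Subtype.ext (Prod.ext (add_zero (0 : V)).symm
        (funext fun i => C_add))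
      map_smul' := fun c d => Subtype.ext (Prod.ext (smul_zero c).symm
        (funext fun i => by
          change C (c * d i) = c • C (d i)
          rw [smul_C, smul_eq_mul])) }
  have hm1 : ∀ (v : V) (hv : v ∈ F (-1)),
      ((v, fun i => C (φ (-1) ⟨v, hle _ hv⟩ i)) : V × (Fin L → A[X])) ∈ grL φ F (-1) :=
    fun v hv => (rl4_m1 hle _).2 ⟨hv, rfl⟩
  refine rl4_ext hP ψ _ _ (rl4_S φ F (-2)) ?_ ?_
    (rl4_quo hP hB hRL1 hE hF hFE h1 h2 h3) hR
  · intro c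
    rw [rl4_memS hle]
    change _ ↔ ((0, fun i => C (c i)) : V × (Fin L → A[X])) ∈ jL (grL φ F) 0
    rw [rl4_memJ]
    constructor
    · rintro ⟨w, hw, rfl⟩
      have hXw : (X : A[X]) • w ∈ F (-1) := hF.1.mulX (-2) w hw
      have hw1 : w ∈ F (-1) := hF.1.mono (-2) hw
      have hn := (F (-1)).neg_mem hw1
      refine ⟨_, hm1 _ hXw, _, hm1 _ hn, Prod.ext ?_ (funext fun i => ?_)⟩
      · change (0 : V) = (X : A[X]) • w + (X : A[X]) • (-w)
        rw [smul_neg, add_neg_cancel]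
      · have h4 : φ (-1) ⟨-w, hle _ hn⟩ = 0 := (h1 _ _).2 (hle _ ((F (-2)).neg_mem hw))
        have h5 : φ (-1) ⟨(X : A[X]) • w, hle _ hXw⟩ = φ (-2) ⟨w, hle _ hw⟩ := h2 (-2) _ _ rfl
        change C (φ (-2) ⟨w, hle _ hw⟩ i) = C (φ (-1) ⟨(X : A[X]) • w, hle _ hXw⟩ i) +
          (X : A[X]) • C (φ (-1) ⟨-w, hle _ hn⟩ i)
        rw [h4, h5]
        change _ = _ + (X : A[X]) • C 0
        rw [C_0, smul_zero, add_zero]
    · rintro ⟨a, ha, b, hb, he⟩
      obtain ⟨ha1, ha2⟩ := (rl4_m1 hle _).1 ha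
      obtain ⟨hb1, hb2⟩ := (rl4_m1 hle _).1 hb
      have e1 : (0 : V) = a.1 + (X : A[X]) • b.1 := congrArg Prod.fst he
      have e2 : (fun i => C (c i)) = a.2 + (X : A[X]) • b.2 := congrArg Prod.snd he
      have e3 : a.1 = (X : A[X]) • (-b.1) := by
        rw [smul_neg]
        exact (neg_eq_of_add_eq_zero_left e1.symm).symm
      have hb3 : -b.1 ∈ F (-2) := by
        refine hF.2.1 (-1) _ ((F (-1)).neg_mem hb1) ?_
        rw [← e3]
        exact ha1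
      refine ⟨-b.1, hb3, ?_⟩
      have h5 : φ (-1) ⟨a.1, hle _ ha1⟩ = φ (-2) ⟨-b.1, hle _ hb3⟩ := h2 (-2) _ _ e3
      rw [← h5]
      funext i
      have e4 := congrFun e2 i
      rw [ha2, hb2] at e4
      have e5 := congrArg (fun p : A[X] => p.coeff 0) e4
      simp only [Pi.add_apply, Pi.smul_apply, smul_eq_mul, coeff_add, coeff_C_zero,
        coeff_X_mul_zero, add_zero] at e5
      exact e5.symm
  · intro q
    rw [Submodule.mem_comap]
    change q.1.1 ∈ jL F 0 ↔ ∃ v, ((q - ψ v : grL φ F 0) : V × (Fin L → A[X])) ∈ jL (grL φ F) 0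
    constructor
    · intro hq
      rw [rl4_memJ] at hq
      obtain ⟨a, ha, b, hb, he⟩ := hq
      obtain ⟨hq1, c, hc⟩ := (rl4_0 hle _).1 q.2
      refine ⟨fun i => c i - φ (-1) ⟨a, hle _ ha⟩ i, ?_⟩
      rw [rl4_memJ]
      refine ⟨_, hm1 a ha, _, hm1 b hb, Prod.ext ?_ (funext fun i => ?_)⟩
      · change q.1.1 - 0 = a + (X : A[X]) • b
        rw [sub_zero, he]
      · change q.1.2 i - C (c i - φ (-1) ⟨a, hle _ ha⟩ i) = C (φ (-1) ⟨a, hle _ ha⟩ i) +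
          (X : A[X]) • C (φ (-1) ⟨b, hle _ hb⟩ i)
        have ha0 : a ∈ F 0 := hF.1.mono (-1) ha
        have hb0 : (X : A[X]) • b ∈ F 0 := hF.1.mulX (-1) _ hb
        have h4 : φ 0 ⟨q.1.1, hle _ hq1⟩ = φ (-1) ⟨b, hle _ hb⟩ := by
          have h5 : (⟨q.1.1, hle _ hq1⟩ : E 0) = ⟨a, hle _ ha0⟩ + ⟨(X : A[X]) • b, hle _ hb0⟩ :=
            Subtype.ext he
          have h6 : φ 0 ⟨a, hle _ ha0⟩ = 0 := (h1 _ _).2 (hle _ ha)
          have h7 : φ 0 ⟨(X : A[X]) • b, hle _ hb0⟩ = φ (-1) ⟨b, hle _ hb⟩ := h2 (-1) _ _ rfl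
          rw [h5, map_add, h6, h7, zero_add]
        rw [hc]
        change C (c i) + X * C (φ 0 ⟨q.1.1, hle _ hq1⟩ i) - _ = _
        rw [h4, C_sub, smul_eq_mul]
        ring
    · rintro ⟨c, hc⟩
      rw [rl4_memJ] at hc
      obtain ⟨a, ha, b, hb, he⟩ := hc
      obtain ⟨ha1, ha2⟩ := (rl4_m1 hle _).1 ha
      obtain ⟨hb1, hb2⟩ := (rl4_m1 hle _).1 hb
      have e1 : q.1.1 - 0 = a.1 + (X : A[X]) • b.1 := congrArg Prod.fst he
      rw [rl4_memJ]
      exact ⟨a.1, ha1, b.1, hb1, by rw [← e1, sub_zero]⟩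

end

theorem thm_RL4 (hFFP : St_FFP) (hRB1 : St_RB1) (hRB3 : St_RB3) (hRL1 : St_RL1)
    (hRL3 : St_RL3) : St_RL4 := by
  intro A _ _ V _ _ _ _ D hD E hE L φ h1 h2 h3 F hF hFE k
  obtain ⟨hI, hSat, hGE, hLE, -, -, hlow, -⟩ := hRL3 A V D hD E hE L φ h1 h2 F hF hFE
  rcases le_or_gt k (-2) with hk | hk
  · exact rl4_case_neg hFFP hE.1 hlow k hk
  rcases le_or_gt k 0 with hk0 | hk0
  · have hk' : k = -1 ∨ k = 0 := by omega
    rcases hk' with rfl | rfl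
    · exact rl4_case_m1 hFFP hRB1 hRL1 hE.1 hF.1 hFE h1 hlow
    · exact rl4_case_0 hFFP hRB1 hRL1 hE.1 hF.1 hFE h1 h2 h3
  · refine rl4_sub ?_
    obtain ⟨n, rfl⟩ : ∃ n : ℤ, k = n + 1 := ⟨k - 1, by ring⟩
    refine ⟨fun x y => ?_⟩
    have hz : ∀ x : H0 (grL φ F) (n + 1), x = 0 := by
      intro x
      obtain ⟨v, rfl⟩ := Submodule.mkQ_surjective _ x
      rw [Submodule.mkQ_apply, Submodule.Quotient.mk_eq_zero]
      change (v : V × (Fin L → A[X])) ∈ jL (grL φ F) (n + 1)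
      rw [rl4_memJ, add_sub_cancel_right]
      exact hGE n (by omega) v.1 v.2
    rw [hz x, hz y]

end Pool.Agent.SLZ
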