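import Pool.Agent.SLZ.StR3

/-!
# SLZ RL5: summary of the graph lattice
-/

set_option autoImplicit false

namespace Pool.Agent.SLZ

open Polynomial

theorem thm_RL5 (h2 : St_RL2) (h3 : St_RL3) (h4 : St_RL4) : St_RL5 := by
  intro A _ _ V _ _ _ _ D hD E hE
  obtain ⟨L, φ, p1, p2, _, p4⟩ := h2 A V E hE.1 hE.2.1
  refine ⟨L, fun F => grL φ F, fun F hF hFE => ?_⟩
  obtain ⟨a1, a2, a3, a4, a5, a6, _, a8⟩ := h3 A V D hD E hE L φ p1 p2 F hF hFE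
  exact ⟨⟨⟨a1, a2, h4 A V D hD E hE L φ p1 p2 p4 F hF hFE⟩, a3, a4⟩, a5, a6, a8⟩

end Pool.Agent.SLZ
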