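import Pool.Agent.SLZ.StR3
import Pool.Agent.SLZ.MA

/-!
# SLZ, module RM: from types `[0, D]` to types `[0, 1]` (helper94)
-/

set_option autoImplicit false
set_option linter.unusedVariables false

noncomputable section

namespace Pool.Agent.SLZ

open Polynomial Function

theorem rm_push_Ch {V W : Type} (A : Cx V) (B : Cx W) (f : V → W)
    (hf : ∀ l ∈ A.s, l.map f ∈ B.s) (j : ℕ) (z : List V →₀ ℤ) (hz : z ∈ Ch A.s j) :
    z.mapDomain (List.map f) ∈ Ch B.s j := by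
  classical
  rw [MA_mem] at hz ⊢
  intro l hl
  have h1 := Finsupp.mapDomain_support hl
  rw [Finset.mem_image] at h1
  obtain ⟨l', hl', rfl⟩ := h1
  exact ⟨hf l' (hz l' hl').1, by rw [List.length_map]; exact (hz l' hl').2⟩

theorem rm_push_comp {V W X : Type} (f : V → W) (g : W → X) (z : List V →₀ ℤ) :
    (z.mapDomain (List.map f)).mapDomain (List.map g) =
      z.mapDomain (List.map fun x => g (f x)) := by
  rw [← Finsupp.mapDomain_comp]
  congr 1
  funext l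
  show List.map g (List.map f l) = List.map (fun x => g (f x)) l
  rw [List.map_map]
  rfl

theorem rm_vts_fin {V : Type} (c : List V →₀ ℤ) : (vts c).Finite := by
  have h1 : vts c = ⋃ l ∈ c.support, {E | E ∈ l} := by
    unfold vts
    ext E
    simp
  rw [h1]
  exact Set.Finite.biUnion (Finset.finite_toSet _) fun l _ => List.finite_toSet l

section RM

variable {A : Type} [CommRing A] {V : Type} [AddCommGroup V] [Module A V] [Module A[X] V]
  [IsScalarTower A A[X] V]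

theorem rm_O1_mem {L : ℕ} (k : ℤ) (f : Fin L → A[X]) :
    f ∈ O1 A L k ↔ ∀ (i : Fin L) (n : ℕ), k + 1 < n → (f i).coeff n = 0 := by
  constructor
  · intro h i n hn
    have h1 := h i n hn
    rw [Pi.basisFun_repr] at h1
    exact h1
  · intro h i n hn
    rw [Pi.basisFun_repr]
    exact h i n hn

/-- the isomorphism `(V × A[X]^a) × A[X]^b ≅ V × A[X]^(a + b)` -/
def rm_iso (A : Type) [CommRing A] (V : Type) [AddCommGroup V] [Module A V] [Module A[X] V]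
    [IsScalarTower A A[X] V] (a b : ℕ) :
    ((V × (Fin a → A[X])) × (Fin b → A[X])) ≃ₗ[A[X]] (V × (Fin (a + b) → A[X])) :=
  (LinearEquiv.prodAssoc A[X] V (Fin a → A[X]) (Fin b → A[X])).trans
    (LinearEquiv.prodCongr (LinearEquiv.refl A[X] V)
      ((LinearEquiv.sumArrowLequivProdArrow (Fin a) (Fin b) A[X] A[X]).symm.trans
        (LinearEquiv.funCongrLeft A[X] A[X] finSumFinEquiv.symm)))

theorem rm_iso_apply (a b : ℕ) (v : V) (f : Fin a → A[X]) (g : Fin b → A[X]) :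
    rm_iso A V a b ((v, f), g) = (v, fun i => Sum.elim f g (finSumFinEquiv.symm i)) := rfl

theorem rm_iso_map (a b : ℕ) (E : Lat A V) :
    mapL (rm_iso A V a b) (prodL (prodL E (O1 A a)) (O1 A b)) = prodL E (O1 A (a + b)) := by
  funext k
  ext x
  constructor
  · rintro ⟨⟨⟨v, f⟩, g⟩, ⟨⟨h1, h2⟩, h3⟩, rfl⟩
    have h2' := (rm_O1_mem k f).1 h2
    have h3' := (rm_O1_mem k g).1 h3
    refine ⟨h1, ?_⟩
    apply (rm_O1_mem k _).2
    intro i n hn
    show (Sum.elim f g (finSumFinEquiv.symm i)).coeff n = 0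
    rcases finSumFinEquiv.symm i with c | c
    · exact h2' c n hn
    · exact h3' c n hn
  · rintro ⟨h1, h2⟩
    have h2' := (rm_O1_mem k x.2).1 h2
    refine ⟨((x.1, fun i => x.2 (finSumFinEquiv (Sum.inl i))),
      fun i => x.2 (finSumFinEquiv (Sum.inr i))), ⟨⟨h1, ?_⟩, ?_⟩, ?_⟩
    · apply (rm_O1_mem k _).2
      intro i n hn
      exact h2' _ n hn
    · apply (rm_O1_mem k _).2
      intro i n hn
      exact h2' _ n hn
    · show rm_iso A V a b ((x.1, fun i => x.2 (finSumFinEquiv (Sum.inl i))),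
        fun i => x.2 (finSumFinEquiv (Sum.inr i))) = x
      rw [rm_iso_apply]
      refine Prod.ext rfl ?_
      funext i
      show Sum.elim (fun i => x.2 (finSumFinEquiv (Sum.inl i)))
        (fun i => x.2 (finSumFinEquiv (Sum.inr i))) (finSumFinEquiv.symm i) = x.2 i
      obtain ⟨c, rfl⟩ := finSumFinEquiv.surjective i
      rw [Equiv.symm_apply_apply]
      rcases c with c | c
      · rfl
      · rfl

end RM

theorem rm_SD_map (hRB1 : St_RB1) (hRB3 : St_RB3) {A : Type} [CommRing A] [IsNoetherianRing A]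
    {V : Type} [AddCommGroup V] [Module A V] [Module A[X] V] [IsScalarTower A A[X] V]
    {V' : Type} [AddCommGroup V'] [Module A V'] [Module A[X] V'] [IsScalarTower A A[X] V']
    (D : ℕ) (E : Lat A V) (hE : E ∈ SD A V D) (g : V ≃ₗ[A[X]] V') : mapL g E ∈ SD A V' D :=
  ⟨(hRB3 A V V').1 0 E g hE.1, ((hRB1 A V V').2.1 E g).2.2.1 hE.2.1,
    ((hRB1 A V V').2.1 E g).2.2.2 D hE.2.2⟩

theorem rm_O1_SD (hRB3 : St_RB3) {A : Type} [CommRing A] [IsNoetherianRing A] (L D : ℕ)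
    (hD : 1 ≤ D) : O1 A L ∈ SD A (Fin L → A[X]) D := by
  have h := (hRB3 A (Fin L → A[X]) (Fin L → A[X])).2.2 (Fin L) (Pi.basisFun A[X] (Fin L))
    (fun _ => 1) (fun _ => 1)
  refine ⟨h.1, h.2.1 fun _ => zero_le_one, h.2.2.1 D fun _ => ?_⟩
  exact_mod_cast hD

theorem rm_prod_SD (hRB1 : St_RB1) (hRB3 : St_RB3) {A : Type} [CommRing A] [IsNoetherianRing A]
    {V : Type} [AddCommGroup V] [Module A V] [Module A[X] V] [IsScalarTower A A[X] V]
    (L D : ℕ) (hD : 1 ≤ D) (E : Lat A V) (hE : E ∈ SD A V D) :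
    prodL E (O1 A L) ∈ SD A (V × (Fin L → A[X])) D := by
  have h := rm_O1_SD hRB3 (A := A) L D hD
  exact ⟨(hRB3 A V (Fin L → A[X])).2.1 0 E _ hE.1 h.1,
    ((hRB1 A V (Fin L → A[X])).2.2.2.2.1 E _).2.2.1 hE.2.1 h.2.1,
    ((hRB1 A V (Fin L → A[X])).2.2.2.2.1 E _).2.2.2 D hE.2.2 h.2.2⟩

theorem rm_prod_LR (hRB1 : St_RB1) (hRB2 : St_RB2) (hRB3 : St_RB3) {A : Type} [CommRing A]
    [IsNoetherianRing A] {V : Type} [AddCommGroup V] [Module A V] [Module A[X] V]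
    [IsScalarTower A A[X] V] (L : ℕ) (E F : Lat A V) (h : adjL E F) :
    adjL (prodL E (O1 A L)) (prodL F (O1 A L)) := by
  have h0 := rm_O1_SD hRB3 (A := A) L 1 le_rfl
  have h1 : LR (O1 A L) (O1 A L) :=
    ((hRB1 A (Fin L → A[X]) V).2.2.2.2.2.2 _ h0.1.1).1
  rcases h with h | h
  · exact Or.inl ((((hRB2 A V (Fin L → A[X])).2.1 E F _ _ 0).1).2 ⟨h, h1⟩)
  · exact Or.inr ((((hRB2 A V (Fin L → A[X])).2.1 F E _ _ 0).1).2 ⟨h, h1⟩)

/-- chains of `SD` are mapped to chains of `SD` -/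
theorem rm_push_prod (hRB1 : St_RB1) (hRB2 : St_RB2) (hRB3 : St_RB3) {A : Type} [CommRing A]
    [IsNoetherianRing A] {V : Type} [AddCommGroup V] [Module A V] [Module A[X] V]
    [IsScalarTower A A[X] V] (L D : ℕ) (hD : 1 ≤ D) (j : ℕ) (z : List (Lat A V) →₀ ℤ)
    (hz : z ∈ Ch (Fl adjL (SD A V D)).s j) :
    z.mapDomain (List.map fun F => prodL F (O1 A L)) ∈
      Ch (Fl adjL (SD A (V × (Fin L → A[X])) D)).s j := by
  refine rm_push_Ch (Fl adjL (SD A V D)) (Fl adjL (SD A (V × (Fin L → A[X])) D)) _ ?_ j z hz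
  intro l hl x' hx'
  obtain ⟨x, hx, rfl⟩ := List.mem_map.1 hx'
  refine ⟨rm_prod_SD hRB1 hRB3 L D hD x (hl x hx).1, ?_⟩
  intro y' hy'
  obtain ⟨y, hy, rfl⟩ := List.mem_map.1 hy'
  exact rm_prod_LR hRB1 hRB2 hRB3 L x y ((hl x hx).2 y hy)

/-- composition of two steps -/
theorem rm_comb (hMA : St_MA) (hRB1 : St_RB1) (hRB2 : St_RB2) (hRB3 : St_RB3) {A : Type}
    [CommRing A] [IsNoetherianRing A] {V : Type} [AddCommGroup V] [Module A V] [Module A[X] V]
    [IsScalarTower A A[X] V] (a b D j : ℕ) (c : List (Lat A V) →₀ ℤ)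
    (y : List (Lat A ((V × (Fin a → A[X])) × (Fin b → A[X]))) →₀ ℤ)
    (hy : y ∈ Ch (Fl adjL (SD A ((V × (Fin a → A[X])) × (Fin b → A[X])) D)).s (j + 1))
    (hb : bd y = (c.mapDomain (List.map fun F => prodL F (O1 A a))).mapDomain
      (List.map fun F => prodL F (O1 A b))) :
    ∃ (L : ℕ), ∃ y' ∈ Ch (Fl adjL (SD A (V × (Fin L → A[X])) D)).s (j + 1),
      bd y' = c.mapDomain (List.map fun F => prodL F (O1 A L)) := by
  refine ⟨a + b, y.mapDomain (List.map (mapL (rm_iso A V a b))), ?_, ?_⟩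
  · refine rm_push_Ch (Fl adjL (SD A ((V × (Fin a → A[X])) × (Fin b → A[X])) D))
      (Fl adjL (SD A (V × (Fin (a + b) → A[X])) D)) _ ?_ (j + 1) y hy
    intro l hl x' hx'
    obtain ⟨x, hx, rfl⟩ := List.mem_map.1 hx'
    refine ⟨rm_SD_map hRB1 hRB3 D x (hl x hx).1 _, ?_⟩
    intro y' hy'
    obtain ⟨y, hy, rfl⟩ := List.mem_map.1 hy'
    exact (((hRB2 A _ _).1 x y (rm_iso A V a b) 0).2.1).2 ((hl x hx).2 y hy)
  · rw [(hMA _).2.2.2.1, hb, rm_push_comp, rm_push_comp]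
    congr 1
    congr 1
    funext F
    exact rm_iso_map a b F

/-- from `D` to `D - 1`, induction on the number of bad vertices -/
theorem rm_step (hMA : St_MA) (hRB1 : St_RB1) (hRB2 : St_RB2) (hRB3 : St_RB3) (hRM1 : St_RM1)
    (A : Type) [CommRing A] [IsNoetherianRing A] (D : ℕ) (hD : 2 ≤ D) (j n : ℕ) :
    ∀ (V : Type) [AddCommGroup V] [Module A V] [Module A[X] V] [IsScalarTower A A[X] V],
      ∀ y ∈ Ch (Fl adjL (SD A V D)).s (j + 1), bd y ∈ Ch (Fl adjL (SD A V 1)).s j →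
      {F | F ∈ vts y ∧ ¬ LE1 (D - 1) F}.ncard ≤ n →
      ∃ (L : ℕ), ∃ y' ∈ Ch (Fl adjL (SD A (V × (Fin L → A[X])) (D - 1))).s (j + 1),
        bd y' = (bd y).mapDomain (List.map fun F => prodL F (O1 A L)) := by
  classical
  induction n with
  | zero =>
    intro V _ _ _ _ y hy hby hn
    have hfin : {F | F ∈ vts y ∧ ¬ LE1 (D - 1) F}.Finite :=
      (rm_vts_fin y).subset fun F hF => hF.1
    have h0 : {F | F ∈ vts y ∧ ¬ LE1 (D - 1) F} = ∅ := (Set.ncard_eq_zero hfin).1 (by omega)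
    have hy1 : y ∈ Ch (Fl adjL (SD A V (D - 1))).s (j + 1) := by
      rw [MA_mem] at hy ⊢
      intro l hl
      refine ⟨fun x hx => ⟨⟨((hy l hl).1 x hx).1.1, ((hy l hl).1 x hx).1.2.1, ?_⟩,
        ((hy l hl).1 x hx).2⟩, (hy l hl).2⟩
      by_contra h
      have h1 : x ∈ ({F | F ∈ vts y ∧ ¬ LE1 (D - 1) F} : Set (Lat A V)) := ⟨⟨l, hl, hx⟩, h⟩
      rw [h0] at h1
      exact h1
    refine ⟨0, y.mapDomain (List.map fun F => prodL F (O1 A 0)),
      rm_push_prod hRB1 hRB2 hRB3 0 (D - 1) (by omega) (j + 1) y hy1, ?_⟩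
    rw [(hMA _).2.2.2.1]
  | succ n ih =>
    intro V _ _ _ _ y hy hby hn
    by_cases hemp : {F | F ∈ vts y ∧ ¬ LE1 (D - 1) F} = ∅
    · exact ih V y hy hby (by rw [hemp, Set.ncard_empty]; exact Nat.zero_le _)
    have hfin : {F | F ∈ vts y ∧ ¬ LE1 (D - 1) F}.Finite :=
      (rm_vts_fin y).subset fun F hF => hF.1
    have hne : {F | F ∈ vts y ∧ ¬ LE1 (D - 1) F}.Nonempty := Set.nonempty_iff_ne_empty.2 hemp
    obtain ⟨E, hEm⟩ := hfin.exists_maximal hne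
    have hE := hEm.1
    have hmax : ∀ F ∈ vts y, ¬ LE1 (D - 1) F → E ≤ F → F = E := by
      intro F hF hF1 hEF
      exact le_antisymm (hEm.2 (show F ∈ {F | F ∈ vts y ∧ ¬ LE1 (D - 1) F} from ⟨hF, hF1⟩) hEF) hEF
    obtain ⟨L, y₁, hy₁, hby₁, hv⟩ := hRM1 A V D hD j y hy hby E hE.1 hE.2 hmax
    have hbad : {G | G ∈ vts y₁ ∧ ¬ LE1 (D - 1) G} ⊆
        (fun F => prodL F (O1 A L)) '' ({F | F ∈ vts y ∧ ¬ LE1 (D - 1) F} \ {E}) := by
      rintro G ⟨hG, hG1⟩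
      rcases hv G hG with h | ⟨F, hF, hFE, rfl⟩
      · exact absurd h hG1
      · refine ⟨F, ⟨⟨hF, fun h => hG1 ?_⟩, hFE⟩, rfl⟩
        exact ((hRB1 A V (Fin L → A[X])).2.2.2.2.1 F _).2.2.2 (D - 1) h
          (rm_O1_SD hRB3 (A := A) L (D - 1) (by omega)).2.2
    have hcard : {G | G ∈ vts y₁ ∧ ¬ LE1 (D - 1) G}.ncard ≤ n := by
      have h1 := Set.ncard_le_ncard hbad ((hfin.subset Set.diff_subset).image _)
      have h2 := Set.ncard_image_le (f := fun F : Lat A V => prodL F (O1 A L))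
        (hfin.subset (Set.diff_subset (t := {E})))
      have h3 := Set.ncard_diff_singleton_lt_of_mem hE hfin
      omega
    have hby₂ : bd y₁ ∈ Ch (Fl adjL (SD A (V × (Fin L → A[X])) 1)).s j := by
      rw [hby₁]
      exact rm_push_prod hRB1 hRB2 hRB3 L 1 le_rfl j _ hby
    obtain ⟨L₂, y₂, hy₂, hb₂⟩ := ih (V × (Fin L → A[X])) y₁ hy₁ hby₂ hcard
    rw [hby₁] at hb₂
    exact rm_comb hMA hRB1 hRB2 hRB3 L L₂ (D - 1) j (bd y) y₂ hy₂ hb₂

theorem thm_RM (hMA : St_MA) (hRB1 : St_RB1) (hRB2 : St_RB2) (hRB3 : St_RB3) (hRM1 : St_RM1) :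
    St_RM := by
  intro A _ _ V _ _ _ _ D hD j
  obtain ⟨d, rfl⟩ : ∃ d, D = d + 1 := ⟨D - 1, by omega⟩
  clear hD
  have key : ∀ (d : ℕ) (V : Type) [AddCommGroup V] [Module A V] [Module A[X] V]
      [IsScalarTower A A[X] V], ∀ y ∈ Ch (Fl adjL (SD A V (d + 1))).s (j + 1),
      bd y ∈ Ch (Fl adjL (SD A V 1)).s j →
      ∃ (L : ℕ), ∃ y' ∈ Ch (Fl adjL (SD A (V × (Fin L → A[X])) 1)).s (j + 1),
        bd y' = (bd y).mapDomain (List.map fun F => prodL F (O1 A L)) := by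
    intro d
    induction d with
    | zero =>
      intro V _ _ _ _ y hy hby
      refine ⟨0, y.mapDomain (List.map fun F => prodL F (O1 A 0)),
        rm_push_prod hRB1 hRB2 hRB3 0 1 le_rfl (j + 1) y hy, ?_⟩
      rw [(hMA _).2.2.2.1]
    | succ d ih =>
      intro V _ _ _ _ y hy hby
      obtain ⟨L, y₁, hy₁, hby₁⟩ := rm_step hMA hRB1 hRB2 hRB3 hRM1 A (d + 1 + 1) (by omega) j _ V y
        hy hby le_rfl
      have hby₂ : bd y₁ ∈ Ch (Fl adjL (SD A (V × (Fin L → A[X])) 1)).s j := by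
        rw [hby₁]
        exact rm_push_prod hRB1 hRB2 hRB3 L 1 le_rfl j _ hby
      obtain ⟨L₂, y₂, hy₂, hb₂⟩ := ih (V × (Fin L → A[X])) y₁ hy₁ hby₂
      rw [hby₁] at hb₂
      exact rm_comb hMA hRB1 hRB2 hRB3 L L₂ 1 j (bd y) y₂ hy₂ hb₂
  exact key d V

end Pool.Agent.SLZ
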