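import Pool.Agent.SLZ.StR3

/-!
# SLZ, RM1: removing one vertex (helper59)
-/

set_option autoImplicit false
set_option linter.unusedVariables false

noncomputable section

namespace Pool.Agent.SLZ

open Polynomial Function

theorem rm1_mem_Ch {V : Type} {s : Set (List V)} {j : ℕ} {z : List V →₀ ℤ} :
    z ∈ Ch s j ↔ ∀ l ∈ z.support, l ∈ s ∧ l.length = j := by
  unfold Ch
  rw [Finsupp.mem_supported]
  constructor
  · intro h l hl
    exact h (Finset.mem_coe.2 hl)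
  · intro h l hl
    exact h l (Finset.mem_coe.1 hl)

theorem rm1_map {V W : Type} {t : Set (List W)} {j : ℕ} {z : List V →₀ ℤ}
    (g : V → W) (h : ∀ l ∈ z.support, l.map g ∈ t ∧ l.length = j) :
    z.mapDomain (List.map g) ∈ Ch t j := by
  classical
  rw [rm1_mem_Ch]
  intro l hl
  have h1 := Finsupp.mapDomain_support hl
  rw [Finset.mem_image] at h1
  obtain ⟨l', hl', rfl⟩ := h1
  exact ⟨(h l' hl').1, by rw [List.length_map]; exact (h l' hl').2⟩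

/-- the star of a vertex -/
def rm1_star {V : Type} (K : Cx V) (v : V) : Cx V where
  s := {l | (v :: l) ∈ K.s}
  mono l l' h hl := K.mono _ _ (List.cons_subset_cons v h) hl

/-- the full simplex on a set of vertices -/
def rm1_full {V : Type} (S : Set V) : Cx V where
  s := {l | ∀ x ∈ l, x ∈ S}
  mono l l' h hl x hx := hl x (h hx)

theorem thm_RM1 (hMA : St_MA) (hA2 : St_RA2) (hB1 : St_RB1) (hB2 : St_RB2) (hB3 : St_RB3)
    (hL5 : St_RL5) : St_RM1 := by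
  classical
  intro A _ _ V _ _ _ _ D hD j y hy hby E hE hnE hmax
  obtain ⟨m1, m2, m3, m4, -, -, -⟩ := hMA (Lat A V)
  have hy' := rm1_mem_Ch.1 hy
  have hvy : ∀ F ∈ vts y, F ∈ SD A V D := by
    rintro F ⟨l, hl, hF⟩
    exact ((hy' l hl).1 F hF).1
  have hESD : E ∈ SD A V D := hvy E hE
  let K : Cx (Lat A V) := Fl adjL (SD A V D)
  let y₁ := y.filter (fun l => E ∈ l)
  let y₀ := y.filter (fun l => ¬ E ∈ l)
  have hsum : y₁ + y₀ = y := Finsupp.filter_add_filter_not y _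
  have hy1 : ∀ l ∈ y₁.support, l ∈ y.support ∧ E ∈ l := by
    intro l hl
    rw [Finsupp.support_filter, Finset.mem_filter] at hl
    exact hl
  have hy0 : ∀ l ∈ y₀.support, l ∈ y.support ∧ E ∉ l := by
    intro l hl
    rw [Finsupp.support_filter, Finset.mem_filter] at hl
    exact hl
  let w := bd y₁
  have hbw : bd w = 0 := m1 _
  have hbsum : w + bd y₀ = bd y := by
    change bd y₁ + bd y₀ = bd y
    rw [← map_add, hsum]
  -- LE1 is monotone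
  have hLEm : ∀ (F : Lat A V), IsLat F → ∀ a b : ℕ, a ≤ b → LE1 a F → LE1 b F := fun F hF a b hab =>
    ((hB1 A V V).2.2.2.2.2.2 F hF).2.2.2 a b hab
  -- lists without E
  have hby' : bd y ∈ Ch (del K E).s j := by
    rw [rm1_mem_Ch]
    intro l hl
    obtain ⟨h1, h2⟩ := rm1_mem_Ch.1 hby l hl
    refine ⟨⟨fun hEl => ?_, fun x hx => ⟨?_, (h1 x hx).2⟩⟩, h2⟩
    · have h3 := (h1 E hEl).1
      exact hnE (hLEm E h3.1.1 1 (D - 1) (by omega) h3.2.2)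
    · have h3 := (h1 x hx).1
      exact ⟨h3.1, h3.2.1, hLEm x h3.1.1 1 D (by omega) h3.2.2⟩
  have hby0 : bd y₀ ∈ Ch (del K E).s j := by
    refine (m3 (del K E) j).2 _ ?_
    rw [rm1_mem_Ch]
    intro l hl
    obtain ⟨h1, h2⟩ := hy0 l hl
    exact ⟨⟨h2, (hy' l h1).1⟩, (hy' l h1).2⟩
  have hw1 : w ∈ Ch (del K E).s j := by
    have h1 : w = bd y - bd y₀ := by rw [← hbsum]; abel
    rw [h1]
    exact Submodule.sub_mem _ hby' hby0
  have hw2 : w ∈ Ch (rm1_star K E).s j := by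
    refine (m3 (rm1_star K E) j).2 _ ?_
    rw [rm1_mem_Ch]
    intro l hl
    obtain ⟨h1, h2⟩ := hy1 l hl
    refine ⟨?_, (hy' l h1).2⟩
    refine K.mono l (E :: l) ?_ (hy' l h1).1
    intro x hx
    rcases List.mem_cons.1 hx with rfl | hx
    · exact h2
    · exact hx
  have hw3 : w ∈ Ch (rm1_full (vts y)).s j := by
    refine (m3 (rm1_full (vts y)) j).2 _ ?_
    rw [rm1_mem_Ch]
    intro l hl
    obtain ⟨h1, h2⟩ := hy1 l hl
    exact ⟨fun x hx => ⟨l, h1, hx⟩, (hy' l h1).2⟩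
  rw [rm1_mem_Ch] at hw1 hw2 hw3
  let Y := vts w
  have hY : ∀ F ∈ Y, F ∈ vts y ∧ F ∈ SD A V D ∧ F ≠ E ∧ LR F E := by
    rintro F ⟨l, hl, hF⟩
    have h1 : F ∈ vts y := (hw3 l hl).1 F hF
    have h2 : F ≠ E := by
      rintro rfl
      exact (hw1 l hl).1.1 hF
    have h3 : adjL E F := ((hw2 l hl).1 E List.mem_cons_self).2 F (List.mem_cons_of_mem _ hF)
    refine ⟨h1, hvy F h1, h2, ?_⟩
    rcases h3 with h3 | h3
    · exfalso
      refine h2 (hmax F h1 (fun h4 => hnE ?_) h3.1)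
      have h5 := h3.1 (-((D - 1 : ℕ) : ℤ) - 1)
      have h6 : F (-((D - 1 : ℕ) : ℤ) - 1) = ⊥ := h4
      rw [h6] at h5
      exact le_bot_iff.1 h5
    · exact h3
  have hwY : w ∈ Ch (Fl adjL Y).s j := by
    rw [rm1_mem_Ch]
    intro l hl
    refine ⟨fun x hx => ⟨⟨l, hl, hx⟩, fun z hz => ?_⟩, (hw1 l hl).2⟩
    exact ((hw1 l hl).1.2 x hx).2 z hz
  obtain ⟨L, Γ, hΓ⟩ := hL5 A V D hD E hESD
  have hEE : LR E E := ((hB1 A V V).2.2.2.2.2.2 E hESD.1.1).1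
  obtain ⟨e1, e2, e3, e4⟩ := hΓ E hESD hEE
  have hW := hB1 A (V × (Fin L → A[X])) V
  obtain ⟨-, -, c3, -, -⟩ := hB2 A (V × (Fin L → A[X])) V
  -- O(1)^L
  have hO := (hB3 A (Fin L → A[X]) V).2.2 (Fin L) (Pi.basisFun A[X] (Fin L)) (fun _ => 1) (fun _ => 1)
  have hO1 : FL 0 (O1 A L) := hO.1
  have hOO : LR (O1 A L) (O1 A L) := ((hB1 A (Fin L → A[X]) V).2.2.2.2.2.2 _ hO1.1).1
  let g : Lat A V → Lat A (V × (Fin L → A[X])) := fun F => prodL F (O1 A L)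
  have hgLR : ∀ F F' : Lat A V, LR F F' → LR (g F) (g F') := fun F F' h =>
    (((hB2 A V (Fin L → A[X])).2.1 F F' (O1 A L) (O1 A L) 0).1).2 ⟨h, hOO⟩
  have hgSD : ∀ F ∈ SD A V D, g F ∈ SD A (V × (Fin L → A[X])) D := by
    intro F hF
    refine ⟨(hB3 A V (Fin L → A[X])).2.1 0 _ _ hF.1 hO1, ?_, ?_⟩
    · exact ((hB1 A V (Fin L → A[X])).2.2.2.2.1 F (O1 A L)).2.2.1 hF.2.1 (hO.2.1 fun _ => by norm_num)
    · refine ((hB1 A V (Fin L → A[X])).2.2.2.2.1 F (O1 A L)).2.2.2 D hF.2.2 (hO.2.2.1 D fun _ => ?_)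
      exact_mod_cast (by omega : 1 ≤ D)
  have hpos : prodL E (O1 A L) = shL (shL (prodL E (O1 A L)) (-1)) 1 := by
    rw [(c3 (prodL E (O1 A L)) (Γ E) (-1) 1).2.1]
    have h1 : (-1 : ℤ) + 1 = 0 := by norm_num
    rw [h1, (c3 (prodL E (O1 A L)) (Γ E) 0 0).2.2.1]
  have hclaim : ∀ G G' : Lat A (V × (Fin L → A[X])), G ≤ G' → shL (prodL E (O1 A L)) (-1) ≤ G →
      G' ≤ prodL E (O1 A L) → LR G G' := by
    intro G G' h1 h2 h3
    refine ⟨h1, h3.trans ?_⟩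
    rw [hpos]
    exact (c3 _ G 1 0).2.2.2 h2
  let S : Set (Lat A (V × (Fin L → A[X]))) := {G | G ∈ SD A (V × (Fin L → A[X])) D ∧
    (LE1 (D - 1) G ∨ ∃ F ∈ vts y, F ≠ E ∧ G = prodL F (O1 A L))}
  have hΓS : ∀ F ∈ SD A V D, LR F E → Γ F ∈ S := by
    intro F hF hFE
    obtain ⟨h1, -, -, -⟩ := hΓ F hF hFE
    exact ⟨⟨h1.1, h1.2.1, (hW.2.2.2.2.2.2 _ h1.1.1).2.2.2 (D - 1) D (by omega) h1.2.2⟩,
      Or.inl h1.2.2⟩
  have hgle : ∀ F F' : Lat A V, F ≤ F' → g F ≤ g F' := by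
    intro F F' h k q hq
    exact ⟨h k hq.1, hq.2⟩
  obtain ⟨b1, hb1, hbb1⟩ := hA2 A V (V × (Fin L → A[X])) Y S Γ g
    (fun F hF => ⟨hΓS F (hY F hF).2.1 (hY F hF).2.2.2, hgSD F (hY F hF).2.1,
      Or.inr ⟨F, (hY F hF).1, (hY F hF).2.2.1, rfl⟩⟩)
    (by
      intro F hF F' hF' hFF'
      obtain ⟨-, f2, f3, f4⟩ := hY F hF
      obtain ⟨-, f2', f3', f4'⟩ := hY F' hF'
      obtain ⟨u1, u2, u3, u4⟩ := hΓ F f2 f4
      obtain ⟨v1, v2, v3, v4⟩ := hΓ F' f2' f4'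
      have h1 : Γ F ≤ Γ F' := u4 F' f2' f4' hFF'.1
      exact ⟨hclaim _ _ h1 u3 (v2.trans (hgle _ _ f4'.1)), hgLR _ _ hFF',
        hclaim _ _ (h1.trans v2) u3 (hgle _ _ f4'.1)⟩) j w hwY hbw
  obtain ⟨b2, hb2, hbb2⟩ := hA2 A V (V × (Fin L → A[X])) Y S Γ (fun _ => Γ E)
    (fun F hF => ⟨hΓS F (hY F hF).2.1 (hY F hF).2.2.2, hΓS E hESD hEE⟩)
    (by
      intro F hF F' hF' hFF'
      obtain ⟨-, f2, f3, f4⟩ := hY F hF
      obtain ⟨-, f2', f3', f4'⟩ := hY F' hF'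
      obtain ⟨u1, u2, u3, u4⟩ := hΓ F f2 f4
      obtain ⟨v1, v2, v3, v4⟩ := hΓ F' f2' f4'
      have h1 : Γ F ≤ Γ F' := u4 F' f2' f4' hFF'.1
      have h2 : Γ F ≤ Γ E := u4 E hESD hEE f4.1
      exact ⟨hclaim _ _ h1 u3 (v2.trans (hgle _ _ f4'.1)), hclaim _ _ le_rfl e3 e2,
        hclaim _ _ h2 u3 e2⟩) j w hwY hbw
  let w3 : List (Lat A (V × (Fin L → A[X]))) →₀ ℤ := w.mapDomain (List.map fun _ => Γ E)
  obtain ⟨n1, n2, n3, n4, -, -, -⟩ := hMA (Lat A (V × (Fin L → A[X])))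
  have hw3b : bd w3 = 0 := by
    change bd (w.mapDomain (List.map fun _ => Γ E)) = 0
    rw [m4, hbw, Finsupp.mapDomain_zero]
  let b3 := consC (Γ E) w3
  have hbb3 : bd b3 = w3 := by
    change bd (consC (Γ E) w3) = w3
    rw [n2, hw3b, map_zero, sub_zero]
  have hb3 : b3 ∈ Ch (Fl adjL S).s (j + 1) := by
    rw [rm1_mem_Ch]
    intro l hl
    have h1 : b3 = w3.mapDomain (List.cons (Γ E)) := rfl
    rw [h1] at hl
    have h2 := Finsupp.mapDomain_support hl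
    rw [Finset.mem_image] at h2
    obtain ⟨l', hl', rfl⟩ := h2
    have h3 := Finsupp.mapDomain_support hl'
    rw [Finset.mem_image] at h3
    obtain ⟨l'', hl'', rfl⟩ := h3
    have h5 : ∀ x ∈ Γ E :: l''.map (fun _ => Γ E), x = Γ E := by
      intro x hx
      rcases List.mem_cons.1 hx with rfl | hx
      · rfl
      · obtain ⟨_, -, rfl⟩ := List.mem_map.1 hx
        rfl
    refine ⟨fun x hx => ?_, by rw [List.length_cons, List.length_map, (hw1 l'' hl'').2]⟩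
    rw [h5 x hx]
    refine ⟨hΓS E hESD hEE, fun y hy => ?_⟩
    rw [h5 y hy]
    exact Or.inl (hclaim _ _ le_rfl e3 e2)
  have hg0 : y₀.mapDomain (List.map g) ∈ Ch (Fl adjL S).s (j + 1) := by
    refine rm1_map g fun l hl => ?_
    obtain ⟨h1, h2⟩ := hy0 l hl
    obtain ⟨h3, h4⟩ := hy' l h1
    refine ⟨fun x hx => ?_, h4⟩
    obtain ⟨F, hF, rfl⟩ := List.mem_map.1 hx
    have hFE : F ≠ E := by
      rintro rfl
      exact h2 hF
    refine ⟨⟨hgSD F (h3 F hF).1, Or.inr ⟨F, ⟨l, h1, hF⟩, hFE, rfl⟩⟩, fun x' hx' => ?_⟩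
    obtain ⟨F', hF', rfl⟩ := List.mem_map.1 hx'
    rcases (h3 F hF).2 F' hF' with h | h
    · exact Or.inl (hgLR _ _ h)
    · exact Or.inr (hgLR _ _ h)
  let y' := y₀.mapDomain (List.map g) + (b2 + b3 - b1)
  have hy'S : y' ∈ Ch (Fl adjL S).s (j + 1) :=
    Submodule.add_mem _ hg0 (Submodule.sub_mem _ (Submodule.add_mem _ hb2 hb3) hb1)
  rw [rm1_mem_Ch] at hy'S
  refine ⟨L, y', ?_, ?_, ?_⟩
  · rw [rm1_mem_Ch]
    intro l hl
    exact ⟨fun x hx => ⟨((hy'S l hl).1 x hx).1.1, ((hy'S l hl).1 x hx).2⟩, (hy'S l hl).2⟩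
  · have h1 : bd y' = bd (y₀.mapDomain (List.map g)) + (bd b2 + bd b3 - bd b1) := by
      change bd (y₀.mapDomain (List.map g) + (b2 + b3 - b1)) = _
      rw [map_add, map_sub, map_add]
    have h2 : bd (y₀.mapDomain (List.map g)) = (bd y₀).mapDomain (List.map g) := m4 _ g y₀
    have h3 : (bd y).mapDomain (List.map g) =
        w.mapDomain (List.map g) + (bd y₀).mapDomain (List.map g) := by
      rw [← hbsum, Finsupp.mapDomain_add]
    rw [h1, h2, hbb1, hbb2, hbb3]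
    change _ = (bd y).mapDomain (List.map g)
    rw [h3]
    change _ + (_ - w3 + w3 - _) = _
    abel
  · rintro G ⟨l, hl, hG⟩
    exact ((hy'S l hl).1 G hG).1.2

end Pool.Agent.SLZ
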