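import Pool.Agent.SLZ.StR3

/-!
# SLZ: RN, cycles of bundles of types 0, 1 bound stably
-/

set_option autoImplicit false
set_option linter.unusedVariables false

noncomputable section

namespace Pool.Agent.SLZ

open Polynomial Function

theorem rn_mono {V : Type} (r : V → V → Prop) {S T : Set V} (h : S ⊆ T) {j : ℕ}
    {z : List V →₀ ℤ} (hz : z ∈ Ch (Fl r S).s j) : z ∈ Ch (Fl r T).s j := by
  refine (Finsupp.mem_supported ℤ z).2 fun l hl => ?_
  obtain ⟨h1, h2⟩ := (Finsupp.mem_supported ℤ z).1 hz hl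
  exact ⟨fun x hx => ⟨h (h1 x hx).1, (h1 x hx).2⟩, h2⟩

theorem rn_push {V W : Type} (r : V → V → Prop) (q : W → W → Prop) {S : Set V} {T : Set W}
    (f : V → W) (h1 : ∀ x ∈ S, f x ∈ T) (h2 : ∀ x ∈ S, ∀ y ∈ S, r x y → q (f x) (f y)) {j : ℕ}
    {z : List V →₀ ℤ} (hz : z ∈ Ch (Fl r S).s j) :
    z.mapDomain (List.map f) ∈ Ch (Fl q T).s j := by
  classical
  refine (Finsupp.mem_supported ℤ _).2 fun l hl => ?_
  obtain ⟨l', hl', rfl⟩ := Finset.mem_image.1 (Finsupp.mapDomain_support hl)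
  obtain ⟨k1, k2⟩ := (Finsupp.mem_supported ℤ z).1 hz hl'
  refine ⟨fun E hE => ?_, by rw [List.length_map, k2]⟩
  obtain ⟨E', hE', rfl⟩ := List.mem_map.1 hE
  refine ⟨h1 E' (k1 E' hE').1, fun F hF => ?_⟩
  obtain ⟨F', hF', rfl⟩ := List.mem_map.1 hF
  exact h2 E' (k1 E' hE').1 F' (k1 F' hF').1 ((k1 E' hE').2 F' hF')

theorem rn_comp {α β γ : Type} (f : α → β) (g : β → γ) (z : List α →₀ ℤ) :
    (z.mapDomain (List.map f)).mapDomain (List.map g) = z.mapDomain (List.map fun x => g (f x)) := by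
  rw [← Finsupp.mapDomain_comp]
  congr 1
  funext l
  simp

section

variable {A : Type} [CommRing A] {V : Type} [AddCommGroup V] [Module A V]
  [Module A[X] V] [IsScalarTower A A[X] V]

theorem rn_O0 {M : ℕ} (k : ℤ) (g : Fin M → A[X]) :
    g ∈ O0 A M k ↔ ∀ (i : Fin M) (n : ℕ), k < n → (g i).coeff n = 0 := by
  show (∀ (i : Fin M) (n : ℕ), k + 0 < n →
    ((Pi.basisFun A[X] (Fin M)).repr g i).coeff n = 0) ↔ _
  simp only [add_zero, Pi.basisFun_repr]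

theorem rn_map {V' : Type} [AddCommGroup V'] [Module A V'] [Module A[X] V'] [IsScalarTower A A[X] V']
    (φ : V ≃ₗ[A[X]] V') (E : Lat A V) (k : ℤ) (v : V') :
    v ∈ mapL φ E k ↔ φ.symm v ∈ E k := by
  constructor
  · rintro ⟨w, hw, rfl⟩
    show φ.symm (φ w) ∈ E k
    rw [φ.symm_apply_apply]
    exact hw
  · intro h
    exact ⟨φ.symm v, h, φ.apply_symm_apply v⟩

variable (A V) in
/-- `(V × A[X]^N) × A[X]^L ≅ V × A[X]^(N + L)` -/
def rn_iso (N L : ℕ) :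
    ((V × (Fin N → A[X])) × (Fin L → A[X])) ≃ₗ[A[X]] (V × (Fin (N + L) → A[X])) where
  toFun q := (q.1.1, Fin.append q.1.2 q.2)
  map_add' q q' := by
    refine Prod.ext rfl (funext fun i => ?_)
    refine Fin.addCases (fun i => ?_) (fun i => ?_) i
    · simp only [Prod.snd_add, Prod.fst_add, Fin.append_left, Pi.add_apply]
    · simp only [Prod.snd_add, Prod.fst_add, Fin.append_right, Pi.add_apply]
  map_smul' c q := by
    refine Prod.ext rfl (funext fun i => ?_)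
    refine Fin.addCases (fun i => ?_) (fun i => ?_) i
    · simp only [Prod.smul_snd, Prod.smul_fst, Fin.append_left, Pi.smul_apply, RingHom.id_apply]
    · simp only [Prod.smul_snd, Prod.smul_fst, Fin.append_right, Pi.smul_apply, RingHom.id_apply]
  invFun p := ((p.1, fun i => p.2 (Fin.castAdd L i)), fun i => p.2 (Fin.natAdd N i))
  left_inv q := by
    refine Prod.ext (Prod.ext rfl (funext fun i => ?_)) (funext fun i => ?_)
    · exact Fin.append_left _ _ i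
    · exact Fin.append_right _ _ i
  right_inv p := by
    refine Prod.ext rfl (funext fun i => ?_)
    refine Fin.addCases (fun i => ?_) (fun i => ?_) i
    · exact Fin.append_left _ _ i
    · exact Fin.append_right _ _ i

theorem rn_isoL (N L : ℕ) (E : Lat A V) :
    mapL (rn_iso A V N L) (prodL (prodL E (O0 A N)) (O0 A L)) = prodL E (O0 A (N + L)) := by
  funext k
  ext v
  rw [rn_map]
  show ((v.1 ∈ E k ∧ (fun i => v.2 (Fin.castAdd L i)) ∈ O0 A N k) ∧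
    (fun i => v.2 (Fin.natAdd N i)) ∈ O0 A L k) ↔ (v.1 ∈ E k ∧ v.2 ∈ O0 A (N + L) k)
  rw [rn_O0, rn_O0, rn_O0]
  constructor
  · rintro ⟨⟨h1, h2⟩, h3⟩
    refine ⟨h1, fun i => ?_⟩
    exact Fin.addCases (fun i => h2 i) (fun i => h3 i) i
  · rintro ⟨h1, h2⟩
    exact ⟨⟨h1, fun i => h2 _⟩, fun i => h2 _⟩

theorem rn_bd (hB1 : St_RB1) {j : ℕ} {y : List (Lat A V) →₀ ℤ}
    (hy : y ∈ Ch (Fl adjL {E : Lat A V | FL 0 E ∧ GE E}).s j) :
    ∃ B : ℕ, 1 ≤ B ∧ y ∈ Ch (Fl adjL (SD A V B)).s j := by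
  have h1 : ∀ E : Lat A V, IsLat E → ∃ D : ℕ, LE1 D E := by
    intro E hE
    obtain ⟨k₀, hk⟩ := hE.bot
    exact ⟨(-k₀).toNat, hk _ (by omega)⟩
  choose! d hd using h1
  have h2 : Set.Finite {E : Lat A V | ∃ l ∈ y.support, E ∈ l} := by
    have h3 : {E : Lat A V | ∃ l ∈ y.support, E ∈ l} = ⋃ l ∈ y.support, {E | E ∈ l} := by
      ext E
      simp
    rw [h3]
    exact y.support.finite_toSet.biUnion fun l _ => l.finite_toSet
  obtain ⟨B, hB⟩ := (h2.image d).bddAbove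
  refine ⟨B + 1, by omega, (Finsupp.mem_supported ℤ y).2 fun l hl => ?_⟩
  obtain ⟨k1, k2⟩ := (Finsupp.mem_supported ℤ y).1 hy hl
  refine ⟨fun E hE => ⟨?_, (k1 E hE).2⟩, k2⟩
  obtain ⟨hFL, hGE⟩ := (k1 E hE).1
  refine ⟨hFL, hGE, ?_⟩
  have h4 : d E ≤ B := hB ⟨E, ⟨l, hl, hE⟩, rfl⟩
  exact ((hB1 A V V).2.2.2.2.2.2 E hFL.1).2.2.2 (d E) (B + 1) (by omega) (hd E hFL.1)

end

theorem thm_RN (hMA : St_MA) (hA2 : St_RA2) (hB1 : St_RB1) (hB2 : St_RB2) (hB3 : St_RB3)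
    (hK : St_RK) (hM : St_RM) : St_RN := by
  intro A _ _ D hD V _ _ _ _ _ _ j hj z hz hbz
  have hz' : z ∈ Ch (Fl adjL {E : Lat A V | FL 0 E ∧ GE E}).s j :=
    rn_mono (S := SD A V 1) (T := {E : Lat A V | FL 0 E ∧ GE E}) adjL
      (fun E hE => ⟨hE.1, hE.2.1⟩) hz
  obtain ⟨N, y, hy, hby⟩ := hK A D hD V j hj z hz' hbz
  obtain ⟨B, hB, hyB⟩ := rn_bd hB1 hy
  have hOW : ∀ (M : ℕ) (w : Fin M → ℤ), (∀ i, 0 ≤ w i) → (∀ i, w i ≤ ((1 : ℕ) : ℤ)) →
      OW A w ∈ SD A (Fin M → A[X]) 1 := by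
    intro M w h0 h1
    obtain ⟨k1, k2, k3, -⟩ := (hB3 A (Fin M → A[X]) (Fin M → A[X])).2.2 (Fin M)
      (Pi.basisFun A[X] (Fin M)) w w
    exact ⟨k1, k2 h0, k3 1 h1⟩
  have hO0 : ∀ M : ℕ, O0 A M ∈ SD A (Fin M → A[X]) 1 := fun M =>
    hOW M (fun _ => 0) (fun _ => le_rfl) (fun _ => by norm_num)
  have hO1 : ∀ M : ℕ, O1 A M ∈ SD A (Fin M → A[X]) 1 := fun M =>
    hOW M (fun _ => 1) (fun _ => by norm_num) (fun _ => by norm_num)
  have hLRr : ∀ (M : ℕ) (F : Lat A (Fin M → A[X])), F ∈ SD A (Fin M → A[X]) 1 → LR F F :=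
    fun M F hF => ((hB1 A (Fin M → A[X]) (Fin M → A[X])).2.2.2.2.2.2 F hF.1.1).1
  have hLR01 : ∀ M : ℕ, LR (O0 A M) (O1 A M) := by
    intro M
    obtain ⟨-, -, -, k4, -, k6⟩ := (hB3 A (Fin M → A[X]) (Fin M → A[X])).2.2 (Fin M)
      (Pi.basisFun A[X] (Fin M)) (fun _ => 0) (fun _ => 1)
    refine ⟨k4 fun _ => by norm_num, ?_⟩
    show O1 A M ≤ shL (OL (Pi.basisFun A[X] (Fin M)) fun _ => 0) 1
    rw [k6 1]
    exact le_of_eq rfl
  have hpr : ∀ (W : Type) [AddCommGroup W] [Module A W] [Module A[X] W] [IsScalarTower A A[X] W]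
      (M : ℕ) (E : Lat A W) (F : Lat A (Fin M → A[X])), E ∈ SD A W 1 → F ∈ SD A (Fin M → A[X]) 1 →
      prodL E F ∈ SD A (W × (Fin M → A[X])) 1 := by
    intro W _ _ _ _ M E F hE hF
    obtain ⟨k1, k2, k3, k4⟩ := (hB1 A W (Fin M → A[X])).2.2.2.2.1 E F
    exact ⟨(hB3 A W (Fin M → A[X])).2.1 0 E F hE.1 hF.1, k3 hE.2.1 hF.2.1, k4 1 hE.2.2 hF.2.2⟩
  have hprL : ∀ (W : Type) [AddCommGroup W] [Module A W] [Module A[X] W] [IsScalarTower A A[X] W]
      (M : ℕ) (E E' : Lat A W) (F F' : Lat A (Fin M → A[X])), LR E E' → LR F F' →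
      LR (prodL E F) (prodL E' F') := by
    intro W _ _ _ _ M E E' F F' h1 h2
    exact ((hB2 A W (Fin M → A[X])).2.1 E E' F F' 0).1.2 ⟨h1, h2⟩
  have hby1 : bd y ∈ Ch (Fl adjL (SD A (V × (Fin N → A[X])) 1)).s j := by
    rw [hby]
    refine rn_push adjL adjL _ (fun E hE => hpr V N E _ hE (hO0 N)) (fun E hE F hF h => ?_) hz
    rcases h with h | h
    · exact Or.inl (hprL V N _ _ _ _ h (hLRr N _ (hO0 N)))
    · exact Or.inr (hprL V N _ _ _ _ h (hLRr N _ (hO0 N)))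
  obtain ⟨L, y', hy', hby'⟩ := hM A (V × (Fin N → A[X])) B hB j y hyB hby1
  obtain ⟨y2, hy2, hby2⟩ := hA2 A V ((V × (Fin N → A[X])) × (Fin L → A[X])) (SD A V 1)
    (SD A ((V × (Fin N → A[X])) × (Fin L → A[X])) 1)
    (fun E => prodL (prodL E (O0 A N)) (O0 A L)) (fun E => prodL (prodL E (O0 A N)) (O1 A L))
    (fun E hE => ⟨hpr _ L _ _ (hpr V N E _ hE (hO0 N)) (hO0 L),
      hpr _ L _ _ (hpr V N E _ hE (hO0 N)) (hO1 L)⟩)
    (fun E hE F hF h => by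
      have h1 := hprL V N _ _ _ _ h (hLRr N _ (hO0 N))
      exact ⟨hprL _ L _ _ _ _ h1 (hLRr L _ (hO0 L)), hprL _ L _ _ _ _ h1 (hLRr L _ (hO1 L)),
        hprL _ L _ _ _ _ h1 (hLR01 L)⟩) j z hz hbz
  refine ⟨N + L, (y' + y2).mapDomain (List.map (mapL (rn_iso A V N L))), ?_, ?_⟩
  · refine rn_push adjL adjL _ (fun E hE => ?_) (fun E hE F hF h => ?_) (Submodule.add_mem _ hy' hy2)
    · obtain ⟨-, -, k3, k4⟩ := (hB1 A ((V × (Fin N → A[X])) × (Fin L → A[X]))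
        (V × (Fin (N + L) → A[X]))).2.1 E (rn_iso A V N L)
      exact ⟨(hB3 A ((V × (Fin N → A[X])) × (Fin L → A[X]))
        (V × (Fin (N + L) → A[X]))).1 0 E (rn_iso A V N L) hE.1, k3 hE.2.1, k4 1 hE.2.2⟩
    · exact ((hB2 A ((V × (Fin N → A[X])) × (Fin L → A[X]))
        (V × (Fin (N + L) → A[X]))).1 E F (rn_iso A V N L) 0).2.1.2 h
  · rw [(hMA _).2.2.2.1, map_add, hby', hby2, hby, rn_comp]
    have h1 : (Finsupp.mapDomain (List.map fun x => prodL (prodL x (O0 A N)) (O1 A L)) z +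
        (Finsupp.mapDomain (List.map fun E => prodL (prodL E (O0 A N)) (O0 A L)) z -
          Finsupp.mapDomain (List.map fun E => prodL (prodL E (O0 A N)) (O1 A L)) z)) =
        Finsupp.mapDomain (List.map fun E => prodL (prodL E (O0 A N)) (O0 A L)) z := by abel
    rw [h1, rn_comp]
    congr 2
    funext E
    exact rn_isoL N L E

end Pool.Agent.SLZ
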