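import Pool.Agent.SLZ.StR3
import Pool.Agent.SLZ.FFP

/-!
# SLZ RO: `PInf` (helper46)
-/

set_option autoImplicit false
set_option linter.unusedVariables false

noncomputable section

namespace Pool.Agent.SLZ

open Polynomial Function

section ro_OL

variable {A : Type} [CommRing A] {V : Type} [AddCommGroup V] [Module A V] [Module A[X] V]
  [IsScalarTower A A[X] V] {V' : Type} [AddCommGroup V'] [Module A V'] [Module A[X] V']
  [IsScalarTower A A[X] V']

theorem ro_OL_prod {ι ι' : Type} (b : Module.Basis ι A[X] V) (b' : Module.Basis ι' A[X] V')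
    (w : ι → ℤ) (w' : ι' → ℤ) :
    prodL (OL b w) (OL b' w') = OL (b.prod b') (Sum.elim w w') := by
  funext k
  ext v
  constructor
  · rintro ⟨h1, h2⟩ i n hn
    rcases i with i | i
    · rw [Module.Basis.prod_repr_inl]
      exact h1 i n hn
    · rw [Module.Basis.prod_repr_inr]
      exact h2 i n hn
  · intro h
    refine ⟨fun i n hn => ?_, fun i n hn => ?_⟩
    · have := h (Sum.inl i) n hn
      rwa [Module.Basis.prod_repr_inl] at this
    · have := h (Sum.inr i) n hn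
      rwa [Module.Basis.prod_repr_inr] at this

theorem ro_OL_reindex {ι ι' : Type} (b : Module.Basis ι A[X] V) (e : ι ≃ ι') (w : ι' → ℤ) :
    OL (b.reindex e) w = OL b (fun i => w (e i)) := by
  funext k
  ext v
  constructor
  · intro h i n hn
    have := h (e i) n hn
    rwa [Module.Basis.repr_reindex_apply, Equiv.symm_apply_apply] at this
  · intro h i n hn
    rw [Module.Basis.repr_reindex_apply]
    refine h (e.symm i) n ?_
    show k + w (e (e.symm i)) < n
    rwa [Equiv.apply_symm_apply]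

theorem ro_OL_map {ι : Type} (b : Module.Basis ι A[X] V) (g : V ≃ₗ[A[X]] V') (w : ι → ℤ) :
    mapL g (OL b w) = OL (b.map g) w := by
  funext k
  ext v
  constructor
  · rintro ⟨u, hu, rfl⟩ i n hn
    have h := hu i n hn
    simpa using h
  · intro h
    refine ⟨g.symm v, fun i n hn => ?_, by simp⟩
    have h1 := h i n hn
    simpa using h1

theorem ro_TV_add {m J J' : ℕ} (N : ℕ) {E : Lat A V} (h : E ∈ TV A V m J) (hJ : J ≤ J') :
    prodL E (O0 A N) ∈ TV A (V × (Fin N → A[X])) m J' := by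
  obtain ⟨n, d, b, hd, hm, hdJ, rfl⟩ := h
  refine ⟨n + N, d, (b.prod (Pi.basisFun A[X] (Fin N))).reindex finSumFinEquiv, by omega, hm,
    hdJ.trans (Nat.mul_le_mul_left m hJ), ?_⟩
  rw [O0, ro_OL_prod, ro_OL_reindex]
  congr 1
  funext i
  rcases i with i | i
  · show (if i.val < d then (1 : ℤ) else 0) =
      if (finSumFinEquiv (Sum.inl i : Fin n ⊕ Fin N)).val < d then 1 else 0
    rw [finSumFinEquiv_apply_left, Fin.val_castAdd]
  · show (0 : ℤ) = if (finSumFinEquiv (Sum.inr i : Fin n ⊕ Fin N)).val < d then 1 else 0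
    rw [finSumFinEquiv_apply_right, Fin.val_natAdd, if_neg (by omega)]

theorem ro_TV_map {m J : ℕ} (g : V ≃ₗ[A[X]] V') {E : Lat A V} (h : E ∈ TV A V m J) :
    mapL g E ∈ TV A V' m J := by
  obtain ⟨n, d, b, hd, hm, hdJ, rfl⟩ := h
  exact ⟨n, d, b.map g, hd, hm, hdJ, ro_OL_map b g _⟩

end ro_OL

theorem ro_Ch_map {U W : Type} (f : U → W) {s : Set (List U)} {s' : Set (List W)} (j : ℕ)
    (h : ∀ l ∈ s, l.map f ∈ s') {c : List U →₀ ℤ} (hc : c ∈ Ch s j) :
    c.mapDomain (List.map f) ∈ Ch s' j := by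
  classical
  rw [Ch, Finsupp.mem_supported] at hc ⊢
  intro l hl
  have h1 := Finsupp.mapDomain_support hl
  rw [Finset.mem_image] at h1
  obtain ⟨l', hl', rfl⟩ := h1
  have h2 := hc hl'
  exact ⟨h l' h2.1, by rw [List.length_map]; exact h2.2⟩

theorem ro_Fl_map {U W : Type} {r : U → U → Prop} {r' : W → W → Prop} {S : Set U} {S' : Set W}
    (f : U → W) (l : List U) (h1 : ∀ x ∈ l, f x ∈ S')
    (h2 : ∀ x ∈ l, ∀ y ∈ l, r x y → r' (f x) (f y)) (hl : l ∈ (Fl r S).s) :
    l.map f ∈ (Fl r' S').s := by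
  intro x hx
  rw [List.mem_map] at hx
  obtain ⟨u, hu, rfl⟩ := hx
  refine ⟨h1 u hu, fun y hy => ?_⟩
  rw [List.mem_map] at hy
  obtain ⟨v, hv, rfl⟩ := hy
  exact h2 u hu v hv ((hl u hu).2 v hv)

theorem ro_bound {U : Type} (c : List U →₀ ℤ) (d : U → ℕ) :
    ∃ B : ℕ, ∀ l ∈ c.support, ∀ x ∈ l, d x ≤ B := by
  refine ⟨c.support.sup fun l => (l.map d).sum, fun l hl x hx => ?_⟩
  have h1 : d x ≤ (l.map d).sum := List.le_sum_of_mem (List.mem_map_of_mem hx)
  exact h1.trans (Finset.le_sup (f := fun l : List U => (l.map d).sum) hl)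

section ro_phi

variable (A : Type) [CommRing A] (V : Type) [AddCommGroup V] [Module A V] [Module A[X] V]
  [IsScalarTower A A[X] V]

/-- `(V × A[X]^N) × A[X]^M ≅ V × A[X]^(N + M)` -/
def roPhi (N M : ℕ) :
    ((V × (Fin N → A[X])) × (Fin M → A[X])) ≃ₗ[A[X]] (V × (Fin (N + M) → A[X])) where
  toFun q := (q.1.1, Fin.append q.1.2 q.2)
  map_add' q q' := by
    refine Prod.ext rfl ?_
    funext i
    refine Fin.addCases (fun i => ?_) (fun i => ?_) i
    · simp only [Fin.append_left, Prod.snd_add, Prod.fst_add, Pi.add_apply]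
    · simp only [Fin.append_right, Prod.snd_add, Prod.fst_add, Pi.add_apply]
  map_smul' c q := by
    refine Prod.ext rfl ?_
    funext i
    refine Fin.addCases (fun i => ?_) (fun i => ?_) i
    · simp only [Fin.append_left, Prod.smul_snd, Prod.smul_fst, Pi.smul_apply, RingHom.id_apply]
    · simp only [Fin.append_right, Prod.smul_snd, Prod.smul_fst, Pi.smul_apply, RingHom.id_apply]
  invFun q := ((q.1, fun i => q.2 (Fin.castAdd M i)), fun i => q.2 (Fin.natAdd N i))
  left_inv q := by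
    refine Prod.ext (Prod.ext rfl ?_) ?_
    · funext i
      exact Fin.append_left _ _ i
    · funext i
      exact Fin.append_right _ _ i
  right_inv q := by
    refine Prod.ext rfl ?_
    funext i
    refine Fin.addCases (fun i => ?_) (fun i => ?_) i
    · simp only [Fin.append_left]
    · simp only [Fin.append_right]

variable {A V}

theorem ro_mem_O0 {N : ℕ} {k : ℤ} {u : Fin N → A[X]} :
    u ∈ O0 A N k ↔ ∀ (i : Fin N) (n : ℕ), k < n → (u i).coeff n = 0 := by
  constructor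
  · intro h i n hn
    have h1 := h i n (by simpa using hn)
    rwa [Pi.basisFun_repr] at h1
  · intro h i n hn
    rw [Pi.basisFun_repr]
    exact h i n (by simpa using hn)

theorem ro_phi_map (N M : ℕ) (E : Lat A V) :
    mapL (roPhi A V N M) (prodL (prodL E (O0 A N)) (O0 A M)) = prodL E (O0 A (N + M)) := by
  funext k
  ext q
  constructor
  · rintro ⟨⟨⟨v, u⟩, u'⟩, ⟨⟨h1, h2⟩, h3⟩, rfl⟩
    refine ⟨h1, ?_⟩
    show Fin.append u u' ∈ O0 A (N + M) k
    rw [ro_mem_O0]
    have h2' := ro_mem_O0.1 h2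
    have h3' := ro_mem_O0.1 h3
    intro i n hn
    revert hn
    refine Fin.addCases (fun i hn => ?_) (fun i hn => ?_) i
    · rw [Fin.append_left]
      exact h2' i n hn
    · rw [Fin.append_right]
      exact h3' i n hn
  · rintro ⟨h1, h2⟩
    have h2' := ro_mem_O0.1 h2
    refine ⟨(roPhi A V N M).symm q, ⟨⟨h1, ?_⟩, ?_⟩, (roPhi A V N M).apply_symm_apply q⟩
    · show (fun i => q.2 (Fin.castAdd M i)) ∈ O0 A N k
      rw [ro_mem_O0]
      exact fun i n hn => h2' _ n hn
    · show (fun i => q.2 (Fin.natAdd N i)) ∈ O0 A M k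
      rw [ro_mem_O0]
      exact fun i n hn => h2' _ n hn

end ro_phi

/-- `finrank (E (-1))` -/
def roD {A V : Type} [CommRing A] [AddCommGroup V] [Module A V] (E : Lat A V) : ℕ :=
  Module.finrank A (E (-1))

theorem ro_FF {A V : Type} [CommRing A] [AddCommGroup V] [Module A V] [Module A[X] V]
    [IsScalarTower A A[X] V] {E : Lat A V} (hE : E ∈ SD A V 1) : FF A 0 (E (-1)) := by
  have h1 := hE.1.2.2 (-1)
  have h2 : E (-2) = ⊥ := by
    have := hE.2.2
    simpa [LE1] using this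
  have h3 : jL E (-1) = ⊥ := by
    rw [jL]
    norm_num
    rw [h2]
    simp
  refine (thm_FFP A).1 0 _ _ ?_ h1
  refine Submodule.quotEquivOfEqBot _ ?_
  rw [h3]
  ext x
  rw [Submodule.mem_bot]
  constructor
  · intro hx
    have : (x : V) = 0 := by simpa [Submodule.submoduleOf] using hx
    exact Subtype.ext this
  · rintro rfl
    exact Submodule.zero_mem _

theorem ro_bd {U : Type} (l : List U) (a : ℤ) : bd (Finsupp.single l a) = a • bdL l := by
  unfold bd
  rw [Finsupp.lift_apply, Finsupp.sum_single_index (by rw [zero_smul])]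

theorem ro_LR_OW (hRB3 : St_RB3) {A : Type} [CommRing A] [IsNoetherianRing A] {M : ℕ}
    (w w' : Fin M → ℤ) (h : ∀ i, w i ≤ w' i ∧ w' i ≤ w i + 1) : LR (OW A w) (OW A w') := by
  have h3 := (hRB3 A (Fin M → A[X]) (Fin M → A[X])).2.2 (Fin M) (Pi.basisFun A[X] (Fin M))
  refine ⟨(h3 w w').2.2.2.1 fun i => (h i).1, ?_⟩
  have h4 := (h3 w w').2.2.2.2.2 1
  show OL _ _ ≤ shL (OL _ _) 1
  rw [h4]
  exact (h3 w' _).2.2.2.1 fun i => (h i).2

theorem ro_SD_OW (hRB3 : St_RB3) {A : Type} [CommRing A] [IsNoetherianRing A] {M : ℕ}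
    (w : Fin M → ℤ) (h : ∀ i, 0 ≤ w i ∧ w i ≤ 1) : OW A w ∈ SD A (Fin M → A[X]) 1 := by
  have h3 := (hRB3 A (Fin M → A[X]) (Fin M → A[X])).2.2 (Fin M) (Pi.basisFun A[X] (Fin M)) w w
  exact ⟨h3.1, h3.2.1 fun i => (h i).1, h3.2.2.1 1 fun i => by exact_mod_cast (h i).2⟩

theorem ro_LE1 {A V V' : Type} [CommRing A] [AddCommGroup V] [Module A V] [Module A[X] V]
    [IsScalarTower A A[X] V] [AddCommGroup V'] [Module A V'] [Module A[X] V']
    [IsScalarTower A A[X] V'] (hRB1 : St_RB1) (hRB3 : St_RB3) [IsNoetherianRing A] {E : Lat A V}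
    {F : Lat A V'} (hE : E ∈ SD A V 1) (hF : F ∈ SD A V' 1) : prodL E F ∈ SD A (V × V') 1 := by
  have h1 := (hRB3 A V V').2.1 0 E F hE.1 hF.1
  have h2 := (hRB1 A V V').2.2.2.2.1 E F
  exact ⟨h1, h2.2.2.1 hE.2.1 hF.2.1, h2.2.2.2 1 hE.2.2 hF.2.2⟩

theorem ro_TV_SD (hRB3 : St_RB3) {A V : Type} [CommRing A] [AddCommGroup V] [Module A V]
    [Module A[X] V] [IsScalarTower A A[X] V] [IsNoetherianRing A] {m J : ℕ} {E : Lat A V}
    (h : E ∈ TV A V m J) : E ∈ SD A V 1 := by
  obtain ⟨n, d, b, hd, hm, hdJ, rfl⟩ := h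
  have h3 := (hRB3 A V V).2.2 (Fin n) b (fun i => if i.val < d then 1 else 0)
    (fun i => if i.val < d then 1 else 0)
  refine ⟨h3.1, h3.2.1 fun i => ?_, h3.2.2.1 1 fun i => ?_⟩
  · split_ifs <;> norm_num
  · split_ifs <;> norm_num

theorem ro_D_mono (hRO1 : St_RO1) {A V : Type} [CommRing A] [AddCommGroup V] [Module A V]
    [Module A[X] V] [IsScalarTower A A[X] V] [IsNoetherianRing A] [IsDomain A] {s : ℕ}
    (hK : KerFree A s) {E F : Lat A V} (hE : E ∈ SD A V 1) (hF : F ∈ SD A V 1) (h : E ≤ F) :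
    roD E ≤ roD F := by
  have h1 := (hRO1 A s hK (E (-1)) (ro_FF hE)).2.2.2 (F (-1)) (ro_FF hF)
    (Submodule.inclusion (h (-1)))
  exact h1 (Submodule.inclusion_injective (h (-1)))

/-- **RO.** `PInf` -/
theorem thm_RO (hMA : St_MA) (hRA2 : St_RA2) (hRB1 : St_RB1) (hRB2 : St_RB2) (hRB3 : St_RB3)
    (hRN : St_RN) (hRO1 : St_RO1) (hRO2 : St_RO2) : St_RO := by
  intro A _ _ _ D s m hD hK hs hsm V _ _ _ _ _ _ J j z hz hbz
  rcases Nat.eq_zero_or_pos j with rfl | hj
  · -- `j = 0`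
    have h1 : OL (Module.finBasis A[X] V) (fun i => if i.val < 0 then (1 : ℤ) else 0) ∈
        TV A V m 0 :=
      ⟨_, 0, Module.finBasis A[X] V, Nat.zero_le _, Dvd.intro_left 0 (zero_mul m), Nat.zero_le _,
        rfl⟩
    have h2 := ro_TV_add (J' := 0) 0 h1 le_rfl
    set E₀ := prodL (OL (Module.finBasis A[X] V) (fun i => if i.val < 0 then (1 : ℤ) else 0))
      (O0 A 0) with hE₀
    have h3 : LR E₀ E₀ := ((hRB1 A (V × (Fin 0 → A[X])) V).2.2.2.2.2.2 E₀
      (ro_TV_SD hRB3 h2).1.1).1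
    have h4 : z = Finsupp.single [] (z []) := by
      rw [Ch, Finsupp.mem_supported] at hz
      ext l
      rcases l with _ | ⟨x, l⟩
      · rw [Finsupp.single_eq_same]
      · rw [Finsupp.single_eq_of_ne (by simp)]
        by_contra hne
        have := (hz (Finsupp.mem_support_iff.2 hne)).2
        simp at this
    refine ⟨0, 0, Finsupp.single [E₀] (z []), ?_, ?_⟩
    · rw [Ch]
      refine Finsupp.single_mem_supported ℤ _ ⟨?_, rfl⟩
      intro x hx
      rw [List.mem_singleton] at hx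
      subst hx
      refine ⟨h2, fun y hy => ?_⟩
      rw [List.mem_singleton] at hy
      subst hy
      exact Or.inl h3
    · rw [ro_bd]
      conv_rhs => rw [h4, Finsupp.mapDomain_single]
      simp [bdL]
  · -- `j ≥ 1`
    have hz1 : z ∈ Ch (Fl adjL (SD A V 1)).s j := by
      refine Finsupp.supported_mono ?_ hz
      rintro l ⟨hl, hlj⟩
      exact ⟨fun x hx => ⟨ro_TV_SD hRB3 (hl x hx).1, (hl x hx).2⟩, hlj⟩
    obtain ⟨N, y, hy, hby⟩ := hRN A D hD V j hj z hz1 hbz
    -- bounds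
    obtain ⟨B1, hB1⟩ := ro_bound y roD
    obtain ⟨B2, hB2⟩ := ro_bound z fun E : Lat A V => roD (prodL E (O0 A N))
    set B := max B1 B2 with hB
    set M := (m - 1) * B + s with hM
    set J' := max B J with hJ'
    let Θ : Lat A (V × (Fin N → A[X])) → Lat A ((V × (Fin N → A[X])) × (Fin M → A[X])) :=
      fun E => prodL E (fil A M ((m - 1) * roD E))
    let S := TV A ((V × (Fin N → A[X])) × (Fin M → A[X])) m J'
    have hΘ : ∀ E ∈ SD A (V × (Fin N → A[X])) 1, roD E ≤ B → Θ E ∈ S := by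
      intro E hE hEB
      have hMB : (m - 1) * roD E + s ≤ M :=
        Nat.add_le_add_right (Nat.mul_le_mul_left _ hEB) s
      exact hRO2 A s m hK hs hsm _ E hE M J' hMB (hEB.trans (le_max_left _ _))
    have hΘR : ∀ E ∈ SD A (V × (Fin N → A[X])) 1, ∀ F ∈ SD A (V × (Fin N → A[X])) 1, LR E F →
        LR (Θ E) (Θ F) := by
      intro E hE F hF h
      refine (((hRB2 A _ (Fin M → A[X])).2.1 _ _ _ _ 0).1).2 ⟨h, ?_⟩
      have hd := Nat.mul_le_mul_left (m - 1) (ro_D_mono hRO1 hK hE hF h.1)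
      refine ro_LR_OW hRB3 _ _ fun i => ?_
      split_ifs <;> omega
    have hO0 : O0 A N ∈ SD A (Fin N → A[X]) 1 :=
      ro_SD_OW hRB3 (fun _ => 0) fun i => ⟨le_rfl, by norm_num⟩
    have hO0R : ∀ N' : ℕ, LR (O0 A N') (O0 A N') := fun N' =>
      ro_LR_OW hRB3 (fun _ => 0) (fun _ => 0) fun i => ⟨le_rfl, by norm_num⟩
    -- the chain `Θ y`
    have hy2 : y.mapDomain (List.map Θ) ∈ Ch (Fl adjL S).s (j + 1) := by
      rw [Ch, Finsupp.mem_supported] at hy ⊢
      classical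
      intro l hl
      have h1 := Finsupp.mapDomain_support hl
      rw [Finset.mem_image] at h1
      obtain ⟨l', hl', rfl⟩ := h1
      have h2 := hy hl'
      refine ⟨ro_Fl_map Θ l' (fun x hx => hΘ x (h2.1 x hx).1 ((hB1 l' hl' x hx).trans
        (le_max_left _ _))) ?_ h2.1, by rw [List.length_map]; exact h2.2⟩
      intro x hx x' hx' h
      rcases h with h | h
      · exact Or.inl (hΘR _ (h2.1 x hx).1 _ (h2.1 x' hx').1 h)
      · exact Or.inr (hΘR _ (h2.1 x' hx').1 _ (h2.1 x hx).1 h)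
    -- the prism
    let f : Lat A V → Lat A ((V × (Fin N → A[X])) × (Fin M → A[X])) := fun E =>
      prodL (prodL E (O0 A N)) (O0 A M)
    let g : Lat A V → Lat A ((V × (Fin N → A[X])) × (Fin M → A[X])) := fun E =>
      Θ (prodL E (O0 A N))
    have hzv : z ∈ Ch (Fl adjL (vts z)).s j := by
      rw [Ch, Finsupp.mem_supported] at hz ⊢
      intro l hl
      exact ⟨fun x hx => ⟨⟨l, hl, hx⟩, ((hz hl).1 x hx).2⟩, (hz hl).2⟩
    have hvT : ∀ E ∈ vts z, E ∈ TV A V m J := by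
      rintro E ⟨l, hl, hE⟩
      rw [Ch, Finsupp.mem_supported] at hz
      exact ((hz hl).1 E hE).1
    have hvS : ∀ E ∈ vts z, prodL E (O0 A N) ∈ SD A (V × (Fin N → A[X])) 1 := fun E hE =>
      ro_LE1 hRB1 hRB3 (ro_TV_SD hRB3 (hvT E hE)) hO0
    have hfg : ∀ E ∈ vts z, f E ∈ S ∧ g E ∈ S := by
      intro E hE
      refine ⟨ro_TV_add M (ro_TV_add (J' := J) N (hvT E hE) le_rfl) (le_max_right _ _),
        hΘ _ (hvS E hE) ?_⟩
      obtain ⟨l, hl, hE'⟩ := hE
      exact (hB2 l hl E hE').trans (le_max_right _ _)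
    obtain ⟨y3, hy3, hby3⟩ := hRA2 A V ((V × (Fin N → A[X])) × (Fin M → A[X])) (vts z) S f g
      hfg (fun x hx x' hx' h => by
        have h1 : LR (prodL x (O0 A N)) (prodL x' (O0 A N)) :=
          (((hRB2 A V (Fin N → A[X])).2.1 _ _ _ _ 0).1).2 ⟨h, hO0R N⟩
        refine ⟨?_, hΘR _ (hvS x hx) _ (hvS x' hx') h1, ?_⟩
        · exact (((hRB2 A _ (Fin M → A[X])).2.1 _ _ _ _ 0).1).2 ⟨h1, hO0R M⟩
        · refine (((hRB2 A _ (Fin M → A[X])).2.1 _ _ _ _ 0).1).2 ⟨h1, ?_⟩
          refine ro_LR_OW hRB3 _ _ fun i => ?_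
          split_ifs <;> norm_num) j z hzv hbz
    refine ⟨N + M, J', (y.mapDomain (List.map Θ) + y3).mapDomain
      (List.map (mapL (roPhi A V N M))), ?_, ?_⟩
    · refine ro_Ch_map _ _ (fun l hl => ?_) (Submodule.add_mem _ hy2 hy3)
      refine ro_Fl_map _ l (fun x hx => ro_TV_map _ (hl x hx).1) (fun x _ x' _ h => ?_) hl
      exact ((hRB2 A _ _).1 x x' (roPhi A V N M) 0).2.1.2 h
    · rw [(hMA _).2.2.2.1, map_add, (hMA _).2.2.2.1, hby, hby3, ← Finsupp.mapDomain_comp,
        List.map_comp_map]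
      have e1 : z.mapDomain (List.map (Θ ∘ fun E => prodL E (O0 A N))) =
          z.mapDomain (List.map g) := rfl
      rw [e1, add_sub_cancel, ← Finsupp.mapDomain_comp, List.map_comp_map]
      congr 2
      funext E
      exact ro_phi_map N M E

end Pool.Agent.SLZ
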