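import Pool.Agent.SLZ.StR3

/-!
# SLZ, module RO1: ranks of stably free modules over a domain
-/

set_option autoImplicit false
set_option linter.unusedVariables false

noncomputable section

namespace Pool.Agent.SLZ

open Function

section

variable {A : Type} [CommRing A] [IsDomain A] {M N : Type} [AddCommGroup M] [Module A M]
  [AddCommGroup N] [Module A N]

theorem ro1_ker [Module.Finite A M] (f : M →ₗ[A] N) (hf : Surjective f) :
    Module.finrank A N + Module.finrank A (LinearMap.ker f) = Module.finrank A M := by
  rw [← Submodule.finrank_quotient_add_finrank (LinearMap.ker f),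
    (f.quotKerEquivOfSurjective hf).finrank_eq]

theorem ro1_prod [Module.Finite A M] (a : ℕ) :
    Module.finrank A (M × (Fin a → A)) = Module.finrank A M + a := by
  rw [← ro1_ker (LinearMap.fst A M (Fin a → A)) LinearMap.fst_surjective]
  congr 1
  have e : (Fin a → A) ≃ₗ[A] LinearMap.ker (LinearMap.fst A M (Fin a → A)) := by
    refine (LinearEquiv.ofInjective (LinearMap.inr A M (Fin a → A)) LinearMap.inr_injective).trans
      (LinearEquiv.ofEq _ _ ?_)
    exact (LinearMap.ker_fst A M (Fin a → A)).symm
  rw [← e.finrank_eq, Module.finrank_fin_fun]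

theorem ro1_tf (m n : ℕ) (e : (M × (Fin m → A)) ≃ₗ[A] (Fin n → A)) : Module.IsTorsionFree A M := by
  refine Function.Injective.moduleIsTorsionFree
    ((e : (M × (Fin m → A)) →ₗ[A] (Fin n → A)) ∘ₗ LinearMap.inl A M (Fin m → A)) ?_ ?_
  · exact e.injective.comp LinearMap.inl_injective
  · intro c x
    exact map_smul _ c x

end

theorem thm_RO1 (h1 : St_FFP) : St_RO1 := by
  intro A _ _ _ s hK M _ _ hM
  have hfin : ∀ (N : Type) [AddCommGroup N] [Module A N], FF A 0 N → Module.Finite A N :=
    fun N _ _ h => ((h1 A).2.2.2.2.2 N h).2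
  have := hfin M hM
  obtain ⟨m, n, ⟨e⟩⟩ := hM
  have htf : Module.IsTorsionFree A M := ro1_tf m n e
  refine ⟨?_, ?_, fun a => ro1_prod a, ?_⟩
  · intro hs
    have hn : Module.finrank A M + m = n := by
      rw [← ro1_prod m, e.finrank_eq, Module.finrank_fin_fun]
    set f : (Fin n → A) →ₗ[A] (Fin m → A) :=
      LinearMap.snd A M (Fin m → A) ∘ₗ (e.symm : (Fin n → A) →ₗ[A] (M × (Fin m → A))) with hf
    have hsnd : Surjective (LinearMap.snd A M (Fin m → A)) := LinearMap.snd_surjective
    have hfs : Surjective f := hsnd.comp e.symm.surjective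
    obtain ⟨b⟩ := hK n m f hfs (by omega)
    have e1 : M ≃ₗ[A] LinearMap.ker f := by
      refine LinearEquiv.ofBijective (LinearMap.codRestrict (LinearMap.ker f)
        ((e : (M × (Fin m → A)) →ₗ[A] (Fin n → A)) ∘ₗ LinearMap.inl A M (Fin m → A)) ?_) ⟨?_, ?_⟩
      · intro x
        simp [hf]
      · intro x y hxy
        have h2 := congrArg Subtype.val hxy
        have h3 : e (x, 0) = e (y, 0) := h2
        exact congrArg Prod.fst (e.injective h3)
      · rintro ⟨u, hu⟩
        refine ⟨(e.symm u).1, Subtype.ext ?_⟩
        have h2 : (e.symm u).2 = 0 := hu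
        show e ((e.symm u).1, 0) = u
        rw [← h2]
        exact e.apply_symm_apply u
    have e2 : n - m = Module.finrank A M := by omega
    exact ⟨(b.map e1.symm).reindex (finCongr e2)⟩
  · intro h0
    exact Module.finrank_zero_iff.1 h0
  · intro N _ _ hN f hf
    have := hfin N hN
    exact LinearMap.finrank_le_finrank_of_injective hf

end Pool.Agent.SLZ
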