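import Pool.Agent.SLZ.StR3
import Pool.Agent.SLZ.RD

/-!
# SLZ, RO2: a bundle of types `0`, `1` becomes standard after adding a filler (helper59)
-/

set_option autoImplicit false
set_option linter.unusedVariables false

noncomputable section

namespace Pool.Agent.SLZ

open Polynomial Function

theorem ro2_SF (A : Type) [CommRing A] (a : ℕ) : FF A 0 (Fin a → A) :=
  ⟨0, a, ⟨LinearEquiv.prodUnique⟩⟩

theorem thm_RO2 (hFFP : St_FFP) (hB1 : St_RB1) (hB3 : St_RB3) (hC : St_RC) (hO1 : St_RO1) :
    St_RO2 := by
  classical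
  intro A _ _ _ s m hK hs hsm V _ _ _ _ E hE M J hM hJ
  obtain ⟨hEFL, hEg, hEd⟩ := hE
  obtain ⟨r, hr⟩ : ∃ r, r = Module.finrank A (E (-1)) := ⟨_, rfl⟩
  rw [← hr] at hM hJ ⊢
  obtain ⟨e, he⟩ : ∃ e, e = (m - 1) * r := ⟨_, rfl⟩
  rw [← he] at hM ⊢
  let u : Fin M → ℤ := fun i => if i.val < e then 1 else 0
  have hfil : fil A M e = OW A u := rfl
  rw [hfil]
  have hu : ∀ i, u i ≤ 1 ∧ 0 ≤ u i := by
    intro i
    change (if i.val < e then (1 : ℤ) else 0) ≤ 1 ∧ 0 ≤ (if i.val < e then (1 : ℤ) else 0)
    split_ifs <;> norm_num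
  have hb := (hB3 A (Fin M → A[X]) V).2.2 (Fin M) (Pi.basisFun A[X] (Fin M)) u u
  have hF : FL 0 (OW A u) := hb.1
  let G : Lat A (V × (Fin M → A[X])) := prodL E (OW A u)
  have hG : FL 0 G := (hB3 A V (Fin M → A[X])).2.1 0 E (OW A u) hEFL hF
  have hGg : GE G := ((hB1 A V (Fin M → A[X])).2.2.2.2.1 E (OW A u)).2.2.1 hEg
    (hb.2.1 fun i => (hu i).2)
  have hGd : LE1 1 G := ((hB1 A V (Fin M → A[X])).2.2.2.2.1 E (OW A u)).2.2.2 1 hEd
    (hb.2.2.1 1 fun i => (hu i).1)
  have hE2 : E (-2) = ⊥ := hEd
  have hG2 : G (-2) = ⊥ := hGd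
  have hjE : jL E (-1) = ⊥ := by
    rw [eq_bot_iff]
    intro x hx
    obtain ⟨a, ha, b, hb, rfl⟩ := rd_jL.1 hx
    have h2 : (-1 : ℤ) - 1 = -2 := by norm_num
    rw [h2, hE2, Submodule.mem_bot] at ha hb
    rw [ha, hb, smul_zero, add_zero]
    exact Submodule.zero_mem _
  have hjG : jL G (-1) = ⊥ := by
    rw [eq_bot_iff]
    intro x hx
    obtain ⟨a, ha, b, hb, rfl⟩ := rd_jL.1 hx
    have h2 : (-1 : ℤ) - 1 = -2 := by norm_num
    rw [h2, hG2, Submodule.mem_bot] at ha hb
    rw [ha, hb, smul_zero, add_zero]
    exact Submodule.zero_mem _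
  have hE1 : FF A 0 (E (-1)) := by
    refine (hFFP A).1 0 _ _ (Submodule.quotEquivOfEqBot _ ?_) (hEFL.2.2 (-1))
    rw [hjE, Submodule.submoduleOf, Submodule.comap_bot]
    exact Submodule.ker_subtype _
  have hG1 : FF A 0 (G (-1)) := by
    refine (hFFP A).1 0 _ _ (Submodule.quotEquivOfEqBot _ ?_) (hG.2.2 (-1))
    rw [hjG, Submodule.submoduleOf, Submodule.comap_bot]
    exact Submodule.ker_subtype _
  have heM : e + s ≤ M := hM
  -- the rank of G (-1)
  let T : G (-1) →ₗ[A] (E (-1) × (Fin e → A)) :=
    { toFun := fun x => (⟨x.1.1, x.2.1⟩, fun i => (x.1.2 (Fin.castLE (by omega) i)).coeff 0)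
      map_add' := fun x y => rfl
      map_smul' := fun c x => rfl }
  have hT : Bijective T := by
    constructor
    · rw [injective_iff_map_eq_zero]
      rintro ⟨⟨v, g⟩, hv, hg⟩ h
      have h1 : v = 0 := congrArg (fun z => ((z.1 : E (-1)) : V)) h
      have h2 : g = 0 := by
        funext i
        ext n
        rw [Pi.zero_apply, coeff_zero]
        have h3 := (rd_OW u (-1) g).1 hg i n
        by_cases hi : i.val < e
        · rcases Nat.eq_zero_or_pos n with rfl | hn
          · have h4 := congrFun (congrArg Prod.snd h) ⟨i.val, hi⟩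
            exact h4
          · apply h3
            change (-1 : ℤ) + (if i.val < e then (1 : ℤ) else 0) < n
            rw [if_pos hi]
            omega
        · apply h3
          change (-1 : ℤ) + (if i.val < e then (1 : ℤ) else 0) < n
          rw [if_neg hi]
          omega
      subst h1 h2
      rfl
    · rintro ⟨v, c⟩
      let g : Fin M → A[X] := fun i => if h : i.val < e then C (c ⟨i.val, h⟩) else 0
      have hg : g ∈ OW A u (-1) := by
        rw [rd_OW]
        intro i n hn
        change (if h : i.val < e then C (c ⟨i.val, h⟩) else 0 : A[X]).coeff n = 0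
        split_ifs with hi
        · rw [coeff_C, if_neg]
          rintro rfl
          change (-1 : ℤ) + (if i.val < e then (1 : ℤ) else 0) < _ at hn
          rw [if_pos hi] at hn
          simp at hn
        · rw [coeff_zero]
      refine ⟨⟨(v.1, g), v.2, hg⟩, ?_⟩
      apply Prod.ext
      · rfl
      · funext i
        change (if h : (Fin.castLE (by omega : e ≤ M) i).val < e then
          C (c ⟨(Fin.castLE (by omega : e ≤ M) i).val, h⟩) else 0 : A[X]).coeff 0 = c i
        rw [dif_pos (show (Fin.castLE (by omega : e ≤ M) i).val < e from i.isLt), coeff_C_zero]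
        rfl
  have hrank : Module.finrank A (G (-1)) = m * r := by
    rw [(LinearEquiv.ofBijective T hT).finrank_eq, (hO1 A s hK (E (-1)) hE1).2.2.1 e, ← hr, he]
    obtain ⟨m', rfl⟩ : ∃ m', m = m' + 1 := ⟨m - 1, by omega⟩
    rw [Nat.add_sub_cancel]
    ring
  have hbm : Nonempty (Module.Basis (Fin (m * r)) A (G (-1))) := by
    rcases Nat.eq_zero_or_pos r with h0 | h0
    · have h1 : Subsingleton (G (-1)) := (hO1 A s hK _ hG1).2.1 (by rw [hrank, h0, mul_zero])
      have h2 : IsEmpty (Fin (m * r)) := by
        rw [h0, mul_zero]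
        infer_instance
      exact ⟨Module.Basis.empty _⟩
    · have h1 := (hO1 A s hK _ hG1).1 (by rw [hrank]; nlinarith)
      rwa [hrank] at h1
  obtain ⟨bm⟩ := hbm
  -- the rank of H0 G 0
  have hH : FF A 0 (H0 G 0) := hG.2.2 0
  let δ0 : (Fin (M - e) → A) →ₗ[A] G 0 :=
    { toFun := fun c => ⟨(0, fun i => if h : e ≤ i.val then C (c ⟨i.val - e, by omega⟩) else 0),
        (E 0).zero_mem, by
          refine (rd_OW u 0 _).2 ?_
          intro i n hn
          change (if h : e ≤ i.val then C (c ⟨i.val - e, by omega⟩) else 0 : A[X]).coeff n = 0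
          split_ifs with hi
          · rw [coeff_C, if_neg]
            rintro rfl
            have := (hu i).2
            push_cast at hn
            linarith
          · rw [coeff_zero]⟩
      map_add' := fun c d => by
        apply Subtype.ext
        apply Prod.ext
        · change (0 : V) = 0 + 0
          rw [add_zero]
        · funext i
          change (if h : e ≤ i.val then C ((c + d) ⟨i.val - e, by omega⟩) else 0 : A[X]) =
            (if h : e ≤ i.val then C (c ⟨i.val - e, by omega⟩) else 0) +
            (if h : e ≤ i.val then C (d ⟨i.val - e, by omega⟩) else 0)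
          split_ifs
          · rw [Pi.add_apply, C_add]
          · rw [add_zero]
      map_smul' := fun a c => by
        apply Subtype.ext
        apply Prod.ext
        · change (0 : V) = a • 0
          rw [smul_zero]
        · funext i
          change (if h : e ≤ i.val then C ((a • c) ⟨i.val - e, by omega⟩) else 0 : A[X]) =
            a • (if h : e ≤ i.val then C (c ⟨i.val - e, by omega⟩) else 0 : A[X])
          split_ifs
          · rw [Pi.smul_apply, smul_eq_mul, C_mul, smul_eq_C_mul]
          · rw [smul_zero] }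
  let δ : (Fin (M - e) → A) →ₗ[A] H0 G 0 := (Submodule.mkQ ((jL G 0).submoduleOf (G 0))) ∘ₗ δ0
  have hδ : Injective δ := by
    rw [injective_iff_map_eq_zero]
    intro c hc
    have h1 : (δ0 c : V × (Fin M → A[X])) ∈ jL G 0 := by
      have h2 : (Submodule.mkQ ((jL G 0).submoduleOf (G 0))) (δ0 c) = 0 := hc
      rw [Submodule.mkQ_apply, Submodule.Quotient.mk_eq_zero] at h2
      exact h2
    have h2 : (δ0 c).1.2 ∈ jL (OW A u) 0 := (rd_jLp.1 h1).2
    have h3 := (rd_jOW u 0 _ (δ0 c).2.2).1 h2
    funext i
    have h4 := h3 ⟨e + i.val, by omega⟩ (by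
      change (if e + i.val < e then (1 : ℤ) else 0) = -0
      rw [if_neg (by omega), neg_zero])
    change (if h : e ≤ e + i.val then C (c ⟨e + i.val - e, by omega⟩) else 0 : A[X]) = 0 at h4
    rw [dif_pos (by omega)] at h4
    have h5 := C_eq_zero.1 h4
    have h6 : (⟨e + i.val - e, by omega⟩ : Fin (M - e)) = i := Fin.ext (by
      change e + i.val - e = i.val
      omega)
    rw [h6] at h5
    exact h5
  have hn : s ≤ Module.finrank A (H0 G 0) := by
    have h1 := (hO1 A s hK _ (ro2_SF A (M - e))).2.2.2 (H0 G 0) hH δ hδ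
    rw [Module.finrank_fin_fun] at h1
    omega
  obtain ⟨b0⟩ := (hO1 A s hK _ hH).1 hn
  generalize Module.finrank A (H0 G 0) = n at b0 hn
  have hlift : ∀ j : Fin n, ∃ a : G 0, (Submodule.mkQ ((jL G 0).submoduleOf (G 0))) a = b0 j :=
    fun j => Submodule.mkQ_surjective _ _
  choose a ha using hlift
  let ι : Type := Fin (m * r) ⊕ Fin n
  let v : ι → V × (Fin M → A[X]) := Sum.elim (fun i => (bm i : V × (Fin M → A[X])))
    fun j => (a j : V × (Fin M → A[X]))
  let κ : ι → ℤ := Sum.elim (fun _ => -1) fun _ => 0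
  have hsum : ∀ c : ι → A, ∑ i, c i • v i =
      ((∑ i, c (Sum.inl i) • bm i : G (-1)) : V × (Fin M → A[X])) +
      ((∑ j, c (Sum.inr j) • a j : G 0) : V × (Fin M → A[X])) := by
    intro c
    rw [Fintype.sum_sum_type, AddSubmonoidClass.coe_finsetSum, AddSubmonoidClass.coe_finsetSum]
    rfl
  have hq : ∀ x : G 0, (Submodule.mkQ ((jL G 0).submoduleOf (G 0))) x = 0 ↔
      (x : V × (Fin M → A[X])) ∈ jL G 0 := by
    intro x
    rw [Submodule.mkQ_apply, Submodule.Quotient.mk_eq_zero]
    exact Iff.rfl
  have hbot : ∀ k : ℤ, k ≤ -2 → G k = ⊥ := by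
    intro k hk
    have h1 := ((hB1 A (V × (Fin M → A[X])) V).2.2.2.2.2.2 G hG.1).2.1 k (-2) hk
    rw [hG2] at h1
    exact le_bot_iff.1 h1
  obtain ⟨b, hbv, hbG⟩ := hC A (V × (Fin M → A[X])) G ι v κ hG.1 hG.2.1
    (by
      rintro (i | j)
      · exact (bm i).2
      · exact (a j).2)
    (by
      intro k c hc hj
      by_cases h1 : k = -1
      · subst h1
        have h2 : ∀ j, c (Sum.inr j) = 0 := fun j => hc (Sum.inr j) (by
          change (0 : ℤ) ≠ -1
          norm_num)
        have h3 : (∑ j, c (Sum.inr j) • a j : G 0) = 0 :=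
          Finset.sum_eq_zero fun j _ => by rw [h2 j, zero_smul]
        rw [hsum, h3, Submodule.coe_zero, add_zero, hjG, Submodule.mem_bot] at hj
        have h4 : (∑ i, c (Sum.inl i) • bm i : G (-1)) = 0 := Subtype.ext hj
        have h5 := (Fintype.linearIndependent_iff.1 bm.linearIndependent) _ h4
        rintro (i | j)
        · exact h5 i
        · exact h2 j
      · by_cases h0 : k = 0
        · subst h0
          have h2 : ∀ i, c (Sum.inl i) = 0 := fun i => hc (Sum.inl i) (by
            change (-1 : ℤ) ≠ 0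
            norm_num)
          have h3 : (∑ i, c (Sum.inl i) • bm i : G (-1)) = 0 :=
            Finset.sum_eq_zero fun j _ => by rw [h2 j, zero_smul]
          rw [hsum, h3, Submodule.coe_zero, zero_add] at hj
          have h4 := (hq _).2 hj
          rw [map_sum] at h4
          have h6 : ∑ j, c (Sum.inr j) • b0 j = 0 := by
            rw [← h4]
            exact Finset.sum_congr rfl fun j _ => by rw [map_smul, ha]
          have h5 := (Fintype.linearIndependent_iff.1 b0.linearIndependent) _ h6
          rintro (i | j)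
          · exact h2 i
          · exact h5 j
        · rintro (i | j)
          · exact hc (Sum.inl i) (fun h => h1 h.symm)
          · exact hc (Sum.inr j) (fun h => h0 h.symm))
    (by
      intro k x hx
      by_cases h1 : k = -1
      · subst h1
        refine ⟨Sum.elim (fun i => bm.repr ⟨x, hx⟩ i) fun _ => 0, ?_, ?_⟩
        · rintro (i | j) hi
          · exact absurd rfl hi
          · rfl
        · have h3 : (∑ j, (Sum.elim (fun i => bm.repr ⟨x, hx⟩ i) fun _ => 0 : ι → A) (Sum.inr j) • a j : G 0)
              = 0 := Finset.sum_eq_zero fun j _ => by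
            change (0 : A) • a j = 0
            rw [zero_smul]
          have h4 : (∑ i, (Sum.elim (fun i => bm.repr ⟨x, hx⟩ i) fun _ => 0 : ι → A) (Sum.inl i) • bm i :
              G (-1)) = ⟨x, hx⟩ := bm.sum_repr ⟨x, hx⟩
          rw [hsum, h3, h4, Submodule.coe_zero, add_zero, sub_self]
          exact Submodule.zero_mem _
      · by_cases h0 : k = 0
        · subst h0
          let y : H0 G 0 := (Submodule.mkQ ((jL G 0).submoduleOf (G 0))) ⟨x, hx⟩
          refine ⟨Sum.elim (fun _ => 0) fun j => b0.repr y j, ?_, ?_⟩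
          · rintro (i | j) hi
            · rfl
            · exact absurd rfl hi
          · have h3 : (∑ i, (Sum.elim (fun _ => 0) (fun j => b0.repr y j) : ι → A) (Sum.inl i) • bm i :
                G (-1)) = 0 := Finset.sum_eq_zero fun j _ => by
              change (0 : A) • bm j = 0
              rw [zero_smul]
            rw [hsum, h3, Submodule.coe_zero, zero_add]
            have h4 : (Submodule.mkQ ((jL G 0).submoduleOf (G 0)))
                (⟨x, hx⟩ - ∑ j, (Sum.elim (fun _ => 0) (fun j => b0.repr y j) : ι → A) (Sum.inr j) • a j) =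
                0 := by
              rw [map_sub, map_sum]
              have h5 : ∑ j, (Submodule.mkQ ((jL G 0).submoduleOf (G 0)))
                  ((Sum.elim (fun _ => 0) (fun j => b0.repr y j) : ι → A) (Sum.inr j) • a j) = y := by
                conv_rhs => rw [← b0.sum_repr y]
                exact Finset.sum_congr rfl fun j _ => by rw [map_smul, ha]; rfl
              rw [h5]
              exact sub_self y
            exact (hq _).1 h4
        · refine ⟨0, fun _ _ => rfl, ?_⟩
          have h4 : ∑ i, (0 : ι → A) i • v i = 0 := Finset.sum_eq_zero fun i _ => zero_smul _ _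
          rw [h4, sub_zero]
          rcases lt_or_ge k 0 with h2 | h2
          · rw [hbot k (by omega), Submodule.mem_bot] at hx
            rw [hx]
            exact Submodule.zero_mem _
          · obtain ⟨p, hp, q, hq', hpq⟩ := hGg (k - 1) (by omega) x (by rwa [sub_add_cancel])
            exact rd_jL.2 ⟨p, hp, q, hq', hpq⟩)
  refine ⟨m * r + n, m * r, b.reindex finSumFinEquiv, by omega, Dvd.intro _ rfl,
    Nat.mul_le_mul_left _ hJ, ?_⟩
  change G = _
  rw [hbG, rd_reindex b finSumFinEquiv]
  congr 1
  funext i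
  obtain ⟨x, rfl⟩ := (finSumFinEquiv (m := m * r) (n := n)).surjective i
  rw [Equiv.symm_apply_apply]
  rcases x with i | j
  · rw [finSumFinEquiv_apply_left, if_pos (by
      change i.val < m * r
      exact i.isLt)]
    change - (-1 : ℤ) = 1
    norm_num
  · rw [finSumFinEquiv_apply_right, if_neg (by
      change ¬ m * r + j.val < m * r
      omega)]
    change - (0 : ℤ) = 0
    norm_num

end Pool.Agent.SLZ
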