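import Pool.Agent.SLZ.StR

/-!
# SLZ, module RX: exact sequences of lattices, saturation and generator modules (helper45)
-/

set_option autoImplicit false
set_option linter.unusedVariables false

noncomputable section

namespace Pool.Agent.SLZ

open Polynomial Function

theorem rx_jL_le {A : Type} [CommRing A] {V : Type} [AddCommGroup V] [Module A V] [Module A[X] V]
    [IsScalarTower A A[X] V] (E : Lat A V) (k : ℤ) (v : V) :
    v ∈ jL E k ↔ ∃ a ∈ E (k - 1), ∃ b ∈ E (k - 1), v = a + (X : A[X]) • b := by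
  unfold jL
  rw [Submodule.mem_sup]
  constructor
  · rintro ⟨a, ha, c, ⟨b, hb, rfl⟩, rfl⟩
    exact ⟨a, ha, b, hb, rfl⟩
  · rintro ⟨a, ha, b, hb, rfl⟩
    exact ⟨a, ha, _, ⟨b, hb, rfl⟩, rfl⟩

theorem thm_RX (h1 : St_RX1) (h2 : St_FFP) : St_RX := by
  intro A _ _ U _ _ _ _ W _ _ _ _ V _ _ _ _ i p K E B hS
  obtain ⟨hfin1, hfin2⟩ := (h1 A U W V i p K E B).2 hS
  have hpi : ∀ u, p (i u) = 0 := by
    intro u
    have h : i u ∈ LinearMap.ker p := by
      rw [← hS.ex]
      exact ⟨u, rfl⟩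
    exact h
  have hker : ∀ w, p w = 0 → ∃ u, i u = w := by
    intro w hw
    have h : w ∈ LinearMap.ker p := hw
    rw [← hS.ex] at h
    exact h
  have c3 : Sat E → Sat K := by
    intro hE k u hu hXu
    rw [hS.ker] at hu hXu ⊢
    rw [map_smul] at hXu
    exact hE k _ hu hXu
  have c4 : (∀ k, E k ≤ E (k + 1)) → (∀ k, ∀ v ∈ E k, (X : A[X]) • v ∈ E (k + 1)) → Sat K →
      Sat B → Sat E := by
    intro hmono hX hK hB k w hw hXw
    have h3 : p w ∈ B (k - 1) := by
      apply hB k _ ((hS.im k _).2 ⟨w, hw, rfl⟩)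
      rw [← map_smul]
      exact (hS.im k _).2 ⟨_, hXw, rfl⟩
    obtain ⟨w', hw', hpw'⟩ := (hS.im _ _).1 h3
    obtain ⟨u, hu⟩ := hker (w - w') (by rw [map_sub, hpw', sub_self])
    have hw'k : w' ∈ E k := by
      have h4 := hmono _ hw'
      rwa [sub_add_cancel] at h4
    have hXw'k : (X : A[X]) • w' ∈ E k := by
      have h4 := hX _ _ hw'
      rwa [sub_add_cancel] at h4
    have h5 : u ∈ K (k - 1) := by
      apply hK k u
      · rw [hS.ker, hu]
        exact Submodule.sub_mem _ hw hw'k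
      · rw [hS.ker, map_smul, hu, smul_sub]
        exact Submodule.sub_mem _ hXw hXw'k
    have h6 : w = i u + w' := by rw [hu, sub_add_cancel]
    rw [h6]
    exact Submodule.add_mem _ ((hS.ker _ _).1 h5) hw'
  have c5 : (∀ k, E k ≤ E (k + 1)) → (∀ k, ∀ v ∈ E k, (X : A[X]) • v ∈ E (k + 1)) → Sat B →
      ∀ k, ∃ (f : H0 K k →ₗ[A] H0 E k) (g : H0 E k →ₗ[A] H0 B k),
      Injective f ∧ Surjective g ∧ LinearMap.range f = LinearMap.ker g := by
    intro hmono hX hB k
    obtain ⟨i', hi'⟩ : ∃ i' : K k →ₗ[A] E k, ∀ u, ((i' u : E k) : W) = i (u : U) :=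
      ⟨LinearMap.restrict (i.restrictScalars A) (fun u hu => (hS.ker k u).1 hu), fun u => rfl⟩
    obtain ⟨p', hp'⟩ : ∃ p' : E k →ₗ[A] B k, ∀ w, ((p' w : B k) : V) = p (w : W) :=
      ⟨LinearMap.restrict (p.restrictScalars A) (fun w hw => (hS.im k _).2 ⟨w, hw, rfl⟩),
        fun w => rfl⟩
    have hi'j : (jL K k).submoduleOf (K k) ≤ ((jL E k).submoduleOf (E k)).comap i' := by
      intro u hu
      have h3 : (u : U) ∈ jL K k := hu
      rw [rx_jL_le] at h3
      obtain ⟨a, ha, b, hb, hab⟩ := h3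
      show ((i' u : E k) : W) ∈ jL E k
      rw [rx_jL_le, hi']
      exact ⟨i a, (hS.ker _ _).1 ha, i b, (hS.ker _ _).1 hb, by rw [hab, map_add, map_smul]⟩
    have hp'j : (jL E k).submoduleOf (E k) ≤ ((jL B k).submoduleOf (B k)).comap p' := by
      intro w hw
      have h3 : (w : W) ∈ jL E k := hw
      rw [rx_jL_le] at h3
      obtain ⟨a, ha, b, hb, hab⟩ := h3
      show ((p' w : B k) : V) ∈ jL B k
      rw [rx_jL_le, hp']
      exact ⟨p a, (hS.im _ _).2 ⟨a, ha, rfl⟩, p b, (hS.im _ _).2 ⟨b, hb, rfl⟩, by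
        rw [hab, map_add, map_smul]⟩
    refine ⟨Submodule.mapQ _ _ i' hi'j, Submodule.mapQ _ _ p' hp'j, ?_, ?_, ?_⟩
    · rw [← LinearMap.ker_eq_bot, eq_bot_iff]
      intro x hx
      obtain ⟨u, rfl⟩ := Submodule.Quotient.mk_surjective _ x
      have h3 : (Submodule.Quotient.mk (i' u) : H0 E k) = 0 := hx
      rw [Submodule.Quotient.mk_eq_zero] at h3
      have h4 : ((i' u : E k) : W) ∈ jL E k := h3
      rw [rx_jL_le, hi'] at h4
      obtain ⟨a, ha, b, hb, hab⟩ := h4
      have h5 : p b ∈ B (k - 1 - 1) := by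
        apply hB (k - 1) _ ((hS.im _ _).2 ⟨b, hb, rfl⟩)
        have h6 : (X : A[X]) • p b = - p a := by
          have h7 := hpi (u : U)
          rw [hab, map_add, map_smul] at h7
          exact eq_neg_of_add_eq_zero_right h7
        rw [h6]
        exact Submodule.neg_mem _ ((hS.im _ _).2 ⟨a, ha, rfl⟩)
      obtain ⟨b', hb', hpb'⟩ := (hS.im _ _).1 h5
      obtain ⟨u₂, hu₂⟩ := hker (b - b') (by rw [map_sub, hpb', sub_self])
      have hb'k : b' ∈ E (k - 1) := by
        have h6 := hmono _ hb'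
        rwa [sub_add_cancel] at h6
      have hXb'k : (X : A[X]) • b' ∈ E (k - 1) := by
        have h6 := hX _ _ hb'
        rwa [sub_add_cancel] at h6
      have hu₂k : u₂ ∈ K (k - 1) := by
        rw [hS.ker, hu₂]
        exact Submodule.sub_mem _ hb hb'k
      rw [Submodule.mem_bot, Submodule.Quotient.mk_eq_zero]
      show (u : U) ∈ jL K k
      rw [rx_jL_le]
      refine ⟨(u : U) - (X : A[X]) • u₂, ?_, u₂, hu₂k, by rw [sub_add_cancel]⟩
      rw [hS.ker, map_sub, map_smul, hu₂, hab, smul_sub]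
      have h6 : a + (X : A[X]) • b - ((X : A[X]) • b - (X : A[X]) • b') = a + (X : A[X]) • b' := by
        abel
      rw [h6]
      exact Submodule.add_mem _ ha hXb'k
    · intro y
      obtain ⟨v, rfl⟩ := Submodule.Quotient.mk_surjective _ y
      obtain ⟨w, hw, hpw⟩ := (hS.im _ _).1 v.2
      refine ⟨Submodule.Quotient.mk ⟨w, hw⟩, ?_⟩
      show (Submodule.Quotient.mk (p' ⟨w, hw⟩) : H0 B k) = Submodule.Quotient.mk v
      congr 1
      apply Subtype.ext
      rw [hp']
      exact hpw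
    · ext x
      constructor
      · rintro ⟨y, rfl⟩
        obtain ⟨u, rfl⟩ := Submodule.Quotient.mk_surjective _ y
        show (Submodule.Quotient.mk (p' (i' u)) : H0 B k) = 0
        have h3 : p' (i' u) = 0 := by
          apply Subtype.ext
          rw [hp', hi', hpi]
          rfl
        rw [h3]
        rfl
      · intro hx
        obtain ⟨w, rfl⟩ := Submodule.Quotient.mk_surjective _ x
        have h3 : (Submodule.Quotient.mk (p' w) : H0 B k) = 0 := hx
        rw [Submodule.Quotient.mk_eq_zero] at h3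
        have h4 : ((p' w : B k) : V) ∈ jL B k := h3
        rw [rx_jL_le, hp'] at h4
        obtain ⟨a, ha, b, hb, hab⟩ := h4
        obtain ⟨a', ha', rfl⟩ := (hS.im _ a).1 ha
        obtain ⟨b', hb', rfl⟩ := (hS.im _ b).1 hb
        obtain ⟨u, hu⟩ := hker ((w : W) - (a' + (X : A[X]) • b')) (by
          rw [map_sub, map_add, map_smul, ← hab, sub_self])
        have ha'k : a' ∈ E k := by
          have h6 := hmono _ ha'
          rwa [sub_add_cancel] at h6
        have hXb'k : (X : A[X]) • b' ∈ E k := by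
          have h6 := hX _ _ hb'
          rwa [sub_add_cancel] at h6
        have huk : u ∈ K k := by
          rw [hS.ker, hu]
          exact Submodule.sub_mem _ w.2 (Submodule.add_mem _ ha'k hXb'k)
        refine ⟨Submodule.Quotient.mk ⟨u, huk⟩, ?_⟩
        show (Submodule.Quotient.mk (i' ⟨u, huk⟩) : H0 E k) = Submodule.Quotient.mk w
        rw [Submodule.Quotient.eq]
        show ((i' ⟨u, huk⟩ : E k) : W) - (w : W) ∈ jL E k
        rw [rx_jL_le, hi']
        refine ⟨- a', Submodule.neg_mem _ ha', - b', Submodule.neg_mem _ hb', ?_⟩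
        show i u - (w : W) = - a' + (X : A[X]) • (- b')
        rw [hu, smul_neg]
        abel
  have hFF : ∀ d e (M : Type) [AddCommGroup M] [Module A M], FF A d M → FF A (d + e) M := by
    intro d e M _ _ h
    induction e with
    | zero => exact h
    | succ e ih => exact (h2 A).2.1 (d + e) M ih
  refine ⟨hfin1, hfin2, c3, c4, fun hE => c5 hE.mono hE.mulX, ?_, ?_, ?_⟩
  · intro d hK hB hmono hX
    refine ⟨hfin2 hK.1 hB.1 hmono hX, c4 hmono hX hK.2.1 hB.2.1, fun k => ?_⟩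
    obtain ⟨f, g, hf, hg, hfg⟩ := c5 hmono hX hB.2.1 k
    exact ((h2 A).2.2.1 d _ _ _ f g hf hg hfg).1 (hK.2.2 k) (hB.2.2 k)
  · intro d hE hB
    refine ⟨(hfin1 hE.1).1, c3 hE.2.1, fun k => ?_⟩
    obtain ⟨f, g, hf, hg, hfg⟩ := c5 hE.1.mono hE.1.mulX hB.2.1 k
    have h3 : FF A d (H0 E k) := by
      have h4 := hFF 0 d _ (hE.2.2 k)
      rwa [zero_add] at h4
    exact ((h2 A).2.2.1 d _ _ _ f g hf hg hfg).2.2 h3 (hB.2.2 k)
  · intro hE hB
    refine ⟨(hfin1 hE.1).1, c3 hE.2.1, fun k => ?_⟩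
    obtain ⟨f, g, hf, hg, hfg⟩ := c5 hE.1.mono hE.1.mulX hB.2.1 k
    exact ((h2 A).2.2.1 0 _ _ _ f g hf hg hfg).2.2 (hE.2.2 k) ((h2 A).2.1 0 _ (hB.2.2 k))

end Pool.Agent.SLZ
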