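import Pool.Agent.SLZ.StR

/-!
# SLZ, module RX1: exact sequences of lattices, finite type (helper45)
-/

set_option autoImplicit false
set_option linter.unusedVariables false

noncomputable section

namespace Pool.Agent.SLZ

open Polynomial Function

section RX1

variable {A : Type} [CommRing A] {V : Type} [AddCommGroup V] [Module A V] [Module A[X] V]
  [IsScalarTower A A[X] V]

theorem rx1_mono (E : Lat A V) (h : ∀ k, E k ≤ E (k + 1)) : ∀ j k : ℤ, j ≤ k → E j ≤ E k := by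
  intro j k hjk
  induction k, hjk using Int.le_induction with
  | base => exact le_refl _
  | succ k hk ih => exact le_trans ih (h k)

theorem rx1_Xpow_succ (j : ℕ) (v : V) :
    (X ^ (j + 1) : A[X]) • v = (X : A[X]) • ((X ^ j : A[X]) • v) := by
  rw [pow_succ', mul_smul]

theorem rx1_xm_pow (j : ℕ) (v : V) : ((xm A V) ^ j) v = (X ^ j : A[X]) • v := by
  induction j with
  | zero => rw [pow_zero, pow_zero, one_smul]; rfl
  | succ j ih =>
    rw [rx1_Xpow_succ, pow_succ', Module.End.mul_apply, ih]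
    rfl

/-- decomposition -/
theorem rx1_dec (B : Lat A V) (hmono : ∀ k, B k ≤ B (k + 1))
    (hX : ∀ k, ∀ v ∈ B k, (X : A[X]) • v ∈ B (k + 1)) (k₀ : ℤ)
    (hgen : ∀ k ≥ k₀, ∀ v ∈ B (k + 1), ∃ a ∈ B k, ∃ b ∈ B k, v = a + (X : A[X]) • b) (j : ℕ) :
    ∀ v ∈ B (k₀ + j), ∃ u ∈ B k₀, ∃ a ∈ B (k₀ + j - 1), v = (X ^ j : A[X]) • u + a := by
  induction j with
  | zero =>
    intro v hv
    refine ⟨v, by simpa using hv, 0, Submodule.zero_mem _, ?_⟩
    rw [pow_zero, one_smul, add_zero]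
  | succ j ih =>
    intro v hv
    have h1 : k₀ + ((j + 1 : ℕ) : ℤ) = k₀ + j + 1 := by push_cast; ring
    rw [h1] at hv
    obtain ⟨a, ha, b, hb, rfl⟩ := hgen (k₀ + j) (by omega) v hv
    obtain ⟨u, hu, a', ha', rfl⟩ := ih b hb
    refine ⟨u, hu, a + (X : A[X]) • a', ?_, ?_⟩
    · have h2 : k₀ + ((j + 1 : ℕ) : ℤ) - 1 = k₀ + j := by push_cast; ring
      rw [h2]
      refine Submodule.add_mem _ ha ?_
      have h3 := hX _ a' ha'
      have h4 : k₀ + (j : ℤ) - 1 + 1 = k₀ + j := by ring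
      rwa [h4] at h3
    · rw [rx1_Xpow_succ, smul_add]
      abel

theorem rx1_zero [IsNoetherianRing A] (B : Lat A V) (hB : IsLat B) :
    ∃ k₂ : ℤ, ∀ k ≥ k₂, ∀ v ∈ B k, (X : A[X]) • v ∈ B k → v ∈ B (k - 1) := by
  obtain ⟨k₀, hgen⟩ := hB.gen
  have hnoeth : IsNoetherian A (B k₀) := isNoetherian_of_fg_of_noetherian _ (hB.fg k₀)
  obtain ⟨N, hN⟩ : ∃ N : ℕ → Submodule A (B k₀), ∀ j, N j =
      (B (k₀ + j - 1)).comap (((xm A V) ^ j) ∘ₗ (B k₀).subtype) := ⟨_, fun j => rfl⟩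
  have hNm : ∀ (j : ℕ) (u : B k₀), u ∈ N j ↔ (X ^ j : A[X]) • (u : V) ∈ B (k₀ + j - 1) := by
    intro j u
    rw [hN, Submodule.mem_comap, LinearMap.comp_apply, rx1_xm_pow]
    rfl
  have hmono : Monotone N := by
    apply monotone_nat_of_le_succ
    intro j u hu
    rw [hNm] at hu ⊢
    rw [rx1_Xpow_succ]
    have h3 := hB.mulX _ _ hu
    have h4 : k₀ + (j : ℤ) - 1 + 1 = k₀ + ((j + 1 : ℕ) : ℤ) - 1 := by push_cast; ring
    rwa [h4] at h3
  obtain ⟨J, hJ⟩ := (monotone_stabilizes_iff_noetherian.2 hnoeth) ⟨N, hmono⟩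
  refine ⟨k₀ + J, ?_⟩
  intro k hk v hv hXv
  obtain ⟨j, hj⟩ : ∃ j : ℕ, k = k₀ + j := ⟨(k - k₀).toNat, by omega⟩
  subst hj
  have hjJ : J ≤ j := by omega
  obtain ⟨u, hu, a, ha, rfl⟩ := rx1_dec B hB.mono hB.mulX k₀ hgen j v hv
  refine Submodule.add_mem _ ?_ ha
  have h5 : (X : A[X]) • a ∈ B (k₀ + j) := by
    have h6 := hB.mulX _ _ ha
    have h7 : k₀ + (j : ℤ) - 1 + 1 = k₀ + j := by ring
    rwa [h7] at h6
  have h6 : (X ^ (j + 1) : A[X]) • u ∈ B (k₀ + j) := by
    rw [rx1_Xpow_succ]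
    have h7 := Submodule.sub_mem _ hXv h5
    rwa [smul_add, add_sub_cancel_right] at h7
  have h7 : (⟨u, hu⟩ : B k₀) ∈ N (j + 1) := by
    rw [hNm]
    have h8 : k₀ + ((j + 1 : ℕ) : ℤ) - 1 = k₀ + j := by push_cast; ring
    rw [h8]
    exact h6
  have h8 : N (j + 1) = N j := by
    have h9 : N J = N j := hJ j hjJ
    have h10 : N J = N (j + 1) := hJ (j + 1) (by omega)
    rw [← h10, h9]
  rw [h8, hNm] at h7
  exact h7

end RX1

theorem thm_RX1 : St_RX1 := by
  intro A _ _ U _ _ _ _ W _ _ _ _ V _ _ _ _ i p K E B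
  refine ⟨rx1_zero B, ?_⟩
  intro hS
  have hik : ∀ k, (K k).map (i.restrictScalars A) = E k ⊓ LinearMap.ker (p.restrictScalars A) := by
    intro k
    ext w
    constructor
    · rintro ⟨u, hu, rfl⟩
      refine ⟨(hS.ker k u).1 hu, ?_⟩
      have h1 : i u ∈ LinearMap.ker p := by
        rw [← hS.ex]
        exact ⟨u, rfl⟩
      exact h1
    · rintro ⟨hw, hpw⟩
      have h1 : w ∈ LinearMap.ker p := hpw
      rw [← hS.ex] at h1
      obtain ⟨u, rfl⟩ := h1
      exact ⟨u, (hS.ker k u).2 hw, rfl⟩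
  have hpk : ∀ k, (E k).map (p.restrictScalars A) = B k := by
    intro k
    ext v
    rw [hS.im k v]
    constructor
    · rintro ⟨w, hw, rfl⟩
      exact ⟨w, hw, rfl⟩
    · rintro ⟨w, hw, rfl⟩
      exact ⟨w, hw, rfl⟩
  have hinj : Function.Injective (i.restrictScalars A) := hS.inj
  constructor
  · intro hE
    have hB : IsLat B := by
      refine ⟨?_, ?_, ?_, ?_, ?_, ?_⟩
      · intro k v hv
        obtain ⟨w, hw, rfl⟩ := (hS.im k v).1 hv
        exact (hS.im (k + 1) _).2 ⟨w, hE.mono k hw, rfl⟩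
      · intro k v hv
        obtain ⟨w, hw, rfl⟩ := (hS.im k v).1 hv
        exact (hS.im (k + 1) _).2 ⟨(X : A[X]) • w, hE.mulX k w hw, map_smul _ _ _⟩
      · obtain ⟨k₀, h0⟩ := hE.bot
        refine ⟨k₀, fun k hk => ?_⟩
        rw [← hpk, h0 k hk, Submodule.map_bot]
      · intro k
        rw [← hpk]
        exact (hE.fg k).map _
      · obtain ⟨k₀, h0⟩ := hE.gen
        refine ⟨k₀, fun k hk v hv => ?_⟩
        obtain ⟨w, hw, rfl⟩ := (hS.im (k + 1) v).1 hv
        obtain ⟨a, ha, b, hb, rfl⟩ := h0 k hk w hw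
        exact ⟨p a, (hS.im k _).2 ⟨a, ha, rfl⟩, p b, (hS.im k _).2 ⟨b, hb, rfl⟩, by
          rw [map_add, map_smul]⟩
      · intro v
        obtain ⟨w, rfl⟩ := hS.surj v
        obtain ⟨k, hk⟩ := hE.top w
        exact ⟨k, (hS.im k _).2 ⟨w, hk, rfl⟩⟩
    refine ⟨⟨?_, ?_, ?_, ?_, ?_, ?_⟩, hB⟩
    · intro k u hu
      exact (hS.ker (k + 1) u).2 (hE.mono k ((hS.ker k u).1 hu))
    · intro k u hu
      rw [hS.ker, map_smul]
      exact hE.mulX k _ ((hS.ker k u).1 hu)
    · obtain ⟨k₀, h0⟩ := hE.bot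
      refine ⟨k₀, fun k hk => ?_⟩
      rw [eq_bot_iff]
      intro u hu
      have h1 := (hS.ker k u).1 hu
      rw [h0 k hk, Submodule.mem_bot] at h1
      rw [Submodule.mem_bot]
      exact hS.inj (by rw [h1, map_zero])
    · intro k
      apply Submodule.fg_of_fg_map_injective (i.restrictScalars A) hinj
      rw [hik]
      exact (hE.fg k).of_le inf_le_left
    · obtain ⟨k₀, h0⟩ := hE.gen
      obtain ⟨k₂, h2⟩ := rx1_zero B hB
      refine ⟨max k₀ k₂, fun k hk u hu => ?_⟩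
      obtain ⟨a, ha, b, hb, hab⟩ := h0 k (le_trans (le_max_left _ _) hk) (i u) ((hS.ker (k + 1) u).1 hu)
      have hpi : p (i u) = 0 := by
        have h1 : i u ∈ LinearMap.ker p := by
          rw [← hS.ex]
          exact ⟨u, rfl⟩
        exact h1
      have hpb : p b ∈ B (k - 1) := by
        apply h2 k (le_trans (le_max_right _ _) hk) (p b) ((hS.im k _).2 ⟨b, hb, rfl⟩)
        have h3 : (X : A[X]) • p b = - p a := by
          rw [hab, map_add, map_smul] at hpi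
          exact eq_neg_of_add_eq_zero_right hpi
        rw [h3]
        exact Submodule.neg_mem _ ((hS.im k _).2 ⟨a, ha, rfl⟩)
      obtain ⟨b', hb', hpb'⟩ := (hS.im (k - 1) _).1 hpb
      have h4 : b - b' ∈ LinearMap.ker p := by
        rw [LinearMap.mem_ker, map_sub, hpb', sub_self]
      rw [← hS.ex] at h4
      obtain ⟨u₂, hu₂⟩ := h4
      have hb'k : b' ∈ E k := rx1_mono E hE.mono (k - 1) k (by omega) hb'
      have hu₂k : u₂ ∈ K k := by
        rw [hS.ker, hu₂]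
        exact Submodule.sub_mem _ hb hb'k
      refine ⟨u - (X : A[X]) • u₂, ?_, u₂, hu₂k, by rw [sub_add_cancel]⟩
      rw [hS.ker, map_sub, map_smul, hu₂, hab, smul_sub]
      have h5 : (X : A[X]) • b' ∈ E k := by
        have h6 := hE.mulX _ _ hb'
        rwa [sub_add_cancel] at h6
      have h6 : a + (X : A[X]) • b - ((X : A[X]) • b - (X : A[X]) • b') = a + (X : A[X]) • b' := by
        abel
      rw [h6]
      exact Submodule.add_mem _ ha h5
    · intro u
      obtain ⟨k, hk⟩ := hE.top (i u)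
      exact ⟨k, (hS.ker k u).2 hk⟩
  · intro hK hB hmono hX
    refine ⟨hmono, hX, ?_, ?_, ?_, ?_⟩
    · obtain ⟨k₀, h0⟩ := hK.bot
      obtain ⟨k₁, h1⟩ := hB.bot
      refine ⟨min k₀ k₁, fun k hk => ?_⟩
      rw [eq_bot_iff]
      intro w hw
      have h2 : p w ∈ B k := (hS.im k _).2 ⟨w, hw, rfl⟩
      rw [h1 k (le_trans hk (min_le_right _ _)), Submodule.mem_bot] at h2
      have h3 : w ∈ LinearMap.ker p := h2
      rw [← hS.ex] at h3
      obtain ⟨u, rfl⟩ := h3
      have h4 := (hS.ker k u).2 hw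
      rw [h0 k (le_trans hk (min_le_left _ _)), Submodule.mem_bot] at h4
      rw [h4, map_zero]
      exact Submodule.zero_mem _
    · intro k
      apply Submodule.fg_of_fg_map_of_fg_inf_ker (p.restrictScalars A)
      · rw [hpk]
        exact hB.fg k
      · rw [← hik]
        exact (hK.fg k).map _
    · obtain ⟨k₀, h0⟩ := hK.gen
      obtain ⟨k₁, h1⟩ := hB.gen
      refine ⟨max k₀ k₁, fun k hk w hw => ?_⟩
      have h2 : p w ∈ B (k + 1) := (hS.im _ _).2 ⟨w, hw, rfl⟩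
      obtain ⟨a, ha, b, hb, hab⟩ := h1 k (le_trans (le_max_right _ _) hk) _ h2
      obtain ⟨a', ha', rfl⟩ := (hS.im k a).1 ha
      obtain ⟨b', hb', rfl⟩ := (hS.im k b).1 hb
      have h3 : w - (a' + (X : A[X]) • b') ∈ LinearMap.ker p := by
        rw [LinearMap.mem_ker, map_sub, map_add, map_smul, ← hab, sub_self]
      rw [← hS.ex] at h3
      obtain ⟨u, hu⟩ := h3
      have h4 : u ∈ K (k + 1) := by
        rw [hS.ker, hu]
        exact Submodule.sub_mem _ hw (Submodule.add_mem _ (hmono k ha') (hX k _ hb'))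
      obtain ⟨a₂, ha₂, b₂, hb₂, hab₂⟩ := h0 k (le_trans (le_max_left _ _) hk) u h4
      refine ⟨a' + i a₂, Submodule.add_mem _ ha' ((hS.ker k _).1 ha₂), b' + i b₂,
        Submodule.add_mem _ hb' ((hS.ker k _).1 hb₂), ?_⟩
      have h5 : w = i u + (a' + (X : A[X]) • b') := by rw [hu, sub_add_cancel]
      rw [h5, hab₂, map_add, map_smul, smul_add]
      abel
    · intro w
      obtain ⟨k₁, h1⟩ := hB.top (p w)
      obtain ⟨w', hw', hpw'⟩ := (hS.im k₁ _).1 h1
      have h3 : w - w' ∈ LinearMap.ker p := by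
        rw [LinearMap.mem_ker, map_sub, hpw', sub_self]
      rw [← hS.ex] at h3
      obtain ⟨u, hu⟩ := h3
      obtain ⟨k₂, h2⟩ := hK.top u
      refine ⟨max k₁ k₂, ?_⟩
      have h4 : w = w' + i u := by rw [hu, add_sub_cancel]
      rw [h4]
      exact Submodule.add_mem _ (rx1_mono E hmono _ _ (le_max_left _ _) hw')
        (rx1_mono E hmono _ _ (le_max_right _ _) ((hS.ker k₂ u).1 h2))

end Pool.Agent.SLZ
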