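import Pool.Agent.SLZ.MA
import Pool.Agent.SLZ.FFP
import Pool.Agent.SLZ.RA1
import Pool.Agent.SLZ.RA2
import Pool.Agent.SLZ.RA3
import Pool.Agent.SLZ.RA4
import Pool.Agent.SLZ.RA5
import Pool.Agent.SLZ.RB1
import Pool.Agent.SLZ.RB2
import Pool.Agent.SLZ.RB3
import Pool.Agent.SLZ.RX1
import Pool.Agent.SLZ.RX
import Pool.Agent.SLZ.RC
import Pool.Agent.SLZ.RD
import Pool.Agent.SLZ.RE
import Pool.Agent.SLZ.RG0
import Pool.Agent.SLZ.RG
import Pool.Agent.SLZ.RH0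
import Pool.Agent.SLZ.RH1
import Pool.Agent.SLZ.RH
import Pool.Agent.SLZ.RI
import Pool.Agent.SLZ.RK
import Pool.Agent.SLZ.RL1
import Pool.Agent.SLZ.RL2
import Pool.Agent.SLZ.RL3
import Pool.Agent.SLZ.RL4
import Pool.Agent.SLZ.RL5
import Pool.Agent.SLZ.RM1
import Pool.Agent.SLZ.RM
import Pool.Agent.SLZ.RN
import Pool.Agent.SLZ.RO1
import Pool.Agent.SLZ.RO2
import Pool.Agent.SLZ.RO

/-!
# SLZ, part R (infinite rank), without hypotheses (architect helper94)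
-/

set_option autoImplicit false
set_option linter.unusedVariables false

noncomputable section

namespace Pool.Agent.SLZ

theorem rall_RA1 : St_RA1 := thm_RA1 thm_MA
theorem rall_RA2 : St_RA2 := thm_RA2 thm_MA rall_RA1
theorem rall_RA3 : St_RA3 := thm_RA3 thm_MA rall_RA2 thm_RB1 thm_RB2
theorem rall_RX : St_RX := thm_RX thm_RX1 thm_FFP
theorem rall_RB3 : St_RB3 := thm_RB3 rall_RX thm_RB1 thm_FFP
theorem rall_RA4 : St_RA4 := thm_RA4 thm_MA thm_RB2 rall_RB3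
theorem rall_RA5 : St_RA5 := thm_RA5 thm_MA rall_RA1 rall_RA2 rall_RA3 thm_RB1 thm_RB2 rall_RB3
theorem rall_RD : St_RD := thm_RD thm_RB1 rall_RB3 thm_RC
theorem rall_RG0 : St_RG0 := thm_RG0 rall_RA5 thm_RB1 thm_RB2 rall_RB3
theorem rall_RG : St_RG := thm_RG thm_RB1 thm_RB2 rall_RX rall_RB3 rall_RA4 rall_RA5 rall_RG0
theorem rall_RH0 : St_RH0 := thm_RH0 rall_RA4 rall_RA5 rall_RB3
theorem rall_RH1 : St_RH1 :=
  thm_RH1 thm_RB1 thm_RB2 rall_RB3 rall_RX rall_RA4 thm_RE rall_RG0 rall_RG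
theorem rall_RH : St_RH := thm_RH rall_RX rall_RB3 rall_RH0 rall_RH1
theorem rall_RI : St_RI := thm_RI thm_MA thm_RB1 thm_RB2 rall_RB3 rall_RA4 rall_RD rall_RH
theorem rall_RK : St_RK := thm_RK thm_MA rall_RA1 rall_RA3 thm_RB1 thm_RB2 rall_RB3 rall_RI
theorem rall_RL1 : St_RL1 := thm_RL1 thm_FFP
theorem rall_RL2 : St_RL2 := thm_RL2 thm_FFP thm_RB1 rall_RL1
theorem rall_RL3 : St_RL3 := thm_RL3 thm_RB1 rall_RB3
theorem rall_RL4 : St_RL4 := thm_RL4 thm_FFP thm_RB1 rall_RB3 rall_RL1 rall_RL3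
theorem rall_RL5 : St_RL5 := thm_RL5 rall_RL2 rall_RL3 rall_RL4
theorem rall_RM1 : St_RM1 := thm_RM1 thm_MA rall_RA2 thm_RB1 thm_RB2 rall_RB3 rall_RL5
theorem rall_RM : St_RM := thm_RM thm_MA thm_RB1 thm_RB2 rall_RB3 rall_RM1
theorem rall_RN : St_RN := thm_RN thm_MA rall_RA2 thm_RB1 thm_RB2 rall_RB3 rall_RK rall_RM
theorem rall_RO1 : St_RO1 := thm_RO1 thm_FFP
theorem rall_RO2 : St_RO2 := thm_RO2 thm_FFP thm_RB1 rall_RB3 thm_RC rall_RO1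
theorem all_RO : St_RO := thm_RO thm_MA rall_RA2 thm_RB1 thm_RB2 rall_RB3 rall_RN rall_RO1 rall_RO2

end Pool.Agent.SLZ
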