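import Pool.Agent.SLZ.StV2

/-!
# SLZ, V2a: split frames in the kernel of a unimodular system (helper97)
-/

set_option autoImplicit false
set_option linter.unusedVariables false

noncomputable section

namespace Pool.Agent.SLZ

theorem thm_V2a (hK : St_VK2) : St_V2a := by
  intro Λ _ s c hKF hSF n p V M _ _ q l T f w J hn hM hT hfw
  classical
  -- the kernel and the projection
  let K : Submodule Λ M := LinearMap.ker (LinearMap.pi f)
  have hKm : ∀ x, x ∈ K ↔ ∀ i, f i x = 0 := by
    intro x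
    change LinearMap.pi f x = 0 ↔ _
    exact ⟨fun h i => congrFun h i, fun h => funext h⟩
  obtain ⟨eK⟩ := (hK Λ s hKF).1 n p M f w K hM (by omega) hfw hKm
  let π0 : M →ₗ[Λ] M := LinearMap.id - ∑ i, (LinearMap.toSpanSingleton Λ M (w i)) ∘ₗ f i
  have hπ0 : ∀ m, π0 m = m - ∑ i, f i m • w i := by
    intro m
    simp [π0, LinearMap.sum_apply]
  have hπK : ∀ m, π0 m ∈ K := by
    intro m
    rw [hKm]
    intro j
    rw [hπ0, map_sub, map_sum, Finset.sum_eq_single j]
    · rw [map_smul, hfw, if_pos rfl, smul_eq_mul, mul_one, sub_self]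
    · intro i _ hi
      rw [map_smul, hfw, if_neg (Ne.symm hi), smul_zero]
    · intro h
      exact absurd (Finset.mem_univ _) h
  let π : M →ₗ[Λ] K := π0.codRestrict K hπK
  have hπ1 : ∀ m (hm : m ∈ K), π m = ⟨m, hm⟩ := by
    intro m hm
    apply Subtype.ext
    change π0 m = m
    rw [hπ0, Finset.sum_eq_zero, sub_zero]
    intro i _
    rw [(hKm m).1 hm i, zero_smul]
  have hπw : ∀ j, π (w j) = 0 := by
    intro j
    apply Subtype.ext
    change π0 (w j) = 0
    rw [hπ0, Finset.sum_eq_single j]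
    · rw [hfw, if_pos rfl, one_smul, sub_self]
    · intro i _ hi
      rw [hfw, if_neg hi, zero_smul]
    · intro h
      exact absurd (Finset.mem_univ _) h
  set T' : Set V := {v | v ∈ T ∧ (∀ i, f i (q v) = 0) ∧ ∀ j ∈ J, l v (w j) = 0} with hT'
  have hqK : ∀ v ∈ T', q v ∈ K := fun v hv => (hKm _).2 hv.2.1
  have hq' : ∀ v ∈ T', ((π (q v) : K) : M) = q v := by
    intro v hv
    rw [hπ1 _ (hqK v hv)]
  have hSFT : SFT (fun v => π (q v)) (fun v => (l v) ∘ₗ K.subtype) T' := by
    refine ⟨fun v hv => ?_, fun a g hg => ?_⟩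
    · change l v ((π (q v) : K) : M) = 1
      rw [hq' v hv]
      exact hT.1 v hv.1
    · obtain ⟨v, hv, hv1, hv2⟩ := hT.2 (a : M) (g ∘ₗ π) (by
        change g (π (a : M)) = 1
        rw [hπ1 _ a.2]
        exact hg)
      refine ⟨v, ⟨hv, fun i => ?_, fun j _ => ?_⟩, ?_, ?_⟩
      · rw [hv1]
        exact (hKm _).1 a.2 i
      · rw [hv2]
        change g (π (w j)) = 0
        rw [hπw, map_zero]
      · change π (q v) = a
        rw [hv1, hπ1 _ a.2]
      · change (l v) ∘ₗ K.subtype = g
        rw [hv2]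
        ext x
        change g (π (x : M)) = g x
        rw [hπ1 _ x.2]
  have h := hSF (n - p) V K (fun v => π (q v)) (fun v => (l v) ∘ₗ K.subtype) T' (by omega)
    ⟨eK⟩ hSFT
  have hset : Fl (sfr (fun v => π (q v)) (fun v => (l v) ∘ₗ K.subtype)) T' =
      Fl (sfr q l) T' := by
    have h1 : ∀ v ∈ T', ∀ u ∈ T', (sfr (fun v => π (q v)) (fun v => (l v) ∘ₗ K.subtype) v u ↔
        sfr q l v u) := by
      intro v hv u hu
      unfold sfr
      have h2 : ((l v) ∘ₗ K.subtype) (π (q u)) = l v (q u) := by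
        change l v ((π (q u) : K) : M) = _
        rw [hq' u hu]
      have h3 : ((l u) ∘ₗ K.subtype) (π (q v)) = l u (q v) := by
        change l u ((π (q v) : K) : M) = _
        rw [hq' v hv]
      rw [h2, h3]
    have h4 : (Fl (sfr (fun v => π (q v)) (fun v => (l v) ∘ₗ K.subtype)) T').s =
        (Fl (sfr q l) T').s := by
      ext k
      constructor
      · intro hk v hv
        exact ⟨(hk v hv).1, fun u hu => (h1 v (hk v hv).1 u (hk u hu).1).1 ((hk v hv).2 u hu)⟩
      · intro hk v hv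
        exact ⟨(hk v hv).1, fun u hu => (h1 v (hk v hv).1 u (hk u hu).1).2 ((hk v hv).2 u hu)⟩
    cases h5 : Fl (sfr (fun v => π (q v)) (fun v => (l v) ∘ₗ K.subtype)) T'
    cases h6 : Fl (sfr q l) T'
    rw [h5, h6] at h4
    cases h4
    rfl
  rw [hset] at h
  exact h

end Pool.Agent.SLZ
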