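import Pool.Agent.SLZ.StV2

/-!
# SLZ, V2b: the mixed complex of split frames and functionals (helper96)
-/

set_option autoImplicit false
set_option linter.unusedVariables false

noncomputable section

namespace Pool.Agent.SLZ

private theorem V2b_empty {V : Type} (A : Cx V) (h : A.s = ∅) (c : ℕ) : Conn A c := by
  intro j _ z hz _
  have h0 : z = 0 := by
    have h1 : z ∈ Finsupp.supported ℤ ℤ {l | l ∈ A.s ∧ l.length = j} := hz
    rw [h] at h1
    have h2 : {l : List V | l ∈ (∅ : Set (List V)) ∧ l.length = j} = ∅ := by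
      ext l
      simp
    rw [h2, Finsupp.supported_empty] at h1
    exact h1
  exact ⟨0, Submodule.zero_mem _, by rw [h0, map_zero]⟩

private theorem V2b_dual {Λ : Type} [CommRing Λ] {M : Type} [AddCommGroup M] [Module Λ M] (n : ℕ)
    (h : Nonempty (M ≃ₗ[Λ] (Fin n → Λ))) : Nonempty ((M →ₗ[Λ] Λ) ≃ₗ[Λ] (Fin n → Λ)) := by
  obtain ⟨e⟩ := h
  exact ⟨(LinearEquiv.congrLeft Λ Λ e).trans (Pi.basisFun Λ (Fin n)).toDualEquiv.symm⟩

private theorem V2b_refl {Λ : Type} [CommRing Λ] {M : Type} [AddCommGroup M] [Module Λ M] (n : ℕ)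
    (h : Nonempty (M ≃ₗ[Λ] (Fin n → Λ))) (φ : (M →ₗ[Λ] Λ) →ₗ[Λ] Λ) :
    ∃ m : M, ∀ f : M →ₗ[Λ] Λ, f m = φ f := by
  obtain ⟨e⟩ := h
  have : Module.Free Λ M := Module.Free.of_equiv e.symm
  have : Module.Finite Λ M := Module.Finite.equiv e.symm
  refine ⟨(Module.evalEquiv Λ M).symm φ, fun f => ?_⟩
  have h1 : Module.evalEquiv Λ M ((Module.evalEquiv Λ M).symm φ) = φ :=
    LinearEquiv.apply_symm_apply _ _
  have h2 := LinearMap.congr_fun h1 f
  exact h2

/-- the part of the link of `σ` in the functionals -/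
private theorem V2b_link (hJ : St_VJ) (hK : St_VK2) (Λ : Type) [CommRing Λ] (s : ℕ)
    (hF : KerFree Λ s) (hTA : ∀ n, TA Λ s n) (n c : ℕ) (V M : Type) [AddCommGroup M] [Module Λ M]
    (q : V → M) (l : V → (M →ₗ[Λ] Λ)) (T : Set V) (hM : Nonempty (M ≃ₗ[Λ] (Fin n → Λ)))
    (hT : ∀ v ∈ T, l v (q v) = 1) (hc : c + s ≤ n + 1) (m : ℕ) (u : Fin m → V)
    (hu : Function.Injective u) (hc' : m + 1 ≤ c) (σ : List (V ⊕ (M →ₗ[Λ] Λ)))
    (hσ : ∀ w, w ∈ σ ↔ ∃ i, w = Sum.inl (u i)) (hσA : σ ∈ (KX q l T).s) :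
    Conn (lkX (KX q l T) (Set.range Sum.inr) σ) (c - m) := by
  obtain ⟨hs1, hs2, hs3, -, -⟩ := hσA
  have huσ : ∀ i, Sum.inl (u i) ∈ σ := fun i => (hσ _).2 ⟨i, rfl⟩
  have hnr : ∀ f, Sum.inr f ∉ σ := by
    intro f hf
    obtain ⟨i, hi⟩ := (hσ _).1 hf
    exact Sum.inr_ne_inl hi
  -- duality
  have hdual : ∀ i j, l (u j) (q (u i)) = if i = j then 1 else 0 := by
    intro i j
    by_cases h : i = j
    · subst h
      rw [if_pos rfl]
      exact hT _ (hs1 _ (huσ i))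
    · rw [if_neg h]
      rcases hs2 _ _ (huσ i) (huσ j) with h1 | h1
      · exact absurd (hu h1) h
      · exact h1.2
  obtain ⟨ev, hev⟩ : ∃ ev : Fin m → ((M →ₗ[Λ] Λ) →ₗ[Λ] Λ), ∀ i f, ev i f = f (q (u i)) :=
    ⟨fun i => LinearMap.applyₗ (q (u i)), fun i f => rfl⟩
  obtain ⟨K, hKm⟩ : ∃ K : Submodule Λ (M →ₗ[Λ] Λ), ∀ f, f ∈ K ↔ ∀ i, f (q (u i)) = 0 := by
    refine ⟨⨅ i, LinearMap.ker (ev i), fun f => ?_⟩
    rw [Submodule.mem_iInf]
    exact forall_congr' fun i => by rw [LinearMap.mem_ker, hev]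
  obtain ⟨e0⟩ : Nonempty (K ≃ₗ[Λ] (Fin (n - m) → Λ)) :=
    (hK Λ s hF).1 n m (M →ₗ[Λ] Λ) ev (fun i => l (u i)) K (V2b_dual n hM) (by omega)
      (fun i j => by rw [hev]; exact hdual i j)
      (fun f => by
        rw [hKm]
        exact forall_congr' fun i => by rw [hev])
  -- the projection
  obtain ⟨p0, hp0⟩ : ∃ p0 : (M →ₗ[Λ] Λ) →ₗ[Λ] (M →ₗ[Λ] Λ),
      ∀ f, p0 f = f - ∑ i, (f (q (u i))) • l (u i) := by
    refine ⟨LinearMap.id - ∑ i, (ev i).smulRight (l (u i)), fun f => ?_⟩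
    rw [LinearMap.sub_apply, LinearMap.sum_apply]
    congr 1
    exact Finset.sum_congr rfl fun i _ => by rw [LinearMap.smulRight_apply, hev]
  have hp0K : ∀ f, p0 f ∈ K := by
    intro f
    rw [hKm]
    intro j
    rw [hp0, LinearMap.sub_apply, LinearMap.sum_apply, Finset.sum_eq_single j]
    · rw [LinearMap.smul_apply, hdual j j, if_pos rfl, smul_eq_mul, mul_one, sub_self]
    · intro i _ hij
      rw [LinearMap.smul_apply, hdual j i, if_neg (fun h => hij h.symm), smul_zero]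
    · intro h
      exact absurd (Finset.mem_univ j) h
  have hp0id : ∀ f ∈ K, p0 f = f := by
    intro f hf
    rw [hp0, Finset.sum_eq_zero, sub_zero]
    intro i _
    rw [(hKm f).1 hf i, zero_smul]
  obtain ⟨π, hπ, hπid⟩ : ∃ π : (M →ₗ[Λ] Λ) →ₗ[Λ] K, (∀ f, (π f : M →ₗ[Λ] Λ) = p0 f) ∧
      ∀ f : K, π f = f :=
    ⟨p0.codRestrict K hp0K, fun f => rfl, fun f => Subtype.ext (hp0id f f.2)⟩
  have hTy : TyA Λ (n - m) (fun f : M →ₗ[Λ] Λ => π f) (K : Set (M →ₗ[Λ] Λ)) := by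
    refine ⟨PUnit, inferInstance, inferInstance, e0.trans LinearEquiv.prodUnique.symm,
      PUnit.unit, fun v _ => rfl, fun a => ⟨(e0.symm a : K), (e0.symm a).2, ?_⟩⟩
    change (e0.trans LinearEquiv.prodUnique.symm) (π (e0.symm a : K)) = (a, PUnit.unit)
    rw [hπid, LinearEquiv.trans_apply, LinearEquiv.apply_symm_apply]
    rfl
  have hSC : SC (UC Λ (fun f : M →ₗ[Λ] Λ => π f) [] (K : Set (M →ₗ[Λ] Λ)))
      (n - m + 1 - s - ([] : List (M →ₗ[Λ] Λ)).length) :=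
    hTA (n - m) (M →ₗ[Λ] Λ) K (fun f => π f) (K : Set (M →ₗ[Λ] Λ)) [] List.nodup_nil
      (fun v hv => absurd hv List.not_mem_nil) hTy
  have hCo : Conn (UC Λ (fun f : M →ₗ[Λ] Λ => π f) [] (K : Set (M →ₗ[Λ] Λ))) (c - m) := by
    refine hJ.2.1 _ _ _ (hJ.2.2.1 _ _ _ _ ?_ hSC)
    rw [List.length_nil]
    omega
  refine (hJ.1 (M →ₗ[Λ] Λ) (V ⊕ (M →ₗ[Λ] Λ)) _ _ Sum.inr (Sum.elim (fun _ => 0) id) (c - m)
    ?_ ?_ ?_).1 hCo
  · rintro k ⟨hk1, φ, hφ⟩
    have hin : ∀ f, Sum.inr f ∈ σ ++ k.map Sum.inr → f ∈ k := by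
      intro f hf
      rcases List.mem_append.1 hf with h | h
      · exact absurd h (hnr f)
      · obtain ⟨g, hg, he⟩ := List.mem_map.1 h
        exact Sum.inr_injective he ▸ hg
    have hin' : ∀ v, Sum.inl v ∈ σ ++ k.map Sum.inr → Sum.inl v ∈ σ := by
      intro v hv
      rcases List.mem_append.1 hv with h | h
      · exact h
      · obtain ⟨g, hg, he⟩ := List.mem_map.1 h
        exact absurd he Sum.inr_ne_inl
    refine ⟨⟨fun v hv => hs1 v (hin' v hv), fun v w hv hw => hs2 v w (hin' v hv) (hin' w hw),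
      ?_, ?_⟩, ?_⟩
    · intro v f hv hf
      obtain ⟨i, hi⟩ := (hσ _).1 (hin' v hv)
      have hi' : v = u i := Sum.inl_injective hi
      rw [hi']
      exact (hKm f).1 (hk1 f (hin f hf)) i
    · obtain ⟨d, hd⟩ : ∃ d : (M →ₗ[Λ] Λ) → M, ∀ g f : M →ₗ[Λ] Λ, f (d g) = φ g (π f) := by
        refine ⟨fun g => (V2b_refl n hM (φ g ∘ₗ π)).choose, fun g f => ?_⟩
        exact (V2b_refl n hM (φ g ∘ₗ π)).choose_spec f
      refine ⟨d, fun f g hf hg => ?_⟩
      rw [hd g f]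
      have h1 := hφ g (hin g hg) f (hin f hf)
      exact ⟨fun h => h1.1 h.symm, fun h => h1.2 (fun h' => h h'.symm)⟩
    · intro w hw
      obtain ⟨g, hg, he⟩ := List.mem_map.1 hw
      exact ⟨g, he⟩
  · rintro k ⟨⟨_, _, hk3, d, hd⟩, hk5⟩
    have hin : ∀ f, f ∈ k.map (Sum.elim (fun _ => 0) id) → Sum.inr f ∈ k := by
      intro f hf
      obtain ⟨w, hw, he⟩ := List.mem_map.1 hf
      obtain ⟨g, rfl⟩ := hk5 w hw
      have he' : g = f := he
      rw [← he']
      exact hw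
    have hinK : ∀ f, f ∈ k.map (Sum.elim (fun _ => 0) id) → f ∈ K := by
      intro f hf
      rw [hKm]
      intro i
      exact hk3 (u i) f (List.mem_append_left _ (huσ i)) (List.mem_append_right _ (hin f hf))
    refine ⟨fun f hf => hinK f hf, fun g => LinearMap.applyₗ (d g) ∘ₗ K.subtype, ?_⟩
    intro g hg f hf
    have h1 : (LinearMap.applyₗ (d g) ∘ₗ K.subtype) (π f) = f (d g) := by
      change ((π f : M →ₗ[Λ] Λ)) (d g) = f (d g)
      rw [hπ, hp0id f (hinK f hf)]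
    rw [h1]
    have h2 := hd f g (List.mem_append_right _ (hin f hf)) (List.mem_append_right _ (hin g hg))
    exact ⟨fun h => h2.1 h.symm, fun h => h2.2 (fun h' => h h'.symm)⟩
  · rintro k ⟨_, hk5⟩ w hw
    obtain ⟨g, rfl⟩ := hk5 w hw
    rfl

/-- **V2b.** -/
theorem thm_V2b (hJ : St_VJ) (hP : St_VP) (hK : St_VK2) : St_V2b := by
  intro Λ _ s hF hTA n c V M _ _ q l T hM hT hc
  refine (hP _ (KX q l T) (Set.range Sum.inr)).2.1 c ?_
  intro σ hnd hσX
  rcases Nat.lt_or_ge σ.length c with hlt | hge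
  · by_cases hσA : σ ∈ (KX q l T).s
    · have hex : ∀ i : Fin σ.length, ∃ v, σ.get i = Sum.inl v := by
        intro i
        rcases h : σ.get i with v | f
        · exact ⟨v, rfl⟩
        · exact absurd ⟨f, h.symm⟩ (hσX _ (List.get_mem σ i))
      refine V2b_link hJ hK Λ s hF hTA n c V M q l T hM hT hc σ.length
        (fun i => (hex i).choose) ?_ (by omega) σ ?_ hσA
      · intro i j h
        have h1 := (hex i).choose_spec
        have h2 := (hex j).choose_spec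
        have h3 : (hex i).choose = (hex j).choose := h
        rw [h3, ← h2] at h1
        exact (List.nodup_iff_injective_get.1 hnd) h1
      · intro w
        constructor
        · intro hw
          obtain ⟨i, hi⟩ := List.get_of_mem hw
          exact ⟨i, hi.symm.trans (hex i).choose_spec⟩
        · rintro ⟨i, rfl⟩
          rw [← (hex i).choose_spec]
          exact List.get_mem σ i
    · refine V2b_empty _ ?_ _
      ext k
      simp only [Set.mem_empty_iff_false, iff_false]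
      rintro ⟨hk, _⟩
      exact hσA ((KX q l T).mono _ _ (List.subset_append_left _ _) hk)
  · rw [Nat.sub_eq_zero_of_le hge]
    intro j hj
    exact absurd hj (Nat.not_lt_zero j)

end Pool.Agent.SLZ
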