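import Pool.Agent.SLZ.StV2
import Pool.Agent.SLZ.MA

/-!
# SLZ, module V2c: cycles of frames in the kernel of one functional are boundaries (helper45)
-/

set_option autoImplicit false
set_option linter.unusedVariables false

noncomputable section

namespace Pool.Agent.SLZ

theorem V2c_ext {V : Type} (B C : Cx V) (h : ∀ l, l ∈ B.s ↔ l ∈ C.s) : B = C := by
  cases B with
  | mk s hs =>
    cases C with
    | mk t ht =>
      have h1 : s = t := Set.ext h
      subst h1
      rfl

theorem V2c_empty {V : Type} (A : Cx V) (h : ∀ l, l ∉ A.s) (c : ℕ) : Conn A c := by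
  intro j _ z hz _
  refine ⟨0, Submodule.zero_mem _, ?_⟩
  have h1 : z = 0 := by
    ext l
    by_contra h2
    exact h l (MA_mem.1 hz l (Finsupp.mem_support_iff.2 h2)).1
  rw [h1, map_zero]

section V2c

variable {Λ : Type} [CommRing Λ] {V M : Type} [AddCommGroup M] [Module Λ M]

/-- the functionals -/
def V2c_f (l : V → (M →ₗ[Λ] Λ)) (f : M →ₗ[Λ] Λ) (σ : List V) : Fin (σ.length + 1) → (M →ₗ[Λ] Λ) :=
  Fin.cons f fun i => l (σ.get i)

/-- the vectors -/
def V2c_w (q : V → M) (l : V → (M →ₗ[Λ] Λ)) (u : M) (σ : List V) : Fin (σ.length + 1) → M :=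
  Fin.cons (u - ∑ i, (l (σ.get i) u) • q (σ.get i)) fun i => q (σ.get i)

/-- the link of `σ` -/
theorem V2c_link (q : V → M) (l : V → (M →ₗ[Λ] Λ)) (T : Set V) (f : M →ₗ[Λ] Λ) (u : M)
    (σ : List V) (hσ : σ ∈ (Fl (sfr q l) {v | v ∈ T ∧ f (q v) = 0}).s)
    (hσX : ∀ v ∈ σ, v ∉ {v | l v u = 0}) :
    lkX (Fl (sfr q l) {v | v ∈ T ∧ f (q v) = 0}) {v | l v u = 0} σ =
      Fl (sfr q l) {v | v ∈ T ∧ (∀ i, V2c_f l f σ i (q v) = 0) ∧
        ∀ j ∈ (Set.univ : Set (Fin (σ.length + 1))), l v (V2c_w q l u σ j) = 0} := by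
  apply V2c_ext
  intro k
  constructor
  · rintro ⟨h1, h2⟩ v hv
    have hvk : v ∈ σ ++ k := List.mem_append_right _ hv
    have h3 := h1 v hvk
    have h4 : ∀ i, l v (q (σ.get i)) = 0 ∧ l (σ.get i) (q v) = 0 := by
      intro i
      have h5 : σ.get i ∈ σ := List.get_mem σ i
      rcases h3.2 (σ.get i) (List.mem_append_left _ h5) with h6 | h6
      · exact absurd (h2 v hv) (by rw [h6]; exact hσX _ h5)
      · exact h6
    have h7 : l v u = 0 := h2 v hv
    refine ⟨⟨h3.1.1, ?_, ?_⟩, ?_⟩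
    · intro i
      refine Fin.cases ?_ (fun i => ?_) i
      · exact h3.1.2
      · exact (h4 i).2
    · intro j _
      refine Fin.cases ?_ (fun j => ?_) j
      · show l v (u - ∑ i, (l (σ.get i) u) • q (σ.get i)) = 0
        rw [map_sub, h7, map_sum, Finset.sum_eq_zero, sub_zero]
        intro i _
        rw [map_smul, (h4 i).1, smul_zero]
      · exact (h4 j).1
    · intro w hw
      exact h3.2 w (List.mem_append_right _ hw)
  · intro h1
    have h4 : ∀ v ∈ k, ∀ i, l v (q (σ.get i)) = 0 ∧ l (σ.get i) (q v) = 0 := by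
      intro v hv i
      exact ⟨(h1 v hv).1.2.2 i.succ (Set.mem_univ _), (h1 v hv).1.2.1 i.succ⟩
    have h5 : ∀ v ∈ k, ∀ w ∈ σ, l v (q w) = 0 ∧ l w (q v) = 0 := by
      intro v hv w hw
      obtain ⟨i, hi⟩ := List.mem_iff_get.1 hw
      rw [← hi]
      exact h4 v hv i
    refine ⟨?_, ?_⟩
    · intro v hv
      rcases List.mem_append.1 hv with hv | hv
      · refine ⟨(hσ v hv).1, ?_⟩
        intro w hw
        rcases List.mem_append.1 hw with hw | hw
        · exact (hσ v hv).2 w hw
        · exact Or.inr ⟨(h5 w hw v hv).2, (h5 w hw v hv).1⟩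
      · refine ⟨⟨(h1 v hv).1.1, (h1 v hv).1.2.1 0⟩, ?_⟩
        intro w hw
        rcases List.mem_append.1 hw with hw | hw
        · exact Or.inr (h5 v hv w hw)
        · exact (h1 v hv).2 w hw
    · intro v hv
      have h6 : l v (u - ∑ i, (l (σ.get i) u) • q (σ.get i)) = 0 :=
        (h1 v hv).1.2.2 0 (Set.mem_univ _)
      rw [map_sub, map_sum, Finset.sum_eq_zero, sub_zero] at h6
      · exact h6
      · intro i _
        rw [map_smul, (h4 v hv i).1, smul_zero]

theorem V2c_dual (q : V → M) (l : V → (M →ₗ[Λ] Λ)) (T : Set V) (f : M →ₗ[Λ] Λ) (u : M)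
    (hfu : f u = 1) (hT : ∀ v ∈ T, l v (q v) = 1)
    (σ : List V) (hσ : σ ∈ (Fl (sfr q l) {v | v ∈ T ∧ f (q v) = 0}).s) (hnd : σ.Nodup) :
    ∀ i j, V2c_f l f σ i (V2c_w q l u σ j) = if i = j then 1 else 0 := by
  have h1 : ∀ i j : Fin σ.length, l (σ.get i) (q (σ.get j)) = if i = j then 1 else 0 := by
    intro i j
    have hi : σ.get i ∈ σ := List.get_mem σ i
    have hj : σ.get j ∈ σ := List.get_mem σ j
    by_cases hij : i = j
    · rw [if_pos hij, hij]
      exact hT _ (hσ _ hj).1.1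
    · rw [if_neg hij]
      rcases (hσ _ hi).2 _ hj with h | h
      · exact absurd (hnd.injective_get h) hij
      · exact h.1
  have h2 : ∀ j : Fin σ.length, f (q (σ.get j)) = 0 := fun j => (hσ _ (List.get_mem σ j)).1.2
  intro i j
  refine Fin.cases ?_ (fun i => ?_) i
  · refine Fin.cases ?_ (fun j => ?_) j
    · rw [if_pos rfl]
      show f (u - ∑ i, (l (σ.get i) u) • q (σ.get i)) = 1
      rw [map_sub, hfu, map_sum, Finset.sum_eq_zero, sub_zero]
      intro i _
      rw [map_smul, h2 i, smul_zero]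
    · rw [if_neg (Fin.succ_ne_zero j).symm]
      exact h2 j
  · refine Fin.cases ?_ (fun j => ?_) j
    · rw [if_neg (Fin.succ_ne_zero i)]
      show l (σ.get i) (u - ∑ i, (l (σ.get i) u) • q (σ.get i)) = 0
      rw [map_sub, map_sum, Finset.sum_eq_single i]
      · rw [map_smul, h1 i i, if_pos rfl, smul_eq_mul, mul_one, sub_self]
      · intro b _ hb
        rw [map_smul, h1 i b, if_neg (Ne.symm hb), smul_zero]
      · intro h
        exact absurd (Finset.mem_univ i) h
    · show l (σ.get i) (q (σ.get j)) = _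
      rw [h1 i j]
      by_cases hij : i = j
      · rw [if_pos hij, if_pos (by rw [hij])]
      · rw [if_neg hij, if_neg (fun h => hij (Fin.succ_injective _ h))]

end V2c

theorem thm_V2c (hP : St_VP) (h2a : St_V2a) : St_V2c := by
  intro Λ _ s c hK hS n V M _ _ q l T f u hn hM hT hfu w hw hbw
  obtain ⟨y, hyT, hyq, hyl⟩ := hT.2 u f hfu
  obtain ⟨w', hw', e, he, hwe⟩ := (hP V (Fl (sfr q l) {v | v ∈ T ∧ f (q v) = 0})
    {v | l v u = 0}).1 c (by
      intro σ hσ0 hnd hσX
      by_cases hm : c < σ.length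
      · have h1 : c + 1 - σ.length = 0 := by omega
        rw [h1]
        intro j hj
        omega
      · by_cases hσ : σ ∈ (Fl (sfr q l) {v | v ∈ T ∧ f (q v) = 0}).s
        · rw [V2c_link q l T f u σ hσ hσX]
          have hlen : 0 < σ.length := List.length_pos_of_ne_nil hσ0
          exact h2a Λ s (c + 1 - σ.length) hK (hS _ (by omega)) n (σ.length + 1) V M q l T
            (V2c_f l f σ) (V2c_w q l u σ) Set.univ (by omega) hM hT
            (V2c_dual q l T f u hfu hT.1 σ hσ hnd)
        · refine V2c_empty _ ?_ _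
          rintro k ⟨hk, -⟩
          exact hσ ((Fl (sfr q l) {v | v ∈ T ∧ f (q v) = 0}).mono _ _
            (List.subset_append_left _ _) hk)) w hw (by
      intro k hk
      rw [hbw] at hk
      simp at hk)
  have hbw' : bd w' = 0 := by
    have h1 : w' = w - bd e := by rw [hwe, add_sub_cancel_right]
    rw [h1, map_sub, hbw, MA_1, sub_zero]
  refine ⟨consC y w' + e, Submodule.add_mem _ ?_ ?_, ?_⟩
  · refine MA_consCh y hw' ?_
    rintro k ⟨hk1, hk2⟩ v hv
    have h3 : ∀ v ∈ k, sfr q l y v := by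
      intro v hv
      refine Or.inr ⟨?_, ?_⟩
      · rw [hyl]
        exact (hk1 v hv).1.2
      · rw [hyq]
        exact hk2 v hv
    have h4 : ∀ v ∈ k, sfr q l v y := by
      intro v hv
      refine Or.inr ⟨?_, ?_⟩
      · rw [hyq]
        exact hk2 v hv
      · rw [hyl]
        exact (hk1 v hv).1.2
    rcases List.mem_cons.1 hv with hv | hv
    · subst hv
      refine ⟨hyT, ?_⟩
      intro x hx
      rcases List.mem_cons.1 hx with hx | hx
      · exact Or.inl hx.symm
      · exact h3 x hx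
    · refine ⟨(hk1 v hv).1.1, ?_⟩
      intro x hx
      rcases List.mem_cons.1 hx with hx | hx
      · rw [hx]; exact h4 v hv
      · exact (hk1 v hv).2 x hx
  · refine MA_mono he ?_
    intro k hk v hv
    exact ⟨(hk v hv).1.1, (hk v hv).2⟩
  · rw [map_add, MA_2, hbw', map_zero, sub_zero, hwe]

end Pool.Agent.SLZ
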