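import Pool.Agent.SLZ.StV2

/-!
# SLZ, V4: degree push (helper97)
-/

set_option autoImplicit false
set_option linter.unusedVariables false

noncomputable section

namespace Pool.Agent.SLZ

theorem V4_ext {V : Type} {A B : Cx V} (h : A.s = B.s) : A = B := by
  cases A
  cases B
  cases h
  rfl

theorem V4_empty {V : Type} (A : Cx V) (h : A.s = ∅) (c : ℕ) : SC A c := by
  intro W B b _ j _ z hz _
  have h1 : z = 0 := by
    rw [← Finsupp.support_eq_empty, Finset.eq_empty_iff_forall_notMem]
    intro l hl
    rw [Ch, Finsupp.mem_supported] at hz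
    obtain ⟨⟨a, ha, -⟩, -⟩ := (hz hl).1
    rw [h] at ha
    exact ha
  exact ⟨0, Submodule.zero_mem _, by rw [map_zero, h1]⟩

section

variable {A W : Type} [CommRing A] [Nontrivial A] [AddCommGroup W] [Module A W]
  (P : Submodule A W) (m ρ : ℕ)

/-- the left entries of a list -/
def V4_left {V S : Type} (k : List (V ⊕ S)) : List V := k.filterMap Sum.getLeft?

theorem V4_mem_left {V S : Type} (k : List (V ⊕ S)) (v : V) : v ∈ V4_left k ↔ Sum.inl v ∈ k := by
  unfold V4_left
  rw [List.mem_filterMap]
  constructor
  · rintro ⟨a, ha, h⟩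
    cases a with
    | inl w =>
      have : w = v := by simpa using h
      rw [← this]
      exact ha
    | inr s => simp at h
  · intro h
    exact ⟨_, h, rfl⟩

/-- the right entries of a list -/
def V4_right {V S : Type} (k : List (V ⊕ S)) : List S := k.filterMap Sum.getRight?

theorem V4_mem_right {V S : Type} (k : List (V ⊕ S)) (s : S) :
    s ∈ V4_right k ↔ Sum.inr s ∈ k := by
  unfold V4_right
  rw [List.mem_filterMap]
  constructor
  · rintro ⟨a, ha, h⟩
    cases a with
    | inr w =>
      have : w = s := by simpa using h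
      rw [← this]
      exact ha
    | inl v => simp at h
  · intro h
    exact ⟨_, h, rfl⟩


omit [Nontrivial A] in
/-- step 1 -/
theorem V4_step1 (hJ : St_VJ) (h4a : St_V4a) (hTA : ∀ k, TA (Module.End A (Fin m → A)) 2 k)
    (hQ : ∃ Q, IsCompl P Q) (hP : Nonempty (P ≃ₗ[A] (Fin (m * ρ) → A))) :
    SC (rs (ZX P m ρ) (Set.range Sum.inl)) (ρ - 1) := by
  have h1 : SC (HC m P.subtype (Set.univ : Set (W →ₗ[A] (Fin m → A)))) (ρ - 1) := by
    refine h4a A m ρ (hTA ρ) W P P.subtype Set.univ hP ?_
    intro v
    obtain ⟨Q, hQ⟩ := hQ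
    refine ⟨v ∘ₗ P.projectionOnto Q hQ, Set.mem_univ _, ?_⟩
    ext x
    simp
  refine (hJ.1 (W →ₗ[A] (Fin m → A)) ((W →ₗ[A] (Fin m → A)) ⊕ Submodule A W) _ _ Sum.inl
    (Sum.elim id fun _ => 0) (ρ - 1) ?_ ?_ ?_).2 h1
  · intro l hl
    refine ⟨⟨⟨l, hl, fun w hw => ?_⟩, fun H hH => ?_, fun H H' hH => ?_, fun w H hw hH => ?_⟩, ?_⟩
    · obtain ⟨w', hw', h⟩ := List.mem_map.1 hw
      rw [← Sum.inl.inj h]
      exact hw'
    · obtain ⟨w', hw', h⟩ := List.mem_map.1 hH
      exact absurd h (by simp)
    · obtain ⟨w', hw', h⟩ := List.mem_map.1 hH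
      exact absurd h (by simp)
    · obtain ⟨w', hw', h⟩ := List.mem_map.1 hH
      exact absurd h (by simp)
    · intro v hv
      obtain ⟨w', hw', h⟩ := List.mem_map.1 hv
      exact ⟨w', h⟩
  · rintro l ⟨⟨⟨a, ha, h1⟩, -⟩, h2⟩
    refine (HC m P.subtype Set.univ).mono a _ ?_ ha
    intro w hw
    obtain ⟨u, hu, rfl⟩ := List.mem_map.1 hw
    obtain ⟨w', rfl⟩ := h2 u hu
    exact h1 _ hu
  · rintro l ⟨-, h2⟩ u hu
    obtain ⟨w', rfl⟩ := h2 u hu
    rfl

/-- STEP 3 -/
theorem V4_step3 (s : ℕ) (hJ : St_VJ) (hC : St_VC) (h4d : St_V4d) (hKF : KerFree A s)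
    (hs : 1 ≤ s) (hsm : s ≤ m) (hP : Nonempty (P ≃ₗ[A] (Fin (m * ρ) → A))) (c : ℕ)
    (hZ : SC (ZX P m ρ) c) : SC (Fl cmp (YS A W P m ρ)) c := by
  have h1 : SC (rs (ZX P m ρ) (Set.range Sum.inr)) c := by
    refine (hC _ (ZX P m ρ) (Set.range Sum.inr) c).2.2.2.2.1 hZ ?_
    intro σ hσ hnd hσX
    by_cases hσZ : σ ∈ (ZX P m ρ).s
    · -- the list of the maps
      have h2 : σ = (V4_left σ).map Sum.inl := by
        have h3 : ∀ σ : List ((W →ₗ[A] (Fin m → A)) ⊕ Submodule A W),
            (∀ v ∈ σ, v ∉ Set.range (Sum.inr : Submodule A W → _)) →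
            σ = (V4_left σ).map Sum.inl := by
          intro σ
          induction σ with
          | nil => intro _; rfl
          | cons v σ ih =>
            intro h
            have h4 := ih fun u hu => h u (List.mem_cons_of_mem v hu)
            cases v with
            | inl w =>
              have h5 : V4_left (Sum.inl w :: σ) = w :: V4_left σ := rfl
              rw [h5, List.map_cons, ← h4]
            | inr H => exact absurd ⟨H, rfl⟩ (h _ List.mem_cons_self)
        exact h3 σ hσX
      set σ' := V4_left σ with hσ'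
      have hne : σ' ≠ [] := by
        intro h
        rw [h] at h2
        exact hσ h2
      have hnd' : σ'.Nodup := by
        rw [h2] at hnd
        exact List.Nodup.of_map _ hnd
      obtain ⟨⟨a, ha, h5⟩, -⟩ := hσZ
      have hHC : σ' ∈ (HC m P.subtype (Set.univ : Set (W →ₗ[A] (Fin m → A)))).s :=
        (HC m P.subtype Set.univ).mono a _ (fun w hw => h5 w ((V4_mem_left σ w).1 hw)) ha
      obtain ⟨H, hH, hH'⟩ := (h4d A W P s m ρ hKF hs hsm).2 hP σ' hne hnd' hHC
      refine (hC _ (lkX (ZX P m ρ) (Set.range Sum.inr) σ) ∅ _).2.2.2.1 (Sum.inr H) ?_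
      rintro l ⟨⟨⟨b, hb, k1⟩, k2, k3, k4⟩, k5⟩
      have hle : ∀ H', Sum.inr H' ∈ l → H' ≤ H := by
        intro H' hl
        rw [hH' H']
        intro w hw
        exact k4 w H' (List.mem_append_left _ ((V4_mem_left σ w).1 hw))
          (List.mem_append_right _ hl)
      have hinr : ∀ H', Sum.inr H' ∈ σ ++ Sum.inr H :: l → H' = H ∨ Sum.inr H' ∈ l := by
        intro H' h
        rcases List.mem_append.1 h with h | h
        · exact absurd ⟨H', rfl⟩ (hσX _ h)
        · rcases List.mem_cons.1 h with h | h
          · exact Or.inl (Sum.inr.inj h)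
          · exact Or.inr h
      have hinl : ∀ w, Sum.inl w ∈ σ ++ Sum.inr H :: l → w ∈ σ' := by
        intro w h
        rcases List.mem_append.1 h with h | h
        · exact (V4_mem_left σ w).2 h
        · rcases List.mem_cons.1 h with h | h
          · exact absurd h (by simp)
          · obtain ⟨H', h⟩ := k5 _ h
            exact absurd h (by simp)
      refine ⟨⟨⟨a, ha, fun w hw => h5 w ((V4_mem_left σ w).1 (hinl w hw))⟩, fun H' h => ?_,
        fun H1 H2 g1 g2 => ?_, fun w H' g1 g2 => ?_⟩, fun v hv => ?_⟩
      · rcases hinr H' h with h | h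
        · rw [h]
          exact hH
        · exact k2 H' (List.mem_append_right _ h)
      · rcases hinr H1 g1 with g1 | g1
        · rcases hinr H2 g2 with g2 | g2
          · rw [g1, g2]
            exact Or.inl le_rfl
          · rw [g1]
            exact Or.inr (hle _ g2)
        · rcases hinr H2 g2 with g2 | g2
          · rw [g2]
            exact Or.inl (hle _ g1)
          · exact k3 _ _ (List.mem_append_right _ g1) (List.mem_append_right _ g2)
      · have g3 : H' ≤ H := by
          rcases hinr H' g2 with g2 | g2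
          · rw [g2]
          · exact hle _ g2
        exact g3.trans ((hH' H).1 le_rfl w (hinl w g1))
      · rcases List.mem_cons.1 hv with h | h
        · exact ⟨H, h.symm⟩
        · exact k5 v h
    · apply V4_empty
      rw [Set.eq_empty_iff_forall_notMem]
      rintro l ⟨h3, -⟩
      exact hσZ ((ZX P m ρ).mono _ _ (List.subset_append_left _ _) h3)
  refine (hJ.1 ((W →ₗ[A] (Fin m → A)) ⊕ Submodule A W) (Submodule A W) _ _
    (Sum.elim (fun _ => ⊥) id) Sum.inr c ?_ ?_ ?_).2 h1
  · rintro l ⟨⟨h1, h2, h3, h4⟩, h5⟩ H hH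
    obtain ⟨u, hu, rfl⟩ := List.mem_map.1 hH
    obtain ⟨H, rfl⟩ := h5 u hu
    refine ⟨h2 H hu, fun H' hH' => ?_⟩
    obtain ⟨u', hu', rfl⟩ := List.mem_map.1 hH'
    obtain ⟨H', rfl⟩ := h5 u' hu'
    exact h3 H H' hu hu'
  · intro l hl
    have h6 : ∀ H, Sum.inr H ∈ l.map (Sum.inr : Submodule A W → (W →ₗ[A] (Fin m → A)) ⊕ _) →
        H ∈ l := by
      intro H hH
      obtain ⟨H', h7, h8⟩ := List.mem_map.1 hH
      rw [← Sum.inr.inj h8]
      exact h7
    refine ⟨⟨⟨[], ⟨fun w hw => absurd hw List.not_mem_nil, fun _ => 0,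
      fun w hw => absurd hw List.not_mem_nil⟩, fun w hw => ?_⟩,
      fun H hH => (hl H (h6 H hH)).1, fun H H' hH hH' => (hl H (h6 H hH)).2 H' (h6 H' hH'),
      fun w H hw => ?_⟩, fun v hv => ?_⟩
    · obtain ⟨H', h7, h8⟩ := List.mem_map.1 hw
      exact absurd h8 (by simp)
    · obtain ⟨H', h7, h8⟩ := List.mem_map.1 hw
      exact absurd h8 (by simp)
    · obtain ⟨H', h7, h8⟩ := List.mem_map.1 hv
      exact ⟨H', h8⟩
  · intro l hl H hH
    rfl

end

theorem thm_V4 (hJ : St_VJ) (hC : St_VC) (h4a : St_V4a) (h4b : St_V4b) (h4c : St_V4c)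
    (h4d : St_V4d) : St_V4 := by
  intro A W _ _ _ _ P s m ρ hKF hs hsm hTA hQ hP
  induction ρ using Nat.strong_induction_on generalizing W P with
  | _ ρ ih =>
  refine V4_step3 P m ρ s hJ hC h4d hKF hs hsm hP (ρ - 1) ?_
  classical
  refine (hC _ (ZX P m ρ) (Set.range Sum.inl) (ρ - 1)).2.2.2.2.2
    (Sum.elim (fun _ => 0) fun H => m * ρ - Module.finrank A (W ⧸ H)) ?_
    (V4_step1 P m ρ hJ h4a hTA hQ hP) ?_
  · -- adjacent different submodules have different ranks
    have hk : ∀ H ∈ YS A W P m ρ, Module.finrank A (W ⧸ H) ≤ m * ρ := by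
      rintro H ⟨-, k, -, hk, ⟨e⟩, -⟩
      rw [e.finrank_eq, Module.finrank_fin_fun]
      exact Nat.mul_le_mul_left _ hk
    intro u v hu hv huv hl
    cases u with
    | inl w => exact absurd ⟨w, rfl⟩ hu
    | inr H =>
      cases v with
      | inl w => exact absurd ⟨w, rfl⟩ hv
      | inr H' =>
        obtain ⟨-, h2, h3, -⟩ := hl
        have g1 := h2 H (by simp)
        have g2 := h2 H' (by simp)
        have g3 := h3 H H' (by simp) (by simp)
        have g4 := (h4d A W P s m ρ hKF hs hsm).1
        have g5 := hk H g1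
        have g6 := hk H' g2
        intro h
        change m * ρ - Module.finrank A (W ⧸ H) = m * ρ - Module.finrank A (W ⧸ H') at h
        have h' : Module.finrank A (W ⧸ H) = Module.finrank A (W ⧸ H') := by omega
        rcases g3 with g3 | g3
        · exact huv (congrArg _ ((g4 H' g2 H g1 g3).2 h'.symm))
        · exact huv (congrArg _ ((g4 H g1 H' g2 g3).2 h').symm)
  · intro v hv
    cases v with
    | inl w => exact absurd ⟨w, rfl⟩ hv
    | inr H =>
      by_cases hH : H ∈ YS A W P m ρ
      · obtain ⟨k, hk1, hkρ, hfr, hcompl, hfree, hsub⟩ := h4b A W P s m ρ hKF hs hsm hQ H hH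
        -- the first factor
        obtain ⟨P2, _, _, j, hP2, hj, hHC⟩ := h4c A W P m ρ k (by omega) H hH hfr
        have hF1 : SC (HC m P.subtype {w | H ≤ LinearMap.ker w}) (k - 1) := by
          rw [V4_ext hHC]
          exact h4a A m k (hTA k) W P2 j _ hP2 hj
        -- the second factor
        have hF2 : SC (Fl cmp {H' | H' ∈ YS A W P m ρ ∧ H' < H}) (ρ - k - 1) := by
          have h1 := ih (ρ - k) (by omega) H (P.comap H.subtype) hcompl hfree
          refine (hJ.1 (Submodule A H) (Submodule A W) _ _ (fun K => K.map H.subtype)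
            (fun K => K.comap H.subtype) (ρ - k - 1) ?_ ?_ ?_).2 h1
          · intro l hl K hK
            obtain ⟨K', hK', rfl⟩ := List.mem_map.1 hK
            have g1 : (K'.map H.subtype).comap H.subtype = K' :=
              Submodule.comap_map_eq_of_injective H.subtype_injective K'
            have g2 : K'.map H.subtype ≤ H := Submodule.map_subtype_le H K'
            have g3 := (hsub (K'.map H.subtype) g2).2 (by rw [g1]; exact (hl K' hK').1)
            refine ⟨⟨g3.1, lt_of_le_of_ne g2 g3.2⟩, fun K1 hK1 => ?_⟩
            obtain ⟨K1', hK1', rfl⟩ := List.mem_map.1 hK1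
            rcases (hl K' hK').2 K1' hK1' with h | h
            · exact Or.inl (Submodule.map_mono h)
            · exact Or.inr (Submodule.map_mono h)
          · intro l hl K hK
            obtain ⟨K', hK', rfl⟩ := List.mem_map.1 hK
            have g1 := (hl K' hK').1
            refine ⟨(hsub K' g1.2.le).1 ⟨g1.1, g1.2.ne⟩, fun K1 hK1 => ?_⟩
            obtain ⟨K1', hK1', rfl⟩ := List.mem_map.1 hK1
            rcases (hl K' hK').2 K1' hK1' with h | h
            · exact Or.inl (Submodule.comap_mono h)
            · exact Or.inr (Submodule.comap_mono h)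
          · intro l hl K hK
            show (K.comap H.subtype).map H.subtype = K
            rw [Submodule.map_comap_subtype]
            exact inf_eq_right.2 (hl K hK).1.2.le
        have hF := hJ.2.2.2.1 _ _ _ _ _ _ hF1 hF2
        have hF' := hJ.2.2.1 _ _ _ (ρ - 1 - 1) (by omega) hF
        have hset : (lkX (ZX P m ρ) (Set.range Sum.inl ∪
            {u | Sum.elim (fun _ => 0) (fun H => m * ρ - Module.finrank A (W ⧸ H)) u <
              Sum.elim (fun _ => 0) (fun H => m * ρ - Module.finrank A (W ⧸ H))
                (Sum.inr H : (W →ₗ[A] (Fin m → A)) ⊕ Submodule A W)}) [Sum.inr H]).s =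
            (joinC (HC m P.subtype {w | H ≤ LinearMap.ker w})
              (Fl cmp {H' | H' ∈ YS A W P m ρ ∧ H' < H})).s := by
          have g4 := (h4d A W P s m ρ hKF hs hsm).1
          have hk : ∀ H ∈ YS A W P m ρ, Module.finrank A (W ⧸ H) ≤ m * ρ := by
            rintro H ⟨-, k, -, hk, ⟨e⟩, -⟩
            rw [e.finrank_eq, Module.finrank_fin_fun]
            exact Nat.mul_le_mul_left _ hk
          ext l
          constructor
          · rintro ⟨⟨⟨a, ⟨-, d, hd⟩, h1⟩, h2, h3, h4⟩, h5⟩
            refine ⟨⟨V4_left l, ⟨fun w hw => ?_, d, fun w hw w' hw' => ?_⟩,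
              fun w hw => (V4_mem_left l w).2 hw⟩,
              V4_right l, fun K hK => ?_, fun K hK => (V4_mem_right l K).2 hK⟩
            · exact h4 w H (List.mem_append_right _ ((V4_mem_left l w).1 hw)) (by simp)
            · exact hd w (h1 w (List.mem_append_right _ ((V4_mem_left l w).1 hw))) w'
                (h1 w' (List.mem_append_right _ ((V4_mem_left l w').1 hw')))
            · have hK' := (V4_mem_right l K).1 hK
              have g1 := h2 K (List.mem_append_right _ hK')
              refine ⟨⟨g1, ?_⟩, fun K' hK1 => h3 K K' (List.mem_append_right _ hK')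
                (List.mem_append_right _ ((V4_mem_right l K').1 hK1))⟩
              have g2 : m * ρ - Module.finrank A (W ⧸ K) < m * ρ - Module.finrank A (W ⧸ H) := by
                rcases h5 _ hK' with h | h
                · obtain ⟨w, hw⟩ := h
                  exact absurd hw (by simp)
                · exact h
              rcases h3 K H (List.mem_append_right _ hK') (by simp) with g3 | g3
              · refine lt_of_le_of_ne g3 ?_
                rintro rfl
                exact lt_irrefl _ g2
              · have g5 := (g4 K g1 H hH g3).1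
                omega
          · rintro ⟨⟨a, ⟨ha, d, hd⟩, h1⟩, b, hb, h2⟩
            have hr : ∀ K, Sum.inr K ∈ [Sum.inr H] ++ l → K = H ∨
                (K ∈ YS A W P m ρ ∧ K < H ∧ K ∈ b) := by
              intro K hK
              rcases List.mem_append.1 hK with h | h
              · rw [List.mem_singleton] at h
                exact Or.inl (Sum.inr.inj h)
              · have h3 := h2 K h
                exact Or.inr ⟨(hb K h3).1.1, (hb K h3).1.2, h3⟩
            have hl' : ∀ w, Sum.inl w ∈ [Sum.inr H] ++ l → w ∈ a := by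
              intro w hw
              rcases List.mem_append.1 hw with h | h
              · rw [List.mem_singleton] at h
                exact absurd h (by simp)
              · exact h1 w h
            refine ⟨⟨⟨a, ⟨fun _ _ => Set.mem_univ _, d, hd⟩, hl'⟩, fun K hK => ?_,
              fun K K' hK hK' => ?_, fun w K hw hK => ?_⟩, fun u hu => ?_⟩
            · rcases hr K hK with rfl | h
              · exact hH
              · exact h.1
            · rcases hr K hK with rfl | h
              · rcases hr K' hK' with rfl | h'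
                · exact Or.inl le_rfl
                · exact Or.inr h'.2.1.le
              · rcases hr K' hK' with rfl | h'
                · exact Or.inl h.2.1.le
                · exact (hb K h.2.2).2 K' h'.2.2
            · have h6 : H ≤ LinearMap.ker w := ha w (hl' w hw)
              rcases hr K hK with rfl | h
              · exact h6
              · exact h.2.1.le.trans h6
            · cases u with
              | inl w => exact Or.inl ⟨w, rfl⟩
              | inr K =>
                right
                obtain ⟨g1, g2⟩ := (hb K (h2 K hu)).1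
                have g5 := g4 H hH K g1 g2.le
                have g6 := hk K g1
                have g7 : Module.finrank A (W ⧸ H) ≠ Module.finrank A (W ⧸ K) := fun h =>
                  g2.ne (g5.2 h)
                change m * ρ - Module.finrank A (W ⧸ K) < m * ρ - Module.finrank A (W ⧸ H)
                have := g5.1
                omega
        rw [V4_ext hset]
        exact hF'
      · apply V4_empty
        rw [Set.eq_empty_iff_forall_notMem]
        rintro l ⟨⟨-, h3, -⟩, -⟩
        exact hH (h3 H (by simp))

end Pool.Agent.SLZ
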