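import Pool.Agent.SLZ.StV2

/-!
# SLZ, module V4a: unimodular blocks (helper45)
-/

set_option autoImplicit false
set_option linter.unusedVariables false

noncomputable section

namespace Pool.Agent.SLZ

section V4a

variable {A : Type} [CommRing A] {m k : ℕ} {P : Type} [AddCommGroup P] [Module A P]

theorem V4a_smul (g : Module.End A (Fin m → A)) (v : P →ₗ[A] (Fin m → A)) : g • v = g ∘ₗ v := rfl

/-- `A ^ (m k) ≃ (A ^ m) ^ k` -/
def V4a_E (e : P ≃ₗ[A] (Fin (m * k) → A)) : P ≃ₗ[A] (Fin k → Fin m → A) :=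
  e.trans ((LinearEquiv.funCongrLeft A A ((Equiv.prodComm _ _).trans finProdFinEquiv)).trans
    (LinearEquiv.curry A A (Fin k) (Fin m)))

/-- blocks -/
def V4a_e (F : P ≃ₗ[A] (Fin k → Fin m → A)) :
    (P →ₗ[A] (Fin m → A)) ≃ₗ[Module.End A (Fin m → A)]
      (Fin k → Module.End A (Fin m → A)) × PUnit where
  toFun v := (fun i => v ∘ₗ F.symm.toLinearMap ∘ₗ LinearMap.single A (fun _ => Fin m → A) i, PUnit.unit)
  map_add' v w := by
    refine Prod.ext ?_ rfl
    funext i
    exact LinearMap.add_comp _ _ _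
  map_smul' g v := by
    refine Prod.ext ?_ rfl
    funext i
    rfl
  invFun a := ∑ i, (a.1 i) ∘ₗ LinearMap.proj i ∘ₗ F.toLinearMap
  left_inv v := by
    refine LinearMap.ext fun p => ?_
    rw [LinearMap.sum_apply]
    show ∑ i, v (F.symm (Pi.single i (F p i))) = v p
    rw [← map_sum, ← map_sum, Finset.univ_sum_single, LinearEquiv.symm_apply_apply]
  right_inv a := by
    refine Prod.ext ?_ rfl
    funext i
    refine LinearMap.ext fun y => ?_
    show (∑ i', (a.1 i') ∘ₗ LinearMap.proj i' ∘ₗ F.toLinearMap) (F.symm (Pi.single i y)) = a.1 i y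
    rw [LinearMap.sum_apply]
    show ∑ i', (a.1 i') ((F (F.symm (Pi.single i y))) i') = a.1 i y
    rw [LinearEquiv.apply_symm_apply, Finset.sum_eq_single i]
    · rw [Pi.single_eq_same]
    · intro b _ hb
      rw [Pi.single_eq_of_ne hb, map_zero]
    · intro h
      exact absurd (Finset.mem_univ i) h

/-- a functional over the endomorphism ring is composition with a map -/
theorem V4a_fun (F : P ≃ₗ[A] (Fin k → Fin m → A))
    (φ : (P →ₗ[A] (Fin m → A)) →ₗ[Module.End A (Fin m → A)] Module.End A (Fin m → A)) :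
    ∃ d : (Fin m → A) →ₗ[A] P, ∀ v : P →ₗ[A] (Fin m → A), v ∘ₗ d = φ v := by
  refine ⟨∑ i, (F.symm.toLinearMap ∘ₗ LinearMap.single A (fun _ => Fin m → A) i) ∘ₗ
    φ (LinearMap.proj i ∘ₗ F.toLinearMap), ?_⟩
  intro v
  have h1 : v = ∑ i, ((v ∘ₗ F.symm.toLinearMap ∘ₗ LinearMap.single A (fun _ => Fin m → A) i :
      Module.End A (Fin m → A)) • (LinearMap.proj i ∘ₗ F.toLinearMap : P →ₗ[A] (Fin m → A))) :=
    ((V4a_e F).left_inv v).symm
  have h2 : φ v = ∑ i, (v ∘ₗ F.symm.toLinearMap ∘ₗ LinearMap.single A (fun _ => Fin m → A) i :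
      Module.End A (Fin m → A)) * φ (LinearMap.proj i ∘ₗ F.toLinearMap) := by
    conv_lhs => rw [h1]
    rw [map_sum]
    refine Finset.sum_congr rfl fun i _ => ?_
    rw [map_smul, smul_eq_mul]
  rw [h2]
  refine LinearMap.ext fun y => ?_
  rw [LinearMap.comp_apply, LinearMap.sum_apply, map_sum, LinearMap.sum_apply]
  rfl

/-- composition with a map is a functional -/
def V4a_comp (d : (Fin m → A) →ₗ[A] P) :
    (P →ₗ[A] (Fin m → A)) →ₗ[Module.End A (Fin m → A)] Module.End A (Fin m → A) where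
  toFun w := w ∘ₗ d
  map_add' a b := LinearMap.add_comp _ _ _
  map_smul' g a := rfl

end V4a

theorem V4a_ext {V : Type} (B C : Cx V) (h : ∀ l, l ∈ B.s ↔ l ∈ C.s) : B = C := by
  cases B with
  | mk s hs =>
    cases C with
    | mk t ht =>
      have h1 : s = t := Set.ext h
      subst h1
      rfl

theorem thm_V4a : St_V4a := by
  intro A _ m k hTA W P _ _ _ _ j T hP hT
  obtain ⟨e⟩ := hP
  have h1 := hTA (W →ₗ[A] (Fin m → A)) (P →ₗ[A] (Fin m → A)) (fun w => w ∘ₗ j) T []
    List.nodup_nil (fun v hv => absurd hv (by simp))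
    ⟨PUnit, inferInstance, inferInstance, V4a_e (V4a_E e), PUnit.unit, fun v _ => rfl, fun a => by
      obtain ⟨w, hw, hwj⟩ := hT ((V4a_e (V4a_E e)).symm (a, PUnit.unit))
      refine ⟨w, hw, ?_⟩
      show (V4a_e (V4a_E e)) (w ∘ₗ j) = _
      rw [hwj, LinearEquiv.apply_symm_apply]⟩
  have h2 : HC m j T = UC (Module.End A (Fin m → A)) (fun w : W →ₗ[A] (Fin m → A) => w ∘ₗ j) [] T := by
    apply V4a_ext
    intro l
    constructor
    · rintro ⟨hl, d, hd⟩
      refine ⟨hl, fun v => V4a_comp (d v), ?_⟩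
      intro v hv w hw
      refine ⟨fun h => (hd w hw v hv).1 h.symm, fun h => (hd w hw v hv).2 (Ne.symm h)⟩
    · rintro ⟨hl, φ, hφ⟩
      choose d hd using fun v => V4a_fun (V4a_E e) (φ v)
      refine ⟨hl, d, ?_⟩
      intro w hw w' hw'
      rw [hd]
      exact ⟨fun h => (hφ w' hw' w hw).1 h.symm, fun h => (hφ w' hw' w hw).2 (Ne.symm h)⟩
  rw [h2]
  have h3 : k + 1 - 2 - ([] : List (W →ₗ[A] (Fin m → A))).length = k - 1 := by
    rw [List.length_nil]
    omega
  rw [← h3]
  exact h1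

end Pool.Agent.SLZ
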