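import Pool.Agent.SLZ.StV2

/-!
# SLZ, V4b (helper69): the submodules `YS` inside one of them
-/

set_option autoImplicit false
set_option linter.unusedVariables false

noncomputable section

namespace Pool.Agent.SLZ

section

variable {A : Type} [CommRing A] {W : Type} [AddCommGroup W] [Module A W]

/-- splitting -/
theorem V4b_split {B C : Type} [AddCommGroup B] [Module A B] [AddCommGroup C] [Module A C]
    (f : B →ₗ[A] C) (s : C →ₗ[A] B) (h : ∀ c, f (s c) = c) :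
    Nonempty (B ≃ₗ[A] (LinearMap.ker f × C)) := by
  refine ⟨LinearEquiv.ofLinearMap
    (LinearMap.prod (LinearMap.codRestrict (LinearMap.ker f) (LinearMap.id - s ∘ₗ f)
      fun b => by simp [h]) f)
    (LinearMap.coprod (LinearMap.ker f).subtype s) ?_ ?_⟩
  · apply LinearMap.ext
    rintro ⟨⟨x, hx⟩, c⟩
    have hx' : f x = 0 := hx
    ext
    · simp [hx', h]
    · simp [hx', h]
  · apply LinearMap.ext
    intro x
    simp

/-- the quotient by a smaller submodule -/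
theorem V4b_quot (H H' : Submodule A W) (hH : H' ≤ H) (s : (W ⧸ H) →ₗ[A] W)
    (hs : ∀ c, H.mkQ (s c) = c) :
    Nonempty ((W ⧸ H') ≃ₗ[A] ((H ⧸ H'.comap H.subtype) × (W ⧸ H))) := by
  set f : (W ⧸ H') →ₗ[A] (W ⧸ H) := Submodule.factor hH with hf
  have hfm : ∀ x, f (H'.mkQ x) = H.mkQ x := fun x => rfl
  obtain ⟨e1⟩ := V4b_split f (H'.mkQ ∘ₗ s) (fun c => by
    rw [LinearMap.comp_apply, hfm]
    exact hs c)
  set φ : H →ₗ[A] (W ⧸ H') := H'.mkQ ∘ₗ H.subtype with hφ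
  have h1 : LinearMap.ker φ = H'.comap H.subtype := by rw [hφ, LinearMap.ker_comp, Submodule.ker_mkQ]
  have h2 : LinearMap.range φ = LinearMap.ker f := by
    apply le_antisymm
    · rintro _ ⟨x, rfl⟩
      rw [LinearMap.mem_ker]
      change f (H'.mkQ (x : W)) = 0
      rw [hfm]
      exact (Submodule.Quotient.mk_eq_zero H).2 x.2
    · intro y hy
      obtain ⟨x, rfl⟩ := H'.mkQ_surjective y
      rw [LinearMap.mem_ker, hfm] at hy
      exact ⟨⟨x, (Submodule.Quotient.mk_eq_zero H).1 hy⟩, rfl⟩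
  have e2 : (H ⧸ H'.comap H.subtype) ≃ₗ[A] LinearMap.ker f :=
    (Submodule.quotEquivOfEq _ _ h1.symm).trans (φ.quotKerEquivRange.trans (LinearEquiv.ofEq _ _ h2))
  exact ⟨e1.trans (LinearEquiv.prodCongr e2.symm (LinearEquiv.refl A _))⟩

/-- intersections inside `H` -/
theorem V4b_cap (P H : Submodule A W) :
    Nonempty ((P.comap H.subtype) ≃ₗ[A] (P ⊓ H : Submodule A W)) :=
  ⟨LinearEquiv.ofLinearMap
    (LinearMap.codRestrict (P ⊓ H) (H.subtype ∘ₗ (P.comap H.subtype).subtype)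
      fun x => ⟨x.2, x.1.2⟩)
    (LinearMap.codRestrict (P.comap H.subtype)
      (LinearMap.codRestrict H (P ⊓ H).subtype fun x => x.2.2) fun x => x.2.1)
    (by ext; rfl) (by ext; rfl)⟩

theorem V4b_cap2 (P H H' : Submodule A W) (hH : H' ≤ H) :
    Nonempty ((P.comap H.subtype ⊓ H'.comap H.subtype : Submodule A H) ≃ₗ[A]
      (P ⊓ H' : Submodule A W)) :=
  ⟨LinearEquiv.ofLinearMap
    (LinearMap.codRestrict (P ⊓ H')
      (H.subtype ∘ₗ (P.comap H.subtype ⊓ H'.comap H.subtype).subtype)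
      fun x => ⟨x.2.1, x.2.2⟩)
    (LinearMap.codRestrict (P.comap H.subtype ⊓ H'.comap H.subtype)
      (LinearMap.codRestrict H (P ⊓ H').subtype fun x => hH x.2.2) fun x => ⟨x.2.1, x.2.2⟩)
    (by ext; rfl) (by ext; rfl)⟩

theorem V4b_sup (P H H' : Submodule A W) (hH : H' ≤ H) (hPH : P ⊔ H = ⊤) :
    P ⊔ H' = ⊤ ↔ P.comap H.subtype ⊔ H'.comap H.subtype = ⊤ := by
  constructor
  · intro h
    rw [eq_top_iff]
    rintro ⟨x, hx⟩ -
    have h1 : x ∈ P ⊔ H' := by rw [h]; trivial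
    obtain ⟨p, hp, q, hq, rfl⟩ := Submodule.mem_sup.1 h1
    have hpH : p ∈ H := by
      have := H.sub_mem hx (hH hq)
      rwa [add_sub_cancel_right] at this
    exact Submodule.mem_sup.2 ⟨⟨p, hpH⟩, hp, ⟨q, hH hq⟩, hq, Subtype.ext rfl⟩
  · intro h
    rw [eq_top_iff, ← hPH]
    refine sup_le le_sup_left fun x hx => ?_
    have h1 : (⟨x, hx⟩ : H) ∈ P.comap H.subtype ⊔ H'.comap H.subtype := by rw [h]; trivial
    obtain ⟨p, hp, q, hq, hpq⟩ := Submodule.mem_sup.1 h1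
    have h2 : (p : W) + q = x := congrArg Subtype.val hpq
    rw [← h2]
    exact Submodule.add_mem_sup hp hq

theorem V4b_prod (a b c : ℕ) (h : a + b = c) :
    Nonempty (((Fin a → A) × (Fin b → A)) ≃ₗ[A] (Fin c → A)) := by
  subst h
  exact ⟨(LinearEquiv.sumArrowLequivProdArrow (Fin a) (Fin b) A A).symm.trans
    (LinearEquiv.funCongrLeft A A finSumFinEquiv.symm)⟩

/-- a complement of `H` in `P` -/
theorem V4b_sec (P H : Submodule A W) (n : ℕ) (hPH : P ⊔ H = ⊤)
    (e : (W ⧸ H) ≃ₗ[A] (Fin n → A)) :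
    ∃ s : (W ⧸ H) →ₗ[A] W, (∀ c, s c ∈ P) ∧ ∀ c, H.mkQ (s c) = c := by
  have : Module.Free A (W ⧸ H) := Module.Free.of_equiv e.symm
  have hsurj : Function.Surjective (H.mkQ ∘ₗ P.subtype) := by
    intro y
    obtain ⟨x, rfl⟩ := H.mkQ_surjective y
    have h1 : x ∈ P ⊔ H := by rw [hPH]; trivial
    obtain ⟨p, hp, q, hq, rfl⟩ := Submodule.mem_sup.1 h1
    refine ⟨⟨p, hp⟩, ?_⟩
    change H.mkQ p = H.mkQ (p + q)
    rw [map_add]
    have : H.mkQ q = 0 := (Submodule.Quotient.mk_eq_zero H).2 hq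
    rw [this, add_zero]
  obtain ⟨s, hs⟩ := Module.projective_lifting_property (H.mkQ ∘ₗ P.subtype) LinearMap.id hsurj
  exact ⟨P.subtype ∘ₗ s, fun c => (s c).2, fun c => LinearMap.congr_fun hs c⟩

theorem V4b_compl (P Q H : Submodule A W) (hPQ : IsCompl P Q) (s : (W ⧸ H) →ₗ[A] W)
    (hsP : ∀ c, s c ∈ P) (hs : ∀ c, H.mkQ (s c) = c) :
    ∃ Q' : Submodule A H, IsCompl (P.comap H.subtype) Q' := by
  set π : W →ₗ[A] W := P.subtype ∘ₗ P.projectionOnto Q hPQ with hπ
  have hπP : ∀ x, π x ∈ P := fun x => (P.projectionOnto Q hPQ x).2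
  have hπi : ∀ x ∈ P, π x = x := fun x hx => by
    have h := Submodule.projectionOnto_apply_left hPQ ⟨x, hx⟩
    exact congrArg Subtype.val h
  set r : W →ₗ[A] W := π - s ∘ₗ H.mkQ ∘ₗ π with hr
  have hrP : ∀ x, r x ∈ P := fun x => P.sub_mem (hπP x) (hsP _)
  have hrH : ∀ x, r x ∈ H := by
    intro x
    rw [← Submodule.Quotient.mk_eq_zero H]
    change H.mkQ (π x - s (H.mkQ (π x))) = 0
    rw [map_sub, hs, sub_self]
  set f : H →ₗ[A] (P.comap H.subtype) :=
    LinearMap.codRestrict (P.comap H.subtype) (LinearMap.codRestrict H (r ∘ₗ H.subtype)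
      fun x => hrH x) fun x => hrP x with hf
  refine ⟨LinearMap.ker f, LinearMap.isCompl_of_proj fun x => ?_⟩
  apply Subtype.ext
  apply Subtype.ext
  change π ((x : H) : W) - s (H.mkQ (π ((x : H) : W))) = ((x : H) : W)
  have h1 : π ((x : H) : W) = ((x : H) : W) := hπi _ x.2
  have h2 : H.mkQ ((x : H) : W) = 0 := (Submodule.Quotient.mk_eq_zero H).2 (x : H).2
  rw [h1, h2, map_zero, sub_zero]

end

theorem thm_V4b (hK : St_VK2) : St_V4b := by
  intro A W _ _ _ _ P s m ρ hKF hs hsm hPQ H hH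
  obtain ⟨Q, hQ⟩ := hPQ
  obtain ⟨hPH, k, hk1, hkρ, ⟨e1⟩, ⟨e2⟩⟩ := hH
  obtain ⟨σ, hσP, hσ⟩ := V4b_sec P H _ hPH e1
  obtain ⟨e3⟩ := V4b_cap P H
  have hm : 1 ≤ m := hs.trans hsm
  refine ⟨k, hk1, hkρ, ?_, V4b_compl P Q H hQ σ hσP hσ, ⟨e3.trans e2⟩, ?_⟩
  · rw [e1.finrank_eq, Module.finrank_fin_fun]
  · intro H' hH'
    obtain ⟨e4⟩ := V4b_quot H H' hH' σ hσ
    obtain ⟨e5⟩ := V4b_cap2 P H H' hH'
    obtain ⟨_, K2, K3⟩ := hK A s hKF
    constructor
    · rintro ⟨⟨hP, k1, hk11, hk1ρ, ⟨e6⟩, ⟨e7⟩⟩, hne⟩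
      have e8 : ((H ⧸ H'.comap H.subtype) × (Fin (m * k) → A)) ≃ₗ[A] (Fin (m * k1) → A) :=
        (LinearEquiv.prodCongr (LinearEquiv.refl A _) e1.symm).trans (e4.symm.trans e6)
      have hle : m * k ≤ m * k1 := by
        refine le_of_fin_surjective A
          ((LinearMap.snd A (H ⧸ H'.comap H.subtype) (Fin (m * k) → A)) ∘ₗ e8.symm.toLinearMap) ?_
        exact Prod.snd_surjective.comp e8.symm.surjective
      have hkk : k ≤ k1 := Nat.le_of_mul_le_mul_left hle hm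
      rcases hkk.eq_or_lt with h | h
      · exfalso
        subst h
        have h1 : Subsingleton (H ⧸ H'.comap H.subtype) := K3 _ _ ⟨e8⟩
        rw [Submodule.Quotient.subsingleton_iff] at h1
        apply hne
        apply le_antisymm hH'
        intro x hx
        have h2 : (⟨x, hx⟩ : H) ∈ H'.comap H.subtype := by rw [h1]; trivial
        exact h2
      · have h1 : m * k + s ≤ m * k1 := by
          calc m * k + s ≤ m * k + m := Nat.add_le_add_left hsm _
            _ = m * (k + 1) := by ring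
            _ ≤ m * k1 := Nat.mul_le_mul_left m h
        obtain ⟨e9⟩ := K2 _ _ _ h1 ⟨e8⟩
        refine ⟨(V4b_sup P H H' hH' hPH).1 hP, k1 - k, by omega, by omega, ?_, ?_⟩
        · have h2 : m * k1 - m * k = m * (k1 - k) := (Nat.mul_sub m k1 k).symm
          rw [← h2]
          exact ⟨e9⟩
        · have h3 : ρ - k - (k1 - k) = ρ - k1 := by omega
          rw [h3]
          exact ⟨e5.trans e7⟩
    · rintro ⟨hP, k', hk', hkρ', ⟨e6⟩, ⟨e7⟩⟩
      obtain ⟨e8⟩ := V4b_prod (A := A) (m * k') (m * k) (m * (k + k')) (by ring)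
      refine ⟨⟨(V4b_sup P H H' hH' hPH).2 hP, k + k', by omega, by omega, ?_, ?_⟩, ?_⟩
      · exact ⟨e4.trans ((LinearEquiv.prodCongr e6 e1).trans e8)⟩
      · have h3 : ρ - (k + k') = ρ - k - k' := by omega
        rw [h3]
        exact ⟨e5.symm.trans e7⟩
      · rintro rfl
        have h1 : Subsingleton (H' ⧸ H'.comap H'.subtype) := by
          rw [Submodule.Quotient.subsingleton_iff, eq_top_iff]
          intro x _
          exact x.2
        have h2 : Subsingleton (Fin (m * k') → A) := e6.symm.injective.subsingleton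
        have h3 : 0 < m * k' := Nat.mul_pos hm hk'
        have h4 := congrFun (Subsingleton.elim (fun _ : Fin (m * k') => (0 : A)) fun _ => 1) ⟨0, h3⟩
        exact zero_ne_one h4

end Pool.Agent.SLZ
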