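import Pool.Agent.SLZ.StV2

/-!
# SLZ V4c: the maps which vanish on a submodule of `YS` (helper58)
-/

set_option autoImplicit false
set_option linter.unusedVariables false

noncomputable section

namespace Pool.Agent.SLZ

theorem thm_V4c : St_V4c := by
  intro A W _ _ _ _ P m ρ k hm H hH hfr
  obtain ⟨hPH, k', hk1, hk2, ⟨e⟩, -⟩ := hH
  have hkk : k' = k := by
    rw [e.finrank_eq, Module.finrank_fin_fun] at hfr
    exact Nat.eq_of_mul_eq_mul_left hm hfr
  subst hkk
  have hfree : Module.Free A (W ⧸ H) := Module.Free.of_equiv e.symm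
  -- the map `P → W / H` is onto
  have hsur : Function.Surjective (H.mkQ ∘ₗ P.subtype) := by
    intro y
    obtain ⟨x, rfl⟩ := H.mkQ_surjective y
    have hx : x ∈ P ⊔ H := by rw [hPH]; trivial
    obtain ⟨p, hp, h, hh, rfl⟩ := Submodule.mem_sup.1 hx
    refine ⟨⟨p, hp⟩, ?_⟩
    simp only [LinearMap.comp_apply, Submodule.subtype_apply, map_add]
    have : H.mkQ h = 0 := by
      rw [Submodule.mkQ_apply]; exact (Submodule.Quotient.mk_eq_zero H).2 hh
    rw [this, add_zero]
  obtain ⟨t, ht⟩ := Module.projective_lifting_property (H.mkQ ∘ₗ P.subtype)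
    (LinearMap.id : (W ⧸ H) →ₗ[A] (W ⧸ H)) hsur
  have ht' : ∀ y, H.mkQ (t y : W) = y := fun y => congrArg (fun f => f y) ht
  -- `w` does not see the difference
  have hw : ∀ w : W →ₗ[A] (Fin m → A), H ≤ LinearMap.ker w → ∀ x : W,
      w (t (H.mkQ x) : W) = w x := by
    intro w hw x
    have h1 : (t (H.mkQ x) : W) - x ∈ H := by
      rw [← Submodule.Quotient.mk_eq_zero H, ← Submodule.mkQ_apply, map_sub, ht', sub_self]
    have h2 := LinearMap.mem_ker.1 (hw h1)
    rw [map_sub, sub_eq_zero] at h2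
    exact h2
  refine ⟨W ⧸ H, inferInstance, inferInstance, P.subtype ∘ₗ t, ⟨e⟩, ?_, ?_⟩
  · intro v
    refine ⟨v ∘ₗ H.mkQ, ?_, ?_⟩
    · intro x hx
      rw [LinearMap.mem_ker, LinearMap.comp_apply]
      have : H.mkQ x = 0 := by
        rw [Submodule.mkQ_apply]; exact (Submodule.Quotient.mk_eq_zero H).2 hx
      rw [this, map_zero]
    · refine LinearMap.ext fun y => ?_
      simp only [LinearMap.comp_apply, Submodule.subtype_apply]
      rw [ht']
  · ext l
    constructor
    · rintro ⟨h1, d, h2⟩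
      refine ⟨h1, fun w => H.mkQ ∘ₗ P.subtype ∘ₗ d w, fun w hwl w' hwl' => ?_⟩
      have key : (w ∘ₗ (P.subtype ∘ₗ t)) ∘ₗ (H.mkQ ∘ₗ P.subtype ∘ₗ d w') =
          (w ∘ₗ P.subtype) ∘ₗ d w' := by
        refine LinearMap.ext fun y => ?_
        simp only [LinearMap.comp_apply, Submodule.subtype_apply]
        exact hw w (h1 w hwl) _
      rw [key]
      exact h2 w hwl w' hwl'
    · rintro ⟨h1, d, h2⟩
      refine ⟨h1, fun w => t ∘ₗ d w, fun w hwl w' hwl' => ?_⟩
      exact h2 w hwl w' hwl'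

end Pool.Agent.SLZ

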