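import Pool.Agent.SLZ.StV2

/-!
# SLZ V4d: ranks and spans of the submodules `YS` (helper58)
-/

set_option autoImplicit false
set_option linter.unusedVariables false

noncomputable section

namespace Pool.Agent.SLZ

/-- surjective maps between equally large finite free modules are injective -/
theorem V4d_inj {A M N : Type} [CommRing A] [AddCommGroup M] [Module A M] [AddCommGroup N]
    [Module A N] (n : ℕ) (e : M ≃ₗ[A] (Fin n → A)) (e' : N ≃ₗ[A] (Fin n → A)) (f : M →ₗ[A] N)
    (hf : Function.Surjective f) : Function.Injective f := by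
  have h1 : Function.Surjective ((e.symm.toLinearMap ∘ₗ e'.toLinearMap) ∘ₗ f) := by
    have : Function.Surjective (e.symm.toLinearMap ∘ₗ e'.toLinearMap) :=
      e.symm.surjective.comp e'.surjective
    exact this.comp hf
  have hfin : Module.Finite A M := Module.Finite.equiv e.symm
  have h2 := OrzechProperty.injective_of_surjective_endomorphism _ h1
  intro x y hxy
  apply h2
  simp only [LinearMap.comp_apply]
  rw [hxy]

theorem V4d_le {A M N : Type} [CommRing A] [Nontrivial A] [AddCommGroup M] [Module A M]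
    [AddCommGroup N] [Module A N] (n n' : ℕ) (e : M ≃ₗ[A] (Fin n → A))
    (e' : N ≃ₗ[A] (Fin n' → A)) (f : M →ₗ[A] N) (hf : Function.Surjective f) : n' ≤ n := by
  have h1 : Function.Surjective (e'.toLinearMap ∘ₗ f ∘ₗ e.symm.toLinearMap) := by
    exact e'.surjective.comp (hf.comp e.symm.surjective)
  exact le_of_fin_surjective A _ h1

theorem V4d_fr {A M : Type} [CommRing A] [Nontrivial A] [AddCommGroup M] [Module A M] (n : ℕ)
    (e : M ≃ₗ[A] (Fin n → A)) : Module.finrank A M = n := by
  rw [e.finrank_eq, Module.finrank_fin_fun]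

theorem V4d_one {A W : Type} [CommRing A] [Nontrivial A] [AddCommGroup W] [Module A W]
    (P : Submodule A W) (m ρ : ℕ) :
    ∀ H ∈ YS A W P m ρ, ∀ H' ∈ YS A W P m ρ, H' ≤ H →
    Module.finrank A (W ⧸ H) ≤ Module.finrank A (W ⧸ H') ∧
    (Module.finrank A (W ⧸ H) = Module.finrank A (W ⧸ H') → H' = H) := by
  rintro H ⟨-, k, -, -, ⟨e⟩, -⟩ H' ⟨-, k', -, -, ⟨e'⟩, -⟩ hle
  have hs : Function.Surjective (Submodule.factor hle) := Submodule.factor_surjective hle
  rw [V4d_fr _ e, V4d_fr _ e']
  refine ⟨V4d_le _ _ e' e _ hs, fun h => ?_⟩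
  have e2 : (W ⧸ H') ≃ₗ[A] (Fin (m * k) → A) := by
    rw [h]; exact e'
  have hi := V4d_inj (m * k) e2 e _ hs
  refine le_antisymm hle fun x hx => ?_
  have h0 : Submodule.factor hle (Submodule.Quotient.mk x) = 0 := by
    exact (Submodule.factor_mk hle x).trans ((Submodule.Quotient.mk_eq_zero H).2 hx)
  have h1 := hi (h0.trans (map_zero _).symm)
  exact (Submodule.Quotient.mk_eq_zero H').1 h1

/-- currying -/
def V4d_cur (A : Type) [CommRing A] (m k : ℕ) : (Fin k → Fin m → A) ≃ₗ[A] (Fin (m * k) → A) :=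
  (LinearEquiv.curry A A (Fin k) (Fin m)).symm ≪≫ₗ
    LinearEquiv.funCongrLeft A A ((finProdFinEquiv.trans (finCongr (Nat.mul_comm k m))).symm)

theorem V4d_two {A W : Type} [CommRing A] [Nontrivial A] [AddCommGroup W] [Module A W]
    (P : Submodule A W) (s m ρ : ℕ) (hK : KerFree A s) (hs : 1 ≤ s) (hm : s ≤ m)
    (eP : P ≃ₗ[A] (Fin (m * ρ) → A)) (σ : List (W →ₗ[A] (Fin m → A))) (hne : σ ≠ [])
    (hnd : σ.Nodup) (hσ : σ ∈ (HC m P.subtype Set.univ).s) :
    ∃ H ∈ YS A W P m ρ, ∀ H' : Submodule A W, H' ≤ H ↔ ∀ w ∈ σ, H' ≤ LinearMap.ker w := by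
  classical
  obtain ⟨-, d, hd⟩ := hσ
  -- the joint map
  let Φ : W →ₗ[A] (Fin σ.length → Fin m → A) := LinearMap.pi fun i => σ.get i
  have hinj : Function.Injective σ.get := List.nodup_iff_injective_get.1 hnd
  -- the section
  let S : (Fin σ.length → Fin m → A) →ₗ[A] P :=
    ∑ i, (d (σ.get i)) ∘ₗ LinearMap.proj i
  have hS : ∀ y, Φ (S y) = y := by
    intro y
    funext i
    simp only [Φ, S, LinearMap.pi_apply, LinearMap.sum_apply, LinearMap.comp_apply,
      LinearMap.proj_apply]
    rw [show ((∑ j, d (σ.get j) (y j) : P) : W) = ∑ j, ((d (σ.get j) (y j) : P) : W) from by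
      simp]
    rw [map_sum, Finset.sum_eq_single i]
    · have h := (hd (σ.get i) (List.get_mem σ i) (σ.get i) (List.get_mem σ i)).1 rfl
      exact congrArg (fun f => f (y i)) h
    · intro j _ hj
      have hne' : σ.get i ≠ σ.get j := fun h => hj (hinj h).symm
      have h := (hd (σ.get i) (List.get_mem σ i) (σ.get j) (List.get_mem σ j)).2 hne'
      exact congrArg (fun f => f (y j)) h
    · intro h; exact absurd (Finset.mem_univ i) h
  have hΦ : Function.Surjective Φ := fun y => ⟨S y, hS y⟩
  have hlen : 1 ≤ σ.length := by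
    rcases σ with _ | ⟨a, t⟩
    · exact absurd rfl hne
    · simp
  have hker : ∀ x, x ∈ LinearMap.ker Φ ↔ ∀ w ∈ σ, w x = 0 := by
    intro x
    rw [LinearMap.mem_ker]
    constructor
    · intro h w hw
      obtain ⟨i, hi⟩ := List.mem_iff_get.1 hw
      rw [← hi]
      exact congrFun h i
    · intro h
      funext i
      exact h _ (List.get_mem σ i)
  -- ranks
  let g : (Fin (m * ρ) → A) →ₗ[A] (Fin (m * σ.length) → A) :=
    (V4d_cur A m σ.length).toLinearMap ∘ₗ Φ ∘ₗ P.subtype ∘ₗ eP.symm.toLinearMap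
  have hg : Function.Surjective g := by
    intro y
    obtain ⟨z, hz⟩ := (V4d_cur A m σ.length).surjective y
    refine ⟨eP (S z), ?_⟩
    simp only [g, LinearMap.comp_apply, LinearEquiv.coe_coe, LinearEquiv.symm_apply_apply,
      Submodule.subtype_apply]
    rw [hS, hz]
  have hkle' : m * σ.length ≤ m * ρ := le_of_fin_surjective A g hg
  have hm0 : 0 < m := lt_of_lt_of_le hs hm
  have hkle : σ.length ≤ ρ := Nat.le_of_mul_le_mul_left hkle' hm0
  -- `P ⊓ ker` is the kernel of `g`
  have hmem : ∀ x : (P ⊓ LinearMap.ker Φ : Submodule A W),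
      eP ⟨x.1, x.2.1⟩ ∈ LinearMap.ker g := by
    intro x
    rw [LinearMap.mem_ker]
    simp only [g, LinearMap.comp_apply, LinearEquiv.coe_coe, LinearEquiv.symm_apply_apply,
      Submodule.subtype_apply]
    rw [(LinearMap.mem_ker.1 x.2.2 : Φ x.1 = 0), map_zero]
  let ek : (P ⊓ LinearMap.ker Φ : Submodule A W) ≃ₗ[A] LinearMap.ker g :=
    { toFun := fun x => ⟨eP ⟨x.1, x.2.1⟩, hmem x⟩
      map_add' := fun x y => by
        apply Subtype.ext
        show eP ⟨(x + y).1, _⟩ = eP _ + eP _
        rw [← map_add]; rfl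
      map_smul' := fun c x => by
        apply Subtype.ext
        show eP ⟨(c • x).1, _⟩ = c • eP _
        rw [← map_smul]; rfl
      invFun := fun y => ⟨(eP.symm y.1).1, (eP.symm y.1).2, by
        have h := LinearMap.mem_ker.1 y.2
        simp only [g, LinearMap.comp_apply, LinearEquiv.coe_coe, Submodule.subtype_apply] at h
        refine LinearMap.mem_ker.2 ?_
        exact (V4d_cur A m σ.length).injective (h.trans (map_zero _).symm)⟩
      left_inv := fun x => by
        apply Subtype.ext
        show ((eP.symm (eP ⟨x.1, x.2.1⟩) : P) : W) = x.1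
        rw [eP.symm_apply_apply]
      right_inv := fun y => by
        apply Subtype.ext
        show eP ⟨(eP.symm y.1).1, _⟩ = y.1
        exact eP.apply_symm_apply y.1 }
  refine ⟨LinearMap.ker Φ, ⟨?_, σ.length, hlen, hkle, ?_, ?_⟩, ?_⟩
  · rw [eq_top_iff]
    intro x _
    rw [Submodule.mem_sup]
    refine ⟨(S (Φ x) : P), (S (Φ x)).2, x - (S (Φ x) : P), ?_, by abel⟩
    rw [LinearMap.mem_ker, map_sub, hS, sub_self]
  · exact ⟨(Φ.quotKerEquivOfSurjective hΦ) ≪≫ₗ V4d_cur A m σ.length⟩
  · rcases Nat.lt_or_ge σ.length ρ with hlt | hge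
    · have h1 : m * σ.length + s ≤ m * ρ := by
        calc m * σ.length + s ≤ m * σ.length + m := by omega
          _ = m * (σ.length + 1) := by ring
          _ ≤ m * ρ := Nat.mul_le_mul_left m hlt
      obtain ⟨b⟩ := hK (m * ρ) (m * σ.length) g hg h1
      have h2 : m * ρ - m * σ.length = m * (ρ - σ.length) := (Nat.mul_sub m ρ σ.length).symm
      rw [h2] at b
      exact ⟨ek ≪≫ₗ b.equivFun⟩
    · have hEq : ρ = σ.length := le_antisymm hge hkle
      have e1 : (Fin (m * ρ) → A) ≃ₗ[A] (Fin (m * σ.length) → A) := by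
        rw [← hEq]
      have hi := V4d_inj (m * σ.length) e1 (LinearEquiv.refl A _) g hg
      have hsub : Subsingleton (P ⊓ LinearMap.ker Φ : Submodule A W) := by
        refine ⟨fun x y => ek.injective ?_⟩
        apply Subtype.ext
        apply hi
        rw [LinearMap.mem_ker.1 (ek x).2, LinearMap.mem_ker.1 (ek y).2]
      have h3 : m * (ρ - σ.length) = 0 := by
        rw [← hEq]; simp
      rw [h3]
      exact ⟨{ toFun := fun _ => 0
               map_add' := fun _ _ => by simp
               map_smul' := fun _ _ => by simp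
               invFun := fun _ => 0
               left_inv := fun x => Subsingleton.elim _ _
               right_inv := fun x => Subsingleton.elim _ _ }⟩
  · intro H'
    constructor
    · intro h w hw x hx
      exact (hker x).1 (h hx) w hw
    · intro h x hx
      exact (hker x).2 fun w hw => h w hw hx

theorem thm_V4d : St_V4d := by
  intro A W _ _ _ _ P s m ρ hK hs hm
  exact ⟨V4d_one P m ρ, fun ⟨eP⟩ σ hne hnd hσ => V4d_two P s m ρ hK hs hm eP σ hne hnd hσ⟩

end Pool.Agent.SLZ

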