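import Pool.Agent.SLZ.StV2

/-!
# SLZ, V4e: the set of part K (basis form) is `YS` (helper97)
-/

set_option autoImplicit false
set_option linter.unusedVariables false

noncomputable section

namespace Pool.Agent.SLZ

section

variable {A P Q : Type} [CommRing A] [AddCommGroup P] [Module A P] [AddCommGroup Q] [Module A Q]

/-- the first coordinates of the elements of `H` in `P × 0` -/
def V4e_I (H : Submodule A (P × Q)) : Submodule A P := H.comap (LinearMap.inl A P Q)

theorem V4e_mem (H : Submodule A (P × Q)) (p : P) : p ∈ V4e_I H ↔ (p, (0 : Q)) ∈ H := Iff.rfl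

/-- `P ∩ H` is `I` -/
def V4e_equiv (H : Submodule A (P × Q)) :
    (((⊤ : Submodule A P).prod (⊥ : Submodule A Q) ⊓ H : Submodule A (P × Q))) ≃ₗ[A] V4e_I H where
  toFun x := ⟨x.1.1, by
    obtain ⟨⟨p, q⟩, ⟨-, h1⟩, h2⟩ := x
    have h3 : q = 0 := h1
    subst h3
    exact h2⟩
  map_add' _ _ := rfl
  map_smul' _ _ := rfl
  invFun x := ⟨(x.1, 0), ⟨⟨trivial, rfl⟩, x.2⟩⟩
  left_inv x := by
    obtain ⟨⟨p, q⟩, ⟨-, h1⟩, h2⟩ := x
    have h3 : q = 0 := h1
    subst h3
    rfl
  right_inv x := rfl

theorem V4e_top (H : Submodule A (P × Q)) :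
    ((⊤ : Submodule A P).prod (⊥ : Submodule A Q)) ⊔ H = ⊤ ↔
      Function.Surjective (H.mkQ ∘ₗ LinearMap.inl A P Q) := by
  rw [eq_top_iff]
  constructor
  · intro h y
    obtain ⟨w, rfl⟩ := H.mkQ_surjective y
    obtain ⟨⟨p, q⟩, ⟨-, hq⟩, z, hz, h1⟩ := Submodule.mem_sup.1 (h (x := w) trivial)
    have hq' : q = 0 := hq
    subst hq'
    refine ⟨p, ?_⟩
    have hz' : H.mkQ z = 0 := (Submodule.Quotient.mk_eq_zero H).2 hz
    rw [LinearMap.comp_apply, ← h1, map_add, hz', add_zero]
    rfl
  · rintro h w -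
    obtain ⟨p, hp⟩ := h (H.mkQ w)
    have h1 : w - (p, 0) ∈ H := by
      rw [← Submodule.Quotient.mk_eq_zero, Submodule.Quotient.mk_sub, sub_eq_zero]
      exact hp.symm
    refine Submodule.mem_sup.2 ⟨(p, 0), ⟨trivial, rfl⟩, w - (p, 0), h1, ?_⟩
    abel

/-- `P / I` is `W / H` -/
theorem V4e_quot (H : Submodule A (P × Q))
    (h : ((⊤ : Submodule A P).prod (⊥ : Submodule A Q)) ⊔ H = ⊤) :
    Nonempty ((P ⧸ V4e_I H) ≃ₗ[A] ((P × Q) ⧸ H)) := by
  have h1 : V4e_I H = LinearMap.ker (H.mkQ ∘ₗ LinearMap.inl A P Q) := by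
    ext p
    rw [LinearMap.mem_ker, LinearMap.comp_apply, Submodule.mkQ_apply,
      Submodule.Quotient.mk_eq_zero]
    rfl
  rw [h1]
  exact ⟨(H.mkQ ∘ₗ LinearMap.inl A P Q).quotKerEquivOfSurjective ((V4e_top H).1 h)⟩

/-- a summand with a free complement, in terms of a basis -/
theorem V4e_basis (I : Submodule A P) (a b N : ℕ) (hN : a + b = N) :
    (Nonempty (I ≃ₗ[A] (Fin a → A)) ∧ Nonempty ((P ⧸ I) ≃ₗ[A] (Fin b → A))) ↔
      ∃ e : Module.Basis (Fin N) A P, I = Submodule.span A (e '' {i | i.val < a}) := by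
  subst hN
  constructor
  · rintro ⟨⟨f⟩, ⟨g⟩⟩
    -- a section of the quotient map
    let bq : Module.Basis (Fin b) A (P ⧸ I) := Module.Basis.ofEquivFun g
    let bi : Module.Basis (Fin a) A I := Module.Basis.ofEquivFun f
    have hsec : ∃ σ : (P ⧸ I) →ₗ[A] P, I.mkQ ∘ₗ σ = LinearMap.id := by
      have : Module.Free A (P ⧸ I) := Module.Free.of_basis bq
      exact Module.projective_lifting_property I.mkQ LinearMap.id I.mkQ_surjective
    obtain ⟨σ, hσ⟩ := hsec
    have hσ' : ∀ y, I.mkQ (σ y) = y := fun y => LinearMap.congr_fun hσ y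
    let E : (I × (P ⧸ I)) ≃ₗ[A] P := LinearEquiv.ofBijective
      (LinearMap.coprod I.subtype σ) (by
        constructor
        · rw [← LinearMap.ker_eq_bot, LinearMap.ker_eq_bot']
          rintro ⟨x, y⟩ h
          have h1 : (x : P) + σ y = 0 := h
          have h2 : y = 0 := by
            have h3 : I.mkQ ((x : P) + σ y) = 0 := by rw [h1, map_zero]
            have h4 : I.mkQ (x : P) = 0 := (Submodule.Quotient.mk_eq_zero I).2 x.2
            rw [map_add, h4, zero_add, hσ'] at h3
            exact h3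
          subst h2
          rw [map_zero, add_zero] at h1
          exact Prod.ext (Subtype.ext h1) rfl
        · intro p
          have h1 : p - σ (I.mkQ p) ∈ I := by
            rw [← Submodule.Quotient.mk_eq_zero, Submodule.Quotient.mk_sub, sub_eq_zero]
            exact (hσ' _).symm
          refine ⟨(⟨p - σ (I.mkQ p), h1⟩, I.mkQ p), ?_⟩
          change p - σ (I.mkQ p) + σ (I.mkQ p) = p
          abel)
    let B := ((bi.prod bq).map E).reindex finSumFinEquiv
    have hB1 : ∀ i : Fin a, B (Fin.castAdd b i) = (bi i : P) := by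
      intro i
      have h5 : B (Fin.castAdd b i) = E ((bi.prod bq) (Sum.inl i)) := by
        rw [Module.Basis.reindex_apply, finSumFinEquiv_symm_apply_castAdd, Module.Basis.map_apply]
      rw [h5]
      change (((bi.prod bq) (Sum.inl i)).1 : P) + σ ((bi.prod bq) (Sum.inl i)).2 = _
      simp
    refine ⟨B, le_antisymm ?_ ?_⟩
    · intro x hx
      have h1 : (⟨x, hx⟩ : I) = ∑ i, bi.repr ⟨x, hx⟩ i • bi i := (bi.sum_repr _).symm
      have h2 : x = ∑ i, bi.repr ⟨x, hx⟩ i • (bi i : P) := by
        have := congrArg (Subtype.val) h1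
        rw [Submodule.coe_sum] at this
        exact this
      rw [h2]
      refine Submodule.sum_mem _ fun i _ => Submodule.smul_mem _ _ (Submodule.subset_span ?_)
      exact ⟨Fin.castAdd b i, i.2, hB1 i⟩
    · rw [Submodule.span_le]
      rintro _ ⟨i, hi, rfl⟩
      have h1 : i = Fin.castAdd b ⟨i.val, hi⟩ := rfl
      rw [h1, hB1]
      exact (bi _).2
  · rintro ⟨e, rfl⟩
    -- coordinates
    have hmem : ∀ x : P, x ∈ Submodule.span A (e '' {i | i.val < a}) ↔
        ∀ j : Fin b, e.repr x (Fin.natAdd a j) = 0 := by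
      intro x
      rw [e.mem_span_image]
      constructor
      · intro h j
        by_contra h1
        have h2 := h (Finsupp.mem_support_iff.2 h1)
        have h3 : a + j.val < a := h2
        omega
      · intro h i hi
        have hi' := Finsupp.mem_support_iff.1 hi
        by_contra h1
        have h2 : a ≤ i.val := not_lt.1 h1
        have h3 : i = Fin.natAdd a ⟨i.val - a, by omega⟩ := by
          apply Fin.ext
          simp
          omega
        rw [h3] at hi'
        exact hi' (h _)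
    refine ⟨?_, ?_⟩
    · -- the span has a basis
      have hli : LinearIndependent A (fun i : Fin a => e (Fin.castAdd b i)) :=
        e.linearIndependent.comp _ (Fin.castAdd_injective a b)
      have hs : Submodule.span A (Set.range fun i : Fin a => e (Fin.castAdd b i)) =
          Submodule.span A (e '' {i | i.val < a}) := by
        congr 1
        ext x
        constructor
        · rintro ⟨i, rfl⟩
          exact ⟨_, i.2, rfl⟩
        · rintro ⟨i, hi, rfl⟩
          exact ⟨⟨i.val, hi⟩, rfl⟩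
      rw [← hs]
      exact ⟨(Module.Basis.span hli).equivFun⟩
    · -- the quotient
      let π : P →ₗ[A] (Fin b → A) := LinearMap.pi fun j => e.coord (Fin.natAdd a j)
      have hk : Submodule.span A (e '' {i | i.val < a}) = LinearMap.ker π := by
        ext x
        rw [hmem, LinearMap.mem_ker]
        exact ⟨fun h => funext h, fun h j => congrFun h j⟩
      have hπ : Function.Surjective π := by
        intro y
        refine ⟨∑ j, y j • e (Fin.natAdd a j), ?_⟩
        ext j
        change e.coord (Fin.natAdd a j) (∑ j, y j • e (Fin.natAdd a j)) = y j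
        rw [map_sum, Finset.sum_eq_single j]
        · simp
        · intro i _ hij
          rw [map_smul, Module.Basis.coord_apply, Module.Basis.repr_self,
            Finsupp.single_apply, if_neg, smul_zero]
          intro h
          exact hij (Fin.natAdd_injective _ _ h)
        · simp
      rw [hk]
      exact ⟨π.quotKerEquivOfSurjective hπ⟩

end

/-- the basis form of `YS` for `W = P × Q` -/
theorem V4e {A P Q : Type} [CommRing A] [AddCommGroup P] [Module A P] [AddCommGroup Q]
    [Module A Q] (m ρ : ℕ) :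
    YS A (P × Q) ((⊤ : Submodule A P).prod (⊥ : Submodule A Q)) m ρ =
      {H | H ⊔ ((⊤ : Submodule A P).prod (⊥ : Submodule A Q)) = ⊤ ∧
        ∃ (e : Module.Basis (Fin (m * ρ)) A P) (t : ℕ), t < ρ ∧
          ∀ p : P, (p, (0 : Q)) ∈ H ↔ p ∈ Submodule.span A (e '' {i | i.val < m * t})} := by
  ext H
  constructor
  · rintro ⟨h1, k, hk1, hkρ, ⟨g⟩, ⟨f⟩⟩
    obtain ⟨u⟩ := V4e_quot H h1
    have h2 : m * (ρ - k) + m * k = m * ρ := by
      rw [← mul_add]
      congr 1
      omega
    obtain ⟨e, he⟩ := (V4e_basis (V4e_I H) (m * (ρ - k)) (m * k) (m * ρ) h2).1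
      ⟨⟨(V4e_equiv H).symm.trans f⟩, ⟨u.trans g⟩⟩
    refine ⟨by rw [sup_comm]; exact h1, e, ρ - k, by omega, fun p => ?_⟩
    rw [← he]
    rfl
  · rintro ⟨h1, e, t, ht, he⟩
    rw [sup_comm] at h1
    obtain ⟨u⟩ := V4e_quot H h1
    have h2 : m * t + m * (ρ - t) = m * ρ := by
      rw [← mul_add]
      congr 1
      omega
    obtain ⟨⟨f⟩, ⟨g⟩⟩ := (V4e_basis (V4e_I H) (m * t) (m * (ρ - t)) (m * ρ) h2).2
      ⟨e, by ext p; exact he p⟩
    refine ⟨h1, ρ - t, by omega, by omega, ⟨u.symm.trans g⟩, ?_⟩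
    have h3 : ρ - (ρ - t) = t := by omega
    rw [h3]
    exact ⟨(V4e_equiv H).trans f⟩

end Pool.Agent.SLZ
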