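import Pool.Agent.SLZ.StV2

/-!
# SLZ, module VA: the affine complexes (helper33)
-/

set_option autoImplicit false
set_option linter.unusedVariables false

noncomputable section

namespace Pool.Agent.SLZ

lemma VA_ext {V : Type} {A B : Cx V} (h : ∀ l, l ∈ A.s ↔ l ∈ B.s) : A = B := by
  obtain ⟨s, hs⟩ := A
  obtain ⟨t, ht⟩ := B
  have : s = t := Set.ext h
  subst this
  rfl

lemma VA_eq {A : Type} [CommRing A] {X : Type} {n : ℕ} (x : X → Fin n → A) :
    UC A (fun u => ((x u, 1) : (Fin n → A) × A)) [] Set.univ = AffC x := by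
  classical
  apply VA_ext
  intro l
  constructor
  · rintro ⟨_, φ, hφ⟩ u hu
    rw [List.nil_append] at hφ
    have key : ∀ w, φ u (x w, 1) = φ u (0, 1) + ∑ j, φ u (Pi.single j 1, 0) * x w j := by
      intro w
      have h1 : ((x w, 1) : (Fin n → A) × A) = (0, 1) + ∑ j, x w j • (Pi.single j 1, 0) := by
        ext i
        · simp [Prod.fst_sum, Finset.sum_apply, Pi.single_apply]
        · simp [Prod.snd_sum]
      rw [h1, map_add, map_sum]
      congr 1
      refine Finset.sum_congr rfl fun j _ => ?_
      rw [map_smul, smul_eq_mul, mul_comm]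
    refine ⟨φ u (0, 1), fun j => φ u (Pi.single j 1, 0), ?_, fun w hw hwu => ?_⟩
    · rw [← key]
      exact (hφ u hu u hu).1 rfl
    · rw [← key]
      exact (hφ u hu w hw).2 hwu.symm
  · intro hl
    refine ⟨fun v _ => Set.mem_univ v, ?_⟩
    rw [List.nil_append]
    choose! d z h1 h2 using hl
    refine ⟨fun u => (LinearMap.snd A (Fin n → A) A).smulRight (d u) +
      (Fintype.linearCombination A (z u)) ∘ₗ LinearMap.fst A (Fin n → A) A,
      fun u hu w hw => ?_⟩
    have key : ((LinearMap.snd A (Fin n → A) A).smulRight (d u) +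
      (Fintype.linearCombination A (z u)) ∘ₗ LinearMap.fst A (Fin n → A) A) (x w, 1) =
        d u + ∑ j, z u j * x w j := by
      simp [Fintype.linearCombination_apply, mul_comm]
    constructor
    · rintro rfl
      rw [key]
      exact h1 u hu
    · intro h
      rw [key]
      exact h2 u hu w hw (Ne.symm h)

/-- **VA** -/
theorem thm_VA (hJ : St_VJ) : St_VA := by
  intro A _ s hs hTA n X x hx
  have h1 := hTA n X ((Fin n → A) × A) (fun u => (x u, 1)) Set.univ [] List.nodup_nil
    (fun v hv => by simp at hv) ⟨A, inferInstance, inferInstance, LinearEquiv.refl A _, 1,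
      fun v _ => rfl, fun a => by
        obtain ⟨v, hv⟩ := hx a
        exact ⟨v, Set.mem_univ v, by rw [← hv]; rfl⟩⟩
  rw [VA_eq] at h1
  have h2 := hJ.2.1 X (AffC x) _ h1
  intro j hj
  refine h2 j ?_
  rw [List.length_nil]
  omega

end Pool.Agent.SLZ
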