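import Pool.Agent.SLZ.StV

/-!
# SLZ, module VB: Bass stable range (helper33)
-/

set_option autoImplicit false
set_option linter.unusedVariables false

noncomputable section

namespace Pool.Agent.SLZ

/-- the avoiding element -/
lemma VB_avoid {A : Type} [CommRing A] [IsNoetherianRing A] (J : Ideal A) (a c : A) :
    ∃ τ : A, ∀ P ∈ J.minimalPrimes, c ∉ P → a + c * τ ∉ P := by
  classical
  have hfin := Ideal.finite_minimalPrimes_of_isNoetherianRing A J
  set S : Finset (Ideal A) := hfin.toFinset with hS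
  have hmem : ∀ P, P ∈ S ↔ P ∈ J.minimalPrimes := fun P => hfin.mem_toFinset
  set S1 := S.filter (fun P => c ∉ P ∧ a ∉ P) with hS1
  set S2 := S.filter (fun P => c ∉ P ∧ a ∈ P) with hS2
  have hprime : ∀ P ∈ S, P.IsPrime := fun P hP => ((hmem P).1 hP).1.1
  obtain ⟨τ, hτ1, hτ2⟩ : ∃ τ ∈ S1.inf id, ∀ P ∈ S2, τ ∉ P := by
    by_contra hcon
    push Not at hcon
    have hsub : ((S1.inf id : Ideal A) : Set A) ⊆ ⋃ P ∈ (↑S2 : Set (Ideal A)), (P : Set A) := by
      intro τ hτ
      obtain ⟨P, hP, h⟩ := hcon τ hτ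
      exact Set.mem_biUnion (Finset.mem_coe.2 hP) h
    have h1 := (Ideal.subset_union_prime (s := S2) (f := fun P : Ideal A => P) ⊤ ⊤
      (fun P hP _ _ => hprime P (Finset.mem_filter.1 hP).1)).1 hsub
    obtain ⟨P, hP, hle⟩ := h1
    have hP' := Finset.mem_filter.1 hP
    have hPp := hprime P hP'.1
    obtain ⟨Q, hQ, hQP⟩ := (hPp.inf_le' (s := S1) (f := id)).1 hle
    have hQ' := Finset.mem_filter.1 hQ
    have h2 : P ≤ Q := ((hmem P).1 hP'.1).2 ((hmem Q).1 hQ'.1).1 hQP
    exact hQ'.2.2 (h2 hP'.2.2)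
  refine ⟨τ, fun P hP hc h => ?_⟩
  have hPp : P.IsPrime := hP.1.1
  by_cases ha : a ∈ P
  · have h1 : P ∈ S2 := Finset.mem_filter.2 ⟨(hmem P).2 hP, hc, ha⟩
    have h2 : c * τ ∈ P := by
      have := P.sub_mem h ha
      rwa [add_sub_cancel_left] at this
    rcases hPp.mem_or_mem h2 with h3 | h3
    · exact hc h3
    · exact hτ2 P h1 h3
  · have h1 : P ∈ S1 := Finset.mem_filter.2 ⟨(hmem P).2 hP, hc, ha⟩
    have h2 : τ ∈ P := (Finset.inf_le (f := id) h1) hτ1
    apply ha
    have := P.sub_mem h (P.mul_mem_left c h2)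
    rwa [add_sub_cancel_right] at this

lemma VB_step {A : Type} [CommRing A] [IsNoetherianRing A] (c : A) (a : ℕ → A) (m : ℕ) :
    ∃ t : ℕ → A, ∀ P : Ideal A, P.IsPrime → (∀ i < m, a i + c * t i ∈ P) → c ∉ P →
      (m : ℕ∞) ≤ P.height := by
  induction m with
  | zero => exact ⟨fun _ => 0, fun P _ _ _ => by simp⟩
  | succ m ih =>
    obtain ⟨t, ht⟩ := ih
    set J : Ideal A := Ideal.span {x | ∃ i < m, x = a i + c * t i} with hJ
    obtain ⟨τ, hτ⟩ := VB_avoid J (a m) c
    refine ⟨Function.update t m τ, fun P hP hmem hc => ?_⟩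
    have h1 : ∀ i < m, a i + c * t i ∈ P := fun i hi => by
      have := hmem i (by omega)
      rwa [Function.update_of_ne (by omega)] at this
    have h2 : a m + c * τ ∈ P := by
      have := hmem m (by omega)
      rwa [Function.update_self] at this
    have hJP : J ≤ P := by
      rw [hJ, Ideal.span_le]
      rintro x ⟨i, hi, rfl⟩
      exact h1 i hi
    obtain ⟨Q, hQ, hQP⟩ := Ideal.exists_minimalPrimes_le hJP
    have hQp : Q.IsPrime := hQ.1.1
    have hcQ : c ∉ Q := fun h => hc (hQP h)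
    have h3 : a m + c * τ ∉ Q := hτ Q hQ hcQ
    have hlt : Q < P := lt_of_le_of_ne hQP (fun h => h3 (h ▸ h2))
    have h4 := ht Q hQp (fun i hi => hQ.1.2 (Ideal.subset_span ⟨i, hi, rfl⟩)) hcQ
    have h5 := Ideal.height_add_one_le_of_lt_of_isPrime hlt
    have h6 : (m : ℕ∞) + 1 ≤ Q.height + 1 := by gcongr
    push_cast
    exact h6.trans h5

/-- **VB** -/
theorem thm_VB : St_VB := by
  intro A _ _ D hD n hn a b c habc
  obtain ⟨t, ht⟩ := VB_step c (fun i => if h : i < n then a ⟨i, h⟩ else 0) n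
  have h1 : Ideal.span (Set.range fun i : Fin n => a i + c * t i) = ⊤ := by
    by_contra hne
    obtain ⟨P, hP, hle⟩ := Ideal.exists_le_maximal _ hne
    have hPp := hP.isPrime
    have hmem : ∀ i : Fin n, a i + c * t i ∈ P := fun i => hle (Ideal.subset_span ⟨i, rfl⟩)
    by_cases hc : c ∈ P
    · apply hPp.ne_top
      rw [Ideal.eq_top_iff_one, ← habc]
      refine P.add_mem (P.sum_mem fun i _ => P.mul_mem_right _ ?_) hc
      have := P.sub_mem (hmem i) (P.mul_mem_right (t i) hc)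
      rwa [add_sub_cancel_right] at this
    · have h2 := ht P hPp (fun i hi => by
        simp only [hi, dif_pos]
        exact hmem ⟨i, hi⟩) hc
      have h3 := Ideal.height_le_ringKrullDim_of_ne_top hPp.ne_top
      have h4 : ((n : ℕ∞) : WithBot ℕ∞) ≤ (D : WithBot ℕ∞) :=
        le_trans (WithBot.coe_le_coe.2 h2) (h3.trans hD)
      have h5 : n ≤ D := by exact_mod_cast h4
      omega
  have h2 : (1 : A) ∈ Ideal.span (Set.range fun i : Fin n => a i + c * t i) := by
    rw [h1]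
    trivial
  obtain ⟨b', hb'⟩ := Ideal.mem_span_range_iff_exists_fun.1 h2
  refine ⟨fun i => t i, b', ?_⟩
  rw [← hb']
  exact Finset.sum_congr rfl fun i _ => mul_comm _ _

end Pool.Agent.SLZ
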