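import Pool.Agent.SLZ.StV
import Pool.Agent.SLZ.MA

/-!
# SLZ, module VC: stable connectivity, building up from a full subcomplex (helper33)
-/

set_option autoImplicit false
set_option linter.unusedVariables false

noncomputable section

namespace Pool.Agent.SLZ

lemma VC_ext {V : Type} {A B : Cx V} (h : ∀ l, l ∈ A.s ↔ l ∈ B.s) : A = B := by
  obtain ⟨s, hs⟩ := A
  obtain ⟨t, ht⟩ := B
  have : s = t := Set.ext h
  subst this
  rfl

lemma VC_noList {V : Type} (A : Cx V) (h : ∀ l, l ∉ A.s) (c : ℕ) : Conn A c := by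
  intro j _ z hz _
  refine ⟨0, Submodule.zero_mem _, ?_⟩
  rw [map_zero]
  symm
  rw [← Finsupp.support_eq_empty, Finset.eq_empty_iff_forall_notMem]
  intro l hl
  exact h l ((MA_mem.1 hz) l hl).1

lemma VC_mono {V : Type} {A : Cx V} {c c' : ℕ} (h : Conn A c) (hc : c' ≤ c) : Conn A c' :=
  fun j hj => h j (hj.trans_le hc)

lemma VC_SCno {V : Type} (A : Cx V) (h : ∀ l, l ∉ A.s) (c : ℕ) : SC A c := by
  intro W B b _
  apply VC_noList
  rintro l ⟨⟨a, ha, _⟩, _⟩
  exact h a ha

section

variable {V W : Type}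

/-- the vertices of the join outside of `X` on the left -/
def VC_X (X : Set V) : Set (V ⊕ W) := Sum.inl '' X ∪ Set.range Sum.inr

lemma VC_Xl (X : Set V) (v : V) : (Sum.inl v : V ⊕ W) ∈ VC_X X ↔ v ∈ X := by
  unfold VC_X
  simp

lemma VC_Xr (X : Set V) (w : W) : (Sum.inr w : V ⊕ W) ∈ VC_X X := by
  unfold VC_X
  simp

/-- the left entries -/
def VC_left (l : List (V ⊕ W)) : List V := l.filterMap Sum.getLeft?

lemma VC_mem_left (l : List (V ⊕ W)) (v : V) : v ∈ VC_left l ↔ Sum.inl v ∈ l := by
  unfold VC_left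
  rw [List.mem_filterMap]
  constructor
  · rintro ⟨x, hx, h⟩
    rcases x with x | x
    · simp only [Sum.getLeft?_inl, Option.some.injEq] at h
      rw [← h]
      exact hx
    · simp at h
  · intro h
    exact ⟨_, h, by simp⟩

/-- lists outside of the full subcomplex come from the left -/
lemma VC_out (X : Set V) (σ : List (V ⊕ W)) (hσ : ∀ v ∈ σ, v ∉ VC_X X) :
    ∃ τ : List V, σ = τ.map Sum.inl ∧ ∀ v ∈ τ, v ∉ X := by
  induction σ with
  | nil => exact ⟨[], rfl, fun v hv => by simp at hv⟩
  | cons x σ ih =>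
    obtain ⟨τ, rfl, hτ⟩ := ih fun v hv => hσ v (List.mem_cons_of_mem _ hv)
    have hx := hσ x List.mem_cons_self
    rcases x with x | x
    · refine ⟨x :: τ, rfl, fun v hv => ?_⟩
      rcases List.mem_cons.1 hv with rfl | h
      · rwa [VC_Xl] at hx
      · exact hτ v h
    · exact absurd (VC_Xr X x) hx

lemma VC_link (A : Cx V) (B : Cx W) (X : Set V) (σ : List V) :
    lkX (joinC A B) (VC_X X) (σ.map Sum.inl) = joinC (lkX A X σ) B := by
  apply VC_ext
  intro l
  constructor
  · rintro ⟨⟨⟨a, ha, h1⟩, b, hb, h2⟩, h3⟩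
    refine ⟨⟨VC_left l, ⟨A.mono a _ ?_ ha, ?_⟩, fun v hv => (VC_mem_left l v).2 hv⟩, b, hb,
      fun w hw => h2 w (List.mem_append_right _ hw)⟩
    · intro v hv
      rcases List.mem_append.1 hv with h | h
      · exact h1 v (List.mem_append_left _ (List.mem_map_of_mem h))
      · exact h1 v (List.mem_append_right _ ((VC_mem_left l v).1 h))
    · intro v hv
      exact (VC_Xl X v).1 (h3 _ ((VC_mem_left l v).1 hv))
  · rintro ⟨⟨a, ⟨ha, haX⟩, h1⟩, b, hb, h2⟩
    refine ⟨⟨⟨σ ++ a, ha, fun v hv => ?_⟩, b, hb, fun w hw => ?_⟩, fun x hx => ?_⟩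
    · rcases List.mem_append.1 hv with h | h
      · obtain ⟨u, hu, huv⟩ := List.mem_map.1 h
        rw [← Sum.inl_injective huv]
        exact List.mem_append_left _ hu
      · exact List.mem_append_right _ (h1 v h)
    · rcases List.mem_append.1 hw with h | h
      · obtain ⟨u, hu, huv⟩ := List.mem_map.1 h
        exact absurd huv Sum.inl_ne_inr
      · exact h2 w h
    · rcases x with x | x
      · exact (VC_Xl X x).2 (haX x (h1 x hx))
      · exact VC_Xr X x

lemma VC_rs (A : Cx V) (B : Cx W) (X : Set V) :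
    rs (joinC A B) (VC_X X) = joinC (rs A X) B := by
  have h1 : rs (joinC A B) (VC_X X) = lkX (joinC A B) (VC_X X) ([] : List (V ⊕ W)) :=
    VC_ext fun l => Iff.rfl
  have h2 : rs A X = lkX A X [] := VC_ext fun l => Iff.rfl
  rw [h1, h2]
  exact VC_link A B X []

/-- the hypothesis on links, transferred to the join -/
lemma VC_links (A : Cx V) (B : Cx W) (X : Set V) (c b : ℕ) (hB : Conn B b) (σ : List (V ⊕ W))
    (hσ : ∀ v ∈ σ, v ∉ VC_X X) (hd : σ.Nodup)
    (h : ∀ τ : List V, σ = τ.map Sum.inl → τ.Nodup → (∀ v ∈ τ, v ∉ X) →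
      SC (lkX A X τ) (c - τ.length)) :
    Conn (lkX (joinC A B) (VC_X X) σ) (c + b - σ.length) := by
  obtain ⟨τ, rfl, hτ⟩ := VC_out X σ hσ
  rw [VC_link]
  have h1 := h τ rfl (List.Nodup.of_map _ hd) hτ W B b hB
  refine VC_mono h1 ?_
  rw [List.length_map]
  omega

end

lemma VC_nil {W : Type} {B : Cx W} (hW : IsEmpty W) {b : ℕ} (hb : 1 ≤ b) (hB : Conn B b) (l : List W) :
    l ∉ B.s := by
  intro hl
  have h0 : ([] : List W) ∈ B.s := B.mono l [] (List.nil_subset _) hl
  have h1 : Finsupp.single ([] : List W) (1 : ℤ) ∈ Ch B.s 0 := MA_single h0 rfl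
  obtain ⟨y, hy, hyz⟩ := hB 0 (by omega) _ h1 (MA_3a B.s _ h1)
  have h2 : y = 0 := by
    rw [← Finsupp.support_eq_empty, Finset.eq_empty_iff_forall_notMem]
    intro l' hl'
    have h3 := ((MA_mem.1 hy) l' hl').2
    rcases l' with _ | ⟨w, _⟩
    · simp at h3
    · exact hW.elim w
  rw [h2, map_zero] at hyz
  have h3 := DFunLike.congr_fun hyz ([] : List W)
  rw [Finsupp.single_eq_same, Finsupp.zero_apply] at h3
  exact zero_ne_one h3

lemma VC_zero (hJ : St_VJ) {V : Type} (A : Cx V) (hP : St_VP) : SC A 0 := by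
  intro W B b hB
  rw [zero_add]
  refine (hP (V ⊕ W) (joinC A B) (VC_X ∅)).2.1 b fun σ hd hσ => ?_
  obtain ⟨τ, rfl, hτ⟩ := VC_out ∅ σ hσ
  rw [VC_link]
  by_cases hτA : τ ∈ A.s
  · refine VC_mono (c := b) ?_ (Nat.sub_le _ _)
    by_cases hW : Nonempty W
    · obtain ⟨w0⟩ := hW
      refine (hJ.1 W (V ⊕ W) B (joinC (lkX A ∅ τ) B) Sum.inr (Sum.elim (fun _ => w0) id) b
        ?_ ?_ ?_).1 hB
      · intro l hl
        refine ⟨⟨[], ⟨by rwa [List.append_nil], fun v hv => by simp at hv⟩, fun v hv => ?_⟩, l, hl,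
          fun w hw => ?_⟩
        · obtain ⟨u, _, hu⟩ := List.mem_map.1 hv
          exact absurd hu Sum.inr_ne_inl
        · obtain ⟨u, hu, huw⟩ := List.mem_map.1 hw
          rw [← Sum.inr_injective huw]
          exact hu
      · rintro l ⟨⟨a, ⟨_, ha⟩, h1⟩, b', hb', h2⟩
        refine B.mono b' _ ?_ hb'
        intro w hw
        obtain ⟨x, hx, hxw⟩ := List.mem_map.1 hw
        rcases x with x | x
        · exact absurd (ha x (h1 x hx)) (Set.notMem_empty _)
        · rw [← hxw]
          exact h2 x hx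
      · rintro l ⟨⟨a, ⟨_, ha⟩, h1⟩, _⟩ x hx
        rcases x with x | x
        · exact absurd (ha x (h1 x hx)) (Set.notMem_empty _)
        · rfl
    · rw [not_nonempty_iff] at hW
      rcases Nat.eq_zero_or_pos b with hb | hb
      · rw [hb]
        intro j hj
        exact absurd hj (Nat.not_lt_zero _)
      · apply VC_noList
        rintro l ⟨_, b', hb', _⟩
        exact VC_nil hW hb hB b' hb'
  · apply VC_noList
    rintro l ⟨⟨a, ⟨ha, _⟩, _⟩, _⟩
    exact hτA (A.mono _ _ (List.subset_append_left _ _) ha)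

lemma VC_build (hP : St_VP) {V : Type} (A : Cx V) (X : Set V) (c : ℕ)
    (h : ∀ σ : List V, σ.Nodup → (∀ v ∈ σ, v ∉ X) → SC (lkX A X σ) (c - σ.length)) : SC A c := by
  intro W B b hB
  refine (hP (V ⊕ W) (joinC A B) (VC_X X)).2.1 (c + b) fun σ hd hσ => ?_
  exact VC_links A B X c b hB σ hσ hd fun τ _ h1 h2 => h τ h1 h2

/-- **VC** -/
theorem thm_VC (hJ : St_VJ) (hP : St_VP) : St_VC := by
  intro V A X c
  refine ⟨VC_zero hJ A hP, VC_build hP A X c, ?_, ?_, ?_, ?_⟩
  · intro y hy h W B b hB
    refine (hP (V ⊕ W) (joinC A B) (VC_X X)).2.2.1 (c + b) (Sum.inl y) ?_ fun σ hne hd hσ => ?_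
    · rw [VC_rs]
      rintro l ⟨⟨a, ha, h1⟩, b', hb', h2⟩
      refine ⟨⟨y :: a, hy a ha, fun v hv => ?_⟩, b', hb', fun w hw => ?_⟩
      · rcases List.mem_cons.1 hv with h3 | h3
        · rw [Sum.inl_injective h3]
          exact List.mem_cons_self
        · exact List.mem_cons_of_mem _ (h1 v h3)
      · rcases List.mem_cons.1 hw with h3 | h3
        · exact absurd h3 Sum.inr_ne_inl
        · exact h2 w h3
    · refine VC_links A B X c b hB σ hσ hd fun τ hτ h1 h2 => h τ ?_ h1 h2
      rintro rfl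
      exact hne hτ
  · intro y hy W B b hB j _
    refine MA_6 (joinC A B) (Sum.inl y) ?_ j
    rintro l ⟨⟨a, ha, h1⟩, b', hb', h2⟩
    refine ⟨⟨y :: a, hy a ha, fun v hv => ?_⟩, b', hb', fun w hw => ?_⟩
    · rcases List.mem_cons.1 hv with h3 | h3
      · rw [Sum.inl_injective h3]
        exact List.mem_cons_self
      · exact List.mem_cons_of_mem _ (h1 v h3)
    · rcases List.mem_cons.1 hw with h3 | h3
      · exact absurd h3 Sum.inr_ne_inl
      · exact h2 w h3
  · intro hA h W B b hB j hj z hz hbz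
    rw [← VC_rs] at hz ⊢
    have hz' : z ∈ Ch (joinC A B).s j := MA_mono hz fun l hl => hl.1
    obtain ⟨y, hy, hyz⟩ := hA W B b hB j hj z hz' hbz
    obtain ⟨y', hy', e, he, hye⟩ := (hP (V ⊕ W) (joinC A B) (VC_X X)).1 (j + 1)
      (fun σ hne hd hσ => by
        have h1 := VC_links A B X (c + 1) b hB σ hσ hd fun τ hτ h1 h2 => h τ (by
          rintro rfl
          exact hne hτ) h1 h2
        exact VC_mono h1 (by omega)) y hy (by
        rw [hyz]
        intro l hl v hv
        exact ((MA_mem.1 hz) l hl).1.2 v hv)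
    refine ⟨y', hy', ?_⟩
    rw [← hyz, hye, map_add, MA_1, add_zero]
  · intro h hh hX hv
    have key : ∀ m : ℕ, SC (rs A (X ∪ {u | h u < m})) c := by
      intro m
      induction m with
      | zero =>
        have : X ∪ {u | h u < 0} = X := by simp
        rw [this]
        exact hX
      | succ m ih =>
        refine VC_build hP (rs A (X ∪ {u | h u < m + 1})) (X ∪ {u | h u < m}) c fun σ hd hσ => ?_
        have hout : ∀ v, v ∉ X ∪ {u | h u < m} → v ∈ X ∪ {u | h u < m + 1} → v ∉ X ∧ h v = m := by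
          intro v h1 h2
          have h3 : v ∉ X := fun h4 => h1 (Or.inl h4)
          have h4 : ¬ h v < m := fun h5 => h1 (Or.inr h5)
          rcases h2 with h2 | h2
          · exact absurd h2 h3
          · refine ⟨h3, ?_⟩
            have : h v < m + 1 := h2
            omega
        rcases σ with _ | ⟨v, _ | ⟨u, τ⟩⟩
        · have h1 : lkX (rs A (X ∪ {u | h u < m + 1})) (X ∪ {u | h u < m}) [] =
              rs A (X ∪ {u | h u < m}) := by
            apply VC_ext
            intro l
            constructor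
            · rintro ⟨⟨h1, _⟩, h2⟩
              exact ⟨h1, h2⟩
            · rintro ⟨h1, h2⟩
              refine ⟨⟨h1, fun v hv => ?_⟩, h2⟩
              rcases h2 v hv with h3 | h3
              · exact Or.inl h3
              · exact Or.inr (Nat.lt_succ_of_lt h3)
          rw [h1]
          exact ih
        · by_cases hvm : v ∈ X ∪ {u | h u < m + 1}
          · obtain ⟨h1, h2⟩ := hout v (hσ v List.mem_cons_self) hvm
            have h3 : lkX (rs A (X ∪ {u | h u < m + 1})) (X ∪ {u | h u < m}) [v] =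
                lkX A (X ∪ {u | h u < h v}) [v] := by
              rw [h2]
              apply VC_ext
              intro l
              constructor
              · rintro ⟨⟨h1, _⟩, h2⟩
                exact ⟨h1, h2⟩
              · rintro ⟨h1, h2⟩
                refine ⟨⟨h1, fun v' hv' => ?_⟩, h2⟩
                rcases List.mem_append.1 hv' with h3 | h3
                · rw [List.mem_singleton] at h3
                  rw [h3]
                  exact hvm
                · rcases h2 v' h3 with h4 | h4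
                  · exact Or.inl h4
                  · exact Or.inr (Nat.lt_succ_of_lt h4)
            rw [h3]
            exact hv v h1
          · apply VC_SCno
            rintro l ⟨⟨_, h1⟩, _⟩
            exact hvm (h1 v (List.mem_append_left _ List.mem_cons_self))
        · apply VC_SCno
          rintro l ⟨⟨h0, h1⟩, _⟩
          have m1 : v ∈ v :: u :: τ := List.mem_cons_self
          have m2 : u ∈ v :: u :: τ := List.mem_cons_of_mem _ List.mem_cons_self
          obtain ⟨a1, a2⟩ := hout v (hσ v m1) (h1 v (List.mem_append_left _ m1))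
          obtain ⟨b1, b2⟩ := hout u (hσ u m2) (h1 u (List.mem_append_left _ m2))
          have hne : v ≠ u := by
            rintro rfl
            exact (List.nodup_cons.1 hd).1 List.mem_cons_self
          refine hh v u a1 b1 hne (A.mono _ _ ?_ h0) (by rw [a2, b2])
          intro x hx
          rcases List.mem_cons.1 hx with rfl | hx
          · exact List.mem_append_left _ m1
          · rw [List.mem_singleton] at hx
            rw [hx]
            exact List.mem_append_left _ m2
    intro W B b hB j hj z hz hbz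
    classical
    -- a bound for the values on the support
    obtain ⟨m, hm⟩ : ∃ m : ℕ, ∀ l ∈ z.support, ∀ v, Sum.inl v ∈ l → h v < m := by
      refine ⟨(z.support.sup fun l => ((VC_left l).map h).sum) + 1, fun l hl v hvl => ?_⟩
      have h1 : h v ≤ ((VC_left l).map h).sum :=
        List.single_le_sum (fun _ _ => Nat.zero_le _) _
          (List.mem_map_of_mem ((VC_mem_left l v).2 hvl))
      have h2 : ((VC_left l).map h).sum ≤ z.support.sup fun l => ((VC_left l).map h).sum :=
        Finset.le_sup (f := fun l => ((VC_left l).map h).sum) hl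
      omega
    have hz' : z ∈ Ch (joinC (rs A (X ∪ {u | h u < m})) B).s j := by
      rw [MA_mem]
      intro l hl
      obtain ⟨h1, h2⟩ := (MA_mem.1 hz) l hl
      refine ⟨?_, h2⟩
      obtain ⟨⟨a, ha, h3⟩, h4⟩ := h1
      refine ⟨⟨VC_left l, ⟨A.mono a _ (fun v hv => h3 v ((VC_mem_left l v).1 hv)) ha,
        fun v hv => Or.inr (hm l hl v ((VC_mem_left l v).1 hv))⟩,
        fun v hv => (VC_mem_left l v).2 hv⟩, h4⟩
    obtain ⟨y, hy, hyz⟩ := key m W B b hB j hj z hz' hbz
    refine ⟨y, MA_mono hy fun l hl => ?_, hyz⟩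
    obtain ⟨⟨a, ha, h3⟩, h4⟩ := hl
    exact ⟨⟨a, ha.1, h3⟩, h4⟩

end Pool.Agent.SLZ
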