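import Pool.Agent.SLZ.StV

/-!
# SLZ, module VD: stable ranks of polynomial rings over the integers (helper33)
-/

set_option autoImplicit false
set_option linter.unusedVariables false

noncomputable section

namespace Pool.Agent.SLZ

lemma VD_dim (r : ℕ) : ringKrullDim (MvPolynomial (Fin r) ℤ) = ((r + 1 : ℕ) : WithBot ℕ∞) := by
  rw [MvPolynomial.ringKrullDim_of_isNoetherianRing,
    IsPrincipalIdealRing.ringKrullDim_eq_one ℤ Int.not_isField, Nat.card_fin]
  push_cast
  rw [add_comm]

/-- **VD** -/
theorem thm_VD : St_VD := by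
  intro hVB
  refine ⟨fun r => ?_, fun r => ?_⟩
  · exact hVB (MvPolynomial (Fin r) ℤ) (r + 1) (VD_dim r).le
  · refine hVB (Polynomial (MvPolynomial (Fin r) ℤ)) (r + 2) (le_of_eq ?_)
    rw [Polynomial.ringKrullDim_of_isNoetherianRing, VD_dim]
    push_cast
    rfl

end Pool.Agent.SLZ
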