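import Pool.Agent.SLZ.StV2

/-!
# SLZ: `GL_N = E_N GL_n` (helper98)

Module `VE`: `thm_VE : St_VE`.
-/

set_option autoImplicit false
set_option linter.unusedSimpArgs false

noncomputable section

namespace Pool.Agent.SLZ

open Matrix

section

variable {A : Type} [CommRing A]

/-- row equivalence with elementary matrices -/
def VE_rel {N : ℕ} (M M' : Matrix (Fin N) (Fin N) A) : Prop :=
  ∃ e ∈ El A N, (e : Matrix (Fin N) (Fin N) A) * M = M'

theorem VE_refl {N : ℕ} (M : Matrix (Fin N) (Fin N) A) : VE_rel M M :=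
  ⟨1, Subgroup.one_mem _, by rw [Units.val_one, one_mul]⟩

theorem VE_trans {N : ℕ} {M M' M'' : Matrix (Fin N) (Fin N) A} (h : VE_rel M M')
    (h' : VE_rel M' M'') : VE_rel M M'' := by
  obtain ⟨e, he, h1⟩ := h
  obtain ⟨e', he', h2⟩ := h'
  exact ⟨e' * e, Subgroup.mul_mem _ he' he, by rw [Units.val_mul, mul_assoc, h1, h2]⟩

theorem VE_tv {N : ℕ} (i j : Fin N) (h : i ≠ j) (a : A) :
    ∃ e ∈ El A N, (e : Matrix (Fin N) (Fin N) A) = Matrix.transvection i j a := by
  have h1 : Matrix.transvection i j a * Matrix.transvection i j (-a) = 1 := by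
    rw [Matrix.transvection_mul_transvection_same i j h, add_neg_cancel, Matrix.transvection_zero]
  have h2 : Matrix.transvection i j (-a) * Matrix.transvection i j a = 1 := by
    rw [Matrix.transvection_mul_transvection_same i j h, neg_add_cancel, Matrix.transvection_zero]
  exact ⟨⟨Matrix.transvection i j a, Matrix.transvection i j (-a), h1, h2⟩,
    Subgroup.subset_closure ⟨i, j, h, a, rfl⟩, rfl⟩

theorem VE_row {N : ℕ} (i j : Fin N) (h : i ≠ j) (a : A) (M : Matrix (Fin N) (Fin N) A) :
    VE_rel M (Matrix.of fun k l => if k = i then M i l + a * M j l else M k l) := by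
  obtain ⟨e, he, h1⟩ := VE_tv i j h a
  refine ⟨e, he, ?_⟩
  rw [h1]
  ext k l
  rw [Matrix.of_apply]
  by_cases hk : k = i
  · subst hk
    rw [if_pos rfl, Matrix.transvection_mul_apply_same]
  · rw [if_neg hk, Matrix.transvection_mul_apply_of_ne _ _ _ _ hk]

theorem VE_col {N : ℕ} (j : Fin N) (t : Fin N → A) (S : Finset (Fin N)) (hj : j ∉ S)
    (M : Matrix (Fin N) (Fin N) A) :
    VE_rel M (Matrix.of fun k l => if k ∈ S then M k l + t k * M j l else M k l) := by
  classical
  induction S using Finset.induction_on with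
  | empty =>
    have h : (Matrix.of fun k l => if k ∈ (∅ : Finset (Fin N)) then M k l + t k * M j l
        else M k l) = M := by
      ext k l
      rw [Matrix.of_apply, if_neg (Finset.notMem_empty k)]
    rw [h]
    exact VE_refl M
  | @insert i S hi ih =>
    have hji : j ≠ i := fun h => hj (by rw [h]; exact Finset.mem_insert_self i S)
    have hjS : j ∉ S := fun h => hj (Finset.mem_insert_of_mem h)
    refine VE_trans (ih hjS) ?_
    have h1 := VE_row i j hji.symm (t i)
      (Matrix.of fun k l => if k ∈ S then M k l + t k * M j l else M k l)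
    have h2 : (Matrix.of fun k l => if k = i then
        (Matrix.of fun k l => if k ∈ S then M k l + t k * M j l else M k l) i l +
        t i * (Matrix.of fun k l => if k ∈ S then M k l + t k * M j l else M k l) j l
        else (Matrix.of fun k l => if k ∈ S then M k l + t k * M j l else M k l) k l) =
        Matrix.of fun k l => if k ∈ insert i S then M k l + t k * M j l else M k l := by
      ext k l
      simp only [Matrix.of_apply, if_neg hi, if_neg hjS, Finset.mem_insert]
      by_cases hk : k = i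
      · subst hk
        rw [if_pos rfl, if_pos (Or.inl rfl)]
      · rw [if_neg hk]
        by_cases hkS : k ∈ S
        · rw [if_pos hkS, if_pos (Or.inr hkS)]
        · rw [if_neg hkS, if_neg (fun h => h.elim hk hkS)]
    rw [h2] at h1
    exact h1

theorem VE_comb {N : ℕ} (i : Fin N) (t : Fin N → A) (S : Finset (Fin N)) (hi : i ∉ S)
    (M : Matrix (Fin N) (Fin N) A) :
    VE_rel M (Matrix.of fun k l => if k = i then M i l + ∑ j ∈ S, t j * M j l else M k l) := by
  classical
  induction S using Finset.induction_on with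
  | empty =>
    have h : (Matrix.of fun k l => if k = i then M i l + ∑ j ∈ (∅ : Finset (Fin N)), t j * M j l
        else M k l) = M := by
      ext k l
      rw [Matrix.of_apply, Finset.sum_empty, add_zero]
      by_cases hk : k = i
      · rw [if_pos hk, hk]
      · rw [if_neg hk]
    rw [h]
    exact VE_refl M
  | @insert j S hj ih =>
    have hij : i ≠ j := fun h => hi (by rw [h]; exact Finset.mem_insert_self j S)
    have hiS : i ∉ S := fun h => hi (Finset.mem_insert_of_mem h)
    refine VE_trans (ih hiS) ?_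
    have h1 := VE_row i j hij (t j)
      (Matrix.of fun k l => if k = i then M i l + ∑ j ∈ S, t j * M j l else M k l)
    have h2 : (Matrix.of fun k l => if k = i then
        (Matrix.of fun k l => if k = i then M i l + ∑ j ∈ S, t j * M j l else M k l) i l +
        t j * (Matrix.of fun k l => if k = i then M i l + ∑ j ∈ S, t j * M j l else M k l) j l
        else (Matrix.of fun k l => if k = i then M i l + ∑ j ∈ S, t j * M j l else M k l) k l) =
        Matrix.of fun k l => if k = i then M i l + ∑ j ∈ insert j S, t j * M j l else M k l := by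
      ext k l
      simp only [Matrix.of_apply, if_neg hij.symm, Finset.sum_insert hj]
      by_cases hk : k = i
      · rw [if_pos hk, if_pos hk, if_pos trivial, add_assoc]
        congr 1
        exact add_comm _ _
      · rw [if_neg hk, if_neg hk, if_neg hk]
    rw [h2] at h1
    exact h1

/-- the embedding of matrices of size `N` into matrices of size `N + 1` -/
def VE_em (N : ℕ) : Matrix (Fin N) (Fin N) A →* Matrix (Fin (N + 1)) (Fin (N + 1)) A where
  toFun M := Matrix.reindex finSumFinEquiv finSumFinEquiv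
    (Matrix.fromBlocks M 0 0 (1 : Matrix (Fin 1) (Fin 1) A))
  map_one' := by
    rw [Matrix.fromBlocks_one, Matrix.reindex_apply, Matrix.submatrix_one_equiv]
  map_mul' M M' := by
    rw [Matrix.reindex_apply, Matrix.reindex_apply, Matrix.reindex_apply,
      Matrix.submatrix_mul_equiv, Matrix.fromBlocks_multiply]
    congr 1
    simp

theorem VE_em_cc (N : ℕ) (M : Matrix (Fin N) (Fin N) A) (i j : Fin N) :
    VE_em N M i.castSucc j.castSucc = M i j := by
  change Matrix.reindex finSumFinEquiv finSumFinEquiv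
    (Matrix.fromBlocks M 0 0 (1 : Matrix (Fin 1) (Fin 1) A)) (Fin.castAdd 1 i) (Fin.castAdd 1 j) = _
  rw [Matrix.reindex_apply, Matrix.submatrix_apply, finSumFinEquiv_symm_apply_castAdd,
    finSumFinEquiv_symm_apply_castAdd, Matrix.fromBlocks_apply₁₁]

theorem VE_em_cl (N : ℕ) (M : Matrix (Fin N) (Fin N) A) (i : Fin N) :
    VE_em N M i.castSucc (Fin.last N) = 0 := by
  change Matrix.reindex finSumFinEquiv finSumFinEquiv
    (Matrix.fromBlocks M 0 0 (1 : Matrix (Fin 1) (Fin 1) A)) (Fin.castAdd 1 i) (Fin.natAdd N 0) = _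
  rw [Matrix.reindex_apply, Matrix.submatrix_apply, finSumFinEquiv_symm_apply_castAdd,
    finSumFinEquiv_symm_apply_natAdd, Matrix.fromBlocks_apply₁₂]
  rfl

theorem VE_em_lc (N : ℕ) (M : Matrix (Fin N) (Fin N) A) (i : Fin N) :
    VE_em N M (Fin.last N) i.castSucc = 0 := by
  change Matrix.reindex finSumFinEquiv finSumFinEquiv
    (Matrix.fromBlocks M 0 0 (1 : Matrix (Fin 1) (Fin 1) A)) (Fin.natAdd N 0) (Fin.castAdd 1 i) = _
  rw [Matrix.reindex_apply, Matrix.submatrix_apply, finSumFinEquiv_symm_apply_castAdd,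
    finSumFinEquiv_symm_apply_natAdd, Matrix.fromBlocks_apply₂₁]
  rfl

theorem VE_em_ll (N : ℕ) (M : Matrix (Fin N) (Fin N) A) :
    VE_em N M (Fin.last N) (Fin.last N) = 1 := by
  change Matrix.reindex finSumFinEquiv finSumFinEquiv
    (Matrix.fromBlocks M 0 0 (1 : Matrix (Fin 1) (Fin 1) A)) (Fin.natAdd N 0) (Fin.natAdd N 0) = _
  rw [Matrix.reindex_apply, Matrix.submatrix_apply,
    finSumFinEquiv_symm_apply_natAdd, Matrix.fromBlocks_apply₂₂]
  rfl

theorem VE_em_tv (N : ℕ) (i j : Fin N) (a : A) :
    VE_em N (Matrix.transvection i j a) = Matrix.transvection i.castSucc j.castSucc a := by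
  ext p q
  refine Fin.lastCases ?_ (fun p => ?_) p <;> refine Fin.lastCases ?_ (fun q => ?_) q
  · rw [VE_em_ll]
    simp [Matrix.transvection, Matrix.single_apply, Fin.castSucc_ne_last]
  · rw [VE_em_lc]
    simp [Matrix.transvection, Matrix.single_apply, Fin.castSucc_ne_last, Matrix.one_apply,
      (Fin.castSucc_ne_last q).symm]
  · rw [VE_em_cl]
    simp [Matrix.transvection, Matrix.single_apply, Fin.castSucc_ne_last, Matrix.one_apply]
  · rw [VE_em_cc]
    simp [Matrix.transvection, Matrix.single_apply, Matrix.one_apply]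

/-- elements of `E_N` extend to `E_(N+1)` -/
theorem VE_em_El (N : ℕ) (e : GL (Fin N) A) (he : e ∈ El A N) :
    Units.map (VE_em N) e ∈ El A (N + 1) := by
  have h : El A N ≤ (El A (N + 1)).comap (Units.map (VE_em N)) := by
    refine (Subgroup.closure_le _).2 ?_
    rintro g ⟨i, j, hij, a, hg⟩
    refine Subgroup.subset_closure ⟨i.castSucc, j.castSucc,
      fun h => hij (Fin.castSucc_injective N h), a, ?_⟩
    rw [← VE_em_tv, ← hg]
    rfl
  exact h he

end

theorem thm_VE : St_VE := by
  classical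
  intro A _ s n N hSR hsn hnN
  induction N, hnN using Nat.le_induction with
  | base =>
    intro g
    refine ⟨1, Subgroup.one_mem _, fun i j h => ?_⟩
    rcases h with h | h
    · exact absurd i.2 (not_lt.2 h)
    · exact absurd j.2 (not_lt.2 h)
  | succ N hN ih =>
    intro g
    obtain ⟨M0, hM0⟩ : ∃ M0 : Matrix (Fin (N + 1)) (Fin (N + 1)) A, M0 = (g : Matrix _ _ A) :=
      ⟨_, rfl⟩
    obtain ⟨H, hH⟩ : ∃ H : Matrix (Fin (N + 1)) (Fin (N + 1)) A,
        H = ((g⁻¹ : GL (Fin (N + 1)) A) : Matrix _ _ A) := ⟨_, rfl⟩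
    have hHM : H * M0 = 1 := by rw [hM0, hH, ← Units.val_mul, inv_mul_cancel, Units.val_one]
    -- the last column is unimodular
    have h1 : ∑ i : Fin N, M0 i.castSucc (Fin.last N) * H (Fin.last N) i.castSucc +
        M0 (Fin.last N) (Fin.last N) * H (Fin.last N) (Fin.last N) = 1 := by
      have h2 := congrFun (congrFun hHM (Fin.last N)) (Fin.last N)
      rw [Matrix.mul_apply, Fin.sum_univ_castSucc, Matrix.one_apply_eq] at h2
      rw [← h2]
      congr 1
      · exact Finset.sum_congr rfl fun i _ => mul_comm _ _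
      · exact mul_comm _ _
    obtain ⟨t, b', hb'⟩ := hSR N (hsn.trans hN) _ _ _ h1
    -- first operation
    let S : Finset (Fin (N + 1)) := Finset.univ.erase (Fin.last N)
    have hS : Fin.last N ∉ S := Finset.notMem_erase _ _
    have hSc : ∀ i : Fin N, i.castSucc ∈ S := fun i =>
      Finset.mem_erase.2 ⟨Fin.castSucc_ne_last i, Finset.mem_univ _⟩
    have hsum : ∀ f : Fin (N + 1) → A, ∑ j ∈ S, f j = ∑ i : Fin N, f i.castSucc := by
      intro f
      have e1 := Finset.add_sum_erase Finset.univ f (Finset.mem_univ (Fin.last N))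
      rw [Fin.sum_univ_castSucc] at e1
      have e2 : f (Fin.last N) + ∑ j ∈ S, f j = f (Fin.last N) + ∑ i : Fin N, f i.castSucc := by
        rw [add_comm (f (Fin.last N)) (∑ i : Fin N, f i.castSucc)]
        exact e1
      exact add_left_cancel e2
    let t1 : Fin (N + 1) → A := Fin.lastCases 0 (fun i => H (Fin.last N) (Fin.last N) * t i)
    have ht1 : ∀ i : Fin N, t1 i.castSucc = H (Fin.last N) (Fin.last N) * t i := fun i =>
      Fin.lastCases_castSucc _
    have r1 := VE_col (Fin.last N) t1 S hS M0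
    obtain ⟨M1, hM1⟩ : ∃ M1 : Matrix (Fin (N + 1)) (Fin (N + 1)) A,
        M1 = Matrix.of fun k l => if k ∈ S then M0 k l + t1 k * M0 (Fin.last N) l else M0 k l :=
      ⟨_, rfl⟩
    rw [← hM1] at r1
    have m1c : ∀ (i : Fin N) l, M1 i.castSucc l = M0 i.castSucc l +
        H (Fin.last N) (Fin.last N) * t i * M0 (Fin.last N) l := fun i l => by
      rw [hM1, Matrix.of_apply, if_pos (hSc i), ht1]
    have hb1 : ∑ i : Fin N, M1 i.castSucc (Fin.last N) * b' i = 1 := by
      rw [← hb']
      refine Finset.sum_congr rfl fun i _ => ?_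
      rw [m1c]
      ring
    -- second operation
    let t2 : Fin (N + 1) → A :=
      Fin.lastCases 0 (fun i => (1 - M1 (Fin.last N) (Fin.last N)) * b' i)
    have ht2 : ∀ i : Fin N, t2 i.castSucc = (1 - M1 (Fin.last N) (Fin.last N)) * b' i := fun i =>
      Fin.lastCases_castSucc _
    have r2 := VE_comb (Fin.last N) t2 S hS M1
    obtain ⟨M2, hM2⟩ : ∃ M2 : Matrix (Fin (N + 1)) (Fin (N + 1)) A,
        M2 = Matrix.of fun k l => if k = Fin.last N then M1 (Fin.last N) l +
          ∑ j ∈ S, t2 j * M1 j l else M1 k l := ⟨_, rfl⟩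
    rw [← hM2] at r2
    have m2l : M2 (Fin.last N) (Fin.last N) = 1 := by
      rw [hM2, Matrix.of_apply, if_pos rfl, hsum]
      have e1 : ∑ i : Fin N, t2 i.castSucc * M1 i.castSucc (Fin.last N) =
          1 - M1 (Fin.last N) (Fin.last N) := by
        have e2 : ∀ i : Fin N, t2 i.castSucc * M1 i.castSucc (Fin.last N) =
            (1 - M1 (Fin.last N) (Fin.last N)) * (M1 i.castSucc (Fin.last N) * b' i) := by
          intro i
          rw [ht2]
          ring
        rw [Finset.sum_congr rfl fun i _ => e2 i, ← Finset.mul_sum, hb1, mul_one]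
      rw [e1]
      ring
    -- third operation
    have r3 := VE_col (Fin.last N) (fun i => -M2 i (Fin.last N)) S hS M2
    obtain ⟨M3, hM3⟩ : ∃ M3 : Matrix (Fin (N + 1)) (Fin (N + 1)) A,
        M3 = Matrix.of fun k l => if k ∈ S then M2 k l + -M2 k (Fin.last N) * M2 (Fin.last N) l
          else M2 k l := ⟨_, rfl⟩
    rw [← hM3] at r3
    have m3cl : ∀ i : Fin N, M3 i.castSucc (Fin.last N) = 0 := fun i => by
      rw [hM3, Matrix.of_apply, if_pos (hSc i), m2l, mul_one, add_neg_cancel]
    have m3ll : M3 (Fin.last N) (Fin.last N) = 1 := by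
      rw [hM3, Matrix.of_apply, if_neg hS, m2l]
    have r123 := VE_trans r1 (VE_trans r2 r3)
    obtain ⟨e3, he3, h3⟩ := r123
    -- the block
    obtain ⟨H3, hH3⟩ : ∃ H3 : Matrix (Fin (N + 1)) (Fin (N + 1)) A,
        H3 = (((e3 * g)⁻¹ : GL (Fin (N + 1)) A) : Matrix _ _ A) := ⟨_, rfl⟩
    have h33 : M3 * H3 = 1 := by
      rw [← h3, hM0, hH3, ← Units.val_mul, ← Units.val_mul, mul_inv_cancel, Units.val_one]
    let G' : Matrix (Fin N) (Fin N) A := Matrix.of fun i j => M3 i.castSucc j.castSucc
    let H' : Matrix (Fin N) (Fin N) A := Matrix.of fun i j => H3 i.castSucc j.castSucc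
    have hGH : G' * H' = 1 := by
      ext i j
      have e1 := congrFun (congrFun h33 i.castSucc) j.castSucc
      rw [Matrix.mul_apply, Fin.sum_univ_castSucc, m3cl, zero_mul, add_zero] at e1
      rw [Matrix.mul_apply]
      refine e1.trans ?_
      rw [Matrix.one_apply, Matrix.one_apply]
      simp
    have hHG : H' * G' = 1 := mul_eq_one_comm.1 hGH
    obtain ⟨e', he', h4⟩ := ih ⟨G', H', hGH, hHG⟩
    obtain ⟨Q, hQ⟩ : ∃ Q : Matrix (Fin N) (Fin N) A, Q = (e' : Matrix _ _ A) * G' := ⟨_, rfl⟩
    have h4' : ∀ i j : Fin N, (n ≤ i.val ∨ n ≤ j.val) → Q i j = if i = j then 1 else 0 := by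
      intro i j hij
      rw [hQ]
      exact h4 i j hij
    obtain ⟨P, hPQ⟩ : ∃ P : Matrix (Fin N) (Fin N) A, P * Q = 1 := by
      refine ⟨H' * ((e'⁻¹ : GL (Fin N) A) : Matrix _ _ A), ?_⟩
      rw [hQ, Matrix.mul_assoc, ← Matrix.mul_assoc _ _ G', ← Units.val_mul, inv_mul_cancel,
        Units.val_one, Matrix.one_mul, hHG]
    -- apply the block
    have r4 : VE_rel M3 (VE_em N (e' : Matrix _ _ A) * M3) := ⟨_, VE_em_El N e' he', rfl⟩
    obtain ⟨M4, hM4⟩ : ∃ M4 : Matrix (Fin (N + 1)) (Fin (N + 1)) A,
        M4 = VE_em N (e' : Matrix _ _ A) * M3 := ⟨_, rfl⟩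
    rw [← hM4] at r4
    have m4cc : ∀ i j : Fin N, M4 i.castSucc j.castSucc = Q i j := by
      intro i j
      rw [hM4, Matrix.mul_apply, Fin.sum_univ_castSucc, VE_em_cl, zero_mul, add_zero, hQ,
        Matrix.mul_apply]
      exact Finset.sum_congr rfl fun k _ => by rw [VE_em_cc]; rfl
    have m4cl : ∀ i : Fin N, M4 i.castSucc (Fin.last N) = 0 := by
      intro i
      rw [hM4, Matrix.mul_apply, Fin.sum_univ_castSucc, VE_em_cl, zero_mul, add_zero]
      exact Finset.sum_eq_zero fun k _ => by rw [m3cl, mul_zero]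
    have m4ll : M4 (Fin.last N) (Fin.last N) = 1 := by
      rw [hM4, Matrix.mul_apply, Fin.sum_univ_castSucc, VE_em_ll, one_mul, m3ll]
      have e1 : ∑ i : Fin N, VE_em N (e' : Matrix _ _ A) (Fin.last N) i.castSucc *
          M3 i.castSucc (Fin.last N) = 0 := Finset.sum_eq_zero fun k _ => by rw [m3cl, mul_zero]
      rw [e1, zero_add]
    -- last operation
    let u : Fin (N + 1) → A := Fin.lastCases 0
      (fun i => -∑ k : Fin N, M4 (Fin.last N) k.castSucc * P k i)
    have hu : ∀ i : Fin N, u i.castSucc = -∑ k : Fin N, M4 (Fin.last N) k.castSucc * P k i :=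
      fun i => Fin.lastCases_castSucc _
    have r5 := VE_comb (Fin.last N) u S hS M4
    obtain ⟨M5, hM5⟩ : ∃ M5 : Matrix (Fin (N + 1)) (Fin (N + 1)) A,
        M5 = Matrix.of fun k l => if k = Fin.last N then M4 (Fin.last N) l +
          ∑ j ∈ S, u j * M4 j l else M4 k l := ⟨_, rfl⟩
    rw [← hM5] at r5
    obtain ⟨e5, he5, h5⟩ := VE_trans r4 r5
    refine ⟨e5 * e3, Subgroup.mul_mem _ he5 he3, ?_⟩
    have h6 : ((e5 * e3 * g : GL (Fin (N + 1)) A) : Matrix _ _ A) = M5 := by
      rw [Units.val_mul, Units.val_mul, mul_assoc, ← hM0, h3, h5]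
    have m5c : ∀ (i : Fin N) l, M5 i.castSucc l = M4 i.castSucc l := fun i l => by
      rw [hM5, Matrix.of_apply, if_neg (Fin.castSucc_ne_last i)]
    have m5lc : ∀ j : Fin N, M5 (Fin.last N) j.castSucc = 0 := by
      intro j
      rw [hM5, Matrix.of_apply, if_pos rfl, hsum]
      have e1 : ∑ i : Fin N, u i.castSucc * M4 i.castSucc j.castSucc =
          -∑ k : Fin N, M4 (Fin.last N) k.castSucc * (P * Q) k j := by
        have e2 : ∀ i : Fin N, u i.castSucc * M4 i.castSucc j.castSucc =
            -∑ k : Fin N, M4 (Fin.last N) k.castSucc * (P k i * Q i j) := by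
          intro i
          rw [hu, m4cc, neg_mul, Finset.sum_mul]
          congr 1
          exact Finset.sum_congr rfl fun k _ => mul_assoc _ _ _
        rw [Finset.sum_congr rfl fun i _ => e2 i, Finset.sum_neg_distrib, Finset.sum_comm]
        congr 1
        refine Finset.sum_congr rfl fun k _ => ?_
        rw [← Finset.mul_sum, Matrix.mul_apply]
      rw [e1, hPQ]
      have e3 : ∑ k : Fin N, M4 (Fin.last N) k.castSucc *
          (1 : Matrix (Fin N) (Fin N) A) k j = M4 (Fin.last N) j.castSucc := by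
        rw [Finset.sum_eq_single j]
        · rw [Matrix.one_apply_eq, mul_one]
        · intro k _ hk
          rw [Matrix.one_apply_ne hk, mul_zero]
        · intro h
          exact absurd (Finset.mem_univ j) h
      rw [e3, add_neg_cancel]
    have m5ll : M5 (Fin.last N) (Fin.last N) = 1 := by
      rw [hM5, Matrix.of_apply, if_pos rfl, hsum, m4ll]
      have e1 : ∑ i : Fin N, u i.castSucc * M4 i.castSucc (Fin.last N) = 0 :=
        Finset.sum_eq_zero fun k _ => by rw [m4cl, mul_zero]
      rw [e1, add_zero]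
    intro i j hij
    rw [h6]
    revert hij
    refine Fin.lastCases ?_ (fun i => ?_) i <;> refine Fin.lastCases ?_ (fun j => ?_) j
    · intro _
      rw [m5ll, if_pos rfl]
    · intro _
      rw [m5lc, if_neg (Fin.castSucc_ne_last j).symm]
    · intro _
      rw [m5c, m4cl, if_neg (Fin.castSucc_ne_last i)]
    · intro hij
      rw [m5c, m4cc, h4' i j hij]
      by_cases h : i = j
      · rw [if_pos h, if_pos (by rw [h])]
      · rw [if_neg h, if_neg (fun h' => h (Fin.castSucc_injective N h'))]

end Pool.Agent.SLZ
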