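import Pool.Agent.SLZ.StV

/-!
# SLZ, module VG: straightening a unimodular vector (helper33)
-/

set_option autoImplicit false
set_option linter.unusedVariables false

noncomputable section

namespace Pool.Agent.SLZ

section

variable {Λ : Type} [Ring Λ] {A B : Type} [AddCommGroup A] [Module Λ A] [AddCommGroup B] [Module Λ B]

/-- shear -/
def VG_s1 (h : B →ₗ[Λ] A) : (A × B) ≃ₗ[Λ] (A × B) where
  toFun p := (p.1 + h p.2, p.2)
  map_add' p q := by
    ext
    · simp only [Prod.fst_add, Prod.snd_add, map_add]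
      abel
    · rfl
  map_smul' c p := by
    ext
    · simp only [Prod.smul_fst, Prod.smul_snd, map_smul, RingHom.id_apply, smul_add]
    · rfl
  invFun p := (p.1 - h p.2, p.2)
  left_inv p := by simp
  right_inv p := by simp

/-- shear -/
def VG_s2 (h : A →ₗ[Λ] B) : (A × B) ≃ₗ[Λ] (A × B) where
  toFun p := (p.1, p.2 + h p.1)
  map_add' p q := by
    ext
    · rfl
    · simp only [Prod.fst_add, Prod.snd_add, map_add]
      abel
  map_smul' c p := by
    ext
    · rfl
    · simp only [Prod.smul_fst, Prod.smul_snd, map_smul, RingHom.id_apply, smul_add]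
  invFun p := (p.1, p.2 - h p.1)
  left_inv p := by simp
  right_inv p := by simp

/-- split off the last coordinate -/
def VG_sp (n : ℕ) : ((Fin (n + 1) → Λ) × B) ≃ₗ[Λ] (Fin n → Λ) × (Λ × B) where
  toFun p := (fun i => p.1 i.castSucc, (p.1 (Fin.last n), p.2))
  map_add' p q := rfl
  map_smul' c p := rfl
  invFun p := (Fin.snoc (α := fun _ => Λ) p.1 p.2.1, p.2.2)
  left_inv p := by
    ext i
    · refine Fin.lastCases ?_ (fun j => ?_) i
      · simp
      · simp
    · rfl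
  right_inv p := by
    ext i
    · simp
    · simp
    · rfl

end

lemma VG_1 {Λ : Type} [Ring Λ] {s : ℕ} (n : ℕ) (hS : SR Λ s) (hn : s ≤ n) {M C : Type}
    [AddCommGroup M] [Module Λ M] [AddCommGroup C] [Module Λ C] (v : M) (f : M →ₗ[Λ] Λ)
    (hf : f v = 1) (e : M ≃ₗ[Λ] (Fin n → Λ) × C) :
    ∃ e' : M ≃ₗ[Λ] (Fin n → Λ) × C, (∀ m, (e' m).2 = (e m).2) ∧
      ∃ g : (Fin n → Λ) →ₗ[Λ] Λ, g (e' v).1 = 1 := by
  let θ : C →ₗ[Λ] Λ := f ∘ₗ e.symm.toLinearMap ∘ₗ LinearMap.inr Λ (Fin n → Λ) C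
  let η : (Fin n → Λ) →ₗ[Λ] Λ := f ∘ₗ e.symm.toLinearMap ∘ₗ LinearMap.inl Λ (Fin n → Λ) C
  have h1 : η (e v).1 + θ (e v).2 = 1 := by
    change f (e.symm ((e v).1, 0)) + f (e.symm (0, (e v).2)) = 1
    rw [← map_add, ← map_add, Prod.mk_add_mk, add_zero, zero_add, Prod.mk.eta,
      LinearEquiv.symm_apply_apply, hf]
  have h2 : η (e v).1 = ∑ i, (e v).1 i * η (fun j => if i = j then 1 else 0) := by
    rw [LinearMap.pi_apply_eq_sum_univ]
    rfl
  rw [h2] at h1
  obtain ⟨t, b', hb⟩ := hS n hn _ _ _ h1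
  refine ⟨e.trans (VG_s1 ((LinearMap.toSpanSingleton Λ (Fin n → Λ) t) ∘ₗ θ)), fun m => rfl,
    Fintype.linearCombination Λ b', ?_⟩
  rw [Fintype.linearCombination_apply]
  exact hb

/-- **VG** -/
theorem thm_VG : St_VG := by
  intro Λ _ s n hS hn M C _ _ _ _ v f hf
  refine ⟨fun e => VG_1 n hS hn v f hf e, fun e => ?_⟩
  obtain ⟨e1, he1, g, hg⟩ := VG_1 (n + 1) hS (by omega) v f hf e
  set a := (e1 v).1 with ha
  rw [LinearMap.pi_apply_eq_sum_univ, Fin.sum_univ_castSucc] at hg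
  set b : Fin (n + 1) → Λ := fun i => g (fun j => if i = j then 1 else 0) with hb
  have h1 : ∑ i : Fin n, a i.castSucc * b i.castSucc + a (Fin.last n) * b (Fin.last n) = 1 := hg
  obtain ⟨t, b', hb'⟩ := hS n hn _ _ _ h1
  let S1 : ((Fin n → Λ) × (Λ × C)) ≃ₗ[Λ] (Fin n → Λ) × (Λ × C) :=
    VG_s1 ((LinearMap.toSpanSingleton Λ (Fin n → Λ) (fun i => b (Fin.last n) * t i)) ∘ₗ
      LinearMap.fst Λ Λ C)
  let S2 : ((Fin n → Λ) × (Λ × C)) ≃ₗ[Λ] (Fin n → Λ) × (Λ × C) :=
    VG_s2 (LinearMap.inl Λ Λ C ∘ₗ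
      Fintype.linearCombination Λ (fun i => b' i * (1 - a (Fin.last n))))
  refine ⟨((e1.trans (VG_sp n)).trans S1).trans S2, fun m => ?_, ?_⟩
  · rw [← he1 m]
    change (e1 m).2 + 0 = (e1 m).2
    rw [add_zero]
  · change a (Fin.last n) + Fintype.linearCombination Λ (fun i => b' i * (1 - a (Fin.last n)))
      (fun i => a i.castSucc + a (Fin.last n) * (b (Fin.last n) * t i)) = 1
    rw [Fintype.linearCombination_apply]
    have h2 : ∑ i, (a i.castSucc + a (Fin.last n) * (b (Fin.last n) * t i)) •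
        (b' i * (1 - a (Fin.last n))) = 1 - a (Fin.last n) := by
      have h3 : ∀ i, (a i.castSucc + a (Fin.last n) * (b (Fin.last n) * t i)) •
          (b' i * (1 - a (Fin.last n))) =
          ((a i.castSucc + a (Fin.last n) * b (Fin.last n) * t i) * b' i) *
            (1 - a (Fin.last n)) := fun i => by
        rw [smul_eq_mul, mul_assoc (a (Fin.last n)), mul_assoc]
      rw [Finset.sum_congr rfl fun i _ => h3 i, ← Finset.sum_mul, hb', one_mul]
    rw [h2]
    abel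

end Pool.Agent.SLZ
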