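import Pool.Agent.SLZ.StV2

/-!
# SLZ, VK: stable range implies that kernels of surjective maps are free
-/

set_option autoImplicit false

noncomputable section

namespace Pool.Agent.SLZ

/-- kernel of a functional on `X × A` -/
theorem VK_equiv {A X : Type} [CommRing A] [AddCommGroup X] [Module A X] (β u : X →ₗ[A] A) (b : A)
    (d : X) (hd : β d + b * u d = 1) (K : Submodule A (X × A))
    (hK : ∀ p, p ∈ K ↔ β p.1 + b * p.2 = 0) : Nonempty (K ≃ₗ[A] X) := by
  let F : K →ₗ[A] X :=
    { toFun := fun p => p.1.1 + ((1 - b) * (u p.1.1 - p.1.2)) • d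
      map_add' := fun p q => by
        simp only [Submodule.coe_add, Prod.fst_add, Prod.snd_add, map_add]
        module
      map_smul' := fun a p => by
        simp only [Submodule.coe_smul, Prod.smul_fst, Prod.smul_snd, map_smul, smul_eq_mul,
          RingHom.id_apply]
        module }
  have hmem : ∀ x : X, ((x - ((1 - b) * (β x + b * u x)) • d,
      -(β x + b * u x) + u (x - ((1 - b) * (β x + b * u x)) • d)) : X × A) ∈ K := by
    intro x
    rw [hK]
    simp only [map_sub, map_smul, smul_eq_mul]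
    linear_combination (-((1 - b) * (β x + b * u x))) * hd
  refine ⟨LinearEquiv.ofBijective F ⟨?_, ?_⟩⟩
  · rw [← LinearMap.ker_eq_bot, LinearMap.ker_eq_bot']
    rintro ⟨⟨x, y⟩, hp⟩ h0
    have h1 : x + ((1 - b) * (u x - y)) • d = 0 := h0
    have h2 : β x + b * y = 0 := (hK _).1 hp
    have h3 : x = -(((1 - b) * (u x - y)) • d) := eq_neg_of_add_eq_zero_left h1
    have h4 : β x = -((1 - b) * (u x - y)) * β d := by
      conv_lhs => rw [h3]
      simp
    have h5 : u x = -((1 - b) * (u x - y)) * u d := by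
      conv_lhs => rw [h3]
      simp
    have h6 : u x - y = 0 := by
      have h7 : β x + b * u x = -((1 - b) * (u x - y)) := by
        linear_combination h4 + b * h5 + (-((1 - b) * (u x - y))) * hd
      linear_combination h7 - h2
    have h8 : x = 0 := by rw [h3, h6]; simp
    have h9 : y = 0 := by rw [h8] at h6; simpa using h6
    simp [h8, h9]
  · intro x
    refine ⟨⟨_, hmem x⟩, ?_⟩
    show (x - ((1 - b) * (β x + b * u x)) • d) + ((1 - b) * (u (x - ((1 - b) * (β x + b * u x)) • d) -
      (-(β x + b * u x) + u (x - ((1 - b) * (β x + b * u x)) • d)))) • d = x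
    have h1 : (u (x - ((1 - b) * (β x + b * u x)) • d) -
      (-(β x + b * u x) + u (x - ((1 - b) * (β x + b * u x)) • d))) = β x + b * u x := by ring
    rw [h1]
    abel

/-- one functional -/
theorem VK_one {A : Type} [CommRing A] {s : ℕ} (hs : SR A s) (m : ℕ) (hm : s ≤ m) (M : Type)
    [AddCommGroup M] [Module A M] (e : M ≃ₗ[A] (Fin (m + 1) → A)) (f : M →ₗ[A] A)
    (hf : ∃ x, f x = 1) : Nonempty (LinearMap.ker f ≃ₗ[A] (Fin m → A)) := by
  obtain ⟨x, hx⟩ := hf
  let E : M ≃ₗ[A] (Fin m → A) × A := e.trans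
    ((Fin.consLinearEquiv A (fun _ : Fin (m + 1) => A)).symm.trans (LinearEquiv.prodComm A A (Fin m → A)))
  let g : ((Fin m → A) × A) →ₗ[A] A := f ∘ₗ E.symm.toLinearMap
  have hg : ∀ z y, g (z, y) = g (z, 0) + g (0, 1) * y := by
    intro z y
    have : ((z, y) : (Fin m → A) × A) = (z, 0) + y • (0, 1) := by simp
    rw [this, map_add, map_smul, smul_eq_mul, mul_comm]
  let β : (Fin m → A) →ₗ[A] A := g ∘ₗ LinearMap.inl A (Fin m → A) A
  have hβ : ∀ z : Fin m → A, β z = ∑ i, β (fun j => if i = j then 1 else 0) * z i := by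
    intro z
    rw [LinearMap.pi_apply_eq_sum_univ β z]
    exact Finset.sum_congr rfl fun i _ => by rw [smul_eq_mul, mul_comm]
  have h1 : β (E x).1 + g (0, 1) * (E x).2 = 1 := by
    have : g ((E x).1, (E x).2) = 1 := by
      show f (E.symm (E x)) = 1
      rw [E.symm_apply_apply, hx]
    rw [hg] at this
    exact this
  obtain ⟨t, d, htd⟩ := hs m hm (fun i => β (fun j => if i = j then 1 else 0)) (E x).1
    (g (0, 1) * (E x).2) (by rw [← hβ]; exact h1)
  let u : (Fin m → A) →ₗ[A] A := (E x).2 • ∑ i, t i • LinearMap.proj i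
  have hu : ∀ z, u z = (E x).2 * ∑ i, t i * z i := by
    intro z
    simp only [u, LinearMap.smul_apply, LinearMap.sum_apply, LinearMap.proj_apply, smul_eq_mul]
  have hd : β d + g (0, 1) * u d = 1 := by
    rw [hβ, hu, Finset.mul_sum, Finset.mul_sum, ← Finset.sum_add_distrib]
    exact (Finset.sum_congr rfl fun i _ => by ring).trans htd
  obtain ⟨e2⟩ := VK_equiv β u (g (0, 1)) d hd ((LinearMap.ker f).map E.toLinearMap) (by
    intro p
    have h2 : p ∈ (LinearMap.ker f).map E.toLinearMap ↔ E.symm p ∈ LinearMap.ker f :=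
      Submodule.mem_map_equiv _
    rw [h2, LinearMap.mem_ker]
    have h3 : f (E.symm p) = g (p.1, p.2) := rfl
    rw [h3, hg]
    rfl)
  exact ⟨(E.submoduleMap (LinearMap.ker f)).trans e2⟩

/-- several functionals -/
theorem VK_many {A : Type} [CommRing A] {s : ℕ} (hs : SR A s) (q : ℕ) : ∀ (n : ℕ) (M : Type)
    [AddCommGroup M] [Module A M] (_ : M ≃ₗ[A] (Fin n → A)) (f : Fin q → (M →ₗ[A] A)),
    (∀ a : Fin q → A, ∃ x, ∀ i, f i x = a i) → q + s ≤ n → ∀ K : Submodule A M,
    (∀ x, x ∈ K ↔ ∀ i, f i x = 0) → Nonempty (K ≃ₗ[A] (Fin (n - q) → A)) := by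
  induction q with
  | zero =>
    intro n M _ _ e f _ _ K hK
    have hT : K = ⊤ := by
      rw [eq_top_iff]
      intro x _
      exact (hK x).2 fun i => i.elim0
    subst hT
    exact ⟨Submodule.topEquiv.trans e⟩
  | succ q ih =>
    intro n M _ _ e f hf hn K hK
    obtain ⟨m, rfl⟩ : ∃ m, n = m + 1 := ⟨n - 1, by omega⟩
    obtain ⟨e0⟩ := VK_one hs m (by omega) M e (f 0) (by
      obtain ⟨x, hx⟩ := hf (fun _ => 1)
      exact ⟨x, hx 0⟩)
    have hle : K ≤ LinearMap.ker (f 0) := fun x hx => (hK x).1 hx 0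
    obtain ⟨e1⟩ := ih m (LinearMap.ker (f 0)) e0
      (fun i => f i.succ ∘ₗ (LinearMap.ker (f 0)).subtype) (by
        intro a
        obtain ⟨x, hx⟩ := hf (Fin.cons 0 a)
        refine ⟨⟨x, ?_⟩, fun i => ?_⟩
        · rw [LinearMap.mem_ker, hx 0, Fin.cons_zero]
        · have := hx i.succ
          rw [Fin.cons_succ] at this
          exact this) (by omega) (K.comap (LinearMap.ker (f 0)).subtype) (by
        rintro ⟨x, hx⟩
        have h1 : (⟨x, hx⟩ : LinearMap.ker (f 0)) ∈ K.comap (LinearMap.ker (f 0)).subtype ↔ x ∈ K :=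
          Iff.rfl
        rw [h1, hK]
        constructor
        · intro h i
          exact h i.succ
        · intro h i
          refine Fin.cases ?_ (fun j => ?_) i
          · exact hx
          · exact h j)
    have hmq : m + 1 - (q + 1) = m - q := by omega
    rw [hmq]
    exact ⟨(Submodule.comapSubtypeEquivOfLe hle).symm.trans e1⟩

theorem thm_VK : St_VK := by
  intro A _ s hs n q f hf hn
  obtain ⟨e⟩ := VK_many hs q n (Fin n → A) (LinearEquiv.refl A _)
    (fun i => LinearMap.proj i ∘ₗ f) (by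
      intro a
      obtain ⟨x, hx⟩ := hf a
      exact ⟨x, fun i => by simp [hx]⟩) hn (LinearMap.ker f) (by
      intro x
      rw [LinearMap.mem_ker]
      constructor
      · intro h i
        simp [h]
      · intro h
        funext i
        exact h i)
  exact ⟨Module.Basis.ofEquivFun e⟩

end Pool.Agent.SLZ
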