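import Pool.Agent.SLZ.StV2

/-!
# SLZ, module VM (helper47): the endomorphism ring of `A^m` has stable rank `≤ 2` for `m ≥ s - 1`
-/

set_option autoImplicit false
set_option linter.unusedVariables false

noncomputable section

namespace Pool.Agent.SLZ

section

variable {A : Type} [CommRing A]

/-- a linear map on `A^m` in coordinates -/
theorem VM_exp {m : ℕ} {M : Type} [AddCommGroup M] [Module A M] (f : (Fin m → A) →ₗ[A] M)
    (x : Fin m → A) : f x = ∑ j, x j • f (Pi.single j 1) := by
  have h1 : x = ∑ j, x j • (Pi.single j 1 : Fin m → A) := by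
    funext k
    rw [Finset.sum_apply, Finset.sum_eq_single k]
    · rw [Pi.smul_apply, Pi.single_eq_same, smul_eq_mul, mul_one]
    · intro j _ hjk
      rw [Pi.smul_apply, Pi.single_eq_of_ne (Ne.symm hjk), smul_zero]
    · intro hk
      exact absurd (Finset.mem_univ k) hk
  calc f x = f (∑ j, x j • (Pi.single j 1 : Fin m → A)) := by rw [← h1]
    _ = _ := by
      rw [map_sum]
      exact Finset.sum_congr rfl fun j _ => by rw [map_smul]

end

/-- **VM.** The endomorphism ring of `A^m` has stable rank `≤ 2` for `m ≥ s - 1`. -/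
theorem thm_VM (hU : St_VU) : St_VM := by
  classical
  intro A _ s m hS hsm n hn a b c h
  let σ : Fin n × Fin m ≃ Fin (n * m) := finProdFinEquiv
  have hN : m + s ≤ n * m + 1 := by
    have h1 : 2 * m ≤ n * m := Nat.mul_le_mul_right m hn
    omega
  -- the identity in coordinates
  have hid : ∀ k l : Fin m, ∑ i, ∑ j, (b i (Pi.single k 1)) j * (a i (Pi.single j 1)) l +
      (c (Pi.single k 1)) l = if k = l then 1 else 0 := by
    intro k l
    have h1 := congrArg (fun f : Module.End A (Fin m → A) => f (Pi.single k 1) l) h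
    have h2 : ((∑ i, a i * b i + c : Module.End A (Fin m → A)) (Pi.single k 1)) l =
        ∑ i, (a i (b i (Pi.single k 1))) l + (c (Pi.single k 1)) l := by
      rw [LinearMap.add_apply, Pi.add_apply, LinearMap.sum_apply, Finset.sum_apply]
      rfl
    have h3 : ((1 : Module.End A (Fin m → A)) (Pi.single k 1)) l = if k = l then 1 else 0 := by
      show (Pi.single k (1 : A) : Fin m → A) l = _
      by_cases hkl : k = l
      · subst hkl
        rw [Pi.single_eq_same, if_pos rfl]
      · rw [Pi.single_eq_of_ne (Ne.symm hkl), if_neg hkl]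
    have h4 : ((∑ i, a i * b i + c : Module.End A (Fin m → A)) (Pi.single k 1)) l =
      ((1 : Module.End A (Fin m → A)) (Pi.single k 1)) l := h1
    rw [h2, h3] at h4
    rw [← h4]
    congr 1
    refine Finset.sum_congr rfl fun i _ => ?_
    rw [VM_exp (a i) (b i (Pi.single k 1)), Finset.sum_apply]
    rfl
  let v : Fin m → (Fin (n * m) → A) × (Fin m → A) := fun k =>
    (fun p => (a (σ.symm p).1 (Pi.single (σ.symm p).2 1)) k, fun j => (c (Pi.single j 1)) k)
  let φ : Fin m → (((Fin (n * m) → A) × (Fin m → A)) →ₗ[A] A) := fun k =>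
    (∑ p, ((b (σ.symm p).1 (Pi.single k 1)) (σ.symm p).2) •
      (LinearMap.proj p : (Fin (n * m) → A) →ₗ[A] A)) ∘ₗ LinearMap.fst A _ _ +
    (LinearMap.proj k : (Fin m → A) →ₗ[A] A) ∘ₗ LinearMap.snd A _ _
  have hφ : ∀ k l, φ k (v l) = if k = l then 1 else 0 := by
    intro k l
    rw [← hid k l]
    have h1 : φ k (v l) = ∑ p, (b (σ.symm p).1 (Pi.single k 1)) (σ.symm p).2 *
        (a (σ.symm p).1 (Pi.single (σ.symm p).2 1)) l + (c (Pi.single k 1)) l := by
      show (∑ p, ((b (σ.symm p).1 (Pi.single k 1)) (σ.symm p).2) •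
        (LinearMap.proj p : (Fin (n * m) → A) →ₗ[A] A)) (v l).1 + (c (Pi.single k 1)) l = _
      rw [LinearMap.sum_apply]
      rfl
    rw [h1]
    congr 1
    rw [← Fintype.sum_prod_type' (f := fun i j => (b i (Pi.single k 1)) j * (a i (Pi.single j 1)) l)]
    exact Equiv.sum_comp σ.symm (fun q : Fin n × Fin m =>
      (b q.1 (Pi.single k 1)) q.2 * (a q.1 (Pi.single q.2 1)) l)
  obtain ⟨t, ψ, hψ⟩ := hU A s hS m (n * m) hN (Fin m → A) v φ hφ
  let T : Fin n → Module.End A (Fin m → A) := fun i => LinearMap.pi fun l =>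
    ∑ j, ((t (Pi.single l 1)) (σ (i, j))) • (LinearMap.proj j : (Fin m → A) →ₗ[A] A)
  let B : Fin n → Module.End A (Fin m → A) := fun i => LinearMap.pi fun j =>
    ∑ k, (ψ k (Pi.single (σ (i, j)) 1)) • (LinearMap.proj k : (Fin m → A) →ₗ[A] A)
  have hT : ∀ i j l, (T i (Pi.single j 1)) l = (t (Pi.single l 1)) (σ (i, j)) := by
    intro i j l
    show (∑ j', ((t (Pi.single l 1)) (σ (i, j'))) • (LinearMap.proj j' : (Fin m → A) →ₗ[A] A))
      (Pi.single j 1) = _
    rw [LinearMap.sum_apply, Finset.sum_eq_single j]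
    · show (t (Pi.single l 1)) (σ (i, j)) * (Pi.single j (1 : A) : Fin m → A) j = _
      rw [Pi.single_eq_same, mul_one]
    · intro j' _ hj
      show (t (Pi.single l 1)) (σ (i, j')) * (Pi.single j (1 : A) : Fin m → A) j' = 0
      rw [Pi.single_eq_of_ne hj, mul_zero]
    · intro hj
      exact absurd (Finset.mem_univ j) hj
  have hB : ∀ i k j, (B i (Pi.single k 1)) j = ψ k (Pi.single (σ (i, j)) 1) := by
    intro i k j
    show (∑ k', (ψ k' (Pi.single (σ (i, j)) 1)) • (LinearMap.proj k' : (Fin m → A) →ₗ[A] A))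
      (Pi.single k 1) = _
    rw [LinearMap.sum_apply, Finset.sum_eq_single k]
    · show ψ k (Pi.single (σ (i, j)) 1) * (Pi.single k (1 : A) : Fin m → A) k = _
      rw [Pi.single_eq_same, mul_one]
    · intro k' _ hk
      show ψ k' (Pi.single (σ (i, j)) 1) * (Pi.single k (1 : A) : Fin m → A) k' = 0
      rw [Pi.single_eq_of_ne hk, mul_zero]
    · intro hk
      exact absurd (Finset.mem_univ k) hk
  -- the coordinates of `a i + c t_i`
  have hab : ∀ i j k, ((a i + c * T i) (Pi.single j 1)) k =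
      ((v k).1 + t (v k).2) (σ (i, j)) := by
    intro i j k
    show (a i (Pi.single j 1)) k + (c (T i (Pi.single j 1))) k =
      (a (σ.symm (σ (i, j))).1 (Pi.single (σ.symm (σ (i, j))).2 1)) k + (t (v k).2) (σ (i, j))
    rw [Equiv.symm_apply_apply]
    congr 1
    rw [VM_exp c (T i (Pi.single j 1)), VM_exp t (v k).2, Finset.sum_apply, Finset.sum_apply]
    refine Finset.sum_congr rfl fun l _ => ?_
    show (T i (Pi.single j 1)) l * (c (Pi.single l 1)) k =
      (c (Pi.single l 1)) k * (t (Pi.single l 1)) (σ (i, j))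
    rw [hT, mul_comm]
  refine ⟨T, B, ?_⟩
  refine LinearMap.pi_ext' fun k => LinearMap.ext_ring ?_
  funext l
  show ((∑ i, (a i + c * T i) * B i : Module.End A (Fin m → A)) (Pi.single k 1)) l =
    (Pi.single k (1 : A) : Fin m → A) l
  have h1 : ((∑ i, (a i + c * T i) * B i : Module.End A (Fin m → A)) (Pi.single k 1)) l =
      ∑ i, ∑ j, ((v l).1 + t (v l).2) (σ (i, j)) * ψ k (Pi.single (σ (i, j)) 1) := by
    rw [LinearMap.sum_apply, Finset.sum_apply]
    refine Finset.sum_congr rfl fun i _ => ?_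
    show ((a i + c * T i) (B i (Pi.single k 1))) l = _
    rw [VM_exp (a i + c * T i) (B i (Pi.single k 1)), Finset.sum_apply]
    refine Finset.sum_congr rfl fun j _ => ?_
    show (B i (Pi.single k 1)) j * ((a i + c * T i) (Pi.single j 1)) l = _
    rw [hB, hab, mul_comm]
  have h2 : ψ k ((v l).1 + t (v l).2) =
      ∑ i, ∑ j, ((v l).1 + t (v l).2) (σ (i, j)) * ψ k (Pi.single (σ (i, j)) 1) := by
    rw [VM_exp (ψ k) ((v l).1 + t (v l).2),
      ← Fintype.sum_prod_type' (f := fun i j =>
        ((v l).1 + t (v l).2) (σ (i, j)) * ψ k (Pi.single (σ (i, j)) 1))]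
    exact (Equiv.sum_comp σ (fun p : Fin (n * m) =>
      ((v l).1 + t (v l).2) p • ψ k (Pi.single p 1))).symm
  rw [h1, ← h2, hψ]
  by_cases hkl : k = l
  · subst hkl
    rw [Pi.single_eq_same, if_pos rfl]
  · rw [Pi.single_eq_of_ne (Ne.symm hkl), if_neg hkl]

end Pool.Agent.SLZ
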