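import Pool.Agent.SLZ.StV
import Pool.Agent.SLZ.MA

/-!
# SLZ, VP: pushing chains into a full subcomplex (helper97)
-/

set_option autoImplicit false
set_option linter.unusedVariables false

noncomputable section

namespace Pool.Agent.SLZ

open Classical

variable {V : Type}

theorem VP_ext {A B : Cx V} (h : A.s = B.s) : A = B := by
  cases A
  cases B
  cases h
  rfl

/-- the lists which form a list of `A` together with `σ` -/
def VP_at (A : Cx V) (σ : List V) : Cx V where
  s := {l | σ ++ l ∈ A.s}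
  mono l l' h hl := A.mono _ _ (List.append_subset.2 ⟨List.subset_append_left _ _,
    fun v hv => List.mem_append_right _ (h hv)⟩) hl

theorem VP_lkX (A : Cx V) (X : Set V) (σ τ : List V) :
    lkX (VP_at A σ) X τ = lkX A X (σ ++ τ) := by
  apply VP_ext
  ext l
  change σ ++ (τ ++ l) ∈ A.s ∧ _ ↔ (σ ++ τ) ++ l ∈ A.s ∧ _
  rw [List.append_assoc]

theorem VP_rs (A : Cx V) (X : Set V) (σ : List V) : rs (VP_at A σ) X = lkX A X σ := VP_ext rfl

theorem VP_lk (A : Cx V) (S : Set V) (v : V) (hv : v ∉ S) :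
    lk (rs A (insert v S)) v = rs (VP_at A [v]) S := by
  apply VP_ext
  ext l
  constructor
  · rintro ⟨h1, h2, h3⟩
    refine ⟨h2, fun u hu => ?_⟩
    rcases h3 u (List.mem_cons_of_mem v hu) with h | h
    · exact absurd (h ▸ hu) h1
    · exact h
  · rintro ⟨h1, h2⟩
    refine ⟨fun h => hv (h2 v h), h1, fun u hu => ?_⟩
    rcases List.mem_cons.1 hu with h | h
    · exact Or.inl h
    · exact Or.inr (h2 u h)

theorem VP_del (A : Cx V) (S : Set V) (v : V) (hv : v ∉ S) :
    del (rs A (insert v S)) v = rs A S := by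
  apply VP_ext
  ext l
  constructor
  · rintro ⟨h1, h2, h3⟩
    refine ⟨h2, fun u hu => ?_⟩
    rcases h3 u hu with h | h
    · exact absurd (h ▸ hu) h1
    · exact h
  · rintro ⟨h1, h2⟩
    exact ⟨fun h => hv (h2 v h), h1, fun u hu => Or.inr (h2 u hu)⟩

theorem VP_union (X : Set V) (F : Finset V) (v : V) :
    X ∪ ((insert v F : Finset V) : Set V) = insert v (X ∪ (F : Set V)) := by
  ext u
  simp only [Finset.coe_insert, Set.mem_union, Set.mem_insert_iff]
  tauto

theorem VP_rsmono (A : Cx V) {S T : Set V} (h : S ⊆ T) {j : ℕ} {c : List V →₀ ℤ}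
    (hc : c ∈ Ch (rs A S).s j) : c ∈ Ch (rs A T).s j :=
  MA_mono hc fun l hl => ⟨hl.1, fun v hv => h (hl.2 v hv)⟩

theorem VP_step (A : Cx V) (S : Set V) (v : V) (hv : v ∉ S) (c : ℕ) (h1 : Conn (rs A S) c)
    (h2 : Conn (rs (VP_at A [v]) S) (c - 1)) : Conn (rs A (insert v S)) c := by
  intro j hj
  have hS : S ⊆ insert v S := Set.subset_insert v S
  rcases j with _ | j
  · intro z hz hz0
    have hz' : z ∈ Ch (rs A S).s 0 := by
      rw [MA_mem]
      intro l hl
      obtain ⟨h3, h4⟩ := MA_mem.1 hz l hl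
      refine ⟨⟨h3.1, fun u hu => ?_⟩, h4⟩
      rw [List.length_eq_zero_iff] at h4
      rw [h4] at hu
      exact absurd hu List.not_mem_nil
    obtain ⟨y, hy, hyz⟩ := h1 0 hj z hz' hz0
    exact ⟨y, VP_rsmono A hS hy, hyz⟩
  · intro z hz hz0
    have hE : Ex (lk (rs A (insert v S)) v) j := by
      rw [VP_lk A S v hv]
      exact h2 j (by omega)
    obtain ⟨c', hc', e, he, hze⟩ := MA_5 (rs A (insert v S)) v j hE z hz (by
      rw [hz0]
      exact Submodule.zero_mem _)
    rw [VP_del A S v hv] at hc'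
    have hc0 : bd c' = 0 := by
      have h3 := congrArg bd hze
      rw [hz0, map_add, MA_1, add_zero] at h3
      exact h3.symm
    obtain ⟨y, hy, hyz⟩ := h1 (j + 1) hj c' hc' hc0
    exact ⟨y + e, Submodule.add_mem _ (VP_rsmono A hS hy) he, by rw [map_add, hyz, hze]⟩

/-- (LIF) -/
theorem VP_LIF (X : Set V) (F : Finset V) : ∀ (A : Cx V) (c : ℕ), (∀ v ∈ F, v ∉ X) →
    (∀ σ : List V, σ.Nodup → (∀ v ∈ σ, v ∈ F) → Conn (lkX A X σ) (c - σ.length)) →
    Conn (rs A (X ∪ (F : Set V))) c := by
  induction F using Finset.induction_on with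
  | empty =>
    intro A c _ h
    have h1 : rs A (X ∪ ((∅ : Finset V) : Set V)) = lkX A X [] := by
      rw [Finset.coe_empty, Set.union_empty]
      exact VP_ext rfl
    rw [h1]
    exact h [] List.nodup_nil fun v hv => absurd hv List.not_mem_nil
  | insert v F hv ih =>
    intro A c hF h
    rw [VP_union]
    refine VP_step A _ v ?_ c ?_ ?_
    · rintro (h1 | h1)
      · exact hF v (Finset.mem_insert_self v F) h1
      · exact hv h1
    · exact ih A c (fun u hu => hF u (Finset.mem_insert_of_mem hu)) fun σ hσ hσF =>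
        h σ hσ fun u hu => Finset.mem_insert_of_mem (hσF u hu)
    · refine ih (VP_at A [v]) (c - 1) (fun u hu => hF u (Finset.mem_insert_of_mem hu)) ?_
      intro τ hτ hτF
      rw [VP_lkX]
      have h1 := h (v :: τ) (List.nodup_cons.2 ⟨fun hvτ => hv (hτF v hvτ), hτ⟩) (by
        intro u hu
        rcases List.mem_cons.1 hu with rfl | hu
        · exact Finset.mem_insert_self _ _
        · exact Finset.mem_insert_of_mem (hτF u hu))
      intro j hj
      refine h1 j ?_
      rw [List.length_cons]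
      omega

/-- the vertices outside of `X` -/
def VP_F (y : List V →₀ ℤ) (X : Set V) : Finset V :=
  (y.support.biUnion fun l => l.toFinset).filter fun v => v ∉ X

theorem VP_memF (y : List V →₀ ℤ) (X : Set V) (v : V) (hv : v ∈ VP_F y X) : v ∉ X :=
  (Finset.mem_filter.1 hv).2

theorem VP_ch (A : Cx V) (X : Set V) {j : ℕ} {y : List V →₀ ℤ} (hy : y ∈ Ch A.s j) :
    y ∈ Ch (rs A (X ∪ (VP_F y X : Set V))).s j := by
  rw [MA_mem]
  intro l hl
  obtain ⟨h1, h2⟩ := MA_mem.1 hy l hl
  refine ⟨⟨h1, fun v hv => ?_⟩, h2⟩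
  by_cases h3 : v ∈ X
  · exact Or.inl h3
  · refine Or.inr ?_
    rw [Finset.mem_coe, VP_F, Finset.mem_filter, Finset.mem_biUnion]
    exact ⟨⟨l, hl, List.mem_toFinset.2 hv⟩, h3⟩

/-- (1), finite version -/
theorem VP_PUF (X : Set V) (j : ℕ) (F : Finset V) (A : Cx V) (hF : ∀ v ∈ F, v ∉ X)
    (h : ∀ σ : List V, σ ≠ [] → σ.Nodup → (∀ v ∈ σ, v ∈ F) →
      Conn (lkX A X σ) (j + 1 - σ.length)) :
    ∀ y ∈ Ch (rs A (X ∪ (F : Set V))).s j, (∀ l ∈ (bd y).support, ∀ v ∈ l, v ∈ X) →
      ∃ y' ∈ Ch (rs A X).s j, ∃ e ∈ Ch (rs A (X ∪ (F : Set V))).s (j + 1), y = y' + bd e := by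
  rcases j with _ | j
  · intro y hy _
    refine ⟨y, ?_, 0, Submodule.zero_mem _, by rw [map_zero, add_zero]⟩
    rw [MA_mem]
    intro l hl
    obtain ⟨h3, h4⟩ := MA_mem.1 hy l hl
    refine ⟨⟨h3.1, fun u hu => ?_⟩, h4⟩
    rw [List.length_eq_zero_iff] at h4
    rw [h4] at hu
    exact absurd hu List.not_mem_nil
  · induction F using Finset.induction_on with
    | empty =>
      intro y hy _
      refine ⟨y, ?_, 0, Submodule.zero_mem _, by rw [map_zero, add_zero]⟩
      rw [Finset.coe_empty, Set.union_empty] at hy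
      exact hy
    | insert v F hv ih =>
      intro y hy hby
      have hvS : v ∉ X ∪ (F : Set V) := by
        rintro (h1 | h1)
        · exact hF v (Finset.mem_insert_self v F) h1
        · exact hv h1
      rw [VP_union] at hy ⊢
      have hS : X ∪ (F : Set V) ⊆ insert v (X ∪ (F : Set V)) := Set.subset_insert _ _
      have hE : Ex (lk (rs A (insert v (X ∪ (F : Set V)))) v) j := by
        rw [VP_lk A _ v hvS]
        refine VP_LIF X F (VP_at A [v]) (j + 1)
          (fun u hu => hF u (Finset.mem_insert_of_mem hu)) ?_ j (by omega)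
        intro τ hτ hτF
        rw [VP_lkX]
        have h1 := h (v :: τ) (by simp) (List.nodup_cons.2 ⟨fun hvτ => hv (hτF v hvτ), hτ⟩) (by
          intro u hu
          rcases List.mem_cons.1 hu with rfl | hu
          · exact Finset.mem_insert_self _ _
          · exact Finset.mem_insert_of_mem (hτF u hu))
        intro i hi
        refine h1 i ?_
        rw [List.length_cons]
        omega
      obtain ⟨c', hc', e, he, hye⟩ := MA_5 (rs A (insert v (X ∪ (F : Set V)))) v j hE y hy (by
        rw [VP_del A _ v hvS, MA_mem]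
        intro l hl
        obtain ⟨h3, h4⟩ := MA_mem.1 (MA_3b (rs A (insert v (X ∪ (F : Set V)))) j y hy) l hl
        exact ⟨⟨h3.1, fun u hu => Or.inl (hby l hl u hu)⟩, h4⟩)
      rw [VP_del A _ v hvS] at hc'
      have hbc : bd c' = bd y := by rw [hye, map_add, MA_1, add_zero]
      obtain ⟨y', hy', e', he', hce⟩ := ih (fun u hu => hF u (Finset.mem_insert_of_mem hu))
        (fun σ h1 h2 h3 => h σ h1 h2 fun u hu => Finset.mem_insert_of_mem (h3 u hu)) c' hc'
        (by rw [hbc]; exact hby)
      refine ⟨y', hy', e' + e, Submodule.add_mem _ (VP_rsmono A hS he') he, ?_⟩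
      rw [hye, hce, map_add, add_assoc]

theorem VP_2 (A : Cx V) (X : Set V) (c : ℕ)
    (h : ∀ σ : List V, σ.Nodup → (∀ v ∈ σ, v ∉ X) → Conn (lkX A X σ) (c - σ.length)) :
    Conn A c := by
  intro j hj z hz hz0
  obtain ⟨y, hy, hyz⟩ := VP_LIF X (VP_F z X) A c (VP_memF z X)
    (fun σ h1 h2 => h σ h1 fun v hv => VP_memF z X v (h2 v hv)) j hj z (VP_ch A X hz) hz0
  exact ⟨y, MA_mono hy fun l hl => hl.1, hyz⟩

theorem VP_3 (A : Cx V) (X : Set V) (c : ℕ) (y : V) (hy : ∀ l ∈ (rs A X).s, (y :: l) ∈ A.s)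
    (h : ∀ σ : List V, σ ≠ [] → σ.Nodup → (∀ v ∈ σ, v ∉ X) →
      Conn (lkX A X σ) (c - σ.length)) : Conn A c := by
  by_cases hyX : y ∈ X
  · refine VP_2 A X c fun σ h1 h2 => ?_
    by_cases h3 : σ = []
    · subst h3
      intro j _
      refine MA_6 (lkX A X []) y ?_ j
      intro l hl
      refine ⟨hy l hl, fun v hv => ?_⟩
      rcases List.mem_cons.1 hv with h4 | h4
      · rw [h4]
        exact hyX
      · exact hl.2 v h4
    · exact h σ h3 h1 h2
  · refine VP_2 A (insert y X) c fun σ h1 h2 => ?_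
    by_cases h3 : σ = []
    · subst h3
      intro j _
      refine MA_6 (lkX A (insert y X) []) y ?_ j
      intro l hl
      have h4 : l.filter (fun u => u ≠ y) ∈ (rs A X).s := by
        refine ⟨A.mono l _ (List.filter_subset_self l) hl.1, fun v hv => ?_⟩
        obtain ⟨h5, h6⟩ := List.mem_filter.1 hv
        rcases hl.2 v h5 with h7 | h7
        · exact absurd h7 (by simpa using h6)
        · exact h7
      refine ⟨A.mono (y :: l.filter (fun u => u ≠ y)) _ ?_ (hy _ h4), fun v hv => ?_⟩
      · intro u hu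
        change u ∈ y :: l at hu
        by_cases h8 : u = y
        · rw [h8]
          exact List.mem_cons_self
        · rcases List.mem_cons.1 hu with h9 | h9
          · exact absurd h9 h8
          · exact List.mem_cons_of_mem _ (List.mem_filter.2 ⟨h9, by simpa using h8⟩)
      · rcases List.mem_cons.1 hv with h4 | h4
        · exact Or.inl h4
        · exact hl.2 v h4
    · have h5 := VP_LIF X {y} (VP_at A σ) (c - σ.length)
        (fun v hv => by rw [Finset.mem_singleton.1 hv]; exact hyX) (by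
        intro τ hτ hτy
        rw [VP_lkX]
        have h6 := h (σ ++ τ) (by simp [h3]) (by
          rw [List.nodup_append']
          refine ⟨h1, hτ, fun u hu hu' => ?_⟩
          refine h2 u hu (Or.inl ?_)
          exact Finset.mem_singleton.1 (hτy u hu')) (by
          intro u hu
          rcases List.mem_append.1 hu with h7 | h7
          · exact fun h8 => h2 u h7 (Or.inr h8)
          · rw [Finset.mem_singleton.1 (hτy u h7)]
            exact hyX)
        intro j hj
        refine h6 j ?_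
        rw [List.length_append]
        omega)
      have h6 : rs (VP_at A σ) (X ∪ (({y} : Finset V) : Set V)) = lkX A (insert y X) σ := by
        rw [VP_rs]
        congr 1
        ext u
        simp only [Finset.coe_singleton, Set.mem_union, Set.mem_singleton_iff,
          Set.mem_insert_iff]
        tauto
      rw [← h6]
      exact h5

theorem VP_4 (A : Cx V) (X : Set V) (c : ℕ) (hA : Ex A c)
    (h2 : ∀ σ : List V, 2 ≤ σ.length → σ.Nodup → (∀ v ∈ σ, v ∉ X) →
      Conn (lkX A X σ) (c + 2 - σ.length))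
    (hv : ∀ v, v ∉ X → ∀ w ∈ Ch (lkX A X [v]).s c, bd w = 0 →
      ∃ g ∈ Ch (rs A X).s (c + 1), bd g = w) : Ex (rs A X) c := by
  have claim : ∀ F : Finset V, (∀ v ∈ F, v ∉ X) →
      ∀ y ∈ Ch (rs A (X ∪ (F : Set V))).s (c + 1), (∀ l ∈ (bd y).support, ∀ v ∈ l, v ∈ X) →
      ∃ y' ∈ Ch (rs A X).s (c + 1), bd y' = bd y := by
    intro F
    induction F using Finset.induction_on with
    | empty =>
      intro _ y hy _
      rw [Finset.coe_empty, Set.union_empty] at hy
      exact ⟨y, hy, rfl⟩
    | insert v F hvF ih =>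
      intro hF y hy hby
      have hvS : v ∉ X ∪ (F : Set V) := by
        rintro (h1 | h1)
        · exact hF v (Finset.mem_insert_self v F) h1
        · exact hvF h1
      rw [VP_union] at hy
      set S : Set V := X ∪ (F : Set V) with hSdef
      obtain ⟨c1, hc1⟩ : ∃ c1, c1 = y.filter (fun l => v ∈ l) := ⟨_, rfl⟩
      obtain ⟨c0, hc0⟩ : ∃ c0, c0 = y.filter (fun l => ¬ v ∈ l) := ⟨_, rfl⟩
      have hyy : y = c1 + c0 := by rw [hc1, hc0, Finsupp.filter_pos_add_filter_neg]
      have m0 : c0 ∈ Ch (rs A S).s (c + 1) := by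
        rw [← VP_del A S v hvS, hc0]
        exact MA_filter (del (rs A (insert v S)) v).s (fun l => ¬ v ∈ l) hy
          fun l h1 h2 => ⟨h2, h1⟩
      have m1 : c1 ∈ Ch {l | v ∈ l ∧ l ∈ (rs A (insert v S)).s} (c + 1) := by
        rw [hc1]
        exact MA_filter {l | v ∈ l ∧ l ∈ (rs A (insert v S)).s} (fun l => v ∈ l) hy
          fun l h1 h2 => ⟨h2, h1⟩
      have b1 : bd c1 ∈ Ch (rs A S).s c := by
        have h1 : bd c1 = bd y - bd c0 := by
          rw [hyy, map_add, add_sub_cancel_right]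
        rw [h1]
        refine Submodule.sub_mem _ ?_ (MA_3b (rs A S) c c0 m0)
        rw [MA_mem]
        intro l hl
        obtain ⟨h3, h4⟩ := MA_mem.1 (MA_3b (rs A (insert v S)) c y hy) l hl
        exact ⟨⟨h3.1, fun u hu => Or.inl (hby l hl u hu)⟩, h4⟩
      have b2 : bd c1 ∈ Ch {l | (v :: l) ∈ A.s} c :=
        MA_bdCh m1 fun l hl l' hl' => by
          obtain ⟨⟨h1, h2⟩, -⟩ := MA_mem.1 m1 l hl
          exact A.mono l (v :: l') (List.cons_subset.2 ⟨h1, hl'⟩) h2.1
      have b3 : bd c1 ∈ Ch (rs (VP_at A [v]) S).s c := by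
        rw [MA_mem]
        intro l hl
        obtain ⟨h1, h2⟩ := MA_mem.1 b1 l hl
        exact ⟨⟨(MA_mem.1 b2 l hl).1, h1.2⟩, h2⟩
      obtain ⟨b', hb', e, he, hbe⟩ := VP_PUF X c F (VP_at A [v])
        (fun u hu => hF u (Finset.mem_insert_of_mem hu)) (by
          intro τ hτ0 hτ hτF
          rw [VP_lkX]
          have h3 := h2 (v :: τ) (by
            rw [List.length_cons]
            have := List.length_pos_iff.2 hτ0
            omega) (List.nodup_cons.2 ⟨fun hvτ => hvF (hτF v hvτ), hτ⟩) (by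
            intro u hu
            rcases List.mem_cons.1 hu with rfl | hu
            · exact hF _ (Finset.mem_insert_self _ _)
            · exact hF u (Finset.mem_insert_of_mem (hτF u hu)))
          intro i hi
          refine h3 i ?_
          rw [List.length_cons]
          omega) (bd c1) b3 (by
          rw [MA_1]
          intro l hl
          simp at hl)
      have hb0 : bd b' = 0 := by
        have h3 := congrArg bd hbe
        rw [MA_1, map_add, MA_1, add_zero] at h3
        exact h3.symm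
      obtain ⟨g, hg, hgb⟩ := hv v (hF v (Finset.mem_insert_self v F)) b' hb' hb0
      obtain ⟨y', hy', hyy'⟩ := ih (fun u hu => hF u (Finset.mem_insert_of_mem hu))
        (c0 + e + g) (Submodule.add_mem _ (Submodule.add_mem _ m0
          (MA_mono he fun l hl => ⟨A.mono _ _ (List.subset_append_right _ _) hl.1, hl.2⟩))
          (VP_rsmono A Set.subset_union_left hg)) (by
          have h4 : bd (c0 + e + g) = bd y := by
            rw [map_add, map_add, hgb, hyy, map_add, hbe]
            abel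
          rw [h4]
          exact hby)
      refine ⟨y', hy', ?_⟩
      rw [hyy', map_add, map_add, hgb, hyy, map_add, hbe]
      abel
  intro z hz hz0
  obtain ⟨y, hy, hyz⟩ := hA z (MA_mono hz fun l hl => hl.1) hz0
  obtain ⟨y', hy', hyy'⟩ := claim (VP_F y X) (VP_memF y X) y (VP_ch A X hy) (by
    rw [hyz]
    intro l hl v hv'
    exact (MA_mem.1 hz l hl).1.2 v hv')
  exact ⟨y', hy', by rw [hyy', hyz]⟩

/-- [VP] -/
theorem thm_VP : St_VP := by
  intro V A X
  refine ⟨?_, VP_2 A X, VP_3 A X, VP_4 A X⟩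
  intro j h y hy hby
  obtain ⟨y', hy', e, he, hye⟩ := VP_PUF X j (VP_F y X) A (VP_memF y X)
    (fun σ h1 h2 h3 => h σ h1 h2 fun v hv => VP_memF y X v (h3 v hv)) y (VP_ch A X hy) hby
  exact ⟨y', hy', e, MA_mono he fun l hl => hl.1, hye⟩

end Pool.Agent.SLZ
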