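import Pool.Agent.SLZ.StV

/-!
# SLZ, module VQ: unimodular systems (helper33)
-/

set_option autoImplicit false
set_option linter.unusedVariables false

noncomputable section

namespace Pool.Agent.SLZ

lemma VQ_factor {Λ : Type} [Ring Λ] {M M' : Type} [AddCommGroup M] [Module Λ M] [AddCommGroup M']
    [Module Λ M'] (π : M →ₗ[Λ] M') (x : M) (hπ : Function.Surjective π)
    (hk : LinearMap.ker π = Submodule.span Λ {x}) (g : M →ₗ[Λ] Λ) (hg : g x = 0) :
    ∃ g' : M' →ₗ[Λ] Λ, ∀ m, g' (π m) = g m := by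
  have h : LinearMap.ker π ≤ LinearMap.ker g := by
    rw [hk, Submodule.span_le, Set.singleton_subset_iff]
    exact hg
  refine ⟨(LinearMap.ker π).liftQ g h ∘ₗ (π.quotKerEquivOfSurjective hπ).symm.toLinearMap,
    fun m => ?_⟩
  rw [LinearMap.comp_apply]
  have h1 : (π.quotKerEquivOfSurjective hπ).symm.toLinearMap (π m) =
      (LinearMap.ker π).mkQ m := by
    rw [LinearEquiv.coe_coe, LinearEquiv.symm_apply_eq]
    rfl
  rw [h1]
  rfl

/-- **VQ** -/
theorem thm_VQ : St_VQ := by
  classical
  intro Λ _ V M _ _ x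
  refine ⟨?_, ?_, ?_, ?_, ?_, ?_⟩
  · rintro l l' h ⟨φ, hφ⟩
    exact ⟨φ, fun v hv w hw => hφ v (h hv) w (h hw)⟩
  · intro M' _ _ π v l f hπ hk hf hv
    constructor
    · rintro ⟨φ, hφ⟩
      have h1 : ∀ u, u ∈ l → ∃ g' : M' →ₗ[Λ] Λ, ∀ m, g' (π m) = φ u m := fun u hu =>
        VQ_factor π (x v) hπ hk (φ u) ((hφ u (List.mem_cons_of_mem _ hu) v
          List.mem_cons_self).2 (fun h => hv (h ▸ hu)))
      choose g' hg' using h1
      refine ⟨fun u => if h : u ∈ l then g' u h else 0, fun a ha b hb => ?_⟩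
      simp only [ha, dif_pos, hg']
      exact hφ a (List.mem_cons_of_mem _ ha) b (List.mem_cons_of_mem _ hb)
    · rintro ⟨φ, hφ⟩
      have hxv : π (x v) = 0 := by
        have : x v ∈ LinearMap.ker π := by
          rw [hk]
          exact Submodule.mem_span_singleton_self _
        exact this
      set ψ : M →ₗ[Λ] Λ := f - ∑ w ∈ l.toFinset, ((φ w) ∘ₗ π).smulRight (f (x w)) with hψ
      have hψa : ∀ m, ψ m = f m - ∑ w ∈ l.toFinset, φ w (π m) * f (x w) := by
        intro m
        rw [hψ, LinearMap.sub_apply, LinearMap.sum_apply]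
        rfl
      have hψv : ψ (x v) = 1 := by
        rw [hψa, hf, Finset.sum_eq_zero, sub_zero]
        intro w _
        rw [hxv, map_zero, zero_mul]
      have hψu : ∀ u ∈ l, ψ (x u) = 0 := by
        intro u hu
        rw [hψa, Finset.sum_eq_single u]
        · rw [(hφ u hu u hu).1 rfl, one_mul, sub_self]
        · intro w hw hwu
          rw [(hφ w (List.mem_toFinset.1 hw) u hu).2 hwu, zero_mul]
        · intro h
          exact absurd (List.mem_toFinset.2 hu) h
      refine ⟨fun u => if u = v then ψ else φ u ∘ₗ π, fun a ha b hb => ?_⟩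
      have hne : ∀ u ∈ l, u ≠ v := fun u hu h => hv (h ▸ hu)
      rcases List.mem_cons.1 ha with rfl | ha'
      · simp only [if_true]
        rcases List.mem_cons.1 hb with rfl | hb'
        · exact ⟨fun _ => hψv, fun h => absurd rfl h⟩
        · exact ⟨fun h => absurd h.symm (hne b hb'), fun _ => hψu b hb'⟩
      · simp only [hne a ha', if_false, LinearMap.comp_apply]
        rcases List.mem_cons.1 hb with rfl | hb'
        · exact ⟨fun h => absurd h (hne a ha'), fun _ => by rw [hxv, map_zero]⟩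
        · exact hφ a ha' b hb'
  · intro M' _ _ i p hpi l
    constructor
    · rintro ⟨φ, hφ⟩
      refine ⟨fun u => φ u ∘ₗ p, fun a ha b hb => ?_⟩
      simp only [LinearMap.comp_apply, hpi]
      exact hφ a ha b hb
    · rintro ⟨φ, hφ⟩
      exact ⟨fun u => φ u ∘ₗ i, fun a ha b hb => hφ a ha b hb⟩
  · rintro l y p hp hpy ⟨φ, hφ⟩
    by_cases hy : y ∈ l
    · have h1 : (0 : Λ) = 1 := by rw [← hp y hy, hpy]
      have h2 : ∀ a b : Λ, a = b := fun a b => by
        rw [← one_mul a, ← one_mul b, ← h1, zero_mul, zero_mul]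
      exact ⟨φ, fun a _ b _ => ⟨fun _ => h2 _ _, fun _ => h2 _ _⟩⟩
    · have hne : ∀ u ∈ l, u ≠ y := fun u hu h => hy (h ▸ hu)
      refine ⟨fun u => if u = y then p else φ u - p.smulRight (φ u (x y)), fun a ha b hb => ?_⟩
      rcases List.mem_cons.1 ha with rfl | ha'
      · simp only [if_true]
        rcases List.mem_cons.1 hb with rfl | hb'
        · exact ⟨fun _ => hpy, fun h => absurd rfl h⟩
        · exact ⟨fun h => absurd h.symm (hne b hb'), fun _ => hp b hb'⟩
      · simp only [hne a ha', if_false, LinearMap.sub_apply, LinearMap.smulRight_apply, smul_eq_mul]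
        rcases List.mem_cons.1 hb with rfl | hb'
        · refine ⟨fun h => absurd h (hne a ha'), fun _ => ?_⟩
          rw [hpy, one_mul, sub_self]
        · rw [hp b hb', zero_mul, sub_zero]
          exact hφ a ha' b hb'
  · intro β σ T X hX hσ
    ext l
    constructor
    · rintro ⟨⟨h1, h2⟩, h3⟩
      refine ⟨h3, ?_⟩
      rw [List.append_assoc]
      exact h2
    · rintro ⟨h1, h2⟩
      rw [List.append_assoc] at h2
      refine ⟨⟨fun v hv => ?_, h2⟩, h1⟩
      rcases List.mem_append.1 hv with h | h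
      · exact hσ v h
      · exact hX (h1 v h)
  · intro β σ T X hσ
    ext l
    simp only [Set.mem_empty_iff_false, iff_false]
    rintro ⟨⟨h1, h2⟩, h3⟩
    exact hσ fun v hv => h1 v (List.mem_append_left _ hv)

end Pool.Agent.SLZ
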