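import Pool.Agent.SLZ.StV

/-!
# SLZ/VT: van der Kallen's theorem, the induction (helper42, after the plan of helper97)
-/

set_option autoImplicit false
set_option linter.unusedVariables false

noncomputable section

namespace Pool.Agent.SLZ

theorem thm_VT : St_VT := by
  intro h1 h2 h3 hC Λ _ s hs hs1 n
  induction n with
  | zero =>
    have hA : TA Λ s 0 := by
      intro V M _ _ x T β hβ hβT hT
      have h0 : 0 + 1 - s - β.length = 0 := by omega
      rw [h0]
      exact (hC V (UC Λ x β T) ∅ 0).1
    refine ⟨hA, ?_⟩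
    intro V M _ _ x T β hβ hβT hT
    by_cases hb : β = []
    · subst hb
      exact h3 Λ s 0 hs hs1 hA V M x T hT
    · have hl : 0 < β.length := List.length_pos_iff.2 hb
      have h0 : 0 + 2 - s - β.length = 0 := by omega
      rw [h0]
      exact (hC V (UC Λ x β T) ∅ 0).1
  | succ n ih =>
    have hA : TA Λ s (n + 1) := by
      intro V M _ _ x T β hβ hβT hT
      by_cases hb : β = []
      · subst hb
        exact h2 Λ s n hs hs1 ih.2 V M x T hT
      · exact (h1 Λ s n hs hs1 V M x T β hβ hb hβT).1 ih.1 hT
    refine ⟨hA, ?_⟩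
    intro V M _ _ x T β hβ hβT hT
    by_cases hb : β = []
    · subst hb
      exact h3 Λ s (n + 1) hs hs1 hA V M x T hT
    · exact (h1 Λ s n hs hs1 V M x T β hβ hb hβT).2 ih.2 hT

end Pool.Agent.SLZ
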