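import Pool.Agent.SLZ.StV

/-!
# SLZ, module VT1: van der Kallen, step 1 (quotient by a unimodular vector)
-/

set_option autoImplicit false

noncomputable section

namespace Pool.Agent.SLZ

/-- complexes with the same lists are equal -/
theorem VT1_ext {V : Type} {A B : Cx V} (h : A.s = B.s) : A = B := by
  cases A
  cases B
  cases h
  rfl

/-- a complex without lists -/
theorem VT1_empty (hC : St_VC) {V : Type} (v : V) (A : Cx V) (h : A.s = ∅) (c : ℕ) : SC A c := by
  refine (hC V A ∅ c).2.2.2.1 v (fun l hl => ?_)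
  rw [h] at hl
  exact hl.elim

section quo

variable {Λ : Type} [Ring Λ] {M : Type} [AddCommGroup M] [Module Λ M] {n : ℕ} {C : Type}
  [AddCommGroup C] [Module Λ C]

/-- the quotient map -/
def VT1_pi (e : M ≃ₗ[Λ] (Fin n → Λ) × (Λ × C)) (v : M) : M →ₗ[Λ] (Fin n → Λ) × C :=
  (LinearMap.fst Λ (Fin n → Λ) (Λ × C) ∘ₗ e.toLinearMap).prod
      (LinearMap.snd Λ Λ C ∘ₗ LinearMap.snd Λ (Fin n → Λ) (Λ × C) ∘ₗ e.toLinearMap) -
    (LinearMap.toSpanSingleton Λ ((Fin n → Λ) × C) ((e v).1, (e v).2.2)) ∘ₗ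
      (LinearMap.fst Λ Λ C ∘ₗ LinearMap.snd Λ (Fin n → Λ) (Λ × C) ∘ₗ e.toLinearMap)

theorem VT1_pi_apply (e : M ≃ₗ[Λ] (Fin n → Λ) × (Λ × C)) (v m : M) :
    VT1_pi e v m = ((e m).1 - (e m).2.1 • (e v).1, (e m).2.2 - (e m).2.1 • (e v).2.2) := rfl

theorem VT1_pi_zero (e : M ≃ₗ[Λ] (Fin n → Λ) × (Λ × C)) (v m : M) (h : (e m).2.1 = 0) :
    VT1_pi e v m = ((e m).1, (e m).2.2) := by
  rw [VT1_pi_apply, h, zero_smul, zero_smul, sub_zero, sub_zero]

theorem VT1_pi_surj (e : M ≃ₗ[Λ] (Fin n → Λ) × (Λ × C)) (v : M) :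
    Function.Surjective (VT1_pi e v) := by
  rintro ⟨a, g⟩
  refine ⟨e.symm (a, (0, g)), ?_⟩
  rw [VT1_pi_zero, LinearEquiv.apply_symm_apply]
  rw [LinearEquiv.apply_symm_apply]

theorem VT1_pi_ker (e : M ≃ₗ[Λ] (Fin n → Λ) × (Λ × C)) (v : M) (hv : (e v).2.1 = 1) :
    LinearMap.ker (VT1_pi e v) = Submodule.span Λ {v} := by
  ext m
  rw [LinearMap.mem_ker, Submodule.mem_span_singleton, VT1_pi_apply]
  constructor
  · intro h
    refine ⟨(e m).2.1, ?_⟩
    apply e.injective
    rw [map_smul]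
    have h1 : (e m).1 - (e m).2.1 • (e v).1 = 0 := congrArg Prod.fst h
    have h2 : (e m).2.2 - (e m).2.1 • (e v).2.2 = 0 := congrArg Prod.snd h
    refine Prod.ext ?_ (Prod.ext ?_ ?_)
    · exact (sub_eq_zero.1 h1).symm
    · change (e m).2.1 • (e v).2.1 = (e m).2.1
      rw [hv, smul_eq_mul, mul_one]
    · exact (sub_eq_zero.1 h2).symm
  · rintro ⟨r, rfl⟩
    have h1 : (e (r • v)).1 = r • (e v).1 := by rw [map_smul]; rfl
    have h2 : (e (r • v)).2.1 = r := by
      rw [map_smul]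
      change r • (e v).2.1 = r
      rw [hv, smul_eq_mul, mul_one]
    have h3 : (e (r • v)).2.2 = r • (e v).2.2 := by rw [map_smul]; rfl
    rw [h1, h2, h3, sub_self, sub_self]
    rfl

/-- the main step -/
theorem VT1_main (hC : St_VC) (hQ : St_VQ) {V : Type} (x : V → M) (T : Set V) (v : V)
    (β : List V) (hβ : (v :: β).Nodup) (hβT : ∀ u ∈ v :: β, u ∉ T)
    (e : M ≃ₗ[Λ] (Fin n → Λ) × (Λ × C)) (hv : (e (x v)).2.1 = 1) (f : M →ₗ[Λ] Λ)
    (hf : f (x v) = 1) (c d : ℕ)
    (hT : ∀ γ : List V, γ.Nodup → (∀ u ∈ γ, u ∉ {w | w ∈ T ∧ (e (x w)).2.1 = 0}) →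
      SC (UC Λ (fun u => VT1_pi e (x v) (x u)) γ {w | w ∈ T ∧ (e (x w)).2.1 = 0})
        (d - γ.length)) (hcd : c ≤ d - β.length) : SC (UC Λ x (v :: β) T) c := by
  set X : Set V := {w | w ∈ T ∧ (e (x w)).2.1 = 0} with hX
  have hXT : X ⊆ T := fun w hw => hw.1
  have hvT : v ∉ T := hβT v List.mem_cons_self
  have hvβ : v ∉ β := (List.nodup_cons.1 hβ).1
  refine (hC V (UC Λ x (v :: β) T) X c).2.1 (fun σ hσ hσX => ?_)
  by_cases hσT : ∀ u ∈ σ, u ∈ T
  · have h1 := (hQ Λ V M x).2.2.2.2.1 (v :: β) σ T X hXT hσT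
    have h2 : (UC Λ x (v :: β ++ σ) X).s =
        (UC Λ (fun u => VT1_pi e (x v) (x u)) (β ++ σ) X).s := by
      ext l
      have h3 : ∀ _ : ∀ u ∈ l, u ∈ X, (Uni Λ x ((v :: β ++ σ) ++ l) ↔
          Uni Λ (fun u => VT1_pi e (x v) (x u)) ((β ++ σ) ++ l)) := by
        intro hl
        have h4 : v ∉ (β ++ σ) ++ l := by
          intro h
          rcases List.mem_append.1 h with h | h
          · rcases List.mem_append.1 h with h | h
            · exact hvβ h
            · exact hvT (hσT v h)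
          · exact hvT (hXT (hl v h))
        exact (hQ Λ V M x).2.1 _ (VT1_pi e (x v)) v ((β ++ σ) ++ l) f (VT1_pi_surj e _)
          (VT1_pi_ker e _ hv) hf h4
      constructor
      · rintro ⟨ha, hb⟩
        exact ⟨ha, (h3 ha).1 hb⟩
      · rintro ⟨ha, hb⟩
        exact ⟨ha, (h3 ha).2 hb⟩
    rw [VT1_ext (h1.trans h2)]
    have h5 := hT (β ++ σ) ?_ ?_
    · refine (show ∀ (A : Cx V) (a b : ℕ), b ≤ a → SC A a → SC A b from ?_) _ _ _ ?_ h5
      · intro A a b hab hA W B k hk j hj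
        exact hA W B k hk j (by omega)
      · rw [List.length_append]
        omega
    · rw [List.nodup_append]
      refine ⟨(List.nodup_cons.1 hβ).2, hσ, ?_⟩
      rintro a ha b hb rfl
      exact hβT a (List.mem_cons_of_mem _ ha) (hσT a hb)
    · intro u hu hu'
      rcases List.mem_append.1 hu with h | h
      · exact hβT u (List.mem_cons_of_mem _ h) hu'.1
      · exact hσX u h hu'
  · exact VT1_empty hC v _ ((hQ Λ V M x).2.2.2.2.2 (v :: β) σ T X hσT) _

end quo

/-- no functional: no lists -/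
theorem VT1_nof (hC : St_VC) {Λ : Type} [Ring Λ] {V M : Type} [AddCommGroup M] [Module Λ M]
    (x : V → M) (T : Set V) (v : V) (β : List V) (h : ¬ ∃ f : M →ₗ[Λ] Λ, f (x v) = 1) (c : ℕ) :
    SC (UC Λ x (v :: β) T) c := by
  refine VT1_empty hC v _ ?_ c
  rw [Set.eq_empty_iff_forall_notMem]
  rintro l ⟨-, φ, hφ⟩
  exact h ⟨φ v, (hφ v (List.mem_append_left _ List.mem_cons_self) v
    (List.mem_append_left _ List.mem_cons_self)).1 rfl⟩

/-- `St_VT1`. -/
theorem thm_VT1 (hC : St_VC) (hQ : St_VQ) (hG : St_VG) : St_VT1 := by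
  intro Λ _ s n hS hs V M _ _ x T β hβ hβ0 hβT
  obtain ⟨v, β, rfl⟩ : ∃ v β', β = v :: β' := by
    rcases β with _ | ⟨v, β⟩
    · exact absurd rfl hβ0
    · exact ⟨v, β, rfl⟩
  by_cases hf : ∃ f : M →ₗ[Λ] Λ, f (x v) = 1
  swap
  · exact ⟨fun _ _ => VT1_nof hC x T v β hf _, fun _ _ => VT1_nof hC x T v β hf _⟩
  obtain ⟨f, hf⟩ := hf
  have h0 : ∀ A : Cx V, SC A 0 := fun A => (hC V A ∅ 0).1
  refine ⟨fun hTA hTy => ?_, fun hTB hTy => ?_⟩
  · rcases Nat.eq_zero_or_pos (n + 2 - s - (v :: β).length) with hc | hc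
    · rw [hc]
      exact h0 _
    rw [List.length_cons] at hc
    obtain ⟨C, iC, mC, e, f0, he1, he2⟩ := hTy
    obtain ⟨e', he', hv⟩ := (hG Λ s n hS (by omega) M C (x v) f hf).2 e
    refine VT1_main hC hQ x T v β hβ hβT e' hv f hf _ (n + 1 - s) ?_ ?_
    · intro γ hγ hγX
      refine hTA V _ _ _ γ hγ hγX ⟨C, iC, mC, LinearEquiv.refl Λ _, f0, ?_, ?_⟩
      · rintro w ⟨hwT, hw0⟩
        change (VT1_pi e' (x v) (x w)).2 = f0
        rw [VT1_pi_zero _ _ _ hw0]
        change (e' (x w)).2.2 = f0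
        rw [he', he1 w hwT]
      · intro a
        obtain ⟨w, hw, hw2⟩ := he2 (e (e'.symm (a, (0, f0)))).1
        have h3 : x w = e'.symm (a, (0, f0)) := by
          apply e.injective
          rw [hw2]
          refine Prod.ext rfl ?_
          change f0 = (e (e'.symm (a, (0, f0)))).2
          rw [← he', LinearEquiv.apply_symm_apply]
        have h4 : e' (x w) = (a, (0, f0)) := by rw [h3, LinearEquiv.apply_symm_apply]
        refine ⟨w, ⟨hw, by rw [h4]⟩, ?_⟩
        change VT1_pi e' (x v) (x w) = (a, f0)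
        rw [VT1_pi_zero _ _ _ (by rw [h4]), h4]
    · rw [List.length_cons]
      omega
  · rcases Nat.eq_zero_or_pos (n + 3 - s - (v :: β).length) with hc | hc
    · rw [hc]
      exact h0 _
    rw [List.length_cons] at hc
    obtain ⟨C, iC, mC, e, f0, he1, he2⟩ := hTy
    by_cases hns : s ≤ n
    · obtain ⟨e', he', hv⟩ := (hG Λ s n hS hns M (Λ × C) (x v) f hf).2 e
      refine VT1_main hC hQ x T v β hβ hβT e' hv f hf _ (n + 2 - s) ?_ ?_
      · intro γ hγ hγX
        refine hTB V _ _ _ γ hγ hγX ⟨C, iC, mC, LinearEquiv.refl Λ _, f0, ?_, ?_⟩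
        · rintro w ⟨hwT, hw0⟩
          change (VT1_pi e' (x v) (x w)).2 = (0, f0) ∨ (VT1_pi e' (x v) (x w)).2 = (1, f0)
          rw [VT1_pi_zero _ _ _ hw0]
          change (e' (x w)).2.2 = (0, f0) ∨ (e' (x w)).2.2 = (1, f0)
          rw [he']
          exact he1 w hwT
        · intro a ε hε
          obtain ⟨w, hw, hw2⟩ := he2 (e (e'.symm (a, (0, (ε, f0))))).1 ε hε
          have h3 : x w = e'.symm (a, (0, (ε, f0))) := by
            apply e.injective
            rw [hw2]
            refine Prod.ext rfl ?_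
            change (ε, f0) = (e (e'.symm (a, (0, (ε, f0))))).2
            rw [← he', LinearEquiv.apply_symm_apply]
          have h4 : e' (x w) = (a, (0, (ε, f0))) := by rw [h3, LinearEquiv.apply_symm_apply]
          refine ⟨w, ⟨hw, by rw [h4]⟩, ?_⟩
          change VT1_pi e' (x v) (x w) = (a, (ε, f0))
          rw [VT1_pi_zero _ _ _ (by rw [h4]), h4]
      · rw [List.length_cons]
        omega
    · -- the special case
      have hs1 : n + 1 = s := by omega
      have hβ1 : β = [] := by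
        rw [← List.length_eq_zero_iff]
        omega
      subst hβ1
      have hc1 : n + 3 - s - [v].length = 1 := by
        rw [List.length_singleton]
        omega
      rw [hc1]
      obtain ⟨e', he', g, hg⟩ := (hG Λ s (n + 1) hS (by omega) M (Λ × C) (x v) f hf).1 e
      obtain ⟨y, hy, hy2⟩ := he2 (e (e'.symm (0, (1, f0)))).1 1 (Or.inr rfl)
      have h3 : x y = e'.symm (0, (1, f0)) := by
        apply e.injective
        rw [hy2]
        refine Prod.ext rfl ?_
        change ((1 : Λ), f0) = (e (e'.symm (0, (1, f0)))).2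
        rw [← he', LinearEquiv.apply_symm_apply]
      have h4 : e' (x y) = (0, (1, f0)) := by rw [h3, LinearEquiv.apply_symm_apply]
      obtain ⟨p, hp⟩ : ∃ p : M →ₗ[Λ] Λ, ∀ m, p m = (e' m).2.1 - g (e' m).1 * (e' (x v)).2.1 :=
        ⟨(LinearMap.fst Λ Λ C ∘ₗ LinearMap.snd Λ (Fin (n + 1) → Λ) (Λ × C) ∘ₗ e'.toLinearMap) -
          (LinearMap.toSpanSingleton Λ Λ (e' (x v)).2.1) ∘ₗ
            (g ∘ₗ LinearMap.fst Λ (Fin (n + 1) → Λ) (Λ × C) ∘ₗ e'.toLinearMap), fun m => rfl⟩
      have hU : Uni Λ x [v] := by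
        refine ⟨fun _ => f, fun a ha b hb => ?_⟩
        rw [List.mem_singleton] at ha hb
        subst ha
        subst hb
        exact ⟨fun _ => hf, fun h => absurd rfl h⟩
      have hU2 : Uni Λ x [y, v] := by
        refine (hQ Λ V M x).2.2.2.1 [v] y p ?_ ?_ hU
        · intro u hu
          rw [List.mem_singleton] at hu
          subst hu
          rw [hp, hg, one_mul, sub_self]
        · rw [hp, h4]
          change (1 : Λ) - g 0 * _ = 1
          rw [map_zero, zero_mul, sub_zero]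
      have hU3 : Uni Λ x ([v] ++ [y]) := by
        refine (hQ Λ V M x).1 [y, v] _ ?_ hU2
        intro a ha
        simp only [List.mem_append, List.mem_singleton] at ha
        rcases ha with rfl | rfl <;> simp
      refine (hC V (UC Λ x [v] T) ∅ 1).2.2.1 y ?_ ?_
      · rintro l ⟨-, hl⟩
        have hl0 : l = [] := by
          rcases l with _ | ⟨a, l⟩
          · rfl
          · exact (hl a List.mem_cons_self).elim
        subst hl0
        refine ⟨?_, hU3⟩
        intro w hw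
        rw [List.mem_singleton] at hw
        rw [hw]
        exact hy
      · intro σ hσ _ _
        have h5 : 1 - σ.length = 0 := by
          have := List.length_pos_iff.2 hσ
          omega
        rw [h5]
        exact h0 _

end Pool.Agent.SLZ
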