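import Pool.Agent.SLZ.StV

/-!
# SLZ, VT2: van der Kallen, step 2 (helper24)
-/

set_option autoImplicit false
set_option linter.unusedVariables false

noncomputable section

namespace Pool.Agent.SLZ

theorem VT2_ext {V : Type} {A B : Cx V} (h : A.s = B.s) : A = B := by
  cases A
  cases B
  cases h
  rfl

theorem VT2_empty {V : Type} (A : Cx V) (h : A.s = ∅) (c : ℕ) : SC A c := by
  intro W B b _ j _ z hz _
  have h1 : z = 0 := by
    rw [← Finsupp.support_eq_empty, Finset.eq_empty_iff_forall_notMem]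
    intro l hl
    rw [Ch, Finsupp.mem_supported] at hz
    obtain ⟨⟨a, ha, -⟩, -⟩ := (hz hl).1
    rw [h] at ha
    exact ha
  exact ⟨0, Submodule.zero_mem _, by rw [map_zero, h1]⟩

/-- separating the first coordinate -/
def VT2_e (Λ C : Type) [Ring Λ] [AddCommGroup C] [Module Λ C] (n : ℕ) :
    ((Fin (n + 1) → Λ) × C) ≃ₗ[Λ] (Fin n → Λ) × (Λ × C) where
  toFun q := (fun i => q.1 i.succ, (q.1 0, q.2))
  map_add' q q' := rfl
  map_smul' c q := rfl
  invFun q := (Fin.cons q.2.1 q.1, q.2.2)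
  left_inv q := by
    apply Prod.ext
    · funext i
      refine Fin.cases ?_ (fun i => ?_) i
      · rfl
      · rfl
    · rfl
  right_inv q := rfl

theorem thm_VT2 (hC : St_VC) (hQ : St_VQ) : St_VT2 := by
  intro Λ _ s n hSR hs hTB V M _ _ x T hT
  obtain ⟨C, _, _, e, f, hT1, hT2⟩ := hT
  obtain ⟨-, -, -, -, hQ5, hQ6⟩ := hQ Λ V M x
  set X : Set V := {w | w ∈ T ∧ ((e (x w)).1 0 = 0 ∨ (e (x w)).1 0 = 1)} with hX
  have hXT : X ⊆ T := fun w hw => hw.1
  have hTyB : TyB Λ n x X := by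
    refine ⟨C, inferInstance, inferInstance, e.trans (VT2_e Λ C n), f, ?_, ?_⟩
    · intro w hw
      rcases hw.2 with h | h
      · left
        change ((e (x w)).1 0, (e (x w)).2) = (0, f)
        rw [h, hT1 w hw.1]
      · right
        change ((e (x w)).1 0, (e (x w)).2) = (1, f)
        rw [h, hT1 w hw.1]
    · intro a ε hε
      obtain ⟨w, hw, hew⟩ := hT2 (Fin.cons ε a)
      refine ⟨w, ⟨hw, ?_⟩, ?_⟩
      · rw [hew]
        exact hε
      · change VT2_e Λ C n (e (x w)) = (a, (ε, f))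
        rw [hew]
        rfl
  refine (hC V (UC Λ x [] T) X (n + 2 - s)).2.1 ?_
  intro σ hnd hσX
  by_cases hσT : ∀ v ∈ σ, v ∈ T
  · have h5 := hQ5 [] σ T X hXT hσT
    rw [List.nil_append] at h5
    rw [VT2_ext h5]
    exact hTB V M x X σ hnd hσX hTyB
  · exact VT2_empty _ (hQ6 [] σ T X hσT) _

end Pool.Agent.SLZ
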