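import Pool.Agent.SLZ.StV

/-!
# SLZ, VT3: van der Kallen, step 3 (helper24)
-/

set_option autoImplicit false
set_option linter.unusedVariables false

noncomputable section

namespace Pool.Agent.SLZ

theorem VT3_ext {V : Type} {A B : Cx V} (h : A.s = B.s) : A = B := by
  cases A
  cases B
  cases h
  rfl

theorem VT3_empty {V : Type} (A : Cx V) (h : A.s = ∅) (c : ℕ) : SC A c := by
  intro W B b _ j _ z hz _
  have h1 : z = 0 := by
    rw [← Finsupp.support_eq_empty, Finset.eq_empty_iff_forall_notMem]
    intro l hl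
    rw [Ch, Finsupp.mem_supported] at hz
    obtain ⟨⟨a, ha, -⟩, -⟩ := (hz hl).1
    rw [h] at ha
    exact ha
  exact ⟨0, Submodule.zero_mem _, by rw [map_zero, h1]⟩

theorem VT3_mono {V : Type} (A : Cx V) (c c' : ℕ) (h : c' ≤ c) (hA : SC A c) : SC A c' :=
  fun W B b hB j hj => hA W B b hB j (by omega)

theorem thm_VT3 (hC : St_VC) (hQ : St_VQ) : St_VT3 := by
  intro Λ _ s n hSR hs hTA V M _ _ x T hT
  obtain ⟨C, _, _, e, f, hT1, hT2⟩ := hT
  obtain ⟨-, hQ2, -, hQ4, hQ5, hQ6⟩ := hQ Λ V M x
  set p : M →ₗ[Λ] Λ := (LinearMap.fst Λ Λ C) ∘ₗ (LinearMap.snd Λ (Fin n → Λ) (Λ × C)) ∘ₗ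
    (e : M →ₗ[Λ] (Fin n → Λ) × (Λ × C)) with hp
  have hpm : ∀ m, p m = (e m).2.1 := fun m => rfl
  set X : Set V := {w | w ∈ T ∧ (e (x w)).2.1 = 0} with hX
  have hXT : X ⊆ T := fun w hw => hw.1
  obtain ⟨y, hy, hey⟩ := hT2 0 1 (Or.inr rfl)
  refine (hC V (UC Λ x [] T) X (n + 2 - s)).2.2.1 y ?_ ?_
  · rintro l ⟨⟨h1, h2⟩, h3⟩
    refine ⟨fun v hv => ?_, ?_⟩
    · rcases List.mem_cons.1 hv with rfl | hv
      · exact hy
      · exact h1 v hv
    · rw [List.nil_append] at h2 ⊢
      refine hQ4 l y p (fun u hu => ?_) ?_ h2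
      · rw [hpm]
        exact (h3 u hu).2
      · rw [hpm, hey]
  · intro σ hσ hnd hσX
    by_cases hσT : ∀ v ∈ σ, v ∈ T
    · obtain ⟨v, σ', rfl⟩ : ∃ v σ', σ = v :: σ' := by
        cases σ with
        | nil => exact absurd rfl hσ
        | cons v σ' => exact ⟨v, σ', rfl⟩
      have hvT := hσT v List.mem_cons_self
      have hvX := hσX v List.mem_cons_self
      have hev : (e (x v)).2 = (1, f) := by
        rcases hT1 v hvT with h | h
        · exact absurd ⟨hvT, by rw [h]⟩ hvX
        · exact h
      set a0 : Fin n → Λ := (e (x v)).1 with ha0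
      let π : M →ₗ[Λ] (Fin n → Λ) × C :=
        { toFun := fun m => ((e m).1 - (e m).2.1 • a0, (e m).2.2 - (e m).2.1 • f)
          map_add' := fun m m' => by
            simp only [map_add, Prod.fst_add, Prod.snd_add, add_smul, Prod.mk_add_mk]
            congr 1 <;> abel
          map_smul' := fun c m => by
            simp only [map_smul, Prod.smul_fst, Prod.smul_snd, smul_eq_mul, mul_smul,
              RingHom.id_apply, Prod.smul_mk, smul_sub] }
      have hπ : ∀ m, π m = ((e m).1 - (e m).2.1 • a0, (e m).2.2 - (e m).2.1 • f) := fun m => rfl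
      have hπs : Function.Surjective π := by
        rintro ⟨b, h⟩
        refine ⟨e.symm (b, (0, h)), ?_⟩
        rw [hπ, LinearEquiv.apply_symm_apply]
        simp
      have hker : LinearMap.ker π = Submodule.span Λ {x v} := by
        ext m
        rw [LinearMap.mem_ker, Submodule.mem_span_singleton, hπ]
        constructor
        · intro h
          have h1 : (e m).1 - (e m).2.1 • a0 = 0 := congrArg Prod.fst h
          have h2 : (e m).2.2 - (e m).2.1 • f = 0 := congrArg Prod.snd h
          refine ⟨(e m).2.1, ?_⟩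
          apply e.injective
          rw [map_smul]
          apply Prod.ext
          · exact (sub_eq_zero.1 h1).symm
          · rw [Prod.smul_snd, hev]
            apply Prod.ext
            · simp
            · exact (sub_eq_zero.1 h2).symm
        · rintro ⟨a, rfl⟩
          rw [map_smul, Prod.smul_snd, hev, Prod.smul_fst, ← ha0]
          simp
      have hpv : p (x v) = 1 := by rw [hpm, hev]
      have hTyA : TyA Λ n (fun u => π (x u)) X := by
        refine ⟨C, inferInstance, inferInstance, LinearEquiv.refl Λ _, f, ?_, ?_⟩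
        · intro w hw
          change (π (x w)).2 = f
          rw [hπ]
          have h1 : (e (x w)).2.1 = 0 := hw.2
          change (e (x w)).2.2 - (e (x w)).2.1 • f = f
          rcases hT1 w hw.1 with h | h
          · rw [h]
            simp
          · rw [h] at h1
            have h1' : (1 : Λ) = 0 := h1
            have h3 : ∀ c : C, c = 0 := fun c => by rw [← one_smul Λ c, h1', zero_smul]
            rw [h3 f, h3 ((e (x w)).2.2)]
            simp
        · intro a
          obtain ⟨w, hw, hew⟩ := hT2 a 0 (Or.inl rfl)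
          refine ⟨w, ⟨hw, by rw [hew]⟩, ?_⟩
          change π (x w) = (a, f)
          rw [hπ, hew]
          simp
      have hnd' := List.nodup_cons.1 hnd
      have hmain := hTA V ((Fin n → Λ) × C) (fun u => π (x u)) X σ' hnd'.2
        (fun u hu => hσX u (List.mem_cons_of_mem v hu)) hTyA
      have h5 := hQ5 [] (v :: σ') T X hXT hσT
      rw [List.nil_append] at h5
      have h6 : (UC Λ x (v :: σ') X).s = (UC Λ (fun u => π (x u)) σ' X).s := by
        ext l
        constructor
        · rintro ⟨h1, h2⟩
          refine ⟨h1, ?_⟩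
          rw [List.cons_append] at h2
          refine (hQ2 _ π v (σ' ++ l) p hπs hker hpv ?_).1 h2
          intro h3
          rcases List.mem_append.1 h3 with h3 | h3
          · exact hnd'.1 h3
          · exact hvX (h1 v h3)
        · rintro ⟨h1, h2⟩
          refine ⟨h1, ?_⟩
          rw [List.cons_append]
          refine (hQ2 _ π v (σ' ++ l) p hπs hker hpv ?_).2 h2
          intro h3
          rcases List.mem_append.1 h3 with h3 | h3
          · exact hnd'.1 h3
          · exact hvX (h1 v h3)
      rw [VT3_ext (h5.trans h6)]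
      refine VT3_mono _ _ _ ?_ hmain
      rw [List.length_cons]
      omega
    · exact VT3_empty _ (hQ6 [] σ T X hσT) _

end Pool.Agent.SLZ
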