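import Pool.Agent.SLZ.StV2

/-!
# SLZ, module VU (helper47): shortening several unimodular vectors at the same time
-/

set_option autoImplicit false
set_option linter.unusedVariables false

noncomputable section

namespace Pool.Agent.SLZ

section

variable {Λ : Type} [Ring Λ]

/-- shortening one unimodular vector -/
theorem VU_one {s N : ℕ} (hS : SR Λ s) (hN : s ≤ N) {F C : Type} [AddCommGroup F] [Module Λ F]
    [AddCommGroup C] [Module Λ C] (e : F ≃ₗ[Λ] (Fin N → Λ)) (v : F × C)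
    (φ : (F × C) →ₗ[Λ] Λ) (h : φ v = 1) :
    ∃ (t : C →ₗ[Λ] F) (g : F →ₗ[Λ] Λ), g (v.1 + t v.2) = 1 := by
  classical
  let a : Fin N → Λ := e v.1
  let b : Fin N → Λ := fun i => φ (e.symm (Pi.single i 1), 0)
  let θ : C →ₗ[Λ] Λ := φ ∘ₗ LinearMap.inr Λ F C
  have h1 : ∑ i, a i * b i + θ v.2 = 1 := by
    have h2 : v = (v.1, 0) + (0, v.2) := by
      ext
      · simp
      · simp
    have h3 : φ (v.1, 0) = ∑ i, a i * b i := by
      have h4 : v.1 = ∑ i, a i • e.symm (Pi.single i 1) := by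
        apply e.injective
        rw [map_sum]
        funext k
        rw [Finset.sum_apply]
        simp only [map_smul, LinearEquiv.apply_symm_apply, Pi.smul_apply, smul_eq_mul]
        rw [Finset.sum_eq_single k]
        · simp [a]
        · intro i _ hik
          rw [Pi.single_eq_of_ne (Ne.symm hik), mul_zero]
        · intro hk
          exact absurd (Finset.mem_univ k) hk
      have h5 : φ (v.1, 0) = (φ ∘ₗ LinearMap.inl Λ F C) v.1 := rfl
      rw [h5]
      rw [h4, map_sum]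
      refine Finset.sum_congr rfl fun i _ => ?_
      rw [map_smul]
      rfl
    have h6 : θ v.2 = φ (0, v.2) := rfl
    rw [h6, ← h3, ← map_add, ← h2]
    exact h
  obtain ⟨t, b', hb⟩ := hS N hN a b (θ v.2) h1
  refine ⟨e.symm.toLinearMap ∘ₗ LinearMap.smulRight θ t,
    ∑ i, LinearMap.smulRight (LinearMap.proj i ∘ₗ e.toLinearMap) (b' i), ?_⟩
  rw [LinearMap.sum_apply]
  have h7 : e (v.1 + e.symm (θ v.2 • t)) = a + θ v.2 • t := by
    rw [map_add, LinearEquiv.apply_symm_apply]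
  rw [← hb]
  refine Finset.sum_congr rfl fun i _ => ?_
  show (e (v.1 + e.symm (θ v.2 • t))) i • b' i = (a i + θ v.2 * t i) * b' i
  rw [h7]
  rfl

/-- straightening a unimodular vector -/
theorem VU_str {s N : ℕ} (hG : St_VG) (hS : SR Λ s) (hN : s ≤ N) {F : Type} [AddCommGroup F] [Module Λ F]
    (e : F ≃ₗ[Λ] (Fin (N + 1) → Λ)) (x : F) (g : F →ₗ[Λ] Λ) (h : g x = 1) :
    ∃ E : F ≃ₗ[Λ] (Fin N → Λ) × Λ, (E x).2 = 1 := by
  let p : (Fin (N + 1) → Λ) ≃ₗ[Λ] (Fin (N + 1) → Λ) × PUnit.{1} :=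
    { toFun := fun a => (a, PUnit.unit)
      invFun := fun a => a.1
      map_add' := fun a b => rfl
      map_smul' := fun r a => rfl
      left_inv := fun a => rfl
      right_inv := fun a => rfl }
  let q : ((Fin N → Λ) × (Λ × PUnit.{1})) ≃ₗ[Λ] ((Fin N → Λ) × Λ) :=
    { toFun := fun a => (a.1, a.2.1)
      invFun := fun a => (a.1, (a.2, PUnit.unit))
      map_add' := fun a b => rfl
      map_smul' := fun r a => rfl
      left_inv := fun a => rfl
      right_inv := fun a => rfl }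
  obtain ⟨e', -, he'⟩ := (hG Λ s N hS hN F PUnit.{1} x g h).2 (e.trans p)
  exact ⟨e'.trans q, he'⟩

theorem VU_main {s : ℕ} (hG : St_VG) (hS : SR Λ s) : ∀ (m N : ℕ), m + s ≤ N + 1 →
    ∀ (F C : Type) [AddCommGroup F] [Module Λ F] [AddCommGroup C] [Module Λ C]
      (e : F ≃ₗ[Λ] (Fin N → Λ)) (v : Fin m → F × C) (φ : Fin m → ((F × C) →ₗ[Λ] Λ)),
      (∀ i j, φ i (v j) = if i = j then 1 else 0) →
      ∃ (t : C →ₗ[Λ] F) (ψ : Fin m → (F →ₗ[Λ] Λ)),
        ∀ i j, ψ i ((v j).1 + t (v j).2) = if i = j then 1 else 0 := by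
  intro m
  induction m with
  | zero =>
    intro N _ F C _ _ _ _ e v φ _
    exact ⟨0, fun _ => 0, fun i => i.elim0⟩
  | succ m ih =>
    intro N hmN F C _ _ _ _ e v φ h
    obtain ⟨t₁, g, hg⟩ := VU_one hS (by omega : s ≤ N) e (v 0) (φ 0) (by rw [h, if_pos rfl])
    by_cases hm : m = 0
    · subst hm
      refine ⟨t₁, fun _ => g, fun i j => ?_⟩
      have hi : i = 0 := Fin.ext (Nat.lt_one_iff.1 i.2)
      have hj : j = 0 := Fin.ext (Nat.lt_one_iff.1 j.2)
      subst hi
      subst hj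
      rw [if_pos rfl]
      exact hg
    obtain ⟨N', rfl⟩ : ∃ N', N = N' + 1 := ⟨N - 1, by omega⟩
    obtain ⟨E, hE⟩ := VU_str hG hS (by omega : s ≤ N') e _ g hg
    let x : Fin (m + 1) → F := fun j => (v j).1 + t₁ (v j).2
    let a : Fin (m + 1) → (Fin N' → Λ) := fun j => (E (x j)).1
    let α : Fin (m + 1) → Λ := fun j => (E (x j)).2
    have hα : α 0 = 1 := hE
    have hEx : ∀ j, E (x j) = (a j, α j) := fun j => rfl
    let w : Fin m → (Fin N' → Λ) × C := fun j =>
      (a j.succ - α j.succ • a 0, (v j.succ).2 - α j.succ • (v 0).2)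
    let φ' : Fin m → (((Fin N' → Λ) × C) →ₗ[Λ] Λ) := fun i => (φ i.succ) ∘ₗ
      (LinearMap.prod (E.symm.toLinearMap ∘ₗ LinearMap.inl Λ (Fin N' → Λ) Λ ∘ₗ
        LinearMap.fst Λ (Fin N' → Λ) C - t₁ ∘ₗ LinearMap.snd Λ (Fin N' → Λ) C)
        (LinearMap.snd Λ (Fin N' → Λ) C))
    have hw : ∀ i j, φ' i (w j) = if i = j then 1 else 0 := by
      intro i j
      have h1 : E.symm (a j.succ - α j.succ • a 0, 0) = x j.succ - α j.succ • x 0 := by
        apply E.injective
        rw [LinearEquiv.apply_symm_apply, map_sub, map_smul, hEx, hEx]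
        ext
        · rfl
        · show (0 : Λ) = α j.succ - α j.succ • α 0
          rw [hα, smul_eq_mul, mul_one, sub_self]
      have h2 : φ' i (w j) = φ i.succ (v j.succ - α j.succ • v 0) := by
        show φ i.succ (E.symm (a j.succ - α j.succ • a 0, 0) -
          t₁ ((v j.succ).2 - α j.succ • (v 0).2), (v j.succ).2 - α j.succ • (v 0).2) = _
        rw [h1]
        congr 1
        ext
        · show (x j.succ - α j.succ • x 0) - t₁ ((v j.succ).2 - α j.succ • (v 0).2) =
            (v j.succ).1 - α j.succ • (v 0).1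
          rw [map_sub, map_smul]
          show ((v j.succ).1 + t₁ (v j.succ).2 - α j.succ • ((v 0).1 + t₁ (v 0).2)) -
            (t₁ (v j.succ).2 - α j.succ • t₁ (v 0).2) = _
          rw [smul_add]
          abel
        · rfl
      rw [h2, map_sub, map_smul, h, h, if_neg (Fin.succ_ne_zero i), smul_zero, sub_zero]
      simp only [Fin.succ_inj]
    obtain ⟨τ, ψ', hψ'⟩ := ih N' (by omega) (Fin N' → Λ) C (LinearEquiv.refl Λ _) w φ' hw
    let t : C →ₗ[Λ] F := t₁ + E.symm.toLinearMap ∘ₗ LinearMap.inl Λ (Fin N' → Λ) Λ ∘ₗ τ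
    let y : Fin (m + 1) → F := fun j => (v j).1 + t (v j).2
    have hy : ∀ j, E (y j) = (a j + τ (v j).2, α j) := by
      intro j
      have h1 : y j = x j + E.symm (τ (v j).2, 0) := by
        show (v j).1 + (t₁ (v j).2 + E.symm (τ (v j).2, 0)) = (v j).1 + t₁ (v j).2 + _
        rw [add_assoc]
      rw [h1, map_add, LinearEquiv.apply_symm_apply, hEx]
      ext
      · rfl
      · show α j + 0 = α j
        rw [add_zero]
    let a'' : Fin N' → Λ := a 0 + τ (v 0).2
    let Ψ : Fin m → (F →ₗ[Λ] Λ) := fun i => ψ' i ∘ₗ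
      (LinearMap.fst Λ (Fin N' → Λ) Λ ∘ₗ E.toLinearMap -
        LinearMap.smulRight (LinearMap.snd Λ (Fin N' → Λ) Λ ∘ₗ E.toLinearMap) a'')
    have hΨ : ∀ i f, Ψ i f = ψ' i ((E f).1 - (E f).2 • a'') := fun i f => rfl
    have hΨ0 : ∀ i, Ψ i (y 0) = 0 := by
      intro i
      rw [hΨ, hy]
      show ψ' i (a 0 + τ (v 0).2 - α 0 • a'') = 0
      rw [hα, one_smul, sub_self, map_zero]
    have hΨj : ∀ i j, Ψ i (y j.succ) = if i = j then 1 else 0 := by
      intro i j
      rw [hΨ, hy, ← hψ' i j]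
      congr 1
      show a j.succ + τ (v j.succ).2 - α j.succ • (a 0 + τ (v 0).2) =
        (a j.succ - α j.succ • a 0) + τ ((v j.succ).2 - α j.succ • (v 0).2)
      rw [map_sub, map_smul, smul_add]
      abel
    let Ψ0 : F →ₗ[Λ] Λ := LinearMap.snd Λ (Fin N' → Λ) Λ ∘ₗ E.toLinearMap -
      ∑ i, LinearMap.smulRight (Ψ i) (α i.succ)
    have hΨ0' : ∀ f, Ψ0 f = (E f).2 - ∑ i, Ψ i f * α i.succ := by
      intro f
      show (E f).2 - (∑ i, LinearMap.smulRight (Ψ i) (α i.succ)) f = _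
      rw [LinearMap.sum_apply]
      rfl
    refine ⟨t, Fin.cons Ψ0 Ψ, fun i j => ?_⟩
    show (Fin.cons Ψ0 Ψ : Fin (m + 1) → (F →ₗ[Λ] Λ)) i (y j) = _
    refine Fin.cases ?_ (fun i => ?_) i
    · rw [Fin.cons_zero, hΨ0']
      refine Fin.cases ?_ (fun j => ?_) j
      · rw [hy, if_pos rfl]
        show α 0 - _ = 1
        rw [Finset.sum_eq_zero, sub_zero, hα]
        intro i _
        rw [hΨ0, zero_mul]
      · rw [hy, if_neg (Ne.symm (Fin.succ_ne_zero j))]
        show α j.succ - _ = 0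
        rw [Finset.sum_eq_single j, hΨj, if_pos rfl, one_mul, sub_self]
        · intro i _ hij
          rw [hΨj, if_neg hij, zero_mul]
        · intro hj
          exact absurd (Finset.mem_univ j) hj
    · rw [Fin.cons_succ]
      refine Fin.cases ?_ (fun j => ?_) j
      · rw [hΨ0, if_neg (Fin.succ_ne_zero i)]
      · rw [hΨj]
        simp only [Fin.succ_inj]

end

/-- **VU.** Shortening several unimodular vectors at the same time. -/
theorem thm_VU (hG : St_VG) (hQ : St_VQ) : St_VU := by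
  intro Λ _ s hS m N hmN C _ _ v φ h
  exact VU_main hG hS m N hmN (Fin N → Λ) C (LinearEquiv.refl Λ _) v φ h

end Pool.Agent.SLZ
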