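import Pool.Agent.SLZ.V2
import Pool.Agent.SLZ.V2a
import Pool.Agent.SLZ.V2b
import Pool.Agent.SLZ.V2c
import Pool.Agent.SLZ.V4
import Pool.Agent.SLZ.V4a
import Pool.Agent.SLZ.V4b
import Pool.Agent.SLZ.V4c
import Pool.Agent.SLZ.V4d
import Pool.Agent.SLZ.V4e
import Pool.Agent.SLZ.VA
import Pool.Agent.SLZ.VB
import Pool.Agent.SLZ.VC
import Pool.Agent.SLZ.VD
import Pool.Agent.SLZ.VE
import Pool.Agent.SLZ.VG
import Pool.Agent.SLZ.VJ
import Pool.Agent.SLZ.VK
import Pool.Agent.SLZ.VK2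
import Pool.Agent.SLZ.VM
import Pool.Agent.SLZ.VP
import Pool.Agent.SLZ.VQ
import Pool.Agent.SLZ.VT
import Pool.Agent.SLZ.VT1
import Pool.Agent.SLZ.VT2
import Pool.Agent.SLZ.VT3
import Pool.Agent.SLZ.VU

/-!
# SLZ, part V without hypotheses (helper97)
-/

set_option autoImplicit false
set_option linter.unusedVariables false

noncomputable section

namespace Pool.Agent.SLZ

theorem all_VJ : St_VJ := thm_VJ

theorem all_VP : St_VP := thm_VP

theorem all_VC : St_VC := thm_VC all_VJ all_VP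

theorem all_VQ : St_VQ := thm_VQ

theorem all_VB : St_VB := thm_VB

/-- the stable ranks of `ℤ[x_1, .., x_r]` and of `ℤ[x_1, .., x_r][X]` -/
theorem all_SR : (∀ r : ℕ, SR (MvPolynomial (Fin r) ℤ) (r + 2)) ∧
    (∀ r : ℕ, SR (Polynomial (MvPolynomial (Fin r) ℤ)) (r + 3)) := thm_VD all_VB

theorem all_VG : St_VG := thm_VG

/-- van der Kallen's theorem -/
theorem all_TA (Λ : Type) [Ring Λ] (s : ℕ) (hs : SR Λ s) (h1 : 1 ≤ s) (n : ℕ) :
    TA Λ s n ∧ TB Λ s n :=
  thm_VT (thm_VT1 all_VC all_VQ all_VG) (thm_VT2 all_VC all_VQ) (thm_VT3 all_VC all_VQ) all_VC Λ s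
    hs h1 n

theorem all_VK : St_VK := thm_VK

theorem all_VK2 : St_VK2 := thm_VK2

theorem all_VE : St_VE := thm_VE

theorem all_VA : St_VA := thm_VA all_VJ

theorem all_VM : St_VM := thm_VM (thm_VU all_VG all_VQ)

theorem all_V2 : St_V2 :=
  thm_V2 all_VJ all_VP (thm_V2a all_VK2) (thm_V2b all_VJ all_VP all_VK2)
    (thm_V2c all_VP (thm_V2a all_VK2))

theorem all_V4 : St_V4 :=
  thm_V4 all_VJ all_VC thm_V4a (thm_V4b all_VK2) thm_V4c thm_V4d

/-- everything that part V delivers -/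
theorem all_VZ : St_VZ := by
  intro A _ _ s h1 hs
  have hK : KerFree A s := all_VK A s hs
  refine ⟨hK, all_VA A s h1 fun n => (all_TA A s hs h1 n).1,
    all_V2 A s h1 hK fun n => (all_TA A s hs h1 n).1, ?_, ?_⟩
  · intro m hm W _ _ P ρ hP hP'
    have h2 : SR (Module.End A (Fin m → A)) 2 := all_VM A s m hs (by omega)
    have h3 := all_V4 A W P s m ρ hK h1 hm
      (fun k => (all_TA (Module.End A (Fin m → A)) 2 h2 (by omega) k).1) hP hP'
    exact ⟨h3, all_VJ.2.1 _ _ _ h3⟩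
  · intro n N hn hN g
    exact all_VE A s n N hs hn hN g

end Pool.Agent.SLZ
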