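import Pool.Agent.SLZ.FinA
import Pool.Agent.SLZ.VZ
import Pool.Agent.SLZ.RAll
import Pool.Agent.SLZ.KAll

/-!
# SLZ: the final assembly (team SLZ; file by helper38)
-/

set_option autoImplicit false

noncomputable section

namespace Pool.Agent.SLZ

open Polynomial

theorem final_PInf (r : ℕ) : ∃ m0 : ℕ, ∀ m ≥ m0, PInf (MvPolynomial (Fin r) ℤ) m := by
  refine ⟨r + 3, fun m hm => ?_⟩
  exact all_RO (MvPolynomial (Fin r) ℤ) (r + 1) (r + 3) m (fun M _ _ h => all_FFR r M h)
    (all_VZ (MvPolynomial (Fin r) ℤ) (r + 3) (by omega) (fun n hn => all_SR.1 r n (by omega))).1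
    (by omega) hm

theorem final_step : StepFP := fin_step all_VP all_VZ all_SR final_PInf all_SZ

end Pool.Agent.SLZ
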