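import Pool.Agent.SLZ.StM

/-!
# SLZ, MB: the Morse lemma for flag complexes (helper24)
-/

set_option autoImplicit false
set_option linter.unusedVariables false

noncomputable section

namespace Pool.Agent.SLZ

theorem MB_mem_Ch {V : Type} {s : Set (List V)} {j : ℕ} {c : List V →₀ ℤ} :
    c ∈ Ch s j ↔ ∀ l ∈ c.support, l ∈ s ∧ l.length = j := by
  rw [Ch, Finsupp.mem_supported]
  exact Iff.rfl

theorem MB_Ch_mono {V : Type} {s t : Set (List V)} (h : s ⊆ t) (j : ℕ) : Ch s j ≤ Ch t j :=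
  Finsupp.supported_mono (fun l hl => ⟨h hl.1, hl.2⟩)

theorem MB_Fl_mono {V : Type} (r : V → V → Prop) {S T : Set V} (h : S ⊆ T) :
    (Fl r S).s ⊆ (Fl r T).s := fun l hl x hx => ⟨h (hl x hx).1, (hl x hx).2⟩

/-- a chain all of whose vertices lie in `T` -/
theorem MB_restrict {V : Type} (r : V → V → Prop) {S T : Set V} {j : ℕ} {c : List V →₀ ℤ}
    (hc : c ∈ Ch (Fl r S).s j) (h : ∀ l ∈ c.support, ∀ x ∈ l, x ∈ T) :
    c ∈ Ch (Fl r T).s j := by
  rw [MB_mem_Ch] at hc ⊢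
  exact fun l hl => ⟨fun x hx => ⟨h l hl x hx, ((hc l hl).1 x hx).2⟩, (hc l hl).2⟩

theorem MB_verts {V : Type} (r : V → V → Prop) {S : Set V} {j : ℕ} {c : List V →₀ ℤ}
    (hc : c ∈ Ch (Fl r S).s j) : ∀ l ∈ c.support, ∀ x ∈ l, x ∈ S := by
  rw [MB_mem_Ch] at hc
  exact fun l hl x hx => ((hc l hl).1 x hx).1

/-- the vertices of a chain -/
def MB_vs {V : Type} (c : List V →₀ ℤ) : Set V := {x | ∃ l ∈ c.support, x ∈ l}

theorem MB_vs_finite {V : Type} (c : List V →₀ ℤ) : (MB_vs c).Finite := by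
  have h : MB_vs c = ⋃ l ∈ (c.support : Set (List V)), {x | x ∈ l} := by
    ext x
    simp [MB_vs]
  rw [h]
  exact c.support.finite_toSet.biUnion fun l _ => List.finite_toSet l

theorem MB_max {V Λ : Type} [LinearOrder Λ] (r : V → V → Prop) (f : V → Λ) (S0 S1 : Set V)
    (k : ℕ) (c : List V →₀ ℤ) (hc : c ∈ Ch (Fl r S1).s k) :
    c ∈ Ch (Fl r S0).s k ∨ ∃ a ∈ S1, a ∉ S0 ∧
      c ∈ Ch (Fl r (S0 ∪ {u | u ∈ S1 ∧ f u ≤ f a})).s k := by
  have hfin : (MB_vs c \ S0).Finite := (MB_vs_finite c).subset Set.sdiff_subset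
  rcases Set.eq_empty_or_nonempty (MB_vs c \ S0) with h | h
  · left
    refine MB_restrict r hc fun l hl x hx => ?_
    by_contra h1
    have h2 : x ∈ MB_vs c \ S0 := ⟨⟨l, hl, hx⟩, h1⟩
    rw [h] at h2
    exact h2
  · right
    obtain ⟨a, ⟨⟨l0, hl0, ha⟩, ha0⟩, hmax⟩ := Set.exists_max_image _ f hfin h
    refine ⟨a, MB_verts r hc l0 hl0 a ha, ha0, MB_restrict r hc fun l hl x hx => ?_⟩
    by_cases h1 : x ∈ S0
    · exact Or.inl h1
    · exact Or.inr ⟨MB_verts r hc l hl x hx, hmax x ⟨⟨l, hl, hx⟩, h1⟩⟩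

section

variable (hMA : St_MA) {V Λ : Type} [LinearOrder Λ] [WellFoundedLT Λ] (r : V → V → Prop)
  (f : V → Λ) (S0 S : Set V) (hr : ∀ x, r x x) (hs : ∀ x y, r x y → r y x) (hS : S0 ⊆ S)
  (hf : ∀ u ∈ S, ∀ v ∈ S, u ∉ S0 → v ∉ S0 → u ≠ v → r u v → f u ≠ f v) (j : ℕ)
  (hl : ∀ v ∈ S, v ∉ S0 → Ex (Fl r (dlk r f S0 S v)) j)

/-- chains which can be pushed into `S0` -/
def MB_ok (c : List V →₀ ℤ) : Prop :=
  ∃ c' ∈ Ch (Fl r S0).s (j + 1), ∃ e ∈ Ch (Fl r S).s (j + 2), c = c' + bd e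

omit [WellFoundedLT Λ] in
include hMA hr hs hS hf hl in
theorem MB_inner (m : Λ) (IH : ∀ c ∈ Ch (Fl r (S0 ∪ {u | u ∈ S ∧ f u < m})).s (j + 1),
      bd c ∈ Ch (Fl r S0).s j → MB_ok r S0 S j c) (F : Finset V) :
    (∀ u ∈ F, u ∈ S ∧ u ∉ S0 ∧ f u = m) →
    ∀ c ∈ Ch (Fl r (S0 ∪ {u | u ∈ S ∧ f u < m} ∪ ↑F)).s (j + 1),
      bd c ∈ Ch (Fl r S0).s j → MB_ok r S0 S j c := by
  classical
  induction F using Finset.induction_on with
  | empty =>
    intro _ c hc hb
    refine IH c ?_ hb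
    simpa using hc
  | insert v F hv ih =>
    intro hF c hc hb
    obtain ⟨hvS, hv0, hvm⟩ := hF v (Finset.mem_insert_self v F)
    set S' : Set V := S0 ∪ {u | u ∈ S ∧ f u < m} ∪ ↑(insert v F) with hS'
    have hS'S : S' ⊆ S := by
      rintro u ((hu | hu) | hu)
      · exact hS hu
      · exact hu.1
      · exact (hF u (by simpa using hu)).1
    have hvS' : v ∈ S' := Or.inr (by simp)
    have hlk : (lk (Fl r S') v).s = (Fl r (dlk r f S0 S v)).s := by
      ext l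
      constructor
      · rintro ⟨h1, h2⟩
        intro x hx
        have hxv : x ≠ v := fun h => h1 (h ▸ hx)
        have h3 := h2 x (List.mem_cons_of_mem v hx)
        have h4 := (h2 v List.mem_cons_self).2 x (List.mem_cons_of_mem v hx)
        refine ⟨⟨hS'S h3.1, hxv, h4, ?_⟩, fun y hy => h3.2 y (List.mem_cons_of_mem v hy)⟩
        rcases h3.1 with (h5 | h5) | h5
        · exact Or.inl h5
        · exact Or.inr (by rw [hvm]; exact h5.2)
        · obtain ⟨h6, h7, h8⟩ := hF x (by simpa using h5)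
          exact absurd (h8.trans hvm.symm) (hf x h6 v hvS h7 hv0 hxv (hs _ _ h4))
      · intro h
        have h1 : v ∉ l := fun h2 => (h v h2).1.2.1 rfl
        refine ⟨h1, fun x hx => ?_⟩
        rcases List.mem_cons.1 hx with rfl | hx
        · refine ⟨hvS', fun y hy => ?_⟩
          rcases List.mem_cons.1 hy with rfl | hy
          · exact hr _
          · exact (h y hy).1.2.2.1
        · obtain ⟨⟨h2, h3, h4, h5⟩, h6⟩ := h x hx
          refine ⟨?_, fun y hy => ?_⟩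
          · rcases h5 with h5 | h5
            · exact Or.inl (Or.inl h5)
            · exact Or.inl (Or.inr ⟨h2, by rw [← hvm]; exact h5⟩)
          · rcases List.mem_cons.1 hy with rfl | hy
            · exact hs _ _ h4
            · exact h6 y hy
    have hex : Ex (lk (Fl r S') v) j := by
      have h1 := hl v hvS hv0
      unfold Ex at h1 ⊢
      rw [hlk]
      exact h1
    have hb' : bd c ∈ Ch (del (Fl r S') v).s j := by
      rw [MB_mem_Ch] at hb ⊢
      intro l hl'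
      refine ⟨⟨fun h1 => hv0 ((hb l hl').1 v h1).1, ?_⟩, (hb l hl').2⟩
      exact MB_Fl_mono r (fun u hu => Or.inl (Or.inl hu)) (hb l hl').1
    obtain ⟨c1, hc1, e, he, hce⟩ := (hMA V).2.2.2.2.1 (Fl r S') v j hex c hc hb'
    have hc1' : c1 ∈ Ch (Fl r (S0 ∪ {u | u ∈ S ∧ f u < m} ∪ ↑F)).s (j + 1) := by
      rw [MB_mem_Ch] at hc1 ⊢
      intro l hl'
      obtain ⟨⟨h1, h2⟩, h3⟩ := hc1 l hl'
      refine ⟨fun x hx => ⟨?_, (h2 x hx).2⟩, h3⟩
      rcases (h2 x hx).1 with h4 | h4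
      · exact Or.inl h4
      · have h5 : x ≠ v := fun h => h1 (h ▸ hx)
        have h6 : x = v ∨ x ∈ F := by simpa using h4
        exact Or.inr (by simpa using h6.resolve_left h5)
    have hbc : bd c1 = bd c := by
      rw [hce, map_add, (hMA V).1 e, add_zero]
    obtain ⟨c', hc', e', he', h7⟩ := ih (fun u hu => hF u (Finset.mem_insert_of_mem hu)) c1 hc1'
      (by rw [hbc]; exact hb)
    refine ⟨c', hc', e + e', Submodule.add_mem _ (MB_Ch_mono (MB_Fl_mono r hS'S) _ he) he', ?_⟩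
    rw [hce, h7, map_add]
    abel

include hMA hr hs hS hf hl in
theorem MB_outer (m : Λ) : ∀ c ∈ Ch (Fl r (S0 ∪ {u | u ∈ S ∧ f u ≤ m})).s (j + 1),
    bd c ∈ Ch (Fl r S0).s j → MB_ok r S0 S j c := by
  classical
  induction m using WellFoundedLT.induction with
  | ind m ih =>
    intro c hc hb
    have hfin : ((MB_vs c \ S0) ∩ {u | f u = m}).Finite :=
      ((MB_vs_finite c).subset Set.sdiff_subset).subset Set.inter_subset_left
    refine MB_inner hMA r f S0 S hr hs hS hf j hl m ?_ hfin.toFinset ?_ c ?_ hb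
    · intro c hc hb
      rcases MB_max r f S0 _ (j + 1) c hc with h | ⟨a, ha, ha0, h⟩
      · exact ⟨c, h, 0, Submodule.zero_mem _, by simp⟩
      · have h1 : f a < m := (ha.resolve_left ha0).2
        refine ih (f a) h1 c (MB_Ch_mono (MB_Fl_mono r ?_) _ h) hb
        rintro u (hu | ⟨hu | hu, hu'⟩)
        · exact Or.inl hu
        · exact Or.inl hu
        · exact Or.inr ⟨hu.1, hu'⟩
    · intro u hu
      obtain ⟨⟨⟨l, hl1, hl2⟩, hu0⟩, hum⟩ := hfin.mem_toFinset.1 hu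
      exact ⟨((MB_verts r hc l hl1 u hl2).resolve_left hu0).1, hu0, hum⟩
    · refine MB_restrict r hc fun l hl' x hx => ?_
      rcases MB_verts r hc l hl' x hx with h1 | ⟨h1, h2⟩
      · exact Or.inl (Or.inl h1)
      · by_cases h0 : x ∈ S0
        · exact Or.inl (Or.inl h0)
        · rcases h2.lt_or_eq with h3 | h3
          · exact Or.inl (Or.inr ⟨h1, h3⟩)
          · exact Or.inr (hfin.mem_toFinset.2 ⟨⟨⟨l, hl', hx⟩, h0⟩, h3⟩)

include hMA hr hs hS hf hl in
theorem MB_push : ∀ c ∈ Ch (Fl r S).s (j + 1), bd c ∈ Ch (Fl r S0).s j → MB_ok r S0 S j c := by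
  intro c hc hb
  rcases MB_max r f S0 _ (j + 1) c hc with h | ⟨a, ha, ha0, h⟩
  · exact ⟨c, h, 0, Submodule.zero_mem _, by simp⟩
  · exact MB_outer hMA r f S0 S hr hs hS hf j hl (f a) c h hb

end

theorem thm_MB : St_MB := by
  intro hMA V Λ _ _ r f S0 S hr hs hS hf c
  have hbb := (hMA V).1
  constructor
  · intro h0 hl j hj z hz hbz
    rcases j with _ | j
    · have hz0 : z ∈ Ch (Fl r S0).s 0 := by
        refine MB_restrict r hz fun l hl' x hx => ?_
        have h1 := (MB_mem_Ch.1 hz l hl').2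
        rw [List.length_eq_zero_iff] at h1
        rw [h1] at hx
        exact absurd hx List.not_mem_nil
      obtain ⟨y, hy, hyz⟩ := h0 0 hj z hz0 hbz
      exact ⟨y, MB_Ch_mono (MB_Fl_mono r hS) _ hy, hyz⟩
    · obtain ⟨c', hc', e, he, hze⟩ := MB_push hMA r f S0 S hr hs hS hf j
        (fun v hv hv0 => hl v hv hv0 j (by omega)) z hz (by rw [hbz]; exact Submodule.zero_mem _)
      have h1 : bd c' = 0 := by
        have h2 : bd z = bd c' := by rw [hze, map_add, hbb e, add_zero]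
        rw [← h2, hbz]
      obtain ⟨y, hy, hyc⟩ := h0 (j + 1) hj c' hc' h1
      refine ⟨y + e, Submodule.add_mem _ (MB_Ch_mono (MB_Fl_mono r hS) _ hy) he, ?_⟩
      rw [map_add, hyc, ← hze]
  · intro h0 hl j hj z hz hbz
    obtain ⟨y, hy, hyz⟩ := h0 j hj z (MB_Ch_mono (MB_Fl_mono r hS) _ hz) hbz
    obtain ⟨c', hc', e, he, hye⟩ := MB_push hMA r f S0 S hr hs hS hf j
      (fun v hv hv0 => hl v hv hv0 j hj) y hy (by rw [hyz]; exact hz)
    refine ⟨c', hc', ?_⟩
    rw [← hyz, hye, map_add, hbb e, add_zero]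

end Pool.Agent.SLZ
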