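import Pool.Agent.SLZ.StM

/-!
# SLZ/MC (helper95): stable connectivity, formal properties
-/

set_option autoImplicit false
set_option linter.unusedVariables false

noncomputable section

namespace Pool.Agent.SLZ

theorem MC_mapCh {V W : Type} (g : V → W) (s : Set (List V)) (s' : Set (List W)) (h : ∀ l ∈ s, l.map g ∈ s') (j : ℕ)
    (z : List V →₀ ℤ) (hz : z ∈ Ch s j) : z.mapDomain (List.map g) ∈ Ch s' j := by
  classical
  rw [Ch, Finsupp.mem_supported] at hz ⊢
  intro l hl
  have h1 := Finsupp.mapDomain_support hl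
  rw [Finset.mem_image] at h1
  obtain ⟨l', hl', rfl⟩ := h1
  have h2 := hz hl'
  exact ⟨h _ h2.1, by rw [List.length_map]; exact h2.2⟩

theorem MC_chMono {V : Type} {s s' : Set (List V)} (h : s ⊆ s') (j : ℕ) {z : List V →₀ ℤ} (hz : z ∈ Ch s j) : z ∈ Ch s' j := by
  rw [Ch, Finsupp.mem_supported] at hz ⊢
  exact fun l hl => ⟨h (hz hl).1, (hz hl).2⟩

theorem MC_map (hMA : St_MA) {V W : Type} (A : Cx V) (B : Cx W) (g : V → W) (h : W → V) (hA : ∀ l ∈ A.s, l.map g ∈ B.s)
    (hB : ∀ l ∈ B.s, l.map h ∈ A.s) (hgh : ∀ l ∈ B.s, (l.map h).map g = l) (j : ℕ) (hex : Ex A j) : Ex B j := by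
  intro z hz hbz
  have h1 : bd (z.mapDomain (List.map h)) = 0 := by
    rw [(hMA W).2.2.2.1 V h z, hbz, Finsupp.mapDomain_zero]
  obtain ⟨y, hy, hby⟩ := hex _ (MC_mapCh h B.s A.s hB j z hz) h1
  refine ⟨y.mapDomain (List.map g), MC_mapCh g A.s B.s hA (j + 1) y hy, ?_⟩
  rw [(hMA V).2.2.2.1 W g y, hby, ← Finsupp.mapDomain_comp]
  have h2 : z.mapDomain (List.map g ∘ List.map h) = z.mapDomain id := by
    refine Finsupp.mapDomain_congr (fun l hl => ?_)
    have h3 : l ∈ B.s := by
      rw [Ch, Finsupp.mem_supported] at hz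
      exact (hz hl).1
    exact hgh l h3
  rw [h2, Finsupp.mapDomain_id]

theorem MC_empty {V : Type} (r : V → V → Prop) (j : ℕ) : Ex (Fl r (∅ : Set V)) j ↔ j ≠ 0 := by
  classical
  have hnil : ∀ l ∈ (Fl r (∅ : Set V)).s, l = [] := by
    intro l hl
    cases l with
    | nil => rfl
    | cons a t => exact absurd (hl a (by simp)).1 (Set.notMem_empty a)
  have hzero : ∀ (i : ℕ), i ≠ 0 → ∀ z ∈ Ch (Fl r (∅ : Set V)).s i, z = 0 := by
    intro i hi z hz
    rw [Ch, Finsupp.mem_supported] at hz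
    rw [← Finsupp.support_eq_empty]
    by_contra hne
    obtain ⟨l, hl⟩ := Finset.nonempty_iff_ne_empty.2 hne
    have h1 := hz hl
    rw [hnil l h1.1] at h1
    exact hi h1.2.symm
  constructor
  · rintro hex rfl
    have h1 : (Finsupp.single ([] : List V) (1 : ℤ)) ∈ Ch (Fl r (∅ : Set V)).s 0 := by
      rw [Ch]
      refine Finsupp.single_mem_supported ℤ 1 ⟨?_, rfl⟩
      intro x hx
      exact absurd hx (by simp)
    obtain ⟨y, hy, hby⟩ := hex _ h1 (by simp [bd, bdL])
    rw [hzero 1 one_ne_zero y hy, map_zero] at hby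
    have h2 := DFunLike.congr_fun hby ([] : List V)
    simp at h2
  · intro hj z hz _
    exact ⟨0, Submodule.zero_mem _, by rw [hzero j hj z hz, map_zero]⟩

theorem MC_fl (hMA : St_MA) {V W : Type} (r : V → V → Prop) (q : W → W → Prop) (S : Set V) (g : V → W) (hinj : Set.InjOn g S)
    (hr : ∀ x ∈ S, ∀ y ∈ S, r x y ↔ q (g x) (g y)) (j : ℕ) : Ex (Fl r S) j ↔ Ex (Fl q (g '' S)) j := by
  classical
  rcases S.eq_empty_or_nonempty with rfl | hne
  · rw [Set.image_empty, MC_empty, MC_empty]
  · obtain ⟨v0, hv0⟩ := hne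
    have : Nonempty V := ⟨v0⟩
    set h : W → V := Function.invFunOn g S with hh
    have h1 : ∀ y ∈ g '' S, h y ∈ S ∧ g (h y) = y := fun y hy => ⟨Function.invFunOn_mem hy, Function.invFunOn_eq hy⟩
    have h2 : ∀ x ∈ S, h (g x) = x := fun x hx => hinj.leftInvOn_invFunOn hx
    have hA : ∀ l ∈ (Fl r S).s, l.map g ∈ (Fl q (g '' S)).s := by
      intro l hl x hx
      rw [List.mem_map] at hx
      obtain ⟨x', hx', rfl⟩ := hx
      refine ⟨⟨x', (hl x' hx').1, rfl⟩, ?_⟩
      intro y hy
      rw [List.mem_map] at hy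
      obtain ⟨y', hy', rfl⟩ := hy
      exact (hr x' (hl x' hx').1 y' (hl y' hy').1).1 ((hl x' hx').2 y' hy')
    have hB : ∀ l ∈ (Fl q (g '' S)).s, l.map h ∈ (Fl r S).s := by
      intro l hl x hx
      rw [List.mem_map] at hx
      obtain ⟨x', hx', rfl⟩ := hx
      have h3 := h1 x' (hl x' hx').1
      refine ⟨h3.1, ?_⟩
      intro y hy
      rw [List.mem_map] at hy
      obtain ⟨y', hy', rfl⟩ := hy
      have h4 := h1 y' (hl y' hy').1
      rw [hr _ h3.1 _ h4.1, h3.2, h4.2]
      exact (hl x' hx').2 y' hy'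
    constructor
    · refine MC_map hMA (Fl r S) (Fl q (g '' S)) g h hA hB ?_ j
      intro l hl
      rw [List.map_map]
      conv_rhs => rw [← List.map_id l]
      refine List.map_congr_left (fun x hx => ?_)
      exact (h1 x (hl x hx).1).2
    · refine MC_map hMA (Fl q (g '' S)) (Fl r S) h g hB hA ?_ j
      intro l hl
      rw [List.map_map]
      conv_rhs => rw [← List.map_id l]
      refine List.map_congr_left (fun x hx => ?_)
      exact h2 x (hl x hx).1

theorem MC_conn (hMA : St_MA) {V W : Type} (r : V → V → Prop) (q : W → W → Prop) (S : Set V) (g : V → W) (hinj : Set.InjOn g S)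
    (hr : ∀ x ∈ S, ∀ y ∈ S, r x y ↔ q (g x) (g y)) (c : ℕ) : Conn (Fl r S) c ↔ Conn (Fl q (g '' S)) c := by
  constructor
  · exact fun h j hj => (MC_fl hMA r q S g hinj hr j).1 (h j hj)
  · exact fun h j hj => (MC_fl hMA r q S g hinj hr j).2 (h j hj)

theorem MC_connMono {V : Type} {A : Cx V} {c c' : ℕ} (h : Conn A c) (hc : c' ≤ c) : Conn A c' := fun j hj => h j (hj.trans_le hc)

theorem MC_joinRefl {V W : Type} (r : V → V → Prop) (q : W → W → Prop) (hr : ∀ x, r x x) (hq : ∀ x, q x x) (x : V ⊕ W) :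
    joinR r q x x := by
  rcases x with x | x
  · exact hr x
  · exact hq x

theorem MC_joinSymm {V W : Type} (r : V → V → Prop) (q : W → W → Prop) (hr : ∀ x y, r x y → r y x) (hq : ∀ x y, q x y → q y x)
    (x y : V ⊕ W) (h : joinR r q x y) : joinR r q y x := by
  rcases x with x | x <;> rcases y with y | y
  · exact hr x y h
  · trivial
  · trivial
  · exact hq x y h

/-- the join of a set with `Z` -/
def MC_jn {V W : Type} (S : Set V) (Z : Set W) : Set (V ⊕ W) := Sum.inl '' S ∪ Sum.inr '' Z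

theorem MC_inl {V W : Type} (S : Set V) (Z : Set W) (x : V) : (Sum.inl x : V ⊕ W) ∈ MC_jn S Z ↔ x ∈ S := by
  simp [MC_jn]

theorem MC_inr {V W : Type} (S : Set V) (Z : Set W) (x : W) : (Sum.inr x : V ⊕ W) ∈ MC_jn S Z ↔ x ∈ Z := by
  simp [MC_jn]

theorem MC_dlk {V W Λ Λ' : Type} [LT Λ] [LT Λ'] (r : V → V → Prop) (q : W → W → Prop) (f : V → Λ) (f' : V ⊕ W → Λ')
    (hf : ∀ x y, f' (Sum.inl x) < f' (Sum.inl y) ↔ f x < f y) (T S : Set V) (Z : Set W) (v : V) :
    dlk (joinR r q) f' (MC_jn T Z) (MC_jn S Z) (Sum.inl v) = MC_jn (dlk r f T S v) Z := by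
  ext u
  rcases u with u | u
  · simp only [dlk, Set.mem_ofPred_eq, MC_inl, hf, ne_eq, Sum.inl.injEq]
    rfl
  · simp only [dlk, Set.mem_ofPred_eq, MC_inr, ne_eq, reduceCtorEq, not_false_eq_true, true_and]
    constructor
    · exact fun h => h.1
    · exact fun h => ⟨h, trivial, Or.inl h⟩

theorem MC_fin (hMA : St_MA) (hMB : St_MB) {V W : Type} (r : V → V → Prop) (hr : ∀ x, r x x) (hs : ∀ x y, r x y → r y x)
    (q : W → W → Prop) (hq : ∀ x, q x x) (hqs : ∀ x y, q x y → q y x) (Z : Set W) (b : ℕ) (hZ : Conn (Fl q Z) b) :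
    ∀ (n : ℕ) (F : Set V), F.Finite → F.ncard = n → Conn (Fl (joinR r q) (MC_jn F Z)) b := by
  classical
  intro n
  induction n using Nat.strong_induction_on with
  | _ n ih =>
    intro F hF hn
    rcases F.eq_empty_or_nonempty with rfl | ⟨v, hv⟩
    · have h1 := (MC_conn hMA q (joinR r q) Z Sum.inr Sum.inr_injective.injOn (fun x _ y _ => Iff.rfl) b).1 hZ
      have e : MC_jn (∅ : Set V) Z = Sum.inr '' Z := by simp [MC_jn]
      rw [e]
      exact h1
    · have hlt : (F \ {v}).ncard < n := by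
        rw [← hn]
        exact Set.ncard_sdiff_singleton_lt_of_mem hv hF
      have h0 : Conn (Fl (joinR r q) (MC_jn (F \ {v}) Z)) b := ih _ hlt (F \ {v}) hF.sdiff rfl
      refine (hMB hMA (V ⊕ W) ℕ (joinR r q) (fun _ => 0) (MC_jn (F \ {v}) Z) (MC_jn F Z) (MC_joinRefl r q hr hq)
        (MC_joinSymm r q hs hqs) ?_ ?_ b).1 h0 ?_
      · rintro (x | x) hx
        · rw [MC_inl] at hx ⊢
          exact hx.1
        · rw [MC_inr] at hx ⊢
          exact hx
      · rintro (u | u) hu (w | w) hw hu' hw' hne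
        · rw [MC_inl] at hu hw hu' hw'
          exfalso
          have e1 : u = v := by
            by_contra h
            exact hu' ⟨hu, h⟩
          have e2 : w = v := by
            by_contra h
            exact hw' ⟨hw, h⟩
          exact hne (by rw [e1, e2])
        · rw [MC_inr] at hw hw'
          exact absurd hw hw'
        · rw [MC_inr] at hu hu'
          exact absurd hu hu'
        · rw [MC_inr] at hu hu'
          exact absurd hu hu'
      · rintro (u | u) hu hu'
        · rw [MC_inl] at hu hu'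
          have e1 : u = v := by
            by_contra h
            exact hu' ⟨hu, h⟩
          subst e1
          rw [MC_dlk r q (fun _ : V => (0 : ℕ)) (fun _ => 0) (fun x y => Iff.rfl)]
          have hsub : dlk r (fun _ : V => (0 : ℕ)) (F \ {u}) F u ⊆ F \ {u} := fun x hx => ⟨hx.1, hx.2.1⟩
          have hfin := (hF.sdiff (t := {u})).subset hsub
          have hle := Set.ncard_le_ncard hsub hF.sdiff
          exact MC_connMono (ih _ (hle.trans_lt hlt) _ hfin rfl) (Nat.sub_le b 1)
        · rw [MC_inr] at hu hu'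
          exact absurd hu hu'

theorem MC_exFin {V W : Type} (r : V → V → Prop) (q : W → W → Prop) (S : Set V) (Z : Set W) (j : ℕ)
    (h : ∀ F : Set V, F.Finite → F ⊆ S → Ex (Fl (joinR r q) (MC_jn F Z)) j) : Ex (Fl (joinR r q) (MC_jn S Z)) j := by
  classical
  intro z hz hbz
  set F : Set V := {x | ∃ l ∈ z.support, (Sum.inl x : V ⊕ W) ∈ l} with hF
  have hz' := hz
  rw [Ch, Finsupp.mem_supported] at hz
  have hFfin : F.Finite := by
    have h1 : (⋃ l ∈ z.support, {x : V | (Sum.inl x : V ⊕ W) ∈ l}).Finite := by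
      refine Set.Finite.biUnion z.support.finite_toSet (fun l _ => ?_)
      have h2 : {x : V | (Sum.inl x : V ⊕ W) ∈ l} = Sum.inl ⁻¹' {y | y ∈ l} := rfl
      rw [h2]
      exact (List.finite_toSet l).preimage Sum.inl_injective.injOn
    refine h1.subset ?_
    rintro x ⟨l, hl, hx⟩
    exact Set.mem_biUnion (show l ∈ (z.support : Set _) from hl) hx
  have hFS : F ⊆ S := by
    rintro x ⟨l, hl, hx⟩
    have h1 := ((hz hl).1 _ hx).1
    exact (MC_inl S Z x).1 h1
  have hzF : z ∈ Ch (Fl (joinR r q) (MC_jn F Z)).s j := by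
    rw [Ch, Finsupp.mem_supported]
    intro l hl
    refine ⟨?_, (hz hl).2⟩
    intro x hx
    refine ⟨?_, ((hz hl).1 x hx).2⟩
    have h1 := ((hz hl).1 x hx).1
    rcases x with x | x
    · rw [MC_inl]
      exact ⟨l, hl, hx⟩
    · exact (MC_inr F Z x).2 ((MC_inr S Z x).1 h1)
  obtain ⟨y, hy, hby⟩ := h F hFfin hFS z hzF hbz
  refine ⟨y, MC_chMono ?_ (j + 1) hy, hby⟩
  intro l hl x hx
  refine ⟨?_, (hl x hx).2⟩
  have h1 := (hl x hx).1
  rcases x with x | x
  · rw [MC_inl] at h1 ⊢
    exact hFS h1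
  · rw [MC_inr] at h1 ⊢
    exact h1

/-- **MC.** Stable connectivity: formal properties. -/
theorem thm_MC : St_MC := by
  classical
  intro hMA hMB V r hr hs S T c
  refine ⟨?_, ?_, ?_, ?_, ?_, ?_, ?_⟩
  · -- (1)
    intro h
    have h1 := h Empty (fun _ _ => True) (fun _ => trivial) (fun _ _ _ => trivial) ∅ 0 (fun j hj => absurd hj (Nat.not_lt_zero j))
    have e : (Sum.inl '' S ∪ Sum.inr '' (∅ : Set Empty) : Set (V ⊕ Empty)) = Sum.inl '' S := by simp
    rw [e, Nat.add_zero] at h1
    exact (MC_conn hMA r (joinR r (fun _ _ => True)) S Sum.inl Sum.inl_injective.injOn (fun x _ y _ => Iff.rfl) c).2 h1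
  · -- (2)
    intro h c' hc' W q hq hqs Z b hZ
    exact MC_connMono (h W q hq hqs Z b hZ) (by omega)
  · -- (3)
    intro W q hq hqs Z b hZ j hj
    refine MC_exFin r q S Z j (fun F hF hFS => ?_)
    exact MC_fin hMA hMB r hr hs q hq hqs Z b hZ _ F hF rfl j (by omega)
  · -- (4)
    rintro ⟨v, hv, hvS⟩ W q hq hqs Z b hZ j hj
    refine (hMA (V ⊕ W)).2.2.2.2.2.1 _ (Sum.inl v) ?_ j
    intro l hl
    have hadj : ∀ x ∈ l, joinR r q (Sum.inl v) x ∧ joinR r q x (Sum.inl v) := by
      intro x hx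
      have h1 := (hl x hx).1
      rcases x with x | x
      · have h2 : x ∈ S := (MC_inl S Z x).1 h1
        exact ⟨hvS x h2, hs _ _ (hvS x h2)⟩
      · exact ⟨trivial, trivial⟩
    intro x hx
    rw [List.mem_cons] at hx
    rcases hx with rfl | hx
    · refine ⟨(MC_inl S Z v).2 hv, fun y hy => ?_⟩
      rw [List.mem_cons] at hy
      rcases hy with rfl | hy
      · exact hr v
      · exact (hadj y hy).1
    · refine ⟨(hl x hx).1, fun y hy => ?_⟩
      rw [List.mem_cons] at hy
      rcases hy with rfl | hy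
      · exact (hadj x hx).2
      · exact (hl x hx).2 y hy
  · -- (5)
    intro c' hdis hST h1 h2 W q hq hqs Z b hZ
    have h3 := h2 W q hq hqs Z b hZ
    have h4 := h1 (V ⊕ W) (joinR r q) (MC_joinRefl r q hr hq) (MC_joinSymm r q hs hqs) _ _ h3
    set g : V ⊕ (V ⊕ W) → V ⊕ W := Sum.elim Sum.inl id with hg
    have himg : g '' (MC_jn S (MC_jn T Z)) = MC_jn (S ∪ T) Z := by
      ext x
      rw [Set.mem_image]
      constructor
      · rintro ⟨y, hy, rfl⟩
        rcases y with y | y | y
        · rw [MC_inl] at hy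
          exact (MC_inl _ _ y).2 (Or.inl hy)
        · rw [MC_inr, MC_inl] at hy
          exact (MC_inl _ _ y).2 (Or.inr hy)
        · rw [MC_inr, MC_inr] at hy
          exact (MC_inr _ _ y).2 hy
      · intro hx
        rcases x with x | x
        · rw [MC_inl] at hx
          rcases hx with hx | hx
          · exact ⟨Sum.inl x, (MC_inl _ _ x).2 hx, rfl⟩
          · exact ⟨Sum.inr (Sum.inl x), (MC_inr _ _ _).2 ((MC_inl _ _ x).2 hx), rfl⟩
        · rw [MC_inr] at hx
          exact ⟨Sum.inr (Sum.inr x), (MC_inr _ _ _).2 ((MC_inr _ _ x).2 hx), rfl⟩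
    have hinj : Set.InjOn g (MC_jn S (MC_jn T Z)) := by
      rintro (x | x | x) hx (y | y | y) hy hxy
      · exact congrArg _ (Sum.inl_injective hxy)
      · exfalso
        have e := Sum.inl_injective hxy
        rw [MC_inl] at hx
        rw [MC_inr, MC_inl] at hy
        have e' : x = y := e
        subst e'
        exact Set.disjoint_left.1 hdis hx hy
      · exact absurd hxy (by simp [hg])
      · exfalso
        have e := Sum.inl_injective hxy
        rw [MC_inl] at hy
        rw [MC_inr, MC_inl] at hx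
        have e' : x = y := e
        subst e'
        exact Set.disjoint_left.1 hdis hy hx
      · exact congrArg _ hxy
      · exact congrArg _ hxy
      · exact absurd hxy (by simp [hg])
      · exact congrArg _ hxy
      · exact congrArg _ hxy
    have hadj : ∀ x ∈ MC_jn S (MC_jn T Z), ∀ y ∈ MC_jn S (MC_jn T Z),
        joinR r (joinR r q) x y ↔ joinR r q (g x) (g y) := by
      rintro (x | x | x) hx (y | y | y) hy
      · exact Iff.rfl
      · rw [MC_inl] at hx
        rw [MC_inr, MC_inl] at hy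
        exact ⟨fun _ => hST x hx y hy, fun _ => trivial⟩
      · exact Iff.rfl
      · rw [MC_inl] at hy
        rw [MC_inr, MC_inl] at hx
        exact ⟨fun _ => hs _ _ (hST y hy x hx), fun _ => trivial⟩
      · exact Iff.rfl
      · exact Iff.rfl
      · exact Iff.rfl
      · exact Iff.rfl
      · exact Iff.rfl
    have h5 := (MC_conn hMA (joinR r (joinR r q)) (joinR r q) (MC_jn S (MC_jn T Z)) g hinj hadj _).1 h4
    rw [himg] at h5
    rw [Nat.add_assoc]
    exact h5
  · -- (6)
    intro W q g hq hqs hinj hadj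
    have key : ∀ (W' : Type) (q' : W' → W' → Prop) (Z : Set W') (n : ℕ),
        Conn (Fl (joinR r q') (MC_jn S Z)) n ↔ Conn (Fl (joinR q q') (MC_jn (g '' S) Z)) n := by
      intro W' q' Z n
      have himg : Sum.map g id '' (MC_jn S Z) = MC_jn (g '' S) Z := by
        ext x
        rw [Set.mem_image]
        constructor
        · rintro ⟨y, hy, rfl⟩
          rcases y with y | y
          · rw [MC_inl] at hy
            exact (MC_inl _ _ _).2 ⟨y, hy, rfl⟩
          · rw [MC_inr] at hy
            exact (MC_inr _ _ _).2 hy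
        · intro hx
          rcases x with x | x
          · rw [MC_inl] at hx
            obtain ⟨y, hy, rfl⟩ := hx
            exact ⟨Sum.inl y, (MC_inl _ _ y).2 hy, rfl⟩
          · rw [MC_inr] at hx
            exact ⟨Sum.inr x, (MC_inr _ _ x).2 hx, rfl⟩
      rw [← himg]
      refine MC_conn hMA (joinR r q') (joinR q q') (MC_jn S Z) (Sum.map g id) ?_ ?_ n
      · rintro (x | x) hx (y | y) hy hxy
        · rw [MC_inl] at hx hy
          exact congrArg _ (hinj hx hy (Sum.inl_injective hxy))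
        · exact absurd hxy (by simp)
        · exact absurd hxy (by simp)
        · exact congrArg _ (Sum.inr_injective hxy)
      · rintro (x | x) hx (y | y) hy
        · rw [MC_inl] at hx hy
          exact hadj x hx y hy
        · exact Iff.rfl
        · exact Iff.rfl
        · exact Iff.rfl
    constructor
    · intro h W' q' hq' hqs' Z b hZ
      exact (key W' q' Z _).1 (h W' q' hq' hqs' Z b hZ)
    · intro h W' q' hq' hqs' Z b hZ
      exact (key W' q' Z _).2 (h W' q' hq' hqs' Z b hZ)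
  · -- (7)
    intro Λ _ _ f hTS hf
    have hf' : ∀ (W : Type) (x y : V), (Sum.elim (fun x => ((f x : Λ) : WithBot Λ)) (fun _ : W => (⊥ : WithBot Λ)) (Sum.inl x)) <
        (Sum.elim (fun x => ((f x : Λ) : WithBot Λ)) (fun _ : W => (⊥ : WithBot Λ)) (Sum.inl y)) ↔ f x < f y := by
      intro W x y
      simp
    have hcond : ∀ (W : Type) (q : W → W → Prop) (Z : Set W), ∀ u ∈ MC_jn S Z, ∀ v ∈ MC_jn S Z, u ∉ MC_jn T Z → v ∉ MC_jn T Z →
        u ≠ v → joinR r q u v → (Sum.elim (fun x => ((f x : Λ) : WithBot Λ)) (fun _ : W => (⊥ : WithBot Λ)) u) ≠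
          (Sum.elim (fun x => ((f x : Λ) : WithBot Λ)) (fun _ : W => (⊥ : WithBot Λ)) v) := by
      rintro W q Z (u | u) hu (v | v) hv hu' hv' hne hadj
      · rw [MC_inl] at hu hv hu' hv'
        have h1 := hf u hu v hv hu' hv' (fun h => hne (by rw [h])) hadj
        simpa using h1
      · rw [MC_inr] at hv hv'
        exact absurd hv hv'
      · rw [MC_inr] at hu hu'
        exact absurd hu hu'
      · rw [MC_inr] at hu hu'
        exact absurd hu hu'
    have hsub : ∀ (W : Type) (Z : Set W), MC_jn T Z ⊆ MC_jn S Z := by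
      rintro W Z (x | x) hx
      · rw [MC_inl] at hx ⊢
        exact hTS hx
      · rw [MC_inr] at hx ⊢
        exact hx
    constructor
    · intro h1 h2 W q hq hqs Z b hZ
      refine (hMB hMA (V ⊕ W) (WithBot Λ) (joinR r q) _ (MC_jn T Z) (MC_jn S Z) (MC_joinRefl r q hr hq)
        (MC_joinSymm r q hs hqs) (hsub W Z) (hcond W q Z) (c + b)).1 (h1 W q hq hqs Z b hZ) ?_
      rintro (v | v) hv hv'
      · rw [MC_inl] at hv hv'
        rw [MC_dlk r q f _ (hf' W)]
        exact MC_connMono (h2 v hv hv' W q hq hqs Z b hZ) (by omega)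
      · rw [MC_inr] at hv hv'
        exact absurd hv hv'
    · intro h1 h2 W q hq hqs Z b hZ
      refine (hMB hMA (V ⊕ W) (WithBot Λ) (joinR r q) _ (MC_jn T Z) (MC_jn S Z) (MC_joinRefl r q hr hq)
        (MC_joinSymm r q hs hqs) (hsub W Z) (hcond W q Z) (c + b)).2 (h1 W q hq hqs Z b hZ) ?_
      rintro (v | v) hv hv'
      · rw [MC_inl] at hv hv'
        rw [MC_dlk r q f _ (hf' W)]
        exact h2 v hv hv' W q hq hqs Z b hZ
      · rw [MC_inr] at hv hv'
        exact absurd hv hv'

end Pool.Agent.SLZ
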