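import Pool.Agent.SLZ.StF

/-!
# SLZ, module FBG: Brown's criterion for chain complexes of permutation modules
-/

set_option autoImplicit false
set_option linter.unusedVariables false

noncomputable section

namespace Pool.Agent.SLZ

namespace FBGx

/-- coordinates of the permutation module -/
def E (G S : Type) [Group G] [MulAction G S] : PermM G S ≃ₗ[ℤ] (S →₀ ℤ) :=
  (Representation.ofMulAction ℤ G S).asModuleEquiv.trans (MonoidAlgebra.coeffLinearEquiv ℤ)

theorem E_smul (G S : Type) [Group G] [MulAction G S] (g : G) (v : PermM G S) :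
    E G S (MonoidAlgebra.single g (1 : ℤ) • v) = (E G S v).mapDomain (g • ·) := by
  rw [Representation.single_smul, one_smul]
  rfl

/-- an equivariant map between permutation modules -/
def mk {G S T : Type} [Group G] [MulAction G S] [MulAction G T] (δ : (S →₀ ℤ) →+ (T →₀ ℤ))
    (h : ∀ (g : G) c, δ (c.mapDomain (g • ·)) = (δ c).mapDomain (g • ·)) :
    PermM G S →ₗ[MonoidAlgebra ℤ G] PermM G T :=
  MonoidAlgebra.equivariantOfLinearOfComm
    ((E G T).symm.toLinearMap ∘ₗ δ.toIntLinearMap ∘ₗ (E G S).toLinearMap) (by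
      intro g v
      apply (E G T).injective
      rw [E_smul]
      simp only [LinearMap.comp_apply, LinearEquiv.coe_coe, LinearEquiv.apply_symm_apply,
        AddMonoidHom.coe_toIntLinearMap]
      rw [E_smul, h])

theorem E_mk {G S T : Type} [Group G] [MulAction G S] [MulAction G T] (δ : (S →₀ ℤ) →+ (T →₀ ℤ))
    (h : ∀ (g : G) c, δ (c.mapDomain (g • ·)) = (δ c).mapDomain (g • ·)) (v : PermM G S) :
    E G T (mk δ h v) = δ (E G S v) := by
  unfold mk
  rw [MonoidAlgebra.equivariantOfLinearOfComm_apply]
  simp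

/-- the sum of the coefficients -/
def sumZ (S : Type) : (S →₀ ℤ) →ₗ[ℤ] ℤ := Finsupp.lsum ℤ fun _ => LinearMap.id

theorem sumZ_apply (S : Type) (c : S →₀ ℤ) : sumZ S c = c.sum fun _ m => m := by
  unfold sumZ
  rw [Finsupp.lsum_apply]
  rfl

theorem sumZ_mapDomain (S T : Type) (f : S → T) (c : S →₀ ℤ) :
    sumZ T (c.mapDomain f) = sumZ S c := by
  rw [sumZ_apply, sumZ_apply]
  exact Finsupp.sum_mapDomain_index (fun _ => rfl) (fun _ _ _ => rfl)

/-- the augmentation -/
def aug (G S : Type) [Group G] [MulAction G S] : PermM G S →ₗ[MonoidAlgebra ℤ G] TrivM G :=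
  MonoidAlgebra.equivariantOfLinearOfComm
    ((Representation.trivial ℤ G ℤ).asModuleEquiv.symm.toLinearMap ∘ₗ sumZ S ∘ₗ
      (E G S).toLinearMap) (by
      intro g v
      apply (Representation.trivial ℤ G ℤ).asModuleEquiv.injective
      simp only [LinearMap.comp_apply, LinearEquiv.coe_coe, LinearEquiv.apply_symm_apply]
      rw [E_smul, sumZ_mapDomain, Representation.asModuleEquiv_map_smul,
        LinearEquiv.apply_symm_apply, Representation.asAlgebraHom_single, one_smul]
      rfl)

theorem aug_apply (G S : Type) [Group G] [MulAction G S] (v : PermM G S) :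
    (Representation.trivial ℤ G ℤ).asModuleEquiv (aug G S v) = (E G S v).sum fun _ m => m := by
  unfold aug
  rw [MonoidAlgebra.equivariantOfLinearOfComm_apply, ← sumZ_apply]
  simp

end FBGx

open FBGx in
theorem thm_FBG (hB : St_FBr) (hP : St_FPerm) : St_FBG := by
  intro G _ k X _ d hd hX h0 hdd hex0 hex hfin hst
  refine hB (MonoidAlgebra ℤ G) k (fun p => PermM G (X p)) (TrivM G) (fun p => mk (d p) (hd p))
    (aug G (X 0)) ?_ ?_ ?_ ?_
  · intro z
    obtain ⟨x⟩ := hX
    refine ⟨(E G (X 0)).symm (Finsupp.single x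
      ((Representation.trivial ℤ G ℤ).asModuleEquiv z)), ?_⟩
    apply (Representation.trivial ℤ G ℤ).asModuleEquiv.injective
    rw [aug_apply, LinearEquiv.apply_symm_apply, Finsupp.sum_single_index rfl]
  · intro hk
    ext x
    rw [LinearMap.mem_range, LinearMap.mem_ker]
    constructor
    · rintro ⟨y, rfl⟩
      apply (Representation.trivial ℤ G ℤ).asModuleEquiv.injective
      rw [aug_apply, E_mk, h0, map_zero]
    · intro hx
      have h1 : (E G (X 0) x).sum (fun _ m => m) = 0 := by
        rw [← aug_apply, hx, map_zero]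
      obtain ⟨b, hb⟩ := hex0 hk _ h1
      refine ⟨(E G (X 1)).symm b, ?_⟩
      apply (E G (X 0)).injective
      rw [E_mk, LinearEquiv.apply_symm_apply, hb]
  · intro i hi
    ext x
    rw [LinearMap.mem_range, LinearMap.mem_ker]
    constructor
    · rintro ⟨y, rfl⟩
      apply (E G (X i)).injective
      rw [E_mk, E_mk, hdd, map_zero]
    · intro hx
      have h1 : d i (E G (X (i + 1)) x) = 0 := by
        rw [← E_mk (d i) (hd i), hx, map_zero]
      obtain ⟨b, hb⟩ := hex i hi _ h1
      refine ⟨(E G (X (i + 1 + 1))).symm b, ?_⟩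
      apply (E G (X (i + 1))).injective
      rw [E_mk, LinearEquiv.apply_symm_apply, hb]
  · intro i hi
    exact hP G (X i) (k - i) (hfin i hi) (hst i hi)

end Pool.Agent.SLZ
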