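import Pool.Agent.SLZ.StF
import Pool.Agent.SLZ.StM

/-!
# SLZ / FBL: Brown's criterion for complexes of lists (module by helper13)
-/

set_option autoImplicit false
set_option linter.unusedVariables false

noncomputable section

namespace Pool.Agent.SLZ

variable {V : Type}

/-- the simplices of dimension `p` -/
abbrev FBLX (A : Cx V) (p : ℕ) : Type := {l : List V // l ∈ A.s ∧ l.length = p + 1}

/-- the action on the simplices -/
@[instance_reducible] def FBLact {G : Type} [Group G] [MulAction G V] (A : Cx V)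
    (hG : ∀ (g : G) l, l ∈ A.s → l.map (g • ·) ∈ A.s) (p : ℕ) : MulAction G (FBLX A p) where
  smul g x := ⟨x.1.map (g • ·), hG g _ x.2.1, by rw [List.length_map]; exact x.2.2⟩
  one_smul x := by
    apply Subtype.ext
    change x.1.map ((1 : G) • ·) = x.1
    have h : ((fun v : V => (1 : G) • v)) = id := by funext v; exact one_smul G v
    rw [h, List.map_id]
  mul_smul g g' x := by
    apply Subtype.ext
    change x.1.map ((g * g') • ·) = (x.1.map (g' • ·)).map (g • ·)
    rw [List.map_map]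
    congr 1
    funext v
    exact mul_smul g g' v

/-- chains as chains of lists -/
def FBLval (A : Cx V) (p : ℕ) : (FBLX A p →₀ ℤ) →ₗ[ℤ] (List V →₀ ℤ) :=
  Finsupp.lmapDomain ℤ ℤ Subtype.val

theorem FBLval_inj (A : Cx V) (p : ℕ) : Function.Injective (FBLval A p) :=
  Finsupp.mapDomain_injective Subtype.val_injective

theorem FBLval_single (A : Cx V) (p : ℕ) (x : FBLX A p) (m : ℤ) :
    FBLval A p (Finsupp.single x m) = Finsupp.single x.1 m := Finsupp.mapDomain_single

/-- chains of lists -/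
def FBLe (A : Cx V) (p : ℕ) : (FBLX A p →₀ ℤ) ≃ₗ[ℤ] Ch A.s (p + 1) :=
  (Finsupp.supportedEquivFinsupp {l | l ∈ A.s ∧ l.length = p + 1}).symm

theorem FBLe_val (A : Cx V) (p : ℕ) (c : FBLX A p →₀ ℤ) :
    ((FBLe A p c : Ch A.s (p + 1)) : List V →₀ ℤ) = FBLval A p c := by
  have h : (Submodule.subtype (Ch A.s (p + 1))) ∘ₗ (FBLe A p).toLinearMap = FBLval A p := by
    refine Finsupp.lhom_ext fun x m => ?_
    rw [FBLval_single]
    exact Finsupp.supportedEquivFinsupp_symm_single (R := ℤ) (M := ℤ)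
      {l | l ∈ A.s ∧ l.length = p + 1} x m
  exact LinearMap.congr_fun h c

theorem FBLval_mem (A : Cx V) (p : ℕ) (c : FBLX A p →₀ ℤ) : FBLval A p c ∈ Ch A.s (p + 1) := by
  rw [← FBLe_val]
  exact (FBLe A p c).2

theorem FBLval_surj (A : Cx V) (p : ℕ) (y : List V →₀ ℤ) (hy : y ∈ Ch A.s (p + 1)) :
    ∃ c, FBLval A p c = y := by
  refine ⟨(FBLe A p).symm ⟨y, hy⟩, ?_⟩
  rw [← FBLe_val, LinearEquiv.apply_symm_apply]

/-- the boundary -/
def FBLd (A : Cx V) (hb : ∀ (j : ℕ), ∀ c ∈ Ch A.s (j + 1), bd c ∈ Ch A.s j) (p : ℕ) :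
    (FBLX A (p + 1) →₀ ℤ) →+ (FBLX A p →₀ ℤ) :=
  ((FBLe A p).symm.toLinearMap ∘ₗ (bd.restrict (hb (p + 1))) ∘ₗ
    (FBLe A (p + 1)).toLinearMap).toAddMonoidHom

theorem FBLd_val (A : Cx V) (hb : ∀ (j : ℕ), ∀ c ∈ Ch A.s (j + 1), bd c ∈ Ch A.s j) (p : ℕ)
    (c : FBLX A (p + 1) →₀ ℤ) : FBLval A p (FBLd A hb p c) = bd (FBLval A (p + 1) c) := by
  rw [← FBLe_val, ← FBLe_val]
  change ((FBLe A p ((FBLe A p).symm (bd.restrict (hb (p + 1)) (FBLe A (p + 1) c))) :
    Ch A.s (p + 1)) : List V →₀ ℤ) = _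
  rw [LinearEquiv.apply_symm_apply]
  rfl

theorem FBL_bd_single (l : List V) (m : ℤ) : bd (Finsupp.single l m) = m • bdL l := by
  unfold bd
  simp

/-- the boundary of a chain of lists of length one -/
theorem FBL_aug (A : Cx V) (c : FBLX A 0 →₀ ℤ) :
    bd (FBLval A 0 c) = Finsupp.single [] (c.sum fun _ m => m) := by
  induction c using Finsupp.induction_linear with
  | zero => simp
  | add f g hf hg =>
    rw [map_add, map_add, hf, hg, ← Finsupp.single_add, Finsupp.sum_add_index']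
    · intro _; rfl
    · intro _ _ _; rfl
  | single x m =>
    rw [FBLval_single, FBL_bd_single, Finsupp.sum_single_index rfl]
    obtain ⟨l, hl1, hl2⟩ := x
    obtain ⟨v, rfl⟩ := List.length_eq_one_iff.1 hl2
    change m • (Finsupp.single [] 1 - consC v (bdL [])) = Finsupp.single [] m
    have h : bdL ([] : List V) = 0 := rfl
    rw [h, map_zero, sub_zero, Finsupp.smul_single, smul_eq_mul, mul_one]

theorem thm_FBL (hB : St_FBG) (hA : St_MA) : St_FBL := by
  classical
  intro G V _ _ A k hne hG hconn hfin hstab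
  obtain ⟨hbb, -, hb, hmap, -, -, -⟩ := hA V
  have hb' : ∀ (j : ℕ), ∀ c ∈ Ch A.s (j + 1), bd c ∈ Ch A.s j := fun j => (hb A j).2
  let act : ∀ p, MulAction G (FBLX A p) := fun p => FBLact A hG p
  have hact : ∀ p (g : G) (x : FBLX A p), (g • x).1 = x.1.map (g • ·) := fun _ _ _ => rfl
  refine hB G k (FBLX A) (FBLd A hb') ?_ ?_ ?_ ?_ ?_ ?_ ?_ ?_
  · -- equivariance
    have hvg : ∀ p (g : G) (c : FBLX A p →₀ ℤ), FBLval A p (c.mapDomain (g • ·)) =
        (FBLval A p c).mapDomain (List.map (g • ·)) := by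
      intro p g c
      change (c.mapDomain (g • ·)).mapDomain Subtype.val =
        (c.mapDomain Subtype.val).mapDomain (List.map (g • ·))
      rw [← Finsupp.mapDomain_comp, ← Finsupp.mapDomain_comp]
      rfl
    intro p g c
    apply FBLval_inj A p
    rw [FBLd_val, hvg, hmap, hvg, FBLd_val]
  · -- a vertex
    have h0 : Finsupp.single ([] : List V) (1 : ℤ) ∈ Ch A.s 0 :=
      Finsupp.single_mem_supported ℤ 1 ⟨hne, rfl⟩
    obtain ⟨y, hy, hy'⟩ := hconn 0 (Nat.succ_pos k) _ h0 ((hb A 0).1 _ h0)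
    have hy0 : y ≠ 0 := by
      rintro rfl
      rw [map_zero] at hy'
      exact one_ne_zero (Finsupp.single_eq_zero.1 hy'.symm)
    obtain ⟨l, hl⟩ := Finsupp.support_nonempty_iff.2 hy0
    exact ⟨⟨l, (Finsupp.mem_supported ℤ y).1 hy hl⟩⟩
  · intro c
    have h1 := FBL_aug A (FBLd A hb' 0 c)
    rw [FBLd_val, hbb] at h1
    exact Finsupp.single_eq_zero.1 h1.symm
  · intro p c
    apply FBLval_inj A p
    rw [FBLd_val, FBLd_val, hbb, map_zero]
  · intro hk c hc
    have h1 : bd (FBLval A 0 c) = 0 := by rw [FBL_aug, hc, Finsupp.single_zero]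
    obtain ⟨y, hy, hy'⟩ := hconn 1 (by omega) _ (FBLval_mem A 0 c) h1
    obtain ⟨b, rfl⟩ := FBLval_surj A 1 y hy
    refine ⟨b, FBLval_inj A 0 ?_⟩
    rw [FBLd_val, hy']
  · intro p hp c hc
    have h1 : bd (FBLval A (p + 1) c) = 0 := by rw [← FBLd_val A hb', hc, map_zero]
    obtain ⟨y, hy, hy'⟩ := hconn (p + 2) (by omega) _ (FBLval_mem A (p + 1) c) h1
    obtain ⟨b, rfl⟩ := FBLval_surj A (p + 2) y hy
    refine ⟨b, FBLval_inj A (p + 1) ?_⟩
    rw [FBLd_val, hy']
  · intro p hp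
    obtain ⟨F, hF⟩ := hfin (p + 1) (by omega)
    refine ⟨F.subtype (fun l => l ∈ A.s ∧ l.length = p + 1), fun t => ?_⟩
    obtain ⟨g, hg⟩ := hF t.1 t.2.1 t.2.2
    exact ⟨g, Finset.mem_subtype.2 hg⟩
  · intro p hp x
    have hne' : x.1 ≠ [] := by
      intro h
      have h2 := x.2.2
      rw [h, List.length_nil] at h2
      omega
    have h1 := hstab x.1 x.2.1 hne' (k - p) (by rw [x.2.2]; omega)
    have h2 : MulAction.stabilizer G x = fixingSubgroup G {y | y ∈ x.1} := by
      ext g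
      rw [MulAction.mem_stabilizer_iff, mem_fixingSubgroup_iff]
      constructor
      · intro h y hy
        have h3 : x.1.map (g • ·) = x.1.map id := by
          rw [List.map_id]
          exact congrArg Subtype.val h
        exact List.map_inj_left.1 h3 y hy
      · intro h
        apply Subtype.ext
        rw [hact]
        have h3 : x.1.map (g • ·) = x.1.map id := List.map_inj_left.2 fun y hy => h y hy
        rw [h3, List.map_id]
    rw [h2]
    exact h1

end Pool.Agent.SLZ
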