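import Pool.Agent.SLZ.StF

/-!
# SLZ: extensions of groups of type `FP_k`
-/

set_option autoImplicit false
set_option linter.unusedVariables false

noncomputable section

namespace Pool.Agent.SLZ

/-- finite products -/
theorem FExt_pi (hFM : St_FM1) (S : Type) [Ring S] (k : ℕ) (P : Type) [AddCommGroup P]
    [Module S P] (hP : FPm S k P) : ∀ n : ℕ, FPm S k (Fin n → P) := by
  obtain ⟨F1, F2, F3, F4, F5⟩ := hFM S
  intro n
  induction n with
  | zero =>
    have e : (Fin 0 → S) ≃ₗ[S] (Fin 0 → P) :=
      { toFun := fun _ i => i.elim0
        invFun := fun _ i => i.elim0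
        left_inv := fun v => Subsingleton.elim _ _
        right_inv := fun v => Subsingleton.elim _ _
        map_add' := fun _ _ => Subsingleton.elim _ _
        map_smul' := fun _ _ => Subsingleton.elim _ _ }
    exact F1 k _ _ e (F3 k 0)
  | succ n ih =>
    let f : P →ₗ[S] (Fin (n + 1) → P) := LinearMap.single S (fun _ : Fin (n + 1) => P) 0
    let g : (Fin (n + 1) → P) →ₗ[S] (Fin n → P) :=
      { toFun := fun v i => v i.succ
        map_add' := fun _ _ => rfl
        map_smul' := fun _ _ => rfl }
    have hfd : ∀ x, f x = Pi.single 0 x := fun x => rfl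
    have hf : Function.Injective f := by
      intro x y h
      have h1 := congrFun h 0
      rwa [hfd, hfd, Pi.single_eq_same, Pi.single_eq_same] at h1
    have hg : Function.Surjective g := fun w =>
      ⟨Fin.cons 0 w, funext fun i => Fin.cons_succ (α := fun _ => P) 0 w i⟩
    have hfg : LinearMap.range f = LinearMap.ker g := by
      ext v
      rw [LinearMap.mem_range, LinearMap.mem_ker]
      constructor
      · rintro ⟨x, rfl⟩
        funext i
        change (Pi.single 0 x : Fin (n + 1) → P) i.succ = 0
        rw [Pi.single_eq_of_ne (Fin.succ_ne_zero i)]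
      · intro h
        refine ⟨v 0, ?_⟩
        funext i
        refine Fin.cases ?_ (fun j => ?_) i
        · rw [hfd, Pi.single_eq_same]
        · rw [hfd, Pi.single_eq_of_ne (Fin.succ_ne_zero j)]
          exact (congrFun h j).symm
    exact (F2 k _ _ _ f g hf hg hfg).1 hP ih

/-- restriction along `φ : S → R` when `R` is of type `FP_k` over `S` -/
theorem FExt_restr (hFM : St_FM1) (R S : Type) [Ring R] [Ring S] (φ : S →+* R)
    (P : Type) [AddCommGroup P] [Module S P]
    (B : P ≃+ R) (hB : ∀ (s : S) (c : P), B (s • c) = φ s * B c) :
    ∀ k : ℕ, FPm S k P → ∀ (M N : Type) [AddCommGroup M] [Module R M] [AddCommGroup N]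
      [Module S N] (e : N ≃+ M), (∀ (s : S) (n : N), e (s • n) = φ s • e n) →
      FPm R k M → FPm S k N := by
  have hgen : ∀ (n : ℕ) (M N : Type) [AddCommGroup M] [Module R M] [AddCommGroup N]
      [Module S N] (e : N ≃+ M), (∀ (s : S) (n : N), e (s • n) = φ s • e n) →
      ∀ f : (Fin n → R) →ₗ[R] M, Function.Surjective f →
      ∃ g : (Fin n → P) →ₗ[S] N, Function.Surjective g ∧
        ∀ v, g v = e.symm (f fun i => B (v i)) := by
    intro n M N _ _ _ _ e he f hf
    let g : (Fin n → P) →ₗ[S] N :=
      { toFun := fun v => e.symm (f fun i => B (v i))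
        map_add' := by
          intro v w
          rw [← map_add, ← map_add]
          congr 2
          funext i
          exact map_add B _ _
        map_smul' := by
          intro s v
          rw [RingHom.id_apply]
          apply e.injective
          rw [he, e.apply_symm_apply, e.apply_symm_apply, ← map_smul]
          congr 1
          funext i
          exact hB s (v i) }
    refine ⟨g, ?_, fun v => rfl⟩
    intro y
    obtain ⟨w, hw⟩ := hf (e y)
    refine ⟨fun i => B.symm (w i), ?_⟩
    change e.symm (f fun i => B (B.symm (w i))) = y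
    simp only [AddEquiv.apply_symm_apply]
    rw [hw, e.symm_apply_apply]
  intro k
  induction k with
  | zero =>
    intro hP M N _ _ _ _ e he hM
    have hM' : Module.Finite R M := hM
    obtain ⟨n, f, hf⟩ := Module.Finite.exists_fin' R M
    obtain ⟨g, hg, -⟩ := hgen n M N e he f hf
    have hPn : Module.Finite S (Fin n → P) := FExt_pi hFM S 0 P hP n
    change Module.Finite S N
    exact Module.Finite.of_surjective g hg
  | succ k ih =>
    intro hP M N _ _ _ _ e he hM
    obtain ⟨F1, F2, F3, F4, F5⟩ := hFM S
    obtain ⟨n, f, hf, hK⟩ := hM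
    obtain ⟨g, hg, hgdef⟩ := hgen n M N e he f hf
    have hker : ∀ v, g v = 0 ↔ f (fun i => B (v i)) = 0 := by
      intro v
      rw [hgdef]
      constructor
      · intro h
        have := congrArg e h
        rwa [e.apply_symm_apply, map_zero] at this
      · intro h
        rw [h, map_zero]
    let e' : LinearMap.ker g ≃+ LinearMap.ker f :=
      { toFun := fun v => ⟨fun i => B (v.1 i), (hker v.1).mp v.2⟩
        invFun := fun w => ⟨fun i => B.symm (w.1 i), by
          have h1 := w.2
          rw [LinearMap.mem_ker] at h1 ⊢
          rw [hker]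
          simp only [AddEquiv.apply_symm_apply]
          exact h1⟩
        left_inv := by
          intro v
          apply Subtype.ext
          funext i
          exact B.symm_apply_apply _
        right_inv := by
          intro w
          apply Subtype.ext
          funext i
          exact B.apply_symm_apply _
        map_add' := by
          intro v w
          apply Subtype.ext
          funext i
          exact map_add B _ _ }
    have he' : ∀ (s : S) (v : LinearMap.ker g), e' (s • v) = φ s • e' v := by
      intro s v
      apply Subtype.ext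
      funext i
      exact hB s (v.1 i)
    have hKg : FPm S k (LinearMap.ker g) :=
      ih (F4 k P hP) (LinearMap.ker f) (LinearMap.ker g) e' he' hK
    have hF : FPm S (k + 1) (Fin n → P) := FExt_pi hFM S (k + 1) P hP n
    refine (F2 k _ _ _ (LinearMap.ker g).subtype g (Submodule.injective_subtype _) hg ?_).2 hKg hF
    rw [Submodule.range_subtype]

section main

variable {G Q : Type} [Group G] [Group Q] (f : G →* Q) (hf : Function.Surjective f)

/-- the group ring of the quotient as a permutation module -/
def FExt_B : PermM G (G ⧸ f.ker) ≃+ MonoidAlgebra ℤ Q :=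
  (Representation.ofMulAction ℤ G (G ⧸ f.ker)).asModuleEquiv.toAddEquiv.trans
    ((MonoidAlgebra.coeffAddEquiv.trans (Finsupp.domCongr
      (QuotientGroup.quotientKerEquivOfSurjective f hf).toEquiv)).trans
      MonoidAlgebra.coeffAddEquiv.symm)

theorem FExt_B_single (g : G) (z : ℤ) : FExt_B f hf
    ((Representation.ofMulAction ℤ G (G ⧸ f.ker)).asModuleEquiv.symm
      (MonoidAlgebra.single (g : G ⧸ f.ker) z)) = MonoidAlgebra.single (f g) z := by
  change MonoidAlgebra.ofCoeff (Finsupp.domCongr
      (QuotientGroup.quotientKerEquivOfSurjective f hf).toEquiv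
        (Finsupp.single (g : G ⧸ f.ker) z)) = _
  rw [Finsupp.domCongr_apply, Finsupp.equivMapDomain_single]
  rfl

theorem FExt_B_smul (s : MonoidAlgebra ℤ G) (c : PermM G (G ⧸ f.ker)) :
    FExt_B f hf (s • c) = MonoidAlgebra.mapDomainRingHom ℤ f s * FExt_B f hf c := by
  obtain ⟨c, rfl⟩ := (Representation.ofMulAction ℤ G (G ⧸ f.ker)).asModuleEquiv.symm.surjective c
  induction s using MonoidAlgebra.induction_linear with
  | zero => rw [zero_smul, map_zero, map_zero, zero_mul]
  | add a b ha hb => rw [add_smul, map_add, map_add, add_mul, ha, hb]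
  | single g z =>
    induction c using MonoidAlgebra.induction_linear with
    | zero => rw [map_zero, smul_zero, map_zero, mul_zero]
    | add a b ha hb => rw [map_add, smul_add, map_add, map_add, mul_add, ha, hb]
    | single x w =>
      obtain ⟨h, rfl⟩ := QuotientGroup.mk_surjective x
      have h1 : MonoidAlgebra.mapDomainRingHom ℤ f (MonoidAlgebra.single g z) =
          MonoidAlgebra.single (f g) z := MonoidAlgebra.mapDomain_single
      have h2 : (MonoidAlgebra.single g z : MonoidAlgebra ℤ G) •
          (Representation.ofMulAction ℤ G (G ⧸ f.ker)).asModuleEquiv.symm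
            (MonoidAlgebra.single (h : G ⧸ f.ker) w) =
          (Representation.ofMulAction ℤ G (G ⧸ f.ker)).asModuleEquiv.symm
            (MonoidAlgebra.single ((g * h : G) : G ⧸ f.ker) (z * w)) := by
        apply (Representation.ofMulAction ℤ G (G ⧸ f.ker)).asModuleEquiv.injective
        rw [Representation.asModuleEquiv_map_smul, Representation.asAlgebraHom_single,
          LinearEquiv.apply_symm_apply, LinearEquiv.apply_symm_apply, LinearMap.smul_apply,
          Representation.ofMulAction_single, MonoidAlgebra.smul_single, smul_eq_mul]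
        rfl
      rw [h2, FExt_B_single, FExt_B_single, h1, MonoidAlgebra.single_mul_single, map_mul]

/-- the trivial modules -/
def FExt_e : TrivM G ≃+ TrivM Q :=
  (Representation.trivial ℤ G ℤ).asModuleEquiv.toAddEquiv.trans
    (Representation.trivial ℤ Q ℤ).asModuleEquiv.symm.toAddEquiv

theorem FExt_e_smul (s : MonoidAlgebra ℤ G) (n : TrivM G) :
    (FExt_e (Q := Q)) (s • n) = MonoidAlgebra.mapDomainRingHom ℤ f s • (FExt_e (Q := Q)) n := by
  induction s using MonoidAlgebra.induction_linear with
  | zero => rw [zero_smul, map_zero, map_zero, zero_smul]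
  | add a b ha hb => rw [add_smul, map_add, map_add, add_smul, ha, hb]
  | single g z =>
    have h1 : MonoidAlgebra.mapDomainRingHom ℤ f (MonoidAlgebra.single g z) =
        MonoidAlgebra.single (f g) z := MonoidAlgebra.mapDomain_single
    have h0 : ∀ m : TrivM G, (FExt_e (Q := Q)) m = (Representation.trivial ℤ Q ℤ).asModuleEquiv.symm
        ((Representation.trivial ℤ G ℤ).asModuleEquiv m) := fun m => rfl
    rw [h1, h0, h0]
    apply (Representation.trivial ℤ Q ℤ).asModuleEquiv.injective
    rw [LinearEquiv.apply_symm_apply, Representation.asModuleEquiv_map_smul,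
      Representation.asAlgebraHom_single, Representation.asModuleEquiv_map_smul,
      Representation.asAlgebraHom_single, LinearEquiv.apply_symm_apply]
    rfl

end main

theorem thm_FExt (h : St_FM1) (hI : St_FInd) : St_FExt := by
  intro G Q _ _ f k hf hk hQ
  exact FExt_restr h (MonoidAlgebra ℤ Q) (MonoidAlgebra ℤ G) (MonoidAlgebra.mapDomainRingHom ℤ f)
    (PermM G (G ⧸ f.ker)) (FExt_B f hf) (FExt_B_smul f hf) k (hI G f.ker k hk)
    (TrivM Q) (TrivM G) FExt_e (FExt_e_smul f) hQ

end Pool.Agent.SLZ
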