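import Pool.Agent.SLZ.StF

/-!
# SLZ: the format of the frozen statement (helper81)
-/

set_option autoImplicit false

noncomputable section

namespace Pool.Agent.SLZ

theorem FFmt_res (R : Type) [Ring R] : ∀ (m : ℕ) (M : Type) [AddCommGroup M] [Module R M],
    FPm R m M → ∃ (k : ℕ → ℕ) (d : ∀ i : ℕ, (Fin (k (i + 1)) → R) →ₗ[R] (Fin (k i) → R))
      (ε : (Fin (k 0) → R) →ₗ[R] M), Function.Surjective ε ∧
      (0 < m → ∀ v, ε v = 0 ↔ ∃ w, d 0 w = v) ∧
      (∀ i : ℕ, i + 1 < m → ∀ v, d i v = 0 ↔ ∃ w, d (i + 1) w = v) := by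
  intro m
  induction m with
  | zero =>
    intro M _ _ h
    have hf : Module.Finite R M := h
    obtain ⟨n, f, hf⟩ := Module.Finite.exists_fin' R M
    exact ⟨fun _ => n, fun _ => 0, f, hf, fun h => absurd h (lt_irrefl 0),
      fun i h => absurd h (by omega)⟩
  | succ m ih =>
    intro M _ _ h
    obtain ⟨n, f, hf, hk⟩ := h
    obtain ⟨k', d', ε', h1, h2, h3⟩ := ih (LinearMap.ker f) hk
    let k : ℕ → ℕ := fun i => match i with
      | 0 => n
      | i + 1 => k' i
    let d : ∀ i : ℕ, (Fin (k (i + 1)) → R) →ₗ[R] (Fin (k i) → R) := fun i => match i with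
      | 0 => (LinearMap.ker f).subtype.comp ε'
      | i + 1 => d' i
    refine ⟨k, d, f, hf, fun _ v => ?_, fun i hi v => ?_⟩
    · constructor
      · intro hv
        obtain ⟨w, hw⟩ := h1 ⟨v, hv⟩
        exact ⟨w, congrArg Subtype.val hw⟩
      · rintro ⟨w, hw⟩
        rw [← hw]
        exact (ε' w).2
    · cases i with
      | zero =>
        have h4 := h2 (by omega) v
        constructor
        · intro hv
          exact h4.1 (Subtype.ext hv)
        · intro hv
          exact congrArg Subtype.val (h4.2 hv)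
      | succ i => exact h3 i (by omega) v

theorem thm_FFmt : St_FFmt := by
  intro G _ m h
  obtain ⟨k, d, ε, h1, h2, h3⟩ := FFmt_res (MonoidAlgebra ℤ G) m (TrivM G) h
  let a := (Representation.trivial ℤ G ℤ).asModuleEquiv
  let ε' : (Fin (k 0) → MonoidAlgebra ℤ G) →+ ℤ := (a.toAddEquiv.toAddMonoidHom).comp
    ε.toAddMonoidHom
  have e1 : ∀ v, ε' v = a (ε v) := fun v => rfl
  refine ⟨k, d, ε', fun g v => ?_, ?_, fun hm v => ?_, h3⟩
  · rw [e1, e1, map_smul, Representation.asModuleEquiv_map_smul, Representation.asAlgebraHom_of]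
    rfl
  · intro z
    obtain ⟨v, hv⟩ := h1 (a.symm z)
    exact ⟨v, by rw [e1, hv]; exact a.apply_symm_apply z⟩
  · rw [← h2 hm v, e1]
    exact a.map_eq_zero_iff

end Pool.Agent.SLZ
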