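import Pool.Agent.SLZ.StF

/-!
# SLZ: induced modules
-/

set_option autoImplicit false

noncomputable section

namespace Pool.Agent.SLZ

section FInd

variable {G : Type} [Group G] (H : Subgroup G)

/-- the inclusion of group rings -/
def FInd_io : MonoidAlgebra ℤ H →+* MonoidAlgebra ℤ G :=
  MonoidAlgebra.mapDomainRingHom ℤ H.subtype

theorem FInd_io_coeff (a : MonoidAlgebra ℤ H) :
    (FInd_io H a).coeff = a.coeff.mapDomain H.subtype := rfl

/-- the sum over the cosets -/
def FInd_th {M N : Type} [AddCommGroup M] [AddCommGroup N] [Module (MonoidAlgebra ℤ G) N]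
    (j : M →+ N) : (G ⧸ H →₀ M) →+ N :=
  Finsupp.liftAddHom fun c =>
    (DistribSMul.toAddMonoidHom N (MonoidAlgebra.of ℤ G c.out)).comp j

theorem FInd_th_single {M N : Type} [AddCommGroup M] [AddCommGroup N]
    [Module (MonoidAlgebra ℤ G) N] (j : M →+ N) (c : G ⧸ H) (m : M) :
    FInd_th H j (Finsupp.single c m) = MonoidAlgebra.of ℤ G c.out • j m := by
  unfold FInd_th
  rw [Finsupp.liftAddHom_apply_single]
  rfl

/-- `N` is induced from `M` -/
structure FInd_is {M N : Type} [AddCommGroup M] [Module (MonoidAlgebra ℤ H) M] [AddCommGroup N]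
    [Module (MonoidAlgebra ℤ G) N] (j : M →+ N) : Prop where
  lin : ∀ (a : MonoidAlgebra ℤ H) (m : M), j (a • m) = FInd_io H a • j m
  bij : Function.Bijective (FInd_th H j)

/-- coordinatewise inclusion -/
def FInd_jo (n : ℕ) : (Fin n → MonoidAlgebra ℤ H) →+ (Fin n → MonoidAlgebra ℤ G) where
  toFun v i := FInd_io H (v i)
  map_zero' := by
    funext i
    exact map_zero _
  map_add' v w := by
    funext i
    exact map_add _ _ _

theorem FInd_val (n : ℕ) (w : G ⧸ H →₀ (Fin n → MonoidAlgebra ℤ H)) (i : Fin n) (c : G ⧸ H)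
    (h : H) : (FInd_th H (FInd_jo H n) w i).coeff (c.out * h) = (w c i).coeff h := by
  refine Finsupp.induction_linear w ?_ ?_ ?_
  · rw [map_zero]
    rfl
  · intro w w' hw hw'
    rw [map_add, Pi.add_apply, Finsupp.add_apply, Pi.add_apply, MonoidAlgebra.coeff_add,
      MonoidAlgebra.coeff_add, Finsupp.add_apply, Finsupp.add_apply, hw, hw']
  · intro c' u
    rw [FInd_th_single]
    have h1 : ((MonoidAlgebra.of ℤ G c'.out • (FInd_jo H n) u) i) =
        MonoidAlgebra.single c'.out 1 * FInd_io H (u i) := rfl
    rw [h1, MonoidAlgebra.coeff_single_mul_apply, one_mul, FInd_io_coeff]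
    by_cases hc : c' = c
    · rw [hc, Finsupp.single_eq_same, inv_mul_cancel_left]
      exact Finsupp.mapDomain_apply Subtype.val_injective _ h
    · classical
      rw [Finsupp.single_apply, if_neg hc, Finsupp.mapDomain_of_notMem_range]
      · rfl
      · rintro ⟨h', hh⟩
        apply hc
        have e1 : c'.out * (h' : G) = c.out * (h : G) := by
          rw [show ((h' : G)) = c'.out⁻¹ * (c.out * h) from hh, mul_inv_cancel_left]
        have e2 : (c'.out : G ⧸ H) = (c.out : G ⧸ H) := by
          rw [QuotientGroup.eq]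
          have e3 : c'.out⁻¹ * c.out = (h' : G) * (h : G)⁻¹ := by
            rw [inv_mul_eq_iff_eq_mul, ← mul_assoc, e1, mul_inv_cancel_right]
          rw [e3]
          exact H.mul_mem h'.2 (H.inv_mem h.2)
        rw [QuotientGroup.out_eq', QuotientGroup.out_eq'] at e2
        exact e2

theorem FInd_is_jo (n : ℕ) : FInd_is H (FInd_jo H n) where
  lin a v := by
    funext i
    exact map_mul (FInd_io H) a (v i)
  bij := by
    constructor
    · rw [injective_iff_map_eq_zero]
      intro w hw
      ext c i h
      have h1 := FInd_val H n w i c h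
      rw [hw] at h1
      exact h1.symm
    · intro v
      have h0 : ∀ v : Fin n → MonoidAlgebra ℤ G, v ∈ (FInd_th H (FInd_jo H n)).range := by
        intro v
        have h1 : v = ∑ i, Pi.single i (v i) := (Finset.univ_sum_single v).symm
        rw [h1]
        refine sum_mem fun i _ => ?_
        have h2 : ∀ a : MonoidAlgebra ℤ G,
            (Pi.single i a : Fin n → MonoidAlgebra ℤ G) ∈ (FInd_th H (FInd_jo H n)).range := by
          intro a
          induction a using MonoidAlgebra.induction_linear with
          | zero =>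
            rw [Pi.single_zero]
            exact zero_mem _
          | add a b ha hb =>
            rw [Pi.single_add]
            exact add_mem ha hb
          | single g z =>
            have hg : (g : G ⧸ H).out⁻¹ * g ∈ H := by
              rw [← QuotientGroup.eq, QuotientGroup.out_eq']
            refine ⟨Finsupp.single (g : G ⧸ H)
              (Pi.single i (MonoidAlgebra.single (⟨_, hg⟩ : H) z)), ?_⟩
            rw [FInd_th_single]
            funext i'
            change MonoidAlgebra.single _ 1 * FInd_io H
              ((Pi.single i (MonoidAlgebra.single (⟨_, hg⟩ : H) z) : Fin n → MonoidAlgebra ℤ H) i')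
              = _
            by_cases hi : i' = i
            · subst hi
              rw [Pi.single_eq_same, Pi.single_eq_same]
              change MonoidAlgebra.single _ 1 * MonoidAlgebra.mapDomain _
                (MonoidAlgebra.single _ z) = _
              rw [MonoidAlgebra.mapDomain_single, MonoidAlgebra.single_mul_single, one_mul]
              congr 1
              exact mul_inv_cancel_left _ _
            · rw [Pi.single_eq_of_ne hi, Pi.single_eq_of_ne hi, map_zero, mul_zero]
        exact h2 (v i)
      exact h0 v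

variable {H}

theorem FInd_sum {M N : Type} [AddCommGroup M] [Module (MonoidAlgebra ℤ H) M] [AddCommGroup N]
    [Module (MonoidAlgebra ℤ G) N] {j : M →+ N} (hj : FInd_is H j) (n : ℕ)
    (f : (Fin n → MonoidAlgebra ℤ H) →ₗ[MonoidAlgebra ℤ H] M) :
    ∃ F : (Fin n → MonoidAlgebra ℤ G) →ₗ[MonoidAlgebra ℤ G] N,
      (∀ v, F (FInd_jo H n v) = j (f v)) ∧
      ∀ w : G ⧸ H →₀ (Fin n → MonoidAlgebra ℤ H), F (FInd_th H (FInd_jo H n) w) =
        FInd_th H j (w.mapRange f (map_zero f)) := by
  have h1 : ∀ v : Fin n → MonoidAlgebra ℤ H, f v = ∑ i, v i • f (Pi.single i 1) := by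
    intro v
    nth_rewrite 1 [← Finset.univ_sum_single v]
    rw [map_sum]
    refine Finset.sum_congr rfl fun i _ => ?_
    rw [← map_smul, ← Pi.single_smul, smul_eq_mul, mul_one]
  obtain ⟨F, hF⟩ : ∃ F : (Fin n → MonoidAlgebra ℤ G) →ₗ[MonoidAlgebra ℤ G] N,
      ∀ v, F (FInd_jo H n v) = j (f v) := by
    refine ⟨Fintype.linearCombination (MonoidAlgebra ℤ G)
      fun i => j (f (Pi.single i 1)), ?_⟩
    intro v
    rw [Fintype.linearCombination_apply, h1, map_sum]
    refine Finset.sum_congr rfl fun i _ => ?_
    rw [hj.lin]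
    rfl
  refine ⟨F, hF, ?_⟩
  intro w
  refine Finsupp.induction_linear w ?_ ?_ ?_
  · rw [map_zero, map_zero, Finsupp.mapRange_zero, map_zero]
  · intro w w' hw hw'
    rw [map_add, map_add, hw, hw', Finsupp.mapRange_add (fun _ _ => map_add f _ _), map_add]
  · intro c u
    rw [FInd_th_single, Finsupp.mapRange_single, FInd_th_single, map_smul, hF]

theorem FInd_onto {M N : Type} [AddCommGroup M] [Module (MonoidAlgebra ℤ H) M] [AddCommGroup N]
    [Module (MonoidAlgebra ℤ G) N] {j : M →+ N} (hj : FInd_is H j) {n : ℕ}
    {f : (Fin n → MonoidAlgebra ℤ H) →ₗ[MonoidAlgebra ℤ H] M} (hf : Function.Surjective f)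
    {F : (Fin n → MonoidAlgebra ℤ G) →ₗ[MonoidAlgebra ℤ G] N}
    (hF : ∀ w : G ⧸ H →₀ (Fin n → MonoidAlgebra ℤ H), F (FInd_th H (FInd_jo H n) w) =
        FInd_th H j (w.mapRange f (map_zero f))) : Function.Surjective F := by
  intro y
  obtain ⟨u, hu⟩ := hj.bij.2 y
  obtain ⟨w, hw⟩ := Finsupp.mapRange_surjective f (map_zero f) hf u
  exact ⟨_, by rw [hF, hw, hu]⟩

theorem FInd_main (k : ℕ) : ∀ (M N : Type) [AddCommGroup M] [Module (MonoidAlgebra ℤ H) M]
    [AddCommGroup N] [Module (MonoidAlgebra ℤ G) N] (j : M →+ N), FInd_is H j →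
    FPm (MonoidAlgebra ℤ H) k M → FPm (MonoidAlgebra ℤ G) k N := by
  induction k with
  | zero =>
    intro M N _ _ _ _ j hj hM
    have hM' : Module.Finite (MonoidAlgebra ℤ H) M := hM
    obtain ⟨n, f, hf⟩ := Module.Finite.exists_fin' (MonoidAlgebra ℤ H) M
    obtain ⟨F, -, hF⟩ := FInd_sum hj n f
    exact Module.Finite.of_surjective F (FInd_onto hj hf hF)
  | succ k ih =>
    intro M N _ _ _ _ j hj hM
    obtain ⟨n, f, hf, hk⟩ := hM
    obtain ⟨F, hF0, hF⟩ := FInd_sum hj n f
    refine ⟨n, F, FInd_onto hj hf hF, ?_⟩
    let j' : LinearMap.ker f →+ LinearMap.ker F :=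
      { toFun := fun v => ⟨FInd_jo H n v.1, by
          rw [LinearMap.mem_ker, hF0, LinearMap.mem_ker.mp v.2, map_zero]⟩
        map_zero' := by
          apply Subtype.ext
          exact map_zero (FInd_jo H n)
        map_add' := by
          intro v w
          apply Subtype.ext
          exact map_add (FInd_jo H n) v.1 w.1 }
    have hth : ∀ w : G ⧸ H →₀ LinearMap.ker f, ((FInd_th H j' w : LinearMap.ker F) :
        Fin n → MonoidAlgebra ℤ G) = FInd_th H (FInd_jo H n) (w.mapRange Subtype.val rfl) := by
      intro w
      refine Finsupp.induction_linear w ?_ ?_ ?_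
      · rw [map_zero, Finsupp.mapRange_zero, map_zero]
        rfl
      · intro w w' hw hw'
        rw [map_add, Submodule.coe_add, hw, hw', Finsupp.mapRange_add (fun _ _ => rfl), map_add]
      · intro c u
        rw [FInd_th_single, Finsupp.mapRange_single, FInd_th_single]
        rfl
    refine ih (LinearMap.ker f) (LinearMap.ker F) j' ⟨?_, ?_, ?_⟩ hk
    · intro a m
      apply Subtype.ext
      exact (FInd_is_jo H n).lin a m.1
    · rw [injective_iff_map_eq_zero]
      intro w hw
      have h1 := hth w
      rw [hw] at h1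
      have h2 : FInd_th H (FInd_jo H n) (w.mapRange Subtype.val rfl) = FInd_th H (FInd_jo H n) 0 := by
        rw [map_zero]
        exact h1.symm
      have h3 := (FInd_is_jo H n).bij.1 h2
      ext1 c
      apply Subtype.ext
      exact DFunLike.congr_fun h3 c
    · rintro ⟨x, hx⟩
      obtain ⟨w, hw⟩ := (FInd_is_jo H n).bij.2 x
      have h1 := hF w
      rw [hw, LinearMap.mem_ker.mp hx] at h1
      have h2 : w.mapRange f (map_zero f) = 0 := hj.bij.1 (by rw [← h1, map_zero])
      have h3 : ∀ c, w c ∈ LinearMap.ker f := fun c => DFunLike.congr_fun h2 c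
      let w' : G ⧸ H →₀ LinearMap.ker f :=
        { support := w.support
          toFun := fun c => ⟨w c, h3 c⟩
          mem_support_toFun := by
            intro c
            rw [Finsupp.mem_support_iff, not_iff_not]
            exact ⟨fun h => Subtype.ext h, fun h => congrArg Subtype.val h⟩ }
      refine ⟨w', ?_⟩
      apply Subtype.ext
      have h4 : w'.mapRange Subtype.val rfl = w := by
        ext1 c
        rfl
      rw [hth, h4, hw]

/-- the inclusion of the coset of the unit -/
def FInd_j0 (H : Subgroup G) : TrivM H →+ PermM G (G ⧸ H) :=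
  (Representation.ofMulAction ℤ G (G ⧸ H)).asModuleEquiv.symm.toLinearMap.toAddMonoidHom.comp
    ((MonoidAlgebra.singleAddHom ((1 : G) : G ⧸ H)).comp
      (Representation.trivial ℤ H ℤ).asModuleEquiv.toLinearMap.toAddMonoidHom)

theorem FInd_j0_apply (m : TrivM H) : FInd_j0 H m =
    (Representation.ofMulAction ℤ G (G ⧸ H)).asModuleEquiv.symm
      (MonoidAlgebra.single ((1 : G) : G ⧸ H)
        ((Representation.trivial ℤ H ℤ).asModuleEquiv m)) := rfl

theorem FInd_is_j0 : FInd_is H (FInd_j0 H) where
  lin a m := by
    induction a using MonoidAlgebra.induction_linear with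
    | zero => rw [zero_smul, map_zero, map_zero, zero_smul]
    | add a b ha hb => rw [add_smul, map_add, map_add, add_smul, ha, hb]
    | single h z =>
      apply (Representation.ofMulAction ℤ G (G ⧸ H)).asModuleEquiv.injective
      have h1 : FInd_io H (MonoidAlgebra.single h z) = MonoidAlgebra.single (h : G) z :=
        MonoidAlgebra.mapDomain_single
      rw [h1, Representation.asModuleEquiv_map_smul, Representation.asAlgebraHom_single,
        FInd_j0_apply, FInd_j0_apply, LinearEquiv.apply_symm_apply, LinearEquiv.apply_symm_apply,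
        Representation.asModuleEquiv_map_smul, Representation.asAlgebraHom_single,
        LinearMap.smul_apply, LinearMap.smul_apply, Representation.ofMulAction_single,
        Representation.trivial_apply, MonoidAlgebra.smul_single]
      congr 1
      change ((1 : G) : G ⧸ H) = (((h : G) * 1 : G) : G ⧸ H)
      rw [QuotientGroup.eq, inv_one, one_mul, mul_one]
      exact h.2
  bij := by
    have h1 : FInd_th H (FInd_j0 H) =
        (((Finsupp.mapRange.addEquiv
          (Representation.trivial ℤ H ℤ).asModuleEquiv.toAddEquiv).trans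
          MonoidAlgebra.coeffAddEquiv.symm).trans
          (Representation.ofMulAction ℤ G (G ⧸ H)).asModuleEquiv.symm.toAddEquiv).toAddMonoidHom := by
      apply Finsupp.addHom_ext
      intro c m
      rw [FInd_th_single, FInd_j0_apply, ← Representation.asModuleEquiv_symm_map_rho,
        Representation.ofMulAction_single]
      have h2 : c.out • ((1 : G) : G ⧸ H) = c := by
        change ((c.out * 1 : G) : G ⧸ H) = c
        rw [mul_one, QuotientGroup.out_eq']
      rw [h2]
      change _ = (Representation.ofMulAction ℤ G (G ⧸ H)).asModuleEquiv.symm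
        (MonoidAlgebra.ofCoeff (Finsupp.mapRange (Representation.trivial ℤ H ℤ).asModuleEquiv
          (map_zero _) (Finsupp.single c m)))
      rw [Finsupp.mapRange_single]
      rfl
    rw [h1]
    exact AddEquiv.bijective _

end FInd

theorem thm_FInd (_h : St_FM1) : St_FInd := by
  intro G _ H k hH
  exact FInd_main k _ _ (FInd_j0 H) FInd_is_j0 hH

end Pool.Agent.SLZ
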