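import Pool.Agent.SLZ.FBG

/-!
# SLZ, module FPerm: permutation modules with finitely many orbits (helper21)
-/

set_option autoImplicit false
set_option linter.unusedVariables false

noncomputable section

namespace Pool.Agent.SLZ

open FBGx

theorem FPerm_apply {G S : Type} [Group G] [MulAction G S] (g : G) (v : S →₀ ℤ) (s : S) :
    v.mapDomain (g • ·) s = v (g⁻¹ • s) := by
  have h := Finsupp.mapDomain_apply (MulAction.injective g) v (g⁻¹ • s)
  rwa [smul_inv_smul] at h

/-- the map of permutation modules of a map of `G`-sets -/
def FPerm_map {G S T : Type} [Group G] [MulAction G S] [MulAction G T] (i : S → T)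
    (hi : ∀ (g : G) (s : S), i (g • s) = g • i s) :
    PermM G S →ₗ[MonoidAlgebra ℤ G] PermM G T :=
  mk (Finsupp.mapDomain.addMonoidHom i) (by
    intro g c
    change Finsupp.mapDomain i (Finsupp.mapDomain (g • ·) c) =
      Finsupp.mapDomain (g • ·) (Finsupp.mapDomain i c)
    rw [← Finsupp.mapDomain_comp, ← Finsupp.mapDomain_comp]
    congr 1
    funext s
    exact hi g s)

/-- the action on an invariant subset -/
@[reducible] def FPerm_act {G T : Type} [Group G] [MulAction G T] (P : T → Prop)
    (hP : ∀ (g : G) (t : T), P t → P (g • t)) : MulAction G {t // P t} where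
  smul g t := ⟨g • t.1, hP g t.1 t.2⟩
  one_smul t := Subtype.ext (one_smul G t.1)
  mul_smul g h t := Subtype.ext (mul_smul g h t.1)

theorem FPerm_main (h : St_FM1) (hI : St_FInd) (G : Type) [Group G] (k : ℕ) :
    ∀ (n : ℕ) (T : Type) [MulAction G T] (s : Finset T), s.card ≤ n →
      (∀ t : T, ∃ g : G, g • t ∈ s) → (∀ t : T, FPG k (MulAction.stabilizer G t)) →
      FPm (MonoidAlgebra ℤ G) k (PermM G T) := by
  intro n
  induction n with
  | zero =>
    intro T _ s hs hfin _
    have hs0 : s = ∅ := Finset.card_eq_zero.1 (Nat.le_zero.1 hs)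
    have hT : IsEmpty T := ⟨fun t => by
      obtain ⟨g, hg⟩ := hfin t
      rw [hs0] at hg
      exact absurd hg (Finset.notMem_empty _)⟩
    have h1 : Subsingleton (PermM G T) := (E G T).injective.subsingleton
    obtain ⟨a1, -, a3, -, -⟩ := h (MonoidAlgebra ℤ G)
    exact a1 k _ _ (LinearEquiv.ofSubsingleton (Fin 0 → MonoidAlgebra ℤ G) (PermM G T)) (a3 k 0)
  | succ n ih =>
    intro T _ s hs hfin hst
    rcases s.eq_empty_or_nonempty with hs0 | ⟨t₀, ht₀⟩
    · exact ih T s (by rw [hs0, Finset.card_empty]; exact Nat.zero_le _) hfin hst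
    classical
    set P : T → Prop := fun t => t ∉ MulAction.orbit G t₀ with hPdef
    have hP : ∀ (g : G) (t : T), P t → P (g • t) := by
      intro g t ht hgt
      obtain ⟨g', hg'⟩ := hgt
      apply ht
      refine ⟨g⁻¹ * g', ?_⟩
      change g' • t₀ = g • t at hg'
      change (g⁻¹ * g') • t₀ = t
      rw [mul_smul, hg', inv_smul_smul]
    let act : MulAction G {t // P t} := FPerm_act P hP
    have hsm : ∀ (g : G) (t : {t // P t}), (g • t).1 = g • t.1 := fun _ _ => rfl
    obtain ⟨a1, a2, a3, -, -⟩ := h (MonoidAlgebra ℤ G)
    -- the orbit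
    have hA : FPm (MonoidAlgebra ℤ G) k (PermM G (G ⧸ MulAction.stabilizer G t₀)) :=
      hI G _ k (hst t₀)
    -- the complement
    have hC : FPm (MonoidAlgebra ℤ G) k (PermM G {t // P t}) := by
      refine ih {t // P t} (s.subtype P) ?_ ?_ ?_
      · rw [Finset.card_subtype]
        have h1 : (s.filter P).card < s.card := by
          apply Finset.card_lt_card
          rw [Finset.ssubset_iff_of_subset (Finset.filter_subset _ _)]
          refine ⟨t₀, ht₀, ?_⟩
          rw [Finset.mem_filter]
          rintro ⟨-, h2⟩
          exact h2 (MulAction.mem_orbit_self t₀)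
        omega
      · intro t
        obtain ⟨g, hg⟩ := hfin t.1
        exact ⟨g, Finset.mem_subtype.2 hg⟩
      · intro t
        have h1 : MulAction.stabilizer G t = MulAction.stabilizer G t.1 := by
          ext g
          rw [MulAction.mem_stabilizer_iff, MulAction.mem_stabilizer_iff, Subtype.ext_iff, hsm]
        rw [h1]
        exact hst t.1
    -- the exact sequence
    have hproj : ∀ (g : G) (c : T →₀ ℤ),
        Finsupp.subtypeDomainAddMonoidHom (p := P) (c.mapDomain (g • ·)) =
          (Finsupp.subtypeDomainAddMonoidHom (p := P) c).mapDomain (g • ·) := by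
      intro g c
      ext t
      rw [FPerm_apply]
      change (c.mapDomain (g • ·)) t.1 = c (g⁻¹ • t).1
      rw [FPerm_apply, hsm]
    have hinj := MulAction.injective_ofQuotientStabilizer G t₀
    refine (a2 k _ _ _ (FPerm_map (MulAction.ofQuotientStabilizer G t₀)
      (MulAction.ofQuotientStabilizer_smul G t₀)) (mk _ hproj) ?_ ?_ ?_).1 hA hC
    · intro x y hxy
      have h1 := congrArg (E G T) hxy
      unfold FPerm_map at h1
      rw [E_mk, E_mk] at h1
      exact (E G _).injective (Finsupp.mapDomain_injective hinj h1)
    · intro y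
      refine ⟨(E G T).symm ((E G {t // P t} y).mapDomain Subtype.val), ?_⟩
      apply (E G {t // P t}).injective
      rw [E_mk, LinearEquiv.apply_symm_apply]
      ext t
      change (E G {t // P t} y).mapDomain Subtype.val t.1 = E G {t // P t} y t
      exact Finsupp.mapDomain_apply (M := ℤ) Subtype.val_injective (E G {t // P t} y) t
    · ext x
      rw [LinearMap.mem_range, LinearMap.mem_ker]
      constructor
      · rintro ⟨y, rfl⟩
        apply (E G {t // P t}).injective
        rw [E_mk, map_zero]
        unfold FPerm_map
        rw [E_mk]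
        ext t
        change (E G _ y).mapDomain (MulAction.ofQuotientStabilizer G t₀) t.1 = 0
        refine Finsupp.mapDomain_of_notMem_range _ _ ?_
        rintro ⟨q, hq⟩
        apply t.2
        rw [← hq]
        induction q using QuotientGroup.induction_on with
        | H g =>
          rw [MulAction.ofQuotientStabilizer_mk]
          exact MulAction.mem_orbit t₀ g
      · intro hx
        have h1 := congrArg (E G {t // P t}) hx
        rw [E_mk, map_zero] at h1
        refine ⟨(E G _).symm (Finsupp.comapDomain (MulAction.ofQuotientStabilizer G t₀)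
          (E G T x) hinj.injOn), ?_⟩
        apply (E G T).injective
        unfold FPerm_map
        rw [E_mk, LinearEquiv.apply_symm_apply]
        refine Finsupp.mapDomain_comapDomain _ hinj _ ?_
        intro t ht
        by_contra hcon
        have h2 : P t := by
          rintro ⟨g, hg⟩
          apply hcon
          exact ⟨(g : G ⧸ MulAction.stabilizer G t₀), hg⟩
        have h3 := DFunLike.congr_fun h1 ⟨t, h2⟩
        rw [Finset.mem_coe, Finsupp.mem_support_iff] at ht
        exact ht h3

theorem thm_FPerm (h : St_FM1) (hI : St_FInd) : St_FPerm := by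
  rintro G T _ _ k ⟨s, hs⟩ hst
  exact FPerm_main h hI G k s.card T s le_rfl hs hst

end Pool.Agent.SLZ
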