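import Pool.Agent.SLZ.StF

/-!
# SLZ: module FSub (isomorphic groups, finite index, finite groups, finitely generated abelian groups)
-/

set_option autoImplicit false
set_option linter.unusedVariables false

noncomputable section

namespace Pool.Agent.SLZ

/-- restriction along `φ : S → R` when `R` is free of finite rank over `S`, with basis map `B` -/
theorem FSub_restr (hFM : St_FM1) (R S : Type) [Ring R] [Ring S] (φ : S →+* R) (m : ℕ)
    (B : (Fin m → S) ≃+ R) (hB : ∀ (s : S) (c : Fin m → S), B (s • c) = φ s * B c) :
    ∀ (k : ℕ) (M N : Type) [AddCommGroup M] [Module R M] [AddCommGroup N] [Module S N]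
      (e : N ≃+ M), (∀ (s : S) (n : N), e (s • n) = φ s • e n) → FPm R k M → FPm S k N := by
  intro k
  induction k with
  | zero =>
    intro M N _ _ _ _ e he hM
    have hM' : Module.Finite R M := hM
    obtain ⟨n, f, hf⟩ := Module.Finite.exists_fin' R M
    let g : (Fin n → Fin m → S) →ₗ[S] N :=
      { toFun := fun v => e.symm (f fun i => B (v i))
        map_add' := by
          intro v w
          rw [← map_add, ← map_add]
          congr 2
          funext i
          exact map_add B _ _
        map_smul' := by
          intro s v
          rw [RingHom.id_apply]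
          apply e.injective
          rw [he, e.apply_symm_apply, e.apply_symm_apply, ← map_smul]
          congr 1
          funext i
          exact hB s (v i) }
    have hg : Function.Surjective g := by
      intro y
      obtain ⟨w, hw⟩ := hf (e y)
      refine ⟨fun i => B.symm (w i), ?_⟩
      change e.symm (f fun i => B (B.symm (w i))) = y
      simp only [AddEquiv.apply_symm_apply]
      rw [hw, e.symm_apply_apply]
    change Module.Finite S N
    exact Module.Finite.of_surjective g hg
  | succ k ih =>
    intro M N _ _ _ _ e he hM
    obtain ⟨n, f, hf, hK⟩ := hM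
    let g : (Fin n → Fin m → S) →ₗ[S] N :=
      { toFun := fun v => e.symm (f fun i => B (v i))
        map_add' := by
          intro v w
          rw [← map_add, ← map_add]
          congr 2
          funext i
          exact map_add B _ _
        map_smul' := by
          intro s v
          rw [RingHom.id_apply]
          apply e.injective
          rw [he, e.apply_symm_apply, e.apply_symm_apply, ← map_smul]
          congr 1
          funext i
          exact hB s (v i) }
    have hgdef : ∀ v, g v = e.symm (f fun i => B (v i)) := fun v => rfl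
    have hg : Function.Surjective g := by
      intro y
      obtain ⟨w, hw⟩ := hf (e y)
      refine ⟨fun i => B.symm (w i), ?_⟩
      change e.symm (f fun i => B (B.symm (w i))) = y
      simp only [AddEquiv.apply_symm_apply]
      rw [hw, e.symm_apply_apply]
    have hker : ∀ v, g v = 0 ↔ f (fun i => B (v i)) = 0 := by
      intro v
      rw [hgdef]
      constructor
      · intro h
        have := congrArg e h
        rwa [e.apply_symm_apply, map_zero] at this
      · intro h
        rw [h, map_zero]
    let e' : LinearMap.ker g ≃+ LinearMap.ker f :=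
      { toFun := fun v => ⟨fun i => B (v.1 i), (hker v.1).mp v.2⟩
        invFun := fun w => ⟨fun i => B.symm (w.1 i), by
          have h1 := w.2
          rw [LinearMap.mem_ker] at h1 ⊢
          rw [hker]
          simp only [AddEquiv.apply_symm_apply]
          exact h1⟩
        left_inv := by
          intro v
          apply Subtype.ext
          funext i
          exact B.symm_apply_apply _
        right_inv := by
          intro w
          apply Subtype.ext
          funext i
          exact B.apply_symm_apply _
        map_add' := by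
          intro v w
          apply Subtype.ext
          funext i
          exact map_add B _ _ }
    have he' : ∀ (s : S) (v : LinearMap.ker g), e' (s • v) = φ s • e' v := by
      intro s v
      apply Subtype.ext
      funext i
      exact hB s (v.1 i)
    have hKg : FPm S k (LinearMap.ker g) := ih (LinearMap.ker f) (LinearMap.ker g) e' he' hK
    obtain ⟨F1, F2, F3, F4, F5⟩ := hFM S
    have hF : FPm S (k + 1) (Fin n → Fin m → S) := by
      have e3 : (Fin (n * m) → S) ≃ₗ[S] (Fin n → Fin m → S) :=
        (LinearEquiv.funCongrLeft S S finProdFinEquiv).trans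
          (LinearEquiv.curry S S (Fin n) (Fin m))
      exact F1 (k + 1) _ _ e3 (F3 (k + 1) (n * m))
    exact (F2 k _ _ _ (LinearMap.ker g).subtype g (Submodule.injective_subtype _) hg
      (Submodule.range_subtype _)).2 hKg hF

/-- the augmentation is compatible with group homomorphisms -/
theorem FSub_aug (G H : Type) [Group G] [Group H] (ψ : H →* G) (s : MonoidAlgebra ℤ H) :
    Representation.asAlgebraHom (Representation.trivial ℤ G ℤ)
      (MonoidAlgebra.mapDomainRingHom ℤ ψ s) =
      Representation.asAlgebraHom (Representation.trivial ℤ H ℤ) s := by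
  induction s using MonoidAlgebra.induction_linear with
  | zero => simp
  | add x y hx hy => rw [map_add, map_add, map_add, hx, hy]
  | single h c =>
    rw [MonoidAlgebra.mapDomainRingHom_apply, MonoidAlgebra.mapDomain_single,
      Representation.asAlgebraHom_single, Representation.asAlgebraHom_single]
    rfl

/-- restriction of the trivial module -/
def FSub_triv (G H : Type) [Group G] [Group H] : TrivM H ≃+ TrivM G :=
  ((Representation.trivial ℤ H ℤ).asModuleEquiv.toAddEquiv).trans
    ((Representation.trivial ℤ G ℤ).asModuleEquiv.toAddEquiv).symm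

theorem FSub_triv_smul (G H : Type) [Group G] [Group H] (ψ : H →* G) (s : MonoidAlgebra ℤ H)
    (n : TrivM H) : FSub_triv G H (s • n) =
      (MonoidAlgebra.mapDomainRingHom ℤ ψ s) • FSub_triv G H n := by
  have h1 := Representation.asModuleEquiv_map_smul (Representation.trivial ℤ H ℤ) s n
  have h2 := Representation.asModuleEquiv_map_smul (Representation.trivial ℤ G ℤ)
    (MonoidAlgebra.mapDomainRingHom ℤ ψ s) (FSub_triv G H n)
  apply (Representation.trivial ℤ G ℤ).asModuleEquiv.injective
  rw [h2, FSub_aug]
  exact h1

/-- basis of `ℤ[G]` over `ℤ[H]` -/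
theorem FSub_basis (G : Type) [Group G] (H : Subgroup G) (hH : H.FiniteIndex) :
    ∃ (m : ℕ) (B : (Fin m → MonoidAlgebra ℤ H) ≃+ MonoidAlgebra ℤ G),
      ∀ (s : MonoidAlgebra ℤ H) (c : Fin m → MonoidAlgebra ℤ H),
        B (s • c) = MonoidAlgebra.mapDomainRingHom ℤ H.subtype s * B c := by
  classical
  have hfin : Finite (G ⧸ H) := Subgroup.finite_quotient_of_finiteIndex
  obtain ⟨m, ⟨en⟩⟩ := Finite.exists_equiv_fin (G ⧸ H)
  -- right coset representatives
  let t : Fin m → G := fun i => (Quotient.out (en.symm i))⁻¹
  have ht : ∀ g : G, ∃ (i : Fin m) (h : H), g = h * t i := by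
    intro g
    refine ⟨en (QuotientGroup.mk g⁻¹), ⟨g * (t (en (QuotientGroup.mk g⁻¹)))⁻¹, ?_⟩, ?_⟩
    · have h1 : (QuotientGroup.mk (Quotient.out (QuotientGroup.mk g⁻¹ : G ⧸ H)) : G ⧸ H) =
          QuotientGroup.mk g⁻¹ := Quotient.out_eq _
      have h2 := QuotientGroup.eq.mp h1.symm
      simpa [t] using h2
    · simp
  have ht2 : ∀ (i j : Fin m) (h h' : H), (h : G) * t i = h' * t j → i = j ∧ h = h' := by
    intro i j h h' he
    have hij : i = j := by
      have h1 : (QuotientGroup.mk (Quotient.out (en.symm i)) : G ⧸ H) =
          QuotientGroup.mk (Quotient.out (en.symm j)) := by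
        rw [QuotientGroup.eq]
        have h3 : (Quotient.out (en.symm i))⁻¹ * Quotient.out (en.symm j) =
            (h : G)⁻¹ * h' := by
          have h4 : (h : G) * (Quotient.out (en.symm i))⁻¹ =
            h' * (Quotient.out (en.symm j))⁻¹ := he
          calc (Quotient.out (en.symm i))⁻¹ * Quotient.out (en.symm j)
              = (h : G)⁻¹ * ((h : G) * (Quotient.out (en.symm i))⁻¹) *
                Quotient.out (en.symm j) := by group
            _ = (h : G)⁻¹ * h' := by rw [h4]; group
        rw [h3]
        exact H.mul_mem (H.inv_mem h.2) h'.2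
      have h2 : en.symm i = en.symm j := by
        rw [← Quotient.out_eq (en.symm i), ← Quotient.out_eq (en.symm j)]
        exact h1
      exact en.symm.injective h2
    subst hij
    exact ⟨rfl, Subtype.ext (mul_right_cancel he)⟩
  let F : (Fin m → MonoidAlgebra ℤ H) →+ MonoidAlgebra ℤ G :=
    { toFun := fun c => ∑ i, MonoidAlgebra.mapDomainRingHom ℤ H.subtype (c i) *
        MonoidAlgebra.single (t i) 1
      map_zero' := by simp
      map_add' := by
        intro c d
        rw [← Finset.sum_add_distrib]
        refine Finset.sum_congr rfl fun i _ => ?_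
        rw [Pi.add_apply, map_add, add_mul] }
  have hF : ∀ c, F c = ∑ i, MonoidAlgebra.mapDomainRingHom ℤ H.subtype (c i) *
        MonoidAlgebra.single (t i) 1 := fun c => rfl
  have hcoef : ∀ (c : Fin m → MonoidAlgebra ℤ H) (i : Fin m) (h : H),
      (F c).coeff ((h : G) * t i) = (c i).coeff h := by
    intro c i h
    rw [hF, MonoidAlgebra.coeff_sum, Finset.sum_apply', Finset.sum_eq_single i]
    · rw [MonoidAlgebra.coeff_mul_single_mul, mul_one]
      exact Finsupp.mapDomain_apply Subtype.val_injective _ _
    · intro j _ hji
      rw [MonoidAlgebra.coeff_mul_single_apply, mul_one]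
      refine Finsupp.mapDomain_of_notMem_range _ _ ?_
      rintro ⟨h', hh'⟩
      apply hji
      refine (ht2 j i h' h ?_).1
      have h5 : (h' : G) = h * t i * (t j)⁻¹ := hh'
      rw [h5]
      group
    · intro hi; exact absurd (Finset.mem_univ i) hi
  have hinj : Function.Injective F := by
    intro c d hcd
    funext i
    apply MonoidAlgebra.ext
    ext h
    rw [← hcoef c i h, ← hcoef d i h, hcd]
  have hsurj : Function.Surjective F := by
    intro r
    induction r using MonoidAlgebra.induction_linear with
    | zero => exact ⟨0, map_zero F⟩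
    | add x y hx hy =>
      obtain ⟨c, hc⟩ := hx
      obtain ⟨d, hd⟩ := hy
      exact ⟨c + d, by rw [map_add, hc, hd]⟩
    | single g z =>
      obtain ⟨i, h, hg⟩ := ht g
      refine ⟨Pi.single i (MonoidAlgebra.single h z), ?_⟩
      rw [hF, Finset.sum_eq_single i]
      · rw [Pi.single_eq_same, MonoidAlgebra.mapDomainRingHom_apply,
          MonoidAlgebra.mapDomain_single, MonoidAlgebra.single_mul_single, mul_one, hg]
        rfl
      · intro j _ hji
        rw [Pi.single_eq_of_ne hji, map_zero, zero_mul]
      · intro hi; exact absurd (Finset.mem_univ i) hi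
  refine ⟨m, AddEquiv.ofBijective F ⟨hinj, hsurj⟩, ?_⟩
  intro s c
  change F (s • c) = _ * F c
  rw [hF, hF, Finset.mul_sum]
  refine Finset.sum_congr rfl fun i _ => ?_
  rw [Pi.smul_apply, smul_eq_mul, map_mul, mul_assoc]

/-- the trivial module is cyclic -/
theorem FSub_finite (G : Type) [Group G] : Module.Finite (MonoidAlgebra ℤ G) (TrivM G) := by
  let x1 : TrivM G := (Representation.trivial ℤ G ℤ).asModuleEquiv.symm 1
  refine Module.Finite.of_surjective
    (LinearMap.toSpanSingleton (MonoidAlgebra ℤ G) (TrivM G) x1) ?_
  intro y
  refine ⟨MonoidAlgebra.single 1 ((Representation.trivial ℤ G ℤ).asModuleEquiv y), ?_⟩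
  rw [LinearMap.toSpanSingleton_apply]
  apply (Representation.trivial ℤ G ℤ).asModuleEquiv.injective
  rw [Representation.asModuleEquiv_map_smul, Representation.asAlgebraHom_single]
  change (Representation.trivial ℤ G ℤ).asModuleEquiv y * 1 = _
  exact mul_one _

theorem thm_FSub (h : St_FM1) (hE : St_FExt) : St_FSub := by
  refine ⟨?_, ?_, ?_, ?_⟩
  · intro G H _ _ k hGH hG
    obtain ⟨e⟩ := hGH
    let E : MonoidAlgebra ℤ H ≃+* MonoidAlgebra ℤ G := MonoidAlgebra.mapDomainRingEquiv ℤ e.symm
    let B : (Fin 1 → MonoidAlgebra ℤ H) ≃+ MonoidAlgebra ℤ G :=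
      { toFun := fun c => E (c 0)
        invFun := fun r _ => E.symm r
        left_inv := by
          intro c
          funext i
          change E.symm (E (c 0)) = c i
          rw [E.symm_apply_apply, Subsingleton.elim i 0]
        right_inv := fun r => E.apply_symm_apply r
        map_add' := by
          intro c d
          rw [Pi.add_apply, map_add] }
    refine FSub_restr h (MonoidAlgebra ℤ G) (MonoidAlgebra ℤ H)
      (MonoidAlgebra.mapDomainRingHom ℤ (e.symm : H →* G)) 1 B ?_ k (TrivM G) (TrivM H)
      (FSub_triv G H) (fun s n => FSub_triv_smul G H _ s n) hG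
    intro s c
    change E (s * c 0) = _
    rw [map_mul]
    rfl
  · intro G _ H k hH hG
    obtain ⟨m, B, hB⟩ := FSub_basis G H hH
    exact FSub_restr h (MonoidAlgebra ℤ G) (MonoidAlgebra ℤ H)
      (MonoidAlgebra.mapDomainRingHom ℤ H.subtype) m B hB k (TrivM G) (TrivM H)
      (FSub_triv G H) (fun s n => FSub_triv_smul G H _ s n) hG
  · intro G _ k hG
    have h1 : IsNoetherian ℤ (MonoidAlgebra ℤ G) := inferInstance
    have h2 : IsNoetherianRing (MonoidAlgebra ℤ G) := isNoetherian_of_tower ℤ h1
    exact (h (MonoidAlgebra ℤ G)).2.2.2.2 h2 k (TrivM G) (FSub_finite G)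
  · intro A _ k hA
    have h0 : AddGroup.FG A := Module.Finite.iff_addGroup_fg.mp hA
    have h1 : AddMonoid.FG A := AddGroup.fg_iff_addMonoid_fg.mp h0
    have h1' : Monoid.FG (Multiplicative A) := inferInstance
    have h2 : Algebra.FiniteType ℤ (MonoidAlgebra ℤ (Multiplicative A)) := inferInstance
    have h3 : IsNoetherianRing (MonoidAlgebra ℤ (Multiplicative A)) :=
      Algebra.FiniteType.isNoetherianRing ℤ _
    exact (h (MonoidAlgebra ℤ (Multiplicative A))).2.2.2.2 h3 k (TrivM (Multiplicative A))
      (FSub_finite (Multiplicative A))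

end Pool.Agent.SLZ
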