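import Pool.Agent.SLZ.StG

/-!
# SLZ, GCL: complexes of common minima are acyclic (helper24)
-/

set_option autoImplicit false
set_option linter.unusedVariables false

noncomputable section

namespace Pool.Agent.SLZ

/-- the pairs of points of `K` which are not comparable -/
def gcl_pairs {T : Type} (P : Set (T → ℝ)) (K : Set T) : Set (T × T) :=
  {p | (p.1 ∈ K ∧ p.2 ∈ K) ∧ (∃ h ∈ P, h p.1 < h p.2) ∧ ∃ h ∈ P, h p.2 < h p.1}

theorem gcl_min {T : Type} (r : T → T → Prop) (hr : ∀ x, r x x)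
    (ht : ∀ x y z, r x y → r y z → r x z) (F : Finset T) :
    (∀ x ∈ F, ∀ y ∈ F, r x y ∨ r y x) → F.Nonempty → ∃ x ∈ F, ∀ y ∈ F, r x y := by
  classical
  induction F using Finset.induction_on with
  | empty => intro _ h; exact absurd h Finset.not_nonempty_empty
  | insert a F ha ih =>
    intro hc _
    rcases F.eq_empty_or_nonempty with h | h
    · refine ⟨a, Finset.mem_insert_self a F, fun y hy => ?_⟩
      rw [h] at hy
      have h1 : y = a := by simpa using hy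
      rw [h1]
      exact hr a
    · obtain ⟨x, hx, hx'⟩ := ih (fun x hx y hy => hc x (Finset.mem_insert_of_mem hx) y
        (Finset.mem_insert_of_mem hy)) h
      rcases hc x (Finset.mem_insert_of_mem hx) a (Finset.mem_insert_self a F) with h1 | h1
      · refine ⟨x, Finset.mem_insert_of_mem hx, fun y hy => ?_⟩
        rcases Finset.mem_insert.1 hy with rfl | hy
        · exact h1
        · exact hx' y hy
      · refine ⟨a, Finset.mem_insert_self a F, fun y hy => ?_⟩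
        rcases Finset.mem_insert.1 hy with rfl | hy
        · exact hr _
        · exact ht _ _ _ h1 (hx' y hy)

/-- a point of a segment on which two values agree -/
theorem gcl_seg {T : Type} {P : Set (T → ℝ)} (hP : Convex ℝ P) {f g : T → ℝ} (hf : f ∈ P)
    (hg : g ∈ P) {v w : T} (h1 : f v ≤ f w) (h2 : g w ≤ g v) :
    ∃ a b : ℝ, 0 ≤ a ∧ 0 ≤ b ∧ a + b = 1 ∧ (a • f + b • g) ∈ P ∧
      (a • f + b • g) v = (a • f + b • g) w := by
  by_cases h : f w - f v + (g v - g w) = 0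
  · have h3 : f v = f w := by linarith
    refine ⟨1, 0, by norm_num, le_refl _, by norm_num, ?_, ?_⟩
    · simpa using hf
    · simp [h3]
  · have h3 : 0 < f w - f v + (g v - g w) := lt_of_le_of_ne (by linarith) (Ne.symm h)
    refine ⟨(g v - g w) / (f w - f v + (g v - g w)), (f w - f v) / (f w - f v + (g v - g w)),
      div_nonneg (by linarith) h3.le, div_nonneg (by linarith) h3.le, ?_, ?_, ?_⟩
    · rw [← add_div, div_eq_one_iff_eq h]
      ring
    · refine hP hf hg (div_nonneg (by linarith) h3.le) (div_nonneg (by linarith) h3.le) ?_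
      rw [← add_div, div_eq_one_iff_eq h]
      ring
    · simp only [Pi.add_apply, Pi.smul_apply, smul_eq_mul]
      field_simp
      ring

theorem gcl_claim (hMA : St_MA) {T : Type} (S K : Set T) (hK : K.Finite) (n : ℕ) :
    ∀ P : Set (T → ℝ), Convex ℝ P → P.Nonempty →
      (∀ h ∈ P, (MinS S h).Nonempty ∧ MinS S h ⊆ K) → (gcl_pairs P K).ncard ≤ n →
      ∀ j, Ex (AdmC P S) j := by
  classical
  have hfin : ∀ P : Set (T → ℝ), (gcl_pairs P K).Finite := fun P =>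
    (hK.prod hK).subset fun p hp => ⟨hp.1.1, hp.1.2⟩
  have hone : ∀ P : Set (T → ℝ), P.Nonempty → (∀ h ∈ P, (MinS S h).Nonempty ∧ MinS S h ⊆ K) →
      gcl_pairs P K = ∅ → ∀ j, Ex (AdmC P S) j := by
    intro P hne hmin hp j
    have hcmp : ∀ v ∈ K, ∀ w ∈ K, (∀ h ∈ P, h v ≤ h w) ∨ ∀ h ∈ P, h w ≤ h v := by
      intro v hv w hw
      by_contra hcon
      push Not at hcon
      have h1 : (v, w) ∈ gcl_pairs P K := ⟨⟨hv, hw⟩, hcon.2, hcon.1⟩
      rw [hp] at h1
      exact h1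
    have hKS : (K ∩ S).Finite := hK.subset Set.inter_subset_left
    obtain ⟨h0, hh0⟩ := hne
    obtain ⟨v1, hv1⟩ := (hmin h0 hh0).1
    have hne' : hKS.toFinset.Nonempty :=
      ⟨v1, hKS.mem_toFinset.2 ⟨(hmin h0 hh0).2 hv1, hv1.1⟩⟩
    obtain ⟨v0, hv0, hv0'⟩ := gcl_min (fun v w => ∀ h ∈ P, h v ≤ h w) (fun _ _ _ => le_refl _)
      (fun x y z h1 h2 h hh => (h1 h hh).trans (h2 h hh)) hKS.toFinset
      (fun x hx y hy => hcmp x (hKS.mem_toFinset.1 hx).1 y (hKS.mem_toFinset.1 hy).1) hne'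
    refine (hMA T).2.2.2.2.2.1 (AdmC P S) v0 ?_ j
    rintro l ⟨h, hh, hl⟩
    refine ⟨h, hh, fun v hv => ?_⟩
    rcases List.mem_cons.1 hv with rfl | hv
    · refine ⟨(hKS.mem_toFinset.1 hv0).2, fun w hw => ?_⟩
      obtain ⟨u, hu⟩ := (hmin h hh).1
      exact (hv0' u (hKS.mem_toFinset.2 ⟨(hmin h hh).2 hu, hu.1⟩) h hh).trans (hu.2 w hw)
    · exact hl v hv
  induction n with
  | zero =>
    intro P hP hne hmin hcard
    exact hone P hne hmin ((Set.ncard_eq_zero (hfin P)).1 (Nat.le_zero.1 hcard))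
  | succ n ih =>
    intro P hP hne hmin hcard
    by_cases hp : gcl_pairs P K = ∅
    · exact hone P hne hmin hp
    · obtain ⟨⟨v, w⟩, ⟨hvK, hwK⟩, ⟨f, hf, hfv⟩, ⟨g, hg, hgv⟩⟩ := Set.nonempty_iff_ne_empty.2 hp
      simp only at hvK hwK hfv hgv
      have hlt : ∀ Q : Set (T → ℝ), Q ⊆ P → (v, w) ∉ gcl_pairs Q K →
          (gcl_pairs Q K).ncard ≤ n := by
        intro Q hQ hvw
        have h1 : gcl_pairs Q K ⊂ gcl_pairs P K := by
          refine (Set.ssubset_iff_of_subset ?_).2 ⟨(v, w), ⟨⟨hvK, hwK⟩, ⟨f, hf, hfv⟩,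
            ⟨g, hg, hgv⟩⟩, hvw⟩
          rintro p ⟨h2, ⟨h3, h4, h5⟩, ⟨h6, h7, h8⟩⟩
          exact ⟨h2, ⟨h3, hQ h4, h5⟩, ⟨h6, hQ h7, h8⟩⟩
        have h2 := Set.ncard_lt_ncard h1 (hfin P)
        omega
      set P1 : Set (T → ℝ) := {h | h ∈ P ∧ h v ≤ h w} with hP1
      set P2 : Set (T → ℝ) := {h | h ∈ P ∧ h w ≤ h v} with hP2
      set P0 : Set (T → ℝ) := {h | h ∈ P ∧ h v = h w} with hP0
      have c1 : Convex ℝ P1 := by
        intro x hx y hy a b ha hb hab
        refine ⟨hP hx.1 hy.1 ha hb hab, ?_⟩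
        simp only [Pi.add_apply, Pi.smul_apply, smul_eq_mul]
        have := mul_le_mul_of_nonneg_left hx.2 ha
        have := mul_le_mul_of_nonneg_left hy.2 hb
        linarith
      have c2 : Convex ℝ P2 := by
        intro x hx y hy a b ha hb hab
        refine ⟨hP hx.1 hy.1 ha hb hab, ?_⟩
        simp only [Pi.add_apply, Pi.smul_apply, smul_eq_mul]
        have := mul_le_mul_of_nonneg_left hx.2 ha
        have := mul_le_mul_of_nonneg_left hy.2 hb
        linarith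
      have c0 : Convex ℝ P0 := by
        intro x hx y hy a b ha hb hab
        refine ⟨hP hx.1 hy.1 ha hb hab, ?_⟩
        simp only [Pi.add_apply, Pi.smul_apply, smul_eq_mul]
        rw [hx.2, hy.2]
      have n0 : P0.Nonempty := by
        obtain ⟨a, b, -, -, -, h1, h2⟩ := gcl_seg hP hf hg hfv.le hgv.le
        exact ⟨_, h1, h2⟩
      have e1 : ∀ j, Ex (AdmC P1 S) j := ih P1 c1 ⟨f, hf, hfv.le⟩ (fun h hh => hmin h hh.1)
        (hlt P1 (fun h hh => hh.1) (fun h => by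
          obtain ⟨-, -, ⟨x, hx, hx'⟩⟩ := h
          exact absurd hx' (not_lt.2 hx.2)))
      have e2 : ∀ j, Ex (AdmC P2 S) j := ih P2 c2 ⟨g, hg, hgv.le⟩ (fun h hh => hmin h hh.1)
        (hlt P2 (fun h hh => hh.1) (fun h => by
          obtain ⟨-, ⟨x, hx, hx'⟩, -⟩ := h
          exact absurd hx' (not_lt.2 hx.2)))
      have e0 : ∀ j, Ex (AdmC P0 S) j := ih P0 c0 n0 (fun h hh => hmin h hh.1)
        (hlt P0 (fun h hh => hh.1) (fun h => by
          obtain ⟨-, ⟨x, hx, hx'⟩, -⟩ := h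
          exact absurd hx' (not_lt.2 hx.2.ge)))
      have hun : ∀ l, l ∈ (AdmC P S).s ↔ l ∈ (AdmC P1 S).s ∨ l ∈ (AdmC P2 S).s := by
        intro l
        constructor
        · rintro ⟨h, hh, hl⟩
          rcases le_total (h v) (h w) with h1 | h1
          · exact Or.inl ⟨h, ⟨hh, h1⟩, hl⟩
          · exact Or.inr ⟨h, ⟨hh, h1⟩, hl⟩
        · rintro (⟨h, hh, hl⟩ | ⟨h, hh, hl⟩)
          · exact ⟨h, hh.1, hl⟩
          · exact ⟨h, hh.1, hl⟩
      have hin : ∀ l, l ∈ (AdmC P0 S).s ↔ l ∈ (AdmC P1 S).s ∧ l ∈ (AdmC P2 S).s := by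
        intro l
        constructor
        · rintro ⟨h, hh, hl⟩
          exact ⟨⟨h, ⟨hh.1, hh.2.le⟩, hl⟩, ⟨h, ⟨hh.1, hh.2.ge⟩, hl⟩⟩
        · rintro ⟨⟨x, hx, hlx⟩, ⟨y, hy, hly⟩⟩
          obtain ⟨a, b, ha, hb, hab, h1, h2⟩ := gcl_seg hP hx.1 hy.1 hx.2 hy.2
          refine ⟨a • x + b • y, ⟨h1, h2⟩, fun u hu => ⟨(hlx u hu).1, fun z hz => ?_⟩⟩
          simp only [Pi.add_apply, Pi.smul_apply, smul_eq_mul]
          have := mul_le_mul_of_nonneg_left ((hlx u hu).2 z hz) ha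
          have := mul_le_mul_of_nonneg_left ((hly u hu).2 z hz) hb
          linarith
      intro j
      rcases j with _ | j
      · exact ((hMA T).2.2.2.2.2.2 _ _ _ _ 0 hun hin).1 (e1 0) (e2 0)
      · exact ((hMA T).2.2.2.2.2.2 _ _ _ _ j hun hin).2 (e1 (j + 1)) (e2 (j + 1)) (e0 j)

theorem thm_GCL (hMA : St_MA) : St_GCL := by
  classical
  intro T C S hC hne hK j z hz hb
  obtain ⟨h0, hh0⟩ := hne
  have hz' : ∀ l ∈ z.support, l ∈ (AdmC C S).s ∧ l.length = j := by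
    rw [Ch, Finsupp.mem_supported] at hz
    exact hz
  have hw : ∀ l ∈ z.support, ∃ h ∈ C, ∀ v ∈ l, v ∈ MinS S h := fun l hl => (hz' l hl).1
  choose! F hF1 hF2 using hw
  set H : Finset (T → ℝ) := insert h0 (z.support.image F) with hH
  have hHC : (H : Set (T → ℝ)) ⊆ C := by
    intro h hh
    rcases Finset.mem_insert.1 (Finset.mem_coe.1 hh) with rfl | hh
    · exact hh0
    · obtain ⟨l, hl, rfl⟩ := Finset.mem_image.1 hh
      exact hF1 l hl
  obtain ⟨K, hKf, hK'⟩ := hK H hHC ⟨h0, Finset.mem_insert_self _ _⟩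
  have hsub : convexHull ℝ (H : Set (T → ℝ)) ⊆ C := convexHull_min hHC hC
  have hex := gcl_claim hMA S K hKf _ (convexHull ℝ (H : Set (T → ℝ))) (convex_convexHull ℝ _)
    ⟨h0, subset_convexHull ℝ _ (Finset.mem_coe.2 (Finset.mem_insert_self _ _))⟩ hK' (le_refl _) j
  have hz2 : z ∈ Ch (AdmC (convexHull ℝ (H : Set (T → ℝ))) S).s j := by
    rw [Ch, Finsupp.mem_supported]
    intro l hl
    refine ⟨⟨F l, subset_convexHull ℝ _ (Finset.mem_coe.2 (Finset.mem_insert_of_mem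
      (Finset.mem_image_of_mem F hl))), hF2 l hl⟩, (hz' l hl).2⟩
  obtain ⟨y, hy, hyz⟩ := hex z hz2 hb
  refine ⟨y, ?_, hyz⟩
  rw [Ch, Finsupp.mem_supported] at hy ⊢
  intro l hl
  obtain ⟨⟨h, hh, h1⟩, h2⟩ := hy hl
  exact ⟨⟨h, hsub hh, h1⟩, h2⟩

end Pool.Agent.SLZ
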