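import Pool.Agent.SLZ.StG

/-!
# SLZ, GEX: saturated subgroups
-/

set_option autoImplicit false
set_option linter.unusedVariables false

noncomputable section

namespace Pool.Agent.SLZ

theorem gex_subset {W : Type} [AddCommGroup W] (s : Set W) {v : W} (hv : v ∈ s) : v ∈ sat s :=
  ⟨1, one_ne_zero, by rw [one_smul]; exact Submodule.subset_span hv⟩

theorem gex_free {W : Type} [AddCommGroup W] [Module.Free ℤ W] [Module.Finite ℤ W] (s : Set W) :
    Module.Free ℤ (W ⧸ sat s) := by
  have htf : Module.IsTorsionFree ℤ (W ⧸ sat s) := by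
    refine Module.IsTorsionFree.of_smul_eq_zero ?_
    intro r m h
    by_cases hr : r = 0
    · exact Or.inl hr
    right
    obtain ⟨w, rfl⟩ := (sat s).mkQ_surjective m
    rw [← map_smul, Submodule.mkQ_apply, Submodule.Quotient.mk_eq_zero] at h
    rw [Submodule.mkQ_apply, Submodule.Quotient.mk_eq_zero]
    obtain ⟨n, hn, h1⟩ := h
    refine ⟨n * r, mul_ne_zero hn hr, ?_⟩
    rw [mul_smul]
    exact h1
  exact Module.free_of_finite_type_torsion_free'

theorem gex_split {W : Type} [AddCommGroup W] (p : Submodule ℤ W) [Module.Free ℤ (W ⧸ p)] :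
    ∃ e : W ≃ₗ[ℤ] p × (W ⧸ p), ∀ u : p, e u = (u, 0) := by
  obtain ⟨σ, hσ⟩ := Module.projective_lifting_property p.mkQ LinearMap.id p.mkQ_surjective
  have hσ' : ∀ x, p.mkQ (σ x) = x := fun x => LinearMap.congr_fun hσ x
  have hmem : ∀ w, ((LinearMap.id : W →ₗ[ℤ] W) - σ ∘ₗ p.mkQ) w ∈ p := by
    intro w
    rw [← Submodule.Quotient.mk_eq_zero p, ← Submodule.mkQ_apply]
    simp only [LinearMap.sub_apply, LinearMap.id_apply, LinearMap.comp_apply, map_sub, hσ', sub_self]
  let f : W →ₗ[ℤ] p := LinearMap.codRestrict p ((LinearMap.id : W →ₗ[ℤ] W) - σ ∘ₗ p.mkQ) hmem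
  have hf : ∀ w, ((f w : p) : W) = w - σ (p.mkQ w) := fun w => rfl
  have hinj : Function.Injective (f.prod p.mkQ) := by
    rw [injective_iff_map_eq_zero]
    intro w hw
    have h1 : f w = 0 := congrArg Prod.fst hw
    have h2 : p.mkQ w = 0 := congrArg Prod.snd hw
    have h3 : ((f w : p) : W) = 0 := by rw [h1]; rfl
    rw [hf, h2, map_zero, sub_zero] at h3
    exact h3
  have hsurj : Function.Surjective (f.prod p.mkQ) := by
    rintro ⟨u, x⟩
    refine ⟨u + σ x, ?_⟩
    have h2 : p.mkQ (u + σ x) = x := by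
      rw [map_add, hσ', Submodule.mkQ_apply, (Submodule.Quotient.mk_eq_zero p).2 u.2, zero_add]
    refine Prod.ext ?_ h2
    apply Subtype.ext
    show ((f (u + σ x) : p) : W) = u
    rw [hf, h2, add_sub_cancel_right]
  refine ⟨LinearEquiv.ofBijective (f.prod p.mkQ) ⟨hinj, hsurj⟩, ?_⟩
  intro u
  show (f.prod p.mkQ) (u : W) = (u, 0)
  have h2 : p.mkQ (u : W) = 0 := by
    rw [Submodule.mkQ_apply]
    exact (Submodule.Quotient.mk_eq_zero p).2 u.2
  refine Prod.ext ?_ h2
  apply Subtype.ext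
  show ((f u : p) : W) = u
  rw [hf, h2, map_zero, sub_zero]

theorem thm_GEX : St_GEX := by
  intro W _ _ _
  refine ⟨fun s => gex_free s, ?_, ?_⟩
  · intro s s' φ
    have := gex_free s
    have := gex_free s'
    obtain ⟨e, he⟩ := gex_split (sat s)
    obtain ⟨e', he'⟩ := gex_split (sat s')
    have hr : Module.finrank ℤ (W ⧸ sat s) = Module.finrank ℤ (W ⧸ sat s') := by
      have h1 := (sat s).finrank_quotient_add_finrank
      have h2 := (sat s').finrank_quotient_add_finrank
      have h3 := φ.finrank_eq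
      omega
    let ψ : (W ⧸ sat s) ≃ₗ[ℤ] (W ⧸ sat s') := LinearEquiv.ofFinrankEq _ _ hr
    refine ⟨e.trans ((φ.prodCongr ψ).trans e'.symm), ?_⟩
    intro u
    rw [LinearEquiv.trans_apply, he, LinearEquiv.trans_apply, LinearEquiv.symm_apply_eq, he']
    exact Prod.ext rfl (map_zero ψ)
  · intro s hs
    obtain ⟨v, hv, hv0⟩ := hs
    have h1 := (sat s).finrank_quotient_add_finrank
    have hnt : Nontrivial (sat s) := by
      refine ⟨⟨⟨v, gex_subset s hv⟩, 0, ?_⟩⟩
      intro h
      exact hv0 (congrArg Subtype.val h)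
    have h2 : 0 < Module.finrank ℤ (sat s) := Module.finrank_pos
    omega

end Pool.Agent.SLZ
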