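import Pool.Agent.SLZ.StG

/-!
# SLZ, GIX: lattices with a basis of shortest vectors
-/

set_option autoImplicit false
set_option linter.unusedVariables false

noncomputable section

namespace Pool.Agent.SLZ

/-- simultaneous approximation -/
theorem gix_dir (r m : ℕ) (hm : 0 < m) (x : Fin r → ℝ) :
    ∃ q : ℕ, 0 < q ∧ q ≤ m ^ r ∧ ∃ y : Fin r → ℤ, ∀ i, |(q : ℝ) * x i - y i| < 1 / m := by
  have hm' : (0 : ℝ) < m := by exact_mod_cast hm
  have hlt : ∀ (t : ℕ) (i : Fin r), ⌊(m : ℝ) * Int.fract ((t : ℝ) * x i)⌋₊ < m := by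
    intro t i
    rw [Nat.floor_lt (mul_nonneg hm'.le (Int.fract_nonneg _))]
    have := Int.fract_lt_one ((t : ℝ) * x i)
    nlinarith
  let f : ℕ → (Fin r → Fin m) := fun t i => ⟨⌊(m : ℝ) * Int.fract ((t : ℝ) * x i)⌋₊, hlt t i⟩
  have hcard : (Finset.univ : Finset (Fin r → Fin m)).card < (Finset.range (m ^ r + 1)).card := by
    simp
  obtain ⟨t, ht, t', ht', hne, heq⟩ := Finset.exists_ne_map_eq_of_card_lt_of_maps_to hcard
    (f := f) (fun _ _ => Finset.mem_coe.2 (Finset.mem_univ _))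
  have main : ∀ t t' : ℕ, t < t' → t' ≤ m ^ r → f t = f t' →
      ∃ q : ℕ, 0 < q ∧ q ≤ m ^ r ∧ ∃ y : Fin r → ℤ, ∀ i, |(q : ℝ) * x i - y i| < 1 / m := by
    intro t t' htt ht' hf
    refine ⟨t' - t, by omega, by omega, fun i => ⌊(t' : ℝ) * x i⌋ - ⌊(t : ℝ) * x i⌋, ?_⟩
    intro i
    have h1 : ⌊(m : ℝ) * Int.fract ((t : ℝ) * x i)⌋₊ = ⌊(m : ℝ) * Int.fract ((t' : ℝ) * x i)⌋₊ :=
      congrArg Fin.val (congrFun hf i)
    have n1 : 0 ≤ (m : ℝ) * Int.fract ((t : ℝ) * x i) := mul_nonneg hm'.le (Int.fract_nonneg _)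
    have n2 : 0 ≤ (m : ℝ) * Int.fract ((t' : ℝ) * x i) := mul_nonneg hm'.le (Int.fract_nonneg _)
    have a1 := Nat.floor_le n1
    have a2 := Nat.lt_floor_add_one ((m : ℝ) * Int.fract ((t : ℝ) * x i))
    have b1 := Nat.floor_le n2
    have b2 := Nat.lt_floor_add_one ((m : ℝ) * Int.fract ((t' : ℝ) * x i))
    rw [h1] at a1 a2
    have e1 : Int.fract ((t : ℝ) * x i) = (t : ℝ) * x i - ⌊(t : ℝ) * x i⌋ := rfl
    have e2 : Int.fract ((t' : ℝ) * x i) = (t' : ℝ) * x i - ⌊(t' : ℝ) * x i⌋ := rfl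
    have h2 : |(m : ℝ) * Int.fract ((t' : ℝ) * x i) - (m : ℝ) * Int.fract ((t : ℝ) * x i)| < 1 := by
      rw [abs_lt]
      constructor <;> linarith
    have hc : ((t' - t : ℕ) : ℝ) = (t' : ℝ) - t := by
      rw [Nat.cast_sub htt.le]
    rw [hc]
    have h3 : ((t' : ℝ) - t) * x i - ((⌊(t' : ℝ) * x i⌋ - ⌊(t : ℝ) * x i⌋ : ℤ) : ℝ) =
        Int.fract ((t' : ℝ) * x i) - Int.fract ((t : ℝ) * x i) := by
      rw [e1, e2]
      push_cast
      ring
    rw [h3, lt_div_iff₀ hm']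
    rw [← mul_sub, abs_mul, abs_of_pos hm'] at h2
    linarith
  rw [Finset.mem_range] at ht ht'
  rcases lt_or_gt_of_ne hne with h | h
  · exact main t t' h (by omega) heq
  · exact main t' t h (by omega) heq.symm

section

variable {W : Type} [AddCommGroup W]

theorem gix_zero {h : W → ℝ} (hh : IsNW h) : h 0 = 0 := by
  have := hh.mul 0 0
  simpa using this

theorem gix_pos [Module.Free ℤ W] [Module.Finite ℤ W] {h : W → ℝ} (hh : IsNW h) {w : W}
    (hw : w ≠ 0) : 0 < h w := by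
  by_contra hcon
  push Not at hcon
  have hinj : Function.Injective (fun n : ℕ => (n : ℤ) • w) := by
    intro a b hab
    have h1 : ((a : ℤ) - b) • w = 0 := by
      rw [sub_smul]
      exact sub_eq_zero.2 hab
    rcases smul_eq_zero.1 h1 with h2 | h2
    · omega
    · exact absurd h2 hw
  have hfin := hh.fin 0
  refine Set.infinite_of_injective_forall_mem hinj ?_ hfin
  intro n
  show h ((n : ℤ) • w) ≤ 0
  rw [hh.mul]
  exact mul_nonpos_of_nonneg_of_nonpos (abs_nonneg _) hcon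

theorem gix_sum {h : W → ℝ} (hh : IsNW h) {ι : Type} (s : Finset ι) (c : ι → ℤ) (v : ι → W) :
    h (∑ i ∈ s, c i • v i) ≤ ∑ i ∈ s, |(c i : ℝ)| * h (v i) := by
  classical
  induction s using Finset.induction_on with
  | empty => simp [gix_zero hh]
  | insert a s ha ih =>
    rw [Finset.sum_insert ha, Finset.sum_insert ha]
    have h1 := hh.add (c a • v a) (∑ i ∈ s, c i • v i)
    have h2 := hh.mul (c a) (v a)
    linarith

end

theorem thm_GIX : St_GIX := by
  intro r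
  refine ⟨((r + 1) ^ r).factorial, 2 * (2 * r + 1) ^ r * ((r + 1) ^ r).factorial,
    Nat.factorial_pos _, ?_⟩
  intro W _ _ _ h v hh hli hv w hw
  set B : ℕ := ((r + 1) ^ r).factorial with hB
  have hBpos : 0 < B := Nat.factorial_pos _
  -- the index
  obtain ⟨n, hn, hspan⟩ := hw
  rw [Submodule.mem_span_range_iff_exists_fun] at hspan
  obtain ⟨c0, hc0⟩ := hspan
  -- positive denominator
  obtain ⟨d, c, hd, hc⟩ : ∃ (d : ℕ) (c : Fin r → ℤ), 0 < d ∧ (d : ℤ) • w = ∑ i, c i • v i := by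
    rcases lt_or_gt_of_ne hn with h1 | h1
    · refine ⟨n.natAbs, fun i => -c0 i, Int.natAbs_pos.2 hn, ?_⟩
      have e : ((n.natAbs : ℕ) : ℤ) = -n := by omega
      rw [e, neg_smul, ← hc0]
      simp [Finset.sum_neg_distrib]
    · refine ⟨n.natAbs, c0, Int.natAbs_pos.2 hn, ?_⟩
      have e : ((n.natAbs : ℕ) : ℤ) = n := by omega
      rw [e, ← hc0]
  have hd' : (0 : ℝ) < d := by exact_mod_cast hd
  obtain ⟨q, hq, hqm, y, hy⟩ := gix_dir r (r + 1) (Nat.succ_pos r) (fun i => (c i : ℝ) / d)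
  have hm' : (0 : ℝ) < ((r + 1 : ℕ) : ℝ) := by exact_mod_cast Nat.succ_pos r
  have hz : (q : ℤ) • w - ∑ i, y i • v i = 0 := by
    by_contra hne
    set z := (q : ℤ) • w - ∑ i, y i • v i with hzdef
    have hzpos := gix_pos hh hne
    have hdz : (d : ℤ) • z = ∑ i, ((q : ℤ) * c i - d * y i) • v i := by
      have e1 : (d : ℤ) • ((q : ℤ) • w) = (q : ℤ) • ((d : ℤ) • w) := smul_comm _ _ _
      rw [hzdef, smul_sub, e1, hc, Finset.smul_sum, Finset.smul_sum, ← Finset.sum_sub_distrib]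
      refine Finset.sum_congr rfl fun i _ => ?_
      rw [sub_smul, mul_smul, mul_smul]
    have h1 : (d : ℝ) * h z ≤ ∑ i, |(((q : ℤ) * c i - d * y i : ℤ) : ℝ)| * h (v i) := by
      have e := hh.mul (d : ℤ) z
      rw [hdz] at e
      have e2 := gix_sum hh Finset.univ (fun i => (q : ℤ) * c i - d * y i) v
      rw [e] at e2
      simpa [abs_of_pos hd'] using e2
    have h2 : ∀ i, |(((q : ℤ) * c i - d * y i : ℤ) : ℝ)| * h (v i) ≤
        (d / ((r + 1 : ℕ) : ℝ)) * h z := by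
      intro i
      have f1 : |(((q : ℤ) * c i - d * y i : ℤ) : ℝ)| ≤ d / ((r + 1 : ℕ) : ℝ) := by
        have e : (((q : ℤ) * c i - d * y i : ℤ) : ℝ) = d * ((q : ℝ) * ((c i : ℝ) / d) - y i) := by
          push_cast
          field_simp
        rw [e, abs_mul, abs_of_pos hd', div_eq_mul_one_div (d : ℝ) ((r + 1 : ℕ) : ℝ)]
        exact mul_le_mul_of_nonneg_left (hy i).le hd'.le
      have f2 : h (v i) ≤ h z := (hv i).2 z hne
      have f3 : 0 ≤ h (v i) := (gix_pos hh (hv i).1).le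
      calc _ ≤ (d / ((r + 1 : ℕ) : ℝ)) * h (v i) := mul_le_mul_of_nonneg_right f1 f3
        _ ≤ _ := mul_le_mul_of_nonneg_left f2 (by positivity)
    have h3 : (d : ℝ) * h z ≤ r * ((d / ((r + 1 : ℕ) : ℝ)) * h z) := by
      refine h1.trans ((Finset.sum_le_sum fun i _ => h2 i).trans ?_)
      simp
    have h4 : r * ((d / ((r + 1 : ℕ) : ℝ)) * h z) < d * h z := by
      have e : (r : ℝ) * ((d / ((r + 1 : ℕ) : ℝ)) * h z) =
          ((r : ℝ) / ((r + 1 : ℕ) : ℝ)) * (d * h z) := by ring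
      rw [e]
      have : (r : ℝ) / ((r + 1 : ℕ) : ℝ) < 1 := by
        rw [div_lt_one hm']
        push_cast
        linarith
      have hp : 0 < (d : ℝ) * h z := mul_pos hd' hzpos
      nlinarith
    linarith
  have hqw : (q : ℤ) • w = ∑ i, y i • v i := sub_eq_zero.1 hz
  obtain ⟨e, he⟩ : q ∣ B := Nat.dvd_factorial hq hqm
  have hBw : (B : ℤ) • w = ∑ i, ((e : ℤ) * y i) • v i := by
    have e1 : (B : ℤ) = (e : ℤ) * q := by
      rw [he]
      push_cast
      ring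
    rw [e1, mul_smul, hqw, Finset.smul_sum]
    exact Finset.sum_congr rfl fun i _ => (mul_smul _ _ _).symm
  refine ⟨fun i => (e : ℤ) * y i, hBw, ?_⟩
  -- the bound
  intro hmin i0
  set a : Fin r → ℤ := fun i => (e : ℤ) * y i with ha
  by_contra hcon
  push Not at hcon
  obtain ⟨i1, -, hi1⟩ := Finset.exists_max_image (Finset.univ : Finset (Fin r)) (fun i => |a i|)
    ⟨i0, Finset.mem_univ _⟩
  set A : ℤ := |a i1| with hA
  have hAJ : ((2 * (2 * r + 1) ^ r * B : ℕ) : ℤ) < A := lt_of_lt_of_le hcon (hi1 i0 (Finset.mem_univ _))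
  have hApos : 0 < A := lt_of_le_of_lt (Int.natCast_nonneg _) hAJ
  have hA' : (0 : ℝ) < (A : ℝ) := by exact_mod_cast hApos
  have hAJ' : 2 * (((2 * r + 1) ^ r : ℕ) : ℝ) * (B : ℝ) < (A : ℝ) := by
    have : (((2 * (2 * r + 1) ^ r * B : ℕ) : ℤ) : ℝ) < (A : ℝ) := by exact_mod_cast hAJ
    push_cast at this ⊢
    linarith
  obtain ⟨p, hp, hpm, x, hx⟩ := gix_dir r (2 * r + 1) (by omega) (fun i => (a i : ℝ) / A)
  have hm2 : (0 : ℝ) < ((2 * r + 1 : ℕ) : ℝ) := by exact_mod_cast Nat.succ_pos (2 * r)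
  have hz2 : ∑ i, x i • v i = 0 := by
    by_contra hne
    set z := ∑ i, x i • v i with hzdef
    have hzpos := gix_pos hh hne
    have hAz : A • z = (∑ i, (A * x i - (p : ℤ) * a i) • v i) + ((p : ℤ) * (B : ℤ)) • w := by
      rw [mul_smul, hBw, hzdef, Finset.smul_sum, Finset.smul_sum, ← Finset.sum_add_distrib]
      refine Finset.sum_congr rfl fun i _ => ?_
      rw [sub_smul, mul_smul, mul_smul (p : ℤ)]
      abel
    have h1 : (A : ℝ) * h z ≤ ∑ i, |((A * x i - (p : ℤ) * a i : ℤ) : ℝ)| * h (v i) +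
        (p : ℝ) * B * h w := by
      have e1 := hh.mul A z
      have e2 := hh.add (∑ i, (A * x i - (p : ℤ) * a i) • v i) (((p : ℤ) * (B : ℤ)) • w)
      have e3 := gix_sum hh Finset.univ (fun i => A * x i - (p : ℤ) * a i) v
      have e4 := hh.mul ((p : ℤ) * (B : ℤ)) w
      have e5 : |(((p : ℤ) * (B : ℤ) : ℤ) : ℝ)| = (p : ℝ) * B := by
        push_cast
        exact abs_of_nonneg (by positivity)
      rw [← hAz, e1, abs_of_pos hA'] at e2
      rw [e5] at e4
      linarith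
    have hwz : h w ≤ h z := hmin.2 z hne
    have h2 : ∀ i, |((A * x i - (p : ℤ) * a i : ℤ) : ℝ)| * h (v i) ≤
        (A / ((2 * r + 1 : ℕ) : ℝ)) * h z := by
      intro i
      have f1 : |((A * x i - (p : ℤ) * a i : ℤ) : ℝ)| ≤ A / ((2 * r + 1 : ℕ) : ℝ) := by
        have e : ((A * x i - (p : ℤ) * a i : ℤ) : ℝ) = -(A * ((p : ℝ) * ((a i : ℝ) / A) - x i)) := by
          push_cast
          field_simp
          ring
        rw [e, abs_neg, abs_mul, abs_of_pos hA',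
          div_eq_mul_one_div (A : ℝ) ((2 * r + 1 : ℕ) : ℝ)]
        exact mul_le_mul_of_nonneg_left (hx i).le hA'.le
      have f2 : h (v i) ≤ h z := (hv i).2 z hne
      have f3 : 0 ≤ h (v i) := (gix_pos hh (hv i).1).le
      calc _ ≤ (A / ((2 * r + 1 : ℕ) : ℝ)) * h (v i) := mul_le_mul_of_nonneg_right f1 f3
        _ ≤ _ := mul_le_mul_of_nonneg_left f2 (by positivity)
    have h3 : ∑ i, |((A * x i - (p : ℤ) * a i : ℤ) : ℝ)| * h (v i) ≤
        r * ((A / ((2 * r + 1 : ℕ) : ℝ)) * h z) := by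
      refine (Finset.sum_le_sum fun i _ => h2 i).trans ?_
      simp
    have h4 : r * ((A / ((2 * r + 1 : ℕ) : ℝ)) * h z) ≤ (1 / 2) * (A * h z) := by
      have e : (r : ℝ) * ((A / ((2 * r + 1 : ℕ) : ℝ)) * h z) =
          ((r : ℝ) / ((2 * r + 1 : ℕ) : ℝ)) * (A * h z) := by ring
      rw [e]
      have : (r : ℝ) / ((2 * r + 1 : ℕ) : ℝ) ≤ 1 / 2 := by
        rw [div_le_div_iff₀ hm2 two_pos]
        push_cast
        linarith
      exact mul_le_mul_of_nonneg_right this (mul_pos hA' hzpos).le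
    have h5 : (p : ℝ) * B * h w ≤ (((2 * r + 1) ^ r : ℕ) : ℝ) * B * h z := by
      have g1 : (p : ℝ) ≤ (((2 * r + 1) ^ r : ℕ) : ℝ) := by exact_mod_cast hpm
      have g2 : (p : ℝ) * B ≤ (((2 * r + 1) ^ r : ℕ) : ℝ) * B :=
        mul_le_mul_of_nonneg_right g1 (Nat.cast_nonneg _)
      calc (p : ℝ) * B * h w ≤ (p : ℝ) * B * h z := mul_le_mul_of_nonneg_left hwz (by positivity)
        _ ≤ _ := mul_le_mul_of_nonneg_right g2 hzpos.le
    have h6 : (((2 * r + 1) ^ r : ℕ) : ℝ) * B * h z < (1 / 2) * (A * h z) := by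
      have := mul_lt_mul_of_pos_right hAJ' hzpos
      linarith
    linarith
  have hx0 : ∀ i, x i = 0 := by
    have := (Fintype.linearIndependent_iff.1 hli) x hz2
    exact this
  have hlast := hx i1
  rw [hx0 i1] at hlast
  have e1 : |(p : ℝ) * ((a i1 : ℝ) / A) - ((0 : ℤ) : ℝ)| = p := by
    have e2 : |(a i1 : ℝ)| = A := by
      rw [hA]
      push_cast
      rfl
    rw [Int.cast_zero, sub_zero, abs_mul, abs_div, e2, abs_of_pos hA', div_self hA'.ne', mul_one]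
    exact abs_of_nonneg (Nat.cast_nonneg _)
  rw [e1] at hlast
  have h7 : (1 : ℝ) ≤ p := by exact_mod_cast hp
  have h8 : 1 / ((2 * r + 1 : ℕ) : ℝ) ≤ 1 := by
    rw [div_le_one hm2]
    have : 1 ≤ 2 * r + 1 := by omega
    exact_mod_cast this
  linarith

end Pool.Agent.SLZ
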