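import Pool.Agent.SLZ.StG

/-!
# SLZ, GNW: norms on lattices (helper24)
-/

set_option autoImplicit false
set_option linter.unusedVariables false

noncomputable section

namespace Pool.Agent.SLZ

section

variable {W : Type} [AddCommGroup W]

theorem gnw_zero {h : W → ℝ} (hh : IsNW h) : h 0 = 0 := by
  have := hh.mul 0 0
  simpa using this

theorem gnw_nonneg {h : W → ℝ} (hh : IsNW h) (v : W) : 0 ≤ h v := by
  have h1 := hh.add v ((-1 : ℤ) • v)
  have h2 := hh.mul (-1) v
  rw [h2] at h1
  have h3 : v + (-1 : ℤ) • v = 0 := by simp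
  rw [h3, gnw_zero hh] at h1
  have h4 : |((-1 : ℤ) : ℝ)| = 1 := by simp
  rw [h4] at h1
  linarith

theorem gnw_eq_zero [Module.Free ℤ W] {h : W → ℝ} (hh : IsNW h) (v : W) (h0 : h v = 0) :
    v = 0 := by
  by_contra hv
  have h1 : (Set.range fun n : ℤ => n • v) ⊆ {w | h w ≤ 0} := by
    rintro _ ⟨n, rfl⟩
    change h (n • v) ≤ 0
    rw [hh.mul, h0, mul_zero]
  have h2 : (Set.range fun n : ℤ => n • v).Finite := (hh.fin 0).subset h1
  have h3 : Function.Injective (fun n : ℤ => n • v) := fun a b hab => by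
    have h4 : (a - b) • v = 0 := by
      rw [sub_smul]
      exact sub_eq_zero.2 hab
    rcases smul_eq_zero.1 h4 with h5 | h5
    · exact sub_eq_zero.1 h5
    · exact absurd h5 hv
  exact Set.infinite_range_of_injective h3 h2

theorem gnw_convex : Convex ℝ (NW W) := by
  intro f hf g hg a b ha hb hab
  have hf' : IsNW f := hf
  have hg' : IsNW g := hg
  refine ⟨fun v w => ?_, fun n v => ?_, fun R => ?_⟩
  · simp only [Pi.add_apply, Pi.smul_apply, smul_eq_mul]
    have h1 := mul_le_mul_of_nonneg_left (hf'.add v w) ha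
    have h2 := mul_le_mul_of_nonneg_left (hg'.add v w) hb
    linarith
  · simp only [Pi.add_apply, Pi.smul_apply, smul_eq_mul]
    rw [hf'.mul, hg'.mul]
    ring
  · rcases le_or_gt (1 / 2) a with h | h
    · refine (hf'.fin (2 * R)).subset fun v hv => ?_
      simp only [Set.mem_ofPred_eq, Pi.add_apply, Pi.smul_apply, smul_eq_mul] at hv ⊢
      have h1 := gnw_nonneg hf' v
      have h2 := mul_nonneg hb (gnw_nonneg hg' v)
      have h3 := mul_le_mul_of_nonneg_right h h1
      linarith
    · refine (hg'.fin (2 * R)).subset fun v hv => ?_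
      simp only [Set.mem_ofPred_eq, Pi.add_apply, Pi.smul_apply, smul_eq_mul] at hv ⊢
      have h1 := gnw_nonneg hg' v
      have h2 := mul_nonneg ha (gnw_nonneg hf' v)
      have h4 : 1 / 2 ≤ b := by linarith
      have h3 := mul_le_mul_of_nonneg_right h4 h1
      linarith

theorem gnw_nonempty [Module.Free ℤ W] [Module.Finite ℤ W] : (NW W).Nonempty := by
  classical
  let b := Module.Free.chooseBasis ℤ W
  refine ⟨fun v => ∑ i, |((b.repr v i : ℤ) : ℝ)|, ⟨fun v w => ?_, fun n v => ?_, fun R => ?_⟩⟩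
  · change ∑ i, |((b.repr (v + w) i : ℤ) : ℝ)| ≤ _
    rw [← Finset.sum_add_distrib]
    refine Finset.sum_le_sum fun i _ => ?_
    rw [map_add, Finsupp.add_apply, Int.cast_add]
    exact abs_add_le _ _
  · change ∑ i, |((b.repr (n • v) i : ℤ) : ℝ)| = _
    rw [Finset.mul_sum]
    refine Finset.sum_congr rfl fun i _ => ?_
    rw [map_smul, Finsupp.smul_apply, smul_eq_mul, Int.cast_mul, abs_mul]
  · have h1 : (Set.pi Set.univ fun _ : Module.Free.ChooseBasisIndex ℤ W =>
        Set.Icc (-⌈R⌉) ⌈R⌉).Finite := Set.Finite.pi fun _ => Set.finite_Icc _ _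
    have h2 : Function.Injective (fun v : W => fun i => b.repr v i) := fun v w h => by
      apply b.repr.injective
      ext i
      exact congrFun h i
    refine (h1.preimage (f := fun v : W => fun i => b.repr v i) (h2.injOn)).subset ?_
    intro v hv i _
    have h3 : |((b.repr v i : ℤ) : ℝ)| ≤ R := by
      refine le_trans ?_ hv
      exact Finset.single_le_sum (f := fun i => |((b.repr v i : ℤ) : ℝ)|)
        (fun j _ => abs_nonneg _) (Finset.mem_univ i)
    have h4 : |((b.repr v i : ℤ) : ℝ)| ≤ (⌈R⌉ : ℝ) := h3.trans (Int.le_ceil R)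
    have h5 : |b.repr v i| ≤ ⌈R⌉ := by exact_mod_cast h4
    exact abs_le.1 h5

end

theorem thm_GNW : St_GNW := by
  classical
  intro W _ _ _
  refine ⟨fun h hh v => ⟨gnw_nonneg hh v, gnw_eq_zero hh v⟩, gnw_convex, gnw_nonempty, ?_, ?_⟩
  · intro _ H hH hne
    obtain ⟨v1, hv1⟩ := exists_ne (0 : W)
    have hK : (⋃ h ∈ (H : Set (W → ℝ)), {v | h v ≤ H.sup' hne (fun h => h v1)}).Finite := by
      refine H.finite_toSet.biUnion fun h hh => ?_
      have hh' : IsNW h := hH hh
      exact hh'.fin _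
    refine ⟨_, hK, fun h hh => ⟨?_, ?_⟩⟩
    · have hh' : IsNW h := convexHull_min hH gnw_convex hh
      have hfin : ({v | h v ≤ h v1} ∩ nz W).Finite := (hh'.fin _).subset Set.inter_subset_left
      obtain ⟨a, ha, hmin⟩ := Set.exists_min_image _ h hfin ⟨v1, show h v1 ≤ h v1 from le_refl _, hv1⟩
      refine ⟨a, ha.2, fun w hw => ?_⟩
      rcases le_total (h w) (h v1) with h1 | h1
      · exact hmin w ⟨h1, hw⟩
      · exact ha.1.trans h1
    · intro v hv
      have h1 := hv.2 v1 hv1
      have hh2 := hh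
      rw [Finset.convexHull_eq] at hh2
      obtain ⟨c, hc0, hc1, rfl⟩ := hh2
      by_contra hcon
      have h2 : ∀ g ∈ H, H.sup' hne (fun h => h v1) < g v := by
        intro g hg
        by_contra h3
        exact hcon (Set.mem_biUnion (Finset.mem_coe.2 hg) (not_lt.1 h3))
      have e1 : ∀ u : W, (H.centerMass c id) u = ∑ g ∈ H, c g * g u := by
        intro u
        rw [Finset.centerMass_eq_of_sum_1 _ _ hc1, Finset.sum_apply]
        rfl
      rw [e1, e1] at h1
      obtain ⟨g0, hg0, hg0'⟩ : ∃ g ∈ H, 0 < c g := by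
        by_contra h4
        push Not at h4
        have h5 : ∑ g ∈ H, c g ≤ 0 := Finset.sum_nonpos h4
        rw [hc1] at h5
        linarith
      have h6 : ∑ g ∈ H, c g * g v1 < ∑ g ∈ H, c g * g v := by
        refine Finset.sum_lt_sum (fun g hg => ?_) ⟨g0, hg0, ?_⟩
        · refine mul_le_mul_of_nonneg_left ?_ (hc0 g hg)
          exact (Finset.le_sup' (fun h : W → ℝ => h v1) hg).trans (h2 g hg).le
        · refine mul_lt_mul_of_pos_left ?_ hg0'
          exact (Finset.le_sup' (fun h : W → ℝ => h v1) hg0).trans_lt (h2 g0 hg0)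
      linarith
  · rintro g l ⟨h, hh, hl⟩
    have hh' : IsNW h := hh
    refine ⟨fun v => h (g.symm v), ⟨fun v w => ?_, fun n v => ?_, fun R => ?_⟩, ?_⟩
    · rw [map_add]
      exact hh'.add _ _
    · rw [map_smul]
      exact hh'.mul _ _
    · exact (hh'.fin R).preimage g.symm.injective.injOn
    · intro v hv
      obtain ⟨u, hu, rfl⟩ := List.mem_map.1 hv
      obtain ⟨h1, h2⟩ := hl u hu
      refine ⟨fun h3 => h1 ?_, fun w hw => ?_⟩
      · exact (LinearEquiv.map_eq_zero_iff g).1 h3
      · change h (g.symm (g u)) ≤ h (g.symm w)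
        rw [LinearEquiv.symm_apply_apply]
        refine h2 _ fun h3 => hw ?_
        exact (LinearEquiv.map_eq_zero_iff g.symm).1 h3

end Pool.Agent.SLZ
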