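import Pool.Agent.SLZ.StG

/-!
# SLZ/GOR (helper95): finitely many orbits of lists of shortest vectors
-/

set_option autoImplicit false
set_option linter.unusedVariables false

noncomputable section

namespace Pool.Agent.SLZ

theorem gor_rep {W : Type} [AddCommGroup W] (C : Type) [Finite C] (P : C → List W → Prop)
    (hP : ∀ c l l', P c l → P c l' → ∃ g : W ≃ₗ[ℤ] W, l.map g = l') :
    ∃ F : Finset (List W), ∀ c l, P c l → ∃ g : W ≃ₗ[ℤ] W, l.map g ∈ F := by
  classical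
  set rep : C → List W := fun c => if h : ∃ l, P c l then h.choose else [] with hrep
  have hfin : (Set.range rep).Finite := Set.finite_range rep
  refine ⟨hfin.toFinset, fun c l hl => ?_⟩
  have hex : ∃ l, P c l := ⟨l, hl⟩
  have h1 : P c (rep c) := by
    rw [hrep]
    simp only [dif_pos hex]
    exact hex.choose_spec
  obtain ⟨g, hg⟩ := hP c l (rep c) hl h1
  exact ⟨g, by rw [Set.Finite.mem_toFinset]; exact ⟨c, hg.symm⟩⟩

theorem gor_uniq {W : Type} [AddCommGroup W] {r : ℕ} {v : Fin r → W} (hv : LinearIndependent ℤ v) {a b : Fin r → ℤ}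
    (h : ∑ i, a i • v i = ∑ i, b i • v i) : a = b := by
  rw [Fintype.linearIndependent_iff] at hv
  have h1 : ∑ i, (a i - b i) • v i = 0 := by
    simp only [sub_smul, Finset.sum_sub_distrib]
    rw [h, sub_self]
  funext i
  exact sub_eq_zero.1 (hv _ h1 i)

theorem gor_coord {W : Type} [AddCommGroup W] {r : ℕ} {v : Fin r → W} (hv : LinearIndependent ℤ v) (B : ℕ)
    (hU : ∀ u ∈ sat (Set.range v), ∃ b : Fin r → ℤ, (B : ℤ) • u = ∑ i, b i • v i) :
    ∃ c : sat (Set.range v) →ₗ[ℤ] (Fin r → ℤ), ∀ u : sat (Set.range v), (B : ℤ) • (u : W) = ∑ i, c u i • v i := by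
  classical
  set b := Module.Basis.span hv with hb
  set T : sat (Set.range v) →ₗ[ℤ] Submodule.span ℤ (Set.range v) :=
    LinearMap.codRestrict (Submodule.span ℤ (Set.range v)) ((B : ℤ) • (sat (Set.range v)).subtype) (fun u => by
      obtain ⟨a, ha⟩ := hU u u.2
      show (B : ℤ) • (u : W) ∈ _
      rw [ha]
      exact Submodule.sum_mem _ (fun i _ => Submodule.smul_mem _ _ (Submodule.subset_span ⟨i, rfl⟩))) with hT
  refine ⟨b.equivFun.toLinearMap ∘ₗ T, fun u => ?_⟩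
  have h1 := b.sum_equivFun (T u)
  have h2 := congrArg (fun x : Submodule.span ℤ (Set.range v) => (x : W)) h1
  simp only [Submodule.coe_sum, Submodule.coe_smul] at h2
  have h3 : ∀ i, ((b i : Submodule.span ℤ (Set.range v)) : W) = v i := fun i => by
    rw [hb, Module.Basis.span_apply hv i]
  simp only [h3] at h2
  exact h2.symm

theorem gor_memSat {W : Type} [AddCommGroup W] {r : ℕ} (v : Fin r → W) (i : Fin r) : v i ∈ sat (Set.range v) :=
  ⟨1, one_ne_zero, by rw [one_smul]; exact Submodule.subset_span ⟨i, rfl⟩⟩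

/-- the codes -/
def gor_P {W : Type} [AddCommGroup W] (j r B : ℕ) (a : Fin j → Fin r → ℤ) (L : Set (Fin r → ZMod B)) (l : List W) : Prop :=
  ∃ (w : Fin j → W) (v : Fin r → W), l = List.ofFn w ∧ LinearIndependent ℤ v ∧
    (∀ u ∈ sat (Set.range v), ∃ b : Fin r → ℤ, (B : ℤ) • u = ∑ i, b i • v i) ∧
    (∀ q, w q ∈ sat (Set.range v) ∧ (B : ℤ) • w q = ∑ i, a q i • v i) ∧
    ∀ x : Fin r → ZMod B, x ∈ L ↔ ∃ b : Fin r → ℤ, (∀ i, ((b i : ℤ) : ZMod B) = x i) ∧
      ∃ u ∈ sat (Set.range v), (B : ℤ) • u = ∑ i, b i • v i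

theorem gor_range {W : Type} [AddCommGroup W] [Module.Free ℤ W] {r B : ℕ} (hB : 0 < B) (L : Set (Fin r → ZMod B)) (v : Fin r → W)
    (hv : LinearIndependent ℤ v)
    (hL : ∀ x : Fin r → ZMod B, x ∈ L ↔ ∃ b : Fin r → ℤ, (∀ i, ((b i : ℤ) : ZMod B) = x i) ∧
      ∃ u ∈ sat (Set.range v), (B : ℤ) • u = ∑ i, b i • v i)
    (c : sat (Set.range v) →ₗ[ℤ] (Fin r → ℤ)) (hc : ∀ u : sat (Set.range v), (B : ℤ) • (u : W) = ∑ i, c u i • v i)
    (a : Fin r → ℤ) : a ∈ LinearMap.range c ↔ (fun i => ((a i : ℤ) : ZMod B)) ∈ L := by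
  rw [hL, LinearMap.mem_range]
  constructor
  · rintro ⟨u, rfl⟩
    exact ⟨c u, fun i => rfl, u, u.2, hc u⟩
  · rintro ⟨b, hb, u, hu, hub⟩
    have h1 : ∀ i, ∃ k : ℤ, a i = b i + (B : ℤ) * k := by
      intro i
      have h2 := hb i
      rw [ZMod.intCast_eq_intCast_iff_dvd_sub] at h2
      obtain ⟨k, hk⟩ := h2
      exact ⟨k, by linarith⟩
    choose k hk using h1
    have hmem : u + ∑ i, k i • v i ∈ sat (Set.range v) :=
      Submodule.add_mem _ hu (Submodule.sum_mem _ (fun i _ => Submodule.smul_mem _ _ (gor_memSat v i)))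
    refine ⟨⟨_, hmem⟩, gor_uniq hv ?_⟩
    rw [← hc]
    simp only [hk, add_smul, Finset.sum_add_distrib, smul_add, hub, mul_smul, Finset.smul_sum]

theorem gor_same (hGEX : St_GEX) {W : Type} [AddCommGroup W] [Module.Free ℤ W] [Module.Finite ℤ W] {j r B : ℕ} (hB : 0 < B)
    (a : Fin j → Fin r → ℤ) (L : Set (Fin r → ZMod B)) (l l' : List W) (h : gor_P j r B a L l) (h' : gor_P j r B a L l') :
    ∃ g : W ≃ₗ[ℤ] W, l.map g = l' := by
  classical
  obtain ⟨w, v, rfl, hv, hU, hw, hL⟩ := h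
  obtain ⟨w', v', rfl, hv', hU', hw', hL'⟩ := h'
  obtain ⟨c, hc⟩ := gor_coord hv B hU
  obtain ⟨c', hc'⟩ := gor_coord hv' B hU'
  have hB0 : (B : ℤ) ≠ 0 := by exact_mod_cast hB.ne'
  have hinj : Function.Injective c := by
    intro u u' huu
    have h1 : (B : ℤ) • (u : W) = (B : ℤ) • (u' : W) := by rw [hc, hc, huu]
    exact Subtype.ext (smul_right_injective W hB0 h1)
  have hinj' : Function.Injective c' := by
    intro u u' huu
    have h1 : (B : ℤ) • (u : W) = (B : ℤ) • (u' : W) := by rw [hc', hc', huu]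
    exact Subtype.ext (smul_right_injective W hB0 h1)
  have hr : LinearMap.range c = LinearMap.range c' := by
    ext x
    rw [gor_range hB L v hv hL c hc, gor_range hB L v' hv' hL' c' hc']
  set φ : sat (Set.range v) ≃ₗ[ℤ] sat (Set.range v') :=
    (LinearEquiv.ofInjective c hinj) ≪≫ₗ (LinearEquiv.ofEq _ _ hr) ≪≫ₗ (LinearEquiv.ofInjective c' hinj').symm with hφ
  have hφc : ∀ u, c' (φ u) = c u := by
    intro u
    have h1 : (LinearEquiv.ofInjective c' hinj') (φ u) = LinearEquiv.ofEq _ _ hr (LinearEquiv.ofInjective c hinj u) := by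
      rw [hφ]
      simp
    have h2 := congrArg (fun x : LinearMap.range c' => (x : Fin r → ℤ)) h1
    simpa using h2
  obtain ⟨g, hg⟩ := (hGEX W).2.1 (Set.range v) (Set.range v') φ
  refine ⟨g, ?_⟩
  rw [List.map_ofFn]
  congr 1
  funext q
  have h1 : c ⟨w q, (hw q).1⟩ = a q := gor_uniq hv (by rw [← hc]; exact (hw q).2)
  have h2 : c' ⟨w' q, (hw' q).1⟩ = a q := gor_uniq hv' (by rw [← hc']; exact (hw' q).2)
  have h3 : φ ⟨w q, (hw q).1⟩ = ⟨w' q, (hw' q).1⟩ := hinj' (by rw [hφc, h1, h2])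
  have h4 := hg ⟨w q, (hw q).1⟩
  rw [h3] at h4
  exact h4

theorem gor_max {W : Type} [AddCommGroup W] [Module.Free ℤ W] [Module.Finite ℤ W] (l : List W) :
    ∃ (r : ℕ) (v : Fin r → W), r ≤ Module.finrank ℤ W ∧ LinearIndependent ℤ v ∧ (∀ i, v i ∈ l) ∧
      ∀ x ∈ l, x ∈ sat (Set.range v) := by
  classical
  have hbd : ∀ (r : ℕ) (v : Fin r → W), LinearIndependent ℤ v → r ≤ Module.finrank ℤ W := by
    intro r v hv
    have := hv.fintype_card_le_finrank
    simpa using this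
  by_contra hcon
  push Not at hcon
  have key : ∀ r : ℕ, ∃ v : Fin r → W, LinearIndependent ℤ v ∧ ∀ i, v i ∈ l := by
    intro r
    induction r with
    | zero => exact ⟨Fin.elim0, linearIndependent_empty_type, fun i => i.elim0⟩
    | succ r ih =>
      obtain ⟨v, hv, hvl⟩ := ih
      obtain ⟨x, hx, hxs⟩ := hcon r v (hbd r v hv) hv hvl
      refine ⟨Fin.cons x v, ?_, ?_⟩
      · refine LinearIndependent.finCons' x v hv ?_
        intro c y hy hcy
        by_contra hc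
        apply hxs
        refine ⟨c, hc, ?_⟩
        have h1 : c • x = -y := eq_neg_of_add_eq_zero_left hcy
        rw [h1]
        exact Submodule.neg_mem _ hy
      · intro i
        refine Fin.cases ?_ (fun i => ?_) i
        · exact hx
        · exact hvl i
  obtain ⟨v, hv, -⟩ := key (Module.finrank ℤ W + 1)
  have := hbd _ v hv
  omega

/-- **GOR.** Finitely many orbits of lists of shortest vectors. -/
theorem thm_GOR (hGIX : St_GIX) (hGEX : St_GEX) : St_GOR := by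
  classical
  intro W _ _ _ j
  have hr : ∀ r : ℕ, ∃ F : Finset (List W), ∀ (l : List W) (v : Fin r → W), l ∈ (SV W).s → l.length = j →
      LinearIndependent ℤ v → (∀ i, v i ∈ l) → (∀ x ∈ l, x ∈ sat (Set.range v)) → ∃ g : W ≃ₗ[ℤ] W, l.map g ∈ F := by
    intro r
    obtain ⟨B, J, hB, hGr⟩ := hGIX r
    have : NeZero B := ⟨hB.ne'⟩
    obtain ⟨F, hF⟩ := gor_rep (W := W) ((Fin j → Fin r → Set.Icc (-(J : ℤ)) (J : ℤ)) × Set (Fin r → ZMod B))
      (fun c l => gor_P j r B (fun q i => (c.1 q i : ℤ)) c.2 l)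
      (fun c l l' h h' => gor_same hGEX hB _ c.2 l l' h h')
    refine ⟨F, fun l v hl hlen hv hvl hsat => ?_⟩
    obtain ⟨h, hh, hmin⟩ := hl
    have h1 := hGr W h v hh hv (fun i => hmin _ (hvl i))
    obtain ⟨w, rfl⟩ : ∃ w : Fin j → W, l = List.ofFn w := by
      subst hlen
      exact ⟨l.get, (List.ofFn_get l).symm⟩
    have hwl : ∀ q, w q ∈ List.ofFn w := fun q => by
      rw [List.mem_ofFn]
      exact ⟨q, rfl⟩
    have h2 : ∀ q, ∃ a : Fin r → ℤ, (B : ℤ) • w q = ∑ i, a i • v i ∧ ∀ i, |a i| ≤ J := by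
      intro q
      obtain ⟨a, ha, hb⟩ := h1 (w q) (hsat _ (hwl q))
      exact ⟨a, ha, hb (hmin _ (hwl q))⟩
    choose a ha hab using h2
    refine hF ((fun q i => ⟨a q i, abs_le.1 (hab q i)⟩), {x : Fin r → ZMod B | ∃ b : Fin r → ℤ, (∀ i, ((b i : ℤ) : ZMod B) = x i) ∧
      ∃ u ∈ sat (Set.range v), (B : ℤ) • u = ∑ i, b i • v i}) (List.ofFn w) ?_
    refine ⟨w, v, rfl, hv, ?_, ?_, ?_⟩
    · intro u hu
      obtain ⟨b, hb, -⟩ := h1 u hu
      exact ⟨b, hb⟩
    · exact fun q => ⟨hsat _ (hwl q), ha q⟩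
    · exact fun x => Iff.rfl
  choose F hF using hr
  refine ⟨(Finset.range (Module.finrank ℤ W + 1)).biUnion F, fun l hl hlen => ?_⟩
  obtain ⟨r, v, hrn, hv, hvl, hsat⟩ := gor_max l
  obtain ⟨g, hg⟩ := hF r l v hl hlen hv hvl hsat
  refine ⟨g, ?_⟩
  rw [Finset.mem_biUnion]
  exact ⟨r, by rw [Finset.mem_range]; omega, hg⟩

end Pool.Agent.SLZ
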