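import Pool.Agent.SLZ.StG

/-!
# SLZ, GST: pointwise stabilizers (helper24)
-/

set_option autoImplicit false
set_option linter.unusedVariables false

noncomputable section

namespace Pool.Agent.SLZ

section

variable {W : Type} [AddCommGroup W] [Module.Free ℤ W]

theorem gst_fix (s : Set W) (g : W ≃ₗ[ℤ] W) (hg : g ∈ fixingSubgroup (W ≃ₗ[ℤ] W) s) (u : W)
    (hu : u ∈ sat s) : g u = u := by
  obtain ⟨n, hn, hm⟩ := hu
  have h1 : Set.EqOn (g : W →ₗ[ℤ] W) (LinearMap.id : W →ₗ[ℤ] W) (Submodule.span ℤ s) := by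
    refine LinearMap.eqOn_span fun x hx => ?_
    have := (mem_fixingSubgroup_iff _).1 hg x hx
    simpa using this
  have h2 : g (n • u) = n • u := by simpa using h1 hm
  have h3 : n • (g u - u) = 0 := by
    rw [smul_sub, ← map_smul, h2, sub_self]
  exact sub_eq_zero.1 ((smul_eq_zero.1 h3).resolve_left hn)

theorem gst_map (s : Set W) (g : W ≃ₗ[ℤ] W) (hg : g ∈ fixingSubgroup (W ≃ₗ[ℤ] W) s) :
    (sat s).map (g : W →ₗ[ℤ] W) = sat s := by
  apply le_antisymm
  · rintro _ ⟨u, hu, rfl⟩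
    change g u ∈ sat s
    rw [gst_fix s g hg u hu]
    exact hu
  · intro u hu
    exact ⟨u, hu, gst_fix s g hg u hu⟩

/-- the automorphism of the quotient -/
def gst_f (s : Set W) :
    fixingSubgroup (W ≃ₗ[ℤ] W) s →* ((W ⧸ sat s) ≃ₗ[ℤ] (W ⧸ sat s)) where
  toFun g := Submodule.Quotient.equiv (sat s) (sat s) g.1 (gst_map s g.1 g.2)
  map_one' := by
    ext x
    induction x using Submodule.Quotient.induction_on
    rfl
  map_mul' g h := by
    ext x
    induction x using Submodule.Quotient.induction_on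
    rfl

theorem gst_f_mk (s : Set W) (g : fixingSubgroup (W ≃ₗ[ℤ] W) s) (w : W) :
    gst_f s g (Submodule.Quotient.mk w) = Submodule.Quotient.mk (g.1 w) := rfl

omit [Module.Free ℤ W] in
theorem gst_mk_zero (s : Set W) (u : W) (hu : u ∈ sat s) :
    (Submodule.Quotient.mk u : W ⧸ sat s) = 0 := (Submodule.Quotient.mk_eq_zero _).2 hu

omit [Module.Free ℤ W] in
theorem gst_sub (s : Set W) : ∀ x ∈ s, x ∈ sat s := fun x hx =>
  ⟨1, one_ne_zero, by rw [one_smul]; exact Submodule.subset_span hx⟩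

theorem gst_surj (s : Set W) [Module.Free ℤ (W ⧸ sat s)] : Function.Surjective (gst_f s) := by
  intro ψ
  obtain ⟨σ, hσ⟩ := LinearMap.exists_rightInverse_of_surjective (sat s).mkQ
    (LinearMap.range_eq_top.2 (Submodule.mkQ_surjective _))
  have hσ' : ∀ x, (Submodule.Quotient.mk (σ x) : W ⧸ sat s) = x := fun x => by
    have := LinearMap.congr_fun hσ x
    simpa using this
  let F : ((W ⧸ sat s) ≃ₗ[ℤ] (W ⧸ sat s)) → (W →ₗ[ℤ] W) := fun χ =>
    LinearMap.id - σ ∘ₗ (sat s).mkQ + σ ∘ₗ (χ : (W ⧸ sat s) →ₗ[ℤ] (W ⧸ sat s)) ∘ₗ (sat s).mkQ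
  have hF : ∀ χ w, F χ w = w - σ (Submodule.Quotient.mk w) + σ (χ (Submodule.Quotient.mk w)) :=
    fun χ w => rfl
  have hmk : ∀ χ w, (Submodule.Quotient.mk (F χ w) : W ⧸ sat s) =
      χ (Submodule.Quotient.mk w) := by
    intro χ w
    rw [hF, Submodule.Quotient.mk_add, Submodule.Quotient.mk_sub, hσ', hσ', sub_self, zero_add]
  have hinv : ∀ χ w, F χ.symm (F χ w) = w := by
    intro χ w
    rw [hF χ.symm, hmk, LinearEquiv.symm_apply_apply, hF]
    abel
  let g : W ≃ₗ[ℤ] W := LinearEquiv.ofLinearMap (F ψ) (F ψ.symm)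
    (by ext w; have := hinv ψ.symm w; rw [LinearEquiv.symm_symm] at this; exact this)
    (by ext w; exact hinv ψ w)
  have hg : ∀ w, g w = F ψ w := fun w => rfl
  have hgf : g ∈ fixingSubgroup (W ≃ₗ[ℤ] W) s := by
    rw [mem_fixingSubgroup_iff]
    intro x hx
    change g x = x
    rw [hg, hF, gst_mk_zero s x (gst_sub s x hx), map_zero, map_zero, map_zero, sub_zero, add_zero]
  refine ⟨⟨g, hgf⟩, ?_⟩
  ext x
  induction x using Submodule.Quotient.induction_on with
  | H w =>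
    rw [gst_f_mk]
    exact hmk ψ w

/-- a unipotent automorphism -/
def gst_u (s : Set W) (φ : (W ⧸ sat s) →ₗ[ℤ] sat s) : W →ₗ[ℤ] W :=
  LinearMap.id + (sat s).subtype ∘ₗ φ ∘ₗ (sat s).mkQ

omit [Module.Free ℤ W] in
theorem gst_u_apply (s : Set W) (φ : (W ⧸ sat s) →ₗ[ℤ] sat s) (w : W) :
    gst_u s φ w = w + (φ (Submodule.Quotient.mk w) : W) := rfl

omit [Module.Free ℤ W] in
theorem gst_u_mk (s : Set W) (φ : (W ⧸ sat s) →ₗ[ℤ] sat s) (w : W) :
    (Submodule.Quotient.mk (gst_u s φ w) : W ⧸ sat s) = Submodule.Quotient.mk w := by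
  rw [gst_u_apply, Submodule.Quotient.mk_add, gst_mk_zero s _ (φ _).2, add_zero]

omit [Module.Free ℤ W] in
theorem gst_u_comp (s : Set W) (φ χ : (W ⧸ sat s) →ₗ[ℤ] sat s) (w : W) :
    gst_u s φ (gst_u s χ w) = gst_u s (φ + χ) w := by
  rw [gst_u_apply s φ, gst_u_mk, gst_u_apply, gst_u_apply, LinearMap.add_apply,
    Submodule.coe_add]
  abel

omit [Module.Free ℤ W] in
theorem gst_u_zero (s : Set W) (w : W) : gst_u s 0 w = w := by
  rw [gst_u_apply, LinearMap.zero_apply, Submodule.coe_zero, add_zero]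

/-- a unipotent automorphism as an equivalence -/
def gst_ue (s : Set W) (φ : (W ⧸ sat s) →ₗ[ℤ] sat s) : W ≃ₗ[ℤ] W :=
  LinearEquiv.ofLinearMap (gst_u s φ) (gst_u s (-φ))
    (by ext w; change gst_u s φ (gst_u s (-φ) w) = w; rw [gst_u_comp, add_neg_cancel, gst_u_zero])
    (by ext w; change gst_u s (-φ) (gst_u s φ w) = w; rw [gst_u_comp, neg_add_cancel, gst_u_zero])

theorem gst_ue_mem (s : Set W) (φ : (W ⧸ sat s) →ₗ[ℤ] sat s) :
    gst_ue s φ ∈ fixingSubgroup (W ≃ₗ[ℤ] W) s := by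
  rw [mem_fixingSubgroup_iff]
  intro x hx
  change gst_u s φ x = x
  rw [gst_u_apply, gst_mk_zero s x (gst_sub s x hx), map_zero, Submodule.coe_zero, add_zero]

/-- the kernel -/
def gst_k (s : Set W) : Multiplicative ((W ⧸ sat s) →ₗ[ℤ] sat s) →* (gst_f s).ker where
  toFun φ := ⟨⟨gst_ue s φ.toAdd, gst_ue_mem s φ.toAdd⟩, by
    rw [MonoidHom.mem_ker]
    ext x
    induction x using Submodule.Quotient.induction_on with
    | H w =>
      rw [gst_f_mk]
      exact gst_u_mk s φ.toAdd w⟩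
  map_one' := by
    apply Subtype.ext
    apply Subtype.ext
    ext w
    exact gst_u_zero s w
  map_mul' φ χ := by
    apply Subtype.ext
    apply Subtype.ext
    ext w
    exact (gst_u_comp s φ.toAdd χ.toAdd w).symm

theorem gst_k_bij (s : Set W) : Function.Bijective (gst_k s) := by
  constructor
  · intro φ χ h
    have h1 : ∀ w : W, gst_u s φ.toAdd w = gst_u s χ.toAdd w := by
      intro w
      have h2 := congrArg (fun t : (gst_f s).ker => (t.1.1 : W ≃ₗ[ℤ] W) w) h
      exact h2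
    apply Multiplicative.toAdd.injective
    ext w
    have h3 := h1 w
    rw [gst_u_apply, gst_u_apply] at h3
    exact add_left_cancel h3
  · rintro ⟨⟨g, hg⟩, hk⟩
    rw [MonoidHom.mem_ker] at hk
    have h1 : ∀ w : W, g w - w ∈ sat s := by
      intro w
      have h2 := LinearEquiv.congr_fun hk (Submodule.Quotient.mk w)
      rw [gst_f_mk] at h2
      exact (Submodule.Quotient.eq _).1 h2
    let ρ : W →ₗ[ℤ] sat s := LinearMap.codRestrict (sat s) ((g : W →ₗ[ℤ] W) - LinearMap.id) h1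
    have hρ : sat s ≤ LinearMap.ker ρ := by
      intro u hu
      rw [LinearMap.mem_ker]
      apply Subtype.ext
      change g u - u = 0
      rw [gst_fix s g hg u hu, sub_self]
    refine ⟨Multiplicative.ofAdd ((sat s).liftQ ρ hρ), ?_⟩
    apply Subtype.ext
    apply Subtype.ext
    ext w
    change w + (g w - w) = g w
    abel

end

theorem thm_GST (hExt : St_FExt) (hSub : St_FSub) (hGEX : St_GEX) : St_GST := by
  intro W _ _ _ ih l hl k
  obtain ⟨h1, -, h3⟩ := hGEX W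
  set s : Set W := {x | x ∈ l} with hs
  have hfree : Module.Free ℤ (W ⧸ sat s) := h1 s
  have hlt := h3 s hl
  refine hExt _ _ (gst_f s) k (gst_surj s) ?_ (ih (W ⧸ sat s) hlt k)
  have hfin : Module.Finite ℤ ((W ⧸ sat s) →ₗ[ℤ] sat s) := inferInstance
  exact hSub.1 _ _ k ⟨MulEquiv.ofBijective (gst_k s) (gst_k_bij s)⟩ (hSub.2.2.2 _ k hfin)

end Pool.Agent.SLZ
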