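import Pool.Agent.SLZ.StPS

/-!
# SLZ: PSE, the first block of the stabilizer of lattices over `ℤ`
-/

set_option autoImplicit false
set_option linter.unusedVariables false
set_option linter.unusedSectionVars false

noncomputable section

namespace Pool.Agent.SLZ

open Polynomial

section pse

variable {ι : Type} [Fintype ι] [DecidableEq ι] {I : Type} (c : Finset ι)

/-- the splitting of the index set -/
def pse_e : ι ≃ {a // a ∈ c} ⊕ {b // b ∉ c} := (Equiv.sumCompl (fun a => a ∈ c)).symm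

lemma pse_e_l (a : {a // a ∈ c}) : pse_e c a.1 = Sum.inl a := by
  unfold pse_e
  rw [Equiv.symm_apply_eq]
  rfl

lemma pse_e_r (a : {a // a ∉ c}) : pse_e c a.1 = Sum.inr a := by
  unfold pse_e
  rw [Equiv.symm_apply_eq]
  rfl

/-- block triangular matrices -/
def pse_bl (M : Matrix {a // a ∈ c} {a // a ∈ c} ℤ[X]) (U : Matrix {a // a ∈ c} {b // b ∉ c} ℤ[X])
    (N : Matrix {b // b ∉ c} {b // b ∉ c} ℤ[X]) : Matrix ι ι ℤ[X] :=
  (Matrix.fromBlocks M U 0 N).submatrix (pse_e c) (pse_e c)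

lemma pse_bl_mul (M M' : Matrix {a // a ∈ c} {a // a ∈ c} ℤ[X])
    (U U' : Matrix {a // a ∈ c} {b // b ∉ c} ℤ[X]) (N N' : Matrix {b // b ∉ c} {b // b ∉ c} ℤ[X]) :
    pse_bl c M U N * pse_bl c M' U' N' = pse_bl c (M * M') (M * U' + U * N') (N * N') := by
  unfold pse_bl
  rw [Matrix.submatrix_mul_equiv, Matrix.fromBlocks_multiply]
  simp

lemma pse_bl_one : pse_bl c (1 : Matrix {a // a ∈ c} {a // a ∈ c} ℤ[X]) 0 1 = 1 := by
  unfold pse_bl
  simp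

lemma pse_bl_11 (M : Matrix {a // a ∈ c} {a // a ∈ c} ℤ[X]) (U : Matrix {a // a ∈ c} {b // b ∉ c} ℤ[X])
    (N : Matrix {b // b ∉ c} {b // b ∉ c} ℤ[X]) (a b : {a // a ∈ c}) :
    pse_bl c M U N a.1 b.1 = M a b := by
  simp [pse_bl, pse_e_l]

lemma pse_bl_12 (M : Matrix {a // a ∈ c} {a // a ∈ c} ℤ[X]) (U : Matrix {a // a ∈ c} {b // b ∉ c} ℤ[X])
    (N : Matrix {b // b ∉ c} {b // b ∉ c} ℤ[X]) (a : {a // a ∈ c}) (b : {b // b ∉ c}) :
    pse_bl c M U N a.1 b.1 = U a b := by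
  simp [pse_bl, pse_e_l, pse_e_r]

lemma pse_bl_21 (M : Matrix {a // a ∈ c} {a // a ∈ c} ℤ[X]) (U : Matrix {a // a ∈ c} {b // b ∉ c} ℤ[X])
    (N : Matrix {b // b ∉ c} {b // b ∉ c} ℤ[X]) (a : {a // a ∈ c}) (b : {b // b ∉ c}) :
    pse_bl c M U N b.1 a.1 = 0 := by
  simp [pse_bl, pse_e_l, pse_e_r]

lemma pse_bl_22 (M : Matrix {a // a ∈ c} {a // a ∈ c} ℤ[X]) (U : Matrix {a // a ∈ c} {b // b ∉ c} ℤ[X])
    (N : Matrix {b // b ∉ c} {b // b ∉ c} ℤ[X]) (a b : {b // b ∉ c}) :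
    pse_bl c M U N a.1 b.1 = N a b := by
  simp [pse_bl, pse_e_r]

/-- the first block (constant coefficients) -/
def pse_A (m : Matrix ι ι ℤ[X]) : Matrix {a // a ∈ c} {a // a ∈ c} ℤ :=
  Matrix.of fun a b => (m a.1 b.1).coeff 0

/-- the second block -/
def pse_U (m : Matrix ι ι ℤ[X]) : Matrix {a // a ∈ c} {b // b ∉ c} ℤ[X] :=
  Matrix.of fun a b => m a.1 b.1

/-- the last block -/
def pse_N (m : Matrix ι ι ℤ[X]) : Matrix {b // b ∉ c} {b // b ∉ c} ℤ[X] :=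
  Matrix.of fun a b => m a.1 b.1

/-- constant matrices -/
def pse_C (M : Matrix {a // a ∈ c} {a // a ∈ c} ℤ) : Matrix {a // a ∈ c} {a // a ∈ c} ℤ[X] :=
  M.map (C : ℤ →+* ℤ[X])

lemma pse_C_mul (M M' : Matrix {a // a ∈ c} {a // a ∈ c} ℤ) :
    pse_C c (M * M') = pse_C c M * pse_C c M' := by
  unfold pse_C
  exact Matrix.map_mul

lemma pse_C_one : pse_C c (1 : Matrix {a // a ∈ c} {a // a ∈ c} ℤ) = 1 := by
  unfold pse_C
  exact Matrix.map_one _ (map_zero _) (map_one _)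

lemma pse_A_bl (M : Matrix {a // a ∈ c} {a // a ∈ c} ℤ) (U : Matrix {a // a ∈ c} {b // b ∉ c} ℤ[X])
    (N : Matrix {b // b ∉ c} {b // b ∉ c} ℤ[X]) : pse_A c (pse_bl c (pse_C c M) U N) = M := by
  ext a b
  simp [pse_A, pse_bl_11, pse_C]

lemma pse_U_bl (M : Matrix {a // a ∈ c} {a // a ∈ c} ℤ[X]) (U : Matrix {a // a ∈ c} {b // b ∉ c} ℤ[X])
    (N : Matrix {b // b ∉ c} {b // b ∉ c} ℤ[X]) : pse_U c (pse_bl c M U N) = U := by
  ext a b : 2
  simp [pse_U, pse_bl_12]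

lemma pse_N_bl (M : Matrix {a // a ∈ c} {a // a ∈ c} ℤ[X]) (U : Matrix {a // a ∈ c} {b // b ∉ c} ℤ[X])
    (N : Matrix {b // b ∉ c} {b // b ∉ c} ℤ[X]) : pse_N c (pse_bl c M U N) = N := by
  ext a b : 2
  simp [pse_N, pse_bl_22]

variable (w : I → ι → ℤ)

/-- the properties of the first block -/
structure pse_P (a₀ : ι) : Prop where
  memc : ∀ a, a ∈ c ↔ ∀ i, w i a = w i a₀
  neg : ∀ b, b ∉ c → ∃ i, w i b < w i a₀

variable {c w} {a₀ : ι} (P : pse_P c w a₀) [Nonempty I]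

include P

omit [Nonempty I] in
lemma pse_zero {m : Matrix ι ι ℤ[X]} (hm : degOK ℤ w m) (a : {a // a ∈ c}) (b : {b // b ∉ c}) :
    m b.1 a.1 = 0 := by
  obtain ⟨i, hi⟩ := P.neg b.1 b.2
  have ha := (P.memc a.1).1 a.2 i
  ext n
  rw [hm i b.1 a.1 n (by rw [ha]; omega), coeff_zero]

lemma pse_const {m : Matrix ι ι ℤ[X]} (hm : degOK ℤ w m) (a b : {a // a ∈ c}) :
    m a.1 b.1 = C ((m a.1 b.1).coeff 0) := by
  obtain ⟨i⟩ := ‹Nonempty I›
  have ha := (P.memc a.1).1 a.2 i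
  have hb := (P.memc b.1).1 b.2 i
  ext n
  rw [coeff_C]
  split_ifs with h
  · rw [h]
  · exact hm i a.1 b.1 n (by rw [ha, hb]; omega)

lemma pse_eq {m : Matrix ι ι ℤ[X]} (hm : degOK ℤ w m) :
    m = pse_bl c (pse_C c (pse_A c m)) (pse_U c m) (pse_N c m) := by
  ext1 a b
  by_cases ha : a ∈ c <;> by_cases hb : b ∈ c
  · rw [pse_bl_11 c _ _ _ ⟨a, ha⟩ ⟨b, hb⟩]
    exact pse_const P hm ⟨a, ha⟩ ⟨b, hb⟩
  · rw [pse_bl_12 c _ _ _ ⟨a, ha⟩ ⟨b, hb⟩]
    rfl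
  · rw [pse_bl_21 c _ _ _ ⟨b, hb⟩ ⟨a, ha⟩]
    exact pse_zero P hm ⟨b, hb⟩ ⟨a, ha⟩
  · rw [pse_bl_22 c _ _ _ ⟨a, ha⟩ ⟨b, hb⟩]
    rfl

lemma pse_deg (M : Matrix {a // a ∈ c} {a // a ∈ c} ℤ) (U : Matrix {a // a ∈ c} {b // b ∉ c} ℤ[X])
    (N : Matrix {b // b ∉ c} {b // b ∉ c} ℤ[X])
    (hU : ∀ (i : I) (a : {a // a ∈ c}) (b : {b // b ∉ c}) (n : ℕ), w i a.1 - w i b.1 < n →
      (U a b).coeff n = 0)
    (hN : degOK ℤ (fun (i : I) (b : {b // b ∉ c}) => w i b.1) N) :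
    degOK ℤ w (pse_bl c (pse_C c M) U N) := by
  intro i a b n hn
  by_cases ha : a ∈ c <;> by_cases hb : b ∈ c
  · rw [pse_bl_11 c _ _ _ ⟨a, ha⟩ ⟨b, hb⟩]
    have ha' := (P.memc a).1 ha i
    have hb' := (P.memc b).1 hb i
    unfold pse_C
    rw [Matrix.map_apply, coeff_C, if_neg]
    rintro rfl
    rw [ha', hb'] at hn
    simp at hn
  · rw [pse_bl_12 c _ _ _ ⟨a, ha⟩ ⟨b, hb⟩]
    exact hU i ⟨a, ha⟩ ⟨b, hb⟩ n hn
  · rw [pse_bl_21 c _ _ _ ⟨b, hb⟩ ⟨a, ha⟩, coeff_zero]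
  · rw [pse_bl_22 c _ _ _ ⟨a, ha⟩ ⟨b, hb⟩]
    exact hN i ⟨a, ha⟩ ⟨b, hb⟩ n hn

lemma pse_mul {m m' : Matrix ι ι ℤ[X]} (hm : degOK ℤ w m) (hm' : degOK ℤ w m') :
    m * m' = pse_bl c (pse_C c (pse_A c m * pse_A c m'))
      (pse_C c (pse_A c m) * pse_U c m' + pse_U c m * pse_N c m') (pse_N c m * pse_N c m') := by
  conv_lhs => rw [pse_eq P hm, pse_eq P hm']
  rw [pse_bl_mul, pse_C_mul]

lemma pse_A_mul {m m' : Matrix ι ι ℤ[X]} (hm : degOK ℤ w m) (hm' : degOK ℤ w m') :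
    pse_A c (m * m') = pse_A c m * pse_A c m' := by
  rw [pse_mul P hm hm', pse_A_bl]

lemma pse_N_mul {m m' : Matrix ι ι ℤ[X]} (hm : degOK ℤ w m) (hm' : degOK ℤ w m') :
    pse_N c (m * m') = pse_N c m * pse_N c m' := by
  rw [pse_mul P hm hm', pse_N_bl]

lemma pse_U_mul {m m' : Matrix ι ι ℤ[X]} (hm : degOK ℤ w m) (hm' : degOK ℤ w m') :
    pse_U c (m * m') = pse_C c (pse_A c m) * pse_U c m' + pse_U c m * pse_N c m' := by
  rw [pse_mul P hm hm', pse_U_bl]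

omit P [Nonempty I] in
lemma pse_A_one : pse_A c (1 : Matrix ι ι ℤ[X]) = 1 := by
  rw [← pse_bl_one c, ← pse_C_one, pse_A_bl]

omit P [Nonempty I] in
lemma pse_N_one : pse_N c (1 : Matrix ι ι ℤ[X]) = 1 := by
  rw [← pse_bl_one c, pse_N_bl]

omit P [Nonempty I] in
lemma pse_N_deg {m : Matrix ι ι ℤ[X]} (hm : degOK ℤ w m) :
    degOK ℤ (fun (i : I) (b : {b // b ∉ c}) => w i b.1) (pse_N c m) :=
  fun i a b n h => hm i a.1 b.1 n h

/-- the map to the last block -/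
def pse_f : PS ℤ w →* PS ℤ (fun (i : I) (b : {b // b ∉ c}) => w i b.1) where
  toFun g := ⟨⟨pse_N c (g.1 : Matrix ι ι ℤ[X]), pse_N c ((g.1⁻¹ : GL ι ℤ[X]) : Matrix ι ι ℤ[X]),
    by rw [← pse_N_mul P g.2.1 g.2.2, Units.mul_inv, pse_N_one],
    by rw [← pse_N_mul P g.2.2 g.2.1, Units.inv_mul, pse_N_one]⟩,
    pse_N_deg g.2.1, pse_N_deg g.2.2⟩
  map_one' := by
    apply Subtype.ext
    apply Units.ext
    exact pse_N_one
  map_mul' g h := by
    apply Subtype.ext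
    apply Units.ext
    exact pse_N_mul P g.2.1 h.2.1

/-- the map to the first block -/
def pse_g : PS ℤ w →* GL {a // a ∈ c} ℤ where
  toFun g := ⟨pse_A c (g.1 : Matrix ι ι ℤ[X]), pse_A c ((g.1⁻¹ : GL ι ℤ[X]) : Matrix ι ι ℤ[X]),
    by rw [← pse_A_mul P g.2.1 g.2.2, Units.mul_inv, pse_A_one],
    by rw [← pse_A_mul P g.2.2 g.2.1, Units.inv_mul, pse_A_one]⟩
  map_one' := by
    apply Units.ext
    exact pse_A_one
  map_mul' g h := by
    apply Units.ext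
    exact pse_A_mul P g.2.1 h.2.1

omit P [Nonempty I] in
lemma pse_hU0 (i : I) (a : {a // a ∈ c}) (b : {b // b ∉ c}) (n : ℕ) (h : w i a.1 - w i b.1 < n) :
    ((0 : Matrix {a // a ∈ c} {b // b ∉ c} ℤ[X]) a b).coeff n = 0 := by
  rw [Matrix.zero_apply, coeff_zero]

/-- elements of the stabilizer -/
def pse_mk (M : GL {a // a ∈ c} ℤ) (U U' : Matrix {a // a ∈ c} {b // b ∉ c} ℤ[X])
    (N : PS ℤ (fun (i : I) (b : {b // b ∉ c}) => w i b.1))
    (hU : ∀ (i : I) (a : {a // a ∈ c}) (b : {b // b ∉ c}) (n : ℕ), w i a.1 - w i b.1 < n →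
      (U a b).coeff n = 0)
    (hU' : ∀ (i : I) (a : {a // a ∈ c}) (b : {b // b ∉ c}) (n : ℕ), w i a.1 - w i b.1 < n →
      (U' a b).coeff n = 0)
    (h1 : pse_C c M.1 * U' + U * N.1⁻¹.1 = 0) (h2 : pse_C c M⁻¹.1 * U + U' * N.1.1 = 0) :
    PS ℤ w :=
  ⟨⟨pse_bl c (pse_C c M.1) U N.1.1, pse_bl c (pse_C c M⁻¹.1) U' N.1⁻¹.1,
    by rw [pse_bl_mul, ← pse_C_mul, h1, Units.mul_inv, Units.mul_inv, pse_C_one, pse_bl_one],
    by rw [pse_bl_mul, ← pse_C_mul, h2, Units.inv_mul, Units.inv_mul, pse_C_one, pse_bl_one]⟩,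
    pse_deg P _ _ _ hU N.2.1, pse_deg P _ _ _ hU' N.2.2⟩

lemma pse_f_surj : Function.Surjective (pse_f P) := by
  intro N
  refine ⟨pse_mk P 1 0 0 N pse_hU0 pse_hU0 (by simp) (by simp), ?_⟩
  apply Subtype.ext
  apply Units.ext
  exact pse_N_bl c _ _ _

/-- the map of the kernel to the first block -/
def pse_f' : (pse_f P).ker →* GL {a // a ∈ c} ℤ := (pse_g P).comp (pse_f P).ker.subtype

lemma pse_f'_surj : Function.Surjective (pse_f' P) := by
  intro M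
  refine ⟨⟨pse_mk P M 0 0 1 pse_hU0 pse_hU0 (by simp) (by simp), ?_⟩, ?_⟩
  · rw [MonoidHom.mem_ker]
    apply Subtype.ext
    apply Units.ext
    exact pse_N_bl c _ _ _
  · apply Units.ext
    exact pse_A_bl c _ _ _

omit P [Nonempty I] in
variable (c w) in
/-- the unipotent block -/
def pse_H : AddSubgroup (Matrix {a // a ∈ c} {b // b ∉ c} ℤ[X]) where
  carrier := {U | ∀ (i : I) (a : {a // a ∈ c}) (b : {b // b ∉ c}) (n : ℕ), w i a.1 - w i b.1 < n →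
    (U a b).coeff n = 0}
  zero_mem' := fun i a b n h => pse_hU0 i a b n h
  add_mem' := by
    intro U V hU hV i a b n h
    rw [Matrix.add_apply, coeff_add, hU i a b n h, hV i a b n h, add_zero]
  neg_mem' := by
    intro U hU i a b n h
    rw [Matrix.neg_apply, coeff_neg, hU i a b n h, neg_zero]

omit P [Nonempty I] in
/-- coefficients -/
def pse_co (N : ℕ) : pse_H c w →+ ({a // a ∈ c} → {b // b ∉ c} → Fin N → ℤ) where
  toFun U a b k := (U.1 a b).coeff k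
  map_zero' := by
    funext a b k
    exact coeff_zero _
  map_add' U V := by
    funext a b k
    exact coeff_add _ _ _

omit P in
lemma pse_H_finite : Module.Finite ℤ (pse_H c w) := by
  obtain ⟨i⟩ := ‹Nonempty I›
  obtain ⟨B, hB⟩ := (Set.finite_range (fun p : ι × ι => w i p.1 - w i p.2)).bddAbove
  have hB' : ∀ a b, w i a - w i b ≤ B := fun a b => hB ⟨(a, b), rfl⟩
  refine Module.Finite.of_injective (pse_co (c := c) (w := w) (B + 1).toNat).toIntLinearMap ?_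
  intro U V h
  apply Subtype.ext
  ext a b n
  by_cases hn : n < (B + 1).toNat
  · have h1 := congrFun (congrFun (congrFun h a) b) ⟨n, hn⟩
    exact h1
  · have h1 : w i a.1 - w i b.1 < n := by
      have := hB' a.1 b.1
      omega
    rw [U.2 i a b n h1, V.2 i a b n h1]

/-- the matrix of an element of the kernel -/
def pse_mat (x : (pse_f' P).ker) : Matrix ι ι ℤ[X] := (x.1.1.1 : GL ι ℤ[X]).1

lemma pse_mat_deg (x : (pse_f' P).ker) : degOK ℤ w (pse_mat P x) := x.1.1.2.1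

lemma pse_mat_N (x : (pse_f' P).ker) : pse_N c (pse_mat P x) = 1 := by
  have h := x.1.2
  rw [MonoidHom.mem_ker] at h
  have h1 := congrArg (fun g => g.1.1) h
  exact h1

lemma pse_mat_A (x : (pse_f' P).ker) : pse_A c (pse_mat P x) = 1 := by
  have h := x.2
  rw [MonoidHom.mem_ker] at h
  have h1 := congrArg (fun g => g.1) h
  exact h1

/-- the map of the second kernel to the unipotent block -/
def pse_h : (pse_f' P).ker →* Multiplicative (pse_H c w) where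
  toFun x := Multiplicative.ofAdd ⟨pse_U c (pse_mat P x), fun i a b n h =>
    pse_mat_deg P x i a.1 b.1 n h⟩
  map_one' := by
    rw [← ofAdd_zero]
    congr 1
    apply Subtype.ext
    have h : pse_mat P 1 = pse_bl c (1 : Matrix {a // a ∈ c} {a // a ∈ c} ℤ[X]) 0 1 := by
      rw [pse_bl_one]
      rfl
    change pse_U c (pse_mat P 1) = 0
    rw [h, pse_U_bl]
  map_mul' x y := by
    rw [← ofAdd_add]
    congr 1
    apply Subtype.ext
    change pse_U c (pse_mat P x * pse_mat P y) = pse_U c (pse_mat P x) + pse_U c (pse_mat P y)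
    rw [pse_U_mul P (pse_mat_deg P x) (pse_mat_deg P y), pse_mat_N, pse_mat_A, pse_C_one,
      Matrix.one_mul, Matrix.mul_one, add_comm]

lemma pse_h_inj : Function.Injective (pse_h P) := by
  intro x y h
  have h1 : pse_U c (pse_mat P x) = pse_U c (pse_mat P y) :=
    congrArg (fun z : pse_H c w => z.1) (Multiplicative.ofAdd.injective h)
  apply Subtype.ext
  apply Subtype.ext
  apply Subtype.ext
  apply Units.ext
  change pse_mat P x = pse_mat P y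
  rw [pse_eq P (pse_mat_deg P x), pse_eq P (pse_mat_deg P y), h1, pse_mat_N, pse_mat_A, pse_mat_N,
    pse_mat_A]

lemma pse_h_surj : Function.Surjective (pse_h P) := by
  intro U
  have hU := (Multiplicative.toAdd U).2
  have hU' := (-(Multiplicative.toAdd U)).2
  let g : PS ℤ w := pse_mk P 1 (Multiplicative.toAdd U).1 (-(Multiplicative.toAdd U)).1 1 hU hU'
    (by simp [pse_C_one]) (by simp [pse_C_one])
  have hg : g ∈ (pse_f P).ker := by
    rw [MonoidHom.mem_ker]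
    apply Subtype.ext
    apply Units.ext
    exact pse_N_bl c _ _ _
  have hg' : (⟨g, hg⟩ : (pse_f P).ker) ∈ (pse_f' P).ker := by
    rw [MonoidHom.mem_ker]
    apply Units.ext
    exact pse_A_bl c _ _ _
  refine ⟨⟨⟨g, hg⟩, hg'⟩, ?_⟩
  apply Multiplicative.toAdd.injective
  apply Subtype.ext
  exact pse_U_bl c _ _ _

omit [Fintype ι] [DecidableEq ι] P [Nonempty I] in
lemma pse_exP [Finite ι] [Nonempty ι] [Finite I] [DecidableEq ι] [Fintype ι] (w : I → ι → ℤ) :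
    ∃ (c : Finset ι) (a₀ : ι), a₀ ∈ c ∧ pse_P c w a₀ := by
  classical
  have := Fintype.ofFinite I
  obtain ⟨a₀, ha₀⟩ := Finite.exists_max (fun a : ι => ∑ i, w i a)
  refine ⟨Finset.univ.filter (fun a => ∀ i, w i a = w i a₀), a₀, by simp, ⟨by simp, ?_⟩⟩
  intro b hb
  by_contra hcon
  push Not at hcon
  apply hb
  have h1 : ∑ i, w i a₀ ≤ ∑ i, w i b := Finset.sum_le_sum fun i _ => hcon i
  have h2 : ∑ i, w i a₀ = ∑ i, w i b := le_antisymm h1 (ha₀ b)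
  have h3 := (Finset.sum_eq_sum_iff_of_le fun i _ => hcon i).1 h2
  simp only [Finset.mem_filter, Finset.mem_univ, true_and]
  intro i
  exact (h3 i (Finset.mem_univ i)).symm

end pse

/-- **PSE** -/
theorem thm_PSE : St_PSE := by
  intro ι I _ _ _ _ _ w
  obtain ⟨c, a₀, hc, P⟩ := pse_exP w
  exact ⟨c, ⟨a₀, hc⟩, pse_f P, pse_f_surj P, pse_f' P, pse_f'_surj P, pse_H c w, inferInstance,
    pse_H_finite, ⟨MulEquiv.ofBijective (pse_h P) ⟨pse_h_inj P, pse_h_surj P⟩⟩⟩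

end Pool.Agent.SLZ
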