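import Pool.Agent.SLZ.StPS

/-!
# SLZ/PSF: stabilizers of lattices over the integers (helper42, after the plan of helper71)
-/

set_option autoImplicit false
set_option linter.unusedVariables false

noncomputable section

namespace Pool.Agent.SLZ

open Polynomial

theorem thm_PSF (h1 : St_FExt) (h2 : St_FSub) (h3 : St_FGL) (h4 : St_PSE) : St_PSF := by
  intro ι I _ _ _ _ w k
  suffices H : ∀ (n : ℕ) (ι : Type) [Fintype ι] [DecidableEq ι] (w : I → ι → ℤ), Fintype.card ι = n → FPG k (PS ℤ w) from
    H _ ι w rfl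
  intro n
  induction n using Nat.strong_induction_on with
  | _ n ih =>
    intro ι _ _ w hn
    rcases isEmpty_or_nonempty ι with hι | hι
    · have hfin : Finite (PS ℤ w) := by
        have h5 : Subsingleton (GL ι ℤ[X]) := by
          refine ⟨fun a b => Units.ext (Subsingleton.elim _ _)⟩
        have h6 : Subsingleton (PS ℤ w) := ⟨fun a b => Subtype.ext (Subsingleton.elim _ _)⟩
        exact Finite.of_subsingleton
      exact h2.2.2.1 _ k hfin
    · obtain ⟨c, hc, f, hf, f', hf', H, _, hH, ⟨e⟩⟩ := h4 ι I w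
      have hcard : Fintype.card {b // b ∉ c} < n := by
        rw [← hn]
        obtain ⟨a, ha⟩ := hc
        exact Fintype.card_subtype_lt (x := a) (fun h => h ha)
      have hQ : FPG k (PS ℤ (fun (i : I) (b : {b // b ∉ c}) => w i b.1)) := ih _ hcard _ _ rfl
      have hK' : FPG k f'.ker := h2.1 _ _ k ⟨e.symm⟩ (h2.2.2.2 H k hH)
      have hGL : FPG k (GL {a // a ∈ c} ℤ) := by
        refine h2.1 _ _ k ⟨?_⟩ (h3 ({a // a ∈ c} → ℤ) k)
        exact (Matrix.GeneralLinearGroup.toLin.trans (LinearMap.GeneralLinearGroup.generalLinearEquiv ℤ _)).symm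
      exact h1 _ _ f k hf (h1 _ _ f' k hf' hK' hGL) hQ

end Pool.Agent.SLZ
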