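import Pool.Agent.SLZ.FM1
import Pool.Agent.SLZ.FM2
import Pool.Agent.SLZ.FInd
import Pool.Agent.SLZ.FPerm
import Pool.Agent.SLZ.FBG
import Pool.Agent.SLZ.FBL
import Pool.Agent.SLZ.FExt
import Pool.Agent.SLZ.FSub
import Pool.Agent.SLZ.FFmt
import Pool.Agent.SLZ.MA
import Pool.Agent.SLZ.MB
import Pool.Agent.SLZ.MC
import Pool.Agent.SLZ.GCL
import Pool.Agent.SLZ.GEX
import Pool.Agent.SLZ.GIX
import Pool.Agent.SLZ.GNW
import Pool.Agent.SLZ.GOR
import Pool.Agent.SLZ.GST
import Pool.Agent.SLZ.FGL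
import Pool.Agent.SLZ.PSE
import Pool.Agent.SLZ.PSF

/-!
# SLZ: parts F, M, G without hypotheses (architect helper38)
-/

set_option autoImplicit false

noncomputable section

namespace Pool.Agent.SLZ

theorem all_FM1 : St_FM1 := thm_FM1
theorem all_FM2 : St_FM2 := thm_FM2 all_FM1
theorem all_FBr : St_FBr := thm_FBr all_FM1
theorem all_FInd : St_FInd := thm_FInd all_FM1
theorem all_FPerm : St_FPerm := thm_FPerm all_FM1 all_FInd
theorem all_FBG : St_FBG := thm_FBG all_FBr all_FPerm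
theorem all_MA : St_MA := thm_MA
theorem all_MB : St_MB := thm_MB
theorem all_MC : St_MC := thm_MC
theorem all_FBL : St_FBL := thm_FBL all_FBG all_MA
theorem all_FExt : St_FExt := thm_FExt all_FM1 all_FInd
theorem all_FSub : St_FSub := thm_FSub all_FM1 all_FExt
theorem all_FFmt : St_FFmt := thm_FFmt
theorem all_GCL : St_GCL := thm_GCL all_MA
theorem all_GEX : St_GEX := thm_GEX
theorem all_GIX : St_GIX := thm_GIX
theorem all_GNW : St_GNW := thm_GNW
theorem all_GOR : St_GOR := thm_GOR all_GIX all_GEX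
theorem all_GST : St_GST := thm_GST all_FExt all_FSub all_GEX
theorem all_FGL : St_FGL := thm_FGL all_FSub all_FBL all_GCL all_GNW all_GOR all_GST
theorem all_PSE : St_PSE := thm_PSE
theorem all_PSF : St_PSF := thm_PSF all_FExt all_FSub all_FGL all_PSE

end Pool.Agent.SLZ
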