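import Pool.Agent.SLZ.Defs

/-!
# SLZ: stabilizers of lattices (architect helper71)

A lattice `E = ∑ O(w a) v_a` is given by its degrees `w a`; `g` in `GL_ι(A[x])` preserves it iff the entries
of `g` and `g⁻¹` satisfy `deg g_ab ≤ w a - w b` (`g_ab = 0` if `w a < w b`).
-/

set_option autoImplicit false
set_option linter.unusedVariables false

noncomputable section

namespace Pool.Agent.SLZ

open Polynomial

variable (A : Type) [CommRing A] {ι : Type} [Fintype ι] [DecidableEq ι] {I : Type}

/-- the entries satisfy `deg m_ab ≤ w i a - w i b` for all `i` -/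
def degOK (w : I → ι → ℤ) (m : Matrix ι ι A[X]) : Prop :=
  ∀ (i : I) (a b : ι) (n : ℕ), w i a - w i b < n → (m a b).coeff n = 0

variable {A}

theorem degOK_one (w : I → ι → ℤ) : degOK A w (1 : Matrix ι ι A[X]) := by
  intro i a b n h
  rw [Matrix.one_apply]
  split_ifs with hab
  · subst hab
    rw [Polynomial.coeff_one, if_neg]
    rintro rfl
    simp at h
  · exact coeff_zero n

theorem degOK_mul (w : I → ι → ℤ) {m m' : Matrix ι ι A[X]} (h : degOK A w m)
    (h' : degOK A w m') : degOK A w (m * m') := by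
  intro i a b n hn
  rw [Matrix.mul_apply, finsetSum_coeff]
  refine Finset.sum_eq_zero fun c _ => ?_
  rw [coeff_mul]
  refine Finset.sum_eq_zero fun x hx' => ?_
  have hx : x.1 + x.2 = n := by simpa using hx'
  by_cases h1 : w i a - w i c < x.1
  · rw [h i a c x.1 h1, zero_mul]
  · have h2 : w i c - w i b < x.2 := by
      have : (x.1 : ℤ) + x.2 = n := by exact_mod_cast hx
      linarith
    rw [h' i c b x.2 h2, mul_zero]

variable (A)

/-- the common stabilizer in `GL_ι(A[x])` of the lattices with the degrees `w i` -/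
def PS (w : I → ι → ℤ) : Subgroup (GL ι A[X]) where
  carrier := {g | degOK A w (g : Matrix ι ι A[X]) ∧ degOK A w ((g⁻¹ : GL ι A[X]) : Matrix ι ι A[X])}
  one_mem' := ⟨degOK_one w, by rw [inv_one]; exact degOK_one w⟩
  mul_mem' := by
    rintro g h ⟨h1, h2⟩ ⟨h3, h4⟩
    refine ⟨?_, ?_⟩
    · rw [Units.val_mul]
      exact degOK_mul w h1 h3
    · rw [mul_inv_rev, Units.val_mul]
      exact degOK_mul w h4 h2
  inv_mem' := by
    rintro g ⟨h1, h2⟩
    refine ⟨h2, ?_⟩
    rw [inv_inv]
    exact h1

end Pool.Agent.SLZ
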