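import Pool.Agent.SLZ.DefsP
import Pool.Agent.SLZ.StF

/-!
# SLZ: statements on stabilizers of lattices (architect helper71)
-/

set_option autoImplicit false
set_option linter.unusedVariables false

noncomputable section

namespace Pool.Agent.SLZ

/-- **PSE** (1.5 h). The first block.

Proof. `d a b = min_i (w i a - w i b)` (`I` is finite and nonempty), `d a b + d b c ≤ d a c`, `d a a = 0`; `g_ab` has degree
`≤ d a b`. Choose `a₀` such that `d b a₀ ≥ 0` implies `d a₀ b ≥ 0` for all `b` (a maximal element of a finite preorder), and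
`c = {a | d a a₀ ≥ 0, d a₀ a ≥ 0}`. For `a ∈ c`, `b ∉ c`: `d b a < 0` (otherwise `d b a₀ ≥ 0`, so `b ∈ c`), so `g_ba = 0`; for
`a, a' ∈ c`: `d a a' = 0`, so `g_aa'` is a constant. So `g` is block triangular, `g = (g_c, u; 0, g')` with `g_c` in `GL_c(ℤ)` (as the
block of `g⁻¹` is its inverse), `g'` in `PS ℤ w'`, `w'` the restriction of `w`. `f g = g'` is onto (`(1, 0; 0, g')`). The kernel of
`f` consists of the `(g_c, u; 0, 1)`, `f' = g_c` is onto, and its kernel, the `(1, u; 0, 1)`, is isomorphic to the group `H` of the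
matrices `u` with rows in `c` and columns outside of `c` whose entries satisfy the degree conditions (submodule of a product of
`Polynomial.degreeLT ℤ m`, `m` large, so finitely generated). -/
def St_PSE : Prop := ∀ (ι I : Type) [Fintype ι] [DecidableEq ι] [Nonempty ι] [Finite I] [Nonempty I]
  (w : I → ι → ℤ), ∃ c : Finset ι, c.Nonempty ∧
  ∃ f : PS ℤ w →* PS ℤ (fun (i : I) (b : {b // b ∉ c}) => w i b.1), Function.Surjective f ∧
  ∃ f' : f.ker →* GL {a // a ∈ c} ℤ, Function.Surjective f' ∧
  ∃ (H : Type) (_ : AddCommGroup H), Module.Finite ℤ H ∧ Nonempty (f'.ker ≃* Multiplicative H)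

/-- **PSF** (0.5 h). Stabilizers over `ℤ` are of type `FP_∞`.

Proof. Induction on the number of elements of `ι`; if it is empty, the group is trivial (`St_FSub` (3)). `St_PSE`, `St_FExt` twice,
`St_FGL` for `W = {a // a ∈ c} → ℤ` (`Matrix.GeneralLinearGroup.toLin` and `LinearMap.GeneralLinearGroup.generalLinearEquiv`,
or another isomorphism with `W ≃ₗ[ℤ] W`), `St_FSub` (1), (4). -/
def St_PSF : Prop := ∀ (ι I : Type) [Fintype ι] [DecidableEq ι] [Finite I] [Nonempty I]
  (w : I → ι → ℤ) (k : ℕ), FPG k (PS ℤ w)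

end Pool.Agent.SLZ
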