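import Pool.Agent.SLZ.StF5

/-!
# SLZ: module BA (helper45): the groups `G_n(a, b)` are of type `FP_k` for `n` large
-/

set_option autoImplicit false
set_option linter.unusedVariables false

noncomputable section

namespace Pool.Agent.SLZ

theorem thm_BA (h0 : St_BA0) (h1 : St_BA1) (h4 : St_BA4) (hS : St_FSub) : St_BA := by
  classical
  intro A _ s hK hC hG k
  induction k using Nat.strong_induction_on with
  | _ k ih =>
    obtain ⟨N, hN⟩ := hG k
    choose C hC' using ih
    let C' : ℕ → ℕ := fun m => if h : m < k then C m h else 0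
    let M : ℕ := (Finset.range (k + 1)).sup fun q => q + C' (k - q)
    refine ⟨max N (max (k + 1 + s) M), fun n hn => ?_⟩
    have hn1 : N ≤ n := le_trans (le_max_left _ _) hn
    have hn2 : k + 1 + s ≤ n := le_trans (le_trans (le_max_left _ _) (le_max_right _ _)) hn
    have hn3 : M ≤ n := le_trans (le_trans (le_max_right _ _) (le_max_right _ _)) hn
    have low : ∀ a b q : ℕ, 1 ≤ q → q ≤ k → FPab A (k - q) a (n - q) (b + q) := by
      intro a b q hq1 hq2
      have hlt : k - q < k := by omega
      refine hC' (k - q) hlt (n - q) ?_ a (b + q)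
      have hM : q + C' (k - q) ≤ M :=
        Finset.le_sup (f := fun q => q + C' (k - q)) (Finset.mem_range.2 (by omega))
      have hCe : C' (k - q) = C (k - q) hlt := dif_pos hlt
      rw [hCe] at hM
      show C (k - q) hlt ≤ n - q
      omega
    have step : ∀ b : ℕ, FPab A k 0 n b → ∀ a : ℕ, FPab A k a n b := by
      intro b hb a
      induction a with
      | zero => exact hb
      | succ a iha => exact h4 A s hK hC k a n b hn2 iha fun q hq1 hq2 => low a b q hq1 hq2
    have base : FPab A k 0 n 0 := by
      intro V _ _ S T hST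
      obtain ⟨f⟩ := (h0 A 0 n 0).2.2 V S T hST
      exact hS.1 _ _ k ⟨f.symm⟩ (hN n hn1)
    have right : ∀ b : ℕ, FPab A k 0 n b := by
      intro b V _ _ S T hST
      obtain ⟨S', T', hST', ⟨f⟩⟩ := h1 A 0 n b V S T hST
      exact hS.1 _ _ k ⟨f.symm⟩ (step 0 base b (V →ₗ[A] A) S' T' hST')
    exact fun a b => step b (right b) a

end Pool.Agent.SLZ
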