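import Pool.Agent.SLZ.StF5

/-!
# SLZ, BA0: the groups `G_n(a, b)` up to isomorphism (helper53)
-/

set_option autoImplicit false

noncomputable section

namespace Pool.Agent.SLZ

section

variable {A V V' : Type} [CommRing A] [AddCommGroup V] [Module A V] [AddCommGroup V']
  [Module A V'] {a n b : ℕ}

theorem BA0_span {S : Set V} {T : Set (V →ₗ[A] A)} {g : V ≃ₗ[A] V} (hg : g ∈ FixG S T) :
    (∀ v ∈ Submodule.span A S, g v = v) ∧ ∀ l ∈ Submodule.span A T, ∀ v, l (g v) = l v := by
  obtain ⟨h1, h2⟩ := hg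
  constructor
  · intro v hv
    induction hv using Submodule.span_induction with
    | mem x hx => exact h1 x hx
    | zero => simp
    | add x y _ _ hx hy => rw [map_add, hx, hy]
    | smul c x _ hx => rw [map_smul, hx]
  · intro l hl
    induction hl using Submodule.span_induction with
    | mem x hx => exact h2 x hx
    | zero => intro v; simp
    | add x y _ _ hx hy => intro v; rw [LinearMap.add_apply, LinearMap.add_apply, hx, hy]
    | smul c x _ hx => intro v; rw [LinearMap.smul_apply, LinearMap.smul_apply, hx]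

/-- `FixG` only depends on the spans -/
theorem BA0_le {S S' : Set V} {T T' : Set (V →ₗ[A] A)}
    (hS : Submodule.span A S' ≤ Submodule.span A S)
    (hT : Submodule.span A T' ≤ Submodule.span A T) : FixG S T ≤ FixG S' T' := by
  intro g hg
  obtain ⟨h1, h2⟩ := BA0_span hg
  exact ⟨fun v hv => h1 v (hS (Submodule.subset_span hv)),
    fun l hl => h2 l (hT (Submodule.subset_span hl))⟩

theorem BA0_eq {S S' : Set V} {T T' : Set (V →ₗ[A] A)}
    (hS : Submodule.span A S = Submodule.span A S')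
    (hT : Submodule.span A T = Submodule.span A T') : FixG S T = FixG S' T' :=
  le_antisymm (BA0_le hS.ge hT.ge) (BA0_le hS.le hT.le)

/-- transport of the group of the standard basis vectors and coordinates -/
theorem BA0_tr (e : Module.Basis (Fin a ⊕ (Fin n ⊕ Fin b)) A V)
    (e' : Module.Basis (Fin a ⊕ (Fin n ⊕ Fin b)) A V') (g : V ≃ₗ[A] V)
    (hg : g ∈ FixG (Set.range fun i => e (Sum.inl i))
      (Set.range fun i => e.coord (Sum.inr (Sum.inr i)))) :
    (((e.equiv e' (Equiv.refl _)).symm.trans g).trans (e.equiv e' (Equiv.refl _))) ∈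
      FixG (Set.range fun i => e' (Sum.inl i))
        (Set.range fun i => e'.coord (Sum.inr (Sum.inr i))) := by
  obtain ⟨h1, h2⟩ := hg
  have hc : ∀ (j : Fin a ⊕ (Fin n ⊕ Fin b)) (v : V),
      e'.coord j (e.equiv e' (Equiv.refl _) v) = e.coord j v := by
    intro j v
    have : (e'.coord j) ∘ₗ (e.equiv e' (Equiv.refl _)).toLinearMap = e.coord j := by
      apply e.ext
      intro i
      simp [Module.Basis.coord_apply, Finsupp.single_apply]
    exact LinearMap.congr_fun this v
  constructor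
  · rintro _ ⟨i, rfl⟩
    have h3 : (e.equiv e' (Equiv.refl _)).symm (e' (Sum.inl i)) = e (Sum.inl i) := by
      rw [LinearEquiv.symm_apply_eq, Module.Basis.equiv_apply]
      rfl
    have h4 : g (e (Sum.inl i)) = e (Sum.inl i) := h1 _ ⟨i, rfl⟩
    change (e.equiv e' (Equiv.refl _)) (g ((e.equiv e' (Equiv.refl _)).symm (e' (Sum.inl i)))) = _
    rw [h3, h4, Module.Basis.equiv_apply]
    rfl
  · rintro _ ⟨i, rfl⟩ v
    have h4 : ∀ w, e.coord (Sum.inr (Sum.inr i)) (g w) = e.coord (Sum.inr (Sum.inr i)) w :=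
      h2 _ ⟨i, rfl⟩
    change e'.coord (Sum.inr (Sum.inr i))
      ((e.equiv e' (Equiv.refl _)) (g ((e.equiv e' (Equiv.refl _)).symm v))) =
        e'.coord (Sum.inr (Sum.inr i)) v
    rw [hc, h4, ← hc, LinearEquiv.apply_symm_apply]

theorem BA0_iso (e : Module.Basis (Fin a ⊕ (Fin n ⊕ Fin b)) A V)
    (e' : Module.Basis (Fin a ⊕ (Fin n ⊕ Fin b)) A V') :
    Nonempty (FixG (Set.range fun i => e (Sum.inl i))
      (Set.range fun i => e.coord (Sum.inr (Sum.inr i))) ≃*
      FixG (Set.range fun i => e' (Sum.inl i))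
        (Set.range fun i => e'.coord (Sum.inr (Sum.inr i)))) := by
  have hsymm : (e.equiv e' (Equiv.refl _)).symm = e'.equiv e (Equiv.refl _) := by
    rw [Module.Basis.equiv_symm]
    rfl
  have hsymm' : (e'.equiv e (Equiv.refl _)).symm = e.equiv e' (Equiv.refl _) := by
    rw [Module.Basis.equiv_symm]
    rfl
  have hl : ∀ v, (e'.equiv e (Equiv.refl _)) ((e.equiv e' (Equiv.refl _)) v) = v := by
    intro v
    rw [← hsymm, LinearEquiv.symm_apply_apply]
  have hr : ∀ v, (e.equiv e' (Equiv.refl _)) ((e'.equiv e (Equiv.refl _)) v) = v := by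
    intro v
    rw [← hsymm', LinearEquiv.symm_apply_apply]
  refine ⟨{ toFun := fun g => ⟨_, BA0_tr e e' g.1 g.2⟩
            invFun := fun g => ⟨_, BA0_tr e' e g.1 g.2⟩
            left_inv := ?_
            right_inv := ?_
            map_mul' := ?_ }⟩
  · intro g
    apply Subtype.ext
    apply LinearEquiv.ext
    intro v
    change (e'.equiv e (Equiv.refl _)) ((e.equiv e' (Equiv.refl _))
      (g.1 ((e.equiv e' (Equiv.refl _)).symm ((e'.equiv e (Equiv.refl _)).symm v)))) = g.1 v
    rw [hsymm, hsymm', hl, hl]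
  · intro g
    apply Subtype.ext
    apply LinearEquiv.ext
    intro v
    change (e.equiv e' (Equiv.refl _)) ((e'.equiv e (Equiv.refl _))
      (g.1 ((e'.equiv e (Equiv.refl _)).symm ((e.equiv e' (Equiv.refl _)).symm v)))) = g.1 v
    rw [hsymm, hsymm', hr, hr]
  · intro g h
    apply Subtype.ext
    apply LinearEquiv.ext
    intro v
    change (e.equiv e' (Equiv.refl _)) (g.1 (h.1 ((e.equiv e' (Equiv.refl _)).symm v))) =
      (e.equiv e' (Equiv.refl _)) (g.1 ((e.equiv e' (Equiv.refl _)).symm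
        ((e.equiv e' (Equiv.refl _)) (h.1 ((e.equiv e' (Equiv.refl _)).symm v)))))
    rw [LinearEquiv.symm_apply_apply]

end

theorem thm_BA0 : St_BA0 := by
  intro A _ a n b
  refine ⟨?_, ?_, ?_⟩
  · intro V V' _ _ _ _ S T S' T' ⟨e, h1, h2⟩ ⟨e', h3, h4⟩
    rw [BA0_eq h1 h2, BA0_eq h3 h4]
    exact BA0_iso e e'
  · exact ⟨_, _, Pi.basisFun A _, rfl, rfl⟩
  · intro V _ _ S T ⟨e, h1, h2⟩
    have hS : Submodule.span A S = Submodule.span A (∅ : Set V) := by
      rw [h1]
      congr 1
      exact Set.range_eq_empty _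
    have hT : Submodule.span A T = Submodule.span A (∅ : Set (V →ₗ[A] A)) := by
      rw [h2]
      congr 1
      exact Set.range_eq_empty _
    rw [BA0_eq hS hT]
    have htop : FixG (∅ : Set V) (∅ : Set (V →ₗ[A] A)) = ⊤ := by
      rw [eq_top_iff]
      intro g _
      exact ⟨fun v hv => absurd hv (Set.notMem_empty v), fun l hl => absurd hl (Set.notMem_empty l)⟩
    rw [htop]
    let e2 : Module.Basis (Fin n) A V := e.reindex
      (((Equiv.emptySum (Fin 0) (Fin n ⊕ Fin 0)).trans (Equiv.sumEmpty (Fin n) (Fin 0))))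
    let f1 : (⊤ : Subgroup (V ≃ₗ[A] V)) ≃* (V ≃ₗ[A] V) := Subgroup.topEquiv
    let f2 : (V ≃ₗ[A] V) ≃* (LinearMap.GeneralLinearGroup A V) :=
      (LinearMap.GeneralLinearGroup.generalLinearEquiv A V).symm
    let f3 : (Module.End A V) ≃* Matrix (Fin n) (Fin n) A :=
      (LinearMap.toMatrixAlgEquiv e2).toMulEquiv
    exact ⟨f1.trans (f2.trans (Units.mapEquiv f3))⟩

end Pool.Agent.SLZ
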