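import Pool.Agent.SLZ.StF5

/-!
# SLZ: module BA1 (helper45): duality of the groups `G_n(a, b)`
-/

set_option autoImplicit false
set_option linter.unusedVariables false

noncomputable section

namespace Pool.Agent.SLZ

/-- exchange of the two outer blocks -/
def ba1Swap (a n b : ℕ) : (Fin a ⊕ (Fin n ⊕ Fin b)) ≃ (Fin b ⊕ (Fin n ⊕ Fin a)) where
  toFun x := match x with
    | .inl i => .inr (.inr i)
    | .inr (.inl j) => .inr (.inl j)
    | .inr (.inr k) => .inl k
  invFun x := match x with
    | .inl k => .inr (.inr k)
    | .inr (.inl j) => .inr (.inl j)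
    | .inr (.inr i) => .inl i
  left_inv x := by rcases x with i | j | k <;> rfl
  right_inv x := by rcases x with i | j | k <;> rfl

theorem thm_BA1 : St_BA1 := by
  classical
  intro A _ a n b V _ _ S T ⟨e, hS, hT⟩
  have : Module.Free A V := Module.Free.of_basis e
  have : Module.Finite A V := Module.Finite.of_basis e
  have sep : ∀ v w : V, (∀ l : V →ₗ[A] A, l v = l w) → v = w := by
    intro v w h
    apply e.repr.injective
    ext i
    exact h (e.coord i)
  refine ⟨T, (fun v => Module.Dual.eval A V v) '' S, ⟨e.dualBasis.reindex (ba1Swap a n b), ?_, ?_⟩, ?_⟩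
  · rw [hT]
    congr 1
    apply congrArg Set.range
    funext i
    rw [Module.Basis.reindex_apply]
    change _ = e.dualBasis (Sum.inr (Sum.inr i))
    rw [Module.Basis.coe_dualBasis]
  · have h1 : Submodule.span A ((fun v => Module.Dual.eval A V v) '' S) =
        (Submodule.span A S).map (Module.Dual.eval A V) := (Submodule.map_span _ _).symm
    rw [h1, hS, Submodule.map_span, ← Set.range_comp]
    congr 1
    apply congrArg Set.range
    funext i
    apply LinearMap.ext
    intro l
    change l (e (Sum.inl i)) = (e.dualBasis.reindex (ba1Swap a n b)).repr l (Sum.inr (Sum.inr i))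
    rw [Module.Basis.repr_reindex_apply]
    change _ = e.dualBasis.repr l (Sum.inl i)
    rw [Module.Basis.dualBasis_repr]
  · -- the isomorphism
    let φ : (V ≃ₗ[A] V) →* ((V →ₗ[A] A) ≃ₗ[A] (V →ₗ[A] A)) :=
      { toFun := fun g => (g⁻¹ : V ≃ₗ[A] V).dualMap
        map_one' := by
          apply LinearEquiv.ext
          intro l
          apply LinearMap.ext
          intro v
          rfl
        map_mul' := fun g h => by
          apply LinearEquiv.ext
          intro l
          apply LinearMap.ext
          intro v
          change l ((g * h)⁻¹ v) = l (h⁻¹ (g⁻¹ v))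
          rw [mul_inv_rev]
          rfl }
    have hφ : ∀ (g : V ≃ₗ[A] V) (l : V →ₗ[A] A) (v : V), φ g l v = l (g⁻¹ v) := fun g l v => rfl
    have hinv : ∀ (g : V ≃ₗ[A] V) (v : V), g⁻¹ (g v) = v := fun g v => by
      rw [← LinearEquiv.mul_apply, inv_mul_cancel]
      rfl
    have hinv' : ∀ (g : V ≃ₗ[A] V) (v : V), g (g⁻¹ v) = v := fun g v => by
      rw [← LinearEquiv.mul_apply, mul_inv_cancel]
      rfl
    have hmem : ∀ g : V ≃ₗ[A] V, g ∈ FixG S T ↔
        φ g ∈ FixG T ((fun v => Module.Dual.eval A V v) '' S) := by
      intro g
      constructor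
      · rintro ⟨h1, h2⟩
        refine ⟨fun l hl => ?_, ?_⟩
        · apply LinearMap.ext
          intro v
          rw [hφ]
          have := h2 l hl (g⁻¹ v)
          rw [hinv'] at this
          exact this.symm
        · rintro _ ⟨v, hv, rfl⟩ l
          change φ g l v = l v
          rw [hφ]
          have := hinv g v
          rw [h1 v hv] at this
          rw [this]
      · rintro ⟨h1, h2⟩
        refine ⟨fun v hv => ?_, fun l hl v => ?_⟩
        · have h3 : g⁻¹ v = v := by
            apply sep
            intro l
            exact h2 _ ⟨v, hv, rfl⟩ l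
          have := hinv' g v
          rw [h3] at this
          exact this
        · have h3 := LinearMap.congr_fun (h1 l hl) (g v)
          rw [hφ, hinv] at h3
          exact h3.symm
    let ψ : FixG S T →* FixG T ((fun v => Module.Dual.eval A V v) '' S) :=
      { toFun := fun g => ⟨φ g.1, (hmem g.1).1 g.2⟩
        map_one' := Subtype.ext (map_one φ)
        map_mul' := fun g h => Subtype.ext (map_mul φ g.1 h.1) }
    refine ⟨MulEquiv.ofBijective ψ ⟨?_, ?_⟩⟩
    · intro g h hgh
      have h1 : φ g.1 = φ h.1 := congrArg Subtype.val hgh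
      apply Subtype.ext
      have h2 : (g.1)⁻¹ = (h.1)⁻¹ := by
        apply LinearEquiv.ext
        intro v
        apply sep
        intro l
        have h3 := LinearMap.congr_fun (LinearEquiv.congr_fun h1 l) v
        exact h3
      exact inv_injective h2
    · rintro ⟨θ, hθ⟩
      let h : V ≃ₗ[A] V := (Module.evalEquiv A V).trans
        ((LinearEquiv.dualMap θ).trans (Module.evalEquiv A V).symm)
      have hh : ∀ (l : V →ₗ[A] A) (v : V), l (h v) = θ l v := by
        intro l v
        have h1 : Module.evalEquiv A V (h v) = LinearEquiv.dualMap θ (Module.evalEquiv A V v) := by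
          change Module.evalEquiv A V ((Module.evalEquiv A V).symm _) = _
          rw [LinearEquiv.apply_symm_apply]
          rfl
        have h2 := LinearMap.congr_fun h1 l
        exact h2
      have e1 : φ h⁻¹ = θ := by
        apply LinearEquiv.ext
        intro l
        apply LinearMap.ext
        intro v
        rw [hφ, inv_inv]
        exact hh l v
      refine ⟨⟨h⁻¹, (hmem _).2 ?_⟩, ?_⟩
      · rw [e1]
        exact hθ
      · exact Subtype.ext e1

end Pool.Agent.SLZ
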