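import Mathlib
import Pool.Agent.SLZ.StF5

/-!
# SLZ: BA2, stabilizers in the affine complex
-/

set_option autoImplicit false
set_option linter.unusedVariables false

noncomputable section

namespace Pool.Agent.SLZ

section split

variable {A V : Type} [CommRing A] [AddCommGroup V] [Module A V] (v : V) (l0 : V →ₗ[A] A)

/-- the restriction of an automorphism preserving `l0` to the kernel of `l0` -/
def BA2_res (g : V ≃ₗ[A] V) (hg : ∀ x, l0 (g x) = l0 x) :
    LinearMap.ker l0 ≃ₗ[A] LinearMap.ker l0 where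
  toFun y := ⟨g y, by rw [LinearMap.mem_ker, hg]; exact y.2⟩
  map_add' x y := Subtype.ext (map_add g _ _)
  map_smul' c x := Subtype.ext (map_smul g _ _)
  invFun y := ⟨g.symm y, by
    have h := hg (g.symm y)
    rw [LinearEquiv.apply_symm_apply] at h
    rw [LinearMap.mem_ker, ← h]
    exact y.2⟩
  left_inv y := Subtype.ext (g.symm_apply_apply _)
  right_inv y := Subtype.ext (g.apply_symm_apply _)

/-- the projection to the kernel -/
def BA2_pr (hv : l0 v = 1) : V →ₗ[A] LinearMap.ker l0 :=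
  LinearMap.codRestrict _ (LinearMap.id - l0.smulRight v) (fun x => by
    rw [LinearMap.mem_ker]
    simp [hv])

theorem BA2_pr_apply (hv : l0 v = 1) (x : V) : ((BA2_pr v l0 hv x : LinearMap.ker l0) : V) =
    x - l0 x • v := rfl

theorem BA2_pr_ker (hv : l0 v = 1) (y : LinearMap.ker l0) (c : A) :
    BA2_pr v l0 hv (c • v + (y : V)) = y := by
  apply Subtype.ext
  have hy : l0 (y : V) = 0 := y.2
  rw [BA2_pr_apply, map_add, map_smul, hv, hy]
  simp

/-- the extension of an automorphism of the kernel which fixes `v` -/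
def BA2_ext (hv : l0 v = 1) (h : LinearMap.ker l0 ≃ₗ[A] LinearMap.ker l0) : V ≃ₗ[A] V where
  toFun x := l0 x • v + (h (BA2_pr v l0 hv x) : V)
  map_add' x y := by
    rw [map_add, map_add, map_add, add_smul, Submodule.coe_add]
    abel
  map_smul' c x := by
    rw [map_smul, map_smul, map_smul, smul_add, Submodule.coe_smul, smul_eq_mul, mul_smul]
    rfl
  invFun x := l0 x • v + (h.symm (BA2_pr v l0 hv x) : V)
  left_inv x := by
    have h1 : l0 (l0 x • v + (h (BA2_pr v l0 hv x) : V)) = l0 x := by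
      have h2 : l0 (h (BA2_pr v l0 hv x) : V) = 0 := (h (BA2_pr v l0 hv x)).2
      rw [map_add, map_smul, hv, h2]
      simp
    simp only [h1, BA2_pr_ker, LinearEquiv.symm_apply_apply, BA2_pr_apply]
    abel
  right_inv x := by
    have h1 : l0 (l0 x • v + (h.symm (BA2_pr v l0 hv x) : V)) = l0 x := by
      have h2 : l0 (h.symm (BA2_pr v l0 hv x) : V) = 0 := (h.symm (BA2_pr v l0 hv x)).2
      rw [map_add, map_smul, hv, h2]
      simp
    simp only [h1, BA2_pr_ker, LinearEquiv.apply_symm_apply, BA2_pr_apply]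
    abel

theorem BA2_ext_apply (hv : l0 v = 1) (h : LinearMap.ker l0 ≃ₗ[A] LinearMap.ker l0) (x : V) :
    BA2_ext v l0 hv h x = l0 x • v + (h (BA2_pr v l0 hv x) : V) := rfl

theorem BA2_l0_ext (hv : l0 v = 1) (h : LinearMap.ker l0 ≃ₗ[A] LinearMap.ker l0) (x : V) :
    l0 (BA2_ext v l0 hv h x) = l0 x := by
  have h2 : l0 (h (BA2_pr v l0 hv x) : V) = 0 := (h (BA2_pr v l0 hv x)).2
  rw [BA2_ext_apply, map_add, map_smul, hv, h2]
  simp

theorem BA2_ext_v (hv : l0 v = 1) (h : LinearMap.ker l0 ≃ₗ[A] LinearMap.ker l0) :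
    BA2_ext v l0 hv h v = v := by
  have h1 : BA2_pr v l0 hv v = 0 := by
    apply Subtype.ext
    rw [BA2_pr_apply, hv]
    simp
  rw [BA2_ext_apply, h1, hv]
  simp

theorem BA2_ext_ker (hv : l0 v = 1) (h : LinearMap.ker l0 ≃ₗ[A] LinearMap.ker l0)
    (y : LinearMap.ker l0) : BA2_ext v l0 hv h (y : V) = (h y : V) := by
  have hy : l0 (y : V) = 0 := y.2
  have h1 : BA2_pr v l0 hv (y : V) = y := by
    apply Subtype.ext
    rw [BA2_pr_apply, hy]
    simp
  rw [BA2_ext_apply, h1, hy]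
  simp

theorem BA2_split (hv : l0 v = 1) (S : Set V) (SK : Set (LinearMap.ker l0))
    (T : Set (V →ₗ[A] A)) (hS : ∀ x, x ∈ S ↔ x = v ∨ ∃ y ∈ SK, (y : V) = x) (hT : l0 ∈ T) :
    Nonempty (FixG S T ≃* FixG SK ((fun t => t ∘ₗ (LinearMap.ker l0).subtype) '' T)) := by
  have hvS : v ∈ S := (hS v).mpr (Or.inl rfl)
  refine ⟨{ toFun := fun g => ⟨BA2_res l0 g.1 (g.2.2 l0 hT), ?_, ?_⟩
            invFun := fun h => ⟨BA2_ext v l0 hv h.1, ?_, ?_⟩
            left_inv := ?_
            right_inv := ?_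
            map_mul' := ?_ }⟩
  · intro y hy
    exact Subtype.ext (g.2.1 _ ((hS _).mpr (Or.inr ⟨y, hy, rfl⟩)))
  · rintro _ ⟨t, ht, rfl⟩ y
    exact g.2.2 t ht _
  · intro x hx
    rcases (hS x).mp hx with rfl | ⟨y, hy, rfl⟩
    · exact BA2_ext_v _ l0 hv h.1
    · rw [BA2_ext_ker]
      exact congrArg Subtype.val (h.2.1 y hy)
  · intro t ht x
    have h1 : t ((h.1 (BA2_pr v l0 hv x) : LinearMap.ker l0) : V) =
        t ((BA2_pr v l0 hv x : LinearMap.ker l0) : V) := h.2.2 _ ⟨t, ht, rfl⟩ _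
    rw [BA2_ext_apply, map_add, h1, ← map_add, BA2_pr_apply]
    congr 1
    abel
  · intro g
    apply Subtype.ext
    apply LinearEquiv.ext
    intro x
    change BA2_ext v l0 hv (BA2_res l0 g.1 (g.2.2 l0 hT)) x = g.1 x
    rw [BA2_ext_apply]
    change l0 x • v + g.1 (BA2_pr v l0 hv x : V) = g.1 x
    rw [BA2_pr_apply, map_sub, map_smul, g.2.1 v hvS]
    abel
  · intro h
    apply Subtype.ext
    apply LinearEquiv.ext
    intro y
    apply Subtype.ext
    change BA2_ext v l0 hv h.1 (y : V) = _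
    rw [BA2_ext_ker]
  · intro g g'
    apply Subtype.ext
    apply LinearEquiv.ext
    intro y
    apply Subtype.ext
    rfl

end split

section main

variable {A V : Type} [CommRing A] [AddCommGroup V] [Module A V] {a n b : ℕ}
  (e : Module.Basis (Fin (a + 1) ⊕ (Fin n ⊕ Fin b)) A V)

theorem BA2_lx (l : AX e) (x : V) : l.1 x = e.repr x (Sum.inl (Fin.last a)) +
    (∑ j, e.repr x (Sum.inr (Sum.inl j)) * axx e l j) +
    ∑ k, e.repr x (Sum.inr (Sum.inr k)) * l.1 (e (Sum.inr (Sum.inr k))) := by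
  conv_lhs => rw [← e.sum_repr x]
  rw [map_sum, Fintype.sum_sum_type, Fintype.sum_sum_type, Fin.sum_univ_castSucc]
  simp only [map_smul, smul_eq_mul, l.2.1, l.2.2, mul_zero, Finset.sum_const_zero, zero_add,
    mul_one, axx]
  ring

/-- the stabilizer as a group of automorphisms -/
theorem BA2_stab (L : List (AX e)) :
    Nonempty (fixingSubgroup (AG e) {x : AX e | x ∈ L} ≃*
      FixG (Set.range fun i => e (Sum.inl i))
        ((Set.range fun i => e.coord (Sum.inr (Sum.inr i))) ∪ {t | ∃ l ∈ L, t = l.1})) := by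
  have key : ∀ g : AG e, g ∈ fixingSubgroup (AG e) {x : AX e | x ∈ L} ↔
      ∀ l ∈ L, ∀ x, l.1 ((g : V ≃ₗ[A] V) x) = l.1 x := by
    intro g
    rw [mem_fixingSubgroup_iff]
    constructor
    · intro h l hl x
      have h1 : l.1 (((g⁻¹ : AG e) : V ≃ₗ[A] V) ((g : V ≃ₗ[A] V) x)) =
          l.1 ((g : V ≃ₗ[A] V) x) := by
        have h2 := congrArg (fun z : AX e => z.1 ((g : V ≃ₗ[A] V) x)) (h l hl)
        exact h2
      have h3 : ((g⁻¹ : AG e) : V ≃ₗ[A] V) ((g : V ≃ₗ[A] V) x) = x := by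
        rw [Subgroup.coe_inv, ← LinearEquiv.mul_apply, inv_mul_cancel]
        rfl
      rw [h3] at h1
      exact h1.symm
    · intro h l hl
      apply Subtype.ext
      apply LinearMap.ext
      intro x
      change l.1 (((g⁻¹ : AG e) : V ≃ₗ[A] V) x) = l.1 x
      have h1 := h l hl (((g⁻¹ : AG e) : V ≃ₗ[A] V) x)
      have h3 : (g : V ≃ₗ[A] V) (((g⁻¹ : AG e) : V ≃ₗ[A] V) x) = x := by
        rw [Subgroup.coe_inv, ← LinearEquiv.mul_apply, mul_inv_cancel]
        rfl
      rw [h3] at h1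
      exact h1.symm
  refine ⟨{ toFun := fun g => ⟨g.1.1, ?_, ?_⟩
            invFun := fun g => ⟨⟨g.1, ?_, ?_⟩, ?_⟩
            left_inv := fun g => rfl
            right_inv := fun g => rfl
            map_mul' := fun g g' => rfl }⟩
  · exact g.1.2.1
  · rintro t (ht | ⟨l, hl, rfl⟩)
    · exact g.1.2.2 t ht
    · exact (key g.1).mp g.2 l hl
  · exact g.2.1
  · exact fun t ht => g.2.2 t (Or.inl ht)
  · exact (key _).mpr fun l hl => g.2.2 l.1 (Or.inr ⟨l, hl, rfl⟩)

/-- the map to the differences of the functionals -/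
def BA2_f {q : ℕ} (l0 : AX e) (lj : Fin q → AX e) : (Fin n → A) →ₗ[A] (Fin q → A) :=
  LinearMap.pi fun j => ∑ i, (axx e (lj j) i - axx e l0 i) • LinearMap.proj i

theorem BA2_f_apply {q : ℕ} (l0 : AX e) (lj : Fin q → AX e) (m : Fin n → A) (j : Fin q) :
    BA2_f e l0 lj m j = ∑ i, (axx e (lj j) i - axx e l0 i) * m i := by
  simp [BA2_f]

/-- the middle coordinates of a vector -/
def BA2_mid : V →ₗ[A] (Fin n → A) := LinearMap.pi fun j => e.coord (Sum.inr (Sum.inl j))

theorem BA2_mid_apply (x : V) (j : Fin n) :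
    BA2_mid e x j = e.repr x (Sum.inr (Sum.inl j)) := rfl

theorem BA2_diff {q : ℕ} (l0 : AX e) (lj : Fin q → AX e) (x : V) (j : Fin q) :
    (lj j).1 x - l0.1 x = BA2_f e l0 lj (BA2_mid e x) j +
      ∑ k, e.repr x (Sum.inr (Sum.inr k)) *
        ((lj j).1 (e (Sum.inr (Sum.inr k))) - l0.1 (e (Sum.inr (Sum.inr k)))) := by
  rw [BA2_lx, BA2_lx e l0, BA2_f_apply]
  have h1 : ∑ i, (axx e (lj j) i - axx e l0 i) * BA2_mid e x i =
      (∑ i, e.repr x (Sum.inr (Sum.inl i)) * axx e (lj j) i) -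
        ∑ i, e.repr x (Sum.inr (Sum.inl i)) * axx e l0 i := by
    rw [← Finset.sum_sub_distrib]
    exact Finset.sum_congr rfl fun i _ => by rw [BA2_mid_apply]; ring
  have h2 : ∑ k, e.repr x (Sum.inr (Sum.inr k)) *
        ((lj j).1 (e (Sum.inr (Sum.inr k))) - l0.1 (e (Sum.inr (Sum.inr k)))) =
      (∑ k, e.repr x (Sum.inr (Sum.inr k)) * (lj j).1 (e (Sum.inr (Sum.inr k)))) -
        ∑ k, e.repr x (Sum.inr (Sum.inr k)) * l0.1 (e (Sum.inr (Sum.inr k))) := by
    rw [← Finset.sum_sub_distrib]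
    exact Finset.sum_congr rfl fun i _ => by ring
  rw [h1, h2]
  ring

theorem BA2_std {s : ℕ} (hK : KerFree A s) (L : List (AX e)) (q : ℕ)
    (hL : L ∈ (AffC (axx e)).s) (hqs : q + s ≤ n) (l0 : AX e) (h0 : l0 ∈ L)
    (lj : Fin q → AX e) (hj : ∀ j, lj j ∈ L) (hj0 : ∀ j, lj j ≠ l0)
    (hinj : Function.Injective lj) (hcov : ∀ l ∈ L, l = l0 ∨ ∃ j, l = lj j) :
    StdF a (n - q) (b + q)
      (Set.range fun i : Fin a => (⟨e (Sum.inl i.castSucc), l0.2.2 i⟩ : LinearMap.ker l0.1))
      ((fun t => t ∘ₗ (LinearMap.ker l0.1).subtype) ''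
        ((Set.range fun i => e.coord (Sum.inr (Sum.inr i))) ∪ {t | ∃ l ∈ L, t = l.1})) := by
  classical
  choose d z hz1 hz2 using fun j => hL (lj j) (hj j)
  have hfz : ∀ i j, BA2_f e l0 lj (z i) j = if i = j then 1 else 0 := by
    intro i j
    rw [BA2_f_apply]
    have h1 : ∑ k, (axx e (lj j) k - axx e l0 k) * z i k =
        (∑ k, z i k * axx e (lj j) k) - ∑ k, z i k * axx e l0 k := by
      rw [← Finset.sum_sub_distrib]
      exact Finset.sum_congr rfl fun k _ => by ring
    have h2 : d i + ∑ k, z i k * axx e l0 k = 0 := hz2 i l0 h0 (hj0 i).symm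
    rw [h1]
    by_cases hij : i = j
    · subst hij
      rw [if_pos rfl]
      linear_combination hz1 i - h2
    · rw [if_neg hij]
      have h3 : d i + ∑ k, z i k * axx e (lj j) k = 0 :=
        hz2 i (lj j) (hj j) fun h => hij (hinj h).symm
      linear_combination h3 - h2
  set f := BA2_f e l0 lj with hf
  let P : (Fin q → A) →ₗ[A] (Fin n → A) := Fintype.linearCombination A z
  have hP : ∀ δ, f (P δ) = δ := by
    intro δ
    funext j
    have h1 : P δ = ∑ i, δ i • z i := Fintype.linearCombination_apply A z δ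
    rw [h1, map_sum, Finset.sum_apply]
    simp only [map_smul, Pi.smul_apply, hfz, smul_eq_mul, mul_ite, mul_one, mul_zero]
    rw [Finset.sum_ite_eq' Finset.univ j, if_pos (Finset.mem_univ j)]
  have hsurj : Function.Surjective f := fun δ => ⟨P δ, hP δ⟩
  obtain ⟨κ⟩ := hK n q f hsurj hqs
  let π : (Fin n → A) →ₗ[A] LinearMap.ker f :=
    LinearMap.codRestrict _ (LinearMap.id - P ∘ₗ f) (fun m => by
      rw [LinearMap.mem_ker, LinearMap.sub_apply, map_sub, LinearMap.comp_apply, hP]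
      simp)
  have hπ : ∀ m, ((π m : LinearMap.ker f) : Fin n → A) = m - P (f m) := fun m => rfl
  let K := LinearMap.ker l0.1
  let Φ : K →ₗ[A] (Fin a ⊕ (Fin (n - q) ⊕ Fin (b + q)) → A) :=
    LinearMap.pi (Sum.elim (fun i => e.coord (Sum.inl i.castSucc) ∘ₗ K.subtype)
      (Sum.elim (fun r => κ.coord r ∘ₗ π ∘ₗ BA2_mid e ∘ₗ K.subtype)
        (fun t => Fin.addCases (fun k => e.coord (Sum.inr (Sum.inr k)) ∘ₗ K.subtype)
          (fun j => (lj j).1 ∘ₗ K.subtype) t)))
  have Φ1 : ∀ x i, Φ x (Sum.inl i) = e.repr (x : V) (Sum.inl i.castSucc) := fun x i => rfl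
  have Φ2 : ∀ x r, Φ x (Sum.inr (Sum.inl r)) = κ.repr (π (BA2_mid e (x : V))) r := fun x r => rfl
  have Φ3 : ∀ x k, Φ x (Sum.inr (Sum.inr (Fin.castAdd q k))) =
      e.repr (x : V) (Sum.inr (Sum.inr k)) := by
    intro x k
    simp [Φ]
  have Φ4 : ∀ x j, Φ x (Sum.inr (Sum.inr (Fin.natAdd b j))) = (lj j).1 (x : V) := by
    intro x j
    simp [Φ]
  have hΦi : Function.Injective Φ := by
    rw [injective_iff_map_eq_zero]
    intro x hx
    have hx0 : l0.1 (x : V) = 0 := x.2
    have e1 : ∀ i : Fin a, e.repr (x : V) (Sum.inl i.castSucc) = 0 := fun i => by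
      rw [← Φ1, hx]; rfl
    have e3 : ∀ k, e.repr (x : V) (Sum.inr (Sum.inr k)) = 0 := fun k => by
      rw [← Φ3, hx]; rfl
    have e4 : ∀ j, (lj j).1 (x : V) = 0 := fun j => by
      rw [← Φ4, hx]; rfl
    have e5 : f (BA2_mid e (x : V)) = 0 := by
      funext j
      have h1 := BA2_diff e l0 lj (x : V) j
      rw [e4, hx0] at h1
      simp only [e3, zero_mul, Finset.sum_const_zero, add_zero, sub_zero] at h1
      exact h1.symm
    have e6 : π (BA2_mid e (x : V)) = 0 := by
      apply κ.repr.injective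
      ext r
      rw [← Φ2, hx, map_zero]
      rfl
    have e7 : BA2_mid e (x : V) = 0 := by
      have h1 := hπ (BA2_mid e (x : V))
      rw [e6, e5, map_zero, sub_zero] at h1
      exact h1.symm
    have e8 : ∀ j, e.repr (x : V) (Sum.inr (Sum.inl j)) = 0 := fun j => congrFun e7 j
    have e9 : e.repr (x : V) (Sum.inl (Fin.last a)) = 0 := by
      have h1 := BA2_lx e l0 (x : V)
      rw [hx0] at h1
      simp only [e3, e8, zero_mul, Finset.sum_const_zero, add_zero] at h1
      exact h1.symm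
    apply Subtype.ext
    apply e.repr.injective
    ext i
    rw [Submodule.coe_zero, map_zero]
    rcases i with i | i | i
    · refine Fin.lastCases ?_ (fun i => ?_) i
      · exact e9
      · exact e1 i
    · exact e8 i
    · exact e3 i
  have hΦs : Function.Surjective Φ := by
    intro y
    let γ : Fin b → A := fun k => y (Sum.inr (Sum.inr (Fin.castAdd q k)))
    let δ : Fin q → A := fun j => y (Sum.inr (Sum.inr (Fin.natAdd b j))) -
      ∑ k, γ k * ((lj j).1 (e (Sum.inr (Sum.inr k))) - l0.1 (e (Sum.inr (Sum.inr k))))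
    let ν : LinearMap.ker f := κ.equivFun.symm (fun r => y (Sum.inr (Sum.inl r)))
    let μ : Fin n → A := (ν : Fin n → A) + P δ
    let β : A := -((∑ j, μ j * axx e l0 j) + ∑ k, γ k * l0.1 (e (Sum.inr (Sum.inr k))))
    let c : Fin (a + 1) ⊕ (Fin n ⊕ Fin b) → A :=
      Sum.elim (Fin.snoc (fun i => y (Sum.inl i)) β) (Sum.elim μ γ)
    let x : V := e.equivFun.symm c
    have hx : ∀ i, e.repr x i = c i := by
      intro i
      rw [← e.equivFun_apply, LinearEquiv.apply_symm_apply]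
    have hμ : BA2_mid e x = μ := by
      funext j
      rw [BA2_mid_apply, hx]
      rfl
    have hfμ : f μ = δ := by
      have h1 : f (ν : Fin n → A) = 0 := ν.2
      rw [map_add, h1, hP, zero_add]
    have hx0 : l0.1 x = 0 := by
      rw [BA2_lx]
      simp only [hx]
      change Fin.snoc (α := fun _ => A) (fun i => y (Sum.inl i)) β (Fin.last a) +
        (∑ j, μ j * axx e l0 j) + ∑ k, γ k * l0.1 (e (Sum.inr (Sum.inr k))) = 0
      rw [Fin.snoc_last]
      simp only [β]
      ring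
    refine ⟨⟨x, hx0⟩, ?_⟩
    funext i
    rcases i with i | i | i
    · rw [Φ1, hx]
      change Fin.snoc (α := fun _ => A) (fun i => y (Sum.inl i)) β i.castSucc = _
      rw [Fin.snoc_castSucc]
    · rw [Φ2]
      have h1 : π (BA2_mid e x) = ν := by
        apply Subtype.ext
        rw [hπ, hμ, hfμ]
        simp only [μ]
        abel
      change κ.repr (π (BA2_mid e x)) i = _
      rw [h1, ← κ.equivFun_apply, LinearEquiv.apply_symm_apply]
    · refine Fin.addCases (fun k => ?_) (fun j => ?_) i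
      · rw [Φ3, hx]
        rfl
      · rw [Φ4]
        have h1 := BA2_diff e l0 lj x j
        rw [hx0, hμ, ← hf, hfμ] at h1
        simp only [hx] at h1
        change (lj j).1 x - 0 = δ j + ∑ k, γ k *
          ((lj j).1 (e (Sum.inr (Sum.inr k))) - l0.1 (e (Sum.inr (Sum.inr k)))) at h1
        simp only [δ] at h1
        change (lj j).1 x = _
        linear_combination h1
  let E : K ≃ₗ[A] (Fin a ⊕ (Fin (n - q) ⊕ Fin (b + q)) → A) :=
    LinearEquiv.ofBijective Φ ⟨hΦi, hΦs⟩
  let e' : Module.Basis (Fin a ⊕ (Fin (n - q) ⊕ Fin (b + q))) A K := Module.Basis.ofEquivFun E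
  have he'c : ∀ i x, e'.coord i x = Φ x i := by
    intro i x
    rw [Module.Basis.coord_apply, Module.Basis.ofEquivFun_repr_apply]
    rfl
  have he's : ∀ i : Fin a, e' (Sum.inl i) = ⟨e (Sum.inl i.castSucc), l0.2.2 i⟩ := by
    intro i
    apply hΦi
    funext t
    rw [← he'c, ← he'c, Module.Basis.coord_apply, Module.Basis.repr_self, he'c]
    rcases t with t | t | t
    · rw [Φ1]
      change _ = e.repr (e (Sum.inl i.castSucc)) _
      rw [Module.Basis.repr_self, Finsupp.single_apply, Finsupp.single_apply]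
      simp
    · rw [Φ2]
      have h1 : BA2_mid e (e (Sum.inl i.castSucc)) = 0 := by
        funext j
        rw [BA2_mid_apply, Module.Basis.repr_self]
        simp
      change _ = κ.repr (π (BA2_mid e (e (Sum.inl i.castSucc)))) t
      rw [h1, map_zero, map_zero]
      simp
    · refine Fin.addCases (fun k => ?_) (fun j => ?_) t
      · rw [Φ3]
        change _ = e.repr (e (Sum.inl i.castSucc)) _
        rw [Module.Basis.repr_self]
        simp
      · rw [Φ4]
        change _ = (lj j).1 (e (Sum.inl i.castSucc))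
        rw [(lj j).2.2 i]
        simp
  have hc3 : ∀ k, e'.coord (Sum.inr (Sum.inr (Fin.castAdd q k))) =
      e.coord (Sum.inr (Sum.inr k)) ∘ₗ (LinearMap.ker l0.1).subtype := by
    intro k
    apply LinearMap.ext
    intro x
    rw [he'c, Φ3]
    rfl
  have hc4 : ∀ j, e'.coord (Sum.inr (Sum.inr (Fin.natAdd b j))) =
      (lj j).1 ∘ₗ (LinearMap.ker l0.1).subtype := by
    intro j
    apply LinearMap.ext
    intro x
    rw [he'c, Φ4]
    rfl
  refine ⟨e', ?_, le_antisymm (Submodule.span_le.mpr ?_) (Submodule.span_le.mpr ?_)⟩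
  · congr 1
    congr 1
    funext i
    exact (he's i).symm
  · rintro _ ⟨t, ht | ⟨l, hl, rfl⟩, rfl⟩
    · obtain ⟨k, rfl⟩ := ht
      exact Submodule.subset_span ⟨Fin.castAdd q k, hc3 k⟩
    · rcases hcov l hl with rfl | ⟨j, rfl⟩
      · have h1 : l.1 ∘ₗ (LinearMap.ker l.1).subtype = 0 := by
          apply LinearMap.ext
          intro x
          exact x.2
        change l.1 ∘ₗ (LinearMap.ker l.1).subtype ∈ _
        rw [h1]
        exact Submodule.zero_mem _
      · exact Submodule.subset_span ⟨Fin.natAdd b j, hc4 j⟩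
  · rintro _ ⟨t, rfl⟩
    refine Fin.addCases (fun k => ?_) (fun j => ?_) t
    · change e'.coord (Sum.inr (Sum.inr (Fin.castAdd q k))) ∈ _
      rw [hc3]
      exact Submodule.subset_span ⟨_, Or.inl ⟨k, rfl⟩, rfl⟩
    · change e'.coord (Sum.inr (Sum.inr (Fin.natAdd b j))) ∈ _
      rw [hc4]
      exact Submodule.subset_span ⟨_, Or.inr ⟨lj j, hj j, rfl⟩, rfl⟩

end main

theorem thm_BA2 : St_BA2 := by
  classical
  intro A _ s hK V _ _ a n b e L q hL hqs hF
  obtain ⟨F, hFc, hFL⟩ := hF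
  have hne : F.Nonempty := by
    rw [← Finset.card_pos, hFc]
    omega
  obtain ⟨l0, hl0⟩ := hne
  have hcard : (F.erase l0).card = q := by
    rw [Finset.card_erase_of_mem hl0, hFc]
    omega
  let E := (Finset.equivFinOfCardEq hcard).symm
  let lj : Fin q → AX e := fun j => (E j).1
  have hjF : ∀ j, lj j ∈ F.erase l0 := fun j => (E j).2
  have h0 : l0 ∈ L := (hFL l0).mp hl0
  have hj : ∀ j, lj j ∈ L := fun j => (hFL _).mp (Finset.mem_of_mem_erase (hjF j))
  have hj0 : ∀ j, lj j ≠ l0 := fun j => Finset.ne_of_mem_erase (hjF j)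
  have hinj : Function.Injective lj := fun i j h => E.injective (Subtype.ext h)
  have hcov : ∀ l ∈ L, l = l0 ∨ ∃ j, l = lj j := by
    intro l hl
    by_cases h : l = l0
    · exact Or.inl h
    · refine Or.inr ⟨E.symm ⟨l, Finset.mem_erase.mpr ⟨h, (hFL l).mpr hl⟩⟩, ?_⟩
      change l = (E (E.symm _)).1
      rw [Equiv.apply_symm_apply]
  have hstd := BA2_std e hK L q hL hqs l0 h0 lj hj hj0 hinj hcov
  obtain ⟨i1⟩ := BA2_stab e L
  obtain ⟨i2⟩ := BA2_split (e (Sum.inl (Fin.last a))) l0.1 l0.2.1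
    (Set.range fun i => e (Sum.inl i))
    (Set.range fun i : Fin a => (⟨e (Sum.inl i.castSucc), l0.2.2 i⟩ : LinearMap.ker l0.1))
    ((Set.range fun i => e.coord (Sum.inr (Sum.inr i))) ∪ {t | ∃ l ∈ L, t = l.1})
    (by
      intro x
      constructor
      · rintro ⟨i, rfl⟩
        refine Fin.lastCases ?_ (fun i => ?_) i
        · exact Or.inl rfl
        · exact Or.inr ⟨_, ⟨i, rfl⟩, rfl⟩
      · rintro (rfl | ⟨y, ⟨i, rfl⟩, rfl⟩)
        · exact ⟨Fin.last a, rfl⟩
        · exact ⟨i.castSucc, rfl⟩)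
    (Or.inr ⟨l0, h0, rfl⟩)
  exact ⟨LinearMap.ker l0.1, inferInstance, inferInstance, _, _, hstd, ⟨i1.trans i2⟩⟩

end Pool.Agent.SLZ
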