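import Pool.Agent.SLZ.StF5

/-!
# SLZ/BA3 (helper95): orbits in the affine complex
-/

set_option autoImplicit false
set_option linter.unusedVariables false
set_option linter.unusedSectionVars false

noncomputable section

namespace Pool.Agent.SLZ

section

variable {A V : Type} [CommRing A] [AddCommGroup V] [Module A V] {a n b : ℕ}
  (e : Module.Basis (Fin (a + 1) ⊕ (Fin n ⊕ Fin b)) A V)

/-- the middle part -/
def BA3_mid : (Fin n → A) →ₗ[A] V := Fintype.linearCombination A (fun j => e (Sum.inr (Sum.inl j)))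

theorem BA3_mid_apply (t : Fin n → A) : BA3_mid e t = ∑ j, t j • e (Sum.inr (Sum.inl j)) := rfl

theorem BA3_fn_mid (l : V →ₗ[A] A) (t : Fin n → A) : l (BA3_mid e t) = ∑ j, t j * l (e (Sum.inr (Sum.inl j))) := by
  rw [BA3_mid_apply, map_sum]
  exact Finset.sum_congr rfl (fun j _ => by rw [map_smul, smul_eq_mul])

theorem BA3_basis {s q : ℕ} (hK : KerFree A s) (hq : q + s ≤ n) (lam : Fin (q + 1) → AX e)
    (hdual : ∀ m, ∃ (d : A) (z : Fin n → A), d + ∑ j, z j * axx e (lam m) j = 1 ∧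
      ∀ m', m' ≠ m → d + ∑ j, z j * axx e (lam m') j = 0) :
    ∃ f : Module.Basis (Fin (a + 1) ⊕ ((Fin q ⊕ Fin (n - q)) ⊕ Fin b)) A V,
      (∀ i, f (Sum.inl i) = e (Sum.inl i)) ∧
      (∀ i, f.coord (Sum.inr (Sum.inr i)) = e.coord (Sum.inr (Sum.inr i))) ∧
      f.coord (Sum.inl (Fin.last a)) = (lam 0).1 ∧
      ∀ r : Fin q, f.coord (Sum.inr (Sum.inl (Sum.inl r))) = (lam r.succ).1 - (lam 0).1 := by
  classical
  set v : V := e (Sum.inl (Fin.last a)) with hv
  set l0 : V →ₗ[A] A := (lam 0).1 with hl0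
  set mu : Fin q → (V →ₗ[A] A) := fun r => (lam r.succ).1 - l0 with hmu
  set φ : (Fin n → A) →ₗ[A] (Fin q → A) := LinearMap.pi (fun r => (mu r) ∘ₗ (BA3_mid e)) with hφ
  -- values on the first basis vectors
  have hlv : ∀ m, (lam m).1 v = 1 := fun m => (lam m).2.1
  have hlu : ∀ m (i : Fin a), (lam m).1 (e (Sum.inl i.castSucc)) = 0 := fun m i => (lam m).2.2 i
  have hmuv : ∀ r, mu r v = 0 := by
    intro r
    show (lam r.succ).1 v - (lam 0).1 v = 0
    rw [hlv, hlv, sub_self]
  have hmuu : ∀ r (i : Fin (a + 1)), mu r (e (Sum.inl i)) = 0 := by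
    intro r i
    refine Fin.lastCases ?_ (fun i => ?_) i
    · exact hmuv r
    · show (lam r.succ).1 _ - (lam 0).1 _ = 0
      rw [hlu, hlu, sub_self]
  -- preimages of the unit vectors
  have ht : ∀ r : Fin q, ∃ t : Fin n → A, ∀ r', mu r' (BA3_mid e t) = if r = r' then 1 else 0 := by
    intro r
    obtain ⟨d, z, h1, h2⟩ := hdual r.succ
    refine ⟨z, fun r' => ?_⟩
    have h3 := h2 0 (Fin.succ_ne_zero r).symm
    have e1 : ∀ m, ∑ j, z j * axx e (lam m) j = (lam m).1 (BA3_mid e z) := fun m => (BA3_fn_mid e _ z).symm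
    rw [e1] at h1 h3
    show (lam r'.succ).1 _ - (lam 0).1 _ = _
    split_ifs with h
    · subst h
      linear_combination h1 - h3
    · have h4 := h2 r'.succ (fun h5 => h (Fin.succ_injective _ h5).symm)
      rw [e1] at h4
      linear_combination h4 - h3
  choose t ht using ht
  have hφt : ∀ x : Fin n → A, φ (x - ∑ r, φ x r • t r) = 0 := by
    intro x
    funext r'
    rw [map_sub, map_sum]
    simp only [map_smul, Pi.sub_apply, Finset.sum_apply, Pi.smul_apply, smul_eq_mul, Pi.zero_apply]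
    have e1 : ∀ r, φ (t r) r' = if r = r' then 1 else 0 := fun r => ht r r'
    simp [e1]
  have hsurj : Function.Surjective φ := by
    intro y
    refine ⟨∑ r, y r • t r, ?_⟩
    funext r'
    rw [map_sum]
    simp only [map_smul, Finset.sum_apply, Pi.smul_apply, smul_eq_mul]
    have e1 : ∀ r, φ (t r) r' = if r = r' then 1 else 0 := fun r => ht r r'
    simp [e1]
  obtain ⟨bK⟩ := hK n q φ hsurj hq
  -- the family
  set c' : Fin b → V := fun i => e (Sum.inr (Sum.inr i)) - ∑ r, mu r (e (Sum.inr (Sum.inr i))) • BA3_mid e (t r) with hc'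
  set fF : Fin (a + 1) ⊕ ((Fin q ⊕ Fin (n - q)) ⊕ Fin b) → V :=
    Sum.elim (fun i => e (Sum.inl i)) (Sum.elim (Sum.elim (fun r => BA3_mid e (t r) - l0 (BA3_mid e (t r)) • v)
      (fun k => BA3_mid e (bK k : Fin n → A) - l0 (BA3_mid e (bK k : Fin n → A)) • v))
      (fun i => c' i - l0 (c' i) • v)) with hfF
  set H := Submodule.span A (Set.range fF) with hH
  have hmem : ∀ x, fF x ∈ H := fun x => Submodule.subset_span ⟨x, rfl⟩
  have hvH : v ∈ H := hmem (Sum.inl (Fin.last a))
  have hsub : ∀ w : V, w - l0 w • v ∈ H → w ∈ H := by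
    intro w hw
    have := Submodule.add_mem _ hw (Submodule.smul_mem _ (l0 w) hvH)
    rwa [sub_add_cancel] at this
  have hmt : ∀ r, BA3_mid e (t r) ∈ H := fun r => hsub _ (hmem (Sum.inr (Sum.inl (Sum.inl r))))
  have hmk : ∀ k : LinearMap.ker φ, BA3_mid e (k : Fin n → A) ∈ H := by
    intro k
    have h1 := bK.sum_repr k
    have h2 := congrArg (fun x : LinearMap.ker φ => BA3_mid e (x : Fin n → A)) h1
    simp only [Submodule.coe_sum, Submodule.coe_smul, map_sum, map_smul] at h2
    rw [← h2]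
    exact Submodule.sum_mem _ (fun i _ => Submodule.smul_mem _ _ (hsub _ (hmem (Sum.inr (Sum.inl (Sum.inr i))))))
  have hmid : ∀ x, BA3_mid e x ∈ H := by
    intro x
    have h1 : BA3_mid e x = BA3_mid e (x - ∑ r, φ x r • t r) + ∑ r, φ x r • BA3_mid e (t r) := by
      rw [map_sub, map_sum]
      simp only [map_smul]
      rw [sub_add_cancel]
    rw [h1]
    exact Submodule.add_mem _ (hmk ⟨_, hφt x⟩) (Submodule.sum_mem _ (fun r _ => Submodule.smul_mem _ _ (hmt r)))
  have htop : H = ⊤ := by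
    rw [eq_top_iff, ← e.span_eq, Submodule.span_le]
    rintro _ ⟨x, rfl⟩
    rcases x with x | x | x
    · exact hmem (Sum.inl x)
    · have h1 : e (Sum.inr (Sum.inl x)) = BA3_mid e (Pi.single x 1) := by
        rw [BA3_mid_apply]
        simp [Pi.single_apply]
      show e (Sum.inr (Sum.inl x)) ∈ H
      rw [h1]
      exact hmid _
    · have h1 := hsub _ (hmem (Sum.inr (Sum.inr x)))
      have h2 : e (Sum.inr (Sum.inr x)) = c' x + ∑ r, mu r (e (Sum.inr (Sum.inr x))) • BA3_mid e (t r) := by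
        rw [hc']
        simp
      show e (Sum.inr (Sum.inr x)) ∈ H
      rw [h2]
      exact Submodule.add_mem _ h1 (Submodule.sum_mem _ (fun r _ => Submodule.smul_mem _ _ (hmt r)))
  -- the basis
  have hσ : Nonempty (Fin n ≃ Fin q ⊕ Fin (n - q)) := ⟨Fintype.equivOfCardEq (by simp; omega)⟩
  obtain ⟨σ⟩ := hσ
  set e' := e.reindex (Equiv.sumCongr (Equiv.refl (Fin (a + 1))) (Equiv.sumCongr σ (Equiv.refl (Fin b)))) with he'
  set T : V →ₗ[A] V := e'.constr A fF with hT
  have hTs : Function.Surjective T := by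
    rw [← LinearMap.range_eq_top, hT, Module.Basis.constr_range]
    exact htop
  have : Module.Finite A V := Module.Finite.of_basis e
  have hTi : Function.Injective T := OrzechProperty.injective_of_surjective_endomorphism T hTs
  set f := e'.map (LinearEquiv.ofBijective T ⟨hTi, hTs⟩) with hf
  have hfx : ∀ x, f x = fF x := by
    intro x
    rw [hf, Module.Basis.map_apply, LinearEquiv.ofBijective_apply, hT, Module.Basis.constr_basis]
  have hcoord : ∀ (y) (ψ : V →ₗ[A] A), (∀ x, ψ (fF x) = if x = y then 1 else 0) → f.coord y = ψ := by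
    intro y ψ h
    refine f.ext (fun x => ?_)
    rw [Module.Basis.coord_apply, Module.Basis.repr_self_apply, hfx, h]
  have hl0v : l0 v = 1 := hlv 0
  have hl0s : ∀ w : V, l0 (w - l0 w • v) = 0 := by
    intro w
    rw [map_sub, map_smul, hl0v, smul_eq_mul, mul_one, sub_self]
  have hmuc : ∀ r i, mu r (c' i) = 0 := by
    intro r' i
    rw [hc']
    simp only [map_sub, map_sum, map_smul, smul_eq_mul, ht]
    simp
  have hmuk : ∀ r (k : LinearMap.ker φ), mu r (BA3_mid e (k : Fin n → A)) = 0 := by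
    intro r k
    have h1 : φ (k : Fin n → A) = 0 := k.2
    exact congrFun h1 r
  refine ⟨f, fun i => hfx (Sum.inl i), fun i => hcoord _ _ ?_, hcoord _ _ ?_, fun r => hcoord _ _ ?_⟩
  · -- the last coordinates
    have hψ : ∀ x, e.coord (Sum.inr (Sum.inr i)) (BA3_mid e x) = 0 := by
      intro x
      rw [BA3_fn_mid]
      refine Finset.sum_eq_zero (fun j _ => ?_)
      rw [Module.Basis.coord_apply, Module.Basis.repr_self_apply, if_neg (by simp), mul_zero]
    have hψv : e.coord (Sum.inr (Sum.inr i)) v = 0 := by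
      rw [hv, Module.Basis.coord_apply, Module.Basis.repr_self_apply, if_neg (by simp)]
    rintro (x | (x | x) | x)
    · rw [if_neg (by simp)]
      show e.coord (Sum.inr (Sum.inr i)) (e (Sum.inl x)) = 0
      rw [Module.Basis.coord_apply, Module.Basis.repr_self_apply, if_neg (by simp)]
    · rw [if_neg (by simp)]
      show e.coord (Sum.inr (Sum.inr i)) (BA3_mid e (t x) - l0 (BA3_mid e (t x)) • v) = 0
      rw [map_sub, map_smul, hψ, hψv, smul_zero, sub_zero]
    · rw [if_neg (by simp)]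
      show e.coord (Sum.inr (Sum.inr i)) (BA3_mid e (bK x : Fin n → A) - l0 (BA3_mid e (bK x : Fin n → A)) • v) = 0
      rw [map_sub, map_smul, hψ, hψv, smul_zero, sub_zero]
    · show e.coord (Sum.inr (Sum.inr i)) (c' x - l0 (c' x) • v) = _
      rw [map_sub, map_smul, hψv, smul_zero, sub_zero, hc']
      simp only [map_sub, map_sum, map_smul, hψ, smul_zero, Finset.sum_const_zero, sub_zero]
      rw [Module.Basis.coord_apply, Module.Basis.repr_self_apply]
      simp
  · -- l0
    rintro (x | (x | x) | x)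
    · show l0 (e (Sum.inl x)) = _
      refine Fin.lastCases ?_ (fun x => ?_) x
      · rw [if_pos rfl]
        exact hl0v
      · rw [if_neg (by
          intro h
          exact (Fin.castSucc_lt_last x).ne (Sum.inl_injective h))]
        exact hlu 0 x
    · rw [if_neg (by simp)]
      exact hl0s _
    · rw [if_neg (by simp)]
      exact hl0s _
    · rw [if_neg (by simp)]
      exact hl0s _
  · -- mu r
    show ∀ x, mu r (fF x) = _
    rintro (x | (x | x) | x)
    · rw [if_neg (by simp)]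
      exact hmuu r x
    · show mu r (BA3_mid e (t x) - l0 (BA3_mid e (t x)) • v) = _
      rw [map_sub, map_smul, hmuv, smul_zero, sub_zero, ht]
      simp
    · rw [if_neg (by simp)]
      show mu r (BA3_mid e (bK x : Fin n → A) - l0 (BA3_mid e (bK x : Fin n → A)) • v) = 0
      rw [map_sub, map_smul, hmuv, smul_zero, sub_zero, hmuk]
    · rw [if_neg (by simp)]
      show mu r (c' x - l0 (c' x) • v) = 0
      rw [map_sub, map_smul, hmuv, smul_zero, sub_zero, hmuc]

theorem BA3_move {s q : ℕ} (hK : KerFree A s) (hq : q + s ≤ n) (lam lam' : Fin (q + 1) → AX e)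
    (hdual : ∀ m, ∃ (d : A) (z : Fin n → A), d + ∑ j, z j * axx e (lam m) j = 1 ∧
      ∀ m', m' ≠ m → d + ∑ j, z j * axx e (lam m') j = 0)
    (hdual' : ∀ m, ∃ (d : A) (z : Fin n → A), d + ∑ j, z j * axx e (lam' m) j = 1 ∧
      ∀ m', m' ≠ m → d + ∑ j, z j * axx e (lam' m') j = 0) :
    ∃ g : AG e, ∀ m, g • lam m = lam' m := by
  classical
  obtain ⟨f, hf1, hf2, hf3, hf4⟩ := BA3_basis e hK hq lam hdual
  obtain ⟨f', hf1', hf2', hf3', hf4'⟩ := BA3_basis e hK hq lam' hdual'
  set g0 : V ≃ₗ[A] V := f.equiv f' (Equiv.refl _) with hg0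
  have hg : ∀ x, g0 (f x) = f' x := by
    intro x
    rw [hg0, Module.Basis.equiv_apply]
    rfl
  have hc : ∀ y, (f'.coord y) ∘ₗ g0.toLinearMap = f.coord y := by
    intro y
    refine f.ext (fun x => ?_)
    show f'.coord y (g0 (f x)) = _
    rw [hg, Module.Basis.coord_apply, Module.Basis.coord_apply, Module.Basis.repr_self_apply, Module.Basis.repr_self_apply]
  have hcv : ∀ y v, f'.coord y (g0 v) = f.coord y v := fun y v => LinearMap.congr_fun (hc y) v
  have hmemG : g0 ∈ AG e := by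
    constructor
    · rintro _ ⟨i, rfl⟩
      show g0 (e (Sum.inl i)) = e (Sum.inl i)
      rw [← hf1 i, hg, hf1', hf1]
    · rintro _ ⟨i, rfl⟩ v
      show e.coord (Sum.inr (Sum.inr i)) (g0 v) = e.coord (Sum.inr (Sum.inr i)) v
      rw [← hf2' i, hcv, hf2, hf2']
  refine ⟨⟨g0, hmemG⟩, fun m => ?_⟩
  have h0 : ∀ v, (lam' 0).1 (g0 v) = (lam 0).1 v := by
    intro v
    rw [← hf3', ← hf3]
    exact hcv _ v
  have hm : ∀ m v, (lam' m).1 (g0 v) = (lam m).1 v := by
    intro m v
    refine Fin.cases (h0 v) (fun r => ?_) m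
    have h1 := hcv (Sum.inr (Sum.inl (Sum.inl r))) v
    rw [hf4', hf4, LinearMap.sub_apply, LinearMap.sub_apply, h0] at h1
    exact sub_left_injective h1
  refine Subtype.ext (LinearMap.ext (fun v => ?_))
  show (lam m).1 ((((⟨g0, hmemG⟩ : AG e)⁻¹ : AG e) : V ≃ₗ[A] V) v) = (lam' m).1 v
  rw [← hm m]
  congr 1
  have h1 : (((⟨g0, hmemG⟩ : AG e)⁻¹ : AG e) : V ≃ₗ[A] V) = g0⁻¹ := rfl
  rw [h1, ← LinearEquiv.mul_apply, mul_inv_cancel]
  rfl

theorem BA3_tau {X : Type} {j : ℕ} (hj : 0 < j) (w : Fin j → X) :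
    ∃ (q : ℕ) (τ : Fin (q + 1) → Fin j), q + 1 ≤ j ∧ Function.Injective (fun m => w (τ m)) ∧ ∀ i, ∃ m, w i = w (τ m) := by
  classical
  set S := Finset.image w Finset.univ with hS
  have hne : S.Nonempty := ⟨w ⟨0, hj⟩, Finset.mem_image_of_mem _ (Finset.mem_univ _)⟩
  obtain ⟨q, hq⟩ : ∃ q, S.card = q + 1 := ⟨S.card - 1, by have := hne.card_pos; omega⟩
  have hle : S.card ≤ j := by
    have := Finset.card_image_le (s := (Finset.univ : Finset (Fin j))) (f := w)
    simpa using this
  have eq : Fin (q + 1) ≃ S := (finCongr hq.symm).trans S.equivFin.symm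
  have hτ : ∀ m, ∃ i, w i = (eq m : X) := by
    intro m
    have h1 := (eq m).2
    obtain ⟨i, -, hi⟩ := Finset.mem_image.1 h1
    exact ⟨i, hi⟩
  choose τ hτ using hτ
  refine ⟨q, τ, by omega, ?_, ?_⟩
  · intro m m' h
    have h1 : w (τ m) = w (τ m') := h
    rw [hτ, hτ] at h1
    exact eq.injective (Subtype.ext h1)
  · intro i
    have hi : w i ∈ S := Finset.mem_image_of_mem _ (Finset.mem_univ _)
    refine ⟨eq.symm ⟨w i, hi⟩, ?_⟩
    rw [hτ, Equiv.apply_symm_apply]

end

/-- **BA3** Orbits. -/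
theorem thm_BA3 : St_BA3 := by
  classical
  intro A _ s hK V _ _ a n b e j hj
  rcases Nat.eq_zero_or_pos j with rfl | hjpos
  · refine ⟨{[]}, fun L _ hL => ⟨1, ?_⟩⟩
    rw [List.length_eq_zero_iff] at hL
    rw [hL]
    simp
  -- lists with the same pattern
  have key : ∀ w w' : Fin j → AX e, List.ofFn w ∈ (AffC (axx e)).s → List.ofFn w' ∈ (AffC (axx e)).s →
      (∀ i i', w i = w i' ↔ w' i = w' i') → ∃ g : AG e, (List.ofFn w).map (g • ·) = List.ofFn w' := by
    intro w w' hw hw' hpat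
    obtain ⟨q, τ, hqj, hinj, hτ⟩ := BA3_tau hjpos w
    have hdual : ∀ (w : Fin j → AX e), List.ofFn w ∈ (AffC (axx e)).s → Function.Injective (fun m => w (τ m)) →
        ∀ m, ∃ (d : A) (z : Fin n → A), d + ∑ j, z j * axx e (w (τ m)) j = 1 ∧
          ∀ m', m' ≠ m → d + ∑ j, z j * axx e (w (τ m')) j = 0 := by
      intro w hw hinj m
      obtain ⟨d, z, h1, h2⟩ := hw (w (τ m)) (by rw [List.mem_ofFn]; exact ⟨_, rfl⟩)
      exact ⟨d, z, h1, fun m' hm' => h2 _ (by rw [List.mem_ofFn]; exact ⟨_, rfl⟩) (fun h => hm' (hinj h))⟩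
    have hinj' : Function.Injective (fun m => w' (τ m)) := by
      intro m m' h
      exact hinj ((hpat _ _).2 h)
    obtain ⟨g, hg⟩ := BA3_move e hK (show q + s ≤ n by omega) (fun m => w (τ m)) (fun m => w' (τ m))
      (hdual w hw hinj) (hdual w' hw' hinj')
    refine ⟨g, ?_⟩
    rw [List.map_ofFn]
    congr 1
    funext i
    obtain ⟨m, hm⟩ := hτ i
    show g • w i = w' i
    rw [hm, (hpat i (τ m)).1 hm]
    exact hg m
  set P : Set (Fin j × Fin j) → (Fin j → AX e) → Prop := fun c w =>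
    List.ofFn w ∈ (AffC (axx e)).s ∧ ∀ i i', w i = w i' ↔ (i, i') ∈ c with hP
  set rep : Set (Fin j × Fin j) → List (AX e) := fun c => if h : ∃ w, P c w then List.ofFn h.choose else [] with hrep
  have hfin : (Set.range rep).Finite := Set.finite_range rep
  refine ⟨hfin.toFinset, fun L hL hlen => ?_⟩
  obtain ⟨w, rfl⟩ : ∃ w : Fin j → AX e, L = List.ofFn w := by
    subst hlen
    exact ⟨L.get, (List.ofFn_get L).symm⟩
  set c : Set (Fin j × Fin j) := {x | w x.1 = w x.2} with hc
  have hPw : P c w := ⟨hL, fun i i' => Iff.rfl⟩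
  have hex : ∃ w, P c w := ⟨w, hPw⟩
  have hrc : rep c = List.ofFn hex.choose := by
    rw [hrep]
    simp only [dif_pos hex]
  have hspec := hex.choose_spec
  obtain ⟨g, hg⟩ := key w hex.choose hL hspec.1 (fun i i' => (hPw.2 i i').trans (hspec.2 i i').symm)
  refine ⟨g, ?_⟩
  rw [Set.Finite.mem_toFinset]
  exact ⟨c, by rw [hrc, ← hg]⟩

end Pool.Agent.SLZ
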