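import Pool.Agent.SLZ.StF5

/-!
# SLZ BA4: one step with the criterion of Brown (MP_24791f_al, helper64)
-/

set_option autoImplicit false
set_option linter.unusedVariables false

noncomputable section

namespace Pool.Agent.SLZ

open Module

theorem BA4_mono (hM : St_FM1) (G : Type) [Group G] {i k : ℕ} (h : i ≤ k) (hk : FPG k G) :
    FPG i G := by
  induction k, h using Nat.le_induction with
  | base => exact hk
  | succ k hik ih =>
    exact ih ((hM (MonoidAlgebra ℤ G)).2.2.2.1 k (TrivM G) hk)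

section

variable {A V : Type} [CommRing A] [AddCommGroup V] [Module A V] {a n b : ℕ}
  (e : Basis (Fin (a + 1) ⊕ (Fin n ⊕ Fin b)) A V)

theorem BA4_surj : Function.Surjective (axx e) := by
  intro z
  let f : Fin (a + 1) ⊕ (Fin n ⊕ Fin b) → A :=
    Sum.elim (fun i => if i = Fin.last a then 1 else 0) (Sum.elim z fun _ => 0)
  refine ⟨⟨e.constr A f, ?_, fun i => ?_⟩, ?_⟩
  · rw [e.constr_basis]
    simp [f]
  · rw [e.constr_basis]
    simp [f]
  · funext j
    show e.constr A f (e (Sum.inr (Sum.inl j))) = z j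
    rw [e.constr_basis]
    simp [f]

theorem BA4_val (x : AX e) (w : V) (hw : ∀ j, e.coord (Sum.inr (Sum.inr j)) w = 0) :
    x.1 w = e.coord (Sum.inl (Fin.last a)) w +
      ∑ j, e.coord (Sum.inr (Sum.inl j)) w * axx e x j := by
  conv_lhs => rw [← e.sum_repr w]
  rw [map_sum, Fintype.sum_sum_type, Fintype.sum_sum_type, Fin.sum_univ_castSucc]
  have h1 : ∀ i : Fin a, x.1 (e.repr w (Sum.inl i.castSucc) • e (Sum.inl i.castSucc)) = 0 :=
    fun i => by rw [map_smul, x.2.2 i, smul_zero]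
  have h2 : ∀ j : Fin b, x.1 (e.repr w (Sum.inr (Sum.inr j)) • e (Sum.inr (Sum.inr j))) = 0 :=
    fun j => by
      have := hw j
      rw [Basis.coord_apply] at this
      rw [this, zero_smul, map_zero]
  rw [Finset.sum_eq_zero fun i _ => h1 i, Finset.sum_eq_zero fun j _ => h2 j, zero_add, add_zero,
    map_smul, x.2.1, smul_eq_mul, mul_one]
  congr 1
  refine Finset.sum_congr rfl fun j _ => ?_
  rw [map_smul, smul_eq_mul]
  rfl

theorem BA4_inv (g : AG e) (L : List (AX e)) (hL : L ∈ (AffC (axx e)).s) :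
    L.map (g • ·) ∈ (AffC (axx e)).s := by
  intro u' hu'
  obtain ⟨u, hu, rfl⟩ := List.mem_map.1 hu'
  obtain ⟨d, z, h1, h2⟩ := hL u hu
  let y : V := d • e (Sum.inl (Fin.last a)) + ∑ j, z j • e (Sum.inr (Sum.inl j))
  have hy : ∀ x : AX e, x.1 y = d + ∑ j, z j * axx e x j := fun x => by
    show x.1 (d • e (Sum.inl (Fin.last a)) + ∑ j, z j • e (Sum.inr (Sum.inl j))) = _
    rw [map_add, map_smul, x.2.1, smul_eq_mul, mul_one, map_sum]
    congr 1
    refine Finset.sum_congr rfl fun j _ => ?_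
    rw [map_smul, smul_eq_mul]
    rfl
  have hy0 : ∀ j, e.coord (Sum.inr (Sum.inr j)) y = 0 := fun j => by
    show e.coord (Sum.inr (Sum.inr j))
      (d • e (Sum.inl (Fin.last a)) + ∑ j, z j • e (Sum.inr (Sum.inl j))) = 0
    rw [map_add, map_smul, map_sum, Basis.coord_apply, Basis.repr_self,
      Finsupp.single_eq_of_ne (by simp), smul_zero, zero_add]
    refine Finset.sum_eq_zero fun i _ => ?_
    rw [map_smul, Basis.coord_apply, Basis.repr_self, Finsupp.single_eq_of_ne (by simp),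
      smul_zero]
  have hgy0 : ∀ j, e.coord (Sum.inr (Sum.inr j)) ((g : V ≃ₗ[A] V) y) = 0 := fun j => by
    rw [g.2.2 _ ⟨j, rfl⟩ y]
    exact hy0 j
  have hgx : ∀ x : AX e, (g • x).1 ((g : V ≃ₗ[A] V) y) = x.1 y := fun x => by
    change x.1 (((g⁻¹ : AG e) : V ≃ₗ[A] V) ((g : V ≃ₗ[A] V) y)) = x.1 y
    rw [← LinearEquiv.mul_apply, ← Subgroup.coe_mul, inv_mul_cancel]
    rfl
  refine ⟨e.coord (Sum.inl (Fin.last a)) ((g : V ≃ₗ[A] V) y),
    fun j => e.coord (Sum.inr (Sum.inl j)) ((g : V ≃ₗ[A] V) y), ?_, fun w' hw' hne => ?_⟩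
  · rw [← BA4_val e (g • u) _ hgy0, hgx, hy, h1]
  · obtain ⟨w, hw, rfl⟩ := List.mem_map.1 hw'
    have hwu : w ≠ u := fun h => hne (by rw [h])
    rw [← BA4_val e (g • w) _ hgy0, hgx, hy, h2 w hw hwu]

end

theorem thm_BA4 (h0 : St_BA0) (h2 : St_BA2) (h3 : St_BA3) (hL : St_FBL) (hM : St_FM1)
    (hS : St_FSub) : St_BA4 := by
  classical
  intro A _ s hK hAf k a n b hn hq0 hq V _ _ S T hST
  obtain ⟨e, he1, he2⟩ := hST
  have hstd : StdF (a + 1) n b (Set.range fun i => e (Sum.inl i))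
      (Set.range fun i => e.coord (Sum.inr (Sum.inr i))) := ⟨e, rfl, rfl⟩
  obtain ⟨φ⟩ := (h0 A (a + 1) n b).1 V V S T _ _ ⟨e, he1, he2⟩ hstd
  refine hS.1 (AG e) _ k ⟨φ.symm⟩ ?_
  refine hL (AG e) (AX e) (AffC (axx e)) k (fun u hu => absurd hu (List.not_mem_nil))
    (fun g l hl => BA4_inv e g l hl) ?_ ?_ ?_
  · intro j hj
    exact hAf n (AX e) (axx e) (BA4_surj e) j (by omega)
  · intro j hj
    exact h3 A s hK V a n b e j (by omega)
  · intro l hl hne i hi
    have hpos : 0 < l.toFinset.card := by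
      rw [Finset.card_pos]
      obtain ⟨x, hx⟩ := List.exists_mem_of_ne_nil l hne
      exact ⟨x, List.mem_toFinset.2 hx⟩
    have hle : l.toFinset.card ≤ l.length := List.toFinset_card_le l
    obtain ⟨q, hqc⟩ : ∃ q, l.toFinset.card = q + 1 := ⟨l.toFinset.card - 1, by omega⟩
    obtain ⟨V', _, _, S', T', hst, ⟨ψ⟩⟩ := h2 A s hK V a n b e l q hl (by omega)
      ⟨l.toFinset, hqc, fun x => List.mem_toFinset⟩
    refine hS.1 (FixG S' T') _ i ⟨ψ.symm⟩ (BA4_mono hM _ (k := k - q) (by omega) ?_)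
    rcases Nat.eq_zero_or_pos q with h | h
    · subst h
      exact hq0 V' S' T' hst
    · exact hq q h (by omega) V' S' T' hst

end Pool.Agent.SLZ
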