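import Pool.Agent.SLZ.StF5

/-!
# SLZ [BC]: stabilizers with big blocks (helper86)
-/

set_option autoImplicit false

namespace Pool.Agent.SLZ

open Polynomial

private theorem BC_empty {A ι I : Type} [CommRing A] [Fintype ι] [DecidableEq ι] [IsEmpty ι]
    (w : I → ι → ℤ) : Finite (PS A w) := by
  have h : Subsingleton (PS A w) := by
    refine ⟨fun x y => Subtype.ext (Units.ext ?_)⟩
    ext i
    exact (IsEmpty.false i).elim
  exact Finite.of_subsingleton

/-- **BC** -/
theorem thm_BC (hP : St_PSA) (hE : St_FExt) (hS : St_FSub) : St_BC := by
  intro A _ k C hC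
  have key : ∀ (N : ℕ) (ι I : Type) [Fintype ι] [DecidableEq ι] [Finite I] [Nonempty I]
      (w : I → ι → ℤ), Fintype.card ι = N →
      (∀ a : ι, C ≤ {b | ∀ i, w i b = w i a}.ncard) → FPG k (PS A w) := by
    intro N
    induction N using Nat.strong_induction_on with
    | _ N ih =>
      intro ι I _ _ _ _ w hN hw
      rcases isEmpty_or_nonempty ι with he | hne
      · exact hS.2.2.1 _ k (BC_empty w)
      · obtain ⟨c, ⟨a₀, ha₀, hc⟩, f, hf, M, V, iV, mV, S, T, hST, hiso⟩ := hP A ι I w
        have hcard : C ≤ c.card := by
          have h1 : {b | ∀ i, w i b = w i a₀} = (c : Set ι) := by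
            ext b
            exact (hc b).symm
          have h2 := hw a₀
          rw [h1, Set.ncard_coe_finset] at h2
          exact h2
        have hker : FPG k f.ker := by
          obtain ⟨e⟩ := hiso
          exact hS.1 _ _ k ⟨e.symm⟩ (hC c.card hcard 0 M V S T hST)
        refine hE _ _ f k hf hker ?_
        refine ih (Fintype.card {b // b ∉ c}) ?_ {b // b ∉ c} I _ rfl ?_
        · rw [← hN]
          exact Fintype.card_subtype_lt (p := fun b => b ∉ c) (x := a₀) (by simpa using ha₀)
        · intro a
          have h1 : (Subtype.val '' {b : {b // b ∉ c} | ∀ i, w i b.1 = w i a.1}) =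
              {b | ∀ i, w i b = w i a.1} := by
            ext b
            constructor
            · rintro ⟨x, hx, rfl⟩
              exact hx
            · intro hb
              refine ⟨⟨b, fun hbc => a.2 ?_⟩, hb, rfl⟩
              rw [hc]
              intro i
              rw [← hb i]
              exact (hc b).1 hbc i
          have h2 := hw a.1
          rw [← h1, Set.ncard_image_of_injective _ Subtype.val_injective] at h2
          exact h2
  intro ι I _ _ _ _ w hw
  exact key (Fintype.card ι) ι I w rfl hw

end Pool.Agent.SLZ
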