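import Mathlib

/-!
# SLZ: definitions (project MP_24791f_al, finiteness properties of `SL_n(ℤ[x_1, .., x_r])`)

`FPm R k M`: the module `M` is of type `FP_k`. `FPG k G`: the group `G` is of type `FP_k`. Chains of simplicial
complexes as integral combinations of lists of vertices.
-/

set_option autoImplicit false
set_option linter.unusedVariables false

noncomputable section

namespace Pool.Agent.SLZ

/-! ### modules -/

/-- `M` is of type `FP_k` over `R` -/
def FPm (R : Type) [Ring R] : ℕ → ∀ (M : Type) [AddCommGroup M] [Module R M], Prop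
  | 0, M, _, _ => Module.Finite R M
  | k + 1, M, _, _ => ∃ (n : ℕ) (f : (Fin n → R) →ₗ[R] M), Function.Surjective f ∧
      FPm R k (LinearMap.ker f)

/-- the trivial module `ℤ` of a group -/
abbrev TrivM (G : Type) [Group G] : Type := (Representation.trivial ℤ G ℤ).asModule

/-- the permutation module of a `G`-set -/
abbrev PermM (G T : Type) [Group G] [MulAction G T] : Type :=
  (Representation.ofMulAction ℤ G T).asModule

/-- the group `G` is of type `FP_k` -/
def FPG (k : ℕ) (G : Type) [Group G] : Prop := FPm (MonoidAlgebra ℤ G) k (TrivM G)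

/-- finitely many orbits -/
def FinOrb (G T : Type) [Group G] [MulAction G T] : Prop :=
  ∃ s : Finset T, ∀ t : T, ∃ g : G, g • t ∈ s

/-! ### lists of vertices -/

section Chains

variable {V : Type}

/-- put a vertex in front -/
def consC (v : V) : (List V →₀ ℤ) →ₗ[ℤ] (List V →₀ ℤ) := Finsupp.lmapDomain ℤ ℤ (List.cons v)

/-- the boundary of a list: `∂ [] = 0`, `∂ (v l) = l - v (∂ l)` -/
def bdL : List V → (List V →₀ ℤ)
  | [] => 0
  | v :: l => Finsupp.single l 1 - consC v (bdL l)

/-- the boundary -/
def bd : (List V →₀ ℤ) →ₗ[ℤ] (List V →₀ ℤ) := Finsupp.lift (List V →₀ ℤ) ℤ (List V) bdL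

/-- a simplicial complex on `V`: the lists of vertices of its simplices (with repetitions, in any order) -/
structure Cx (V : Type) where
  s : Set (List V)
  mono : ∀ l l' : List V, l' ⊆ l → l ∈ s → l' ∈ s

/-- chains of length `j` (dimension `j - 1`) of a set of lists -/
def Ch (s : Set (List V)) (j : ℕ) : Submodule ℤ (List V →₀ ℤ) :=
  Finsupp.supported ℤ ℤ {l | l ∈ s ∧ l.length = j}

/-- the cycles of length `j` are boundaries -/
def Ex (A : Cx V) (j : ℕ) : Prop := ∀ z ∈ Ch A.s j, bd z = 0 → ∃ y ∈ Ch A.s (j + 1), bd y = z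

/-- `A` is `(c - 2)`-acyclic: exact at all lengths below `c` -/
def Conn (A : Cx V) (c : ℕ) : Prop := ∀ j < c, Ex A j

/-- the flag complex of a relation on a set of vertices -/
def Fl (r : V → V → Prop) (S : Set V) : Cx V where
  s := {l | ∀ x ∈ l, x ∈ S ∧ ∀ y ∈ l, r x y}
  mono l l' h hl x hx := ⟨(hl x (h hx)).1, fun y hy => (hl x (h hx)).2 y (h hy)⟩

/-- the relation of a join -/
def joinR {W : Type} (r : V → V → Prop) (q : W → W → Prop) : V ⊕ W → V ⊕ W → Prop
  | .inl x, .inl y => r x y
  | .inr x, .inr y => q x y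
  | _, _ => True

/-- stable connectivity: `S` raises the connectivity of every flag complex `Z` by `c` when joined with it -/
def SConn (r : V → V → Prop) (S : Set V) (c : ℕ) : Prop :=
  ∀ (W : Type) (q : W → W → Prop), (∀ x, q x x) → (∀ x y, q x y → q y x) → ∀ (Z : Set W) (b : ℕ),
    Conn (Fl q Z) b → Conn (Fl (joinR r q) (Sum.inl '' S ∪ Sum.inr '' Z)) (c + b)

end Chains

end Pool.Agent.SLZ
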