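import Pool.Agent.SLZ.Defs

/-!
# SLZ, part G: definitions for `GL_m(ℤ)` (architect helper71)
-/

set_option autoImplicit false
set_option linter.unusedVariables false

noncomputable section

namespace Pool.Agent.SLZ

/-- the elements of `S` at which `h` is minimal on `S` -/
def MinS {T : Type} (S : Set T) (h : T → ℝ) : Set T := {v | v ∈ S ∧ ∀ w ∈ S, h v ≤ h w}

/-- the lists of common minima of one function of the family `C` -/
def AdmC {T : Type} (C : Set (T → ℝ)) (S : Set T) : Cx T where
  s := {l | ∃ h ∈ C, ∀ v ∈ l, v ∈ MinS S h}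
  mono l l' h hl := by
    obtain ⟨f, hf, h1⟩ := hl
    exact ⟨f, hf, fun v hv => h1 v (h hv)⟩

/-- norms on a lattice -/
structure IsNW {W : Type} [AddCommGroup W] (h : W → ℝ) : Prop where
  add : ∀ v w, h (v + w) ≤ h v + h w
  mul : ∀ (n : ℤ) (v : W), h (n • v) = |(n : ℝ)| * h v
  fin : ∀ R : ℝ, {v | h v ≤ R}.Finite

/-- the set of norms -/
def NW (W : Type) [AddCommGroup W] : Set (W → ℝ) := {h | IsNW h}

/-- the nonzero vectors -/
def nz (W : Type) [AddCommGroup W] : Set W := {v | v ≠ 0}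

/-- the complex of the lists of shortest vectors (for one norm) -/
def SV (W : Type) [AddCommGroup W] : Cx W := AdmC (NW W) (nz W)

/-- the saturation of a set of vectors -/
def sat {W : Type} [AddCommGroup W] (s : Set W) : Submodule ℤ W where
  carrier := {w | ∃ n : ℤ, n ≠ 0 ∧ n • w ∈ Submodule.span ℤ s}
  zero_mem' := ⟨1, one_ne_zero, by rw [smul_zero]; exact Submodule.zero_mem _⟩
  add_mem' := by
    rintro v w ⟨n, hn, h1⟩ ⟨m, hm, h2⟩
    refine ⟨m * n, mul_ne_zero hm hn, ?_⟩
    rw [smul_add, mul_smul, mul_comm, mul_smul]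
    exact Submodule.add_mem _ (Submodule.smul_mem _ _ h1) (Submodule.smul_mem _ _ h2)
  smul_mem' := by
    rintro c w ⟨n, hn, h1⟩
    refine ⟨n, hn, ?_⟩
    rw [smul_comm]
    exact Submodule.smul_mem _ _ h1

end Pool.Agent.SLZ
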