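import Mathlib

/-!
# SLZ: finite free resolutions over `ℤ[x_1, .., x_r]`, statements (architect helper71)

Module `X` proves `theorem thm_X (h.. : St_..) : St_X` in `Pool/Agent/SLZ/X.lean`.
-/

set_option autoImplicit false
set_option linter.unusedVariables false

noncomputable section

namespace Pool.Agent.SLZ

open Function Polynomial

/-- stably free modules -/
def SF (R : Type) [Ring R] (M : Type) [AddCommGroup M] [Module R M] : Prop :=
  ∃ m n : ℕ, Nonempty ((M × (Fin m → R)) ≃ₗ[R] (Fin n → R))

/-- `M` has a resolution of length at most `d` by free modules of finite rank whose last term is stably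
free. -/
def FF (R : Type) [Ring R] : ℕ → ∀ (M : Type) [AddCommGroup M] [Module R M], Prop
  | 0, M, _, _ => SF R M
  | d + 1, M, _, _ => ∃ (n : ℕ) (f : (Fin n → R) →ₗ[R] M), Surjective f ∧
      FF R d (LinearMap.ker f)

/-- **FFP** (1.5 h). Formal properties.

Proof. (1) isomorphisms: induction on `d`. (2) `M × R^m ≅ R^n` (`d = 0`): `R^n → M` is onto and its kernel is isomorphic to `R^m`;
then induction. (3) `0 → A → B → C → 0`. `d = 0`: `C` is projective, so `B ≅ A × C`. `d + 1`: `F_A → A`, `F_C → C` onto, lift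
`F_C → B`; `F_A × F_C → B` is onto and its kernel is an extension of the kernel of `F_C → C` by the kernel of `F_A → A`
(compare `SLZ/FM1.lean`). (4) `F → B` onto with kernel `K`, `FF d K`; the kernel of `F → C` is an extension of `A` by `K`: (3). (5)
`FF d (K × R^n)` implies `FF d K`: `d = 0` clear; `d + 1`: `g : R^p → K × R^n` onto with `FF d (ker g)`; the kernel of `R^p → K` is an
extension of `R^n` by `ker g`: (3). (6) Schanuel: `f' : R^n' → M` onto with `FF d (ker f')`; `ker f × R^n' ≅ ker f' × R^n` (pull back,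
compare `SLZ/FM2.lean`), (3), (5). (7) `d = 0`: `B × R^m ≅ R^n`, the kernel of `B × R^m → C` is `A × R^m`: (6), (5). `d + 1`: `F → B` onto with
kernel `K`, `FF d K`; the kernel `K'` of `F → C` is `FF (d + 1)` by (6) and an extension of `A` by `K`: (4). (8) a direct summand of
a free module. -/
def St_FFP : Prop := ∀ (R : Type) [CommRing R],
  (∀ (d : ℕ) (M N : Type) [AddCommGroup M] [Module R M] [AddCommGroup N] [Module R N],
    (M ≃ₗ[R] N) → FF R d M → FF R d N) ∧
  (∀ (d : ℕ) (M : Type) [AddCommGroup M] [Module R M], FF R d M → FF R (d + 1) M) ∧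
  (∀ (d : ℕ) (A B C : Type) [AddCommGroup A] [Module R A] [AddCommGroup B] [Module R B]
    [AddCommGroup C] [Module R C] (f : A →ₗ[R] B) (g : B →ₗ[R] C), Injective f → Surjective g →
    LinearMap.range f = LinearMap.ker g →
    (FF R d A → FF R d C → FF R d B) ∧ (FF R d A → FF R (d + 1) B → FF R (d + 1) C) ∧
    (FF R d B → FF R (d + 1) C → FF R d A)) ∧
  (∀ (d n : ℕ) (M : Type) [AddCommGroup M] [Module R M], FF R d (M × (Fin n → R)) → FF R d M) ∧
  (∀ (d n : ℕ) (M : Type) [AddCommGroup M] [Module R M] (f : (Fin n → R) →ₗ[R] M),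
    FF R (d + 1) M → Surjective f → FF R d (LinearMap.ker f)) ∧
  ∀ (M : Type) [AddCommGroup M] [Module R M], SF R M → Module.Projective R M ∧ Module.Finite R M

/-- **FFQ** (0.5 h). Modules which are their own second syzygy.

Proof. `Z = ker g ≅ R^a / C`. Strong induction on `d`. `d ≥ 2`: `FF (d - 1) Z` and `FF (d - 2) C` by Schanuel (`St_FFP` (5)).
`d ≤ 1`: `FF 1 C`, so `SF Z`, so `FF 1 Z`, so `SF C` by the last part of `St_FFP` (3). -/
def St_FFQ : Prop := ∀ (R : Type) [CommRing R] (C : Type) [AddCommGroup C] [Module R C]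
  (a b d : ℕ) (i : C →ₗ[R] (Fin a → R)) (h : (Fin a → R) →ₗ[R] (Fin b → R))
  (g : (Fin b → R) →ₗ[R] C), Injective i → LinearMap.range i = LinearMap.ker h →
  LinearMap.range h = LinearMap.ker g → Surjective g → FF R d C → SF R C

/-- **FFM** (1 h). Polynomials with coefficients in a module.

Proof. `PolynomialModule R` is a functor (coefficientwise), it preserves injective and surjective maps and kernels (the kernel of
the map induced by `f` is `PolynomialModule R (ker f)`), products, and `PolynomialModule R (Fin n → R) ≅ (Fin n → R[X])`. Induction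
on `d`. -/
def St_FFM : Prop := ∀ (R : Type) [CommRing R] (d : ℕ) (M : Type) [AddCommGroup M] [Module R M],
  FF R d M → FF R[X] d (PolynomialModule R M)

/-- **FFX** (1.5 h). The characteristic sequence.

Proof. `e : R[X]^n → M` onto (`e_l ↦ m_l`), `N = ker e` is finitely generated; `F_k ⊆ R[X]^n` the vectors with entries of degree `≤ k`;
there is `k ≥ 1` such that `N` is generated by `N ∩ F_k`. `M_k = e (F_k)`, a finitely generated `R`-submodule of `M`; `P = M_(k-1)`,
`Q = M_k`. `j (x^i ⊗ m) = x^(i+1) ⊗ m - x^i ⊗ (X • m)`, `g (x^i ⊗ m) = X^i • m`. `j` is injective (highest coefficient), `g ∘ j = 0`,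
`g` is onto (`m_l ∈ M_0`). Exactness: let `θ : R[X]^n → coker j` be the linear map with `θ e_l = 1 ⊗ m_l`. For `u ∈ F_k` we have
`θ u = 1 ⊗ e u` (for `u = X^a e_l`, `a ≤ k`: `X • (1 ⊗ m) = 1 ⊗ X m` in `coker j` for `m ∈ M_(k-1)`), so `θ` vanishes on `N ∩ F_k`, so on `N`. If
`g (∑ x^i ⊗ m_i) = 0`, `m_i = e u_i`, `u_i ∈ F_k`, then `∑ X^i u_i ∈ N` and the class of `∑ x^i ⊗ m_i` in `coker j` is
`∑ X^i • θ u_i = θ (∑ X^i u_i) = 0`. -/
def St_FFX : Prop := ∀ (R : Type) [CommRing R] [IsNoetherianRing R] (M : Type) [AddCommGroup M]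
  [Module R[X] M] [Module.Finite R[X] M], ∃ (P Q : Type) (_ : AddCommGroup P) (_ : Module R P)
  (_ : AddCommGroup Q) (_ : Module R Q) (j : PolynomialModule R P →ₗ[R[X]] PolynomialModule R Q)
  (g : PolynomialModule R Q →ₗ[R[X]] M), Module.Finite R P ∧ Module.Finite R Q ∧ Injective j ∧
  Surjective g ∧ LinearMap.range j = LinearMap.ker g

/-- **FFR** (1 h). FINITE FREE RESOLUTIONS (Hilbert's syzygy theorem, stably free form).

Proof. If all finitely generated `R`-modules are `FF d` (`R` noetherian), then all finitely generated `R[X]`-modules are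
`FF (d + 1)`: `St_FFX`, `St_FFM`, `St_FFP` (2), (3) second part. `R = ℤ`: `d = 1`, submodules of `ℤ^n` are free. Induction on `r` with
`MvPolynomial.finSuccEquiv ℤ r` and `MvPolynomial.isEmptyRingEquiv`; transport: for a ring isomorphism `e : S ≃+* R` and an `R`-module `M`
which is `FF d` as an `S`-module (`Module.compHom`) `M` is `FF d` over `R` (induction on `d`, it is convenient to prove: if
`φ : M → N` is bijective, additive and `φ (s m) = e s φ m`, then `FF S d M → FF R d N`). -/
def St_FFR : Prop := ∀ (r : ℕ) (M : Type) [AddCommGroup M] [Module (MvPolynomial (Fin r) ℤ) M],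
  Module.Finite (MvPolynomial (Fin r) ℤ) M → FF (MvPolynomial (Fin r) ℤ) (r + 1) M

end Pool.Agent.SLZ
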