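import Pool.Agent.SLZ.DefsT
import Pool.Agent.SLZ.StFF

/-!
# SLZ, part R (infinite rank): definitions (architect helper94)

`IsLat`: lattices of finite type. `Sat`, `H0`, `FL d`: saturated lattices whose generator modules `H0 E k = E k / (E (k-1) + X E (k-1))`
have resolutions of length `d` (`FL 0`: the vector bundles `⊕ O(-k) ⊗ H0 E k`). `Hty`: homotopy of families of lattices.
-/

set_option autoImplicit false
set_option linter.unusedVariables false

noncomputable section

namespace Pool.Agent.SLZ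

open Polynomial

section

variable {A : Type} [CommRing A] {V : Type} [AddCommGroup V] [Module A V] [Module A[X] V]
  [IsScalarTower A A[X] V]

/-- multiplication by `X` -/
def xm (A : Type) [CommRing A] (V : Type) [AddCommGroup V] [Module A V] [Module A[X] V]
    [IsScalarTower A A[X] V] : V →ₗ[A] V where
  toFun v := (X : A[X]) • v
  map_add' u v := smul_add _ u v
  map_smul' c v := by
    have h : ∀ u : V, c • u = (C c : A[X]) • u := fun u => by
      rw [← algebraMap_smul A[X] c u]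
      rfl
    simp only [h, smul_smul, RingHom.id_apply, mul_comm]

/-- lattices of finite type -/
structure IsLat (E : Lat A V) : Prop where
  mono : ∀ k, E k ≤ E (k + 1)
  mulX : ∀ k, ∀ v ∈ E k, (X : A[X]) • v ∈ E (k + 1)
  bot : ∃ k₀, ∀ k ≤ k₀, E k = ⊥
  fg : ∀ k, (E k).FG
  gen : ∃ k₀, ∀ k ≥ k₀, ∀ v ∈ E (k + 1), ∃ a ∈ E k, ∃ b ∈ E k, v = a + (X : A[X]) • b
  top : ∀ v, ∃ k, v ∈ E k

/-- saturated lattices -/
def Sat (E : Lat A V) : Prop := ∀ k, ∀ v ∈ E k, (X : A[X]) • v ∈ E k → v ∈ E (k - 1)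

/-- `E (k - 1) + X E (k - 1)` -/
def jL (E : Lat A V) (k : ℤ) : Submodule A V := E (k - 1) ⊔ (E (k - 1)).map (xm A V)

/-- the module of generators of degree `k` -/
abbrev H0 (E : Lat A V) (k : ℤ) : Type := (E k) ⧸ (jL E k).submoduleOf (E k)

/-- saturated lattices whose generator modules have resolutions of length `d`; `FL 0`: vector bundles `⊕ O(-k) ⊗ H0 E k` -/
def FL (d : ℕ) (E : Lat A V) : Prop := IsLat E ∧ Sat E ∧ ∀ k, FF A d (H0 E k)

/-- all types are `≥ 0`: generated in degrees `≤ 0` -/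
def GE (E : Lat A V) : Prop := ∀ k : ℤ, 0 ≤ k → ∀ v ∈ E (k + 1), ∃ a ∈ E k, ∃ b ∈ E k,
  v = a + (X : A[X]) • b

/-- all types are `≤ D` -/
def LE1 (D : ℕ) (E : Lat A V) : Prop := E (-(D : ℤ) - 1) = ⊥

/-- bundles with types in `[0, D]` -/
def SD (A V : Type) [CommRing A] [AddCommGroup V] [Module A V] [Module A[X] V]
    [IsScalarTower A A[X] V] (D : ℕ) : Set (Lat A V) := {E | FL 0 E ∧ GE E ∧ LE1 D E}

/-- `O(w_1) ⊕ .. ⊕ O(w_M)` -/
def OW (A : Type) [CommRing A] {M : ℕ} (w : Fin M → ℤ) : Lat A (Fin M → A[X]) :=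
  OL (Pi.basisFun A[X] (Fin M)) w

/-- exact sequences of lattices -/
structure SES {U W : Type} [AddCommGroup U] [Module A U] [Module A[X] U] [IsScalarTower A A[X] U]
    [AddCommGroup W] [Module A W] [Module A[X] W] [IsScalarTower A A[X] W]
    (i : U →ₗ[A[X]] W) (p : W →ₗ[A[X]] V) (K : Lat A U) (E : Lat A W) (B : Lat A V) : Prop where
  inj : Function.Injective i
  surj : Function.Surjective p
  ex : LinearMap.range i = LinearMap.ker p
  ker : ∀ k u, u ∈ K k ↔ i u ∈ E k
  im : ∀ k v, v ∈ B k ↔ ∃ w ∈ E k, p w = v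

/-- the lattice `E ∩ ker p` -/
def kerL {W : Type} [AddCommGroup W] [Module A W] [Module A[X] W] [IsScalarTower A A[X] W]
    (p : W →ₗ[A[X]] V) (E : Lat A W) : Lat A (LinearMap.ker p) := fun k =>
  (E k).comap ((LinearMap.ker p).subtype.restrictScalars A)

end

/-! ### families of lattices and homotopy -/

section

variable {A : Type} [CommRing A] {V₀ : Type} [AddCommGroup V₀] [Module A V₀] [Module A[X] V₀]
  [IsScalarTower A A[X] V₀] {V : Type} [AddCommGroup V] [Module A V] [Module A[X] V]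
  [IsScalarTower A A[X] V]

/-- admissible families of bundles, with labels in `Y` -/
def Adm (Y : Set (Lat A V₀)) (f : Lat A V₀ → Lat A V) : Prop :=
  (∀ y ∈ Y, FL 0 (f y)) ∧ ∀ x ∈ Y, ∀ y ∈ Y, LR x y → LR (f x) (f y)

/-- `f` and `g` are homotopic, also after adding any other admissible family `h` -/
def Hty (Y : Set (Lat A V₀)) (f g : Lat A V₀ → Lat A V) : Prop :=
  ∀ (W : Type) [AddCommGroup W] [Module A W] [Module A[X] W] [IsScalarTower A A[X] W]
    (h : Lat A V₀ → Lat A W), Adm Y h → ∀ j : ℕ, ∀ z ∈ Ch (Fl adjL Y).s j, bd z = 0 →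
    ∃ y ∈ Ch (Fl adjL {E : Lat A (V × W) | FL 0 E}).s (j + 1),
      bd y = z.mapDomain (List.map fun E => prodL (f E) (h E)) -
        z.mapDomain (List.map fun E => prodL (g E) (h E))

/-- stable homotopy: after adding a constant bundle -/
def HtyS (Y : Set (Lat A V₀)) (f g : Lat A V₀ → Lat A V) : Prop :=
  ∃ (W : Type) (_ : AddCommGroup W) (_ : Module A W) (_ : Module A[X] W)
    (_ : IsScalarTower A A[X] W) (Λ : Lat A W), FL 0 Λ ∧
    Hty Y (fun y => prodL (f y) Λ) (fun y => prodL (g y) Λ)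

/-- `(u, v) ↦ u + s v` for a section `s` of `p` -/
def secE {W : Type} [AddCommGroup W] [Module A W] [Module A[X] W] [IsScalarTower A A[X] W]
    (p : W →ₗ[A[X]] V) (s : V →ₗ[A[X]] W) (hs : ∀ v, p (s v) = v) :
    (LinearMap.ker p × V) ≃ₗ[A[X]] W where
  toFun q := (q.1 : W) + s q.2
  map_add' q q' := by
    simp only [Prod.fst_add, Prod.snd_add, Submodule.coe_add, map_add]
    abel
  map_smul' c q := by
    simp only [Prod.smul_fst, Prod.smul_snd, Submodule.coe_smul, map_smul, smul_add,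
      RingHom.id_apply]
  invFun w := (⟨w - s (p w), by simp [hs]⟩, p w)
  left_inv q := by
    have h : p (q.1 : W) = 0 := q.1.2
    ext <;> simp [h, hs]
  right_inv w := by simp

end

end Pool.Agent.SLZ
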