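import Pool.Agent.SLZ.DefsP

/-!
# SLZ: lattices over `A[x]` and the complexes `T` (captain helper12)

`V` is a free module of finite rank over `A[X]`. A lattice is an increasing family `E k` (`k : ℤ`) of `A`-submodules of `V`.
`OL b w = ⊕ O(w i) b_i`: the vectors whose `i`-th coordinate has degree `≤ k + w i`.
`TT A V m J`: the flag complex of the lattices of types `0`, `1` and of degree `0, m, .., J m`, for the relation `E ≤ E' ≤ E(1)`.
-/

set_option autoImplicit false
set_option linter.unusedVariables false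

noncomputable section

namespace Pool.Agent.SLZ

open Polynomial

section Lat

variable (A : Type) [CommRing A] (V : Type) [AddCommGroup V] [Module A V] [Module A[X] V]
  [IsScalarTower A A[X] V]

/-- families of `A`-submodules -/
abbrev Lat : Type := ℤ → Submodule A V

variable {A V}

/-- the shift `E(j)` -/
def shL (E : Lat A V) (j : ℤ) : Lat A V := fun k => E (k + j)

/-- `E ≤ E' ≤ E(1)` -/
def LR (E E' : Lat A V) : Prop := E ≤ E' ∧ E' ≤ shL E 1

/-- adjacency of lattices -/
def adjL (E E' : Lat A V) : Prop := LR E E' ∨ LR E' E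

/-- the lattice `⊕ O(w i) b_i` -/
def OL {ι : Type} (b : Module.Basis ι A[X] V) (w : ι → ℤ) : Lat A V := fun k =>
  { carrier := {v | ∀ (i : ι) (n : ℕ), k + w i < n → (b.repr v i).coeff n = 0}
    zero_mem' := by
      intro i n _
      simp
    add_mem' := by
      intro u v hu hv i n h
      rw [map_add, Finsupp.add_apply, coeff_add, hu i n h, hv i n h, add_zero]
    smul_mem' := by
      intro c v hv i n h
      have h1 : c • v = (C c : A[X]) • v := by
        rw [← algebraMap_smul A[X] c v]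
        rfl
      rw [h1, map_smul, Finsupp.smul_apply, smul_eq_mul, coeff_C_mul, hv i n h, mul_zero] }

/-- the image of a lattice under an isomorphism -/
def mapL {V' : Type} [AddCommGroup V'] [Module A V'] [Module A[X] V'] [IsScalarTower A A[X] V']
    (g : V ≃ₗ[A[X]] V') (E : Lat A V) : Lat A V' := fun k =>
  (E k).map ((g : V →ₗ[A[X]] V').restrictScalars A)

/-- the direct sum of two lattices -/
def prodL {V' : Type} [AddCommGroup V'] [Module A V'] [Module A[X] V'] [IsScalarTower A A[X] V']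
    (E : Lat A V) (E' : Lat A V') : Lat A (V × V') := fun k => (E k).prod (E' k)

/-- the trivial lattice `O^M` in `A[X]^M` -/
def O0 (A : Type) [CommRing A] (M : ℕ) : Lat A (Fin M → A[X]) :=
  OL (Pi.basisFun A[X] (Fin M)) fun _ => 0

variable (A V)

/-- the lattices `O(1)^d ⊕ O^(n - d)` with `d = 0, m, .., J m` -/
def TV (m J : ℕ) : Set (Lat A V) :=
  {E | ∃ (n d : ℕ) (b : Module.Basis (Fin n) A[X] V), d ≤ n ∧ m ∣ d ∧ d ≤ m * J ∧
    E = OL b fun i => if i.val < d then 1 else 0}

/-- the complex `T` -/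
def TT (m J : ℕ) : Cx (Lat A V) := Fl adjL (TV A V m J)

/-- the group `GL(V)` acts on the lattices -/
instance : MulAction (V ≃ₗ[A[X]] V) (Lat A V) where
  smul g E := mapL g E
  one_smul E := by
    funext k
    ext v
    constructor
    · rintro ⟨w, hw, rfl⟩
      exact hw
    · intro hv
      exact ⟨v, hv, rfl⟩
  mul_smul g h E := by
    funext k
    ext v
    constructor
    · rintro ⟨w, hw, rfl⟩
      exact ⟨h w, ⟨w, hw, rfl⟩, rfl⟩
    · rintro ⟨_, ⟨w, hw, rfl⟩, rfl⟩
      exact ⟨w, hw, rfl⟩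

variable {A V}

/-- the polynomials of degree `≤ k` -/
def degL (A : Type) [CommRing A] (k : ℤ) : Submodule A A[X] where
  carrier := {p | ∀ n : ℕ, k < n → p.coeff n = 0}
  zero_mem' n _ := coeff_zero n
  add_mem' hp hq n h := by rw [coeff_add, hp n h, hq n h, add_zero]
  smul_mem' c p hp n h := by rw [coeff_smul, hp n h, smul_zero]

/-- split frame vectors `(q, l)`, `l q = 1`, of type 0 for the lattice `E`: `E = (E ∩ ker l) ⊕ O q` -/
def frS (E : Lat A V) : Set (V × (V →ₗ[A[X]] A[X])) :=
  {p | p.2 p.1 = 1 ∧ p.1 ∈ E 0 ∧ ∀ k : ℤ, ∀ v ∈ E k, p.2 v ∈ degL A k}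

/-- adjacency of split frame vectors -/
def frR (p p' : V × (V →ₗ[A[X]] A[X])) : Prop := p = p' ∨ (p.2 p'.1 = 0 ∧ p'.2 p.1 = 0)

/-- the complex of the split frames of type 0 for all lattices in a list -/
def FrC (L : List (Lat A V)) : Cx (V × (V →ₗ[A[X]] A[X])) :=
  Fl frR {p | p.2 p.1 = 1 ∧ ∀ E ∈ L, p ∈ frS E}

/-- the lattice `E ⊕ O q` in `V = ker l ⊕ A[X] q` -/
def addL (q : V) (l : V →ₗ[A[X]] A[X]) (E : Lat A (LinearMap.ker l)) : Lat A V := fun k =>
  { carrier := {v | ∃ u ∈ E k, ∃ p ∈ degL A k, v = (u : V) + p • q}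
    zero_mem' := ⟨0, (E k).zero_mem, 0, (degL A k).zero_mem, by simp⟩
    add_mem' := by
      rintro _ _ ⟨u, hu, p, hp, rfl⟩ ⟨u', hu', p', hp', rfl⟩
      refine ⟨u + u', (E k).add_mem hu hu', p + p', (degL A k).add_mem hp hp', ?_⟩
      rw [Submodule.coe_add, add_smul]
      abel
    smul_mem' := by
      rintro c _ ⟨u, hu, p, hp, rfl⟩
      refine ⟨c • u, (E k).smul_mem c hu, c • p, (degL A k).smul_mem c hp, ?_⟩
      rw [smul_add, smul_assoc, Submodule.coe_smul_of_tower] }

end Lat

/-! ### interfaces (for `A = ℤ[x_1, .., x_r]` and all large `m`) -/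

section Interfaces

variable (A : Type) [CommRing A] (m : ℕ)

/-- every simplex of `T` is standard: diagonal in one basis (part R) -/
def PDiag : Prop := ∀ (V : Type) [AddCommGroup V] [Module A V] [Module A[X] V]
  [IsScalarTower A A[X] V] [Module.Free A[X] V] [Module.Finite A[X] V] (J : ℕ)
  (L : List (Lat A V)), L ∈ (TT A V m J).s →
  ∃ (n : ℕ) (b : Module.Basis (Fin n) A[X] V), ∀ E ∈ L, ∃ d, d ≤ n ∧ m ∣ d ∧ d ≤ m * J ∧
    E = OL b fun i => if i.val < d then 1 else 0

/-- every cycle bounds stably (part R) -/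
def PInf : Prop := ∀ (V : Type) [AddCommGroup V] [Module A V] [Module A[X] V]
  [IsScalarTower A A[X] V] [Module.Free A[X] V] [Module.Finite A[X] V] (J j : ℕ),
  ∀ z ∈ Ch (TT A V m J).s j, bd z = 0 → ∃ (M J' : ℕ),
    ∃ y ∈ Ch (TT A (V × (Fin M → A[X])) m J').s (j + 1),
      bd y = z.mapDomain (List.map fun E => prodL E (O0 A M))

/-- pushing chains of length `j + 1` from the degree `m (J + 1)` to the degree `m J`, `j < J` (part K, with V4) -/
def PPush : Prop := ∀ (V : Type) [AddCommGroup V] [Module A V] [Module A[X] V]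
  [IsScalarTower A A[X] V] [Module.Free A[X] V] [Module.Finite A[X] V] (J j : ℕ), j < J →
  ∀ c ∈ Ch (TT A V m (J + 1)).s (j + 1), bd c ∈ Ch (TT A V m J).s j →
    ∃ c' ∈ Ch (TT A V m J).s (j + 1), ∃ e ∈ Ch (TT A V m (J + 1)).s (j + 2), c = c' + bd e

/-- `T` is exact at all lengths `< c` for all `V` of rank at least `N` (the goal of parts U, S) -/
def PConn (J c N : ℕ) : Prop := ∀ (V : Type) [AddCommGroup V] [Module A V] [Module A[X] V]
  [IsScalarTower A A[X] V] (n : ℕ), Module.Basis (Fin n) A[X] V → N ≤ n → Conn (TT A V m J) c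

end Interfaces

end Pool.Agent.SLZ
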