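import Pool.Agent.SLZ.StF5
import Pool.Agent.SLZ.PSE

/-!
# SLZ: PSA, the first block of the stabilizer of lattices over any ring
-/

set_option autoImplicit false
set_option linter.unusedVariables false
set_option linter.unusedSectionVars false

noncomputable section

namespace Pool.Agent.SLZ

open Polynomial

section psa

variable {A : Type} [CommRing A] {ι : Type} [Fintype ι] [DecidableEq ι] {I : Type} (c : Finset ι)

/-- block triangular matrices -/
def psa_bl (M : Matrix {a // a ∈ c} {a // a ∈ c} A[X]) (U : Matrix {a // a ∈ c} {b // b ∉ c} A[X])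
    (N : Matrix {b // b ∉ c} {b // b ∉ c} A[X]) : Matrix ι ι A[X] :=
  (Matrix.fromBlocks M U 0 N).submatrix (pse_e c) (pse_e c)

lemma psa_bl_mul (M M' : Matrix {a // a ∈ c} {a // a ∈ c} A[X])
    (U U' : Matrix {a // a ∈ c} {b // b ∉ c} A[X]) (N N' : Matrix {b // b ∉ c} {b // b ∉ c} A[X]) :
    psa_bl c M U N * psa_bl c M' U' N' = psa_bl c (M * M') (M * U' + U * N') (N * N') := by
  unfold psa_bl
  rw [Matrix.submatrix_mul_equiv, Matrix.fromBlocks_multiply]
  simp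

lemma psa_bl_one : psa_bl c (1 : Matrix {a // a ∈ c} {a // a ∈ c} A[X]) 0 1 = 1 := by
  unfold psa_bl
  simp

lemma psa_bl_11 (M : Matrix {a // a ∈ c} {a // a ∈ c} A[X]) (U : Matrix {a // a ∈ c} {b // b ∉ c} A[X])
    (N : Matrix {b // b ∉ c} {b // b ∉ c} A[X]) (a b : {a // a ∈ c}) :
    psa_bl c M U N a.1 b.1 = M a b := by
  simp [psa_bl, pse_e_l]

lemma psa_bl_12 (M : Matrix {a // a ∈ c} {a // a ∈ c} A[X]) (U : Matrix {a // a ∈ c} {b // b ∉ c} A[X])
    (N : Matrix {b // b ∉ c} {b // b ∉ c} A[X]) (a : {a // a ∈ c}) (b : {b // b ∉ c}) :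
    psa_bl c M U N a.1 b.1 = U a b := by
  simp [psa_bl, pse_e_l, pse_e_r]

lemma psa_bl_21 (M : Matrix {a // a ∈ c} {a // a ∈ c} A[X]) (U : Matrix {a // a ∈ c} {b // b ∉ c} A[X])
    (N : Matrix {b // b ∉ c} {b // b ∉ c} A[X]) (a : {a // a ∈ c}) (b : {b // b ∉ c}) :
    psa_bl c M U N b.1 a.1 = 0 := by
  simp [psa_bl, pse_e_l, pse_e_r]

lemma psa_bl_22 (M : Matrix {a // a ∈ c} {a // a ∈ c} A[X]) (U : Matrix {a // a ∈ c} {b // b ∉ c} A[X])
    (N : Matrix {b // b ∉ c} {b // b ∉ c} A[X]) (a b : {b // b ∉ c}) :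
    psa_bl c M U N a.1 b.1 = N a b := by
  simp [psa_bl, pse_e_r]

/-- the first block (constant coefficients) -/
def psa_A (m : Matrix ι ι A[X]) : Matrix {a // a ∈ c} {a // a ∈ c} A :=
  Matrix.of fun a b => (m a.1 b.1).coeff 0

/-- the second block -/
def psa_U (m : Matrix ι ι A[X]) : Matrix {a // a ∈ c} {b // b ∉ c} A[X] :=
  Matrix.of fun a b => m a.1 b.1

/-- the last block -/
def psa_N (m : Matrix ι ι A[X]) : Matrix {b // b ∉ c} {b // b ∉ c} A[X] :=
  Matrix.of fun a b => m a.1 b.1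

/-- constant matrices -/
def psa_C (M : Matrix {a // a ∈ c} {a // a ∈ c} A) : Matrix {a // a ∈ c} {a // a ∈ c} A[X] :=
  M.map (C : A →+* A[X])

lemma psa_C_mul (M M' : Matrix {a // a ∈ c} {a // a ∈ c} A) :
    psa_C c (M * M') = psa_C c M * psa_C c M' := by
  unfold psa_C
  exact Matrix.map_mul

lemma psa_C_one : psa_C c (1 : Matrix {a // a ∈ c} {a // a ∈ c} A) = 1 := by
  unfold psa_C
  exact Matrix.map_one _ (map_zero _) (map_one _)

lemma psa_A_bl (M : Matrix {a // a ∈ c} {a // a ∈ c} A) (U : Matrix {a // a ∈ c} {b // b ∉ c} A[X])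
    (N : Matrix {b // b ∉ c} {b // b ∉ c} A[X]) : psa_A c (psa_bl c (psa_C c M) U N) = M := by
  ext a b
  simp [psa_A, psa_bl_11, psa_C]

lemma psa_U_bl (M : Matrix {a // a ∈ c} {a // a ∈ c} A[X]) (U : Matrix {a // a ∈ c} {b // b ∉ c} A[X])
    (N : Matrix {b // b ∉ c} {b // b ∉ c} A[X]) : psa_U c (psa_bl c M U N) = U := by
  ext a b : 2
  simp [psa_U, psa_bl_12]

lemma psa_N_bl (M : Matrix {a // a ∈ c} {a // a ∈ c} A[X]) (U : Matrix {a // a ∈ c} {b // b ∉ c} A[X])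
    (N : Matrix {b // b ∉ c} {b // b ∉ c} A[X]) : psa_N c (psa_bl c M U N) = N := by
  ext a b : 2
  simp [psa_N, psa_bl_22]

variable {c} {w : I → ι → ℤ} {a₀ : ι} (P : pse_P c w a₀) [Nonempty I]

include P

omit [Nonempty I] in
lemma psa_zero {m : Matrix ι ι A[X]} (hm : degOK A w m) (a : {a // a ∈ c}) (b : {b // b ∉ c}) :
    m b.1 a.1 = 0 := by
  obtain ⟨i, hi⟩ := P.neg b.1 b.2
  have ha := (P.memc a.1).1 a.2 i
  ext n
  rw [hm i b.1 a.1 n (by rw [ha]; omega), coeff_zero]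

lemma psa_const {m : Matrix ι ι A[X]} (hm : degOK A w m) (a b : {a // a ∈ c}) :
    m a.1 b.1 = C ((m a.1 b.1).coeff 0) := by
  obtain ⟨i⟩ := ‹Nonempty I›
  have ha := (P.memc a.1).1 a.2 i
  have hb := (P.memc b.1).1 b.2 i
  ext n
  rw [coeff_C]
  split_ifs with h
  · rw [h]
  · exact hm i a.1 b.1 n (by rw [ha, hb]; omega)

lemma psa_eq {m : Matrix ι ι A[X]} (hm : degOK A w m) :
    m = psa_bl c (psa_C c (psa_A c m)) (psa_U c m) (psa_N c m) := by
  ext1 a b
  by_cases ha : a ∈ c <;> by_cases hb : b ∈ c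
  · rw [psa_bl_11 c _ _ _ ⟨a, ha⟩ ⟨b, hb⟩]
    exact psa_const P hm ⟨a, ha⟩ ⟨b, hb⟩
  · rw [psa_bl_12 c _ _ _ ⟨a, ha⟩ ⟨b, hb⟩]
    rfl
  · rw [psa_bl_21 c _ _ _ ⟨b, hb⟩ ⟨a, ha⟩]
    exact psa_zero P hm ⟨b, hb⟩ ⟨a, ha⟩
  · rw [psa_bl_22 c _ _ _ ⟨a, ha⟩ ⟨b, hb⟩]
    rfl

lemma psa_deg (M : Matrix {a // a ∈ c} {a // a ∈ c} A) (U : Matrix {a // a ∈ c} {b // b ∉ c} A[X])
    (N : Matrix {b // b ∉ c} {b // b ∉ c} A[X])
    (hU : ∀ (i : I) (a : {a // a ∈ c}) (b : {b // b ∉ c}) (n : ℕ), w i a.1 - w i b.1 < n →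
      (U a b).coeff n = 0)
    (hN : degOK A (fun (i : I) (b : {b // b ∉ c}) => w i b.1) N) :
    degOK A w (psa_bl c (psa_C c M) U N) := by
  intro i a b n hn
  by_cases ha : a ∈ c <;> by_cases hb : b ∈ c
  · rw [psa_bl_11 c _ _ _ ⟨a, ha⟩ ⟨b, hb⟩]
    have ha' := (P.memc a).1 ha i
    have hb' := (P.memc b).1 hb i
    unfold psa_C
    rw [Matrix.map_apply, coeff_C, if_neg]
    rintro rfl
    rw [ha', hb'] at hn
    simp at hn
  · rw [psa_bl_12 c _ _ _ ⟨a, ha⟩ ⟨b, hb⟩]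
    exact hU i ⟨a, ha⟩ ⟨b, hb⟩ n hn
  · rw [psa_bl_21 c _ _ _ ⟨b, hb⟩ ⟨a, ha⟩, coeff_zero]
  · rw [psa_bl_22 c _ _ _ ⟨a, ha⟩ ⟨b, hb⟩]
    exact hN i ⟨a, ha⟩ ⟨b, hb⟩ n hn

lemma psa_mul {m m' : Matrix ι ι A[X]} (hm : degOK A w m) (hm' : degOK A w m') :
    m * m' = psa_bl c (psa_C c (psa_A c m * psa_A c m'))
      (psa_C c (psa_A c m) * psa_U c m' + psa_U c m * psa_N c m') (psa_N c m * psa_N c m') := by
  conv_lhs => rw [psa_eq P hm, psa_eq P hm']
  rw [psa_bl_mul, psa_C_mul]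

lemma psa_A_mul {m m' : Matrix ι ι A[X]} (hm : degOK A w m) (hm' : degOK A w m') :
    psa_A c (m * m') = psa_A c m * psa_A c m' := by
  rw [psa_mul P hm hm', psa_A_bl]

lemma psa_N_mul {m m' : Matrix ι ι A[X]} (hm : degOK A w m) (hm' : degOK A w m') :
    psa_N c (m * m') = psa_N c m * psa_N c m' := by
  rw [psa_mul P hm hm', psa_N_bl]

lemma psa_U_mul {m m' : Matrix ι ι A[X]} (hm : degOK A w m) (hm' : degOK A w m') :
    psa_U c (m * m') = psa_C c (psa_A c m) * psa_U c m' + psa_U c m * psa_N c m' := by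
  rw [psa_mul P hm hm', psa_U_bl]

omit P [Nonempty I] in
lemma psa_A_one : psa_A c (1 : Matrix ι ι A[X]) = 1 := by
  rw [← psa_bl_one c, ← psa_C_one, psa_A_bl]

omit P [Nonempty I] in
lemma psa_N_one : psa_N c (1 : Matrix ι ι A[X]) = 1 := by
  rw [← psa_bl_one c, psa_N_bl]

omit P [Nonempty I] in
lemma psa_U_one : psa_U c (1 : Matrix ι ι A[X]) = 0 := by
  rw [← psa_bl_one c, psa_U_bl]

omit P [Nonempty I] in
lemma psa_N_deg {m : Matrix ι ι A[X]} (hm : degOK A w m) :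
    degOK A (fun (i : I) (b : {b // b ∉ c}) => w i b.1) (psa_N c m) :=
  fun i a b n h => hm i a.1 b.1 n h

/-- the map to the last block -/
def psa_f : PS A w →* PS A (fun (i : I) (b : {b // b ∉ c}) => w i b.1) where
  toFun g := ⟨⟨psa_N c (g.1 : Matrix ι ι A[X]), psa_N c ((g.1⁻¹ : GL ι A[X]) : Matrix ι ι A[X]),
    by rw [← psa_N_mul P g.2.1 g.2.2, Units.mul_inv, psa_N_one],
    by rw [← psa_N_mul P g.2.2 g.2.1, Units.inv_mul, psa_N_one]⟩,
    psa_N_deg g.2.1, psa_N_deg g.2.2⟩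
  map_one' := by
    apply Subtype.ext
    apply Units.ext
    exact psa_N_one
  map_mul' g h := by
    apply Subtype.ext
    apply Units.ext
    exact psa_N_mul P g.2.1 h.2.1

omit P [Nonempty I] in
lemma psa_hU0 (i : I) (a : {a // a ∈ c}) (b : {b // b ∉ c}) (n : ℕ) (h : w i a.1 - w i b.1 < n) :
    ((0 : Matrix {a // a ∈ c} {b // b ∉ c} A[X]) a b).coeff n = 0 := by
  rw [Matrix.zero_apply, coeff_zero]

/-- elements of the stabilizer -/
def psa_mk (M : GL {a // a ∈ c} A) (U U' : Matrix {a // a ∈ c} {b // b ∉ c} A[X])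
    (N : PS A (fun (i : I) (b : {b // b ∉ c}) => w i b.1))
    (hU : ∀ (i : I) (a : {a // a ∈ c}) (b : {b // b ∉ c}) (n : ℕ), w i a.1 - w i b.1 < n →
      (U a b).coeff n = 0)
    (hU' : ∀ (i : I) (a : {a // a ∈ c}) (b : {b // b ∉ c}) (n : ℕ), w i a.1 - w i b.1 < n →
      (U' a b).coeff n = 0)
    (h1 : psa_C c M.1 * U' + U * N.1⁻¹.1 = 0) (h2 : psa_C c M⁻¹.1 * U + U' * N.1.1 = 0) :
    PS A w :=
  ⟨⟨psa_bl c (psa_C c M.1) U N.1.1, psa_bl c (psa_C c M⁻¹.1) U' N.1⁻¹.1,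
    by rw [psa_bl_mul, ← psa_C_mul, h1, Units.mul_inv, Units.mul_inv, psa_C_one, psa_bl_one],
    by rw [psa_bl_mul, ← psa_C_mul, h2, Units.inv_mul, Units.inv_mul, psa_C_one, psa_bl_one]⟩,
    psa_deg P _ _ _ hU N.2.1, psa_deg P _ _ _ hU' N.2.2⟩

lemma psa_f_surj : Function.Surjective (psa_f (A := A) P) := by
  intro N
  refine ⟨psa_mk P 1 0 0 N psa_hU0 psa_hU0 (by simp) (by simp), ?_⟩
  apply Subtype.ext
  apply Units.ext
  exact psa_N_bl c _ _ _

/-- the matrix of an element of the kernel -/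
def psa_mat (x : (psa_f (A := A) P).ker) : Matrix ι ι A[X] := (x.1.1 : GL ι A[X]).1

lemma psa_mat_deg (x : (psa_f (A := A) P).ker) : degOK A w (psa_mat P x) := x.1.2.1

lemma psa_mat_N (x : (psa_f (A := A) P).ker) : psa_N c (psa_mat P x) = 1 := by
  have h := x.2
  rw [MonoidHom.mem_ker] at h
  have h1 := congrArg (fun g => g.1.1) h
  exact h1

omit P [Nonempty I] in
variable (c w a₀) in
/-- positions of the coefficients of the second block -/
def psa_J : Type := {p : {b // b ∉ c} × ℕ // ∀ i, (p.2 : ℤ) ≤ w i a₀ - w i p.1.1}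

omit P in
instance psa_J_fin : Finite (psa_J c w a₀) := by
  obtain ⟨i⟩ := ‹Nonempty I›
  obtain ⟨B, hB⟩ := (Set.finite_range (fun b : ι => w i a₀ - w i b)).bddAbove
  have hB' : ∀ b, w i a₀ - w i b ≤ B := fun b => hB ⟨b, rfl⟩
  have hlt : ∀ p : psa_J c w a₀, p.1.2 < (B + 1).toNat := by
    intro p
    have h1 := p.2 i
    have h2 := hB' p.1.1.1
    omega
  refine Finite.of_injective (β := {b // b ∉ c} × Fin (B + 1).toNat)
    (fun p => (p.1.1, ⟨p.1.2, hlt p⟩)) ?_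
  intro p q h
  have h1 := congrArg Prod.fst h
  have h2 := congrArg Prod.snd h
  simp only [Fin.mk.injEq] at h1 h2
  exact Subtype.ext (Prod.ext h1 h2)

omit P in
instance psa_J_ft : Fintype (psa_J c w a₀) := Fintype.ofFinite _

omit P [Nonempty I] in
instance psa_J_de : DecidableEq (psa_J c w a₀) := Classical.decEq _

omit P [Nonempty I] in
/-- the coefficients of the second block -/
def psa_co (U : Matrix {a // a ∈ c} {b // b ∉ c} A[X]) :
    Matrix {a // a ∈ c} (psa_J c w a₀) A :=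
  Matrix.of fun a j => (U a j.1.1).coeff j.1.2

/-- the matrix over `A` -/
def psa_km (x : (psa_f (A := A) P).ker) :
    Matrix ({a // a ∈ c} ⊕ psa_J c w a₀) ({a // a ∈ c} ⊕ psa_J c w a₀) A :=
  Matrix.fromBlocks (psa_A c (psa_mat P x)) (psa_co (psa_U c (psa_mat P x))) 0 1

omit P [Nonempty I] in
lemma psa_co_add (U V : Matrix {a // a ∈ c} {b // b ∉ c} A[X]) :
    psa_co (w := w) (a₀ := a₀) (U + V) = psa_co U + psa_co V := by
  ext a j
  simp [psa_co]

omit P [Nonempty I] in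
lemma psa_co_C (M : Matrix {a // a ∈ c} {a // a ∈ c} A)
    (U : Matrix {a // a ∈ c} {b // b ∉ c} A[X]) :
    psa_co (w := w) (a₀ := a₀) (psa_C c M * U) = M * psa_co U := by
  ext a j
  simp only [psa_co, psa_C, Matrix.of_apply, Matrix.mul_apply, finsetSum_coeff, Matrix.map_apply]
  refine Finset.sum_congr rfl fun b _ => ?_
  exact coeff_C_mul _

/-- the map of the kernel to matrices over `A` -/
def psa_kh : (psa_f (A := A) P).ker →*
    Matrix ({a // a ∈ c} ⊕ psa_J c w a₀) ({a // a ∈ c} ⊕ psa_J c w a₀) A where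
  toFun x := psa_km P x
  map_one' := by
    unfold psa_km
    have h : psa_mat P (1 : (psa_f (A := A) P).ker) = 1 := rfl
    rw [h, psa_A_one, psa_U_one]
    have h2 : psa_co (w := w) (a₀ := a₀) (0 : Matrix {a // a ∈ c} {b // b ∉ c} A[X]) = 0 := by
      ext a j
      simp [psa_co]
    rw [h2, Matrix.fromBlocks_one]
  map_mul' x y := by
    unfold psa_km
    have h : psa_mat P (x * y) = psa_mat P x * psa_mat P y := rfl
    rw [h, psa_A_mul P (psa_mat_deg P x) (psa_mat_deg P y),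
      psa_U_mul P (psa_mat_deg P x) (psa_mat_deg P y), psa_mat_N, Matrix.mul_one, psa_co_add,
      psa_co_C, Matrix.fromBlocks_multiply]
    simp

/-- the map of the kernel to the automorphisms -/
def psa_kl : (psa_f (A := A) P).ker →*
    ((({a // a ∈ c} ⊕ psa_J c w a₀) → A) ≃ₗ[A] (({a // a ∈ c} ⊕ psa_J c w a₀) → A)) :=
  (Matrix.GeneralLinearGroup.toLin.trans
    (LinearMap.GeneralLinearGroup.generalLinearEquiv A _)).toMonoidHom.comp (psa_kh P).toHomUnits

lemma psa_kl_apply (x : (psa_f (A := A) P).ker) (v : ({a // a ∈ c} ⊕ psa_J c w a₀) → A) :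
    psa_kl P x v = (psa_km P x).mulVec v := rfl

lemma psa_kl_inj : Function.Injective (psa_kl (A := A) P) := by
  intro x y h
  have h0 : psa_km P x = psa_km P y := by
    have h1 : (psa_kh P).toHomUnits x = (psa_kh P).toHomUnits y :=
      (MulEquiv.injective (Matrix.GeneralLinearGroup.toLin.trans
        (LinearMap.GeneralLinearGroup.generalLinearEquiv A
          (({a // a ∈ c} ⊕ psa_J c w a₀) → A)))) h
    exact congrArg (fun u => u.1) h1
  unfold psa_km at h0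
  rw [Matrix.fromBlocks_inj] at h0
  obtain ⟨hA, hU, _, _⟩ := h0
  have hU' : psa_U c (psa_mat P x) = psa_U c (psa_mat P y) := by
    ext a b n
    by_cases hn : ∀ i, (n : ℤ) ≤ w i a₀ - w i b.1
    · exact congrFun (congrFun hU a) ⟨(b, n), hn⟩
    · push Not at hn
      obtain ⟨i, hi⟩ := hn
      have ha := (P.memc a.1).1 a.2 i
      have h1 := psa_mat_deg P x i a.1 b.1 n (by rw [ha]; exact hi)
      have h2 := psa_mat_deg P y i a.1 b.1 n (by rw [ha]; exact hi)
      change (psa_mat P x a.1 b.1).coeff n = (psa_mat P y a.1 b.1).coeff n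
      rw [h1, h2]
  apply Subtype.ext
  apply Subtype.ext
  apply Units.ext
  change psa_mat P x = psa_mat P y
  rw [psa_eq P (psa_mat_deg P x), psa_eq P (psa_mat_deg P y), hU', hA, psa_mat_N, psa_mat_N]

omit P in
/-- the second block with given coefficients -/
def psa_po (Q : Matrix {a // a ∈ c} (psa_J c w a₀) A) :
    Matrix {a // a ∈ c} {b // b ∉ c} A[X] :=
  Matrix.of fun a b => ∑ j : psa_J c w a₀, if j.1.1 = b then monomial j.1.2 (Q a j) else 0

omit P in
lemma psa_po_coeff (Q : Matrix {a // a ∈ c} (psa_J c w a₀) A) (a : {a // a ∈ c})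
    (b : {b // b ∉ c}) (n : ℕ) : (psa_po Q a b).coeff n =
      ∑ j : psa_J c w a₀, if j.1 = (b, n) then Q a j else 0 := by
  unfold psa_po
  rw [Matrix.of_apply, finsetSum_coeff]
  refine Finset.sum_congr rfl fun j _ => ?_
  by_cases h : j.1.1 = b
  · rw [if_pos h, coeff_monomial]
    by_cases h2 : j.1.2 = n
    · rw [if_pos h2, if_pos (Prod.ext h h2)]
    · rw [if_neg h2, if_neg]
      intro h3
      exact h2 (by rw [h3])
  · rw [if_neg h, if_neg, coeff_zero]
    intro h3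
    exact h (by rw [h3])

omit P in
lemma psa_co_po (Q : Matrix {a // a ∈ c} (psa_J c w a₀) A) : psa_co (psa_po Q) = Q := by
  ext a j
  change (psa_po Q a j.1.1).coeff j.1.2 = _
  rw [psa_po_coeff, Finset.sum_eq_single j]
  · rw [if_pos rfl]
  · intro j' _ hne
    rw [if_neg]
    intro h
    exact hne (Subtype.ext h)
  · intro h
    exact absurd (Finset.mem_univ _) h

omit P in
lemma psa_po_zero (Q : Matrix {a // a ∈ c} (psa_J c w a₀) A) (i : I) (a : {a // a ∈ c})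
    (b : {b // b ∉ c}) (n : ℕ) (h : w i a₀ - w i b.1 < n) : (psa_po Q a b).coeff n = 0 := by
  rw [psa_po_coeff]
  refine Finset.sum_eq_zero fun j _ => ?_
  rw [if_neg]
  intro h1
  have h2 := j.2 i
  rw [h1] at h2
  simp only at h2
  omega

lemma psa_range : ∀ g : ((({a // a ∈ c} ⊕ psa_J c w a₀) → A) ≃ₗ[A]
    (({a // a ∈ c} ⊕ psa_J c w a₀) → A)),
    (∀ (j : psa_J c w a₀) (v : ({a // a ∈ c} ⊕ psa_J c w a₀) → A),
      g v (Sum.inr j) = v (Sum.inr j)) → g ∈ (psa_kl (A := A) P).range := by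
  intro g hg
  let E := Matrix.GeneralLinearGroup.toLin.trans
    (LinearMap.GeneralLinearGroup.generalLinearEquiv A (({a // a ∈ c} ⊕ psa_J c w a₀) → A))
  obtain ⟨G, hG⟩ : ∃ G, E G = g := ⟨E.symm g, E.apply_symm_apply g⟩
  have hGv : ∀ v, g v = (G.1).mulVec v := by
    intro v
    rw [← hG]
    rfl
  have hGv' : ∀ v, (G⁻¹.1).mulVec v = g.symm v := by
    intro v
    rw [LinearEquiv.eq_symm_apply, hGv, Matrix.mulVec_mulVec, Units.mul_inv, Matrix.one_mulVec]
  have hg' : ∀ (j : psa_J c w a₀) (v : ({a // a ∈ c} ⊕ psa_J c w a₀) → A),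
      g.symm v (Sum.inr j) = v (Sum.inr j) := by
    intro j v
    have := hg j (g.symm v)
    rw [LinearEquiv.apply_symm_apply] at this
    exact this.symm
  have hrow : ∀ (m : Matrix ({a // a ∈ c} ⊕ psa_J c w a₀) ({a // a ∈ c} ⊕ psa_J c w a₀) A),
      (∀ (j : psa_J c w a₀) (v : ({a // a ∈ c} ⊕ psa_J c w a₀) → A),
        m.mulVec v (Sum.inr j) = v (Sum.inr j)) →
      m = Matrix.fromBlocks m.toBlocks₁₁ m.toBlocks₁₂ 0 1 := by
    intro m hm
    have hent : ∀ (j : psa_J c w a₀) (k : {a // a ∈ c} ⊕ psa_J c w a₀),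
        m (Sum.inr j) k = (1 : Matrix ({a // a ∈ c} ⊕ psa_J c w a₀)
          ({a // a ∈ c} ⊕ psa_J c w a₀) A) (Sum.inr j) k := by
      intro j k
      have h1 := hm j (Pi.single k 1)
      rw [Matrix.mulVec_single_one] at h1
      rw [Matrix.one_apply]
      change m (Sum.inr j) k = _ at h1
      rw [h1, Pi.single_apply]
    ext p q
    rcases p with a | j
    · rcases q with a' | j'
      · rfl
      · rfl
    · rcases q with a' | j'
      · rw [hent, Matrix.fromBlocks_apply₂₁, Matrix.zero_apply, Matrix.one_apply,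
          if_neg (by simp)]
      · rw [hent, Matrix.fromBlocks_apply₂₂, Matrix.one_apply, Matrix.one_apply]
        simp
  have h1 := hrow G.1 (fun j v => by rw [← hGv]; exact hg j v)
  have h2 := hrow G⁻¹.1 (fun j v => by rw [hGv']; exact hg' j v)
  set P1 := (G.1).toBlocks₁₁ with hP1
  set Q1 := (G.1).toBlocks₁₂ with hQ1
  set P2 := (G⁻¹.1).toBlocks₁₁ with hP2
  set Q2 := (G⁻¹.1).toBlocks₁₂ with hQ2
  have h3 : P1 * P2 = 1 := by
    have h := Units.mul_inv G
    rw [h1, h2, Matrix.fromBlocks_multiply, ← Matrix.fromBlocks_one, Matrix.fromBlocks_inj] at h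
    have := h.1
    simpa using this
  have h4 : P2 * P1 = 1 := by
    have h := Units.inv_mul G
    rw [h1, h2, Matrix.fromBlocks_multiply, ← Matrix.fromBlocks_one, Matrix.fromBlocks_inj] at h
    have := h.1
    simpa using this
  let M : GL {a // a ∈ c} A := ⟨P1, P2, h3, h4⟩
  let U := psa_po Q1
  have hU : ∀ (i : I) (a : {a // a ∈ c}) (b : {b // b ∉ c}) (n : ℕ), w i a.1 - w i b.1 < n →
      (U a b).coeff n = 0 := by
    intro i a b n h
    rw [(P.memc a.1).1 a.2 i] at h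
    exact psa_po_zero Q1 i a b n h
  have hU' : ∀ (i : I) (a : {a // a ∈ c}) (b : {b // b ∉ c}) (n : ℕ), w i a.1 - w i b.1 < n →
      ((-(psa_C c P2 * U)) a b).coeff n = 0 := by
    intro i a b n h
    rw [(P.memc a.1).1 a.2 i] at h
    rw [Matrix.neg_apply, coeff_neg, Matrix.mul_apply, finsetSum_coeff, neg_eq_zero]
    refine Finset.sum_eq_zero fun a' _ => ?_
    unfold psa_C
    rw [Matrix.map_apply, coeff_C_mul, psa_po_zero Q1 i a' b n h, mul_zero]
  let x : PS A w := psa_mk P M U (-(psa_C c P2 * U)) 1 hU hU'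
    (by
      change psa_C c P1 * -(psa_C c P2 * U) + U * ((1 : GL {b // b ∉ c} A[X])⁻¹).1 = 0
      rw [inv_one, Units.val_one, Matrix.mul_one, Matrix.mul_neg, ← Matrix.mul_assoc,
        ← psa_C_mul, h3, psa_C_one, Matrix.one_mul, neg_add_cancel])
    (by
      change psa_C c P2 * U + -(psa_C c P2 * U) * (1 : GL {b // b ∉ c} A[X]).1 = 0
      rw [Units.val_one, Matrix.mul_one, add_neg_cancel])
  have hx : x ∈ (psa_f (A := A) P).ker := by
    rw [MonoidHom.mem_ker]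
    apply Subtype.ext
    apply Units.ext
    exact psa_N_bl c _ _ _
  refine ⟨⟨x, hx⟩, ?_⟩
  apply LinearEquiv.ext
  intro v
  rw [psa_kl_apply, hGv]
  congr 1
  unfold psa_km
  have hm : psa_mat P ⟨x, hx⟩ = psa_bl c (psa_C c P1) U 1 := rfl
  rw [hm, psa_A_bl, psa_U_bl]
  change Matrix.fromBlocks P1 (psa_co (psa_po Q1)) 0 1 = _
  rw [psa_co_po, ← h1]

end psa

/-- **PSA** -/
theorem thm_PSA : St_PSA := by
  intro A ι I _ _ _ _ _ _ w
  obtain ⟨c, a₀, hc, P⟩ := pse_exP w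
  refine ⟨c, ⟨a₀, hc, P.memc⟩, psa_f P, psa_f_surj P, Fintype.card (psa_J c w a₀),
    ({a // a ∈ c} ⊕ psa_J c w a₀) → A, inferInstance, inferInstance, ∅,
    Set.range (fun j : psa_J c w a₀ => (LinearMap.proj (Sum.inr j) :
      (({a // a ∈ c} ⊕ psa_J c w a₀) → A) →ₗ[A] A)), ?_, ?_⟩
  · let e1 : {a // a ∈ c} ≃ Fin c.card := Fintype.equivFinOfCardEq (by simp)
    let e2 : psa_J c w a₀ ≃ Fin (Fintype.card (psa_J c w a₀)) := Fintype.equivFin _
    let e0 : {a // a ∈ c} ⊕ psa_J c w a₀ ≃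
        Fin 0 ⊕ (Fin c.card ⊕ Fin (Fintype.card (psa_J c w a₀))) :=
      (Equiv.sumCongr e1 e2).trans (Equiv.emptySum (Fin 0) _).symm
    refine ⟨(Pi.basisFun A ({a // a ∈ c} ⊕ psa_J c w a₀)).reindex e0, ?_, ?_⟩
    · rw [Set.range_eq_empty]
    · congr 1
      ext l
      constructor
      · rintro ⟨j, rfl⟩
        refine ⟨e2 j, ?_⟩
        apply LinearMap.ext
        intro v
        have h : e0.symm (Sum.inr (Sum.inr (e2 j))) = Sum.inr j := by
          rw [Equiv.symm_apply_eq]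
          rfl
        simp only [Module.Basis.coord_apply, Module.Basis.repr_reindex_apply, h]
        rfl
      · rintro ⟨i, rfl⟩
        refine ⟨e2.symm i, ?_⟩
        apply LinearMap.ext
        intro v
        have h : e0.symm (Sum.inr (Sum.inr i)) = Sum.inr (e2.symm i) := by
          rw [Equiv.symm_apply_eq]
          change _ = Sum.inr (Sum.inr (e2 (e2.symm i)))
          rw [Equiv.apply_symm_apply]
        simp only [Module.Basis.coord_apply, Module.Basis.repr_reindex_apply, h]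
        rfl
  · have hR : (psa_kl (A := A) P).range = FixG ∅
        (Set.range (fun j : psa_J c w a₀ => (LinearMap.proj (Sum.inr j) :
          (({a // a ∈ c} ⊕ psa_J c w a₀) → A) →ₗ[A] A))) := by
      ext g
      constructor
      · rintro ⟨x, rfl⟩
        refine ⟨fun v hv => absurd hv (by simp), ?_⟩
        rintro l ⟨j, rfl⟩ v
        change psa_kl P x v (Sum.inr j) = v (Sum.inr j)
        rw [psa_kl_apply]
        unfold psa_km
        rw [Matrix.fromBlocks_mulVec]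
        simp
      · intro hg
        exact psa_range P g (fun j v => hg.2 _ ⟨j, rfl⟩ v)
    exact ⟨(MonoidHom.ofInjective (psa_kl_inj P)).trans (MulEquiv.subgroupCongr hR)⟩

end Pool.Agent.SLZ
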