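import Pool.Agent.SLZ.BA
import Pool.Agent.SLZ.BA0
import Pool.Agent.SLZ.BA1
import Pool.Agent.SLZ.BA2
import Pool.Agent.SLZ.BA3
import Pool.Agent.SLZ.BA4
import Pool.Agent.SLZ.BC
import Pool.Agent.SLZ.PSA
import Pool.Agent.SLZ.Asm

/-!
# SLZ, part F5 without hypotheses (architect helper38)
-/

set_option autoImplicit false

noncomputable section

namespace Pool.Agent.SLZ

open Polynomial

theorem all_BA4 : St_BA4 := thm_BA4 thm_BA0 thm_BA2 thm_BA3 all_FBL all_FM1 all_FSub

theorem all_BA : St_BA := thm_BA thm_BA0 thm_BA1 all_BA4 all_FSub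

theorem all_BC : St_BC := thm_BC thm_PSA all_FExt all_FSub

/-- **F5**: the block groups over a ring `A` with `StabFP A`, `KerFree`, `AffConn`: they are of type `FP_k`, the bound
does not depend on the number of blocks and on their degrees. -/
theorem F5_ab (A : Type) [CommRing A] (s : ℕ) (hK : KerFree A s) (hC : AffConn A s)
    (hG : StabFP A) (k : ℕ) : ∃ C : ℕ, ∀ n ≥ C, ∀ a b : ℕ, FPab A k a n b :=
  all_BA A s hK hC hG k

theorem F5_all (A : Type) [CommRing A] (s : ℕ) (hK : KerFree A s) (hC : AffConn A s)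
    (hG : StabFP A) (k : ℕ) : ∃ C : ℕ, ∀ (ι I : Type) [Fintype ι] [DecidableEq ι] [Finite I]
    [Nonempty I] (w : I → ι → ℤ), (∀ a : ι, C ≤ {b | ∀ i, w i b = w i a}.ncard) →
    FPG k (PS A w) := by
  obtain ⟨C, hC⟩ := F5_ab A s hK hC hG k
  exact ⟨C, fun ι I _ _ _ _ w hw => all_BC A k C hC ι I w hw⟩

end Pool.Agent.SLZ
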