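import Pool.Agent.SLZ.StFF

/-!
# SLZ, FFM: polynomials with coefficients in a module (helper30)
-/

set_option autoImplicit false
set_option linter.unusedVariables false

noncomputable section

namespace Pool.Agent.SLZ

open Function Polynomial

section

variable {R : Type} [CommRing R] {M N P : Type} [AddCommGroup M] [Module R M] [AddCommGroup N]
  [Module R N] [AddCommGroup P] [Module R P]

/-- the functor `PolynomialModule R` -/
def ffm_map (f : M →ₗ[R] N) : PolynomialModule R M →ₗ[R[X]] PolynomialModule R N where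
  toFun q := PolynomialModule.map R f q
  map_add' a b := map_add _ a b
  map_smul' p q := by
    rw [PolynomialModule.map_smul, RingHom.id_apply]
    congr 1
    have h : (algebraMap R R) = RingHom.id R := rfl
    rw [h, Polynomial.map_id]

theorem ffm_coeff (f : M →ₗ[R] N) (q : PolynomialModule R M) (n : ℕ) :
    (ffm_map f q).coeff n = f (q.coeff n) := rfl

theorem ffm_ext {a b : PolynomialModule R M} (h : ∀ n, a.coeff n = b.coeff n) : a = b := by
  apply PolynomialModule.coeff_injective
  ext n
  exact h n

theorem ffm_comp (g : N →ₗ[R] P) (f : M →ₗ[R] N) (q : PolynomialModule R M) :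
    ffm_map g (ffm_map f q) = ffm_map (g ∘ₗ f) q := by
  apply ffm_ext
  intro n
  rw [ffm_coeff, ffm_coeff, ffm_coeff]
  rfl

theorem ffm_id (q : PolynomialModule R M) : ffm_map (LinearMap.id : M →ₗ[R] M) q = q := by
  apply ffm_ext
  intro n
  rw [ffm_coeff]
  rfl

theorem ffm_zero (q : PolynomialModule R M) : ffm_map (0 : M →ₗ[R] N) q = 0 := by
  apply ffm_ext
  intro n
  rw [ffm_coeff]
  rfl

theorem ffm_add (f g : M →ₗ[R] N) (q : PolynomialModule R M) :
    ffm_map (f + g) q = ffm_map f q + ffm_map g q := by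
  apply ffm_ext
  intro n
  rw [ffm_coeff, PolynomialModule.coeff_add, Finsupp.add_apply, ffm_coeff, ffm_coeff]
  rfl

theorem ffm_sum {ι : Type} (s : Finset ι) (f : ι → M →ₗ[R] N) (q : PolynomialModule R M) :
    ffm_map (∑ i ∈ s, f i) q = ∑ i ∈ s, ffm_map (f i) q := by
  classical
  induction s using Finset.induction_on with
  | empty => rw [Finset.sum_empty, Finset.sum_empty, ffm_zero]
  | insert a s ha ih => rw [Finset.sum_insert ha, Finset.sum_insert ha, ffm_add, ih]

/-- isomorphisms -/
def ffm_equiv (e : M ≃ₗ[R] N) : PolynomialModule R M ≃ₗ[R[X]] PolynomialModule R N :=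
  LinearEquiv.ofLinearMap (ffm_map e.toLinearMap) (ffm_map e.symm.toLinearMap)
    (by
      ext1 q
      rw [LinearMap.comp_apply, ffm_comp, LinearEquiv.comp_symm, ffm_id]
      rfl)
    (by
      ext1 q
      rw [LinearMap.comp_apply, ffm_comp, LinearEquiv.symm_comp, ffm_id]
      rfl)

/-- products -/
def ffm_prod : PolynomialModule R (M × N) ≃ₗ[R[X]] (PolynomialModule R M × PolynomialModule R N) :=
  LinearEquiv.ofLinearMap ((ffm_map (LinearMap.fst R M N)).prod (ffm_map (LinearMap.snd R M N)))
    ((ffm_map (LinearMap.inl R M N)).coprod (ffm_map (LinearMap.inr R M N)))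
    (by
      apply LinearMap.ext
      rintro ⟨a, b⟩
      change (ffm_map (LinearMap.fst R M N) (ffm_map (LinearMap.inl R M N) a +
        ffm_map (LinearMap.inr R M N) b), ffm_map (LinearMap.snd R M N)
        (ffm_map (LinearMap.inl R M N) a + ffm_map (LinearMap.inr R M N) b)) = (a, b)
      rw [map_add, map_add, ffm_comp, ffm_comp, ffm_comp, ffm_comp, LinearMap.fst_comp_inl,
        LinearMap.fst_comp_inr, LinearMap.snd_comp_inl, LinearMap.snd_comp_inr, ffm_id, ffm_zero,
        ffm_zero, ffm_id, add_zero, zero_add])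
    (by
      apply LinearMap.ext
      intro q
      change ffm_map (LinearMap.inl R M N) (ffm_map (LinearMap.fst R M N) q) +
        ffm_map (LinearMap.inr R M N) (ffm_map (LinearMap.snd R M N) q) = q
      rw [ffm_comp, ffm_comp, ← ffm_add]
      have h : LinearMap.inl R M N ∘ₗ LinearMap.fst R M N +
          LinearMap.inr R M N ∘ₗ LinearMap.snd R M N = LinearMap.id := by
        ext x <;> simp
      rw [h, ffm_id])

/-- free modules -/
def ffm_pi (n : ℕ) : PolynomialModule R (Fin n → R) ≃ₗ[R[X]] (Fin n → R[X]) :=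
  LinearEquiv.ofLinearMap
    (LinearMap.pi fun i => (PolynomialModule.equivPolynomialSelf (R := R)).toLinearMap ∘ₗ
      ffm_map (LinearMap.proj i))
    (∑ i, ffm_map (LinearMap.single R (fun _ : Fin n => R) i) ∘ₗ
      (PolynomialModule.equivPolynomialSelf (R := R)).symm.toLinearMap ∘ₗ LinearMap.proj i)
    (by
      apply LinearMap.ext
      intro p
      funext j
      rw [LinearMap.comp_apply, LinearMap.sum_apply, LinearMap.pi_apply, LinearMap.comp_apply,
        map_sum, Finset.sum_eq_single j]
      · rw [LinearMap.comp_apply, LinearMap.comp_apply, ffm_comp]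
        have h : (LinearMap.proj j : (Fin n → R) →ₗ[R] R) ∘ₗ
            LinearMap.single R (fun _ : Fin n => R) j = LinearMap.id := by
          ext
          simp
        rw [h, ffm_id]
        simp
      · intro i _ hi
        rw [LinearMap.comp_apply, LinearMap.comp_apply, ffm_comp]
        have h : (LinearMap.proj j : (Fin n → R) →ₗ[R] R) ∘ₗ
            LinearMap.single R (fun _ : Fin n => R) i = 0 := by
          ext
          simp [Pi.single_eq_of_ne hi.symm]
        rw [h, ffm_zero]
      · intro h
        exact absurd (Finset.mem_univ j) h)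
    (by
      apply LinearMap.ext
      intro q
      rw [LinearMap.comp_apply, LinearMap.sum_apply]
      have h1 : ∀ i : Fin n, (ffm_map (LinearMap.single R (fun _ : Fin n => R) i) ∘ₗ
          (PolynomialModule.equivPolynomialSelf (R := R)).symm.toLinearMap ∘ₗ LinearMap.proj i)
          ((LinearMap.pi fun i => (PolynomialModule.equivPolynomialSelf (R := R)).toLinearMap ∘ₗ
            ffm_map (LinearMap.proj i)) q) =
          ffm_map (LinearMap.single R (fun _ : Fin n => R) i ∘ₗ LinearMap.proj i) q := by
        intro i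
        change ffm_map (LinearMap.single R (fun _ : Fin n => R) i)
          ((PolynomialModule.equivPolynomialSelf (R := R)).symm
            ((PolynomialModule.equivPolynomialSelf (R := R)) (ffm_map (LinearMap.proj i) q))) = _
        rw [LinearEquiv.symm_apply_apply, ffm_comp]
      rw [Finset.sum_congr rfl (fun i _ => h1 i), ← ffm_sum]
      have h : ∑ i, (LinearMap.single R (fun _ : Fin n => R) i ∘ₗ
          (LinearMap.proj i : (Fin n → R) →ₗ[R] R)) = LinearMap.id := by
        apply LinearMap.ext
        intro x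
        rw [LinearMap.sum_apply]
        funext j
        simp
      rw [h, ffm_id]
      rfl)

theorem ffm_surj (f : M →ₗ[R] N) (hf : Surjective f) : Surjective (ffm_map f) := by
  classical
  intro q
  refine ⟨PolynomialModule.ofCoeff R (Finsupp.onFinset q.coeff.support
    (fun n => if q.coeff n = 0 then 0 else (hf (q.coeff n)).choose) ?_), ?_⟩
  · intro n hn
    rw [Finsupp.mem_support_iff]
    intro h0
    apply hn
    rw [if_pos h0]
  · apply ffm_ext
    intro n
    rw [ffm_coeff, PolynomialModule.coeff_ofCoeff, Finsupp.onFinset_apply]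
    split_ifs with h
    · rw [map_zero, h]
    · exact (hf (q.coeff n)).choose_spec

theorem ffm_range_ker (f : M →ₗ[R] N) :
    LinearMap.range (ffm_map (LinearMap.ker f).subtype) = LinearMap.ker (ffm_map f) := by
  apply le_antisymm
  · rintro _ ⟨q, rfl⟩
    rw [LinearMap.mem_ker, ffm_comp, LinearMap.comp_ker_subtype, ffm_zero]
  · intro q hq
    have h : ∀ n, q.coeff n ∈ LinearMap.ker f := by
      intro n
      rw [LinearMap.mem_ker, ← ffm_coeff, LinearMap.mem_ker.1 hq]
      rfl
    refine ⟨PolynomialModule.ofCoeff R (Finsupp.onFinset q.coeff.support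
      (fun n => (⟨q.coeff n, h n⟩ : LinearMap.ker f)) ?_), ?_⟩
    · intro n hn
      rw [Finsupp.mem_support_iff]
      intro h0
      apply hn
      exact Subtype.ext h0
    · apply ffm_ext
      intro n
      rw [ffm_coeff, PolynomialModule.coeff_ofCoeff, Finsupp.onFinset_apply]
      rfl

theorem ffm_inj (f : M →ₗ[R] N) (hf : Injective f) : Injective (ffm_map f) := by
  intro a b hab
  apply ffm_ext
  intro n
  apply hf
  rw [← ffm_coeff, ← ffm_coeff, hab]

/-- kernels -/
def ffm_ker (f : M →ₗ[R] N) :
    PolynomialModule R (LinearMap.ker f) ≃ₗ[R[X]] LinearMap.ker (ffm_map f) :=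
  (LinearEquiv.ofInjective (ffm_map (LinearMap.ker f).subtype)
    (ffm_inj _ Subtype.val_injective)).trans (LinearEquiv.ofEq _ _ (ffm_range_ker f))

end

/-- invariance under isomorphisms -/
theorem ffm_iso (R : Type) [CommRing R] (d : ℕ) : ∀ (M N : Type) [AddCommGroup M] [Module R M]
    [AddCommGroup N] [Module R N], (M ≃ₗ[R] N) → FF R d M → FF R d N := by
  cases d with
  | zero =>
    rintro M N _ _ _ _ e ⟨m, n, ⟨h⟩⟩
    exact ⟨m, n, ⟨(LinearEquiv.prodCongr e.symm (LinearEquiv.refl R _)).trans h⟩⟩
  | succ d =>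
    rintro M N _ _ _ _ e ⟨n, f, hf, hk⟩
    refine ⟨n, e.toLinearMap ∘ₗ f, e.surjective.comp hf, ?_⟩
    have h : LinearMap.ker (e.toLinearMap ∘ₗ f) = LinearMap.ker f := LinearEquiv.ker_comp e f
    rw [h]
    exact hk

/-- **FFM** -/
theorem thm_FFM : St_FFM := by
  intro R _ d
  induction d with
  | zero =>
    rintro M _ _ ⟨m, n, ⟨h⟩⟩
    refine ⟨m, n, ⟨?_⟩⟩
    exact (((LinearEquiv.prodCongr (LinearEquiv.refl R[X] _) (ffm_pi m).symm).trans
      ffm_prod.symm).trans (ffm_equiv h)).trans (ffm_pi n)
  | succ d ih =>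
    rintro M _ _ ⟨n, f, hf, hk⟩
    refine ⟨n, ffm_map f ∘ₗ (ffm_pi n).symm.toLinearMap,
      (ffm_surj f hf).comp (ffm_pi n).symm.surjective, ?_⟩
    have h : LinearMap.ker (ffm_map f ∘ₗ (ffm_pi n).symm.toLinearMap) =
        (LinearMap.ker (ffm_map f)).map (ffm_pi n).toLinearMap := by
      ext x
      rw [LinearMap.mem_ker, LinearMap.comp_apply, Submodule.mem_map]
      constructor
      · intro hx
        exact ⟨(ffm_pi n).symm x, hx, (ffm_pi n).apply_symm_apply x⟩
      · rintro ⟨y, hy, rfl⟩
        have h2 : (ffm_pi n).symm.toLinearMap ((ffm_pi n).toLinearMap y) = y :=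
          (ffm_pi n).symm_apply_apply y
        rw [h2]
        exact hy
    have e : PolynomialModule R (LinearMap.ker f) ≃ₗ[R[X]]
        LinearMap.ker (ffm_map f ∘ₗ (ffm_pi n).symm.toLinearMap) :=
      ((ffm_ker f).trans ((ffm_pi n).submoduleMap (LinearMap.ker (ffm_map f)))).trans
        (LinearEquiv.ofEq _ _ h.symm)
    exact ffm_iso R[X] d _ _ e (ih (LinearMap.ker f) hk)

end Pool.Agent.SLZ
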