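import Pool.Agent.SLZ.StFF

/-!
# SLZ / FFQ: modules which are their own second syzygy (module by helper13)
-/

set_option autoImplicit false
set_option linter.unusedVariables false

noncomputable section

namespace Pool.Agent.SLZ

open Function Polynomial

theorem thm_FFQ (hP : St_FFP) : St_FFQ := by
  intro R _ C _ _ a b d i h g hi hih hhg hg
  obtain ⟨p1, p2, p3, -, p5, -⟩ := hP R
  let h' : (Fin a → R) →ₗ[R] LinearMap.ker g :=
    LinearMap.codRestrict (LinearMap.ker g) h fun x => by
      rw [← hhg]; exact LinearMap.mem_range_self h x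
  have hs : Surjective h' := by
    rintro ⟨z, hz⟩
    rw [← hhg] at hz
    obtain ⟨x, hx⟩ := hz
    exact ⟨x, Subtype.ext hx⟩
  have hk : LinearMap.range i = LinearMap.ker h' := by
    rw [hih]
    exact (LinearMap.ker_codRestrict _ _ _).symm
  have e : LinearMap.ker h' ≃ₗ[R] C :=
    (LinearEquiv.ofEq _ _ hk.symm).trans (LinearEquiv.ofInjective i hi).symm
  induction d using Nat.strong_induction_on with
  | _ d ih =>
    intro hC
    match d, ih, hC with
    | 0, _, hC => exact hC
    | 1, _, hC =>
      have hZ : FF R 0 (LinearMap.ker g) := p5 0 b C g hC hg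
      have hZ1 : FF R 1 (LinearMap.ker g) := p2 0 _ hZ
      have hB : FF R 0 (Fin a → R) :=
        ⟨0, a, ⟨(LinearEquiv.prodUnique : ((Fin a → R) × (Fin 0 → R)) ≃ₗ[R] (Fin a → R))⟩⟩
      exact (p3 0 C (Fin a → R) (LinearMap.ker g) i h' hi hs hk).2.2 hB hZ1
    | d + 2, ih, hC =>
      have hZ : FF R (d + 1) (LinearMap.ker g) := p5 (d + 1) b C g hC hg
      have hK : FF R d (LinearMap.ker h') := p5 d a _ h' hZ hs
      exact ih d (by omega) (p1 d _ _ e hK)

end Pool.Agent.SLZ
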