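import Pool.Agent.SLZ.StFF

/-!
# SLZ: module FFR, finite free resolutions over `ℤ[x_1, .., x_r]`
-/

set_option autoImplicit false

noncomputable section

namespace Pool.Agent.SLZ

open Function Polynomial

/-- componentwise application of a ring isomorphism -/
def ffr_E {S R : Type} [Ring S] [Ring R] (e : S ≃+* R) (n : ℕ) : (Fin n → S) ≃+ (Fin n → R) where
  toFun v i := e (v i)
  invFun v i := e.symm (v i)
  left_inv v := by funext i; simp
  right_inv v := by funext i; simp
  map_add' v w := by funext i; simp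

theorem ffr_E_smul {S R : Type} [Ring S] [Ring R] (e : S ≃+* R) (n : ℕ) (s : S) (v : Fin n → S) :
    ffr_E e n (s • v) = e s • ffr_E e n v := by
  funext i
  simp [ffr_E]

/-- a semilinear isomorphism transports `FF` -/
theorem ffr_transport {S R : Type} [Ring S] [Ring R] (e : S ≃+* R) :
    ∀ (d : ℕ) (M N : Type) [AddCommGroup M] [Module S M] [AddCommGroup N] [Module R N]
      (φ : M ≃+ N), (∀ (s : S) (m : M), φ (s • m) = e s • φ m) → FF S d M → FF R d N := by
  intro d
  induction d with
  | zero =>
    intro M N _ _ _ _ φ hφ h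
    obtain ⟨m, n, ⟨L⟩⟩ := h
    refine ⟨m, n, ⟨?_⟩⟩
    let Ψ : (M × (Fin m → S)) ≃+ (N × (Fin m → R)) := AddEquiv.prodCongr φ (ffr_E e m)
    have hΨ : ∀ (s : S) x, Ψ (s • x) = e s • Ψ x := by
      intro s x
      refine Prod.ext ?_ ?_
      · exact hφ s x.1
      · exact ffr_E_smul e m s x.2
    have hΨ' : ∀ (r : R) y, Ψ.symm (r • y) = e.symm r • Ψ.symm y := by
      intro r y
      apply Ψ.injective
      rw [hΨ]
      simp
    refine LinearEquiv.mk (LinearMap.mk (AddHom.mk
      (fun y => ffr_E e n (L (Ψ.symm y))) ?_) ?_)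
      (fun z => Ψ (L.symm ((ffr_E e n).symm z))) ?_ ?_
    · intro x y
      simp
    · intro r y
      simp only [RingHom.id_apply]
      rw [hΨ', map_smul, ffr_E_smul]
      simp
    · intro y
      simp
    · intro z
      simp
  | succ d ih =>
    intro M N _ _ _ _ φ hφ h
    obtain ⟨n, f, hf, hk⟩ := h
    have hE' : ∀ (r : R) (y : Fin n → R), (ffr_E e n).symm (r • y) = e.symm r • (ffr_E e n).symm y := by
      intro r y
      apply (ffr_E e n).injective
      rw [ffr_E_smul]
      simp
    let f' : (Fin n → R) →ₗ[R] N :=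
      { toFun := fun y => φ (f ((ffr_E e n).symm y))
        map_add' := fun x y => by simp
        map_smul' := fun r y => by
          simp only [RingHom.id_apply]
          rw [hE', map_smul, hφ]
          simp }
    have hf' : ∀ y, f' y = φ (f ((ffr_E e n).symm y)) := fun y => rfl
    refine ⟨n, f', ?_, ?_⟩
    · intro z
      obtain ⟨x, hx⟩ := hf (φ.symm z)
      refine ⟨ffr_E e n x, ?_⟩
      rw [hf']
      simp [hx]
    · have hmem : ∀ x : Fin n → S, x ∈ LinearMap.ker f → ffr_E e n x ∈ LinearMap.ker f' := by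
        intro x hx
        rw [LinearMap.mem_ker] at hx ⊢
        rw [hf']
        simp [hx]
      have hmem' : ∀ y : Fin n → R, y ∈ LinearMap.ker f' → (ffr_E e n).symm y ∈ LinearMap.ker f := by
        intro y hy
        rw [LinearMap.mem_ker] at hy ⊢
        rw [hf'] at hy
        exact (AddEquiv.map_eq_zero_iff φ).1 hy
      let θ : LinearMap.ker f ≃+ LinearMap.ker f' :=
        { toFun := fun x => ⟨ffr_E e n x.1, hmem x.1 x.2⟩
          invFun := fun y => ⟨(ffr_E e n).symm y.1, hmem' y.1 y.2⟩
          left_inv := fun x => Subtype.ext (by simp)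
          right_inv := fun y => Subtype.ext (by simp)
          map_add' := fun x y => Subtype.ext (by simp) }
      refine ih (LinearMap.ker f) (LinearMap.ker f') θ ?_ hk
      intro s x
      apply Subtype.ext
      exact ffr_E_smul e n s x.1

/-- if all finitely generated modules over `S` are `FF d`, the same is true for an isomorphic ring -/
theorem ffr_ring {S R : Type} [CommRing S] [CommRing R] (e : S ≃+* R) (d : ℕ)
    (H : ∀ (M : Type) [AddCommGroup M] [Module S M], Module.Finite S M → FF S d M) :
    ∀ (M : Type) [AddCommGroup M] [Module R M], Module.Finite R M → FF R d M := by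
  intro M _ _ hfin
  letI inst : Module S M := Module.compHom M e.toRingHom
  have hsm : ∀ (s : S) (m : M), s • m = e s • m := fun s m => rfl
  have hfinS : Module.Finite S M := by
    obtain ⟨T, hT⟩ := hfin.fg_top
    refine ⟨⟨T, ?_⟩⟩
    rw [eq_top_iff]
    rintro m -
    have hm : m ∈ Submodule.span R (T : Set M) := by rw [hT]; trivial
    induction hm using Submodule.span_induction with
    | mem x hx => exact Submodule.subset_span hx
    | zero => exact Submodule.zero_mem _
    | add x y _ _ hx hy => exact Submodule.add_mem _ hx hy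
    | smul r x _ hx =>
      have : r • x = (e.symm r) • x := by rw [hsm]; simp
      rw [this]
      exact Submodule.smul_mem _ _ hx
  exact ffr_transport e d M M (AddEquiv.refl M) (fun s m => hsm s m) (H M hfinS)

/-- one more variable -/
theorem ffr_step (hP : St_FFP) (hM : St_FFM) (hX : St_FFX) (R : Type) [CommRing R]
    [IsNoetherianRing R] (d : ℕ)
    (H : ∀ (M : Type) [AddCommGroup M] [Module R M], Module.Finite R M → FF R d M) :
    ∀ (M : Type) [AddCommGroup M] [Module R[X] M], Module.Finite R[X] M → FF R[X] (d + 1) M := by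
  intro M _ _ hfin
  obtain ⟨P, Q, iP, mP, iQ, mQ, j, g, hPf, hQf, hj, hg, hex⟩ := hX R M
  have h1 : FF R[X] d (PolynomialModule R P) := hM R d P (H P hPf)
  have h2 : FF R[X] d (PolynomialModule R Q) := hM R d Q (H Q hQf)
  have h3 : FF R[X] (d + 1) (PolynomialModule R Q) := (hP R[X]).2.1 d _ h2
  exact ((hP R[X]).2.2.1 d (PolynomialModule R P) (PolynomialModule R Q) M j g hj hg hex).2.1 h1 h3

/-- `ℤ` -/
theorem ffr_int (M : Type) [AddCommGroup M] [Module ℤ M] (hfin : Module.Finite ℤ M) :
    FF ℤ 1 M := by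
  obtain ⟨n, f, hf⟩ := Module.Finite.exists_fin' ℤ M
  refine ⟨n, f, hf, ?_⟩
  obtain ⟨k, b⟩ := Submodule.basisOfPid (Pi.basisFun ℤ (Fin n)) (LinearMap.ker f)
  exact ⟨0, k, ⟨(LinearEquiv.prodUnique).trans b.equivFun⟩⟩

theorem thm_FFR (hP : St_FFP) (hM : St_FFM) (hX : St_FFX) : St_FFR := by
  intro r
  induction r with
  | zero =>
    exact ffr_ring (MvPolynomial.isEmptyRingEquiv ℤ (Fin 0)).symm 1
      (fun M _ _ h => ffr_int M h)
  | succ r ih =>
    exact ffr_ring (MvPolynomial.finSuccEquiv ℤ r).toRingEquiv.symm (r + 1 + 1)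
      (ffr_step hP hM hX (MvPolynomial (Fin r) ℤ) (r + 1) ih)

end Pool.Agent.SLZ
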