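import Pool.Agent.SLZ.StFF

/-!
# SLZ, FFX (helper69): the characteristic sequence `0 → P[x] → Q[x] → M → 0`
-/

set_option autoImplicit false
set_option linter.unusedVariables false

noncomputable section

namespace Pool.Agent.SLZ

open Function Polynomial

section

variable {R : Type} [CommRing R]

/-- the map induced on polynomials -/
def ffx_map {A B : Type} [AddCommGroup A] [Module R A] [AddCommGroup B] [Module R B]
    (f : A →ₗ[R] B) : PolynomialModule R A →ₗ[R[X]] PolynomialModule R B where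
  toFun := PolynomialModule.map R f
  map_add' := map_add _
  map_smul' p q := by
    rw [PolynomialModule.map_smul, Algebra.algebraMap_self, Polynomial.map_id, RingHom.id_apply]

theorem ffx_map_coeff {A B : Type} [AddCommGroup A] [Module R A] [AddCommGroup B] [Module R B]
    (f : A →ₗ[R] B) (q : PolynomialModule R A) (n : ℕ) : (ffx_map f q).coeff n = f (q.coeff n) :=
  rfl

theorem ffx_map_single {A B : Type} [AddCommGroup A] [Module R A] [AddCommGroup B] [Module R B]
    (f : A →ₗ[R] B) (i : ℕ) (m : A) :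
    ffx_map f (PolynomialModule.single R i m) = PolynomialModule.single R i (f m) :=
  PolynomialModule.map_single R f i m

theorem ffx_X_single {A : Type} [AddCommGroup A] [Module R A] (i : ℕ) (m : A) :
    (X : R[X]) • PolynomialModule.single R i m = PolynomialModule.single R (i + 1) m := by
  rw [← monomial_one_one_eq_X, PolynomialModule.monomial_smul_single, one_smul, add_comm]

theorem ffx_X_coeff {A : Type} [AddCommGroup A] [Module R A] (q : PolynomialModule R A) (i : ℕ) :
    ((X : R[X]) • q).coeff (i + 1) = q.coeff i := by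
  rw [← monomial_one_one_eq_X, PolynomialModule.monomial_smul_apply]
  simp

variable {M : Type} [AddCommGroup M] [Module R M] [Module R[X] M] [IsScalarTower R R[X] M]

/-- evaluation, additive -/
def ffx_ev0 (Q : Submodule R M) : PolynomialModule R Q →+ M where
  toFun q := q.coeff.sum fun i m => (X : R[X]) ^ i • (m : M)
  map_zero' := Finsupp.sum_zero_index
  map_add' _ _ := Finsupp.sum_add_index' (fun _ => by simp) fun _ _ _ => by simp [smul_add]

theorem ffx_ev0_single (Q : Submodule R M) (i : ℕ) (m : Q) :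
    ffx_ev0 Q (PolynomialModule.single R i m) = (X : R[X]) ^ i • (m : M) := by
  change (Finsupp.single i m).sum (fun i (m : Q) => (X : R[X]) ^ i • (m : M)) = _
  exact Finsupp.sum_single_index (by simp)

/-- evaluation -/
def ffx_ev (Q : Submodule R M) : PolynomialModule R Q →ₗ[R[X]] M where
  toFun := ffx_ev0 Q
  map_add' := map_add _
  map_smul' p q := by
    rw [RingHom.id_apply]
    induction q using PolynomialModule.induction_linear with
    | zero => simp
    | add a b ha hb => rw [smul_add, map_add, ha, hb, map_add, smul_add]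
    | single i m =>
      induction p using Polynomial.induction_on' with
      | add a b ha hb => rw [add_smul, map_add, ha, hb, add_smul]
      | monomial k r =>
        rw [PolynomialModule.monomial_smul_single, ffx_ev0_single, ffx_ev0_single,
          ← C_mul_X_pow_eq_monomial, mul_smul, ← mul_smul (X ^ k), ← pow_add, Submodule.coe_smul,
          ← algebraMap_smul R[X] r (m : M), ← mul_smul, ← mul_smul, mul_comm]
        rfl

theorem ffx_ev_single (Q : Submodule R M) (i : ℕ) (m : Q) :
    ffx_ev Q (PolynomialModule.single R i m) = (X : R[X]) ^ i • (m : M) := ffx_ev0_single Q i m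

/-- multiplication by `X` -/
def ffx_mul (P Q : Submodule R M) (h : ∀ m ∈ P, (X : R[X]) • m ∈ Q) : P →ₗ[R] Q where
  toFun m := ⟨(X : R[X]) • (m : M), h m m.2⟩
  map_add' a b := Subtype.ext (by simp [smul_add])
  map_smul' r a := Subtype.ext (by simp [smul_comm (X : R[X]) r (a : M)])

/-- the first map of the characteristic sequence -/
def ffx_j (P Q : Submodule R M) (h0 : P ≤ Q) (h : ∀ m ∈ P, (X : R[X]) • m ∈ Q) :
    PolynomialModule R P →ₗ[R[X]] PolynomialModule R Q :=
  (X : R[X]) • ffx_map (Submodule.inclusion h0) - ffx_map (ffx_mul P Q h)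

theorem ffx_j_single (P Q : Submodule R M) (h0 : P ≤ Q) (h : ∀ m ∈ P, (X : R[X]) • m ∈ Q) (i : ℕ)
    (m : P) : ffx_j P Q h0 h (PolynomialModule.single R i m) =
      PolynomialModule.single R (i + 1) ⟨(m : M), h0 m.2⟩ -
        PolynomialModule.single R i ⟨(X : R[X]) • (m : M), h m m.2⟩ := by
  change (X : R[X]) • ffx_map (Submodule.inclusion h0) (PolynomialModule.single R i m) -
    ffx_map (ffx_mul P Q h) (PolynomialModule.single R i m) = _
  rw [ffx_map_single, ffx_map_single, ffx_X_single]
  rfl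

theorem ffx_inj (P Q : Submodule R M) (h0 : P ≤ Q) (h : ∀ m ∈ P, (X : R[X]) • m ∈ Q) :
    Injective (ffx_j P Q h0 h) := by
  rw [injective_iff_map_eq_zero]
  intro p hp
  by_contra hne
  have hc : p.coeff ≠ 0 := fun h => hne (PolynomialModule.coeff_eq_zero.1 h)
  have hs : p.coeff.support.Nonempty := Finsupp.support_nonempty_iff.2 hc
  set i := p.coeff.support.max' hs with hi
  have h1 : p.coeff i ≠ 0 := Finsupp.mem_support_iff.1 (Finset.max'_mem _ hs)
  have h2 : p.coeff (i + 1) = 0 := by
    by_contra h3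
    have h4 := Finset.le_max' _ _ (Finsupp.mem_support_iff.2 h3)
    rw [← hi] at h4
    omega
  have h5 : (ffx_j P Q h0 h p).coeff (i + 1) = Submodule.inclusion h0 (p.coeff i) -
      ffx_mul P Q h (p.coeff (i + 1)) := by
    change (((X : R[X]) • ffx_map (Submodule.inclusion h0) p) -
      ffx_map (ffx_mul P Q h) p).coeff (i + 1) = _
    have e : ∀ a b : PolynomialModule R Q, (a - b).coeff (i + 1) =
        a.coeff (i + 1) - b.coeff (i + 1) := by
      intro a b
      have e1 : a = (a - b) + b := (sub_add_cancel a b).symm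
      have e2 : a.coeff = (a - b).coeff + b.coeff := by
        conv_lhs => rw [e1]
        exact PolynomialModule.coeff_add _ _
      rw [e2, Finsupp.add_apply, add_sub_cancel_right]
    rw [e, ffx_X_coeff, ffx_map_coeff, ffx_map_coeff]
  rw [hp, h2, map_zero, sub_zero, PolynomialModule.coeff_zero, Finsupp.zero_apply] at h5
  exact h1 (Submodule.inclusion_injective h0 (by rw [← h5, map_zero]))

theorem ffx_comp (P Q : Submodule R M) (h0 : P ≤ Q) (h : ∀ m ∈ P, (X : R[X]) • m ∈ Q)
    (p : PolynomialModule R P) : ffx_ev Q (ffx_j P Q h0 h p) = 0 := by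
  induction p using PolynomialModule.induction_linear with
  | zero => simp
  | add a b ha hb => rw [map_add, map_add, ha, hb, add_zero]
  | single i m =>
    rw [ffx_j_single, map_sub, ffx_ev_single, ffx_ev_single, ← mul_smul, ← pow_succ, sub_self]

/-- exactness, if there is a section of the induced map -/
theorem ffx_exact (P Q : Submodule R M) (h0 : P ≤ Q) (h : ∀ m ∈ P, (X : R[X]) • m ∈ Q)
    (θ : M →ₗ[R[X]] (PolynomialModule R Q ⧸ LinearMap.range (ffx_j P Q h0 h)))
    (hθ : ∀ m : Q, θ m = Submodule.Quotient.mk (PolynomialModule.single R 0 m)) :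
    LinearMap.range (ffx_j P Q h0 h) = LinearMap.ker (ffx_ev Q) := by
  apply le_antisymm
  · rintro _ ⟨p, rfl⟩
    exact ffx_comp P Q h0 h p
  · intro q hq
    have h1 : ∀ q : PolynomialModule R Q, θ (ffx_ev Q q) = Submodule.Quotient.mk q := by
      intro q
      induction q using PolynomialModule.induction_linear with
      | zero => simp
      | add a b ha hb => rw [map_add, map_add, ha, hb, Submodule.Quotient.mk_add]
      | single i m =>
        rw [ffx_ev_single, map_smul, hθ, ← Submodule.Quotient.mk_smul]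
        congr 1
        rw [← monomial_one_right_eq_X_pow, PolynomialModule.monomial_smul_single, one_smul,
          add_zero]
    have h2 := h1 q
    rw [LinearMap.mem_ker.1 hq, map_zero] at h2
    exact (Submodule.Quotient.mk_eq_zero _).1 h2.symm

/-- vectors with entries of degree less than `k` -/
def ffx_F (R : Type) [CommRing R] (n k : ℕ) : Submodule R (Fin n → R[X]) :=
  Submodule.span R (Set.range fun a : Fin k × Fin n => (X : R[X]) ^ (a.1 : ℕ) •
    (Pi.single a.2 (1 : R[X]) : Fin n → R[X]))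

theorem ffx_F_mem (n k : ℕ) (a : ℕ) (ha : a < k) (l : Fin n) :
    (X : R[X]) ^ a • (Pi.single l (1 : R[X]) : Fin n → R[X]) ∈ ffx_F R n k :=
  Submodule.subset_span ⟨(⟨a, ha⟩, l), rfl⟩

theorem ffx_F_mono (n : ℕ) {k k' : ℕ} (h : k ≤ k') : ffx_F R n k ≤ ffx_F R n k' := by
  refine Submodule.span_le.2 ?_
  rintro _ ⟨⟨a, l⟩, rfl⟩
  exact ffx_F_mem n k' a (lt_of_lt_of_le a.2 h) l

theorem ffx_F_X (n k : ℕ) (u : Fin n → R[X]) (hu : u ∈ ffx_F R n k) :
    (X : R[X]) • u ∈ ffx_F R n (k + 1) := by
  induction hu using Submodule.span_induction with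
  | mem x hx =>
    obtain ⟨⟨a, l⟩, rfl⟩ := hx
    have h := ffx_F_mem (R := R) n (k + 1) (a + 1) (Nat.succ_lt_succ a.2) l
    rwa [pow_succ', mul_smul] at h
  | zero => simp
  | add x y _ _ hx hy => rw [smul_add]; exact add_mem hx hy
  | smul r x _ hx => rw [smul_comm]; exact Submodule.smul_mem _ _ hx

theorem ffx_F_poly (n : ℕ) (p : R[X]) (l : Fin n) :
    ∃ k, p • (Pi.single l (1 : R[X]) : Fin n → R[X]) ∈ ffx_F R n k := by
  induction p using Polynomial.induction_on' with
  | add a b ha hb =>
    obtain ⟨k, hk⟩ := ha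
    obtain ⟨k', hk'⟩ := hb
    refine ⟨max k k', ?_⟩
    rw [add_smul]
    exact add_mem (ffx_F_mono n (le_max_left _ _) hk) (ffx_F_mono n (le_max_right _ _) hk')
  | monomial a r =>
    refine ⟨a + 1, ?_⟩
    have h := Submodule.smul_mem _ r (ffx_F_mem (R := R) n (a + 1) a (Nat.lt_succ_self a) l)
    rw [← algebraMap_smul R[X] r, ← mul_smul] at h
    rwa [← C_mul_X_pow_eq_monomial]

theorem ffx_F_all (n : ℕ) (u : Fin n → R[X]) : ∃ k, u ∈ ffx_F R n k := by
  choose k hk using fun l : Fin n => ffx_F_poly (R := R) n (u l) l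
  refine ⟨Finset.univ.sup k, ?_⟩
  have e : u = ∑ l, u l • (Pi.single l (1 : R[X]) : Fin n → R[X]) := by
    funext i
    simp [Finset.sum_apply, Pi.single_apply]
  rw [e]
  exact Submodule.sum_mem _ fun l _ => ffx_F_mono n (Finset.le_sup (Finset.mem_univ l)) (hk l)

/-- the submodules `M_k` -/
def ffx_M {n : ℕ} (e : (Fin n → R[X]) →ₗ[R[X]] M) (k : ℕ) : Submodule R M :=
  (ffx_F R n k).map (e.restrictScalars R)

theorem ffx_M_fin {n : ℕ} (e : (Fin n → R[X]) →ₗ[R[X]] M) (k : ℕ) :
    Module.Finite R (ffx_M e k) :=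
  Module.Finite.iff_fg.2 (Submodule.FG.map _ (Submodule.fg_span (Set.finite_range _)))

theorem ffx_M_le {n : ℕ} (e : (Fin n → R[X]) →ₗ[R[X]] M) (k : ℕ) : ffx_M e k ≤ ffx_M e (k + 1) :=
  Submodule.map_mono (ffx_F_mono n (Nat.le_succ k))

theorem ffx_M_X {n : ℕ} (e : (Fin n → R[X]) →ₗ[R[X]] M) (k : ℕ) :
    ∀ m ∈ ffx_M e k, (X : R[X]) • m ∈ ffx_M e (k + 1) := by
  rintro _ ⟨u, hu, rfl⟩
  exact ⟨(X : R[X]) • u, ffx_F_X n k u hu, by simp⟩

/-- the characteristic sequence for `P = M_k`, `Q = M_(k+1)` -/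
theorem ffx_main {n : ℕ} (e : (Fin n → R[X]) →ₗ[R[X]] M) (he : Surjective e) (k : ℕ)
    (G : Set (Fin n → R[X])) (hG : Submodule.span R[X] G = LinearMap.ker e)
    (hk : ∀ u ∈ G, u ∈ ffx_F R n (k + 1)) :
    LinearMap.range (ffx_j (ffx_M e k) (ffx_M e (k + 1)) (ffx_M_le e k) (ffx_M_X e k)) =
      LinearMap.ker (ffx_ev (ffx_M e (k + 1))) := by
  set P := ffx_M e k with hP
  set Q := ffx_M e (k + 1) with hQ
  set j := ffx_j P Q (ffx_M_le e k) (ffx_M_X e k) with hj
  have hm : ∀ l : Fin n, e (Pi.single l 1) ∈ Q := fun l =>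
    ⟨Pi.single l 1, by
      have h := ffx_F_mem (R := R) n (k + 1) 0 (Nat.succ_pos k) l
      rwa [pow_zero, one_smul] at h, rfl⟩
  set mk : PolynomialModule R Q →ₗ[R[X]] (PolynomialModule R Q ⧸ LinearMap.range j) :=
    (LinearMap.range j).mkQ with hmk
  set θ : (Fin n → R[X]) →ₗ[R[X]] (PolynomialModule R Q ⧸ LinearMap.range j) :=
    (Pi.basisFun R[X] (Fin n)).constr R[X]
      fun l => mk (PolynomialModule.single R 0 ⟨e (Pi.single l 1), hm l⟩) with hθ
  have hθs : ∀ l, θ (Pi.single l 1) =
      mk (PolynomialModule.single R 0 ⟨e (Pi.single l 1), hm l⟩) := by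
    intro l
    have h := (Pi.basisFun R[X] (Fin n)).constr_basis R[X]
      (fun l => mk (PolynomialModule.single R 0 ⟨e (Pi.single l 1), hm l⟩)) l
    rwa [Pi.basisFun_apply] at h
  -- `X [1 ⊗ m] = [1 ⊗ X m]`
  have hstep : ∀ m : P, (X : R[X]) • mk (PolynomialModule.single R 0 ⟨(m : M), ffx_M_le e k m.2⟩) =
      mk (PolynomialModule.single R 0 ⟨(X : R[X]) • (m : M), ffx_M_X e k m m.2⟩) := by
    intro m
    rw [← map_smul, ffx_X_single, ← sub_eq_zero, ← map_sub]
    rw [hmk, Submodule.mkQ_apply, Submodule.Quotient.mk_eq_zero]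
    exact ⟨PolynomialModule.single R 0 m, by rw [hj, ffx_j_single]⟩
  have hpow : ∀ (l : Fin n) (a : ℕ) (ha : a < k + 1), θ ((X : R[X]) ^ a • Pi.single l 1) =
      mk (PolynomialModule.single R 0 ⟨e ((X : R[X]) ^ a • Pi.single l 1),
        ⟨_, ffx_F_mem n (k + 1) a ha l, rfl⟩⟩) := by
    intro l a
    induction a with
    | zero =>
      intro ha
      simp only [pow_zero, one_smul]
      exact hθs l
    | succ a ih =>
      intro ha
      have h1 := ih (by omega)
      have hmP : e ((X : R[X]) ^ a • Pi.single l 1) ∈ P :=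
        ⟨_, ffx_F_mem n k a (by omega) l, rfl⟩
      have h2 := hstep ⟨_, hmP⟩
      have h3 : θ ((X : R[X]) ^ (a + 1) • Pi.single l 1) =
          (X : R[X]) • θ ((X : R[X]) ^ a • Pi.single l 1) := by
        rw [pow_succ', mul_smul, map_smul]
      rw [h3, h1]
      refine h2.trans ?_
      congr 3
      rw [pow_succ', mul_smul]
      exact (map_smul e X _).symm
  have hkey : ∀ u (hu : u ∈ ffx_F R n (k + 1)), θ u =
      mk (PolynomialModule.single R 0 ⟨e u, ⟨u, hu, rfl⟩⟩) := by
    intro u hu
    induction hu using Submodule.span_induction with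
    | mem x hx =>
      obtain ⟨⟨a, l⟩, rfl⟩ := hx
      exact hpow l a a.2
    | zero =>
      have e1 : (⟨e 0, ⟨0, zero_mem _, rfl⟩⟩ : Q) = 0 := Subtype.ext (map_zero e)
      rw [map_zero, e1, PolynomialModule.single_zero, map_zero]
    | add x y hx' hy' hx hy =>
      have e1 : (⟨e (x + y), ⟨x + y, add_mem hx' hy', rfl⟩⟩ : Q) =
          ⟨e x, ⟨x, hx', rfl⟩⟩ + ⟨e y, ⟨y, hy', rfl⟩⟩ := Subtype.ext (map_add e x y)
      rw [map_add, hx, hy, e1, PolynomialModule.single_add, map_add]
    | smul r x hx' hx =>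
      have e1 : (⟨e (r • x), ⟨r • x, Submodule.smul_mem _ r hx', rfl⟩⟩ : Q) =
          r • ⟨e x, ⟨x, hx', rfl⟩⟩ := Subtype.ext ((e.restrictScalars R).map_smul r x)
      have e2 : θ (r • x) = r • θ x := (θ.restrictScalars R).map_smul r x
      rw [e2, hx, e1, PolynomialModule.single_smul]
      exact ((mk.restrictScalars R).map_smul r _).symm
  have hker : LinearMap.ker e ≤ LinearMap.ker θ := by
    rw [← hG]
    refine Submodule.span_le.2 fun u hu => ?_
    have h1 := hkey u (hk u hu)
    have h2 : e u = 0 := by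
      have : u ∈ LinearMap.ker e := by rw [← hG]; exact Submodule.subset_span hu
      exact this
    have e1 : (⟨e u, ⟨u, hk u hu, rfl⟩⟩ : Q) = 0 := Subtype.ext h2
    rw [e1, PolynomialModule.single_zero, map_zero] at h1
    exact h1
  refine ffx_exact P Q (ffx_M_le e k) (ffx_M_X e k)
    ((LinearMap.ker e).liftQ θ hker ∘ₗ (e.quotKerEquivOfSurjective he).symm.toLinearMap) ?_
  rintro ⟨_, u, hu, rfl⟩
  have h1 : (e.quotKerEquivOfSurjective he).symm (e u) = (LinearMap.ker e).mkQ u := by
    rw [LinearEquiv.symm_apply_eq]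
    rfl
  change (LinearMap.ker e).liftQ θ hker ((e.quotKerEquivOfSurjective he).symm (e u)) = _
  rw [h1]
  exact hkey u hu

end

theorem thm_FFX : St_FFX := by
  intro R _ _ M _ _ _
  let _ : Module R M := Module.compHom M (C : R →+* R[X])
  have : IsScalarTower R R[X] M := ⟨fun r p m => by
    rw [Polynomial.smul_eq_C_mul, mul_smul]
    rfl⟩
  obtain ⟨n, e, he⟩ := Module.Finite.exists_fin' R[X] M
  obtain ⟨G, hG⟩ : (LinearMap.ker e).FG := IsNoetherian.noetherian _
  choose κ hκ using fun u : Fin n → R[X] => ffx_F_all (R := R) n u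
  set k := G.sup κ with hk
  refine ⟨ffx_M e k, ffx_M e (k + 1), inferInstance, inferInstance, inferInstance, inferInstance,
    ffx_j _ _ (ffx_M_le e k) (ffx_M_X e k), ffx_ev _, ffx_M_fin e k, ffx_M_fin e (k + 1),
    ffx_inj _ _ _ _, ?_, ?_⟩
  · intro m
    obtain ⟨u, rfl⟩ := he m
    have hm : ∀ l : Fin n, e (Pi.single l 1) ∈ ffx_M e (k + 1) := fun l =>
      ⟨Pi.single l 1, by
        have h := ffx_F_mem (R := R) n (k + 1) 0 (Nat.succ_pos k) l
        rwa [pow_zero, one_smul] at h, rfl⟩
    refine ⟨∑ l, u l • PolynomialModule.single R 0 ⟨e (Pi.single l 1), hm l⟩, ?_⟩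
    have e1 : u = ∑ l, u l • (Pi.single l (1 : R[X]) : Fin n → R[X]) := by
      funext i
      simp [Finset.sum_apply, Pi.single_apply]
    rw [map_sum]
    conv_rhs => rw [e1, map_sum]
    refine Finset.sum_congr rfl fun l _ => ?_
    rw [map_smul, map_smul, ffx_ev_single, pow_zero, one_smul]
  · refine ffx_main e he k (G : Set (Fin n → R[X])) hG fun u hu => ?_
    exact ffx_F_mono n ((Finset.le_sup (f := κ) hu).trans (Nat.le_succ _)) (hκ u)

end Pool.Agent.SLZ
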