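import Pool.Agent.SLZ.StG

/-!
# SLZ, FGL: `GL_m(ℤ)` is of type `FP_∞` (helper96)

Brown's criterion (`St_FBL`) for the action of `GL(W)` on the complex `SV W` of the lists of shortest vectors.
-/

set_option autoImplicit false
set_option linter.unusedVariables false

noncomputable section

namespace Pool.Agent.SLZ

/-- a list of shortest vectors which is not empty contains a nonzero vector -/
private theorem fgl_nz {W : Type} [AddCommGroup W] (l : List W) (hl : l ∈ (SV W).s) (h0 : l ≠ []) :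
    ∃ v ∈ l, v ≠ 0 := by
  obtain ⟨h, _, h1⟩ := hl
  obtain ⟨v, hv⟩ := List.exists_mem_of_ne_nil l h0
  exact ⟨v, hv, (h1 v hv).1⟩

/-- the induction step -/
private theorem fgl_step (h1 : St_FSub) (h2 : St_FBL) (h3 : St_GCL) (h4 : St_GNW) (h5 : St_GOR)
    (h6 : St_GST) (W : Type) [AddCommGroup W] [Module.Free ℤ W] [Module.Finite ℤ W]
    (ih : ∀ (W' : Type) [AddCommGroup W'] [Module.Free ℤ W'] [Module.Finite ℤ W'],
      Module.finrank ℤ W' < Module.finrank ℤ W → ∀ k, FPG k (W' ≃ₗ[ℤ] W')) (k : ℕ) :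
    FPG k (W ≃ₗ[ℤ] W) := by
  rcases subsingleton_or_nontrivial W with hW | hW
  · have hs : Subsingleton (W ≃ₗ[ℤ] W) :=
      ⟨fun a b => LinearEquiv.ext fun x => Subsingleton.elim _ _⟩
    exact h1.2.2.1 (W ≃ₗ[ℤ] W) k inferInstance
  · obtain ⟨_, hc, hn, hk, hg⟩ := h4 W
    have hnil : [] ∈ (SV W).s := by
      obtain ⟨h, hh⟩ := hn
      exact ⟨h, hh, fun v hv => absurd hv (List.not_mem_nil)⟩
    refine h2 (W ≃ₗ[ℤ] W) W (SV W) k hnil (fun g l hl => hg g l hl) ?_ ?_ ?_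
    · intro j _
      exact h3 W (NW W) (nz W) hc hn (hk hW) j
    · intro j _
      obtain ⟨F, hF⟩ := h5 W j
      exact ⟨F, fun l hl hj => hF l hl hj⟩
    · intro l hl h0 i _
      exact h6 W ih l (fgl_nz l hl h0) i

private theorem fgl_all (h1 : St_FSub) (h2 : St_FBL) (h3 : St_GCL) (h4 : St_GNW) (h5 : St_GOR)
    (h6 : St_GST) (n : ℕ) : ∀ (W : Type) [AddCommGroup W] [Module.Free ℤ W] [Module.Finite ℤ W],
      Module.finrank ℤ W = n → ∀ k, FPG k (W ≃ₗ[ℤ] W) := by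
  induction n using Nat.strong_induction_on with
  | _ n ih =>
    intro W _ _ _ hn k
    refine fgl_step h1 h2 h3 h4 h5 h6 W ?_ k
    intro W' _ _ _ hlt k'
    exact ih _ (hn ▸ hlt) W' rfl k'

/-- **FGL.** `GL(W)` is of type `FP_k` for all `k`. -/
theorem thm_FGL (h1 : St_FSub) (h2 : St_FBL) (h3 : St_GCL) (h4 : St_GNW) (h5 : St_GOR)
    (h6 : St_GST) : St_FGL := by
  intro W _ _ _ k
  exact fgl_all h1 h2 h3 h4 h5 h6 _ W rfl k

end Pool.Agent.SLZ
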