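import Pool.Agent.SLZ.StKA

/-!
# SLZ, KA2: finitely many orbits of lists (helper53)
-/

set_option autoImplicit false
set_option linter.unusedVariables false

noncomputable section

namespace Pool.Agent.SLZ

open Polynomial

theorem thm_KA2 (h1 : St_KA1) : St_KA2 := by
  intro A _ _ m hP V _ _ _ _ n b0 J j
  classical
  have : Module.Free A[X] V := Module.Free.of_basis b0
  have : Module.Finite A[X] V := Module.Finite.of_basis b0
  obtain ⟨f, hf⟩ : ∃ f : Fin (n + 1) → Lat A V, ∀ d, f d =
      OL b0 fun i => if i.val < d.val then 1 else 0 := ⟨_, fun _ => rfl⟩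
  have hfin : (List.map f '' {l : List (Fin (n + 1)) | l.length = j}).Finite :=
    (List.finite_length_eq (Fin (n + 1)) j).image _
  refine ⟨hfin.toFinset, ?_⟩
  intro L hL hj
  obtain ⟨n', b, hb⟩ := hP V J L hL
  have hn : n' = n := by
    have := Fintype.card_congr (b.indexEquiv b0)
    simpa using this
  subst hn
  refine ⟨b.equiv b0 (Equiv.refl _), ?_⟩
  have hmap : b.map (b.equiv b0 (Equiv.refl _)) = b0 := by
    apply Module.Basis.eq_of_apply_eq
    intro i
    rw [Module.Basis.map_apply, Module.Basis.equiv_apply]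
    rfl
  have hE : ∀ E ∈ L.map ((b.equiv b0 (Equiv.refl _)) • ·), E ∈ Set.range f := by
    intro E hE
    obtain ⟨E0, hE0, rfl⟩ := List.mem_map.1 hE
    obtain ⟨d, hd, -, -, he⟩ := hb E0 hE0
    refine ⟨⟨d, by omega⟩, ?_⟩
    rw [hf]
    change _ = mapL (b.equiv b0 (Equiv.refl _)) E0
    rw [he, (h1 A V).1, hmap]
  have hR : L.map ((b.equiv b0 (Equiv.refl _)) • ·) ∈ Set.range (List.map f) := by
    rw [Set.range_list_map]
    exact hE
  obtain ⟨l, hl⟩ := hR
  rw [Set.Finite.mem_toFinset]
  refine ⟨l, ?_, hl⟩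
  have := congrArg List.length hl
  rw [List.length_map, List.length_map, hj] at this
  exact this

end Pool.Agent.SLZ
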