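import Pool.Agent.SLZ.StKA
import Pool.Agent.SLZ.FM1
import Pool.Agent.SLZ.FInd
import Pool.Agent.SLZ.FExt
import Pool.Agent.SLZ.FSub

/-!
# SLZ, KA3: stabilizers of lists of lattices (helper53)
-/

set_option autoImplicit false
set_option linter.unusedVariables false

noncomputable section

namespace Pool.Agent.SLZ

open Polynomial

/-- a set which contains `C` consecutive numbers has at least `C` elements -/
theorem KA3_card {n C o : ℕ} (S : Set (Fin n)) (ho : o + C ≤ n)
    (h : ∀ b : Fin n, o ≤ b.val → b.val < o + C → b ∈ S) : C ≤ S.ncard := by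
  classical
  have h1 : (Set.range fun c : Fin C => (⟨o + c.val, by have := c.2; omega⟩ : Fin n)) ⊆ S := by
    rintro _ ⟨c, rfl⟩
    exact h _ (by simp) (by have := c.2; simp only; omega)
  have h2 : (Set.range fun c : Fin C => (⟨o + c.val, by have := c.2; omega⟩ : Fin n)).ncard = C := by
    rw [← Set.image_univ, Set.ncard_image_of_injective _ ?_, Set.ncard_univ, Nat.card_eq_fintype_card,
      Fintype.card_fin]
    intro c c' hcc
    simp only [Fin.mk.injEq] at hcc
    exact Fin.ext (by omega)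
  calc C = _ := h2.symm
    _ ≤ S.ncard := Set.ncard_le_ncard h1 (Set.toFinite S)

theorem thm_KA3 (h1 : St_KA1) (hBC : St_BC) : St_KA3 := by
  intro A _ _ m C k hP hm hCm hab V _ _ _ _ n b0 J hJ L hL hLne
  classical
  have : Module.Free A[X] V := Module.Free.of_basis b0
  have : Module.Finite A[X] V := Module.Finite.of_basis b0
  obtain ⟨n', b, hb⟩ := hP V J L hL
  have hn : n' = n := by
    have := Fintype.card_congr (b.indexEquiv b0)
    simpa using this
  subst hn
  choose d hd1 hd2 hd3 hd4 using hb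
  obtain ⟨w, hw⟩ : ∃ w : {E : Lat A V // E ∈ L} → Fin n' → ℤ, ∀ E i, w E i =
      if i.val < d E.1 E.2 then 1 else 0 := ⟨_, fun _ _ => rfl⟩
  have hw' : ∀ E : {E : Lat A V // E ∈ L}, E.1 = OL b (w E) := by
    intro E
    rw [hd4 E.1 E.2]
    congr 1
    funext i
    exact (hw E i).symm
  have hset : {E : Lat A V | ∃ i, E = OL b (w i)} = {x : Lat A V | x ∈ L} := by
    ext E
    constructor
    · rintro ⟨i, rfl⟩
      have := hw' i
      rw [Set.mem_setOf_eq, ← this]
      exact i.2
    · intro hE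
      exact ⟨⟨E, hE⟩, hw' ⟨E, hE⟩⟩
  obtain ⟨e⟩ := (h1 A V).2.1 n' b {E : Lat A V // E ∈ L} w
  rw [hset] at e
  have hfin : Finite {E : Lat A V // E ∈ L} := L.finite_toSet
  have hne : Nonempty {E : Lat A V // E ∈ L} := by
    obtain ⟨E, hE⟩ := List.exists_mem_of_ne_nil L hLne
    exact ⟨⟨E, hE⟩⟩
  refine (thm_FSub thm_FM1 (thm_FExt thm_FM1 (thm_FInd thm_FM1))).1 _ _ k ⟨e.symm⟩ ?_
  refine hBC A k C hab (Fin n') {E : Lat A V // E ∈ L} w ?_
  intro a
  by_cases ha : ∃ i : {E : Lat A V // E ∈ L}, a.val < d i.1 i.2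
  · obtain ⟨i, hi⟩ := ha
    obtain ⟨e1, he1⟩ := hd2 i.1 i.2
    have hq : a.val / m < e1 := by
      rw [he1] at hi
      exact Nat.div_lt_of_lt_mul hi
    have hq2 : (a.val / m) * m + m ≤ n' := by
      have h5 : (a.val / m + 1) * m ≤ e1 * m := Nat.mul_le_mul_right m hq
      have h6 := hd1 i.1 i.2
      rw [he1] at h6
      nlinarith
    refine KA3_card (o := a.val / m * m) _ (by omega) ?_
    intro c hc1 hc2 i'
    obtain ⟨e2, he2⟩ := hd2 i'.1 i'.2
    have h7 : c.val / m = a.val / m := by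
      rw [Nat.div_eq_iff hm]
      constructor
      · omega
      · have : a.val / m * m + m - 1 = (a.val / m * m + m) - 1 := rfl
        omega
    rw [hw, hw]
    have h8 : c.val < d i'.1 i'.2 ↔ a.val < d i'.1 i'.2 := by
      rw [he2, mul_comm m e2, ← Nat.div_lt_iff_lt_mul hm, ← Nat.div_lt_iff_lt_mul hm, h7]
    simp only [h8]
  · push Not at ha
    refine KA3_card (o := m * J) _ hJ ?_
    intro c hc1 hc2 i'
    rw [hw, hw, if_neg (not_lt.2 (ha i')), if_neg]
    exact not_lt.2 ((hd3 i'.1 i'.2).trans hc1)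

end Pool.Agent.SLZ
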