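import Pool.Agent.SLZ.StKJ

/-!
# SLZ, KJ2: the lower link of a lattice embeds in the poset `YS`
-/

set_option autoImplicit false
set_option linter.unusedVariables false

noncomputable section

namespace Pool.Agent.SLZ

open Polynomial

section lat

variable {A : Type} [CommRing A] {V : Type} [AddCommGroup V] [Module A V] [Module A[X] V]
  [IsScalarTower A A[X] V]

theorem KJ2_mem {ι : Type} (b : Module.Basis ι A[X] V) (w : ι → ℤ) (k : ℤ) (v : V) :
    v ∈ OL b w k ↔ ∀ (i : ι) (n : ℕ), k + w i < n → (b.repr v i).coeff n = 0 := Iff.rfl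

theorem KJ2_smul {ι : Type} (b : Module.Basis ι A[X] V) (c : A) (v : V) (i : ι) (n : ℕ) :
    (b.repr (c • v) i).coeff n = c * (b.repr v i).coeff n := by
  have h1 : c • v = (C c : A[X]) • v := by
    rw [← algebraMap_smul A[X] c v]
    rfl
  rw [h1, map_smul, Finsupp.smul_apply, smul_eq_mul, coeff_C_mul]

theorem KJ2_X {ι : Type} (b : Module.Basis ι A[X] V) (w : ι → ℤ) (k : ℤ) (v : V) :
    v ∈ OL b w k ↔ (X : A[X]) • v ∈ OL b w (k + 1) := by
  rw [KJ2_mem, KJ2_mem]
  constructor
  · intro h i n hn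
    rw [map_smul, Finsupp.smul_apply, smul_eq_mul]
    cases n with
    | zero => rw [coeff_X_mul_zero]
    | succ n =>
      rw [coeff_X_mul]
      apply h
      push_cast at hn
      linarith
  · intro h i n hn
    have h1 := h i (n + 1) (by push_cast; linarith)
    rwa [map_smul, Finsupp.smul_apply, smul_eq_mul, coeff_X_mul] at h1

theorem KJ2_mono {ι : Type} (b : Module.Basis ι A[X] V) (w : ι → ℤ) (k k' : ℤ) (hk : k ≤ k') :
    OL b w k ≤ OL b w k' := by
  intro v hv i n hn
  exact hv i n (by linarith)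

theorem KJ2_up {n : ℕ} (b : Module.Basis (Fin n) A[X] V) (w : Fin n → ℤ) (hw : ∀ i, 0 ≤ w i)
    (k : ℤ) (hk : 0 ≤ k) (v : V) (hv : v ∈ OL b w (k + 1)) :
    ∃ q ∈ OL b w k, ∃ c ∈ OL b w k, v = (X : A[X]) • q + c := by
  have hr : ∀ p : Fin n → A[X], ∀ i, b.repr (∑ j, p j • b j) i = p i := by
    intro p i
    rw [b.repr_sum_self]
  refine ⟨∑ j, (b.repr v j).divX • b j, ?_, ∑ j, C ((b.repr v j).coeff 0) • b j, ?_, ?_⟩
  · intro i m hm
    rw [hr, coeff_divX]
    apply hv
    push_cast
    linarith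
  · intro i m hm
    rw [hr, coeff_C, if_neg]
    rintro rfl
    have := hw i
    push_cast at hm
    linarith
  · rw [Finset.smul_sum, ← Finset.sum_add_distrib]
    conv_lhs => rw [← b.sum_repr v]
    refine Finset.sum_congr rfl fun j _ => ?_
    rw [smul_smul, ← add_smul, mul_comm, divX_mul_X_add]

/-- lattices are determined by their sections -/
theorem KJ2_le {n n' : ℕ} (b : Module.Basis (Fin n) A[X] V) (w : Fin n → ℤ)
    (b' : Module.Basis (Fin n') A[X] V) (w' : Fin n' → ℤ) (hw : ∀ i, 0 ≤ w i)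
    (h : OL b w 0 ≤ OL b' w' 0) : OL b w ≤ OL b' w' := by
  have hup : ∀ k : ℕ, OL b w (k : ℤ) ≤ OL b' w' (k : ℤ) := by
    intro k
    induction k with
    | zero => exact_mod_cast h
    | succ k ih =>
      intro v hv
      push_cast at hv ⊢
      obtain ⟨q, hq, c, hc, rfl⟩ := KJ2_up b w hw k (Int.natCast_nonneg k) v hv
      exact Submodule.add_mem _ ((KJ2_X b' w' _ _).1 (ih hq))
        (KJ2_mono b' w' _ _ (by linarith) (ih hc))
  have hdn : ∀ k : ℕ, OL b w (-(k : ℤ)) ≤ OL b' w' (-(k : ℤ)) := by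
    intro k
    induction k with
    | zero =>
      have e : (-((0 : ℕ) : ℤ)) = 0 := by norm_num
      rw [e]
      exact h
    | succ k ih =>
      intro v hv
      have e : (-((k + 1 : ℕ) : ℤ)) + 1 = -(k : ℤ) := by push_cast; ring
      rw [KJ2_X, e] at hv ⊢
      exact ih hv
  intro k
  rcases Int.eq_nat_or_neg k with ⟨m, rfl | rfl⟩
  · exact hup m
  · exact hdn m

/-- the type -/
def KJ2_w (n D : ℕ) : Fin n → ℤ := fun i => if i.val < D then 1 else 0

theorem KJ2_w0 (n D : ℕ) (i : Fin n) : 0 ≤ KJ2_w n D i := by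
  unfold KJ2_w
  split_ifs <;> norm_num

/-- coordinates of `W` -/
theorem KJ2_Phi {n : ℕ} (b : Module.Basis (Fin n) A[X] V) (D : ℕ) (E : Lat A V)
    (hE : E = OL b (KJ2_w n D)) :
    ∃ Φ : WQ E ≃ₗ[A] (Fin n → A), ∀ (v : E 0) (i : Fin n),
      Φ (Submodule.Quotient.mk v) i =
        if i.val < D then (b.repr (v : V) i).coeff 1 else (b.repr (v : V) i).coeff 0 := by
  subst hE
  have hr : ∀ p : Fin n → A[X], ∀ i, b.repr (∑ j, p j • b j) i = p i := by
    intro p i
    rw [b.repr_sum_self]
  let φ : (OL b (KJ2_w n D) 0) →ₗ[A] (Fin n → A) :=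
    { toFun := fun v i =>
        if i.val < D then (b.repr (v : V) i).coeff 1 else (b.repr (v : V) i).coeff 0
      map_add' := by
        intro u v
        funext i
        rw [Pi.add_apply, Submodule.coe_add, map_add, Finsupp.add_apply, coeff_add, coeff_add]
        split_ifs <;> rfl
      map_smul' := by
        intro c v
        funext i
        rw [Pi.smul_apply, Submodule.coe_smul, KJ2_smul, KJ2_smul]
        split_ifs <;> rfl }
  have hφ : ∀ v i, φ v i =
      if i.val < D then (b.repr (v : V) i).coeff 1 else (b.repr (v : V) i).coeff 0 :=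
    fun v i => rfl
  have hs : Function.Surjective φ := by
    intro x
    refine ⟨⟨∑ j : Fin n, (if j.val < D then C (x j) * X else C (x j)) • b j, ?_⟩, ?_⟩
    · intro i m hm
      rw [hr]
      unfold KJ2_w at hm
      split_ifs at hm ⊢ with h
      · rw [coeff_C_mul_X, if_neg]
        rintro rfl
        norm_num at hm
      · rw [coeff_C, if_neg]
        rintro rfl
        norm_num at hm
    · funext i
      rw [hφ, hr]
      split_ifs with h
      · rw [coeff_C_mul_X, if_pos rfl]
      · rw [coeff_C_zero]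
  have hk : (OL b (KJ2_w n D) (-1)).comap (OL b (KJ2_w n D) 0).subtype = LinearMap.ker φ := by
    ext v
    rw [Submodule.mem_comap, LinearMap.mem_ker]
    constructor
    · intro hv
      funext i
      rw [hφ]
      have h1 := hv i
      unfold KJ2_w at h1
      split_ifs at h1 ⊢ with h
      · exact h1 1 (by norm_num)
      · exact h1 0 (by norm_num)
    · intro hv i m hm
      have h1 := congrFun hv i
      rw [hφ] at h1
      have h2 := v.2 i
      change (b.repr (v : V) i).coeff m = 0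
      unfold KJ2_w at hm h2
      split_ifs at hm h1 h2 with h
      · have h3 : 0 < m := by
          have : (0 : ℤ) < m := by linarith
          exact_mod_cast this
        rcases Nat.lt_or_ge 1 m with h4 | h4
        · apply h2
          have : (1 : ℤ) < m := by exact_mod_cast h4
          linarith
        · have : m = 1 := by omega
          rw [this]
          exact h1
      · rcases Nat.eq_zero_or_pos m with h4 | h4
        · rw [h4]
          exact h1
        · apply h2
          have : (0 : ℤ) < m := by exact_mod_cast h4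
          linarith
  exact ⟨(Submodule.quotEquivOfEq _ _ hk).trans (φ.quotKerEquivOfSurjective hs), fun v i => rfl⟩

theorem KJ2_P {n : ℕ} (b : Module.Basis (Fin n) A[X] V) (D : ℕ) (E : Lat A V)
    (hE : E = OL b (KJ2_w n D)) (Φ : WQ E ≃ₗ[A] (Fin n → A))
    (hΦ : ∀ (v : E 0) (i : Fin n), Φ (Submodule.Quotient.mk v) i =
        if i.val < D then (b.repr (v : V) i).coeff 1 else (b.repr (v : V) i).coeff 0)
    (x : WQ E) : x ∈ PQ E ↔ ∀ i : Fin n, D ≤ i.val → Φ x i = 0 := by
  have hr : ∀ p : Fin n → A[X], ∀ i, b.repr (∑ j, p j • b j) i = p i := by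
    intro p i
    rw [b.repr_sum_self]
  constructor
  · rintro ⟨v, ⟨u, hu, hv⟩, rfl⟩ i hi
    change Φ (Submodule.Quotient.mk v) i = 0
    have hv' : (X : A[X]) • u = (v : V) := hv
    rw [hΦ, if_neg (by omega), ← hv', map_smul, Finsupp.smul_apply, smul_eq_mul,
      coeff_X_mul_zero]
  · intro hx
    obtain ⟨v, rfl⟩ := Submodule.Quotient.mk_surjective _ x
    obtain ⟨u, hu⟩ : ∃ u : V, u = ∑ j : Fin n,
        (if j.val < D then C ((b.repr (v : V) j).coeff 1) else 0) • b j := ⟨_, rfl⟩
    have hur : ∀ i : Fin n, b.repr u i =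
        if i.val < D then C ((b.repr (v : V) i).coeff 1) else 0 := by
      intro i
      rw [hu, hr]
    have hu1 : u ∈ E (-1) := by
      rw [hE]
      intro i m hm
      rw [hur]
      unfold KJ2_w at hm
      split_ifs at hm ⊢ with h
      · rw [coeff_C, if_neg]
        rintro rfl
        norm_num at hm
      · exact coeff_zero m
    have hXu : (X : A[X]) • u ∈ E 0 := by
      rw [hE] at hu1 ⊢
      exact (KJ2_X b _ _ _).1 hu1
    have hEm : ∀ (y : V) (k : ℤ), y ∈ E k ↔ y ∈ OL b (KJ2_w n D) k := by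
      intro y k
      rw [hE]
    have hvu : (v : V) - (X : A[X]) • u ∈ E (-1) := by
      have hv := (hEm _ _).1 v.2
      rw [hEm]
      intro i m hm
      have h1 := hx i
      rw [hΦ] at h1
      have h2 := hv i m
      rw [map_sub, Finsupp.sub_apply, map_smul, Finsupp.smul_apply, smul_eq_mul, hur, coeff_sub]
      unfold KJ2_w at hm h2
      split_ifs at hm h1 h2 ⊢ with h
      · rcases Nat.lt_or_ge 1 m with h4 | h4
        · rw [h2 (by
            have : (1 : ℤ) < m := by exact_mod_cast h4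
            linarith), X_mul, coeff_C_mul_X, if_neg (by omega), sub_zero]
        · have h5 : m = 1 := by
            have : (0 : ℤ) < m := by linarith
            have : 0 < m := by exact_mod_cast this
            omega
          rw [h5, X_mul, coeff_C_mul_X, if_pos rfl, sub_self]
      · rw [mul_zero, coeff_zero, sub_zero]
        rcases Nat.eq_zero_or_pos m with h4 | h4
        · rw [h4]
          exact h1 (by omega)
        · apply h2
          have : (0 : ℤ) < m := by exact_mod_cast h4
          linarith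
    refine ⟨⟨(X : A[X]) • u, hXu⟩, ⟨u, hu1, rfl⟩, ?_⟩
    change Submodule.Quotient.mk _ = Submodule.Quotient.mk v
    rw [eq_comm, Submodule.Quotient.eq]
    exact hvu

theorem KJ2_H {n : ℕ} (b : Module.Basis (Fin n) A[X] V) (D d : ℕ) (hd : d ≤ D) (E F : Lat A V)
    (hE : E = OL b (KJ2_w n D)) (hF : F = OL b (KJ2_w n d)) (Φ : WQ E ≃ₗ[A] (Fin n → A))
    (hΦ : ∀ (v : E 0) (i : Fin n), Φ (Submodule.Quotient.mk v) i =
        if i.val < D then (b.repr (v : V) i).coeff 1 else (b.repr (v : V) i).coeff 0)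
    (x : WQ E) : x ∈ HQ E F ↔ ∀ i : Fin n, d ≤ i.val → i.val < D → Φ x i = 0 := by
  constructor
  · rintro ⟨v, hv, rfl⟩ i hi hi'
    change Φ (Submodule.Quotient.mk v) i = 0
    have hv' : (v : V) ∈ F 0 := hv
    rw [hF] at hv'
    have h2 := hv' i 1
    unfold KJ2_w at h2
    rw [if_neg (by omega)] at h2
    rw [hΦ, if_pos hi']
    exact h2 (by norm_num)
  · intro hx
    obtain ⟨v, rfl⟩ := Submodule.Quotient.mk_surjective _ x
    refine ⟨v, ?_, rfl⟩
    change (v : V) ∈ F 0
    have hEm : ∀ (y : V) (k : ℤ), y ∈ E k ↔ y ∈ OL b (KJ2_w n D) k := by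
      intro y k
      rw [hE]
    have hv := (hEm _ _).1 v.2
    rw [hF]
    intro i m hm
    have h1 := hx i
    rw [hΦ] at h1
    have h2 := hv i m
    unfold KJ2_w at hm h2
    by_cases h3 : i.val < d
    · rw [if_pos h3] at hm
      rw [if_pos (by omega)] at h2
      exact h2 hm
    · rw [if_neg h3] at hm
      by_cases h4 : i.val < D
      · rw [if_pos h4] at h1 h2
        rcases Nat.lt_or_ge 1 m with h5 | h5
        · apply h2
          have : (1 : ℤ) < m := by exact_mod_cast h5
          linarith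
        · have h6 : m = 1 := by
            have : (0 : ℤ) < m := by linarith
            have : 0 < m := by exact_mod_cast this
            omega
          rw [h6]
          exact h1 (by omega) h4
      · rw [if_neg h4] at h2
        exact h2 hm

/-- coordinate submodules are free -/
theorem KJ2_free {W : Type} [AddCommGroup W] [Module A W] {n : ℕ} (Φ : W ≃ₗ[A] (Fin n → A))
    (N : Submodule A W) (r : ℕ) (hr : r ≤ n)
    (hN : ∀ x, x ∈ N ↔ ∀ i : Fin n, r ≤ i.val → Φ x i = 0) : Nonempty (N ≃ₗ[A] (Fin r → A)) := by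
  let f : N →ₗ[A] (Fin r → A) :=
    { toFun := fun x j => Φ (x : W) ⟨j.val, lt_of_lt_of_le j.isLt hr⟩
      map_add' := by
        intro x y
        funext j
        rw [Submodule.coe_add, map_add]
        rfl
      map_smul' := by
        intro c x
        funext j
        rw [Submodule.coe_smul, map_smul]
        rfl }
  refine ⟨LinearEquiv.ofBijective f ⟨?_, ?_⟩⟩
  · rw [injective_iff_map_eq_zero]
    intro x hx
    apply Subtype.ext
    rw [Submodule.coe_zero, ← Φ.map_eq_zero_iff]
    funext i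
    by_cases h : i.val < r
    · exact congrFun hx ⟨i.val, h⟩
    · exact (hN x).1 x.2 i (by omega)
  · intro y
    obtain ⟨x, hx⟩ := Φ.surjective fun i : Fin n => if h : i.val < r then y ⟨i.val, h⟩ else 0
    have hx' : ∀ i : Fin n, Φ x i = if h : i.val < r then y ⟨i.val, h⟩ else 0 :=
      fun i => congrFun hx i
    refine ⟨⟨x, ?_⟩, ?_⟩
    · rw [hN]
      intro i hi
      rw [hx', dif_neg (by omega)]
    · funext j
      change Φ x ⟨j.val, _⟩ = y j
      rw [hx', dif_pos j.isLt]

/-- quotients by coordinate submodules are free -/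
theorem KJ2_quot {W : Type} [AddCommGroup W] [Module A W] {n : ℕ} (Φ : W ≃ₗ[A] (Fin n → A))
    (N : Submodule A W) (d D : ℕ) (hdD : d ≤ D) (hD : D ≤ n)
    (hN : ∀ x, x ∈ N ↔ ∀ i : Fin n, d ≤ i.val → i.val < D → Φ x i = 0) :
    Nonempty ((W ⧸ N) ≃ₗ[A] (Fin (D - d) → A)) := by
  have hlt : ∀ j : Fin (D - d), d + j.val < n := by
    intro j
    have := j.isLt
    omega
  let f : W →ₗ[A] (Fin (D - d) → A) :=
    { toFun := fun x j => Φ x ⟨d + j.val, hlt j⟩
      map_add' := by
        intro x y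
        funext j
        rw [map_add]
        rfl
      map_smul' := by
        intro c x
        funext j
        rw [map_smul]
        rfl }
  have hk : N = LinearMap.ker f := by
    ext x
    rw [hN, LinearMap.mem_ker]
    constructor
    · intro h
      funext j
      exact h ⟨d + j.val, hlt j⟩ (Nat.le_add_right _ _) (by
        have := j.isLt
        change d + j.val < D
        omega)
    · intro h i hi hi'
      have h1 := congrFun h ⟨i.val - d, by omega⟩
      have h2 : Φ x ⟨d + (i.val - d), by omega⟩ = 0 := h1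
      have h3 : (⟨d + (i.val - d), by omega⟩ : Fin n) = i := Fin.ext (by
        change d + (i.val - d) = i.val
        omega)
      rwa [h3] at h2
  have hs : Function.Surjective f := by
    intro y
    obtain ⟨x, hx⟩ := Φ.surjective fun i : Fin n =>
      if h : i.val - d < D - d then y ⟨i.val - d, h⟩ else 0
    refine ⟨x, ?_⟩
    funext j
    have h1 := congrFun hx ⟨d + j.val, hlt j⟩
    change Φ x ⟨d + j.val, hlt j⟩ = y j
    have h2 : d + j.val - d = j.val := by omega
    rw [h1]
    change (if h : d + j.val - d < D - d then y ⟨d + j.val - d, h⟩ else 0) = y j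
    have h3 : d + j.val - d < D - d := by
      rw [h2]
      exact j.isLt
    rw [dif_pos h3]
    congr 1
    exact Fin.ext h2
  exact ⟨(Submodule.quotEquivOfEq _ _ hk).trans (f.quotKerEquivOfSurjective hs)⟩

theorem KJ2_sup {W : Type} [AddCommGroup W] [Module A W] {n : ℕ} (Φ : W ≃ₗ[A] (Fin n → A))
    (P Q : Submodule A W) (D : ℕ) (hP : ∀ x, (∀ i : Fin n, D ≤ i.val → Φ x i = 0) → x ∈ P)
    (hQ : ∀ x, (∀ i : Fin n, i.val < D → Φ x i = 0) → x ∈ Q) : P ⊔ Q = ⊤ := by
  rw [eq_top_iff]
  intro x _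
  obtain ⟨y, hy⟩ := Φ.surjective fun i : Fin n => if i.val < D then Φ x i else 0
  have hy' : ∀ i : Fin n, Φ y i = if i.val < D then Φ x i else 0 := fun i => congrFun hy i
  refine Submodule.mem_sup.2 ⟨y, hP y ?_, x - y, hQ _ ?_, by abel⟩
  · intro i hi
    rw [hy', if_neg (by omega)]
  · intro i hi
    rw [map_sub, Pi.sub_apply, hy', if_pos hi, sub_self]

end lat

theorem thm_KJ2 (h1 : St_KJ1) : St_KJ2 := by
  intro A _ _ V _ _ _ _ _ _ m J hPD hm E hE hdg
  obtain ⟨k1, k2, k3, k4, k5, k6⟩ := h1 A V m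
  have k6' := k6 hPD hm J E hE hdg
  -- a basis for `E`
  have hE2 := hE
  obtain ⟨n, D, b, hDn, hmD, hDJ, hEb⟩ := hE2
  have hEb' : E = OL b (KJ2_w n D) := hEb
  have hD : D = m * (J + 1) := by
    rw [← k1 n b D hDn, ← hEb, hdg]
  obtain ⟨Φ, hΦ⟩ := KJ2_Phi b D E hEb'
  have hP := KJ2_P b D E hEb' Φ hΦ
  -- bases for `E`, `F`
  have hEF : ∀ F ∈ LowT m J E, ∃ (n d : ℕ) (b : Module.Basis (Fin n) A[X] V), D ≤ n ∧ d ≤ D ∧
      m ∣ d ∧ d ≤ m * J ∧ E = OL b (KJ2_w n D) ∧ F = OL b (KJ2_w n d) := by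
    intro F hF
    have hF1 : F ∈ TV A V m (J + 1) := k5 J hF.1
    have hL : [E, F] ∈ (TT A V m (J + 1)).s := by
      intro x hx
      have hx' : x = E ∨ x = F := by simpa using hx
      have hrefl : ∀ G : Lat A V, G ∈ TV A V m (J + 1) → adjL G G := by
        rintro G ⟨n', d', b', -, -, -, rfl⟩
        left
        exact ⟨le_rfl, fun k => KJ2_mono b' _ _ _ (by linarith)⟩
      have hs : adjL F E := by
        rcases hF.2 with h | h
        · exact Or.inr h
        · exact Or.inl h
      rcases hx' with rfl | rfl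
      · refine ⟨hE, fun y hy => ?_⟩
        have hy' : y = x ∨ y = F := by simpa using hy
        rcases hy' with rfl | rfl
        · exact hrefl _ hE
        · exact hF.2
      · refine ⟨hF1, fun y hy => ?_⟩
        have hy' : y = E ∨ y = x := by simpa using hy
        rcases hy' with rfl | rfl
        · exact hs
        · exact hrefl _ hF1
    obtain ⟨n', b', hb'⟩ := hPD V (J + 1) [E, F] hL
    obtain ⟨D', hD'n, -, -, hE'⟩ := hb' E (by simp)
    obtain ⟨d, hdn, hmd, -, hF'⟩ := hb' F (by simp)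
    have hDD : D' = D := by
      rw [hD, ← k1 n' b' D' hD'n, ← hE', hdg]
    have hdJ : d ≤ m * J := by
      have h2 := k3 J F hF.1
      rw [hF', k1 n' b' d hdn] at h2
      exact h2
    subst hDD
    refine ⟨n', d, b', hD'n, ?_, hmd, hdJ, hE', hF'⟩
    rw [hD]
    calc d ≤ m * J := hdJ
      _ ≤ m * (J + 1) := Nat.mul_le_mul_left _ (by omega)
  have hYS : ∀ F ∈ LowT m J E, HQ E F ∈ YS A (WQ E) (PQ E) m (J + 1) := by
    intro F hF
    obtain ⟨n', d, b', hDn', hdD, ⟨e, rfl⟩, hdJ, hE', hF'⟩ := hEF F hF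
    obtain ⟨Φ', hΦ'⟩ := KJ2_Phi b' D E hE'
    have hP' := KJ2_P b' D E hE' Φ' hΦ'
    have hH' := KJ2_H b' D (m * e) hdD E F hE' hF' Φ' hΦ'
    have heJ : e ≤ J := Nat.le_of_mul_le_mul_left hdJ hm
    refine ⟨?_, J + 1 - e, by omega, by omega, ?_, ?_⟩
    · refine KJ2_sup Φ' _ _ D (fun x hx => (hP' x).2 hx) fun x hx => (hH' x).2 ?_
      intro i _ hi
      exact hx i hi
    · have h3 := KJ2_quot Φ' (HQ E F) (m * e) D hdD hDn' hH'
      have e1 : D - m * e = m * (J + 1 - e) := by
        rw [hD, Nat.mul_sub]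
      rwa [e1] at h3
    · have e1 : m * (J + 1 - (J + 1 - e)) = m * e := by
        congr 1
        omega
      rw [e1]
      refine KJ2_free Φ' _ (m * e) (hdD.trans hDn') fun x => ?_
      rw [Submodule.mem_inf, hP', hH']
      constructor
      · rintro ⟨h4, h5⟩ i hi
        by_cases h6 : i.val < D
        · exact h5 i hi h6
        · exact h4 i (by omega)
      · intro h4
        exact ⟨fun i hi => h4 i (by omega), fun i hi _ => h4 i hi⟩
  -- comparison
  have hbas : ∀ F ∈ LowT m J E, ∃ (n d : ℕ) (b : Module.Basis (Fin n) A[X] V),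
      F = OL b (KJ2_w n d) := by
    intro F hF
    obtain ⟨n', d, b', -, -, -, -, -, hF'⟩ := hEF F hF
    exact ⟨n', d, b', hF'⟩
  have hmon : ∀ F ∈ LowT m J E, ∀ F' ∈ LowT m J E, HQ E F ≤ HQ E F' → F ≤ F' := by
    intro F hF F' hF' hle
    have hFE := k6' F hF.1 hF.2
    have hFE' := k6' F' hF'.1 hF'.2
    have h0 : F 0 ≤ F' 0 := by
      intro v hv
      have hvE : v ∈ E 0 := hFE.1 0 hv
      have h3 : (Submodule.Quotient.mk ⟨v, hvE⟩ : WQ E) ∈ HQ E F := ⟨⟨v, hvE⟩, hv, rfl⟩
      obtain ⟨v', hv', h4⟩ := hle h3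
      have h5 : (Submodule.Quotient.mk v' : WQ E) = Submodule.Quotient.mk ⟨v, hvE⟩ := h4
      rw [eq_comm, Submodule.Quotient.eq] at h5
      have h6 : v - (v' : V) ∈ E (-1) := h5
      have h7 : v - (v' : V) ∈ F' 0 := by
        have h8 := hFE'.2 (-1) h6
        have e : (-1 : ℤ) + 1 = 0 := by norm_num
        change v - (v' : V) ∈ F' (-1 + 1) at h8
        rwa [e] at h8
      have h9 := (F' 0).add_mem h7 (show (v' : V) ∈ F' 0 from hv')
      rwa [sub_add_cancel] at h9
    obtain ⟨n₁, d₁, b₁, rfl⟩ := hbas F hF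
    obtain ⟨n₂, d₂, b₂, rfl⟩ := hbas F' hF'
    exact KJ2_le b₁ _ b₂ _ (KJ2_w0 n₁ d₁) h0
  have hmon' : ∀ F F' : Lat A V, F ≤ F' → HQ E F ≤ HQ E F' := by
    rintro F F' h _ ⟨v, hv, rfl⟩
    exact ⟨v, h 0 hv, rfl⟩
  refine ⟨?_, ?_, hYS, ?_⟩
  · obtain ⟨Q, hQ⟩ : ∃ Q : Submodule A (WQ E), ∀ x, x ∈ Q ↔
        ∀ i : Fin n, i.val < D → Φ x i = 0 := by
      refine ⟨{ carrier := {x | ∀ i : Fin n, i.val < D → Φ x i = 0}
                zero_mem' := ?_
                add_mem' := ?_
                smul_mem' := ?_ }, fun x => Iff.rfl⟩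
      · intro x y hx hy i hi
        rw [map_add, Pi.add_apply, hx i hi, hy i hi, add_zero]
      · intro i _
        rw [map_zero]
        rfl
      · intro c x hx i hi
        rw [map_smul, Pi.smul_apply, hx i hi, smul_zero]
    refine ⟨Q, ⟨?_, ?_⟩⟩
    · rw [Submodule.disjoint_def]
      intro x hx hx'
      rw [← Φ.map_eq_zero_iff]
      funext i
      by_cases h : i.val < D
      · exact (hQ x).1 hx' i h
      · exact (hP x).1 hx i (by omega)
    · rw [codisjoint_iff]
      exact KJ2_sup Φ _ _ D (fun x hx => (hP x).2 hx) fun x hx => (hQ x).2 hx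
  · rw [← hD]
    exact KJ2_free Φ _ D hDn hP
  · intro F hF F' hF'
    have hFE := k6' F hF.1 hF.2
    have hFE' := k6' F' hF'.1 hF'.2
    refine ⟨⟨?_, ?_⟩, ?_⟩
    · rintro (h | h)
      · exact Or.inl (hmon' _ _ h.1)
      · exact Or.inr (hmon' _ _ h.1)
    · rintro (h | h)
      · exact Or.inl ⟨hmon F hF F' hF' h, hFE'.1.trans hFE.2⟩
      · exact Or.inr ⟨hmon F' hF' F hF h, hFE.1.trans hFE'.2⟩
    · intro h
      exact le_antisymm (hmon F hF F' hF' h.le) (hmon F' hF' F hF h.ge)

end Pool.Agent.SLZ
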