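import Pool.Agent.SLZ.StKJ

/-!
# SLZ, KJ3: every element of `YS` comes from the lower link
-/

set_option autoImplicit false
set_option linter.unusedVariables false

noncomputable section

namespace Pool.Agent.SLZ

open Polynomial

section lin

variable {A : Type} [CommRing A]

/-- the automorphism of `A^n` adapted to `P` and `H` -/
theorem kj3_g (n D d : ℕ) (hD : D ≤ n) (hd : d ≤ D) (H P : Submodule A (Fin n → A))
    (hP : ∀ x, x ∈ P ↔ ∀ i : Fin n, D ≤ i.val → x i = 0)
    (hPH : P ⊔ H = ⊤) (e1 : ((Fin n → A) ⧸ H) ≃ₗ[A] (Fin (D - d) → A))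
    (e2 : (P ⊓ H : Submodule A (Fin n → A)) ≃ₗ[A] (Fin d → A)) :
    ∃ G : (Fin n → A) ≃ₗ[A] (Fin n → A), (∀ x, ∀ i : Fin n, D ≤ i.val → (G x) i = x i) ∧
      (∀ x, G x ∈ H ↔ ∀ j : Fin n, d ≤ j.val → j.val < D → x j = 0) := by
  -- the projection
  let π : (Fin n → A) →ₗ[A] (Fin (D - d) → A) := e1.toLinearMap ∘ₗ H.mkQ
  have hπH : ∀ x, π x = 0 ↔ x ∈ H := by
    intro x
    show e1 (H.mkQ x) = 0 ↔ x ∈ H
    rw [LinearEquiv.map_eq_zero_iff, Submodule.mkQ_apply, Submodule.Quotient.mk_eq_zero]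
  have hsplit : ∀ x : Fin n → A, ∃ p ∈ P, ∃ h ∈ H, p + h = x := by
    intro x
    have hx : x ∈ P ⊔ H := by rw [hPH]; trivial
    exact Submodule.mem_sup.1 hx
  obtain ⟨S0, hS0⟩ := Module.projective_lifting_property (π ∘ₗ P.subtype) LinearMap.id (by
    intro t
    obtain ⟨y, hy⟩ := e1.surjective t
    obtain ⟨x, rfl⟩ := H.mkQ_surjective y
    obtain ⟨p, hp, h, hh, rfl⟩ := hsplit x
    refine ⟨⟨p, hp⟩, ?_⟩
    show π p = t
    have h1 : π (p + h) = t := hy
    rw [map_add, (hπH h).2 hh, add_zero] at h1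
    exact h1)
  obtain ⟨Q0, hQ0⟩ := Module.projective_lifting_property (P.mkQ ∘ₗ H.subtype) P.mkQ (by
    intro t
    obtain ⟨x, rfl⟩ := P.mkQ_surjective t
    obtain ⟨p, hp, h, hh, rfl⟩ := hsplit x
    refine ⟨⟨h, hh⟩, ?_⟩
    show P.mkQ h = P.mkQ (p + h)
    rw [map_add, Submodule.mkQ_apply P p, (Submodule.Quotient.mk_eq_zero P).2 hp, zero_add])
  have hS : ∀ t, π (S0 t : Fin n → A) = t := fun t => LinearMap.congr_fun hS0 t
  have hQ : ∀ x : Fin n → A, (Q0 x : Fin n → A) - x ∈ P := by
    intro x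
    have h1 : P.mkQ (Q0 x : Fin n → A) = P.mkQ x := LinearMap.congr_fun hQ0 x
    rw [← Submodule.Quotient.mk_eq_zero P, ← Submodule.mkQ_apply, map_sub, h1, sub_self]
  -- the parts
  let a1 : (Fin n → A) →ₗ[A] (Fin d → A) :=
    LinearMap.funLeft A A fun j : Fin d => (⟨j.val, lt_of_lt_of_le j.2 (hd.trans hD)⟩ : Fin n)
  let a2 : (Fin n → A) →ₗ[A] (Fin (D - d) → A) :=
    LinearMap.funLeft A A fun j : Fin (D - d) => (⟨d + j.val, by omega⟩ : Fin n)
  let ρ : (Fin n → A) →ₗ[A] (Fin n → A) :=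
    { toFun := fun x j => if j.val < D then 0 else x j
      map_add' := by
        intro x y
        funext j
        show (if j.val < D then (0 : A) else x j + y j) =
          (if j.val < D then 0 else x j) + (if j.val < D then 0 else y j)
        split_ifs <;> simp
      map_smul' := by
        intro c x
        funext j
        show (if j.val < D then (0 : A) else c * x j) = c * (if j.val < D then 0 else x j)
        split_ifs <;> simp }
  have hρ : ∀ x j, (ρ x) j = if j.val < D then 0 else x j := fun x j => rfl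
  let G0 : (Fin n → A) →ₗ[A] (Fin n → A) :=
    (P ⊓ H).subtype ∘ₗ e2.symm.toLinearMap ∘ₗ a1 + P.subtype ∘ₗ S0 ∘ₗ a2 + H.subtype ∘ₗ Q0 ∘ₗ ρ
  have hG0 : ∀ x, G0 x = ((e2.symm (a1 x) : (P ⊓ H : Submodule A (Fin n → A))) : Fin n → A) +
      (S0 (a2 x) : Fin n → A) + (Q0 (ρ x) : Fin n → A) := fun x => rfl
  have hval : ∀ x, ∀ i : Fin n, D ≤ i.val → (G0 x) i = x i := by
    intro x i hi
    have h1 := (hP _).1 (Submodule.mem_inf.1 (e2.symm (a1 x)).2).1 i hi
    have h2 := (hP _).1 (S0 (a2 x)).2 i hi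
    have h3 := (hP _).1 (hQ (ρ x)) i hi
    rw [Pi.sub_apply, hρ, if_neg (not_lt.2 hi)] at h3
    rw [hG0, Pi.add_apply, Pi.add_apply, h1, h2, sub_eq_zero.1 h3]
    ring
  have hπG : ∀ x, π (G0 x) = a2 x := by
    intro x
    have h1 := (hπH _).2 (Submodule.mem_inf.1 (e2.symm (a1 x)).2).2
    have h3 := (hπH _).2 (Q0 (ρ x)).2
    rw [hG0, map_add, map_add, h1, h3, hS]
    abel
  have ha2 : ∀ x : Fin n → A, a2 x = 0 ↔ ∀ j : Fin n, d ≤ j.val → j.val < D → x j = 0 := by
    intro x
    constructor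
    · intro h j hj1 hj2
      have h1 := congrFun h (⟨j.val - d, by omega⟩ : Fin (D - d))
      have h2 : x (⟨d + (j.val - d), by omega⟩ : Fin n) = 0 := h1
      have h3 : (⟨d + (j.val - d), by omega⟩ : Fin n) = j := Fin.ext (by
        show d + (j.val - d) = j.val
        omega)
      rw [h3] at h2
      exact h2
    · intro h
      funext j
      exact h ⟨d + j.val, by omega⟩ (by show d ≤ d + j.val; omega) (by
        show d + j.val < D
        have := j.2
        omega)
  have hinj : Function.Injective G0 := by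
    rw [injective_iff_map_eq_zero]
    intro x hx
    have h1 : ∀ i : Fin n, D ≤ i.val → x i = 0 := by
      intro i hi
      rw [← hval x i hi, hx]
      rfl
    have h2 : a2 x = 0 := by rw [← hπG, hx, map_zero]
    have h3 : ρ x = 0 := by
      funext j
      rw [hρ]
      split_ifs with h
      · rfl
      · exact h1 j (not_lt.1 h)
    have h4 := hG0 x
    rw [hx, h2, h3, map_zero, map_zero] at h4
    have h5 : ((e2.symm (a1 x) : (P ⊓ H : Submodule A (Fin n → A))) : Fin n → A) = 0 := by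
      rw [h4]
      simp
    have h6 : e2.symm (a1 x) = 0 := Subtype.ext h5
    have h7 : a1 x = 0 := (LinearEquiv.map_eq_zero_iff e2.symm).1 h6
    funext i
    rcases lt_or_ge i.val d with h | h
    · exact congrFun h7 (⟨i.val, h⟩ : Fin d)
    · rcases lt_or_ge i.val D with h' | h'
      · exact (ha2 x).1 h2 i h h'
      · exact h1 i h'
  have hsurj : Function.Surjective G0 := by
    intro y
    have hp : y - (Q0 (ρ y) : Fin n → A) ∈ P := by
      rw [hP]
      intro i hi
      have h3 := (hP _).1 (hQ (ρ y)) i hi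
      rw [Pi.sub_apply, hρ, if_neg (not_lt.2 hi)] at h3
      rw [Pi.sub_apply, sub_eq_zero.1 h3, sub_self]
    set p := y - (Q0 (ρ y) : Fin n → A) with hpdef
    have hmem : p - (S0 (π p) : Fin n → A) ∈ P ⊓ H := by
      rw [Submodule.mem_inf]
      refine ⟨P.sub_mem hp (S0 (π p)).2, ?_⟩
      rw [← hπH, map_sub, hS, sub_self]
    let x' : Fin d → A := e2 ⟨_, hmem⟩
    let x : Fin n → A := fun j =>
      if h : j.val < d then x' ⟨j.val, h⟩ else
        if h' : j.val < D then (π p) ⟨j.val - d, by omega⟩ else y j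
    have hx1 : a1 x = x' := by
      funext j
      show x ⟨j.val, _⟩ = x' j
      show (if h : j.val < d then x' ⟨j.val, h⟩ else _) = x' j
      rw [dif_pos j.2]
    have hx2 : a2 x = π p := by
      funext j
      have hj := j.2
      show (if h : d + j.val < d then x' ⟨d + j.val, h⟩ else
        if h' : d + j.val < D then (π p) ⟨d + j.val - d, by omega⟩ else y _) = (π p) j
      rw [dif_neg (by omega), dif_pos (by omega)]
      have h9 : (⟨d + j.val - d, by omega⟩ : Fin (D - d)) = j :=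
        Fin.ext (Nat.add_sub_cancel_left d j.val)
      rw [h9]
    have hx3 : ρ x = ρ y := by
      funext j
      rw [hρ, hρ]
      split_ifs with h
      · rfl
      · show (if h : j.val < d then x' ⟨j.val, h⟩ else
          if h' : j.val < D then (π p) ⟨j.val - d, by omega⟩ else y j) = y j
        rw [dif_neg (by omega), dif_neg h]
    refine ⟨x, ?_⟩
    have h8 : e2.symm x' = ⟨_, hmem⟩ := e2.symm_apply_apply _
    rw [hG0, hx1, hx2, hx3, h8]
    show p - (S0 (π p) : Fin n → A) + (S0 (π p) : Fin n → A) + (Q0 (ρ y) : Fin n → A) = y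
    rw [hpdef]
    abel
  refine ⟨LinearEquiv.ofBijective G0 ⟨hinj, hsurj⟩, hval, ?_⟩
  intro x
  show G0 x ∈ H ↔ _
  rw [← hπH, hπG, ha2]

end lin

section poly

variable {A : Type} [CommRing A] {n : ℕ}

/-- the exponents -/
def kj3_e (D : ℕ) (i j : Fin n) : ℕ := if i.val < D ∧ D ≤ j.val then 1 else 0

/-- the natural weights -/
def kj3_w (D : ℕ) (i : Fin n) : ℕ := if i.val < D then 1 else 0

/-- the matrix over `A[X]` -/
def kj3_M (D : ℕ) (g : Matrix (Fin n) (Fin n) A) : Matrix (Fin n) (Fin n) A[X] :=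
  Matrix.of fun i j => C (g i j) * X ^ (kj3_e D i j)

theorem kj3_M_apply (D : ℕ) (g : Matrix (Fin n) (Fin n) A) (i j : Fin n) :
    kj3_M D g i j = C (g i j) * X ^ (kj3_e D i j) := rfl

theorem kj3_mul (D : ℕ) (g g' : Matrix (Fin n) (Fin n) A)
    (hg : ∀ i j : Fin n, D ≤ i.val → j.val < D → g i j = 0)
    (hg' : ∀ i j : Fin n, D ≤ i.val → j.val < D → g' i j = 0) (h : g * g' = 1) :
    kj3_M D g * kj3_M D g' = 1 := by
  ext1 i j
  have h1 : (kj3_M D g * kj3_M D g') i j = C ((g * g') i j) * X ^ (kj3_e D i j) := by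
    rw [Matrix.mul_apply, Matrix.mul_apply, map_sum, Finset.sum_mul]
    refine Finset.sum_congr rfl fun k _ => ?_
    rw [kj3_M_apply, kj3_M_apply, C_mul]
    by_cases h2 : D ≤ i.val ∧ k.val < D
    · rw [hg i k h2.1 h2.2]
      simp
    by_cases h3 : D ≤ k.val ∧ j.val < D
    · rw [hg' k j h3.1 h3.2]
      simp
    have h4 : kj3_e D i k + kj3_e D k j = kj3_e D i j := by
      unfold kj3_e
      split_ifs <;> omega
    rw [← h4, pow_add]
    ring
  rw [h1, h]
  by_cases hij : i = j
  · subst hij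
    have h5 : kj3_e D i i = 0 := by
      unfold kj3_e
      rw [if_neg (by omega)]
    rw [h5, Matrix.one_apply_eq, Matrix.one_apply_eq]
    simp
  · rw [Matrix.one_apply_ne hij, Matrix.one_apply_ne hij]
    simp

theorem kj3_coeff (c : A) (e N : ℕ) (z : A[X]) :
    (C c * X ^ e * z).coeff N = if e ≤ N then c * z.coeff (N - e) else 0 := by
  rw [mul_assoc, coeff_C_mul, coeff_X_pow_mul']
  split_ifs <;> simp

/-- the lattice is preserved -/
theorem kj3_lat (D : ℕ) (g : Matrix (Fin n) (Fin n) A)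
    (hg : ∀ i j : Fin n, D ≤ i.val → j.val < D → g i j = 0) (z : Fin n → A[X]) (k : ℤ)
    (hz : ∀ (j : Fin n) (N : ℕ), k + (if j.val < D then (1 : ℤ) else 0) < N → (z j).coeff N = 0) :
    ∀ (i : Fin n) (N : ℕ), k + (if i.val < D then (1 : ℤ) else 0) < N →
      ((kj3_M D g).mulVec z i).coeff N = 0 := by
  intro i N hN
  have h1 : (kj3_M D g).mulVec z i = ∑ j, kj3_M D g i j * z j := rfl
  rw [h1, finsetSum_coeff]
  refine Finset.sum_eq_zero fun j _ => ?_
  rw [kj3_M_apply, kj3_coeff]
  by_cases h2 : D ≤ i.val ∧ j.val < D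
  · rw [hg i j h2.1 h2.2]
    simp
  split_ifs with h3
  · rw [hz j (N - kj3_e D i j), mul_zero]
    rw [Nat.cast_sub h3]
    unfold kj3_e at *
    split_ifs at * <;> push_cast <;> omega
  · rfl

/-- leading coefficients -/
theorem kj3_lead (D : ℕ) (g : Matrix (Fin n) (Fin n) A)
    (hg : ∀ i j : Fin n, D ≤ i.val → j.val < D → g i j = 0) (z : Fin n → A[X]) (i : Fin n) :
    ((kj3_M D g).mulVec z i).coeff (kj3_w D i) = ∑ j, g i j * (z j).coeff (kj3_w D j) := by
  have h1 : (kj3_M D g).mulVec z i = ∑ j, kj3_M D g i j * z j := rfl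
  rw [h1, finsetSum_coeff]
  refine Finset.sum_congr rfl fun j _ => ?_
  rw [kj3_M_apply, kj3_coeff]
  by_cases h2 : D ≤ i.val ∧ j.val < D
  · rw [hg i j h2.1 h2.2]
    simp
  have h3 : kj3_e D i j ≤ kj3_w D i := by
    unfold kj3_e kj3_w
    split_ifs <;> omega
  have h4 : kj3_w D i - kj3_e D i j = kj3_w D j := by
    unfold kj3_e kj3_w
    split_ifs <;> omega
  rw [if_pos h3, h4]

end poly

section lat

variable {A : Type} [CommRing A] {V : Type} [AddCommGroup V] [Module A V] [Module A[X] V]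
  [IsScalarTower A A[X] V] {n : ℕ}

theorem kj3_mem (b : Module.Basis (Fin n) A[X] V) (D : ℕ) (k : ℤ) (v : V) :
    v ∈ OL b (fun i => if i.val < D then (1 : ℤ) else 0) k ↔
      ∀ (i : Fin n) (N : ℕ), k + (if i.val < D then (1 : ℤ) else 0) < N →
        (b.repr v i).coeff N = 0 := Iff.rfl

/-- the vector with the given leading coefficients -/
def kj3_vec (b : Module.Basis (Fin n) A[X] V) (D : ℕ) (x : Fin n → A) : V :=
  ∑ i, (C (x i) * X ^ (kj3_w D i)) • b i

theorem kj3_vec_repr (b : Module.Basis (Fin n) A[X] V) (D : ℕ) (x : Fin n → A) (i : Fin n) :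
    b.repr (kj3_vec b D x) i = C (x i) * X ^ (kj3_w D i) := by
  unfold kj3_vec
  rw [b.repr_sum_self]

theorem kj3_smul (b : Module.Basis (Fin n) A[X] V) (c : A) (v : V) (i : Fin n) :
    b.repr (c • v) i = C c * b.repr v i := by
  have h1 : c • v = (C c : A[X]) • v := by
    rw [← algebraMap_smul A[X] c v]
    rfl
  rw [h1, map_smul, Finsupp.smul_apply, smul_eq_mul]

/-- the leading coefficients -/
def kj3_lam (b : Module.Basis (Fin n) A[X] V) (D : ℕ) : V →ₗ[A] (Fin n → A) where
  toFun v i := (b.repr v i).coeff (kj3_w D i)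
  map_add' := by
    intro u v
    funext i
    rw [map_add, Finsupp.add_apply, coeff_add]
    rfl
  map_smul' := by
    intro c v
    funext i
    rw [kj3_smul, coeff_C_mul]
    rfl

theorem kj3_lam_apply (b : Module.Basis (Fin n) A[X] V) (D : ℕ) (v : V) (i : Fin n) :
    kj3_lam b D v i = (b.repr v i).coeff (kj3_w D i) := rfl

theorem kj3_lam_vec (b : Module.Basis (Fin n) A[X] V) (D : ℕ) (x : Fin n → A) :
    kj3_lam b D (kj3_vec b D x) = x := by
  funext i
  rw [kj3_lam_apply, kj3_vec_repr, coeff_C_mul, coeff_X_pow, if_pos rfl, mul_one]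

/-- the new basis -/
theorem kj3_basis (b : Module.Basis (Fin n) A[X] V) (D : ℕ) (g g' : Matrix (Fin n) (Fin n) A)
    (hg : ∀ i j : Fin n, D ≤ i.val → j.val < D → g i j = 0)
    (hg' : ∀ i j : Fin n, D ≤ i.val → j.val < D → g' i j = 0) (h : g * g' = 1) (h' : g' * g = 1) :
    ∃ c : Module.Basis (Fin n) A[X] V,
      (∀ v i, b.repr v i = (kj3_M D g).mulVec (fun j => c.repr v j) i) ∧
      (∀ v i, c.repr v i = (kj3_M D g').mulVec (fun j => b.repr v j) i) := by
  let M := kj3_M D g
  let M' := kj3_M D g'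
  have hM : M * M' = 1 := kj3_mul D g g' hg hg' h
  have hM' : M' * M = 1 := kj3_mul D g' g hg' hg h'
  let e : (Fin n → A[X]) ≃ₗ[A[X]] (Fin n → A[X]) :=
    LinearEquiv.ofLinearMap (Matrix.toLin' M') (Matrix.toLin' M)
      (by rw [← Matrix.toLin'_mul, hM', Matrix.toLin'_one])
      (by rw [← Matrix.toLin'_mul, hM, Matrix.toLin'_one])
  let c : Module.Basis (Fin n) A[X] V := Module.Basis.ofEquivFun (b.equivFun.trans e)
  have hc : ∀ v, c.equivFun v = M'.mulVec (b.equivFun v) := by
    intro v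
    have h1 : c.equivFun = b.equivFun.trans e := Module.Basis.equivFun_ofEquivFun _
    rw [h1]
    rfl
  refine ⟨c, ?_, ?_⟩
  · intro v i
    have h1 : (fun j => c.repr v j) = c.equivFun v := rfl
    rw [h1, hc, Matrix.mulVec_mulVec, hM, Matrix.one_mulVec]
    rfl
  · intro v i
    have h1 : c.repr v i = c.equivFun v i := rfl
    rw [h1, hc]
    rfl

end lat

theorem thm_KJ3 (h1 : St_KJ1) : St_KJ3 := by
  intro A _ _ V _ _ _ _ _ _ m J hm E hE hdg
  obtain ⟨n, D, b, hDn, hmD, hDJ, hE0⟩ := hE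
  have hD0 : D = m * (J + 1) := by
    have h2 := (h1 A V m).1 n b D hDn
    rw [← hE0] at h2
    rw [← h2, hdg]
  subst hE0
  set E : Lat A V := OL b fun i => if i.val < D then (1 : ℤ) else 0 with hEdef
  intro H hH
  obtain ⟨hPH, k, hk1, hk2, ⟨ε1⟩, ⟨ε2⟩⟩ := hH
  -- the isomorphism `W = A^n`
  let lam0 : (E 0) →ₗ[A] (Fin n → A) := (kj3_lam b D) ∘ₗ (E 0).subtype
  have hlamker : ((E (-1)).comap (E 0).subtype) = LinearMap.ker lam0 := by
    ext v
    rw [Submodule.mem_comap, LinearMap.mem_ker]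
    constructor
    · intro hv
      funext i
      show (b.repr (v : V) i).coeff (kj3_w D i) = 0
      refine hv i (kj3_w D i) ?_
      unfold kj3_w
      show (-1 : ℤ) + (if i.val < D then (1 : ℤ) else 0) < _
      split_ifs <;> simp
    · intro hv
      show (v : V) ∈ OL b (fun i => if i.val < D then (1 : ℤ) else 0) (-1)
      rw [kj3_mem]
      intro i N hN
      have h2 : (b.repr (v : V) i).coeff (kj3_w D i) = 0 := congrFun hv i
      by_cases h3 : N = kj3_w D i
      · rw [h3]
        exact h2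
      · refine v.2 i N ?_
        show (0 : ℤ) + (if i.val < D then (1 : ℤ) else 0) < N
        unfold kj3_w at h3
        split_ifs at * <;> omega
  let lamW : WQ E →ₗ[A] (Fin n → A) :=
    ((E (-1)).comap (E 0).subtype).liftQ lam0 hlamker.le
  have hlamW : ∀ v : E 0, lamW (Submodule.Quotient.mk v) = kj3_lam b D v := fun v => rfl
  have hinj : Function.Injective lamW := by
    rw [injective_iff_map_eq_zero]
    intro y hy
    obtain ⟨v, rfl⟩ := Submodule.Quotient.mk_surjective _ y
    rw [Submodule.Quotient.mk_eq_zero, hlamker]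
    exact hy
  have hvecE : ∀ x : Fin n → A, kj3_vec b D x ∈ E 0 := by
    intro x
    show kj3_vec b D x ∈ OL b (fun i => if i.val < D then (1 : ℤ) else 0) 0
    rw [kj3_mem]
    intro i N hN
    rw [kj3_vec_repr, coeff_C_mul, coeff_X_pow, if_neg, mul_zero]
    intro h2
    rw [h2] at hN
    unfold kj3_w at hN
    split_ifs at hN <;> simp at hN
  have hsurj : Function.Surjective lamW := by
    intro x
    refine ⟨Submodule.Quotient.mk ⟨kj3_vec b D x, hvecE x⟩, ?_⟩
    rw [hlamW]
    exact kj3_lam_vec b D x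
  let Λ : WQ E ≃ₗ[A] (Fin n → A) := LinearEquiv.ofBijective lamW ⟨hinj, hsurj⟩
  have hΛ : ∀ v : E 0, Λ (Submodule.Quotient.mk v) = kj3_lam b D v := fun v => rfl
  -- the image of `P`
  let P' : Submodule A (Fin n → A) := (PQ E).map Λ.toLinearMap
  let H' : Submodule A (Fin n → A) := H.map Λ.toLinearMap
  have hP' : ∀ x, x ∈ P' ↔ ∀ i : Fin n, D ≤ i.val → x i = 0 := by
    intro x
    constructor
    · rintro ⟨y, ⟨v, ⟨e, he, hev⟩, rfl⟩, rfl⟩ i hi
      show kj3_lam b D (v : V) i = 0
      have hev' : (X : A[X]) • e = (v : V) := hev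
      rw [kj3_lam_apply, ← hev', map_smul, Finsupp.smul_apply, smul_eq_mul]
      have h3 : kj3_w D i = 0 := by
        unfold kj3_w
        rw [if_neg (by omega)]
      rw [h3, coeff_X_mul_zero]
    · intro hx
      -- the vector `e = ∑ x i b i`
      have he : (∑ i, (C (x i) : A[X]) • b i) ∈ E (-1) := by
        show _ ∈ OL b (fun i => if i.val < D then (1 : ℤ) else 0) (-1)
        rw [kj3_mem]
        intro i N hN
        rw [b.repr_sum_self]
        by_cases h2 : i.val < D
        · rw [coeff_C, if_neg]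
          rintro rfl
          rw [if_pos h2] at hN
          simp at hN
        · rw [hx i (by omega), map_zero, coeff_zero]
      have hXe : (X : A[X]) • (∑ i, (C (x i) : A[X]) • b i) ∈ E 0 := by
        show _ ∈ OL b (fun i => if i.val < D then (1 : ℤ) else 0) 0
        rw [kj3_mem]
        intro i N hN
        rw [map_smul, Finsupp.smul_apply, smul_eq_mul, b.repr_sum_self]
        have h2 : X * (C (x i) : A[X]) = C (x i) * X := X_mul_C (x i)
        rw [h2, coeff_C_mul]
        by_cases h3 : i.val < D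
        · rw [coeff_X, if_neg, mul_zero]
          intro h4
          rw [if_pos h3] at hN
          omega
        · rw [hx i (by omega), zero_mul]
      refine ⟨Submodule.Quotient.mk ⟨_, hXe⟩, ⟨⟨_, hXe⟩, ⟨_, he, rfl⟩, rfl⟩, ?_⟩
      show kj3_lam b D ((X : A[X]) • (∑ i, (C (x i) : A[X]) • b i)) = x
      funext i
      rw [kj3_lam_apply, map_smul, Finsupp.smul_apply, smul_eq_mul, b.repr_sum_self]
      have h2 : X * (C (x i) : A[X]) = C (x i) * X := X_mul_C (x i)
      rw [h2, coeff_C_mul, coeff_X]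
      by_cases h3 : i.val < D
      · have h4 : kj3_w D i = 1 := by
          unfold kj3_w
          rw [if_pos h3]
        rw [h4, if_pos rfl, mul_one]
      · rw [hx i (by omega), zero_mul]
  have hPH' : P' ⊔ H' = ⊤ := by
    show (PQ E).map Λ.toLinearMap ⊔ H.map Λ.toLinearMap = ⊤
    rw [← Submodule.map_sup, hPH, Submodule.map_top, LinearEquiv.range]
  -- the numbers
  set d := m * (J + 1 - k) with hd
  have hdD : d ≤ D := by
    rw [hD0, hd]
    exact Nat.mul_le_mul_left m (by omega)
  have hDd : D - d = m * k := by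
    rw [hD0, hd, ← Nat.mul_sub]
    congr 1
    omega
  let e1 : ((Fin n → A) ⧸ H') ≃ₗ[A] (Fin (D - d) → A) :=
    (Submodule.Quotient.equiv H H' Λ rfl).symm.trans
      (ε1.trans (LinearEquiv.funCongrLeft A A (finCongr hDd)))
  have hinf : (PQ E ⊓ H).map Λ.toLinearMap = P' ⊓ H' := by
    show (PQ E ⊓ H).map Λ.toLinearMap = (PQ E).map Λ.toLinearMap ⊓ H.map Λ.toLinearMap
    exact Submodule.map_inf _ Λ.injective
  let e2 : (P' ⊓ H' : Submodule A (Fin n → A)) ≃ₗ[A] (Fin d → A) :=
    (LinearEquiv.ofEq _ _ hinf.symm).trans ((Λ.submoduleMap (PQ E ⊓ H)).symm.trans ε2)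
  obtain ⟨G, hGv, hGH⟩ := kj3_g n D d hDn hdD H' P' hP' hPH' e1 e2
  have hGv' : ∀ x, ∀ i : Fin n, D ≤ i.val → (G.symm x) i = x i := by
    intro x i hi
    rw [← hGv (G.symm x) i hi, LinearEquiv.apply_symm_apply]
  let g := LinearMap.toMatrix' G.toLinearMap
  let g' := LinearMap.toMatrix' G.symm.toLinearMap
  have hgg : g * g' = 1 := by
    show LinearMap.toMatrix' G.toLinearMap * LinearMap.toMatrix' G.symm.toLinearMap = 1
    rw [← LinearMap.toMatrix'_comp, LinearEquiv.comp_coe, LinearEquiv.symm_trans_self]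
    exact LinearMap.toMatrix'_id
  have hgg' : g' * g = 1 := by
    show LinearMap.toMatrix' G.symm.toLinearMap * LinearMap.toMatrix' G.toLinearMap = 1
    rw [← LinearMap.toMatrix'_comp, LinearEquiv.comp_coe, LinearEquiv.self_trans_symm]
    exact LinearMap.toMatrix'_id
  have hg0 : ∀ i j : Fin n, D ≤ i.val → j.val < D → g i j = 0 := by
    intro i j hi hj
    show LinearMap.toMatrix' G.toLinearMap i j = 0
    rw [LinearMap.toMatrix'_apply]
    show (G (Pi.single j 1)) i = 0
    rw [hGv _ i hi, Pi.single_eq_of_ne]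
    rintro rfl
    omega
  have hg0' : ∀ i j : Fin n, D ≤ i.val → j.val < D → g' i j = 0 := by
    intro i j hi hj
    show LinearMap.toMatrix' G.symm.toLinearMap i j = 0
    rw [LinearMap.toMatrix'_apply]
    show (G.symm (Pi.single j 1)) i = 0
    rw [hGv' _ i hi, Pi.single_eq_of_ne]
    rintro rfl
    omega
  obtain ⟨c, hbc, hcb⟩ := kj3_basis b D g g' hg0 hg0' hgg hgg'
  have hgG : ∀ x : Fin n → A, ∀ i, ∑ j, g i j * x j = (G x) i := by
    intro x i
    have h2 : g.mulVec x = G x := LinearMap.toMatrix'_mulVec G.toLinearMap x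
    rw [← h2]
    rfl
  have hEc : E = OL c fun i => if i.val < D then (1 : ℤ) else 0 := by
    funext k
    ext v
    show v ∈ OL b (fun i => if i.val < D then (1 : ℤ) else 0) k ↔
      v ∈ OL c (fun i => if i.val < D then (1 : ℤ) else 0) k
    rw [kj3_mem, kj3_mem]
    constructor
    · intro hv i N hN
      rw [hcb]
      exact kj3_lat D g' hg0' _ k hv i N hN
    · intro hv i N hN
      rw [hbc]
      exact kj3_lat D g hg0 _ k hv i N hN
  have hlam : ∀ v : V, kj3_lam b D v = G (kj3_lam c D v) := by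
    intro v
    funext i
    rw [kj3_lam_apply, hbc, kj3_lead D g hg0, ← hgG]
    rfl
  refine ⟨OL c fun i => if i.val < d then (1 : ℤ) else 0, ⟨?_, ?_⟩, ?_⟩
  · refine ⟨n, d, c, hdD.trans hDn, ⟨_, rfl⟩, ?_, rfl⟩
    exact Nat.mul_le_mul_left m (by omega)
  · right
    rw [hEc]
    constructor
    · intro k v hv
      rw [kj3_mem] at hv ⊢
      intro i N hN
      refine hv i N ?_
      split_ifs at * <;> omega
    · intro k v hv
      show v ∈ OL c (fun i => if i.val < d then (1 : ℤ) else 0) (k + 1)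
      rw [kj3_mem] at hv ⊢
      intro i N hN
      refine hv i N ?_
      split_ifs at * <;> omega
  · ext y
    constructor
    · rintro ⟨v, hv, rfl⟩
      have hv' : (v : V) ∈ OL c (fun i => if i.val < d then (1 : ℤ) else 0) 0 := hv
      rw [kj3_mem] at hv'
      have h2 : G (kj3_lam c D (v : V)) ∈ H' := by
        rw [hGH]
        intro j hj1 hj2
        rw [kj3_lam_apply]
        refine hv' j _ ?_
        unfold kj3_w
        rw [if_neg (by omega), if_pos hj2]
        norm_num
      rw [← hlam] at h2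
      obtain ⟨y', hy', hy''⟩ := h2
      have h3 : y' = Submodule.Quotient.mk v := hinj hy''
      rw [h3] at hy'
      exact hy'
    · intro hy
      have h2 : Λ y ∈ H' := Submodule.mem_map_of_mem hy
      obtain ⟨x, hx⟩ := G.surjective (Λ y)
      rw [← hx, hGH] at h2
      have hF : kj3_vec c D x ∈ OL c (fun i => if i.val < d then (1 : ℤ) else 0) 0 := by
        rw [kj3_mem]
        intro i N hN
        rw [kj3_vec_repr, coeff_C_mul, coeff_X_pow]
        by_cases h3 : d ≤ i.val ∧ i.val < D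
        · rw [h2 i h3.1 h3.2, zero_mul]
        · rw [if_neg, mul_zero]
          intro h4
          rw [h4] at hN
          unfold kj3_w at hN
          split_ifs at hN <;> first | omega | simp at hN
      have hEv : kj3_vec c D x ∈ E 0 := by
        rw [hEc, kj3_mem]
        rw [kj3_mem] at hF
        intro i N hN
        refine hF i N ?_
        split_ifs at * <;> omega
      refine ⟨⟨kj3_vec c D x, hEv⟩, hF, ?_⟩
      apply hinj
      show kj3_lam b D (kj3_vec c D x) = Λ y
      rw [hlam, kj3_lam_vec, hx]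

end Pool.Agent.SLZ
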