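import Pool.Agent.SLZ.FinR
import Pool.Agent.SLZ.F5All
import Pool.Agent.SLZ.KA1
import Pool.Agent.SLZ.KA2
import Pool.Agent.SLZ.KA3
import Pool.Agent.SLZ.KJ1
import Pool.Agent.SLZ.KJ2
import Pool.Agent.SLZ.KJ3
import Pool.Agent.SLZ.VJ
import Pool.Agent.SLZ.DA
import Pool.Agent.SLZ.DB
import Pool.Agent.SLZ.DC
import Pool.Agent.SLZ.DD
import Pool.Agent.SLZ.DL

/-!
# SLZ: assembly (captain helper12)

`StepFP` from `St_VP`, `St_VZ`, the stable ranks, `PInf` and `St_SZ`.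
-/

set_option autoImplicit false
set_option linter.unusedVariables false

noncomputable section

namespace Pool.Agent.SLZ

open Polynomial

theorem all_KA : St_KA := thm_KA thm_KA1 (thm_KA2 thm_KA1) (thm_KA3 thm_KA1 all_BC) all_BA

theorem all_KJ (hVP : St_VP) : St_KJ :=
  thm_KJ thm_KJ1 (thm_KJ2 thm_KJ1) (thm_KJ3 thm_KJ1) hVP thm_VJ

theorem all_DL : St_DL := thm_DL thm_DA thm_DB (thm_DD thm_DB thm_DC)

theorem fin_step (hVP : St_VP) (hVZ : St_VZ)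
    (hSR : (∀ r : ℕ, SR (MvPolynomial (Fin r) ℤ) (r + 2)) ∧
      (∀ r : ℕ, SR (Polynomial (MvPolynomial (Fin r) ℤ)) (r + 3)))
    (hI : ∀ r : ℕ, ∃ m0 : ℕ, ∀ m ≥ m0, PInf (MvPolynomial (Fin r) ℤ) m) (hS : St_SZ) :
    StepFP := by
  refine asm_step all_KA (all_KJ hVP) hVZ hSR (rz_of (fun r => ?_) hI) hS
  exact (hVZ (MvPolynomial (Fin r) ℤ) (r + 3) (by omega)
    (fun n hn => hSR.1 r n (by omega))).1

end Pool.Agent.SLZ
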