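import Pool.Agent.SLZ.StKA
import Pool.Agent.SLZ.FAll

/-!
# SLZ, module KA: Brown's criterion for the complex `T`
-/

set_option autoImplicit false
set_option linter.unusedVariables false

noncomputable section

namespace Pool.Agent.SLZ

open Polynomial

private theorem KA_mono (R : Type) [Ring R] (i k : ℕ) (hik : i ≤ k) (M : Type) [AddCommGroup M] [Module R M]
    (h : FPm R k M) : FPm R i M := by
  induction k with
  | zero =>
    obtain rfl : i = 0 := by omega
    exact h
  | succ k ih =>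
    rcases Nat.lt_or_ge k i with h1 | h1
    · obtain rfl : i = k + 1 := by omega
      exact h
    · exact ih h1 ((all_FM1 R).2.2.2.1 k M h)

theorem thm_KA (h1 : St_KA1) (h2 : St_KA2) (h3 : St_KA3) (hBA : St_BA) : St_KA := by
  intro A _ _ s hKF hAC hGL hP k
  obtain ⟨C, hC⟩ := hBA A s hKF hAC hGL k
  obtain ⟨m1, hm1⟩ := hP (k + 1)
  set m := max (max m1 C) 1 with hm
  have hmm1 : m1 ≤ m := (le_max_left _ _).trans (le_max_left _ _)
  have hCm : C ≤ m := (le_max_right _ _).trans (le_max_left _ _)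
  have h1m : 1 ≤ m := le_max_right _ _
  obtain ⟨hPD, J, N, hPC⟩ := hm1 m hmm1
  refine ⟨max N (m * J + C), ?_⟩
  intro n hn
  have hnN : N ≤ n := (le_max_left _ _).trans hn
  have hnJ : m * J + C ≤ n := (le_max_right _ _).trans hn
  let b0 : Module.Basis (Fin n) A[X] (Fin n → A[X]) := Pi.basisFun A[X] (Fin n)
  have hG : FPG k ((Fin n → A[X]) ≃ₗ[A[X]] (Fin n → A[X])) := by
    refine all_FBL ((Fin n → A[X]) ≃ₗ[A[X]] (Fin n → A[X])) (Lat A (Fin n → A[X]))
      (TT A (Fin n → A[X]) m J) k ?_ ?_ ?_ ?_ ?_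
    · intro x hx
      exact absurd hx List.not_mem_nil
    · intro g l hl
      exact (((h1 A (Fin n → A[X])).2.2 (Fin n → A[X]) g).2.2 m J l).2 hl
    · exact hPC (Fin n → A[X]) n b0 hnN
    · intro j hj
      exact h2 A m hPD (Fin n → A[X]) n b0 J j
    · intro l hl hne i hi
      have hlen : 1 ≤ l.length := List.length_pos_iff.2 hne
      refine h3 A m C i hPD h1m hCm ?_ (Fin n → A[X]) n b0 J hnJ l hl hne
      intro n' hn' a b V _ _ S T hST
      exact KA_mono _ i k (by omega) _ (hC n' hn' a b V S T hST)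
  refine all_FSub.1 ((Fin n → A[X]) ≃ₗ[A[X]] (Fin n → A[X])) (GL (Fin n) A[X]) k ?_ hG
  exact ⟨((Matrix.GeneralLinearGroup.toLin).trans
    (LinearMap.GeneralLinearGroup.generalLinearEquiv A[X] (Fin n → A[X]))).symm⟩

end Pool.Agent.SLZ
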