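import Pool.Agent.SLZ.StKJ

/-!
# SLZ, KJ: pushing chains of `T` from the degree `m (J + 1)` to the degree `m J`
-/

set_option autoImplicit false
set_option linter.unusedVariables false

noncomputable section

namespace Pool.Agent.SLZ

open Polynomial

section

variable {A : Type} [CommRing A] {V : Type} [AddCommGroup V] [Module A V] [Module A[X] V]
  [IsScalarTower A A[X] V]

theorem KJ_adj_refl {m J : ℕ} {E : Lat A V} (hE : E ∈ TV A V m J) : adjL E E := by
  obtain ⟨n, d, b, _, _, _, rfl⟩ := hE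
  refine Or.inl ⟨le_refl _, fun k v hv i n h => hv i n ?_⟩
  omega

omit [Module A[X] V] [IsScalarTower A A[X] V] in
theorem KJ_adj_symm {E F : Lat A V} (h : adjL E F) : adjL F E := h.symm

/-- a complex without lists is exact everywhere -/
theorem KJ_empty {W : Type} (B : Cx W) (h : ∀ l, l ∉ B.s) (c : ℕ) : Conn B c := by
  intro j _ z hz _
  have hz0 : z = 0 := by
    rw [← Finsupp.support_eq_empty, Finset.eq_empty_iff_forall_notMem]
    intro l hl
    exact h l (hz (Finset.mem_coe.mpr hl)).1
  exact ⟨0, Submodule.zero_mem _, by rw [map_zero, hz0]⟩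

theorem KJ_mono {W : Type} {B : Cx W} {c c' : ℕ} (h : Conn B c) (hc : c' ≤ c) : Conn B c' :=
  fun j hj => h j (lt_of_lt_of_le hj hc)

/-- the complexes with the same lists -/
theorem KJ_congr {W : Type} {B B' : Cx W} (h : B.s = B'.s) {c : ℕ} (hB : Conn B c) :
    Conn B' c := by
  intro j hj z hz hbd
  rw [← h] at hz
  obtain ⟨y, hy, hy2⟩ := hB j hj z hz hbd
  rw [h] at hy
  exact ⟨y, hy, hy2⟩

end

theorem thm_KJ (h1 : St_KJ1) (h2 : St_KJ2) (h3 : St_KJ3) (hVP : St_VP) (hVJ : St_VJ) : St_KJ := by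
  intro A _ _ m hm hV4 hD V _ _ _ _ _ _ J j hj c hc hbd
  obtain ⟨-, k2, -, k4, k5, -⟩ := h1 A V m
  have k2' := k2 hD
  -- the link of a lattice of degree `m (J + 1)`
  have hlow : ∀ E ∈ TV A V m (J + 1), dgL E = m * (J + 1) → Conn (Fl adjL (LowT m J E)) J := by
    intro E hE hdE
    obtain ⟨a1, a2, a3, a4⟩ := h2 A V m J hD hm E hE hdE
    have hc1 := hV4 (WQ E) (PQ E) (J + 1) a1 a2
    have b1 := h3 A V m J hm E hE hdE
    choose g hg1 hg2 using b1
    classical
    let f : Submodule A (WQ E) → Lat A V := fun H =>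
      if hH : H ∈ YS A (WQ E) (PQ E) m (J + 1) then g H hH else E
    have hf : ∀ H (hH : H ∈ YS A (WQ E) (PQ E) m (J + 1)), f H ∈ LowT m J E ∧ HQ E (f H) = H := by
      intro H hH
      have : f H = g H hH := dif_pos hH
      rw [this]
      exact ⟨hg1 H hH, hg2 H hH⟩
    refine (hVJ.1 (Submodule A (WQ E)) (Lat A V) (Fl cmp (YS A (WQ E) (PQ E) m (J + 1)))
      (Fl adjL (LowT m J E)) f (HQ E) J ?_ ?_ ?_).1 hc1
    · intro l hl x hx
      obtain ⟨H, hH, rfl⟩ := List.mem_map.mp hx
      refine ⟨(hf H (hl H hH).1).1, fun y hy => ?_⟩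
      obtain ⟨H', hH', rfl⟩ := List.mem_map.mp hy
      rw [(a4 _ (hf H (hl H hH).1).1 _ (hf H' (hl H' hH').1).1).1, (hf H (hl H hH).1).2,
        (hf H' (hl H' hH').1).2]
      exact (hl H hH).2 H' hH'
    · intro l hl x hx
      obtain ⟨F, hF, rfl⟩ := List.mem_map.mp hx
      refine ⟨a3 F (hl F hF).1, fun y hy => ?_⟩
      obtain ⟨F', hF', rfl⟩ := List.mem_map.mp hy
      rw [← (a4 F (hl F hF).1 F' (hl F' hF').1).1]
      exact (hl F hF).2 F' hF'
    · intro l hl F hF
      have hFY := a3 F (hl F hF).1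
      exact (a4 _ (hf _ hFY).1 F (hl F hF).1).2 (hf _ hFY).2
  -- the push
  have key := (hVP (Lat A V) (TT A V m (J + 1)) (TV A V m J)).1 (j + 1) (by
    intro σ hσ hnd hX
    by_cases hσT : σ ∈ (TT A V m (J + 1)).s
    · have hdeg : ∀ E ∈ σ, dgL E = m * (J + 1) := by
        intro E hE
        rcases k4 J E (hσT E hE).1 with h | h
        · exact absurd h (hX E hE)
        · exact h
      have hall : ∀ E ∈ σ, ∀ E' ∈ σ, E = E' := by
        intro E hE E' hE'
        rcases (hσT E hE).2 E' hE' with h | h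
        · exact (k2' (J + 1) E (hσT E hE).1 E' (hσT E' hE').1 h).2
            ((hdeg E hE).trans (hdeg E' hE').symm)
        · exact ((k2' (J + 1) E' (hσT E' hE').1 E (hσT E hE).1 h).2
            ((hdeg E' hE').trans (hdeg E hE).symm)).symm
      obtain ⟨E, hE⟩ : ∃ E, σ = [E] := by
        rcases σ with _ | ⟨E, σ⟩
        · exact absurd rfl hσ
        · rcases σ with _ | ⟨E', σ⟩
          · exact ⟨E, rfl⟩
          · exfalso
            have h5 := hall E (by simp) E' (by simp)
            rw [List.nodup_cons] at hnd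
            exact hnd.1 (by rw [h5]; simp)
      subst hE
      have hET : E ∈ TV A V m (J + 1) := (hσT E (by simp)).1
      have h6 : Conn (Fl adjL (LowT m J E)) (j + 1 + 1 - [E].length) :=
        KJ_mono (hlow E hET (hdeg E (by simp))) (by simp; omega)
      refine KJ_congr ?_ h6
      ext l
      constructor
      · intro hl
        refine ⟨?_, fun v hv => (hl v hv).1.1⟩
        intro x hx
        rcases List.mem_append.mp hx with hx | hx
        · rw [List.mem_singleton] at hx
          subst hx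
          refine ⟨hET, fun y hy => ?_⟩
          rcases List.mem_append.mp hy with hy | hy
          · rw [List.mem_singleton] at hy
            subst hy
            exact KJ_adj_refl hET
          · exact (hl y hy).1.2
        · refine ⟨k5 J (hl x hx).1.1, fun y hy => ?_⟩
          rcases List.mem_append.mp hy with hy | hy
          · rw [List.mem_singleton] at hy
            rw [hy]
            exact KJ_adj_symm (hl x hx).1.2
          · exact (hl x hx).2 y hy
      · rintro ⟨hl1, hl2⟩ x hx
        refine ⟨⟨hl2 x hx, ?_⟩, fun y hy => ?_⟩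
        · exact (hl1 E (by simp)).2 x (List.mem_append_right _ hx)
        · exact (hl1 x (List.mem_append_right _ hx)).2 y (List.mem_append_right _ hy)
    · refine KJ_empty _ ?_ _
      rintro l ⟨hl, -⟩
      exact hσT ((TT A V m (J + 1)).mono _ _ (List.subset_append_left _ _) hl)) c hc (by
    intro l hl v hv
    exact ((hbd (Finset.mem_coe.mpr hl)).1 v hv).1)
  obtain ⟨c', hc', e, he, h7⟩ := key
  refine ⟨c', ?_, e, he, h7⟩
  intro l hl
  obtain ⟨⟨hl1, hl2⟩, hl3⟩ := hc' hl
  exact ⟨fun x hx => ⟨hl2 x hx, (hl1 x hx).2⟩, hl3⟩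

end Pool.Agent.SLZ
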