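import Pool.Agent.SLZ.StRD

/-!
# SLZ, RD1: elementary properties of the lattice `OL b (i < d)` (helper24)
-/

set_option autoImplicit false
set_option linter.unusedVariables false

noncomputable section

namespace Pool.Agent.SLZ

open Polynomial

section

variable {A : Type} [CommRing A] {V : Type} [AddCommGroup V] [Module A V]
  [Module A[X] V] [IsScalarTower A A[X] V] {n : ℕ} (b : Module.Basis (Fin n) A[X] V)

theorem RD1_mem (w : Fin n → ℤ) (k : ℤ) (v : V) :
    v ∈ OL b w k ↔ ∀ (i : Fin n) (m : ℕ), k + w i < m → (b.repr v i).coeff m = 0 := Iff.rfl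

theorem RD1_smulA (c : A) (v : V) (i : Fin n) : b.repr (c • v) i = C c * b.repr v i := by
  have h1 : c • v = (C c : A[X]) • v := by
    rw [← algebraMap_smul A[X] c v]
    rfl
  rw [h1, map_smul, Finsupp.smul_apply, smul_eq_mul]

/-- the vector with given coordinates -/
def RD1_vec (f : Fin n → A[X]) : V := ∑ i, f i • b i

theorem RD1_repr_vec (f : Fin n → A[X]) (i : Fin n) : b.repr (RD1_vec b f) i = f i := by
  classical
  have h := b.repr_sum_self f
  exact congrFun h i

theorem RD1_vec_repr (v : V) : RD1_vec b (fun i => b.repr v i) = v := b.sum_repr v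

theorem RD1_ext (u v : V) (h : ∀ i, b.repr u i = b.repr v i) : u = v :=
  b.repr.injective (Finsupp.ext h)

theorem RD1_mono (w : Fin n → ℤ) (k l : ℤ) (h : k ≤ l) : OL b w k ≤ OL b w l :=
  fun v hv i m hm => hv i m (by linarith)

theorem RD1_X (w : Fin n → ℤ) (k : ℤ) (v : V) (hv : v ∈ OL b w k) :
    (X : A[X]) • v ∈ OL b w (k + 1) := by
  intro i m hm
  rw [map_smul, Finsupp.smul_apply, smul_eq_mul]
  rcases m with _ | m
  · exact coeff_X_mul_zero _
  · rw [coeff_X_mul]
    refine hv i m ?_
    push_cast at hm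
    linarith

theorem RD1_X' (w : Fin n → ℤ) (k : ℤ) (v : V) (hv : (X : A[X]) • v ∈ OL b w k) :
    v ∈ OL b w (k - 1) := by
  intro i m hm
  have h := hv i (m + 1) (by push_cast; linarith)
  rw [map_smul, Finsupp.smul_apply, smul_eq_mul, coeff_X_mul] at h
  exact h

theorem RD1_Xpow (w : Fin n → ℤ) (j : ℕ) (k : ℤ) (v : V) :
    (X : A[X]) ^ j • v ∈ OL b w k → v ∈ OL b w (k - j) := by
  intro hv i m hm
  have h := hv i (m + j) (by push_cast; linarith)
  rw [map_smul, Finsupp.smul_apply, smul_eq_mul, coeff_X_pow_mul] at h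
  exact h

theorem RD1_split (w : Fin n → ℤ) (hw : ∀ i, 0 ≤ w i) (k : ℤ) (v : V) (hk : 0 ≤ k)
    (hv : v ∈ OL b w (k + 1)) : ∃ u ∈ OL b w k, ∃ x ∈ OL b w k, v = u + (X : A[X]) • x := by
  refine ⟨RD1_vec b fun i => C ((b.repr v i).coeff 0), ?_, RD1_vec b fun i => divX (b.repr v i),
    ?_, ?_⟩
  · intro i m hm
    rw [RD1_repr_vec, coeff_C, if_neg]
    rintro rfl
    have := hw i
    push_cast at hm
    linarith
  · intro i m hm
    rw [RD1_repr_vec, coeff_divX]
    exact hv i (m + 1) (by push_cast; linarith)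
  · refine RD1_ext b _ _ fun i => ?_
    rw [map_add, Finsupp.add_apply, map_smul, Finsupp.smul_apply, RD1_repr_vec, RD1_repr_vec,
      smul_eq_mul, add_comm, mul_comm]
    exact (divX_mul_X_add _).symm

/-- the coefficients of the coordinates -/
def RD1_cf (m : Fin n → ℕ) : V →ₗ[A] (Fin n → A) where
  toFun v i := (b.repr v i).coeff (m i)
  map_add' u v := by
    funext i
    rw [map_add, Finsupp.add_apply, coeff_add]
    rfl
  map_smul' c v := by
    funext i
    rw [RD1_smulA, coeff_C_mul]
    rfl

theorem RD1_quot (w : Fin n → ℕ) (E : Lat A V) (hE : E = OL b fun i => (w i : ℤ)) :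
    Nonempty (((E 0) ⧸ ((E (-1)).comap (E 0).subtype)) ≃ₗ[A] (Fin n → A)) := by
  subst hE
  set E : Lat A V := OL b fun i => (w i : ℤ) with hE
  let f : (E 0) →ₗ[A] (Fin n → A) := RD1_cf b w ∘ₗ (E 0).subtype
  have hk : (E (-1)).comap (E 0).subtype = LinearMap.ker f := by
    ext v
    rw [LinearMap.mem_ker, Submodule.mem_comap]
    constructor
    · intro hv
      funext i
      exact hv i (w i) (by linarith)
    · intro hv i m hm
      have h1 : (w i : ℤ) ≤ m := by linarith
      rcases h1.lt_or_eq with h2 | h2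
      · exact v.2 i m (by rwa [zero_add])
      · have h3 : w i = m := by exact_mod_cast h2
        subst h3
        exact congrFun hv i
  have hs : Function.Surjective f := by
    intro g
    refine ⟨⟨RD1_vec b fun i => C (g i) * X ^ (w i), ?_⟩, ?_⟩
    · intro i m hm
      rw [RD1_repr_vec, coeff_C_mul, coeff_X_pow, if_neg, mul_zero]
      rintro rfl
      simp at hm
    · funext i
      change (b.repr (RD1_vec b fun i => C (g i) * X ^ (w i)) i).coeff (w i) = g i
      rw [RD1_repr_vec, coeff_C_mul, coeff_X_pow, if_pos rfl, mul_one]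
  exact ⟨(Submodule.quotEquivOfEq _ _ hk).trans (f.quotKerEquivOfSurjective hs)⟩

theorem RD1_bas (d : ℕ) (hd : d ≤ n) (E : Lat A V)
    (hE : E = OL b fun i => if i.val < d then (1 : ℤ) else 0) :
    ∃ e : Module.Basis (Fin d) A (E (-1)), ∀ i : Fin d, ∀ h : i.val < n,
      (e i : V) = b ⟨i.val, h⟩ := by
  subst hE
  set E : Lat A V := OL b fun i => if i.val < d then (1 : ℤ) else 0 with hE
  have hmem : ∀ g : Fin d → A, (RD1_vec b fun i => if h : i.val < d then C (g ⟨i.val, h⟩) else 0) ∈
      E (-1) := by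
    intro g i m hm
    rw [RD1_repr_vec]
    split_ifs with h
    · beta_reduce at hm
      rw [if_pos h] at hm
      rw [coeff_C, if_neg]
      rintro rfl
      simp at hm
    · exact coeff_zero m
  let ε : (E (-1)) ≃ₗ[A] (Fin d → A) :=
    { toFun := fun v i => (b.repr v.1 ⟨i.val, lt_of_lt_of_le i.2 hd⟩).coeff 0
      map_add' := by
        intro u v
        funext i
        change (b.repr (u.1 + v.1) _).coeff 0 = _
        rw [map_add, Finsupp.add_apply, coeff_add]
        rfl
      map_smul' := by
        intro c v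
        funext i
        change (b.repr (c • v.1) _).coeff 0 = _
        rw [RD1_smulA, coeff_C_mul]
        rfl
      invFun := fun g => ⟨_, hmem g⟩
      left_inv := by
        intro v
        refine Subtype.ext (RD1_ext b _ _ fun i => ?_)
        change b.repr (RD1_vec b _) i = b.repr v.1 i
        rw [RD1_repr_vec]
        split_ifs with h
        · ext m
          rw [coeff_C]
          split_ifs with hm
          · rw [hm]
          · refine (v.2 i m ?_).symm
            beta_reduce
            rw [if_pos h]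
            have : 1 ≤ m := Nat.one_le_iff_ne_zero.2 hm
            have h2 : (1 : ℤ) ≤ m := by exact_mod_cast this
            linarith
        · ext m
          rw [coeff_zero]
          refine (v.2 i m ?_).symm
          beta_reduce
          rw [if_neg h]
          have : (0 : ℤ) ≤ m := Int.natCast_nonneg m
          linarith
      right_inv := by
        intro g
        funext i
        change (b.repr (RD1_vec b _) _).coeff 0 = g i
        rw [RD1_repr_vec, dif_pos i.2, coeff_C_zero] }
  refine ⟨Module.Basis.ofEquivFun ε, fun i h => ?_⟩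
  have h1 : (Module.Basis.ofEquivFun ε) i = ε.symm (Pi.single i 1) := by
    rw [Module.Basis.coe_ofEquivFun]
  rw [h1]
  refine RD1_ext b _ _ fun j => ?_
  change b.repr (RD1_vec b _) j = _
  rw [RD1_repr_vec, Module.Basis.repr_self, Finsupp.single_apply]
  by_cases hj : j.val < d
  · rw [dif_pos hj, Pi.single_apply]
    by_cases hij : (⟨i.val, h⟩ : Fin n) = j
    · subst hij
      rw [if_pos rfl, if_pos rfl, C_1]
    · rw [if_neg hij, if_neg, C_0]
      intro hji
      apply hij
      apply Fin.ext
      exact (congrArg Fin.val hji).symm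
  · rw [dif_neg hj, if_neg]
    rintro rfl
    exact hj i.2

theorem RD1_small (d : ℕ) (E : Lat A V)
    (hE : E = OL b fun i => if i.val < d then (1 : ℤ) else 0) (E' : Lat A V)
    (h1 : ∀ (k : ℤ) (v : V), v ∈ E' k → (X : A[X]) • v ∈ E' (k + 1))
    (h2 : ∀ k l : ℤ, k ≤ l → E' k ≤ E' l) (h3 : ∀ i : Fin n, i.val < d → b i ∈ E' (-1))
    (h4 : ∀ i : Fin n, b i ∈ E' 0) : E ≤ E' := by
  subst hE
  have hX : ∀ (j : ℕ) (k : ℤ) (v : V), v ∈ E' k → (X : A[X]) ^ j • v ∈ E' (k + j) := by
    intro j
    induction j with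
    | zero =>
      intro k v hv
      simpa using hv
    | succ j ih =>
      intro k v hv
      have h5 := h1 _ _ (ih k v hv)
      rw [smul_smul, ← pow_succ'] at h5
      have h6 : k + ((j + 1 : ℕ) : ℤ) = k + j + 1 := by push_cast; ring
      rw [h6]
      exact h5
  intro k v hv
  rw [← b.sum_repr v]
  refine Submodule.sum_mem _ fun i _ => ?_
  have h5 : b.repr v i • b i = ∑ m ∈ (b.repr v i).support,
      (b.repr v i).coeff m • ((X : A[X]) ^ m • b i) := by
    conv_lhs => rw [(b.repr v i).as_sum_support_C_mul_X_pow]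
    rw [Finset.sum_smul]
    refine Finset.sum_congr rfl fun m _ => ?_
    rw [mul_smul, ← algebraMap_smul A[X] ((b.repr v i).coeff m)]
    rfl
  rw [h5]
  refine Submodule.sum_mem _ fun m hm => Submodule.smul_mem _ _ ?_
  have h6 : (m : ℤ) ≤ k + (if i.val < d then (1 : ℤ) else 0) := by
    by_contra h7
    exact (mem_support_iff.1 hm) (hv i m (not_le.1 h7))
  by_cases hi : i.val < d
  · rw [if_pos hi] at h6
    exact h2 (-1 + m) k (by linarith) (hX m (-1) _ (h3 i hi))
  · rw [if_neg hi] at h6
    exact h2 (0 + m) k (by linarith) (hX m 0 _ (h4 i))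

end

/-- **RD1** -/
theorem thm_RD1 : St_RD1 := by
  intro A _ _ V _ _ _ _ n d b E hd hE
  have hw : ∀ i : Fin n, 0 ≤ (if i.val < d then (1 : ℤ) else 0) := by
    intro i
    split_ifs
    · exact zero_le_one
    · exact le_rfl
  refine ⟨?_, ?_, ?_, ?_, ?_, RD1_bas b d hd E hE, ?_, ?_, ?_⟩
  · rw [hE]
    exact RD1_mono b _
  · rw [hE]
    exact RD1_X b _
  · rw [hE]
    exact RD1_X' b _
  · rw [hE]
    exact RD1_split b _ hw
  · refine RD1_quot b (fun i => if i.val < d then 1 else 0) E ?_
    rw [hE]
    congr 1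
    funext i
    split_ifs <;> simp
  · intro E' h1 h2 h3 h4
    exact RD1_small b d E hE E' h1 h2 h3 h4
  · intro k u hu
    rw [hE] at hu ⊢
    have h := RD1_Xpow b _ (k + 1) k u hu
    have h2 : (k : ℤ) - ((k + 1 : ℕ) : ℤ) = -1 := by push_cast; ring
    rwa [h2] at h
  · intro k hk
    rw [eq_bot_iff]
    intro v hv
    rw [hE] at hv
    rw [Submodule.mem_bot]
    refine RD1_ext b _ _ fun i => ?_
    rw [map_zero, Finsupp.zero_apply]
    ext m
    rw [coeff_zero]
    refine hv i m ?_
    have : (0 : ℤ) ≤ m := Int.natCast_nonneg m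
    have h2 : (if i.val < d then (1 : ℤ) else 0) ≤ 1 := by split_ifs <;> norm_num
    linarith

end Pool.Agent.SLZ
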