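import Pool.Agent.SLZ.StRD

/-!
# SLZ, RD2: pairs of lattices `E ≤ E' ≤ E(1)` (helper24)
-/

set_option autoImplicit false
set_option linter.unusedVariables false

noncomputable section

namespace Pool.Agent.SLZ

open Polynomial

section

variable {A : Type} [CommRing A]

theorem RD2_q (hFFQ : St_FFQ) {C M1 M2 : Type} [AddCommGroup C] [Module A C] [AddCommGroup M1]
    [Module A M1] [AddCommGroup M2] [Module A M2] {a b d : ℕ} (i0 : C →ₗ[A] M1)
    (h0 : M1 →ₗ[A] M2) (g0 : M2 →ₗ[A] C) (hi : Function.Injective i0)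
    (h1 : ∀ x, h0 x = 0 ↔ ∃ c, i0 c = x) (h2 : ∀ y, g0 y = 0 ↔ ∃ x, h0 x = y)
    (hg : Function.Surjective g0) (e1 : M1 ≃ₗ[A] (Fin a → A)) (e2 : M2 ≃ₗ[A] (Fin b → A))
    (hC : FF A d C) : SF A C := by
  refine hFFQ A C a b d (e1.toLinearMap ∘ₗ i0) (e2.toLinearMap ∘ₗ h0 ∘ₗ e1.symm.toLinearMap)
    (g0 ∘ₗ e2.symm.toLinearMap) (e1.injective.comp hi) ?_ ?_ (hg.comp e2.symm.surjective) hC
  · ext x
    rw [LinearMap.mem_range, LinearMap.mem_ker]
    change (∃ y, e1 (i0 y) = x) ↔ e2 (h0 (e1.symm x)) = 0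
    rw [LinearEquiv.map_eq_zero_iff, h1]
    constructor
    · rintro ⟨y, rfl⟩
      exact ⟨y, by simp⟩
    · rintro ⟨y, hy⟩
      exact ⟨y, by rw [hy]; simp⟩
  · ext x
    rw [LinearMap.mem_range, LinearMap.mem_ker]
    change (∃ y, e2 (h0 (e1.symm y)) = x) ↔ g0 (e2.symm x) = 0
    rw [h2]
    constructor
    · rintro ⟨y, rfl⟩
      exact ⟨e1.symm y, by simp⟩
    · rintro ⟨y, hy⟩
      exact ⟨e1 y, by rw [LinearEquiv.symm_apply_apply, hy]; simp⟩

theorem RD2_abs (hFFQ : St_FFQ) {V : Type} [AddCommGroup V] [Module A V]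
    (Q P R T : Submodule A V) (hQP : Q ≤ P) (hPR : P ≤ R) (hRT : R ≤ T) (φ : V →ₗ[A] V)
    (f1 : ∀ v ∈ P, φ v ∈ T) (f2 : ∀ c ∈ T, ∃ e ∈ R, ∃ v ∈ P, c = e + φ v)
    (f3 : ∀ v ∈ P, φ v ∈ R ↔ v ∈ Q) {a b d : ℕ}
    (e1 : (R ⧸ (Q.comap R.subtype)) ≃ₗ[A] (Fin a → A))
    (e2 : (T ⧸ (P.comap T.subtype)) ≃ₗ[A] (Fin b → A))
    (hC : FF A d (P ⧸ (Q.comap P.subtype))) : SF A (P ⧸ (Q.comap P.subtype)) := by
  have hPT : P ≤ T := hPR.trans hRT
  -- the isomorphism of P / Q and T / R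
  let ψ : P →ₗ[A] (T ⧸ (R.comap T.subtype)) :=
    (R.comap T.subtype).mkQ ∘ₗ (φ.restrict (p := P) (q := T) f1)
  have hψ : ∀ v : P, ψ v = 0 ↔ (v : V) ∈ Q := by
    intro v
    change (Submodule.Quotient.mk _ : T ⧸ (R.comap T.subtype)) = 0 ↔ _
    rw [Submodule.Quotient.mk_eq_zero, Submodule.mem_comap]
    exact f3 v.1 v.2
  have hk : Q.comap P.subtype = LinearMap.ker ψ := by
    ext v
    rw [LinearMap.mem_ker, hψ]
    rfl
  have hs : Function.Surjective ψ := by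
    intro y
    obtain ⟨c, rfl⟩ := Submodule.Quotient.mk_surjective _ y
    obtain ⟨e, he, v, hv, hc⟩ := f2 c.1 c.2
    refine ⟨⟨v, hv⟩, ?_⟩
    change (Submodule.Quotient.mk _ : T ⧸ (R.comap T.subtype)) = Submodule.Quotient.mk c
    rw [Submodule.Quotient.eq, Submodule.mem_comap]
    change φ v - c.1 ∈ R
    rw [hc, sub_add_cancel_right]
    exact R.neg_mem he
  let ε : (P ⧸ (Q.comap P.subtype)) ≃ₗ[A] (T ⧸ (R.comap T.subtype)) :=
    (Submodule.quotEquivOfEq _ _ hk).trans (ψ.quotKerEquivOfSurjective hs)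
  -- the three maps
  let i0 : (P ⧸ (Q.comap P.subtype)) →ₗ[A] (R ⧸ (Q.comap R.subtype)) :=
    Submodule.mapQ _ _ (Submodule.inclusion hPR) (fun v hv => hv)
  let h0 : (R ⧸ (Q.comap R.subtype)) →ₗ[A] (T ⧸ (P.comap T.subtype)) :=
    Submodule.mapQ _ _ (Submodule.inclusion hRT) (fun v hv => hQP hv)
  let q0 : (T ⧸ (P.comap T.subtype)) →ₗ[A] (T ⧸ (R.comap T.subtype)) :=
    Submodule.mapQ _ _ LinearMap.id (fun v hv => hPR hv)
  have hi0 : ∀ v : P, i0 (Submodule.Quotient.mk v) =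
      Submodule.Quotient.mk (Submodule.inclusion hPR v) := fun v => rfl
  have hh0 : ∀ v : R, h0 (Submodule.Quotient.mk v) =
      Submodule.Quotient.mk (Submodule.inclusion hRT v) := fun v => rfl
  have hq0 : ∀ v : T, q0 (Submodule.Quotient.mk v) = Submodule.Quotient.mk v := fun v => rfl
  refine RD2_q hFFQ i0 h0 (ε.symm.toLinearMap ∘ₗ q0) ?_ ?_ ?_ ?_ e1 e2 hC
  · rw [injective_iff_map_eq_zero]
    intro y hy
    obtain ⟨v, rfl⟩ := Submodule.Quotient.mk_surjective _ y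
    rw [hi0, Submodule.Quotient.mk_eq_zero] at hy
    rw [Submodule.Quotient.mk_eq_zero]
    exact hy
  · intro x
    constructor
    · intro hx
      obtain ⟨v, rfl⟩ := Submodule.Quotient.mk_surjective _ x
      rw [hh0, Submodule.Quotient.mk_eq_zero] at hx
      have hv : (v : V) ∈ P := hx
      refine ⟨Submodule.Quotient.mk ⟨v.1, hv⟩, ?_⟩
      rw [hi0]
      rfl
    · rintro ⟨c, rfl⟩
      obtain ⟨v, rfl⟩ := Submodule.Quotient.mk_surjective _ c
      rw [hi0, hh0, Submodule.Quotient.mk_eq_zero]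
      exact v.2
  · intro y
    change ε.symm (q0 y) = 0 ↔ _
    rw [LinearEquiv.map_eq_zero_iff]
    constructor
    · intro hy
      obtain ⟨v, rfl⟩ := Submodule.Quotient.mk_surjective _ y
      rw [hq0, Submodule.Quotient.mk_eq_zero] at hy
      have hv : (v : V) ∈ R := hy
      refine ⟨Submodule.Quotient.mk ⟨v.1, hv⟩, ?_⟩
      rw [hh0]
      rfl
    · rintro ⟨x, rfl⟩
      obtain ⟨v, rfl⟩ := Submodule.Quotient.mk_surjective _ x
      rw [hh0, hq0, Submodule.Quotient.mk_eq_zero]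
      exact v.2
  · refine ε.symm.surjective.comp ?_
    intro y
    obtain ⟨v, rfl⟩ := Submodule.Quotient.mk_surjective _ y
    exact ⟨Submodule.Quotient.mk v, hq0 v⟩

end

/-- **RD2** -/
theorem thm_RD2 (h1 : St_RD1) (hFFQ : St_FFQ) : St_RD2 := by
  intro A _ _ hFF V _ _ _ _ m J E hE E' hE' hLR
  obtain ⟨n, d, b, hd, _, _, hEb⟩ := hE
  obtain ⟨n', d', b', hd', _, _, hEb'⟩ := hE'
  obtain ⟨a1, a2, a3, a4, a5, a6, _⟩ := h1 A V n d b E hd hEb
  obtain ⟨b1, b2, b3, b4, b5, b6, _⟩ := h1 A V n' d' b' E' hd' hEb'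
  have hle : ∀ k, E k ≤ E' k := hLR.1
  have hle1 : ∀ k, E' k ≤ E (k + 1) := hLR.2
  have hpart : ∀ c ∈ E' 0, ∃ e ∈ E 0, ∃ v ∈ E' (-1), c = e + (X : A[X]) • v := by
    intro c hc
    obtain ⟨e, he, v, hv, hcv⟩ := a4 0 c le_rfl (hle1 0 hc)
    refine ⟨e, he, v, ?_, hcv⟩
    have h2 : (X : A[X]) • v ∈ E' 0 := by
      have h3 : (X : A[X]) • v = c - e := by
        rw [hcv]
        abel
      rw [h3]
      exact (E' 0).sub_mem hc (hle 0 he)
    have h3 := b3 0 v h2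
    rwa [zero_sub] at h3
  refine ⟨hpart, ?_⟩
  obtain ⟨e1⟩ := a5
  obtain ⟨e2⟩ := b5
  obtain ⟨bas, _⟩ := b6
  have : Module.Finite A (E' (-1)) := Module.Finite.of_basis bas
  obtain ⟨d0, hd0⟩ := hFF ((E' (-1)) ⧸ ((E (-1)).comap (E' (-1)).subtype)) inferInstance
  refine RD2_abs hFFQ (E (-1)) (E' (-1)) (E 0) (E' 0) (hle _) ?_ (hle _)
    ((LinearMap.lsmul A[X] V X).restrictScalars A) ?_ ?_ ?_ e1 e2 hd0
  · have := hle1 (-1)
    rwa [neg_add_cancel] at this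
  · intro v hv
    have := b2 (-1) v hv
    rwa [neg_add_cancel] at this
  · exact hpart
  · intro v hv
    constructor
    · intro h
      have := a3 0 v h
      rwa [zero_sub] at this
    · intro h
      have := a2 (-1) v h
      rwa [neg_add_cancel] at this

end Pool.Agent.SLZ
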