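import Pool.Agent.SLZ.StRD

/-!
# SLZ, RD3: adapted bases for finite chains of submodules
-/

set_option autoImplicit false
set_option linter.unusedVariables false

noncomputable section

namespace Pool.Agent.SLZ

/-- one step: a basis of the quotient -/
theorem rd3_step {A : Type} [CommRing A] [Nontrivial A] {s m : ℕ} (hK : KerFree A s) (hs : s ≤ m)
    {M : Type} [AddCommGroup M] [Module A M] (W : Submodule A M) (hproj : Module.Projective A (M ⧸ W))
    {n1 k : ℕ} (bW : Module.Basis (Fin n1) A W) (hn1 : m ∣ n1) (hm : 1 ≤ m)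
    (ε : M ≃ₗ[A] (Fin (m * k) → A)) (hne : W ≠ ⊤) :
    ∃ n2, m ∣ n2 ∧ Nonempty (Module.Basis (Fin n2) A (M ⧸ W)) := by
  obtain ⟨σ, hσ⟩ := Module.projective_lifting_property W.mkQ LinearMap.id W.mkQ_surjective
  have hσ' : ∀ x, W.mkQ (σ x) = x := fun x => LinearMap.congr_fun hσ x
  have hmem : ∀ w, ((LinearMap.id : M →ₗ[A] M) - σ ∘ₗ W.mkQ) w ∈ W := by
    intro w
    rw [← Submodule.Quotient.mk_eq_zero W, ← Submodule.mkQ_apply]
    simp only [LinearMap.sub_apply, LinearMap.id_apply, LinearMap.comp_apply, map_sub, hσ', sub_self]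
  let r : M →ₗ[A] W := LinearMap.codRestrict W ((LinearMap.id : M →ₗ[A] M) - σ ∘ₗ W.mkQ) hmem
  have hr : ∀ x, ((r x : W) : M) = x - σ (W.mkQ x) := fun x => rfl
  have hrW : ∀ w : W, r w = w := by
    intro w
    apply Subtype.ext
    have h2 : W.mkQ (w : M) = 0 := by
      rw [Submodule.mkQ_apply]
      exact (Submodule.Quotient.mk_eq_zero W).2 w.2
    rw [hr, h2, map_zero, sub_zero]
  let f : (Fin (m * k) → A) →ₗ[A] (Fin n1 → A) :=
    bW.equivFun.toLinearMap ∘ₗ r ∘ₗ ε.symm.toLinearMap
  have hf0 : ∀ x, f x = 0 ↔ r (ε.symm x) = 0 := by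
    intro x
    show bW.equivFun (r (ε.symm x)) = 0 ↔ _
    rw [LinearEquiv.map_eq_zero_iff]
  have hfs : Function.Surjective f := by
    intro t
    refine ⟨ε ((bW.equivFun.symm t : W) : M), ?_⟩
    show bW.equivFun (r (ε.symm (ε ((bW.equivFun.symm t : W) : M)))) = t
    rw [LinearEquiv.symm_apply_apply, hrW, LinearEquiv.apply_symm_apply]
  have hle : n1 ≤ m * k := le_of_fin_surjective A f hfs
  -- the kernel of `f` is the quotient
  let φ : LinearMap.ker f →ₗ[A] (M ⧸ W) :=
    W.mkQ ∘ₗ ε.symm.toLinearMap ∘ₗ (LinearMap.ker f).subtype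
  have hφ : ∀ x : LinearMap.ker f, φ x = W.mkQ (ε.symm (x : Fin (m * k) → A)) := fun x => rfl
  have hinj : Function.Injective φ := by
    rw [injective_iff_map_eq_zero]
    rintro ⟨x, hx⟩ h
    rw [hφ, Submodule.mkQ_apply, Submodule.Quotient.mk_eq_zero] at h
    have h2 : r (ε.symm x) = 0 := (hf0 x).1 hx
    have h3 := hrW ⟨_, h⟩
    have h4 : ((r (ε.symm x) : W) : M) = ε.symm x := congrArg Subtype.val h3
    rw [h2] at h4
    have h5 : ε.symm x = 0 := h4.symm
    apply Subtype.ext
    exact (LinearEquiv.map_eq_zero_iff ε.symm).1 h5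
  have hsurj : Function.Surjective φ := by
    intro t
    have h1 : ε (σ t) ∈ LinearMap.ker f := by
      rw [LinearMap.mem_ker, hf0, LinearEquiv.symm_apply_apply]
      apply Subtype.ext
      rw [hr, hσ', sub_self]
      rfl
    refine ⟨⟨_, h1⟩, ?_⟩
    rw [hφ]
    show W.mkQ (ε.symm (ε (σ t))) = t
    rw [LinearEquiv.symm_apply_apply, hσ']
  let Φ : LinearMap.ker f ≃ₗ[A] (M ⧸ W) := LinearEquiv.ofBijective φ ⟨hinj, hsurj⟩
  have hlt : n1 ≠ m * k := by
    intro heq
    subst heq
    have h1 := OrzechProperty.injective_of_surjective_endomorphism f hfs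
    apply hne
    rw [eq_top_iff]
    intro x _
    obtain ⟨y, hy⟩ := hsurj (W.mkQ x)
    have h3 : (y : Fin (m * k) → A) = 0 := by
      apply h1
      rw [map_zero]
      exact y.2
    rw [hφ, h3, map_zero, map_zero] at hy
    rw [← Submodule.Quotient.mk_eq_zero W, ← Submodule.mkQ_apply]
    exact hy.symm
  obtain ⟨q, rfl⟩ := hn1
  have hqk : q < k := by
    by_contra hcon
    push Not at hcon
    have := Nat.mul_le_mul_left m hcon
    omega
  have hlen : m * q + s ≤ m * k := by
    have h1 : m * (q + 1) ≤ m * k := Nat.mul_le_mul_left m hqk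
    have h2 : m * (q + 1) = m * q + m := by ring
    omega
  obtain ⟨b⟩ := hK (m * k) (m * q) f hfs hlen
  refine ⟨m * k - m * q, ?_, ⟨b.map Φ⟩⟩
  rw [← Nat.mul_sub]
  exact dvd_mul_right _ _

theorem thm_RD3 (hFFP : St_FFP) : St_RD3 := by
  classical
  intro A _ _ s m hK hs hm P _ _ S hchain hfree hSF htop
  have claim : ∀ N : ℕ, ∀ Q ∈ S, (S.filter fun R => R < Q).card = N →
      ∃ (n : ℕ) (e : Module.Basis (Fin n) A Q), m ∣ n ∧ ∀ Q' ∈ S, Q' ≤ Q → ∃ d ≤ n, m ∣ d ∧
        ∀ v : Q, (v : P) ∈ Q' ↔ ∀ i : Fin n, d ≤ i.val → e.repr v i = 0 := by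
    intro N
    induction N using Nat.strong_induction_on with
    | _ N ih =>
      intro Q hQ hN
      obtain ⟨k, ⟨ε⟩⟩ := hfree Q hQ
      rcases (S.filter fun R => R < Q).eq_empty_or_nonempty with he | hne
      · refine ⟨m * k, Module.Basis.ofEquivFun ε, dvd_mul_right _ _, ?_⟩
        intro Q' hQ' hle
        have hEq : Q' = Q := by
          rcases lt_or_eq_of_le hle with h | h
          · have h1 : Q' ∈ S.filter fun R => R < Q := Finset.mem_filter.2 ⟨hQ', h⟩
            rw [he] at h1
            exact absurd h1 (Finset.notMem_empty _)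
          · exact h
        refine ⟨m * k, le_rfl, dvd_mul_right _ _, ?_⟩
        intro v
        rw [hEq]
        exact ⟨fun _ i hi => absurd i.2 (not_lt.2 hi), fun _ => v.2⟩
      · obtain ⟨Q1, hQ1⟩ := Finset.exists_maximal hne
        have hQ1mem := hQ1.prop
        rw [Finset.mem_filter] at hQ1mem
        obtain ⟨hQ1S, hQ1Q⟩ := hQ1mem
        have hmax : ∀ R ∈ S, R < Q → R ≤ Q1 := by
          intro R hR hRQ
          rcases hchain R hR Q1 hQ1S with h | h
          · exact h
          · exact hQ1.le_of_ge (Finset.mem_filter.2 ⟨hR, hRQ⟩) h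
        have hcard : (S.filter fun R => R < Q1).card < N := by
          rw [← hN]
          apply Finset.card_lt_card
          rw [Finset.ssubset_iff_of_subset]
          · exact ⟨Q1, Finset.mem_filter.2 ⟨hQ1S, hQ1Q⟩, fun h => lt_irrefl _ (Finset.mem_filter.1 h).2⟩
          · intro R hR
            rw [Finset.mem_filter] at hR ⊢
            exact ⟨hR.1, hR.2.trans hQ1Q⟩
        obtain ⟨n1, e1, hmn1, he1⟩ := ih _ hcard Q1 hQ1S rfl
        let W : Submodule A Q := Q1.comap Q.subtype
        let θ : W ≃ₗ[A] Q1 := Submodule.comapSubtypeEquivOfLe hQ1Q.le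
        have hθ : ∀ w : W, ((θ w : Q1) : P) = ((w : Q) : P) := fun w => rfl
        let bW : Module.Basis (Fin n1) A W := e1.map θ.symm
        have hbW : ∀ (w : W) i, bW.repr w i = e1.repr (θ w) i := fun w i => rfl
        have hproj : Module.Projective A (Q ⧸ W) :=
          ((hFFP A).2.2.2.2.2 (Q ⧸ W) (hSF Q1 hQ1S Q hQ hQ1Q.le)).1
        have hWne : W ≠ ⊤ := by
          intro h
          apply hQ1Q.not_ge
          intro x hx
          have h1 : (⟨x, hx⟩ : Q) ∈ W := by rw [h]; trivial
          exact h1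
        obtain ⟨n2, hmn2, ⟨bQ⟩⟩ := rd3_step hK hs W hproj bW hmn1 hm ε hWne
        let e0 := Module.Basis.sumQuot bW bQ
        let e : Module.Basis (Fin (n1 + n2)) A Q := e0.reindex finSumFinEquiv
        have hel : ∀ (v : Q) (i : Fin n1), e.repr v (Fin.castAdd n2 i) = e0.repr v (Sum.inl i) := by
          intro v i
          rw [Module.Basis.repr_reindex_apply, finSumFinEquiv_symm_apply_castAdd]
        have her : ∀ (v : Q) (j : Fin n2), e.repr v (Fin.natAdd n1 j) = bQ.repr (W.mkQ v) j := by
          intro v j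
          rw [Module.Basis.repr_reindex_apply, finSumFinEquiv_symm_apply_natAdd,
            Module.Basis.sumQuot_repr_inr]
        have hW0 : ∀ v : Q, v ∈ W ↔ ∀ j : Fin n2, bQ.repr (W.mkQ v) j = 0 := by
          intro v
          constructor
          · intro hv j
            have h2 : W.mkQ v = 0 := by
              rw [Submodule.mkQ_apply]
              exact (Submodule.Quotient.mk_eq_zero W).2 hv
            rw [h2, map_zero]
            rfl
          · intro hv
            have h2 : bQ.repr (W.mkQ v) = 0 := Finsupp.ext hv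
            have h3 : W.mkQ v = 0 := (LinearEquiv.map_eq_zero_iff bQ.repr).1 h2
            rw [Submodule.mkQ_apply, Submodule.Quotient.mk_eq_zero] at h3
            exact h3
        refine ⟨n1 + n2, e, dvd_add hmn1 hmn2, ?_⟩
        intro Q' hQ' hle
        rcases lt_or_eq_of_le hle with h | h
        · have hQ'1 := hmax Q' hQ' h
          obtain ⟨d, hd, hmd, hdv⟩ := he1 Q' hQ' hQ'1
          refine ⟨d, hd.trans (Nat.le_add_right _ _), hmd, ?_⟩
          intro v
          constructor
          · intro hv i hi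
            have hvW : v ∈ W := hQ'1 hv
            induction i using Fin.addCases with
            | left i =>
              rw [hel, Module.Basis.sumQuot_repr_inl_of_mem bW bQ v hvW, hbW]
              exact (hdv (θ ⟨v, hvW⟩)).1 hv i (by simpa using hi)
            | right j =>
              rw [her]
              exact (hW0 v).1 hvW j
          · intro hv
            have hvW : v ∈ W := by
              rw [hW0]
              intro j
              rw [← her]
              refine hv _ ?_
              rw [Fin.val_natAdd]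
              omega
            refine (hdv (θ ⟨v, hvW⟩)).2 ?_
            intro i hi
            rw [← hbW, ← Module.Basis.sumQuot_repr_inl_of_mem bW bQ v hvW, ← hel]
            exact hv _ (by simpa using hi)
        · refine ⟨n1 + n2, le_rfl, dvd_add hmn1 hmn2, ?_⟩
          intro v
          rw [h]
          exact ⟨fun _ i hi => absurd i.2 (not_lt.2 hi), fun _ => v.2⟩
  obtain ⟨n, e, hmn, he⟩ := claim _ ⊤ htop rfl
  refine ⟨n, e.map Submodule.topEquiv, ?_⟩
  intro Q hQ
  obtain ⟨d, hd, hmd, hv⟩ := he Q hQ le_top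
  refine ⟨d, hd, hmd, ?_⟩
  intro v
  exact hv (Submodule.topEquiv.symm v)

end Pool.Agent.SLZ
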