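import Pool.Agent.SLZ.StRD

/-!
# SLZ: module RPD, the simplices of `T` are standard
-/

set_option autoImplicit false

noncomputable section

namespace Pool.Agent.SLZ

open Polynomial

/-- a finite chain has a largest element -/
theorem RPD_top {α : Type} (r : α → α → Prop) (hr : ∀ x, r x x)
    (ht : ∀ x y z, r x y → r y z → r x z) : ∀ L : List α, L ≠ [] →
    (∀ x ∈ L, ∀ y ∈ L, r x y ∨ r y x) → ∃ m ∈ L, ∀ x ∈ L, r x m := by
  intro L
  induction L with
  | nil => intro h; exact absurd rfl h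
  | cons a L ih =>
    intro _ h
    by_cases hL : L = []
    · subst hL
      refine ⟨a, List.mem_cons_self, fun x hx => ?_⟩
      rw [List.mem_singleton.1 hx]
      exact hr a
    · obtain ⟨m, hm, hmax⟩ := ih hL (fun x hx y hy =>
        h x (List.mem_cons_of_mem _ hx) y (List.mem_cons_of_mem _ hy))
      rcases h a List.mem_cons_self m (List.mem_cons_of_mem _ hm) with h1 | h1
      · refine ⟨m, List.mem_cons_of_mem _ hm, fun x hx => ?_⟩
        rcases List.mem_cons.1 hx with rfl | hx
        · exact h1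
        · exact hmax x hx
      · refine ⟨a, List.mem_cons_self, fun x hx => ?_⟩
        rcases List.mem_cons.1 hx with rfl | hx
        · exact hr _
        · exact ht x m a (hmax x hx) h1

theorem RPD_SF {A : Type} [CommRing A] {M M' : Type} [AddCommGroup M] [Module A M]
    [AddCommGroup M'] [Module A M'] (e : M ≃ₗ[A] M') (h : SF A M) : SF A M' := by
  obtain ⟨m, n, ⟨f⟩⟩ := h
  exact ⟨m, n, ⟨(e.symm.prodCongr (LinearEquiv.refl A (Fin m → A))).trans f⟩⟩

theorem RPD_iso {A : Type} [CommRing A] {V : Type} [AddCommGroup V] [Module A V]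
    (P p q : Submodule A V) (hq : q ≤ P) (h : SF A (q ⧸ (p.comap q.subtype))) :
    SF A ((q.comap P.subtype) ⧸ ((p.comap P.subtype).comap (q.comap P.subtype).subtype)) := by
  refine RPD_SF (LinearEquiv.symm (Submodule.Quotient.equiv _ _
    (Submodule.comapSubtypeEquivOfLe hq) ?_)) h
  ext v
  constructor
  · rintro ⟨w, hw, rfl⟩
    exact hw
  · intro hv
    exact ⟨⟨⟨v.1, hq v.2⟩, v.2⟩, hv, rfl⟩

section lat

variable {A : Type} [CommRing A] {V : Type} [AddCommGroup V] [Module A V] [Module A[X] V]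
  [IsScalarTower A A[X] V]

theorem RPD_smul (c : A) (v : V) : c • v = (C c : A[X]) • v := by
  rw [← algebraMap_smul A[X] c v]
  rfl

theorem RPD_mem {n : ℕ} (b : Module.Basis (Fin n) A[X] V) (d : ℕ) (k : ℤ) (v : V) :
    v ∈ OL (A := A) b (fun i => if i.val < d then (1 : ℤ) else 0) k ↔ ∀ (i : Fin n) (j : ℕ),
      k + (if i.val < d then (1 : ℤ) else 0) < j → (b.repr v i).coeff j = 0 := Iff.rfl

/-- basis vectors are in degree `0` -/
theorem RPD_b0 {n : ℕ} (b : Module.Basis (Fin n) A[X] V) (d : ℕ) (i : Fin n) :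
    b i ∈ OL (A := A) b (fun i => if i.val < d then (1 : ℤ) else 0) 0 := by
  refine (RPD_mem b d 0 _).2 (fun j k hk => ?_)
  rw [Module.Basis.repr_self]
  by_cases h : j = i
  · subst h
    rw [Finsupp.single_eq_same, coeff_one, if_neg]
    rintro rfl
    split_ifs at hk <;> simp at hk
  · rw [Finsupp.single_eq_of_ne h, coeff_zero]

omit [Module A V] [IsScalarTower A A[X] V] in
/-- a family which spans is a basis -/
theorem RPD_basis [Nontrivial A] {n : ℕ} (b : Module.Basis (Fin n) A[X] V) (u : Fin n → V)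
    (hu : ∀ i, b i ∈ Submodule.span A[X] (Set.range u)) :
    ∃ b' : Module.Basis (Fin n) A[X] V, ∀ i, b' i = u i := by
  have hfin : Module.Finite A[X] V := Module.Finite.of_basis b
  have hsurj : Function.Surjective (b.constr A[X] u) := by
    rw [← LinearMap.range_eq_top, Module.Basis.constr_range, eq_top_iff, ← b.span_eq,
      Submodule.span_le]
    rintro _ ⟨i, rfl⟩
    exact hu i
  have hinj := OrzechProperty.injective_of_surjective_endomorphism _ hsurj
  refine ⟨b.map (LinearEquiv.ofBijective _ ⟨hinj, hsurj⟩), fun i => ?_⟩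
  rw [Module.Basis.map_apply]
  exact b.constr_basis A[X] u i

/-- the coordinates of a combination of the first basis vectors -/
theorem RPD_repr {n D : ℕ} (hD : D ≤ n) (b : Module.Basis (Fin n) A[X] V) (c : Fin D → A)
    (i : Fin n) : b.repr (∑ j : Fin D, c j • b (Fin.castLE hD j)) i =
      if h : i.val < D then C (c ⟨i.val, h⟩) else 0 := by
  have h1 : ∀ j : Fin D, b.repr (c j • b (Fin.castLE hD j)) i =
      if i = Fin.castLE hD j then C (c j) else 0 := by
    intro j
    rw [RPD_smul, map_smul, Finsupp.smul_apply, Module.Basis.repr_self, smul_eq_mul]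
    by_cases h : i = Fin.castLE hD j
    · rw [if_pos h, ← h, Finsupp.single_eq_same, mul_one]
    · rw [if_neg h, Finsupp.single_eq_of_ne h, mul_zero]
  rw [map_sum, Finsupp.coe_finsetSum, Finset.sum_apply]
  simp only [h1]
  by_cases h : i.val < D
  · rw [dif_pos h, Finset.sum_eq_single (⟨i.val, h⟩ : Fin D)]
    · rw [if_pos]
      ext
      rfl
    · intro j _ hj
      rw [if_neg]
      rintro rfl
      exact hj rfl
    · intro h'
      exact absurd (Finset.mem_univ _) h'
  · rw [dif_neg h]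
    refine Finset.sum_eq_zero fun j _ => if_neg ?_
    rintro rfl
    exact h j.2

end lat

/-- `St_RPD`. -/
theorem thm_RPD (h1 : St_RD1) (h2 : St_RD2) (h3 : St_RD3) : St_RPD := by
  classical
  intro A _ _ s m hFF hKF hsm hm1 V _ _ _ _ _ _ J L hL
  by_cases hL0 : L = []
  · subst hL0
    exact ⟨_, Module.finBasis A[X] V, fun E hE => absurd hE List.not_mem_nil⟩
  have hTV : ∀ E ∈ L, E ∈ TV A V m J := fun E hE => (hL E hE).1
  have hadj : ∀ E ∈ L, ∀ E' ∈ L, adjL E E' := fun E hE E' hE' => (hL E hE).2 E' hE'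
  have htot : ∀ E ∈ L, ∀ E' ∈ L, E ≤ E' ∨ E' ≤ E := by
    intro E hE E' hE'
    rcases hadj E hE E' hE' with h | h
    · exact Or.inl h.1
    · exact Or.inr h.1
  have hLR : ∀ E ∈ L, ∀ E' ∈ L, E ≤ E' → LR E E' := by
    intro E hE E' hE' hle
    rcases hadj E hE E' hE' with h | h
    · exact h
    · have h4 : E = E' := le_antisymm hle h.1
      subst h4
      exact h
  -- the largest and the smallest lattice
  obtain ⟨Ep, hEp, hmax⟩ := RPD_top (fun x y : Lat A V => x ≤ y) (fun x => le_refl x)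
    (fun x y z hxy hyz => le_trans hxy hyz) L hL0 htot
  obtain ⟨Em, hEm, hmin⟩ := RPD_top (fun x y : Lat A V => y ≤ x) (fun x => le_refl x)
    (fun x y z hxy hyz => le_trans hyz hxy) L hL0 (fun x hx y hy => (htot x hx y hy).symm)
  obtain ⟨n, D, bp, hDn, hmD, hDJ, hEpe⟩ := hTV Ep hEp
  obtain ⟨-, -, -, -, -, p6, p7, -, -⟩ := h1 A V n D bp Ep hDn hEpe
  obtain ⟨P, hP⟩ : ∃ P : Submodule A V, Ep (-1) = P := ⟨_, rfl⟩
  rw [hP] at p6
  obtain ⟨ep, hep⟩ := p6
  -- the chain of submodules
  set Q : Lat A V → Submodule A P := fun E => (E (-1)).comap P.subtype with hQ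
  have hle1 : ∀ E ∈ L, E (-1) ≤ P := fun E hE => hP ▸ hmax E hE (-1)
  obtain ⟨n1, e, he⟩ := h3 A s m hKF hsm hm1 P (L.map Q).toFinset (by
      intro R hR R' hR'
      rw [List.mem_toFinset, List.mem_map] at hR hR'
      obtain ⟨E, hE, rfl⟩ := hR
      obtain ⟨E', hE', rfl⟩ := hR'
      rcases htot E hE E' hE' with h | h
      · exact Or.inl (Submodule.comap_mono (h (-1)))
      · exact Or.inr (Submodule.comap_mono (h (-1)))) (by
      intro R hR
      rw [List.mem_toFinset, List.mem_map] at hR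
      obtain ⟨E, hE, rfl⟩ := hR
      obtain ⟨nE, dE, bE, hdn, ⟨k, hk⟩, -, hEe⟩ := hTV E hE
      obtain ⟨-, -, -, -, -, ⟨eE, -⟩, -⟩ := h1 A V nE dE bE E hdn hEe
      subst hk
      exact ⟨k, ⟨(Submodule.comapSubtypeEquivOfLe (hle1 E hE)).trans eE.equivFun⟩⟩) (by
      intro R hR R' hR' hRR
      rw [List.mem_toFinset, List.mem_map] at hR hR'
      obtain ⟨E, hE, rfl⟩ := hR
      obtain ⟨E', hE', rfl⟩ := hR'
      rcases htot E hE E' hE' with h | h
      · exact RPD_iso P (E (-1)) (E' (-1)) (hle1 E' hE')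
          (h2 A hFF V m J E (hTV E hE) E' (hTV E' hE') (hLR E hE E' hE' h)).2
      · have h4 : Q E = Q E' := le_antisymm hRR (Submodule.comap_mono (h (-1)))
        rw [h4]
        exact RPD_iso P (E' (-1)) (E' (-1)) (hle1 E' hE')
          (h2 A hFF V m J E' (hTV E' hE') E' (hTV E' hE') (hLR E' hE' E' hE' le_rfl)).2) (by
      rw [List.mem_toFinset, List.mem_map]
      refine ⟨Ep, hEp, ?_⟩
      change (Ep (-1)).comap P.subtype = ⊤
      rw [hP]
      exact Submodule.comap_subtype_self P)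
  have hn1 : n1 = D := by
    have h4 := Fintype.card_congr (e.indexEquiv ep)
    rwa [Fintype.card_fin, Fintype.card_fin] at h4
  subst hn1
  -- the new basis
  have hq : ∀ i : Fin n, ∃ q ∈ Em 0, ∃ v ∈ P, bp i = q + (X : A[X]) • v := by
    intro i
    have hb : bp i ∈ Ep 0 := by
      rw [hEpe]
      exact RPD_b0 bp n1 i
    rw [← hP]
    exact (h2 A hFF V m J Em (hTV Em hEm) Ep (hTV Ep hEp)
      (hLR Em hEm Ep hEp (hmax Em hEm))).1 (bp i) hb
  choose q hq0 v hvP hqv using hq
  obtain ⟨u, hu⟩ : ∃ u : Fin n → V, u = fun i => if h : i.val < n1 then (e ⟨i.val, h⟩ : V)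
      else q i := ⟨_, rfl⟩
  have hu1 : ∀ (j : Fin n1), u (Fin.castLE hDn j) = (e j : V) := by
    intro j
    rw [hu]
    have h4 : (Fin.castLE hDn j).val < n1 := j.2
    change (if h : (Fin.castLE hDn j).val < n1 then (e ⟨(Fin.castLE hDn j).val, h⟩ : V)
      else q _) = _
    rw [dif_pos h4]
    rfl
  have hu2 : ∀ i : Fin n, ¬ i.val < n1 → u i = q i := by
    intro i hi
    rw [hu]
    exact dif_neg hi
  have hPs : ∀ w : P, (w : V) = ∑ j : Fin n1, e.repr w j • u (Fin.castLE hDn j) := by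
    intro w
    have h4 := congrArg (P.subtype) (e.sum_repr w)
    rw [map_sum] at h4
    refine h4.symm.trans ?_
    refine Finset.sum_congr rfl fun j _ => ?_
    rw [hu1, map_smul]
    rfl
  have hPspan : ∀ w ∈ P, w ∈ Submodule.span A[X] (Set.range u) := by
    intro w hw
    have h4 : w = ∑ j : Fin n1, e.repr ⟨w, hw⟩ j • u (Fin.castLE hDn j) := hPs ⟨w, hw⟩
    rw [h4]
    refine Submodule.sum_mem _ fun j _ => ?_
    rw [RPD_smul]
    exact Submodule.smul_mem _ _ (Submodule.subset_span ⟨_, rfl⟩)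
  obtain ⟨b, hb⟩ := RPD_basis bp u (by
    intro i
    by_cases hi : i.val < n1
    · have h4 : bp i ∈ P := by
        have h5 := hep ⟨i.val, hi⟩ i.2
        have h6 : bp i = (ep ⟨i.val, hi⟩ : V) := h5.symm
        rw [h6]
        exact (ep ⟨i.val, hi⟩).2
      exact hPspan _ h4
    · rw [hqv i]
      refine Submodule.add_mem _ ?_ (Submodule.smul_mem _ _ (hPspan _ (hvP i)))
      rw [← hu2 i hi]
      exact Submodule.subset_span ⟨i, rfl⟩)
  -- coordinates of the elements of `P`
  have hPr : ∀ (w : V) (hw : w ∈ P) (i : Fin n), b.repr w i =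
      if h : i.val < n1 then C (e.repr ⟨w, hw⟩ ⟨i.val, h⟩) else 0 := by
    intro w hw i
    have h4 := RPD_repr hDn b (fun j => e.repr ⟨w, hw⟩ j) i
    rw [← h4]
    simp only [hb]
    have h5 : w = ∑ j : Fin n1, e.repr ⟨w, hw⟩ j • u (Fin.castLE hDn j) := hPs ⟨w, hw⟩
    rw [← h5]
  -- the lattices for the new basis
  have hOL : ∀ d : ℕ, d ≤ n → ∃ F : Lat A V, F = OL b (fun i => if i.val < d then (1 : ℤ) else 0) :=
    fun d _ => ⟨_, rfl⟩
  obtain ⟨F, hF⟩ := hOL n1 hDn
  obtain ⟨F1, F2, -⟩ := h1 A V n n1 b F hDn hF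
  have hPF : ∀ w ∈ P, w ∈ F (-1) := by
    intro w hw
    rw [hF]
    refine (RPD_mem b n1 (-1) w).2 (fun i k hk => ?_)
    rw [hPr w hw i]
    by_cases hi : i.val < n1
    · rw [dif_pos hi, coeff_C, if_neg]
      rintro rfl
      rw [if_pos hi] at hk
      simp at hk
    · rw [dif_neg hi, coeff_zero]
  have hEF : Ep ≤ F := by
    refine p7 F F2 F1 ?_ ?_
    · intro i hi
      have h5 := hep ⟨i.val, hi⟩ i.2
      have h6 : bp i = (ep ⟨i.val, hi⟩ : V) := h5.symm
      rw [h6]
      exact hPF _ (ep ⟨i.val, hi⟩).2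
    · intro i
      by_cases hi : i.val < n1
      · have h5 := hep ⟨i.val, hi⟩ i.2
        have h6 : bp i = (ep ⟨i.val, hi⟩ : V) := h5.symm
        rw [h6]
        exact F1 (-1) 0 (by norm_num) (hPF _ (ep ⟨i.val, hi⟩).2)
      · rw [hqv i]
        refine Submodule.add_mem _ ?_ (F2 (-1) _ (hPF _ (hvP i)))
        rw [← hu2 i hi, ← hb i, hF]
        exact RPD_b0 b n1 i
  refine ⟨n, b, fun E hE => ?_⟩
  obtain ⟨d, hd, hmd, hdQ⟩ := he (Q E) (by
    rw [List.mem_toFinset, List.mem_map]
    exact ⟨E, hE, rfl⟩)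
  refine ⟨d, hd.trans hDn, hmd, hd.trans hDJ, ?_⟩
  obtain ⟨nE, dE, bE, hdnE, -, -, hEe⟩ := hTV E hE
  obtain ⟨E1, E2, -, -, -, -, -, E8, E9⟩ := h1 A V nE dE bE E hdnE hEe
  have hEm0 : Em 0 ≤ E 0 := hmin E hE 0
  have hPE : ∀ w ∈ P, w ∈ E 0 := by
    intro w hw
    rw [← hP] at hw
    exact (hLR E hE Ep hEp (hmax E hE)).2 (-1) hw
  have hQE : ∀ w : P, (w : V) ∈ E (-1) ↔ ∀ i : Fin n1, d ≤ i.val → e.repr w i = 0 := fun w =>
    hdQ w
  obtain ⟨_, -, -, -, -, -, G7, -, -⟩ := h1 A V n d b _ (hd.trans hDn) rfl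
  refine le_antisymm ?_ ?_
  · -- `E ≤ OL b`
    intro k w hw
    rcases lt_or_ge k (-1) with hk | hk
    · rw [E9 k hk] at hw
      have hw0 : w = 0 := (Submodule.mem_bot A).1 hw
      rw [hw0]
      exact Submodule.zero_mem _
    rcases eq_or_lt_of_le hk with hk1 | hk1
    · rw [← hk1] at hw ⊢
      have hwP : w ∈ P := hle1 E hE hw
      have h4 := (hQE ⟨w, hwP⟩).1 hw
      refine (RPD_mem b d (-1) w).2 (fun i j hj => ?_)
      rw [hPr w hwP i]
      by_cases hi : i.val < n1
      · rw [dif_pos hi, coeff_C]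
        by_cases hid : i.val < d
        · rw [if_neg]
          rintro rfl
          rw [if_pos hid] at hj
          simp at hj
        · have h5 := h4 ⟨i.val, hi⟩ (not_lt.1 hid)
          rw [h5]
          exact ite_self _
      · rw [dif_neg hi, coeff_zero]
    · obtain ⟨k', rfl⟩ : ∃ k' : ℕ, k = (k' : ℤ) := ⟨k.toNat, by omega⟩
      have hwF : w ∈ F (k' : ℤ) := hEF _ (hmax E hE _ hw)
      rw [hF, RPD_mem] at hwF
      -- the leading part
      obtain ⟨x, hx⟩ : ∃ x : P, x = ∑ j : Fin n1,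
          (b.repr w (Fin.castLE hDn j)).coeff (k' + 1) • e j := ⟨_, rfl⟩
      have hxr : ∀ j : Fin n1, e.repr x j = (b.repr w (Fin.castLE hDn j)).coeff (k' + 1) := by
        intro j
        rw [hx, Module.Basis.repr_sum_self]
      have hv' : w - (X : A[X]) ^ (k' + 1) • (x : V) ∈ E (k' : ℤ) := by
        have h5 : OL b (fun i => if i.val < 0 then (1 : ℤ) else 0) ≤ E := by
          obtain ⟨-, -, -, -, -, -, Z7, -, -⟩ := h1 A V n 0 b _ (Nat.zero_le n) rfl
          refine Z7 E E2 E1 (fun i hi => absurd hi (Nat.not_lt_zero _)) ?_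
          intro i
          rw [hb i]
          by_cases hi : i.val < n1
          · have h6 : u i = (e ⟨i.val, hi⟩ : V) := hu1 ⟨i.val, hi⟩
            rw [h6]
            exact hPE _ (e ⟨i.val, hi⟩).2
          · rw [hu2 i hi]
            exact hEm0 (hq0 i)
        refine h5 _ ((RPD_mem b 0 (k' : ℤ) _).2 (fun i j hj => ?_))
        rw [if_neg (Nat.not_lt_zero _), add_zero] at hj
        have hj' : k' < j := by exact_mod_cast hj
        rw [map_sub, map_smul, Finsupp.sub_apply, Finsupp.smul_apply, smul_eq_mul, coeff_sub,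
          hPr x x.2 i]
        by_cases hi : i.val < n1
        · rw [dif_pos hi, hxr, X_pow_mul_C, coeff_C_mul_X_pow]
          by_cases hj2 : j = k' + 1
          · rw [if_pos hj2, hj2]
            exact sub_self _
          · rw [if_neg hj2, sub_zero]
            refine hwF i j ?_
            rw [if_pos hi]
            omega
        · rw [dif_neg hi, mul_zero, coeff_zero, sub_zero]
          refine hwF i j ?_
          rw [if_neg hi]
          omega
      have hxE : (x : V) ∈ E (-1) := by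
        refine E8 k' x ?_
        have h5 : (X : A[X]) ^ (k' + 1) • (x : V) = w - (w - (X : A[X]) ^ (k' + 1) • (x : V)) := by
          abel
        rw [h5]
        exact Submodule.sub_mem _ hw hv'
      have h4 := (hQE x).1 hxE
      refine (RPD_mem b d (k' : ℤ) w).2 (fun i j hj => ?_)
      by_cases hid : i.val < d
      · refine hwF i j ?_
        rw [if_pos hid] at hj
        rw [if_pos (hid.trans_le hd)]
        exact hj
      · rw [if_neg hid] at hj
        by_cases hi : i.val < n1
        · by_cases hj2 : j = k' + 1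
          · have h5 := h4 ⟨i.val, hi⟩ (not_lt.1 hid)
            rw [hxr] at h5
            rw [hj2]
            exact h5
          · refine hwF i j ?_
            rw [if_pos hi]
            omega
        · refine hwF i j ?_
          rw [if_neg hi]
          exact hj
  · -- `OL b ≤ E`
    refine G7 E E2 E1 ?_ ?_
    · intro i hi
      have hi' : i.val < n1 := hi.trans_le hd
      have h6 : u i = (e ⟨i.val, hi'⟩ : V) := hu1 ⟨i.val, hi'⟩
      rw [hb i, h6, hQE]
      intro j hj
      rw [Module.Basis.repr_self, Finsupp.single_apply, if_neg]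
      intro h7
      rw [← h7] at hj
      exact absurd hi (not_lt.2 hj)
    · intro i
      rw [hb i]
      by_cases hi : i.val < n1
      · have h6 : u i = (e ⟨i.val, hi⟩ : V) := hu1 ⟨i.val, hi⟩
        rw [h6]
        exact hPE _ (e ⟨i.val, hi⟩).2
      · rw [hu2 i hi]
        exact hEm0 (hq0 i)

end Pool.Agent.SLZ
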