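import Pool.Agent.SLZ.AsmG
import Pool.Agent.SLZ.KA
import Pool.Agent.SLZ.KJ
import Pool.Agent.SLZ.RPD
import Pool.Agent.SLZ.RD1
import Pool.Agent.SLZ.RD2
import Pool.Agent.SLZ.RD3
import Pool.Agent.SLZ.FFP
import Pool.Agent.SLZ.FFQ
import Pool.Agent.SLZ.FFM
import Pool.Agent.SLZ.FFX
import Pool.Agent.SLZ.FFR

/-!
# SLZ: assembly of part R (captain helper12)

Finite free resolutions over `ℤ[x_1, .., x_r]`; standard simplices; the frozen statement from `PInf`, part V and `St_SZ`.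
-/

set_option autoImplicit false
set_option linter.unusedVariables false

noncomputable section

namespace Pool.Agent.SLZ

open Polynomial

theorem all_FFR : St_FFR := thm_FFR thm_FFP thm_FFM thm_FFX

theorem all_RPD : St_RPD := thm_RPD thm_RD1 (thm_RD2 thm_RD1 (thm_FFQ thm_FFP)) (thm_RD3 thm_FFP)

theorem ffall_mv (r : ℕ) : FFall (MvPolynomial (Fin r) ℤ) := fun M _ _ h => ⟨r + 1, all_FFR r M h⟩

theorem rz_of (hV : ∀ r : ℕ, KerFree (MvPolynomial (Fin r) ℤ) (r + 3))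
    (hI : ∀ r : ℕ, ∃ m0 : ℕ, ∀ m ≥ m0, PInf (MvPolynomial (Fin r) ℤ) m) : St_RZ := by
  intro r
  obtain ⟨m0, h⟩ := hI r
  refine ⟨max m0 (r + 3), fun m hm => ?_⟩
  have h1 : m0 ≤ m := le_trans (le_max_left _ _) hm
  have h2 : r + 3 ≤ m := le_trans (le_max_right _ _) hm
  exact ⟨all_RPD (MvPolynomial (Fin r) ℤ) (r + 3) m (ffall_mv r) (hV r) h2 (by omega), h m h1⟩

end Pool.Agent.SLZ
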