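import Pool.Agent.SLZ.StKF

/-!
# SLZ, module KF1 (helper47): the maps `addL` and `upF`
-/

set_option autoImplicit false
set_option linter.unusedVariables false

noncomputable section

namespace Pool.Agent.SLZ

open Polynomial

section

variable {A V : Type} [CommRing A] [AddCommGroup V] [Module A V] [Module A[X] V]
  [IsScalarTower A A[X] V]

theorem KF1_deg {k k' : ℤ} (h : k ≤ k') : degL A k ≤ degL A k' :=
  fun p hp n hn => hp n (lt_of_le_of_lt h hn)

theorem KF1_piq {q : V} {l : V →ₗ[A[X]] A[X]} (h : l q = 1) : piK q l h q = 0 := by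
  apply Subtype.ext
  show q - l q • q = 0
  rw [h, one_smul, sub_self]

theorem KF1_pi {q : V} {l : V →ₗ[A[X]] A[X]} (h : l q = 1) (u : LinearMap.ker l) :
    piK q l h (u : V) = u := by
  apply Subtype.ext
  show (u : V) - l u • q = u
  have h1 : l (u : V) = 0 := u.2
  rw [h1, zero_smul, sub_zero]

theorem KF1_l {q : V} {l : V →ₗ[A[X]] A[X]} (h : l q = 1) (u : LinearMap.ker l) (p : A[X]) :
    l ((u : V) + p • q) = p := by
  have h1 : l (u : V) = 0 := u.2
  rw [map_add, map_smul, h1, h, zero_add, smul_eq_mul, mul_one]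

theorem KF1_mem {q : V} {l : V →ₗ[A[X]] A[X]} (h : l q = 1) (E : Lat A (LinearMap.ker l)) (k : ℤ)
    (w : LinearMap.ker l) : (w : V) ∈ addL q l E k ↔ w ∈ E k := by
  constructor
  · rintro ⟨u, hu, p, hp, hw⟩
    have h1 : l (w : V) = 0 := w.2
    rw [hw, KF1_l h] at h1
    rw [h1, zero_smul, add_zero] at hw
    rw [Subtype.ext hw]
    exact hu
  · intro hw
    exact ⟨w, hw, 0, (degL A k).zero_mem, by rw [zero_smul, add_zero]⟩

theorem KF1_le {q : V} {l : V →ₗ[A[X]] A[X]} (h : l q = 1) (E E' : Lat A (LinearMap.ker l)) (k k' : ℤ)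
    (hk : k ≤ k') : addL q l E k ≤ addL q l E' k' ↔ E k ≤ E' k' := by
  constructor
  · intro h1 w hw
    exact (KF1_mem h E' k' w).1 (h1 ((KF1_mem h E k w).2 hw))
  · rintro h1 _ ⟨u, hu, p, hp, rfl⟩
    exact ⟨u, h1 hu, p, KF1_deg hk hp, rfl⟩

theorem KF1_LR {q : V} {l : V →ₗ[A[X]] A[X]} (h : l q = 1) (E E' : Lat A (LinearMap.ker l)) :
    LR (addL q l E) (addL q l E') ↔ LR E E' := by
  constructor
  · rintro ⟨h1, h2⟩
    exact ⟨fun k => (KF1_le h E E' k k le_rfl).1 (h1 k),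
      fun k => (KF1_le h E' E k (k + 1) (by omega)).1 (h2 k)⟩
  · rintro ⟨h1, h2⟩
    exact ⟨fun k => (KF1_le h E E' k k le_rfl).2 (h1 k),
      fun k => (KF1_le h E' E k (k + 1) (by omega)).2 (h2 k)⟩

theorem KF1_inj {q : V} {l : V →ₗ[A[X]] A[X]} (h : l q = 1) :
    Function.Injective (upF q l h) := by
  intro p p' hp
  have h1 : ((p.1 : V)) = p'.1 := congrArg Prod.fst hp
  have h2 : p.2 ∘ₗ piK q l h = p'.2 ∘ₗ piK q l h := congrArg Prod.snd hp
  refine Prod.ext (Subtype.ext h1) (LinearMap.ext fun u => ?_)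
  have h3 := LinearMap.congr_fun h2 (u : V)
  rw [LinearMap.comp_apply, LinearMap.comp_apply, KF1_pi] at h3
  exact h3

theorem KF1_up {q : V} {l : V →ₗ[A[X]] A[X]} (h : l q = 1)
    (p : LinearMap.ker l × (LinearMap.ker l →ₗ[A[X]] A[X])) (u : LinearMap.ker l) :
    (upF q l h p).2 (u : V) = p.2 u := by
  show p.2 (piK q l h (u : V)) = p.2 u
  rw [KF1_pi]

end

/-- **KF1.** The maps `addL` and `upF`. -/
theorem thm_KF1 : St_KF1 := by
  intro A _ V _ _ _ _ q l h
  refine ⟨fun E => ?_, fun E E' => ?_, fun E => ?_, fun p E => ?_, fun p p' => ?_, fun v hv hvq => ?_,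
    KF1_inj h⟩
  · funext k
    ext w
    exact KF1_mem h E k w
  · exact or_congr (KF1_LR h E E') (KF1_LR h E' E)
  · refine ⟨h, ⟨0, (E 0).zero_mem, 1, fun n hn => ?_, ?_⟩, ?_⟩
    · have h1 : n ≠ 0 := by
        rintro rfl
        exact absurd hn (lt_irrefl _)
      rw [coeff_one, if_neg h1]
    · rw [one_smul]
      exact (zero_add q).symm
    · rintro k _ ⟨u, hu, p, hp, rfl⟩
      show l ((u : V) + p • q) ∈ degL A k
      rw [KF1_l h]
      exact hp
  · constructor
    · rintro ⟨h1, h2, h3⟩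
      refine ⟨?_, (KF1_mem h E 0 p.1).1 h2, fun k u hu => ?_⟩
      · have h4 : (upF q l h p).2 ((p.1 : LinearMap.ker l) : V) = 1 := h1
        rw [KF1_up] at h4
        exact h4
      · have h4 := h3 k (u : V) ((KF1_mem h E k u).2 hu)
        rw [KF1_up] at h4
        exact h4
    · rintro ⟨h1, h2, h3⟩
      refine ⟨?_, (KF1_mem h E 0 p.1).2 h2, ?_⟩
      · show (upF q l h p).2 ((p.1 : LinearMap.ker l) : V) = 1
        rw [KF1_up]
        exact h1
      · rintro k _ ⟨u, hu, a, ha, rfl⟩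
        have h4 : (upF q l h p).2 ((u : V) + a • q) = p.2 u := by
          rw [map_add, map_smul, KF1_up]
          show p.2 u + a • p.2 (piK q l h q) = p.2 u
          rw [KF1_piq, map_zero, smul_zero, add_zero]
        rw [h4]
        exact h3 k u hu
  · have h1 : (upF q l h p).2 (upF q l h p').1 = p.2 p'.1 := KF1_up h p p'.1
    have h2 : (upF q l h p').2 (upF q l h p).1 = p'.2 p.1 := KF1_up h p' p.1
    refine ⟨?_, h1, p.1.2, ?_⟩
    · unfold frR
      rw [h1, h2, (KF1_inj h).eq_iff]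
    · show p.2 (piK q l h q) = 0
      rw [KF1_piq, map_zero]
  · refine ⟨(⟨v.1, hv⟩, v.2 ∘ₗ (LinearMap.ker l).subtype), Prod.ext rfl (LinearMap.ext fun w => ?_)⟩
    show v.2 (w - l w • q) = v.2 w
    rw [map_sub, map_smul, hvq, smul_zero, sub_zero]

end Pool.Agent.SLZ
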