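import Pool.Agent.SLZ.StKA
import Pool.Agent.SLZ.StV2

/-!
# SLZ, part KF: split frames and lattices (architect helper38)

`V` is a module over `A[X]`, usually with a finite basis; `(q, l)` with `l q = 1` is a frame vector, `V = ker l ⊕ A[X] q`.
In the proofs: `deg p ≤ a` means `p ∈ degL A a`. Useful facts about `E = OL b w`: `b i ∈ E (- w i)`; `p • v ∈ E (a + k)`
for `deg p ≤ a`, `v ∈ E k`; `E k` is the set of the sums `∑ p_i b_i` with `deg p_i ≤ k + w i`. Module `X` proves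
`theorem thm_X (h.. : St_..) : St_X` in `Pool/Agent/SLZ/X.lean`.
-/

set_option autoImplicit false
set_option linter.unusedVariables false

noncomputable section

namespace Pool.Agent.SLZ

open Polynomial

section

variable {A V : Type} [CommRing A] [AddCommGroup V] [Module A V] [Module A[X] V]
  [IsScalarTower A A[X] V]

/-- the projection `v ↦ v - l v • q` onto the kernel of `l`, for `l q = 1` -/
def piK (q : V) (l : V →ₗ[A[X]] A[X]) (h : l q = 1) : V →ₗ[A[X]] LinearMap.ker l :=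
  LinearMap.codRestrict (LinearMap.ker l) (LinearMap.id - l.smulRight q) (by
    intro v
    simp [h])

/-- a frame vector of `ker l` as a frame vector of `V` (orthogonal to `(q, l)`) -/
def upF (q : V) (l : V →ₗ[A[X]] A[X]) (h : l q = 1)
    (p : LinearMap.ker l × (LinearMap.ker l →ₗ[A[X]] A[X])) : V × (V →ₗ[A[X]] A[X]) :=
  ((p.1 : V), p.2 ∘ₗ piK q l h)

/-- the part of a lattice in the kernel of `l` -/
def cutL (l : V →ₗ[A[X]] A[X]) (E : Lat A V) : Lat A (LinearMap.ker l) :=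
  fun k => (E k).comap ((LinearMap.ker l).subtype.restrictScalars A)

end

/-- **KF1** (1 h). The maps `addL` and `upF`.

Proof. `π = piK q l h`: `π (u + p • q) = u`, `l (u + p • q) = p` for `u ∈ ker l`. (1) by this. (2) `addL` and `cutL` are monotone,
`addL (E') k ≤ addL E (k + 1)` if `E' k ≤ E (k + 1)`, `degL A k ≤ degL A (k + 1)`; conversely apply `cutL` and (1).
(3) `q = 0 + 1 • q`. (4) `p.1 ∈ addL q l E 0` iff `p.1 ∈ E 0` by (1); `(p.2 ∘ π) (u + a • q) = p.2 u`. (5) `π u = u` on `ker l`. (6) the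
preimage of `(q', l')` is `(⟨q', _⟩, l' restricted to ker l)`: `l' (π v) = l' v - l v * l' q = l' v`. (7) `(p.2 ∘ π)` restricted to
`ker l` is `p.2`. -/
def St_KF1 : Prop := ∀ (A : Type) [CommRing A] (V : Type) [AddCommGroup V] [Module A V]
  [Module A[X] V] [IsScalarTower A A[X] V] (q : V) (l : V →ₗ[A[X]] A[X]) (h : l q = 1),
  (∀ E : Lat A (LinearMap.ker l), cutL l (addL q l E) = E) ∧
  (∀ E E' : Lat A (LinearMap.ker l), adjL (addL q l E) (addL q l E') ↔ adjL E E') ∧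
  (∀ E : Lat A (LinearMap.ker l), ((q, l) : V × (V →ₗ[A[X]] A[X])) ∈ frS (addL q l E)) ∧
  (∀ (p : LinearMap.ker l × (LinearMap.ker l →ₗ[A[X]] A[X])) (E : Lat A (LinearMap.ker l)),
    upF q l h p ∈ frS (addL q l E) ↔ p ∈ frS E) ∧
  (∀ p p' : LinearMap.ker l × (LinearMap.ker l →ₗ[A[X]] A[X]),
    (frR (upF q l h p) (upF q l h p') ↔ frR p p') ∧
    (upF q l h p).2 (upF q l h p').1 = p.2 p'.1 ∧ l (upF q l h p).1 = 0 ∧ (upF q l h p).2 q = 0) ∧
  (∀ v : V × (V →ₗ[A[X]] A[X]), l v.1 = 0 → v.2 q = 0 → ∃ p, upF q l h p = v) ∧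
  Function.Injective (upF q l h)

/-- **KF2** (1 h). Bases of `V` and of `ker l`.

Proof. (1) `V ≃ ker l × A[X]`, `v ↦ (π v, l v)` (`St_KF1`); the basis `b` has `b.repr v (castSucc i) = b'.repr (π v) i`,
`b.repr v last = l v`. `v ∈ OL b (Fin.snoc w 0) k` iff `π v ∈ OL b' w k` and `deg (l v) ≤ k` iff `v ∈ addL q l (OL b' w) k`
(`v = π v + l v • q`). (2) the `b (castSucc i)` are in `ker l` and form a basis of it; then the basis constructed in (1) is `b`.
(3) `E = OL b' (i < d)`, `d ≤ n`: `Fin.snoc (i < d) 0` is `(i < d)` on `Fin (n + 1)`. (4) (3), `St_KF1` (2). -/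
def St_KF2 : Prop := ∀ (A : Type) [CommRing A] (V : Type) [AddCommGroup V] [Module A V]
  [Module A[X] V] [IsScalarTower A A[X] V] (q : V) (l : V →ₗ[A[X]] A[X]), l q = 1 →
  (∀ (n : ℕ) (b' : Module.Basis (Fin n) A[X] (LinearMap.ker l)),
    ∃ b : Module.Basis (Fin (n + 1)) A[X] V, (∀ i, b (Fin.castSucc i) = (b' i : V)) ∧
      b (Fin.last n) = q ∧ (∀ v, b.repr v (Fin.last n) = l v) ∧
      ∀ w : Fin n → ℤ, addL q l (OL b' w) = OL b (Fin.snoc (α := fun _ => ℤ) w 0)) ∧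
  (∀ (n : ℕ) (b : Module.Basis (Fin (n + 1)) A[X] V), b (Fin.last n) = q →
    (∀ v, b.repr v (Fin.last n) = l v) → ∃ b' : Module.Basis (Fin n) A[X] (LinearMap.ker l),
      (∀ i, b (Fin.castSucc i) = (b' i : V)) ∧
      ∀ w : Fin n → ℤ, addL q l (OL b' w) = OL b (Fin.snoc (α := fun _ => ℤ) w 0)) ∧
  (∀ (m J : ℕ), ∀ E ∈ TV A (LinearMap.ker l) m J, addL q l E ∈ TV A V m J) ∧
  (∀ (m J : ℕ), ∀ L ∈ (TT A (LinearMap.ker l) m J).s, L.map (addL q l) ∈ (TT A V m J).s)

/-- **KF3** (1.5 h). The adapted basis.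

Proof. For `i ≥ D` let `l (b i) = C a_i`, `q_i = C c_i` (coordinates `q_i` of `q`): `∑_(i ≥ D) a_i c_i = 1`. `KerFree` for the functional
`(a_i)` on `A^(n + 1 - D)` (`q = 1`, `1 + s ≤ n + 1 - D`): its kernel has a basis `f` of `n - D` elements, and `(f, c)` is a basis of
`A^(n + 1 - D)` (`v = (v - a(v) c) + a(v) c`). So the matrix of `(f, c)` is invertible over `A`, hence over `A[X]`, and
`b_i` (`i < D`), `∑_(i ≥ D) (f_j)_i b_i` (`j < n - D`), `q_Z = ∑_(i ≥ D) c_i b_i` is a basis `b¹` of `V`; `q = q_Z + ∑_(i < D) q_i b_i`, so with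
`q` in place of `q_Z` it is a basis `b''`. `l` and the last coordinate of `b''` agree on `b''`. Let `d ≤ D` be as in the
statement, `w = (i < d)`, `E = OL b w`, `E'' = OL b'' w`. `b''_i ∈ E (- w i)`: clear for `i < D`; for `D ≤ i < n` an `A`-combination of the
`b_j`, `j ≥ D`, of weight `0`; `q ∈ E 0` by the hypothesis on `d`. So `E'' ≤ E`. `b_i ∈ E'' (- w i)`: clear for `i < D`; for `i ≥ D` it is an
`A`-combination of the `b¹_j`, `j ≥ D`, that is of the `b''_j`, `j ≥ D`, and of `∑_(i' < D) q_i' b_i'`, whose coefficients have degree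
`≤ w i'`. So `E ≤ E''`. -/
def St_KF3 : Prop := ∀ (A : Type) [CommRing A] [Nontrivial A] (s : ℕ), KerFree A s →
  ∀ (V : Type) [AddCommGroup V] [Module A V] [Module A[X] V] [IsScalarTower A A[X] V] (n D : ℕ)
  (b : Module.Basis (Fin (n + 1)) A[X] V) (q : V) (l : V →ₗ[A[X]] A[X]), l q = 1 → D + s ≤ n →
  (∀ i, i.val < D → l (b i) = 0) → (∀ i, D ≤ i.val → l (b i) ∈ degL A 0) →
  (∀ i, D ≤ i.val → b.repr q i ∈ degL A 0) →
  ∃ b'' : Module.Basis (Fin (n + 1)) A[X] V, b'' (Fin.last n) = q ∧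
    (∀ v, b''.repr v (Fin.last n) = l v) ∧
    ∀ d, d ≤ D → (∀ i, i.val < d → b.repr q i ∈ degL A 1) →
      (∀ i, d ≤ i.val → b.repr q i ∈ degL A 0) →
      OL b'' (fun i => if i.val < d then 1 else 0) = OL b (fun i => if i.val < d then 1 else 0)

/-- **KF4** (0.7 h). The frame vectors of a diagonal lattice.

Proof. `w = (i < d)`, `E = OL b w`. `q ∈ E 0` iff `deg q_i ≤ w i`. `deg (l v) ≤ k` for all `k`, `v ∈ E k` iff `deg (l (b i)) ≤ - w i` for all `i`: `b i ∈ E (- w i)`;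
conversely `l v = ∑ v_i l(b_i)` with `deg v_i ≤ k + w i` (`v_i = 0` if `k + w i < 0`). `degL A (-1) = 0`. -/
def St_KF4 : Prop := ∀ (A : Type) [CommRing A] (V : Type) [AddCommGroup V] [Module A V]
  [Module A[X] V] [IsScalarTower A A[X] V] (n d : ℕ) (b : Module.Basis (Fin n) A[X] V) (q : V)
  (l : V →ₗ[A[X]] A[X]),
  ((q, l) : V × (V →ₗ[A[X]] A[X])) ∈ frS (OL b fun i => if i.val < d then 1 else 0) ↔
    l q = 1 ∧ (∀ i, i.val < d → l (b i) = 0) ∧ (∀ i, d ≤ i.val → l (b i) ∈ degL A 0) ∧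
    (∀ i, i.val < d → b.repr q i ∈ degL A 1) ∧ (∀ i, d ≤ i.val → b.repr q i ∈ degL A 0)

/-- **KF5** (0.8 h). The simplices of `T` with a common frame vector.

Proof. `L = []`: `L' = []`. Otherwise `PDiag` (for `L`, `V` is free and finite by `b0`): a basis `b` with `n` elements (invariant basis number),
`E = OL b (i < d_E)`; `D = max d_E ≤ m J`. `St_KF4`: the hypotheses of `St_KF3` hold for `D` and all `d = d_E`; let `b''` be its basis,
`b'` the basis of `ker l` (`St_KF2` (2)). `E = OL b'' (i < d_E) = addL q l (OL b' (i < d_E))` (`d_E ≤ D ≤ n - 1`), so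
`cutL l E = OL b' (i < d_E)` (`St_KF1` (1)) and `E = addL q l (cutL l E)`. `L' = L.map (cutL l)`, adjacency by `St_KF1` (2). -/
def St_KF5 : Prop := ∀ (A : Type) [CommRing A] [Nontrivial A] (m s : ℕ), PDiag A m → KerFree A s →
  ∀ (V : Type) [AddCommGroup V] [Module A V] [Module A[X] V] [IsScalarTower A A[X] V] (n : ℕ)
  (b0 : Module.Basis (Fin n) A[X] V) (J : ℕ), m * J + s + 1 ≤ n →
  ∀ (q : V) (l : V →ₗ[A[X]] A[X]), l q = 1 → ∀ L ∈ (TT A V m J).s,
    (∀ E ∈ L, ((q, l) : V × (V →ₗ[A[X]] A[X])) ∈ frS E) →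
    ∃ L' ∈ (TT A (LinearMap.ker l) m J).s, L = L'.map (addL q l)

/-- **KF6** (1.2 h). The frames of a simplex of `T` are highly connected.

Proof. (1) `PDiag`: basis `b` with `n` elements, `E = OL b (i < d_E)`, `D = max d_E ≤ m J` (`L` is not empty). `M = A^(n - D)`,
`SFP A s c` for the vertices `V × (V →ₗ A[X])`, `q' v = ((b.repr v.1 (D + i)).coeff 0)_i`, `l' v y = ∑_i (v.2 (b (D + i))).coeff 0 * y_i`,
`T = {p | p.2 p.1 = 1 ∧ ∀ E ∈ L, p ∈ frS E}`. By `St_KF4` for `p = (q, l) ∈ T`: `l (b i) = 0` for `i < D`, `l (b i)` and `q_i` are constants for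
`i ≥ D`; so `l q₁ = ∑_(i ≥ D) l(b_i) (q₁)_i = C (l' p (q' p₁))` for `p, p₁ ∈ T`, and `Fl (sfr q' l') T = FrC L` (the same lists). `SFT`: for `f a = 1` take
`q = ∑_(i ≥ D) a_i b_i`, `l = ∑_(i ≥ D) f_i b_i*`. (2) `SFP A[X] s c` for `M = V`, `q v = v.1`, `l v = v.2`. -/
def St_KF6 : Prop := ∀ (A : Type) [CommRing A] [Nontrivial A] (s c : ℕ)
  (V : Type) [AddCommGroup V] [Module A V] [Module A[X] V] [IsScalarTower A A[X] V] (n : ℕ)
  (b0 : Module.Basis (Fin n) A[X] V),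
  (∀ m J : ℕ, PDiag A m → SFP A s c → m * J + 2 * c + s ≤ n →
    ∀ L ∈ (TT A V m J).s, L ≠ [] → Conn (FrC L) c) ∧
  (SFP A[X] s c → 2 * c + s ≤ n → Conn (FrC ([] : List (Lat A V))) c)

/-- **KF7** (1 h). Orthonormal frames.

Proof. (2) The map `V → A[X]^p`, `v ↦ (l_i v)`, is onto (`q_j ↦` unit vectors); `KerFree` for `V ≅ A[X]^n`: its kernel has a basis of `n - p` elements. (1) Together
with the `q_i` it is a basis of `V` (`v = (v - ∑ l_i(v) q_i) + ∑ l_i(v) q_i`), in which `l_i` is the coordinate of `q_i`; the same for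
`q'`, `l'`; let `g` map one basis to the other. -/
def St_KF7 : Prop := ∀ (R : Type) [CommRing R] (s : ℕ), KerFree R s →
  ∀ (V : Type) [AddCommGroup V] [Module R V] (n p : ℕ) (b0 : Module.Basis (Fin n) R V),
  p + s ≤ n → ∀ (q : Fin p → V) (l : Fin p → (V →ₗ[R] R)),
  (∀ i j, l i (q j) = if i = j then 1 else 0) →
  (∀ (q' : Fin p → V) (l' : Fin p → (V →ₗ[R] R)), (∀ i j, l' i (q' j) = if i = j then 1 else 0) →
    ∃ g : V ≃ₗ[R] V, ∀ i, g (q i) = q' i ∧ ∀ v, l' i (g v) = l i v) ∧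
  Nonempty (Module.Basis (Fin (n - p)) R (⨅ i, LinearMap.ker (l i) : Submodule R V))

/-- **KF8** (1.2 h). The lattices with given frame vectors.

Proof. Induction on `r`, for all `V`, `n`, `F`. `F = []`: the complex is `TT A V m J`, `N0 ≤ n`. Let `(q, l) ∈ F`, so `r ≥ 1`, `l q = 1`. The elements of `F` different from
`(q, l)` are orthogonal to it (`frR`), so they are `upF q l _ p`, `p ∈ F'`, for a list `F'` (`St_KF1` (6), (7)) with at most `r - 1` different
elements, `F' ∈ (FrC []).s` for `ker l` (`St_KF1` (5)). `ker l` has a basis of `n - 1` elements (`St_KF7` (2), `p = 1`). The lists of the complex for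
`(V, F)` are the `L'.map (addL q l)`, `L'` a list of the complex for `(ker l, F')`: `St_KF5` (`m J + s + 1 ≤ n`), `St_KF2` (4), `St_KF1` (2), (3), (4), and conversely.
`St_VJ` (1) with `f = addL q l`, `g = cutL l` (`f (g E) = E` on these lists) and the induction hypothesis for `ker l`, `n - 1`, `r - 1`. -/
def St_KF8 : Prop := ∀ (A : Type) [CommRing A] [Nontrivial A] (m s s' c J N0 : ℕ), PDiag A m →
  KerFree A s → KerFree A[X] s' → PConn A m J c N0 → ∀ (r : ℕ)
  (V : Type) [AddCommGroup V] [Module A V] [Module A[X] V] [IsScalarTower A A[X] V] (n : ℕ)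
  (b0 : Module.Basis (Fin n) A[X] V), N0 + r ≤ n → m * J + s + r ≤ n → s' + r ≤ n →
  ∀ F ∈ (FrC ([] : List (Lat A V))).s,
    (∃ S : Finset (V × (V →ₗ[A[X]] A[X])), S.card ≤ r ∧ ∀ v, v ∈ F → v ∈ S) →
    Conn (Fl adjL {E | E ∈ TV A V m J ∧ ∀ v ∈ F, v ∈ frS E}) c

end Pool.Agent.SLZ
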