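import Pool.Agent.SLZ.StK
import Pool.Agent.SLZ.StKF
import Pool.Agent.SLZ.MA

/-!
# SLZ: module KR2, the rows
-/

set_option autoImplicit false

noncomputable section

namespace Pool.Agent.SLZ

open Polynomial Matrix

section

variable {A : Type} [CommRing A]

theorem KR2_mem {α M : Type} [AddCommGroup M] (s : Set α) (f : (α →₀ ℤ) →ₗ[ℤ] M)
    (N : Submodule ℤ M) (h : ∀ a ∈ s, f (Finsupp.single a 1) ∈ N) :
    ∀ z ∈ Finsupp.supported ℤ ℤ s, f z ∈ N := by
  intro z hz
  rw [Finsupp.supported_eq_span_single] at hz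
  have h1 : Submodule.span ℤ ((fun i => Finsupp.single i (1 : ℤ)) '' s) ≤ N.comap f := by
    rw [Submodule.span_le]
    rintro _ ⟨a, ha, rfl⟩
    exact h a ha
  exact h1 hz

theorem KR2_push {V W : Type} (f : V → W) (S : Set (List V)) (T : Set (List W)) (b : ℕ)
    (h : ∀ l ∈ S, l.length = b → l.map f ∈ T) :
    ∀ z ∈ Ch S b, z.mapDomain (List.map f) ∈ Ch T b := by
  refine KR2_mem _ (Finsupp.lmapDomain ℤ ℤ (List.map f)) _ ?_
  rintro l ⟨hl, hb⟩
  rw [Finsupp.lmapDomain_apply, Finsupp.mapDomain_single]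
  exact Finsupp.single_mem_supported ℤ 1 ⟨h l hl hb, by rw [List.length_map, hb]⟩

/-- the inverse of `frV` -/
def KR2_inv {N : ℕ} (p : Vn A N × (Vn A N →ₗ[A[X]] A[X])) : Fr A[X] N :=
  (p.1, fun i => p.2 (Pi.single i 1))

theorem KR2_left {N : ℕ} (f : Fr A[X] N) : KR2_inv (frV f) = f := by
  refine Prod.ext rfl ?_
  funext i
  show (∑ j, f.2 j • (LinearMap.proj j : (Fin N → A[X]) →ₗ[A[X]] A[X])) (Pi.single i 1) = f.2 i
  rw [LinearMap.sum_apply, Finset.sum_eq_single i]
  · rw [LinearMap.smul_apply, LinearMap.proj_apply, Pi.single_eq_same, smul_eq_mul, mul_one]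
  · intro j _ hj
    rw [LinearMap.smul_apply, LinearMap.proj_apply, Pi.single_eq_of_ne hj, smul_zero]
  · intro h
    exact absurd (Finset.mem_univ _) h

theorem KR2_right {N : ℕ} (p : Vn A N × (Vn A N →ₗ[A[X]] A[X])) : frV (KR2_inv p) = p := by
  refine Prod.ext rfl ?_
  apply LinearMap.ext
  intro v
  show (∑ j, p.2 (Pi.single j 1) • (LinearMap.proj j : (Fin N → A[X]) →ₗ[A[X]] A[X])) v = p.2 v
  rw [LinearMap.sum_apply, LinearMap.pi_apply_eq_sum_univ p.2 v]
  refine Finset.sum_congr rfl fun i _ => ?_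
  rw [LinearMap.smul_apply, LinearMap.proj_apply, smul_eq_mul, smul_eq_mul, mul_comm]
  congr 2
  funext j
  rw [Pi.single_apply]
  simp only [eq_comm]

end

theorem thm_KR2 (hR : St_KR1) (h6 : St_KF6) : St_KR2 := by
  intro A _ _ s m hs hsm hK hKX hSA hSX hP J j h
  refine ⟨m * J + 2 * (j + 2) + s + (j + 2) + 1, ?_⟩
  intro N hN L hL b hb z hz hbd
  have hconn : Conn (FrC L) (j + 2) := by
    by_cases hLn : L = []
    · subst hLn
      exact (h6 A s (j + 2) (Vn A N) N (Pi.basisFun A[X] (Fin N))).2 (hSX (j + 2)) (by omega)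
    · exact (h6 A s (j + 2) (Vn A N) N (Pi.basisFun A[X] (Fin N))).1 m J hP (hSA (j + 2))
        (by omega) L hL hLn
  have hKR : ∀ φ : List (Fr A[X] N), φ.length ≤ j + 2 →
      ((L, φ) ∈ (latS A m J h).Bi N ↔ L ∈ (Tn A m J N).s ∧ φ.map frV ∈ (FrC L).s) := by
    intro φ hφ
    exact hR A s m J hs hsm hK hKX hP h N L φ (by omega)
  have h1 : z.mapDomain (List.map frV) ∈ Ch (FrC L).s b := by
    refine KR2_push frV _ _ b ?_ z hz
    intro φ hφ hφb
    exact ((hKR φ (by omega)).1 hφ).2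
  have h2 : bd (z.mapDomain (List.map frV)) = 0 := by
    have h3 := (thm_MA (Fr A[X] N)).2.2.2.1 _ (frV : Fr A[X] N → _) z
    rw [h3, hbd, Finsupp.mapDomain_zero]
  obtain ⟨y, hy, hyz⟩ := hconn b hb _ h1 h2
  refine ⟨y.mapDomain (List.map KR2_inv), ?_, ?_⟩
  · refine KR2_push KR2_inv _ _ (b + 1) ?_ y hy
    intro t ht htb
    show (L, t.map KR2_inv) ∈ (latS A m J h).Bi N
    rw [hKR _ (by rw [List.length_map]; omega)]
    refine ⟨hL, ?_⟩
    rw [List.map_map]
    have : t.map (frV ∘ KR2_inv) = t := by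
      conv_rhs => rw [← List.map_id t]
      exact List.map_congr_left fun p _ => KR2_right p
    rw [this]
    exact ht
  · have h3 := (thm_MA (Vn A N × (Vn A N →ₗ[A[X]] A[X]))).2.2.2.1 _
      (KR2_inv : _ → Fr A[X] N) y
    rw [h3, hyz, ← Finsupp.mapDomain_comp]
    have : (List.map (KR2_inv (A := A) (N := N)) ∘ List.map frV) = id := by
      funext l
      show (l.map frV).map KR2_inv = l
      rw [List.map_map]
      conv_rhs => rw [← List.map_id l]
      exact List.map_congr_left fun p _ => KR2_left p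
    rw [this, Finsupp.mapDomain_id]

end Pool.Agent.SLZ
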