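import Pool.Agent.SLZ.StP

/-!
# SLZ PD: intervals of summands (MP_24791f_al, helper64)
-/

set_option autoImplicit false
set_option linter.unusedVariables false

noncomputable section

namespace Pool.Agent.SLZ

section

variable {R V : Type} [CommRing R] [AddCommGroup V] [Module R V]

theorem PD_comap_le {A B N : Submodule R V} (hB : B ≤ A) :
    B ≤ N ↔ B.comap A.subtype ≤ N.comap A.subtype :=
  ⟨fun h => Submodule.comap_mono h, fun h b hb => h (x := ⟨b, hB hb⟩) hb⟩

theorem PD_map_comap {A B : Submodule R V} (hB : B ≤ A) :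
    (B.comap A.subtype).map A.subtype = B := by
  rw [Submodule.map_comap_subtype, inf_eq_right.2 hB]

theorem PD_comap_map {A B : Submodule R V} (hB : A ≤ B) :
    (B.map A.mkQ).comap A.mkQ = B := by
  rw [Submodule.comap_map_mkQ, sup_eq_right.2 hB]

theorem PD_xV (A : Submodule R V) (x : MaximalSpectrum R) :
    (xV V x).map A.mkQ = xV (V ⧸ A) x := by
  unfold xV
  rw [Submodule.map_smul'', Submodule.map_top, Submodule.range_mkQ]

theorem PD_map_le {A P C : Submodule R V} (hC : A ≤ C) :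
    P ≤ C ↔ P.map A.mkQ ≤ C.map A.mkQ := by
  rw [Submodule.map_le_iff_le_comap, PD_comap_map hC]

theorem PD_sub (hA : St_PA) [IsDomain R] [IsPrincipalIdealRing R] [Module.Free R V]
    [Module.Finite R V] (A : Submodule R V) (hs : Sat A) (B : Submodule R V) (hB : B ≤ A) :
    (Sat B ↔ Sat (B.comap A.subtype)) ∧
    (B.comap A.subtype).map A.subtype = B ∧
    Module.finrank R (B.comap A.subtype) = Module.finrank R B ∧
    (B = A ↔ B.comap A.subtype = ⊤) ∧ (B = ⊥ ↔ B.comap A.subtype = ⊥) ∧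
    (∀ K : MaximalSpectrum R → Submodule R V, (Av K B ↔
      Av (V := A) (fun x => (K x).comap A.subtype) (B.comap A.subtype))) ∧
    (∀ N : Submodule R V, B ≤ N ↔ B.comap A.subtype ≤ N.comap A.subtype) := by
  refine ⟨⟨fun h a v ha hv => h a v ha hv, fun h a v ha hv => ?_⟩, PD_map_comap hB,
    (Submodule.comapSubtypeEquivOfLe hB).finrank_eq, ⟨fun h => ?_, fun h => ?_⟩,
    ⟨fun h => ?_, fun h => ?_⟩, fun K => ⟨fun h x => ?_, fun h x => ?_⟩,
    fun N => PD_comap_le hB⟩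
  · exact h a ⟨v, hs a v ha (hB hv)⟩ ha hv
  · subst h
    exact Submodule.comap_subtype_self B
  · refine le_antisymm hB fun v hv => ?_
    have : (⟨v, hv⟩ : A) ∈ B.comap A.subtype := h ▸ Submodule.mem_top
    exact this
  · subst h
    rw [Submodule.comap_bot, Submodule.ker_subtype]
  · rw [← PD_map_comap hB, h, Submodule.map_bot]
  · rintro b ⟨hb, hk⟩
    have h1 : (b : V) ∈ A ⊓ xV V x := ⟨b.2, h x ⟨hb, hk⟩⟩
    rw [← (hA R V x A hs).1.2] at h1
    obtain ⟨c, hc, hcb⟩ := h1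
    have : c = b := Subtype.ext hcb
    exact this ▸ hc
  · rintro b ⟨hb, hk⟩
    have h1 : (⟨b, hB hb⟩ : A) ∈ xV A x := h x ⟨hb, hk⟩
    have h2 : b ∈ (xV A x).map A.subtype := ⟨_, h1, rfl⟩
    rw [(hA R V x A hs).1.2] at h2
    exact h2.2

theorem PD_quo [IsDomain R] [IsPrincipalIdealRing R] [Module.Free R V]
    [Module.Finite R V] (A B : Submodule R V) (hB : A ≤ B) :
    (Sat B ↔ Sat (B.map A.mkQ)) ∧
    (B.map A.mkQ).comap A.mkQ = B ∧
    Module.finrank R (B.map A.mkQ) + Module.finrank R A = Module.finrank R B ∧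
    (B = A ↔ B.map A.mkQ = ⊥) ∧ (B = ⊤ ↔ B.map A.mkQ = ⊤) ∧
    (∀ K : MaximalSpectrum R → Submodule R V, (∀ x, xV V x ≤ K x) → Av K A →
      (Av K B ↔ Av (V := V ⧸ A) (fun x => (K x).map A.mkQ) (B.map A.mkQ))) ∧
    (∀ L : Submodule R V, B ⊔ L = ⊤ ↔ B.map A.mkQ ⊔ L.map A.mkQ = ⊤) ∧
    (∀ (P : Submodule R V) (p : MaximalSpectrum R), P ≤ B ⊔ xV V p ↔
      P.map A.mkQ ≤ B.map A.mkQ ⊔ xV (V ⧸ A) p) := by
  have hm : ∀ v : V, A.mkQ v ∈ B.map A.mkQ ↔ v ∈ B := fun v => by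
    rw [← Submodule.mem_comap, PD_comap_map hB]
  have htop : (⊤ : Submodule R V).map A.mkQ = ⊤ := by
    rw [Submodule.map_top, Submodule.range_mkQ]
  refine ⟨⟨fun h a q ha hq => ?_, fun h a v ha hv => ?_⟩, PD_comap_map hB, ?_,
    ⟨fun h => ?_, fun h => ?_⟩, ⟨fun h => ?_, fun h => ?_⟩,
    fun K hK hA => ⟨fun h x => ?_, fun h x => ?_⟩, fun L => ?_, fun P p => ?_⟩
  · obtain ⟨v, rfl⟩ := A.mkQ_surjective q
    rw [← map_smul, hm] at hq
    exact (hm v).2 (h a v ha hq)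
  · refine (hm v).1 (h a _ ha ?_)
    rw [← map_smul]
    exact (hm _).2 hv
  · have h1 := Submodule.finrank_quotient_add_finrank (LinearMap.ker (A.mkQ ∘ₗ B.subtype))
    rw [(A.mkQ ∘ₗ B.subtype).quotKerEquivRange.finrank_eq, LinearMap.range_comp, Submodule.range_subtype, LinearMap.ker_comp,
      Submodule.ker_mkQ, (Submodule.comapSubtypeEquivOfLe hB).finrank_eq] at h1
    exact h1
  · subst h
    exact Submodule.mkQ_map_self B
  · rw [← PD_comap_map hB, h, Submodule.comap_bot, Submodule.ker_mkQ]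
  · rw [h, htop]
  · rw [← PD_comap_map hB, h, Submodule.comap_top]
  · rintro q ⟨hb, hk⟩
    obtain ⟨k, hk, rfl⟩ := hk
    rw [← PD_xV]
    exact ⟨k, h x ⟨(hm k).1 hb, hk⟩, rfl⟩
  · rintro b ⟨hb, hk⟩
    have h1 : A.mkQ b ∈ xV (V ⧸ A) x := h x ⟨(hm b).2 hb, ⟨b, hk, rfl⟩⟩
    rw [← PD_xV] at h1
    obtain ⟨z, hz, hzb⟩ := h1
    have h2 : b - z ∈ A := by
      rw [← Submodule.ker_mkQ A, LinearMap.mem_ker, map_sub, hzb, sub_self]
    have h3 : b - z ∈ xV V x := hA x ⟨h2, (K x).sub_mem hk (hK x hz)⟩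
    have h4 := (xV V x).add_mem h3 hz
    rwa [sub_add_cancel] at h4
  · rw [← Submodule.map_sup]
    constructor
    · intro h
      rw [h, htop]
    · intro h
      rw [← PD_comap_map (hB.trans (le_sup_left : B ≤ B ⊔ L)), h, Submodule.comap_top]
  · rw [← PD_xV, ← Submodule.map_sup]
    exact PD_map_le (hB.trans le_sup_left)

end

theorem thm_PD (hA : St_PA) (hMA : St_MA) (hMB : St_MB) (hM : St_MC) : St_PD := by
  intro R V _ _ _ _ _ _ _ A hs
  refine ⟨fun B hB => PD_sub hA A hs B hB, fun B hB => PD_quo A B hB, fun T c hT => ?_,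
    fun T c hT => ?_⟩
  · refine (hM hMA hMB (Submodule R V) cmp (fun x => Or.inl le_rfl) (fun x y => Or.symm) T T
      c).2.2.2.2.2.1 (Submodule R A) cmp _ (fun x => Or.inl le_rfl) (fun x y => Or.symm) ?_ ?_
    · intro B hB C hC h
      have h' : B.comap A.subtype = C.comap A.subtype := h
      rw [← PD_map_comap (hT B hB), h', PD_map_comap (hT C hC)]
    · intro B hB C hC
      exact or_congr (PD_comap_le (hT B hB)) (PD_comap_le (hT C hC))
  · refine (hM hMA hMB (Submodule R V) cmp (fun x => Or.inl le_rfl) (fun x y => Or.symm) T T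
      c).2.2.2.2.2.1 (Submodule R (V ⧸ A)) cmp _ (fun x => Or.inl le_rfl)
      (fun x y => Or.symm) ?_ ?_
    · intro B hB C hC h
      have h' : B.map A.mkQ = C.map A.mkQ := h
      rw [← PD_comap_map (hT B hB), h', PD_comap_map (hT C hC)]
    · intro B hB C hC
      exact or_congr (PD_map_le (hT C hC)) (PD_map_le (hT B hB))

end Pool.Agent.SLZ
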