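import Pool.Agent.SLZ.StP

/-!
# SLZ, module PE: duality for summands over a principal ideal domain (helper1 for helper38)
-/

set_option autoImplicit false
set_option linter.unusedVariables false

noncomputable section

namespace Pool.Agent.SLZ

namespace PEx

section

variable {R V : Type} [CommRing R] [AddCommGroup V] [Module R V]

/-- the functionals with values in `x` on `L` -/
def pdx (x : MaximalSpectrum R) (L : Submodule R V) : Submodule R (Module.Dual R V) where
  carrier := {φ | ∀ v ∈ L, φ v ∈ x.asIdeal}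
  add_mem' := by
    intro φ ψ h1 h2 v hv
    exact x.asIdeal.add_mem (h1 v hv) (h2 v hv)
  zero_mem' := by
    intro v hv
    exact x.asIdeal.zero_mem
  smul_mem' := by
    intro a φ h1 v hv
    exact x.asIdeal.mul_mem_left a (h1 v hv)

theorem mem_pdx {x : MaximalSpectrum R} {L : Submodule R V} {φ : Module.Dual R V} :
    φ ∈ pdx x L ↔ ∀ v ∈ L, φ v ∈ x.asIdeal := Iff.rfl

theorem apply_mem {x : MaximalSpectrum R} {v : V} (hv : v ∈ xV V x) (φ : Module.Dual R V) :
    φ v ∈ x.asIdeal := by
  have h1 : xV V x ≤ Submodule.comap (φ : V →ₗ[R] R) x.asIdeal := by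
    refine Submodule.smul_le.2 fun a ha w _ => ?_
    show φ (a • w) ∈ x.asIdeal
    rw [map_smul]
    exact x.asIdeal.mul_mem_right _ ha
  exact h1 hv

theorem mem_xV {x : MaximalSpectrum R} {n : ℕ} (b : Module.Basis (Fin n) R V) {v : V}
    (h : ∀ i, b.repr v i ∈ x.asIdeal) : v ∈ xV V x := by
  rw [← b.sum_repr v]
  exact Submodule.sum_mem _ fun i _ => Submodule.smul_mem_smul (h i) trivial

theorem dual_mem_xV {x : MaximalSpectrum R} {n : ℕ} (b : Module.Basis (Fin n) R V)
    {φ : Module.Dual R V} (h : ∀ v, φ v ∈ x.asIdeal) : φ ∈ xV (Module.Dual R V) x := by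
  rw [← b.sum_dual_apply_smul_coord φ]
  exact Submodule.sum_mem _ fun i _ => Submodule.smul_mem_smul (h _) trivial

theorem dual_apply_mem {x : MaximalSpectrum R} {φ : Module.Dual R V}
    (h : φ ∈ xV (Module.Dual R V) x) (v : V) : φ v ∈ x.asIdeal := by
  have h1 : xV (Module.Dual R V) x ≤
      Submodule.comap (Module.Dual.eval R V v : Module.Dual R V →ₗ[R] R) x.asIdeal := by
    refine Submodule.smul_le.2 fun a ha ψ _ => ?_
    show Module.Dual.eval R V v (a • ψ) ∈ x.asIdeal
    rw [map_smul]
    exact x.asIdeal.mul_mem_right _ ha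
  exact h1 h

end

section

variable {R V : Type} [CommRing R] [IsDomain R] [IsPrincipalIdealRing R]
  [AddCommGroup V] [Module R V] [Module.Free R V] [Module.Finite R V]

omit [IsPrincipalIdealRing R] [Module.Free R V] [Module.Finite R V] in
theorem tf {B : Submodule R V} (hB : Sat B) : Module.IsTorsionFree R (V ⧸ B) := by
  constructor
  intro r hr
  have hr0 : r ≠ 0 := hr.ne_zero
  intro p q hpq
  obtain ⟨v, rfl⟩ := B.mkQ_surjective p
  obtain ⟨w, rfl⟩ := B.mkQ_surjective q
  have h1 : B.mkQ (r • v) = B.mkQ (r • w) := hpq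
  rw [Submodule.mkQ_apply, Submodule.mkQ_apply, Submodule.Quotient.eq, ← smul_sub] at h1
  exact (Submodule.Quotient.eq B).2 (hB r _ hr0 h1)

omit [Module.Free R V] in
/-- the projection along a summand -/
theorem exists_proj {B : Submodule R V} (hB : Sat B) :
    ∃ e : V →ₗ[R] V, (∀ v ∈ B, e v = 0) ∧ ∀ v, v - e v ∈ B := by
  have := tf hB
  obtain ⟨s, hs⟩ := Module.projective_lifting_property B.mkQ LinearMap.id B.mkQ_surjective
  refine ⟨s ∘ₗ B.mkQ, fun v hv => ?_, fun v => ?_⟩
  · have h1 : B.mkQ v = 0 := (Submodule.Quotient.mk_eq_zero B).2 hv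
    rw [LinearMap.comp_apply, h1, map_zero]
  · have h1 : B.mkQ (s (B.mkQ v)) = B.mkQ v := congrArg (fun f => f (B.mkQ v)) hs
    exact (Submodule.Quotient.eq B).1 h1.symm

theorem adapted (x : MaximalSpectrum R) {L : Submodule R V} (hL : xV V x ≤ L) :
    ∃ (n : ℕ) (b : Module.Basis (Fin n) R V) (S : Finset (Fin n)),
      ∀ v, v ∈ L ↔ ∀ i ∉ S, b.repr v i ∈ x.asIdeal := by
  classical
  obtain ⟨m, snf⟩ := L.smithNormalForm (Module.finBasis R V)
  refine ⟨_, snf.bM, Finset.univ.filter (fun i => snf.bM i ∈ L), fun v => ⟨fun hv i hi => ?_,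
    fun h => ?_⟩⟩
  · have hi' : snf.bM i ∉ L := fun h => hi (by simpa using h)
    by_cases hr : i ∈ Set.range snf.f
    · obtain ⟨j, rfl⟩ := hr
      have h1 := snf.repr_apply_embedding_eq_repr_smul (m := ⟨v, hv⟩) (i := j)
      have h2 : snf.a j ∈ x.asIdeal := by
        by_contra h3
        obtain ⟨u, w, hw, huw⟩ := x.isMaximal.exists_inv h3
        apply hi'
        have h4 : snf.bM (snf.f j) = u • (snf.bN j : V) + w • snf.bM (snf.f j) := by
          rw [snf.snf, smul_smul, ← add_smul, huw, one_smul]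
        rw [h4]
        exact L.add_mem (L.smul_mem _ (snf.bN j).2) (hL (Submodule.smul_mem_smul hw trivial))
      have h3 : snf.bM.repr v (snf.f j) = snf.a j * snf.bN.repr ⟨v, hv⟩ j := by
        rw [← smul_eq_mul, ← Finsupp.smul_apply, ← map_smul]
        exact h1
      rw [h3]
      exact x.asIdeal.mul_mem_right _ h2
    · have h1 := snf.repr_eq_zero_of_notMem_range (m := ⟨v, hv⟩) hr
      have h2 : snf.bM.repr v i = 0 := h1
      rw [h2]
      exact x.asIdeal.zero_mem
  · rw [← snf.bM.sum_repr v]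
    refine L.sum_mem fun i _ => ?_
    by_cases hi : snf.bM i ∈ L
    · exact L.smul_mem _ hi
    · exact hL (Submodule.smul_mem_smul (h i (by simpa using hi)) trivial)

omit [IsDomain R] [IsPrincipalIdealRing R] [Module.Free R V] [Module.Finite R V] in
theorem cod_eq (x : MaximalSpectrum R) {L : Submodule R V} {n : ℕ} (b : Module.Basis (Fin n) R V)
    (S : Finset (Fin n)) (h : ∀ v, v ∈ L ↔ ∀ i ∉ S, b.repr v i ∈ x.asIdeal) :
    cod L = (Sᶜ.card : ℕ∞) := by
  let T : V →ₗ[R] ({i // i ∈ Sᶜ} → R ⧸ x.asIdeal) :=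
    LinearMap.pi fun i => x.asIdeal.mkQ ∘ₗ b.coord i.1
  have hT : ∀ v i, T v i = Submodule.Quotient.mk (b.repr v i.1) := fun v i => rfl
  have hs : Function.Surjective T := by
    intro f
    choose g hg using fun i => x.asIdeal.mkQ_surjective (f i)
    refine ⟨∑ i : Fin n, (if hi : i ∈ Sᶜ then g ⟨i, hi⟩ else 0) • b i, funext fun i => ?_⟩
    rw [hT, b.repr_sum_self, dif_pos i.2]
    exact hg i
  have hk : LinearMap.ker T = L := by
    ext v
    rw [LinearMap.mem_ker, h]
    constructor
    · intro h1 i hi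
      have h2 := congrFun h1 ⟨i, Finset.mem_compl.2 hi⟩
      exact (Submodule.Quotient.mk_eq_zero _).1 h2
    · intro h1
      funext i
      rw [hT]
      exact (Submodule.Quotient.mk_eq_zero _).2 (h1 i.1 (Finset.mem_compl.1 i.2))
  have h1 : IsSimpleModule R (R ⧸ x.asIdeal) := by
    have := x.isMaximal
    exact isSimpleModule_iff_quot_maximal.2 ⟨x.asIdeal, this, ⟨LinearEquiv.refl _ _⟩⟩
  rw [cod, ← hk, (T.quotKerEquivOfSurjective hs).length_eq, Module.length_pi,
    Module.length_eq_one, mul_one, ENat.card_eq_coe_fintype_card, Fintype.card_coe]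

/-- lifting a functional modulo `x` -/
theorem lift {B M : Submodule R V} (hB : Sat B) {x : MaximalSpectrum R} (hBM : B ≤ M)
    (hM : xV V x ≤ M) {v : V} (hv : v ∉ M) :
    ∃ φ ∈ B.dualAnnihilator, (∀ m ∈ M, φ m ∈ x.asIdeal) ∧ φ v ∉ x.asIdeal := by
  obtain ⟨e, he1, he2⟩ := exists_proj hB
  obtain ⟨n, b, S, hS⟩ := adapted x hM
  obtain ⟨i, hi⟩ := not_forall.1 (fun h => hv ((hS v).2 h))
  obtain ⟨hi, hiv⟩ := Classical.not_imp.1 hi
  have key : ∀ w, b.repr w i - b.repr (e w) i ∈ x.asIdeal := by
    intro w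
    have h1 := (hS _).1 (hBM (he2 w)) i hi
    rwa [map_sub] at h1
  refine ⟨b.coord i ∘ₗ e, ?_, fun m hm => ?_, fun h => ?_⟩
  · rw [Submodule.mem_dualAnnihilator]
    intro w hw
    rw [LinearMap.comp_apply, he1 w hw, map_zero]
  · have h1 := (hS m).1 hm i hi
    have h2 := x.asIdeal.sub_mem h1 (key m)
    rwa [sub_sub_cancel] at h2
  · apply hiv
    have h2 := x.asIdeal.add_mem (key v) h
    have h3 : b.repr v i - b.repr (e v) i + (b.coord i ∘ₗ e) v = b.repr v i := by
      show b.repr v i - b.repr (e v) i + b.repr (e v) i = b.repr v i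
      ring
    rwa [h3] at h2

end

end PEx

open PEx in
/-- **PE** -/
theorem thm_PE : St_PE := by
  intro R V _ _ _ _ _ _ _
  have b := Module.finBasis R V
  refine ⟨Submodule.dualAnnihilator, pdx, ?_, ?_, ?_, ?_, ?_, ?_, ?_⟩
  · intro B a φ ha h
    rw [Submodule.mem_dualAnnihilator] at h ⊢
    intro w hw
    have h1 := h w hw
    rw [LinearMap.smul_apply, smul_eq_mul] at h1
    exact (mul_eq_zero.1 h1).resolve_left ha
  · intro B C hB hC
    refine ⟨fun h v hv => ?_, fun h => Submodule.dualAnnihilator_anti h⟩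
    have := tf hB
    by_contra hvB
    have h1 : B.mkQ v ≠ 0 := fun h2 => hvB ((Submodule.Quotient.mk_eq_zero B).1 h2)
    obtain ⟨ψ, hψ⟩ := Module.Projective.exists_dual_ne_zero R h1
    have h2 : ψ ∘ₗ B.mkQ ∈ B.dualAnnihilator := by
      rw [Submodule.mem_dualAnnihilator]
      intro w hw
      have h3 : B.mkQ w = 0 := (Submodule.Quotient.mk_eq_zero B).2 hw
      rw [LinearMap.comp_apply, h3, map_zero]
    exact hψ ((Submodule.mem_dualAnnihilator _).1 (h h2) v hv)
  · intro B hB
    have := tf hB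
    rw [← B.dualQuotEquivDualAnnihilator.finrank_eq, Module.finrank_linearMap_self,
      Submodule.finrank_quotient_add_finrank]
  · intro A hA
    have hs : Sat A.dualCoannihilator := by
      intro a v ha h
      rw [Submodule.mem_dualCoannihilator] at h ⊢
      intro φ hφ
      have h1 := h φ hφ
      rw [map_smul, smul_eq_mul] at h1
      exact (mul_eq_zero.1 h1).resolve_left ha
    refine ⟨A.dualCoannihilator, hs, le_antisymm (fun φ hφ => ?_)
      A.le_dualCoannihilator_dualAnnihilator⟩
    have := tf hA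
    by_contra hφA
    have h1 : A.mkQ φ ≠ 0 := fun h2 => hφA ((Submodule.Quotient.mk_eq_zero A).1 h2)
    obtain ⟨ψ, hψ⟩ := Module.Projective.exists_dual_ne_zero R h1
    obtain ⟨v, hv⟩ := (Module.evalEquiv R V).surjective (ψ ∘ₗ A.mkQ)
    have hv' : ∀ α : Module.Dual R V, α v = ψ (A.mkQ α) := by
      intro α
      have h2 := congrArg (fun f => f α) hv
      exact h2
    have h2 : v ∈ A.dualCoannihilator := by
      rw [Submodule.mem_dualCoannihilator]
      intro α hα
      have h3 : A.mkQ α = 0 := (Submodule.Quotient.mk_eq_zero A).2 hα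
      rw [hv', h3, map_zero]
    apply hψ
    rw [← hv']
    exact (Submodule.mem_dualAnnihilator _).1 hφ v h2
  · intro x L hL
    refine ⟨fun φ hφ v _ => dual_apply_mem hφ v, ?_, ?_⟩
    · obtain ⟨n, b, S, hS⟩ := adapted x hL
      have h1 : cod (pdx x L) = (Sᶜᶜ.card : ℕ∞) := by
        refine cod_eq x b.dualBasis Sᶜ fun φ => ?_
        constructor
        · intro h i hi
          rw [Finset.mem_compl, not_not] at hi
          rw [Module.Basis.dualBasis_repr]
          refine h _ ((hS _).2 fun j hj => ?_)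
          have hij : i ≠ j := fun h => hj (h ▸ hi)
          rw [b.repr_self, Finsupp.single_apply, if_neg hij]
          exact x.asIdeal.zero_mem
        · intro h v hv
          rw [← b.sum_repr v, map_sum]
          refine x.asIdeal.sum_mem fun i _ => ?_
          rw [map_smul, smul_eq_mul]
          by_cases hi : i ∈ S
          · have h1 := h i (by rw [Finset.mem_compl, not_not]; exact hi)
            rw [Module.Basis.dualBasis_repr] at h1
            exact x.asIdeal.mul_mem_left _ h1
          · exact x.asIdeal.mul_mem_right _ ((hS v).1 hv i hi)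
      rw [h1, cod_eq x b S hS, Module.finrank_eq_card_basis b, compl_compl, ← Nat.cast_add,
        Finset.card_add_card_compl]
    · constructor
      · intro h
        refine le_antisymm (fun v hv => mem_xV b fun i => ?_) hL
        have h1 : b.coord i ∈ pdx x L := by
          rw [h]
          trivial
        exact h1 v hv
      · intro h
        rw [h, eq_top_iff]
        intro φ _ v hv
        exact apply_mem hv φ
  · intro x B L hB hL
    refine ⟨⟨fun h φ hφ => dual_mem_xV b fun v => ?_, fun h => ?_⟩, ⟨fun h φ hφ v hv => ?_,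
      fun h v hv => ?_⟩⟩
    · obtain ⟨h1, h2⟩ := hφ
      have hv : v ∈ B ⊔ L := by
        rw [h]
        trivial
      obtain ⟨w, hw, z, hz, rfl⟩ := Submodule.mem_sup.1 hv
      rw [map_add, (Submodule.mem_dualAnnihilator _).1 h1 w hw, zero_add]
      exact h2 z hz
    · by_contra h1
      obtain ⟨v, hv⟩ := not_forall.1 (fun h2 => h1 (eq_top_iff.2 fun v _ => h2 v))
      obtain ⟨φ, hφ1, hφ2, hφ3⟩ := lift hB (x := x) (M := B ⊔ L) le_sup_left
        (hL.trans le_sup_right) hv
      exact hφ3 (dual_apply_mem (h ⟨hφ1, fun m hm => hφ2 m (Submodule.mem_sup_right hm)⟩) v)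
    · obtain ⟨w, hw, z, hz, rfl⟩ := Submodule.mem_sup.1 (h hv)
      rw [map_add, (Submodule.mem_dualAnnihilator _).1 hφ w hw, zero_add]
      exact apply_mem hz φ
    · by_contra h1
      obtain ⟨φ, hφ1, hφ2, hφ3⟩ := lift hB (x := x) (M := B ⊔ xV V x) le_sup_left
        le_sup_right h1
      exact hφ3 (h hφ1 v hv)
  · rintro K ⟨hK, F, hF, hfin⟩
    refine ⟨fun x φ hφ v _ => dual_apply_mem hφ v, F.dualAnnihilator, ?_, hfin.subset fun x hx => ?_⟩
    · intro a φ ha h
      rw [Submodule.mem_dualAnnihilator] at h ⊢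
      intro w hw
      have h1 := h w hw
      rw [LinearMap.smul_apply, smul_eq_mul] at h1
      exact (mul_eq_zero.1 h1).resolve_left ha
    · intro h
      apply hx
      show pdx x (K x) = _
      rw [h]
      apply le_antisymm
      · intro φ hφ
        obtain ⟨e, he1, he2⟩ := exists_proj hF
        refine Submodule.mem_sup.2 ⟨φ ∘ₗ e, ?_, φ - φ ∘ₗ e, ?_, by abel⟩
        · rw [Submodule.mem_dualAnnihilator]
          intro w hw
          rw [LinearMap.comp_apply, he1 w hw, map_zero]
        · refine dual_mem_xV b fun v => ?_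
          rw [LinearMap.sub_apply, LinearMap.comp_apply, ← map_sub]
          exact hφ _ (Submodule.mem_sup_left (he2 v))
      · refine sup_le (fun φ hφ v hv => ?_) (fun φ hφ v _ => dual_apply_mem hφ v)
        obtain ⟨w, hw, z, hz, rfl⟩ := Submodule.mem_sup.1 hv
        rw [map_add, (Submodule.mem_dualAnnihilator _).1 hφ w hw, zero_add]
        exact apply_mem hz φ

end Pool.Agent.SLZ
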