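import Pool.Agent.SLZ.StP

/-!
# SLZ/PT (helper95): the main theorem on summands which avoid subspaces
-/

set_option autoImplicit false
set_option linter.unusedVariables false
set_option linter.unusedSectionVars false

noncomputable section

namespace Pool.Agent.SLZ

section

variable {R V : Type} [CommRing R] [IsDomain R] [IsPrincipalIdealRing R] [AddCommGroup V] [Module R V]
  [Module.Free R V] [Module.Finite R V]

theorem PT_eq_of_rank {A B : Submodule R V} (hA : Sat A) (hAB : A ≤ B) (hr : Module.finrank R A = Module.finrank R B) : A = B := by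
  refine le_antisymm hAB (fun b hb => ?_)
  have h1 := Submodule.finrank_quotient_add_finrank (A.comap B.subtype)
  have h2 : Module.finrank R (A.comap B.subtype) = Module.finrank R A :=
    (Submodule.comapSubtypeEquivOfLe hAB).finrank_eq
  rw [h2, hr] at h1
  have h3 : Module.finrank R (B ⧸ (A.comap B.subtype)) = 0 := by omega
  rw [Module.finrank_eq_zero_iff] at h3
  obtain ⟨a, ha, h4⟩ := h3 (Submodule.Quotient.mk ⟨b, hb⟩)
  rw [← Submodule.Quotient.mk_smul, Submodule.Quotient.mk_eq_zero] at h4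
  exact hA a b ha h4

theorem PT_rank_lt {A B : Submodule R V} (hA : Sat A) (hAB : A < B) : Module.finrank R A < Module.finrank R B := by
  refine lt_of_le_of_ne (Submodule.finrank_mono hAB.le) (fun h => hAB.ne (PT_eq_of_rank hA hAB.le h))

theorem PT_rank_pos {A : Submodule R V} (hA : A ≠ ⊥) : 1 ≤ Module.finrank R A := by
  have : Nontrivial A := (Submodule.nontrivial_iff_ne_bot).2 hA
  exact Module.finrank_pos_iff.2 this

theorem PT_free {A : Submodule R V} (hA : Sat A) : Module.Free R (V ⧸ A) := by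
  have : Module.IsTorsionFree R (V ⧸ A) := by
    refine ⟨fun r hr => ?_⟩
    have hr0 : r ≠ 0 := hr.ne_zero
    intro x y hxy
    obtain ⟨x, rfl⟩ := Submodule.Quotient.mk_surjective A x
    obtain ⟨y, rfl⟩ := Submodule.Quotient.mk_surjective A y
    have h1 : r • (Submodule.Quotient.mk x : V ⧸ A) = r • (Submodule.Quotient.mk y : V ⧸ A) := hxy
    rw [← Submodule.Quotient.mk_smul, ← Submodule.Quotient.mk_smul, Submodule.Quotient.eq, ← smul_sub] at h1
    rw [Submodule.Quotient.eq]
    exact hA r _ hr0 h1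
  exact Module.free_of_finite_type_torsion_free'

theorem PT_key {x : MaximalSpectrum R} {K A : Submodule R V} {v : V} (hv : v ∉ K) (hK : xV V x ≤ K)
    (hA' : A ⊓ (K ⊔ R ∙ v) ≤ xV V x) {a : V} (ha : a ∈ A) {c : R} (h : a + c • v ∈ K) : c ∈ x.asIdeal ∧ a ∈ xV V x := by
  have h1 : a ∈ K ⊔ R ∙ v := by
    have e : a = (a + c • v) + (-c) • v := by
      rw [neg_smul]
      abel
    rw [e]
    exact Submodule.add_mem _ (Submodule.mem_sup_left h)
      (Submodule.mem_sup_right (Submodule.smul_mem _ _ (Submodule.mem_span_singleton_self v)))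
  have h2 : a ∈ xV V x := hA' ⟨ha, h1⟩
  refine ⟨?_, h2⟩
  by_contra hc
  obtain ⟨y, i, hi, hyi⟩ := x.isMaximal.exists_inv hc
  apply hv
  have h3 : c • v ∈ K := by
    have := Submodule.sub_mem _ h (hK h2)
    rwa [add_sub_cancel_left] at this
  have h4 : v = y • (c • v) + i • v := by
    rw [smul_smul, ← add_smul, hyi, one_smul]
  rw [h4]
  exact Submodule.add_mem _ (Submodule.smul_mem _ _ h3)
    (hK (Submodule.smul_mem_smul hi (Submodule.mem_top : v ∈ (⊤ : Submodule R V))))

theorem PT_smul_mem (x : MaximalSpectrum R) {c : R} (hc : c ∈ x.asIdeal) (v : V) : c • v ∈ xV V x :=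
  Submodule.smul_mem_smul hc (Submodule.mem_top : v ∈ (⊤ : Submodule R V))

theorem PT_av {K : MaximalSpectrum R → Submodule R V} (hK : ∀ x, xV V x ≤ K x) {v : V} (hv : ∀ x, v ∉ K x)
    {A : Submodule R V} (hA' : Av (fun x => K x ⊔ R ∙ v) A) : Av K (A ⊔ R ∙ v) := by
  intro x y hy
  obtain ⟨hy1, hy2⟩ := hy
  obtain ⟨a, ha, z, hz, rfl⟩ := Submodule.mem_sup.1 hy1
  obtain ⟨c, rfl⟩ := Submodule.mem_span_singleton.1 hz
  obtain ⟨h1, h2⟩ := PT_key (hv x) (hK x) (hA' x) ha hy2
  exact Submodule.add_mem _ h2 (PT_smul_mem x h1 v)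

theorem PT_sat (hPA : St_PA) {K : MaximalSpectrum R → Submodule R V} (hK : ∀ x, xV V x ≤ K x) {v : V} (hv : ∀ x, v ∉ K x)
    {A : Submodule R V} (hA : Sat A) (hA' : Av (fun x => K x ⊔ R ∙ v) A) : Sat (A ⊔ R ∙ v) := by
  have hinj : ∀ x : MaximalSpectrum R, ∀ y ∈ A ⊔ R ∙ v, y ∈ xV V x → y ∈ x.asIdeal • (A ⊔ R ∙ v) := by
    intro x y hy1 hy2
    obtain ⟨a, ha, z, hz, rfl⟩ := Submodule.mem_sup.1 hy1
    obtain ⟨c, rfl⟩ := Submodule.mem_span_singleton.1 hz
    obtain ⟨h1, h2⟩ := PT_key (hv x) (hK x) (hA' x) ha (hK x hy2)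
    refine Submodule.add_mem _ ?_ ?_
    · have h3 : a ∈ A ⊓ xV V x := ⟨ha, h2⟩
      rw [(hPA R V x A hA).1.1] at h3
      exact Submodule.smul_mono le_rfl le_sup_left h3
    · exact Submodule.smul_mem_smul h1 (Submodule.mem_sup_right (Submodule.mem_span_singleton_self v))
  intro s
  refine WfDvdMonoid.induction_on_irreducible (motive := fun s => ∀ (w : V), s ≠ 0 → s • w ∈ A ⊔ R ∙ v → w ∈ A ⊔ R ∙ v) s ?_ ?_ ?_
  · intro w h
    exact absurd rfl h
  · intro u hu w _ hw
    obtain ⟨u, rfl⟩ := hu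
    have h1 := Submodule.smul_mem _ ((u⁻¹ : Rˣ) : R) hw
    rwa [smul_smul, Units.inv_mul, one_smul] at h1
  · intro a i ha hi ih w _ hw
    rw [mul_smul] at hw
    refine ih w ha ?_
    have hmax : (Ideal.span {i}).IsMaximal := PrincipalIdealRing.isMaximal_of_irreducible hi
    have h1 : i • (a • w) ∈ xV V ⟨Ideal.span {i}, hmax⟩ := PT_smul_mem _ (Ideal.mem_span_singleton_self i) _
    have h2 := hinj _ _ hw h1
    have h3 : i • (a • w) ∈ (Ideal.span {i} : Ideal R) • (A ⊔ R ∙ v) := h2
    rw [Submodule.ideal_span_singleton_smul, Submodule.mem_smul_pointwise_iff_exists] at h3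
    obtain ⟨b, hb, hbe⟩ := h3
    have h4 : b = a • w := smul_right_injective V hi.ne_zero hbe
    rwa [← h4]

theorem PT_tt (hPA : St_PA) {K : MaximalSpectrum R → Submodule R V} (hK : ∀ x, xV V x ≤ K x) {v : V} (hv : ∀ x, v ∉ K x)
    {N A : Submodule R V} (hA : A ∈ TT K N) (hA' : Av (fun x => K x ⊔ R ∙ v) A) :
    v ∉ A ∧ A ⊔ R ∙ v ∈ TT K N := by
  obtain ⟨h0, h1, h2, h3⟩ := hA
  refine ⟨?_, ?_, PT_sat hPA hK hv h1 hA', PT_av hK hv hA', ?_⟩
  · intro hvA
    obtain ⟨x⟩ : Nonempty (MaximalSpectrum R) := inferInstance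
    have h4 : v ∈ xV V x := hA' x ⟨hvA, Submodule.mem_sup_right (Submodule.mem_span_singleton_self v)⟩
    exact hv x (hK x h4)
  · intro h
    exact h0 (le_bot_iff.1 (h ▸ le_sup_left))
  · exact fun h => h3 (le_sup_left.trans h)

theorem PT_v (hPA : St_PA) {K : MaximalSpectrum R → Submodule R V} (hK : ∀ x, xV V x ≤ K x) {v : V} (hv : ∀ x, v ∉ K x)
    {N : Submodule R V} (hvN : v ∉ N) (hsat : Sat (R ∙ v)) : R ∙ v ∈ TT K N := by
  obtain ⟨x⟩ : Nonempty (MaximalSpectrum R) := inferInstance
  refine ⟨?_, hsat, ?_, ?_⟩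
  · intro h
    rw [Submodule.span_singleton_eq_bot] at h
    exact hv x (h ▸ Submodule.zero_mem _)
  · have h1 : Av (fun x => K x ⊔ R ∙ v) (⊥ : Submodule R V) := fun x => by
      rw [bot_inf_eq]
      exact bot_le
    have h2 := PT_av hK hv h1
    rwa [bot_sup_eq] at h2
  · exact fun h => hvN (h (Submodule.mem_span_singleton_self v))

end

theorem PT_cmp_refl {P : Type} [Preorder P] (x : P) : cmp x x := Or.inl le_rfl

theorem PT_cmp_symm {P : Type} [Preorder P] (x y : P) (h : cmp x y) : cmp y x := h.symm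

/-- the first part of the descending link in stage 3 -/
theorem PT_up (hPA : St_PA) (hPB : St_PB) (hPD : St_PD) (R V : Type) [CommRing R] [IsDomain R] [IsPrincipalIdealRing R]
    [AddCommGroup V] [Module R V] [Module.Free R V] [Module.Finite R V] (K : MaximalSpectrum R → Submodule R V)
    (N : Submodule R V) (c : ℕ) (hK : Adms K) (hc : ∀ x, (c : ℕ∞) ≤ cod (K x)) (A : Submodule R V) (hA : A ∈ TT K N)
    (IH : ∀ (c' : ℕ) (K' : MaximalSpectrum R → Submodule R (V ⧸ A)), Adms K' → (∀ x, (c' : ℕ∞) ≤ cod (K' x)) →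
      SConn cmp (TT K' ⊥) c') :
    SConn cmp {u : Submodule R V | u ∈ TT K N ∧ A < u} (c - Module.finrank R A) := by
  obtain ⟨h0, h1, h2, h3⟩ := hA
  have hD := hPD R V A h1
  rw [hD.2.2.2 {u : Submodule R V | u ∈ TT K N ∧ A < u} (c - Module.finrank R A) (fun B hB => hB.2.le)]
  have himg : (fun B : Submodule R V => B.map A.mkQ) '' {u : Submodule R V | u ∈ TT K N ∧ A < u} =
      TT (fun x => (K x).map A.mkQ) ⊥ := by
    ext C
    rw [Set.mem_image]
    constructor
    · rintro ⟨B, ⟨⟨hB0, hB1, hB2, hB3⟩, hAB⟩, rfl⟩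
      obtain ⟨e1, e2, e3, e4, e5, e6, e7, e8⟩ := hD.2.1 B hAB.le
      have hne : B.map A.mkQ ≠ ⊥ := fun h => hAB.ne' (e4.2 h)
      exact ⟨hne, e1.1 hB1, (e6 K hK.1 h2).1 hB2, fun h => hne (le_bot_iff.1 h)⟩
    · rintro ⟨hC0, hC1, hC2, hC3⟩
      have hAB : A ≤ C.comap A.mkQ := by
        intro a ha
        rw [Submodule.mem_comap, Submodule.mkQ_apply, (Submodule.Quotient.mk_eq_zero A).2 ha]
        exact Submodule.zero_mem _
      have hmap : (C.comap A.mkQ).map A.mkQ = C := Submodule.map_comap_eq_of_surjective (Submodule.mkQ_surjective A) C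
      obtain ⟨e1, e2, e3, e4, e5, e6, e7, e8⟩ := hD.2.1 (C.comap A.mkQ) hAB
      rw [hmap] at e1 e4 e6
      refine ⟨C.comap A.mkQ, ⟨⟨?_, e1.2 hC1, (e6 K hK.1 h2).2 hC2, ?_⟩, ?_⟩, hmap⟩
      · intro h
        rw [h] at hAB
        exact h0 (le_bot_iff.1 hAB)
      · exact fun h => h3 (hAB.trans h)
      · exact lt_of_le_of_ne hAB (fun h => hC0 (e4.1 h.symm))
  rw [himg]
  refine IH _ _ ((hPB R V K hK).2.1 A h1).2 (fun x => ?_)
  obtain ⟨e1, e2, e3⟩ := (hPA R V x A h1).2.2.1 (K x) (hK.1 x) (h2 x)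
  have h4 := hc x
  rw [← e1, ← e2] at h4
  have h5 : ((c - Module.finrank R A : ℕ) : ℕ∞) = (c : ℕ∞) - (Module.finrank R A : ℕ∞) := ENat.natCast_sub _ _
  rw [h5]
  exact tsub_le_iff_right.2 h4

/-- the second part of the descending link in stage 3 -/
theorem PT_down (hPA : St_PA) (hPB : St_PB) (hPD : St_PD) (R V : Type) [CommRing R] [IsDomain R] [IsPrincipalIdealRing R]
    [AddCommGroup V] [Module R V] [Module.Free R V] [Module.Finite R V] (K : MaximalSpectrum R → Submodule R V)
    (N : Submodule R V) (hK : Adms K) (hN : OkN N) (A : Submodule R V) (hA : A ∈ TT K N) (v : V)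
    (hA' : ¬ Av (fun x => K x ⊔ R ∙ v) A)
    (IH : ∀ (c' : ℕ) (K' : MaximalSpectrum R → Submodule R A) (N' : Submodule R A), Adms K' → OkN N' →
      (∀ x, (c' : ℕ∞) ≤ cod (K' x)) → SConn cmp (TT K' N') c') :
    SConn cmp {u : Submodule R V | u ∈ TT (fun x => K x ⊔ R ∙ v) N ∧ u < A} (Module.finrank R A - 1) := by
  obtain ⟨h0, h1, h2, h3⟩ := hA
  have hD := hPD R V A h1
  rw [hD.2.2.1 {u : Submodule R V | u ∈ TT (fun x => K x ⊔ R ∙ v) N ∧ u < A} (Module.finrank R A - 1) (fun B hB => hB.2.le)]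
  have himg : (fun B : Submodule R V => B.comap A.subtype) '' {u : Submodule R V | u ∈ TT (fun x => K x ⊔ R ∙ v) N ∧ u < A} =
      TT (fun x => (K x ⊔ R ∙ v).comap A.subtype) (N.comap A.subtype) := by
    ext C
    rw [Set.mem_image]
    constructor
    · rintro ⟨B, ⟨⟨hB0, hB1, hB2, hB3⟩, hBA⟩, rfl⟩
      obtain ⟨e1, e2, e3, e4, e5, e6, e7⟩ := hD.1 B hBA.le
      exact ⟨fun h => hB0 (e5.2 h), e1.1 hB1, (e6 _).1 hB2, fun h => hB3 ((e7 N).2 h)⟩
    · rintro ⟨hC0, hC1, hC2, hC3⟩
      have hBA : C.map A.subtype ≤ A := Submodule.map_subtype_le A C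
      have hcomap : (C.map A.subtype).comap A.subtype = C :=
        Submodule.comap_map_eq_of_injective (Submodule.injective_subtype A) C
      obtain ⟨e1, e2, e3, e4, e5, e6, e7⟩ := hD.1 (C.map A.subtype) hBA
      rw [hcomap] at e1 e4 e5 e6 e7
      have hav := (e6 (fun x => K x ⊔ R ∙ v)).2 hC2
      refine ⟨C.map A.subtype, ⟨⟨fun h => hC0 (e5.1 h), e1.2 hC1, hav, fun h => hC3 ((e7 N).1 h)⟩, ?_⟩, hcomap⟩
      refine lt_of_le_of_ne hBA (fun h => hA' ?_)
      rw [h] at hav
      exact hav
  rw [himg]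
  refine IH _ _ _ ((hPB R V _ ((hPB R V K hK).1 (R ∙ v))).2.1 A h1).1 ?_ (fun x => ?_)
  · rcases hN with rfl | ⟨hN1, p, hp⟩
    · left
      rw [eq_bot_iff]
      intro a ha
      have h4 : (a : V) = 0 := (Submodule.mem_bot R).1 ha
      rw [Submodule.mem_bot]
      exact Subtype.ext h4
    · right
      refine ⟨?_, p, ?_⟩
      · intro h
        apply h3
        intro a ha
        have h4 : (⟨a, ha⟩ : A) ∈ N.comap A.subtype := h ▸ Submodule.mem_top
        exact h4
      · rw [← Submodule.map_le_iff_le_comap]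
        have h4 := (hPA R V p A h1).1.2
        rw [h4]
        exact inf_le_right.trans hp
  · obtain ⟨e1, e2, e3⟩ := (hPA R V x A h1).2.2.1 (K x) (hK.1 x) (h2 x)
    have h4 := e3 v
    have h5 : ((Module.finrank R A - 1 : ℕ) : ℕ∞) = (Module.finrank R A : ℕ∞) - (1 : ℕ∞) := by
      rw [ENat.natCast_sub]
      rfl
    rw [h5]
    exact tsub_le_iff_right.2 h4

/-- **PT.** The main theorem on summands which avoid subspaces. -/
theorem thm_PT (hA : St_PA) (hB : St_PB) (hC : St_PC) (hD : St_PD) (hM : St_MC) (hMA : St_MA) (hMB : St_MB) : St_PT := by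
  classical
  intro R V _ _ _ _ _ _ _
  have key : ∀ (n : ℕ) (V : Type) [AddCommGroup V] [Module R V] [Module.Free R V] [Module.Finite R V],
      Module.finrank R V = n → ∀ (K : MaximalSpectrum R → Submodule R V) (N : Submodule R V) (c : ℕ), Adms K → OkN N →
      (∀ x, (c : ℕ∞) ≤ cod (K x)) → SConn cmp (TT K N) c := by
    intro n
    induction n using Nat.strong_induction_on with
    | _ n ih =>
      intro V _ _ _ _ hn K N c hK hN hc
      have MC := fun (S T : Set (Submodule R V)) (c : ℕ) =>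
        hM hMA hMB (Submodule R V) cmp PT_cmp_refl PT_cmp_symm S T c
      rcases Nat.eq_zero_or_pos c with rfl | hcpos
      · exact (MC (TT K N) ∅ 0).2.2.1
      have hKtop : ∀ x, K x ≠ ⊤ := by
        intro x h
        have h1 := hc x
        have h2 : cod (K x) = 0 := by
          rw [h]
          unfold cod
          rw [Module.length_eq_zero_iff]
          exact Submodule.Quotient.subsingleton_iff.2 rfl
        rw [h2] at h1
        have h3 : (c : ℕ∞) = 0 := le_antisymm h1 (zero_le)
        have h4 : c = 0 := by exact_mod_cast h3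
        omega
      have hnt : Nontrivial V := by
        obtain ⟨x⟩ : Nonempty (MaximalSpectrum R) := inferInstance
        by_contra hcon
        have : Subsingleton V := not_nontrivial_iff_subsingleton.1 hcon
        exact hKtop x (Subsingleton.elim _ _)
      obtain ⟨v, hvK, hvN, hvS⟩ := hC R V K N hK hN hKtop hnt
      have hvT : R ∙ v ∈ TT K N := PT_v hA hK.1 hvK hvN hvS
      set T1 : Set (Submodule R V) := {A | A ∈ TT K N ∧ v ∈ A} with hT1
      set T2 : Set (Submodule R V) := {A | A ∈ TT K N ∧ (v ∈ A ∨ Av (fun x => K x ⊔ R ∙ v) A)} with hT2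
      have hT12 : T1 ⊆ T2 := fun A h => ⟨h.1, Or.inl h.2⟩
      have hT23 : T2 ⊆ TT K N := fun A h => h.1
      have hrk : ∀ (A B : Submodule R V), A ∈ TT K N → B ∈ TT K N → A ≠ B → cmp A B →
          Module.finrank R A ≠ Module.finrank R B := by
        intro A B hA' hB' hne hcmp h
        rcases hcmp with h1 | h1
        · exact hne (PT_eq_of_rank hA'.2.1 h1 h)
        · exact hne (PT_eq_of_rank hB'.2.1 h1 h.symm).symm
      have hle : ∀ (A : Submodule R V), Module.finrank R A ≤ n := by
        intro A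
        rw [← hn]
        exact Submodule.finrank_le A
      -- stage 1
      have s1 : SConn cmp T1 c := by
        refine (MC T1 ∅ c).2.2.2.1 ⟨R ∙ v, ⟨hvT, Submodule.mem_span_singleton_self v⟩, fun u hu => Or.inl ?_⟩
        rw [Submodule.span_singleton_le_iff_mem]
        exact hu.2
      -- stage 2
      have s2 : SConn cmp T2 c := by
        refine ((MC T2 T1 c).2.2.2.2.2.2 ℕ (fun A : Submodule R V => Module.finrank R A) hT12 ?_).1 s1 ?_
        · intro A hA' B hB' _ _ hne hcmp
          exact hrk A B hA'.1 hB'.1 hne hcmp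
        · intro A hA2 hA1
          have hvA : v ∉ A := fun h => hA1 ⟨hA2.1, h⟩
          have hav : Av (fun x => K x ⊔ R ∙ v) A := hA2.2.resolve_left hvA
          obtain ⟨-, hT⟩ := PT_tt hA hK.1 hvK hA2.1 hav
          refine (MC _ ∅ (c - 1)).2.2.2.1 ⟨A ⊔ R ∙ v, ?_, ?_⟩
          · have hv1 : v ∈ A ⊔ R ∙ v := Submodule.mem_sup_right (Submodule.mem_span_singleton_self v)
            refine ⟨⟨hT, Or.inl hv1⟩, ?_, Or.inl le_sup_left, Or.inl ⟨hT, hv1⟩⟩
            intro h
            rw [h] at hv1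
            exact hvA hv1
          · rintro u ⟨hu2, hne, hcmp, hor⟩
            rcases hor with hu1 | hlt
            · rcases hcmp with h | h
              · left
                refine sup_le h ?_
                rw [Submodule.span_singleton_le_iff_mem]
                exact hu1.2
              · exact absurd (h hu1.2) hvA
            · rcases hcmp with h | h
              · exact absurd (Submodule.finrank_mono h) (not_le.2 hlt)
              · right
                exact h.trans le_sup_left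
      -- stage 3
      refine ((MC (TT K N) T2 c).2.2.2.2.2.2 ℕ (fun A : Submodule R V => n - Module.finrank R A) hT23 ?_).1 s2 ?_
      · intro A hA' B hB' _ _ hne hcmp h
        have h1 := hrk A B hA' hB' hne hcmp
        have h2 := hle A
        have h3 := hle B
        have h4 : n - Module.finrank R A = n - Module.finrank R B := h
        omega
      · intro A hA3 hA2
        have hvA : v ∉ A := fun h => hA2 ⟨hA3, Or.inl h⟩
        have hav : ¬ Av (fun x => K x ⊔ R ∙ v) A := fun h => hA2 ⟨hA3, Or.inr h⟩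
        have hAr := PT_rank_pos hA3.1
        have hfree : Module.Free R (V ⧸ A) := PT_free hA3.2.1
        have hsum := (hA R V (Classical.arbitrary (MaximalSpectrum R)) A hA3.2.1).2.1.2.2
        have hAtop : A ≠ ⊤ := fun h => hvA (h ▸ Submodule.mem_top)
        have hlt : Module.finrank R A < n := by
          have h1 := PT_rank_lt hA3.2.1 (lt_top_iff_ne_top.2 hAtop)
          rw [finrank_top, hn] at h1
          exact h1
        have hup := PT_up hA hB hD R V K N c hK hc A hA3 (fun c' K' hK' hc' =>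
          ih (Module.finrank R (V ⧸ A)) (by omega) (V ⧸ A) rfl K' ⊥ c' hK' (Or.inl rfl) hc')
        have hdown := PT_down hA hB hD R V K N hK hN A hA3 v hav (fun c' K' N' hK' hN' hc' =>
          ih (Module.finrank R A) hlt A rfl K' N' c' hK' hN' hc')
        have hdis : Disjoint {u : Submodule R V | u ∈ TT K N ∧ A < u}
            {u : Submodule R V | u ∈ TT (fun x => K x ⊔ R ∙ v) N ∧ u < A} := by
          rw [Set.disjoint_left]
          rintro u ⟨-, h1⟩ ⟨-, h2⟩
          exact lt_irrefl _ (h1.trans h2)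
        have hjoin := (MC {u : Submodule R V | u ∈ TT K N ∧ A < u}
            {u : Submodule R V | u ∈ TT (fun x => K x ⊔ R ∙ v) N ∧ u < A} (c - Module.finrank R A)).2.2.2.2.1
            (Module.finrank R A - 1) hdis (fun u hu w hw => Or.inr (hw.2.le.trans hu.2.le)) hup hdown
        have hset : dlk cmp (fun A : Submodule R V => n - Module.finrank R A) T2 (TT K N) A =
            {u : Submodule R V | u ∈ TT K N ∧ A < u} ∪ {u : Submodule R V | u ∈ TT (fun x => K x ⊔ R ∙ v) N ∧ u < A} := by
          ext u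
          constructor
          · rintro ⟨hu, hne, hcmp, hor⟩
            rcases hcmp with h | h
            · exact Or.inl ⟨hu, lt_of_le_of_ne h hne.symm⟩
            · right
              have huA : u < A := lt_of_le_of_ne h hne
              refine ⟨?_, huA⟩
              rcases hor with h1 | h1
              · have h2 : Av (fun x => K x ⊔ R ∙ v) u := h1.2.resolve_left (fun h3 => hvA (h h3))
                exact ⟨hu.1, hu.2.1, h2, hu.2.2.2⟩
              · exfalso
                have h2 := PT_rank_lt hu.2.1 huA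
                have h3 : n - Module.finrank R u < n - Module.finrank R A := h1
                omega
          · rintro (⟨hu, h⟩ | ⟨hu, h⟩)
            · refine ⟨hu, h.ne', Or.inl h.le, Or.inr ?_⟩
              have h2 := PT_rank_lt hA3.2.1 h
              have h3 := hle u
              show n - Module.finrank R u < n - Module.finrank R A
              omega
            · have huT : u ∈ TT K N := by
                refine ⟨hu.1, hu.2.1, fun x => ?_, hu.2.2.2⟩
                exact (inf_le_inf_left _ le_sup_left).trans (hu.2.2.1 x)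
              exact ⟨huT, h.ne, Or.inr h.le, Or.inl ⟨huT, Or.inr hu.2.2.1⟩⟩
        rw [hset]
        exact (MC _ ∅ _).2.1 hjoin (c - 1) (by omega)
  exact key _ V rfl

end Pool.Agent.SLZ
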