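import Pool.Agent.SLZ.StQ

/-!
# SLZ: module Q1 (the descending link at a bad prime, Case I)
-/

set_option autoImplicit false
set_option linter.unusedVariables false

noncomputable section

namespace Pool.Agent.SLZ

/-- `cod` is antitone -/
theorem Q1_cod_le {R V : Type} [CommRing R] [AddCommGroup V] [Module R V] {K K' : Submodule R V}
    (h : K ≤ K') : cod K' ≤ cod K :=
  Module.length_le_of_surjective (Submodule.factor h) (Submodule.factor_surjective h)

theorem Q1_tf {R V : Type} [CommRing R] [IsDomain R] [AddCommGroup V] [Module R V]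
    {B : Submodule R V} (hB : Sat B) : Module.IsTorsionFree R (V ⧸ B) := by
  rw [Module.isTorsionFree_iff_smul_eq_zero]
  intro r m h
  obtain ⟨v, rfl⟩ := B.mkQ_surjective m
  by_cases hr : r = 0
  · exact Or.inl hr
  right
  rw [← map_smul] at h
  rw [Submodule.mkQ_apply, Submodule.Quotient.mk_eq_zero] at h ⊢
  exact hB r v hr h

theorem Q1_free {R V : Type} [CommRing R] [IsDomain R] [IsPrincipalIdealRing R] [AddCommGroup V]
    [Module R V] [Module.Finite R V] {B : Submodule R V} (hB : Sat B) :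
    Module.Free R (V ⧸ B) := by
  have := Q1_tf hB
  infer_instance

/-- proper saturated submodules have smaller rank -/
theorem Q1_rank_lt (hPA : St_PA) {R V : Type} [CommRing R] [IsDomain R] [IsPrincipalIdealRing R]
    [AddCommGroup V] [Module R V] [Module.Free R V] [Module.Finite R V] (x : MaximalSpectrum R)
    {B : Submodule R V} (hB : Sat B) (hne : B ≠ ⊤) :
    Module.finrank R B < Module.finrank R V := by
  have h1 := (hPA R V x B hB).2.1.2.2
  have := Q1_tf hB
  have : Nontrivial (V ⧸ B) := Submodule.Quotient.nontrivial_iff.mpr hne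
  have h2 : 0 < Module.finrank R (V ⧸ B) := Module.finrank_pos
  omega

/-- the trivial family is admissible -/
theorem Q1_adms_xV {R V : Type} [CommRing R] [IsDomain R] [AddCommGroup V] [Module R V]
    [Module.IsTorsionFree R V] : Adms (fun x : MaximalSpectrum R => xV V x) := by
  refine ⟨fun x => le_refl _, ⊥, ?_, ?_⟩
  · intro a v ha hv
    rw [Submodule.mem_bot] at hv ⊢
    exact (smul_eq_zero.mp hv).resolve_left ha
  · convert Set.finite_empty
    ext x
    simp

/-- the family of a bad prime -/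
def Q1_K {R V : Type} [CommRing R] [AddCommGroup V] [Module R V] (Big : Set (MaximalSpectrum R))
    (p : MaximalSpectrum R) (F H : Submodule R V) : MaximalSpectrum R → Submodule R V :=
  open Classical in fun x => if x ∈ Big then F ⊔ xV V x else if x = p then H else xV V x

section K

variable {R V : Type} [CommRing R] [AddCommGroup V] [Module R V] (Big : Set (MaximalSpectrum R))
    (p : MaximalSpectrum R) (F H : Submodule R V)

theorem Q1_KB (x : MaximalSpectrum R) (hx : x ∈ Big) : Q1_K Big p F H x = F ⊔ xV V x := by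
  simp [Q1_K, hx]

theorem Q1_Kp (hp : p ∉ Big) : Q1_K Big p F H p = H := by
  simp [Q1_K, hp]

theorem Q1_Ko (x : MaximalSpectrum R) (hx : x ∉ Big) (hxp : x ≠ p) :
    Q1_K Big p F H x = xV V x := by
  simp [Q1_K, hx, hxp]

theorem Q1_adms (hBig : Bigᶜ.Finite) (hp : p ∉ Big) (hF : Sat F) (hH : xV V p ≤ H) :
    Adms (Q1_K Big p F H) := by
  refine ⟨fun x => ?_, F, hF, hBig.subset fun x hx hxB => hx (Q1_KB Big p F H x hxB)⟩
  by_cases hx : x ∈ Big
  · rw [Q1_KB Big p F H x hx]; exact le_sup_right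
  · by_cases hxp : x = p
    · subst hxp
      rw [Q1_Kp Big x F H hx]; exact hH
    · rw [Q1_Ko Big p F H x hx hxp]

theorem Q1_cod (c : ℕ) (hp : p ∉ Big) (hc : ∀ x, (c : ℕ∞) ≤ cod (F ⊔ xV V x))
    (hcH : (c : ℕ∞) ≤ cod H) (x : MaximalSpectrum R) : (c : ℕ∞) ≤ cod (Q1_K Big p F H x) := by
  by_cases hx : x ∈ Big
  · rw [Q1_KB Big p F H x hx]; exact hc x
  · by_cases hxp : x = p
    · subst hxp
      rw [Q1_Kp Big x F H hx]; exact hcH
    · rw [Q1_Ko Big p F H x hx hxp]
      exact (hc x).trans (Q1_cod_le le_sup_right)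

theorem Q1_Av (hp : p ∉ Big) (A : Submodule R V) : Av (Q1_K Big p F H) A ↔
    (∀ x ∈ Big, A ⊓ (F ⊔ xV V x) ≤ xV V x) ∧ A ⊓ H ≤ xV V p := by
  constructor
  · intro h
    refine ⟨fun x hx => ?_, ?_⟩
    · have := h x
      rwa [Q1_KB Big p F H x hx] at this
    · have := h p
      rwa [Q1_Kp Big p F H hp] at this
  · rintro ⟨h1, h2⟩ x
    by_cases hx : x ∈ Big
    · rw [Q1_KB Big p F H x hx]; exact h1 x hx
    · by_cases hxp : x = p
      · subst hxp
        rw [Q1_Kp Big x F H hx]; exact h2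
      · rw [Q1_Ko Big p F H x hx hxp]; exact inf_le_right

end K

theorem thm_Q1 (hPA : St_PA) (hPB : St_PB) (hPD : St_PD) (hP5 : St_P5) (hPF : St_PF)
    (hPX : St_PX) : St_Q1 := by
  intro R V _ _ _ _ _ _ _ Big p F P H N N' c hBig hp hF hP hH hN hN' hc hcH h2 hNt
  set K := Q1_K Big p F H with hK
  have hAdm : Adms K := Q1_adms Big p F H hBig hp hF hH
  have hcod : ∀ x, (c : ℕ∞) ≤ cod (K x) := Q1_cod Big p F H c hp hc hcH
  have hKp : K p = H := Q1_Kp Big p F H hp
  set r := Module.finrank R V - 2 * Module.finrank R F with hr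
  have hDA : ∀ A : Submodule R V, A ∈ DA Big p F H N ↔ (A ≠ ⊥ ∧ Sat A ∧ Av K A ∧
      (¬ A ≤ N ∨ (A ⊓ H ≤ xV V p ∧ Module.finrank R A < r))) := by
    intro A
    rw [hK, Q1_Av Big p F H hp A]
    constructor
    · rintro ⟨h1, h3, h4, h5, h6⟩
      refine ⟨h1, h3, ⟨h4, h5⟩, ?_⟩
      rcases h6 with h6 | h6
      · exact Or.inl h6
      · exact Or.inr ⟨h5, by omega⟩
    · rintro ⟨h1, h3, ⟨h4, h5⟩, h6⟩
      refine ⟨h1, h3, h4, h5, ?_⟩
      rcases h6 with h6 | ⟨_, h6⟩
      · exact Or.inl h6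
      · exact Or.inr (by omega)
  have hDB : ∀ B : Submodule R V, B ∈ DB Big p F P N N' ↔ (B ≠ ⊤ ∧ Sat B ∧
      (∀ x ∈ Big, B ⊔ (F ⊔ xV V x) = ⊤) ∧ B ⊔ N = ⊤ ∧ ¬ P ≤ B ⊔ xV V p) := by
    intro B
    constructor
    · rintro ⟨h1, h3, h4, h5, h6⟩
      refine ⟨h1, h3, h4, h5, ?_⟩
      rcases h6 with h6 | ⟨_, h6⟩
      · exact h6
      · have := Q1_rank_lt hPA p h3 h1
        omega
    · rintro ⟨h1, h3, h4, h5, h6⟩
      exact ⟨h1, h3, h4, h5, Or.inl h6⟩
  refine (hPX R V (DA Big p F H N) (DB Big p F P N N') c (fun A hA => ⟨hA.1, hA.2.1⟩)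
    (fun B hB => ⟨hB.1, hB.2.1⟩)).1 ?_ ?_ ?_
  · have h3 := (hP5 R V K c r hAdm hcod).1 p N H hNt hN
    have h4 : DA Big p F H N = {A : Submodule R V | A ≠ ⊥ ∧ Sat A ∧ Av K A ∧
      (¬ A ≤ N ∨ (A ⊓ H ≤ xV V p ∧ Module.finrank R A < r))} := by
      ext A
      exact hDA A
    rw [h4]
    exact h3
  · intro B hB
    obtain ⟨hB1, hB2, hB3, hB4, hB5⟩ := (hDB B).mp hB
    have hPDB := hPD R V B hB2
    rw [hPDB.2.2.1 _ _ (fun A hA => hA.2)]
    have hset : ((fun A : Submodule R V => A.comap B.subtype) ''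
        {A | A ∈ DA Big p F H N ∧ A ≤ B}) =
        {A' : Submodule R B | A' ≠ ⊥ ∧ Sat A' ∧
          Av (V := B) (fun x => (K x).comap B.subtype) A' ∧
          (¬ A' ≤ N.comap B.subtype ∨ (A' ⊓ H.comap B.subtype ≤ xV B p ∧
            Module.finrank R A' < r))} := by
      have key : ∀ A : Submodule R V, A ≤ B → (A ∈ DA Big p F H N ↔
          (A.comap B.subtype ≠ ⊥ ∧ Sat (A.comap B.subtype) ∧
          Av (V := B) (fun x => (K x).comap B.subtype) (A.comap B.subtype) ∧
          (¬ A.comap B.subtype ≤ N.comap B.subtype ∨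
            (A.comap B.subtype ⊓ H.comap B.subtype ≤ xV B p ∧
            Module.finrank R (A.comap B.subtype) < r)))) := by
        intro A hA
        obtain ⟨k1, k2, k3, k4, k5, k6, k7⟩ := hPDB.1 A hA
        rw [hDA A, k1, k6 K, k7 N, k3]
        constructor
        · rintro ⟨l1, l2, l3, l4⟩
          refine ⟨fun h => l1 (k5.mpr h), l2, l3, ?_⟩
          rcases l4 with l4 | ⟨_, l4⟩
          · exact Or.inl l4
          · right
            refine ⟨?_, l4⟩
            have := l3 p
            simp only [hKp] at this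
            exact this
        · rintro ⟨l1, l2, l3, l4⟩
          refine ⟨fun h => l1 (k5.mp h), l2, l3, ?_⟩
          rcases l4 with l4 | ⟨_, l4⟩
          · exact Or.inl l4
          · right
            refine ⟨?_, l4⟩
            have := (k6 K).mpr l3 p
            rwa [hKp] at this
      ext A'
      constructor
      · rintro ⟨A, ⟨hA1, hA2⟩, rfl⟩
        exact (key A hA2).mp hA1
      · intro hA'
        have h5 : (A'.map B.subtype).comap B.subtype = A' :=
          Submodule.comap_map_eq_of_injective B.injective_subtype A'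
        refine ⟨A'.map B.subtype, ⟨(key _ (Submodule.map_subtype_le B A')).mpr ?_,
          Submodule.map_subtype_le B A'⟩, h5⟩
        rw [h5]
        exact hA'
    rw [hset]
    have hAdm' := (((hPB R V K hAdm).2.1 B hB2).1)
    have hrk := (hPA R V p B hB2).2.1.2.2
    refine (hP5 R B (fun x => (K x).comap B.subtype) _ r hAdm' ?_).1 p (N.comap B.subtype)
      (H.comap B.subtype) ?_ ?_
    · intro x
      have h3 := ((hPA R V x B hB2).2.2.2 (K x) (hAdm.1 x)).1
      have h4 := (hcod x).trans h3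
      have h5 : Module.finrank R (V ⧸ B) = Module.finrank R V - Module.finrank R B := by omega
      rw [h5] at h4
      rw [ENat.natCast_sub]
      exact tsub_le_iff_right.mpr h4
    · intro h
      apply hNt
      have : B ≤ N := by
        intro b hb
        have hb' : (⟨b, hb⟩ : B) ∈ N.comap B.subtype := by rw [h]; trivial
        exact hb'
      rw [← hB4]
      exact (sup_eq_right.mpr this).symm
    · intro b hb
      have h3 := (hPA R V p B hB2).1.2
      have h4 : (b : V) ∈ (xV B p).map B.subtype := ⟨b, hb, rfl⟩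
      rw [h3] at h4
      exact hN h4.2
  · intro B hB
    obtain ⟨hB1, hB2, hB3, hB4, hB5⟩ := (hDB B).mp hB
    have hPDB := hPD R V B hB2
    have hfree : Module.Free R (V ⧸ B) := Q1_free hB2
    have htf : Module.IsTorsionFree R (V ⧸ B) := Q1_tf hB2
    have hrk := (hPA R V p B hB2).2.1.2.2
    rw [hPDB.2.2.2 _ _ (fun A hA => hA.2.le)]
    have hset : ((fun A : Submodule R V => A.map B.mkQ) ''
        {B' | B' ∈ DB Big p F P N N' ∧ B < B'}) =
        {B'' : Submodule R (V ⧸ B) | B'' ≠ ⊥ ∧ B'' ≠ ⊤ ∧ Sat B'' ∧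
          ¬ (P.map B.mkQ ⊔ xV (V ⧸ B) p) ≤ B'' ⊔ xV (V ⧸ B) p} := by
      have key : ∀ B' : Submodule R V, B ≤ B' → ((B' ∈ DB Big p F P N N' ∧ B < B') ↔
          (B'.map B.mkQ ≠ ⊥ ∧ B'.map B.mkQ ≠ ⊤ ∧ Sat (B'.map B.mkQ) ∧
          ¬ (P.map B.mkQ ⊔ xV (V ⧸ B) p) ≤ B'.map B.mkQ ⊔ xV (V ⧸ B) p)) := by
        intro B' hBB'
        obtain ⟨k1, k2, k3, k4, k5, k6, k7, k8⟩ := hPDB.2.1 B' hBB'
        rw [hDB B', k1, k8 P p]
        constructor
        · rintro ⟨⟨l1, l2, l3, l4, l5⟩, l6⟩
          refine ⟨fun h => l6.ne (k4.mpr h).symm, fun h => l1 (k5.mpr h), l2, ?_⟩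
          intro h
          exact l5 (le_sup_left.trans h)
        · rintro ⟨l1, l2, l3, l4⟩
          refine ⟨⟨fun h => l2 (k5.mp h), l3, ?_, ?_, ?_⟩, ?_⟩
          · intro x hx
            rw [eq_top_iff, ← hB3 x hx]
            exact sup_le_sup_right hBB' _
          · rw [eq_top_iff, ← hB4]
            exact sup_le_sup_right hBB' _
          · intro h
            exact l4 (sup_le h le_sup_right)
          · exact lt_of_le_of_ne hBB' fun h => l1 (k4.mp h.symm)
      ext B''
      constructor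
      · rintro ⟨B', hB', rfl⟩
        exact (key B' hB'.2.le).mp hB'
      · intro hB''
        have h5 : (B''.comap B.mkQ).map B.mkQ = B'' :=
          Submodule.map_comap_eq_of_surjective B.mkQ_surjective B''
        refine ⟨B''.comap B.mkQ, (key _ (Submodule.le_comap_mkQ B B'')).mpr ?_, h5⟩
        rw [h5]
        exact hB''
    rw [hset]
    have h6 : Module.finrank R V - Module.finrank R B - 1 =
        Module.finrank R (V ⧸ B) - 1 := by omega
    rw [h6]
    refine (hPF R (V ⧸ B) (fun x => xV (V ⧸ B) x) 0 0 Q1_adms_xV ?_).2.2.1 p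
      (P.map B.mkQ ⊔ xV (V ⧸ B) p) ?_
    · intro x
      have hsatbot : Sat (⊥ : Submodule R (V ⧸ B)) := by
        intro a v ha hv
        rw [Submodule.mem_bot] at hv ⊢
        exact (smul_eq_zero.mp hv).resolve_left ha
      have h7 := (hPA R (V ⧸ B) x ⊥ hsatbot).2.1.2.1
      rw [h7]
      simp
    · refine lt_of_le_of_ne le_sup_right fun h => ?_
      apply hB5
      obtain ⟨k1, k2, k3, k4, k5, k6, k7, k8⟩ := hPDB.2.1 B (le_refl B)
      rw [k8 P p]
      have h8 : P.map B.mkQ ≤ xV (V ⧸ B) p := by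
        rw [h]; exact le_sup_left
      exact h8.trans le_sup_right

end Pool.Agent.SLZ
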