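import Pool.Agent.SLZ.StQ

/-!
# SLZ / Q3: the descending link, case III (module by helper13)
-/

set_option autoImplicit false
set_option linter.unusedVariables false

noncomputable section

namespace Pool.Agent.SLZ

section

variable {R V : Type} [CommRing R] [AddCommGroup V] [Module R V]

theorem Q3_free [IsDomain R] [IsPrincipalIdealRing R] [Module.Finite R V] (A : Submodule R V)
    (hA : Sat A) : Module.Free R (V ⧸ A) := by
  have : Module.IsTorsionFree R (V ⧸ A) := by
    refine ⟨fun r hr x y hxy => ?_⟩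
    obtain ⟨v, rfl⟩ := A.mkQ_surjective x
    obtain ⟨w, rfl⟩ := A.mkQ_surjective y
    have h : A.mkQ (r • (v - w)) = 0 := by
      rw [map_smul, map_sub, smul_sub, sub_eq_zero]
      exact hxy
    rw [Submodule.mkQ_apply, Submodule.Quotient.mk_eq_zero] at h
    have h2 := hA r (v - w) hr.ne_zero h
    rw [← sub_eq_zero, ← map_sub, Submodule.mkQ_apply, Submodule.Quotient.mk_eq_zero]
    exact h2
  exact Module.free_of_finite_type_torsion_free'

theorem Q3_cod_top : cod (⊤ : Submodule R V) = 0 := by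
  unfold cod
  have : Subsingleton (V ⧸ (⊤ : Submodule R V)) := Submodule.Quotient.subsingleton_iff.2 rfl
  exact Module.length_eq_zero

theorem Q3_cod_mono {K K' : Submodule R V} (h : K ≤ K') : cod K' ≤ cod K :=
  Module.length_le_of_surjective (Submodule.factor h) (Submodule.factor_surjective h)

theorem Q3_cod_map (A K : Submodule R V) : cod (K.map A.mkQ) ≤ cod K := by
  refine Module.length_le_of_surjective
    (Submodule.mapQ K (K.map A.mkQ) A.mkQ (Submodule.le_comap_map _ _)) ?_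
  intro y
  obtain ⟨y, rfl⟩ := Submodule.mkQ_surjective _ y
  obtain ⟨v, rfl⟩ := A.mkQ_surjective y
  exact ⟨K.mkQ v, rfl⟩

theorem Q3_map_xV (A : Submodule R V) (x : MaximalSpectrum R) :
    (xV V x).map A.mkQ = xV (V ⧸ A) x := by
  unfold xV
  rw [Submodule.map_smul'', Submodule.map_top, Submodule.range_mkQ]

open Classical in
/-- the conditions on the down moves -/
def Q3_L (Big : Set (MaximalSpectrum R)) (p : MaximalSpectrum R) (F N : Submodule R V)
    (x : MaximalSpectrum R) : Submodule R V :=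
  if x ∈ Big then F ⊔ xV V x else if x = p then N else ⊤

theorem Q3_L_iff {Big : Set (MaximalSpectrum R)} {p : MaximalSpectrum R} (hp : p ∉ Big)
    (F N B : Submodule R V) : (∀ x, B ⊔ Q3_L Big p F N x = ⊤) ↔
      (∀ x ∈ Big, B ⊔ (F ⊔ xV V x) = ⊤) ∧ B ⊔ N = ⊤ := by
  constructor
  · intro h
    refine ⟨fun x hx => ?_, ?_⟩
    · have := h x
      rwa [Q3_L, if_pos hx] at this
    · have := h p
      rwa [Q3_L, if_neg hp, if_pos rfl] at this
  · rintro ⟨h1, h2⟩ x
    unfold Q3_L
    split_ifs with h3 h4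
    · exact h1 x h3
    · exact h2
    · exact sup_top_eq B

theorem Q3_L_ge {Big : Set (MaximalSpectrum R)} {p : MaximalSpectrum R} {F N : Submodule R V}
    (hN : xV V p ≤ N) (x : MaximalSpectrum R) : xV V x ≤ Q3_L Big p F N x := by
  unfold Q3_L
  split_ifs with h3 h4
  · exact le_sup_right
  · rw [h4]; exact hN
  · exact le_top

theorem Q3_L_adms {Big : Set (MaximalSpectrum R)} {p : MaximalSpectrum R} {F N : Submodule R V}
    (hBig : Bigᶜ.Finite) (hF : Sat F) (hN : xV V p ≤ N) : Adms (Q3_L Big p F N) := by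
  refine ⟨Q3_L_ge hN, F, hF, hBig.subset fun x hx => ?_⟩
  intro h
  apply hx
  rw [Q3_L, if_pos h]

end

theorem thm_Q3 (hA : St_PA) (hB : St_PB) (hD : St_PD) (h4 : St_P4) (hPF : St_PF) (hX : St_PX) :
    St_Q3 := by
  classical
  intro R V _ _ _ _ _ _ _ Big p F P H N N' c hBig hp hF hP hPH hN hN' hd hc hcN
  have hFn : Module.finrank R F ≤ Module.finrank R V := Submodule.finrank_le F
  set n := Module.finrank R V with hn
  set d := Module.finrank R F with hdd
  have hDA : ∀ A ∈ DA Big p F H N, ¬ A ≤ N := by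
    rintro A ⟨-, -, -, -, h | h⟩
    · exact h
    · omega
  have hcodL : ∀ x, (c : ℕ∞) + cod (Q3_L Big p F N x) ≤ n := by
    intro x
    unfold Q3_L
    split_ifs with h5 h6
    · have h7 := ((hA R V x F hF).2.2.1 (xV V x) le_rfl inf_le_right).1
      rw [(hA R V x F hF).2.1.2.1] at h7
      rw [← hn] at h7
      calc (c : ℕ∞) + cod (F ⊔ xV V x) ≤ (d : ℕ∞) + cod (F ⊔ xV V x) := by
            gcongr
        _ = n := by rw [add_comm]; exact h7
    · exact hcN
    · rw [Q3_cod_top, add_zero]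
      exact_mod_cast hc.trans hFn
  refine (hX R V (DA Big p F H N) (DB Big p F P N N') c (fun A h => ⟨h.1, h.2.1⟩)
    (fun B h => ⟨h.1, h.2.1⟩)).2 ?_ ?_ ?_
  · -- the down moves
    have h := (hPF R V (Q3_L Big p F N) c (2 * d - n + 1) (Q3_L_adms hBig hF hN) hcodL).1
      p P N' hP hN'
    have heq : DB Big p F P N N' = {B : Submodule R V | B ≠ ⊤ ∧ Sat B ∧
        (∀ x, B ⊔ Q3_L Big p F N x = ⊤) ∧ (¬ P ≤ B ⊔ xV V p ∨
          (B ⊔ N' = ⊤ ∧ Module.finrank R V < Module.finrank R B + (2 * d - n + 1)))} := by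
      ext B
      have e1 : 2 * Module.finrank R V ≤ 2 * Module.finrank R F + Module.finrank R B ↔
          Module.finrank R V < Module.finrank R B + (2 * d - n + 1) := by
        rw [← hn, ← hdd]; omega
      constructor
      · rintro ⟨b1, b2, b3, b4, b5⟩
        exact ⟨b1, b2, (Q3_L_iff hp F N B).2 ⟨b3, b4⟩, b5.imp_right fun b => ⟨b.1, e1.1 b.2⟩⟩
      · rintro ⟨b1, b2, b3, b5⟩
        have b6 := (Q3_L_iff hp F N B).1 b3
        exact ⟨b1, b2, b6.1, b6.2, b5.imp_right fun b => ⟨b.1, e1.2 b.2⟩⟩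
    rw [heq]
    exact h
  · -- the down moves above `A`
    intro A hAA
    have hsat : Sat A := hAA.2.1
    have hfree : Module.Free R (V ⧸ A) := Q3_free A hsat
    obtain ⟨-, hD2, -, hD4⟩ := hD R V A hsat
    have hrk : Module.finrank R A + Module.finrank R (V ⧸ A) = n := (hA R V p A hsat).2.1.2.2
    rw [hD4 _ _ (fun B hB => hB.2)]
    have hP' : xV (V ⧸ A) p < P.map A.mkQ := by
      rw [← Q3_map_xV]
      refine lt_of_le_of_ne (Submodule.map_mono hP.le) fun heq => ?_
      refine hP.not_ge fun v hv => ?_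
      have h5 : A.mkQ v ∈ (xV V p).map A.mkQ := by
        rw [heq]; exact Submodule.mem_map_of_mem hv
      obtain ⟨z, hz, hzv⟩ := h5
      have h6 : v - z ∈ A := by
        rw [← Submodule.Quotient.mk_eq_zero, ← Submodule.mkQ_apply, map_sub, hzv, sub_self]
      have h7 : v - z ∈ H := hPH (P.sub_mem hv (hP.le hz))
      have h8 : v - z ∈ xV V p := hAA.2.2.2.1 ⟨h6, h7⟩
      have h9 := (xV V p).add_mem h8 hz
      rwa [sub_add_cancel] at h9
    have hN'' : xV (V ⧸ A) p ≤ N'.map A.mkQ := by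
      rw [← Q3_map_xV]
      exact Submodule.map_mono hN'
    have hadm : Adms (V := V ⧸ A) (fun x => (Q3_L Big p F N x).map A.mkQ) :=
      ((hB R V _ (Q3_L_adms hBig hF hN)).2.1 A hsat).2
    have hcod : ∀ x, ((c - Module.finrank R A : ℕ) : ℕ∞) + cod ((Q3_L Big p F N x).map A.mkQ) ≤
        Module.finrank R (V ⧸ A) := by
      intro x
      rcases le_or_gt c (Module.finrank R A) with h5 | h5
      · rw [Nat.sub_eq_zero_of_le h5, Nat.cast_zero, zero_add]
        have h6 : xV (V ⧸ A) x ≤ (Q3_L Big p F N x).map A.mkQ := by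
          rw [← Q3_map_xV]
          exact Submodule.map_mono (Q3_L_ge hN x)
        refine (Q3_cod_mono h6).trans (le_of_eq ?_)
        exact (hA R (V ⧸ A) x ⊤ (fun _ _ _ _ => trivial)).2.1.2.1
      · have h6 := hcodL x
        have h7 : (c : ℕ∞) = ((c - Module.finrank R A : ℕ) : ℕ∞) + (Module.finrank R A : ℕ) := by
          exact_mod_cast (Nat.sub_add_cancel h5.le).symm
        have h8 : (n : ℕ∞) = (Module.finrank R (V ⧸ A) : ℕ) + (Module.finrank R A : ℕ) := by
          rw [← hrk, add_comm]; push_cast; rfl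
        rw [h7, h8, add_right_comm] at h6
        have h9 := (ENat.add_le_add_iff_right (ENat.natCast_ne_top _)).1 h6
        exact (add_le_add_right (Q3_cod_map A _) _).trans h9
    have h := (hPF R (V ⧸ A) _ (c - Module.finrank R A) (2 * d - n + 1) hadm hcod).1
      p (P.map A.mkQ) (N'.map A.mkQ) hP' hN''
    have heq : (fun B : Submodule R V => B.map A.mkQ) '' {B | B ∈ DB Big p F P N N' ∧ A ≤ B} =
        {B : Submodule R (V ⧸ A) | B ≠ ⊤ ∧ Sat B ∧
          (∀ x, B ⊔ (Q3_L Big p F N x).map A.mkQ = ⊤) ∧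
          (¬ P.map A.mkQ ≤ B ⊔ xV (V ⧸ A) p ∨ (B ⊔ N'.map A.mkQ = ⊤ ∧
            Module.finrank R (V ⧸ A) < Module.finrank R B + (2 * d - n + 1)))} := by
      have key : ∀ B : Submodule R V, A ≤ B → (B ∈ DB Big p F P N N' ↔
          B.map A.mkQ ∈ {B : Submodule R (V ⧸ A) | B ≠ ⊤ ∧ Sat B ∧
          (∀ x, B ⊔ (Q3_L Big p F N x).map A.mkQ = ⊤) ∧
          (¬ P.map A.mkQ ≤ B ⊔ xV (V ⧸ A) p ∨ (B ⊔ N'.map A.mkQ = ⊤ ∧
            Module.finrank R (V ⧸ A) < Module.finrank R B + (2 * d - n + 1)))}) := by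
        intro B hAB
        obtain ⟨d1, -, d3, -, d5, -, d7, d8⟩ := hD2 B hAB
        have e1 : 2 * Module.finrank R V ≤ 2 * Module.finrank R F + Module.finrank R B ↔
            Module.finrank R (V ⧸ A) <
              Module.finrank R (B.map A.mkQ) + (2 * d - n + 1) := by
          rw [← hn, ← hdd]; omega
        have e2 : ((∀ x ∈ Big, B ⊔ (F ⊔ xV V x) = ⊤) ∧ B ⊔ N = ⊤) ↔
            ∀ x, B.map A.mkQ ⊔ (Q3_L Big p F N x).map A.mkQ = ⊤ := by
          rw [← Q3_L_iff hp F N B]
          exact forall_congr' fun x => d7 _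
        constructor
        · rintro ⟨b1, b2, b3, b4, b5⟩
          refine ⟨fun h => b1 (d5.2 h), d1.1 b2, e2.1 ⟨b3, b4⟩, ?_⟩
          rcases b5 with b5 | b5
          · exact Or.inl fun h => b5 ((d8 P p).2 h)
          · exact Or.inr ⟨(d7 N').1 b5.1, e1.1 b5.2⟩
        · rintro ⟨b1, b2, b3, b5⟩
          obtain ⟨b3, b4⟩ := e2.2 b3
          refine ⟨fun h => b1 (d5.1 h), d1.2 b2, b3, b4, ?_⟩
          rcases b5 with b5 | b5
          · exact Or.inl fun h => b5 ((d8 P p).1 h)
          · exact Or.inr ⟨(d7 N').2 b5.1, e1.2 b5.2⟩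
      ext B'
      constructor
      · rintro ⟨B, ⟨hB1, hB2⟩, rfl⟩
        exact (key B hB2).1 hB1
      · intro hB'
        have h5 : A ≤ B'.comap A.mkQ := by
          intro a ha
          rw [Submodule.mem_comap, Submodule.mkQ_apply, (Submodule.Quotient.mk_eq_zero A).2 ha]
          exact B'.zero_mem
        have h6 : (B'.comap A.mkQ).map A.mkQ = B' :=
          Submodule.map_comap_eq_of_surjective A.mkQ_surjective B'
        refine ⟨B'.comap A.mkQ, ⟨(key _ h5).2 ?_, h5⟩, h6⟩
        rw [h6]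
        exact hB'
    rw [heq]
    exact h
  · -- the up moves below `A`
    intro A hAA
    have hsat : Sat A := hAA.2.1
    obtain ⟨hD1, -, hD3, -⟩ := hD R V A hsat
    rw [hD3 _ _ (fun B hB => hB.2.le)]
    have hOk : OkN (N.comap A.subtype) := by
      refine Or.inr ⟨fun h => hDA A hAA ?_, p, ?_⟩
      · intro a ha
        have : (⟨a, ha⟩ : A) ∈ N.comap A.subtype := by rw [h]; trivial
        exact this
      · intro a ha
        have h5 : A.subtype a ∈ (xV A p).map A.subtype := Submodule.mem_map_of_mem ha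
        rw [(hA R V p A hsat).1.2] at h5
        exact hN h5.2
    have h := h4 R A (N.comap A.subtype) hOk
    have heq : (fun B : Submodule R V => B.comap A.subtype) '' {B | B ∈ DA Big p F H N ∧ B < A} =
        {B : Submodule R A | B ≠ ⊥ ∧ B ≠ ⊤ ∧ Sat B ∧ ¬ B ≤ N.comap A.subtype} := by
      ext B'
      constructor
      · rintro ⟨B, ⟨hB1, hB2⟩, rfl⟩
        obtain ⟨d1, -, -, d4, d5, -, d7⟩ := hD1 B hB2.le
        refine ⟨fun h => hB1.1 (d5.2 h), fun h => hB2.ne (d4.2 h), d1.1 hB1.2.1, fun h => ?_⟩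
        exact hDA B hB1 ((d7 N).2 h)
      · rintro ⟨b1, b2, b3, b4⟩
        have h5 : B'.map A.subtype ≤ A := by
          rintro _ ⟨b, -, rfl⟩
          exact b.2
        have h6 : (B'.map A.subtype).comap A.subtype = B' :=
          Submodule.comap_map_eq_of_injective A.injective_subtype B'
        obtain ⟨d1, -, -, d4, d5, -, d7⟩ := hD1 _ h5
        rw [h6] at d1 d4 d5 d7
        refine ⟨B'.map A.subtype, ⟨⟨fun h => b1 (d5.1 h), d1.2 b3, fun x hx => ?_, ?_,
          Or.inl fun h => b4 ((d7 N).1 h)⟩, lt_of_le_of_ne h5 fun h => b2 (d4.1 h)⟩, h6⟩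
        · exact (inf_le_inf_right _ h5).trans (hAA.2.2.1 x hx)
        · exact (inf_le_inf_right _ h5).trans hAA.2.2.2.1
    rw [heq]
    exact h

end Pool.Agent.SLZ
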