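import Pool.Agent.SLZ.StR2

/-!
# SLZ, RH0: families of bundles with the prism condition (helper59)
-/

set_option autoImplicit false
set_option linter.unusedVariables false

noncomputable section

namespace Pool.Agent.SLZ

open Polynomial Function

theorem thm_RH0 (hA4 : St_RA4) (hA5 : St_RA5) (hB3 : St_RB3) : St_RH0 := by
  classical
  intro A _ _ V₀ _ _ _ _ V _ _ _ _ _ _ Y hY M f hf h0 hM hLR hLR'
  have hadm : ∀ l ≤ M, Adm Y (f l) := fun l hl => ⟨fun y hy => hf l hl y hy, hLR l hl⟩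
  have hty : ∀ l ≤ M, Hty Y (f 0) (f l) := by
    intro l
    induction l with
    | zero => exact fun _ => (hA4 A V₀ V V Y).1 _
    | succ l ih =>
      intro hl
      exact (hA4 A V₀ V V Y).2.2.1 _ _ _ (ih (by omega))
        ((hA5 A V₀ V Y _ _ (hadm l (by omega)) (hadm (l + 1) hl)).2 (hLR' l (by omega)))
  refine ⟨Fin 0 → A[X], inferInstance, inferInstance, inferInstance, inferInstance,
    OW A (fun _ : Fin 0 => (0 : ℤ)), ?_, ?_⟩
  · exact ((hB3 A (Fin 0 → A[X]) V).2.2 (Fin 0) (Pi.basisFun A[X] (Fin 0)) _ (fun _ => 0)).1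
  · refine (hA4 A V₀ V (Fin 0 → A[X]) Y).2.2.2.1 _ _ (fun _ => OW A (fun _ : Fin 0 => (0 : ℤ))) ?_
      (hty M le_rfl)
    exact (hA4 A V₀ (Fin 0 → A[X]) V Y).2.2.2.2.2.2.2.2 _
      ((hB3 A (Fin 0 → A[X]) V).2.2 (Fin 0) (Pi.basisFun A[X] (Fin 0)) _ (fun _ => 0)).1

end Pool.Agent.SLZ
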