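import Pool.Agent.SLZ.StS
import Pool.Agent.SLZ.MA

/-!
# SLZ, S0: connectivity (helper53)
-/

set_option autoImplicit false
set_option linter.unusedVariables false

noncomputable section

namespace Pool.Agent.SLZ

section

variable {V W : Type}

theorem S0_Ch_le (S : Set (List V)) (j : ℕ) (P : Submodule ℤ (List V →₀ ℤ))
    (h : ∀ l ∈ S, l.length = j → Finsupp.single l 1 ∈ P) : Ch S j ≤ P := by
  unfold Ch
  rw [Finsupp.supported_eq_span_single, Submodule.span_le]
  rintro _ ⟨l, ⟨h1, h2⟩, rfl⟩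
  exact h l h1 h2

theorem S0_single_mem {S : Set (List V)} {j : ℕ} {l : List V} (h1 : l ∈ S)
    (h2 : l.length = j) : Finsupp.single l (1 : ℤ) ∈ Ch S j :=
  Finsupp.single_mem_supported ℤ 1 ⟨h1, h2⟩

theorem S0_push_single (f : V → W) (l : List V) :
    push f (Finsupp.single l 1) = Finsupp.single (l.map f) 1 := by
  unfold push
  rw [Finsupp.lmapDomain_apply, Finsupp.mapDomain_single]

theorem S0_push_bd (f : V → W) (z : List V →₀ ℤ) : push f (bd z) = bd (push f z) := by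
  unfold push
  rw [Finsupp.lmapDomain_apply, Finsupp.lmapDomain_apply]
  exact ((thm_MA V).2.2.2.1 W f z).symm

theorem S0_push_Ch {K : Cx V} {K' : Cx W} (f : V → W) (hf : ∀ l ∈ K.s, l.map f ∈ K'.s) (j : ℕ)
    {z : List V →₀ ℤ} (hz : z ∈ Ch K.s j) : push f z ∈ Ch K'.s j := by
  have h : Ch K.s j ≤ (Ch K'.s j).comap (push f) := by
    apply S0_Ch_le
    intro l h1 h2
    rw [Submodule.mem_comap, S0_push_single]
    exact S0_single_mem (hf l h1) (by rw [List.length_map]; exact h2)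
  exact h hz

theorem S0_push_Cyc {K : Cx V} {K' : Cx W} (f : V → W) (hf : ∀ l ∈ K.s, l.map f ∈ K'.s) (j : ℕ)
    {z : List V →₀ ℤ} (hz : z ∈ Cyc K j) : push f z ∈ Cyc K' j := by
  refine ⟨S0_push_Ch f hf j hz.1, ?_⟩
  change bd (push f z) = 0
  rw [← S0_push_bd, LinearMap.mem_ker.1 hz.2, map_zero]

theorem S0_push_Bdr {K : Cx V} {K' : Cx W} (f : V → W) (hf : ∀ l ∈ K.s, l.map f ∈ K'.s) (j : ℕ)
    {z : List V →₀ ℤ} (hz : z ∈ Bdr K j) : push f z ∈ Bdr K' j := by
  obtain ⟨y, hy, rfl⟩ := hz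
  exact ⟨push f y, S0_push_Ch f hf _ hy, (S0_push_bd f y).symm⟩

theorem S0_bd_single (l : List V) : bd (Finsupp.single l 1) = bdL l := by
  unfold bd
  rw [Finsupp.lift_apply, Finsupp.sum_single_index (by simp), one_smul]

theorem S0_bd1 (x : V) : bd (Finsupp.single [x] 1) = Finsupp.single [] 1 := by
  rw [S0_bd_single]
  simp [bdL]

theorem S0_bd2 (x y : V) :
    bd (Finsupp.single [x, y] 1) = Finsupp.single [y] 1 - Finsupp.single [x] 1 := by
  rw [S0_bd_single]
  simp [bdL, consC]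

/-- the augmentation of a chain of length one -/
def S0_eps : (List V →₀ ℤ) →ₗ[ℤ] ℤ := Finsupp.lapply [] ∘ₗ bd

theorem S0_eps_single (x : V) : S0_eps (Finsupp.single [x] 1) = 1 := by
  unfold S0_eps
  rw [LinearMap.comp_apply, S0_bd1]
  simp

theorem S0_eps_cyc {K : Cx V} {j : ℕ} {z : List V →₀ ℤ} (hz : z ∈ Cyc K j) : S0_eps z = 0 := by
  unfold S0_eps
  rw [LinearMap.comp_apply, LinearMap.mem_ker.1 hz.2, map_zero]

theorem S0_Ch1_le (K : Cx V) (P : Submodule ℤ (List V →₀ ℤ))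
    (h : ∀ x, [x] ∈ K.s → Finsupp.single [x] 1 ∈ P) : Ch K.s 1 ≤ P := by
  apply S0_Ch_le
  intro l hl hlen
  obtain ⟨x, rfl⟩ := List.length_eq_one_iff.1 hlen
  exact h x hl

theorem S0_Ch2_le (K : Cx V) (P : Submodule ℤ (List V →₀ ℤ))
    (h : ∀ x y, [x, y] ∈ K.s → Finsupp.single [x, y] 1 ∈ P) : Ch K.s 2 ≤ P := by
  apply S0_Ch_le
  intro l hl hlen
  obtain ⟨x, y, rfl⟩ := List.length_eq_two.1 hlen
  exact h x y hl

theorem S0_dup {K : Cx V} {x : V} (h : [x] ∈ K.s) : [x, x] ∈ K.s := by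
  refine K.mono [x] [x, x] ?_ h
  intro y hy
  simpa using hy

theorem S0_fst {K : Cx V} {x y : V} (h : [x, y] ∈ K.s) : [x] ∈ K.s := by
  refine K.mono [x, y] [x] ?_ h
  intro z hz
  simp only [List.mem_singleton] at hz
  simp [hz]

/-- linear extension of a function of the vertices to the lists of length one -/
def S0_ext {Q : Type} [AddCommGroup Q] (q : V → Q) : (List V →₀ ℤ) →ₗ[ℤ] Q :=
  Finsupp.lift Q ℤ (List V) fun l => match l with
    | [x] => q x
    | _ => 0

theorem S0_ext_single {Q : Type} [AddCommGroup Q] (q : V → Q) (x : V) :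
    S0_ext q (Finsupp.single [x] 1) = q x := by
  unfold S0_ext
  rw [Finsupp.lift_apply, Finsupp.sum_single_index (by simp), one_smul]

end

section

variable {R : Type} [CommRing R] (L : LSys R)

theorem S0_SS_self (n : ℕ) (x : L.V n) : L.SS (le_refl n) x = x := by
  unfold LSys.SS
  exact Nat.leRecOn_self x

theorem S0_SS_succ {n N : ℕ} (h : n ≤ N) (h' : n ≤ N + 1) (x : L.V n) :
    L.SS h' x = L.s N (L.SS h x) := by
  unfold LSys.SS
  exact Nat.leRecOn_succ h x

theorem S0_SS_K {n N : ℕ} (h : n ≤ N) (l : List (L.V n)) (hl : l ∈ (L.K n).s) :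
    l.map (L.SS h) ∈ (L.K N).s := by
  induction N, h using Nat.le_induction with
  | base =>
    have : L.SS (le_refl n) = id := funext fun x => S0_SS_self L n x
    rw [this, List.map_id]
    exact hl
  | succ N h ih =>
    have : L.SS (Nat.le_succ_of_le h) = L.s N ∘ L.SS h := funext fun x => S0_SS_succ L h _ x
    rw [this, ← List.map_map]
    exact L.s_K N _ ih

/-- the class of a stabilized cycle -/
theorem S0_cl (hA : St_UA3) (j : ℕ) (S : Sys R) (cl : ∀ n, Cyc (L.K n) j →+ S.M n)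
    (hH : L.IsH j S cl) {n N : ℕ} (h : n ≤ N) (z : Cyc (L.K n) j) :
    ∀ z' : Cyc (L.K N) j, z'.1 = push (L.SS h) z.1 → cl N z' = S.ST h (cl n z) := by
  obtain ⟨a1, a2, -⟩ := hA R S
  induction N, h using Nat.le_induction with
  | base =>
    intro z' hz'
    have : L.SS (le_refl n) = id := funext fun x => S0_SS_self L n x
    rw [a1]
    congr 1
    apply Subtype.ext
    rw [hz', this]
    unfold push
    rw [List.map_id_fun, Finsupp.lmapDomain_id]
    rfl
  | succ N h ih =>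
    intro z' hz'
    have hs : L.SS (Nat.le_succ_of_le h) = L.s N ∘ L.SS h := funext fun x => S0_SS_succ L h _ x
    have hp : push (L.SS h) z.1 ∈ Cyc (L.K N) j := S0_push_Cyc _ (S0_SS_K L h) j z.2
    rw [a2 n N h, ← ih ⟨_, hp⟩ rfl]
    symm
    refine hH.st N ⟨_, hp⟩ z' ?_
    rw [hz', hs]
    unfold push
    rw [← LinearMap.comp_apply, ← Finsupp.lmapDomain_comp, List.map_comp_map]

end

theorem thm_S0 (hM : St_SM) (h3 : St_SH3) (hX : St_UX) (hA : St_UA3) : St_S0 := by
  intro R _ L N0 T v ha hb hc hd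
  classical
  obtain ⟨S, cl, hH⟩ := hM R L 1
  have H3 : S.H3 (N0 + 1) := h3 R L 1 N0 S cl hH ha hb
  have H4 : S.H4 := by
    intro n c
    obtain ⟨z, rfl⟩ := hH.surj n c
    obtain ⟨N, h, hN⟩ := hc n z.1 z.2
    refine ⟨N, h, ?_⟩
    have hp : push (L.SS h) z.1 ∈ Cyc (L.K N) 1 := S0_push_Cyc _ (S0_SS_K L h) 1 z.2
    rw [← S0_cl L hA 1 S cl hH h z ⟨_, hp⟩ rfl, hH.ker]
    exact hN
  refine ⟨N0 + 2, ?_⟩
  intro N hN
  obtain ⟨d1, d2, d3, d4⟩ := hd N (by omega)
  have hX' := hX R S (N0 + 1) H3 H4 N (by omega)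
  have hKs : ∀ (g : GLn R N) (l : List (L.V N)), l ∈ (L.K N).s →
      l.map (fun x => g • x) ∈ (L.K N).s := L.K_smul N
  -- vertices
  have hvert : ∀ x, [x] ∈ (L.K N).s → ∃ (g : GLn R N) (t : T), x = g • v N t := by
    intro x hx
    obtain ⟨g, t, -, h1, -⟩ := d2 x x (S0_dup hx)
    exact ⟨g, t, h1⟩
  intro z0 hz0 hbz0
  by_cases hT : Nonempty T
  swap
  · have h1 : Ch (L.K N).s 1 ≤ ⊥ := by
      apply S0_Ch1_le
      intro x hx
      obtain ⟨g, t, -⟩ := hvert x hx
      exact absurd ⟨t⟩ hT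
    have h2 : z0 = 0 := (Submodule.mem_bot ℤ).1 (h1 hz0)
    exact ⟨0, Submodule.zero_mem _, by rw [map_zero, h2]⟩
  obtain ⟨t0⟩ := hT
  -- the subgroup
  obtain ⟨H, hHdef⟩ : ∃ H : Subgroup (GLn R N), H =
      Subgroup.closure {k : GLn R N | ∃ t, k • v N t = v N t} := ⟨_, rfl⟩
  rw [← hHdef] at d4
  have hn : H.Normal := by
    refine ⟨fun h hh g => ?_⟩
    have h1 := H.mul_mem (d4 g h) hh
    rwa [inv_mul_cancel_right] at h1
  letI : CommGroup (GLn R N ⧸ H) :=
    { (inferInstance : Group (GLn R N ⧸ H)) with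
      mul_comm := by
        intro a b
        induction a using QuotientGroup.induction_on with
        | H a =>
          induction b using QuotientGroup.induction_on with
          | H b =>
            rw [← QuotientGroup.mk_mul, ← QuotientGroup.mk_mul, QuotientGroup.eq]
            have h1 := d4 b⁻¹ a⁻¹
            rw [inv_inv, inv_inv] at h1
            rw [mul_inv_rev, ← mul_assoc]
            exact h1 }
  obtain ⟨κ, hκ⟩ : ∃ κ : GLn R N → Additive (GLn R N ⧸ H),
      ∀ g, κ g = Additive.ofMul (QuotientGroup.mk g : GLn R N ⧸ H) := ⟨_, fun _ => rfl⟩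
  have hκmul : ∀ g h, κ (g * h) = κ g + κ h := by
    intro g h
    rw [hκ, hκ, hκ, QuotientGroup.mk_mul, ofMul_mul]
  have hκ1 : κ 1 = 0 := by
    rw [hκ, QuotientGroup.mk_one, ofMul_one]
  have hκH : ∀ g, κ g = 0 ↔ g ∈ H := by
    intro g
    rw [hκ]
    have : (Additive.ofMul (QuotientGroup.mk g : GLn R N ⧸ H) = 0) ↔
      (QuotientGroup.mk g : GLn R N ⧸ H) = 1 := Iff.rfl
    rw [this, QuotientGroup.eq_one_iff]
  obtain ⟨q, hq⟩ : ∃ q : L.V N → Additive (GLn R N ⧸ H), ∀ (g : GLn R N) (t : T),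
      q (g • v N t) = κ g := by
    refine ⟨fun x => if hx : ∃ p : GLn R N × T, x = p.1 • v N p.2 then κ hx.choose.1 else 0, ?_⟩
    intro g t
    have hx : ∃ p : GLn R N × T, g • v N t = p.1 • v N p.2 := ⟨(g, t), rfl⟩
    simp only
    rw [dif_pos hx]
    have h1 := hx.choose_spec
    obtain ⟨g', hg'⟩ : ∃ g', g' = hx.choose.1 := ⟨_, rfl⟩
    obtain ⟨t', ht'⟩ : ∃ t', t' = hx.choose.2 := ⟨_, rfl⟩
    rw [← hg', ← ht'] at h1
    rw [← hg']
    have h2 : (g'⁻¹ * g) • v N t = v N t' := by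
      rw [mul_smul, h1, inv_smul_smul]
    have h4 := d3 _ _ _ h2
    subst h4
    have h5 : g'⁻¹ * g ∈ H := by
      rw [hHdef]
      exact Subgroup.subset_closure ⟨t, h2⟩
    have h6 : κ g = κ g' + κ (g'⁻¹ * g) := by
      rw [← hκmul, mul_inv_cancel_left]
    rw [h6, (hκH _).2 h5, add_zero]
  obtain ⟨Φ, hΦ⟩ : ∃ Φ : (List (L.V N) →₀ ℤ) →ₗ[ℤ] Additive (GLn R N ⧸ H), Φ = S0_ext q :=
    ⟨_, rfl⟩
  have hΦ1 : ∀ x, Φ (Finsupp.single [x] 1) = q x := by
    intro x
    rw [hΦ, S0_ext_single]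
  have hΦB : ∀ z ∈ Bdr (L.K N) 1, Φ z = 0 := by
    rintro _ ⟨y, hy, rfl⟩
    have h1 : Ch (L.K N).s 2 ≤ LinearMap.ker (Φ ∘ₗ bd) := by
      apply S0_Ch2_le
      intro x y hxy
      obtain ⟨g, t, t', rfl, rfl⟩ := d2 x y hxy
      rw [LinearMap.mem_ker, LinearMap.comp_apply, S0_bd2, map_sub, hΦ1, hΦ1, hq, hq, sub_self]
    exact LinearMap.mem_ker.1 (h1 hy)
  have hΦg : ∀ (g : GLn R N), ∀ z ∈ Ch (L.K N).s 1,
      Φ (push (fun x => g • x) z) = Φ z + S0_eps z • κ g := by
    intro g z hz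
    have h1 : Ch (L.K N).s 1 ≤ LinearMap.eqLocus (Φ ∘ₗ push (fun x => g • x))
        (Φ + (LinearMap.toSpanSingleton ℤ _ (κ g)) ∘ₗ S0_eps) := by
      apply S0_Ch1_le
      intro x hx
      obtain ⟨g', t, rfl⟩ := hvert x hx
      rw [LinearMap.mem_eqLocus, LinearMap.comp_apply, LinearMap.add_apply,
        LinearMap.comp_apply, S0_push_single, S0_eps_single, hΦ1]
      simp only [List.map_cons, List.map_nil, LinearMap.toSpanSingleton_apply, one_smul]
      rw [hΦ1, ← mul_smul, hq, hq, hκmul, add_comm]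
    have h2 := h1 hz
    rw [LinearMap.mem_eqLocus, LinearMap.comp_apply, LinearMap.add_apply,
      LinearMap.comp_apply, LinearMap.toSpanSingleton_apply] at h2
    exact h2
  -- all cycles have the value zero
  have hΦ0 : ∀ z : Cyc (L.K N) 1, Φ z.1 = 0 := by
    have key : ∀ c : S.M N, ∀ z : Cyc (L.K N) 1, cl N z = c → Φ z.1 = 0 := by
      intro c
      have hc' : c ∈ AddSubgroup.closure {x : S.M N | ∃ (g : GLn R N) (c : S.M N),
          x = g • c - c} := by
        rw [hX']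
        trivial
      induction hc' using AddSubgroup.closure_induction with
      | mem x hx =>
        obtain ⟨g, c, rfl⟩ := hx
        intro z hz
        obtain ⟨y, rfl⟩ := hH.surj N c
        have hp : push (fun x => g • x) y.1 ∈ Cyc (L.K N) 1 := S0_push_Cyc _ (hKs g) 1 y.2
        rw [hH.smul N g y ⟨_, hp⟩ rfl] at hz
        have h1 : cl N (z - (⟨_, hp⟩ - y)) = 0 := by
          rw [map_sub, map_sub, hz, sub_self]
        rw [hH.ker] at h1
        have h2 := hΦB _ h1
        have h4 : (z - ((⟨_, hp⟩ : Cyc (L.K N) 1) - y)).1 =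
          z.1 - (push (fun x => g • x) y.1 - y.1) := rfl
        rw [h4, map_sub, map_sub, hΦg g y.1 y.2.1, S0_eps_cyc y.2, zero_smul, add_zero,
          sub_self, sub_zero] at h2
        exact h2
      | zero =>
        intro z hz
        exact hΦB _ ((hH.ker N z).1 hz)
      | add x y _ _ hx hy =>
        intro z hz
        obtain ⟨zx, hzx⟩ := hH.surj N x
        obtain ⟨zy, hzy⟩ := hH.surj N y
        have h1 : cl N (z - (zx + zy)) = 0 := by
          rw [map_sub, map_add, hz, hzx, hzy, sub_self]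
        rw [hH.ker] at h1
        have h2 := hΦB _ h1
        have h4 : (z - (zx + zy)).1 = z.1 - (zx.1 + zy.1) := rfl
        rw [h4, map_sub, map_add, hx zx hzx, hy zy hzy, add_zero, sub_zero] at h2
        exact h2
      | neg x _ hx =>
        intro z hz
        have h1 := hx (-z) (by rw [map_neg, hz, neg_neg])
        have h2 : (-z).1 = -z.1 := rfl
        rw [h2, map_neg, neg_eq_zero] at h1
        exact h1
    exact fun z => key _ z rfl
  have hv1 : ∀ t, [v N t] ∈ (L.K N).s := fun t => S0_fst (d1 t t)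
  have hg1 : ∀ (g : GLn R N) t, [g • v N t] ∈ (L.K N).s := fun g t => by
    have := hKs g _ (hv1 t)
    simpa using this
  have htop : ∀ g : GLn R N, g ∈ H := by
    intro g
    have hz : (Finsupp.single [g • v N t0] 1 - Finsupp.single [v N t0] 1 : List (L.V N) →₀ ℤ) ∈
        Cyc (L.K N) 1 := by
      refine ⟨Submodule.sub_mem _ (S0_single_mem (hg1 g t0) rfl) (S0_single_mem (hv1 t0) rfl), ?_⟩
      change bd (Finsupp.single [g • v N t0] 1 - Finsupp.single [v N t0] 1) = 0
      rw [map_sub, S0_bd1, S0_bd1, sub_self]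
    have h1 := hΦ0 ⟨_, hz⟩
    have h2 : q (v N t0) = 0 := by
      have := hq 1 t0
      rwa [one_smul, hκ1] at this
    simp only at h1
    rw [map_sub, hΦ1, hΦ1, hq, h2, sub_zero] at h1
    exact (hκH g).1 h1
  -- translates
  have hB0 : ∀ t t', (Finsupp.single [v N t] 1 - Finsupp.single [v N t'] 1 :
      List (L.V N) →₀ ℤ) ∈ Bdr (L.K N) 1 := by
    intro t t'
    exact ⟨Finsupp.single [v N t', v N t] 1, S0_single_mem (d1 t' t) rfl, S0_bd2 _ _⟩
  have hstep : ∀ (k g : GLn R N) (s : T), k • v N s = v N s →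
      (∀ t t', (Finsupp.single [g • v N t] 1 - Finsupp.single [v N t'] 1 :
        List (L.V N) →₀ ℤ) ∈ Bdr (L.K N) 1) →
      ∀ t t', (Finsupp.single [(k * g) • v N t] 1 - Finsupp.single [v N t'] 1 :
        List (L.V N) →₀ ℤ) ∈ Bdr (L.K N) 1 := by
    intro k g s hs hg t t'
    have h1 := S0_push_Bdr (fun x => k • x) (hKs k) 1 (hg t s)
    rw [map_sub, S0_push_single, S0_push_single] at h1
    simp only [List.map_cons, List.map_nil] at h1
    rw [hs, ← mul_smul] at h1
    have h2 := Submodule.add_mem _ h1 (hB0 s t')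
    rwa [sub_add_sub_cancel] at h2
  have hall : ∀ g : GLn R N, ∀ t t', (Finsupp.single [g • v N t] 1 - Finsupp.single [v N t'] 1 :
      List (L.V N) →₀ ℤ) ∈ Bdr (L.K N) 1 := by
    intro g
    have hg := htop g
    rw [hHdef] at hg
    induction hg using Subgroup.closure_induction_left with
    | one =>
      intro t t'
      rw [one_smul]
      exact hB0 t t'
    | mul_left k hk g _ ih =>
      obtain ⟨s, hs⟩ := hk
      exact hstep k g s hs ih
    | inv_mul_cancel k hk g _ ih =>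
      obtain ⟨s, hs⟩ := hk
      refine hstep k⁻¹ g s ?_ ih
      rw [inv_smul_eq_iff, hs]
  -- the end
  have hend : Ch (L.K N).s 1 ≤ (Bdr (L.K N) 1).comap
      (LinearMap.id - (LinearMap.toSpanSingleton ℤ _ (Finsupp.single [v N t0] 1)) ∘ₗ S0_eps) := by
    apply S0_Ch1_le
    intro x hx
    obtain ⟨g, t, rfl⟩ := hvert x hx
    rw [Submodule.mem_comap, LinearMap.sub_apply, LinearMap.comp_apply, S0_eps_single,
      LinearMap.toSpanSingleton_apply, one_smul, LinearMap.id_apply]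
    exact hall g t t0
  have h5 := hend hz0
  have h6 : S0_eps z0 = 0 := S0_eps_cyc (K := L.K N) (j := 1) ⟨hz0, hbz0⟩
  rw [Submodule.mem_comap, LinearMap.sub_apply, LinearMap.comp_apply, h6, map_zero, sub_zero,
    LinearMap.id_apply] at h5
  obtain ⟨y, hy, hy'⟩ := h5
  exact ⟨y, hy, hy'⟩

end Pool.Agent.SLZ
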