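import Pool.Agent.SLZ.StS
import Pool.Agent.SLZ.MA

/-!
# SLZ, SB: the double complex of a bisimplicial complex (helper53)
-/

set_option autoImplicit false
set_option linter.unusedVariables false

noncomputable section

namespace Pool.Agent.SLZ

section

open scoped Classical

variable {V W : Type}

/-- chains with a fixed second component -/
def SB_e1 (m : List W) : (List V →₀ ℤ) →ₗ[ℤ] (List V × List W →₀ ℤ) :=
  Finsupp.lmapDomain ℤ ℤ fun l => (l, m)

/-- chains with a fixed first component -/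
def SB_e2 (l : List V) : (List W →₀ ℤ) →ₗ[ℤ] (List V × List W →₀ ℤ) :=
  Finsupp.lmapDomain ℤ ℤ fun m => (l, m)

theorem SB_bd_single (l : List V) : bd (Finsupp.single l 1) = bdL l := by
  unfold bd
  rw [Finsupp.lift_apply, Finsupp.sum_single_index (by simp), one_smul]

theorem SB_bd1_single (l : List V) (m : List W) :
    bd1 (Finsupp.single (l, m) 1) = SB_e1 m (bdL l) := by
  unfold bd1
  rw [Finsupp.lift_apply, Finsupp.sum_single_index (by simp), one_smul]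
  rfl

theorem SB_bd2_single (l : List V) (m : List W) :
    bd2 (Finsupp.single (l, m) 1) = SB_e2 l (bdL m) := by
  unfold bd2
  rw [Finsupp.lift_apply, Finsupp.sum_single_index (by simp), one_smul]
  rfl

theorem SB_e1_single (l : List V) (m : List W) :
    SB_e1 m (Finsupp.single l 1) = Finsupp.single (l, m) 1 := by
  unfold SB_e1
  rw [Finsupp.lmapDomain_apply, Finsupp.mapDomain_single]

theorem SB_e2_single (l : List V) (m : List W) :
    SB_e2 l (Finsupp.single m 1) = Finsupp.single (l, m) 1 := by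
  unfold SB_e2
  rw [Finsupp.lmapDomain_apply, Finsupp.mapDomain_single]

theorem SB_bd1_e1 (m : List W) (c : List V →₀ ℤ) : bd1 (SB_e1 m c) = SB_e1 m (bd c) := by
  have h : bd1 ∘ₗ (SB_e1 m : (List V →₀ ℤ) →ₗ[ℤ] (List V × List W →₀ ℤ)) = SB_e1 m ∘ₗ bd := by
    apply Finsupp.lhom_ext'
    intro l
    apply LinearMap.ext_ring
    simp only [LinearMap.comp_apply, Finsupp.lsingle_apply]
    rw [SB_e1_single, SB_bd1_single, SB_bd_single]
  exact LinearMap.congr_fun h c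

theorem SB_bd2_e2 (l : List V) (c : List W →₀ ℤ) : bd2 (SB_e2 l c) = SB_e2 l (bd c) := by
  have h : bd2 ∘ₗ (SB_e2 l : (List W →₀ ℤ) →ₗ[ℤ] (List V × List W →₀ ℤ)) = SB_e2 l ∘ₗ bd := by
    apply Finsupp.lhom_ext'
    intro m
    apply LinearMap.ext_ring
    simp only [LinearMap.comp_apply, Finsupp.lsingle_apply]
    rw [SB_e2_single, SB_bd2_single, SB_bd_single]
  exact LinearMap.congr_fun h c

/-- the product of two chains -/
def SB_P : (List W →₀ ℤ) →ₗ[ℤ] (List V →₀ ℤ) →ₗ[ℤ] (List V × List W →₀ ℤ) :=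
  Finsupp.lift _ ℤ _ fun m => SB_e1 m

/-- the product of two chains -/
def SB_Q : (List V →₀ ℤ) →ₗ[ℤ] (List W →₀ ℤ) →ₗ[ℤ] (List V × List W →₀ ℤ) :=
  Finsupp.lift _ ℤ _ fun l => SB_e2 l

theorem SB_P_single (m : List W) (c : List V →₀ ℤ) :
    SB_P (Finsupp.single m 1) c = SB_e1 m c := by
  unfold SB_P
  rw [Finsupp.lift_apply, Finsupp.sum_single_index (by simp), one_smul]

theorem SB_Q_single (l : List V) (c : List W →₀ ℤ) :
    SB_Q (Finsupp.single l 1) c = SB_e2 l c := by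
  unfold SB_Q
  rw [Finsupp.lift_apply, Finsupp.sum_single_index (by simp), one_smul]

theorem SB_PQ (c : List V →₀ ℤ) (d : List W →₀ ℤ) : SB_P d c = SB_Q c d := by
  have h : (SB_P (V := V) (W := W)).flip = SB_Q := by
    apply Finsupp.lhom_ext'
    intro l
    apply LinearMap.ext_ring
    apply Finsupp.lhom_ext'
    intro m
    apply LinearMap.ext_ring
    simp only [LinearMap.comp_apply, Finsupp.lsingle_apply, LinearMap.flip_apply]
    rw [SB_P_single, SB_Q_single, SB_e1_single, SB_e2_single]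
  exact LinearMap.congr_fun (LinearMap.congr_fun h c) d

theorem SB_bd1_e2 (l : List V) (d : List W →₀ ℤ) : bd1 (SB_e2 l d) = SB_P d (bdL l) := by
  have h : bd1 ∘ₗ (SB_e2 l : (List W →₀ ℤ) →ₗ[ℤ] (List V × List W →₀ ℤ)) =
      (SB_P (V := V) (W := W)).flip (bdL l) := by
    apply Finsupp.lhom_ext'
    intro m
    apply LinearMap.ext_ring
    simp only [LinearMap.comp_apply, Finsupp.lsingle_apply, LinearMap.flip_apply]
    rw [SB_e2_single, SB_bd1_single, SB_P_single]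
  exact LinearMap.congr_fun h d

theorem SB_bd2_e1 (m : List W) (c : List V →₀ ℤ) : bd2 (SB_e1 m c) = SB_Q c (bdL m) := by
  have h : bd2 ∘ₗ (SB_e1 m : (List V →₀ ℤ) →ₗ[ℤ] (List V × List W →₀ ℤ)) =
      (SB_Q (V := V) (W := W)).flip (bdL m) := by
    apply Finsupp.lhom_ext'
    intro l
    apply LinearMap.ext_ring
    simp only [LinearMap.comp_apply, Finsupp.lsingle_apply, LinearMap.flip_apply]
    rw [SB_e1_single, SB_bd2_single, SB_Q_single]
  exact LinearMap.congr_fun h c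

theorem SB_1 (x : List V × List W →₀ ℤ) :
    bd1 (bd1 x) = 0 ∧ bd2 (bd2 x) = 0 ∧ bd1 (bd2 x) = bd2 (bd1 x) := by
  have hV := (thm_MA V).1
  have hW := (thm_MA W).1
  have h1 : (bd1 ∘ₗ bd1 : (List V × List W →₀ ℤ) →ₗ[ℤ] (List V × List W →₀ ℤ)) = 0 := by
    apply Finsupp.lhom_ext'
    rintro ⟨l, m⟩
    apply LinearMap.ext_ring
    simp only [LinearMap.comp_apply, Finsupp.lsingle_apply, LinearMap.zero_apply]
    rw [SB_bd1_single, SB_bd1_e1, ← SB_bd_single, hV, map_zero]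
  have h2 : (bd2 ∘ₗ bd2 : (List V × List W →₀ ℤ) →ₗ[ℤ] (List V × List W →₀ ℤ)) = 0 := by
    apply Finsupp.lhom_ext'
    rintro ⟨l, m⟩
    apply LinearMap.ext_ring
    simp only [LinearMap.comp_apply, Finsupp.lsingle_apply, LinearMap.zero_apply]
    rw [SB_bd2_single, SB_bd2_e2, ← SB_bd_single, hW, map_zero]
  have h3 : (bd1 ∘ₗ bd2 : (List V × List W →₀ ℤ) →ₗ[ℤ] (List V × List W →₀ ℤ)) =
      bd2 ∘ₗ bd1 := by
    apply Finsupp.lhom_ext'
    rintro ⟨l, m⟩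
    apply LinearMap.ext_ring
    simp only [LinearMap.comp_apply, Finsupp.lsingle_apply]
    rw [SB_bd2_single, SB_bd1_single, SB_bd1_e2, SB_bd2_e1, SB_PQ]
  exact ⟨LinearMap.congr_fun h1 x, LinearMap.congr_fun h2 x, LinearMap.congr_fun h3 x⟩

theorem SB_e1_apply (m : List W) (c : List V →₀ ℤ) (l' : List V) (m' : List W) :
    SB_e1 m c (l', m') = if m = m' then c l' else 0 := by
  unfold SB_e1
  rw [Finsupp.lmapDomain_apply]
  split_ifs with h
  · subst h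
    exact Finsupp.mapDomain_apply (fun a b hab => by simpa using hab) c l'
  · apply Finsupp.mapDomain_of_notMem_range
    rintro ⟨l, hl⟩
    exact h (Prod.mk.inj hl).2

theorem SB_e2_apply (l : List V) (c : List W →₀ ℤ) (l' : List V) (m' : List W) :
    SB_e2 l c (l', m') = if l = l' then c m' else 0 := by
  unfold SB_e2
  rw [Finsupp.lmapDomain_apply]
  split_ifs with h
  · subst h
    exact Finsupp.mapDomain_apply (fun a b hab => by simpa using hab) c m'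
  · apply Finsupp.mapDomain_of_notMem_range
    rintro ⟨l, hl⟩
    exact h (Prod.mk.inj hl).1

/-- the part with the second component `m` -/
def SB_r1 (m : List W) : (List V × List W →₀ ℤ) →ₗ[ℤ] (List V →₀ ℤ) :=
  Finsupp.lcomapDomain (fun l => (l, m)) fun a b hab => by simpa using hab

/-- the part with the first component `l` -/
def SB_r2 (l : List V) : (List V × List W →₀ ℤ) →ₗ[ℤ] (List W →₀ ℤ) :=
  Finsupp.lcomapDomain (fun m => (l, m)) fun a b hab => by simpa using hab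

theorem SB_r1_apply (m : List W) (x : List V × List W →₀ ℤ) (l : List V) :
    SB_r1 m x l = x (l, m) := rfl

theorem SB_r2_apply (l : List V) (x : List V × List W →₀ ℤ) (m : List W) :
    SB_r2 l x m = x (l, m) := rfl

theorem SB_r1_e1 (m m' : List W) (c : List V →₀ ℤ) :
    SB_r1 m (SB_e1 m' c) = if m' = m then c else 0 := by
  ext l
  rw [SB_r1_apply, SB_e1_apply]
  split_ifs <;> rfl

theorem SB_r2_e2 (l l' : List V) (c : List W →₀ ℤ) :
    SB_r2 l (SB_e2 l' c) = if l' = l then c else 0 := by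
  ext m
  rw [SB_r2_apply, SB_e2_apply]
  split_ifs <;> rfl

theorem SB_r1_bd1 (m : List W) (x : List V × List W →₀ ℤ) :
    SB_r1 m (bd1 x) = bd (SB_r1 m x) := by
  have h : SB_r1 m ∘ₗ bd1 = bd ∘ₗ (SB_r1 m : (List V × List W →₀ ℤ) →ₗ[ℤ] (List V →₀ ℤ)) := by
    apply Finsupp.lhom_ext'
    rintro ⟨l', m'⟩
    apply LinearMap.ext_ring
    simp only [LinearMap.comp_apply, Finsupp.lsingle_apply]
    rw [SB_bd1_single, ← SB_e1_single, SB_r1_e1, SB_r1_e1]
    split_ifs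
    · rw [SB_bd_single]
    · rw [map_zero]
  exact LinearMap.congr_fun h x

theorem SB_r2_bd2 (l : List V) (x : List V × List W →₀ ℤ) :
    SB_r2 l (bd2 x) = bd (SB_r2 l x) := by
  have h : SB_r2 l ∘ₗ bd2 = bd ∘ₗ (SB_r2 l : (List V × List W →₀ ℤ) →ₗ[ℤ] (List W →₀ ℤ)) := by
    apply Finsupp.lhom_ext'
    rintro ⟨l', m'⟩
    apply LinearMap.ext_ring
    simp only [LinearMap.comp_apply, Finsupp.lsingle_apply]
    rw [SB_bd2_single, ← SB_e2_single, SB_r2_e2, SB_r2_e2]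
    split_ifs
    · rw [SB_bd_single]
    · rw [map_zero]
  exact LinearMap.congr_fun h x

/-- a chain is the sum of its parts -/
theorem SB_sum1 (x : List V × List W →₀ ℤ) :
    ∃ S : Finset (List W), (∀ m ∈ S, ∃ l, x (l, m) ≠ 0) ∧ x = ∑ m ∈ S, SB_e1 m (SB_r1 m x) := by
  refine ⟨x.support.image Prod.snd, ?_, ?_⟩
  · intro m hm
    obtain ⟨⟨l, m'⟩, h1, h2⟩ := Finset.mem_image.1 hm
    exact ⟨l, by rw [← h2]; exact Finsupp.mem_support_iff.1 h1⟩
  · ext ⟨l, m⟩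
    rw [Finsupp.finsetSum_apply]
    simp only [SB_e1_apply, SB_r1_apply]
    rw [Finset.sum_ite_eq']
    split_ifs with h
    · rfl
    · by_contra hne
      exact h (Finset.mem_image.2 ⟨(l, m), Finsupp.mem_support_iff.2 hne, rfl⟩)

theorem SB_sum2 (x : List V × List W →₀ ℤ) :
    ∃ S : Finset (List V), (∀ l ∈ S, ∃ m, x (l, m) ≠ 0) ∧ x = ∑ l ∈ S, SB_e2 l (SB_r2 l x) := by
  refine ⟨x.support.image Prod.fst, ?_, ?_⟩
  · intro l hl
    obtain ⟨⟨l', m⟩, h1, h2⟩ := Finset.mem_image.1 hl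
    exact ⟨m, by rw [← h2]; exact Finsupp.mem_support_iff.1 h1⟩
  · ext ⟨l, m⟩
    rw [Finsupp.finsetSum_apply]
    simp only [SB_e2_apply, SB_r2_apply]
    rw [Finset.sum_ite_eq']
    split_ifs with h
    · rfl
    · by_contra hne
      exact h (Finset.mem_image.2 ⟨(l, m), Finsupp.mem_support_iff.2 hne, rfl⟩)

theorem SB_mem_DD {B : Set (List V × List W)} {a b : ℕ} {x : List V × List W →₀ ℤ} :
    x ∈ DD B a b ↔ ∀ l m, x (l, m) ≠ 0 → (l, m) ∈ B ∧ l.length = a ∧ m.length = b := by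
  unfold DD
  rw [Finsupp.mem_supported]
  constructor
  · intro h l m hx
    exact h (Finset.mem_coe.2 (Finsupp.mem_support_iff.2 hx))
  · rintro h ⟨l, m⟩ hx
    exact h l m (Finsupp.mem_support_iff.1 (Finset.mem_coe.1 hx))

theorem SB_mem_Ch {K : Set (List V)} {a : ℕ} {x : List V →₀ ℤ} :
    x ∈ Ch K a ↔ ∀ l, x l ≠ 0 → l ∈ K ∧ l.length = a := by
  unfold Ch
  rw [Finsupp.mem_supported]
  constructor
  · intro h l hx
    exact h (Finset.mem_coe.2 (Finsupp.mem_support_iff.2 hx))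
  · rintro h l hx
    exact h l (Finsupp.mem_support_iff.1 (Finset.mem_coe.1 hx))

theorem SB_e1_mem (B : Bx V W) {a b : ℕ} {m : List W} (hm : m.length = b) {c : List V →₀ ℤ}
    (hc : c ∈ Ch (B.col m).s a) : SB_e1 m c ∈ DD B.s a b := by
  rw [SB_mem_DD]
  intro l' m' h
  rw [SB_e1_apply] at h
  split_ifs at h with h1
  · subst h1
    obtain ⟨h2, h3⟩ := SB_mem_Ch.1 hc l' h
    exact ⟨h2, h3, hm⟩
  · exact absurd rfl h

theorem SB_e2_mem (B : Bx V W) {a b : ℕ} {l : List V} (hl : l.length = a) {c : List W →₀ ℤ}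
    (hc : c ∈ Ch (B.row l).s b) : SB_e2 l c ∈ DD B.s a b := by
  rw [SB_mem_DD]
  intro l' m' h
  rw [SB_e2_apply] at h
  split_ifs at h with h1
  · subst h1
    obtain ⟨h2, h3⟩ := SB_mem_Ch.1 hc m' h
    exact ⟨h2, hl, h3⟩
  · exact absurd rfl h

theorem SB_r1_mem (B : Bx V W) {a b : ℕ} (m : List W) {x : List V × List W →₀ ℤ}
    (hx : x ∈ DD B.s a b) : SB_r1 m x ∈ Ch (B.col m).s a := by
  rw [SB_mem_Ch]
  intro l hl
  obtain ⟨h1, h2, -⟩ := SB_mem_DD.1 hx l m hl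
  exact ⟨h1, h2⟩

theorem SB_r2_mem (B : Bx V W) {a b : ℕ} (l : List V) {x : List V × List W →₀ ℤ}
    (hx : x ∈ DD B.s a b) : SB_r2 l x ∈ Ch (B.row l).s b := by
  rw [SB_mem_Ch]
  intro m hm
  obtain ⟨h1, -, h2⟩ := SB_mem_DD.1 hx l m hm
  exact ⟨h1, h2⟩

theorem SB_2a (B : Bx V W) (a b : ℕ) (x : List V × List W →₀ ℤ) (hx : x ∈ DD B.s (a + 1) b) :
    bd1 x ∈ DD B.s a b := by
  obtain ⟨S, hS, hs⟩ := SB_sum1 x
  rw [hs, map_sum]
  refine Submodule.sum_mem _ fun m hm => ?_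
  obtain ⟨l, hl⟩ := hS m hm
  rw [SB_bd1_e1]
  refine SB_e1_mem B (SB_mem_DD.1 hx l m hl).2.2 ?_
  exact ((thm_MA V).2.2.1 (B.col m) a).2 _ (SB_r1_mem B m hx)

theorem SB_2b (B : Bx V W) (a b : ℕ) (x : List V × List W →₀ ℤ) (hx : x ∈ DD B.s a (b + 1)) :
    bd2 x ∈ DD B.s a b := by
  obtain ⟨S, hS, hs⟩ := SB_sum2 x
  rw [hs, map_sum]
  refine Submodule.sum_mem _ fun l hl => ?_
  obtain ⟨m, hm⟩ := hS l hl
  rw [SB_bd2_e2]
  refine SB_e2_mem B (SB_mem_DD.1 hx l m hm).2.1 ?_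
  exact ((thm_MA W).2.2.1 (B.row l) b).2 _ (SB_r2_mem B l hx)

theorem SB_2c (B : Bx V W) (b : ℕ) (x : List V × List W →₀ ℤ) (hx : x ∈ DD B.s 0 b) :
    bd1 x = 0 := by
  obtain ⟨S, hS, hs⟩ := SB_sum1 x
  rw [hs, map_sum]
  refine Finset.sum_eq_zero fun m hm => ?_
  rw [SB_bd1_e1, ((thm_MA V).2.2.1 (B.col m) 0).1 _ (SB_r1_mem B m hx), map_zero]

theorem SB_2d (B : Bx V W) (a : ℕ) (x : List V × List W →₀ ℤ) (hx : x ∈ DD B.s a 0) :
    bd2 x = 0 := by
  obtain ⟨S, hS, hs⟩ := SB_sum2 x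
  rw [hs, map_sum]
  refine Finset.sum_eq_zero fun l hl => ?_
  rw [SB_bd2_e2, ((thm_MA W).2.2.1 (B.row l) 0).1 _ (SB_r2_mem B l hx), map_zero]

theorem SB_3 (B : Bx V W) (a b : ℕ) (h : ∀ l : List V, l.length = a → Ex (B.row l) b)
    (z : List V × List W →₀ ℤ) (hz : z ∈ DD B.s a b) (h0 : bd2 z = 0) :
    ∃ y ∈ DD B.s a (b + 1), bd2 y = z := by
  obtain ⟨S, hS, hs⟩ := SB_sum2 z
  have h1 : ∀ l ∈ S, ∃ y ∈ Ch (B.row l).s (b + 1), bd y = SB_r2 l z := by
    intro l hl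
    obtain ⟨m, hm⟩ := hS l hl
    refine h l (SB_mem_DD.1 hz l m hm).2.1 _ (SB_r2_mem B l hz) ?_
    rw [← SB_r2_bd2, h0, map_zero]
  choose! y hy1 hy2 using h1
  refine ⟨∑ l ∈ S, SB_e2 l (y l), ?_, ?_⟩
  · refine Submodule.sum_mem _ fun l hl => ?_
    obtain ⟨m, hm⟩ := hS l hl
    exact SB_e2_mem B (SB_mem_DD.1 hz l m hm).2.1 (hy1 l hl)
  · rw [map_sum]
    conv_rhs => rw [hs]
    refine Finset.sum_congr rfl fun l hl => ?_
    rw [SB_bd2_e2, hy2 l hl]

theorem SB_4 (B : Bx V W) (a b : ℕ) (h : ∀ m : List W, m.length = b → Ex (B.col m) a)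
    (z : List V × List W →₀ ℤ) (hz : z ∈ DD B.s a b) (h0 : bd1 z = 0) :
    ∃ y ∈ DD B.s (a + 1) b, bd1 y = z := by
  obtain ⟨S, hS, hs⟩ := SB_sum1 z
  have h1 : ∀ m ∈ S, ∃ y ∈ Ch (B.col m).s (a + 1), bd y = SB_r1 m z := by
    intro m hm
    obtain ⟨l, hl⟩ := hS m hm
    refine h m (SB_mem_DD.1 hz l m hl).2.2 _ (SB_r1_mem B m hz) ?_
    rw [← SB_r1_bd1, h0, map_zero]
  choose! y hy1 hy2 using h1
  refine ⟨∑ m ∈ S, SB_e1 m (y m), ?_, ?_⟩
  · refine Submodule.sum_mem _ fun m hm => ?_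
    obtain ⟨l, hl⟩ := hS m hm
    exact SB_e1_mem B (SB_mem_DD.1 hz l m hl).2.2 (hy1 m hm)
  · rw [map_sum]
    conv_rhs => rw [hs]
    refine Finset.sum_congr rfl fun m hm => ?_
    rw [SB_bd1_e1, hy2 m hm]

end

theorem thm_SB : St_SB := by
  intro V W B
  exact ⟨SB_1, fun a b => ⟨SB_2a B a b, SB_2b B a b, SB_2c B b, SB_2d B a⟩,
    SB_3 B, SB_4 B⟩

end Pool.Agent.SLZ
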