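import Pool.Agent.SLZ.StS

/-!
# SLZ, module SC: the column of a list of split vectors (helper45)
-/

set_option autoImplicit false
set_option linter.unusedVariables false

noncomputable section

namespace Pool.Agent.SLZ

section SC

variable {R : Type} [CommRing R]

theorem SC_frA_mul {N : ℕ} (g h : GLn R N) (f : Fr R N) : frA (g * h) f = frA g (frA h f) := by
  refine Prod.ext ?_ ?_
  · show ((g * h : GLn R N) : Matrix (Fin N) (Fin N) R).mulVec f.1 = g.1.mulVec (h.1.mulVec f.1)
    rw [Matrix.mulVec_mulVec, Units.val_mul]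
  · show Matrix.vecMul f.2 ((g * h)⁻¹ : GLn R N).1 = Matrix.vecMul (Matrix.vecMul f.2 (h⁻¹).1) (g⁻¹).1
    rw [Matrix.vecMul_vecMul, mul_inv_rev, Units.val_mul]

theorem SC_frA_one {N : ℕ} (f : Fr R N) : frA (1 : GLn R N) f = f := by
  refine Prod.ext ?_ ?_
  · show ((1 : GLn R N) : Matrix (Fin N) (Fin N) R).mulVec f.1 = f.1
    rw [Units.val_one, Matrix.one_mulVec]
  · show Matrix.vecMul f.2 ((1 : GLn R N)⁻¹ : GLn R N).1 = f.2
    rw [inv_one, Units.val_one, Matrix.vecMul_one]

theorem SC_frA_inv {N : ℕ} (g : GLn R N) (f : Fr R N) : frA g⁻¹ (frA g f) = f := by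
  rw [← SC_frA_mul, inv_mul_cancel, SC_frA_one]

theorem SC_ep {n N : ℕ} (h : n ≤ N) :
    (1 : Matrix (Fin N) (Fin N) R) - blk R N n 0 * cblk R n N 0 =
      Matrix.diagonal (fun j : Fin N => if n ≤ j.val then (1 : R) else 0) := by
  ext i j
  rw [Matrix.sub_apply, Matrix.one_apply, Matrix.mul_apply, Matrix.diagonal_apply]
  unfold blk cblk
  by_cases hi : i.val < n
  · rw [Finset.sum_eq_single (⟨i.val, hi⟩ : Fin n)]
    · have h2 : i.val = 0 + (⟨i.val, hi⟩ : Fin n).val := (Nat.zero_add _).symm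
      rw [if_pos h2, one_mul]
      by_cases hij : i = j
      · subst hij
        rw [if_pos rfl, if_pos h2, if_pos rfl, if_neg (by omega), sub_self]
      · have h3 : ¬ j.val = 0 + (⟨i.val, hi⟩ : Fin n).val := by
          intro h1
          apply hij
          apply Fin.ext
          have h2 : j.val = 0 + i.val := h1
          omega
        rw [if_neg hij, if_neg h3, if_neg hij, sub_self]
    · intro k _ hk
      rw [if_neg, zero_mul]
      intro h1
      apply hk
      apply Fin.ext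
      show k.val = i.val
      omega
    · intro h1
      exact absurd (Finset.mem_univ _) h1
  · rw [Finset.sum_eq_zero, sub_zero]
    · by_cases hij : i = j
      · rw [if_pos hij, if_pos hij, if_pos (by omega)]
      · rw [if_neg hij, if_neg hij]
    · intro k _
      rw [if_neg, zero_mul]
      intro h1
      apply hi
      have := k.2
      omega

/-- fact F2 -/
theorem SC_F2 (h1 : St_UA1) {n N : ℕ} (h : n ≤ N) (x : GLn R N)
    (hx : ∀ j : Fin N, n ≤ j.val → frA x (stF j) = stF j) : ∃ x0 : GLn R n, x.1 = lmat n N x0.1 := by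
  obtain ⟨q, hq⟩ : ∃ q : Matrix (Fin N) (Fin N) R,
    q = Matrix.diagonal (fun j : Fin N => if n ≤ j.val then (1 : R) else 0) := ⟨_, rfl⟩
  have hep : (1 : Matrix (Fin N) (Fin N) R) - blk R N n 0 * cblk R n N 0 = q := by
    rw [hq]; exact SC_ep h
  have hpe : cblk R n N 0 * blk R N n 0 = 1 := (h1 R).1 n N 0 (by omega)
  have hcol : ∀ y : GLn R N, (∀ j : Fin N, n ≤ j.val → frA y (stF j) = stF j) →
      y.1 * q = q := by
    intro y hy
    ext i j
    rw [hq, Matrix.mul_diagonal, Matrix.diagonal_apply]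
    by_cases hj : n ≤ j.val
    · have h2 : y.1.mulVec (Pi.single j 1) = Pi.single j 1 := congrArg Prod.fst (hy j hj)
      have h3 := congrFun h2 i
      rw [Matrix.mulVec_single_one] at h3
      have h4 : y.1 i j = (Pi.single j 1 : Fin N → R) i := h3
      rw [if_pos hj, mul_one, h4, Pi.single_apply]
      by_cases hij : i = j
      · rw [if_pos hij, if_pos hij, hij, if_pos hj]
      · rw [if_neg hij, if_neg hij]
    · rw [if_neg hj, mul_zero]
      by_cases hij : i = j
      · rw [if_pos hij, hij, if_neg hj]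
      · rw [if_neg hij]
  have hrow : ∀ y : GLn R N, (∀ j : Fin N, n ≤ j.val → frA y (stF j) = stF j) →
      q * (y⁻¹).1 = q := by
    intro y hy
    ext i j
    rw [hq, Matrix.diagonal_mul, Matrix.diagonal_apply]
    by_cases hj : n ≤ i.val
    · have h2 : Matrix.vecMul (Pi.single i 1) (y⁻¹).1 = Pi.single i 1 :=
        congrArg Prod.snd (hy i hj)
      have h3 := congrFun h2 j
      rw [Matrix.single_one_vecMul] at h3
      have h4 : (y⁻¹).1 i j = (Pi.single i 1 : Fin N → R) j := h3
      rw [if_pos hj, one_mul, h4, Pi.single_apply]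
      by_cases hij : i = j
      · rw [if_pos hij, if_pos hij.symm]
      · rw [if_neg hij, if_neg (Ne.symm hij)]
    · rw [if_neg hj, zero_mul]
      by_cases hij : i = j
      · rw [if_pos hij]
      · rw [if_neg hij]
  have hxi : ∀ j : Fin N, n ≤ j.val → frA x⁻¹ (stF j) = stF j := by
    intro j hj
    conv_lhs => rw [← hx j hj]
    exact SC_frA_inv x _
  have e1 : x.1 * q = q := hcol x hx
  have e2 : (x⁻¹).1 * q = q := hcol x⁻¹ hxi
  have e3 : q * (x⁻¹).1 = q := hrow x hx
  have e4 : q * x.1 = q := by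
    have h2 := hrow x⁻¹ hxi
    rwa [inv_inv] at h2
  have hpq : cblk R n N 0 * q = 0 := by
    rw [← hep, Matrix.mul_sub, Matrix.mul_one, ← Matrix.mul_assoc, hpe, Matrix.one_mul, sub_self]
  have hep2 : blk R N n 0 * cblk R n N 0 = 1 - q := by
    rw [← hep, sub_sub_cancel]
  have hprod : ∀ y z : Matrix (Fin N) (Fin N) R, y * q = q → y * z = 1 →
      (cblk R n N 0 * y * blk R N n 0) * (cblk R n N 0 * z * blk R N n 0) = 1 := by
    intro y z hy hyz
    calc (cblk R n N 0 * y * blk R N n 0) * (cblk R n N 0 * z * blk R N n 0)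
        = cblk R n N 0 * (y * (blk R N n 0 * cblk R n N 0) * z) * blk R N n 0 := by
          simp only [Matrix.mul_assoc]
      _ = cblk R n N 0 * (y * (1 - q) * z) * blk R N n 0 := by rw [hep2]
      _ = cblk R n N 0 * (1 - q * z) * blk R N n 0 := by
          rw [Matrix.mul_sub, Matrix.mul_one, hy, Matrix.sub_mul, hyz]
      _ = 1 := by
          rw [Matrix.mul_sub, Matrix.mul_one, ← Matrix.mul_assoc, hpq, Matrix.zero_mul, sub_zero, hpe]
  refine ⟨⟨cblk R n N 0 * x.1 * blk R N n 0, cblk R n N 0 * (x⁻¹).1 * blk R N n 0,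
    hprod _ _ e1 (by rw [← Units.val_mul, mul_inv_cancel, Units.val_one]),
    hprod _ _ e2 (by rw [← Units.val_mul, inv_mul_cancel, Units.val_one])⟩, ?_⟩
  show x.1 = blk R N n 0 * (cblk R n N 0 * x.1 * blk R N n 0) * cblk R n N 0 +
    (1 - blk R N n 0 * cblk R n N 0)
  have h5 : blk R N n 0 * (cblk R n N 0 * x.1 * blk R N n 0) * cblk R n N 0 =
      (blk R N n 0 * cblk R n N 0) * x.1 * (blk R N n 0 * cblk R n N 0) := by
    simp only [Matrix.mul_assoc]
  have h6 : q * q = q := by
    rw [hq, Matrix.diagonal_mul_diagonal]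
    congr 1
    funext j
    split_ifs <;> simp
  rw [h5, hep, hep2, sub_mul, one_mul, e4, mul_sub, mul_one, sub_mul, e1, h6]
  abel

/-- the matrix of a permutation -/
def SC_P {N : ℕ} (σ : Equiv.Perm (Fin N)) : GLn R N where
  val := fun i j => if σ i = j then 1 else 0
  inv := fun i j => if σ.symm i = j then 1 else 0
  val_inv := by
    ext i j
    rw [Matrix.mul_apply, Finset.sum_eq_single (σ i), Matrix.one_apply]
    · rw [if_pos rfl, one_mul, Equiv.symm_apply_apply]
    · intro k _ hk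
      rw [if_neg (Ne.symm hk), zero_mul]
    · intro h1
      exact absurd (Finset.mem_univ _) h1
  inv_val := by
    ext i j
    rw [Matrix.mul_apply, Finset.sum_eq_single (σ.symm i), Matrix.one_apply]
    · rw [if_pos rfl, one_mul, Equiv.apply_symm_apply]
    · intro k _ hk
      rw [if_neg (Ne.symm hk), zero_mul]
    · intro h1
      exact absurd (Finset.mem_univ _) h1

theorem SC_P_stF {N : ℕ} (σ : Equiv.Perm (Fin N)) (j : Fin N) :
    frA (SC_P (R := R) σ) (stF j) = stF (σ.symm j) := by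
  refine Prod.ext ?_ ?_
  · funext i
    show ((SC_P (R := R) σ).1.mulVec (Pi.single j 1)) i = (Pi.single (σ.symm j) 1 : Fin N → R) i
    rw [Matrix.mulVec_single_one, Pi.single_apply]
    show (if σ i = j then (1 : R) else 0) = if i = σ.symm j then 1 else 0
    by_cases h : σ i = j
    · rw [if_pos h, if_pos (by rw [← h, Equiv.symm_apply_apply])]
    · rw [if_neg h, if_neg (fun h2 => h (by rw [h2, Equiv.apply_symm_apply]))]
  · funext i
    show (Matrix.vecMul (Pi.single j 1) ((SC_P (R := R) σ)⁻¹).1) i =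
      (Pi.single (σ.symm j) 1 : Fin N → R) i
    rw [Matrix.single_one_vecMul, Pi.single_apply]
    show (if σ.symm j = i then (1 : R) else 0) = if i = σ.symm j then 1 else 0
    by_cases h : σ.symm j = i
    · rw [if_pos h, if_pos h.symm]
    · rw [if_neg h, if_neg (Ne.symm h)]

/-- an injection of `{j ≥ n}` into `{j ≥ n1}` extends to a permutation which fixes `{i < n1}` -/
theorem SC_ext {N n n1 : ℕ} (hn : n1 ≤ n) (a : {j : Fin N // n ≤ j.val} → Fin N)
    (ha : Function.Injective a) (ha1 : ∀ j, n1 ≤ (a j).val) :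
    ∃ ρ : Equiv.Perm (Fin N), (∀ i : Fin N, i.val < n1 → ρ i = i) ∧
      ∀ j : {j : Fin N // n ≤ j.val}, ρ j.1 = a j := by
  classical
  obtain ⟨f, hf⟩ : ∃ f : Fin N → Fin N, ∀ i, f i = if h : n ≤ i.val then a ⟨i, h⟩ else i :=
    ⟨_, fun i => rfl⟩
  have hinj : Set.InjOn f ((Finset.univ.filter (fun i : Fin N => i.val < n1 ∨ n ≤ i.val) :
      Finset (Fin N)) : Set (Fin N)) := by
    intro x hx y hy hxy
    rw [Finset.mem_coe, Finset.mem_filter] at hx hy
    rw [hf, hf] at hxy
    by_cases h1 : n ≤ x.val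
    · by_cases h2 : n ≤ y.val
      · rw [dif_pos h1, dif_pos h2] at hxy
        have h3 := ha hxy
        exact congrArg Subtype.val h3
      · rw [dif_pos h1, dif_neg h2] at hxy
        exfalso
        have h3 := ha1 ⟨x, h1⟩
        rw [hxy] at h3
        rcases hy.2 with h4 | h4
        · omega
        · exact h2 h4
    · by_cases h2 : n ≤ y.val
      · rw [dif_neg h1, dif_pos h2] at hxy
        exfalso
        have h3 := ha1 ⟨y, h2⟩
        rw [← hxy] at h3
        rcases hx.2 with h4 | h4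
        · omega
        · exact h1 h4
      · rwa [dif_neg h1, dif_neg h2] at hxy
  obtain ⟨g, hg⟩ := Finset.exists_equiv_extend_of_card_eq (α := Fin N) (β := Fin N)
    (t := Finset.univ) (by simp) (s := Finset.univ.filter (fun i : Fin N => i.val < n1 ∨ n ≤ i.val))
    (f := f) (Finset.subset_univ _) hinj
  refine ⟨g.trans (Equiv.subtypeUnivEquiv (fun x => Finset.mem_univ x)), ?_, ?_⟩
  · intro i hi
    have h1 := hg i (by rw [Finset.mem_filter]; exact ⟨Finset.mem_univ _, Or.inl hi⟩)
    show (g i : Fin N) = i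
    rw [h1, hf, dif_neg (by omega)]
  · intro j
    have h1 := hg j.1 (by rw [Finset.mem_filter]; exact ⟨Finset.mem_univ _, Or.inr j.2⟩)
    show (g j.1 : Fin N) = a j
    rw [h1, hf, dif_pos j.2]

/-- moving the standard pairs -/
theorem SC_move (L : LSys R) {N n n1 : ℕ} (hn : n1 ≤ n) (h1 : n1 ≤ N) (g1 : GLn R N)
    (a : {j : Fin N // n ≤ j.val} → Fin N)
    (ha : Function.Injective a) (ha1 : ∀ j, n1 ≤ (a j).val) :
    ∃ g : GLn R N, (∀ y : L.V n1, g • L.SS h1 y = g1 • L.SS h1 y) ∧
      ∀ j : {j : Fin N // n ≤ j.val}, frA g (stF j.1) = frA g1 (stF (a j)) := by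
  obtain ⟨ρ, hρ1, hρ2⟩ := SC_ext hn a ha ha1
  refine ⟨g1 * SC_P (R := R) ρ.symm, ?_, ?_⟩
  · intro y
    rw [mul_smul]
    congr 1
    exact L.s_perm n1 N h1 ρ.symm (fun i hi => by
      rw [Equiv.symm_apply_eq]
      exact (hρ1 i hi).symm) (SC_P (R := R) ρ.symm) (fun i j => rfl) y
  · intro j
    rw [SC_frA_mul, SC_P_stF, Equiv.symm_symm, hρ2]

theorem SC_SS_refl (L : LSys R) {n : ℕ} (h : n ≤ n) (x : L.V n) : L.SS h x = x := by
  unfold LSys.SS
  exact Nat.leRecOn_self x

theorem SC_SS_succ (L : LSys R) {n N : ℕ} (h : n ≤ N) (h' : n ≤ N + 1) (x : L.V n) :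
    L.SS h' x = L.s N (L.SS h x) := by
  unfold LSys.SS
  exact Nat.leRecOn_succ h x

theorem SC_SS_trans (L : LSys R) {n m N : ℕ} (h : n ≤ m) (h' : m ≤ N) (h'' : n ≤ N) (x : L.V n) :
    L.SS h' (L.SS h x) = L.SS h'' x := by
  unfold LSys.SS
  exact (Nat.leRecOn_trans h h' x).symm

theorem SC_SS_K (L : LSys R) {n : ℕ} (l : List (L.V n)) (hl : l ∈ (L.K n).s) : ∀ {N : ℕ} (h : n ≤ N),
    l.map (L.SS h) ∈ (L.K N).s := by
  intro N h
  induction N, h using Nat.le_induction with
  | base =>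
    have h1 : l.map (L.SS (le_refl n)) = l := by
      conv_rhs => rw [← List.map_id l]
      exact List.map_congr_left fun x _ => SC_SS_refl L _ x
    rw [h1]
    exact hl
  | succ N h ih =>
    have h1 := L.s_K N _ ih
    rw [List.map_map] at h1
    have h2 : l.map (L.s N ∘ L.SS h) = l.map (L.SS (Nat.le_succ_of_le h)) :=
      List.map_congr_left fun x _ => (SC_SS_succ L h _ x).symm
    rw [h2] at h1
    exact h1

theorem SC_SS_smul (h1 : St_UA1) (h2 : St_UA2) (L : LSys R) {n : ℕ} (x0 : GLn R n) (y : L.V n) :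
    ∀ {N : ℕ} (h : n ≤ N) (x : GLn R N), x.1 = lmat n N x0.1 → x • L.SS h y = L.SS h (x0 • y) := by
  intro N h
  induction N, h using Nat.le_induction with
  | base =>
    intro x hx
    have h3 : x = x0 := by
      apply Units.ext
      rw [hx]
      unfold lmat
      rw [((h1 R).2.2.2.2.1 n).1, ((h1 R).2.2.2.2.1 n).2]
      simp
    rw [SC_SS_refl, SC_SS_refl, h3]
  | succ N h ih =>
    intro x hx
    obtain ⟨x', hx', -⟩ := (h2 R n N h).2.2.1 x0
    have h3 : x.1 = lmat N (N + 1) x'.1 := by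
      rw [hx, hx', (h2 R n N h).2.2.2.1 (N + 1) (Nat.le_succ N) x0.1]
    rw [SC_SS_succ L h, SC_SS_succ L h, ← L.s_smul N x' x h3, ih x' hx']

/-- the numbers `j ≥ n` -/
def SC_eq {n N : ℕ} (h : n ≤ N) : Fin (N - n) ≃ {j : Fin N // n ≤ j.val} where
  toFun i := ⟨⟨n + i.val, by have := i.2; omega⟩, by show n ≤ n + i.val; omega⟩
  invFun j := ⟨j.1.val - n, by have := j.2; have := j.1.2; omega⟩
  left_inv i := by
    apply Fin.ext
    show n + i.val - n = i.val
    omega
  right_inv j := by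
    apply Subtype.ext
    apply Fin.ext
    show n + (j.1.val - n) = j.1.val
    have := j.2
    omega

end SC

theorem thm_SC (h1 : St_UA1) (h2 : St_UA2) : St_SC := by
  classical
  intro R _ L N m hm
  obtain ⟨n0, hn0, g0, l00, hl00, hl00', hm0⟩ := hm
  have hm0' : ∀ f ∈ m, ∃ j : Fin N, n0 ≤ j.val ∧ f = frA g0 (stF j) := hm0
  have hm0'' : ∀ f : {f // f ∈ m.toFinset}, ∃ j : Fin N, n0 ≤ j.val ∧ f.1 = frA g0 (stF j) :=
    fun f => hm0' f.1 (List.mem_toFinset.1 f.2)
  choose c hc1 hc2 using hm0''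
  obtain ⟨d, hd⟩ : ∃ d, d = m.toFinset.card := ⟨_, rfl⟩
  -- the indices
  have hcinj : Function.Injective (fun f : {f // f ∈ m.toFinset} =>
      (SC_eq hn0).symm ⟨c f, hc1 f⟩) := by
    intro f f' hff
    have h3 := (SC_eq hn0).symm.injective hff
    have h4 : c f = c f' := congrArg Subtype.val h3
    apply Subtype.ext
    rw [hc2 f, hc2 f', h4]
  have hdle : d ≤ N - n0 := by
    have h3 := Fintype.card_le_of_injective _ hcinj
    rw [Fintype.card_fin, Fintype.card_coe] at h3
    rw [hd]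
    exact h3
  obtain ⟨n, hn⟩ : ∃ n, n = N - d := ⟨_, rfl⟩
  have hnN : n ≤ N := by omega
  have hn0n : n0 ≤ n := by omega
  have hb : Nonempty ({j : Fin N // n ≤ j.val} ≃ {f // f ∈ m.toFinset}) := by
    refine ⟨(SC_eq hnN).symm.trans ((finCongr (by omega : N - n = m.toFinset.card)).trans
      (m.toFinset.equivFin).symm)⟩
  obtain ⟨b⟩ := hb
  obtain ⟨g, hg1, hg2⟩ := SC_move L hn0n hn0 g0 (fun j => c (b j)) (by
    intro j j' hjj
    apply b.injective
    apply Subtype.ext
    have h4 : c (b j) = c (b j') := hjj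
    rw [hc2 (b j), hc2 (b j'), h4])
    (fun j => hc1 _)
  have hgb : ∀ j : {j : Fin N // n ≤ j.val}, frA g (stF j.1) = (b j).1 := by
    intro j
    rw [hg2 j]
    exact (hc2 (b j)).symm
  have hA : ∀ f ∈ m, ∃ j : Fin N, n ≤ j.val ∧ f = frA g (stF j) := by
    intro f hf
    obtain ⟨j, hj⟩ := b.surjective ⟨f, List.mem_toFinset.2 hf⟩
    refine ⟨j.1, j.2, ?_⟩
    rw [hgb j, hj]
  refine ⟨n, hnN, g, ?_, hA, ?_, ?_⟩
  · have h3 := List.toFinset_card_le m
    omega
  · intro j hj
    rw [hgb ⟨j, hj⟩]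
    exact List.mem_toFinset.1 (b ⟨j, hj⟩).2
  · intro l
    constructor
    · rintro ⟨n1, hn1, g1, l1, hl1, hll1, hm1⟩
      have hll1' : l = l1.map (fun y => g1 • L.SS hn1 y) := hll1
      have hm1' : ∀ j : {j : Fin N // n ≤ j.val}, ∃ i : Fin N, n1 ≤ i.val ∧
          frA g (stF j.1) = frA g1 (stF i) := by
        intro j
        exact hm1 (frA g (stF j.1)) (by
          show frA g (stF j.1) ∈ m
          rw [hgb j]
          exact List.mem_toFinset.1 (b j).2)
      choose a ha1 ha2 using hm1'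
      have hainj : Function.Injective a := by
        intro j j' hjj
        apply b.injective
        apply Subtype.ext
        rw [← hgb j, ← hgb j', ha2 j, ha2 j', hjj]
      have hn1n : n1 ≤ n := by
        have h3 := Fintype.card_le_of_injective (fun i : Fin (N - n) =>
          (SC_eq hn1).symm ⟨a (SC_eq hnN i), ha1 _⟩) (by
            intro i i' hii
            have h4 := (SC_eq hn1).symm.injective hii
            have h5 : a (SC_eq hnN i) = a (SC_eq hnN i') := congrArg Subtype.val h4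
            exact (SC_eq hnN).injective (hainj h5))
        rw [Fintype.card_fin, Fintype.card_fin] at h3
        omega
      obtain ⟨g1', hg1', hg1''⟩ := SC_move L hn1n hn1 g1 a hainj ha1
      obtain ⟨x0, hx0⟩ := SC_F2 h1 hnN (g⁻¹ * g1') (by
        intro j hj
        rw [SC_frA_mul, hg1'' ⟨j, hj⟩, ← ha2 ⟨j, hj⟩, SC_frA_inv])
      refine ⟨l1.map (fun y => x0 • L.SS hn1n y), ?_, ?_⟩
      · have h3 := L.K_smul n x0 _ (SC_SS_K L l1 hl1 hn1n)
        rw [List.map_map] at h3
        exact h3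
      · rw [hll1', List.map_map]
        refine List.map_congr_left fun y _ => ?_
        show g1 • L.SS hn1 y = g • L.SS hnN (x0 • L.SS hn1n y)
        rw [← SC_SS_smul h1 h2 L x0 (L.SS hn1n y) hnN (g⁻¹ * g1') hx0, SC_SS_trans L hn1n hnN hn1,
          ← hg1' y, ← mul_smul, mul_inv_cancel_left]
    · rintro ⟨l0, hl0, rfl⟩
      exact ⟨n, hnN, g, l0, hl0, rfl, hA⟩

end Pool.Agent.SLZ
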