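import Pool.Agent.SLZ.StS

/-!
# SLZ, module SD (helper47): two zigzags in a double complex
-/

set_option autoImplicit false
set_option linter.unusedVariables false

noncomputable section

namespace Pool.Agent.SLZ

/-- the zigzag -/
theorem SD_zig {X : Type} [AddCommGroup X] {D : ℕ → ℕ → AddSubgroup X} {d e : X →+ X}
    (hdd : ∀ x, d (d x) = 0) (hee : ∀ x, e (e x) = 0) (hde : ∀ x, d (e x) = e (d x))
    (hd : ∀ a b, ∀ x ∈ D (a + 1) b, d x ∈ D a b) (he : ∀ a b, ∀ x ∈ D a (b + 1), e x ∈ D a b)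
    (hd0 : ∀ b, ∀ x ∈ D 0 b, d x = 0) : ∀ (a b : ℕ), 1 ≤ b →
    (∀ a' b', a' < a → a' + b' + 1 = a + b → ∀ z ∈ D a' b', e z = 0 → ∃ y ∈ D a' (b' + 1), e y = z) →
    (∀ a' b', a' < a → 2 ≤ b' → a' + b' = a + b → ∀ z ∈ D a' b', d z = 0 →
      ∃ y ∈ D (a' + 1) b', d y = z) →
    ∀ y ∈ D a b, e (d y) = 0 → ∃ w ∈ D a (b + 1), d (y - e w) = 0 := by
  intro a
  induction a with
  | zero =>
    intro b _ _ _ y hy _
    exact ⟨0, AddSubgroup.zero_mem _, by rw [map_zero, sub_zero]; exact hd0 b y hy⟩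
  | succ a ih =>
    intro b hb hr hc y hy hey
    obtain ⟨y₂, hy₂, h1⟩ := hr a b (Nat.lt_succ_self a) (by omega) (d y) (hd a b y hy) hey
    obtain ⟨w₂, hw₂, h2⟩ := ih (b + 1) (by omega)
      (fun a' b' ha' hab z hz hz0 => hr a' b' (by omega) (by omega) z hz hz0)
      (fun a' b' ha' hb' hab z hz hz0 => hc a' b' (by omega) hb' (by omega) z hz hz0) y₂ hy₂
      (by rw [← hde, h1, hdd])
    obtain ⟨w, hw, h3⟩ := hc a (b + 1) (Nat.lt_succ_self a) (by omega) (by omega) (y₂ - e w₂)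
      (AddSubgroup.sub_mem _ hy₂ (he a (b + 1) w₂ hw₂)) h2
    refine ⟨w, hw, ?_⟩
    rw [map_sub, hde, h3, map_sub, hee, sub_zero, h1, sub_self]

/-- **SD.** Two zigzags in a double complex. -/
theorem thm_SD : St_SD := by
  intro X _ D d e hdd hee hde hd he hd0 he0 j hr hc
  constructor
  · intro z hz hdz
    obtain ⟨y, hy, h1⟩ := hr j 0 (by omega) z hz (he0 j z hz)
    obtain ⟨w, hw, h2⟩ := SD_zig hdd hee hde hd he hd0 j 1 le_rfl
      (fun a' b' ha' hab z hz hz0 => hr a' b' (by omega) z hz hz0)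
      (fun a' b' ha' hb' hab z hz hz0 => hc a' b' ha' hb' (by omega) z hz hz0) y hy
      (by rw [← hde, h1, hdz])
    refine ⟨y - e w, AddSubgroup.sub_mem _ hy (he j 1 w hw), h2, ?_⟩
    rw [map_sub, hee, sub_zero, h1]
  · intro z hz hdz x hx hzx
    obtain ⟨x₁, hx₁, h1⟩ := hr (j + 1) 0 (by omega) x hx (he0 (j + 1) x hx)
    obtain ⟨y, hy, h2⟩ := hr j 1 (by omega) (z - d x₁)
      (AddSubgroup.sub_mem _ hz (hd j 1 x₁ hx₁)) (by rw [map_sub, ← hde, h1, hzx, sub_self])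
    obtain ⟨w, hw, h3⟩ := SD_zig hdd hee hde hd he hd0 j 2 (by omega)
      (fun a' b' ha' hab z hz hz0 => hr a' b' (by omega) z hz hz0)
      (fun a' b' ha' hb' hab z hz hz0 => hc a' b' ha' hb' (by omega) z hz hz0) y hy
      (by rw [← hde, h2, map_sub, hdz, hdd, sub_zero])
    refine ⟨y - e w, AddSubgroup.sub_mem _ hy (he j 2 w hw), h3, x₁, hx₁, ?_⟩
    rw [map_sub, hee, sub_zero, h2, sub_add_cancel]

end Pool.Agent.SLZ
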