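import Pool.Agent.SLZ.StS
import Pool.Agent.SLZ.MA

/-!
# SLZ, SE: the columns are exact (helper24)
-/

set_option autoImplicit false
set_option linter.unusedVariables false

noncomputable section

namespace Pool.Agent.SLZ

theorem SE_SS_inj {R : Type} [CommRing R] (L : LSys R) {n N : ℕ} (h : n ≤ N) :
    Function.Injective (L.SS h) :=
  Nat.leRecOn_injective (C := L.V) h (fun {k} => L.s k) fun k => L.s_inj k

theorem SE_ex_image {V W : Type} (A : Cx V) (B : Cx W) (φ : V → W) (hφ : Function.Injective φ)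
    (hB : ∀ l : List W, l ∈ B.s ↔ ∃ l0 ∈ A.s, l = l0.map φ) (a : ℕ) (hA : Ex A a) : Ex B a := by
  classical
  have hm : Function.Injective (List.map φ) := List.map_injective_iff.2 hφ
  have hbd := (thm_MA V).2.2.2.1 W φ
  intro z hz hbz
  have hsub : (z.support : Set (List W)) ⊆ Set.range (List.map φ) := by
    intro l hl
    have h1 := (Finsupp.mem_supported ℤ z).1 hz hl
    obtain ⟨l0, _, h2⟩ := (hB l).1 h1.1
    exact ⟨l0, h2.symm⟩
  have hz0 : Finsupp.mapDomain (List.map φ) (z.comapDomain (List.map φ) hm.injOn) = z :=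
    Finsupp.mapDomain_comapDomain (List.map φ) hm z hsub
  have hz1 : z.comapDomain (List.map φ) hm.injOn ∈ Ch A.s a := by
    refine (Finsupp.mem_supported ℤ _).2 ?_
    intro l hl
    have h1 : z (l.map φ) ≠ 0 := by
      have := Finsupp.mem_support_iff.1 hl
      rwa [Finsupp.comapDomain_apply] at this
    have h2 := (Finsupp.mem_supported ℤ z).1 hz (Finsupp.mem_support_iff.2 h1)
    obtain ⟨l0, h3, h4⟩ := (hB _).1 h2.1
    have h5 : l = l0 := hm h4
    subst h5
    exact ⟨h3, by simpa using h2.2⟩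
  have hz2 : bd (z.comapDomain (List.map φ) hm.injOn) = 0 := by
    refine Finsupp.mapDomain_injective hm ?_
    rw [← hbd, hz0, hbz, Finsupp.mapDomain_zero]
  obtain ⟨y, hy, hy2⟩ := hA _ hz1 hz2
  refine ⟨y.mapDomain (List.map φ), ?_, ?_⟩
  · refine (Finsupp.mem_supported ℤ _).2 ?_
    intro l hl
    have h1 := Finsupp.mapDomain_support hl
    obtain ⟨l0, h2, rfl⟩ := Finset.mem_image.1 h1
    have h3 := (Finsupp.mem_supported ℤ y).1 hy h2
    exact ⟨(hB _).2 ⟨l0, h3.1, rfl⟩, by simpa using h3.2⟩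
  · rw [hbd, hy2, hz0]

/-- **SE** -/
theorem thm_SE (hC : St_SC) : St_SE := by
  intro R _ L N a m hK
  by_cases hm : (([] : List (L.V N)), m) ∈ L.Bi N
  · obtain ⟨n, h, g, h1, _, _, h4⟩ := hC R L N m hm
    refine SE_ex_image (L.K n) ((L.BX N).col m) (fun y => g • L.SS h y) ?_ h4 a (hK n h h1)
    intro x y hxy
    exact SE_SS_inj L h (MulAction.injective g hxy)
  · intro z hz _
    have hz0 : z = 0 := by
      rw [← Finsupp.support_eq_empty]
      refine Finset.eq_empty_of_forall_notMem fun l hl => ?_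
      have h1 := (Finsupp.mem_supported ℤ z).1 hz hl
      exact hm ((L.BX N).mono1 l [] m (List.nil_subset l) h1.1)
    exact ⟨0, (Ch _ _).zero_mem, by rw [map_zero, hz0]⟩

end Pool.Agent.SLZ
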