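import Pool.Agent.SLZ.StS

/-!
# SLZ: module SH, the map on the vertical cycles over lists of length one
-/

set_option autoImplicit false

noncomputable section

namespace Pool.Agent.SLZ

theorem SH_ext {α M : Type} [AddCommGroup M] (s : Set α) (f g : (α →₀ ℤ) →ₗ[ℤ] M)
    (h : ∀ a ∈ s, f (Finsupp.single a 1) = g (Finsupp.single a 1)) :
    ∀ z ∈ Finsupp.supported ℤ ℤ s, f z = g z := by
  intro z hz
  rw [Finsupp.supported_eq_span_single] at hz
  refine LinearMap.eqOn_span (s := (fun i => Finsupp.single i (1 : ℤ)) '' s) ?_ hz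
  rintro _ ⟨a, ha, rfl⟩
  exact h a ha

theorem SH_mem {α M : Type} [AddCommGroup M] (s : Set α) (f : (α →₀ ℤ) →ₗ[ℤ] M)
    (N : Submodule ℤ M) (h : ∀ a ∈ s, f (Finsupp.single a 1) ∈ N) :
    ∀ z ∈ Finsupp.supported ℤ ℤ s, f z ∈ N := by
  intro z hz
  rw [Finsupp.supported_eq_span_single] at hz
  have h1 : Submodule.span ℤ ((fun i => Finsupp.single i (1 : ℤ)) '' s) ≤ N.comap f := by
    rw [Submodule.span_le]
    rintro _ ⟨a, ha, rfl⟩
    exact h a ha
  exact h1 hz

theorem SH_bdL_map {V W : Type} (φ : V → W) : ∀ l : List V,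
    bdL (l.map φ) = Finsupp.mapDomain (List.map φ) (bdL l)
  | [] => by simp [bdL]
  | v :: l => by
    show Finsupp.single (l.map φ) (1 : ℤ) - consC (φ v) (bdL (l.map φ)) = _
    rw [SH_bdL_map φ l]
    show _ = Finsupp.mapDomain (List.map φ) (Finsupp.single l (1 : ℤ) - consC v (bdL l))
    have h1 : Finsupp.mapDomain (List.map φ) (Finsupp.single l (1 : ℤ) - consC v (bdL l)) =
        Finsupp.mapDomain (List.map φ) (Finsupp.single l (1 : ℤ)) -
          Finsupp.mapDomain (List.map φ) (consC v (bdL l)) :=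
      (Finsupp.lmapDomain ℤ ℤ (List.map φ)).map_sub _ _
    rw [h1, Finsupp.mapDomain_single]
    congr 1
    show Finsupp.mapDomain (List.cons (φ v)) (Finsupp.mapDomain (List.map φ) (bdL l)) =
      Finsupp.mapDomain (List.map φ) (Finsupp.mapDomain (List.cons v) (bdL l))
    rw [← Finsupp.mapDomain_comp, ← Finsupp.mapDomain_comp]
    rfl

theorem SH_bd_single {V : Type} (l : List V) : bd (Finsupp.single l 1) = bdL l := by
  unfold bd
  rw [Finsupp.lift_apply, Finsupp.sum_single_index (by rw [zero_smul]), one_smul]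

theorem SH_bd1_single {V W : Type} (x : List V × List W) :
    bd1 (Finsupp.single x 1) = Finsupp.mapDomain (fun l => (l, x.2)) (bdL x.1) := by
  unfold bd1
  rw [Finsupp.lift_apply, Finsupp.sum_single_index (by rw [zero_smul]), one_smul]

/-- matrices which fix the last pair -/
theorem SH_fix {R : Type} [CommRing R] {N : ℕ} (x : GLn R (N + 1))
    (hx : frA x (stF (Fin.last N)) = stF (Fin.last N)) :
    ∃ x0 : GLn R N, x.1 = lmat N (N + 1) x0.1 := by
  have h1 : x.1.mulVec (Pi.single (Fin.last N) 1) = Pi.single (Fin.last N) 1 :=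
    congrArg Prod.fst hx
  have h2 : Matrix.vecMul (Pi.single (Fin.last N) 1) (x⁻¹).1 = Pi.single (Fin.last N) 1 :=
    congrArg Prod.snd hx
  have h3 : (x⁻¹).1.mulVec (Pi.single (Fin.last N) 1) = Pi.single (Fin.last N) 1 := by
    have := congrArg (fun v => (x⁻¹).1.mulVec v) h1
    simp only [Matrix.mulVec_mulVec, Units.inv_mul, Matrix.one_mulVec] at this
    exact this.symm
  have h4 : Matrix.vecMul (Pi.single (Fin.last N) 1) x.1 = Pi.single (Fin.last N) 1 := by
    have := congrArg (fun v => Matrix.vecMul v x.1) h2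
    simp only [Matrix.vecMul_vecMul, Units.inv_mul, Matrix.vecMul_one] at this
    exact this.symm
  -- entries
  have key : ∀ m : Matrix (Fin (N + 1)) (Fin (N + 1)) R,
      m.mulVec (Pi.single (Fin.last N) 1) = Pi.single (Fin.last N) 1 →
      Matrix.vecMul (Pi.single (Fin.last N) 1) m = Pi.single (Fin.last N) 1 →
      (∀ i, m i (Fin.last N) = if i = Fin.last N then 1 else 0) ∧
      ∀ i, m (Fin.last N) i = if i = Fin.last N then 1 else 0 := by
    intro m ha hb
    constructor
    · intro i
      have := congrFun ha i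
      rw [Matrix.mulVec_single_one] at this
      rw [Matrix.col_apply] at this
      rw [this, Pi.single_apply]
    · intro i
      have := congrFun hb i
      rw [Matrix.single_one_vecMul] at this
      rw [Matrix.row_apply] at this
      rw [this, Pi.single_apply]
  obtain ⟨k1, k2⟩ := key x.1 h1 h4
  obtain ⟨k3, k4⟩ := key (x⁻¹).1 h3 h2
  -- the small matrices
  have hsm : ∀ m m' : Matrix (Fin (N + 1)) (Fin (N + 1)) R,
      (∀ i, m i (Fin.last N) = if i = Fin.last N then 1 else 0) → m * m' = 1 →
      (Matrix.of fun i j : Fin N => m i.castSucc j.castSucc) *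
        (Matrix.of fun i j : Fin N => m' i.castSucc j.castSucc) = 1 := by
    intro m m' hm hmm
    ext i j
    rw [Matrix.mul_apply]
    have h5 := congrFun (congrFun hmm i.castSucc) j.castSucc
    rw [Matrix.mul_apply, Fin.sum_univ_castSucc, hm i.castSucc,
      if_neg (Fin.castSucc_lt_last i).ne, zero_mul, add_zero] at h5
    simp only [Matrix.of_apply]
    rw [h5, Matrix.one_apply, Matrix.one_apply]
    simp only [Fin.castSucc_inj]
  let x0 : GLn R N :=
    ⟨Matrix.of fun i j : Fin N => x.1 i.castSucc j.castSucc,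
      Matrix.of fun i j : Fin N => (x⁻¹).1 i.castSucc j.castSucc,
      hsm x.1 (x⁻¹).1 k1 (Units.mul_inv x), hsm (x⁻¹).1 x.1 k3 (Units.inv_mul x)⟩
  refine ⟨x0, ?_⟩
  -- products with the blocks
  have e1 : ∀ i j : Fin (N + 1), (blk R (N + 1) N 0 * cblk R N (N + 1) 0) i j =
      if i = j ∧ i.val < N then 1 else 0 := by
    intro i j
    rw [Matrix.mul_apply]
    by_cases h : i.val < N
    · rw [Finset.sum_eq_single (⟨i.val, h⟩ : Fin N)]
      · simp only [blk, cblk, zero_add, if_true, one_mul, and_iff_left h]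
        by_cases hij : i = j
        · subst hij; simp
        · rw [if_neg, if_neg hij]
          intro h'
          exact hij (Fin.ext h'.symm)
      · intro k _ hk
        have : ¬ (i.val = 0 + k.val) := by
          intro h'
          apply hk
          apply Fin.ext
          show k.val = i.val
          omega
        simp only [blk, if_neg this, zero_mul]
      · intro h'
        exact absurd (Finset.mem_univ _) h'
    · rw [if_neg (fun h' => h h'.2)]
      apply Finset.sum_eq_zero
      intro k _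
      have : ¬ (i.val = 0 + k.val) := by
        have := k.2
        omega
      simp only [blk, if_neg this, zero_mul]
  have e2 : ∀ i j : Fin N, (blk R (N + 1) N 0 * x0.1 * cblk R N (N + 1) 0) i.castSucc j.castSucc =
      x0.1 i j := by
    intro i j
    rw [Matrix.mul_apply, Finset.sum_eq_single j]
    · rw [Matrix.mul_apply, Finset.sum_eq_single i]
      · simp [blk, cblk]
      · intro k _ hk
        have : ¬ (i.castSucc.val = 0 + k.val) := by
          intro h'
          apply hk
          apply Fin.ext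
          have : i.castSucc.val = i.val := rfl
          omega
        simp only [blk, if_neg this, zero_mul]
      · intro h'
        exact absurd (Finset.mem_univ _) h'
    · intro k _ hk
      have : ¬ (j.castSucc.val = 0 + k.val) := by
        intro h'
        apply hk
        apply Fin.ext
        have : j.castSucc.val = j.val := rfl
        omega
      simp only [cblk, if_neg this, mul_zero]
    · intro h'
      exact absurd (Finset.mem_univ _) h'
  have e3 : ∀ (i : Fin (N + 1)), (blk R (N + 1) N 0 * x0.1 * cblk R N (N + 1) 0) i (Fin.last N) = 0 := by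
    intro i
    rw [Matrix.mul_apply]
    apply Finset.sum_eq_zero
    intro k _
    have : ¬ ((Fin.last N).val = 0 + k.val) := by
      have := k.2
      rw [Fin.val_last]
      omega
    simp only [cblk, if_neg this, mul_zero]
  have e4 : ∀ (i : Fin (N + 1)), (blk R (N + 1) N 0 * x0.1 * cblk R N (N + 1) 0) (Fin.last N) i = 0 := by
    intro i
    rw [Matrix.mul_assoc, Matrix.mul_apply]
    apply Finset.sum_eq_zero
    intro k _
    have : ¬ ((Fin.last N).val = 0 + k.val) := by
      have := k.2
      rw [Fin.val_last]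
      omega
    simp only [blk, if_neg this, zero_mul]
  ext i j
  unfold lmat
  rw [Matrix.add_apply, Matrix.sub_apply, e1, Matrix.one_apply]
  refine Fin.lastCases ?_ (fun i' => ?_) i
  · rw [e4, k2 j]
    by_cases hj : j = Fin.last N
    · subst hj
      simp
    · rw [if_neg hj, if_neg (Ne.symm hj)]
      rw [if_neg (fun h' => hj h'.1.symm)]
      simp
  · refine Fin.lastCases ?_ (fun j' => ?_) j
    · rw [e3, k1]
      have : i'.castSucc ≠ Fin.last N := (Fin.castSucc_lt_last i').ne
      rw [if_neg this, if_neg (fun h' => this h'.1)]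
      simp
    · rw [e2]
      show x.1 i'.castSucc j'.castSucc = x.1 i'.castSucc j'.castSucc + _
      by_cases hij : i'.castSucc = j'.castSucc
      · rw [if_pos hij, if_pos ⟨hij, i'.2⟩]
        simp
      · rw [if_neg hij, if_neg (fun h' => hij h'.1)]
        simp

theorem SH_frA_mul {R : Type} [CommRing R] {N : ℕ} (g h : GLn R N) (f : Fr R N) :
    frA (g * h) f = frA g (frA h f) := by
  unfold frA
  refine Prod.ext ?_ ?_
  · show (g * h).1.mulVec f.1 = g.1.mulVec (h.1.mulVec f.1)
    rw [Matrix.mulVec_mulVec]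
    rfl
  · show Matrix.vecMul f.2 ((g * h)⁻¹).1 = Matrix.vecMul (Matrix.vecMul f.2 (h⁻¹).1) (g⁻¹).1
    rw [Matrix.vecMul_vecMul, mul_inv_rev]
    rfl

theorem SH_frA_one {R : Type} [CommRing R] {N : ℕ} (f : Fr R N) : frA (1 : GLn R N) f = f := by
  unfold frA
  refine Prod.ext ?_ ?_
  · show (1 : GLn R N).1.mulVec f.1 = f.1
    rw [Units.val_one, Matrix.one_mulVec]
  · show Matrix.vecMul f.2 ((1 : GLn R N)⁻¹).1 = f.2
    rw [inv_one, Units.val_one, Matrix.vecMul_one]

section

variable {R : Type} [CommRing R] (L : LSys R) (N : ℕ)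

/-- `g` describes the column of `[f]` -/
def SH_Good (f : Fr R (N + 1)) (g : GLn R (N + 1)) : Prop :=
  f = frA g (stF (Fin.last N)) ∧ ∀ l : List (L.V (N + 1)), (l, [f]) ∈ L.Bi (N + 1) ↔
    ∃ l0 : List (L.V N), l0 ∈ (L.K N).s ∧ l = l0.map (fun y => g • L.s N y)

theorem SH_good (hC : St_SC) (f : Fr R (N + 1)) (hf : ([], [f]) ∈ L.Bi (N + 1)) :
    ∃ g, SH_Good L N f g := by
  obtain ⟨n, h, g, h1, h2, h3, h4⟩ := hC R L (N + 1) [f] hf
  obtain ⟨j, hj, hfj⟩ := h2 f (List.mem_singleton.2 rfl)
  have hn : n = N := by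
    have h5 : N + 1 ≤ n + 1 := h1
    have h6 := j.2
    omega
  subst hn
  have hjl : j = Fin.last n := by
    apply Fin.ext
    have h6 := j.2
    rw [Fin.val_last]
    omega
  subst hjl
  refine ⟨g, hfj, ?_⟩
  intro l
  rw [h4]
  have hSS : ∀ y : L.V n, L.SS h y = L.s n y := fun y => Nat.leRecOn_succ' (C := L.V) y
  constructor
  · rintro ⟨l0, h5, h6⟩
    refine ⟨l0, h5, ?_⟩
    rw [h6]
    exact List.map_congr_left fun y _ => by rw [hSS]
  · rintro ⟨l0, h5, h6⟩
    refine ⟨l0, h5, ?_⟩
    rw [h6]
    exact List.map_congr_left fun y _ => by rw [hSS]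

theorem SH_inj (f : Fr R (N + 1)) (g : GLn R (N + 1)) :
    Function.Injective (fun l0 : List (L.V N) => (l0.map (fun y => g • L.s N y), [f])) := by
  intro l l' h
  have h1 := (Prod.mk.inj h).1
  refine List.map_injective_iff.2 ?_ h1
  intro x y hxy
  exact L.s_inj N (MulAction.injective g hxy)

/-- the part over `f`, pulled back by `g s` -/
def SH_rho (f : Fr R (N + 1)) (g : GLn R (N + 1)) :
    (List (L.V (N + 1)) × List (Fr R (N + 1)) →₀ ℤ) →ₗ[ℤ] (List (L.V N) →₀ ℤ) :=
  Finsupp.lcomapDomain (fun l0 : List (L.V N) => (l0.map (fun y => g • L.s N y), [f]))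
    (SH_inj L N f g)

theorem SH_rho_apply (f : Fr R (N + 1)) (g : GLn R (N + 1))
    (z : List (L.V (N + 1)) × List (Fr R (N + 1)) →₀ ℤ) (l0 : List (L.V N)) :
    SH_rho L N f g z l0 = z (l0.map (fun y => g • L.s N y), [f]) := rfl

theorem SH_rho_map (f : Fr R (N + 1)) (g : GLn R (N + 1)) (z : List (L.V N) →₀ ℤ) :
    SH_rho L N f g (Finsupp.mapDomain
      (fun l0 : List (L.V N) => (l0.map (fun y => g • L.s N y), [f])) z) = z := by
  ext l0
  rw [SH_rho_apply]
  exact Finsupp.mapDomain_apply (SH_inj L N f g) z l0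

theorem SH_rho_ne (f f' : Fr R (N + 1)) (hff : f' ≠ f) (g : GLn R (N + 1)) {U : Type}
    (φ : U → List (L.V (N + 1))) (z : U →₀ ℤ) :
    SH_rho L N f g (Finsupp.mapDomain (fun u => (φ u, [f'])) z) = 0 := by
  ext l0
  rw [SH_rho_apply, Finsupp.mapDomain_notin_range]
  · rfl
  · rintro ⟨u, hu⟩
    have := (Prod.mk.inj hu).2
    exact hff (List.singleton_inj.1 this)

theorem SH_rho_single_ne (f f' : Fr R (N + 1)) (hff : f' ≠ f) (g : GLn R (N + 1))
    (l : List (L.V (N + 1))) :
    SH_rho L N f g (Finsupp.single (l, [f']) 1) = 0 := by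
  have := SH_rho_ne L N f f' hff g (U := Unit) (fun _ => l) (Finsupp.single () 1)
  rwa [Finsupp.mapDomain_single] at this

theorem SH_rho_single (f : Fr R (N + 1)) (g : GLn R (N + 1)) (l0 : List (L.V N)) :
    SH_rho L N f g (Finsupp.single (l0.map (fun y => g • L.s N y), [f]) 1) =
      Finsupp.single l0 1 := by
  have := SH_rho_map L N f g (Finsupp.single l0 1)
  rwa [Finsupp.mapDomain_single] at this

theorem SH_rho_Ch (f : Fr R (N + 1)) (g : GLn R (N + 1)) (hg : SH_Good L N f g) (k : ℕ) :
    ∀ z ∈ DD (L.BX (N + 1)).s k 1, SH_rho L N f g z ∈ Ch (L.K N).s k := by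
  refine SH_mem _ _ _ ?_
  rintro ⟨l, m⟩ ⟨h1, h2, h3⟩
  obtain ⟨f', rfl⟩ := List.length_eq_one_iff.1 h3
  by_cases hff : f' = f
  · subst hff
    obtain ⟨l0, h4, rfl⟩ := (hg.2 l).1 h1
    rw [SH_rho_single]
    refine Finsupp.single_mem_supported ℤ 1 ⟨h4, ?_⟩
    rw [← h2, List.length_map]
  · rw [SH_rho_single_ne L N f f' hff]
    exact Submodule.zero_mem _

theorem SH_rho_bd (f : Fr R (N + 1)) (g : GLn R (N + 1)) (hg : SH_Good L N f g) (k : ℕ) :
    ∀ z ∈ DD (L.BX (N + 1)).s k 1, bd (SH_rho L N f g z) = SH_rho L N f g (bd1 z) := by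
  refine SH_ext _ (bd ∘ₗ SH_rho L N f g) (SH_rho L N f g ∘ₗ bd1) ?_
  rintro ⟨l, m⟩ ⟨h1, h2, h3⟩
  obtain ⟨f', rfl⟩ := List.length_eq_one_iff.1 h3
  show bd (SH_rho L N f g (Finsupp.single (l, [f']) 1)) =
    SH_rho L N f g (bd1 (Finsupp.single (l, [f']) 1))
  rw [SH_bd1_single]
  by_cases hff : f' = f
  · subst hff
    obtain ⟨l0, h4, rfl⟩ := (hg.2 l).1 h1
    rw [SH_rho_single, SH_bd_single]
    show _ = SH_rho L N f' g (Finsupp.mapDomain (fun l => (l, [f']))
      (bdL (l0.map (fun y => g • L.s N y))))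
    rw [SH_bdL_map, ← Finsupp.mapDomain_comp]
    exact (SH_rho_map L N f' g (bdL l0)).symm
  · rw [SH_rho_single_ne L N f f' hff, map_zero]
    exact (SH_rho_ne L N f f' hff g (fun l => l) (bdL l)).symm

/-- the part over `f` as a cycle -/
def SH_cyc (f : Fr R (N + 1)) (g : GLn R (N + 1)) (hg : SH_Good L N f g) (j : ℕ) :
    (↥(DD (L.BX (N + 1)).s j 1 ⊓ LinearMap.ker bd1)) →+ Cyc (L.K N) j where
  toFun y := ⟨SH_rho L N f g y.1, by
    refine ⟨SH_rho_Ch L N f g hg j y.1 y.2.1, ?_⟩
    have h : bd1 y.1 = 0 := LinearMap.mem_ker.1 y.2.2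
    show bd (SH_rho L N f g y.1) = 0
    rw [SH_rho_bd L N f g hg j y.1 y.2.1, h, map_zero]⟩
  map_zero' := Subtype.ext (map_zero _)
  map_add' y y' := Subtype.ext (map_add _ _ _)

end

theorem thm_SH (hC : St_SC) : St_SH := by
  classical
  intro R _ L j S cl hH N X _ b hb
  have hG := SH_good L N hC
  let T : Fr R (N + 1) → ((↥(DD (L.BX (N + 1)).s j 1 ⊓ LinearMap.ker bd1)) →+ X) := fun f =>
    if h : ([], [f]) ∈ L.Bi (N + 1) then
      (b (hG f h).choose).comp ((cl N).comp (SH_cyc L N f (hG f h).choose (hG f h).choose_spec j))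
    else 0
  have hTpos : ∀ (f : Fr R (N + 1)) (h : ([], [f]) ∈ L.Bi (N + 1)) y, T f y =
      b (hG f h).choose (cl N (SH_cyc L N f (hG f h).choose (hG f h).choose_spec j y)) := by
    intro f h y
    show (dite _ _ _ : _ →+ X) y = _
    rw [dif_pos h]
    rfl
  have hTneg : ∀ (f : Fr R (N + 1)) (_ : ([], [f]) ∉ L.Bi (N + 1)) y, T f y = 0 := by
    intro f h y
    show (dite _ _ _ : _ →+ X) y = _
    rw [dif_neg h]
    rfl
  have hT0 : ∀ (f : Fr R (N + 1)) (y : ↥(DD (L.BX (N + 1)).s j 1 ⊓ LinearMap.ker bd1)),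
      (∀ l, y.1 (l, [f]) = 0) → T f y = 0 := by
    intro f y hy
    by_cases h : ([], [f]) ∈ L.Bi (N + 1)
    · rw [hTpos f h]
      have : SH_cyc L N f (hG f h).choose (hG f h).choose_spec j y = 0 := by
        apply Subtype.ext
        show SH_rho L N f _ y.1 = 0
        ext l0
        rw [SH_rho_apply, hy]
        rfl
      rw [this, map_zero, map_zero]
    · exact hTneg f h y
  have hfin : ∀ y, (Function.support fun f => T f y).Finite := by
    intro y
    have h1 : (Set.image Prod.snd (y.1.support : Set (List (L.V (N + 1)) × List (Fr R (N + 1))))).Finite :=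
      (Finset.finite_toSet _).image _
    have h2 : (Set.preimage (fun f : Fr R (N + 1) => [f])
        (Set.image Prod.snd (y.1.support : Set (List (L.V (N + 1)) × List (Fr R (N + 1)))))).Finite :=
      h1.preimage (fun a _ c _ h => List.singleton_inj.1 h)
    refine h2.subset ?_
    intro f hf
    by_contra hcon
    apply hf
    apply hT0
    intro l
    by_contra hl
    apply hcon
    exact ⟨(l, [f]), Finsupp.mem_support_iff.2 hl, rfl⟩
  let θ : (↥(DD (L.BX (N + 1)).s j 1 ⊓ LinearMap.ker bd1)) →+ X :=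
    { toFun := fun y => ∑ᶠ f, T f y
      map_zero' := by
        simp only [map_zero]
        exact finsum_zero
      map_add' := fun y y' => by
        simp only [map_add]
        exact finsum_add_distrib (hfin y) (hfin y') }
  refine ⟨θ, ?_, ?_⟩
  · intro g c y hy
    set f : Fr R (N + 1) := frA g (stF (Fin.last N)) with hf
    have h1 : θ y = T f y := by
      show ∑ᶠ f, T f y = T f y
      apply finsum_eq_single
      intro f' hf'
      apply hT0
      intro l
      rw [hy, Finsupp.mapDomain_notin_range]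
      rintro ⟨u, hu⟩
      have := (Prod.mk.inj hu).2
      exact hf' (List.singleton_inj.1 this).symm
    rw [h1]
    by_cases h : ([], [f]) ∈ L.Bi (N + 1)
    · rw [hTpos f h]
      set gf := (hG f h).choose with hgf
      have hgood := (hG f h).choose_spec
      rw [← hgf] at hgood
      have hfix : frA (gf⁻¹ * g) (stF (Fin.last N)) = stF (Fin.last N) := by
        rw [SH_frA_mul, ← hf, hgood.1, ← SH_frA_mul, inv_mul_cancel, SH_frA_one]
      obtain ⟨x0, hx0⟩ := SH_fix (gf⁻¹ * g) hfix
      have hgg : g = gf * (gf⁻¹ * g) := by group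
      have hz : (SH_cyc L N f gf hgood j y).1 = push (fun x => x0 • x) c.1 := by
        show SH_rho L N f gf y.1 = _
        rw [hy]
        have h5 : (fun l : List (L.V N) =>
            (l.map (fun x => g • L.s N x), [f])) =
            (fun l0 : List (L.V N) => (l0.map (fun y => gf • L.s N y), [f])) ∘
              (List.map fun x => x0 • x) := by
          funext l
          show (_, _) = (_, _)
          refine Prod.ext ?_ rfl
          show l.map (fun x => g • L.s N x) = (l.map fun x => x0 • x).map (fun y => gf • L.s N y)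
          rw [List.map_map]
          refine List.map_congr_left fun x _ => ?_
          show g • L.s N x = gf • L.s N (x0 • x)
          rw [L.s_smul N x0 (gf⁻¹ * g) hx0 x, ← mul_smul, ← hgg]
        rw [h5, Finsupp.mapDomain_comp]
        exact SH_rho_map L N f gf _
      have h6 := hH.smul N x0 c (SH_cyc L N f gf hgood j y) hz
      rw [← h6]
      have h7 := hb gf x0 (gf⁻¹ * g) hx0 (cl N c)
      rw [← h7, ← hgg]
    · have hK : ∀ l, l ∉ (L.K N).s := by
        intro l hl
        apply h
        have hnil : [] ∈ (L.K N).s := (L.K N).mono l [] (List.nil_subset l) hl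
        refine ⟨N, Nat.le_succ N, g, [], hnil, rfl, ?_⟩
        intro f' hf'
        rw [List.mem_singleton] at hf'
        subst hf'
        exact ⟨Fin.last N, by rw [Fin.val_last], hf⟩
      have hc : c = 0 := by
        apply Subtype.ext
        show c.1 = 0
        have h2 : c.1 ∈ Ch (L.K N).s j := c.2.1
        have h3 : {l : List (L.V N) | l ∈ (L.K N).s ∧ l.length = j} = ∅ := by
          ext l
          simp only [Set.mem_setOf_eq, Set.mem_empty_iff_false, iff_false]
          exact fun h' => hK l h'.1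
        unfold Ch at h2
        rw [h3, Finsupp.supported_empty] at h2
        exact (Submodule.mem_bot ℤ).1 h2
      rw [hTneg f h, hc, map_zero, map_zero]
  · intro y w hw hyw
    show ∑ᶠ f, T f y = 0
    have : ∀ f, T f y = 0 := by
      intro f
      by_cases h : ([], [f]) ∈ L.Bi (N + 1)
      · rw [hTpos f h]
        have hgood := (hG f h).choose_spec
        have hk : cl N (SH_cyc L N f (hG f h).choose (hG f h).choose_spec j y) = 0 := by
          rw [hH.ker]
          refine ⟨SH_rho L N f (hG f h).choose w, SH_rho_Ch L N f _ hgood (j + 1) w hw, ?_⟩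
          rw [SH_rho_bd L N f _ hgood (j + 1) w hw, ← hyw]
          rfl
        rw [hk, map_zero]
      · exact hTneg f h y
    simp only [this]
    exact finsum_zero

end Pool.Agent.SLZ
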