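import Pool.Agent.SLZ.StS
import Pool.Agent.SLZ.MA

/-!
# SLZ: SH3, central stability of the homology of a system of complexes of lattices
-/

set_option autoImplicit false
set_option linter.unusedVariables false

noncomputable section

namespace Pool.Agent.SLZ

namespace SH3

/-! ### linear maps on finitely supported functions -/

section Lin

theorem SH3_ext {B M : Type} [AddCommGroup M] (f g : (B →₀ ℤ) →ₗ[ℤ] M) (x : B →₀ ℤ)
    (h : ∀ b, x b ≠ 0 → f (Finsupp.single b 1) = g (Finsupp.single b 1)) : f x = g x := by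
  have key : ∀ f : (B →₀ ℤ) →ₗ[ℤ] M, f x = x.sum fun b m => m • f (Finsupp.single b 1) := by
    intro f
    conv_lhs => rw [← Finsupp.sum_single x]
    rw [Finsupp.sum, map_sum, Finsupp.sum]
    refine Finset.sum_congr rfl fun b _ => ?_
    rw [← map_smul, Finsupp.smul_single, smul_eq_mul, mul_one]
  rw [key f, key g, Finsupp.sum, Finsupp.sum]
  refine Finset.sum_congr rfl fun b hb => ?_
  rw [h b (Finsupp.mem_support_iff.1 hb)]

variable {V W : Type}

/-- `c ↦ c ⊗ m` -/
def inc (m : List W) : (List V →₀ ℤ) →ₗ[ℤ] (List V × List W →₀ ℤ) :=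
  Finsupp.lmapDomain ℤ ℤ fun l => (l, m)

theorem inj_pair (m : List W) : Function.Injective fun l : List V => (l, m) := by
  intro l l' h
  exact (Prod.mk.inj h).1

/-- the part with the second component `m` -/
def cpt (m : List W) : (List V × List W →₀ ℤ) →ₗ[ℤ] (List V →₀ ℤ) :=
  Finsupp.lcomapDomain (fun l => (l, m)) (inj_pair m)

/-- forget the second component -/
def tau : (List V × List W →₀ ℤ) →ₗ[ℤ] (List V →₀ ℤ) := Finsupp.lmapDomain ℤ ℤ Prod.fst

theorem inc_apply (m : List W) (c : List V →₀ ℤ) : inc m c = c.mapDomain fun l => (l, m) := rfl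

theorem inc_single (m : List W) (l : List V) (a : ℤ) :
    inc m (Finsupp.single l a) = Finsupp.single (l, m) a := by
  rw [inc_apply, Finsupp.mapDomain_single]

theorem tau_single (x : List V × List W) (a : ℤ) :
    tau (Finsupp.single x a) = Finsupp.single x.1 a := by
  unfold tau
  rw [Finsupp.lmapDomain_apply, Finsupp.mapDomain_single]

theorem cpt_apply (m : List W) (y : List V × List W →₀ ℤ) (l : List V) : cpt m y l = y (l, m) := rfl

theorem inc_coe (m m' : List W) (c : List V →₀ ℤ) (l : List V) [Decidable (m = m')] :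
    inc m c (l, m') = if m = m' then c l else 0 := by
  split_ifs with h
  · subst h
    rw [inc_apply, Finsupp.mapDomain_apply (inj_pair m)]
  · rw [inc_apply, Finsupp.mapDomain_of_notMem_range]
    rintro ⟨l', hl'⟩
    exact h (Prod.mk.inj hl').2

theorem tau_inc (m : List W) (c : List V →₀ ℤ) : tau (inc m c) = c := by
  unfold tau inc
  rw [Finsupp.lmapDomain_apply, Finsupp.lmapDomain_apply, ← Finsupp.mapDomain_comp]
  exact Finsupp.mapDomain_id

theorem bd1_single (l : List V) (m : List W) :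
    bd1 (Finsupp.single (l, m) 1) = inc m (bd (Finsupp.single l 1)) := by
  unfold bd1
  rw [Finsupp.lift_apply, Finsupp.sum_single_index (by rw [zero_smul]), one_smul, MA_bd1, inc_apply]

theorem bd2_single (l : List V) (m : List W) :
    bd2 (Finsupp.single (l, m) 1) = (bdL m).mapDomain fun m' => (l, m') := by
  unfold bd2
  rw [Finsupp.lift_apply, Finsupp.sum_single_index (by rw [zero_smul]), one_smul]

theorem bd1_inc (m : List W) (c : List V →₀ ℤ) : bd1 (inc m c) = inc m (bd c) := by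
  have : (bd1 ∘ₗ inc m) c = (inc m ∘ₗ bd) c := by
    refine SH3_ext _ _ _ fun l _ => ?_
    rw [LinearMap.comp_apply, LinearMap.comp_apply, inc_single, bd1_single]
  exact this

theorem tau_bd1 (y : List V × List W →₀ ℤ) : tau (bd1 y) = bd (tau y) := by
  have : (tau ∘ₗ bd1) y = (bd ∘ₗ tau) y := by
    refine SH3_ext _ _ _ fun x _ => ?_
    rw [LinearMap.comp_apply, LinearMap.comp_apply, tau_single, bd1_single, tau_inc]
  exact this

theorem cpt_inc [DecidableEq (List W)] (m m' : List W) (c : List V →₀ ℤ) :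
    cpt m (inc m' c) = if m' = m then c else 0 := by
  ext l
  rw [cpt_apply, inc_coe]
  split_ifs <;> rfl

theorem cpt_bd1 (m : List W) (y : List V × List W →₀ ℤ) : cpt m (bd1 y) = bd (cpt m y) := by
  classical
  have : (cpt m ∘ₗ bd1) y = (bd ∘ₗ cpt m) y := by
    refine SH3_ext _ _ _ fun x _ => ?_
    obtain ⟨l, m'⟩ := x
    rw [LinearMap.comp_apply, LinearMap.comp_apply, bd1_single, cpt_inc, ← inc_single, cpt_inc]
    split_ifs
    · rfl
    · rw [map_zero]
  exact this

theorem dec [DecidableEq (List W)] (y : List V × List W →₀ ℤ) :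
    y = ∑ m ∈ y.support.image Prod.snd, inc m (cpt m y) := by
  ext x
  obtain ⟨l, m⟩ := x
  rw [Finsupp.finsetSum_apply]
  have h1 : ∀ m' ∈ y.support.image Prod.snd, inc m' (cpt m' y) (l, m) =
      if m' = m then y (l, m) else 0 := by
    intro m' _
    rw [inc_coe]
    split_ifs with h
    · subst h
      rfl
    · rfl
  rw [Finset.sum_congr rfl h1, Finset.sum_ite_eq']
  split_ifs with h
  · rfl
  · by_contra h2
    exact h (Finset.mem_image.2 ⟨(l, m), Finsupp.mem_support_iff.2 h2, rfl⟩)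

theorem mem_DD {B : Set (List V × List W)} {a b : ℕ} {y : List V × List W →₀ ℤ} :
    y ∈ DD B a b ↔ ∀ x, y x ≠ 0 → x ∈ B ∧ x.1.length = a ∧ x.2.length = b := by
  unfold DD
  rw [Finsupp.mem_supported]
  exact ⟨fun h x hx => h (Finsupp.mem_support_iff.2 hx),
    fun h x hx => h x (Finsupp.mem_support_iff.1 hx)⟩

theorem inc_mem {B : Set (List V × List W)} {a b : ℕ} {m : List W} {c : List V →₀ ℤ}
    (hm : m.length = b) (hc : ∀ l, c l ≠ 0 → (l, m) ∈ B ∧ l.length = a) : inc m c ∈ DD B a b := by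
  classical
  rw [mem_DD]
  rintro ⟨l, m'⟩ hx
  rw [inc_coe] at hx
  split_ifs at hx with h
  · subst h
    exact ⟨(hc l hx).1, (hc l hx).2, hm⟩
  · exact absurd rfl hx

theorem bd2_one {B : Set (List V × List W)} {a : ℕ} {y : List V × List W →₀ ℤ}
    (hy : y ∈ DD B a 1) : bd2 y = inc [] (tau y) := by
  rw [mem_DD] at hy
  have : bd2 y = (inc [] ∘ₗ tau) y := by
    refine SH3_ext _ _ _ fun x hx => ?_
    obtain ⟨l, m⟩ := x
    obtain ⟨-, -, h3⟩ := hy _ hx
    match m, h3 with
    | [f], _ =>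
      rw [LinearMap.comp_apply, tau_single, inc_single, bd2_single]
      simp [bdL, Finsupp.mapDomain_single]
  exact this

theorem bd2_two (f1 f2 : W) (c : List V →₀ ℤ) :
    bd2 (inc [f1, f2] c) = inc [f2] c - inc [f1] c := by
  have : (bd2 ∘ₗ inc [f1, f2]) c =
      (inc [f2] - inc [f1] : (List V →₀ ℤ) →ₗ[ℤ] (List V × List W →₀ ℤ)) c := by
    refine SH3_ext _ _ _ fun l _ => ?_
    rw [LinearMap.comp_apply, LinearMap.sub_apply, inc_single, inc_single, inc_single, bd2_single]
    have h1 : bdL [f1, f2] = Finsupp.single [f2] 1 - Finsupp.single [f1] 1 := by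
      simp [bdL, MA_consC]
    rw [h1]
    have h2 : (Finsupp.single [f2] 1 - Finsupp.single [f1] 1 : List W →₀ ℤ).mapDomain
        (fun m' => (l, m')) = Finsupp.lmapDomain ℤ ℤ (fun m' => (l, m'))
          (Finsupp.single [f2] 1 - Finsupp.single [f1] 1) := rfl
    rw [h2, map_sub, Finsupp.lmapDomain_apply, Finsupp.lmapDomain_apply, Finsupp.mapDomain_single,
      Finsupp.mapDomain_single]
  exact this

end Lin

/-! ### cycles -/

section Cycles

variable {V W : Type}

theorem push_apply (f : V → W) (c : List V →₀ ℤ) : push f c = c.mapDomain (List.map f) := rfl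

theorem mem_Ch {s : Set (List V)} {j : ℕ} {c : List V →₀ ℤ} :
    c ∈ Ch s j ↔ ∀ l, c l ≠ 0 → l ∈ s ∧ l.length = j := by
  rw [MA_mem]
  exact ⟨fun h l hl => h l (Finsupp.mem_support_iff.2 hl),
    fun h l hl => h l (Finsupp.mem_support_iff.1 hl)⟩

theorem bd_push (f : V → W) (c : List V →₀ ℤ) : bd (push f c) = push f (bd c) := MA_4 f c

theorem map_ne {A B : Type} {f : A → B} {c : A →₀ ℤ} {x : B}
    (h : c.mapDomain f x ≠ 0) : ∃ l, c l ≠ 0 ∧ f l = x := by
  classical
  have h1 := Finsupp.mapDomain_support (Finsupp.mem_support_iff.2 h)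
  obtain ⟨l, hl, hx⟩ := Finset.mem_image.1 h1
  exact ⟨l, Finsupp.mem_support_iff.1 hl, hx⟩

theorem mem_Cyc {K : Cx V} {j : ℕ} {c : List V →₀ ℤ} :
    c ∈ Cyc K j ↔ c ∈ Ch K.s j ∧ bd c = 0 := by
  unfold Cyc
  rw [Submodule.mem_inf, LinearMap.mem_ker]

theorem push_cyc {K : Cx V} {K' : Cx W} {j : ℕ} (f : V → W)
    (hf : ∀ l ∈ K.s, l.map f ∈ K'.s) {c : List V →₀ ℤ} (hc : c ∈ Cyc K j) :
    push f c ∈ Cyc K' j := by
  rw [mem_Cyc] at hc
  refine mem_Cyc.2 ⟨?_, ?_⟩
  · rw [mem_Ch]
    intro l hl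
    obtain ⟨l', hl', rfl⟩ := map_ne hl
    obtain ⟨h1, h2⟩ := mem_Ch.1 hc.1 l' hl'
    exact ⟨hf _ h1, by rw [List.length_map, h2]⟩
  · rw [bd_push, hc.2, map_zero]

/-- cycles which come from an injective map of vertices -/
theorem pull_cyc {K : Cx V} {j : ℕ} (f : V → W) (hf : Function.Injective f)
    (c : List W →₀ ℤ) (hc : ∀ l, c l ≠ 0 → l.length = j ∧ ∃ l0 ∈ K.s, l = l0.map f)
    (hb : bd c = 0) : ∃ c' : Cyc K j, c = push f c'.1 := by
  have hmf : Function.Injective (List.map f) := List.map_injective_iff.2 hf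
  have h1 : (Finsupp.comapDomain (List.map f) c hmf.injOn).mapDomain (List.map f) = c := by
    refine Finsupp.mapDomain_comapDomain _ hmf _ ?_
    intro l hl
    obtain ⟨-, l0, -, h0⟩ := hc l (Finsupp.mem_support_iff.1 hl)
    exact ⟨l0, h0.symm⟩
  refine ⟨⟨Finsupp.comapDomain (List.map f) c hmf.injOn, mem_Cyc.2 ⟨?_, ?_⟩⟩, h1.symm⟩
  · rw [mem_Ch]
    intro l hl
    rw [Finsupp.comapDomain_apply] at hl
    obtain ⟨h2, l0, h3, h4⟩ := hc _ hl
    rw [hmf h4]
    refine ⟨h3, ?_⟩
    rw [← hmf h4]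
    rwa [List.length_map] at h2
  · apply Finsupp.mapDomain_injective hmf
    have h5 := bd_push f (Finsupp.comapDomain (List.map f) c hmf.injOn)
    rw [push_apply, push_apply, h1, hb] at h5
    rw [← h5, Finsupp.mapDomain_zero]

theorem push_push {U : Type} (f : V → W) (g : W → U) (c : List V →₀ ℤ) :
    push g (push f c) = push (fun x => g (f x)) c := by
  rw [push_apply, push_apply, push_apply, ← Finsupp.mapDomain_comp]
  congr 1
  funext l
  rw [Function.comp_apply, List.map_map]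
  rfl

end Cycles

/-! ### parts of a chain of pairs -/

section Parts

variable {V W : Type}

theorem part_mem (B : Bx V W) (j b : ℕ) {Y : Type} [AddCommGroup Y]
    (F : ↥(DD B.s j b ⊓ LinearMap.ker bd1) →+ Y) (G : AddSubgroup Y)
    (h : ∀ (m : List W) (u : List V →₀ ℤ) (y : ↥(DD B.s j b ⊓ LinearMap.ker bd1)),
      m.length = b → ([], m) ∈ B.s → (∀ l, u l ≠ 0 → (l, m) ∈ B.s ∧ l.length = j) → bd u = 0 →
      y.1 = inc m u → F y ∈ G) (y : ↥(DD B.s j b ⊓ LinearMap.ker bd1)) : F y ∈ G := by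
  classical
  obtain ⟨h1, h2⟩ := Submodule.mem_inf.1 y.2
  rw [LinearMap.mem_ker] at h2
  rw [mem_DD] at h1
  have hP : ∀ m : List W, inc m (cpt m y.1) ∈ DD B.s j b ⊓ LinearMap.ker bd1 := by
    intro m
    refine Submodule.mem_inf.2 ⟨?_, ?_⟩
    · rw [mem_DD]
      rintro ⟨l, m'⟩ hx
      rw [inc_coe] at hx
      split_ifs at hx with hm
      · subst hm
        exact h1 (l, m) hx
      · exact absurd rfl hx
    · rw [LinearMap.mem_ker, bd1_inc, ← cpt_bd1, h2, map_zero, map_zero]
  have hy : y = ∑ m ∈ y.1.support.image Prod.snd,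
      (⟨inc m (cpt m y.1), hP m⟩ : ↥(DD B.s j b ⊓ LinearMap.ker bd1)) := by
    apply Subtype.ext
    rw [Submodule.coe_sum]
    exact dec y.1
  rw [hy, map_sum]
  refine G.sum_mem fun m hm => ?_
  obtain ⟨x, hx, hxm⟩ := Finset.mem_image.1 hm
  have hx' := h1 x (Finsupp.mem_support_iff.1 hx)
  refine h m (cpt m y.1) _ ?_ ?_ ?_ ?_ rfl
  · rw [← hxm]
    exact hx'.2.2
  · have h3 : (x.1, m) ∈ B.s := by
      rw [← hxm]
      exact hx'.1
    exact B.mono1 x.1 [] m (List.nil_subset _) h3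
  · intro l hl
    have := h1 (l, m) hl
    exact ⟨this.1, this.2.1⟩
  · rw [← cpt_bd1, h2, map_zero]

end Parts

/-! ### systems -/

section Systems

variable {R : Type} [CommRing R] (L : LSys R)

theorem SS_self (n : ℕ) (x : L.V n) : L.SS (le_refl n) x = x := Nat.leRecOn_self x

theorem SS_succ {n N : ℕ} (h : n ≤ N) (h' : n ≤ N + 1) (x : L.V n) :
    L.SS h' x = L.s N (L.SS h x) := Nat.leRecOn_succ h x

theorem SS_one {n : ℕ} (h : n ≤ n + 1) (x : L.V n) : L.SS h x = L.s n x := by
  rw [SS_succ L (le_refl n) h, SS_self]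

theorem SS_two {n : ℕ} (h : n ≤ n + 2) (x : L.V n) : L.SS h x = L.s (n + 1) (L.s n x) := by
  rw [SS_succ L (Nat.le_succ n) h, SS_one]

theorem SS_inj {n N : ℕ} (h : n ≤ N) : Function.Injective (L.SS h) := by
  induction N, h using Nat.le_induction with
  | base =>
    intro x y hxy
    rwa [SS_self, SS_self] at hxy
  | succ N h ih =>
    intro x y hxy
    rw [SS_succ L h, SS_succ L h] at hxy
    exact ih (L.s_inj N hxy)

theorem SS_K {n N : ℕ} (h : n ≤ N) (l : List (L.V n)) (hl : l ∈ (L.K n).s) :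
    l.map (L.SS h) ∈ (L.K N).s := by
  induction N, h using Nat.le_induction with
  | base =>
    have : L.SS (le_refl n) = id := funext fun x => SS_self L n x
    rw [this, List.map_id]
    exact hl
  | succ N h ih =>
    have : L.SS (le_trans h (Nat.le_succ N)) = L.s N ∘ L.SS h := funext fun x => SS_succ L h _ x
    rw [this, ← List.map_map]
    exact L.s_K N _ ih

theorem gS_K {n N : ℕ} (h : n ≤ N) (g : GLn R N) (l : List (L.V n)) (hl : l ∈ (L.K n).s) :
    l.map (fun y => g • L.SS h y) ∈ (L.K N).s := by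
  have := L.K_smul N g _ (SS_K L h l hl)
  rwa [List.map_map] at this

theorem Bi_K {N : ℕ} (l : List (L.V N)) (m : List (Fr R N)) (h : (l, m) ∈ L.Bi N) :
    l ∈ (L.K N).s := by
  obtain ⟨n, hn, g, l0, h0, h1, -⟩ := h
  rw [show l = l0.map (fun y => g • L.SS hn y) from h1]
  exact gS_K L hn g l0 h0

theorem K_Bi {N : ℕ} (l : List (L.V N)) (h : l ∈ (L.K N).s) : (l, []) ∈ L.Bi N := by
  refine ⟨N, le_refl N, 1, l, h, ?_, ?_⟩
  · show l = _
    have : (fun y => (1 : GLn R N) • L.SS (le_refl N) y) = id := by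
      funext y
      rw [one_smul, SS_self]
      rfl
    rw [this, List.map_id]
  · intro f hf
    exact absurd hf List.not_mem_nil

end Systems

/-! ### the swap of the last two basis vectors -/

section Swap

variable (R : Type) [CommRing R] (N : ℕ)

/-- the index `N` -/
def i0 : Fin (N + 2) := ⟨N, by omega⟩

/-- the swap -/
def sw : Equiv.Perm (Fin (N + 2)) := Equiv.swap (i0 N) (Fin.last (N + 1))

theorem sw_lt (i : Fin (N + 2)) (h : i.val < N) : sw N i = i := by
  refine Equiv.swap_apply_of_ne_of_ne ?_ ?_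
  · rintro rfl
    exact absurd h (lt_irrefl N)
  · rintro rfl
    rw [Fin.val_last] at h
    omega

theorem sw_i0 : sw N (i0 N) = Fin.last (N + 1) := Equiv.swap_apply_left _ _

theorem sw_last : sw N (Fin.last (N + 1)) = i0 N := Equiv.swap_apply_right _ _

theorem sw_sw (i : Fin (N + 2)) : sw N (sw N i) = i := Equiv.swap_apply_self _ _ i

theorem sw_val (i : Fin (N + 2)) (j : ℕ) (hj : j < N) : (sw N i).val = j ↔ i.val = j := by
  constructor
  · intro h
    have h1 := sw_lt N (sw N i) (by omega)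
    rw [sw_sw] at h1
    rw [h1]
    exact h
  · intro h
    rw [sw_lt N i (by omega)]
    exact h

/-- the matrix of the swap -/
def swM : Matrix (Fin (N + 2)) (Fin (N + 2)) R := fun i j => if sw N i = j then 1 else 0

theorem swM_mul {k : ℕ} (A : Matrix (Fin (N + 2)) (Fin k) R) (i : Fin (N + 2)) (j : Fin k) :
    (swM R N * A) i j = A (sw N i) j := by
  rw [Matrix.mul_apply, Finset.sum_eq_single (sw N i)]
  · simp [swM]
  · intro b _ hb
    simp [swM, hb.symm]
  · intro h
    exact absurd (Finset.mem_univ _) h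

theorem swM_swM : swM R N * swM R N = 1 := by
  ext i j
  rw [swM_mul, Matrix.one_apply]
  show (if sw N (sw N i) = j then 1 else 0) = _
  rw [sw_sw]

/-- the swap as an element of the group -/
def swG : GLn R (N + 2) := ⟨swM R N, swM R N, swM_swM R N, swM_swM R N⟩

theorem swG_val : (swG R N).1 = swM R N := rfl

theorem swG_inv : ((swG R N)⁻¹).1 = swM R N := rfl

theorem swG_blk : (swG R N).1 * blk R (N + 2) N 0 = blk R (N + 2) N 0 := by
  ext i j
  rw [swG_val, swM_mul]
  unfold blk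
  have := sw_val N i (0 + j.val) (by omega)
  by_cases h : i.val = 0 + j.val
  · rw [if_pos h, if_pos (this.2 h)]
  · rw [if_neg h, if_neg (fun h' => h (this.1 h'))]

theorem swG_cblk : cblk R N (N + 2) 0 * (swG R N).1 = cblk R N (N + 2) 0 := by
  ext j i
  have hj : j.val < N + 2 := by omega
  rw [swG_val, Matrix.mul_apply, Finset.sum_eq_single (⟨j.val, hj⟩ : Fin (N + 2))]
  · unfold cblk swM
    rw [if_pos (by simp), one_mul, sw_lt N ⟨j.val, hj⟩ j.2]
    by_cases h : i.val = 0 + j.val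
    · rw [if_pos h, if_pos]
      ext
      simp [h]
    · rw [if_neg h, if_neg]
      rintro rfl
      exact h (by simp)
  · intro b _ hb
    unfold cblk
    rw [if_neg, zero_mul]
    intro h
    apply hb
    ext
    simpa using h
  · intro h
    exact absurd (Finset.mem_univ _) h

theorem swG_stF : frA (swG R N) (stF (Fin.last (N + 1))) = stF (i0 N) := by
  unfold frA stF
  rw [swG_inv, swG_val]
  refine Prod.ext ?_ ?_
  · show (swM R N).mulVec (Pi.single (Fin.last (N + 1)) 1) = Pi.single (i0 N) 1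
    rw [Matrix.mulVec_single_one]
    funext i
    show (if sw N i = Fin.last (N + 1) then (1 : R) else 0) = _
    rw [Pi.single_apply]
    have : sw N i = Fin.last (N + 1) ↔ i = i0 N := by
      constructor
      · intro h
        rw [← sw_sw N i, h, sw_last]
      · rintro rfl
        exact sw_i0 N
    by_cases h : i = i0 N
    · rw [if_pos h, if_pos (this.2 h)]
    · rw [if_neg h, if_neg (fun h' => h (this.1 h'))]
  · show Matrix.vecMul (Pi.single (Fin.last (N + 1)) 1) (swM R N) = Pi.single (i0 N) 1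
    rw [Matrix.single_one_vecMul]
    funext i
    show (if sw N (Fin.last (N + 1)) = i then (1 : R) else 0) = _
    rw [sw_last, Pi.single_apply]
    by_cases h : i = i0 N
    · rw [if_pos h, if_pos h.symm]
    · rw [if_neg h, if_neg (fun h' => h h'.symm)]

variable {R}

theorem frA_mul {n : ℕ} (g h : GLn R n) (f : Fr R n) : frA (g * h) f = frA g (frA h f) := by
  unfold frA
  refine Prod.ext ?_ ?_
  · show ((g * h).1).mulVec f.1 = _
    rw [Units.val_mul]
    exact (Matrix.mulVec_mulVec _ _ _).symm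
  · show Matrix.vecMul f.2 ((g * h)⁻¹).1 = _
    rw [mul_inv_rev, Units.val_mul]
    exact (Matrix.vecMul_vecMul _ _ _).symm

theorem swG_SS (L : LSys R) (h : N ≤ N + 2) (x : L.V N) :
    swG R N • L.SS h x = L.SS h x :=
  L.s_perm N (N + 2) h (sw N) (fun i hi => sw_lt N i hi) (swG R N) (fun i j => rfl) x

end Swap

end SH3

open SH3 in
theorem thm_SH3 (hB : St_SB) (hD : St_SD) (hC : St_SC) (hE : St_SE) (hH : St_SH) : St_SH3 := by
  intro R _ L j N0 S cl hS hK hR N hN
  classical
  obtain ⟨b1, b2, b3, b4⟩ := hB (L.V (N + 2)) (Fr R (N + 2)) (L.BX (N + 2))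
  have hN2 : N0 ≤ N + 2 := by omega
  have hrow : ∀ (l : List (L.V (N + 2))) (b : ℕ), b < j + 2 → Ex ((L.BX (N + 2)).row l) b := by
    intro l b hb
    by_cases hl : l ∈ (L.K (N + 2)).s
    · exact hR (N + 2) hN2 l hl b hb
    · intro z hz _
      have h0 : z = 0 := by
        ext m
        by_contra h
        exact hl (Bi_K L l m (mem_Ch.1 hz m h).1)
      exact ⟨0, Submodule.zero_mem _, by rw [h0, map_zero]⟩
  have hcol : ∀ (m : List (Fr R (N + 2))) (a : ℕ), a < j → a + m.length ≤ j + 2 →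
      Ex ((L.BX (N + 2)).col m) a := by
    intro m a ha hm
    exact hE R L (N + 2) a m fun n _ hn => hK n (by omega) a ha
  obtain ⟨gen, rel⟩ := hD (List (L.V (N + 2)) × List (Fr R (N + 2)) →₀ ℤ)
    (fun a b => (DD (L.BX (N + 2)).s a b).toAddSubgroup) (bd1 (V := L.V (N + 2))
      (W := Fr R (N + 2))).toAddMonoidHom (bd2 (V := L.V (N + 2))
      (W := Fr R (N + 2))).toAddMonoidHom
    (fun x => (b1 x).1) (fun x => (b1 x).2.1) (fun x => (b1 x).2.2)
    (fun a b => (b2 a b).1) (fun a b => (b2 a b).2.1) (fun b => (b2 0 b).2.2.1)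
    (fun a => (b2 a 0).2.2.2) j
    (fun a b hab z hz hz' => b3 a b (fun l hl => hrow l b (by omega)) z hz hz')
    (fun a b ha hb hab z hz hz' => b4 a b (fun m hm => hcol m a ha (by omega)) z hz hz')
  -- vertical cycles over lists of length one
  have hpi : ∀ y ∈ DD (L.BX (N + 2)).s j 1 ⊓ LinearMap.ker bd1,
      tau y ∈ Cyc (L.K (N + 2)) j := by
    intro y hy
    obtain ⟨h1, h2⟩ := Submodule.mem_inf.1 hy
    rw [LinearMap.mem_ker] at h2
    refine mem_Cyc.2 ⟨mem_Ch.2 ?_, by rw [← tau_bd1, h2, map_zero]⟩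
    intro l hl
    obtain ⟨x, hx, rfl⟩ := map_ne hl
    obtain ⟨h3, h4, -⟩ := mem_DD.1 h1 x hx
    exact ⟨Bi_K L x.1 x.2 h3, h4⟩
  set pi : ↥(DD (L.BX (N + 2)).s j 1 ⊓ LinearMap.ker bd1) →+ S.M (N + 2) :=
    (cl (N + 2)).comp (LinearMap.codRestrict (Cyc (L.K (N + 2)) j)
      (tau ∘ₗ (DD (L.BX (N + 2)).s j 1 ⊓ LinearMap.ker bd1).subtype)
      (fun y => hpi y.1 y.2)).toAddMonoidHom with hpidef
  have hpi2 : ∀ (y : ↥(DD (L.BX (N + 2)).s j 1 ⊓ LinearMap.ker bd1)) (z : Cyc (L.K (N + 2)) j),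
      z.1 = tau y.1 → pi y = cl (N + 2) z := by
    intro y z hz
    rw [hpidef, AddMonoidHom.comp_apply]
    congr 1
    exact Subtype.ext hz.symm
  -- the class of a pushed cycle
  have hpush : ∀ (g : GLn R (N + 2)) (c : Cyc (L.K (N + 1)) j) (z : Cyc (L.K (N + 2)) j),
      z.1 = push (fun x => g • L.s (N + 1) x) c.1 →
      cl (N + 2) z = g • S.st (N + 1) (cl (N + 1) c) := by
    intro g c z hz
    have h1 : push (L.s (N + 1)) c.1 ∈ Cyc (L.K (N + 2)) j :=
      push_cyc (L.s (N + 1)) (fun l hl => L.s_K (N + 1) l hl) c.2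
    have h2 := hS.st (N + 1) c ⟨_, h1⟩ rfl
    have h3 := hS.smul (N + 2) g ⟨_, h1⟩ z (by
      rw [hz]
      exact (push_push _ _ _).symm)
    rw [h2]
    exact h3.symm
  have hone : ∀ (f : Fr R (N + 2)), ([], [f]) ∈ L.Bi (N + 2) →
      ∀ u : List (L.V (N + 2)) →₀ ℤ, (∀ l, u l ≠ 0 → (l, [f]) ∈ L.Bi (N + 2) ∧ l.length = j) →
      bd u = 0 → ∃ (g : GLn R (N + 2)) (u' : Cyc (L.K (N + 1)) j),
        f = frA g (stF (Fin.last (N + 1))) ∧ u = push (fun x => g • L.s (N + 1) x) u'.1 := by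
    intro f hf u hu hbu
    obtain ⟨n, hn, g, hnm, hm, -, hiff⟩ := hC R L (N + 2) [f] hf
    obtain ⟨i, hi, hfi⟩ := hm f (by simp)
    have hlt := i.2
    have hnm' : N + 2 ≤ n + 1 := by simpa using hnm
    obtain rfl : n = N + 1 := by omega
    have hi' : i = Fin.last (N + 1) := by
      ext
      rw [Fin.val_last]
      omega
    subst hi'
    have hs : (fun y => g • L.SS hn y) = fun y => g • L.s (N + 1) y := by
      funext y
      rw [SS_one L hn y]
    have hinj : Function.Injective (fun y => g • L.s (N + 1) y) :=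
      (MulAction.injective g).comp (L.s_inj (N + 1))
    obtain ⟨u', hu'⟩ := pull_cyc (K := L.K (N + 1)) (j := j) _ hinj u (fun l hl =>
      ⟨(hu l hl).2, by
        obtain ⟨l0, h0, h1⟩ := (hiff l).1 (hu l hl).1
        exact ⟨l0, h0, by rw [h1, hs]⟩⟩) hbu
    exact ⟨g, u', hfi, hu'⟩
  have hsurj : Function.Surjective pi := by
    intro x
    obtain ⟨z, rfl⟩ := hS.surj (N + 2) x
    obtain ⟨hz1, hz2⟩ := mem_Cyc.1 z.2
    obtain ⟨y, hy, hy1, hy2⟩ := gen (inc [] z.1) (inc_mem rfl fun l hl =>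
      ⟨K_Bi L l (mem_Ch.1 hz1 l hl).1, (mem_Ch.1 hz1 l hl).2⟩) (by
        show bd1 (inc [] z.1) = 0
        rw [bd1_inc, hz2, map_zero])
    have hy1' : bd1 y = 0 := hy1
    have hy2' : bd2 y = inc [] z.1 := hy2
    refine ⟨⟨y, Submodule.mem_inf.2 ⟨hy, LinearMap.mem_ker.2 hy1'⟩⟩, ?_⟩
    refine hpi2 _ z ?_
    show z.1 = tau y
    rw [bd2_one hy] at hy2'
    have := congrArg tau hy2'
    rw [tau_inc, tau_inc] at this
    exact this.symm
  refine ⟨?_, ?_⟩
  · -- generation
    rw [eq_top_iff]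
    intro x _
    obtain ⟨y, rfl⟩ := hsurj x
    refine part_mem (L.BX (N + 2)) j 1 pi _ ?_ y
    intro m u y hm hnil hu hbu hyu
    match m, hm with
    | [f], _ =>
      obtain ⟨g, u', hf, hu'⟩ := hone f hnil u hu hbu
      have hcyc : u ∈ Cyc (L.K (N + 2)) j := by
        rw [hu']
        have h1 := push_cyc (L.s (N + 1)) (fun l hl => L.s_K (N + 1) l hl) u'.2
        have h2 := push_cyc (fun x : L.V (N + 2) => g • x) (fun l hl => L.K_smul (N + 2) g l hl) h1
        rw [push_push] at h2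
        exact h2
      rw [hpi2 y ⟨u, hcyc⟩ (by rw [hyu, tau_inc]), hpush g u' ⟨u, hcyc⟩ hu']
      exact AddSubgroup.subset_closure ⟨g, _, rfl⟩
  · intro X _ b hb1 hb2
    obtain ⟨θ, θ1, θ2⟩ := hH R L j S cl hS (N + 1) X b hb1
    -- the value on the standard cycles
    have hval : ∀ (g : GLn R (N + 2)) (u' : Cyc (L.K N) j) (h : N ≤ N + 2) (i : Fin (N + 2))
        (hi : N ≤ i.val) (y : ↥(DD (L.BX (N + 2)).s j 1 ⊓ LinearMap.ker bd1)),
        y.1 = inc [frA g (stF i)] (push (fun x => g • L.SS h x) u'.1) →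
        θ y = b g (S.st N (cl N u')) := by
      intro g u' h i hi y hy
      have hc : push (L.s N) u'.1 ∈ Cyc (L.K (N + 1)) j :=
        push_cyc (L.s N) (fun l hl => L.s_K N l hl) u'.2
      have hst := hS.st N u' ⟨_, hc⟩ rfl
      by_cases hlast : i = Fin.last (N + 1)
      · subst hlast
        rw [hst]
        refine θ1 g ⟨_, hc⟩ y ?_
        rw [hy, inc_apply, push_apply]
        show _ = Finsupp.mapDomain _ (push (L.s N) u'.1)
        rw [push_apply, ← Finsupp.mapDomain_comp, ← Finsupp.mapDomain_comp]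
        congr 1
        funext l
        rw [Function.comp_apply, Function.comp_apply, List.map_map]
        refine Prod.ext ?_ rfl
        refine List.map_congr_left fun x _ => ?_
        rw [Function.comp_apply, SS_two L h x]
      · have hi0 : i = i0 N := by
          ext
          have h1 := i.2
          have h2 : i.val ≠ N + 1 := by
            intro h3
            exact hlast (Fin.ext (by rw [h3, Fin.val_last]))
          show i.val = N
          omega
        subst hi0
        have hb3 := hb2 g (swG R N) (swG_blk R N) (swG_cblk R N) (cl N u')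
        rw [← hb3, hst]
        refine θ1 (g * swG R N) ⟨_, hc⟩ y ?_
        rw [hy, inc_apply, push_apply]
        show _ = Finsupp.mapDomain _ (push (L.s N) u'.1)
        rw [push_apply, ← Finsupp.mapDomain_comp, ← Finsupp.mapDomain_comp]
        congr 1
        funext l
        rw [Function.comp_apply, Function.comp_apply, List.map_map]
        refine Prod.ext ?_ ?_
        · refine List.map_congr_left fun x _ => ?_
          rw [Function.comp_apply, mul_smul, ← SS_two L h x, swG_SS]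
        · show [frA g (stF (i0 N))] = [frA (g * swG R N) (stF (Fin.last (N + 1)))]
          rw [frA_mul, swG_stF]
    -- vanishing on horizontal boundaries
    have hQ : ∀ y ∈ DD (L.BX (N + 2)).s j 2 ⊓ LinearMap.ker bd1,
        bd2 y ∈ DD (L.BX (N + 2)).s j 1 ⊓ LinearMap.ker bd1 := by
      intro y hy
      obtain ⟨h1, h2⟩ := Submodule.mem_inf.1 hy
      rw [LinearMap.mem_ker] at h2
      refine Submodule.mem_inf.2 ⟨(b2 j 1).2.1 y h1, ?_⟩
      rw [LinearMap.mem_ker, (b1 y).2.2, h2, map_zero]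
    set Q : ↥(DD (L.BX (N + 2)).s j 2 ⊓ LinearMap.ker bd1) →+
        ↥(DD (L.BX (N + 2)).s j 1 ⊓ LinearMap.ker bd1) :=
      (LinearMap.codRestrict (DD (L.BX (N + 2)).s j 1 ⊓ LinearMap.ker bd1)
        (bd2 ∘ₗ (DD (L.BX (N + 2)).s j 2 ⊓ LinearMap.ker bd1).subtype)
        (fun y => hQ y.1 y.2)).toAddMonoidHom with hQdef
    have hzero : ∀ y : ↥(DD (L.BX (N + 2)).s j 2 ⊓ LinearMap.ker bd1), θ (Q y) = 0 := by
      intro y
      have := part_mem (L.BX (N + 2)) j 2 (AddMonoidHom.comp θ Q) ⊥ ?_ y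
      · exact AddSubgroup.mem_bot.1 this
      intro m u y hm hnil hu hbu hyu
      rw [AddSubgroup.mem_bot, AddMonoidHom.comp_apply]
      match m, hm with
      | [f1, f2], _ =>
        have hinA : ∀ f ∈ [f1, f2], inc [f] u ∈ DD (L.BX (N + 2)).s j 1 ⊓ LinearMap.ker bd1 := by
          intro f hf
          refine Submodule.mem_inf.2 ⟨inc_mem rfl fun l hl => ⟨?_, (hu l hl).2⟩, ?_⟩
          · exact (L.BX (N + 2)).mono2 l [f1, f2] [f] (by simpa using hf) (hu l hl).1
          · rw [LinearMap.mem_ker, bd1_inc, hbu, map_zero]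
        have hQy : Q y = (⟨inc [f2] u, hinA f2 (by simp)⟩ :
            ↥(DD (L.BX (N + 2)).s j 1 ⊓ LinearMap.ker bd1)) -
              ⟨inc [f1] u, hinA f1 (by simp)⟩ := by
          apply Subtype.ext
          show bd2 y.1 = inc [f2] u - inc [f1] u
          rw [hyu, bd2_two]
        rw [hQy, map_sub, sub_eq_zero]
        by_cases hf12 : f1 = f2
        · subst hf12
          rfl
        · obtain ⟨n, hn, g, hnm, hm2, -, hiff⟩ := hC R L (N + 2) [f1, f2] hnil
          obtain ⟨i1, hi1, hfi1⟩ := hm2 f1 (by simp)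
          obtain ⟨i2, hi2, hfi2⟩ := hm2 f2 (by simp)
          have hnm' : N + 2 ≤ n + 2 := by simpa using hnm
          have hne : i1.val ≠ i2.val := by
            intro h
            apply hf12
            rw [hfi1, hfi2, Fin.ext h]
          have hlt1 := i1.2
          have hlt2 := i2.2
          obtain rfl : n = N := by omega
          have hinj : Function.Injective (fun y => g • L.SS hn y) :=
            (MulAction.injective g).comp (SS_inj L hn)
          obtain ⟨u', hu'⟩ := pull_cyc (K := L.K n) (j := j) _ hinj u (fun l hl =>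
            ⟨(hu l hl).2, (hiff l).1 (hu l hl).1⟩) hbu
          rw [hval g u' hn i2 hi2 _ (by
            show inc [f2] u = _
            rw [← hfi2, ← hu']), hval g u' hn i1 hi1 _ (by
            show inc [f1] u = _
            rw [← hfi1, ← hu'])]
    have hker : pi.ker ≤ θ.ker := by
      intro y hy
      rw [AddMonoidHom.mem_ker] at hy ⊢
      have h1 : pi y = cl (N + 2) ⟨tau y.1, hpi y.1 y.2⟩ := hpi2 y _ rfl
      rw [h1, hS.ker] at hy
      obtain ⟨x, hx, hx2⟩ := hy
      have hx1 : x ∈ Ch (L.K (N + 2)).s (j + 1) := hx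
      obtain ⟨hyD, hyk⟩ := Submodule.mem_inf.1 y.2
      rw [LinearMap.mem_ker] at hyk
      obtain ⟨y2, hy2, hy2d, w, hw, hyw⟩ := rel y.1 hyD hyk (inc [] x) (inc_mem rfl fun l hl =>
        ⟨K_Bi L l (mem_Ch.1 hx1 l hl).1, (mem_Ch.1 hx1 l hl).2⟩) (by
          show bd2 y.1 = bd1 (inc [] x)
          rw [bd2_one hyD, bd1_inc, hx2])
      have hy2d' : bd1 y2 = 0 := hy2d
      have hyw' : y.1 = bd2 y2 + bd1 w := hyw
      have hw1 : bd1 w ∈ DD (L.BX (N + 2)).s j 1 ⊓ LinearMap.ker bd1 :=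
        Submodule.mem_inf.2 ⟨(b2 j 1).1 w hw, by rw [LinearMap.mem_ker, (b1 w).1]⟩
      have hy2m : y2 ∈ DD (L.BX (N + 2)).s j 2 ⊓ LinearMap.ker bd1 :=
        Submodule.mem_inf.2 ⟨hy2, LinearMap.mem_ker.2 hy2d'⟩
      have hysum : y = Q ⟨y2, hy2m⟩ + ⟨bd1 w, hw1⟩ := Subtype.ext hyw'
      rw [hysum, map_add, hzero, zero_add]
      exact θ2 _ w hw rfl
    refine ⟨pi.liftOfSurjective hsurj ⟨θ, hker⟩, ?_⟩
    intro g c
    obtain ⟨c0, rfl⟩ := hS.surj (N + 1) c
    obtain ⟨hc1, hc2⟩ := mem_Cyc.1 c0.2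
    have hmem : inc [frA g (stF (Fin.last (N + 1)))] (push (fun x => g • L.s (N + 1) x) c0.1) ∈
        DD (L.BX (N + 2)).s j 1 ⊓ LinearMap.ker bd1 := by
      refine Submodule.mem_inf.2 ⟨inc_mem rfl ?_, ?_⟩
      · intro l hl
        obtain ⟨l0, hl0, rfl⟩ := map_ne hl
        obtain ⟨h1, h2⟩ := mem_Ch.1 hc1 l0 hl0
        refine ⟨⟨N + 1, Nat.le_succ _, g, l0, h1, ?_, ?_⟩, by rw [List.length_map, h2]⟩
        · show List.map _ l0 = _
          refine List.map_congr_left fun x _ => ?_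
          rw [SS_one]
        · intro f hf
          have hf' : f = frA g (stF (Fin.last (N + 1))) := by simpa using hf
          exact ⟨Fin.last (N + 1), by rw [Fin.val_last], hf'⟩
      · rw [LinearMap.mem_ker, bd1_inc, bd_push, hc2, map_zero, map_zero]
    have hcyc : push (fun x => g • L.s (N + 1) x) c0.1 ∈ Cyc (L.K (N + 2)) j := by
      have h1 := push_cyc (L.s (N + 1)) (fun l hl => L.s_K (N + 1) l hl) c0.2
      have h2 := push_cyc (fun x : L.V (N + 2) => g • x) (fun l hl => L.K_smul (N + 2) g l hl) h1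
      rw [push_push] at h2
      exact h2
    have e1 : pi ⟨_, hmem⟩ = g • S.st (N + 1) (cl (N + 1) c0) := by
      rw [hpi2 ⟨_, hmem⟩ ⟨_, hcyc⟩ (tau_inc _ _).symm, hpush g c0 ⟨_, hcyc⟩ rfl]
    have e2 : θ ⟨_, hmem⟩ = b g (cl (N + 1) c0) := by
      refine θ1 g c0 ⟨_, hmem⟩ ?_
      show inc _ (push _ c0.1) = _
      rw [inc_apply, push_apply, ← Finsupp.mapDomain_comp]
      rfl
    rw [← e1, ← e2]
    exact AddMonoidHom.liftOfRightInverse_comp_apply pi _ _ ⟨θ, hker⟩ _

end Pool.Agent.SLZ
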