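import Pool.Agent.SLZ.StU

/-!
# SLZ/UA2: the matrices g + 1 (block sums with the identity)
-/

set_option autoImplicit false
set_option linter.unusedVariables false

noncomputable section

namespace Pool.Agent.SLZ

private theorem UA2_aux {R : Type} [CommRing R] {n N : ℕ} {e : Matrix (Fin N) (Fin n) R}
    {p : Matrix (Fin n) (Fin N) R} (h : p * e = 1) {q : ℕ} (x : Matrix (Fin n) (Fin q) R) :
    p * (e * x) = x := by
  rw [← Matrix.mul_assoc, h, Matrix.one_mul]

theorem thm_UA2 (h : St_UA1) : St_UA2 := by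
  intro R _ n N hnN
  obtain ⟨h1, h2, h3, h4, h5, h6⟩ := h R
  have hpe : cblk R n N 0 * blk R N n 0 = 1 := h1 n N 0 (by omega)
  have hpx : ∀ {q : ℕ} (x : Matrix (Fin n) (Fin q) R),
      cblk R n N 0 * (blk R N n 0 * x) = x := fun x => UA2_aux hpe x
  have A1 : ∀ g h : Matrix (Fin n) (Fin n) R, lmat n N (g * h) = lmat n N g * lmat n N h := by
    intro g h
    unfold lmat
    simp only [Matrix.mul_add, Matrix.add_mul, Matrix.mul_sub, Matrix.sub_mul, Matrix.mul_assoc,
      Matrix.mul_one, Matrix.one_mul, hpx]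
    abel
  have A2 : lmat n N (1 : Matrix (Fin n) (Fin n) R) = 1 := by
    unfold lmat
    rw [Matrix.mul_one]
    abel
  refine ⟨A1, A2, ?_, ?_, ?_, ?_, ?_⟩
  · intro g
    refine ⟨⟨lmat n N g.1, lmat n N (g⁻¹).1, ?_, ?_⟩, rfl, rfl⟩
    · rw [← A1]
      have : g.1 * (g⁻¹).1 = 1 := by rw [← Units.val_mul, mul_inv_cancel, Units.val_one]
      rw [this, A2]
    · rw [← A1]
      have : (g⁻¹).1 * g.1 = 1 := by rw [← Units.val_mul, inv_mul_cancel, Units.val_one]
      rw [this, A2]
  · intro m hNm g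
    have e1 : blk R m N 0 * blk R N n 0 = blk R m n 0 := h3 n N m 0 0 (by omega)
    have e2 : cblk R n N 0 * cblk R N m 0 = cblk R n m 0 := h4 n N m 0 0 (by omega)
    have e3 : ∀ {q : ℕ} (x : Matrix (Fin n) (Fin q) R),
        blk R m N 0 * (blk R N n 0 * x) = blk R m n 0 * x := fun x => by
      rw [← Matrix.mul_assoc, e1]
    unfold lmat
    simp only [Matrix.mul_add, Matrix.add_mul, Matrix.mul_sub, Matrix.sub_mul, Matrix.mul_assoc,
      Matrix.mul_one, Matrix.one_mul, e2, e3]
    abel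
  · intro g
    unfold lmat
    refine ⟨?_, ?_⟩
    · simp only [Matrix.add_mul, Matrix.sub_mul, Matrix.mul_assoc, Matrix.mul_one,
        Matrix.one_mul, hpe]
      abel
    · simp only [Matrix.mul_add, Matrix.mul_sub, Matrix.mul_assoc, Matrix.mul_one,
        Matrix.one_mul, hpx]
      abel
  · intro g q v hv
    unfold lmat
    simp only [Matrix.add_mul, Matrix.sub_mul, Matrix.mul_assoc, Matrix.one_mul, hv,
      Matrix.mul_zero]
    abel
  · intro g q v hv
    have e4 : ∀ {r : ℕ} (x : Matrix (Fin n) (Fin r) R), v * (blk R N n 0 * x) = 0 := fun x => by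
      rw [← Matrix.mul_assoc, hv, Matrix.zero_mul]
    unfold lmat
    simp only [Matrix.mul_add, Matrix.mul_sub, Matrix.mul_assoc, Matrix.mul_one, e4]
    abel

end Pool.Agent.SLZ
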