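import Pool.Agent.SLZ.StU

/-!
# SLZ, UA3: the iterated stabilization maps (helper30)
-/

set_option autoImplicit false
set_option linter.unusedVariables false

noncomputable section

namespace Pool.Agent.SLZ

theorem UA3_self {R : Type} [CommRing R] (S : Sys R) (n : ℕ) (c : S.M n) :
    S.ST (le_refl n) c = c := Nat.leRecOn_self c

theorem UA3_succ {R : Type} [CommRing R] (S : Sys R) (n N : ℕ) (h : n ≤ N) (h' : n ≤ N + 1)
    (c : S.M n) : S.ST h' c = S.st N (S.ST h c) :=
  Nat.leRecOn_succ (C := S.M) (next := fun {k} (x : S.M k) => S.st k x) h c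

theorem UA3_add {R : Type} [CommRing R] (S : Sys R) (n N : ℕ) (h : n ≤ N) (c d : S.M n) :
    S.ST h (c + d) = S.ST h c + S.ST h d := by
  induction N, h using Nat.le_induction with
  | base => rw [UA3_self, UA3_self, UA3_self]
  | succ N h ih =>
    rw [UA3_succ S n N h, UA3_succ S n N h, UA3_succ S n N h, ih, map_add]

theorem UA3_left {R : Type} [CommRing R] (S : Sys R) (n N : ℕ) (h : n + 1 ≤ N) (h' : n ≤ N)
    (c : S.M n) : S.ST h (S.st n c) = S.ST h' c := by
  induction N, h using Nat.le_induction with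
  | base => rw [UA3_self, UA3_succ S n n le_rfl, UA3_self]
  | succ N h ih =>
    rw [UA3_succ S (n + 1) N h, UA3_succ S n N (by omega), ih (by omega)]

theorem UA3_trans {R : Type} [CommRing R] (S : Sys R) (n m N : ℕ) (h : n ≤ m) (h' : m ≤ N)
    (h'' : n ≤ N) (c : S.M n) : S.ST h' (S.ST h c) = S.ST h'' c := by
  induction N, h' using Nat.le_induction with
  | base => rw [UA3_self]
  | succ N h' ih =>
    rw [UA3_succ S m N h', UA3_succ S n N (h.trans h'), ih (h.trans h')]

/-- **UA3** -/
theorem thm_UA3 (h1 : St_UA1) (h2 : St_UA2) : St_UA3 := by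
  intro R _ S
  have hzero : ∀ (n N : ℕ) (h : n ≤ N), S.ST h 0 = 0 := by
    intro n N h
    have h3 := UA3_add S n N h 0 0
    rw [add_zero] at h3
    exact left_eq_add.1 h3
  refine ⟨UA3_self S, UA3_succ S, UA3_left S, UA3_trans S, UA3_add S, ?_, hzero, ?_⟩
  · intro n N h c
    have h3 := UA3_add S n N h (-c) c
    rw [neg_add_cancel, hzero] at h3
    exact eq_neg_of_add_eq_zero_left h3.symm
  · intro n N h g
    induction N, h using Nat.le_induction with
    | base =>
      intro g' hg' c
      have hgg : g' = g := by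
        apply Units.ext
        rw [hg']
        unfold lmat
        obtain ⟨-, -, -, -, h5, -⟩ := h1 R
        rw [(h5 n).1, (h5 n).2]
        simp
      rw [UA3_self, UA3_self, hgg]
    | succ N h ih =>
      intro g' hg' c
      obtain ⟨-, -, h23, h24, -⟩ := h2 R n N h
      obtain ⟨g'', hg'', -⟩ := h23 g
      rw [UA3_succ S n N h, UA3_succ S n N h, ih g'' hg'' c]
      apply S.st_smul
      rw [hg', hg'', h24 (N + 1) (Nat.le_succ N)]

end Pool.Agent.SLZ
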