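import Pool.Agent.SLZ.StU

/-!
# SLZ, UB: the element `F u l` is well defined and natural (helper24)
-/

set_option autoImplicit false
set_option linter.unusedVariables false

noncomputable section

namespace Pool.Agent.SLZ

section

variable {R : Type} [CommRing R]

theorem UB_inv_mul {n : ℕ} (g : GLn R n) : (g⁻¹).1 * g.1 = 1 := by
  rw [← Units.val_mul, inv_mul_cancel, Units.val_one]

theorem UB_mul_inv {n : ℕ} (g : GLn R n) : g.1 * (g⁻¹).1 = 1 := by
  rw [← Units.val_mul, mul_inv_cancel, Units.val_one]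

theorem UB_val_inv_mul {n : ℕ} (g h : GLn R n) : ((g * h)⁻¹).1 = (h⁻¹).1 * (g⁻¹).1 := by
  rw [mul_inv_rev, Units.val_mul]

/-- the value at a standard pair -/
theorem UB_one (S : Sys R) (k0 : ℕ → ℕ) (H1 : S.H1 k0) (n N : ℕ) (h : n ≤ N) (hk : k0 n ≤ N)
    (g : GLn R N) (c : S.M n) (u : Matrix (Fin N) (Fin n) R) (l : Matrix (Fin n) (Fin N) R)
    (hu : u = g.1 * blk R N n 0) (hl : l = cblk R n N 0 * (g⁻¹).1) :
    S.F h c u l = g • S.ST h c := by
  have hs : Sys.Std u l := ⟨g, hu, hl⟩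
  simp only [Sys.F]
  rw [dif_pos hs]
  obtain ⟨h1, h2⟩ := hs.choose_spec
  set g0 := hs.choose with hg0
  have hx := H1 n N h hk (g0⁻¹ * g) (by
    rw [Units.val_mul, Matrix.mul_assoc, ← hu, h1, ← Matrix.mul_assoc, UB_inv_mul, Matrix.one_mul])
    (by
      rw [Units.val_mul, ← Matrix.mul_assoc, ← h2, hl, Matrix.mul_assoc, UB_inv_mul,
        Matrix.mul_one]) c
  calc g0 • S.ST h c = g0 • ((g0⁻¹ * g) • S.ST h c) := by rw [hx]
    _ = g • S.ST h c := by rw [← mul_smul, mul_inv_cancel_left]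

theorem UB_not (S : Sys R) {n N : ℕ} (h : n ≤ N) (c : S.M n) (u : Matrix (Fin N) (Fin n) R)
    (l : Matrix (Fin n) (Fin N) R) (hs : ¬ Sys.Std u l) : S.F h c u l = 0 := by
  simp only [Sys.F]
  rw [dif_neg hs]

theorem UB_std_mul {n N : ℕ} (g : GLn R N) (u : Matrix (Fin N) (Fin n) R)
    (l : Matrix (Fin n) (Fin N) R) : Sys.Std (g.1 * u) (l * (g⁻¹).1) ↔ Sys.Std u l := by
  constructor
  · rintro ⟨x, h1, h2⟩
    refine ⟨g⁻¹ * x, ?_, ?_⟩
    · rw [Units.val_mul, Matrix.mul_assoc, ← h1, ← Matrix.mul_assoc, UB_inv_mul, Matrix.one_mul]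
    · rw [UB_val_inv_mul, inv_inv, ← Matrix.mul_assoc, ← h2, Matrix.mul_assoc, UB_inv_mul,
        Matrix.mul_one]
  · rintro ⟨x, h1, h2⟩
    refine ⟨g * x, ?_, ?_⟩
    · rw [Units.val_mul, Matrix.mul_assoc, ← h1]
    · rw [UB_val_inv_mul, ← Matrix.mul_assoc, ← h2]

end

theorem thm_UB (h1 : St_UA1) (h2 : St_UA2) (h3 : St_UA3) : St_UB := by
  intro R _ S k0 H1
  obtain ⟨-, -, b3, b4, -, -⟩ := h1 R
  obtain ⟨-, -, s3, -, s5, -, -, s8⟩ := h3 R S
  refine ⟨?_, ?_, ?_, ?_, ?_⟩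
  · intro n N h hk g c
    exact UB_one S k0 H1 n N h hk g c _ _ rfl rfl
  · intro n N h hk g c u l
    by_cases hs : Sys.Std u l
    · obtain ⟨x, hu, hl⟩ := hs
      rw [UB_one S k0 H1 n N h hk x c u l hu hl, UB_one S k0 H1 n N h hk (g * x) c _ _
        (by rw [hu, Units.val_mul, Matrix.mul_assoc])
        (by rw [hl, UB_val_inv_mul, Matrix.mul_assoc]), mul_smul]
    · rw [UB_not S h c u l hs, UB_not S h c _ _ (fun h' => hs ((UB_std_mul g u l).1 h')),
        smul_zero]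
  · intro n N h c d u l
    by_cases hs : Sys.Std u l
    · simp only [Sys.F]
      rw [dif_pos hs, dif_pos hs, dif_pos hs, s5, smul_add]
    · rw [UB_not S h _ u l hs, UB_not S h _ u l hs, UB_not S h _ u l hs, add_zero]
  · intro n N h hk g c u l
    obtain ⟨g', hg1, hg2⟩ := (h2 R n N h).2.2.1 g
    have e1 := (h2 R n N h).2.2.2.2.1 g.1
    have e2 := (h2 R n N h).2.2.2.2.1 (g⁻¹).1
    rw [← hg1] at e1
    rw [← hg2] at e2
    by_cases hs : Sys.Std u l
    · obtain ⟨x, hu, hl⟩ := hs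
      rw [UB_one S k0 H1 n N h hk x (g • c) u l hu hl, UB_one S k0 H1 n N h hk (x * g') c _ _
        (by rw [hu, Units.val_mul, Matrix.mul_assoc, Matrix.mul_assoc, e1.1])
        (by rw [hl, UB_val_inv_mul, ← Matrix.mul_assoc, ← Matrix.mul_assoc, e2.2]), mul_smul,
        s8 n N h g g' hg1 c]
    · have hs' : ¬ Sys.Std (u * g.1) ((g⁻¹).1 * l) := by
        rintro ⟨y, hu, hl⟩
        refine hs ⟨y * g'⁻¹, ?_, ?_⟩
        · rw [Units.val_mul, Matrix.mul_assoc, e2.1, ← Matrix.mul_assoc, ← hu, Matrix.mul_assoc,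
            UB_mul_inv, Matrix.mul_one]
        · rw [UB_val_inv_mul, inv_inv, ← Matrix.mul_assoc, e1.2, Matrix.mul_assoc, ← hl,
            ← Matrix.mul_assoc, UB_mul_inv, Matrix.one_mul]
      rw [UB_not S h _ u l hs, UB_not S h _ _ _ hs']
  · intro n N h h' hk hk' c u l hs
    obtain ⟨x, hu, hl⟩ := hs
    rw [UB_one S k0 H1 (n + 1) N h' hk' x (S.st n c) u l hu hl, s3 n N h' h c,
      UB_one S k0 H1 n N h hk x c _ _
        (by
          have := b3 n (n + 1) N 0 0 (by omega)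
          rw [hu, Matrix.mul_assoc, this])
        (by
          have := b4 n (n + 1) N 0 0 (by omega)
          rw [hl, ← Matrix.mul_assoc, this])]

end Pool.Agent.SLZ
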