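import Pool.Agent.SLZ.StU

/-!
# SLZ/UC1 (helper52): transvections and permutation matrices
-/

set_option autoImplicit false
set_option linter.unusedVariables false

noncomputable section

namespace Pool.Agent.SLZ

private theorem UC1_extend (N s : ℕ) (f : ℕ → ℕ) (hf : ∀ i, i < s → f i < N)
    (hinj : ∀ i j, i < s → j < s → f i = f j → i = j) :
    ∃ σ : Equiv.Perm (Fin N), ∀ (i : ℕ) (h : i < N), i < s → (σ ⟨i, h⟩).val = f i := by
  classical
  obtain ⟨g, hg⟩ := Finset.exists_equiv_extend_of_card_eq (α := Fin N) (β := Fin N)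
    (t := Finset.univ) (by simp)
    (s := Finset.univ.filter fun i : Fin N => i.val < s)
    (f := fun i : Fin N => if h : f i.val < N then ⟨f i.val, h⟩ else i)
    (Finset.subset_univ _) (by
      intro i hi j hj hij
      have hi' : i.val < s := by simpa using hi
      have hj' : j.val < s := by simpa using hj
      simp only [dif_pos (hf _ hi'), dif_pos (hf _ hj'), Fin.mk.injEq] at hij
      exact Fin.ext (hinj _ _ hi' hj' hij))
  refine ⟨g.trans (Equiv.subtypeUnivEquiv fun x => Finset.mem_univ x), ?_⟩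
  intro i h his
  have h1 := hg ⟨i, h⟩ (by simpa using his)
  rw [dif_pos (hf _ his)] at h1
  have h2 := congrArg Fin.val h1
  exact h2

/-- the permutation matrix: column `j` is the basis vector `σ j` -/
private def UC1_mat (R : Type) [CommRing R] {N : ℕ} (σ : Equiv.Perm (Fin N)) :
    Matrix (Fin N) (Fin N) R := fun i j => if i = σ j then 1 else 0

private theorem UC1_left (R : Type) [CommRing R] {N m : ℕ} (σ : Equiv.Perm (Fin N))
    (A : Matrix (Fin N) (Fin m) R) (i : Fin N) (j : Fin m) :
    (UC1_mat R σ * A) i j = A (σ.symm i) j := by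
  rw [Matrix.mul_apply, Finset.sum_eq_single (σ.symm i)]
  · simp [UC1_mat]
  · intro b _ hb
    have : i ≠ σ b := by
      intro h
      exact hb (by rw [h, Equiv.symm_apply_apply])
    simp [UC1_mat, this]
  · intro h
    exact absurd (Finset.mem_univ _) h

private theorem UC1_right (R : Type) [CommRing R] {N m : ℕ} (σ : Equiv.Perm (Fin N))
    (A : Matrix (Fin m) (Fin N) R) (i : Fin m) (j : Fin N) :
    (A * UC1_mat R σ) i j = A i (σ j) := by
  rw [Matrix.mul_apply, Finset.sum_eq_single (σ j)]
  · simp [UC1_mat]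
  · intro b _ hb
    simp [UC1_mat, hb]
  · intro h
    exact absurd (Finset.mem_univ _) h

private theorem UC1_inv (R : Type) [CommRing R] {N : ℕ} (σ : Equiv.Perm (Fin N)) :
    UC1_mat R σ * UC1_mat R σ.symm = 1 := by
  ext i j
  rw [UC1_left, Matrix.one_apply]
  by_cases h : i = j
  · subst h; simp [UC1_mat]
  · rw [if_neg h]
    have : σ.symm i ≠ σ.symm j := fun h' => h (σ.symm.injective h')
    simp [UC1_mat, this]

private def UC1_unit (R : Type) [CommRing R] {N : ℕ} (σ : Equiv.Perm (Fin N)) : GLn R N where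
  val := UC1_mat R σ
  inv := UC1_mat R σ.symm
  val_inv := UC1_inv R σ
  inv_val := by
    have h := UC1_inv R σ.symm
    rwa [Equiv.symm_symm] at h

private theorem UC1_blk (R : Type) [CommRing R] {n N c a : ℕ} (hc : c + n ≤ N)
    (σ : Equiv.Perm (Fin N))
    (hσ : ∀ (j : ℕ) (h : c + j < N), j < n → (σ ⟨c + j, h⟩).val = a + j) :
    (UC1_unit R σ).1 * blk R N n c = blk R N n a ∧
    cblk R n N c * ((UC1_unit R σ)⁻¹).1 = cblk R n N a := by
  have key : ∀ (i : Fin N) (j : Fin n), (σ.symm i).val = c + j.val ↔ i.val = a + j.val := by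
    intro i j
    have hj : c + j.val < N := by have := j.isLt; omega
    constructor
    · intro h
      have h1 : σ.symm i = ⟨c + j.val, hj⟩ := Fin.ext h
      have h2 : i = σ ⟨c + j.val, hj⟩ := by rw [← h1, Equiv.apply_symm_apply]
      rw [h2]
      exact hσ _ hj j.isLt
    · intro h
      have h1 : i = σ ⟨c + j.val, hj⟩ := Fin.ext (by rw [h, hσ _ hj j.isLt])
      rw [h1, Equiv.symm_apply_apply]
  constructor
  · ext i j
    change (UC1_mat R σ * blk R N n c) i j = _
    rw [UC1_left]
    simp only [blk]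
    by_cases h : i.val = a + j.val
    · rw [if_pos h, if_pos ((key i j).2 h)]
    · rw [if_neg h, if_neg fun h' => h ((key i j).1 h')]
  · ext j i
    change (cblk R n N c * UC1_mat R σ.symm) j i = _
    rw [UC1_right]
    simp only [cblk]
    by_cases h : i.val = a + j.val
    · rw [if_pos h, if_pos ((key i j).2 h)]
    · rw [if_neg h, if_neg fun h' => h ((key i j).1 h')]

theorem thm_UC1 (h : St_UA1) : St_UC1 := by
  intro R _ n N
  refine ⟨?_, ?_, ?_⟩
  · intro k l hlk
    have h1 : (k * l) * (k * l) = 0 := by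
      rw [Matrix.mul_assoc, ← Matrix.mul_assoc l k l, hlk, Matrix.zero_mul, Matrix.mul_zero]
    refine ⟨⟨1 + k * l, 1 - k * l, ?_, ?_⟩, rfl, rfl⟩
    · have : (1 + k * l) * (1 - k * l) = 1 - (k * l) * (k * l) := by noncomm_ring
      rw [this, h1, sub_zero]
    · have : (1 - k * l) * (1 + k * l) = 1 - (k * l) * (k * l) := by noncomm_ring
      rw [this, h1, sub_zero]
  · intro a b ha hb hab
    have h2n : n + n ≤ N := by omega
    obtain ⟨σ, hσ⟩ := UC1_extend N (n + n) (fun i => if i < n then a + i else b + (i - n))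
      (by intro i hi; split_ifs <;> omega)
      (by intro i j hi hj hij; split_ifs at hij <;> omega)
    obtain ⟨h1, h2⟩ := UC1_blk R (n := n) (N := N) (c := 0) (a := a) (by omega) σ (by
      intro j hj hjn
      rw [hσ (0 + j) hj (by omega), if_pos (by omega)]
      omega)
    obtain ⟨h3, h4⟩ := UC1_blk R (n := n) (N := N) (c := n) (a := b) (by omega) σ (by
      intro j hj hjn
      rw [hσ (n + j) hj (by omega), if_neg (by omega)]
      omega)
    exact ⟨UC1_unit R σ, h1, h3, h2, h4⟩
  · intro a ha
    obtain ⟨σ, hσ⟩ := UC1_extend N n (fun i => a + i)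
      (by intro i hi; omega)
      (by intro i j hi hj hij; omega)
    obtain ⟨h1, h2⟩ := UC1_blk R (n := n) (N := N) (c := 0) (a := a) (by omega) σ (by
      intro j hj hjn
      rw [hσ (0 + j) hj (by omega)]
      omega)
    exact ⟨UC1_unit R σ, h1, h2⟩

end Pool.Agent.SLZ
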