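import Pool.Agent.SLZ.StU

/-!
# SLZ, UC2: criteria for standard pairs and for orthogonal pairs
-/

set_option autoImplicit false

noncomputable section

namespace Pool.Agent.SLZ

variable {R : Type} [CommRing R] {n N : ℕ}

theorem UC2_std_act {u : Matrix (Fin N) (Fin n) R} {l : Matrix (Fin n) (Fin N) R} (x : GLn R N)
    (h : Sys.Std u l) {u' : Matrix (Fin N) (Fin n) R} {l' : Matrix (Fin n) (Fin N) R}
    (hu : x.1 * u = u') (hl : l * (x⁻¹).1 = l') : Sys.Std u' l' := by
  obtain ⟨g, h1, h2⟩ := h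
  refine ⟨x * g, ?_, ?_⟩
  · rw [← hu, h1, Units.val_mul, Matrix.mul_assoc]
  · rw [← hl, h2, mul_inv_rev, Units.val_mul, Matrix.mul_assoc]

theorem UC2_orth_act {u : Matrix (Fin N) (Fin n) R} {l : Matrix (Fin n) (Fin N) R} (x : GLn R N)
    (h : Sys.Orth u l) {u' : Matrix (Fin N) (Fin n) R} {l' : Matrix (Fin n) (Fin N) R}
    (hu : x.1 * u = u') (hl : l * (x⁻¹).1 = l') : Sys.Orth u' l' := by
  obtain ⟨g, h1, h2⟩ := h
  refine ⟨x * g, ?_, ?_⟩
  · rw [← hu, h1, Units.val_mul, Matrix.mul_assoc]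
  · rw [← hl, h2, mul_inv_rev, Units.val_mul, Matrix.mul_assoc]

/-- `(1 + k l) v = v + k (l v)` -/
theorem UC2_tv (k : Matrix (Fin N) (Fin n) R) (l : Matrix (Fin n) (Fin N) R)
    (v : Matrix (Fin N) (Fin n) R) : (1 + k * l) * v = v + k * (l * v) := by
  rw [Matrix.add_mul, Matrix.one_mul, Matrix.mul_assoc]

theorem UC2_tv' (k : Matrix (Fin N) (Fin n) R) (l : Matrix (Fin n) (Fin N) R)
    (v : Matrix (Fin N) (Fin n) R) : (1 - k * l) * v = v - k * (l * v) := by
  rw [Matrix.sub_mul, Matrix.one_mul, Matrix.mul_assoc]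

theorem UC2_vt (k : Matrix (Fin N) (Fin n) R) (l : Matrix (Fin n) (Fin N) R)
    (v : Matrix (Fin n) (Fin N) R) : v * (1 + k * l) = v + v * k * l := by
  rw [Matrix.mul_add, Matrix.mul_one, Matrix.mul_assoc]

theorem UC2_vt' (k : Matrix (Fin N) (Fin n) R) (l : Matrix (Fin n) (Fin N) R)
    (v : Matrix (Fin n) (Fin N) R) : v * (1 - k * l) = v - v * k * l := by
  rw [Matrix.mul_sub, Matrix.mul_one, Matrix.mul_assoc]

theorem thm_UC2 (h : St_UA1) (hC : St_UC1) : St_UC2 := by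
  intro R _ n N
  obtain ⟨hA1, hA2, -⟩ := h R
  obtain ⟨hC1, hC2, hC3⟩ := hC R n N
  refine ⟨?_, ?_, ?_⟩
  · intro a u l ha hlu hor
    have haa := hA1 n N a ha
    have hstd : Sys.Std (blk R N n a) (cblk R n N a) := by
      obtain ⟨w, hw1, hw2⟩ := hC3 a ha
      exact ⟨w, hw1.symm, hw2.symm⟩
    rcases hor with hpu | hle
    · have k1 : cblk R n N a * (u - blk R N n a) = 0 := by
        rw [Matrix.mul_sub, hpu, haa, sub_self]
      have k2 : (l - cblk R n N a) * u = 0 := by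
        rw [Matrix.sub_mul, hpu, hlu, sub_self]
      obtain ⟨g1, hg1, hg1'⟩ := hC1 (u - blk R N n a) (cblk R n N a) k1
      obtain ⟨g2, hg2, hg2'⟩ := hC1 u (l - cblk R n N a) k2
      have h1 : Sys.Std u (cblk R n N a) := by
        refine UC2_std_act g1 hstd ?_ ?_
        · rw [hg1, UC2_tv, haa, Matrix.mul_one]
          abel
        · rw [hg1', UC2_vt', k1, Matrix.zero_mul, sub_zero]
      refine UC2_std_act g2⁻¹ h1 ?_ ?_
      · rw [hg2', UC2_tv', k2, Matrix.mul_zero, sub_zero]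
      · rw [inv_inv, hg2, UC2_vt, hpu, Matrix.one_mul]
        abel
    · have k1 : l * (u - blk R N n a) = 0 := by
        rw [Matrix.mul_sub, hlu, hle, sub_self]
      have k2 : (l - cblk R n N a) * blk R N n a = 0 := by
        rw [Matrix.sub_mul, hle, haa, sub_self]
      obtain ⟨g1, hg1, hg1'⟩ := hC1 (u - blk R N n a) l k1
      obtain ⟨g2, hg2, hg2'⟩ := hC1 (blk R N n a) (l - cblk R n N a) k2
      have h1 : Sys.Std (blk R N n a) l := by
        refine UC2_std_act g2⁻¹ hstd ?_ ?_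
        · rw [hg2', UC2_tv', k2, Matrix.mul_zero, sub_zero]
        · rw [inv_inv, hg2, UC2_vt, haa, Matrix.one_mul]
          abel
      refine UC2_std_act g1 h1 ?_ ?_
      · rw [hg1, UC2_tv, hle, Matrix.mul_one]
        abel
      · rw [hg1', UC2_vt', k1, Matrix.zero_mul, sub_zero]
  · intro a b k l ha hb hab hlk hpk hle
    have haa := hA1 n N a ha
    have hbb := hA1 n N b hb
    have hba : cblk R n N b * blk R N n a = 0 := hA2 n n N b a hab.symm
    have hab' : cblk R n N a * blk R N n b = 0 := hA2 n n N a b hab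
    have horth : Sys.Orth (blk R N n a) (cblk R n N b) := by
      obtain ⟨w, hw1, hw2, hw3, hw4⟩ := hC2 a b ha hb hab
      exact ⟨w, hw1.symm, hw4.symm⟩
    have k1 : cblk R n N a * (k - blk R N n a) = 0 := by
      rw [Matrix.mul_sub, hpk, haa, sub_self]
    obtain ⟨g1, hg1, hg1'⟩ := hC1 (k - blk R N n a) (cblk R n N a) k1
    obtain ⟨l', hl'⟩ : ∃ l', l' = l - l * blk R N n a * cblk R n N a := ⟨_, rfl⟩
    have hl'a : l' * blk R N n a = 0 := by
      rw [hl', Matrix.sub_mul, Matrix.mul_assoc _ (cblk R n N a), haa, Matrix.mul_one, sub_self]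
    have hl'b : l' * blk R N n b = 1 := by
      rw [hl', Matrix.sub_mul, Matrix.mul_assoc _ (cblk R n N a), hab', Matrix.mul_zero, sub_zero,
        hle]
    have k2 : (l' - cblk R n N b) * blk R N n b = 0 := by
      rw [Matrix.sub_mul, hl'b, hbb, sub_self]
    obtain ⟨g2, hg2, hg2'⟩ := hC1 (blk R N n b) (l' - cblk R n N b) k2
    have h1 : Sys.Orth (blk R N n a) l' := by
      refine UC2_orth_act g2⁻¹ horth ?_ ?_
      · rw [hg2', UC2_tv', Matrix.sub_mul, hl'a, hba, sub_self, Matrix.mul_zero, sub_zero]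
      · rw [inv_inv, hg2, UC2_vt, hbb, Matrix.one_mul]
        abel
    refine UC2_orth_act g1 h1 ?_ ?_
    · rw [hg1, UC2_tv, haa, Matrix.mul_one]
      abel
    · rw [hg1', UC2_vt', Matrix.mul_sub, hl'a, sub_zero, hl']
      rw [Matrix.sub_mul, hlk, Matrix.mul_assoc _ (cblk R n N a) k, hpk, Matrix.mul_one,
        zero_sub, Matrix.neg_mul]
      abel
  · intro hN u l hpu hle hlu
    have h00 := hA1 n N 0 (by omega)
    have h11 := hA1 n N n (by omega)
    have h10 : cblk R n N n * blk R N n 0 = 0 := hA2 n n N n 0 (Or.inr (by omega))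
    have h01 : cblk R n N 0 * blk R N n n = 0 := hA2 n n N 0 n (Or.inl (by omega))
    have k1 : cblk R n N n * (u - blk R N n n) = 0 := by
      rw [Matrix.mul_sub, hpu, h11, sub_self]
    obtain ⟨g1, hg1, hg1'⟩ := hC1 (u - blk R N n n) (cblk R n N n) k1
    obtain ⟨z, hz⟩ : ∃ z, z = l - cblk R n N 0 + cblk R n N 0 * u * cblk R n N n := ⟨_, rfl⟩
    have hze : z * blk R N n 0 = 0 := by
      rw [hz, Matrix.add_mul, Matrix.sub_mul, hle, h00, Matrix.mul_assoc _ (cblk R n N n), h10,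
        Matrix.mul_zero, sub_self, add_zero]
    have hzu : z * u = 0 := by
      rw [hz, Matrix.add_mul, Matrix.sub_mul, hlu, Matrix.mul_assoc _ (cblk R n N n), hpu,
        Matrix.mul_one, zero_sub, neg_add_cancel]
    obtain ⟨g2, hg2, hg2'⟩ := hC1 (blk R N n 0) z hze
    refine ⟨g2⁻¹ * g1, ?_, ?_, ?_, ?_⟩
    · rw [Units.val_mul, Matrix.mul_assoc, hg1, UC2_tv, h10, Matrix.mul_zero, add_zero, hg2',
        UC2_tv', hze, Matrix.mul_zero, sub_zero]
    · rw [Units.val_mul, Matrix.mul_assoc, hg1, UC2_tv, h11, Matrix.mul_one, add_sub_cancel, hg2',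
        UC2_tv', hzu, Matrix.mul_zero, sub_zero]
    · rw [mul_inv_rev, inv_inv, Units.val_mul, ← Matrix.mul_assoc, hg1', hg2, UC2_vt',
        Matrix.mul_sub, h01, sub_zero, UC2_vt, Matrix.sub_mul, h00,
        Matrix.mul_assoc _ (cblk R n N n), h10, Matrix.mul_zero, sub_zero, Matrix.one_mul, hz]
      abel
    · rw [mul_inv_rev, inv_inv, Units.val_mul, ← Matrix.mul_assoc, hg1', hg2, UC2_vt', k1,
        Matrix.zero_mul, sub_zero, UC2_vt, h10, Matrix.zero_mul, add_zero]

end Pool.Agent.SLZ
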