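import Pool.Agent.SLZ.StU

/-!
# SLZ, UD: the two first differences at the standard orthogonal pair (helper71)
-/

set_option autoImplicit false
set_option linter.unusedVariables false

noncomputable section

namespace Pool.Agent.SLZ

open Matrix

/-- **UD.** The two first differences at the standard orthogonal pair. -/
theorem thm_UD (hA1 : St_UA1) (hB : St_UB) (hC1 : St_UC1) (hC2 : St_UC2) : St_UD := by
  intro R _ S k0 k2 n2 h1 h2 n N h hbig c
  obtain ⟨a1, a2, -, -, -, -⟩ := hA1 R
  obtain ⟨b1, b2, -, -, -⟩ := hB R S k0 h1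
  obtain ⟨t1, t2, -⟩ := hC1 R n N
  obtain ⟨-, -, c3⟩ := hC2 R n N
  have hk0 : k0 n ≤ N := hbig.k0
  have h4 : 4 * n ≤ N := hbig.four
  have pe : cblk R n N 0 * blk R N n 0 = 1 := a1 n N 0 (by omega)
  have p'e' : cblk R n N n * blk R N n n = 1 := a1 n N n (by omega)
  have p3e3 : cblk R n N (2 * n) * blk R N n (2 * n) = 1 := a1 n N (2 * n) (by omega)
  have pe' : cblk R n N 0 * blk R N n n = 0 := a2 n n N 0 n (Or.inl (by omega))
  have p'e : cblk R n N n * blk R N n 0 = 0 := a2 n n N n 0 (Or.inr (by omega))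
  have pe3 : cblk R n N 0 * blk R N n (2 * n) = 0 := a2 n n N 0 (2 * n) (Or.inl (by omega))
  have p'e3 : cblk R n N n * blk R N n (2 * n) = 0 := a2 n n N n (2 * n) (Or.inl (by omega))
  have p3e : cblk R n N (2 * n) * blk R N n 0 = 0 := a2 n n N (2 * n) 0 (Or.inr (by omega))
  have p3e' : cblk R n N (2 * n) * blk R N n n = 0 := a2 n n N (2 * n) n (Or.inr (by omega))
  set e := blk R N n 0 with he
  set p := cblk R n N 0 with hp
  set e' := blk R N n n with he'
  set p' := cblk R n N n with hp'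
  set e3 := blk R N n (2 * n) with he3
  set p3 := cblk R n N (2 * n) with hp3
  -- the equation from `H2`
  obtain ⟨w, w1, w2, w3, w4⟩ := t2 n 0 (by omega) (by omega) (Or.inr (by omega))
  obtain ⟨t, ht, ht'⟩ := t1 e p' p'e
  have hST : S.F h c e p = S.ST h c := by
    have := b1 n N h hk0 1 c
    rw [Units.val_one, Matrix.one_mul, inv_one, Units.val_one, Matrix.mul_one, one_smul] at this
    exact this
  have hwST : S.F h c e' p' = w • S.ST h c := by
    have := b1 n N h hk0 w c
    rw [w1, w3] at this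
    exact this
  have eq0 : S.F h c e (p - p') + S.F h c (e' + e) p' = S.F h c e p + S.F h c e' p' := by
    have h5 := h2 n N h hbig.n2 hbig.k2 (by omega) w t w1 w3 ht c
    rw [smul_add, ← hwST, ← hST, b2 n N h hk0, b2 n N h hk0] at h5
    have q1 : t.1 * e = e := by
      rw [ht, Matrix.add_mul, Matrix.one_mul, Matrix.mul_assoc, p'e, Matrix.mul_zero, add_zero]
    have q2 : p * (t⁻¹).1 = p - p' := by
      rw [ht', Matrix.mul_sub, Matrix.mul_one, ← Matrix.mul_assoc, pe, Matrix.one_mul]
    have q3 : t.1 * e' = e' + e := by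
      rw [ht, Matrix.add_mul, Matrix.one_mul, Matrix.mul_assoc, p'e', Matrix.mul_one]
    have q4 : p' * (t⁻¹).1 = p' := by
      rw [ht', Matrix.mul_sub, Matrix.mul_one, ← Matrix.mul_assoc, p'e, Matrix.zero_mul, sub_zero]
    rw [q1, q2, q3, q4] at h5
    exact h5
  have eqA : S.F h c (e' + e) p' - S.F h c e' p' = S.F h c e p - S.F h c e (p - p') := by
    rw [sub_eq_sub_iff_add_eq_add, ← eq0]
    exact add_comm _ _
  have claim : ∀ (y : Matrix (Fin N) (Fin n) R) (m : Matrix (Fin n) (Fin N) R), p' * y = 1 →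
      m * e = 1 → m * y = 0 →
      S.F h c (y + e) p' - S.F h c y p' = S.F h c e m - S.F h c e (m - p') := by
    intro y m hy hm hmy
    obtain ⟨g, g1, g2, g3, g4⟩ := c3 (by omega) y m hy hm hmy
    have h6 := congrArg (g • ·) eqA
    simp only [smul_sub] at h6
    rw [b2 n N h hk0, b2 n N h hk0, b2 n N h hk0, b2 n N h hk0, Matrix.mul_add, g1, g2, g3, g4,
      Matrix.sub_mul, g3, g4] at h6
    exact h6
  have part1 : ∀ y : Matrix (Fin N) (Fin n) R, p' * y = 1 →
      S.F h c (y + e) p' - S.F h c y p' = S.F h c e p - S.F h c e (p - p') := by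
    intro y hy
    set x : Matrix (Fin N) (Fin n) R := e' + e3 * (p3 * y + 1) with hx
    set β : Matrix (Fin n) (Fin n) R := p * y with hβ
    set m : Matrix (Fin n) (Fin N) R := p + (-(β * (p3 * y + 1))) * p' + β * p3 with hm
    have me : m * e = 1 := by
      rw [hm, Matrix.add_mul, Matrix.add_mul, pe, Matrix.mul_assoc, p'e, Matrix.mul_zero,
        Matrix.mul_assoc, p3e, Matrix.mul_zero, add_zero, add_zero]
    have my : m * y = 0 := by
      rw [hm, Matrix.add_mul, Matrix.add_mul, Matrix.mul_assoc, hy, Matrix.mul_one,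
        Matrix.mul_assoc β p3 y, Matrix.mul_add, Matrix.mul_one, ← hβ]
      abel
    have p'x : p' * x = 1 := by
      rw [hx, Matrix.mul_add, p'e', ← Matrix.mul_assoc, p'e3, Matrix.zero_mul, add_zero]
    have px : p * x = 0 := by
      rw [hx, Matrix.mul_add, pe', ← Matrix.mul_assoc, pe3, Matrix.zero_mul, add_zero]
    have p3x : p3 * x = p3 * y + 1 := by
      rw [hx, Matrix.mul_add, p3e', ← Matrix.mul_assoc, p3e3, Matrix.one_mul, zero_add]
    have mx : m * x = 0 := by
      rw [hm, Matrix.add_mul, Matrix.add_mul, px, Matrix.mul_assoc, p'x, Matrix.mul_one,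
        Matrix.mul_assoc β p3 x, p3x, zero_add, neg_add_cancel]
    rw [claim y m hy me my, ← claim x m p'x me mx, claim x p p'x pe px]
  refine ⟨part1, fun m hm => ?_⟩
  have hy : p' * (e' - e * (m * e')) = 1 := by
    rw [Matrix.mul_sub, p'e', ← Matrix.mul_assoc, p'e, Matrix.zero_mul, sub_zero]
  have hmy : m * (e' - e * (m * e')) = 0 := by
    rw [Matrix.mul_sub, ← Matrix.mul_assoc, hm, Matrix.one_mul, sub_self]
  rw [← claim _ m hy hm hmy]
  exact part1 _ hy

end Pool.Agent.SLZ
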