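import Pool.Agent.SLZ.StU

/-!
# SLZ, UE0: the first differences at an orthogonal pair (helper71)
-/

set_option autoImplicit false
set_option linter.unusedVariables false

noncomputable section

namespace Pool.Agent.SLZ

open Matrix

/-- **UE0.** The first differences at an orthogonal pair. -/
theorem thm_UE0 (hB : St_UB) (hD : St_UD) : St_UE0 := by
  intro R _ S k0 k2 n2 h1 h2 n N h hbig c k l hkl
  obtain ⟨-, b2, -, -, -⟩ := hB R S k0 h1
  obtain ⟨d1, d2⟩ := hD R S k0 k2 n2 h1 h2 n N h hbig c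
  have hk0 : k0 n ≤ N := hbig.k0
  obtain ⟨g, hk, hl⟩ := hkl
  have gg : g.1 * (g⁻¹).1 = 1 := g.mul_inv
  have gi : (g⁻¹).1 * g.1 = 1 := g.inv_mul
  refine ⟨g, fun u hu => ?_, fun v hv => ?_⟩
  · have hy : cblk R n N n * ((g⁻¹).1 * u) = 1 := by
      rw [← Matrix.mul_assoc, ← hl, hu]
    have h5 := congrArg (g • ·) (d1 _ hy)
    rw [smul_sub, b2 n N h hk0, b2 n N h hk0, Matrix.mul_add, ← Matrix.mul_assoc, gg,
      Matrix.one_mul, ← hk, ← hl] at h5
    exact h5
  · have hm : v * g.1 * blk R N n 0 = 1 := by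
      rw [Matrix.mul_assoc, ← hk, hv]
    have h5 := congrArg (g • ·) (d2 _ hm)
    rw [smul_sub, b2 n N h hk0, b2 n N h hk0, Matrix.sub_mul, Matrix.mul_assoc, gg,
      Matrix.mul_one, ← hk, ← hl] at h5
    exact h5

end Pool.Agent.SLZ
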