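import Pool.Agent.SLZ.StU

/-!
# SLZ, UE1: the first difference in the first variable (helper71)
-/

set_option autoImplicit false
set_option linter.unusedVariables false

noncomputable section

namespace Pool.Agent.SLZ

open Matrix

/-- **UE1.** The first difference in the first variable. -/
theorem thm_UE1 (hA1 : St_UA1) (hB : St_UB) (hC1 : St_UC1) (hC2 : St_UC2) (hE0 : St_UE0) :
    St_UE1 := by
  intro R _ S k0 k2 n2 h1 h2 n N h hbig c k l hl hlk
  obtain ⟨a1, a2, -, -, -, -⟩ := hA1 R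
  obtain ⟨-, b2, -, -, -⟩ := hB R S k0 h1
  obtain ⟨-, t2, -⟩ := hC1 R n N
  obtain ⟨-, c2, -⟩ := hC2 R n N
  have hk0 : k0 n ≤ N := hbig.k0
  have h4 : 4 * n ≤ N := hbig.four
  have pe : cblk R n N 0 * blk R N n 0 = 1 := a1 n N 0 (by omega)
  have p'e' : cblk R n N n * blk R N n n = 1 := a1 n N n (by omega)
  have p3e3 : cblk R n N (2 * n) * blk R N n (2 * n) = 1 := a1 n N (2 * n) (by omega)
  have p'e : cblk R n N n * blk R N n 0 = 0 := a2 n n N n 0 (Or.inr (by omega))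
  have pe3 : cblk R n N 0 * blk R N n (2 * n) = 0 := a2 n n N 0 (2 * n) (Or.inl (by omega))
  have p'e3 : cblk R n N n * blk R N n (2 * n) = 0 := a2 n n N n (2 * n) (Or.inl (by omega))
  have p3e : cblk R n N (2 * n) * blk R N n 0 = 0 := a2 n n N (2 * n) 0 (Or.inr (by omega))
  obtain ⟨y, hy⟩ := hl
  obtain ⟨w, w1, w2, w3, w4⟩ := t2 n 0 (by omega) (by omega) (Or.inr (by omega))
  set e := blk R N n 0 with he
  set p := cblk R n N 0 with hp
  set e' := blk R N n n with he'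
  set p' := cblk R n N n with hp'
  set e3 := blk R N n (2 * n) with he3
  set p3 := cblk R n N (2 * n) with hp3
  set g : GLn R N := y * w with hg
  have hlg : l = p' * (g⁻¹).1 := by
    rw [hg, _root_.mul_inv_rev, Units.val_mul, ← Matrix.mul_assoc, w4, hy]
  have gg : g.1 * (g⁻¹).1 = 1 := g.mul_inv
  set kk := (g⁻¹).1 * k with hkk
  have p'kk : p' * kk = 0 := by rw [hkk, ← Matrix.mul_assoc, ← hlg, hlk]
  set k1 := e3 - e * (1 - p * kk) with hk1
  set k2' := kk - k1 with hk2'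
  have q1 : p3 * k1 = 1 := by
    rw [hk1, Matrix.mul_sub, p3e3, ← Matrix.mul_assoc, p3e, Matrix.zero_mul, sub_zero]
  have q2 : p' * k1 = 0 := by
    rw [hk1, Matrix.mul_sub, p'e3, ← Matrix.mul_assoc, p'e, Matrix.zero_mul, sub_zero]
  have q3 : p * k2' = 1 := by
    rw [hk2', hk1, Matrix.mul_sub, Matrix.mul_sub, pe3, ← Matrix.mul_assoc p e, pe, Matrix.one_mul]
    abel
  have q4 : p' * k2' = 0 := by rw [hk2', Matrix.mul_sub, p'kk, q2, sub_zero]
  have o1 : Sys.Orth k1 p' := c2 (2 * n) n k1 p' (by omega) (by omega) (Or.inr (by omega)) q2 q1 p'e'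
  have o2 : Sys.Orth k2' p' := c2 0 n k2' p' (by omega) (by omega) (Or.inl (by omega)) q4 q3 p'e'
  obtain ⟨g1, hg1, -⟩ := hE0 R S k0 k2 n2 h1 h2 n N h hbig c k1 p' o1
  obtain ⟨g2, hg2, -⟩ := hE0 R S k0 k2 n2 h1 h2 n N h hbig c k2' p' o2
  refine ⟨g • (g2 • (S.F h c e p - S.F h c e (p - p')) +
    g1 • (S.F h c e p - S.F h c e (p - p'))), fun u hu => ?_, fun hD => ?_⟩
  · have hy' : p' * ((g⁻¹).1 * u) = 1 := by rw [← Matrix.mul_assoc, ← hlg, hu]
    have r1 := hg1 _ hy'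
    have r2 := hg2 ((g⁻¹).1 * u + k1) (by rw [Matrix.mul_add, hy', q2, add_zero])
    rw [← r1, ← r2, sub_add_sub_cancel, add_assoc, hk2', add_sub_cancel, smul_sub,
      b2 n N h hk0, b2 n N h hk0, Matrix.mul_add, ← Matrix.mul_assoc, gg, Matrix.one_mul, hkk,
      ← Matrix.mul_assoc, gg, Matrix.one_mul, ← hlg]
  · rw [hD, sub_self, smul_zero, smul_zero, add_zero, smul_zero]

end Pool.Agent.SLZ
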