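import Pool.Agent.SLZ.StU

/-!
# SLZ, UE2: the first difference in the second variable (helper71)
-/

set_option autoImplicit false
set_option linter.unusedVariables false

noncomputable section

namespace Pool.Agent.SLZ

open Matrix

/-- **UE2.** The first difference in the second variable. -/
theorem thm_UE2 (hA1 : St_UA1) (hB : St_UB) (hC2 : St_UC2) (hE0 : St_UE0) : St_UE2 := by
  intro R _ S k0 k2 n2 h1 h2 n N h hbig c k l hk hlk
  obtain ⟨a1, a2, -, -, -, -⟩ := hA1 R
  obtain ⟨-, b2, -, -, -⟩ := hB R S k0 h1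
  obtain ⟨-, c2, -⟩ := hC2 R n N
  have hk0 : k0 n ≤ N := hbig.k0
  have h4 : 4 * n ≤ N := hbig.four
  have pe : cblk R n N 0 * blk R N n 0 = 1 := a1 n N 0 (by omega)
  have p'e' : cblk R n N n * blk R N n n = 1 := a1 n N n (by omega)
  have p3e3 : cblk R n N (2 * n) * blk R N n (2 * n) = 1 := a1 n N (2 * n) (by omega)
  have p'e : cblk R n N n * blk R N n 0 = 0 := a2 n n N n 0 (Or.inr (by omega))
  have p'e3 : cblk R n N n * blk R N n (2 * n) = 0 := a2 n n N n (2 * n) (Or.inl (by omega))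
  have p3e : cblk R n N (2 * n) * blk R N n 0 = 0 := a2 n n N (2 * n) 0 (Or.inr (by omega))
  have p3e' : cblk R n N (2 * n) * blk R N n n = 0 := a2 n n N (2 * n) n (Or.inr (by omega))
  obtain ⟨g, hkg⟩ := hk
  set e := blk R N n 0 with he
  set p := cblk R n N 0 with hp
  set e' := blk R N n n with he'
  set p' := cblk R n N n with hp'
  set e3 := blk R N n (2 * n) with he3
  set p3 := cblk R n N (2 * n) with hp3
  have gg : g.1 * (g⁻¹).1 = 1 := g.mul_inv
  set ll := l * g.1 with hll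
  have lle : ll * e = 0 := by rw [hll, Matrix.mul_assoc, ← hkg, hlk]
  set l1 := p3 - (1 - ll * e') * p' with hl1
  set l2 := ll - l1 with hl2
  have q1 : l1 * e = 0 := by
    rw [hl1, Matrix.sub_mul, p3e, Matrix.mul_assoc, p'e, Matrix.mul_zero, sub_zero]
  have q2 : l1 * e3 = 1 := by
    rw [hl1, Matrix.sub_mul, p3e3, Matrix.mul_assoc, p'e3, Matrix.mul_zero, sub_zero]
  have q3 : l2 * e = 0 := by rw [hl2, Matrix.sub_mul, lle, q1, sub_zero]
  have q4 : l2 * e' = 1 := by
    rw [hl2, hl1, Matrix.sub_mul, Matrix.sub_mul, p3e', Matrix.mul_assoc _ p' e', p'e', Matrix.mul_one]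
    abel
  have o1 : Sys.Orth e l1 := c2 0 (2 * n) e l1 (by omega) (by omega) (Or.inl (by omega)) q1 pe q2
  have o2 : Sys.Orth e l2 := c2 0 n e l2 (by omega) (by omega) (Or.inl (by omega)) q3 pe q4
  obtain ⟨g1, -, hg1⟩ := hE0 R S k0 k2 n2 h1 h2 n N h hbig c e l1 o1
  obtain ⟨g2, -, hg2⟩ := hE0 R S k0 k2 n2 h1 h2 n N h hbig c e l2 o2
  refine ⟨g • (g2 • (S.F h c e p - S.F h c e (p - p')) +
    g1 • (S.F h c e p - S.F h c e (p - p'))), fun v hv => ?_, fun hD => ?_⟩
  · have hv' : v * g.1 * e = 1 := by rw [Matrix.mul_assoc, ← hkg, hv]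
    have r1 := hg1 (v * g.1 + l1) (by rw [Matrix.add_mul, hv', q1, add_zero])
    have r2 := hg2 (v * g.1 + l1 + l2)
      (by rw [Matrix.add_mul, Matrix.add_mul, hv', q1, q3, add_zero, add_zero])
    rw [add_sub_cancel_right] at r1 r2
    rw [← r1, ← r2, sub_add_sub_cancel, add_assoc, hl2, add_sub_cancel, smul_sub,
      b2 n N h hk0, b2 n N h hk0, Matrix.add_mul, Matrix.mul_assoc, gg, Matrix.mul_one, hll,
      Matrix.mul_assoc, gg, Matrix.mul_one, ← hkg]
  · rw [hD, sub_self, smul_zero, smul_zero, add_zero, smul_zero]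

end Pool.Agent.SLZ
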