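import Pool.Agent.SLZ.StU

/-!
# SLZ, UF: the second difference is natural for `GL_n` (helper71)
-/

set_option autoImplicit false
set_option linter.unusedVariables false

noncomputable section

namespace Pool.Agent.SLZ

open Matrix

/-- **UF.** The second difference is natural for `GL_n`. -/
theorem thm_UF (hA1 : St_UA1) (hA2 : St_UA2) (hB : St_UB) (hC2 : St_UC2) (hE1 : St_UE1)
    (hE2 : St_UE2) : St_UF := by
  intro R _ S k0 k2 n2 h1 h2 n N h hbig b hnb hbN c g k l hpk hqk hle hlx hlk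
  obtain ⟨a1, a2, -, -, a5, -⟩ := hA1 R
  obtain ⟨-, b2, -, b4, -⟩ := hB R S k0 h1
  obtain ⟨c1, -, -⟩ := hC2 R n N
  have hk0 : k0 n ≤ N := hbig.k0
  -- products of blocks
  have pe : cblk R n N 0 * blk R N n 0 = 1 := a1 n N 0 (by omega)
  have qx : cblk R n N b * blk R N n b = 1 := a1 n N b hbN
  have qe : cblk R n N b * blk R N n 0 = 0 := a2 n n N b 0 (Or.inr (by omega))
  have px : cblk R n N 0 * blk R N n b = 0 := a2 n n N 0 b (Or.inl (by omega))
  set e := blk R N n 0 with he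
  set p := cblk R n N 0 with hp
  set x := blk R N n b with hx
  set q := cblk R n N b with hq
  have gi : (g⁻¹).1 * g.1 = 1 := g.inv_mul
  set k' := k * g.1 with hk'
  set l' := (g⁻¹).1 * l with hl'
  have lk' : l' * k' = 0 := by
    rw [hl', hk', Matrix.mul_assoc, ← Matrix.mul_assoc l, hlk, Matrix.zero_mul, Matrix.mul_zero]
  have pk' : p * k' = 0 := by rw [hk', ← Matrix.mul_assoc, hpk, Matrix.zero_mul]
  have qk' : q * k' = 0 := by rw [hk', ← Matrix.mul_assoc, hqk, Matrix.zero_mul]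
  have le' : l' * e = 0 := by rw [hl', Matrix.mul_assoc, hle, Matrix.mul_zero]
  have lx' : l' * x = 0 := by rw [hl', Matrix.mul_assoc, hlx, Matrix.mul_zero]
  have leg' : l' * (e * g.1) = 0 := by rw [← Matrix.mul_assoc, le', Matrix.zero_mul]
  have gpk : (g⁻¹).1 * p * k' = 0 := by rw [Matrix.mul_assoc, pk', Matrix.mul_zero]
  have gpeg : (g⁻¹).1 * p * (e * g.1) = 1 := by
    rw [Matrix.mul_assoc, ← Matrix.mul_assoc p, pe, Matrix.one_mul, gi]
  have qeg : q * (e * g.1) = 0 := by rw [← Matrix.mul_assoc, qe, Matrix.zero_mul]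
  have gpx : (g⁻¹).1 * p * x = 0 := by rw [Matrix.mul_assoc, px, Matrix.mul_zero]
  -- the second differences
  let Δ : Matrix (Fin N) (Fin n) R → Matrix (Fin n) (Fin N) R → S.M N := fun u v =>
    S.F h c (u + k') (v + l') - S.F h c u (v + l') - S.F h c (u + k') v + S.F h c u v
  have hL : S.B h (g • c) k l = Δ (e * g.1) ((g⁻¹).1 * p) := by
    change S.F h (g • c) (e + k) (p + l) - S.F h (g • c) e (p + l) - S.F h (g • c) (e + k) p +
      S.F h (g • c) e p = _
    rw [b4 n N h hk0, b4 n N h hk0, b4 n N h hk0, b4 n N h hk0, Matrix.add_mul, Matrix.mul_add]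
  have hR : S.B h c (k * g.1) ((g⁻¹).1 * l) = Δ e p := rfl
  have stepA : ∀ (v : Matrix (Fin n) (Fin N) R) (u u' : Matrix (Fin N) (Fin n) R),
      v * u = 1 → v * u' = 1 → l' * u = 0 → l' * u' = 0 → v * k' = 0 → v * x = 1 →
      Δ u v = Δ u' v := by
    intro v u u' h1u h1u' h2u h2u' h3 h4
    have f1 : ∃ y : GLn R N, v = p * (y⁻¹).1 := by
      obtain ⟨y, -, hy⟩ := c1 b x v hbN h4 (Or.inr h4)
      exact ⟨y, hy⟩
    have f2 : ∃ y : GLn R N, v + l' = p * (y⁻¹).1 := by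
      have h5 : (v + l') * x = 1 := by rw [Matrix.add_mul, h4, lx', add_zero]
      obtain ⟨y, -, hy⟩ := c1 b x (v + l') hbN h5 (Or.inr h5)
      exact ⟨y, hy⟩
    obtain ⟨d, hd, -⟩ := hE1 R S k0 k2 n2 h1 h2 n N h hbig c k' (v + l') f2
      (by rw [Matrix.add_mul, h3, lk', add_zero])
    obtain ⟨d', hd', -⟩ := hE1 R S k0 k2 n2 h1 h2 n N h hbig c k' v f1 h3
    have r1 := hd u (by rw [Matrix.add_mul, h1u, h2u, add_zero])
    have r2 := hd u' (by rw [Matrix.add_mul, h1u', h2u', add_zero])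
    have r3 := hd' u h1u
    have r4 := hd' u' h1u'
    change S.F h c (u + k') (v + l') - S.F h c u (v + l') - S.F h c (u + k') v + S.F h c u v =
      S.F h c (u' + k') (v + l') - S.F h c u' (v + l') - S.F h c (u' + k') v + S.F h c u' v
    rw [r1, r2, sub_add, sub_add, r3, r4]
  have stepB : ∀ (u : Matrix (Fin N) (Fin n) R) (v v' : Matrix (Fin n) (Fin N) R),
      v * u = 1 → v' * u = 1 → v * k' = 0 → v' * k' = 0 → l' * u = 0 →
      (∃ y : GLn R N, u = y.1 * e) → (∃ y : GLn R N, u + k' = y.1 * e) →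
      Δ u v = Δ u v' := by
    intro u v v' h1v h1v' h2v h2v' h3 f1 f2
    obtain ⟨d, hd, -⟩ := hE2 R S k0 k2 n2 h1 h2 n N h hbig c (u + k') l' f2
      (by rw [Matrix.mul_add, h3, lk', add_zero])
    obtain ⟨d', hd', -⟩ := hE2 R S k0 k2 n2 h1 h2 n N h hbig c u l' f1 h3
    have r1 := hd v (by rw [Matrix.mul_add, h1v, h2v, add_zero])
    have r2 := hd v' (by rw [Matrix.mul_add, h1v', h2v', add_zero])
    have r3 := hd' v h1v
    have r4 := hd' v' h1v'
    have key : ∀ w, Δ u w = (S.F h c (u + k') (w + l') - S.F h c (u + k') w) -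
        (S.F h c u (w + l') - S.F h c u w) := fun w => by
      change S.F h c (u + k') (w + l') - S.F h c u (w + l') - S.F h c (u + k') w +
        S.F h c u w = _
      abel
    rw [key, key, r1, r2, r3, r4]
  -- the forms
  have fe : ∃ y : GLn R N, e = y.1 * e := ⟨1, by rw [Units.val_one, Matrix.one_mul]⟩
  have fek : ∃ y : GLn R N, e + k' = y.1 * e := by
    have h5 : p * (e + k') = 1 := by rw [Matrix.mul_add, pe, pk', add_zero]
    obtain ⟨y, hy, -⟩ := c1 0 (e + k') p (by omega) h5 (Or.inl h5)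
    exact ⟨y, hy⟩
  have fx : ∃ y : GLn R N, x = y.1 * e := by
    obtain ⟨y, hy, -⟩ := c1 b x q hbN qx (Or.inl qx)
    exact ⟨y, hy⟩
  have fxk : ∃ y : GLn R N, x + k' = y.1 * e := by
    have h5 : q * (x + k') = 1 := by rw [Matrix.mul_add, qx, qk', add_zero]
    obtain ⟨y, hy, -⟩ := c1 b (x + k') q hbN h5 (Or.inl h5)
    exact ⟨y, hy⟩
  obtain ⟨-, -, l3, -, l5, l6, -⟩ := hA2 R n N h
  obtain ⟨g', hg', -⟩ := l3 g
  have feg : ∃ y : GLn R N, e * g.1 = y.1 * e := ⟨g', by rw [hg', (l5 g.1).1]⟩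
  have fegk : ∃ y : GLn R N, e * g.1 + k' = y.1 * e := by
    obtain ⟨y, hy⟩ := fek
    refine ⟨g' * y, ?_⟩
    have h6 : g'.1 * k' = k' := by rw [hg', l6 g.1 n k' pk']
    rw [Units.val_mul, Matrix.mul_assoc, ← hy, Matrix.mul_add, h6, hg', (l5 g.1).1]
  rw [hL, hR]
  have s1 : ((g⁻¹).1 * p + q) * x = 1 := by rw [Matrix.add_mul, gpx, qx, zero_add]
  have s2 : ((g⁻¹).1 * p + q) * k' = 0 := by rw [Matrix.add_mul, gpk, qk', zero_add]
  have s3 : ((g⁻¹).1 * p + q) * (e * g.1) = 1 := by rw [Matrix.add_mul, gpeg, qeg, add_zero]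
  have s4 : (q + p) * x = 1 := by rw [Matrix.add_mul, qx, px, add_zero]
  have s5 : (q + p) * k' = 0 := by rw [Matrix.add_mul, qk', pk', add_zero]
  have s6 : (q + p) * e = 1 := by rw [Matrix.add_mul, qe, pe, zero_add]
  calc Δ (e * g.1) ((g⁻¹).1 * p) = Δ (e * g.1) ((g⁻¹).1 * p + q) :=
        stepB _ _ _ gpeg s3 gpk s2 leg' feg fegk
    _ = Δ x ((g⁻¹).1 * p + q) := stepA _ _ _ s3 s1 leg' lx' s2 s1
    _ = Δ x (q + p) := stepB _ _ _ s1 s4 s2 s5 lx' fx fxk
    _ = Δ e (q + p) := stepA _ _ _ s4 s6 lx' le' s5 s4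
    _ = Δ e p := stepB _ _ _ s6 pe s5 pk' le' fe fek

end Pool.Agent.SLZ
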