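import Pool.Agent.SLZ.StU

/-!
# SLZ, part U: module UG. The extension lemma.
-/

set_option autoImplicit false
set_option linter.unusedVariables false

noncomputable section

namespace Pool.Agent.SLZ

/-- the iterated stabilization maps are injective if the stabilization maps are -/
theorem UG_inj (h3 : St_UA3) (R : Type) [CommRing R] (T : Sys R)
    (hinj : ∀ (n : ℕ) (f : T.M n), T.st n f = 0 → f = 0) (n N : ℕ) (h : n ≤ N) (x : T.M n)
    (hx : T.ST h x = 0) : x = 0 := by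
  obtain ⟨T1, T2, -⟩ := h3 R T
  induction N, h using Nat.le_induction with
  | base => rwa [T1] at hx
  | succ N hN ih =>
    rw [T2 n N hN] at hx
    exact ih (hinj N _ hx)

/-- the extension of an equivariant map to all levels -/
theorem UG_ext (h3 : St_UA3) (R : Type) [CommRing R] (S T : Sys R) (N1 n1 : ℕ) (H3 : S.H3 N1)
    (hn : N1 ≤ n1)
    (ht : ∀ (n : ℕ) (t : GLn R (n + 2)), t.1 * blk R (n + 2) n 0 = blk R (n + 2) n 0 →
      cblk R n (n + 2) 0 * t.1 = cblk R n (n + 2) 0 → ∀ d : T.M n,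
      t • T.st (n + 1) (T.st n d) = T.st (n + 1) (T.st n d))
    (β0 : S.M n1 →+ T.M n1) (β1 : S.M (n1 + 1) →+ T.M (n1 + 1))
    (hβ1 : ∀ (g : GLn R (n1 + 1)) (c : S.M (n1 + 1)), β1 (g • c) = g • β1 c)
    (hβ : ∀ c : S.M n1, β1 (S.st n1 c) = T.st n1 (β0 c)) (N : ℕ) (h : n1 ≤ N) :
    ∃ (β : S.M N →+ T.M N) (β' : S.M (N + 1) →+ T.M (N + 1)),
      (∀ (g : GLn R (N + 1)) (c : S.M (N + 1)), β' (g • c) = g • β' c) ∧
      (∀ c : S.M N, β' (S.st N c) = T.st N (β c)) ∧
      ∀ (h' : n1 + 1 ≤ N + 1) (c : S.M (n1 + 1)), β' (S.ST h' c) = T.ST h' (β1 c) := by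
  obtain ⟨S1, S2, -⟩ := h3 R S
  obtain ⟨T1, T2, -⟩ := h3 R T
  induction N, h using Nat.le_induction with
  | base =>
    refine ⟨β0, β1, hβ1, hβ, fun h' c => ?_⟩
    rw [S1, T1]
  | succ N hN ih =>
    obtain ⟨β, β', hg, hst, hST⟩ := ih
    obtain ⟨hgen, huniv⟩ := H3 N (hn.trans hN)
    obtain ⟨γ, hγ⟩ := huniv (T.M (N + 2))
      (fun g => (DistribSMul.toAddMonoidHom (T.M (N + 2)) g).comp ((T.st (N + 1)).comp β'))
      (by
        intro g h h' hh c
        change (g * h') • T.st (N + 1) (β' c) = g • T.st (N + 1) (β' (h • c))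
        rw [hg, T.st_smul (N + 1) h h' hh, mul_smul])
      (by
        intro g t t1 t2 d
        change (g * t) • T.st (N + 1) (β' (S.st N d)) = g • T.st (N + 1) (β' (S.st N d))
        rw [hst, mul_smul, ht N t t1 t2])
    have hγ' : ∀ (g : GLn R (N + 2)) (c : S.M (N + 1)),
        γ (g • S.st (N + 1) c) = g • T.st (N + 1) (β' c) := hγ
    have hγ1 : ∀ c : S.M (N + 1), γ (S.st (N + 1) c) = T.st (N + 1) (β' c) := by
      intro c
      have := hγ' 1 c
      rwa [one_smul, one_smul] at this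
    refine ⟨β', γ, ?_, hγ1, ?_⟩
    · intro g c
      have hc : c ∈ AddSubgroup.closure {x : S.M (N + 2) | ∃ (g : GLn R (N + 2))
          (c : S.M (N + 1)), x = g • S.st (N + 1) c} := by
        rw [hgen]
        exact AddSubgroup.mem_top c
      induction hc using AddSubgroup.closure_induction with
      | mem x hx =>
        obtain ⟨g0, c0, rfl⟩ := hx
        rw [← mul_smul, hγ', hγ', mul_smul]
      | zero => rw [smul_zero, map_zero, smul_zero]
      | add x y _ _ hx hy => rw [smul_add, map_add, map_add, smul_add, hx, hy]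
      | neg x _ hx => rw [smul_neg, map_neg, map_neg, smul_neg, hx]
    · intro h' c
      have h0 : n1 + 1 ≤ N + 1 := by omega
      rw [S2 (n1 + 1) (N + 1) h0 h', T2 (n1 + 1) (N + 1) h0 h', hγ1, hST]

theorem thm_UG (h3 : St_UA3) : St_UG := by
  intro R _ S T N1 n1 H3 H4 hn hinj ht β0 β1 hβ1 hβ c
  obtain ⟨N, hN, hc⟩ := H4 (n1 + 1) c
  obtain ⟨M, rfl⟩ : ∃ M, N = M + 1 := ⟨N - 1, by omega⟩
  obtain ⟨β, β', -, -, hST⟩ := UG_ext h3 R S T N1 n1 H3 hn ht β0 β1 hβ1 hβ M (by omega)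
  have h1 := hST hN c
  rw [hc, map_zero] at h1
  exact UG_inj h3 R T hinj _ _ hN _ h1.symm

end Pool.Agent.SLZ
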