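import Pool.Agent.SLZ.StU

/-!
# SLZ, part U: module UH. If `D = 0`, then `GL_n` acts trivially on `ST c`.
-/

set_option autoImplicit false
set_option linter.unusedVariables false

noncomputable section

namespace Pool.Agent.SLZ

theorem thm_UH (h1 : St_UA1) (h2 : St_UA2) (hB : St_UB) (hC2 : St_UC2) (hE1 : St_UE1) (hE2 : St_UE2) :
    St_UH := by
  intro R _ S k0 k2 n2 H1 H2 n N h hBig c hD g g' hg'
  have hle := hBig.le
  have h4 := hBig.four
  obtain ⟨A1, A2, -, -, -, -⟩ := h1 R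
  obtain ⟨-, -, B3, -, B5, -, -⟩ := h2 R n N hle
  obtain ⟨F1, -, -, -, -⟩ := hB R S k0 H1
  obtain ⟨C1, -, -⟩ := hC2 R n N
  have E1 := hE1 R S k0 k2 n2 H1 H2 n N h hBig c
  have E2 := hE2 R S k0 k2 n2 H1 H2 n N h hBig c
  -- the inverse of g'
  have hg'i : (g'⁻¹).1 = lmat n N (g⁻¹).1 := by
    obtain ⟨g'', hg1, hg2⟩ := B3 g
    have he : g'' = g' := Units.ext (by rw [hg1, hg'])
    rw [← he]
    exact hg2
  set e : Matrix (Fin N) (Fin n) R := blk R N n 0 with he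
  set e' : Matrix (Fin N) (Fin n) R := blk R N n n with he'
  set p : Matrix (Fin n) (Fin N) R := cblk R n N 0 with hp
  set p' : Matrix (Fin n) (Fin N) R := cblk R n N n with hp'
  have pe : p * e = 1 := A1 n N 0 (by omega)
  have p'e' : p' * e' = 1 := A1 n N n (by omega)
  have pe' : p * e' = 0 := A2 n n N 0 n (Or.inl (by omega))
  have p'e : p' * e = 0 := A2 n n N n 0 (Or.inr (by omega))
  have hge : g'.1 * e = e * g.1 := by
    rw [hg']
    exact (B5 g.1).1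
  have hpg : p * (g'⁻¹).1 = (g⁻¹).1 * p := by
    rw [hg'i]
    exact (B5 (g⁻¹).1).2
  have hgi : (g⁻¹).1 * g.1 = (1 : Matrix (Fin n) (Fin n) R) := g.inv_mul
  have hF0 : S.F h c (e * g.1) ((g⁻¹).1 * p) = g' • S.ST h c := by
    have := F1 n N h hBig.k0 g' c
    rw [← he, ← hp, hge, hpg] at this
    exact this
  have hF5 : S.F h c e p = S.ST h c := by
    have := F1 n N h hBig.k0 1 c
    rw [← he, ← hp, inv_one, Units.val_one, Matrix.one_mul, Matrix.mul_one, one_smul] at this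
    exact this
  -- products
  have q1 : (g⁻¹).1 * p * (e * g.1) = 1 := by
    rw [Matrix.mul_assoc, ← Matrix.mul_assoc p, pe, Matrix.one_mul, hgi]
  have q2 : p' * (e * g.1) = 0 := by
    rw [← Matrix.mul_assoc, p'e, Matrix.zero_mul]
  have q3 : (g⁻¹).1 * p * e' = 0 := by
    rw [Matrix.mul_assoc, pe', Matrix.mul_zero]
  -- step 1
  have s1 : S.F h c (e * g.1) ((g⁻¹).1 * p + p') = S.F h c (e * g.1) ((g⁻¹).1 * p) := by
    obtain ⟨d, hd, hd0⟩ := E2 (e * g.1) p' ⟨g', hge.symm⟩ q2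
    have := hd ((g⁻¹).1 * p) q1
    rw [hd0 hD] at this
    exact sub_eq_zero.1 this
  -- step 2
  have l1 : ((g⁻¹).1 * p + p') * e' = 1 := by
    rw [Matrix.add_mul, q3, p'e', zero_add]
  have l2 : ((g⁻¹).1 * p + p') * (e * g.1) = 1 := by
    rw [Matrix.add_mul, q1, q2, add_zero]
  have s2 : S.F h c e' ((g⁻¹).1 * p + p') = S.F h c (e * g.1) ((g⁻¹).1 * p + p') := by
    obtain ⟨y, hy1, hy2⟩ := C1 n e' ((g⁻¹).1 * p + p') (by omega) l1 (Or.inl p'e')
    obtain ⟨d, hd, hd0⟩ := E1 (e' - e * g.1) ((g⁻¹).1 * p + p') ⟨y, hy2⟩ (by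
      rw [Matrix.mul_sub, l1, l2, sub_self])
    have := hd (e * g.1) l2
    rw [hd0 hD, add_sub_cancel] at this
    exact sub_eq_zero.1 this
  -- step 3
  have m1 : (p' + p) * e' = 1 := by
    rw [Matrix.add_mul, p'e', pe', add_zero]
  have s3 : S.F h c e' (p' + p) = S.F h c e' ((g⁻¹).1 * p + p') := by
    obtain ⟨y, hy1, hy2⟩ := C1 n e' p' (by omega) p'e' (Or.inl p'e')
    obtain ⟨d, hd, hd0⟩ := E2 e' (p - (g⁻¹).1 * p) ⟨y, hy1⟩ (by
      rw [Matrix.sub_mul, pe', q3, sub_zero])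
    have := hd ((g⁻¹).1 * p + p') l1
    have hs : (g⁻¹).1 * p + p' + (p - (g⁻¹).1 * p) = p' + p := by abel
    rw [hd0 hD, hs] at this
    exact sub_eq_zero.1 this
  -- step 4
  have m2 : (p' + p) * e = 1 := by
    rw [Matrix.add_mul, p'e, pe, zero_add]
  have s4 : S.F h c e (p' + p) = S.F h c e' (p' + p) := by
    obtain ⟨y, hy1, hy2⟩ := C1 n e' (p' + p) (by omega) m1 (Or.inl p'e')
    obtain ⟨d, hd, hd0⟩ := E1 (e - e') (p' + p) ⟨y, hy2⟩ (by
      rw [Matrix.mul_sub, m1, m2, sub_self])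
    have := hd e' m1
    rw [hd0 hD, add_sub_cancel] at this
    exact sub_eq_zero.1 this
  -- step 5
  have s5 : S.F h c e (p' + p) = S.F h c e p := by
    obtain ⟨d, hd, hd0⟩ := E2 e p' ⟨1, by rw [Units.val_one, Matrix.one_mul]⟩ p'e
    have := hd p pe
    rw [hd0 hD, add_comm p p'] at this
    exact sub_eq_zero.1 this
  rw [← hF0, ← s1, ← s2, ← s3, ← s4, s5, hF5]

end Pool.Agent.SLZ
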