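import Pool.Agent.SLZ.StU

/-!
# SLZ, UJ: if the second difference vanishes for one good pair, then `D = 0` (helper71)
-/

set_option autoImplicit false
set_option linter.unusedVariables false

noncomputable section

namespace Pool.Agent.SLZ

open Matrix

/-- **UJ.** If the second difference vanishes for one good pair, then `D = 0`. -/
theorem thm_UJ (hA1 : St_UA1) (hC2 : St_UC2) (hE0 : St_UE0) : St_UJ := by
  intro R _ S k0 k2 n2 h1 h2 n N h hbig a b hna hnb haN hbN hab c hB
  obtain ⟨a1, a2, -, -, -, -⟩ := hA1 R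
  obtain ⟨-, c2, -⟩ := hC2 R n N
  have h4 : 4 * n ≤ N := hbig.four
  have pe : cblk R n N 0 * blk R N n 0 = 1 := a1 n N 0 (by omega)
  have ae : cblk R n N a * blk R N n a = 1 := a1 n N a haN
  have be : cblk R n N b * blk R N n b = 1 := a1 n N b hbN
  have pa : cblk R n N 0 * blk R N n a = 0 := a2 n n N 0 a (Or.inl (by omega))
  have pb : cblk R n N 0 * blk R N n b = 0 := a2 n n N 0 b (Or.inl (by omega))
  have ba : cblk R n N b * blk R N n a = 0 := a2 n n N b a hab.symm
  have b0 : cblk R n N b * blk R N n 0 = 0 := a2 n n N b 0 (Or.inr (by omega))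
  have hB' : S.F h c (blk R N n 0 + blk R N n a) (cblk R n N 0 + cblk R n N b) -
      S.F h c (blk R N n 0) (cblk R n N 0 + cblk R n N b) -
      S.F h c (blk R N n 0 + blk R N n a) (cblk R n N 0) +
      S.F h c (blk R N n 0) (cblk R n N 0) = 0 := hB
  set e := blk R N n 0 with he
  set p := cblk R n N 0 with hp
  set k := blk R N n a with hk
  set l := cblk R n N b with hl
  set q := cblk R n N a with hq
  have o1 : Sys.Orth k (p + l) := c2 a b k (p + l) haN hbN hab
    (by rw [Matrix.add_mul, pa, ba, add_zero]) ae (by rw [Matrix.add_mul, pb, be, zero_add])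
  have o2 : Sys.Orth k p := c2 a 0 k p haN (by omega) (Or.inr (by omega)) pa ae pe
  have o3 : Sys.Orth k l := c2 a b k l haN hbN hab ba ae be
  obtain ⟨g1, x1, y1⟩ := hE0 R S k0 k2 n2 h1 h2 n N h hbig c k (p + l) o1
  obtain ⟨g2, x2, y2⟩ := hE0 R S k0 k2 n2 h1 h2 n N h hbig c k p o2
  obtain ⟨g3, -, y3⟩ := hE0 R S k0 k2 n2 h1 h2 n N h hbig c k l o3
  have r1 := (x1 e (by rw [Matrix.add_mul, pe, b0, add_zero])).trans (y1 q ae).symm
  have r2 := (x2 e pe).trans (y2 (q - l) (by rw [Matrix.sub_mul, ae, ba, sub_zero])).symm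
  have r3 := y3 q ae
  have e1 : q - (p + l) = q - l - p := by abel
  rw [e1] at r1
  have h5 : S.F h c k q - S.F h c k (q - l) = 0 := by
    have h6 : S.F h c (e + k) (p + l) - S.F h c e (p + l) - S.F h c (e + k) p + S.F h c e p =
        (S.F h c (e + k) (p + l) - S.F h c e (p + l)) - (S.F h c (e + k) p - S.F h c e p) := by
      abel
    rw [h6, r1, r2] at hB'
    rw [← hB']
    abel
  rw [h5] at r3
  have h7 : S.F h c e p - S.F h c e (p - cblk R n N n) = 0 := by
    have h8 := congrArg (g3⁻¹ • ·) r3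
    simp only [smul_zero, inv_smul_smul] at h8
    exact h8.symm
  exact sub_eq_zero.1 h7

end Pool.Agent.SLZ
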