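import Pool.Agent.SLZ.StU

/-!
# SLZ, part U: module UN, generation
-/

set_option autoImplicit false
set_option linter.unusedVariables false

noncomputable section

namespace Pool.Agent.SLZ

theorem thm_UN (h2 : St_UA2) (h3 : St_UA3) : St_UN := by
  intro R _ S N1 hH n N h hn
  obtain ⟨a1, a2, -, -, -, -, -, -⟩ := h3 R S
  induction N, h using Nat.le_induction with
  | base =>
    rw [eq_top_iff]
    intro c _
    refine AddSubgroup.subset_closure ⟨1, c, ?_⟩
    rw [one_smul, a1]
  | succ N hN ih =>
    obtain ⟨N', rfl⟩ : ∃ N', N = N' + 1 := ⟨N - 1, by omega⟩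
    have hgen := (hH N' (by omega)).1
    rw [eq_top_iff, ← hgen, AddSubgroup.closure_le]
    rintro _ ⟨g, c, rfl⟩
    have hc : c ∈ AddSubgroup.closure {x : S.M (N' + 1) | ∃ (g : GLn R (N' + 1)) (c : S.M n),
        x = g • S.ST hN c} := by
      rw [ih]
      exact AddSubgroup.mem_top c
    show g • S.st (N' + 1) c ∈ AddSubgroup.closure _
    induction hc using AddSubgroup.closure_induction with
    | mem x hx =>
      obtain ⟨g1, c1, rfl⟩ := hx
      obtain ⟨g', hg', -⟩ := (h2 R (N' + 1) (N' + 1 + 1) (Nat.le_succ _)).2.2.1 g1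
      refine AddSubgroup.subset_closure ⟨g * g', c1, ?_⟩
      rw [S.st_smul (N' + 1) g1 g' hg', mul_smul, a2 n (N' + 1) hN]
    | zero =>
      rw [map_zero, smul_zero]
      exact AddSubgroup.zero_mem _
    | add x y _ _ hx hy =>
      rw [map_add, smul_add]
      exact AddSubgroup.add_mem _ hx hy
    | neg x _ hx =>
      rw [map_neg, smul_neg]
      exact AddSubgroup.neg_mem _ hx

end Pool.Agent.SLZ
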