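import Pool.Agent.SLZ.StU

/-!
# SLZ UP: the system of functions of two variables
-/

set_option autoImplicit false
set_option linter.unusedVariables false

noncomputable section

namespace Pool.Agent.SLZ

/-- functions of two variables -/
abbrev UP_M (R : Type) (X : Type) (a b n : ℕ) : Type :=
  Matrix (Fin a) (Fin n) R → Matrix (Fin n) (Fin b) R → X

/-- the action -/
def UP_act (R : Type) [CommRing R] (X : Type) [AddCommGroup X] (a b n : ℕ) :
    DistribMulAction (GLn R n) (UP_M R X a b n) where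
  smul g f := fun k l => f (k * g.1) ((g⁻¹).1 * l)
  one_smul f := by
    funext k l
    change f (k * (1 : GLn R n).1) (((1 : GLn R n)⁻¹).1 * l) = f k l
    rw [inv_one, Units.val_one, Matrix.mul_one, Matrix.one_mul]
  mul_smul g h f := by
    funext k l
    change f (k * (g * h).1) (((g * h)⁻¹).1 * l) = f ((k * g.1) * h.1) ((h⁻¹).1 * ((g⁻¹).1 * l))
    rw [mul_inv_rev, Units.val_mul, Units.val_mul, Matrix.mul_assoc, Matrix.mul_assoc]
  smul_zero g := rfl
  smul_add g f f' := rfl

/-- the stabilization map -/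
def UP_st (R : Type) [CommRing R] (X : Type) [AddCommGroup X] (a b n : ℕ) :
    UP_M R X a b n →+ UP_M R X a b (n + 1) where
  toFun f := fun k l => f (k * blk R (n + 1) n 0) (cblk R n (n + 1) 0 * l)
  map_zero' := rfl
  map_add' _ _ := rfl

/-- the system -/
def UP_T (h2 : St_UA2) (R : Type) [CommRing R] (X : Type) [AddCommGroup X] (a b : ℕ) :
    Sys R where
  M n := UP_M R X a b n
  grp n := inferInstance
  act n := UP_act R X a b n
  st n := UP_st R X a b n
  st_smul := by
    intro n g g' hg' c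
    obtain ⟨-, -, h3, -, h5, -, -⟩ := h2 R n (n + 1) (Nat.le_succ n)
    obtain ⟨g'', e1, e2⟩ := h3 g
    have e3 : g'' = g' := Units.ext (e1.trans hg'.symm)
    rw [e3] at e2
    funext k l
    change c (k * blk R (n + 1) n 0 * g.1) ((g⁻¹).1 * (cblk R n (n + 1) 0 * l)) =
      c (k * g'.1 * blk R (n + 1) n 0) (cblk R n (n + 1) 0 * ((g'⁻¹).1 * l))
    rw [hg', e2, Matrix.mul_assoc, Matrix.mul_assoc, (h5 g.1).1, ← Matrix.mul_assoc (g⁻¹).1,
      ← Matrix.mul_assoc (cblk R n (n + 1) 0), (h5 (g⁻¹).1).2]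

theorem thm_UP (h1 : St_UA1) (h2 : St_UA2) : St_UP := by
  intro R _ X _ a b
  exact ⟨UP_T h2 R X a b, fun n => AddEquiv.refl _, fun n g f k l => rfl, fun n f k l => rfl⟩

end Pool.Agent.SLZ
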