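import Pool.Agent.SLZ.StU

/-!
# SLZ, UX: the coinvariants vanish (helper24)
-/

set_option autoImplicit false
set_option linter.unusedVariables false

noncomputable section

namespace Pool.Agent.SLZ

/-- the subgroup of the `g c - c` -/
def UX_I {R : Type} [CommRing R] (S : Sys R) (n : ℕ) : AddSubgroup (S.M n) :=
  AddSubgroup.closure {x : S.M n | ∃ (g : GLn R n) (c : S.M n), x = g • c - c}

theorem UX_step {R : Type} [CommRing R] (S : Sys R) (N1 : ℕ) (h3 : S.H3 N1) (N : ℕ)
    (hN : N1 ≤ N) (c : S.M (N + 1)) (hc : S.st (N + 1) c ∈ UX_I S (N + 2)) :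
    c ∈ UX_I S (N + 1) := by
  obtain ⟨hgen, huni⟩ := h3 N hN
  have hmk : ∀ (h : GLn R (N + 1)) (c : S.M (N + 1)),
      (QuotientAddGroup.mk' (UX_I S (N + 1))) (h • c) =
        (QuotientAddGroup.mk' (UX_I S (N + 1))) c := by
    intro h c
    have h1 : h • c - c ∈ UX_I S (N + 1) := AddSubgroup.subset_closure ⟨h, c, rfl⟩
    have h2 : (QuotientAddGroup.mk' (UX_I S (N + 1))) (h • c - c) = 0 := by
      rw [← AddMonoidHom.mem_ker, QuotientAddGroup.ker_mk']
      exact h1
    rw [map_sub] at h2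
    exact sub_eq_zero.1 h2
  obtain ⟨β, hβ⟩ := huni (S.M (N + 1) ⧸ UX_I S (N + 1))
    (fun _ => QuotientAddGroup.mk' (UX_I S (N + 1)))
    (fun g h h' _ c => (hmk h c).symm) (fun g t _ _ d => rfl)
  -- `β` is invariant
  have hinv : ∀ (y : S.M (N + 2)) (g : GLn R (N + 2)), β (g • y) = β y := by
    intro y
    have hy : y ∈ AddSubgroup.closure {x : S.M (N + 2) | ∃ (g : GLn R (N + 2)) (c : S.M (N + 1)),
        x = g • S.st (N + 1) c} := by
      rw [hgen]
      exact AddSubgroup.mem_top y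
    induction hy using AddSubgroup.closure_induction with
    | mem x hx =>
      obtain ⟨g', c, rfl⟩ := hx
      intro g
      rw [← mul_smul, hβ, hβ]
    | zero =>
      intro g
      rw [smul_zero]
    | add x y _ _ hx hy =>
      intro g
      rw [smul_add, map_add, map_add, hx, hy]
    | neg x _ hx =>
      intro g
      rw [smul_neg, map_neg, map_neg, hx]
  have hzero : ∀ y ∈ UX_I S (N + 2), β y = 0 := by
    intro y hy
    have h1 : UX_I S (N + 2) ≤ β.ker := by
      rw [UX_I, AddSubgroup.closure_le]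
      rintro _ ⟨g, c, rfl⟩
      change β (g • c - c) = 0
      rw [map_sub, hinv, sub_self]
    exact h1 hy
  have h4 := hβ 1 c
  rw [one_smul, hzero _ hc] at h4
  have h5 : c ∈ (QuotientAddGroup.mk' (UX_I S (N + 1))).ker := h4.symm
  rwa [QuotientAddGroup.ker_mk'] at h5

theorem thm_UX (h3 : St_UA3) : St_UX := by
  intro R _ S N1 hH3 hH4 n hn
  obtain ⟨s1, s2, -⟩ := h3 R S
  have key : ∀ (c : S.M n) (N : ℕ) (h : n ≤ N), S.ST h c ∈ UX_I S N → c ∈ UX_I S n := by
    intro c N h
    induction N, h using Nat.le_induction with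
    | base =>
      intro hc
      rw [s1] at hc
      exact hc
    | succ N h ih =>
      intro hc
      apply ih
      obtain ⟨k, rfl⟩ : ∃ k, N = k + 1 := ⟨N - 1, by omega⟩
      refine UX_step S N1 hH3 k (by omega) _ ?_
      rw [← s2 n (k + 1) h]
      exact hc
  rw [eq_top_iff]
  intro c _
  obtain ⟨N, h, hc⟩ := hH4 n c
  refine key c N h ?_
  rw [hc]
  exact AddSubgroup.zero_mem _

end Pool.Agent.SLZ
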