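import Pool.Agent.SLZ.UU
import Pool.Agent.SLZ.UA1
import Pool.Agent.SLZ.UA2
import Pool.Agent.SLZ.UA3
import Pool.Agent.SLZ.UB
import Pool.Agent.SLZ.UC1
import Pool.Agent.SLZ.UC2
import Pool.Agent.SLZ.UD
import Pool.Agent.SLZ.UE0
import Pool.Agent.SLZ.UE1
import Pool.Agent.SLZ.UE2
import Pool.Agent.SLZ.UF
import Pool.Agent.SLZ.UG
import Pool.Agent.SLZ.UP
import Pool.Agent.SLZ.UX
import Pool.Agent.SLZ.UN
import Pool.Agent.SLZ.UJ
import Pool.Agent.SLZ.UH
import Pool.Agent.SLZ.SB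
import Pool.Agent.SLZ.SD
import Pool.Agent.SLZ.SM
import Pool.Agent.SLZ.SC
import Pool.Agent.SLZ.SE
import Pool.Agent.SLZ.SH
import Pool.Agent.SLZ.SH3
import Pool.Agent.SLZ.SU
import Pool.Agent.SLZ.S0

/-!
# SLZ: parts U and S without hypotheses (helper83)
-/

set_option autoImplicit false

namespace Pool.Agent.SLZ

theorem all_UA1 : St_UA1 := thm_UA1
theorem all_UA2 : St_UA2 := thm_UA2 all_UA1
theorem all_UA3 : St_UA3 := thm_UA3 all_UA1 all_UA2
theorem all_UB : St_UB := thm_UB all_UA1 all_UA2 all_UA3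
theorem all_UC1 : St_UC1 := thm_UC1 all_UA1
theorem all_UC2 : St_UC2 := thm_UC2 all_UA1 all_UC1
theorem all_UD : St_UD := thm_UD all_UA1 all_UB all_UC1 all_UC2
theorem all_UE0 : St_UE0 := thm_UE0 all_UB all_UD
theorem all_UE1 : St_UE1 := thm_UE1 all_UA1 all_UB all_UC1 all_UC2 all_UE0
theorem all_UE2 : St_UE2 := thm_UE2 all_UA1 all_UB all_UC2 all_UE0
theorem all_UF : St_UF := thm_UF all_UA1 all_UA2 all_UB all_UC2 all_UE1 all_UE2
theorem all_UG : St_UG := thm_UG all_UA3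
theorem all_UP : St_UP := thm_UP all_UA1 all_UA2
theorem all_UX : St_UX := thm_UX all_UA3
theorem all_UN : St_UN := thm_UN all_UA2 all_UA3
theorem all_UJ : St_UJ := thm_UJ all_UA1 all_UC2 all_UE0
theorem all_UH : St_UH := thm_UH all_UA1 all_UA2 all_UB all_UC2 all_UE1 all_UE2
theorem all_U : St_U :=
  thm_U all_UA1 all_UA2 all_UA3 all_UB all_UC2 all_UF all_UG all_UP all_UX all_UN all_UJ all_UH
theorem all_SC : St_SC := thm_SC all_UA1 all_UA2
theorem all_SE : St_SE := thm_SE all_SC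
theorem all_SH : St_SH := thm_SH all_SC
theorem all_SH3 : St_SH3 := thm_SH3 thm_SB thm_SD all_SC all_SE all_SH
theorem all_SU : St_SU := thm_SU thm_SM all_SH3 all_U all_UA3
theorem all_S0 : St_S0 := thm_S0 thm_SM all_SH3 all_UX all_UA3

end Pool.Agent.SLZ
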