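import Pool.Agent.SLZ.Defs

/-!
# SLZ, part D: acyclic carriers and the delta lemma (captain helper12)

`K` a complex which is exact at the lengths `< i + 1`, `i ≥ 1`. For a map `μ : V → V → V'` into the vertices of a complex `K'` such
that the vertices `μ x y`, `x ∈ l`, `y ∈ l'` (`l, l' ∈ K`) span a cone: for cycles `z` of dimension `i`
`μ(z, z) ~ μ(z, L) + μ(L, z)` (`L` a vertex).
-/

set_option autoImplicit false
set_option linter.unusedVariables false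

noncomputable section

namespace Pool.Agent.SLZ

section

variable {V : Type}

/-- the unreduced boundary of a nonempty list: the boundary of a list with one vertex is `0` -/
def ubL : List V → (List V →₀ ℤ)
  | [] => 0
  | [v] => 0
  | v :: w :: l => bdL (v :: w :: l)

/-- the unreduced boundary -/
def ub : (List V →₀ ℤ) →ₗ[ℤ] (List V →₀ ℤ) := Finsupp.lift (List V →₀ ℤ) ℤ (List V) ubL

/-- the product `a ⊗ b` of two chains, a chain on pairs of lists -/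
def tz (a b : List V →₀ ℤ) : (List V × List V →₀ ℤ) :=
  a.sum fun l m => b.sum fun l' m' => Finsupp.single (l, l') (m * m')

/-- the boundary of a pair: `∂ l ⊗ l' + (-1)^(dim l) l ⊗ ∂ l'` -/
def tbL (p : List V × List V) : (List V × List V →₀ ℤ) :=
  tz (ubL p.1) (Finsupp.single p.2 1) + (-1 : ℤ) ^ (p.1.length - 1) • tz (Finsupp.single p.1 1) (ubL p.2)

/-- the boundary of the tensor product of the chain complexes -/
def tb : (List V × List V →₀ ℤ) →ₗ[ℤ] (List V × List V →₀ ℤ) :=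
  Finsupp.lift (List V × List V →₀ ℤ) ℤ (List V × List V) tbL

/-- the Alexander-Whitney map: `[x_0, .., x_p] ↦ ∑_k [x_0, .., x_k] ⊗ [x_k, .., x_p]` -/
def awL : List V → (List V × List V →₀ ℤ)
  | [] => 0
  | x :: l => Finsupp.single ([x], x :: l) 1 + (awL l).mapDomain fun p => (x :: p.1, p.2)

/-- the Alexander-Whitney map -/
def aw : (List V →₀ ℤ) →ₗ[ℤ] (List V × List V →₀ ℤ) :=
  Finsupp.lift (List V × List V →₀ ℤ) ℤ (List V) awL

/-- chains on the pairs of nonempty lists of `K` of total dimension `n` -/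
def TCh (K : Cx V) (n : ℕ) : Submodule ℤ (List V × List V →₀ ℤ) :=
  Finsupp.supported ℤ ℤ {p | p.1 ∈ K.s ∧ p.2 ∈ K.s ∧ p.1 ≠ [] ∧ p.2 ≠ [] ∧
    p.1.length + p.2.length = n + 2}

end

/-- **DA** (1.5 h). Acyclic carriers. `B` basis elements of degree `deg`, boundary `d`, `G b` an exact complex for every basis element `b ∈ S`
(`φ` is a chain map carried by `G` which preserves the augmentation).

Proof. For `b ∈ S` with `deg b = 0` we have `d b = 0` (first hypothesis). (1) Define `φ b` by recursion on `deg b`: `deg b = 0`: `[]` is a cycle of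
length 0 of `G b` (`[] ∈ (G b).s` by hypothesis), so it is a boundary (`Ex (G b) 0`). `deg b = n + 1`: `φ (d b)` is a chain of `G b` of length `n + 1` and a
cycle: `bd (φ (d b)) = φ (d (d b)) = 0` if `n ≥ 1` and `= (∑ coefficients of d b) [] = 0` if `n = 0`. (2) the same recursion for `H`:
`φ b - ψ b - H (d b)` is a cycle of length `deg b + 1` of `G b`. -/
def St_DA : Prop := ∀ (B V' : Type) (deg : B → ℕ) (S : Set B) (G : B → Cx V')
  (d : (B →₀ ℤ) →ₗ[ℤ] (B →₀ ℤ)),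
  (∀ b ∈ S, ∀ b', d (Finsupp.single b 1) b' ≠ 0 → b' ∈ S ∧ deg b = deg b' + 1 ∧
    (G b').s ⊆ (G b).s) →
  (∀ b ∈ S, d (d (Finsupp.single b 1)) = 0) →
  (∀ b ∈ S, deg b = 1 → ((d (Finsupp.single b 1)).sum fun _ m => m) = 0) →
  (∀ b ∈ S, [] ∈ (G b).s ∧ ∀ j, Ex (G b) j) →
  (∃ φ : (B →₀ ℤ) →ₗ[ℤ] (List V' →₀ ℤ), ∀ b ∈ S,
    φ (Finsupp.single b 1) ∈ Ch (G b).s (deg b + 1) ∧
    bd (φ (Finsupp.single b 1)) =
      if deg b = 0 then Finsupp.single [] 1 else φ (d (Finsupp.single b 1))) ∧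
  (∀ φ ψ : (B →₀ ℤ) →ₗ[ℤ] (List V' →₀ ℤ),
    (∀ b ∈ S, φ (Finsupp.single b 1) ∈ Ch (G b).s (deg b + 1) ∧
      bd (φ (Finsupp.single b 1)) =
        if deg b = 0 then Finsupp.single [] 1 else φ (d (Finsupp.single b 1))) →
    (∀ b ∈ S, ψ (Finsupp.single b 1) ∈ Ch (G b).s (deg b + 1) ∧
      bd (ψ (Finsupp.single b 1)) =
        if deg b = 0 then Finsupp.single [] 1 else ψ (d (Finsupp.single b 1))) →
    ∃ H : (B →₀ ℤ) →ₗ[ℤ] (List V' →₀ ℤ), ∀ b ∈ S,
      H (Finsupp.single b 1) ∈ Ch (G b).s (deg b + 2) ∧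
      bd (H (Finsupp.single b 1)) + H (d (Finsupp.single b 1)) =
        φ (Finsupp.single b 1) - ψ (Finsupp.single b 1))

/-- **DB** (1.5 h). Unreduced boundary, tensor product, Alexander-Whitney.

Proof. `ubL l` is the part of `bdL l` without the empty list. (1) `bd` and `ub` agree on lists of length `≥ 2`; `bd (bd c) = 0`. (2), (3) direct. (4)
`tb (tb (l, l')) = 0`: the mixed terms have opposite signs, `ub (ub l) = 0`. (5), (6) sum of the coefficients: `ub l` has coefficient sum `0` if `l` has length 2.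
(7) by induction on the list: `ub (x :: l) = l - x (bd l)` for `l ≠ []`; the terms `([x], x :: l)` and `x ·(aw l)`. (8), (9) supports. -/
def St_DB : Prop := ∀ V : Type,
  (∀ l : List V, 2 ≤ l.length → ubL l = bdL l) ∧
  (∀ c : List V →₀ ℤ, ub (ub c) = 0) ∧
  (∀ a b : List V →₀ ℤ, ∀ p : ℕ, (∀ l ∈ a.support, l.length = p + 1) →
    tb (tz a b) = tz (ub a) b + (-1 : ℤ) ^ p • tz a (ub b)) ∧
  (∀ p : List V × List V, p.1 ≠ [] → p.2 ≠ [] → tb (tb (Finsupp.single p 1)) = 0) ∧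
  (∀ p : List V × List V, p.1 ≠ [] → p.2 ≠ [] → p.1.length + p.2.length = 3 →
    ((tb (Finsupp.single p 1)).sum fun _ m => m) = 0) ∧
  (∀ l : List V, l.length = 2 → ((ub (Finsupp.single l 1)).sum fun _ m => m) = 0) ∧
  (∀ l : List V, l ≠ [] → tb (awL l) = aw (ubL l)) ∧
  (∀ (K : Cx V) (n : ℕ), (∀ l ∈ K.s, l.length = n + 1 → awL l ∈ TCh K n) ∧
    (∀ c ∈ Ch K.s (n + 2), ub c ∈ Ch K.s (n + 1)) ∧ (∀ c ∈ TCh K (n + 1), tb c ∈ TCh K n) ∧
    (∀ c ∈ TCh K 0, tb c = 0)) ∧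
  (∀ (K : Cx V) (p q : ℕ) (a b : List V →₀ ℤ), a ∈ Ch K.s (p + 1) → b ∈ Ch K.s (q + 1) →
    tz a b ∈ TCh K (p + q))

/-- **DC** (0.8 h). A partial contraction.

Proof. `h` on lists by length: length 1: `h [x]` with `bd (h [x]) = [x] - [L]` (`Ex K 1`); length `p + 1`, `2 ≤ p + 1 ≤ i`:
`l - h (ub l)` is a cycle of length `p + 1 ≤ i` (for `p = 1`: `bd (h (ub l)) = ub l - (∑ coefficients) [L] = ub l`), so it is a boundary; `h = 0` on longer lists. -/
def St_DC : Prop := ∀ (V : Type) (K : Cx V) (L : V) (i : ℕ), 1 ≤ i → [L] ∈ K.s → Conn K (i + 1) →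
  ∃ h : (List V →₀ ℤ) →ₗ[ℤ] (List V →₀ ℤ),
    (∀ p, p + 1 ≤ i → ∀ c ∈ Ch K.s (p + 1), h c ∈ Ch K.s (p + 2)) ∧
    (∀ c, (∀ l ∈ c.support, i < l.length) → h c = 0) ∧
    (∀ x, [x] ∈ K.s → bd (h (Finsupp.single [x] 1)) = Finsupp.single [x] 1 - Finsupp.single [L] 1) ∧
    (∀ p, 1 ≤ p → p + 1 ≤ i → ∀ c ∈ Ch K.s (p + 1), bd (h c) + h (ub c) = c)

/-- **DD** (2 h). The diagonal in the tensor product: `aw z - z ⊗ [L] - [L] ⊗ z` is a boundary for a cycle `z` of dimension `i`.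

Proof. `H (a ⊗ b) = (-1)^p a ⊗ h b` for `a` of dimension `p` (`h` from `St_DC`; extended linearly from pairs of lists). On `a ⊗ b`, `b` of dimension `q`:
`tb H + H tb` is: the identity if `1 ≤ q ≤ i - 1`; `a ⊗ b - ε(b) a ⊗ [L]` if `q = 0`; `a ⊗ h (ub b)` if `q = i`, `p = 0`. As `tb (aw z) = aw (ub z) = 0`:
`aw z - tb (H (aw z)) = z ⊗ [L] + ∑_σ c_σ [v_0(σ)] ⊗ (σ - h (ub σ))`, `z = ∑ c_σ σ`, `v_0(σ)` the first vertex (the component of `aw z` of bidegree `(i, 0)` is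
`∑ c_σ σ ⊗ [last vertex]`, that of bidegree `(0, i)` is `∑ c_σ [v_0(σ)] ⊗ σ`). The chains `φ(σ) = σ - h (ub σ)` are cycles (`ub φ(σ) = 0`), so
`[v] ⊗ φ(σ) - [L] ⊗ φ(σ) = tb (h [v] ⊗ φ(σ))`, and `∑ c_σ φ(σ) = z - h (ub z) = z`. -/
def St_DD : Prop := ∀ (V : Type) (K : Cx V) (L : V) (i : ℕ), 1 ≤ i → [L] ∈ K.s → Conn K (i + 1) →
  ∀ z ∈ Ch K.s (i + 1), bd z = 0 → ∃ w ∈ TCh K (i + 1),
    tb w = aw z - tz z (Finsupp.single [L] 1) - tz (Finsupp.single [L] 1) z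

/-- **DL** (1.5 h). The delta lemma.

Proof. Carriers `G (l, l')`: the lists `t ∈ K'` all of whose vertices are `μ x y` with `x ∈ l`, `y ∈ l'`; exact because it is a cone (`St_MA` (6)).
`St_DA` for `B = List V × List V`, `S` the pairs of nonempty lists of `K`, `d = tb`: a chain map `m` (the product). `z ↦ m (aw z)` and
`z ↦ z.map (μ x x)` are chain maps from the unreduced complex of `K` (`B = List V`, `S` the nonempty lists, `d = ub`) carried by
`l ↦ G (l, l)`, so by `St_DA` (2) their values on `z` differ by a boundary. In the same way `m (z ⊗ [L]) ~ z.map (μ x L)` (carriers `G (l, [L])`) and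
`m ([L] ⊗ z) ~ z.map (μ L x)`. Apply `m` to `St_DD`: `m (tb w) = bd (m w)`. -/
def St_DL : Prop := ∀ (V V' : Type) (K : Cx V) (K' : Cx V') (μ : V → V → V') (L : V) (i : ℕ),
  1 ≤ i → [L] ∈ K.s → Conn K (i + 1) →
  (∀ l ∈ K.s, ∀ l' ∈ K.s, l ≠ [] → l' ≠ [] → ∃ x ∈ l, ∃ y ∈ l', ∀ t ∈ K'.s,
    (∀ v ∈ t, ∃ x' ∈ l, ∃ y' ∈ l', v = μ x' y') → μ x y :: t ∈ K'.s) →
  [] ∈ K'.s →
  (∀ l ∈ K.s, l.map (fun x => μ x x) ∈ K'.s ∧ l.map (fun x => μ x L) ∈ K'.s ∧
    l.map (fun x => μ L x) ∈ K'.s) →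
  ∀ z ∈ Ch K.s (i + 1), bd z = 0 → ∃ y ∈ Ch K'.s (i + 2),
    bd y = z.mapDomain (List.map fun x => μ x x) - z.mapDomain (List.map fun x => μ x L) -
      z.mapDomain (List.map fun x => μ L x)

end Pool.Agent.SLZ
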