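import Pool.Agent.SLZ.DefsG
import Pool.Agent.SLZ.StF
import Pool.Agent.SLZ.StM

/-!
# SLZ, part G: statements for `GL_m(ℤ)` (architect helper71)

Module `X` proves `theorem thm_X (h.. : St_..) : St_X` in `Pool/Agent/SLZ/X.lean`.
-/

set_option autoImplicit false
set_option linter.unusedVariables false

noncomputable section

namespace Pool.Agent.SLZ

/-- **GCL** (1.2 h). Complexes of common minima are acyclic.

Proof. CLAIM: let `P` be convex and nonempty and `K` finite with `MinS S h` nonempty and contained in `K` for all `h ∈ P`;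
then `Ex (AdmC P S) j` for all `j`. Induction on the number of the pairs `(v, w) ∈ K × K` which are not comparable,
that is, there are `h, h' ∈ P` with `h v < h w` and `h' w < h' v`. (i) If there is no such pair: `v ≼ w :↔ ∀ h ∈ P, h v ≤ h w` is a
total preorder on `K`; replace `K` by `K ∩ S`, it is not empty, let `v₀` be a smallest element. For `h ∈ P` take
`v ∈ MinS S h ⊆ K`: `h v₀ ≤ h v`, so `v₀ ∈ MinS S h`. So `l ∈ A.s → (v₀ :: l) ∈ A.s`: `St_MA` (6). (ii) Otherwise let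
`P₊ = {h ∈ P | h v ≤ h w}`, `P₋ = {h ∈ P | h w ≤ h v}`, `P₀ = P₊ ∩ P₋`: convex, nonempty (`P₀`: a point of the segment between
`h` and `h'`), with fewer pairs. `AdmC P S` is the union of `AdmC P₊ S` and `AdmC P₋ S`, and their intersection is `AdmC P₀ S`: if
`h₊, h₋` are witnesses for `l`, then all points of the segment between them are (the minimum of `a h₊ + b h₋` on `S` is attained at
the common minima), and one of them is in `P₀`. `St_MA` (7) (`Ex _ 0` and `Ex _ (j + 1)`). Finally a cycle of `AdmC C S` has finite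
support: for every list of the support a witness `h ∈ C`; let `H` be the finite set of these (add one `h ∈ C`), it is a
cycle of `AdmC (convexHull ℝ H) S`, use the claim for `P = convexHull ℝ H ⊆ C`. Compare `Pool/Agent/NR/CCN.lean` (same
argument for nerves). -/
def St_GCL : Prop := ∀ (T : Type) (C : Set (T → ℝ)) (S : Set T), Convex ℝ C → C.Nonempty →
  (∀ H : Finset (T → ℝ), (H : Set (T → ℝ)) ⊆ C → H.Nonempty → ∃ K : Set T, K.Finite ∧
    ∀ h ∈ convexHull ℝ (H : Set (T → ℝ)), (MinS S h).Nonempty ∧ MinS S h ⊆ K) →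
  ∀ j, Ex (AdmC C S) j

/-- **GNW** (1 h). Norms.

Proof. (1) `h 0 = 0`, `0 = h (v - v) ≤ 2 h v`; if `h v = 0`, `v ≠ 0`, then `h (n v) = 0` for all `n`, infinitely many vectors.
(2) convex combinations `a h + b h'`: `add`, `mul` clear, `fin`: `a ≥ 1/2` or `b ≥ 1/2`. (3) `h v = ∑ |b.repr v i|` for a basis. (4) Let
`v₁ ≠ 0`, `R = max_{h ∈ H} h v₁`, `K = {v | ∃ h ∈ H, h v ≤ R}`, finite. For `h = ∑ λ_i h_i` in the hull (it is a norm by (2))
there is a minimum on the nonzero vectors (finitely many vectors with `h v ≤ h v₁`), and if `v` is one, then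
`∑ λ_i h_i v ≤ h v₁ ≤ R`, so `h_i v ≤ R` for some `i`. (5) `h ∘ g⁻¹`. -/
def St_GNW : Prop := ∀ (W : Type) [AddCommGroup W] [Module.Free ℤ W] [Module.Finite ℤ W],
  (∀ h ∈ NW W, ∀ v, 0 ≤ h v ∧ (h v = 0 → v = 0)) ∧ Convex ℝ (NW W) ∧ (NW W).Nonempty ∧
  (Nontrivial W → ∀ H : Finset (W → ℝ), (H : Set (W → ℝ)) ⊆ NW W → H.Nonempty →
    ∃ K : Set W, K.Finite ∧
      ∀ h ∈ convexHull ℝ (H : Set (W → ℝ)), (MinS (nz W) h).Nonempty ∧ MinS (nz W) h ⊆ K) ∧
  ∀ (g : W ≃ₗ[ℤ] W) (l : List W), l ∈ (SV W).s → l.map g ∈ (SV W).s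

/-- **GIX** (1.5 h). Lattices with a basis of shortest vectors.

Proof. `μ = h (v i) > 0`. (INDEX) `m = r + 1`, `B = (m ^ r)!`. Let `d w = ∑ c_i v_i`, `d > 0`, `x_i = c_i / d`. For `t = 0, .., m ^ r` consider
the vectors `(⌊m * frac (t x_i)⌋)_i` in `{0, .., m - 1} ^ r`: there are `t < t'` with the same vector. Put
`y_i = ⌊t' x_i⌋ - ⌊t x_i⌋`, `δ_i = (t' - t) x_i - y_i`, `|δ_i| < 1 / m`, `z = (t' - t) w - ∑ y_i v_i`. `d z = ∑ (d δ_i) v_i` with integers
`d δ_i`, so `d h z ≤ ∑ |d δ_i| μ < d μ` (for `r > 0`), so `z = 0` (`μ` is the minimum). So `(t' - t) w = ∑ y_i v_i` and `t' - t` divides `B`.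
(BOUND) `m' = 2 r + 1`, `J₀ = m' ^ r`, `J = 2 J₀ B`. Let `w` be a shortest vector, `B w = ∑ a_i v_i`, `A = max |a_i|`, suppose `A > J`. For
`t = 0, .., J₀` the vectors `(⌊m' * frac (t a_i / A)⌋)_i`: again `t < t'`, `y_i = ⌊t' a_i / A⌋ - ⌊t a_i / A⌋`, `δ_i = (t' - t) a_i / A - y_i`,
`|δ_i| < 1 / m'`. `z = ∑ y_i v_i`: `A z = (t' - t) B w - ∑ (A δ_i) v_i`, so `h z ≤ (J₀ B / A + r / m') μ < μ`, so `z = 0` and all
`y_i = 0` (independence); but for `|a_i| = A` the number `δ_i = ± (t' - t)` has absolute value at least `1`. Compare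
`Pool/Agent/NR/Idx.lean`, `NR/Box.lean`. -/
def St_GIX : Prop := ∀ r : ℕ, ∃ B J : ℕ, 0 < B ∧
  ∀ (W : Type) [AddCommGroup W] [Module.Free ℤ W] [Module.Finite ℤ W] (h : W → ℝ) (v : Fin r → W),
    IsNW h → LinearIndependent ℤ v → (∀ i, v i ∈ MinS (nz W) h) →
    ∀ w ∈ sat (Set.range v), ∃ a : Fin r → ℤ, (B : ℤ) • w = ∑ i, a i • v i ∧
      (w ∈ MinS (nz W) h → ∀ i, |a i| ≤ J)

/-- **GEX** (0.7 h). Saturated subgroups.

Proof. (1) `n • w̄ = 0` implies `n • w ∈ sat s`, so `w ∈ sat s`: the quotient is torsion-free and finitely generated. (2) So the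
projection `W → W ⧸ sat s` splits and `W ≅ sat s × (W ⧸ sat s)`, the same for `s'`; the ranks of the quotients are equal, so they are
isomorphic. (3) if `s` contains a nonzero vector, then the rank of `sat s` is positive. -/
def St_GEX : Prop := ∀ (W : Type) [AddCommGroup W] [Module.Free ℤ W] [Module.Finite ℤ W],
  (∀ s : Set W, Module.Free ℤ (W ⧸ sat s)) ∧
  (∀ (s s' : Set W) (φ : sat s ≃ₗ[ℤ] sat s'), ∃ g : W ≃ₗ[ℤ] W, ∀ u : sat s, g u = φ u) ∧
  ∀ s : Set W, (∃ v ∈ s, v ≠ 0) → Module.finrank ℤ (W ⧸ sat s) < Module.finrank ℤ W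

/-- **GOR** (1.5 h). Finitely many orbits of lists of shortest vectors.

Proof. Let `l` be such a list, `|l| = j`, `h` its norm. There are `r ≤ j` and `s : Fin r → Fin j` such that the `v_i = l[s i]` are
linearly independent and all entries of `l` are in `U = sat (range v)` (maximal independent family). `St_GIX`: `B`, `J` for `r`.
CODE of `l`: `r`, `s`, the integers `a q i` with `B • l[q] = ∑ a q i • v i`, `|a q i| ≤ J`, and the set `L` of the `x ∈ (ZMod B) ^ r` which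
are the classes of some `a ∈ ℤ ^ r` with `∑ a_i v_i ∈ B U`; finitely many codes. If `l` and `l'` have the same code, then
`φ w = w'` iff `B w = ∑ a_i v_i` and `B w' = ∑ a_i v'_i` for the same `a` is an isomorphism `U ≃ U'` with `φ (v i) = v' i` and
`φ l[q] = l'[q]` (`∑ a_i v_i ∈ B U` depends only on `a` modulo `B`). `St_GEX` (2) gives `g`. `F` = one list for every code which
occurs. -/
def St_GOR : Prop := ∀ (W : Type) [AddCommGroup W] [Module.Free ℤ W] [Module.Finite ℤ W] (j : ℕ),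
  ∃ F : Finset (List W), ∀ l ∈ (SV W).s, l.length = j → ∃ g : W ≃ₗ[ℤ] W, l.map g ∈ F

/-- **GST** (1.2 h). Pointwise stabilizers of lists.

Proof. `U = sat {x | x ∈ l}`; `g` fixes the entries of `l` iff it is the identity on `U` (`n w ∈ span`, torsion-free). `f` = the map to
the automorphisms of `W' = W ⧸ U` (`Submodule.mapQ` or `Submodule.Quotient.equiv`); onto, as `W ≅ U × W'` (`St_GEX` (1)). Its
kernel is isomorphic to `Multiplicative (W' →ₗ[ℤ] U)`: `g = 1 + φ ∘ mkQ`. `Module.Finite ℤ (W' →ₗ[ℤ] U)`: `St_FSub` (4), (1).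
`finrank W' < finrank W` by `St_GEX` (3). `St_FExt`. -/
def St_GST : Prop := ∀ (W : Type) [AddCommGroup W] [Module.Free ℤ W] [Module.Finite ℤ W],
  (∀ (W' : Type) [AddCommGroup W'] [Module.Free ℤ W'] [Module.Finite ℤ W'],
    Module.finrank ℤ W' < Module.finrank ℤ W → ∀ k, FPG k (W' ≃ₗ[ℤ] W')) →
  ∀ l : List W, (∃ v ∈ l, v ≠ 0) → ∀ k,
    FPG k (fixingSubgroup (W ≃ₗ[ℤ] W) {x | x ∈ l})

end Pool.Agent.SLZ
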