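import Pool.Agent.SLZ.SDefs
import Pool.Agent.SLZ.StU
import Pool.Agent.SLZ.StM

/-!
# SLZ, part S: central stability from the action on adapted pairs. Statements (architect helper83)

Module `X` proves `theorem thm_X (h.. : St_..) : St_X` in `Pool/Agent/SLZ/X.lean`.
-/

set_option autoImplicit false
set_option linter.unusedVariables false

noncomputable section

namespace Pool.Agent.SLZ

/-- **SB** (1 h). The double complex of a bisimplicial complex.

Proof. (1) on single pairs `(l, m)`: `bd1` of a pair is `bdL l` with the label `m`, `bd ∘ bd = 0` (`St_MA`); both orders of `bd1`, `bd2` give the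
product of `bdL l` and `bdL m` (`Finsupp` sums). (2) `bdL l` is supported on sublists of `l` of length `|l| - 1`; `bdL [] = 0`. (3) decompose
`z = ∑_l z_l` by the first component (finite set of lists `l` of length `a`), `bd2 z = 0` means `bd z_l = 0` for all `l` (`z_l` is a chain
of `B.row l` of length `b`), choose `y_l`, take `y = ∑_l` of the pairs of `l` and `y_l`. (4) the same. -/
def St_SB : Prop := ∀ (V W : Type) (B : Bx V W),
  (∀ x : List V × List W →₀ ℤ, bd1 (bd1 x) = 0 ∧ bd2 (bd2 x) = 0 ∧ bd1 (bd2 x) = bd2 (bd1 x)) ∧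
  (∀ a b : ℕ, (∀ x ∈ DD B.s (a + 1) b, bd1 x ∈ DD B.s a b) ∧
    (∀ x ∈ DD B.s a (b + 1), bd2 x ∈ DD B.s a b) ∧ (∀ x ∈ DD B.s 0 b, bd1 x = 0) ∧
    (∀ x ∈ DD B.s a 0, bd2 x = 0)) ∧
  (∀ a b : ℕ, (∀ l : List V, l.length = a → Ex (B.row l) b) →
    ∀ z ∈ DD B.s a b, bd2 z = 0 → ∃ y ∈ DD B.s a (b + 1), bd2 y = z) ∧
  (∀ a b : ℕ, (∀ m : List W, m.length = b → Ex (B.col m) a) →
    ∀ z ∈ DD B.s a b, bd1 z = 0 → ∃ y ∈ DD B.s (a + 1) b, bd1 y = z)

/-- **SD** (0.7 h). Two zigzags in a double complex (`d` vertical, `e` horizontal).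

Proof. CLAIM: let `y ∈ D a b`, `e (d y) = 0`, rows exact at all `(a', b')` with `a' < a`, `a' + b' + 1 = a + b`, columns exact at all
`(a', b')` with `a' < a`, `a' + b' = a + b`. Then there is `w ∈ D a (b + 1)` with `d (y - e w) = 0`. Induction on `a`; `a = 0`: `w = 0`. `a = a' + 1`:
`d y ∈ D a' b` and `e (d y) = 0`, so `d y = e y₂`, `y₂ ∈ D a' (b + 1)`; `e (d y₂) = d (d y) = 0`, so by induction there is `w₂ ∈ D a' (b + 2)`
with `d (y₂ - e w₂) = 0`, so `y₂ - e w₂ = d w` with `w ∈ D (a' + 1) (b + 1)` (column at `(a', b + 1)`), and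
`d (y - e w) = d y - e (y₂ - e w₂) = 0`.
(gen) `z = e y`, `y ∈ D j 1` (row at `(j, 0)`), `e (d y) = d z = 0`; CLAIM for `(a, b) = (j, 1)`: replace `y` by `y - e w`.
(rel) `x = e x₁`, `x₁ ∈ D (j + 1) 1`; `e (z - d x₁) = e z - d x = 0`, so `z - d x₁ = e y`, `y ∈ D j 2` (row at `(j, 1)`), `e (d y) = d (z - d x₁) = 0`;
CLAIM for `(j, 2)`: replace `y` by `y - e w`. -/
def St_SD : Prop := ∀ (X : Type) [AddCommGroup X] (D : ℕ → ℕ → AddSubgroup X) (d e : X →+ X),
  (∀ x, d (d x) = 0) → (∀ x, e (e x) = 0) → (∀ x, d (e x) = e (d x)) →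
  (∀ a b, ∀ x ∈ D (a + 1) b, d x ∈ D a b) → (∀ a b, ∀ x ∈ D a (b + 1), e x ∈ D a b) →
  (∀ b, ∀ x ∈ D 0 b, d x = 0) → (∀ a, ∀ x ∈ D a 0, e x = 0) → ∀ j : ℕ,
  (∀ a b, a + b ≤ j + 1 → ∀ z ∈ D a b, e z = 0 → ∃ y ∈ D a (b + 1), e y = z) →
  (∀ a b, a < j → 2 ≤ b → a + b ≤ j + 2 → ∀ z ∈ D a b, d z = 0 → ∃ y ∈ D (a + 1) b, d y = z) →
  (∀ z ∈ D j 0, d z = 0 → ∃ y ∈ D j 1, d y = 0 ∧ e y = z) ∧
  (∀ z ∈ D j 1, d z = 0 → ∀ x ∈ D (j + 1) 0, e z = d x →
    ∃ y ∈ D j 2, d y = 0 ∧ ∃ w ∈ D (j + 1) 1, z = e y + d w)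

/-- **SM** (1 h). The homology groups form a system. Proof: `M n` = quotient of `Cyc (K n) j` by the boundaries; `bd` commutes with
`push f`, and `push` of `g •` and of `s n` respect the complexes (`K_smul`, `s_K`); an action: `push` is functorial;
`st_smul` from `s_smul`. -/
def St_SM : Prop := ∀ (R : Type) [CommRing R] (L : LSys R) (j : ℕ),
  ∃ (S : Sys R) (cl : ∀ n, Cyc (L.K n) j →+ S.M n), L.IsH j S cl

/-- **SC** (1.5 h). The column of a list of split vectors.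

Proof. Two facts: (F1) `frA g` is injective, `frA (g h) f = frA g (frA h f)`; (F2) if `x : GLn R N` fixes all `stF j` with `n ≤ j`, then
`x.1 = lmat n N x₀` for some `x₀ : GLn R n` (columns and rows `j ≥ n` of `x` and of `x⁻¹` are standard, `x₀ = p x e`), so `x • SS h y = SS h (x₀ • y)`
(`s_smul`, induction). (F3) for a permutation `σ` of `Fin N` there is a `P` with `P i j = 1` if `σ i = j` and `0` otherwise; `frA P (stF (σ i)) = stF i`.
Let `([], m)` be adapted with `n₀`, `g₀`: all elements of `m` are `frA g₀ (stF j)`, `j ∈ J`, `J` the set of the `j ≥ n₀` which occur,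
`|J| = N - n` for some `n ≥ n₀`, `N - n ≤ |m|`. Choose `σ` which fixes all `i < n₀` and maps `J` onto the `j ≥ n`;
`g = g₀ P⁻¹ or g₀ P` suitably: the elements of `m` are the `frA g (stF j)`, `j ≥ n`. (⇐) clear. (⇒) let `(l, m)` be adapted with
`n₁ ≤ n`, `g₁`, `l₁`; in the same way (a permutation which fixes the `i < n₁`, it acts trivially on `SS h y` by `s_perm`) we
may assume `frA g₁ (stF j) = frA g (stF j)` for all `j ≥ n`. So `g⁻¹ g₁` is of the form of (F2), and `l = g₁ SS l₁ = g (x₀ (SS l₁)) = g SS (x₀ l₁')`,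
`l₁'` = the image of `l₁` in level `n`, a simplex of `K n`. -/
def St_SC : Prop := ∀ (R : Type) [CommRing R] (L : LSys R) (N : ℕ) (m : List (Fr R N)),
  ([], m) ∈ L.Bi N → ∃ (n : ℕ) (h : n ≤ N) (g : GLn R N), N ≤ n + m.length ∧
    (∀ f ∈ m, ∃ j : Fin N, n ≤ j.val ∧ f = frA g (stF j)) ∧
    (∀ j : Fin N, n ≤ j.val → frA g (stF j) ∈ m) ∧
    ∀ l : List (L.V N), (l, m) ∈ L.Bi N ↔
      ∃ l0 : List (L.V n), l0 ∈ (L.K n).s ∧ l = l0.map (fun y => g • L.SS h y)

/-- **SE** (0.6 h). The columns are exact. Proof: if `([], m)` is not adapted, the column is empty. Otherwise `St_SC`: the column is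
the image of `K n` under an injective map of vertices (`s_inj`); chains, cycles and boundaries correspond. -/
def St_SE : Prop := ∀ (R : Type) [CommRing R] (L : LSys R) (N a : ℕ) (m : List (Fr R N)),
  (∀ n, n ≤ N → N ≤ n + m.length → Ex (L.K n) a) → Ex ((L.BX N).col m) a

/-- **SH** (1.5 h). The map on the vertical cycles over lists of length one.

Proof. Let `([], [f])` be adapted. By `St_SC` (`n = N`, because `n = N + 1` would leave no element for `[f]`) there is `g_f` with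
`f = frA g_f (stF last)` and the column of `[f]` is `g_f s (K N)`. For a vertical cycle `y` let `y_f` be the part of `y` with second component `[f]`;
it is `g_f s` of a unique cycle `y'_f` of `K N` of length `j`. `θ y = ∑_f b g_f (cl y'_f)`, additive. If `g` is another matrix with
`f = frA g (stF last)`, then `g = g_f h'`, `h' = h ⊕ 1` (fact (F2) of `SC`), `y'_f = h y'`, so `b g_f (cl y'_f) = b g_f (h • cl y') = b g (cl y')`. If `y = bd1 w`,
then `y_f = bd w_f`, so `y'_f` is a boundary and `cl y'_f = 0`. -/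
def St_SH : Prop := ∀ (R : Type) [CommRing R] (L : LSys R) (j : ℕ) (S : Sys R)
  (cl : ∀ n, Cyc (L.K n) j →+ S.M n), L.IsH j S cl → ∀ (N : ℕ) (X : Type) [AddCommGroup X]
  (b : GLn R (N + 1) → S.M N →+ X),
  (∀ (g : GLn R (N + 1)) (h : GLn R N) (h' : GLn R (N + 1)), h'.1 = lmat N (N + 1) h.1 →
    ∀ c, b (g * h') c = b g (h • c)) →
  ∃ θ : (↥(DD (L.BX (N + 1)).s j 1 ⊓ LinearMap.ker bd1)) →+ X,
    (∀ (g : GLn R (N + 1)) (c : Cyc (L.K N) j)
      (y : ↥(DD (L.BX (N + 1)).s j 1 ⊓ LinearMap.ker bd1)),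
      y.1 = Finsupp.mapDomain (fun l : List (L.V N) =>
        (l.map (fun x => g • L.s N x), [frA g (stF (Fin.last N))])) c.1 → θ y = b g (cl N c)) ∧
    ∀ (y : ↥(DD (L.BX (N + 1)).s j 1 ⊓ LinearMap.ker bd1)), ∀ w ∈ DD (L.BX (N + 1)).s (j + 1) 1,
      y.1 = bd1 w → θ y = 0

/-- **SH3** (2 h). Central stability.

Proof. Let `N ≥ N0 + j`, work in the level `N + 2` with `D a b = DD (BX (N + 2)).s a b`. `St_SD`: rows: for `l` in the complex by the
hypothesis (`b < j + 2`), for the other `l` the row is empty (adapted implies `l ∈ K`: `s_K`, `K_smul`); columns: `a < j`, `b ≤ j + 2`, so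
`n ≥ N + 2 - b ≥ N0` in `St_SE`. With `St_SB` (3), (4).
Generation: let `z` be a cycle of `K (N + 2)` of length `j`, `z ⊗ []` the chain of `D j 0`. By (gen) `z ⊗ [] = bd2 y`, `y ∈ D j 1`, `bd1 y = 0`. For all `f` the
part `y_f` is `g_f s y'_f` (`St_SC` as in `SH`) and `z = ∑ y_f`, so `cl z = ∑ g_f • st (cl y'_f)`.
Universal property: `θ` of `St_SH` (level `N + 1`) for `b`. CLAIM: `θ (bd2 y) = 0` for `y ∈ D j 2`, `bd1 y = 0`. It is enough to consider
the part of `y` with second component `[f₁, f₂]`; `bd2 (u ⊗ [f₁, f₂]) = u ⊗ [f₂] - u ⊗ [f₁]`. If `f₁ = f₂` this is `0`. Otherwise `St_SC` gives `n = N`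
and `g` such that `{f₁, f₂}` are `frA g (stF N)`, `frA g (stF (N + 1))` and `u = g s (s u')`, `u'` a cycle of `K N`. Let `τ` be the permutation
matrix of the swap of `N`, `N + 1`; it fixes `s (s x)` (`s_perm`). For the `f_i` with `stF (N + 1)`: `θ (u ⊗ [f_i]) = b g (cl (s u')) = b g (st (cl u'))`, for
the other one `f = frA (g τ) (stF (N + 1))`, `u = (g τ) s (s u')`, so it is `b (g τ) (st (cl u')) = b g (st (cl u'))` by the second hypothesis on `b`.
So they cancel. Define `β (cl z) = θ y` for any `y ∈ D j 1` with `bd1 y = 0`, `bd2 y = z ⊗ []`: exists by (gen); if `cl z = 0`, `z = bd x`, then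
`bd2 y = bd1 (x ⊗ [])`, so `y = bd2 y₂ + bd1 w` by (rel), `θ y = 0`. So `β` is well defined and additive. For `z = g s c`, `y = (g s c) ⊗ [frA g (stF last)]`:
`β (g • st (cl c)) = b g (cl c)`. -/
def St_SH3 : Prop := ∀ (R : Type) [CommRing R] (L : LSys R) (j N0 : ℕ) (S : Sys R)
  (cl : ∀ n, Cyc (L.K n) j →+ S.M n), L.IsH j S cl → (∀ N, N0 ≤ N → Conn (L.K N) j) →
  (∀ N, N0 ≤ N → ∀ l ∈ (L.K N).s, Conn ((L.BX N).row l) (j + 2)) → S.H3 (N0 + j)

/-- **SU** (1 h). Parts U and S together.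

Proof. `St_SM` gives `S`, `cl`. `cl (push (SS h) z) = S.ST h (cl z)` (induction, `IsH.st`). So the hypotheses are `H1`, `H2`, `H4` for `S`, `St_SH3` gives
`H3`, and `St_U` gives `N2`; `cl z = 0` means that `z` is a boundary. -/
def St_SU : Prop := ∀ (R : Type) [CommRing R] (L : LSys R) (j N0 n2 : ℕ) (k0 k2 : ℕ → ℕ),
  (∀ N, N0 ≤ N → Conn (L.K N) j) →
  (∀ N, N0 ≤ N → ∀ l ∈ (L.K N).s, Conn ((L.BX N).row l) (j + 2)) →
  (∀ (n : ℕ), ∀ z ∈ Cyc (L.K n) j, ∃ (N : ℕ) (h : n ≤ N), push (L.SS h) z ∈ Bdr (L.K N) j) →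
  (∀ (n N : ℕ) (h : n ≤ N), k0 n ≤ N → ∀ g : GLn R N, g.1 * blk R N n 0 = blk R N n 0 →
    cblk R n N 0 * g.1 = cblk R n N 0 → ∀ z ∈ Cyc (L.K n) j,
    push (fun x => g • L.SS h x) z - push (L.SS h) z ∈ Bdr (L.K N) j) →
  (∀ (n N : ℕ) (h : n ≤ N), n2 ≤ n → k2 n ≤ N → 2 * n ≤ N → ∀ w t : GLn R N,
    w.1 * blk R N n 0 = blk R N n n → cblk R n N 0 * (w⁻¹).1 = cblk R n N n →
    t.1 = 1 + blk R N n 0 * cblk R n N n → ∀ z ∈ Cyc (L.K n) j,
    push (fun x => t • L.SS h x) z + push (fun x => (t * w) • L.SS h x) z - push (L.SS h) z -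
      push (fun x => w • L.SS h x) z ∈ Bdr (L.K N) j) →
  ∃ N2 : ℕ, ∀ N, N2 ≤ N → Ex (L.K N) j

/-- **S0** (1.5 h). Connectivity (helper94).

Proof. `St_SM` for `j = 1`, `St_SH3` gives `H3`, the hypothesis is `H4`, so by `St_UX` the coinvariants of `S.M N` vanish for large `N`. Let `H` be the
subgroup generated by the stabilizers of the `v N t`; it contains all commutators, so it is normal and `Q = G ⧸ H` is commutative.
For a vertex `x = g • v N t` of `K N` the class `q x = [g]` depends only on `x` if the orbits of different `t` are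
treated separately: choose for every `x` one pair `(g, t)`; if also `x = g' • v N t'`, then by hypothesis `t = t'`, so `g⁻¹ g' ∈ H`. The
additive map `[x] ↦ q x` on chains of length one vanishes on `bd [x, y] = [y] - [x]` (`x = g v_t`, `y = g v_t'`), so it gives a map
`S.M N → Q` and it is invariant: `q (g x) = [g] + q x` and the sum of the coefficients of a cycle is `0`. So it is `0`; on `[g v_t] - [v_t]`
its value is `[g]`. So `G = H`. Finally the set of the `g` such that `[g v_t] - [v_t']` is a boundary for all `t, t'` is closed under left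
multiplication with stabilizers (`[v_t, v_t']` is a simplex), so it is `G`, and all cycles of length one are boundaries. -/
def St_S0 : Prop := ∀ (R : Type) [CommRing R] (L : LSys R) (N0 : ℕ) (T : Type)
  (v : ∀ N, T → L.V N),
  (∀ N, N0 ≤ N → Conn (L.K N) 1) →
  (∀ N, N0 ≤ N → ∀ l ∈ (L.K N).s, Conn ((L.BX N).row l) 3) →
  (∀ (n : ℕ), ∀ z ∈ Cyc (L.K n) 1, ∃ (N : ℕ) (h : n ≤ N), push (L.SS h) z ∈ Bdr (L.K N) 1) →
  (∀ N, N0 ≤ N → (∀ t t', [v N t, v N t'] ∈ (L.K N).s) ∧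
    (∀ x y, [x, y] ∈ (L.K N).s → ∃ (g : GLn R N) (t t' : T), x = g • v N t ∧ y = g • v N t') ∧
    (∀ (g : GLn R N) (t t' : T), g • v N t = v N t' → t = t') ∧
    (∀ g h : GLn R N, g * h * g⁻¹ * h⁻¹ ∈
      Subgroup.closure {k : GLn R N | ∃ t, k • v N t = v N t})) →
  ∃ N2 : ℕ, ∀ N, N2 ≤ N → Ex (L.K N) 1

end Pool.Agent.SLZ
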