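import Pool.Agent.SLZ.KDefs
import Pool.Agent.SLZ.StS
import Pool.Agent.SLZ.StD
import Pool.Agent.SLZ.StV2

/-!
# SLZ: the complexes `T` as lattice systems, the hypotheses of the parts U and S, the final induction.
Statements (architect helper83)

Module `X` proves `theorem thm_X (h.. : St_..) : St_X` in `Pool/Agent/SLZ/X.lean`.
`Vn A n = A[X]^n`, `Tn A m J n` = the complex `TT` of `Vn A n`, `sS h E = E ⊕ O^(N - n)`, `dS N E E' = E ⊕ E' ⊕ O^(N - n - k)`,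
`gL g E` = the image of `E` under the matrix `g`, `On A n = O^n`, `KLP`, `latS`: KDefs.lean.
-/

set_option autoImplicit false
set_option linter.unusedVariables false

noncomputable section

namespace Pool.Agent.SLZ

open Polynomial

/-- the standard vertices of `T` in `A[X]^N`: `O(1)^(m t) ⊕ O^(N - m t)` -/
def vT (A : Type) [CommRing A] (m N t : ℕ) : Lat A (Vn A N) :=
  OL (Pi.basisFun A[X] (Fin N)) fun i => if i.val < m * t then 1 else 0

/-- **K0** (0.7 h). Membership.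

Proof. (1) induction on `N` (`Nat.leRecOn_succ`), `(cblk n N 0).mulVec v` = the first `n` coordinates of `v`. (2), (3) by definition. (4) `gE_symm_apply`.
(5) `v ∈ On A n k` iff all coefficients of index `> k` vanish. (6) from (1), (3), (5). (7) from (1) (`cblk_n,m cblk_m,N = cblk_n,N`). (8) `gE` is a group
homomorphism. -/
def St_K0 : Prop := ∀ (A : Type) [CommRing A],
  (∀ (n N : ℕ) (h : n ≤ N) (E : Lat A (Vn A n)) (k : ℤ) (v : Vn A N), v ∈ sS h E k ↔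
    (cblk A[X] n N 0).mulVec v ∈ E k ∧ ∀ i : Fin N, n ≤ i.val → v i ∈ degL A k) ∧
  (∀ (n : ℕ) (E : Lat A (Vn A n)) (k : ℤ) (v : Vn A (n + 1)), v ∈ sL E k ↔
    (cblk A[X] n (n + 1) 0).mulVec v ∈ E k ∧ v (Fin.last n) ∈ degL A k) ∧
  (∀ (n k N : ℕ) (E : Lat A (Vn A n)) (E' : Lat A (Vn A k)) (j : ℤ) (v : Vn A N),
    v ∈ dS N E E' j ↔ (cblk A[X] n N 0).mulVec v ∈ E j ∧ (cblk A[X] k N n).mulVec v ∈ E' j ∧
      ∀ i : Fin N, n + k ≤ i.val → v i ∈ degL A j) ∧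
  (∀ (n : ℕ) (g : GLn A[X] n) (E : Lat A (Vn A n)) (k : ℤ) (v : Vn A n), v ∈ gL g E k ↔
    (g⁻¹).1.mulVec v ∈ E k) ∧
  (∀ (n : ℕ) (k : ℤ) (v : Vn A n), v ∈ On A n k ↔ ∀ i, v i ∈ degL A k) ∧
  (∀ (n k N : ℕ) (h : n ≤ N) (E : Lat A (Vn A n)), n + k ≤ N → dS N E (On A k) = sS h E) ∧
  (∀ (n m N : ℕ) (h : n ≤ m) (h' : m ≤ N) (h'' : n ≤ N) (E : Lat A (Vn A n)),
    sS h' (sS h E) = sS h'' E) ∧
  (∀ (n : ℕ) (g h : GLn A[X] n) (E : Lat A (Vn A n)), gL (g * h) E = gL g (gL h E) ∧ gL 1 E = E)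

/-- **K1** (0.8 h). The action and stabilization.

Proof. (1), (2) `mapL` of an isomorphism: `mapL g (OL b w) = OL (b.map g) w`; `LR` is preserved by images (`g` and `g⁻¹`). (3) from (1), (2).
(4) `v ∈ E k` iff `(v, 0) ∈ sL E k`. (5) `gL g' (sL x)`: the first `n` coordinates of `g'⁻¹ v` are `g⁻¹` of the first `n` coordinates of `v`, the last coordinate
is the last coordinate of `v` (`g' = lmat n (n + 1) g`, then `g'⁻¹ = lmat n (n + 1) g⁻¹`, `St_UA2`). -/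
def St_K1 : Prop := ∀ (A : Type) [CommRing A] (m J : ℕ),
  (∀ (n : ℕ) (g : GLn A[X] n) (E F : Lat A (Vn A n)),
    (LR (gL g E) (gL g F) ↔ LR E F) ∧ (adjL (gL g E) (gL g F) ↔ adjL E F)) ∧
  (∀ (n : ℕ) (g : GLn A[X] n) (E : Lat A (Vn A n)),
    E ∈ TV A (Vn A n) m J → gL g E ∈ TV A (Vn A n) m J) ∧
  (∀ (n : ℕ) (g : GLn A[X] n) (l : List (Lat A (Vn A n))), l ∈ (Tn A m J n).s →
    l.map (gL g) ∈ (Tn A m J n).s) ∧
  (∀ n : ℕ, Function.Injective (sL : Lat A (Vn A n) → Lat A (Vn A (n + 1)))) ∧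
  (∀ (n : ℕ) (g : GLn A[X] n) (g' : GLn A[X] (n + 1)), g'.1 = lmat n (n + 1) g.1 →
    ∀ x : Lat A (Vn A n), sL (gL g x) = gL g' (sL x))

/-- **K2** (0.6 h). Permutations. Proof: `g⁻¹` is the transposed matrix of `g` (a permutation matrix), so the coordinates of `g⁻¹ v` are the
coordinates of `v` permuted by `σ` or `σ⁻¹`, both fix the `i < n`; `St_K0` (1), (4). (2) the swap of the blocks `[0, n)` and `[n, 2 n)`. -/
def St_K2 : Prop := ∀ (A : Type) [CommRing A],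
  (∀ (n N : ℕ) (h : n ≤ N) (σ : Equiv.Perm (Fin N)), (∀ i : Fin N, i.val < n → σ i = i) →
    ∀ g : GLn A[X] N, (∀ i j : Fin N, g.1 i j = if σ i = j then 1 else 0) →
      ∀ x : Lat A (Vn A n), gL g (sS h x) = sS h x) ∧
  (∀ (n N : ℕ) (h : n ≤ N), 2 * n ≤ N → ∃ w : GLn A[X] N,
    w.1 * blk A[X] N n 0 = blk A[X] N n n ∧ cblk A[X] n N 0 * (w⁻¹).1 = cblk A[X] n N n ∧
    ∀ E : Lat A (Vn A n), gL w (sS h E) = dS N (On A n) E)

/-- **K3** (1.5 h). Direct sums in `T`.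

Proof. (1) `LR` of direct sums: coordinatewise (`St_K0` (3)), `degL A k ≤ degL A (k + 1)`. (2) `E = OL b (i < d)`, `E' = OL b' (i < d')` with bases `b` (of `n₁`
elements), `b'` (`k₁` elements). `A[X]^N = A[X]^n × A[X]^k × A[X]^(N - n - k)` has the basis `b, b'`, standard vectors, indexed by
`Fin n₁ ⊕ Fin k₁ ⊕ Fin (N - n - k)`; choose a bijection with `Fin (n₁ + k₁ + (N - n - k))` which maps the `d + d'` indices of weight `1` onto `[0, d + d')`.
Membership in `OL`: coordinatewise; `m ∣ d + d' ≤ m (J + J')`. (3) `d = 0`; `OL` is increasing in `k`. (4) all pairs of `l` are adjacent and so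
comparable: there is a smallest element `E0 ∈ l` (induction on `l`); `LR E0 E` or `LR E E0`, in the second case `E = E0`. (5) `d ≤ m J ≤ m J'`.
(6) `sL E = dS (n + 1) E (On A 1)` (`St_K0` (6), (2)), `On A 1 ∈ TV .. m 0` and (1), (2). -/
def St_K3 : Prop := ∀ (A : Type) [CommRing A] (m : ℕ),
  (∀ (n k N : ℕ) (E F : Lat A (Vn A n)) (E' F' : Lat A (Vn A k)), LR E F → LR E' F' →
    LR (dS N E E') (dS N F F')) ∧
  (∀ (n k N J J' : ℕ) (E : Lat A (Vn A n)) (E' : Lat A (Vn A k)), n + k ≤ N →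
    E ∈ TV A (Vn A n) m J → E' ∈ TV A (Vn A k) m J' → dS N E E' ∈ TV A (Vn A N) m (J + J')) ∧
  (∀ n J : ℕ, On A n ∈ TV A (Vn A n) m J ∧ ∀ E ∈ TV A (Vn A n) m J, LR E E) ∧
  (∀ (n J : ℕ) (l : List (Lat A (Vn A n))), l ∈ (Tn A m J n).s → l ≠ [] →
    ∃ E0 ∈ l, ∀ E ∈ l, LR E0 E) ∧
  (∀ (V : Type) [AddCommGroup V] [Module A V] [Module A[X] V] [IsScalarTower A A[X] V]
    (J J' : ℕ), J ≤ J' → TV A V m J ⊆ TV A V m J') ∧
  (∀ (n J : ℕ) (l : List (Lat A (Vn A n))), l ∈ (Tn A m J n).s →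
    l.map sL ∈ (Tn A m J (n + 1)).s)

/-- **KLa** (0.1 h). The lattice system. Proof: `St_K1` (3), (4), (5), `St_K3` (6), `St_K2` (1). -/
def St_KLa : Prop := ∀ (A : Type) [CommRing A] (m J : ℕ), KLP A m J

/-- **KG** (0.8 h). Two maps which span cones.

Proof. `St_DA` (2) for `B = List V`, `deg l = |l| - 1`, `S` the nonempty lists of `K`, `d = ub`, `G l` = the lists of `K'` with vertices in
`f0 l ∪ f1 l` (a cone: exact by `St_MA` (6)), `φ = push f0`, `ψ = push f1` (chain maps for `ub`: `St_MA` (4), `St_DB` (1)). For the cycle `z` of length `j ≥ 1`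
`ub z = 0` (`j ≥ 2`: `ub z = bd z`; `j = 1`: by definition), so `push f0 z - push f1 z = bd (H z)`. -/
def St_KG : Prop := ∀ (V V' : Type) (K : Cx V) (K' : Cx V') (f0 f1 : V → V'), [] ∈ K'.s →
  (∀ l ∈ K.s, l ≠ [] → ∃ x : V', (x ∈ l.map f0 ∨ x ∈ l.map f1) ∧ ∀ t ∈ K'.s,
    (∀ v ∈ t, v ∈ l.map f0 ∨ v ∈ l.map f1) → x :: t ∈ K'.s) →
  (∀ l ∈ K.s, l.map f0 ∈ K'.s ∧ l.map f1 ∈ K'.s) →
  ∀ j, 1 ≤ j → ∀ z ∈ Cyc K j, push f0 z - push f1 z ∈ Bdr K' j

/-- **KB** (0.4 h). Boundaries in higher degree. Proof: induction on `J'` from `J`: `z = bd c` with `c` a chain of `TT .. m (J' + 1)` of length `j + 1`;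
`PPush`: `c = c' + bd e`, `z = bd c'`, `c'` a chain of `TT .. m J'`. -/
def St_KB : Prop := ∀ (A : Type) [CommRing A] (m : ℕ), PPush A m → ∀ (V : Type) [AddCommGroup V]
  [Module A V] [Module A[X] V] [IsScalarTower A A[X] V] [Module.Free A[X] V]
  [Module.Finite A[X] V] (J J' j : ℕ), j < J → J ≤ J' → ∀ z ∈ Ch (TT A V m J).s j,
    z ∈ Bdr (TT A V m J') j → z ∈ Bdr (TT A V m J) j

/-- **KT** (0.6 h). Transport to coordinates. Proof: a basis gives `φ : V ≃ₗ Vn A n`; `mapL φ` is a bijection of the vertices which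
preserves `TV` and `adjL` in both directions (compare `St_KA1` (3)), so chains, cycles, boundaries correspond. Conversely `Pi.basisFun`. -/
def St_KT : Prop := ∀ (A : Type) [CommRing A] (m J c N : ℕ),
  PConn A m J c N ↔ ∀ n ≥ N, Conn (Tn A m J n) c

/-- **KH4** (1 h). Every class dies.

Proof. `PInf` for `V = Vn A n`: `M`, `J'`, `y` with `bd y = z.map (E ↦ prodL E (O0 A M))` in `TT A (Vn A n × (Fin M → A[X])) m J'`; we may assume `J ≤ J'`
(`St_K3` (5)). Let `φ : Vn A n × (Fin M → A[X]) ≃ₗ[A[X]] Vn A (n + M)` (concatenation); `mapL φ (prodL E (O0 A M)) = sS h E` (`St_K0` (1)). So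
`push (sS h) z = bd (push (mapL φ) y)` is a boundary in `Tn A m J' (n + M)`, and it is a chain of `Tn A m J (n + M)` (`St_K3` (6), induction). `St_KB`. -/
def St_KH4 : Prop := ∀ (A : Type) [CommRing A] (m : ℕ), PInf A m → PPush A m → ∀ J j : ℕ, j < J →
  ∀ n : ℕ, ∀ z ∈ Cyc (Tn A m J n) j, ∃ (N : ℕ) (h : n ≤ N), push (sS h) z ∈ Bdr (Tn A m J N) j

/-- **KX** (1 h). The class of `E ↦ E ⊕ L` does not depend on `L`.

Proof. `z` fixed, `f L = push (fun E => dS N E L) z`. (a) If `L, L' ∈ TV A (Vn A k) m J` and `LR L L'`, then `f L - f L'` is a boundary in `Tn A m (2 * J) N`: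
`St_KG` for `K = Tn A m J n`, `K' = Tn A m (2 * J) N`; for `l ∈ K` let `E0` be the smallest element (`St_K3` (4)); `x = dS N E0 L`, for all `E ∈ l` the pairs
`LR x (dS N E L)`, `LR x (dS N E L')` hold by `St_K3` (1), (3), so `x :: t` is a simplex. (b) So the same for `adjL L L'`. (c) The additive map
`[L] ↦ f L` from the chains of length one of `Tn A m J k` to the chains modulo boundaries kills `bd [L, L'] = [L'] - [L]`, and
`[L'] - [L]` is a boundary for all vertices `L, L'` (`Conn .. 2`), so `f L - f L'` is a boundary in `Tn A m (2 * J) N`. -/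
def St_KX : Prop := ∀ (A : Type) [CommRing A] (m J j n k N : ℕ), 1 ≤ j → n + k ≤ N →
  Conn (Tn A m J k) 2 → ∀ z ∈ Cyc (Tn A m J n) j, ∀ L ∈ TV A (Vn A k) m J,
    ∀ L' ∈ TV A (Vn A k) m J, push (fun E => dS N E L) z - push (fun E => dS N E L') z ∈
      Bdr (Tn A m (2 * J) N) j

/-- **KH1** (0.8 h). `1 ⊕ h` acts trivially.

Proof. `k = N - n`. `g` is `1 ⊕ h` with `h = cblk k N n * g * blk N k n` invertible (the same for `g⁻¹`), so (`St_K0`) `gL g (sS h E) = dS N E (gL h (On A k))` and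
`sS h E = dS N E (On A k)`, and `gL h (On A k) ∈ TV A (Vn A k) m J` (`St_K1` (2)). `St_KX`, then `St_KB` from `2 * J` to `J` (the chain is in
`Tn A m J N`: `St_K3` (6), `St_K1` (3)). -/
def St_KH1 : Prop := ∀ (A : Type) [CommRing A] (m J j N' : ℕ), 1 ≤ j → j < J → PPush A m →
  (∀ k ≥ N', Conn (Tn A m J k) 2) → ∀ (n N : ℕ) (h : n ≤ N), n + N' ≤ N → ∀ g : GLn A[X] N,
    g.1 * blk A[X] N n 0 = blk A[X] N n 0 → cblk A[X] n N 0 * g.1 = cblk A[X] n N 0 →
    ∀ z ∈ Cyc (Tn A m J n) j, push (fun E => gL g (sS h E)) z - push (sS h) z ∈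
      Bdr (Tn A m J N) j

/-- **KH2** (1.5 h). The diagonal.

Proof. `w₀` = the swap of `St_K2` (2). (a) `St_DL` for `K = Tn A m J n`, `K' = Tn A m (2 * J) N`, `μ = dS N`, `L = On A n`, `i = j - 1`: for `l, l' ∈ K` take the
smallest elements `E0`, `E0'`: `LR (dS N E0 E0') (dS N E E')` for all `E ∈ l`, `E' ∈ l'` (`St_K3` (1), (4)). So with `δ E = dS N E E`:
`push δ z - push (sS h) z - push (gL w₀ ∘ sS h) z` is a boundary in `K'` (`dS N E (On A n) = sS h E`). (b) `gL t (δ E) = δ E`: `t⁻¹ = 1 - e p'`, the two blocks of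
`t⁻¹ v` are `v₁ - v₂`, `v₂`. So, applying `gL t` to (a): `push (gL t ∘ sS h) z + push (gL (t * w₀) ∘ sS h) z - push (sS h) z - push (gL w₀ ∘ sS h) z`
is a boundary in `K'`, so in `Tn A m J N` by `St_KB`. (c) `w = w₀ x`, `x = w₀⁻¹ w` satisfies `x e = e`, `p x = p`; by `St_KH1` and `gL w₀`, `gL (t * w₀)`
we may replace `w₀` by `w`. -/
def St_KH2 : Prop := ∀ (A : Type) [CommRing A] (m J j n2 N' : ℕ), 2 ≤ j → j < J → PPush A m →
  (∀ k ≥ N', Conn (Tn A m J k) 2) → (∀ n ≥ n2, Conn (Tn A m J n) j) →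
  ∀ (n N : ℕ) (h : n ≤ N), n2 ≤ n → n + N' ≤ N → 2 * n ≤ N → ∀ w t : GLn A[X] N,
    w.1 * blk A[X] N n 0 = blk A[X] N n n → cblk A[X] n N 0 * (w⁻¹).1 = cblk A[X] n N n →
    t.1 = 1 + blk A[X] N n 0 * cblk A[X] n N n → ∀ z ∈ Cyc (Tn A m J n) j,
    push (fun E => gL t (sS h E)) z + push (fun E => gL (t * w) (sS h E)) z - push (sS h) z -
      push (fun E => gL w (sS h E)) z ∈ Bdr (Tn A m J N) j

/-- **KR1** (1.2 h). Adapted lists of split vectors.

Proof. (⇒) `L = L0.map (gL g ∘ sS h)`, the elements of `φ` are `frA g (stF j)`, `j ≥ n`: they are pairwise equal or orthogonal and in `frS` of all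
`gL g (sS h E)` (`St_K0` (1), (4)); `L0 ∈ Tn .. n` gives `L ∈ Tn .. N` (`St_K3` (6), `St_K1` (3)). (⇐) let `f_1, .., f_p` be the different elements of `φ`,
`p ≤ |φ|`, `n = N - p`. KF4 (StKF.lean): there is `g` with `frA g (stF (n + i)) = f_i`; replace `L` by `gL g⁻¹ L`, `φ` by `frA g⁻¹ φ`: so
`stF j ∈ frS E` for all `j ≥ n`, `E ∈ L`. KF2 (StKF.lean) `p` times: `L = L0.map (sS h)` with `L0 ∈ Tn .. n`. -/
def St_KR1 : Prop := ∀ (A : Type) [CommRing A] [Nontrivial A] (s m J : ℕ), 1 ≤ s → s ≤ m →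
  KerFree A s → KerFree A[X] s → PDiag A m → ∀ (h : KLP A m J) (N : ℕ)
  (L : List (Lat A (Vn A N))) (φ : List (Fr A[X] N)), m * J + s + φ.length + 1 ≤ N →
  ((L, φ) ∈ (latS A m J h).Bi N ↔ L ∈ (Tn A m J N).s ∧ φ.map frV ∈ (FrC L).s)

/-- **KR2** (0.8 h). The rows.

Proof. KF3, KF3' (StKF.lean): `Conn (FrC L) (j + 2)` for all `L ∈ Tn .. N` (empty or not), `N` large. `frV` is a bijection onto all pairs
(vector, linear form). Let `z` be a cycle of length `b < j + 2` of the row of `L`; `push frV z` is a cycle of `FrC L` (`St_KR1`), so it is `bd y`, `y` of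
length `b + 1 ≤ j + 2`, and `y = push frV y'` with `y'` in the row of `L` by `St_KR1`; `push frV` is injective. -/
def St_KR2 : Prop := ∀ (A : Type) [CommRing A] [Nontrivial A] (s m : ℕ), 1 ≤ s → s ≤ m →
  KerFree A s → KerFree A[X] s → (∀ c, SFP A s c) → (∀ c, SFP A[X] s c) → PDiag A m →
  ∀ (J j : ℕ) (h : KLP A m J), ∃ N0 : ℕ, ∀ N, N0 ≤ N → ∀ L ∈ (Tn A m J N).s,
    Conn (((latS A m J h).BX N).row L) (j + 2)

/-- **KC1** (1 h). Elementary matrices and stabilizers of the standard vertices.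

Proof. `H` = the closure. (a) `GL_N(A) ≤ H`: constant invertible matrices fix `vT A m N 0 = O^N`; so `H` contains the permutation matrices and the
`e_ij(a)`, `a ∈ A`. (b) `e_ij(a X + b)` with `i < m ≤ j` fixes `vT A m N 1` (degree of the entry `≤ w i - w j = 1`); with (a) all `e_ij(a X)`, `i ≠ j`, are in
`H`. (c) `e_ij(f g) = [e_ik(f), e_kj(g)]` (`N ≥ 3`): by induction all `e_ij(a X^p)`, and `e_ij(f + g) = e_ij(f) e_ij(g)`: all `e_ij(f)`. -/
def St_KC1 : Prop := ∀ (A : Type) [CommRing A] (m J N : ℕ), 1 ≤ m → 1 ≤ J → m + 3 ≤ N →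
  ∀ g ∈ El A[X] N, g ∈ Subgroup.closure {k : GLn A[X] N | ∃ t : Fin (J + 1),
    gL k (vT A m N t.val) = vT A m N t.val}

/-- **KC2** (1.5 h). Commutators are elementary (Whitehead).

Proof. Let `B` be the set of the `g ∈ GL_N(R)` with `g_ij = δ_ij` if `i ≥ s` or `j ≥ s`. (a) `B` normalises `El`: `g ∈ B`: `g e_ij(a) g⁻¹` is `e_ij(a)` for
`i, j ≥ s`; for `i < s ≤ j` it is the product of the `e_i'j(g_i'i a)`, `i' < s`; for `j < s ≤ i` the product of the `e_ij'(a (g⁻¹)_jj')`; for `i, j < s` use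
`e_ij(a) = [e_ik(a), e_kj(1)]`, `k = s`. By the hypothesis (`n = s`) `GL_N = El B`, so `El` is normal. (b) Let `w = ∏_(i < s) w_(i, s + i)`,
`w_ij = e_ij(1) e_ji(-1) e_ij(1) ∈ El`: for `h ∈ B` the matrix `w h w⁻¹` is the identity outside of the indices `[s, 2 s)`, so it commutes with `B`. (c)
`g = e₁ g₁`, `h = e₂ h₁` with `g₁, h₁ ∈ B`: modulo `El` the commutator of `g`, `h` is that of `g₁` and `w h₁ w⁻¹`, so trivial. -/
def St_KC2 : Prop := ∀ (R : Type) [CommRing R] (s N : ℕ), 2 * s + 2 ≤ N →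
  (∀ g : GL (Fin N) R, ∃ e ∈ El R N, ∀ i j : Fin N, (s ≤ i.val ∨ s ≤ j.val) →
    ((e * g : GL (Fin N) R) : Matrix (Fin N) (Fin N) R) i j = if i = j then 1 else 0) →
  ∀ g h : GL (Fin N) R, g * h * g⁻¹ * h⁻¹ ∈ El R N

/-- **KC3** (1 h). The types of the vertices and of the edges.

Proof. (1) `LR` of `vT .. t`, `vT .. t'` for `t ≤ t'` (weights `w ≤ w' ≤ w + 1`), degree `m t ≤ m J ≤ N`. (2) `PDiag` for `[x, y]`: a basis `b` with `n` elements,
`n = N` (invariant basis number), `x = OL b (i < d)`, `y = OL b (i < d')`, `d = m t`, `d' = m t'`; `g` = the matrix with the columns `b_i`,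
`mapL g (OL b0 w) = OL (b0.map g) w`. (3) the rank of the `A`-module `E (-1)` is `m t` for `E = vT .. t` and it is invariant under `gL g` (compare
`St_KJ1` (1) in StKJ.lean), `m ≥ 1`. -/
def St_KC3 : Prop := ∀ (A : Type) [CommRing A] [Nontrivial A] (m J N : ℕ), 1 ≤ m → m * J ≤ N →
  PDiag A m →
  (∀ t t' : Fin (J + 1), [vT A m N t.val, vT A m N t'.val] ∈ (Tn A m J N).s) ∧
  (∀ x y : Lat A (Vn A N), [x, y] ∈ (Tn A m J N).s → ∃ (g : GLn A[X] N) (t t' : Fin (J + 1)),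
    x = gL g (vT A m N t.val) ∧ y = gL g (vT A m N t'.val)) ∧
  (∀ (g : GLn A[X] N) (t t' : Fin (J + 1)),
    gL g (vT A m N t.val) = vT A m N t'.val → t = t')

/-- **KS** (0.6 h). Connectivity of `T`.

Proof. `St_S0` for `latS A m J h` (`St_KLa`), `T = Fin (J + 1)`, `v N t = vT A m N t`: `Conn .. 1` because `[On A N]` is a simplex; rows: `St_KR2` for `j = 1`;
every class dies: `St_KH4` for `j = 1 < J`; `St_KC3`; commutators: `St_KC2` for `R = A[X]` and `St_KC1`. (`N0` = the maximum of all bounds.) -/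
def St_KS : Prop := ∀ (A : Type) [CommRing A] [Nontrivial A] (s : ℕ), 1 ≤ s →
  KerFree A s → KerFree A[X] s → (∀ c, SFP A s c) → (∀ c, SFP A[X] s c) →
  (∀ n N, s ≤ n → n ≤ N → ∀ g : GL (Fin N) A[X], ∃ e ∈ El A[X] N, ∀ i j : Fin N,
    (n ≤ i.val ∨ n ≤ j.val) →
    ((e * g : GL (Fin N) A[X]) : Matrix (Fin N) (Fin N) A[X]) i j = if i = j then 1 else 0) →
  ∀ m : ℕ, s ≤ m → PDiag A m → PInf A m → PPush A m →
  ∀ J ≥ 2, ∃ N : ℕ, ∀ n ≥ N, Conn (Tn A m J n) 2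

/-- **KZ** (1 h). The final induction: this is `St_SZ` of AsmG.lean.

Proof. Induction on `c`. `c = 0`: nothing to prove. `c = 1`: `[On A n]` is a simplex. `c = 2`: `St_KS`, `J0 = 2`. Step `c → c + 1` for `c ≥ 2`: `J0' = max J0 (c + 1)`;
let `J ≥ J0'`, `N` with `Conn (Tn A m J n) c` for `n ≥ N` (`St_KT`), in particular `Conn .. 2`. `St_SU` for `latS A m J h`, `j = c`, `N0 = max N (bound of St_KR2)`,
`n2 = N`, `k0 n = n + N`, `k2 n = n + N`: `St_KH4`, `St_KH1`, `St_KH2`. So `Ex (Tn A m J n) c` for large `n`. -/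
def St_KZ : Prop := ∀ (A : Type) [CommRing A] [Nontrivial A] (s : ℕ), 1 ≤ s →
  KerFree A s → KerFree A[X] s → (∀ c, SFP A s c) → (∀ c, SFP A[X] s c) →
  (∀ n N, s ≤ n → n ≤ N → ∀ g : GL (Fin N) A[X], ∃ e ∈ El A[X] N, ∀ i j : Fin N,
    (n ≤ i.val ∨ n ≤ j.val) →
    ((e * g : GL (Fin N) A[X]) : Matrix (Fin N) (Fin N) A[X]) i j = if i = j then 1 else 0) →
  ∀ m : ℕ, s ≤ m → PDiag A m → PInf A m → PPush A m →
  ∀ c : ℕ, ∃ J0 : ℕ, ∀ J ≥ J0, ∃ N : ℕ, PConn A m J c N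

end Pool.Agent.SLZ
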