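import Pool.Agent.SLZ.DefsT
import Pool.Agent.SLZ.StF5

/-!
# SLZ, part KA: the end. Orbits and stabilizers of `GL(V)` on the complex `T`, Brown's criterion (captain helper12)
-/

set_option autoImplicit false
set_option linter.unusedVariables false

noncomputable section

namespace Pool.Agent.SLZ

open Polynomial

/-- **KA1** (1 h). Images and stabilizers of diagonal lattices.

Proof. (1) `(b.map g).repr (g v) = b.repr v`. (2) `mapL g (OL b w) = OL b w` iff the matrices `m` of `g` and of `g⁻¹` in the basis `b` satisfy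
`deg m_ac ≤ w a - w c`: if they do, the `a`-th coordinate of `g v` is `∑_c m_ac v_c` of degree `≤ (w a - w c) + (k + w c)`; conversely take
`v = b_c`, `k = - w c` (`b_c ∈ E (- w c)`, so `g b_c ∈ E (- w c)`). So `LinearMap.toMatrix b b` restricts to an isomorphism of the pointwise stabilizer
with `PS A w` (`GL (Fin n) A[X] ≃* (V ≃ₗ V)`). (3) adjacency, `TV` and `TT` are invariant. -/
def St_KA1 : Prop := ∀ (A : Type) [CommRing A] (V : Type) [AddCommGroup V] [Module A V]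
  [Module A[X] V] [IsScalarTower A A[X] V],
  (∀ (n : ℕ) (b : Module.Basis (Fin n) A[X] V) (w : Fin n → ℤ) (V' : Type) [AddCommGroup V']
    [Module A V'] [Module A[X] V'] [IsScalarTower A A[X] V'] (g : V ≃ₗ[A[X]] V'),
    mapL g (OL b w) = OL (b.map g) w) ∧
  (∀ (n : ℕ) (b : Module.Basis (Fin n) A[X] V) (I : Type) (w : I → Fin n → ℤ),
    Nonempty (fixingSubgroup (V ≃ₗ[A[X]] V) {E : Lat A V | ∃ i, E = OL b (w i)} ≃* PS A w)) ∧
  (∀ (V' : Type) [AddCommGroup V'] [Module A V'] [Module A[X] V'] [IsScalarTower A A[X] V']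
    (g : V ≃ₗ[A[X]] V'), (∀ E E' : Lat A V, adjL (mapL g E) (mapL g E') ↔ adjL E E') ∧
    (∀ m J (E : Lat A V), mapL g E ∈ TV A V' m J ↔ E ∈ TV A V m J) ∧
    (∀ m J (L : List (Lat A V)), L.map (mapL g) ∈ (TT A V' m J).s ↔ L ∈ (TT A V m J).s))

/-- **KA2** (0.7 h). Orbits.

Proof. `PDiag`: `L` is `(OL b (i < d_E))_E` for a basis `b` with `n'` elements, `n' = n` (invariant basis number, `A[X]` is not trivial). The list of the
`d_E ≤ n` has finitely many values; with `g : b ↦ b0` the list `g L` only depends on it (`St_KA1` (1)). -/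
def St_KA2 : Prop := ∀ (A : Type) [CommRing A] [Nontrivial A] (m : ℕ), PDiag A m →
  ∀ (V : Type) [AddCommGroup V] [Module A V] [Module A[X] V] [IsScalarTower A A[X] V] (n : ℕ)
  (b0 : Module.Basis (Fin n) A[X] V) (J j : ℕ), ∃ F : Finset (List (Lat A V)),
    ∀ L ∈ (TT A V m J).s, L.length = j → ∃ g : V ≃ₗ[A[X]] V, L.map (g • ·) ∈ F

/-- **KA3** (0.8 h). Stabilizers.

Proof. `PDiag` for `L`: basis `b` (with `n` elements), `d_E` for `E ∈ L`; `I = {E // E ∈ L}` (finite), `w E i = 1` if `i < d_E`, else `0`. `St_KA1` (2). The fibres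
of `i ↦ w · i`: let `a < n`. If `a < d_E` for some `E` and `q = a / m`, then `(q + 1) m ≤ d_E ≤ n` and for every `E'` the number `d_E'` is a multiple of
`m`, so `w E'` is constant on `[q m, (q + 1) m)`. Otherwise `a ≥ d_E` for all `E` and all `b` with `b ≥ m J` are in the fibre of `a`: `n - m J ≥ C` elements. Then `St_BC`
(StF5.lean, a hypothesis of the theorem; `FPG` is invariant under isomorphisms: `St_FSub` (1)). -/
def St_KA3 : Prop := ∀ (A : Type) [CommRing A] [Nontrivial A] (m C k : ℕ), PDiag A m → 1 ≤ m →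
  C ≤ m → (∀ n ≥ C, ∀ a b : ℕ, FPab A k a n b) →
  ∀ (V : Type) [AddCommGroup V] [Module A V] [Module A[X] V] [IsScalarTower A A[X] V] (n : ℕ)
  (b0 : Module.Basis (Fin n) A[X] V) (J : ℕ), m * J + C ≤ n → ∀ L ∈ (TT A V m J).s, L ≠ [] →
    FPG k (fixingSubgroup (V ≃ₗ[A[X]] V) {x : Lat A V | x ∈ L})

/-- **KA** (0.8 h). The end.

Proof. Let `k` be given. `St_BA`: `C` with `FPab A k a n b` for all `n ≥ C`, and then also for `k' ≤ k` (`St_FM1` (4)). Take `m = max (m1 (k + 1)) C 1`, `J`, `N` from the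
hypothesis for `c = k + 1`, and `n ≥ max N (m J + C)`. `V = Fin n → A[X]`, `G = (V ≃ₗ V)`, `St_FBL` for `TT A V m J`: invariance `St_KA1` (3), `Conn`, orbits
`St_KA2`, stabilizers `St_KA3`. `G ≃* GL (Fin n) A[X]`, `St_FSub` (1). -/
def St_KA : Prop := ∀ (A : Type) [CommRing A] [Nontrivial A] (s : ℕ), KerFree A s → AffConn A s →
  (∀ k : ℕ, ∃ N : ℕ, ∀ n ≥ N, FPG k (GL (Fin n) A)) →
  (∀ c : ℕ, ∃ m1 : ℕ, ∀ m ≥ m1, PDiag A m ∧ ∃ J N : ℕ, PConn A m J c N) →
  ∀ k : ℕ, ∃ N : ℕ, ∀ n ≥ N, FPG k (GL (Fin n) A[X])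

end Pool.Agent.SLZ
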