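import Pool.Agent.SLZ.StM

/-!
# SLZ, part P: posets of summands which avoid a subspace at every prime (architect helper38)

`R` is a principal ideal domain (or a field), `V` a free module of finite rank. A subspace of `V / x V` (`x` a maximal
ideal) is given as a submodule of `V` which contains `x V`. Paper: `/team-store/SLT_paper.md`, section 5.
-/

set_option autoImplicit false
set_option linter.unusedVariables false

noncomputable section

namespace Pool.Agent.SLZ

section

variable {R V : Type} [CommRing R] [AddCommGroup V] [Module R V]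

/-- saturated submodules (direct summands) -/
def Sat (A : Submodule R V) : Prop := ∀ (a : R) (v : V), a ≠ 0 → a • v ∈ A → v ∈ A

variable (V) in
/-- `x V` -/
def xV (x : MaximalSpectrum R) : Submodule R V := x.asIdeal • (⊤ : Submodule R V)

/-- codimension (used for submodules which contain some `x V`) -/
def cod (K : Submodule R V) : ℕ∞ := Module.length R (V ⧸ K)

/-- admissible families: almost everywhere the reduction of a fixed summand -/
def Adms (K : MaximalSpectrum R → Submodule R V) : Prop :=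
  (∀ x, xV V x ≤ K x) ∧ ∃ F : Submodule R V, Sat F ∧ {x | K x ≠ F ⊔ xV V x}.Finite

/-- `A` avoids `K` at all places -/
def Av (K : MaximalSpectrum R → Submodule R V) (A : Submodule R V) : Prop :=
  ∀ x, A ⊓ K x ≤ xV V x

/-- `N = 0` (no condition) or a proper subspace at one place -/
def OkN (N : Submodule R V) : Prop := N = ⊥ ∨ N ≠ ⊤ ∧ ∃ p : MaximalSpectrum R, xV V p ≤ N

/-- the summands which avoid `K` and are not contained in `N` -/
def TT (K : MaximalSpectrum R → Submodule R V) (N : Submodule R V) : Set (Submodule R V) :=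
  {A | A ≠ ⊥ ∧ Sat A ∧ Av K A ∧ ¬ A ≤ N}

/-- the relation of the link of a lattice: first copy: up moves, second copy: down moves -/
def lkr {P : Type} [LE P] : P ⊕ P → P ⊕ P → Prop
  | .inl a, .inl b => cmp a b
  | .inr a, .inr b => cmp a b
  | .inl a, .inr b => a ≤ b
  | .inr b, .inl a => a ≤ b

end

/-- **PA.** Linear algebra at a place.

Proof. `x = (y)`, `x V = y V`. (1) `y v ∈ A` (`y ≠ 0`) implies `v ∈ A`; if `y = 0` (`R` a field) trivial. (2) `A / x A = (R / x)^a`.
(3) `(A ⊔ K) / K ≅ A / (A ⊓ K) = A / x A`, length additive. (4) `(A ⊓ (K ⊔ ⟨v⟩)) / (A ⊓ K)` embeds into `(K ⊔ ⟨v⟩) / K`, cyclic and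
killed by `x`, length at most one. (5) `V / (B ⊔ K)` is a quotient of `(V / B) / x`. Here `V / (A ⊔ K)`
is isomorphic to `(V / A) / image of K`. -/
def St_PA : Prop := ∀ (R V : Type) [CommRing R] [IsDomain R] [IsPrincipalIdealRing R]
  [AddCommGroup V] [Module R V] [Module.Free R V] [Module.Finite R V]
  (x : MaximalSpectrum R) (A : Submodule R V), Sat A →
  (A ⊓ xV V x = x.asIdeal • A ∧ (xV A x).map A.subtype = A ⊓ xV V x) ∧
  (Module.length R (A ⧸ (xV V x).comap A.subtype) = Module.finrank R A ∧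
    cod (xV V x) = Module.finrank R V ∧
    Module.finrank R A + Module.finrank R (V ⧸ A) = Module.finrank R V) ∧
  (∀ K : Submodule R V, xV V x ≤ K → A ⊓ K ≤ xV V x →
    cod (A ⊔ K) + Module.finrank R A = cod K ∧
    cod (K.map A.mkQ) = cod (A ⊔ K) ∧
    (∀ v : V, (Module.finrank R A : ℕ∞) ≤ cod ((K ⊔ R ∙ v).comap A.subtype) + 1)) ∧
  (∀ K : Submodule R V, xV V x ≤ K →
    cod K ≤ cod (K.comap A.subtype) + Module.finrank R (V ⧸ A) ∧
    cod (K.comap A.subtype) ≤ Module.finrank R A)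

/-- **PB.** Admissible families.

Proof. `x = (y)`. KEY: a finitely generated module `Q` has torsion killed by one `a ≠ 0`, and `a ∉ x` for almost all `x` (if `R` is
not a field; if `R` is a field there is only one `x`). (1) `F'` = saturation of `F ⊔ B`; `F' / (F ⊔ B)` is torsion, so
`F' ≤ F ⊔ B ⊔ x V` for almost all `x`. (2) `F ⊓ A`: for almost all `x` the module `V / (F ⊔ A)` has no `x`-torsion: if
`f + y v ∈ A` then `v ∈ F ⊔ A`, `v = f' + a'`, `f + y v = (f + y f') + y a'` and `f + y f' ∈ F ⊓ A`. (3) as (1) for the image of `F`.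
(4) `{x}` is finite: change a family at one place. -/
def St_PB : Prop := ∀ (R V : Type) [CommRing R] [IsDomain R] [IsPrincipalIdealRing R]
  [AddCommGroup V] [Module R V] [Module.Free R V] [Module.Finite R V]
  (K : MaximalSpectrum R → Submodule R V), Adms K →
  (∀ B : Submodule R V, Adms fun x => K x ⊔ B) ∧
  (∀ A : Submodule R V, Sat A → Adms (V := A) (fun x => (K x).comap A.subtype) ∧
    Adms (V := V ⧸ A) (fun x => (K x).map A.mkQ)) ∧
  (∀ (p : MaximalSpectrum R) (N : Submodule R V), xV V p ≤ N →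
    ∀ K' : MaximalSpectrum R → Submodule R V, (∀ x, x ≠ p → K' x = K x) → K' p = N → Adms K')

/-- **PC.** A vector off all the subspaces.

Proof. Let `F`, `S` be the summand and the finite set of `K`; `F ≠ ⊤` as `K x ≠ ⊤` (if all `x` are in `S` and `F = ⊤` take `F = ⊥`, `V ≠ 0`).
If `V / F` is not zero it is free, so there are `φ : V → R` onto with `F ≤ ker φ` and `e` with `φ e = 1`. For `x ∈ S ∪ {p}` choose
`c_x ∈ V` outside of `K x` and (for `x = p`) outside of `N` (a module is not the union of two proper submodules). `u` = product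
of generators of the `x ∈ S ∪ {p}` with `φ c_x ∈ x`. For `x ∈ S ∪ {p}`: if `φ c_x ∈ x` let `λ_x = 1`, otherwise `λ_x φ c_x - u ∈ x` for some `λ_x`
(which is not in `x`, because `u ∉ x`). CRT (coordinates of `V`): `v_0` with `v_0 - λ_x c_x ∈ x V` for `x ∈ S ∪ {p}`. `φ v_0 - u ∈ x` for
all these `x`, so it is in their product `(π)`, `φ v_0 - u = m π`, `v = v_0 - m π e`, `φ v = u`. Then `v ∉ K x` for `x ∈ S ∪ {p}`, `v ∉ N`, and for
the other `x`: `u ∉ x`, so `v ∉ F ⊔ x V`. If `R` is a field there is only one `x`: trivial. -/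
def St_PC : Prop := ∀ (R V : Type) [CommRing R] [IsDomain R] [IsPrincipalIdealRing R]
  [AddCommGroup V] [Module R V] [Module.Free R V] [Module.Finite R V]
  (K : MaximalSpectrum R → Submodule R V) (N : Submodule R V), Adms K → OkN N →
  (∀ x, K x ≠ ⊤) → Nontrivial V → ∃ v : V, (∀ x, v ∉ K x) ∧ v ∉ N ∧ Sat (R ∙ v)

/-- **PD.** Intervals of summands.

Proof. `B ↦ B.comap A.subtype` and `B ↦ B.map A.mkQ` are isomorphisms of the ordered sets of the submodules below (above)
`A` to the submodules of `A` (of `V / A`), compatible with all notions; transport (`St_MC` (6)). For (1): `Av`: `B ⊓ K x ≤ x V` iff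
the same in `A`, as `A ⊓ x V = x A` (`St_PA`). (2) `A ≤ B`, `B ⊓ K x ≤ x V`: iff `(B / A) ⊓ image (K x) ≤ x (V / A)`: if `b = k + a` then
`b - a ∈ B ⊓ K x ≤ x V`; conversely `b ∈ B ⊓ K x`, so `b ∈ A + x V`, `b = a + z`, `z ∈ B ⊓ x V` (`z = b - a`), so
`a = b - z ∈ A ⊓ K x ≤ x V` (here `Av K A` is used). -/
def St_PD : Prop := ∀ (R V : Type) [CommRing R] [IsDomain R] [IsPrincipalIdealRing R]
  [AddCommGroup V] [Module R V] [Module.Free R V] [Module.Finite R V]
  (A : Submodule R V), Sat A →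
  (∀ B : Submodule R V, B ≤ A → ((Sat B ↔ Sat (B.comap A.subtype)) ∧
    (B.comap A.subtype).map A.subtype = B ∧
    Module.finrank R (B.comap A.subtype) = Module.finrank R B ∧
    (B = A ↔ B.comap A.subtype = ⊤) ∧ (B = ⊥ ↔ B.comap A.subtype = ⊥) ∧
    (∀ K : MaximalSpectrum R → Submodule R V, (Av K B ↔
      Av (V := A) (fun x => (K x).comap A.subtype) (B.comap A.subtype))) ∧
    (∀ N : Submodule R V, B ≤ N ↔ B.comap A.subtype ≤ N.comap A.subtype))) ∧
  (∀ B : Submodule R V, A ≤ B → ((Sat B ↔ Sat (B.map A.mkQ)) ∧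
    (B.map A.mkQ).comap A.mkQ = B ∧
    Module.finrank R (B.map A.mkQ) + Module.finrank R A = Module.finrank R B ∧
    (B = A ↔ B.map A.mkQ = ⊥) ∧ (B = ⊤ ↔ B.map A.mkQ = ⊤) ∧
    (∀ K : MaximalSpectrum R → Submodule R V, (∀ x, xV V x ≤ K x) → Av K A →
      (Av K B ↔ Av (V := V ⧸ A) (fun x => (K x).map A.mkQ) (B.map A.mkQ))) ∧
    (∀ L : Submodule R V, B ⊔ L = ⊤ ↔ B.map A.mkQ ⊔ L.map A.mkQ = ⊤) ∧
    (∀ (P : Submodule R V) (p : MaximalSpectrum R), P ≤ B ⊔ xV V p ↔
      P.map A.mkQ ≤ B.map A.mkQ ⊔ xV (V ⧸ A) p))) ∧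
  (∀ (T : Set (Submodule R V)) (c : ℕ), (∀ B ∈ T, B ≤ A) →
    (SConn cmp T c ↔ SConn cmp ((fun B : Submodule R V => B.comap A.subtype) '' T) c)) ∧
  (∀ (T : Set (Submodule R V)) (c : ℕ), (∀ B ∈ T, A ≤ B) →
    (SConn cmp T c ↔ SConn cmp ((fun B : Submodule R V => B.map A.mkQ) '' T) c))

/-- **PT.** The main theorem on summands which avoid subspaces.

Proof. Induction on the rank of `V`; `c ≥ 1` (`c = 0`: `St_MC` (3)); so `K x ≠ ⊤` and `V ≠ 0`. Choose `v` by `St_PC`,
`K' x = K x ⊔ ⟨v⟩` (admissible). For `A ∈ TT K N` with `Av K' A`: `v ∉ A` and `A ⊔ ⟨v⟩` is saturated and in `TT K N` (`a + c v ∈ K x`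
implies `c ∈ x`: otherwise `a` plus a unit times `v`, so `a ∈ K' x`, `a ∈ x V`, `v ∈ K x`; saturated: `A ⊕ ⟨v⟩` is injective modulo every
`x`). STAGE 1: `T_1 = {A ∈ TT K N | v ∈ A}`: a cone with apex `⟨v⟩`. STAGE 2: add the `A ∈ TT K N` with `Av K' A` by increasing rank: the
descending link is a cone with apex `A ⊔ ⟨v⟩`. STAGE 3: add the other `A` (`v ∉ A`, not `Av K' A`) by decreasing rank (`f A = n - rank`).
The descending link is the union of `{A' ∈ TT K N | A < A'}` (all of them: of the kinds 1, 2 or of bigger rank) and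
`{A' < A | A' ∈ TT K' N}` (all `A' < A` of the kinds 1, 2; kind 1 is impossible). `St_PD`: the first is `TT` of `V / A` for the
images of the `K x` and `N = ⊥` (`A' > A` is not contained in `N`), with codimension `≥ c - rank A` (`St_PA`), the second is `TT` of `A` for
`(K' x).comap` and `N.comap` (`A' = A` is impossible, as `A` does not satisfy `Av K'`), with codimension `≥ rank A - 1` (`St_PA`); `OkN`:
`N.comap ≠ ⊤` because `A` is not contained in `N`; `A ≠ ⊤` (`v ∉ A`), `A ≠ ⊥`. Join (`St_MC` (5)): `c - rank A + (rank A - 1) ≥ c - 1`. -/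
def St_PT : Prop := ∀ (R V : Type) [CommRing R] [IsDomain R] [IsPrincipalIdealRing R]
  [AddCommGroup V] [Module R V] [Module.Free R V] [Module.Finite R V]
  (K : MaximalSpectrum R → Submodule R V) (N : Submodule R V) (c : ℕ), Adms K → OkN N →
  (∀ x, (c : ℕ∞) ≤ cod (K x)) → SConn cmp (TT K N) c

/-- **P4.** Proper summands.

Proof. Induction on the rank `n`; `n ≤ 1`: `n - 1 = 0`. `n ≥ 2`: `v` from `St_PC` (`K x = x V`, `N`). `{A | v ∈ A, A ≠ ⊤, Sat A}` is a cone with apex
`⟨v⟩` (`⟨v⟩ ≠ ⊤`; `A ∋ v` is not contained in `N`). Add the others by increasing rank: the descending link is the union of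
`{A' < A, ¬ A' ≤ N, A' ≠ ⊥}` and `{A' > A | v ∈ A', A' ≠ ⊤}`. If the saturation of `A ⊔ ⟨v⟩` is not `⊤` it is the apex of a cone.
Otherwise `rank A = n - 1`, the second set is empty and the first is `St_P4` for `A` (`N.comap ≠ ⊤`): `n - 2`. -/
def St_P4 : Prop := ∀ (R V : Type) [CommRing R] [IsDomain R] [IsPrincipalIdealRing R]
  [AddCommGroup V] [Module R V] [Module.Free R V] [Module.Finite R V]
  (N : Submodule R V), OkN N →
  SConn cmp {A : Submodule R V | A ≠ ⊥ ∧ A ≠ ⊤ ∧ Sat A ∧ ¬ A ≤ N} (Module.finrank R V - 1)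

/-- **P5.** Variants of the main theorem.

Proof. (1) Start with `TT K N`, add the others (`A ≤ N`, so also all smaller ones) by increasing rank: the descending link is the
union of `{A' < A}` (all proper nonzero summands of `A`: they satisfy all conditions; `St_P4` for `A`, `N = ⊥`: `rank A - 1`) and
`{A' > A | A' ∈ TT K N}` (`St_PD`, `St_PT` for `V / A` with `N / A ≠ ⊤`: `c - rank A`). (2) Descend from `TT K ⊥` (`St_MC` (7), second part):
remove the `A` with `rank A ≥ r`, `f = rank`: the descending link is `{A' < A}`, all proper nonzero summands of `A`: `rank A - 1 ≥ r - 1`. -/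
def St_P5 : Prop := ∀ (R V : Type) [CommRing R] [IsDomain R] [IsPrincipalIdealRing R]
  [AddCommGroup V] [Module R V] [Module.Free R V] [Module.Finite R V]
  (K : MaximalSpectrum R → Submodule R V) (c r : ℕ), Adms K → (∀ x, (c : ℕ∞) ≤ cod (K x)) →
  (∀ (p : MaximalSpectrum R) (N K' : Submodule R V), N ≠ ⊤ → xV V p ≤ N →
    SConn cmp {A : Submodule R V | A ≠ ⊥ ∧ Sat A ∧ Av K A ∧
      (¬ A ≤ N ∨ (A ⊓ K' ≤ xV V p ∧ Module.finrank R A < r))} c) ∧
  SConn cmp {A : Submodule R V | A ≠ ⊥ ∧ Sat A ∧ Av K A ∧ Module.finrank R A < r} (min c (r - 1))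

/-- **PE.** Duality, linear algebra. `dp B` = the functionals which vanish on `B`.

Proof. `B` is a direct summand: choose a basis of `V` adapted to `B`. (3) for `Sat B`: `B ⊔ L = ⊤` (`L ≥ x V`) iff `B + L = V` modulo `x` iff no
nonzero functional on `V / x V` vanishes on `B` and `L`; a functional on `V / x V` which vanishes on `B` is the reduction of an
element of `dp B`. `dpx x L` = the functionals `φ` with `φ L ≤ x` (contains `x V*`). (5) dimension of the annihilator over `R / x`.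
(6) if `K x = F ⊔ x V` then `dpx x (K x) = dp F ⊔ x V*`. -/
def St_PE : Prop := ∀ (R V : Type) [CommRing R] [IsDomain R] [IsPrincipalIdealRing R]
  [AddCommGroup V] [Module R V] [Module.Free R V] [Module.Finite R V],
  ∃ (dp : Submodule R V → Submodule R (Module.Dual R V))
    (dpx : MaximalSpectrum R → Submodule R V → Submodule R (Module.Dual R V)),
    (∀ B, Sat (dp B)) ∧
    (∀ B C, Sat B → Sat C → (dp B ≤ dp C ↔ C ≤ B)) ∧
    (∀ B, Sat B → Module.finrank R (dp B) + Module.finrank R B = Module.finrank R V) ∧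
    (∀ A : Submodule R (Module.Dual R V), Sat A → ∃ B, Sat B ∧ dp B = A) ∧
    (∀ x L, xV V x ≤ L → xV (Module.Dual R V) x ≤ dpx x L ∧
      cod (dpx x L) + cod L = Module.finrank R V ∧
      (dpx x L = ⊤ ↔ L = xV V x)) ∧
    (∀ x B L, Sat B → xV V x ≤ L → (B ⊔ L = ⊤ ↔ dp B ⊓ dpx x L ≤ xV (Module.Dual R V) x) ∧
      (L ≤ B ⊔ xV V x ↔ dp B ≤ dpx x L)) ∧
    (∀ K : MaximalSpectrum R → Submodule R V, Adms K → Adms fun x => dpx x (K x))

/-- **PF.** The dual statements.

Proof. `St_PE`: `dp` is an anti-isomorphism of the ordered sets of saturated submodules; `cmp` is symmetric; transport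
(`St_MC` (6)). (1), (2): `St_P5` for the dual module, `K x = dpx x (L x)`: `cod (K x) = n - cod (L x) ≥ c`; `N = dpx p P ≠ ⊤`; (3): `St_P4`. (4) (no
condition) `St_P4` for `N = ⊥`. -/
def St_PF : Prop := ∀ (R V : Type) [CommRing R] [IsDomain R] [IsPrincipalIdealRing R]
  [AddCommGroup V] [Module R V] [Module.Free R V] [Module.Finite R V]
  (L : MaximalSpectrum R → Submodule R V) (c r : ℕ), Adms L →
  (∀ x, (c : ℕ∞) + cod (L x) ≤ Module.finrank R V) →
  (∀ (p : MaximalSpectrum R) (P L' : Submodule R V), xV V p < P → xV V p ≤ L' →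
    SConn cmp {B : Submodule R V | B ≠ ⊤ ∧ Sat B ∧ (∀ x, B ⊔ L x = ⊤) ∧
      (¬ P ≤ B ⊔ xV V p ∨ (B ⊔ L' = ⊤ ∧ Module.finrank R V < Module.finrank R B + r))} c) ∧
  SConn cmp {B : Submodule R V | B ≠ ⊤ ∧ Sat B ∧ (∀ x, B ⊔ L x = ⊤) ∧
    Module.finrank R V < Module.finrank R B + r} (min c (r - 1)) ∧
  (∀ (p : MaximalSpectrum R) (P : Submodule R V), xV V p < P →
    SConn cmp {B : Submodule R V | B ≠ ⊥ ∧ B ≠ ⊤ ∧ Sat B ∧ ¬ P ≤ B ⊔ xV V p}
      (Module.finrank R V - 1)) ∧
  SConn cmp {B : Submodule R V | B ≠ ⊥ ∧ B ≠ ⊤ ∧ Sat B} (Module.finrank R V - 1)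

/-- **PX.** Two ways to build up a link.

Proof. (1) `St_MC` (7): start with `Sum.inl '' TA` (transport from `TA`), add the `Sum.inr B`, `B ∈ TB`, by decreasing rank; the
descending link is the join of `Sum.inl '' {A ∈ TA | A ≤ B}` and `Sum.inr '' {B' ∈ TB | B < B'}`;
`(c - cork B) + (cork B - 1) ≥ c - 1` (`cork B ≥ 1`). (2) start with `Sum.inr '' TB`, add the `A` by increasing rank. -/
def St_PX : Prop := ∀ (R V : Type) [CommRing R] [IsDomain R] [IsPrincipalIdealRing R]
  [AddCommGroup V] [Module R V] [Module.Free R V] [Module.Finite R V]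
  (TA TB : Set (Submodule R V)) (c : ℕ), (∀ A ∈ TA, A ≠ ⊥ ∧ Sat A) → (∀ B ∈ TB, B ≠ ⊤ ∧ Sat B) →
  (SConn cmp TA c →
    (∀ B ∈ TB, SConn cmp {A | A ∈ TA ∧ A ≤ B} (c - (Module.finrank R V - Module.finrank R B))) →
    (∀ B ∈ TB, SConn cmp {B' | B' ∈ TB ∧ B < B'} (Module.finrank R V - Module.finrank R B - 1)) →
    SConn lkr (Sum.inl '' TA ∪ Sum.inr '' TB) c) ∧
  (SConn cmp TB c →
    (∀ A ∈ TA, SConn cmp {B | B ∈ TB ∧ A ≤ B} (c - Module.finrank R A)) →
    (∀ A ∈ TA, SConn cmp {A' | A' ∈ TA ∧ A' < A} (Module.finrank R A - 1)) →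
    SConn lkr (Sum.inl '' TA ∪ Sum.inr '' TB) c)

end Pool.Agent.SLZ
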