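import Pool.Agent.SLZ.StP

/-!
# SLZ, part Q: the descending links, as posets of summands (architect helper38)

Paper: `/team-store/SLT_paper.md`, sections 3 and 4.
-/

set_option autoImplicit false
set_option linter.unusedVariables false

noncomputable section

namespace Pool.Agent.SLZ

/-- **QN.** The sum of the slopes at a bad prime.

`f i` = number of slopes `≥ i`; the slopes are between `-w` and `w + 1`, `w ≥ 1`, their sum is `d`.

Proof. `α = f (w+1)`, `h = f w`, `N = f (1-w)`, `N' = f (2-w)`. (1) `f i ≥ h` for `i ≤ w`: `d ≥ w h - w (n - h)`, so `2 h - n ≤ d`. (2)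
`f (1-w) = n`, so `f i = n` for `i ≤ 1 - w`: `d ≥ w h - (w-1)(n-h)` plus `f (w+1) ≥ 0`; `(2w-1) h ≤ d + (w-1) n ≤ (2w-1) n / 2`. (3) `f i ≤ N` for
`i ≥ 1-w`: `d ≤ (1+w) N - w (n - N)`; `(1+2w)(n-N) ≤ (1+w) n - d ≤ (1+2w) n / 2`. (4) `f (w+1) = 0`, `f i ≤ N'` for `i ≥ 2-w`,
`f (1-w) ≤ n`: `d ≤ w N' - (w-1)(n-N')`; `(2w-1)(n-N') ≤ w n - d ≤ (2w-1) n / 2`. -/
def St_QN : Prop := ∀ (n d w : ℕ) (f : ℤ → ℕ), 1 ≤ w → d ≤ n → Antitone f → (∀ i, f i ≤ n) →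
  (∀ i : ℤ, i ≤ -w → f i = n) → (∀ i : ℤ, w + 1 < i → f i = 0) →
  (∑ i ∈ Finset.range (w + 1), (f (i + 1) : ℤ)) =
    d + ∑ i ∈ Finset.range w, ((n : ℤ) - f (-i)) →
  2 * f w ≤ n + d ∧
  (f (1 - w) = n → 2 * d ≤ n → 2 * f w ≤ n) ∧
  (n ≤ 2 * d → n ≤ 2 * f (1 - w)) ∧
  (f (w + 1) = 0 → n ≤ 2 * d → n ≤ 2 * f (2 - w))

/-- the up moves of a descending link at a bad prime `p` -/
def DA {R V : Type} [CommRing R] [AddCommGroup V] [Module R V] (Big : Set (MaximalSpectrum R))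
    (p : MaximalSpectrum R) (F H N : Submodule R V) : Set (Submodule R V) :=
  {A | A ≠ ⊥ ∧ Sat A ∧ (∀ x ∈ Big, A ⊓ (F ⊔ xV V x) ≤ xV V x) ∧ A ⊓ H ≤ xV V p ∧
    (¬ A ≤ N ∨ Module.finrank R A + 2 * Module.finrank R F < Module.finrank R V)}

/-- the down moves of a descending link at a bad prime `p` -/
def DB {R V : Type} [CommRing R] [AddCommGroup V] [Module R V] (Big : Set (MaximalSpectrum R))
    (p : MaximalSpectrum R) (F P N N' : Submodule R V) : Set (Submodule R V) :=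
  {B | B ≠ ⊤ ∧ Sat B ∧ (∀ x ∈ Big, B ⊔ (F ⊔ xV V x) = ⊤) ∧ B ⊔ N = ⊤ ∧
    (¬ P ≤ B ⊔ xV V p ∨ (B ⊔ N' = ⊤ ∧
      2 * Module.finrank R V ≤ 2 * Module.finrank R F + Module.finrank R B))}

/-- **Q1.** Case I: `2 d ≤ n`, `N ≠ V`.

Proof. `St_PX` (1). `K x = F ⊔ x V` (`x ∈ Big`), `H` (`x = p`), `x V` (else): admissible (`St_PB`), `cod (K x) ≥ c`. `DA` is of the form `St_P5` (1) with
`K' = K p`, `r = n - 2 d`. For `B ∈ DB` the second alternative is impossible (`rank B < n`, `2 d ≤ n`), so `¬ P ≤ B ⊔ p V`.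
`{A ∈ DA | A ≤ B}`: `St_PD` (1), in `B`: the same form with `(K x).comap` (`cod ≥ c - (n - rank B)`, `St_PA` (4)), `N.comap ≠ ⊤` (`B ⊔ N = ⊤`, `N ≠ ⊤`).
`{B' ∈ DB | B < B'}` = the `B' > B`, `B' ≠ ⊤`, `Sat B'`, `¬ P ≤ B' ⊔ p V`: `St_PD` (2), `St_PF` (3) for `V / B` and `P.map ⊔ p (V / B)`. -/
def St_Q1 : Prop := ∀ (R V : Type) [CommRing R] [IsDomain R] [IsPrincipalIdealRing R]
  [AddCommGroup V] [Module R V] [Module.Free R V] [Module.Finite R V]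
  (Big : Set (MaximalSpectrum R)) (p : MaximalSpectrum R) (F P H N N' : Submodule R V) (c : ℕ),
  Bigᶜ.Finite → p ∉ Big → Sat F → xV V p ≤ P → xV V p ≤ H → xV V p ≤ N → xV V p ≤ N' →
  (∀ x, (c : ℕ∞) ≤ cod (F ⊔ xV V x)) → (c : ℕ∞) ≤ cod H →
  2 * Module.finrank R F ≤ Module.finrank R V → N ≠ ⊤ →
  SConn lkr (Sum.inl '' DA Big p F H N ∪ Sum.inr '' DB Big p F P N N') c

/-- **Q2.** Case II: `2 d ≤ n`, `N = V`, `P ≠ 0`, `P ⊆ H`.

Proof. `DA` is `St_P5` (2) with `r = n - 2 d`; `DB = {B ≠ ⊤ | B ⊔ (F ⊔ x V) = ⊤, ¬ P ≤ B ⊔ p V}` (the second alternative is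
impossible). (1) `c ≤ d`: `St_PX` (2). `DB`: `St_PF` (1) with `L x = F ⊔ x V` (`x ∈ Big`), `⊤` else (`cod (L x) = n - d`, `St_PA`; second
alternative void with `r = 0`). `{B ∈ DB | A ≤ B}`: in `V / A` the same form (`rank A + d ≤ n`, `cod` of the image of `L x` is
`n - d - rank A`; `P.map` is not contained in `p (V / A)` because `A ⊓ H ≤ p V` and `P ≤ H`); `c - rank A ≤ min(d, n - rank A)`.
`{A' ∈ DA | A' < A}` = all proper nonzero summands: `St_P4`. (2) `St_PX` (1) as in `St_Q1`: `DA` and `{A ∈ DA | A ≤ B}` by `St_P5` (2). -/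
def St_Q2 : Prop := ∀ (R V : Type) [CommRing R] [IsDomain R] [IsPrincipalIdealRing R]
  [AddCommGroup V] [Module R V] [Module.Free R V] [Module.Finite R V]
  (Big : Set (MaximalSpectrum R)) (p : MaximalSpectrum R) (F P H N' : Submodule R V) (c : ℕ),
  Bigᶜ.Finite → p ∉ Big → Sat F → xV V p < P → P ≤ H → xV V p ≤ N' →
  2 * Module.finrank R F ≤ Module.finrank R V →
  (c ≤ Module.finrank R F ∨
    ((∀ x, (c : ℕ∞) ≤ cod (F ⊔ xV V x)) ∧ (c : ℕ∞) ≤ cod H ∧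
      c + 2 * Module.finrank R F + 1 ≤ Module.finrank R V)) →
  SConn lkr (Sum.inl '' DA Big p F H ⊤ ∪ Sum.inr '' DB Big p F P ⊤ N') c

/-- **Q3.** Case III: `2 d > n`, `P ≠ 0`, `P ⊆ H`.

Proof. `DA = {.., ¬ A ≤ N}` (the second alternative is impossible). `St_PX` (2). `DB`: `St_PF` (1) with `L x = F ⊔ x V` (`x ∈ Big`), `N` (`x = p`),
`⊤` else, `L' = N'`, `r = 2 d - n + 1`. `{B ∈ DB | A ≤ B}`: in `V / A` the same form: `P.map` not in `p (V / A)` (as in `St_Q2`), the codimension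
of the image of `L x` is at most that of `L x`, and `c - rank A + cod ≤ n - rank A`. `{A' ∈ DA | A' < A}`:
`St_PD`, `St_P4` with `N.comap ≠ ⊤`. (`A ≤ N` impossible; all other conditions are inherited by `A' ≤ A`.) -/
def St_Q3 : Prop := ∀ (R V : Type) [CommRing R] [IsDomain R] [IsPrincipalIdealRing R]
  [AddCommGroup V] [Module R V] [Module.Free R V] [Module.Finite R V]
  (Big : Set (MaximalSpectrum R)) (p : MaximalSpectrum R) (F P H N N' : Submodule R V) (c : ℕ),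
  Bigᶜ.Finite → p ∉ Big → Sat F → xV V p < P → P ≤ H → xV V p ≤ N → xV V p ≤ N' →
  Module.finrank R V < 2 * Module.finrank R F → c ≤ Module.finrank R F →
  (c : ℕ∞) + cod N ≤ Module.finrank R V →
  SConn lkr (Sum.inl '' DA Big p F H N ∪ Sum.inr '' DB Big p F P N N') c

/-- **Q4.** Case IV: `2 d > n`, `P = 0`, `N' ⊆ N ≠ V`.

Proof. `DA = {.., ¬ A ≤ N}`; `DB = {B | .., B ⊔ N' = ⊤, 2 n ≤ 2 d + rank B}` (`P ≤ B ⊔ p V` always; `N' ≤ N`). (1) `St_PX` (2): `DB` and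
`{B ∈ DB | A ≤ B}` by `St_PF` (2) (`L x = F ⊔ x V`, `N'`, `⊤`; `r = 2 d - n + 1`); `{A' ∈ DA | A' < A}` by `St_P4`. (2) `St_PX` (1): `DA`: `St_PT`;
`{A ∈ DA | A ≤ B}`: `St_PT` in `B`, `N.comap ≠ ⊤` (`B ⊔ N = ⊤`, `N ≠ ⊤`), codimension `≥ c - (n - rank B)`; `{B' ∈ DB | B < B'}` = all proper
`B' > B`: `St_P4` for `V / B`. -/
def St_Q4 : Prop := ∀ (R V : Type) [CommRing R] [IsDomain R] [IsPrincipalIdealRing R]
  [AddCommGroup V] [Module R V] [Module.Free R V] [Module.Finite R V]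
  (Big : Set (MaximalSpectrum R)) (p : MaximalSpectrum R) (F H N N' : Submodule R V) (c : ℕ),
  Bigᶜ.Finite → p ∉ Big → Sat F → xV V p ≤ H → N ≠ ⊤ → xV V p ≤ N' → N' ≤ N →
  Module.finrank R V < 2 * Module.finrank R F →
  ((c ≤ Module.finrank R F ∧ (c : ℕ∞) + cod N' ≤ Module.finrank R V ∧
      c + Module.finrank R V ≤ 2 * Module.finrank R F) ∨
    ((∀ x, (c : ℕ∞) ≤ cod (F ⊔ xV V x)) ∧ (c : ℕ∞) ≤ cod H)) →
  SConn lkr (Sum.inl '' DA Big p F H N ∪ Sum.inr '' DB Big p F (xV V p) N N') c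

/-- **QP.** The descending link at a bad prime.

Proof. `St_QN` and the four cases with `c = ⌈n / 5⌉` (`5 c ≤ n + 4`); `cod (F ⊔ x V) = n - d` (`St_PA`). I: `2 (n - c) ≥ n + d`, so `cod H ≥ c`. II:
`c ≤ d` or `c + 2 d + 1 ≤ n`. III: `2 c ≤ n`. IV: if `c + n > 2 d` then `n - f w ≥ c` from `2 f w ≤ n + d` (else `5 c ≥ n + 5`). -/
def St_QP : Prop := ∀ (R V : Type) [CommRing R] [IsDomain R] [IsPrincipalIdealRing R]
  [AddCommGroup V] [Module R V] [Module.Free R V] [Module.Finite R V]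
  (Big : Set (MaximalSpectrum R)) (p : MaximalSpectrum R) (F P H N N' : Submodule R V)
  (c w : ℕ) (f : ℤ → ℕ), Bigᶜ.Finite → p ∉ Big → Sat F → xV V p ≤ P → P ≤ H → H ≤ N' → N' ≤ N →
  1 ≤ w → Antitone f → (∀ i, f i ≤ Module.finrank R V) →
  (∀ i : ℤ, i ≤ -w → f i = Module.finrank R V) → (∀ i : ℤ, w + 1 < i → f i = 0) →
  (∑ i ∈ Finset.range (w + 1), (f (i + 1) : ℤ)) = Module.finrank R F +
    ∑ i ∈ Finset.range w, ((Module.finrank R V : ℤ) - f (-i)) →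
  f (w + 1) + cod P = Module.finrank R V → f w + cod H = Module.finrank R V →
  f (1 - w) + cod N = Module.finrank R V → f (2 - w) + cod N' = Module.finrank R V →
  (P ≠ xV V p ∨ N ≠ ⊤) → 2 ≤ Module.finrank R V → 5 * c ≤ Module.finrank R V + 4 →
  SConn lkr (Sum.inl '' DA Big p F H N ∪ Sum.inr '' DB Big p F P N N') c

/-- **QG.** The descending link at the generic place.

Proof. A field has only one maximal ideal `⊥`, `x V = ⊥`, every submodule is saturated. (i) `F2 ≠ ⊥`: the set of the `B` is a cone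
with apex `⊥`; add the `A` by increasing rank: the descending link contains `{B | A ≤ B}` with smallest element `A` (as a down
move: `¬ F2 ≤ A`, since `A ⊓ F1 = ⊥`; `A ≠ ⊤`), a cone, joined with something. (ii) `F2 = ⊥`, `F0 ≠ ⊤`: `St_PX` (1) with `n - rank F1`
(`St_PT` with `K = F1`, `N = F0`; the `B' > B`: `St_P4` for `V / B`) or `St_PX` (2) with `rank F1` (`St_PF` (2) with `L = F1`, `r = n + 1`; the `A' < A`:
`St_P4` with `N = F0`). -/
def St_QG : Prop := ∀ (k V : Type) [Field k] [AddCommGroup V] [Module k V]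
  [FiniteDimensional k V] (F2 F1 F0 : Submodule k V) (c : ℕ), F2 ≤ F1 → F1 ≤ F0 →
  (F2 ≠ ⊥ ∨ F0 ≠ ⊤) → 2 * c ≤ Module.finrank k V + 1 →
  SConn lkr (Sum.inl '' {A : Submodule k V | A ≠ ⊥ ∧ A ⊓ F1 = ⊥ ∧ ¬ A ≤ F0} ∪
    Sum.inr '' {B : Submodule k V | B ≠ ⊤ ∧ (¬ F2 ≤ B ∨ B ⊔ F1 = ⊤)}) c

end Pool.Agent.SLZ
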