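import Pool.Agent.SLZ.DefsR
import Pool.Agent.SLZ.StM

/-!
# SLZ, part R (infinite rank), statements, block 1 (architect helper94)

Homotopies of families of lattices; exact sequences, closure properties, the criterion for `⊕ O(w_i)`.
Module `X` proves `theorem thm_X (h.. : St_..) : St_X` in `Pool/Agent/SLZ/X.lean`.
-/

set_option autoImplicit false
set_option linter.unusedVariables false

noncomputable section

namespace Pool.Agent.SLZ

open Polynomial Function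

/-- **RA1** (1 h). Acyclic carriers for lists.

Proof. Define `H` on lists by recursion on the length: `H l = 0` for `l = []` or `l ∉ K`; otherwise `c = f l - g l - H (bdL l)` is a
chain of `Λ l` of the length of `l` (the sublists of `l` have smaller carriers) and a cycle: for chains `c'` of `K` of smaller
length `bd (H c') = f c' - g c' - H (bd c')`, so `bd c = H (bd (bdL l)) = 0`; take `H l` in `Λ l` with `bd (H l) = c`. For a cycle `z`:
`bd (H z) = f z - g z`. Also `K` is closed under sublists; `f l` is `l.map f`, extended linearly by `Finsupp.mapDomain`; it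
commutes with `bd` (`St_MA` (4)). -/
def St_RA1 : Prop := ∀ (V V' : Type) (K : Cx V) (K' : Cx V') (f g : V → V') (Λ : List V → Cx V'),
  (∀ l ∈ K.s, (Λ l).s ⊆ K'.s) → (∀ l ∈ K.s, ∀ l', l' ⊆ l → (Λ l').s ⊆ (Λ l).s) →
  (∀ l ∈ K.s, l.map f ∈ (Λ l).s ∧ l.map g ∈ (Λ l).s) →
  (∀ l ∈ K.s, l ≠ [] → ∀ j, Ex (Λ l) j) →
  ∀ j, ∀ z ∈ Ch K.s j, bd z = 0 → ∃ y ∈ Ch K'.s (j + 1),
    bd y = z.mapDomain (List.map f) - z.mapDomain (List.map g)

/-- **RA2** (0.7 h). Prisms.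

Proof. Carriers `Λ l = Fl adjL {f y, g y | y ∈ l}`. A nonempty list `l` of `Fl adjL Y` has a vertex `t` with `LR x t` for all `x ∈ l`:
the vertices are pairwise comparable, `t` the largest one (if `LR t x` then `t ≤ x`, so `x = t`, and `LR t t` because `adjL t t`).
Then `g t` is adjacent to all `f x` and `g x`, so `Λ l` is a cone (`St_MA` (6)). `St_RA1`. -/
def St_RA2 : Prop := ∀ (A : Type) [CommRing A] (V₀ : Type) [AddCommGroup V₀] [Module A V₀]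
  [Module A[X] V₀] [IsScalarTower A A[X] V₀] (V : Type) [AddCommGroup V] [Module A V]
  [Module A[X] V] [IsScalarTower A A[X] V] (Y : Set (Lat A V₀)) (S : Set (Lat A V))
  (f g : Lat A V₀ → Lat A V), (∀ y ∈ Y, f y ∈ S ∧ g y ∈ S) →
  (∀ x ∈ Y, ∀ y ∈ Y, LR x y → LR (f x) (f y) ∧ LR (g x) (g y) ∧ LR (f x) (g y)) →
  ∀ j, ∀ z ∈ Ch (Fl adjL Y).s j, bd z = 0 → ∃ y ∈ Ch (Fl adjL S).s (j + 1),
    bd y = z.mapDomain (List.map f) - z.mapDomain (List.map g)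

/-- **RB1** (1.2 h). Lattices of finite type: closure properties, comparison.

Proof. (1) direct. (2) `g` is an isomorphism of all the data. (3) `gen`: take the larger bound and add the decompositions; `bot`, `fg`:
`E k ⊔ E' k`. (4) For `k₁` large `E (k + 1) = E k + X E k` for `k ≥ k₁`; `E k₁` is finitely generated, so `E k₁ ≤ E' (k₁ + e)` for
some `e ≥ 0` (`top`, `mono`); for `k ≤ k₁` only finitely many `k` with `E k ≠ ⊥`; so `E k ≤ E' (k + e)` for all `k ≤ k₁`, `e` large; then for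
`k ≥ k₁` by induction (`mono`, `mulX` of `E'`). (5) `(E k).prod (E' k)`. (6) is the definition. (7) `mono`. -/
def St_RB1 : Prop := ∀ (A : Type) [CommRing A] (V : Type) [AddCommGroup V] [Module A V]
  [Module A[X] V] [IsScalarTower A A[X] V] (V' : Type) [AddCommGroup V'] [Module A V']
  [Module A[X] V'] [IsScalarTower A A[X] V'],
  (∀ (E : Lat A V) (j : ℤ), (IsLat E → IsLat (shL E j)) ∧ (Sat E → Sat (shL E j)) ∧
    ∀ d, FL d E → FL d (shL E j)) ∧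
  (∀ (E : Lat A V) (g : V ≃ₗ[A[X]] V'), (IsLat E → IsLat (mapL g E)) ∧ (Sat E → Sat (mapL g E)) ∧
    (GE E → GE (mapL g E)) ∧ ∀ D, LE1 D E → LE1 D (mapL g E)) ∧
  (∀ E E' : Lat A V, IsLat E → IsLat E' → IsLat (E ⊔ E')) ∧
  (∀ E E' : Lat A V, IsLat E → IsLat E' → ∃ e : ℤ, 0 ≤ e ∧ E ≤ shL E' e) ∧
  (∀ (E : Lat A V) (E' : Lat A V'), (IsLat E → IsLat E' → IsLat (prodL E E')) ∧
    (Sat E → Sat E' → Sat (prodL E E')) ∧ (GE E → GE E' → GE (prodL E E')) ∧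
    ∀ D, LE1 D E → LE1 D E' → LE1 D (prodL E E')) ∧
  (∀ E : Lat A V, (∀ k : ℤ, 0 ≤ k → GE E → GE (shL E k)) ∧
    ∀ D k : ℕ, LE1 D E → LE1 (D + k) (shL E k)) ∧
  (∀ (E : Lat A V), IsLat E → LR E E ∧ (∀ j k : ℤ, j ≤ k → E j ≤ E k) ∧
    (∀ j k : ℤ, j ≤ k → shL E j ≤ shL E k) ∧ ∀ D D' : ℕ, D ≤ D' → LE1 D E → LE1 D' E)

/-- **RB2** (0.6 h). Adjacency and isomorphisms, direct sums, shifts.

Proof. All direct from the definitions (`shL` and `mapL`, `prodL`, `⊔` commute; `(a × b) ⊔ (c × d) = (a ⊔ c) × (b ⊔ d)`). (5): if `x`, `y` are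
adjacent, then `shL x b`, `shL y c` are comparable: for `b < c` `x ≤ y (1)`, so `shL x b ≤ shL y c` (shifts are monotone for `IsLat`); for `b = c` one
of `x ≤ y`, `y ≤ x` holds. -/
def St_RB2 : Prop := ∀ (A : Type) [CommRing A] (V : Type) [AddCommGroup V] [Module A V]
  [Module A[X] V] [IsScalarTower A A[X] V] (V' : Type) [AddCommGroup V'] [Module A V']
  [Module A[X] V'] [IsScalarTower A A[X] V'],
  (∀ (E F : Lat A V) (g : V ≃ₗ[A[X]] V') (j : ℤ), (LR (mapL g E) (mapL g F) ↔ LR E F) ∧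
    (adjL (mapL g E) (mapL g F) ↔ adjL E F) ∧ (LR E F → LR (shL E j) (shL F j)) ∧
    mapL g.symm (mapL g E) = E ∧ mapL g (shL E j) = shL (mapL g E) j ∧
    mapL g (E ⊔ F) = mapL g E ⊔ mapL g F) ∧
  (∀ (E F : Lat A V) (E' F' : Lat A V') (j : ℤ),
    (LR (prodL E E') (prodL F F') ↔ LR E F ∧ LR E' F') ∧
    prodL (shL E j) (shL E' j) = shL (prodL E E') j ∧
    prodL (E ⊔ F) (E' ⊔ F') = prodL E E' ⊔ prodL F F') ∧
  (∀ (E F : Lat A V) (j k : ℤ), shL (E ⊔ F) j = shL E j ⊔ shL F j ∧ shL (shL E j) k = shL E (j + k) ∧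
    shL E 0 = E ∧ (E ≤ F → shL E j ≤ shL F j)) ∧
  (∀ (E F : Lat A V), LR E F → LR F E → E = F) ∧
  (∀ (E F : Lat A V) (b c : ℤ), IsLat E → IsLat F → adjL E F →
    (b < c → shL E b ≤ shL F c) ∧ (shL E b ≤ shL F c ∨ shL F c ≤ shL E b))

/-- **RA3** (1 h). Contraction.

Proof. `j = 0`: `z = m • single [] 1`, take a vertex. `j ≥ 1`: let `F` be the finite set of the vertices of `z`, `H ∈ Γ`,
`Ω = shL H e` with `G ≤ Ω` for all `G ∈ F` (`St_RB1` (4); `Ω ∈ Γ`). `f_i G = G ⊔ shL Ω (-i)`, `i : ℕ`: `f_0 G = Ω` for `G ∈ F`, and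
`f_i G = G` for `G ∈ F` and `i` large. `LR G G'` implies `LR (f_(i+1) G) (f_i G')` (`G' ≤ shL G 1`) and `LR (f_i G) (f_i G')`. So
`(f_(i+1)) z - (f_i) z` is a boundary (`St_RA2` for `Y = F`), and `(f_0) z`, a cycle on lists of copies of `Ω`, is the boundary of
`Ω ·(f_0 z)` (`St_MA` (2)). -/
def St_RA3 : Prop := ∀ (A : Type) [CommRing A] (V : Type) [AddCommGroup V] [Module A V]
  [Module A[X] V] [IsScalarTower A A[X] V] (Γ : Set (Lat A V)), Γ.Nonempty →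
  (∀ G ∈ Γ, IsLat G) →
  (∀ G ∈ Γ, ∀ H ∈ Γ, ∀ k : ℤ, 0 ≤ k → shL H k ∈ Γ ∧ G ⊔ shL H (-k) ∈ Γ) → ∀ j, Ex (Fl adjL Γ) j

/-- **RX1** (1.2 h). Exact sequences of lattices `0 → K → E → B → 0` (`SES`: `K = i⁻¹ E`, `B = p E` in every degree): finite type.

Proof. (0) For `k ≥ k₁` the map `X : B k / B (k - 1) → B (k + 1) / B k` is onto; the kernels of the maps
`X^j : B k₁ → B (k₁ + j) / B (k₁ + j - 1)` increase with `j`, so they are constant from some `j` on (noetherian module `B k₁`); this gives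
the claim for `k ≥ k₁ + j`. (1) `K`: `fg` by noetherianness (`K k` is isomorphic to a submodule of `E k`); `gen`: for `k` large and
`u ∈ K (k + 1)`: `i u = a + X b`, `a, b ∈ E k`; `p b ∈ B k`, `X p b = - p a ∈ B k`, so `p b ∈ B (k - 1)` by (0), `p b = p b'`,
`b' ∈ E (k - 1)`, `b - b' = i u₂`, `u₂ ∈ K k`, and `i u - X i u₂ = a + X b' ∈ E k`. `B`: images. (2) `gen`: lift the decomposition of
`p w`, the difference is in `K (k + 1)`. `bot`, `fg`, `top`: extensions. -/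
def St_RX1 : Prop := ∀ (A : Type) [CommRing A] [IsNoetherianRing A] (U : Type) [AddCommGroup U]
  [Module A U] [Module A[X] U] [IsScalarTower A A[X] U] (W : Type) [AddCommGroup W] [Module A W]
  [Module A[X] W] [IsScalarTower A A[X] W] (V : Type) [AddCommGroup V] [Module A V]
  [Module A[X] V] [IsScalarTower A A[X] V] (i : U →ₗ[A[X]] W) (p : W →ₗ[A[X]] V)
  (K : Lat A U) (E : Lat A W) (B : Lat A V),
  (IsLat B → ∃ k₂ : ℤ, ∀ k ≥ k₂, ∀ v ∈ B k, (X : A[X]) • v ∈ B k → v ∈ B (k - 1)) ∧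
  (SES i p K E B → (IsLat E → IsLat K ∧ IsLat B) ∧
    (IsLat K → IsLat B → (∀ k, E k ≤ E (k + 1)) →
    (∀ k, ∀ v ∈ E k, (X : A[X]) • v ∈ E (k + 1)) → IsLat E))

/-- **RX** (1.3 h). Exact sequences of lattices.

Proof. (1), (2): `St_RX1`. (3) clear. (4) `w ∈ E k`, `X w ∈ E k`: `p w ∈ B (k - 1)`, `p w = p w'`, `w' ∈ E (k - 1)`, `w - w' = i u`,
`u ∈ K k`, `X u ∈ K k`, so `u ∈ K (k - 1)`. (5) `f`, `g` induced by `i`, `p`. `g` onto: clear. Middle: `w ∈ E k`, `p w ∈ jL B k`: subtract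
lifts. Injective: `u ∈ K k`, `i u = a + X b`, `a, b ∈ E (k - 1)`: `X p b = - p a ∈ B (k - 1)`, so `p b ∈ B (k - 2)` (`Sat B`),
`b' ∈ E (k - 2)`, `p b' = p b`, `b - b' = i u₂`, `u₂ ∈ K (k - 1)`, `i u - X i u₂ = a + X b' ∈ E (k - 1)`, so `u ∈ jL K k`. (6)-(8): (5) and
`St_FFP` (2), (3). -/
def St_RX : Prop := ∀ (A : Type) [CommRing A] [IsNoetherianRing A] (U : Type) [AddCommGroup U]
  [Module A U] [Module A[X] U] [IsScalarTower A A[X] U] (W : Type) [AddCommGroup W] [Module A W]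
  [Module A[X] W] [IsScalarTower A A[X] W] (V : Type) [AddCommGroup V] [Module A V]
  [Module A[X] V] [IsScalarTower A A[X] V] (i : U →ₗ[A[X]] W) (p : W →ₗ[A[X]] V)
  (K : Lat A U) (E : Lat A W) (B : Lat A V), SES i p K E B →
  (IsLat E → IsLat K ∧ IsLat B) ∧ (IsLat K → IsLat B → (∀ k, E k ≤ E (k + 1)) →
    (∀ k, ∀ v ∈ E k, (X : A[X]) • v ∈ E (k + 1)) → IsLat E) ∧
  (Sat E → Sat K) ∧
  ((∀ k, E k ≤ E (k + 1)) → (∀ k, ∀ v ∈ E k, (X : A[X]) • v ∈ E (k + 1)) → Sat K → Sat B → Sat E) ∧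
  (IsLat E → Sat B → ∀ k, ∃ (f : H0 K k →ₗ[A] H0 E k) (g : H0 E k →ₗ[A] H0 B k), Injective f ∧
    Surjective g ∧ LinearMap.range f = LinearMap.ker g) ∧
  (∀ d, FL d K → FL d B → (∀ k, E k ≤ E (k + 1)) →
    (∀ k, ∀ v ∈ E k, (X : A[X]) • v ∈ E (k + 1)) → FL d E) ∧
  (∀ d, FL 0 E → FL (d + 1) B → FL d K) ∧
  (FL 0 E → FL 0 B → FL 0 K)

/-- **RB3** (0.8 h). `FL` and isomorphisms, direct sums; the lattices `⊕ O(w_i) b_i` are bundles.

Proof. (1) `H0 (mapL g E) k ≅ H0 E k`, `St_FFP` (1). (2) `St_RX` (6) for `inl`, `snd` (noetherian). (3) `IsLat`, `Sat`: coordinatewise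
(`coeff`); `H0 (OL b w) k ≅ (Fin c → A)`, `c` the number of `i` with `w i = - k` (the constant coefficients). (4), (5) coordinatewise. (6) maximum. -/
def St_RB3 : Prop := ∀ (A : Type) [CommRing A] [IsNoetherianRing A] (V : Type) [AddCommGroup V]
  [Module A V] [Module A[X] V] [IsScalarTower A A[X] V] (V' : Type) [AddCommGroup V']
  [Module A V'] [Module A[X] V'] [IsScalarTower A A[X] V'],
  (∀ (d : ℕ) (E : Lat A V) (g : V ≃ₗ[A[X]] V'), FL d E → FL d (mapL g E)) ∧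
  (∀ (d : ℕ) (E : Lat A V) (E' : Lat A V'), FL d E → FL d E' → FL d (prodL E E')) ∧
  (∀ (ι : Type) [Finite ι] (b : Module.Basis ι A[X] V) (w w' : ι → ℤ), FL 0 (OL b w) ∧
    ((∀ i, 0 ≤ w i) → GE (OL b w)) ∧ (∀ D : ℕ, (∀ i, w i ≤ D) → LE1 D (OL b w)) ∧
    ((∀ i, w i ≤ w' i) → OL b w ≤ OL b w') ∧ OL b w ⊔ OL b w' = OL b (fun i => max (w i) (w' i)) ∧
    ∀ j : ℤ, shL (OL b w) j = OL b fun i => w i + j)

/-- **RA4** (1.2 h). Formal properties of homotopies.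

Proof. `y = 0`, `- y`, sums. (4) `prodL (prodL (f y) (k y)) (h y)` is the image of `prodL (f y) (prodL (k y) (h y))` under the isomorphism
`(V × W') × W ≅ V × (W' × W)`; an isomorphism maps chains of `Fl adjL {FL 0}` to such chains (`St_RB2`, `St_RB3`). (5) the isomorphism
`V × W ≅ V' × W`. (6) `z` lives on lists of elements of `Y`. (7) `St_RB2`, `St_RB3`. -/
def St_RA4 : Prop := ∀ (A : Type) [CommRing A] [IsNoetherianRing A] (V₀ : Type) [AddCommGroup V₀]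
  [Module A V₀] [Module A[X] V₀] [IsScalarTower A A[X] V₀] (V : Type) [AddCommGroup V]
  [Module A V] [Module A[X] V] [IsScalarTower A A[X] V] (V' : Type) [AddCommGroup V']
  [Module A V'] [Module A[X] V'] [IsScalarTower A A[X] V'] (Y : Set (Lat A V₀)),
  (∀ f : Lat A V₀ → Lat A V, Hty Y f f) ∧
  (∀ f g : Lat A V₀ → Lat A V, Hty Y f g → Hty Y g f) ∧
  (∀ f g h : Lat A V₀ → Lat A V, Hty Y f g → Hty Y g h → Hty Y f h) ∧
  (∀ (f g : Lat A V₀ → Lat A V) (k : Lat A V₀ → Lat A V'), Adm Y k → Hty Y f g →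
    Hty Y (fun y => prodL (f y) (k y)) (fun y => prodL (g y) (k y))) ∧
  (∀ (f g : Lat A V₀ → Lat A V) (φ : V ≃ₗ[A[X]] V'), Hty Y f g →
    Hty Y (fun y => mapL φ (f y)) (fun y => mapL φ (g y))) ∧
  (∀ f g f' g' : Lat A V₀ → Lat A V, (∀ y ∈ Y, f y = f' y) → (∀ y ∈ Y, g y = g' y) → Hty Y f g →
    Hty Y f' g') ∧
  (∀ (f : Lat A V₀ → Lat A V) (k : Lat A V₀ → Lat A V'), Adm Y f → Adm Y k →
    Adm Y fun y => prodL (f y) (k y)) ∧
  (∀ (f : Lat A V₀ → Lat A V) (φ : V ≃ₗ[A[X]] V'), Adm Y f → Adm Y fun y => mapL φ (f y)) ∧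
  (∀ Λ : Lat A V, FL 0 Λ → Adm Y fun _ => Λ)

/-- **RA5** (1.2 h). Homotopies from carriers and from prisms.

Proof. (1) Given `h`: carriers `Γ' l = {prodL G (shL (h y) b) | G ∈ Γ l, y ∈ l, b : ℤ}`. They consist of bundles (`St_RB1`, `St_RB3`) and satisfy the
hypotheses of `St_RA3`: `(G ⊕ h y (b)) ⊔ (G' ⊕ h y' (b')) (-k) = (G ⊔ G' (-k)) ⊕ (h y (b) ⊔ h y' (b' - k))`, and the last sup is one of the two
(`h y`, `h y'` are adjacent, `St_RB2` (5)). `St_RA1` with `Λ l = Fl adjL (Γ' l)` (for `l ≠ []` it is not empty). (2) `St_RA2` for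
`prodL (f y) (h y)`, `prodL (g y) (h y)`. -/
def St_RA5 : Prop := ∀ (A : Type) [CommRing A] [IsNoetherianRing A] (V₀ : Type) [AddCommGroup V₀]
  [Module A V₀] [Module A[X] V₀] [IsScalarTower A A[X] V₀] (V : Type) [AddCommGroup V]
  [Module A V] [Module A[X] V] [IsScalarTower A A[X] V] (Y : Set (Lat A V₀))
  (f g : Lat A V₀ → Lat A V), Adm Y f → Adm Y g →
  (∀ Γ : List (Lat A V₀) → Set (Lat A V), (∀ l ∈ (Fl adjL Y).s, ∀ G ∈ Γ l, FL 0 G) →
    (∀ l ∈ (Fl adjL Y).s, ∀ l', l' ⊆ l → Γ l' ⊆ Γ l) →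
    (∀ l ∈ (Fl adjL Y).s, ∀ y ∈ l, f y ∈ Γ l ∧ g y ∈ Γ l) →
    (∀ l ∈ (Fl adjL Y).s, ∀ G ∈ Γ l, ∀ H ∈ Γ l, ∀ k : ℤ, 0 ≤ k →
      shL H k ∈ Γ l ∧ G ⊔ shL H (-k) ∈ Γ l) → Hty Y f g) ∧
  ((∀ x ∈ Y, ∀ y ∈ Y, LR x y → LR (f x) (g y)) → Hty Y f g)

/-- **RC** (1.5 h). THE CRITERION for `⊕ O(- κ_i) v_i`.

Proof. `∑ p_i v_i` for `p_i : A[X]`. (a) `E k` is the set of the `∑ p_i v_i` with `deg p_i ≤ k - κ_i` (and `p_i = 0` if `k < κ_i`): `⊇` by
`mulX`, `mono`; `⊆` by induction on `k` (`E k = ⊥` for `k` small): `u ∈ E k`, `u - ∑ c_i v_i = a + X b`, `a, b ∈ E (k - 1)`. (b) If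
`deg p_i ≤ k - κ_i` (`p_i = 0` for `κ_i > k`) and `∑ p_i v_i ∈ E (k - 1)` then `deg p_i ≤ k - 1 - κ_i`: induction on `k`: `p_i = X q_i + a_i`;
for `κ_i = k`: `q_i = 0`. `u = ∑ q_i v_i ∈ E (k - 1)`. `X u + ∑_(κ_i = k) a_i v_i ∈ E (k - 1)`, so `∑_(κ_i = k) a_i v_i ∈ jL E k`, so `a_i = 0` for
`κ_i = k`; then `X u ∈ E (k - 1)`, `u ∈ E (k - 2)` by `Sat E`, so `deg q_i ≤ k - 2 - κ_i` by induction. (c) `∑ p_i v_i = 0` implies `p_i = 0` (use (b) for
all `k` down to `k < κ_i`). So `v` is a basis (`top`), and (a) is `E = OL b (- κ)` by uniqueness of the coordinates. -/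
def St_RC : Prop := ∀ (A : Type) [CommRing A] (V : Type) [AddCommGroup V] [Module A V]
  [Module A[X] V] [IsScalarTower A A[X] V] (E : Lat A V) (ι : Type) [Fintype ι] (v : ι → V)
  (κ : ι → ℤ), IsLat E → Sat E → (∀ i, v i ∈ E (κ i)) →
  (∀ (k : ℤ) (c : ι → A), (∀ i, κ i ≠ k → c i = 0) → ∑ i, c i • v i ∈ jL E k → ∀ i, c i = 0) →
  (∀ (k : ℤ), ∀ u ∈ E k, ∃ c : ι → A, (∀ i, κ i ≠ k → c i = 0) ∧ u - ∑ i, c i • v i ∈ jL E k) →
  ∃ b : Module.Basis ι A[X] V, (∀ i, b i = v i) ∧ E = OL b fun i => - κ i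

/-- **RD** (1 h). Bundles are stably sums of `O(w)`.

Proof. `H0 E k = 0` for `k` small (`bot`) and for `k` large (`gen`, `k - 1 ≥ k₀`). For the finitely many other `k`: `H0 E k × A^(m_k) ≅ A^(n_k)`. Let
`u : Fin M → ℤ` take the value `- k` exactly `m_k` times, `G = OW A u`. `H0 (prodL E G) k ≅ H0 E k × A^(m_k)` is free (for the other `k` it is `0`); `St_RC` with
lifts of bases, index type `Σ k, Fin n_k` for `k` in a finite interval, reindexed by `Fin n`. `prodL E G` is `IsLat` and `Sat` (`St_RB1`, `St_RB3`). -/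
def St_RD : Prop := ∀ (A : Type) [CommRing A] [IsNoetherianRing A] (V : Type) [AddCommGroup V]
  [Module A V] [Module A[X] V] [IsScalarTower A A[X] V] (E : Lat A V), FL 0 E →
  ∃ (M n : ℕ) (u : Fin M → ℤ) (b : Module.Basis (Fin n) A[X] (V × (Fin M → A[X])))
    (w : Fin n → ℤ), prodL E (OW A u) = OL b w

/-- **RE** (1.5 h). Resolutions of a finite set of lattices.

Proof. For `B ∈ 𝓑` let `k₁` be as in `gen`, `B k = ⊥` for `k < k₀`; finite sets of nonzero generators of all `B k`, `k₀ ≤ k ≤ k₁`; let `v` list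
all of them for all `B ∈ 𝓑`. For `x ≠ 0` the set `{k | x ∈ B k}` is `{k | k ≥ ord_B x}` (`bot`, `top`, `mono`); `o B i = - ord_B (v i)` for `IsLat B`. (1)
`p ∈ OW (o B) k` iff `deg p_i ≤ k - ord_B (v i)`; then `∑ p_i v_i ∈ B k`. Conversely `u ∈ B k`: for `k ≤ k₁` a combination of generators of
`B k` with coefficients in `A`; for `k > k₁` by induction, `B k = B (k - 1) + X B (k - 1)`. (2) `top`. (3) `B ≤ B'` gives `ord_B' ≤ ord_B`, `B' ≤ shL B 1`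
gives `ord_B ≤ ord_B' + 1`. (`𝓑` may be empty: then use a finite set of generators of `V`; `V` is finite.) -/
def St_RE : Prop := ∀ (A : Type) [CommRing A] (V : Type) [AddCommGroup V] [Module A V]
  [Module A[X] V] [IsScalarTower A A[X] V] [Module.Finite A[X] V] (𝓑 : Set (Lat A V)),
  𝓑.Finite → (∀ B ∈ 𝓑, IsLat B) →
  ∃ (N : ℕ) (p : (Fin N → A[X]) →ₗ[A[X]] V) (o : Lat A V → Fin N → ℤ), Surjective p ∧
    (∀ B ∈ 𝓑, ∀ k v, v ∈ B k ↔ ∃ u ∈ OW A (o B) k, p u = v) ∧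
    ∀ B ∈ 𝓑, ∀ B' ∈ 𝓑, LR B B' → ∀ i, o B i ≤ o B' i ∧ o B' i ≤ o B i + 1

end Pool.Agent.SLZ
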