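import Pool.Agent.SLZ.StR

/-!
# SLZ, part R (infinite rank), statements, block 2 (architect helper94)

Additivity, the induction over the length of resolutions, cycles of bundles of all types bound stably.
-/

set_option autoImplicit false
set_option linter.unusedVariables false

noncomputable section

namespace Pool.Agent.SLZ

open Polynomial Function

/-- **RG0** (0.6 h). Shifts and families of the form `⊕ O(w_i(y))`.

Proof. `St_RA5` (1). (1) carriers `Γ l = {shL (f y) a | y ∈ l, a : ℤ}`: `shL (f y) a ⊔ shL (f y') b` is one of the two (`St_RB2` (5)). (2)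
carriers `Γ l = {OW A w | w : Fin N → ℤ}` (`St_RB3` (3)). Admissibility of `shL (f y) e`: `St_RB1` (1), `St_RB2` (1). -/
def St_RG0 : Prop := ∀ (A : Type) [CommRing A] [IsNoetherianRing A] (V₀ : Type) [AddCommGroup V₀]
  [Module A V₀] [Module A[X] V₀] [IsScalarTower A A[X] V₀] (V : Type) [AddCommGroup V]
  [Module A V] [Module A[X] V] [IsScalarTower A A[X] V] (Y : Set (Lat A V₀)),
  (∀ (f : Lat A V₀ → Lat A V) (e : ℤ), Adm Y f →
    Adm Y (fun y => shL (f y) e) ∧ Hty Y f fun y => shL (f y) e) ∧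
  (∀ (N : ℕ) (o o' : Lat A V₀ → Fin N → ℤ), Adm Y (fun y => OW A (o y)) →
    Adm Y (fun y => OW A (o' y)) → Hty Y (fun y => OW A (o y)) fun y => OW A (o' y))

/-- **RG** (2 h). ADDITIVITY: an extension of families of bundles is homotopic to the direct sum.

Proof. `K y = kerL p (P y)` is an admissible family (`St_RX` (8) for `SES subtype p (K y) (P y) (B y)`). `Kw y k = P y k ⊓ ker p`, a lattice of `W`.
(a) There is `e ≥ 0` such that for all `y ∈ Y`, `k`: `s (B y k) ≤ P y k + Kw y (k + e)` and `P y k ≤ Kw y (k + e) + s (B y k)`: let `S y` be the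
lattice `mapL (secE ..) (prodL (K y) (B y))`; `S y ≤ shL (P y) e` for some `e ≥ 0` (`St_RB1` (4), `Y` finite); for `b ∈ B y k` take `w ∈ P y k` with
`p w = b`: `s b - w ∈ ker p`, and `s b, w ∈ P y (k + e)`. So `Q y := P y ⊔ shL (Kw y) e = mapL (secE ..) (prodL (shL (K y) e) (B y))`.
(b) `P ~ Q` by `St_RA5` (1): for a list `l` of adjacent labels and `y, y' ∈ l`, `a, b : ℤ` write `(y, b) ⊑ (y', a)` if `b < a`, or `b = a` and
`y ≤ y'` (a total preorder; for every admissible `f`: `(y, b) ⊑ (y', a)` implies `shL (f y) b ≤ shL (f y') a`, see `St_RB2` (5)). Carriers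
`Γ l = {shL (P y) b ⊔ shL (Kw y') a | y, y' ∈ l, (y, b) ⊑ (y', a)}`. They contain `P y` (`a = b = 0`) and `Q y`. Sups and shifts: take the larger of
the two `(y, b)` and the larger of the two `(y', a)`. Bundles: `G = shL (P y) b ⊔ shL (Kw y') a`: `G ∩ ker p = shL (Kw y) b ⊔ shL (Kw y') a =
shL (Kw y') a` (modular law), `p G = shL (B y) b`, so `SES subtype p (shL (K y') a) G (shL (B y) b)` and `St_RX` (6). (c)
`Q ~ mapL (secE ..) (prodL (K y) (B y))`: `St_RG0` (1) for `K`, then `St_RA4` (4), (5). -/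
def St_RG : Prop := ∀ (A : Type) [CommRing A] [IsNoetherianRing A] (V₀ : Type) [AddCommGroup V₀]
  [Module A V₀] [Module A[X] V₀] [IsScalarTower A A[X] V₀] (W : Type) [AddCommGroup W]
  [Module A W] [Module A[X] W] [IsScalarTower A A[X] W] (V : Type) [AddCommGroup V]
  [Module A V] [Module A[X] V] [IsScalarTower A A[X] V] (Y : Set (Lat A V₀)), Y.Finite →
  ∀ (p : W →ₗ[A[X]] V) (s : V →ₗ[A[X]] W) (hs : ∀ v, p (s v) = v) (P : Lat A V₀ → Lat A W)
    (B : Lat A V₀ → Lat A V), Adm Y P → Adm Y B →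
    (∀ y ∈ Y, ∀ k v, v ∈ B y k ↔ ∃ w ∈ P y k, p w = v) →
    Adm Y (fun y => kerL p (P y)) ∧
    Hty Y P fun y => mapL (secE p s hs) (prodL (kerL p (P y)) (B y))

/-- all kernels of resolutions of `B` by lattices `⊕ O(w_i)` are in `FL d` -/
def KF {A V : Type} [CommRing A] [AddCommGroup V] [Module A V] [Module A[X] V]
    [IsScalarTower A A[X] V] (d : ℕ) (B : Lat A V) : Prop :=
  ∀ (N : ℕ) (p : (Fin N → A[X]) →ₗ[A[X]] V) (w : Fin N → ℤ), Surjective p →
    (∀ k v, v ∈ B k ↔ ∃ u ∈ OW A w k, p u = v) → FL d (kerL p (OW A w))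

/-- families `f 0, .., f M` of lattices which satisfy the prism condition: `f 0` and `f M` are stably homotopic, if all `f l y` satisfy
`P` -/
def StH (A : Type) [CommRing A] (P : ∀ (V : Type) [AddCommGroup V] [Module A V] [Module A[X] V]
    [IsScalarTower A A[X] V], Lat A V → Prop) : Prop :=
  ∀ (V₀ : Type) [AddCommGroup V₀] [Module A V₀] [Module A[X] V₀] [IsScalarTower A A[X] V₀]
    (V : Type) [AddCommGroup V] [Module A V] [Module A[X] V] [IsScalarTower A A[X] V]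
    [Module.Finite A[X] V] [Module.Projective A[X] V] (Y : Set (Lat A V₀)), Y.Finite →
    ∀ (M : ℕ) (f : ℕ → Lat A V₀ → Lat A V), (∀ l ≤ M, ∀ y ∈ Y, P V (f l y)) → Adm Y (f 0) →
      Adm Y (f M) → (∀ l ≤ M, ∀ x ∈ Y, ∀ y ∈ Y, LR x y → LR (f l x) (f l y)) →
      (∀ l < M, ∀ x ∈ Y, ∀ y ∈ Y, LR x y → LR (f l x) (f (l + 1) y)) → HtyS Y (f 0) (f M)

/-- **RH0** (0.4 h). Bundles.

Proof. `St_RA5` (2) for `f l`, `f (l + 1)`, transitivity (`St_RA4` (3)); then `St_RA4` (4) for the constant family `OW A w`, `w : Fin 0 → ℤ`. -/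
def St_RH0 : Prop := ∀ (A : Type) [CommRing A] [IsNoetherianRing A], StH A fun V _ _ _ _ E => FL 0 E

/-- **RH1** (1.5 h). The induction step.

Proof. `𝓑 = {f l y | l ≤ M, y ∈ Y}` is finite: `St_RE` gives `N`, `p`, `o`. `P l y = OW A (o (f l y))`, `K l y = kerL p (P l y)`, so
`SES subtype p (K l y) (P l y) (f l y)`; `LR (f l x) (f l' y)` implies `LR (P l x) (P l' y)` and `LR (K l x) (K l' y)`. `V` is projective, so `p` has a section
`s`; `ker p` is finite and projective. `φ = secE p s _`. The hypothesis for `K` (`FL d (K l y)` because of `KF d (f l y)`): `K_0 ⊕ Λ ~ K_M ⊕ Λ`. `P_0 ~ P_M`, `P_0 ~ C`,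
`C` the constant family `OW A 0` (`St_RG0` (2)). `St_RG`: `φ⁻¹ P_l ~ K_l ⊕ B_l` for `l = 0, M`, `B_l = f l`. So `K_0 ⊕ B_0 ~ K_M ⊕ B_M`, and
`(K_0 ⊕ Λ) ⊕ B_0 ~ (K_M ⊕ Λ) ⊕ B_M ~ (K_0 ⊕ Λ) ⊕ B_M`. Add `B_0` once more (a second copy `V` of `V`): `((K_0 ⊕ B_0) ⊕ Λ) ⊕ B_0 ~ ((K_0 ⊕ B_0) ⊕ Λ) ⊕ B_M`, and
`K_0 ⊕ B_0 ~ φ⁻¹ P_0 ~ φ⁻¹ C`, a constant family `C'`. So `B_0 ⊕ (C' ⊕ Λ) ~ B_M ⊕ (C' ⊕ Λ)`. (`St_RA4`: (4) adds families, (5) permutes the
summands.) -/
def St_RH1 : Prop := ∀ (A : Type) [CommRing A] [IsNoetherianRing A] (d : ℕ),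
  (StH A fun V _ _ _ _ E => FL d E) → StH A fun V _ _ _ _ E => IsLat E ∧ KF d E

/-- **RH** (0.5 h). Lattices of finite type over rings with finite free resolutions.

Proof. Induction on `d`: `StH (FL d)`: `St_RH0`; `FL (d + 1) E` implies `IsLat E` and `KF d E` by `St_RX` (7) for `SES subtype p (kerL p (OW A w)) (OW A w) E` and
`St_RB3` (3). Finally `IsLat E` implies `KF D E`: the kernel is `IsLat` and `Sat` (`St_RX` (1), (3)), and `H0` is a finitely generated module. -/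
def St_RH : Prop := ∀ (A : Type) [CommRing A] [IsNoetherianRing A] (D : ℕ),
  (∀ (M : Type) [AddCommGroup M] [Module A M], Module.Finite A M → FF A D M) →
  StH A fun V _ _ _ _ E => IsLat E

/-- **RI** (1.5 h). Cycles of bundles of all types bound stably.

Proof. `z ≠ 0`; `Y` the finite set of vertices of `z`, `G ∈ Y`, `Ω = shL G e` with `y ≤ Ω` for all `y ∈ Y`, `M` with `shL Ω (-M) ≤ y` for all `y ∈ Y`
(`St_RB1` (4)). `f l y = y ⊔ shL Ω (l - M)` for `l ≤ M`: `f 0 y = y`, `f M y = Ω`; all are `IsLat`; `LR x y` implies `LR (f l x) (f (l + 1) y)` and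
`LR (f l x) (f l y)`. `St_RH`: `y ⊕ Λ ~ Ω ⊕ Λ`, `Λ` a bundle of `W`. Use this with `h = OW A w₀`, `w₀ : Fin 0 → ℤ`: `z ⊕ Λ ⊕ O^0` differs from a cycle on lists of copies
of one vertex by a boundary, so it is a boundary. `St_RD` for `Λ`: `prodL Λ (OW A u) = OL b w`. Add the constant `OW A u`, and use the isomorphism
`((V × W) × A[X]^0) × A[X]^M ≅ V × (W × A[X]^M) ≅ V × A[X]^n` given by `b`. -/
def St_RI : Prop := ∀ (A : Type) [CommRing A] [IsNoetherianRing A] (D : ℕ),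
  (∀ (M : Type) [AddCommGroup M] [Module A M], Module.Finite A M → FF A D M) →
  ∀ (V : Type) [AddCommGroup V] [Module A V] [Module A[X] V] [IsScalarTower A A[X] V]
    [Module.Finite A[X] V] [Module.Projective A[X] V] (j : ℕ), 1 ≤ j →
    ∀ z ∈ Ch (Fl adjL {E : Lat A V | FL 0 E}).s j, bd z = 0 → ∃ (N : ℕ) (w : Fin N → ℤ),
      ∃ y ∈ Ch (Fl adjL {E : Lat A (V × (Fin N → A[X])) | FL 0 E}).s (j + 1),
        bd y = z.mapDomain (List.map fun E => prodL E (OW A w))

end Pool.Agent.SLZ
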