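import Pool.Agent.SLZ.StR2
import Pool.Agent.SLZ.StF5

/-!
# SLZ, part R (infinite rank), statements, block 3 (architect helper94)

Types in `[0, 1]`, degrees in `m ℤ`, the statement `PInf`.
-/

set_option autoImplicit false
set_option linter.unusedVariables false

noncomputable section

namespace Pool.Agent.SLZ

open Polynomial Function

/-- `O(1)^L` -/
abbrev O1 (A : Type) [CommRing A] (L : ℕ) : Lat A (Fin L → A[X]) := OW A fun _ => 1

/-- **RK** (1.2 h). Types `≥ 0`.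

Proof. `St_RI`: `bd y = z ⊕ OW A w`. `T ≥ 0` with `GE (shL E T)` for all vertices `E` of `y` (the bound `k₀` in `gen`) and `w i + T ≥ 0`. Shift
`y` by `T` (vertex map `shL · T`): a chain of `S = {FL 0 ∧ GE}` with boundary `(z ⊕ OW A w)(T)`. In `S`: `z ⊕ O^N` and `z(T) ⊕ OW A (w + T)` differ by a boundary:
`St_RA1` with the carriers `Fl adjL (Γ l)`, `Γ l = {prodL (shL E a) (OW A u) | E ∈ l, 0 ≤ a, ∀ i, 0 ≤ u i}`, exact by `St_RA3`: for `a, a' ≥ 0`, `k ≥ 0` and `E, E' ∈ l`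
the sup `shL E a ⊔ shL E' (a' - k)` is `shL E a` (if `a' - k < a`, or `a' - k = a` and `E' ≤ E`), otherwise `shL E' (a' - k)` with `a' - k ≥ a ≥ 0` (`St_RB2` (5)). -/
def St_RK : Prop := ∀ (A : Type) [CommRing A] [IsNoetherianRing A] (D : ℕ),
  (∀ (M : Type) [AddCommGroup M] [Module A M], Module.Finite A M → FF A D M) →
  ∀ (V : Type) [AddCommGroup V] [Module A V] [Module A[X] V] [IsScalarTower A A[X] V]
    [Module.Finite A[X] V] [Module.Projective A[X] V] (j : ℕ), 1 ≤ j →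
    ∀ z ∈ Ch (Fl adjL {E : Lat A V | FL 0 E ∧ GE E}).s j, bd z = 0 → ∃ (N : ℕ),
      ∃ y ∈ Ch (Fl adjL {E : Lat A (V × (Fin N → A[X])) | FL 0 E ∧ GE E}).s (j + 1),
        bd y = z.mapDomain (List.map fun E => prodL E (O0 A N))

/-- **RL1** (1.3 h). The quotient of two bundles `G ≤ H ≤ G(1)` is stably free.

Proof. `Q k = H k / (G k + X H (k - 1))`. The sequence `0 → Q (k - 1) → H0 G k → H0 H k → Q k → 0` (maps induced by the inclusions
`H (k - 1) ≤ G k ≤ H k`) is exact. Injective: `v ∈ H (k - 1)`, `v = a + X b`, `a, b ∈ G (k - 1)`: `X b = v - a ∈ H (k - 1)`, `b ∈ H (k - 1)`, so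
`b ∈ H (k - 2)` (`Sat H`), `v ∈ G (k - 1) + X H (k - 2)`. Exact at `H0 G k`: `v ∈ G k`, `v = a + X b`, `a, b ∈ H (k - 1) ≤ G k`: `X b ∈ G k`, so
`b ∈ G (k - 1)` (`Sat G`), `v ≡ a`. Exact at `H0 H k`: `H (k - 1) ≤ G k`. `Q k = 0` for `k` large (`gen`). Descending induction: if `Q k` is
stably free then so is the kernel `Z` of `H0 H k → Q k`, and `Q (k - 1) = ker (H0 G k → Z)` (`St_FFP` (3), third part). Second claim: `H k / G k = 0` for `k`
small, and `0 → H (k - 1) / G (k - 1) → H k / G k → Q k → 0`, the first map is multiplication by `X`, injective: `v ∈ H (k - 1) ≤ G k`, `X v ∈ G k`, so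
`v ∈ G (k - 1)`. -/
def St_RL1 : Prop := ∀ (A : Type) [CommRing A] [IsNoetherianRing A] (V : Type) [AddCommGroup V]
  [Module A V] [Module A[X] V] [IsScalarTower A A[X] V] (G H : Lat A V), FL 0 G → FL 0 H →
  LR G H → ∀ k : ℤ,
  FF A 0 ((H k) ⧸ (G k ⊔ (H (k - 1)).map (xm A V)).submoduleOf (H k)) ∧
  FF A 0 ((H k) ⧸ (G k).submoduleOf (H k))

/-- **RL2** (1 h). The fibre of `E` at infinity, as a summand of `A^L`.

Proof. For `v ∈ E k`, `k ≤ 0`, `φ k v = ψ (class of X^(-k) v)`, `ψ : E 0 / E (-1) → A^L` injective with a stably free cokernel: `E 0 / E (-1)` is stably free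
(`St_RL1` for `G = shL E (-1)`, `H = E`), so `(E 0 / E (-1)) × A^m ≅ A^L`. For `k > 0`: `E k = E (k - 1) + X E (k - 1)` (`GE E`), so `X^k : E 0 / E (-1) → E k / E (k - 1)` is
bijective (injective by `Sat E`), `φ k` is its inverse followed by `ψ`. Injectivity for `k ≤ 0`: `X^(-k) v ∈ E (-1)` implies `v ∈ E (k - 1)` by `Sat E`. -/
def St_RL2 : Prop := ∀ (A : Type) [CommRing A] [IsNoetherianRing A] (V : Type) [AddCommGroup V]
  [Module A V] [Module A[X] V] [IsScalarTower A A[X] V] (E : Lat A V), FL 0 E → GE E →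
  ∃ (L : ℕ) (φ : ∀ k : ℤ, E k →ₗ[A] (Fin L → A)),
    (∀ k (v : E k), φ k v = 0 ↔ (v : V) ∈ E (k - 1)) ∧
    (∀ k (v : E k) (w : E (k + 1)), (w : V) = (X : A[X]) • (v : V) → φ (k + 1) w = φ k v) ∧
    (∀ k : ℤ, 0 ≤ k → LinearMap.range (φ k) = LinearMap.range (φ 0)) ∧
    FF A 0 ((Fin L → A) ⧸ LinearMap.range (φ 0))

/-- the graph lattice: `(v, p)` with `v ∈ F k`, `deg p ≤ k + 1` and leading coefficients `coeff (k + 1) p = φ k v` -/
def grL {A V : Type} [CommRing A] [AddCommGroup V] [Module A V] [Module A[X] V]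
    [IsScalarTower A A[X] V] {E : Lat A V} {L : ℕ} (φ : ∀ k : ℤ, E k →ₗ[A] (Fin L → A))
    (F : Lat A V) : Lat A (V × (Fin L → A[X])) := fun k =>
  { carrier := {q | ∃ h : q.1 ∈ E k, q.1 ∈ F k ∧
      (∀ (i : Fin L) (n : ℕ), k + 1 < n → (q.2 i).coeff n = 0) ∧
      (∀ (i : Fin L) (n : ℕ), (n : ℤ) = k + 1 → (q.2 i).coeff n = φ k ⟨q.1, h⟩ i) ∧
      (k + 1 < 0 → φ k ⟨q.1, h⟩ = 0)}
    zero_mem' := by
      refine ⟨(E k).zero_mem, (F k).zero_mem, fun i n _ => by simp, fun i n _ => ?_, fun _ => ?_⟩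
      · have : (⟨(0 : V × (Fin L → A[X])).1, (E k).zero_mem⟩ : E k) = 0 := rfl
        rw [this, map_zero]
        simp
      · have : (⟨(0 : V × (Fin L → A[X])).1, (E k).zero_mem⟩ : E k) = 0 := rfl
        rw [this, map_zero]
    add_mem' := by
      rintro q q' ⟨h, h1, h2, h3, h4⟩ ⟨h', h1', h2', h3', h4'⟩
      have e : (⟨(q + q').1, (E k).add_mem h h'⟩ : E k) = ⟨q.1, h⟩ + ⟨q'.1, h'⟩ := rfl
      refine ⟨(E k).add_mem h h', (F k).add_mem h1 h1', fun i n hn => ?_, fun i n hn => ?_,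
        fun hk => ?_⟩
      · rw [Prod.snd_add, Pi.add_apply, coeff_add, h2 i n hn, h2' i n hn, add_zero]
      · rw [e, map_add, Prod.snd_add, Pi.add_apply, Pi.add_apply, coeff_add, h3 i n hn, h3' i n hn]
      · rw [e, map_add, h4 hk, h4' hk, add_zero]
    smul_mem' := by
      rintro c q ⟨h, h1, h2, h3, h4⟩
      have e : (⟨(c • q).1, (E k).smul_mem c h⟩ : E k) = c • ⟨q.1, h⟩ := rfl
      refine ⟨(E k).smul_mem c h, (F k).smul_mem c h1, fun i n hn => ?_, fun i n hn => ?_,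
        fun hk => ?_⟩
      · rw [Prod.smul_snd, Pi.smul_apply, coeff_smul, h2 i n hn, smul_zero]
      · rw [e, map_smul, Prod.smul_snd, Pi.smul_apply, Pi.smul_apply, coeff_smul, h3 i n hn]
      · rw [e, map_smul, h4 hk, smul_zero] }

/-- **RL3** (1.5 h). The graph lattice: everything except the generator modules.

Proof. `E (k - 1) ≤ F k ≤ E k`. `mono`, `mulX`: properties of `φ` (`φ (k + 1) v = 0` for `v ∈ E k`; `coeff (k + 2) (X p) = coeff (k + 1) p`). For `k ≤ -2`: `grL φ F k = E (k - 1) × 0`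
(`p = 0`, `φ k v = 0`). `fg`: noetherian, inside `E k ×` (polynomials of degree `≤ k + 1`). `top`: clear. Inclusions: `φ k v = 0` for `v ∈ E (k - 1)`. `Sat`: `(v, p) ∈ Γ k`,
`(X v, X p) ∈ Γ k`: `deg p ≤ k`, so `φ k v = 0`, `v ∈ F (k - 1)` by `Sat F`, and `coeff k p = coeff (k + 1) (X p) = φ k (X v) = φ (k - 1) v`; if `k < 0`: `p = 0`, and
`φ k (X v) = 0` (for `k = -1`: `coeff 0 (X p) = 0`). `GE` (and `gen`): for `k ≥ 0`, `(v, p) ∈ Γ (k + 1)`: `v = a + X b`, `a, b ∈ F k` (`GE F`), `(a, φ k a x^(k+1))`, `(b, φ k b x^(k+1)) ∈ Γ k`;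
the rest is `(0, p')`, `deg p' ≤ k + 1`, `p' = c + X q`, `deg q ≤ k`, and `(0, c), (0, q) ∈ Γ k`. `LE1 (D - 1)`: `Γ (-D) = E (-D-1) × 0 = 0` (`D ≥ 2`). -/
def St_RL3 : Prop := ∀ (A : Type) [CommRing A] [IsNoetherianRing A] (V : Type) [AddCommGroup V]
  [Module A V] [Module A[X] V] [IsScalarTower A A[X] V] (D : ℕ), 2 ≤ D → ∀ E ∈ SD A V D,
  ∀ (L : ℕ) (φ : ∀ k : ℤ, E k →ₗ[A] (Fin L → A)),
    (∀ k (v : E k), φ k v = 0 ↔ (v : V) ∈ E (k - 1)) →
    (∀ k (v : E k) (w : E (k + 1)), (w : V) = (X : A[X]) • (v : V) → φ (k + 1) w = φ k v) →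
    ∀ F ∈ SD A V D, LR F E → IsLat (grL φ F) ∧ Sat (grL φ F) ∧ GE (grL φ F) ∧
      LE1 (D - 1) (grL φ F) ∧ grL φ F ≤ prodL F (O1 A L) ∧
      shL (prodL E (O1 A L)) (-1) ≤ grL φ F ∧
      (∀ k : ℤ, k ≤ -2 → ∀ q, q ∈ grL φ F k ↔ q.1 ∈ E (k - 1) ∧ q.2 = 0) ∧
      ∀ F' ∈ SD A V D, LR F' E → F ≤ F' → grL φ F ≤ grL φ F'

/-- **RL4** (1.7 h). The generator modules of the graph lattice are stably free.

Proof. `k ≤ -2`: `H0 (Γ F) k ≅ H0 E (k - 1)`. `k = -1`: `Γ (-1) ≅ F (-1)` (`(v, φ (-1) v)`), `jL = (E (-3) + X E (-3)) × 0`, `H0 ≅ F (-1) / (E (-3) + X E (-3))`, an extension of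
`F (-1) / E (-2)` (`St_RL1` for `shL E (-1) ≤ F`) by `H0 E (-2)`. `k = 0`: `Γ 0 ≅ F 0 × A^L`, `(v, c) ↦ (v, c + φ 0 v x)`, `jL = {(v + X v', φ (-1) v) | v, v' ∈ F (-1)}`, so `H0 (Γ F) 0 → H0 F 0` is onto, and
its kernel is `A^L / {φ (-1) v | v, v' ∈ F (-1), v + X v' = 0} = A^L / φ (-2) (F (-2))` (`Sat F`: `v' ∈ F (-2)`, `φ (-1) (X v') = φ (-2) v'`). This is stably free: it is an extension of
`A^L / range (φ 0)` by `range (φ 0) / φ (-2) (F (-2)) ≅ E 0 / (E (-1) + X^2 F (-2))`, and this has the filtration `X^2 F (-2), X F (-1), F 0, E 0` (all plus `E (-1)`) with the quotients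
`F (-1) / (E (-2) + X F (-2))`, `F 0 / (E (-1) + X F (-1))`, `E 0 / F 0`: `St_RL1` for `shL E (-1) ≤ F` and for `F ≤ E` (if `X v ∈ E (-1) + X^2 F (-2)`, `v ∈ F (-1)`, then `v ∈ E (-2) + X F (-2)` by
`Sat E`). `k ≥ 1`: `H0 = 0` (`GE (grL φ F)`, `St_RL3`). -/
def St_RL4 : Prop := ∀ (A : Type) [CommRing A] [IsNoetherianRing A] (V : Type) [AddCommGroup V]
  [Module A V] [Module A[X] V] [IsScalarTower A A[X] V] (D : ℕ), 2 ≤ D → ∀ E ∈ SD A V D,
  ∀ (L : ℕ) (φ : ∀ k : ℤ, E k →ₗ[A] (Fin L → A)),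
    (∀ k (v : E k), φ k v = 0 ↔ (v : V) ∈ E (k - 1)) →
    (∀ k (v : E k) (w : E (k + 1)), (w : V) = (X : A[X]) • (v : V) → φ (k + 1) w = φ k v) →
    FF A 0 ((Fin L → A) ⧸ LinearMap.range (φ 0)) →
    ∀ F ∈ SD A V D, LR F E → ∀ k, FF A 0 (H0 (grL φ F) k)

/-- **RL5** (0.2 h). Summary: `Γ F = grL φ F` (`St_RL2`, `St_RL3`, `St_RL4`). -/
def St_RL5 : Prop := ∀ (A : Type) [CommRing A] [IsNoetherianRing A] (V : Type) [AddCommGroup V]
  [Module A V] [Module A[X] V] [IsScalarTower A A[X] V] (D : ℕ), 2 ≤ D → ∀ E ∈ SD A V D,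
  ∃ (L : ℕ) (Γ : Lat A V → Lat A (V × (Fin L → A[X]))), ∀ F ∈ SD A V D, LR F E →
    Γ F ∈ SD A (V × (Fin L → A[X])) (D - 1) ∧ Γ F ≤ prodL F (O1 A L) ∧
    shL (prodL E (O1 A L)) (-1) ≤ Γ F ∧ ∀ F' ∈ SD A V D, LR F' E → F ≤ F' → Γ F ≤ Γ F'

/-- the vertices of a chain -/
def vts {V : Type} (c : List V →₀ ℤ) : Set V := {x | ∃ l ∈ c.support, x ∈ l}

/-- **RM1** (1.5 h). Removing one vertex.

Proof. `y = y₀ + y₁`, `y₁` the part on the lists which contain `E`. `w = bd y₁` is a cycle of length `j` on lists without `E` (`bd y₁ = bd y - bd y₀`, and `E ∉ vts (bd y)` because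
`¬ LE1 (D - 1) E`, `D - 1 ≥ 1`). Every vertex `F` of `w` is adjacent to `E`; if `LR E F`, then `E ≤ F`, so `¬ LE1 (D - 1) F` and `F = E` by maximality; so `LR F E`. `Γ`, `L` from `St_RL5`.
`f F = Γ F`, `g F = prodL F (O1 A L)`, `Y = vts w`: `shL (prodL E (O1 A L)) (-1) ≤ f F, g F ≤ prodL E (O1 A L)`, so two of these lattices `G ≤ G'` satisfy `LR G G'`. `St_RA2` twice: `g w - f w` is a
boundary and `f w - (Γ E) w` is a boundary, and the cycle on lists of copies of `Γ E` is a boundary (`St_MA` (2)). So `g w = bd b`, `b` on lists of vertices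
`prodL F (O1 A L)`, `Γ F`, `F ∈ vts w`, `Γ E`. `y' = g y₀ + b`. -/
def St_RM1 : Prop := ∀ (A : Type) [CommRing A] [IsNoetherianRing A] (V : Type) [AddCommGroup V]
  [Module A V] [Module A[X] V] [IsScalarTower A A[X] V] (D : ℕ), 2 ≤ D → ∀ j : ℕ,
  ∀ y ∈ Ch (Fl adjL (SD A V D)).s (j + 1), bd y ∈ Ch (Fl adjL (SD A V 1)).s j →
  ∀ E ∈ vts y, ¬ LE1 (D - 1) E → (∀ F ∈ vts y, ¬ LE1 (D - 1) F → E ≤ F → F = E) →
  ∃ (L : ℕ), ∃ y' ∈ Ch (Fl adjL (SD A (V × (Fin L → A[X])) D)).s (j + 1),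
    bd y' = (bd y).mapDomain (List.map fun F => prodL F (O1 A L)) ∧
    ∀ G ∈ vts y', LE1 (D - 1) G ∨ ∃ F ∈ vts y, F ≠ E ∧ G = prodL F (O1 A L)

/-- **RM** (1.2 h). From types `[0, D]` to types `[0, 1]`.

Proof. Induction on `D` (`D = 1` trivial with `L = 0`, an isomorphism `V ≅ V × A[X]^0`), and for `D ≥ 2` on the number of vertices `F` of `y` with `¬ LE1 (D - 1) F`, for all `V` at the same time: if
there is one, take a maximal one (a finite set of lattices) and `St_RM1`; `prodL F (O1 A L)` is `LE1 (D - 1)` iff `F` is. Isomorphisms `(V × A[X]^L) × A[X]^L' ≅ V × A[X]^(L + L')`, which map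
`prodL (prodL E O(1)^L) O(1)^L'` to `prodL E O(1)^(L+L')`. -/
def St_RM : Prop := ∀ (A : Type) [CommRing A] [IsNoetherianRing A] (V : Type) [AddCommGroup V]
  [Module A V] [Module A[X] V] [IsScalarTower A A[X] V] (D : ℕ), 1 ≤ D → ∀ j : ℕ,
  ∀ y ∈ Ch (Fl adjL (SD A V D)).s (j + 1), bd y ∈ Ch (Fl adjL (SD A V 1)).s j →
  ∃ (L : ℕ), ∃ y' ∈ Ch (Fl adjL (SD A (V × (Fin L → A[X])) 1)).s (j + 1),
    bd y' = (bd y).mapDomain (List.map fun F => prodL F (O1 A L))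

/-- **RN** (1 h). Cycles of bundles of types `0`, `1` bound stably.

Proof. `St_RK`: `z ⊕ O^N = bd y`; the finitely many vertices of `y` are `LE1 D` for some `D ≥ 1` (`bot`). `St_RM`: `z ⊕ O^N ⊕ O(1)^L = bd y'`. `St_RA2` for
`f E = prodL (prodL E (O0 A N)) (O0 A L)`, `g E = prodL (prodL E (O0 A N)) (O1 A L)`, `Y = vts z`: `z ⊕ O^N ⊕ O^L` is a boundary. Isomorphism
`(V × A[X]^N) × A[X]^L ≅ V × A[X]^(N + L)`. -/
def St_RN : Prop := ∀ (A : Type) [CommRing A] [IsNoetherianRing A] (D : ℕ),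
  (∀ (M : Type) [AddCommGroup M] [Module A M], Module.Finite A M → FF A D M) →
  ∀ (V : Type) [AddCommGroup V] [Module A V] [Module A[X] V] [IsScalarTower A A[X] V]
    [Module.Finite A[X] V] [Module.Projective A[X] V] (j : ℕ), 1 ≤ j →
    ∀ z ∈ Ch (Fl adjL (SD A V 1)).s j, bd z = 0 → ∃ (N : ℕ),
      ∃ y ∈ Ch (Fl adjL (SD A (V × (Fin N → A[X])) 1)).s (j + 1),
        bd y = z.mapDomain (List.map fun E => prodL E (O0 A N))

/-- **RO1** (1 h). Ranks of stably free modules over a domain.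

Proof. `M × A^a ≅ A^n`: `M` is torsion free, `finrank M + a = n` (tensor with the field of fractions, or `rank` of quotients over a domain), `M ≅ ker (A^n → A^a)`: (1) `KerFree`; (2) `M ⊆ A^n` is torsion
free of rank `0`. (3) `finrank` is additive on exact sequences over a domain. (4) an injective map. -/
def St_RO1 : Prop := ∀ (A : Type) [CommRing A] [IsNoetherianRing A] [IsDomain A] (s : ℕ),
  KerFree A s → ∀ (M : Type) [AddCommGroup M] [Module A M], FF A 0 M →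
  (s ≤ Module.finrank A M → Nonempty (Module.Basis (Fin (Module.finrank A M)) A M)) ∧
  (Module.finrank A M = 0 → Subsingleton M) ∧
  (∀ a : ℕ, Module.finrank A (M × (Fin a → A)) = Module.finrank A M + a) ∧
  (∀ (N : Type) [AddCommGroup N] [Module A N], FF A 0 N → ∀ f : M →ₗ[A] N, Injective f →
    Module.finrank A M ≤ Module.finrank A N)

/-- the filler `O(1)^d ⊕ O^(M - d)` -/
def fil (A : Type) [CommRing A] (M d : ℕ) : Lat A (Fin M → A[X]) :=
  OW A fun i => if i.val < d then 1 else 0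

/-- **RO2** (1.5 h). A bundle of types `0`, `1` becomes standard after adding a filler.

Proof. `d = finrank (E (-1))`, `G = prodL E (fil A M ((m - 1) d))`, `IsLat`, `Sat` (`St_RB1`, `St_RB3`). `E (-1) = H0 E (-1)` (as `E (-2) = 0`), `G (-1) ≅ E (-1) × A^((m-1)d)` is stably free of rank `m d`, so it is
free: `m d ≥ s`, or `d = 0` and `G (-1) = 0` (`St_RO1`). `H0 G 0 ≅ H0 E 0 × A^(M - (m-1)d)` is stably free of rank `≥ s`, so free. `H0 G k = 0` for `k ≥ 1` (`GE`) and `k ≤ -2` (`LE1 1`). `St_RC` with a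
basis of `G (-1)` and lifts of a basis of `H0 G 0`, indexed by `Fin (m d) ⊕ Fin n'`, reindexed by `Fin (m d + n')` (first `m d`): `G = OL b (i < m d ? 1 : 0)`. -/
def St_RO2 : Prop := ∀ (A : Type) [CommRing A] [IsNoetherianRing A] [IsDomain A] (s m : ℕ),
  KerFree A s → 1 ≤ s → s ≤ m → ∀ (V : Type) [AddCommGroup V] [Module A V] [Module A[X] V]
  [IsScalarTower A A[X] V], ∀ E ∈ SD A V 1, ∀ M J : ℕ,
  (m - 1) * Module.finrank A (E (-1)) + s ≤ M → Module.finrank A (E (-1)) ≤ J →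
  prodL E (fil A M ((m - 1) * Module.finrank A (E (-1)))) ∈ TV A (V × (Fin M → A[X])) m J

/-- **RO** (1.5 h). `PInf`.

Proof. Rank: `TV A V m J ⊆ SD A V 1` (`St_RB3` (3)). `j = 0`: `z = c • single [] 1`; `V` is free, so `V × A[X]^0` has a basis and `O^n` is a vertex. `j ≥ 1`: `St_RN`: `bd y = z ⊕ O^N`, `y` on `SD 1`. For a
vertex `E` of `y` let `d E = finrank (E (-1))`, `M` and `J'` large for all these, `J ≤ J'`. `Θ E = prodL E (fil A M ((m - 1) d E))`: in `TV m J'` by `St_RO2`; `LR E E'` implies `d E ≤ d E'` (`St_RO1` (4)), so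
`LR (Θ E) (Θ E')` (`St_RB3` (3)): `Θ y` is a chain of `TT m J'` with boundary `Θ (z ⊕ O^N)`. `St_RA2` for `Y = vts z`, `f E = prodL (prodL E (O0 A N)) (O0 A M)`, `g E = Θ (prodL E (O0 A N))`: for a vertex
`E = OL b (i < e ? 1 : 0)` of `z`, `m | e`, `e ≤ m J`, `f E` is in `TV m J'` (add the basis of `A[X]^N × A[X]^M` at the end). Isomorphism `(V × A[X]^N) × A[X]^M ≅ V × A[X]^(N + M)`. -/
def St_RO : Prop := ∀ (A : Type) [CommRing A] [IsNoetherianRing A] [IsDomain A] (D s m : ℕ),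
  (∀ (M : Type) [AddCommGroup M] [Module A M], Module.Finite A M → FF A D M) →
  KerFree A s → 1 ≤ s → s ≤ m → PInf A m

end Pool.Agent.SLZ
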