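import Pool.Agent.SLZ.DefsT
import Pool.Agent.SLZ.StFF
import Pool.Agent.SLZ.StF5

/-!
# SLZ, part RD: simplices of `T` are diagonal in one basis (captain helper12)
-/

set_option autoImplicit false
set_option linter.unusedVariables false

noncomputable section

namespace Pool.Agent.SLZ

open Polynomial

/-- all finitely generated modules have finite free resolutions (stably free form) -/
def FFall (A : Type) [CommRing A] : Prop :=
  ∀ (M : Type) [AddCommGroup M] [Module A M], Module.Finite A M → ∃ d, FF A d M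

/-- **RD1** (1 h). Elementary properties of the lattice `E = OL b (i < d)`, `d ≤ n`.

Proof. Coordinates in the basis `b`; the coordinate `i` of a vector of `E k` has degree `≤ k + 1` if `i < d` and `≤ k` if `i ≥ d`. (5) basis: the classes of
`X b_i` (`i < d`) and `b_i` (`i ≥ d`). (6) `b_i`, `i < d`. (7) unique smallest lattice: if `E'` is stable under `X` and contains the basis vectors in the right
degrees. (8) the coordinate `i` of `X^(k+1) u` has degree `≤ k` only if `u_i` is `0` for `i ≥ d`, constant for `i < d`. -/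
def St_RD1 : Prop := ∀ (A : Type) [CommRing A] [Nontrivial A] (V : Type) [AddCommGroup V]
  [Module A V] [Module A[X] V] [IsScalarTower A A[X] V] (n d : ℕ)
  (b : Module.Basis (Fin n) A[X] V) (E : Lat A V), d ≤ n →
  (E = OL b fun i => if i.val < d then (1 : ℤ) else 0) →
  (∀ k l : ℤ, k ≤ l → E k ≤ E l) ∧
  (∀ (k : ℤ) (v : V), v ∈ E k → (X : A[X]) • v ∈ E (k + 1)) ∧
  (∀ (k : ℤ) (v : V), (X : A[X]) • v ∈ E k → v ∈ E (k - 1)) ∧
  (∀ (k : ℤ) (v : V), 0 ≤ k → v ∈ E (k + 1) → ∃ u ∈ E k, ∃ w ∈ E k, v = u + (X : A[X]) • w) ∧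
  Nonempty (((E 0) ⧸ ((E (-1)).comap (E 0).subtype)) ≃ₗ[A] (Fin n → A)) ∧
  (∃ e : Module.Basis (Fin d) A (E (-1)), ∀ i : Fin d, ∀ h : i.val < n, (e i : V) = b ⟨i.val, h⟩) ∧
  (∀ E' : Lat A V, (∀ (k : ℤ) (v : V), v ∈ E' k → (X : A[X]) • v ∈ E' (k + 1)) →
    (∀ k l : ℤ, k ≤ l → E' k ≤ E' l) → (∀ i : Fin n, i.val < d → b i ∈ E' (-1)) →
    (∀ i : Fin n, b i ∈ E' 0) → E ≤ E') ∧
  (∀ (k : ℕ) (u : V), (X : A[X]) ^ (k + 1) • u ∈ E k → u ∈ E (-1)) ∧
  (∀ k : ℤ, k < -1 → E k = ⊥)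

/-- **RD2** (1.2 h). Pairs `E ≤ E' ≤ E(1)`.

Proof. (1) Let `c ∈ E'_0 ≤ E_1`, `c = e + X v`, `e, v ∈ E_0` (`St_RD1` (4)); `X v = c - e ∈ E'_0`, so `v ∈ E'_(-1)` (`St_RD1` (3)). (2) Let `C = E'_(-1) / E_(-1)`. The
sequence `0 → C → E_0 / E_(-1) → E'_0 / E'_(-1) → E'_0 / E_0 → 0` is exact (`E'_(-1) ≤ E_0`), and multiplication with `X` is an isomorphism `C ≅ E'_0 / E_0`: onto by
(1), injective by `St_RD1` (3) (`v ∈ E'_(-1)`, `X v ∈ E_0` gives `v ∈ E_(-1)`). The middle terms are `≅ A^n` (`St_RD1` (5)). `C` is finitely generated, so `FF A d C` for some `d`: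
`St_FFQ`. -/
def St_RD2 : Prop := ∀ (A : Type) [CommRing A] [Nontrivial A], FFall A → ∀ (V : Type)
  [AddCommGroup V] [Module A V] [Module A[X] V] [IsScalarTower A A[X] V] (m J : ℕ),
  ∀ E ∈ TV A V m J, ∀ E' ∈ TV A V m J, LR E E' →
  (∀ c ∈ E' 0, ∃ e ∈ E 0, ∃ v ∈ E' (-1), c = e + (X : A[X]) • v) ∧
  SF A ((E' (-1)) ⧸ ((E (-1)).comap (E' (-1)).subtype))

/-- **RD3** (1.2 h). Adapted bases for finite chains of submodules.

Proof. Induction on the number of elements of `S`. If `S = {⊤}` clear. Otherwise let `Q` be the largest element of `S` different from `⊤`. By induction for the module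
`Q` (and the submodules in `S` which are `≤ Q`) there is an adapted basis `e_i`, `i < m k`, of `Q`. `P / Q` is stably free, so projective: `P = Q ⊕ N`, `N ≅ P / Q`,
`P ≅ A^(m k')`, `Q ≅ A^(m k)`; so `N × A^(m k) ≅ A^(m k')`, `k ≤ k'` (invariant basis number), and `N` is isomorphic to the kernel of a surjective map `A^(m k') → A^(m k)`. If
`k < k'` then `m k' - m k ≥ m ≥ s` and `N` is free of rank `m (k' - k)` by `KerFree`. If `k = k'` a surjective map `A^(m k) → A^(m k)` is injective, so `N = 0`, `Q = ⊤`,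
a contradiction. Take the basis of `Q` and the basis of `N`. -/
def St_RD3 : Prop := ∀ (A : Type) [CommRing A] [Nontrivial A] (s m : ℕ), KerFree A s → s ≤ m →
  1 ≤ m → ∀ (P : Type) [AddCommGroup P] [Module A P] (S : Finset (Submodule A P)),
  (∀ Q ∈ S, ∀ Q' ∈ S, Q ≤ Q' ∨ Q' ≤ Q) →
  (∀ Q ∈ S, ∃ k : ℕ, Nonempty (Q ≃ₗ[A] (Fin (m * k) → A))) →
  (∀ Q ∈ S, ∀ Q' ∈ S, Q ≤ Q' → SF A (Q' ⧸ (Q.comap Q'.subtype))) → ⊤ ∈ S →
  ∃ (n : ℕ) (e : Module.Basis (Fin n) A P), ∀ Q ∈ S, ∃ d ≤ n, m ∣ d ∧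
    ∀ v : P, v ∈ Q ↔ ∀ i : Fin n, d ≤ i.val → e.repr v i = 0

/-- **RPD** (1.5 h). Simplices of `T` are standard.

Proof. `L = []`: any basis. Otherwise the entries of `L` are totally ordered by `≤` (adjacent lattices are comparable), and `E ≤ E'` implies `LR E E'` (or `E = E'`). Let `E⁺`
be the largest and `E⁰` the smallest entry, `P = E⁺_(-1)`. `St_RD3` for the submodules `E_(-1)`, `E ∈ L`, of `P` (`St_RD2`, `St_RD1` (6)): a basis `e_i`, `i < D`, of `P`, and `d_E` with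
`E_(-1) = span (e_i, i < d_E)`. `E⁺ = OL b⁺ (i < D)`; for `i ≥ D`: `b⁺_i ∈ E⁺_0`, `b⁺_i = q_i + X v_i` with `q_i ∈ E⁰_0`, `v_i ∈ P` (`St_RD2` (1)). `b = (e_i (i < D), q_i (i ≥ D))` is a
basis of `V` (`(e_i, b⁺_i)` is one because `e_i` and `b⁺_i`, `i < D`, are bases of `P`, and `A[X] ⊗ P → V` is injective; then a unitriangular change), and
`E⁺ = OL b (i < D)`. Let `E ∈ L`. `OL b (i < d_E) ≤ E` by `St_RD1` (7) (`P ≤ E_0` because `E⁺ ≤ E(1)`, `q_i ∈ E⁰_0 ≤ E_0`). Conversely let `v ∈ E_k ≤ E⁺_k`, `k ≥ 0`: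
`v = X^(k+1) u + v'` with `u` the combination of the `e_i`, `i < D`, with the coefficients of `X^(k+1)`, and `v' ∈ (OL b 0)_k ≤ E_k`. So `X^(k+1) u ∈ E_k` and
`u ∈ E_(-1)` (`St_RD1` (8)), so the coefficients with `i ≥ d_E` are `0`. `k = -1` clear, `k < -1`: `0`. -/
def St_RPD : Prop := ∀ (A : Type) [CommRing A] [Nontrivial A] (s m : ℕ), FFall A → KerFree A s →
  s ≤ m → 1 ≤ m → PDiag A m

end Pool.Agent.SLZ
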