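import Pool.Agent.SLZ.StM

/-!
# SLZ, part V: stable range, unimodular vectors, split frames, degree push (architect helper97)

Conventions: complexes are sets of lists of vertices (`Cx`), `Conn A c`: exact at the lengths `< c`. A complex with
`A.s = ∅` has `Conn A c` for all `c`. `St_MA` is proved (`thm_MA`); the names `MA_1` .. in `SLZ/MA.lean` can be used.
-/

set_option autoImplicit false
set_option linter.unusedVariables false

noncomputable section

namespace Pool.Agent.SLZ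

/-! ### complexes -/

/-- the full subcomplex on `X` -/
def rs {V : Type} (A : Cx V) (X : Set V) : Cx V where
  s := {l | l ∈ A.s ∧ ∀ v ∈ l, v ∈ X}
  mono l l' h hl := ⟨A.mono _ _ h hl.1, fun v hv => hl.2 v (h hv)⟩

/-- the part in `X` of the link of the list `σ` -/
def lkX {V : Type} (A : Cx V) (X : Set V) (σ : List V) : Cx V where
  s := {l | σ ++ l ∈ A.s ∧ ∀ v ∈ l, v ∈ X}
  mono l l' h hl := ⟨A.mono _ _ (List.append_subset.2 ⟨List.subset_append_left _ _,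
    fun v hv => List.mem_append_right _ (h hv)⟩) hl.1, fun v hv => hl.2 v (h hv)⟩

/-- the join -/
def joinC {V W : Type} (A : Cx V) (B : Cx W) : Cx (V ⊕ W) where
  s := {l | (∃ a ∈ A.s, ∀ v, Sum.inl v ∈ l → v ∈ a) ∧ ∃ b ∈ B.s, ∀ w, Sum.inr w ∈ l → w ∈ b}
  mono l l' h hl := by
    obtain ⟨⟨a, ha, h1⟩, b, hb, h2⟩ := hl
    exact ⟨⟨a, ha, fun v hv => h1 v (h hv)⟩, b, hb, fun w hw => h2 w (h hw)⟩

/-- stable connectivity of a complex: it raises the connectivity of every complex by `c` when joined with it -/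
def SC {V : Type} (A : Cx V) (c : ℕ) : Prop :=
  ∀ (W : Type) (B : Cx W) (b : ℕ), Conn B b → Conn (joinC A B) (c + b)

/-- **VJ.** Retracts, joins.

Proof. (1) `Conn`: a cycle `z` of `B` of length `j < c` gives the cycle `z.mapDomain (List.map g)` of `A` (`St_MA` (4)), so
it is `bd y`, and `bd (y.mapDomain (List.map f)) = z.mapDomain (List.map (f ∘ g)) = z` (`f (g w) = w` on the lists of `B`). `SC`:
the same for `joinC A Z`, `joinC B Z` and the maps `Sum.map f id`, `Sum.map g id`. (2) `SC A c → Conn A c`: take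
`W = Empty`, `B.s = Set.univ`, `b = 0`, and (1) for `A' = joinC A B`, `f (Sum.inl v) = v`, `g = Sum.inl`. (3) trivial. (4) `Z` with
`Conn Z b`: `Conn (joinC B Z) (d + b)`, `Conn (joinC A (joinC B Z)) (c + (d + b))`, and (1) for `Equiv.sumAssoc`. (5) The lists of
`joinC (Fl r S) (Fl q Z)` are the lists of `Fl (joinR r q) (Sum.inl '' S ∪ Sum.inr '' Z)` (for `a` take the list of the left
entries). -/
def St_VJ : Prop :=
  (∀ (V W : Type) (A : Cx V) (B : Cx W) (f : V → W) (g : W → V) (c : ℕ),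
    (∀ l ∈ A.s, l.map f ∈ B.s) → (∀ l ∈ B.s, l.map g ∈ A.s) →
    (∀ l ∈ B.s, ∀ w ∈ l, f (g w) = w) → (Conn A c → Conn B c) ∧ (SC A c → SC B c)) ∧
  (∀ (V : Type) (A : Cx V) (c : ℕ), SC A c → Conn A c) ∧
  (∀ (V : Type) (A : Cx V) (c c' : ℕ), c' ≤ c → SC A c → SC A c') ∧
  (∀ (V W : Type) (A : Cx V) (B : Cx W) (c d : ℕ), SC A c → SC B d → SC (joinC A B) (c + d)) ∧
  (∀ (V : Type) (r : V → V → Prop) (S : Set V) (c : ℕ), SC (Fl r S) c → SConn r S c)

/-- **VP.** Pushing chains into a full subcomplex `X`; building `A` from `X`.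

Proof. For `v ∉ F ∪ X` the link `lk (rs A (X ∪ F ∪ {v})) v` is `rs A_v (X ∪ F)` with `A_v = {l | v :: l ∈ A.s}` and
`lkX A_v X τ = lkX A X (v :: τ)`. A complex without lists is exact everywhere.
(LIF) for finite `F` disjoint from `X`: if `Conn (lkX A X σ) (c - σ.length)` for all nodup `σ` with entries in `F` (also `σ = []`),
then `Conn (rs A (X ∪ F)) c`. Induction on `F` for all `A`, `c`: insert `v`: the link of `v` in `rs A (X ∪ F ∪ {v})` is
`Conn .. (c - 1)` by induction for `A_v`, `del .. v = rs A (X ∪ F)` is `Conn .. c`; a cycle `z` of length `j + 1 < c` is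
`c' + bd e` by `St_MA` (5), `c'` a cycle on `rs A (X ∪ F)`; length `0`: the lists are `[]`.
(1) [PU] `j = 0`: `y' = y`. Else induction on the finite set `F` of the vertices outside of `X` of the lists of `y`: `v ∈ F`:
(LIF) for `A_v`, `X`, `F ∖ v`, `c = j`: the link of `v` in `rs A (X ∪ F)` is exact at the length `j - 1`, and `bd y` lives on `X`:
`St_MA` (5) replaces `y` by `c'` on `X ∪ (F ∖ v)`, `bd c' = bd y`.
(2) [LI] a cycle has finite support: (LIF).
(3) [LJ] if `y ∈ X`, then `rs A X` is a cone (`St_MA` (6)) and (2) applies. Otherwise (2) for `X' = X ∪ {y}`: `rs A X'` is a cone with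
apex `y`; for `σ ≠ []` nodup outside of `X'` the complex `lkX A X' σ` is `rs A_σ (X ∪ {y})`, (LIF) with `F = {y}`:
`lkX A X σ` is `Conn .. (c - |σ|)`, `lkX A X (σ ++ [y])` is `Conn .. (c - |σ| - 1)`.
(4) [PV] let `z` be a cycle of length `c` on `rs A X`, `z = bd y`, `y ∈ Ch A.s (c + 1)`. Claim: for finite `F` disjoint from `X` and
`y ∈ Ch (rs A (X ∪ F)).s (c + 1)` with `bd y` on `X` there is `y' ∈ Ch (rs A X).s (c + 1)` with `bd y' = bd y`. Induction on
`F`; insert `v`, `A' = rs A (X ∪ F ∪ {v})`. Let `c1` be the part of `y` on the lists containing `v`; `b = bd c1` is a cycle on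
`lk A' v` (see the proof of `MA_5`). By (1) for `rs A_v (X ∪ F)` and the length `c` (the links `lkX A X (v :: τ)`, `τ ≠ []`):
`b = b' + bd e`, `b' ∈ Ch (lkX A X [v]).s c`, `e` on `lk A' v`, so without `v`. By hypothesis `b' = bd g`, `g` on `rs A X`. Replace `y` by
`y - c1 + e + g`, a chain on `rs A (X ∪ F)` with the same boundary. -/
def St_VP : Prop := ∀ (V : Type) (A : Cx V) (X : Set V),
  (∀ j : ℕ, (∀ σ : List V, σ ≠ [] → σ.Nodup → (∀ v ∈ σ, v ∉ X) →
      Conn (lkX A X σ) (j + 1 - σ.length)) →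
    ∀ y ∈ Ch A.s j, (∀ l ∈ (bd y).support, ∀ v ∈ l, v ∈ X) →
      ∃ y' ∈ Ch (rs A X).s j, ∃ e ∈ Ch A.s (j + 1), y = y' + bd e) ∧
  (∀ c : ℕ, (∀ σ : List V, σ.Nodup → (∀ v ∈ σ, v ∉ X) → Conn (lkX A X σ) (c - σ.length)) →
    Conn A c) ∧
  (∀ (c : ℕ) (y : V), (∀ l ∈ (rs A X).s, (y :: l) ∈ A.s) →
    (∀ σ : List V, σ ≠ [] → σ.Nodup → (∀ v ∈ σ, v ∉ X) → Conn (lkX A X σ) (c - σ.length)) →
    Conn A c) ∧
  (∀ c : ℕ, Ex A c → (∀ σ : List V, 2 ≤ σ.length → σ.Nodup → (∀ v ∈ σ, v ∉ X) →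
      Conn (lkX A X σ) (c + 2 - σ.length)) →
    (∀ v, v ∉ X → ∀ w ∈ Ch (lkX A X [v]).s c, bd w = 0 →
      ∃ g ∈ Ch (rs A X).s (c + 1), bd g = w) → Ex (rs A X) c)

/-- **VC.** The same for stable connectivity.

Proof. Let `Conn B b`. `Z = joinC A B`, `X' = Sum.inl '' X ∪ Set.range Sum.inr`. For `σ' = σ.map Sum.inl` with the entries of `σ` outside
of `X` the lists of `lkX Z X' σ'` are those of `joinC (lkX A X σ) B`, those of `rs Z X'` are those of `joinC (rs A X) B`. Lists `σ'`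
outside of `X'` are of this form. (1) `SC A 0`: `St_VP` (2) with `X = ∅`: `lkX Z X' σ'` is `B` on the right (`St_VJ` (1), or no lists).
(2), (3): `St_VP` (2), (3) for `Z`, `X'`. (4) cones: `Z` is a cone. (5) a cycle `z` of length `j < c + b` of `rs Z X'` is `bd y`, `y` of
length `j + 1` on `Z`, `St_VP` (1) for `y`: `z = bd y'`. (6) [Morse] `S_m = X ∪ {u | h u < m}`; `SC (rs A (S_m)) c` by induction on `m`: (2)
for `rs A (S_(m+1))` and `S_m`: a nodup `σ` outside of `S_m` with at least two entries is not a list of `A`; `σ = [v]`: `h v = m`.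
Every chain of `joinC A B` lives on some `S_m`. -/
def St_VC : Prop := ∀ (V : Type) (A : Cx V) (X : Set V) (c : ℕ),
  SC A 0 ∧
  ((∀ σ : List V, σ.Nodup → (∀ v ∈ σ, v ∉ X) → SC (lkX A X σ) (c - σ.length)) → SC A c) ∧
  (∀ y : V, (∀ l ∈ (rs A X).s, (y :: l) ∈ A.s) →
    (∀ σ : List V, σ ≠ [] → σ.Nodup → (∀ v ∈ σ, v ∉ X) → SC (lkX A X σ) (c - σ.length)) →
    SC A c) ∧
  (∀ y : V, (∀ l ∈ A.s, (y :: l) ∈ A.s) → SC A c) ∧
  (SC A c → (∀ σ : List V, σ ≠ [] → σ.Nodup → (∀ v ∈ σ, v ∉ X) →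
    SC (lkX A X σ) (c + 1 - σ.length)) → SC (rs A X) c) ∧
  (∀ h : V → ℕ, (∀ u v, u ∉ X → v ∉ X → u ≠ v → [u, v] ∈ A.s → h u ≠ h v) → SC (rs A X) c →
    (∀ v, v ∉ X → SC (lkX A (X ∪ {u | h u < h v}) [v]) (c - 1)) → SC A c)

/-! ### unimodular systems -/

/-- the vectors `x v`, `v ∈ l` (one for each vertex in `l`), have dual functionals -/
def Uni (Λ : Type) [Ring Λ] {V M : Type} [AddCommGroup M] [Module Λ M] (x : V → M) (l : List V) :
    Prop :=
  ∃ φ : V → (M →ₗ[Λ] Λ), ∀ v ∈ l, ∀ w ∈ l, (v = w → φ v (x w) = 1) ∧ (v ≠ w → φ v (x w) = 0)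

/-- the lists in `T` which are unimodular together with `β` -/
def UC (Λ : Type) [Ring Λ] {V M : Type} [AddCommGroup M] [Module Λ M] (x : V → M) (β : List V)
    (T : Set V) : Cx V where
  s := {l | (∀ v ∈ l, v ∈ T) ∧ Uni Λ x (β ++ l)}
  mono l l' h hl := ⟨fun v hv => hl.1 v (h hv), by
    obtain ⟨φ, hφ⟩ := hl.2
    have h1 : ∀ v ∈ β ++ l', v ∈ β ++ l := fun v hv => by
      rcases List.mem_append.1 hv with h2 | h2
      · exact List.mem_append_left _ h2
      · exact List.mem_append_right _ (h h2)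
    exact ⟨φ, fun v hv w hw => hφ v (h1 v hv) w (h1 w hw)⟩⟩

/-- **VQ.** Unimodular systems.

Proof. (1) trivial. (2) [quotient] `⇒`: for `u ∈ l` the functional `φ u` is `0` at `x v`, so it factors over `π`
(`ker π` is spanned by `x v`, `π` onto). `⇐`: `φ u = φ' u ∘ π` for `u ∈ l`, and for `v` the functional
`m ↦ f m - ∑ u ∈ l (different), φ u m * f (x u)`. (3) [isomorphisms] trivial (from `x v = i (x v)` with a left inverse).
(4) `φ' u = φ u - (φ u (x y)) p`, that is `m ↦ φ u m - p m * φ u (x y)`, for `u ∈ l`, and `p` for `y` (if `y ∈ l` then `0 = 1`).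
(5) `σ ++ l` in `UC x β T`. (6) the link of a list is empty if the list is not in the complex. -/
def St_VQ : Prop := ∀ (Λ : Type) [Ring Λ] (V M : Type) [AddCommGroup M] [Module Λ M] (x : V → M),
  (∀ l l' : List V, l' ⊆ l → Uni Λ x l → Uni Λ x l') ∧
  (∀ (M' : Type) [AddCommGroup M'] [Module Λ M'] (π : M →ₗ[Λ] M') (v : V) (l : List V)
    (f : M →ₗ[Λ] Λ), Function.Surjective π → LinearMap.ker π = Submodule.span Λ {x v} →
    f (x v) = 1 → v ∉ l → (Uni Λ x (v :: l) ↔ Uni Λ (fun u => π (x u)) l)) ∧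
  (∀ (M' : Type) [AddCommGroup M'] [Module Λ M'] (i : M →ₗ[Λ] M') (p : M' →ₗ[Λ] M),
    (∀ m, p (i m) = m) → ∀ l : List V, (Uni Λ x l ↔ Uni Λ (fun u => i (x u)) l)) ∧
  (∀ (l : List V) (y : V) (p : M →ₗ[Λ] Λ), (∀ u ∈ l, p (x u) = 0) → p (x y) = 1 → Uni Λ x l →
    Uni Λ x (y :: l)) ∧
  (∀ (β σ : List V) (T X : Set V), X ⊆ T → (∀ v ∈ σ, v ∈ T) →
    (lkX (UC Λ x β T) X σ).s = (UC Λ x (β ++ σ) X).s) ∧
  (∀ (β σ : List V) (T X : Set V), (¬ ∀ v ∈ σ, v ∈ T) → (lkX (UC Λ x β T) X σ).s = ∅)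

/-! ### stable range -/

/-- stable rank `≤ s` (Bass): unimodular rows of length `n + 1`, `n ≥ s`, can be shortened -/
def SR (Λ : Type) [Ring Λ] (s : ℕ) : Prop :=
  ∀ n, s ≤ n → ∀ (a b : Fin n → Λ) (c : Λ), ∑ i, a i * b i + c = 1 →
    ∃ t b' : Fin n → Λ, ∑ i, (a i + c * t i) * b' i = 1

/-- **VB.** Bass: noetherian rings of dimension `≤ D` have stable rank `≤ D + 1`.

Proof. Choose `t_1, t_2, ..` one after the other such that with `a'_i = a_i + c t_i` every prime ideal which contains `a'_1, .., a'_i` and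
does not contain `c` has height `≥ i`. Step: let `𝔭_1, .., 𝔭_k` be the minimal primes over `(a'_1, .., a'_i)` which do not contain `c`
(finitely many, pairwise not contained in each other). Choose `t` in the intersection of the `𝔭_j` with `a_(i+1) ∉ 𝔭_j` and in no
`𝔭_j` with `a_(i+1) ∈ 𝔭_j` (prime avoidance). Then `a_(i+1) + c t` is in no `𝔭_j`. A prime over `a'_1, .., a'_(i+1)` without `c`
contains a minimal prime over `(a'_1, .., a'_i)`, it does not contain `c`, so it is some `𝔭_j`, of height `≥ i`, and it is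
different. At the end (`n > D`) a maximal ideal which contains all `a'_i` contains `c` (heights are `≤ D`), so all `a_i`, but
`∑ a_i b_i + c = 1`: so there is none. -/
def St_VB : Prop := ∀ (A : Type) [CommRing A] [IsNoetherianRing A] (D : ℕ), ringKrullDim A ≤ D →
  SR A (D + 1)

/-- **VD.** The rings of the project.

Proof. `St_VB`; `MvPolynomial.ringKrullDim_of_isNoetherianRing`, `Polynomial.ringKrullDim_of_isNoetherianRing`,
`IsPrincipalIdealRing.ringKrullDim_eq_one`. -/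
def St_VD : Prop := St_VB → (∀ r : ℕ, SR (MvPolynomial (Fin r) ℤ) (r + 2)) ∧
  (∀ r : ℕ, SR (Polynomial (MvPolynomial (Fin r) ℤ)) (r + 3))

/-- **VG.** Straightening a unimodular vector by automorphisms which are the identity modulo `Λ^n`.

Proof. (1) `e v = (a, c)`, `1 = f v = ∑ a_i b_i + θ c` (`b_i = f (e.symm (e_i, 0))`, `θ c = f (e.symm (0, c))`). `SR` for `n ≥ s`
gives `t` with `a + θ(c) t` unimodular: compose `e` with `(a, c) ↦ (a + θ(c) t, c)`. (2) By (1) (for `n + 1`) we may assume that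
`a = (a_1, .., a_(n+1))` is unimodular, `∑_(i ≤ n) a_i b_i + a_(n+1) b_(n+1) = 1`. `SR` for `n ≥ s`: `a'_i = a_i + a_(n+1) b_(n+1) t_i`
(`i ≤ n`) is unimodular, `∑ a'_i b'_i = 1`. Then add `(∑ a'_i b'_i) (1 - a_(n+1))` to the last coordinate: it becomes `1`. All
this is `a ↦ a + ..` by right multiplications, so `Λ`-linear, invertible, and the coordinate in `C` does not change. -/
def St_VG : Prop := ∀ (Λ : Type) [Ring Λ] (s n : ℕ), SR Λ s → s ≤ n →
  ∀ (M C : Type) [AddCommGroup M] [Module Λ M] [AddCommGroup C] [Module Λ C] (v : M)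
    (f : M →ₗ[Λ] Λ), f v = 1 →
  (∀ e : M ≃ₗ[Λ] (Fin n → Λ) × C, ∃ e' : M ≃ₗ[Λ] (Fin n → Λ) × C, (∀ m, (e' m).2 = (e m).2) ∧
    ∃ g : (Fin n → Λ) →ₗ[Λ] Λ, g (e' v).1 = 1) ∧
  (∀ e : M ≃ₗ[Λ] (Fin (n + 1) → Λ) × C, ∃ e' : M ≃ₗ[Λ] (Fin n → Λ) × (Λ × C),
    (∀ m, (e' m).2.2 = (e m).2) ∧ (e' v).2.1 = 1)

/-! ### van der Kallen's theorem, with arbitrary fibres (labels) and stable connectivity -/

/-- `x` maps `T` onto `Λ^n + f` -/
def TyA (Λ : Type) [Ring Λ] (n : ℕ) {V M : Type} [AddCommGroup M] [Module Λ M] (x : V → M)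
    (T : Set V) : Prop :=
  ∃ (C : Type) (_ : AddCommGroup C) (_ : Module Λ C) (e : M ≃ₗ[Λ] (Fin n → Λ) × C) (f : C),
    (∀ v ∈ T, (e (x v)).2 = f) ∧ ∀ a, ∃ v ∈ T, e (x v) = (a, f)

/-- `x` maps `T` onto the union of `Λ^n + f` and `Λ^n + e_(n+1) + f` -/
def TyB (Λ : Type) [Ring Λ] (n : ℕ) {V M : Type} [AddCommGroup M] [Module Λ M] (x : V → M)
    (T : Set V) : Prop :=
  ∃ (C : Type) (_ : AddCommGroup C) (_ : Module Λ C) (e : M ≃ₗ[Λ] (Fin n → Λ) × (Λ × C)) (f : C),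
    (∀ v ∈ T, (e (x v)).2 = (0, f) ∨ (e (x v)).2 = (1, f)) ∧
    ∀ a, ∀ ε : Λ, ε = 0 ∨ ε = 1 → ∃ v ∈ T, e (x v) = (a, (ε, f))

/-- the theorem for type `A` -/
def TA (Λ : Type) [Ring Λ] (s n : ℕ) : Prop :=
  ∀ (V M : Type) [AddCommGroup M] [Module Λ M] (x : V → M) (T : Set V) (β : List V), β.Nodup →
    (∀ v ∈ β, v ∉ T) → TyA Λ n x T → SC (UC Λ x β T) (n + 1 - s - β.length)

/-- the theorem for type `B` -/
def TB (Λ : Type) [Ring Λ] (s n : ℕ) : Prop :=
  ∀ (V M : Type) [AddCommGroup M] [Module Λ M] (x : V → M) (T : Set V) (β : List V), β.Nodup →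
    (∀ v ∈ β, v ∉ T) → TyB Λ n x T → SC (UC Λ x β T) (n + 2 - s - β.length)

/-- **VT1.** Step 1: `β ≠ []`.

Proof. `β = v :: β'`, `c = n + 2 - s - |β|` resp. `n + 3 - s - |β|`. If `c = 0`: `St_VC` (1). If there is no `f` with `f (x v) = 1`, then
`UC` has no lists (`SC` is trivial: no chains). MAIN CASE `n ≥ s` (this is always so for type `A`): `e'` from `St_VG` (2), where
`e' (x v) = (a', 1, f')`; `X = {w ∈ T | (e' (x w)).2.1 = 0}`, `π : M → Λ^n × C`,
`π m = (a - α a', g - α f')` for `e' m = (a, α, g)`: onto, kernel `Λ (x v)`. By `St_VQ` (2), for `σ` outside of `β` and `X`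
`(UC x (β ++ σ) X).s = (UC (π ∘ x) (β' ++ σ) X).s`, and `X` with `π ∘ x` is of type `A` resp. `B` for `n` (on `X` it is
`w ↦ (a, g)`, and `C` was not changed). So for nodup `σ` with entries in `T ∖ X` (`σ = []` included) `lkX (UC x β T) X σ`
(`St_VQ` (5), (6)) has `SC .. (n + 1 - s - (|β| - 1) - |σ|) = c - |σ|` (resp. `B`): `St_VC` (2).
SPECIAL CASE (type `B`, `n + 1 = s`, `|β| = 1`, `c = 1`; other cases have `c = 0`): `St_VC` (3) with `X = ∅`: it suffices to find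
`y ∈ T` with `Uni x [v, y]` (the lists `σ ≠ []` give `SC .. 0`). `e'` from `St_VG` (1) for `n + 1`: `e' (x v) = (a, (ε, h))`, `g a = 1`;
`y` with `e' (x y) = (0, (1, f))` (there is one since `e (x T)` is a union of cosets of `Λ^(n+1)` and `e' ≡ e` modulo it). Functionals:
`g ∘ fst` for `v`, and for `y`: `m ↦ m.2.1 - g m.1 * ε`. -/
def St_VT1 : Prop := ∀ (Λ : Type) [Ring Λ] (s n : ℕ), SR Λ s → 1 ≤ s →
  ∀ (V M : Type) [AddCommGroup M] [Module Λ M] (x : V → M) (T : Set V) (β : List V), β.Nodup →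
    β ≠ [] → (∀ v ∈ β, v ∉ T) →
    (TA Λ s n → TyA Λ (n + 1) x T → SC (UC Λ x β T) (n + 2 - s - β.length)) ∧
    (TB Λ s n → TyB Λ (n + 1) x T → SC (UC Λ x β T) (n + 3 - s - β.length))

/-- **VT2.** Step 2: type `A`, `β = []`.

Proof. `X = {w ∈ T | the last coordinate of (e (x w)).1 is 0 or 1}`; `M ≃ Λ^n × (Λ × C)` by separating the last coordinate:
`X` is of type `B` for `n`. For nodup `σ` with entries in `T ∖ X`: `lkX (UC x [] T) X σ = UC x σ X` (`St_VQ` (5)) has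
`SC .. (n + 2 - s - |σ|)` by `TB`, also for `σ = []`: `St_VC` (2). -/
def St_VT2 : Prop := ∀ (Λ : Type) [Ring Λ] (s n : ℕ), SR Λ s → 1 ≤ s → TB Λ s n →
  ∀ (V M : Type) [AddCommGroup M] [Module Λ M] (x : V → M) (T : Set V), TyA Λ (n + 1) x T →
    SC (UC Λ x [] T) (n + 2 - s)

/-- **VT3.** Step 3: type `B`, `β = []`.

Proof. `c = n + 2 - s`. `X = {w ∈ T | (e (x w)).2.1 = 0}`, `y ∈ T` with `e (x y) = (0, (1, f))`. `(y :: l) ∈ UC x [] T` for
`l ∈ UC x [] X`: `St_VQ` (4), `p m = (e m).2.1`. `St_VC` (3): let `σ = v :: σ'` be nodup with entries in `T ∖ X` (if `Λ` is trivial: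
everything is a cone, or use that then `T ∖ X` is empty). `e (x v) = (a_0, (1, f))`; `π : M → Λ^n × C`,
`π m = (a - α a_0, g - α f)` for `e m = (a, (α, g))`; `X` with `π ∘ x` is of type `A` for `n`, so by `St_VQ` (2)
`UC x σ X = UC (π ∘ x) σ' X` has `SC .. (n + 1 - s - (|σ| - 1))`, and `n + 1 - s - (|σ| - 1) ≥ c - |σ|`. -/
def St_VT3 : Prop := ∀ (Λ : Type) [Ring Λ] (s n : ℕ), SR Λ s → 1 ≤ s → TA Λ s n →
  ∀ (V M : Type) [AddCommGroup M] [Module Λ M] (x : V → M) (T : Set V), TyB Λ n x T →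
    SC (UC Λ x [] T) (n + 2 - s)

/-- **VT.** The theorem.

Proof. Induction on `n`: `TA 0`: `0 + 1 - s - _ = 0`, `St_VC` (1). `TB 0`: `β = []`: `St_VT3`; otherwise `2 - s - |β| = 0`. `n + 1`: `TA (n + 1)`:
`St_VT1` and `St_VT2`; then `TB (n + 1)`: `St_VT1` and `St_VT3` for `n + 1`. -/
def St_VT : Prop := St_VT1 → St_VT2 → St_VT3 → St_VC → ∀ (Λ : Type) [Ring Λ] (s : ℕ), SR Λ s →
  1 ≤ s → ∀ n, TA Λ s n ∧ TB Λ s n

end Pool.Agent.SLZ
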