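import Pool.Agent.SLZ.StU

/-!
# SLZ, part U: assembly (helper53)
-/

set_option autoImplicit false
set_option linter.unusedVariables false

noncomputable section

namespace Pool.Agent.SLZ

section

variable {R : Type} [CommRing R] {S : Sys R}

theorem UU_B_add (hB : St_UB) (k0 : ℕ → ℕ) (h1 : S.H1 k0) {n N : ℕ} (h : n ≤ N) (c d : S.M n)
    (k : Matrix (Fin N) (Fin n) R) (l : Matrix (Fin n) (Fin N) R) :
    S.B h (c + d) k l = S.B h c k l + S.B h d k l := by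
  have h3 := (hB R S k0 h1).2.2.1 n N h c d
  unfold Sys.B
  rw [h3, h3, h3, h3]
  abel

/-- the map `β` -/
theorem UU_beta (hB : St_UB) (k0 : ℕ → ℕ) (h1 : S.H1 k0) {n N m : ℕ} (h : n ≤ N) (T : Sys R)
    (ev : T.M n ≃+ (Matrix (Fin m) (Fin n) R → Matrix (Fin n) (Fin m) R → S.M N)) :
    ∃ β : S.M n →+ T.M n, ∀ c k l, ev (β c) k l =
      S.B h c (blk R N m m * k) (l * cblk R m N (2 * m)) := by
  refine ⟨AddMonoidHom.mk' (fun c => ev.symm fun k l =>
    S.B h c (blk R N m m * k) (l * cblk R m N (2 * m))) ?_, ?_⟩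
  · intro c d
    apply ev.injective
    rw [map_add, AddEquiv.apply_symm_apply, AddEquiv.apply_symm_apply, AddEquiv.apply_symm_apply]
    funext k l
    exact UU_B_add hB k0 h1 h c d _ _
  · intro c k l
    rw [AddMonoidHom.mk'_apply, AddEquiv.apply_symm_apply]

end

theorem thm_U (hA1 : St_UA1) (hA2 : St_UA2) (hA3 : St_UA3) (hB : St_UB) (hC2 : St_UC2)
    (hF : St_UF) (hG : St_UG) (hP : St_UP) (hX : St_UX) (hN : St_UN) (hJ : St_UJ)
    (hH : St_UH) : St_U := by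
  intro R _ S k0 k2 n2 N1 h1 h2 h3 h4
  obtain ⟨a1, a2, a3, a4, a5, a6⟩ := hA1 R
  obtain ⟨n1, hn1⟩ : ∃ n1, n1 = max N1 n2 := ⟨_, rfl⟩
  obtain ⟨m, hm⟩ : ∃ m, m = n1 + 1 := ⟨_, rfl⟩
  refine ⟨k0 n1 + k0 (n1 + 1) + k2 n1 + k2 (n1 + 1) + 4 * (n1 + 1), ?_⟩
  intro N hNN
  have hN1 : N1 ≤ n1 := by omega
  have big1 : Sys.Big k0 k2 n2 n1 N := ⟨by omega, by omega, by omega, by omega, by omega⟩
  have big2 : Sys.Big k0 k2 n2 (n1 + 1) N := ⟨by omega, by omega, by omega, by omega, by omega⟩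
  obtain ⟨T, ev, hev1, hev2⟩ := hP R (S.M N) (n1 + 1) (n1 + 1)
  obtain ⟨b1, b2, b3, b4, b5⟩ := hB R S k0 h1
  obtain ⟨β0, hβ0⟩ := UU_beta hB k0 h1 big1.le T (ev n1)
  obtain ⟨β1, hβ1⟩ := UU_beta hB k0 h1 big2.le T (ev (n1 + 1))
  -- products of blocks
  have q1 : ∀ k : Matrix (Fin (n1 + 1)) (Fin (n1 + 1)) R,
      cblk R (n1 + 1) N 0 * (blk R N (n1 + 1) (n1 + 1) * k) = 0 := by
    intro k
    rw [← Matrix.mul_assoc, a2 _ _ _ _ _ (by omega), Matrix.zero_mul]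
  have q2 : ∀ k : Matrix (Fin (n1 + 1)) (Fin (n1 + 1)) R,
      cblk R (n1 + 1) N (3 * (n1 + 1)) * (blk R N (n1 + 1) (n1 + 1) * k) = 0 := by
    intro k
    rw [← Matrix.mul_assoc, a2 _ _ _ _ _ (by omega), Matrix.zero_mul]
  have q3 : ∀ l : Matrix (Fin (n1 + 1)) (Fin (n1 + 1)) R,
      (l * cblk R (n1 + 1) N (2 * (n1 + 1))) * blk R N (n1 + 1) 0 = 0 := by
    intro l
    rw [Matrix.mul_assoc, a2 _ _ _ _ _ (by omega), Matrix.mul_zero]
  have q4 : ∀ l : Matrix (Fin (n1 + 1)) (Fin (n1 + 1)) R,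
      (l * cblk R (n1 + 1) N (2 * (n1 + 1))) * blk R N (n1 + 1) (3 * (n1 + 1)) = 0 := by
    intro l
    rw [Matrix.mul_assoc, a2 _ _ _ _ _ (by omega), Matrix.mul_zero]
  have q5 : ∀ k l : Matrix (Fin (n1 + 1)) (Fin (n1 + 1)) R,
      (l * cblk R (n1 + 1) N (2 * (n1 + 1))) * (blk R N (n1 + 1) (n1 + 1) * k) = 0 := by
    intro k l
    rw [← Matrix.mul_assoc, Matrix.mul_assoc l, a2 _ _ _ _ _ (by omega), Matrix.mul_zero,
      Matrix.zero_mul]
  have q6 : cblk R (n1 + 1) N 0 * blk R N (n1 + 1) 0 = 1 := a1 _ _ _ (by have := big2.le; omega)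
  -- equivariance
  have heq : ∀ (g : GLn R (n1 + 1)) (c : S.M (n1 + 1)), β1 (g • c) = g • β1 c := by
    intro g c
    apply (ev (n1 + 1)).injective
    funext k l
    rw [hβ1, hev1, hβ1, hF R S k0 k2 n2 h1 h2 (n1 + 1) N big2.le big2 (3 * (n1 + 1)) (by omega)
      (by have := big2.four; omega) c g _ _ (q1 k) (q2 k) (q3 l) (q4 l) (q5 k l),
      Matrix.mul_assoc, Matrix.mul_assoc]
  -- standard pairs
  have hstd : ∀ (k l : Matrix (Fin (n1 + 1)) (Fin (n1 + 1)) R),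
      Sys.Std (blk R N (n1 + 1) 0 + blk R N (n1 + 1) (n1 + 1) * k)
        (cblk R (n1 + 1) N 0 + l * cblk R (n1 + 1) N (2 * (n1 + 1))) := by
    intro k l
    have h5 := (hC2 R (n1 + 1) N).1 0 (blk R N (n1 + 1) 0 + blk R N (n1 + 1) (n1 + 1) * k)
        (cblk R (n1 + 1) N 0 + l * cblk R (n1 + 1) N (2 * (n1 + 1))) (by have := big2.le; omega)
    refine h5 ?_ (Or.inl ?_)
    · rw [Matrix.add_mul, Matrix.mul_add, Matrix.mul_add, q6, q1, q3, q5]
      simp
    · rw [Matrix.mul_add, q6, q1, add_zero]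
  have hstd1 : ∀ (k : Matrix (Fin (n1 + 1)) (Fin (n1 + 1)) R),
      Sys.Std (blk R N (n1 + 1) 0 + blk R N (n1 + 1) (n1 + 1) * k) (cblk R (n1 + 1) N 0) := by
    intro k
    have := hstd k 0
    rwa [Matrix.zero_mul, add_zero] at this
  have hstd2 : ∀ (l : Matrix (Fin (n1 + 1)) (Fin (n1 + 1)) R),
      Sys.Std (blk R N (n1 + 1) 0)
        (cblk R (n1 + 1) N 0 + l * cblk R (n1 + 1) N (2 * (n1 + 1))) := by
    intro l
    have := hstd 0 l
    rwa [Matrix.mul_zero, add_zero] at this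
  have hstd3 : Sys.Std (blk R N (n1 + 1) 0) (cblk R (n1 + 1) N 0) := by
    have := hstd1 0
    rwa [Matrix.mul_zero, add_zero] at this
  have hbb : blk R N (n1 + 1) 0 * blk R (n1 + 1) n1 0 = blk R N n1 0 := by
    have := a3 n1 (n1 + 1) N 0 0 (by omega)
    rwa [add_zero] at this
  have hcc : cblk R n1 (n1 + 1) 0 * cblk R (n1 + 1) N 0 = cblk R n1 N 0 := by
    have := a4 n1 (n1 + 1) N 0 0 (by omega)
    rwa [add_zero] at this
  have hlink : ∀ c : S.M n1, β1 (S.st n1 c) = T.st n1 (β0 c) := by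
    intro c
    apply (ev (n1 + 1)).injective
    funext k l
    have h5 := b5 n1 N big1.le big2.le big1.k0 big2.k0 c
    rw [hβ1, hev2, hβ0]
    unfold Sys.B
    rw [h5 _ _ (hstd k l), h5 _ _ (hstd2 l), h5 _ _ (hstd1 k), h5 _ _ hstd3,
      Matrix.add_mul, Matrix.mul_add, hbb, hcc, Matrix.mul_assoc, Matrix.mul_assoc]
  have hinj : ∀ (n : ℕ) (f : T.M n), T.st n f = 0 → f = 0 := by
    intro n f hf
    apply (ev n).injective
    funext k l
    have h5 := hev2 n f (k * cblk R n (n + 1) 0) (blk R (n + 1) n 0 * l)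
    rw [hf, map_zero, Matrix.mul_assoc, a1 n (n + 1) 0 (by omega), Matrix.mul_one,
      ← Matrix.mul_assoc, a1 n (n + 1) 0 (by omega), Matrix.one_mul] at h5
    rw [← h5, map_zero]
    rfl
  have htt : ∀ (n : ℕ) (t : GLn R (n + 2)), t.1 * blk R (n + 2) n 0 = blk R (n + 2) n 0 →
      cblk R n (n + 2) 0 * t.1 = cblk R n (n + 2) 0 → ∀ d : T.M n,
      t • T.st (n + 1) (T.st n d) = T.st (n + 1) (T.st n d) := by
    intro n t ht1 ht2 d
    apply (ev (n + 2)).injective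
    funext k l
    have h5 : blk R (n + 2) (n + 1) 0 * blk R (n + 1) n 0 = blk R (n + 2) n 0 := by
      have := a3 n (n + 1) (n + 2) 0 0 (by omega)
      rwa [add_zero] at this
    have h6 : cblk R n (n + 1) 0 * cblk R (n + 1) (n + 2) 0 = cblk R n (n + 2) 0 := by
      have := a4 n (n + 1) (n + 2) 0 0 (by omega)
      rwa [add_zero] at this
    have h7 : cblk R n (n + 2) 0 * (t⁻¹).1 = cblk R n (n + 2) 0 := by
      conv_lhs => rw [← ht2]
      rw [Matrix.mul_assoc]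
      have : t.1 * (t⁻¹).1 = 1 := t.mul_inv
      rw [this, Matrix.mul_one]
    have h8 : ∀ (k : Matrix (Fin (n1 + 1)) (Fin (n + 2)) R)
        (l : Matrix (Fin (n + 2)) (Fin (n1 + 1)) R),
        ev (n + 2) (T.st (n + 1) (T.st n d)) k l =
          ev n d (k * blk R (n + 2) n 0) (cblk R n (n + 2) 0 * l) := by
      intro k l
      rw [hev2 (n + 1), hev2 n, Matrix.mul_assoc, h5, ← Matrix.mul_assoc, h6]
    rw [hev1, h8, h8, Matrix.mul_assoc, ht1, ← Matrix.mul_assoc, h7]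
  have hβ : ∀ c, β1 c = 0 := hG R S T N1 n1 h3 h4 hN1 hinj htt β0 β1 heq hlink
  have hST0 : ∀ c : S.M (n1 + 1), S.ST big2.le c = 0 := by
    have hD : ∀ (g : GLn R (n1 + 1)) (c : S.M (n1 + 1)), S.ST big2.le (g • c - c) = 0 := by
      intro g c
      obtain ⟨g', hg', -⟩ := (hA2 R (n1 + 1) N big2.le).2.2.1 g
      have h5 : S.B big2.le c (blk R N (n1 + 1) (n1 + 1)) (cblk R (n1 + 1) N (2 * (n1 + 1))) = 0 := by
        have h6 := hβ1 c 1 1
        rw [hβ c, map_zero, Matrix.mul_one, Matrix.one_mul] at h6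
        rw [← h6]
        rfl
      have h6 := hJ R S k0 k2 n2 h1 h2 (n1 + 1) N big2.le big2 (n1 + 1) (2 * (n1 + 1)) le_rfl
        (by omega) (by have := big2.four; omega) (by have := big2.four; omega) (by omega) c h5
      have h7 := hH R S k0 k2 n2 h1 h2 (n1 + 1) N big2.le big2 c h6 g g' hg'
      obtain ⟨c1, c2, c3, c4, c5, c6, c7, c8⟩ := hA3 R S
      rw [sub_eq_add_neg, c5, c6, c8 _ _ _ g g' hg', h7, add_neg_cancel]
    obtain ⟨c1, c2, c3, c4, c5, c6, c7, c8⟩ := hA3 R S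
    have hX' := hX R S N1 h3 h4 (n1 + 1) (by omega)
    intro c
    have hc : c ∈ AddSubgroup.closure {x : S.M (n1 + 1) | ∃ (g : GLn R (n1 + 1))
        (c : S.M (n1 + 1)), x = g • c - c} := by
      rw [hX']
      trivial
    induction hc using AddSubgroup.closure_induction with
    | mem x hx =>
      obtain ⟨g, c, rfl⟩ := hx
      exact hD g c
    | zero => exact c7 _ _ _
    | add x y _ _ hx hy => rw [c5, hx, hy, add_zero]
    | neg x _ hx => rw [c6, hx, neg_zero]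
  intro c
  have hN' := hN R S N1 h3 (n1 + 1) N big2.le (by omega)
  have hc : c ∈ AddSubgroup.closure {x : S.M N | ∃ (g : GLn R N) (c : S.M (n1 + 1)),
      x = g • S.ST big2.le c} := by
    rw [hN']
    trivial
  induction hc using AddSubgroup.closure_induction with
  | mem x hx =>
    obtain ⟨g, d, rfl⟩ := hx
    rw [hST0, smul_zero]
  | zero => rfl
  | add x y _ _ hx hy => rw [hx, hy, add_zero]
  | neg x _ hx => rw [hx, neg_zero]

end Pool.Agent.SLZ
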