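import Pool.Agent.SLZ.StV2
import Pool.Agent.SLZ.MA

/-!
# SLZ, module V2 (helper47): split frames are highly connected
-/

set_option autoImplicit false
set_option linter.unusedVariables false

noncomputable section

namespace Pool.Agent.SLZ

section

variable {V W : Type}

theorem V2_map {s : Set (List V)} {t : Set (List W)} {j : ℕ} {c : List V →₀ ℤ} (f : V → W)
    (hc : c ∈ Ch s j) (h : ∀ l ∈ s, l.map f ∈ t) : c.mapDomain (List.map f) ∈ Ch t j := by
  classical
  rw [MA_mem]
  intro l hl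
  have h1 := Finsupp.mapDomain_support hl
  rw [Finset.mem_image] at h1
  obtain ⟨l', hl', rfl⟩ := h1
  obtain ⟨h2, h3⟩ := MA_mem.1 hc l' hl'
  exact ⟨h l' h2, by rw [List.length_map, h3]⟩

theorem V2_inv {s : Set (List W)} {j : ℕ} {c : List W →₀ ℤ} (f : V → W) (g : W → V)
    (hc : c ∈ Ch s j) (h : ∀ l ∈ s, ∀ w ∈ l, f (g w) = w) :
    (c.mapDomain (List.map g)).mapDomain (List.map f) = c := by
  rw [← Finsupp.mapDomain_comp]
  have h1 : c.mapDomain (List.map f ∘ List.map g) = c.mapDomain id := by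
    refine Finsupp.mapDomain_congr fun l hl => ?_
    obtain ⟨h2, -⟩ := MA_mem.1 hc l hl
    show List.map f (List.map g l) = l
    rw [List.map_map]
    refine (List.map_congr_left (g := id) fun w hw => ?_).trans (List.map_id l)
    exact h l h2 w hw
  rw [h1, Finsupp.mapDomain_id]

/-- transport of exactness -/
theorem V2_ex (A : Cx V) (B : Cx W) (f : V → W) (g : W → V) (j : ℕ) (h1 : ∀ l ∈ A.s, l.map f ∈ B.s)
    (h2 : ∀ l ∈ B.s, l.map g ∈ A.s) (h3 : ∀ l ∈ B.s, ∀ w ∈ l, f (g w) = w) (h : Ex A j) : Ex B j := by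
  intro z hz hz0
  obtain ⟨y, hy, hyz⟩ := h _ (V2_map g hz h2) (by rw [MA_4, hz0, Finsupp.mapDomain_zero])
  refine ⟨y.mapDomain (List.map f), V2_map f hy h1, ?_⟩
  rw [MA_4, hyz]
  exact V2_inv f g hz h3

end

section

variable {Λ : Type} [CommRing Λ] {V M : Type} [AddCommGroup M] [Module Λ M] {q : V → M}
  {l : V → (M →ₗ[Λ] Λ)} {T : Set V}

/-- the left entries -/
theorem V2_left (v0 : V) {σ k : List (V ⊕ (M →ₗ[Λ] Λ))} (h : σ ++ k ∈ (KX q l T).s)
    (hk : ∀ w ∈ k, w ∈ Set.range (Sum.inl : V → V ⊕ (M →ₗ[Λ] Λ))) :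
    k.map (Sum.elim id fun _ => v0) ∈
      (Fl (sfr q l) {v | v ∈ T ∧ ∀ f, Sum.inr f ∈ σ → f (q v) = 0}).s := by
  obtain ⟨h1, h2, h3, -⟩ := h
  have key : ∀ x ∈ k.map (Sum.elim id fun _ => v0), Sum.inl x ∈ k := by
    intro x hx
    obtain ⟨w, hw, rfl⟩ := List.mem_map.1 hx
    obtain ⟨v, rfl⟩ := hk w hw
    exact hw
  intro x hx
  have hx' := List.mem_append_right σ (key x hx)
  refine ⟨⟨h1 x hx', fun f hf => h3 x f hx' (List.mem_append_left k hf)⟩, fun y hy => ?_⟩
  exact h2 x y hx' (List.mem_append_right σ (key y hy))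

/-- the converse -/
theorem V2_right {σ : List (V ⊕ (M →ₗ[Λ] Λ))} (h : σ ∈ (KX q l T).s)
    (hσ : ∀ w ∈ σ, w ∉ Set.range (Sum.inl : V → V ⊕ (M →ₗ[Λ] Λ))) {k : List V}
    (hk : k ∈ (Fl (sfr q l) {v | v ∈ T ∧ ∀ f, Sum.inr f ∈ σ → f (q v) = 0}).s) :
    σ ++ k.map Sum.inl ∈ (KX q l T).s := by
  obtain ⟨-, -, -, d, h4⟩ := h
  have kl : ∀ v : V, Sum.inl v ∈ σ ++ k.map Sum.inl → v ∈ k := by
    intro v hv
    rcases List.mem_append.1 hv with h5 | h5
    · exact absurd ⟨v, rfl⟩ (hσ _ h5)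
    · obtain ⟨v', hv', h6⟩ := List.mem_map.1 h5
      rw [← Sum.inl_injective h6]
      exact hv'
  have kr : ∀ f : M →ₗ[Λ] Λ, Sum.inr f ∈ σ ++ k.map Sum.inl → Sum.inr f ∈ σ := by
    intro f hf
    rcases List.mem_append.1 hf with h5 | h5
    · exact h5
    · obtain ⟨v', hv', h6⟩ := List.mem_map.1 h5
      exact absurd h6 Sum.inl_ne_inr
  refine ⟨fun v hv => (hk v (kl v hv)).1.1, fun v w hv hw => (hk v (kl v hv)).2 w (kl w hw),
    fun v f hv hf => (hk v (kl v hv)).1.2 f (kr f hf), d, fun f g hf hg => h4 f g (kr f hf) (kr g hg)⟩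

/-- the induction step -/
theorem V2_step (hP : St_VP) (h2a : St_V2a) (h2b : St_V2b) (h2c : St_V2c) {s c : ℕ}
    (hK : KerFree Λ s) (hT : ∀ n, TA Λ s n) (ih : ∀ c' ≤ c, SFP Λ s c') {n : ℕ}
    (hn : 2 * (c + 1) + s ≤ n) (e : M ≃ₗ[Λ] (Fin n → Λ)) (hS : SFT q l T) :
    Conn (Fl (sfr q l) T) (c + 1) := by
  classical
  obtain ⟨v0, hv0, -⟩ := hS.2 (e.symm (Pi.single ⟨0, by omega⟩ 1))
    (LinearMap.proj (⟨0, by omega⟩ : Fin n) ∘ₗ e.toLinearMap) (by
      show (e (e.symm (Pi.single (⟨0, by omega⟩ : Fin n) 1))) ⟨0, by omega⟩ = 1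
      rw [LinearEquiv.apply_symm_apply, Pi.single_eq_same])
  intro j hj
  rcases Nat.lt_or_ge j c with h | h
  · exact ih c le_rfl n V M q l T (by omega) ⟨e⟩ hS j h
  have hjc : j = c := by omega
  subst hjc
  have hgi : ∀ w ∈ Set.range (Sum.inl : V → V ⊕ (M →ₗ[Λ] Λ)),
      (Sum.inl (Sum.elim id (fun _ => v0) w) : V ⊕ (M →ₗ[Λ] Λ)) = w := by
    rintro _ ⟨v, rfl⟩
    rfl
  have hbX : Conn (KX q l T) (j + 1) :=
    h2b Λ s hK hT n (j + 1) V M q l T ⟨e⟩ hS.1 (by omega)
  refine V2_ex (rs (KX q l T) (Set.range Sum.inl)) (Fl (sfr q l) T) (Sum.elim id fun _ => v0) Sum.inl j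
    ?_ ?_ (fun _ _ _ _ => rfl) ?_
  · intro k hk
    have h1 := V2_left (σ := []) v0 hk.1 hk.2
    intro x hx
    exact ⟨(h1 x hx).1.1, (h1 x hx).2⟩
  · intro k hk
    refine ⟨?_, fun w hw => ?_⟩
    · refine ⟨fun v hv => ?_, fun v w hv hw => ?_, fun v f hv hf => ?_, 0, fun f g hf hg => ?_⟩
      · obtain ⟨v', hv', h6⟩ := List.mem_map.1 hv
        rw [← Sum.inl_injective h6]
        exact (hk v' hv').1
      · obtain ⟨v', hv', h6⟩ := List.mem_map.1 hv
        obtain ⟨w', hw', h7⟩ := List.mem_map.1 hw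
        rw [← Sum.inl_injective h6, ← Sum.inl_injective h7]
        exact (hk v' hv').2 w' hw'
      · obtain ⟨v', hv', h6⟩ := List.mem_map.1 hf
        exact absurd h6 Sum.inl_ne_inr
      · obtain ⟨v', hv', h6⟩ := List.mem_map.1 hf
        exact absurd h6 Sum.inl_ne_inr
    · obtain ⟨v', hv', h6⟩ := List.mem_map.1 hw
      exact ⟨v', h6⟩
  · refine (hP _ (KX q l T) (Set.range Sum.inl)).2.2.2 j (hbX j (Nat.lt_succ_self j)) ?_ ?_
    · intro σ hσ2 hσn hσX
      by_cases hσK : σ ∈ (KX q l T).s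
      · obtain ⟨h1, h2, h3, d, h4⟩ := hσK
        have hσK : σ ∈ (KX q l T).s := ⟨h1, h2, h3, d, h4⟩
        rcases Nat.lt_or_ge (j + 1) σ.length with hlen | hlen
        · have h0 : j + 2 - σ.length = 0 := by omega
          rw [h0]
          exact fun i hi => absurd hi (Nat.not_lt_zero i)
        let F : Fin σ.length → (M →ₗ[Λ] Λ) := fun i => Sum.elim (fun _ => 0) id (σ.get i)
        have hF : ∀ i, Sum.inr (F i) = σ.get i := by
          intro i
          have h6 : ∀ x : V ⊕ (M →ₗ[Λ] Λ), x ∉ Set.range (Sum.inl : V → V ⊕ (M →ₗ[Λ] Λ)) →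
              Sum.inr (Sum.elim (fun _ => 0) id x) = x := by
            rintro (v | f) h7
            · exact absurd ⟨v, rfl⟩ h7
            · rfl
          exact h6 _ (hσX (σ.get i) (List.get_mem σ i))
        have hFm : ∀ i, (Sum.inr (F i) : V ⊕ (M →ₗ[Λ] Λ)) ∈ σ := fun i => by
          rw [hF]
          exact List.get_mem σ i
        have hδ : ∀ i k, F i (d (F k)) = if i = k then 1 else 0 := by
          intro i k
          by_cases hik : i = k
          · rw [if_pos hik]
            exact (h4 _ _ (hFm i) (hFm k)).1 (by rw [hik])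
          · rw [if_neg hik]
            refine (h4 _ _ (hFm i) (hFm k)).2 fun h5 => hik ?_
            have h6 : σ.get i = σ.get k := by rw [← hF, ← hF, h5]
            exact (List.nodup_iff_injective_get.1 hσn) h6
        have hA := h2a Λ s (j + 2 - σ.length) hK (ih _ (by omega)) n σ.length V M q l T F
          (fun k => d (F k)) ∅ (by omega) ⟨e⟩ hS hδ
        intro i hi
        refine V2_ex (Fl (sfr q l) _) (lkX (KX q l T) (Set.range Sum.inl) σ) Sum.inl
          (Sum.elim id fun _ => v0) i ?_ ?_ ?_ (hA i hi)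
        · intro k hk
          refine ⟨V2_right hσK hσX fun x hx => ⟨⟨(hk x hx).1.1, fun f hf => ?_⟩, (hk x hx).2⟩,
            fun w hw => ?_⟩
          · obtain ⟨m, hm⟩ := List.get_of_mem hf
            have h5 : F m = f := by
              have h6 := hF m
              rw [hm] at h6
              exact Sum.inr_injective h6
            rw [← h5]
            exact (hk x hx).1.2.1 m
          · obtain ⟨v', hv', h6⟩ := List.mem_map.1 hw
            exact ⟨v', h6⟩
        · intro k hk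
          have h5 := V2_left v0 hk.1 hk.2
          intro x hx
          exact ⟨⟨(h5 x hx).1.1, fun m => (h5 x hx).1.2 _ (hFm m), fun m hm => hm.elim⟩, (h5 x hx).2⟩
        · intro k hk w hw
          exact hgi w (hk.2 w hw)
      · intro i _ z hz _
        refine ⟨0, Submodule.zero_mem _, ?_⟩
        rw [map_zero]
        symm
        rw [← Finsupp.support_eq_empty, Finset.eq_empty_iff_forall_notMem]
        intro k hk
        obtain ⟨h1, -⟩ := MA_mem.1 hz k hk
        exact hσK ((KX q l T).mono _ _ (List.subset_append_left σ k) h1.1)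
    · intro v hv w hw hw0
      rcases v with v | f
      · exact absurd ⟨v, rfl⟩ hv
      by_cases hfK : [Sum.inr f] ∈ (KX q l T).s
      · obtain ⟨-, -, -, d, h4⟩ := id hfK
        have hfd : f (d f) = 1 := (h4 f f (List.mem_singleton.2 rfl) (List.mem_singleton.2 rfl)).1 rfl
        have hin : ∀ k ∈ (lkX (KX q l T) (Set.range Sum.inl) [Sum.inr f]).s,
            k.map (Sum.elim id fun _ => v0) ∈ (Fl (sfr q l) {v | v ∈ T ∧ f (q v) = 0}).s := by
          intro k hk x hx
          have h5 := V2_left v0 hk.1 hk.2 x hx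
          exact ⟨⟨h5.1.1, h5.1.2 f (List.mem_singleton.2 rfl)⟩, h5.2⟩
        obtain ⟨g, hg, hgw⟩ := h2c Λ s j hK ih n V M q l T f (d f) (by omega) ⟨e⟩ hS hfd
          (w.mapDomain (List.map (Sum.elim id fun _ => v0))) (V2_map _ hw hin)
          (by rw [MA_4, hw0, Finsupp.mapDomain_zero])
        refine ⟨g.mapDomain (List.map Sum.inl), V2_map _ hg fun k hk => ?_, ?_⟩
        · refine ⟨?_, fun w hw => ?_⟩
          · refine ⟨fun v hv => ?_, fun v w hv hw => ?_, fun v f hv hf => ?_, 0, fun f g hf hg => ?_⟩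
            · obtain ⟨v', hv', h6⟩ := List.mem_map.1 hv
              rw [← Sum.inl_injective h6]
              exact (hk v' hv').1
            · obtain ⟨v', hv', h6⟩ := List.mem_map.1 hv
              obtain ⟨w', hw', h7⟩ := List.mem_map.1 hw
              rw [← Sum.inl_injective h6, ← Sum.inl_injective h7]
              exact (hk v' hv').2 w' hw'
            · obtain ⟨v', hv', h6⟩ := List.mem_map.1 hf
              exact absurd h6 Sum.inl_ne_inr
            · obtain ⟨v', hv', h6⟩ := List.mem_map.1 hf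
              exact absurd h6 Sum.inl_ne_inr
          · obtain ⟨v', hv', h6⟩ := List.mem_map.1 hw
            exact ⟨v', h6⟩
        · rw [MA_4, hgw]
          exact V2_inv _ _ hw fun k hk x hx => hgi x (hk.2 x hx)
      · refine ⟨0, Submodule.zero_mem _, ?_⟩
        rw [map_zero]
        symm
        rw [← Finsupp.support_eq_empty, Finset.eq_empty_iff_forall_notMem]
        intro k hk
        obtain ⟨h1, -⟩ := MA_mem.1 hw k hk
        exact hfK ((KX q l T).mono _ _ (List.subset_append_left [Sum.inr f] k) h1.1)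

end

/-- **V2.** Split frames are highly connected. -/
theorem thm_V2 (hJ : St_VJ) (hP : St_VP) (h2a : St_V2a) (h2b : St_V2b) (h2c : St_V2c) : St_V2 := by
  intro Λ _ s hs hK hT c
  have key : ∀ c, ∀ c' ≤ c, SFP Λ s c' := by
    intro c
    induction c with
    | zero =>
      intro c' hc'
      have h0 : c' = 0 := by omega
      subst h0
      intro n V M _ _ q l T _ _ _ j hj
      exact absurd hj (Nat.not_lt_zero j)
    | succ c ih =>
      intro c' hc'
      rcases Nat.lt_or_ge c' (c + 1) with h | h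
      · exact ih c' (by omega)
      have h0 : c' = c + 1 := by omega
      subst h0
      intro n V M _ _ q l T hn hM hS
      obtain ⟨e⟩ := hM
      exact V2_step hP h2a h2b h2c hK hT ih hn e hS
  exact key c c le_rfl

end Pool.Agent.SLZ
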