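import Pool.Agent.SLZ.StV2

/-!
# SLZ, VK2: variants of `KerFree` (helper97)
-/

set_option autoImplicit false
set_option linter.unusedVariables false

noncomputable section

namespace Pool.Agent.SLZ

theorem thm_VK2 : St_VK2 := by
  intro A _ s hK
  -- kernels of surjective maps from modules isomorphic to `A^n`
  have hmain : ∀ (n p : ℕ) (M : Type) [AddCommGroup M] [Module A M] (F : M →ₗ[A] (Fin p → A)),
      Nonempty (M ≃ₗ[A] (Fin n → A)) → p + s ≤ n → Function.Surjective F →
      Nonempty (LinearMap.ker F ≃ₗ[A] (Fin (n - p) → A)) := by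
    intro n p M _ _ F hM hp hF
    obtain ⟨e⟩ := hM
    obtain ⟨B⟩ := hK n p (F ∘ₗ (e.symm : (Fin n → A) →ₗ[A] M))
      (hF.comp e.symm.surjective) hp
    have h1 : (LinearMap.ker F).map (e : M →ₗ[A] (Fin n → A)) =
        LinearMap.ker (F ∘ₗ (e.symm : (Fin n → A) →ₗ[A] M)) := by
      ext x
      rw [LinearMap.mem_ker, LinearMap.comp_apply]
      constructor
      · rintro ⟨y, hy, rfl⟩
        have hy' : F y = 0 := hy
        change F (e.symm (e y)) = 0
        rw [LinearEquiv.symm_apply_apply, hy']
      · intro h
        exact ⟨e.symm x, h, e.apply_symm_apply x⟩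
    exact ⟨(e.submoduleMap (LinearMap.ker F)).trans
      ((LinearEquiv.ofEq _ _ h1).trans B.equivFun)⟩
  refine ⟨?_, ?_, ?_⟩
  · intro n p M _ _ f w K hM hp hfw hKf
    have hF : Function.Surjective (LinearMap.pi f) := by
      intro y
      refine ⟨∑ j, y j • w j, ?_⟩
      ext i
      change f i (∑ j, y j • w j) = y i
      rw [map_sum, Finset.sum_eq_single i]
      · rw [map_smul, hfw, if_pos rfl, smul_eq_mul, mul_one]
      · intro j _ hj
        rw [map_smul, hfw, if_neg (Ne.symm hj), smul_zero]
      · intro h
        exact absurd (Finset.mem_univ _) h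
    obtain ⟨u⟩ := hmain n p M (LinearMap.pi f) hM hp hF
    have h1 : K = LinearMap.ker (LinearMap.pi f) := by
      ext x
      rw [hKf, LinearMap.mem_ker]
      exact ⟨fun h => funext h, fun h i => congrFun h i⟩
    exact ⟨(LinearEquiv.ofEq _ _ h1).trans u⟩
  · intro n p K _ _ hp hM
    obtain ⟨u⟩ := hmain n p (K × (Fin p → A)) (LinearMap.snd A K (Fin p → A)) hM hp
      (fun y => ⟨(0, y), rfl⟩)
    let v : K ≃ₗ[A] LinearMap.ker (LinearMap.snd A K (Fin p → A)) :=
      { toFun := fun x => ⟨(x, 0), rfl⟩
        map_add' := fun x y => by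
          apply Subtype.ext
          simp
        map_smul' := fun c x => by
          apply Subtype.ext
          simp
        invFun := fun x => x.1.1
        left_inv := fun x => rfl
        right_inv := fun x => by
          obtain ⟨⟨x, y⟩, h⟩ := x
          have h' : y = 0 := h
          subst h'
          rfl }
    exact ⟨v.trans u⟩
  · intro n K _ _ ⟨e⟩
    have h1 : Function.Surjective ((LinearMap.snd A K (Fin n → A)) ∘ₗ
        (e.symm : (Fin n → A) →ₗ[A] K × (Fin n → A))) := by
      intro y
      refine ⟨e (0, y), ?_⟩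
      change (e.symm (e (0, y))).2 = y
      rw [LinearEquiv.symm_apply_apply]
    have h2 := OrzechProperty.injective_of_surjective_endomorphism _ h1
    refine ⟨fun x y => ?_⟩
    have h3 : e (x, 0) = e (y, 0) := by
      apply h2
      change (e.symm (e (x, 0))).2 = (e.symm (e (y, 0))).2
      rw [LinearEquiv.symm_apply_apply, LinearEquiv.symm_apply_apply]
    have h4 := e.injective h3
    exact (Prod.ext_iff.1 h4).1

end Pool.Agent.SLZ
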